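import Mathlib

set_option autoImplicit false

open MeasureTheory Module
open scoped RealInnerProductSpace

noncomputable section

namespace Pool.Agent.P.MP_181257_gt

variable {V : Type} [NormedAddCommGroup V] [InnerProductSpace ℝ V] [FiniteDimensional ℝ V]
  [MeasurableSpace V] [BorelSpace V]

/-- The volume `κ_m` of the unit ball of Euclidean `m`-space. -/
def ballVol (m : ℕ) : ℝ := (volume (Metric.closedBall (0 : EuclideanSpace ℝ (Fin m)) 1)).toReal

/-- The `i`-th intrinsic volume `V_i`, read off from Steiner's formula: with `n = dim V`,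
`vol (C + r B) = ∑ j, κ_(n-j) V_j(C) r^(n-j)` for `r ≥ 0`, so that `κ_(n-i) V_i(C)` is the
`(n-i)`-th right derivative at `r = 0` divided by `(n-i)!`. -/
def steinerVol (i : ℕ) (C : Set V) : ℝ :=
  iteratedDerivWithin (finrank ℝ V - i) (fun r : ℝ => (volume (Metric.cthickening r C)).toReal)
    (Set.Ici 0) 0 / (((finrank ℝ V - i).factorial : ℝ) * ballVol (finrank ℝ V - i))

/-- The `i`-th projection body: the set cut out by the support function
`u ↦ V_i (K | u^⊥)` on the unit sphere. -/
def projBodyS (i : ℕ) (K : Set V) : Set V :=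
  {x | ∀ u : V, ‖u‖ = 1 → ⟪x, u⟫ ≤ steinerVol i ((ℝ ∙ u)ᗮ.starProjection '' K)}

end Pool.Agent.P.MP_181257_gt
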