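import Pool.Agent.P.MP_181257_gt.DefsS

set_option autoImplicit false

open MeasureTheory Module
open scoped RealInnerProductSpace Pointwise

noncomputable section

namespace Pool.Agent.P.MP_181257_gt

variable {V : Type} [NormedAddCommGroup V] [InnerProductSpace ℝ V] [FiniteDimensional ℝ V]
  [MeasurableSpace V] [BorelSpace V]

/-- `K` is homothetic to its second projection body, for the classical projection body
`Π = Π_(n-1)` of the Euclidean space `V` of dimension `n`. -/
def SelfProj (K : Set V) : Prop :=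
  ∃ (x : V) (lam : ℝ), 0 < lam ∧
    K = x +ᵥ lam • projBodyS (finrank ℝ V - 1) (projBodyS (finrank ℝ V - 1) K)

/-- `C` is smooth: no point of `C` has two different outer unit normals. -/
def SmoothBody (C : Set V) : Prop :=
  ∀ z ∈ C, ∀ u u' : V, ‖u‖ = 1 → ‖u'‖ = 1 → (∀ y ∈ C, ⟪y, u⟫ ≤ ⟪z, u⟫) →
    (∀ y ∈ C, ⟪y, u'⟫ ≤ ⟪z, u'⟫) → u = u'

/-- `C` is an origin-symmetric convex body of `V`, and either `V` has dimension at most two, or `C`
is strictly convex, smooth and homothetic to its second projection body. -/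
def Piece (C : Set V) : Prop :=
  IsCompact C ∧ Convex ℝ C ∧ (interior C).Nonempty ∧ -C = C ∧
    (finrank ℝ V ≤ 2 ∨ (StrictConvex ℝ C ∧ SmoothBody C ∧ SelfProj C))

/-- `V` is a direct sum of nonzero subspaces `E j` and `K` is a translate of the Minkowski sum of
pieces `C j` of the Euclidean spaces `E j`. -/
def SumOfPieces (K : Set V) : Prop :=
  ∃ (r : ℕ) (E : Fin r → Submodule ℝ V) (C : ∀ j, Set (E j)) (x : V),
    iSupIndep E ∧ ⨆ j, E j = ⊤ ∧ K = x +ᵥ ∑ j, (Subtype.val : E j → V) '' C j ∧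
      ∀ j, E j ≠ ⊥ ∧ Piece (C j)

end Pool.Agent.P.MP_181257_gt
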