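import Pool.Agent.P.MP_181257_gt.Gauss

/-! Haar measure on the orthogonal group, polar formula, orthogonal invariance. -/

set_option autoImplicit false
set_option linter.unusedSectionVars false

open MeasureTheory ProbabilityTheory Module Set Filter Topology
open scoped RealInnerProductSpace ENNReal Pointwise Matrix

noncomputable section

namespace Pool.Agent.P.MP_181257_gt

variable {V : Type} [NormedAddCommGroup V] [InnerProductSpace ℝ V] [FiniteDimensional ℝ V]
  [MeasurableSpace V] [BorelSpace V]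

variable (V) in
/-- the orthogonal group -/
abbrev OG : Type := unitary (V →L[ℝ] V)

/-- action of the orthogonal group on vectors -/
def ap (g : OG V) (x : V) : V := (g : V →L[ℝ] V) x

theorem inner_ap (g : OG V) (x y : V) : ⟪ap g x, ap g y⟫ = ⟪x, y⟫ :=
  (Unitary.linearIsometryEquiv g).inner_map_map x y

theorem norm_ap (g : OG V) (x : V) : ‖ap g x‖ = ‖x‖ :=
  (Unitary.linearIsometryEquiv g).norm_map x

theorem ap_mul (g h : OG V) (x : V) : ap (g * h) x = ap g (ap h x) := rfl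

theorem ap_smul (g : OG V) (c : ℝ) (x : V) : ap g (c • x) = c • ap g x := map_smul _ _ _

theorem ap_pr (g : OG V) (a v : V) : ap g (pr a v) = pr (ap g a) (ap g v) :=
  map_pr (Unitary.linearIsometryEquiv g).toLinearIsometry a v

@[fun_prop] theorem continuous_ap {X : Type*} [TopologicalSpace X] {g : X → OG V} {x : X → V}
    (hg : Continuous g) (hx : Continuous x) : Continuous fun s => ap (g s) (x s) :=
  (continuous_subtype_val.comp hg).clm_apply hx

/-- the element of the group given by a linear isometry -/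
def ofIso (f : V ≃ₗᵢ[ℝ] V) : OG V := Unitary.linearIsometryEquiv.symm f

@[simp] theorem ap_ofIso (f : V ≃ₗᵢ[ℝ] V) (x : V) : ap (ofIso f) x = f x := rfl

instance : MeasurableSpace (OG V) := borel _

instance : BorelSpace (OG V) := ⟨rfl⟩

theorem exists_ap_eq {x y : V} (h : ‖x‖ = ‖y‖) :
    ∃ g : OG V, ap g x = y ∧ ap g y = x ∧ ∀ z, ⟪x - y, z⟫ = 0 → ap g z = z := by
  refine ⟨ofIso (Submodule.reflection (ℝ ∙ (x - y))ᗮ), Submodule.reflection_sub h, ?_, ?_⟩
  · have h1 := Submodule.reflection_sub h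
    have h2 := Submodule.reflection_reflection (ℝ ∙ (x - y))ᗮ x
    rwa [h1] at h2
  · intro z hz
    exact Submodule.reflection_mem_subspace_eq_self
      (Submodule.mem_orthogonal_singleton_iff_inner_right.2 hz)

instance : CompactSpace (OG V) := by
  have h : IsCompact ((unitary (V →L[ℝ] V) : Submonoid _) : Set (V →L[ℝ] V)) := by
    refine Metric.isCompact_of_isClosed_isBounded isClosed_unitary ?_
    refine (Metric.isBounded_closedBall (x := (0 : V →L[ℝ] V)) (r := 1)).subset fun g hg => ?_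
    rw [mem_closedBall_zero_iff]
    refine ContinuousLinearMap.opNorm_le_bound _ zero_le_one fun x => ?_
    rw [one_mul]
    exact (norm_ap ⟨g, hg⟩ x).le
  exact isCompact_iff_compactSpace.1 h

variable (V) in
/-- normalised Haar measure on the orthogonal group -/
def haar : Measure (OG V) := Measure.haarMeasure ⊤

instance : IsProbabilityMeasure (haar V) :=
  ⟨by simpa [haar] using (Measure.haarMeasure_self (G := OG V) (K₀ := ⊤))⟩

instance : (haar V).IsHaarMeasure := by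
  unfold haar
  infer_instance

instance : (haar V).IsMulRightInvariant := by
  refine ⟨fun g => ?_⟩
  have : IsProbabilityMeasure (Measure.map (· * g) (haar V)) :=
    Measure.isProbabilityMeasure_map (by fun_prop)
  exact Measure.isHaarMeasure_eq_of_isProbabilityMeasure _ _

instance haar_secondCountable : SecondCountableTopology (OG V) := by
  have : FiniteDimensional ℝ (V →L[ℝ] V) := inferInstance
  have : SecondCountableTopology (V →L[ℝ] V) := inferInstance
  exact TopologicalSpace.Subtype.secondCountableTopology _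

theorem haar_measurable_ap : Measurable fun p : OG V × V => ap p.1 p.2 :=
  (continuous_ap continuous_fst continuous_snd).measurable

@[fun_prop] theorem measurable_ap {X : Type*} [MeasurableSpace X] {g : X → OG V} {x : X → V}
    (hg : Measurable g) (hx : Measurable x) : Measurable fun s => ap (g s) (x s) := by
  exact haar_measurable_ap.comp (hg.prodMk hx)

theorem mp_ap (g : OG V) : MeasurePreserving (ap g) (stdGaussian V) (stdGaussian V) := by
  refine ⟨measurable_ap measurable_const measurable_id, ?_⟩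
  exact stdGaussian_map (Unitary.linearIsometryEquiv g)

theorem mp_ap_volume (g : OG V) : MeasurePreserving (ap g) (volume : Measure V) volume := by
  exact (Unitary.linearIsometryEquiv g).measurePreserving

/-- the group acts transitively on orthogonal pairs with given norms -/
theorem exists_ap_pair {x y x' y' : V} (hx : ‖x‖ = ‖x'‖) (hy : ‖y‖ = ‖y'‖) (h : ⟪x, y⟫ = 0)
    (h' : ⟪x', y'⟫ = 0) : ∃ g : OG V, ap g x = x' ∧ ap g y = y' := by
  obtain ⟨g₁, h1, -, -⟩ := exists_ap_eq hx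
  have hn : ‖ap g₁ y‖ = ‖y'‖ := by rw [norm_ap, hy]
  obtain ⟨g₂, h2, -, h3⟩ := exists_ap_eq hn
  refine ⟨g₂ * g₁, ?_, ?_⟩
  · rw [ap_mul, h1]
    refine h3 _ ?_
    rw [inner_sub_left, ← h1, inner_ap, h1, real_inner_comm, h, real_inner_comm, h', sub_zero]
  · rw [ap_mul, h2]

/-- polar formula for an invariant measure -/
theorem polar (Q : Measure V) [SFinite Q] (hQ : ∀ g : OG V, MeasurePreserving (ap g) Q Q)
    {e : V} (he : ‖e‖ = 1) {F : V → ℝ≥0∞} (hF : Measurable F) :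
    ∫⁻ x, F x ∂Q = ∫⁻ g, ∫⁻ x, F (‖x‖ • ap g e) ∂Q ∂(haar V) := by
  have h1 : ∀ g : OG V, ∫⁻ x, F x ∂Q = ∫⁻ x, F (ap g x) ∂Q := fun g =>
    ((hQ g).lintegral_comp hF).symm
  have h2 : ∀ x : V, ∫⁻ g, F (ap g x) ∂(haar V) = ∫⁻ g, F (‖x‖ • ap g e) ∂(haar V) := by
    intro x
    have hn : ‖‖x‖ • e‖ = ‖x‖ := by rw [norm_smul, he, mul_one, norm_norm]
    obtain ⟨h, hh, -, -⟩ := exists_ap_eq hn
    rw [← lintegral_mul_right_eq_self (fun g : OG V => F (‖x‖ • ap g e)) h]
    refine lintegral_congr fun g => ?_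
    rw [← ap_smul, ap_mul, hh]
  calc ∫⁻ x, F x ∂Q = ∫⁻ g, ∫⁻ x, F (ap g x) ∂Q ∂(haar V) := by
        simp_rw [← h1]
        simp
    _ = ∫⁻ x, ∫⁻ g, F (ap g x) ∂(haar V) ∂Q :=
        lintegral_lintegral_swap (Measurable.aemeasurable (hF.comp haar_measurable_ap))
    _ = ∫⁻ x, ∫⁻ g, F (‖x‖ • ap g e) ∂(haar V) ∂Q := lintegral_congr h2
    _ = ∫⁻ g, ∫⁻ x, F (‖x‖ • ap g e) ∂Q ∂(haar V) := by
        refine (lintegral_lintegral_swap (Measurable.aemeasurable ?_)).symm
        exact hF.comp (by fun_prop)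

theorem haar_exists_unit (hn : 1 ≤ finrank ℝ V) : ∃ e : V, ‖e‖ = 1 := by
  have : Nontrivial V := Module.finrank_pos_iff.1 hn
  exact exists_norm_eq V zero_le_one

theorem haar_radial (hn : 1 ≤ finrank ℝ V) {e : V} (he : ‖e‖ = 1) {ρ : ℝ → ℝ≥0∞}
    (hρ : Measurable ρ) {ψ : V → ℝ≥0∞} (hψ : Measurable ψ)
    (hom : ∀ t : ℝ, 0 < t → ∀ x, ψ (t • x) = ψ x) :
    ∫⁻ x, ρ ‖x‖ * ψ x ∂(stdGaussian V)
      = (∫⁻ x, ρ ‖x‖ ∂(stdGaussian V)) * ∫⁻ g, ψ (ap g e) ∂(haar V) := by
  have hF : Measurable fun x : V => ρ ‖x‖ * ψ x := (hρ.comp measurable_norm).mul hψ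
  have hG : Measurable fun g : OG V => ψ (ap g e) := hψ.comp (by fun_prop)
  rw [polar (stdGaussian V) mp_ap he hF, ← lintegral_const_mul _ hG]
  refine lintegral_congr fun g => ?_
  have hρ' : Measurable fun x : V => ρ ‖x‖ := hρ.comp measurable_norm
  rw [← lintegral_mul_const _ hρ']
  refine lintegral_congr_ae ?_
  filter_upwards [ae_ne_zero hn] with x hx
  rw [hom _ (norm_pos_iff.2 hx), norm_smul, norm_ap, he, mul_one, norm_norm]

/-- norm and direction of a Gaussian vector are independent -/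
theorem radial_indep_lintegral (hn : 1 ≤ finrank ℝ V) {ρ : ℝ → ℝ≥0∞} (hρ : Measurable ρ)
    {ψ : V → ℝ≥0∞} (hψ : Measurable ψ) (hom : ∀ t : ℝ, 0 < t → ∀ x, ψ (t • x) = ψ x) :
    ∫⁻ x, ρ ‖x‖ * ψ x ∂(stdGaussian V)
      = (∫⁻ x, ρ ‖x‖ ∂(stdGaussian V)) * ∫⁻ x, ψ x ∂(stdGaussian V) := by
  obtain ⟨e, he⟩ := haar_exists_unit hn
  have h1 := haar_radial hn he (ρ := fun _ => 1) measurable_const hψ hom
  simp only [one_mul, lintegral_const, measure_univ] at h1
  rw [haar_radial hn he hρ hψ hom, h1]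

theorem radial_indep (hn : 1 ≤ finrank ℝ V) (p : ℕ) {ψ : V → ℝ} (hψ : Bd ψ) (h0 : ∀ x, 0 ≤ ψ x)
    (hom : ∀ t : ℝ, 0 < t → ∀ x, ψ (t • x) = ψ x) :
    ∫ x, ‖x‖ ^ p * ψ x ∂(stdGaussian V)
      = (∫ x, ‖x‖ ^ p ∂(stdGaussian V)) * ∫ x, ψ x ∂(stdGaussian V) := by
  have h1 := radial_indep_lintegral hn (ρ := fun r => ENNReal.ofReal (r ^ p)) (by fun_prop)
    (ψ := fun x => ENNReal.ofReal (ψ x)) hψ.meas.ennreal_ofReal
    (fun t ht x => by rw [hom t ht])
  have hm : Measurable fun x : V => ‖x‖ ^ p := by fun_prop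
  rw [integral_eq_lintegral_of_nonneg_ae (ae_of_all _ fun x => mul_nonneg (by positivity) (h0 x))
      (hm.mul hψ.meas).aestronglyMeasurable,
    integral_eq_lintegral_of_nonneg_ae (ae_of_all _ fun x => by positivity)
      hm.aestronglyMeasurable,
    integral_eq_lintegral_of_nonneg_ae (ae_of_all _ h0) hψ.meas.aestronglyMeasurable,
    ← ENNReal.toReal_mul, ← h1]
  congr 1
  refine lintegral_congr fun x => ?_
  rw [ENNReal.ofReal_mul (by positivity)]

theorem haar_mp_toLp {k : ℕ} :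
    MeasurePreserving (WithLp.toLp 2 : (Fin k → V) → PiLp 2 fun _ : Fin k => V) (γk V k)
      (stdGaussian (PiLp 2 fun _ : Fin k => V)) := by
  refine ⟨by fun_prop, ?_⟩
  apply Measure.ext_of_charFun
  ext t
  rw [charFun_pi, charFun_stdGaussian]
  simp_rw [charFun_stdGaussian, ← Complex.exp_sum, ← Complex.ofReal_pow, PiLp.norm_sq_eq_of_L2]
  simp [Finset.sum_div, neg_div]

theorem haar_norm_sq_rows {k : ℕ} (Q : Matrix (Fin k) (Fin k) ℝ) (hQ : Q * Qᵀ = 1)
    (t : Fin k → V) : ∑ l, ‖∑ a, Q a l • t a‖ ^ 2 = ∑ a, ‖t a‖ ^ 2 := by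
  have h1 : ∀ l, ‖∑ a, Q a l • t a‖ ^ 2 = ∑ a, ∑ b, Q a l * Q b l * ⟪t a, t b⟫ := by
    intro l
    rw [← real_inner_self_eq_norm_sq, sum_inner]
    refine Finset.sum_congr rfl fun a _ => ?_
    rw [inner_sum]
    refine Finset.sum_congr rfl fun b _ => ?_
    rw [real_inner_smul_left, real_inner_smul_right, mul_assoc]
  simp_rw [h1]
  rw [Finset.sum_comm]
  refine Finset.sum_congr rfl fun a _ => ?_
  rw [Finset.sum_comm]
  have h2 : ∀ b, ∑ l, Q a l * Q b l * ⟪t a, t b⟫ = if a = b then ⟪t a, t b⟫ else 0 := by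
    intro b
    rw [← Finset.sum_mul]
    have := congrFun (congrFun hQ a) b
    rw [Matrix.mul_apply, Matrix.one_apply] at this
    simp only [Matrix.transpose_apply] at this
    rw [this]
    split_ifs <;> simp
  simp_rw [h2]
  simp

/-- a Gaussian matrix is invariant under orthogonal row operations -/
theorem mp_orth {k : ℕ} (Q : Matrix (Fin k) (Fin k) ℝ) (hQ : Q * Qᵀ = 1) :
    MeasurePreserving (fun g : Fin k → V => fun a => ∑ l, Q a l • g l) (γk V k) (γk V k) := by
  have hT : MeasurePreserving (fun z : PiLp 2 fun _ : Fin k => V =>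
      (WithLp.toLp 2 fun a => ∑ l, Q a l • z l : PiLp 2 fun _ : Fin k => V))
      (stdGaussian _) (stdGaussian _) := by
    refine mp_coiso _ (by fun_prop) (fun t => WithLp.toLp 2 fun l => ∑ a, Q a l • t a) ?_ ?_
    · intro z t
      simp only [PiLp.inner_apply, sum_inner, inner_sum, real_inner_smul_left,
        real_inner_smul_right]
      exact Finset.sum_comm
    · intro t
      refine (pow_left_inj₀ (norm_nonneg _) (norm_nonneg _) two_ne_zero).1 ?_
      rw [PiLp.norm_sq_eq_of_L2, PiLp.norm_sq_eq_of_L2]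
      exact haar_norm_sq_rows Q hQ _
  have h1 : MeasurePreserving (MeasurableEquiv.toLp 2 (Fin k → V)) (γk V k)
      (stdGaussian (PiLp 2 fun _ : Fin k => V)) := haar_mp_toLp
  exact (h1.symm.comp hT).comp h1

theorem exists_orth {k : ℕ} (t : Fin (k + 1) → ℝ) :
    ∃ Q : Matrix (Fin (k + 1)) (Fin (k + 1)) ℝ,
      Q * Qᵀ = 1 ∧ Q *ᵥ t = Pi.single 0 √(∑ l, t l ^ 2) := by
  set r := √(∑ l, t l ^ 2) with hr
  have hr2 : r ^ 2 = ∑ l, t l ^ 2 := Real.sq_sqrt (by positivity)
  set w : Fin (k + 1) → ℝ := t - Pi.single 0 r with hw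
  have htt : t ⬝ᵥ t = r ^ 2 := by rw [hr2]; simp [dotProduct, sq]
  have hwt : w ⬝ᵥ t = r ^ 2 - r * t 0 := by
    rw [hw, sub_dotProduct, htt]; simp
  have hww : w ⬝ᵥ w = 2 * (r ^ 2 - r * t 0) := by
    conv_lhs => rw [hw]
    rw [dotProduct_sub, ← hw, hwt, hw]
    simp
    ring
  by_cases h0 : w ⬝ᵥ w = 0
  · refine ⟨1, by simp, ?_⟩
    rw [Matrix.one_mulVec]
    exact sub_eq_zero.1 (dotProduct_self_eq_zero.1 h0)
  · refine ⟨1 - (2 / (w ⬝ᵥ w)) • Matrix.vecMulVec w w, ?_, ?_⟩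
    · rw [Matrix.transpose_sub, Matrix.transpose_one, Matrix.transpose_smul,
        Matrix.transpose_vecMulVec]
      simp only [Matrix.sub_mul, Matrix.mul_sub, Matrix.one_mul, Matrix.mul_one, Matrix.smul_mul,
        Matrix.mul_smul, Matrix.vecMulVec_mul_vecMulVec, Matrix.vecMulVec_smul, smul_smul]
      rw [div_mul_cancel₀ _ h0]
      module
    · rw [Matrix.sub_mulVec, Matrix.one_mulVec, Matrix.smul_mulVec, Matrix.vecMulVec_mulVec]
      have : (2 / (w ⬝ᵥ w)) * (w ⬝ᵥ t) = 1 := by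
        rw [div_mul_eq_mul_div, div_eq_one_iff_eq h0, hww, hwt]
      rw [op_smul_eq_smul, smul_smul, this, one_smul, hw, sub_sub_cancel]

/-- mean Euclidean norm of a standard Gaussian vector in dimension `d` -/
def aN (d : ℕ) : ℝ≥0∞ :=
  ∫⁻ t : Fin d → ℝ, ENNReal.ofReal √(∑ l, t l ^ 2) ∂(Measure.pi fun _ => gaussianReal 0 1)

theorem haar_aN_eq (d : ℕ) :
    aN d = ∫⁻ x, ENNReal.ofReal ‖x‖ ∂(stdGaussian (EuclideanSpace ℝ (Fin d))) := by
  rw [← map_pi_eq_stdGaussian, lintegral_map (by fun_prop) (by fun_prop), aN]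
  refine lintegral_congr fun t => ?_
  rw [EuclideanSpace.norm_eq]
  simp

theorem aN_ne_top (d : ℕ) : aN d ≠ ∞ := by
  rw [haar_aN_eq]
  have h := (integrable_norm_pow (V := EuclideanSpace ℝ (Fin d)) 1).2
  rw [hasFiniteIntegral_iff_ofReal (ae_of_all _ fun x => by positivity)] at h
  simpa using h.ne

theorem aN_ne_zero (d : ℕ) : aN (d + 1) ≠ 0 := by
  rw [haar_aN_eq]
  intro h
  rw [lintegral_eq_zero_iff (by fun_prop)] at h
  have h1 := ae_ne_zero (V := EuclideanSpace ℝ (Fin (d + 1))) (by simp)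
  obtain ⟨x, hx, hx'⟩ := (h.and h1).exists
  have : ‖x‖ ≤ 0 := by simpa using hx
  exact hx' (norm_le_zero_iff.1 this)

theorem haar_mp_tail {k : ℕ} :
    MeasurePreserving (fun g : Fin (k + 1) → V => fun a : Fin k => g a.succ)
      (γk V (k + 1)) (γk V k) := by
  refine ⟨by fun_prop, ?_⟩
  have h1 := mp_cons (k := k) (stdGaussian V)
  change Measure.map _ (Measure.pi fun _ => stdGaussian V) = _
  rw [← h1.map_eq, Measure.map_map (by fun_prop) h1.measurable]
  exact (measurePreserving_snd (μ := stdGaussian V) (ν := γk V k)).map_eq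

/-- removing the direction `u` and one row from a Gaussian matrix -/
theorem core {k : ℕ} {u : V} (hu : ‖u‖ = 1) {Φ : (Fin (k + 1) → V) → ℝ≥0∞}
    {Θ : (Fin k → V) → ℝ≥0∞} (hΦ : Measurable Φ) (hΘ : Measurable Θ)
    (h : ∀ (t : Fin (k + 1) → ℝ) (g : Fin (k + 1) → V) (Q : Matrix (Fin (k + 1)) (Fin (k + 1)) ℝ)
      (r : ℝ), Q * Qᵀ = 1 → 0 ≤ r → Q *ᵥ t = Pi.single 0 r →
      Φ (fun l => pr u (g l) + t l • u)
        = ENNReal.ofReal r * Θ (fun a => ∑ l, Q a.succ l • g l)) :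
    ∫⁻ g, Φ g ∂(γk V (k + 1)) = aN (k + 1) * ∫⁻ g, Θ g ∂(γk V k) := by
  have h1 := mp_pi_split (k := k + 1) (mp_pr_split hu)
  have hm : Measurable fun q : (Fin (k + 1) → V) × (Fin (k + 1) → ℝ) =>
      Φ fun j => pr u (q.1 j, q.2 j).1 + (q.1 j, q.2 j).2 • u := hΦ.comp h1.measurable
  rw [← h1.lintegral_comp hΦ, lintegral_prod_symm _ hm.aemeasurable, aN,
    ← lintegral_mul_const _ (by fun_prop)]
  refine lintegral_congr fun t => ?_
  obtain ⟨Q, hQ, hQt⟩ := exists_orth t
  have h2 := (haar_mp_tail (V := V) (k := k)).comp (mp_orth Q hQ)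
  have hm2 : Measurable fun g : Fin (k + 1) → V => Θ fun a => ∑ l, Q a.succ l • g l :=
    hΘ.comp h2.measurable
  rw [← h2.lintegral_comp hΘ]
  refine Eq.trans ?_ (lintegral_const_mul _ hm2)
  refine lintegral_congr fun g => ?_
  exact h t g Q _ hQ (Real.sqrt_nonneg _) hQt

end Pool.Agent.P.MP_181257_gt
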