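import Pool.Agent.P.MP_181257_gt.AFKer
import Pool.Agent.P.MP_181257_gt.Haar

/-! Alexandrov-Fenchel inequality for zonoids with bounded densities. -/

set_option autoImplicit false
set_option linter.unusedSectionVars false

open MeasureTheory ProbabilityTheory Module Set Filter Topology
open scoped RealInnerProductSpace ENNReal Pointwise Matrix

noncomputable section

namespace Pool.Agent.P.MP_181257_gt

variable {V : Type} [NormedAddCommGroup V] [InnerProductSpace ℝ V] [FiniteDimensional ℝ V]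
  [MeasurableSpace V] [BorelSpace V]

theorem af_mp_integral {A B : Type} [MeasurableSpace A] [MeasurableSpace B] {μ : Measure A}
    {ν : Measure B} {T : A → B} (h : MeasurePreserving T μ ν) {f : B → ℝ}
    (hf : AEStronglyMeasurable f ν) : ∫ a, f (T a) ∂μ = ∫ b, f b ∂ν := by
  rw [← h.map_eq] at hf ⊢
  rw [integral_map h.measurable.aemeasurable hf]

theorem af_measurable {k : ℕ} (T : V →L[ℝ] V) {g : Fin k → V → ℝ} (hg : ∀ j, Bd (g j)) :
    Measurable fun x : Fin k → V => D (fun j => T (x j)) * ∏ j, g j (x j) := by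
  refine Measurable.mul (by fun_prop) (Finset.measurable_prod _ fun j _ => ?_)
  exact (hg j).meas.comp (measurable_pi_apply j)

theorem integrable_D {k : ℕ} (T : V →L[ℝ] V) (hT : ∀ x, ‖T x‖ ≤ ‖x‖) {g : Fin k → V → ℝ}
    (hg : ∀ j, Bd (g j)) :
    Integrable (fun x : Fin k → V => D (fun j => T (x j)) * ∏ j, g j (x j)) (γk V k) := by
  choose C hC using fun j => (hg j).bdd
  refine Integrable.mono' ((integrable_prod_norm_pow (V := V) k 1).mul_const (∏ j, C j))
    (af_measurable T hg).aestronglyMeasurable (ae_of_all _ fun x => ?_)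
  rw [Real.norm_eq_abs, abs_mul, abs_of_nonneg (D_nonneg _), Finset.abs_prod]
  refine mul_le_mul ((D_le_prod _).trans ?_) ?_ (by positivity) (by positivity)
  · exact Finset.prod_le_prod (fun _ _ => norm_nonneg _) fun j _ => by simpa using hT _
  · exact Finset.prod_le_prod (fun _ _ => abs_nonneg _) fun j _ => hC j _

/-- mixed volume of projected zonoids -/
def II {k : ℕ} (T : V →L[ℝ] V) (g : Fin k → V → ℝ) : ℝ :=
  ∫ x, D (fun j => T (x j)) * ∏ j, g j (x j) ∂(γk V k)

/-- the projection in the link of `a` -/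
def lk (T : V →L[ℝ] V) (a : V) : V →L[ℝ] V := (prL (T a)).comp T

@[simp] theorem lk_apply (T : V →L[ℝ] V) (a x : V) : lk T a x = pr (T a) (T x) := by simp [lk]

/-- `T` is a contraction that fixes a subspace of dimension at least `k` -/
structure Ex (T : V →L[ℝ] V) (k : ℕ) : Prop where
  le : ∀ x, ‖T x‖ ≤ ‖x‖
  fix : ∃ U : Submodule ℝ V, k ≤ finrank ℝ U ∧ ∀ u ∈ U, T u = u

theorem lk_le {T : V →L[ℝ] V} (hT : ∀ x, ‖T x‖ ≤ ‖x‖) (a x : V) : ‖lk T a x‖ ≤ ‖x‖ := by
  rw [lk_apply]; exact (norm_pr_le _ _).trans (hT x)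

theorem Ex.lk {T : V →L[ℝ] V} {k : ℕ} (h : Ex T (k + 1)) (a : V) : Ex (lk T a) k := by
  obtain ⟨U, hU, hfix⟩ := h.fix
  refine ⟨lk_le h.le a, U ⊓ (ℝ ∙ T a)ᗮ, ?_, fun u hu => ?_⟩
  · have h1 := Submodule.finrank_sup_add_finrank_inf_eq U (ℝ ∙ T a)ᗮ
    have h2 := Submodule.finrank_le (U ⊔ (ℝ ∙ T a)ᗮ)
    have h3 := Submodule.finrank_add_finrank_orthogonal (ℝ ∙ T a)
    have h4 : finrank ℝ (ℝ ∙ T a) ≤ 1 := by
      simpa using finrank_span_le_card (R := ℝ) ({T a} : Set V)
    omega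
  · rw [lk_apply, hfix u hu.1]
    exact pr_of_inner_eq_zero (Submodule.mem_orthogonal_singleton_iff_inner_right.1 hu.2)

theorem Ex.mono {T : V →L[ℝ] V} {k l : ℕ} (h : Ex T k) (hl : l ≤ k) : Ex T l := by
  obtain ⟨U, hU, hfix⟩ := h.fix
  exact ⟨h.le, U, hl.trans hU, hfix⟩

theorem integrable_norm_T {T : V →L[ℝ] V} (hT : ∀ x, ‖T x‖ ≤ ‖x‖) :
    Integrable (fun x => ‖T x‖) (stdGaussian V) :=
  Integrable.mono' (integrable_norm_pow (V := V) 1) (by fun_prop)
    (ae_of_all _ fun x => by simpa using hT x)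

theorem Ex.c0_le {T : V →L[ℝ] V} (h : Ex T 1) : c0 ≤ ∫ x, ‖T x‖ ∂(stdGaussian V) := by
  obtain ⟨U, hU, hfix⟩ := h.fix
  have : Nontrivial U := finrank_pos_iff.1 hU
  obtain ⟨v, hv⟩ := exists_ne (0 : U)
  have hv' : (v : V) ≠ 0 := fun e => hv (Subtype.ext e)
  set u : V := ‖(v : V)‖⁻¹ • (v : V) with hu
  have hu1 : ‖u‖ = 1 := norm_smul_inv_norm hv'
  have huT : T u = u := hfix u (U.smul_mem _ v.2)
  set w : V := ContinuousLinearMap.adjoint T u with hw
  have hw1 : 1 ≤ ‖w‖ := by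
    have h1 : ⟪w, u⟫ = 1 := by
      rw [hw, ContinuousLinearMap.adjoint_inner_left, huT, real_inner_self_eq_norm_sq, hu1]; simp
    have h2 := real_inner_le_norm w u
    rw [h1, hu1, mul_one] at h2
    exact h2
  calc c0 ≤ c0 * ‖w‖ := le_mul_of_one_le_right c0_pos.le hw1
    _ = ∫ x, |⟪w, x⟫| ∂(stdGaussian V) := (integral_abs_inner w).symm
    _ ≤ _ := by
      refine integral_mono (integrable_abs_inner w) (integrable_norm_T h.le) fun x => ?_
      have := abs_real_inner_le_norm u (T x)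
      rw [hu1, one_mul] at this
      simpa [hw, ContinuousLinearMap.adjoint_inner_left] using this

theorem II_perm {k : ℕ} (T : V →L[ℝ] V) {g : Fin k → V → ℝ} (hg : ∀ j, Bd (g j))
    (σ : Equiv.Perm (Fin k)) : II T (fun j => g (σ j)) = II T g := by
  unfold II
  rw [← af_mp_integral (mp_perm (stdGaussian V) σ)
    (af_measurable T (g := fun j => g (σ j)) fun j => hg _).aestronglyMeasurable]
  congr 1
  ext x
  rw [D_perm (fun j => T (x j)) σ, Equiv.prod_comp σ fun j => g j (x j)]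

theorem bd_cons {k : ℕ} {a : V → ℝ} {g : Fin k → V → ℝ} (ha : Bd a) (hg : ∀ j, Bd (g j)) :
    ∀ j, Bd ((Fin.cons a g : Fin (k + 1) → V → ℝ) j) :=
  Fin.cases ha hg

theorem pos_cons {k : ℕ} {a : V → ℝ} {g : Fin k → V → ℝ} (ha : Pos a) (hg : ∀ j, Pos (g j)) :
    ∀ j, Pos ((Fin.cons a g : Fin (k + 1) → V → ℝ) j) :=
  Fin.cases ha hg

theorem II_cons_aux {k : ℕ} (T : V →L[ℝ] V) (a : V → ℝ) (g : Fin k → V → ℝ) (x : V)
    (y : Fin k → V) :
    D (fun j => T ((Fin.cons x y : Fin (k + 1) → V) j))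
        * ∏ j, (Fin.cons a g : Fin (k + 1) → V → ℝ) j ((Fin.cons x y : Fin (k + 1) → V) j)
      = a x * (‖T x‖ * (D (fun j => lk T x (y j)) * ∏ j, g j (y j))) := by
  rw [D_succ, Fin.prod_univ_succ]
  simp only [Fin.cons_zero, Fin.cons_succ, lk_apply]
  ring

theorem II_cons {k : ℕ} {T : V →L[ℝ] V} (hT : ∀ x, ‖T x‖ ≤ ‖x‖) {a : V → ℝ} {g : Fin k → V → ℝ}
    (ha : Bd a) (hg : ∀ j, Bd (g j)) :
    Integrable (fun x => a x * (‖T x‖ * II (lk T x) g)) (stdGaussian V) ∧
      II T (Fin.cons a g : Fin (k + 1) → V → ℝ)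
        = ∫ x, a x * (‖T x‖ * II (lk T x) g) ∂(stdGaussian V) := by
  have hi := integrable_D T hT (bd_cons ha hg)
  have hi2 := (mp_cons (k := k) (stdGaussian V)).integrable_comp_of_integrable hi
  have e : ∀ x : V, ∫ y : Fin k → V, a x * (‖T x‖ * (D (fun j => lk T x (y j)) * ∏ j, g j (y j)))
      ∂(γk V k) = a x * (‖T x‖ * II (lk T x) g) := fun x => by
    rw [integral_const_mul, integral_const_mul]; rfl
  have hi3 : Integrable (fun q : V × (Fin k → V) =>
      a q.1 * (‖T q.1‖ * (D (fun j => lk T q.1 (q.2 j)) * ∏ j, g j (q.2 j))))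
      ((stdGaussian V).prod (γk V k)) := by
    refine hi2.congr (ae_of_all _ fun q => ?_)
    exact II_cons_aux T a g q.1 q.2
  refine ⟨by simpa only [e] using hi3.integral_prod_left, ?_⟩
  unfold II
  rw [← af_mp_integral (mp_cons (k := k) (stdGaussian V)) hi.aestronglyMeasurable]
  simp only [II_cons_aux]
  rw [integral_prod _ hi3]
  exact congrArg _ (funext e)

theorem bd_one : Bd fun _ : V => (1 : ℝ) := (Den.one (V := V)).toPos.bd

theorem II_nonneg {k : ℕ} (T : V →L[ℝ] V) {g : Fin k → V → ℝ} (hg : ∀ j, Pos (g j)) :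
    0 ≤ II T g :=
  integral_nonneg fun _ => mul_nonneg (D_nonneg _)
    (Finset.prod_nonneg fun j _ => ((hg j).pos _).le)

theorem II_one_ge : ∀ (k : ℕ) {T : V →L[ℝ] V}, Ex T k →
    c0 ^ k ≤ II T fun (_ : Fin k) (_ : V) => (1 : ℝ)
  | 0, T, _ => by simp [II]
  | k + 1, T, h => by
    have e : (fun (_ : Fin (k + 1)) (_ : V) => (1 : ℝ))
        = Fin.cons (fun _ => 1) fun (_ : Fin k) (_ : V) => (1 : ℝ) := by
      ext j; refine Fin.cases ?_ (fun j => ?_) j <;> simp
    obtain ⟨hi, he⟩ := II_cons (k := k) h.le bd_one (g := fun _ _ => 1) fun _ => bd_one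
    rw [e, he]
    calc c0 ^ (k + 1) = c0 * c0 ^ k := by ring
      _ ≤ (∫ x, ‖T x‖ ∂(stdGaussian V)) * c0 ^ k :=
        mul_le_mul_of_nonneg_right (h.mono (by omega)).c0_le (pow_pos c0_pos k).le
      _ = ∫ x, ‖T x‖ * c0 ^ k ∂(stdGaussian V) := (integral_mul_const _ _).symm
      _ ≤ _ := by
        refine integral_mono ((integrable_norm_T h.le).mul_const _) hi fun x => ?_
        simp only [one_mul]
        exact mul_le_mul_of_nonneg_left (II_one_ge k (h.lk x)) (norm_nonneg _)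

theorem II_bounds {k : ℕ} {g : Fin k → V → ℝ} (hg : ∀ j, Pos (g j)) :
    ∃ c C : ℝ, 0 < c ∧ ∀ T : V →L[ℝ] V, Ex T k → c ≤ II T g ∧ II T g ≤ C := by
  choose c C hc h using fun j => (hg j).bdd
  have hcp : 0 < ∏ j, c j := Finset.prod_pos fun j _ => hc j
  refine ⟨c0 ^ k * ∏ j, c j, (∫ x, ∏ j, ‖x j‖ ^ 1 ∂(γk V k)) * ∏ j, C j,
    mul_pos (pow_pos c0_pos k) hcp, fun T hT => ⟨?_, ?_⟩⟩
  · refine (mul_le_mul_of_nonneg_right (II_one_ge k hT) hcp.le).trans ?_
    unfold II
    rw [← integral_mul_const]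
    refine integral_mono ((integrable_D T hT.le fun _ => bd_one).mul_const _)
      (integrable_D T hT.le fun j => (hg j).bd) fun x => ?_
    simp only [Finset.prod_const_one, mul_one]
    exact mul_le_mul_of_nonneg_left
      (Finset.prod_le_prod (fun j _ => (hc j).le) fun j _ => (h j _).1) (D_nonneg _)
  · unfold II
    rw [← integral_mul_const]
    refine integral_mono (integrable_D T hT.le fun j => (hg j).bd)
      ((integrable_prod_norm_pow k 1).mul_const _) fun x => ?_
    refine mul_le_mul ((D_le_prod _).trans ?_) ?_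
      (Finset.prod_nonneg fun j _ => ((hg j).pos _).le) (by positivity)
    · exact Finset.prod_le_prod (fun _ _ => norm_nonneg _) fun j _ => by simpa using hT.le _
    · exact Finset.prod_le_prod (fun j _ => ((hg j).pos _).le) fun j _ => (h j _).2

/-- the kernel of the quadratic form in the first two slots -/
def om {k : ℕ} (T : V →L[ℝ] V) (g : Fin k → V → ℝ) (p : V × V) : ℝ :=
  ∫ y, D (fun j => T ((Fin.cons p.1 (Fin.cons p.2 y : Fin (k + 1) → V) : Fin (k + 2) → V) j))
    * ∏ j, g j (y j) ∂(γk V k)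

theorem om_eq {k : ℕ} (T : V →L[ℝ] V) (g : Fin k → V → ℝ) (x z : V) :
    om T g (x, z) = ‖T x‖ * (‖lk T x z‖ * II (lk (lk T x) z) g) := by
  unfold om II
  rw [← integral_const_mul, ← integral_const_mul]
  congr 1
  ext y
  rw [D_succ, D_succ]
  simp only [Fin.cons_zero, Fin.cons_succ, lk_apply]
  ring

theorem om_eq' {k : ℕ} (T : V →L[ℝ] V) (g : Fin k → V → ℝ) (x z : V) :
    om T g (x, z) = D ![T x, T z] * II (lk (lk T x) z) g := by
  rw [om_eq, D_two, lk_apply, mul_assoc]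

theorem om_symm {k : ℕ} (T : V →L[ℝ] V) (g : Fin k → V → ℝ) (x z : V) :
    om T g (x, z) = om T g (z, x) := by
  unfold om
  congr 1
  ext y
  congr 1
  have e : ∀ a b : V, (fun j => T ((Fin.cons a (Fin.cons b y : Fin (k + 1) → V) :
      Fin (k + 2) → V) j)) = Fin.cons (T a) (Fin.cons (T b) fun j => T (y j) : Fin (k + 1) → V) := by
    intro a b
    ext j
    refine Fin.cases ?_ (fun j => Fin.cases ?_ (fun j => ?_) j) j <;> simp
  rw [e, e, D_swap]

theorem measurable_om {k : ℕ} (T : V →L[ℝ] V) {g : Fin k → V → ℝ} (hg : ∀ j, Bd (g j)) :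
    Measurable (om T g) := by
  unfold om
  refine (StronglyMeasurable.integral_prod_right (f := fun (p : V × V) (y : Fin k → V) =>
    D (fun j => T ((Fin.cons p.1 (Fin.cons p.2 y : Fin (k + 1) → V) : Fin (k + 2) → V) j))
      * ∏ j, g j (y j)) (Measurable.stronglyMeasurable ?_)).measurable
  refine Measurable.mul (measurable_D (measurable_pi_lambda _ fun j => ?_))
    (Finset.measurable_prod _ fun j _ => ?_)
  · refine Fin.cases ?_ (fun j => Fin.cases ?_ (fun j => ?_) j) j <;>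
      simp only [Fin.cons_zero, Fin.cons_succ] <;> fun_prop
  · exact (hg j).meas.comp ((measurable_pi_apply j).comp measurable_snd)

theorem D2_le {T : V →L[ℝ] V} (hT : ∀ x, ‖T x‖ ≤ ‖x‖) (x z : V) :
    D ![T x, T z] ≤ ‖x‖ * ‖z‖ := by
  rw [D_two]
  exact mul_le_mul (hT x) ((norm_pr_le _ _).trans (hT z)) (norm_nonneg _) (norm_nonneg _)

theorem measurable_D2 (T : V →L[ℝ] V) : Measurable fun p : V × V => D ![T p.1, T p.2] := by
  simp only [D_two]
  fun_prop

theorem integrable_D2 {T : V →L[ℝ] V} (hT : ∀ x, ‖T x‖ ≤ ‖x‖) :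
    Integrable (fun p : V × V => D ![T p.1, T p.2]) ((stdGaussian V).prod (stdGaussian V)) := by
  refine Integrable.mono' ((integrable_norm_pow (V := V) 1).mul_prod (integrable_norm_pow 1))
    (measurable_D2 T).aestronglyMeasurable (ae_of_all _ fun p => ?_)
  rw [Real.norm_eq_abs, abs_of_nonneg (D_nonneg _)]
  simpa using D2_le hT p.1 p.2

theorem integrable_D2_row {T : V →L[ℝ] V} (hT : ∀ x, ‖T x‖ ≤ ‖x‖) (x : V) :
    Integrable (fun z : V => D ![T x, T z]) (stdGaussian V) := by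
  refine Integrable.mono' ((integrable_norm_pow (V := V) 1).const_mul ‖x‖)
    ((measurable_D2 T).comp measurable_prodMk_left).aestronglyMeasurable (ae_of_all _ fun z => ?_)
  rw [Real.norm_eq_abs, abs_of_nonneg (D_nonneg _)]
  simpa using D2_le hT x z

theorem om_bounds {k : ℕ} {T : V →L[ℝ] V} (hT : Ex T (k + 2)) {g : Fin k → V → ℝ}
    (hg : ∀ j, Pos (g j)) : ∃ c C : ℝ, 0 < c ∧
      ∀ p : V × V, c * D ![T p.1, T p.2] ≤ om T g p ∧ om T g p ≤ C * D ![T p.1, T p.2] := by
  obtain ⟨c, C, hc, h⟩ := II_bounds hg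
  refine ⟨c, C, hc, fun ⟨x, z⟩ => ?_⟩
  have := h _ ((hT.lk x).lk z)
  rw [om_eq', mul_comm c, mul_comm C]
  exact ⟨mul_le_mul_of_nonneg_left this.1 (D_nonneg _),
    mul_le_mul_of_nonneg_left this.2 (D_nonneg _)⟩

theorem integrable_om {k : ℕ} {T : V →L[ℝ] V} (hT : Ex T (k + 2)) {g : Fin k → V → ℝ}
    (hg : ∀ j, Pos (g j)) : Integrable (om T g) ((stdGaussian V).prod (stdGaussian V)) := by
  obtain ⟨c, C, hc, h⟩ := om_bounds hT hg
  refine Integrable.mono' ((integrable_D2 hT.le).const_mul C)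
    (measurable_om T fun j => (hg j).bd).aestronglyMeasurable (ae_of_all _ fun p => ?_)
  rw [Real.norm_eq_abs, abs_of_nonneg ((mul_nonneg hc.le (D_nonneg _)).trans (h p).1)]
  exact (h p).2

theorem integrable_BF {w : V × V → ℝ} (hw : Integrable w ((stdGaussian V).prod (stdGaussian V)))
    {a b : V → ℝ} (ha : Bd a) (hb : Bd b) :
    Integrable (fun p : V × V => w p * (a p.1 * b p.2)) ((stdGaussian V).prod (stdGaussian V)) := by
  obtain ⟨A, hA⟩ := ha.bdd
  obtain ⟨B, hB⟩ := hb.bdd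
  refine hw.mul_bdd (c := A * B) ((ha.meas.comp measurable_fst).mul
    (hb.meas.comp measurable_snd)).aestronglyMeasurable (ae_of_all _ fun p => ?_)
  rw [Real.norm_eq_abs, abs_mul]
  exact mul_le_mul (hA _) (hB _) (abs_nonneg _) ((abs_nonneg _).trans (hA p.1))

theorem row_om {k : ℕ} {T : V →L[ℝ] V} (hT : ∀ x, ‖T x‖ ≤ ‖x‖) {g : Fin k → V → ℝ}
    (hg : ∀ j, Bd (g j)) {b : V → ℝ} (hb : Bd b) (x : V) :
    ∫ z, om T g (x, z) * b z ∂(stdGaussian V)
      = ‖T x‖ * II (lk T x) (Fin.cons b g : Fin (k + 1) → V → ℝ) := by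
  rw [(II_cons (lk_le hT x) hb hg).2, ← integral_const_mul]
  congr 1
  ext z
  rw [om_eq]
  ring

theorem II_eq_BF {k : ℕ} {T : V →L[ℝ] V} (hT : Ex T (k + 2)) {g : Fin k → V → ℝ}
    (hg : ∀ j, Pos (g j)) {a b : V → ℝ} (ha : Bd a) (hb : Bd b) :
    II T (Fin.cons a (Fin.cons b g : Fin (k + 1) → V → ℝ) : Fin (k + 2) → V → ℝ)
      = BF (stdGaussian V) (om T g) a b := by
  rw [(II_cons hT.le ha (bd_cons hb fun j => (hg j).bd)).2, BF,
    integral_prod _ (integrable_BF (integrable_om hT hg) ha hb)]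
  congr 1
  ext x
  rw [← row_om hT.le (fun j => (hg j).bd) hb x, ← integral_const_mul]
  congr 1
  ext z
  ring

theorem Bd.sub_mul {a b : V → ℝ} (ha : Bd a) (hb : Bd b) (s : ℝ) : Bd fun x => a x - s * b x := by
  obtain ⟨A, hA⟩ := ha.bdd
  obtain ⟨B, hB⟩ := hb.bdd
  refine ⟨ha.meas.sub (hb.meas.const_mul s), A + |s| * B, fun x => ?_⟩
  refine (abs_sub _ _).trans (add_le_add (hA x) ?_)
  rw [abs_mul]
  exact mul_le_mul_of_nonneg_left (hB x) (abs_nonneg s)

theorem Bd.mul {a b : V → ℝ} (ha : Bd a) (hb : Bd b) : Bd fun x => a x * b x := by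
  obtain ⟨A, hA⟩ := ha.bdd
  obtain ⟨B, hB⟩ := hb.bdd
  refine ⟨ha.meas.mul hb.meas, A * B, fun x => ?_⟩
  rw [abs_mul]
  exact mul_le_mul (hA _) (hB _) (abs_nonneg _) ((abs_nonneg _).trans (hA x))

theorem Bd.div {a b : V → ℝ} (ha : Bd a) (hb : Pos b) : Bd fun x => a x / b x := by
  obtain ⟨A, hA⟩ := ha.bdd
  obtain ⟨c, C, hc, h⟩ := hb.bdd
  refine ⟨ha.meas.div hb.meas, A / c, fun x => ?_⟩
  rw [abs_div, abs_of_pos (hb.pos x)]
  exact div_le_div₀ ((abs_nonneg _).trans (hA x)) (hA x) hc (h x).1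

theorem BF_symm {w : V × V → ℝ} (hs : ∀ x z, w (x, z) = w (z, x)) (a b : V → ℝ) :
    BF (stdGaussian V) w a b = BF (stdGaussian V) w b a := by
  unfold BF
  rw [← integral_prod_swap]
  congr 1
  ext ⟨x, z⟩
  simp only [Prod.swap_prod_mk]
  rw [hs z x, mul_comm (a z)]

theorem BF_sub_left {w : V × V → ℝ} (hw : Integrable w ((stdGaussian V).prod (stdGaussian V)))
    {a b c : V → ℝ} (ha : Bd a) (hb : Bd b) (hc : Bd c) (s : ℝ) :
    BF (stdGaussian V) w (fun x => a x - s * b x) c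
      = BF (stdGaussian V) w a c - s * BF (stdGaussian V) w b c := by
  unfold BF
  rw [← integral_const_mul, ← integral_sub (integrable_BF hw ha hc)
    ((integrable_BF hw hb hc).const_mul s)]
  congr 1
  ext p
  ring

/-- negative on a hyperplane implies the reverse Cauchy-Schwarz inequality -/
theorem hyp_of_neg {w : V × V → ℝ} (hw : Integrable w ((stdGaussian V).prod (stdGaussian V)))
    (hs : ∀ x z, w (x, z) = w (z, x)) (ℓ : (V → ℝ) → ℝ) {ξ η : V → ℝ} (hξ : Bd ξ) (hη : Bd η)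
    (hℓ : ∀ s, ℓ (fun x => ξ x - s * η x) = ℓ ξ - s * ℓ η) (h0 : ℓ η ≠ 0)
    (hη0 : 0 ≤ BF (stdGaussian V) w η η)
    (neg : ∀ ζ, Bd ζ → ℓ ζ = 0 → BF (stdGaussian V) w ζ ζ ≤ 0) :
    BF (stdGaussian V) w ξ ξ * BF (stdGaussian V) w η η ≤ BF (stdGaussian V) w ξ η ^ 2 := by
  set s := ℓ ξ / ℓ η
  have hz := hξ.sub_mul hη s
  have h1 := neg _ hz (by rw [hℓ]; simp only [s]; field_simp; ring)
  rw [BF_sub_left hw hξ hη hz, BF_symm hs ξ, BF_symm hs η, BF_sub_left hw hξ hη hξ,
    BF_sub_left hw hξ hη hη, BF_symm hs η ξ] at h1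
  nlinarith [mul_nonneg hη0 (neg_nonneg.2 h1),
    sq_nonneg (BF (stdGaussian V) w ξ η - s * BF (stdGaussian V) w η η)]

theorem hyp_base {T : V →L[ℝ] V} (hT : Ex T 1) {ξ η : V → ℝ} (hξ : Bd ξ) (hη : Pos η) :
    BF (stdGaussian V) (fun p => D ![T p.1, T p.2]) ξ ξ
        * BF (stdGaussian V) (fun p => D ![T p.1, T p.2]) η η
      ≤ BF (stdGaussian V) (fun p => D ![T p.1, T p.2]) ξ η ^ 2 := by
  have hi := integrable_norm_T hT.le
  have hm : ∀ {a : V → ℝ}, Bd a → Integrable (fun x => ‖T x‖ * a x) (stdGaussian V) := by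
    intro a ha
    obtain ⟨A, hA⟩ := ha.bdd
    exact hi.mul_bdd ha.meas.aestronglyMeasurable (ae_of_all _ hA)
  refine hyp_of_neg (integrable_D2 hT.le) (fun x z => D_swap _ _ _)
    (fun a => ∫ x, ‖T x‖ * a x ∂(stdGaussian V)) hξ hη.bd (fun s => ?_) ?_ ?_ fun ζ hζ h => ?_
  · rw [← integral_const_mul, ← integral_sub (hm hξ) ((hm hη.bd).const_mul s)]
    congr 1
    ext x
    ring
  · obtain ⟨c, C, hc, h⟩ := hη.bdd
    refine ne_of_gt (lt_of_lt_of_le (mul_pos c0_pos hc) ?_)
    refine (mul_le_mul_of_nonneg_right hT.c0_le hc.le).trans ?_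
    rw [← integral_mul_const]
    exact integral_mono (hi.mul_const c) (hm hη.bd) fun x =>
      mul_le_mul_of_nonneg_left (h x).1 (norm_nonneg _)
  · exact integral_nonneg fun p => mul_nonneg (D_nonneg _) (mul_pos (hη.pos _) (hη.pos _)).le
  · exact ker_neg (stdGaussian V) (v := fun x => T x) (by fun_prop) hi hζ h

theorem om_zero (T : V →L[ℝ] V) (g : Fin 0 → V → ℝ) : om T g = fun p => D ![T p.1, T p.2] := by
  ext ⟨x, z⟩
  rw [om_eq']
  simp [II]

theorem integrable_trickle {w : V × V → ℝ} (hm : Measurable w)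
    (hw : Integrable w ((stdGaussian V).prod (stdGaussian V))) (h0 : ∀ p, 0 ≤ w p)
    {g : V → ℝ} (hg : Bd g) :
    Integrable (fun x => (∫ z, w (x, z) * g z ∂(stdGaussian V)) ^ 2
      / ∫ z, w (x, z) ∂(stdGaussian V)) (stdGaussian V) := by
  obtain ⟨A, hA⟩ := hg.bdd
  have m1 : Measurable fun x => ∫ z, w (x, z) * g z ∂(stdGaussian V) :=
    (StronglyMeasurable.integral_prod_right (f := fun x z => w (x, z) * g z)
      (hm.mul (hg.meas.comp measurable_snd)).stronglyMeasurable).measurable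
  have m2 : Measurable fun x => ∫ z, w (x, z) ∂(stdGaussian V) :=
    (StronglyMeasurable.integral_prod_right (f := fun x z => w (x, z))
      hm.stronglyMeasurable).measurable
  refine Integrable.mono' (hw.integral_prod_left.const_mul (A ^ 2))
    ((m1.pow_const 2).div m2).aestronglyMeasurable ?_
  filter_upwards [hw.prod_right_ae] with x hx
  have hW : 0 ≤ ∫ z, w (x, z) ∂(stdGaussian V) := integral_nonneg fun z => h0 _
  have h1 : |∫ z, w (x, z) * g z ∂(stdGaussian V)| ≤ A * ∫ z, w (x, z) ∂(stdGaussian V) := by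
    rw [← integral_const_mul, ← Real.norm_eq_abs]
    refine norm_integral_le_of_norm_le (hx.const_mul A) (ae_of_all _ fun z => ?_)
    rw [Real.norm_eq_abs, abs_mul, abs_of_nonneg (h0 _), mul_comm]
    exact mul_le_mul_of_nonneg_right (hA z) (h0 _)
  rw [Real.norm_eq_abs, abs_of_nonneg (by positivity)]
  refine div_le_of_le_mul₀ hW (by positivity) ?_
  have := pow_le_pow_left₀ (abs_nonneg _) h1 2
  rw [sq_abs] at this
  nlinarith

theorem hyp : ∀ (r : ℕ) {T : V →L[ℝ] V}, Ex T (r + 2) → ∀ {g : Fin r → V → ℝ},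
    (∀ j, Pos (g j)) → ∀ {ξ η : V → ℝ}, Bd ξ → Pos η →
    BF (stdGaussian V) (om T g) ξ ξ * BF (stdGaussian V) (om T g) η η
      ≤ BF (stdGaussian V) (om T g) ξ η ^ 2
  | 0, T, hT, g, _, ξ, η, hξ, hη => by
    rw [om_zero]; exact hyp_base (hT.mono (by omega)) hξ hη
  | r + 1, T, hT, g, hg, ξ, η, hξ, hη => by
    obtain ⟨m, g', rfl⟩ : ∃ (m : V → ℝ) (g' : Fin r → V → ℝ), g = Fin.cons m g' :=
      ⟨g 0, Fin.tail g, (Fin.cons_self_tail g).symm⟩
    have hm : Pos m := hg 0
    have hg' : ∀ j, Pos (g' j) := fun j => hg j.succ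
    have hb : ∀ j, Bd ((Fin.cons m g' : Fin (r + 1) → V → ℝ) j) := fun j => (hg j).bd
    set ω := om T (Fin.cons m g' : Fin (r + 1) → V → ℝ) with hω
    have hωi : Integrable ω ((stdGaussian V).prod (stdGaussian V)) := integrable_om hT hg
    set w : V × V → ℝ := fun p => ω p * (m p.1 * m p.2) with hw
    have hwm : Measurable w := (measurable_om T hb).mul
      ((hm.meas.comp measurable_fst).mul (hm.meas.comp measurable_snd))
    have hwB : ∀ a b : V → ℝ, BF (stdGaussian V) w a b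
        = BF (stdGaussian V) ω (fun x => a x * m x) fun x => b x * m x := fun a b => by
      unfold BF
      congr 1
      ext p
      simp only [hw]
      ring
    obtain ⟨c, C, hc, hcC⟩ := om_bounds hT hg
    obtain ⟨c', C', hc', hm'⟩ := hm.bdd
    have hω0 : ∀ p, 0 ≤ ω p := fun p => (mul_nonneg hc.le (D_nonneg _)).trans (hcC p).1
    have hw0 : ∀ p, 0 ≤ w p := fun p => mul_nonneg (hω0 p) (mul_pos (hm.pos _) (hm.pos _)).le
    have hII : ∀ {a b : V → ℝ}, Pos a → Pos b → 0 < BF (stdGaussian V) ω a b := by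
      intro a b ha hb'
      rw [hω, ← II_eq_BF hT hg ha.bd hb'.bd]
      obtain ⟨c1, C1, hc1, h1⟩ := II_bounds (pos_cons ha (pos_cons hb' hg))
      exact hc1.trans_le (h1 T hT).1
    have key : ∀ a : V → ℝ, Bd a → BF (stdGaussian V) w a (fun _ => 1) = 0 →
        BF (stdGaussian V) w a a ≤ 0 := by
      intro a ha
      refine bochner (stdGaussian V) (w₀ := fun p => D ![T p.1, T p.2]) hwm (measurable_D2 T)
        (fun x z => by simp only [hw, hω]; rw [om_symm, mul_comm (m x)]) (fun x z => D_swap _ _ _)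
        (fun p => D_nonneg _) (integrable_D2 hT.le) (integrable_D2_row hT.le)
        (c := c * (c' * c')) (C := C * (C' * C')) (by positivity) (fun p => ⟨?_, ?_⟩) ?_
        (fun b hb' => hyp_base (hT.mono (by omega)) hb' Den.one.toPos) (fun b hb' => ?_) ha
      · have h1 := mul_le_mul (hm' p.1).1 (hm' p.2).1 hc'.le (hm.pos _).le
        calc c * (c' * c') * D ![T p.1, T p.2] = c * D ![T p.1, T p.2] * (c' * c') := by ring
          _ ≤ _ := mul_le_mul (hcC p).1 h1 (by positivity) (hω0 p)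
      · have h1 := mul_le_mul (hm' p.1).2 (hm' p.2).2 (hm.pos _).le ((hm.pos _).le.trans (hm' p.1).2)
        calc w p ≤ C * D ![T p.1, T p.2] * (C' * C') :=
            mul_le_mul (hcC p).2 h1 (mul_pos (hm.pos _) (hm.pos _)).le ((hω0 p).trans (hcC p).2)
          _ = _ := by ring
      · have h2 : Ex T (0 + 2) := hT.mono (by omega)
        have hp : ∀ j : Fin 0, Pos ((fun _ _ => 1 : Fin 0 → V → ℝ) j) := fun j => j.elim0
        rw [← om_zero T fun _ _ => 1, ← II_eq_BF h2 hp bd_one bd_one]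
        obtain ⟨c1, C1, hc1, h1⟩ := II_bounds (pos_cons Den.one.toPos (pos_cons Den.one.toPos hp))
        exact hc1.trans_le (h1 T h2).1
      · have hbm : Bd fun x => b x * m x := hb'.mul hm.bd
        have hgb : ∀ j, Bd (g' j) := fun j => (hg' j).bd
        have hperm : II T (Fin.cons (fun x => b x * m x) (Fin.cons (fun x => b x * m x)
              (Fin.cons m g' : Fin (r + 1) → V → ℝ) : Fin (r + 2) → V → ℝ) : Fin (r + 3) → V → ℝ)
            = II T (Fin.cons m (Fin.cons (fun x => b x * m x)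
              (Fin.cons (fun x => b x * m x) g' : Fin (r + 1) → V → ℝ) : Fin (r + 2) → V → ℝ) :
                Fin (r + 3) → V → ℝ) := by
          rw [← II_perm T (bd_cons hbm (bd_cons hbm hb)) (Equiv.swap 0 (Fin.succ (Fin.succ 0)))]
          congr 1
          funext j
          refine Fin.cases ?_ (fun j => Fin.cases ?_ (fun j => Fin.cases ?_ (fun j => ?_) j) j) j
          · rw [Equiv.swap_apply_left]; rfl
          · rw [Equiv.swap_apply_of_ne_of_ne (Fin.succ_ne_zero _)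
              fun h => Fin.succ_ne_zero _ (Fin.succ_injective _ h).symm]
            rfl
          · rw [Equiv.swap_apply_right]; rfl
          · rw [Equiv.swap_apply_of_ne_of_ne (Fin.succ_ne_zero _)
              fun h => Fin.succ_ne_zero _ (Fin.succ_injective _ (Fin.succ_injective _ h))]
            rfl
        obtain ⟨hi, he⟩ := II_cons hT.le hm.bd (bd_cons hbm (bd_cons hbm hgb))
        rw [hwB, hω, ← II_eq_BF hT hg hbm hbm, hperm, he]
        refine integral_mono hi (integrable_trickle hwm (integrable_BF hωi hm.bd hm.bd) hw0 hb')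
          fun x => ?_
        have r1 : ∫ z, w (x, z) * b z ∂(stdGaussian V) = m x * (‖T x‖ *
            BF (stdGaussian V) (om (lk T x) g') (fun x => b x * m x) m) := by
          rw [← II_eq_BF (hT.lk x) hg' hbm hm.bd, ← row_om hT.le hb hbm x, ← integral_const_mul]
          congr 1
          ext z
          simp only [hw, hω]
          ring
        have r2 : ∫ z, w (x, z) ∂(stdGaussian V) = m x * (‖T x‖ *
            BF (stdGaussian V) (om (lk T x) g') m m) := by
          rw [← II_eq_BF (hT.lk x) hg' hm.bd hm.bd, ← row_om hT.le hb hm.bd x, ← integral_const_mul]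
          congr 1
          ext z
          simp only [hw, hω]
          ring
        have hq : 0 < BF (stdGaussian V) (om (lk T x) g') m m := by
          rw [← II_eq_BF (hT.lk x) hg' hm.bd hm.bd]
          obtain ⟨c1, C1, hc1, h1⟩ := II_bounds (pos_cons hm (pos_cons hm hg'))
          exact hc1.trans_le (h1 _ (hT.lk x)).1
        have ih := hyp r (hT.lk x) hg' hbm hm
        simp only
        rw [r1, r2, II_eq_BF (hT.lk x) hg' hbm hbm]
        rcases (norm_nonneg (T x)).eq_or_lt with h0 | h0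
        · rw [← h0]; simp
        · rw [le_div_iff₀ (mul_pos (hm.pos x) (mul_pos h0 hq))]
          have := mul_le_mul_of_nonneg_left ih (sq_nonneg (m x * ‖T x‖))
          nlinarith
    refine hyp_of_neg hωi (om_symm T _) (fun a => BF (stdGaussian V) ω a m) hξ hη.bd
      (fun s => BF_sub_left hωi hξ hη.bd hm.bd s) (hII hη hm).ne' (hII hη hη).le fun ζ hζ h => ?_
    have e : (fun x => ζ x / m x * m x) = ζ := funext fun x => div_mul_cancel₀ _ (hm.pos x).ne'
    have := key _ (hζ.div hm) (by rw [hwB, e]; simpa using h)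
    rwa [hwB, e] at this

theorem ex_id {k : ℕ} (hk : k ≤ finrank ℝ V) : Ex (ContinuousLinearMap.id ℝ V) k :=
  ⟨fun _ => le_rfl, ⊤, by simpa using hk, fun _ _ => rfl⟩

theorem integral_D_pos {k : ℕ} (hk : k ≤ finrank ℝ V) : 0 < ∫ x, D x ∂(γk V k) := by
  have := (pow_pos c0_pos k).trans_le (II_one_ge k (ex_id hk))
  simpa [II] using this

/-- families with values `f` and `1` -/
def fam {k : ℕ} (f : V → ℝ) (β : Fin k → Bool) : Fin k → V → ℝ :=
  fun l => if β l then f else fun _ => 1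

/-- number of slots with value `f` -/
def cnt {k : ℕ} (β : Fin k → Bool) : ℕ := ∑ l, if β l then 1 else 0

theorem pos_fam {k : ℕ} {f : V → ℝ} (hf : Pos f) (β : Fin k → Bool) (l : Fin k) :
    Pos (fam f β l) := by
  unfold fam
  split_ifs
  exacts [hf, Den.one.toPos]

theorem fam_cons {k : ℕ} (f : V → ℝ) (b : Bool) (β : Fin k → Bool) :
    fam f (Fin.cons b β : Fin (k + 1) → Bool)
      = Fin.cons (if b then f else fun _ => 1) (fam f β) := by
  funext j
  refine Fin.cases ?_ (fun j => ?_) j <;> simp [fam]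

theorem cnt_cons {k : ℕ} (b : Bool) (β : Fin k → Bool) :
    cnt (Fin.cons b β : Fin (k + 1) → Bool) = (if b then 1 else 0) + cnt β := by
  unfold cnt
  rw [Fin.sum_univ_succ]
  rfl

theorem cnt_le {k : ℕ} (β : Fin k → Bool) : cnt β ≤ k := by
  calc cnt β ≤ ∑ _l : Fin k, 1 := Finset.sum_le_sum fun l _ => by split_ifs <;> simp
    _ = k := by simp

theorem exists_cnt : ∀ (k j : ℕ), j ≤ k → ∃ β : Fin k → Bool, cnt β = j
  | k, 0, _ => ⟨fun _ => false, by simp [cnt]⟩
  | k + 1, j + 1, h => by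
    obtain ⟨β, hβ⟩ := exists_cnt k j (by omega)
    exact ⟨Fin.cons true β, by rw [cnt_cons, hβ]; simp [add_comm]⟩

theorem II_fam_eq {k : ℕ} (T : V →L[ℝ] V) {f : V → ℝ} (hf : Pos f) {β β' : Fin k → Bool}
    (h : cnt β = cnt β') : II T (fam f β) = II T (fam f β') := by
  have hc : Fintype.card {l // β l = true} = Fintype.card {l // β' l = true} := by
    simpa [cnt, Fintype.card_subtype] using h
  set σ := Equiv.extendSubtype (Fintype.equivOfCardEq hc)
  rw [← II_perm T (fun l => (pos_fam hf β' l).bd) σ]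
  congr 1
  funext l
  by_cases hl : β l = true
  · have := Equiv.extendSubtype_mem (Fintype.equivOfCardEq hc) l hl
    simp [fam, hl, σ, this]
  · have := Equiv.extendSubtype_not_mem (Fintype.equivOfCardEq hc) l hl
    simp [fam, hl, σ, this]

theorem II_lk_id (k : ℕ) {x x' : V} (hx : x ≠ 0) (hx' : x' ≠ 0) :
    II (lk (ContinuousLinearMap.id ℝ V) x) (fun (_ : Fin k) (_ : V) => (1 : ℝ))
      = II (lk (ContinuousLinearMap.id ℝ V) x') fun (_ : Fin k) (_ : V) => (1 : ℝ) := by
  have hn : ‖x‖ ≠ 0 := norm_ne_zero_iff.2 hx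
  have hn' : ‖x'‖ ≠ 0 := norm_ne_zero_iff.2 hx'
  obtain ⟨g, hg, -⟩ := exists_ap_eq (x := (‖x'‖ / ‖x‖) • x) (y := x') (by
    rw [norm_smul, Real.norm_eq_abs, abs_of_nonneg (by positivity)]; field_simp)
  unfold II
  rw [← af_mp_integral (measurePreserving_pi _ _ fun _ : Fin k => mp_ap g)
    (af_measurable (lk (ContinuousLinearMap.id ℝ V) x') fun _ => bd_one).aestronglyMeasurable]
  congr 1
  ext y
  simp only [lk_apply, ContinuousLinearMap.id_apply]
  rw [← D_map (Unitary.linearIsometryEquiv g).toLinearIsometry]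
  congr 2
  funext j
  rw [← hg, ← ap_pr, pr_smul_left (div_ne_zero hn' hn)]
  rfl

theorem II_first {k : ℕ} (hn : 1 ≤ finrank ℝ V) {f : V → ℝ} (hf : Den f) :
    II (ContinuousLinearMap.id ℝ V) (Fin.cons f fun (_ : Fin k) (_ : V) => (1 : ℝ))
      = (∫ x, f x ∂(stdGaussian V)) * II (ContinuousLinearMap.id ℝ V)
          (Fin.cons (fun _ => 1) fun (_ : Fin k) (_ : V) => (1 : ℝ)) := by
  have : Nontrivial V := finrank_pos_iff.1 hn
  obtain ⟨e, he⟩ := exists_ne (0 : V)
  have h : ∀ {a : V → ℝ}, Bd a →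
      II (ContinuousLinearMap.id ℝ V) (Fin.cons a fun (_ : Fin k) (_ : V) => (1 : ℝ))
        = (∫ x, ‖x‖ ^ 1 * a x ∂(stdGaussian V))
          * II (lk (ContinuousLinearMap.id ℝ V) e) fun (_ : Fin k) (_ : V) => (1 : ℝ) := by
    intro a ha
    rw [(II_cons (fun _ => le_rfl) ha fun _ => bd_one).2, ← integral_mul_const]
    refine integral_congr_ae ?_
    filter_upwards [ae_ne_zero hn] with x hx
    rw [II_lk_id k hx he]
    simp only [ContinuousLinearMap.id_apply]
    ring
  rw [h hf.toPos.bd, h bd_one, radial_indep hn 1 hf.toPos.bd (fun x => (hf.toPos.pos x).le) hf.hom]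
  simp only [mul_one]
  ring

theorem af_step {k : ℕ} (hk : k ≤ finrank ℝ V) {f : V → ℝ} (hf : Den f) : ∀ (j : ℕ)
    (β β' : Fin k → Bool), cnt β = j + 1 → cnt β' = j →
    II (ContinuousLinearMap.id ℝ V) (fam f β)
      ≤ (∫ x, f x ∂(stdGaussian V)) * II (ContinuousLinearMap.id ℝ V) (fam f β')
  | 0, β, β', h, h' => by
    obtain ⟨r, rfl⟩ : ∃ r, k = r + 1 := ⟨k - 1, by have := cnt_le β; omega⟩
    rw [II_fam_eq _ hf.toPos (β := β) (β' := Fin.cons true fun _ => false)
        (by rw [h, cnt_cons]; simp [cnt]),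
      II_fam_eq _ hf.toPos (β := β') (β' := Fin.cons false fun _ => false)
        (by rw [h', cnt_cons]; simp [cnt]), fam_cons, fam_cons]
    exact (II_first (k := r) (by omega) hf).le
  | j + 1, β, β', h, h' => by
    obtain ⟨r, rfl⟩ : ∃ r, k = r + 2 := ⟨k - 2, by have := cnt_le β; omega⟩
    obtain ⟨β₀, h₀⟩ := exists_cnt r j (by have := cnt_le β; omega)
    have ih := af_step hk hf j (Fin.cons true (Fin.cons false β₀))
      (Fin.cons false (Fin.cons false β₀)) (by rw [cnt_cons, cnt_cons, h₀]; simp [add_comm])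
      (by rw [cnt_cons, cnt_cons, h₀]; simp)
    rw [II_fam_eq _ hf.toPos (β := β) (β' := Fin.cons true (Fin.cons true β₀))
        (by rw [h, cnt_cons, cnt_cons, h₀]; simp; ring),
      II_fam_eq _ hf.toPos (β := β') (β' := Fin.cons true (Fin.cons false β₀))
        (by rw [h', cnt_cons, cnt_cons, h₀]; simp [add_comm])]
    simp only [fam_cons, if_true, Bool.false_eq_true, if_false] at ih ⊢
    have hp := pos_fam hf.toPos β₀
    have h1 := hyp r (ex_id hk) hp hf.toPos.bd Den.one.toPos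
    obtain ⟨c, C, hc, hcC⟩ := II_bounds (pos_cons Den.one.toPos (pos_cons Den.one.toPos hp))
    have h2 := hc.trans_le (hcC _ (ex_id hk)).1
    have h3 := II_nonneg (ContinuousLinearMap.id ℝ V) (pos_cons hf.toPos (pos_cons Den.one.toPos hp))
    rw [← II_eq_BF (ex_id hk) hp hf.toPos.bd hf.toPos.bd, ← II_eq_BF (ex_id hk) hp bd_one bd_one,
      ← II_eq_BF (ex_id hk) hp hf.toPos.bd bd_one] at h1
    refine le_of_mul_le_mul_right (h1.trans ?_) h2
    nlinarith [mul_le_mul_of_nonneg_left ih h3]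

theorem af {k : ℕ} (hk : k ≤ finrank ℝ V) {f : V → ℝ} (hf : Den f) :
    ∫ x, D x * ∏ j, f (x j) ∂(γk V k)
      ≤ (∫ x, D x ∂(γk V k)) * (∫ x, f x ∂(stdGaussian V)) ^ k := by
  have h0 : 0 ≤ ∫ x, f x ∂(stdGaussian V) := integral_nonneg fun x => (hf.toPos.pos x).le
  have h : ∀ j, ∀ β : Fin k → Bool, cnt β = j → II (ContinuousLinearMap.id ℝ V) (fam f β)
      ≤ (∫ x, D x ∂(γk V k)) * (∫ x, f x ∂(stdGaussian V)) ^ j := by
    intro j
    induction j with
    | zero =>
      intro β hβ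
      rw [II_fam_eq _ hf.toPos (β := β) (β' := fun _ => false) (by rw [hβ]; simp [cnt])]
      simp [II, fam]
    | succ j ih =>
      intro β hβ
      obtain ⟨β', hβ'⟩ := exists_cnt k j (by have := cnt_le β; omega)
      refine (af_step hk hf j β β' hβ hβ').trans ?_
      refine (mul_le_mul_of_nonneg_left (ih β' hβ') h0).trans (le_of_eq ?_)
      ring
  simpa [II, fam] using h k (fun _ => true) (by simp [cnt])

end Pool.Agent.P.MP_181257_gt
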