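import Pool.Agent.P.MP_181257_gt.Basic

/-! The two analytic inputs of the Alexandrov-Fenchel inequality for zonoids. -/

set_option autoImplicit false
set_option linter.unusedSectionVars false

open MeasureTheory ProbabilityTheory Module Set Filter Topology
open scoped RealInnerProductSpace ENNReal Pointwise Matrix

noncomputable section

namespace Pool.Agent.P.MP_181257_gt

variable {V : Type} [NormedAddCommGroup V] [InnerProductSpace ℝ V] [FiniteDimensional ℝ V]
  [MeasurableSpace V] [BorelSpace V]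

namespace AFK

variable {X : Type} [MeasurableSpace X]

theorem bd_const (c : ℝ) : Bd fun _ : X => c := ⟨measurable_const, |c|, fun _ => le_rfl⟩

theorem bd_mul {f g : X → ℝ} (hf : Bd f) (hg : Bd g) : Bd fun x => f x * g x := by
  obtain ⟨C, hC⟩ := hf.bdd
  obtain ⟨E, hE⟩ := hg.bdd
  refine ⟨hf.meas.mul hg.meas, C * E, fun x => ?_⟩
  rw [abs_mul]
  exact mul_le_mul (hC x) (hE x) (abs_nonneg _) ((abs_nonneg _).trans (hC x))

theorem bd_add {f g : X → ℝ} (hf : Bd f) (hg : Bd g) : Bd fun x => f x + g x := by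
  obtain ⟨C, hC⟩ := hf.bdd
  obtain ⟨E, hE⟩ := hg.bdd
  exact ⟨hf.meas.add hg.meas, C + E, fun x => (abs_add_le _ _).trans (add_le_add (hC x) (hE x))⟩

theorem bd_fst {f : X → ℝ} (hf : Bd f) : Bd fun p : X × X => f p.1 := by
  obtain ⟨C, hC⟩ := hf.bdd
  exact ⟨hf.meas.comp measurable_fst, C, fun p => hC p.1⟩

theorem bd_snd {f : X → ℝ} (hf : Bd f) : Bd fun p : X × X => f p.2 := by
  obtain ⟨C, hC⟩ := hf.bdd
  exact ⟨hf.meas.comp measurable_snd, C, fun p => hC p.2⟩

theorem int_mul {μ : Measure X} {u f : X → ℝ} (hu : Integrable u μ) (hf : Bd f) :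
    Integrable (fun x => u x * f x) μ := by
  obtain ⟨C, hC⟩ := hf.bdd
  exact hu.mul_bdd hf.meas.aestronglyMeasurable (ae_of_all _ hC)

/-- finite sums of squares of bounded measurable functions -/
def PK (k : X → X → ℝ) : Prop :=
  ∃ (ι : Type) (_ : Fintype ι) (φ : ι → X → ℝ), (∀ l, Bd (φ l)) ∧
    ∀ x z, k x z = ∑ l, φ l x * φ l z

theorem PK.zero : PK fun _ _ : X => (0 : ℝ) :=
  ⟨Empty, inferInstance, fun l => l.elim, fun l => l.elim, fun _ _ => by simp⟩

theorem PK.add {k k' : X → X → ℝ} (h : PK k) (h' : PK k') : PK fun x z => k x z + k' x z := by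
  obtain ⟨ι, _, φ, hφ, e⟩ := h
  obtain ⟨ι', _, φ', hφ', e'⟩ := h'
  refine ⟨ι ⊕ ι', inferInstance, Sum.elim φ φ', fun l => ?_, fun x z => ?_⟩
  · cases l with
    | inl l => exact hφ l
    | inr l => exact hφ' l
  · simp [Fintype.sum_sum_type, e, e']

theorem PK.mul {k k' : X → X → ℝ} (h : PK k) (h' : PK k') : PK fun x z => k x z * k' x z := by
  obtain ⟨ι, _, φ, hφ, e⟩ := h
  obtain ⟨ι', _, φ', hφ', e'⟩ := h'
  refine ⟨ι × ι', inferInstance, fun l x => φ l.1 x * φ' l.2 x, fun l => bd_mul (hφ _) (hφ' _),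
    fun x z => ?_⟩
  simp only [e, e', Fintype.sum_prod_type, Finset.sum_mul_sum]
  refine Finset.sum_congr rfl fun _ _ => Finset.sum_congr rfl fun _ _ => by ring

theorem PK.half {k : X → X → ℝ} (h : PK k) : PK fun x z => k x z / 2 := by
  obtain ⟨ι, _, φ, hφ, e⟩ := h
  refine ⟨ι × Fin 2, inferInstance, fun l x => φ l.1 x * (1 / 2),
    fun l => bd_mul (hφ _) (bd_const _), fun x z => ?_⟩
  simp only [e, Fintype.sum_prod_type, Fin.sum_univ_two, Finset.sum_div]
  refine Finset.sum_congr rfl fun _ _ => by ring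

theorem PK.inner {a : X → V} (ha : Measurable a) (h1 : ∀ x, ‖a x‖ ≤ 1) :
    PK fun x z => ⟪a x, a z⟫ := by
  let b := stdOrthonormalBasis ℝ V
  refine ⟨Fin (finrank ℝ V), inferInstance, fun l x => ⟪b l, a x⟫,
    fun l => ⟨by fun_prop, 1, fun x => ?_⟩, fun x z => ?_⟩
  · refine (abs_real_inner_le_norm _ _).trans ?_
    rw [b.orthonormal.1 l, one_mul]
    exact h1 x
  · simp only
    rw [← b.sum_inner_mul_inner]
    exact Finset.sum_congr rfl fun l _ => by rw [real_inner_comm]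

theorem PK.measurable {k : X → X → ℝ} (h : PK k) : Measurable fun p : X × X => k p.1 p.2 := by
  obtain ⟨ι, _, φ, hφ, e⟩ := h
  simp only [e]
  exact Finset.measurable_sum _ fun l _ => (bd_fst (hφ l)).meas.mul (bd_snd (hφ l)).meas

theorem PK.nonneg {k : X → X → ℝ} (h : PK k) (μ : Measure X) [IsFiniteMeasure μ] {u : X → ℝ}
    (hu : Integrable u μ) : 0 ≤ ∫ p : X × X, u p.1 * u p.2 * k p.1 p.2 ∂(μ.prod μ) := by
  obtain ⟨ι, _, φ, hφ, e⟩ := h
  have e2 : ∀ p : X × X, u p.1 * u p.2 * k p.1 p.2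
      = ∑ l, (u p.1 * φ l p.1) * (u p.2 * φ l p.2) := fun p => by
    rw [e, Finset.mul_sum]
    exact Finset.sum_congr rfl fun _ _ => by ring
  simp only [e2]
  rw [integral_finsetSum _ fun l _ => (int_mul hu (hφ l)).mul_prod (int_mul hu (hφ l))]
  refine Finset.sum_nonneg fun l _ => ?_
  rw [integral_prod_mul (fun x => u x * φ l x) fun x => u x * φ l x]
  exact mul_self_nonneg _

/-- polynomial approximation of `1 - √(1 - s)` from below -/
def Y (j : ℕ) (s : ℝ) : ℝ := (fun y : ℝ => (s + y * y) / 2)^[j] 0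

theorem Y_zero (s : ℝ) : Y 0 s = 0 := rfl

theorem Y_succ (j : ℕ) (s : ℝ) : Y (j + 1) s = (s + Y j s * Y j s) / 2 := by
  unfold Y
  rw [Function.iterate_succ_apply']

theorem Y_mem {s : ℝ} (h0 : 0 ≤ s) (h1 : s ≤ 1) (j : ℕ) :
    0 ≤ Y j s ∧ Y j s ≤ 1 ∧ Y j s ≤ Y (j + 1) s := by
  induction j with
  | zero => simp only [Y_succ, Y_zero]; refine ⟨le_rfl, zero_le_one, by linarith⟩
  | succ j ih =>
    obtain ⟨a, b, c⟩ := ih
    refine ⟨a.trans c, by rw [Y_succ]; nlinarith, ?_⟩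
    rw [Y_succ (j + 1)]
    have := mul_self_le_mul_self a c
    have e := Y_succ j s
    linarith

theorem Y_tendsto {s : ℝ} (h0 : 0 ≤ s) (h1 : s ≤ 1) :
    Tendsto (fun j => Y j s) atTop (𝓝 (1 - √(1 - s))) := by
  have hm : Monotone fun j => Y j s := monotone_nat_of_le_succ fun j => (Y_mem h0 h1 j).2.2
  have hb : BddAbove (range fun j => Y j s) := ⟨1, by rintro _ ⟨j, rfl⟩; exact (Y_mem h0 h1 j).2.1⟩
  have ht := tendsto_atTop_ciSup hm hb
  set L := ⨆ j, Y j s
  have hL : L ≤ 1 := le_of_tendsto' ht fun j => (Y_mem h0 h1 j).2.1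
  have h2 : Tendsto (fun j => Y (j + 1) s) atTop (𝓝 ((s + L * L) / 2)) := by
    simp only [Y_succ]
    exact ((ht.mul ht).const_add s).div_const 2
  have h3 : L = (s + L * L) / 2 := tendsto_nhds_unique ((tendsto_add_atTop_iff_nat 1).2 ht) h2
  have h4 : √(1 - s) = 1 - L := by
    rw [Real.sqrt_eq_iff_mul_self_eq (by linarith) (by linarith)]
    nlinarith
  rw [h4, sub_sub_cancel]
  exact ht

theorem PK.Y {k : X → X → ℝ} (h : PK k) (j : ℕ) : PK fun x z => Y j (k x z) := by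
  induction j with
  | zero => exact PK.zero
  | succ j ih => simp only [Y_succ]; exact (h.add (ih.mul ih)).half

theorem norm_unit (a : V) : ‖‖a‖⁻¹ • a‖ ≤ 1 := by
  rw [norm_smul, norm_inv, norm_norm]
  exact inv_mul_le_one_of_le₀ le_rfl (norm_nonneg _)

theorem D_two_eq (a b : V) : D ![a, b]
    = ‖a‖ * ‖b‖ * √(1 - ⟪‖a‖⁻¹ • a, ‖b‖⁻¹ • b⟫ * ⟪‖a‖⁻¹ • a, ‖b‖⁻¹ • b⟫) := by
  rw [D_two]
  by_cases ha : a = 0
  · simp [ha]
  by_cases hb : b = 0
  · simp [hb]
  have ha' : ‖a‖ ≠ 0 := norm_ne_zero_iff.2 ha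
  have hb' : ‖b‖ ≠ 0 := norm_ne_zero_iff.2 hb
  rw [mul_assoc, ← Real.sqrt_sq (norm_nonneg (pr a b)), norm_sq_pr]
  congr 1
  nth_rewrite 2 [← Real.sqrt_sq (norm_nonneg b)]
  rw [← Real.sqrt_mul (sq_nonneg _)]
  congr 1
  simp only [real_inner_smul_left, real_inner_smul_right]
  field_simp

end AFK

open AFK in
/-- the kernel `|a ∧ b|` is negative semidefinite on a hyperplane -/
theorem ker_neg {X : Type} [MeasurableSpace X] (μ : Measure X) [IsFiniteMeasure μ] {v : X → V}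
    (hv : Measurable v) (hi : Integrable (fun x => ‖v x‖) μ) {ξ : X → ℝ} (hξ : Bd ξ)
    (h0 : ∫ x, ‖v x‖ * ξ x ∂μ = 0) :
    ∫ p : X × X, D ![v p.1, v p.2] * (ξ p.1 * ξ p.2) ∂(μ.prod μ) ≤ 0 := by
  set a : X → V := fun x => ‖v x‖⁻¹ • v x with ha
  have ham : Measurable a := by fun_prop
  have hk := PK.inner ham fun x => norm_unit (v x)
  set s : X → X → ℝ := fun x z => ⟪a x, a z⟫ * ⟪a x, a z⟫ with hs
  have hsk : PK s := hk.mul hk
  have hs0 : ∀ x z, 0 ≤ s x z := fun x z => mul_self_nonneg _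
  have hs1 : ∀ x z, s x z ≤ 1 := fun x z => by
    have h : |⟪a x, a z⟫| ≤ 1 := (abs_real_inner_le_norm _ _).trans
      (mul_le_one₀ (norm_unit (v x)) (norm_nonneg _) (norm_unit (v z)))
    exact abs_le_one_iff_mul_self_le_one.1 h
  set u : X → ℝ := fun x => ‖v x‖ * ξ x with hu
  have hui : Integrable u μ := int_mul hi hξ
  have huu : Integrable (fun p : X × X => u p.1 * u p.2) (μ.prod μ) := hui.mul_prod hui
  have hY : ∀ j, Bd fun p : X × X => Y j (s p.1 p.2) := fun j =>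
    ⟨(hsk.Y j).measurable, 1, fun p => by
      have := Y_mem (hs0 p.1 p.2) (hs1 p.1 p.2) j
      rw [abs_of_nonneg this.1]; exact this.2.1⟩
  have hlim : Tendsto (fun j => ∫ p : X × X, (u p.1 * u p.2 - u p.1 * u p.2 * Y j (s p.1 p.2))
      ∂(μ.prod μ)) atTop (𝓝 (∫ p : X × X, D ![v p.1, v p.2] * (ξ p.1 * ξ p.2) ∂(μ.prod μ))) := by
    refine tendsto_integral_of_dominated_convergence (fun p => ‖u p.1 * u p.2‖)
      (fun j => (huu.sub (int_mul huu (hY j))).aestronglyMeasurable) huu.norm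
      (fun j => ae_of_all _ fun p => ?_) (ae_of_all _ fun p => ?_)
    · have := Y_mem (hs0 p.1 p.2) (hs1 p.1 p.2) j
      rw [← mul_one_sub, norm_mul]
      refine mul_le_of_le_one_right (norm_nonneg _) ?_
      rw [Real.norm_eq_abs, abs_le]
      constructor <;> linarith [this.1, this.2.1]
    · have h := ((Y_tendsto (hs0 p.1 p.2) (hs1 p.1 p.2)).const_mul (u p.1 * u p.2)).const_sub
        (u p.1 * u p.2)
      convert h using 2
      rw [D_two_eq]
      simp only [hu, hs, ha]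
      ring
  refine le_of_tendsto' hlim fun j => ?_
  rw [integral_sub huu (int_mul huu (hY j)), integral_prod_mul u u, h0, zero_mul, zero_sub,
    neg_nonpos]
  exact (hsk.Y j).nonneg μ hui

/-- the bilinear form of a kernel -/
def BF {X : Type} [MeasurableSpace X] (μ : Measure X) (w : X × X → ℝ) (g h : X → ℝ) : ℝ :=
  ∫ p : X × X, w p * (g p.1 * h p.2) ∂(μ.prod μ)

namespace AFK

theorem abstract {E : Type} [AddCommGroup E] [Module ℝ E] (A B : E →ₗ[ℝ] E →ₗ[ℝ] ℝ)
    (hA : ∀ g h, A g h = A h g) (hB : ∀ g h, B g h = B h g) (P : E → E)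
    (hP : ∀ g h, A (P g) h = B g h) (hT : ∀ g, B g g ≤ A (P g) (P g))
    (hA0 : ∀ g, 0 ≤ A g g) (hAB : ∀ g, 0 ≤ A g g + B g g) {l : ℝ} (hl0 : 0 ≤ l) (hl1 : l < 1)
    (hgap : ∀ g, B g g ≤ l * A g g) (g : E) : B g g ≤ 0 := by
  have step : ∀ m : ℝ, 0 ≤ m → (∀ g, B g g ≤ m * A g g) → ∀ g, (2 - m) * B g g ≤ m * A g g := by
    intro m hm H g
    set h : E := m • g - P g with hh
    have e1 : m * A g h - B g h = A h h := by
      rw [← hP]
      nth_rewrite 3 [hh]
      simp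
    have e2 : A h h = m * m * A g g - 2 * m * B g g + A (P g) (P g) := by
      simp only [hh, map_sub, map_smul, LinearMap.sub_apply, LinearMap.smul_apply, smul_eq_mul,
        hA g (P g), hP g g]
      ring
    have e3 := H ((1 + m) • g - h)
    simp only [map_sub, map_smul, LinearMap.sub_apply, LinearMap.smul_apply, smul_eq_mul,
      hA h g, hB h g] at e3
    have e4 := hAB h
    have e5 : (1 + m) * A h h ≤ (1 + m) * ((1 + m) * (m * A g g - B g g)) := by
      have : (1 + m) * (m * A g h - B g h) = (1 + m) * A h h := by rw [e1]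
      nlinarith
    have e6 := le_of_mul_le_mul_left e5 (by linarith)
    have e7 := hT g
    nlinarith
  set r : ℝ := (2 - l)⁻¹ with hr
  have h2 : (0 : ℝ) < 2 - l := by linarith
  have hr0 : 0 ≤ r := by positivity
  have hr1 : r < 1 := inv_lt_one_of_one_lt₀ (by linarith)
  have hrl : r * (2 - l) = 1 := inv_mul_cancel₀ h2.ne'
  have iter : ∀ n : ℕ, ∀ g, B g g ≤ l * r ^ n * A g g := by
    intro n
    induction n with
    | zero => simpa using hgap
    | succ n ih =>
      intro g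
      have hm0 : 0 ≤ l * r ^ n := by positivity
      have hml : l * r ^ n ≤ l := mul_le_of_le_one_right hl0 (pow_le_one₀ hr0 hr1.le)
      have h := step _ hm0 ih g
      rcases le_total (B g g) 0 with hb | hb
      · exact hb.trans (mul_nonneg (by positivity) (hA0 g))
      · have h' : (2 - l) * B g g ≤ l * r ^ n * A g g :=
          (mul_le_mul_of_nonneg_right (by linarith) hb).trans h
        have h'' := mul_le_mul_of_nonneg_left h' hr0
        rw [← mul_assoc, hrl, one_mul] at h''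
        refine h''.trans_eq (by ring)
  have ht : Tendsto (fun n : ℕ => l * r ^ n * A g g) atTop (𝓝 (l * 0 * A g g)) :=
    ((tendsto_pow_atTop_nhds_zero_of_lt_one hr0 hr1).const_mul l).mul_const _
  simpa using ge_of_tendsto' ht fun n => iter n g

variable {X : Type} [MeasurableSpace X]

/-- the diagonal form of a kernel -/
def AF0 (μ : Measure X) (w : X × X → ℝ) (g h : X → ℝ) : ℝ :=
  ∫ p : X × X, w p * (g p.1 * h p.1) ∂(μ.prod μ)

variable {μ : Measure X} [IsProbabilityMeasure μ] {w : X × X → ℝ}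

theorem BF_comm (hs : ∀ x z, w (x, z) = w (z, x)) (g h : X → ℝ) : BF μ w g h = BF μ w h g := by
  unfold BF
  rw [← integral_prod_swap]
  refine integral_congr_ae (ae_of_all _ fun p => ?_)
  simp only [Prod.fst_swap, Prod.snd_swap]
  rw [mul_comm (g p.2), show w p.swap = w p from (hs p.1 p.2).symm]

theorem dir_eq (hs : ∀ x z, w (x, z) = w (z, x)) (hi : Integrable w (μ.prod μ)) {g : X → ℝ}
    (hg : Bd g) (e : ℝ) : ∫ p : X × X, w p * (g p.1 + e * g p.2) ^ 2 ∂(μ.prod μ)
      = (1 + e ^ 2) * AF0 μ w g g + 2 * e * BF μ w g g := by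
  have h1 := int_mul hi (bd_mul (bd_fst hg) (bd_fst hg))
  have h2 := int_mul hi (bd_mul (bd_snd hg) (bd_snd hg))
  have h3 := int_mul hi (bd_mul (bd_fst hg) (bd_snd hg))
  have e2 : ∫ p : X × X, w p * (g p.2 * g p.2) ∂(μ.prod μ) = AF0 μ w g g := by
    unfold AF0
    rw [← integral_prod_swap]
    refine integral_congr_ae (ae_of_all _ fun p => ?_)
    simp only [Prod.snd_swap]
    rw [show w p.swap = w p from (hs p.1 p.2).symm]
  have e3 : ∀ p : X × X, w p * (g p.1 + e * g p.2) ^ 2 = (w p * (g p.1 * g p.1)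
      + e ^ 2 * (w p * (g p.2 * g p.2))) + 2 * e * (w p * (g p.1 * g p.2)) := fun p => by ring
  simp only [e3]
  have h4 : Integrable (fun p : X × X => w p * (g p.1 * g p.1) + e ^ 2 * (w p * (g p.2 * g p.2)))
      (μ.prod μ) := h1.add (h2.const_mul _)
  rw [integral_add h4 (h3.const_mul _), integral_add h1 (h2.const_mul _),
    integral_const_mul, integral_const_mul, e2]
  unfold AF0 BF
  ring

theorem BF_shift (hi : Integrable w (μ.prod μ)) {g h : X → ℝ} (hg : Bd g) (hh : Bd h) (s : ℝ) :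
    BF μ w (fun x => g x + s) h = BF μ w g h + s * BF μ w (fun _ => 1) h := by
  unfold BF
  rw [← integral_const_mul, ← integral_add (int_mul hi (bd_mul (bd_fst hg) (bd_snd hh)))
    ((int_mul hi (bd_mul (bd_fst (bd_const 1)) (bd_snd hh))).const_mul _)]
  refine integral_congr_ae (ae_of_all _ fun p => ?_)
  simp only
  ring

/-- bounded measurable functions of mean zero -/
def Sp (μ : Measure X) [IsProbabilityMeasure μ] {w : X × X → ℝ}
    (hi : Integrable w (μ.prod μ)) : Submodule ℝ (X → ℝ) where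
  carrier := {g | Bd g ∧ BF μ w g (fun _ => 1) = 0}
  zero_mem' := ⟨bd_const 0, by simp [BF]⟩
  add_mem' := by
    rintro g h ⟨hg, hg0⟩ ⟨hh, hh0⟩
    refine ⟨bd_add hg hh, ?_⟩
    unfold BF at *
    simp only [Pi.add_apply, add_mul, mul_add]
    rw [integral_add (int_mul hi (bd_mul (bd_fst hg) (bd_const 1)))
      (int_mul hi (bd_mul (bd_fst hh) (bd_const 1))), hg0, hh0, add_zero]
  smul_mem' := by
    rintro c g ⟨hg, hg0⟩
    refine ⟨bd_mul (bd_const c) hg, ?_⟩
    unfold BF at *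
    simp only [Pi.smul_apply, smul_eq_mul, mul_assoc, mul_left_comm _ c]
    rw [integral_const_mul, hg0, mul_zero]

/-- the form `∫ w g(x) h(t(x, z))` on `Sp` -/
def form (μ : Measure X) [IsProbabilityMeasure μ] {w : X × X → ℝ}
    (hi : Integrable w (μ.prod μ)) (t : X × X → X)
    (ht : ∀ g : X → ℝ, Bd g → Bd fun p => g (t p)) : Sp μ hi →ₗ[ℝ] Sp μ hi →ₗ[ℝ] ℝ :=
  LinearMap.mk₂ ℝ (fun g h => ∫ p : X × X, w p * (g.1 p.1 * h.1 (t p)) ∂(μ.prod μ))
    (fun g g' h => by
      simp only [Submodule.coe_add, Pi.add_apply, add_mul, mul_add]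
      exact integral_add (int_mul hi (bd_mul (bd_fst g.2.1) (ht _ h.2.1)))
        (int_mul hi (bd_mul (bd_fst g'.2.1) (ht _ h.2.1))))
    (fun c g h => by
      simp only [Submodule.coe_smul, Pi.smul_apply, smul_eq_mul, mul_assoc, mul_left_comm _ c]
      exact integral_const_mul _ _)
    (fun g h h' => by
      simp only [Submodule.coe_add, Pi.add_apply, mul_add]
      exact integral_add (int_mul hi (bd_mul (bd_fst g.2.1) (ht _ h.2.1)))
        (int_mul hi (bd_mul (bd_fst g.2.1) (ht _ h'.2.1))))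
    (fun c g h => by
      simp only [Submodule.coe_smul, Pi.smul_apply, smul_eq_mul, mul_left_comm _ c]
      exact integral_const_mul _ _)

/-- the averaging operator -/
def Pm (μ : Measure X) (w : X × X → ℝ) (g : X → ℝ) (x : X) : ℝ :=
  (∫ z, w (x, z) * g z ∂μ) / ∫ z, w (x, z) ∂μ

theorem abs_row (h0 : ∀ p, 0 ≤ w p) (hrow : ∀ x, Integrable (fun z => w (x, z)) μ) {g : X → ℝ}
    {C : ℝ} (hC : ∀ x, |g x| ≤ C) (x : X) :
    |∫ z, w (x, z) * g z ∂μ| ≤ C * ∫ z, w (x, z) ∂μ := by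
  rw [← integral_const_mul, ← Real.norm_eq_abs]
  refine norm_integral_le_of_norm_le ((hrow x).const_mul C) (ae_of_all _ fun z => ?_)
  rw [norm_mul, Real.norm_of_nonneg (h0 _), mul_comm]
  exact mul_le_mul_of_nonneg_right (hC z) (h0 _)

theorem bd_Pm (hw : Measurable w) (h0 : ∀ p, 0 ≤ w p)
    (hrow : ∀ x, Integrable (fun z => w (x, z)) μ) {g : X → ℝ} (hg : Bd g) : Bd (Pm μ w g) := by
  obtain ⟨C, hC⟩ := hg.bdd
  refine ⟨?_, C, fun x => ?_⟩
  · exact ((hw.mul (bd_snd hg).meas).stronglyMeasurable.integral_prod_right').measurable.div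
      hw.stronglyMeasurable.integral_prod_right'.measurable
  · have h1 : 0 ≤ ∫ z, w (x, z) ∂μ := integral_nonneg fun z => h0 _
    unfold Pm
    rw [abs_div, abs_of_nonneg h1]
    exact div_le_of_le_mul₀ h1 ((abs_nonneg _).trans (hC x)) (abs_row h0 hrow hC x)

theorem row_Pm (h0 : ∀ p, 0 ≤ w p) (hrow : ∀ x, Integrable (fun z => w (x, z)) μ) {g : X → ℝ}
    (hg : Bd g) (x : X) : (∫ z, w (x, z) ∂μ) * Pm μ w g x = ∫ z, w (x, z) * g z ∂μ := by
  obtain ⟨C, hC⟩ := hg.bdd
  unfold Pm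
  by_cases h : ∫ z, w (x, z) ∂μ = 0
  · have := abs_row h0 hrow hC x
    rw [h, mul_zero, abs_nonpos_iff] at this
    rw [h, this, zero_mul]
  · field_simp

theorem AF0_eq (hi : Integrable w (μ.prod μ)) {g h : X → ℝ} (hg : Bd g) (hh : Bd h) :
    AF0 μ w g h = ∫ x, (∫ z, w (x, z) ∂μ) * g x * h x ∂μ := by
  unfold AF0
  rw [integral_prod _ (int_mul hi (bd_mul (bd_fst hg) (bd_fst hh)))]
  simp only [integral_mul_const, mul_assoc]

theorem AF0_Pm (hw : Measurable w) (hs : ∀ x z, w (x, z) = w (z, x)) (h0 : ∀ p, 0 ≤ w p)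
    (hi : Integrable w (μ.prod μ)) (hrow : ∀ x, Integrable (fun z => w (x, z)) μ) {g h : X → ℝ}
    (hg : Bd g) (hh : Bd h) : AF0 μ w (Pm μ w g) h = BF μ w g h := by
  rw [AF0_eq hi (bd_Pm hw h0 hrow hg) hh, BF_comm hs]
  unfold BF
  rw [integral_prod _ (int_mul hi (bd_mul (bd_fst hh) (bd_snd hg)))]
  refine integral_congr_ae (ae_of_all _ fun x => ?_)
  simp only
  rw [row_Pm h0 hrow hg, ← integral_mul_const]
  refine integral_congr_ae (ae_of_all _ fun z => ?_)
  simp only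
  ring

end AFK

open AFK in
/-- Bochner (trickle down) step -/
theorem bochner {X : Type} [MeasurableSpace X] (μ : Measure X) [IsProbabilityMeasure μ]
    {w w₀ : X × X → ℝ} (hw : Measurable w) (hw₀ : Measurable w₀)
    (hs : ∀ x z, w (x, z) = w (z, x)) (hs₀ : ∀ x z, w₀ (x, z) = w₀ (z, x))
    (h0 : ∀ p, 0 ≤ w₀ p) (hi : Integrable w₀ (μ.prod μ))
    (hrow : ∀ x, Integrable (fun z => w₀ (x, z)) μ)
    {c C : ℝ} (hc : 0 < c) (hcmp : ∀ p, c * w₀ p ≤ w p ∧ w p ≤ C * w₀ p)
    (hpos : 0 < BF μ w₀ (fun _ => 1) fun _ => 1)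
    (hyp : ∀ g, Bd g → BF μ w₀ g g * BF μ w₀ (fun _ => 1) (fun _ => 1)
      ≤ BF μ w₀ g (fun _ => 1) ^ 2)
    (trickle : ∀ g, Bd g →
      BF μ w g g ≤ ∫ x, (∫ z, w (x, z) * g z ∂μ) ^ 2 / (∫ z, w (x, z) ∂μ) ∂μ)
    {g : X → ℝ} (hg : Bd g) (hg0 : BF μ w g (fun _ => 1) = 0) : BF μ w g g ≤ 0 := by
  have w0 : ∀ p, 0 ≤ w p := fun p => (mul_nonneg hc.le (h0 p)).trans (hcmp p).1
  have wi : Integrable w (μ.prod μ) := (hi.const_mul C).mono' hw.aestronglyMeasurable
    (ae_of_all _ fun p => by rw [Real.norm_of_nonneg (w0 p)]; exact (hcmp p).2)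
  have wrow : ∀ x, Integrable (fun z => w (x, z)) μ := fun x => ((hrow x).const_mul C).mono'
    (hw.comp measurable_prodMk_left).aestronglyMeasurable
    (ae_of_all _ fun z => by rw [Real.norm_of_nonneg (w0 _)]; exact (hcmp _).2)
  set K : ℝ := max C c with hK
  have hK0 : 0 < K := hc.trans_le (le_max_right _ _)
  have hwK : ∀ p, w p ≤ K * w₀ p := fun p =>
    (hcmp p).2.trans (mul_le_mul_of_nonneg_right (le_max_left _ _) (h0 p))
  have gap : ∀ g : X → ℝ, Bd g → BF μ w g (fun _ => 1) = 0 →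
      BF μ w g g ≤ (1 - c / K) * AF0 μ w g g := by
    intro g hg hg0
    set s : ℝ := -(BF μ w₀ g (fun _ => 1) / BF μ w₀ (fun _ => 1) fun _ => 1) with hsd
    have hg' : Bd fun x => g x + s := bd_add hg (bd_const s)
    have a1 : BF μ w₀ (fun x => g x + s) (fun _ => 1) = 0 := by
      rw [BF_shift hi hg (bd_const 1), hsd]
      field_simp
      ring
    have a2 : BF μ w₀ (fun x => g x + s) (fun x => g x + s) ≤ 0 := by
      have := hyp _ hg'
      rw [a1] at this
      nlinarith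
    have a3 := dir_eq hs₀ hi hg' (-1)
    have a4 := dir_eq hs wi hg (-1)
    have hd : Bd fun p : X × X => (g p.1 + -1 * g p.2) ^ 2 := by
      have := bd_add (bd_fst hg) (bd_mul (bd_const (-1)) (bd_snd hg))
      simpa only [sq] using bd_mul this this
    have a5 : c * ∫ p : X × X, w₀ p * (g p.1 + s + -1 * (g p.2 + s)) ^ 2 ∂(μ.prod μ)
        ≤ ∫ p : X × X, w p * (g p.1 + -1 * g p.2) ^ 2 ∂(μ.prod μ) := by
      have e : ∀ p : X × X, g p.1 + s + -1 * (g p.2 + s) = g p.1 + -1 * g p.2 := fun p => by ring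
      simp only [e]
      rw [← integral_const_mul]
      refine integral_mono ((int_mul hi hd).const_mul c) (int_mul wi hd) fun p => ?_
      simp only
      rw [← mul_assoc]
      exact mul_le_mul_of_nonneg_right (hcmp p).1 (sq_nonneg _)
    have a6 : AF0 μ w (fun x => g x + s) (fun x => g x + s)
        ≤ K * AF0 μ w₀ (fun x => g x + s) (fun x => g x + s) := by
      unfold AF0
      rw [← integral_const_mul]
      have hb := bd_mul (bd_fst hg') (bd_fst hg')
      refine integral_mono (int_mul wi hb) ((int_mul hi hb).const_mul K) fun p => ?_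
      simp only
      rw [← mul_assoc K]
      exact mul_le_mul_of_nonneg_right (hwK p) (mul_self_nonneg _)
    have a7 : AF0 μ w g g ≤ AF0 μ w (fun x => g x + s) (fun x => g x + s) := by
      have hb := int_mul wi (bd_mul (bd_fst hg') (bd_fst hg'))
      have h1 := int_mul wi (bd_mul (bd_fst hg) (bd_fst hg))
      have h2 := (int_mul wi (bd_mul (bd_fst hg) (bd_const 1))).const_mul (2 * s)
      have e : AF0 μ w g g = ∫ p : X × X, (w p * (g p.1 * g p.1) + 2 * s * (w p * (g p.1 * 1)))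
          ∂(μ.prod μ) := by
        rw [integral_add h1 h2, integral_const_mul]
        unfold BF at hg0
        rw [hg0, mul_zero, add_zero]
        rfl
      rw [e]
      refine integral_mono (h1.add h2) hb fun p => ?_
      simp only
      nlinarith [mul_nonneg (w0 p) (mul_self_nonneg s)]
    rw [a3, a4] at a5
    have a8 : c / K * AF0 μ w g g ≤ c * AF0 μ w₀ (fun x => g x + s) (fun x => g x + s) := by
      rw [div_mul_eq_mul_div, div_le_iff₀ hK0]
      nlinarith [mul_le_mul_of_nonneg_left (a7.trans a6) hc.le]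
    nlinarith [mul_nonneg hc.le (neg_nonneg.2 a2)]
  let P : Sp μ wi → Sp μ wi := fun g => ⟨Pm μ w g.1, bd_Pm hw w0 wrow g.2.1,
    (AF0_Pm hw hs w0 wi wrow g.2.1 (bd_const 1)).trans g.2.2⟩
  refine abstract (form μ wi Prod.fst fun _ => bd_fst) (form μ wi Prod.snd fun _ => bd_snd)
    (fun g h => ?_) (fun g h => BF_comm hs g.1 h.1) P
    (fun g h => AF0_Pm hw hs w0 wi wrow g.2.1 h.2.1) (fun g => ?_) (fun g => ?_) (fun g => ?_)
    (l := 1 - c / K) ?_ ?_ (fun g => gap g.1 g.2.1 g.2.2) ⟨g, hg, hg0⟩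
  · change AF0 μ w g.1 h.1 = AF0 μ w h.1 g.1
    unfold AF0
    simp only [mul_comm (g.1 _)]
  · change BF μ w g.1 g.1 ≤ AF0 μ w (Pm μ w g.1) (Pm μ w g.1)
    have hb := bd_Pm hw w0 wrow g.2.1
    rw [AF0_eq wi hb hb]
    refine (trickle _ g.2.1).trans_eq (integral_congr_ae (ae_of_all _ fun x => ?_))
    simp only
    rw [row_Pm w0 wrow g.2.1, sq, mul_div_assoc]
    rfl
  · exact integral_nonneg fun p => mul_nonneg (w0 p) (mul_self_nonneg _)
  · change 0 ≤ AF0 μ w g.1 g.1 + BF μ w g.1 g.1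
    have h := dir_eq hs wi g.2.1 1
    have h' : 0 ≤ ∫ p : X × X, w p * (g.1 p.1 + 1 * g.1 p.2) ^ 2 ∂(μ.prod μ) :=
      integral_nonneg fun p => mul_nonneg (w0 p) (sq_nonneg _)
    rw [h] at h'
    linarith
  · rw [sub_nonneg, div_le_one hK0]
    exact le_max_right _ _
  · have := div_pos hc hK0
    linarith

end Pool.Agent.P.MP_181257_gt
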