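import Pool.Agent.P.MP_181257_gt.Haar

/-! Blaschke-Petkantschin formula in Gaussian form. -/

set_option autoImplicit false
set_option linter.unusedSectionVars false

open MeasureTheory ProbabilityTheory Module Set Filter Topology
open scoped RealInnerProductSpace ENNReal Pointwise Matrix

noncomputable section

namespace Pool.Agent.P.MP_181257_gt

variable {V : Type} [NormedAddCommGroup V] [InnerProductSpace ℝ V] [FiniteDimensional ℝ V]
  [MeasurableSpace V] [BorelSpace V]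

theorem bp_avg {G : V × V → ℝ≥0∞} (hG : Measurable G) :
    ∫⁻ a, ∫⁻ b, G (a, b) ∂(stdGaussian V) ∂(stdGaussian V)
      = ∫⁻ a, ∫⁻ b, ∫⁻ g, G (ap g a, ap g b) ∂(haar V) ∂(stdGaussian V) ∂(stdGaussian V) := by
  have hm : Measurable fun q : OG V × V × V => G (ap q.1 q.2.1, ap q.1 q.2.2) :=
    hG.comp (by fun_prop)
  have h1 : ∀ g : OG V, ∫⁻ q, G (ap g q.1, ap g q.2) ∂((stdGaussian V).prod (stdGaussian V))
      = ∫⁻ q, G q ∂((stdGaussian V).prod (stdGaussian V)) := fun g =>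
    ((mp_ap g).prod (mp_ap g)).lintegral_comp hG
  rw [← lintegral_prod _ hG.aemeasurable,
    ← lintegral_prod (fun q : V × V => ∫⁻ g, G (ap g q.1, ap g q.2) ∂(haar V))
      hm.lintegral_prod_left'.aemeasurable,
    ← lintegral_lintegral_swap (f := fun (g : OG V) (q : V × V) => G (ap g q.1, ap g q.2))
      hm.aemeasurable]
  simp_rw [h1]
  simp

theorem bp_rad (hn : 1 ≤ finrank ℝ V) {ψ : ℝ → ℝ≥0∞} (hψ : Measurable ψ) :
    ∫⁻ x, ψ ‖x‖ ∂(stdGaussian V) = (rad (finrank ℝ V) fun _ => 1)⁻¹ * rad (finrank ℝ V) ψ := by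
  rw [← lintegral_norm_rad hn hψ, mul_left_comm,
    ENNReal.inv_mul_cancel (rad_one_ne_zero _) (rad_one_ne_top _), mul_one]

theorem bp_rad_pr {m : ℕ} (hn : finrank ℝ V = m + 2) {a : V} (ha : a ≠ 0) {ψ : ℝ → ℝ≥0∞}
    (hψ : Measurable ψ) :
    ∫⁻ b, ψ ‖pr a b‖ ∂(stdGaussian V) = (rad (m + 1) fun _ => 1)⁻¹ * rad (m + 1) ψ := by
  have h1 : finrank ℝ (ℝ ∙ a)ᗮ = m + 1 := by have := finrank_orth ha; omega
  rw [← h1, ← bp_rad (by omega) hψ]
  exact (mp_prS a).lintegral_comp (hψ.comp measurable_norm)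

theorem bp_ae_pr {m : ℕ} (hn : finrank ℝ V = m + 2) {a : V} (ha : a ≠ 0) :
    ∀ᵐ b ∂(stdGaussian V), pr a b ≠ 0 := by
  have h1 : finrank ℝ (ℝ ∙ a)ᗮ = m + 1 := by have := finrank_orth ha; omega
  filter_upwards [(mp_prS a).quasiMeasurePreserving.ae (ae_ne_zero (by omega))] with b hb h
  exact hb (Subtype.ext h)

theorem bp_rad_mul (d s : ℕ) (ψ : ℝ → ℝ≥0∞) :
    rad (d + 1) (fun r => ENNReal.ofReal (r ^ s) * ψ r) = rad (d + 1 + s) ψ := by
  refine setLIntegral_congr_fun measurableSet_Ioi fun r hr => ?_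
  have hr1 : 0 < r := hr
  simp only [show d + 1 + s - 1 = s + d by omega, Nat.add_sub_cancel]
  rw [pow_add, mul_assoc (r ^ s), ENNReal.ofReal_mul (p := r ^ s) (by positivity)]
  ring

@[fun_prop] theorem bp_measurable_cons {X : Type*} [MeasurableSpace X] {k : ℕ} {a : X → V}
    {x : X → Fin k → V} (ha : Measurable a) (hx : Measurable x) :
    Measurable fun p => (Fin.cons (a p) (x p) : Fin (k + 1) → V) :=
  (mp_cons (stdGaussian V)).measurable.comp (ha.prodMk hx)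

theorem bp_one (n s : ℕ) (hn : 2 ≤ n) : ∃ C : ℝ≥0∞, C ≠ 0 ∧ C ≠ ∞ ∧
    ∀ (V : Type) [NormedAddCommGroup V] [InnerProductSpace ℝ V] [FiniteDimensional ℝ V]
      [MeasurableSpace V] [BorelSpace V], finrank ℝ V = n →
      ∀ H : V × V → ℝ≥0∞, Measurable H →
      (∀ x y (t : ℝ), 0 < t → H (x, t • y) = ENNReal.ofReal (t ^ s) * H (x, y)) →
      ∫⁻ a, ∫⁻ b, H (a, pr a b) ∂(stdGaussian V) ∂(stdGaussian V)
        = C * ∫⁻ b, ∫⁻ a, ENNReal.ofReal ‖pr b a‖ * H (pr b a, b)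
            ∂(stdGaussian V) ∂(stdGaussian V) := by
  obtain ⟨m, rfl⟩ : ∃ m, n = m + 2 := ⟨n - 2, by omega⟩
  refine ⟨rad (m + 1 + s) (fun _ => 1) * (rad (m + 2 + s) fun _ => 1)⁻¹,
    mul_ne_zero (rad_one_ne_zero _) (ENNReal.inv_ne_zero.2 (rad_one_ne_top _)),
    ENNReal.mul_ne_top (rad_one_ne_top _) (ENNReal.inv_ne_top.2 (rad_one_ne_zero _)), ?_⟩
  intro V _ _ _ _ _ hV H hH hom
  let i0 : Fin (finrank ℝ V) := ⟨0, by omega⟩
  let i1 : Fin (finrank ℝ V) := ⟨1, by omega⟩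
  set e1 := stdOrthonormalBasis ℝ V i0
  set e2 := stdOrthonormalBasis ℝ V i1
  have he1 : ‖e1‖ = 1 := (stdOrthonormalBasis ℝ V).orthonormal.1 i0
  have he2 : ‖e2‖ = 1 := (stdOrthonormalBasis ℝ V).orthonormal.1 i1
  have he : ⟪e1, e2⟫ = 0 := (stdOrthonormalBasis ℝ V).orthonormal.2 (by simp [i0, i1])
  let J : ℝ → ℝ≥0∞ := fun r => ∫⁻ g, H (r • ap g e1, ap g e2) ∂(haar V)
  have hJ : Measurable J :=
    Measurable.lintegral_prod_right' (f := fun q : ℝ × OG V => H (q.1 • ap q.2 e1, ap q.2 e2))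
      (hH.comp (by fun_prop))
  have hbar : ∀ x y : V, ⟪x, y⟫ = 0 → y ≠ 0 →
      ∫⁻ g, H (ap g x, ap g y) ∂(haar V) = ENNReal.ofReal (‖y‖ ^ s) * J ‖x‖ := by
    intro x y hxy hy
    obtain ⟨h, h1, h2⟩ := exists_ap_pair (x' := x) (y' := y) (x := ‖x‖ • e1) (y := ‖y‖ • e2)
      (by simp [norm_smul, he1]) (by simp [norm_smul, he2])
      (by simp [real_inner_smul_left, real_inner_smul_right, he]) hxy
    rw [← lintegral_const_mul' _ _ ENNReal.ofReal_ne_top,
      ← lintegral_mul_right_eq_self (fun g : OG V => H (ap g x, ap g y)) h⁻¹]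
    refine lintegral_congr fun g => ?_
    rw [← hom _ _ _ (norm_pos_iff.2 hy), ← ap_smul, ← ap_smul]
    conv_lhs => rw [← h1, ← h2, ← ap_mul, ← ap_mul, inv_mul_cancel_right]
  have hps : Measurable fun r : ℝ => ENNReal.ofReal (r ^ s) := by fun_prop
  have hL : ∫⁻ a, ∫⁻ b, H (a, pr a b) ∂(stdGaussian V) ∂(stdGaussian V) =
      (rad (m + 1) fun _ => 1)⁻¹ * rad (m + 1 + s) (fun _ => 1) *
        ((rad (m + 2) fun _ => 1)⁻¹ * rad (m + 2) J) := by
    rw [bp_avg (G := fun q => H (q.1, pr q.1 q.2)) (hH.comp (by fun_prop)), ← hV,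
      ← bp_rad (by omega) hJ, ← lintegral_const_mul (f := fun x : V => J ‖x‖) _ (hJ.comp measurable_norm)]
    refine lintegral_congr_ae ?_
    filter_upwards [ae_ne_zero (V := V) (by omega)] with a ha
    have h1 := bp_rad_pr hV ha hps
    rw [← bp_rad_mul]
    simp only [mul_one]
    rw [← h1, ← lintegral_mul_const _ (by fun_prop)]
    refine lintegral_congr_ae ?_
    filter_upwards [bp_ae_pr hV ha] with b hb
    simp only [← ap_pr]
    exact hbar a _ (inner_pr_self a b) hb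
  have hR : ∫⁻ b, ∫⁻ a, ENNReal.ofReal ‖pr b a‖ * H (pr b a, b) ∂(stdGaussian V) ∂(stdGaussian V)
      = (rad (m + 2) fun _ => 1)⁻¹ * rad (m + 2 + s) (fun _ => 1) *
        ((rad (m + 1) fun _ => 1)⁻¹ * rad (m + 2) J) := by
    have h1 := bp_rad (V := V) (by omega) hps
    have h2 := bp_rad_mul (m + 1) s fun _ => 1
    have h3 := bp_rad_mul m 1 J
    simp only [mul_one] at h2
    simp only [pow_one] at h3
    rw [hV, h2] at h1
    rw [bp_avg (G := fun q => ENNReal.ofReal ‖pr q.1 q.2‖ * H (pr q.1 q.2, q.1))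
      (Measurable.mul (by fun_prop) (hH.comp (by fun_prop))), ← h1,
      ← lintegral_mul_const _ (by fun_prop)]
    refine lintegral_congr_ae ?_
    filter_upwards [ae_ne_zero (V := V) (by omega)] with b hb
    have hm : Measurable fun r : ℝ => ENNReal.ofReal r * J r := Measurable.mul (by fun_prop) hJ
    rw [← h3, ← bp_rad_pr hV hb hm, ← lintegral_const_mul' _ _ ENNReal.ofReal_ne_top]
    refine lintegral_congr fun a => ?_
    simp only [← ap_pr, norm_ap]
    rw [lintegral_const_mul' _ _ ENNReal.ofReal_ne_top,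
      hbar _ b (by rw [real_inner_comm]; exact inner_pr_self b a) hb, mul_left_comm]
  rw [hL, hR]
  calc _ = rad (m + 1 + s) (fun _ => 1) * ((rad (m + 2 + s) fun _ => 1)⁻¹ *
        rad (m + 2 + s) fun _ => 1) * ((rad (m + 2) fun _ => 1)⁻¹ *
          ((rad (m + 1) fun _ => 1)⁻¹ * rad (m + 2) J)) := by
        rw [ENNReal.inv_mul_cancel (rad_one_ne_zero _) (rad_one_ne_top _)]
        ring
    _ = _ := by ring

/-- the induction step for a fixed first vector -/
theorem bp_step {k : ℕ} {C : ℝ≥0∞} (hC : C ≠ ∞) {s : ℕ} {a : V} (ha : a ≠ 0)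
    (ih : ∀ F : (Fin k → (ℝ ∙ a)ᗮ) × (ℝ ∙ a)ᗮ → ℝ≥0∞, Measurable F →
      (∀ x y (t : ℝ), 0 < t → F (x, t • y) = ENNReal.ofReal (t ^ s) * F (x, y)) →
      ∫⁻ x, ∫⁻ b, F (x, Pj k x b) ∂(stdGaussian (ℝ ∙ a)ᗮ) ∂(γk (ℝ ∙ a)ᗮ k)
        = C * ∫⁻ b, ∫⁻ x, ENNReal.ofReal (D fun j => pr b (x j)) * F (fun j => pr b (x j), b)
            ∂(γk (ℝ ∙ a)ᗮ k) ∂(stdGaussian (ℝ ∙ a)ᗮ))
    {G : (Fin k → V) × V → ℝ≥0∞} (hG : Measurable G)
    (hom : ∀ x y (t : ℝ), 0 < t → G (x, t • y) = ENNReal.ofReal (t ^ s) * G (x, y)) :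
    ∫⁻ x, ∫⁻ b, G (x, Pj k (fun j => pr a (x j)) (pr a b)) ∂(stdGaussian V) ∂(γk V k)
      = C * ∫⁻ b, ∫⁻ x, ENNReal.ofReal (D fun j => pr a (pr (pr a b) (x j))) *
          G (fun j => pr (pr a b) (x j), pr a b) ∂(γk V k) ∂(stdGaussian V) := by
  have hna : ‖a‖ ≠ 0 := norm_ne_zero_iff.2 ha
  set e : V := ‖a‖⁻¹ • a with he
  have hsp := mp_pi_split (k := k) (mp_sub_split (a := a) (e := e)
    (by simp [he, norm_smul, hna]) (by simp [he, smul_smul, hna]) ha)
  set ν : Measure (Fin k → ℝ) := Measure.pi fun _ => gaussianReal 0 1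
  have hsplit : ∀ Φ : (Fin k → V) → ℝ≥0∞, Measurable Φ → ∫⁻ x, Φ x ∂(γk V k) =
      ∫⁻ t, ∫⁻ z, Φ (fun j => (z j : V) + t j • e) ∂(γk (ℝ ∙ a)ᗮ k) ∂ν := fun Φ hΦ =>
    (hsp.lintegral_comp hΦ).symm.trans
      (lintegral_prod_symm _ (hΦ.comp hsp.measurable).aemeasurable)
  have hz : ∀ z : (ℝ ∙ a)ᗮ, ⟪a, (z : V)⟫ = 0 := fun z =>
    Submodule.mem_orthogonal_singleton_iff_inner_right.1 z.2
  have h1 : ∀ (z : (ℝ ∙ a)ᗮ) (t : ℝ), pr a ((z : V) + t • e) = z := fun z t => by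
    rw [pr_add, pr_of_inner_eq_zero (hz z), he, pr_smul, pr_smul, pr_self, smul_zero, smul_zero,
      add_zero]
  have h2 : ∀ (w z : (ℝ ∙ a)ᗮ) (t : ℝ),
      pr (w : V) ((z : V) + t • e) = ((pr w z : (ℝ ∙ a)ᗮ) : V) + t • e := fun w z t => by
    rw [pr_add, pr_of_inner_eq_zero (a := (w : V)) (v := t • e)
      (by rw [he, real_inner_smul_right, real_inner_smul_right, real_inner_comm, hz]; simp)]
    exact congrArg (· + t • e) (map_pr (ℝ ∙ a)ᗮ.subtypeₗᵢ w z).symm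
  have hc : Measurable ((↑) : (ℝ ∙ a)ᗮ → V) := measurable_subtype_coe
  let K : (Fin k → ℝ) × (ℝ ∙ a)ᗮ × (Fin k → (ℝ ∙ a)ᗮ) → ℝ≥0∞ := fun q =>
    ENNReal.ofReal (D fun j => pr q.2.1 (q.2.2 j)) *
      G (fun j => ((pr q.2.1 (q.2.2 j) : (ℝ ∙ a)ᗮ) : V) + q.1 j • e, q.2.1)
  have hK : Measurable K := Measurable.mul (by fun_prop) (hG.comp (by fun_prop))
  have hΦ : Measurable fun x : Fin k → V =>
      ∫⁻ b, G (x, Pj k (fun j => pr a (x j)) (pr a b)) ∂(stdGaussian V) :=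
    Measurable.lintegral_prod_right'
      (f := fun q : (Fin k → V) × V => G (q.1, Pj k (fun j => pr a (q.1 j)) (pr a q.2)))
      (hG.comp (measurable_fst.prodMk (measurable_Pj k (by fun_prop) (by fun_prop))))
  have hΨ : Measurable fun q : V × (Fin k → V) =>
      ENNReal.ofReal (D fun j => pr a (pr q.1 (q.2 j))) * G (fun j => pr q.1 (q.2 j), q.1) :=
    Measurable.mul (by fun_prop) (hG.comp (by fun_prop))
  calc _ = ∫⁻ t, ∫⁻ z, ∫⁻ w, G (fun j => (z j : V) + t j • e, ((Pj k z w : (ℝ ∙ a)ᗮ) : V))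
          ∂(stdGaussian (ℝ ∙ a)ᗮ) ∂(γk (ℝ ∙ a)ᗮ k) ∂ν := by
        rw [hsplit _ hΦ]
        refine lintegral_congr fun t => lintegral_congr fun z => ?_
        refine Eq.trans (lintegral_congr fun b => ?_) ((mp_prS a).lintegral_comp
          (hG.comp (measurable_const.prodMk (hc.comp (Pj k z).continuous.measurable))))
        simp only [h1]
        exact congrArg (fun v => G (_, v)) (map_Pj (ℝ ∙ a)ᗮ.subtypeₗᵢ z (prS a b)).symm
    _ = C * ∫⁻ t, ∫⁻ w, ∫⁻ z, K (t, w, z) ∂(γk (ℝ ∙ a)ᗮ k) ∂(stdGaussian (ℝ ∙ a)ᗮ) ∂ν := by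
        rw [← lintegral_const_mul' _ _ hC]
        refine lintegral_congr fun t => ?_
        exact ih (fun q => G (fun j => (q.1 j : V) + t j • e, (q.2 : V))) (hG.comp (by fun_prop))
          fun x y r hr => hom _ _ r hr
    _ = C * ∫⁻ w, ∫⁻ t, ∫⁻ z, K (t, w, z) ∂(γk (ℝ ∙ a)ᗮ k) ∂ν ∂(stdGaussian (ℝ ∙ a)ᗮ) := by
        rw [lintegral_lintegral_swap]
        exact (Measurable.lintegral_prod_right'
          (f := fun q : ((Fin k → ℝ) × (ℝ ∙ a)ᗮ) × (Fin k → (ℝ ∙ a)ᗮ) => K (q.1.1, q.1.2, q.2))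
          (hK.comp (by fun_prop))).aemeasurable
    _ = _ := by
        congr 1
        refine Eq.trans (lintegral_congr fun w => ?_)
          ((mp_prS a).lintegral_comp (hΨ.lintegral_prod_right'.comp hc)).symm
        refine Eq.trans (lintegral_congr fun t => lintegral_congr fun z => ?_)
          (hsplit _ (hΨ.comp (measurable_prodMk_left (x := (w : V))))).symm
        simp only [K, Function.comp, h2, h1]
        exact congrArg (fun r => ENNReal.ofReal r * _)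
          (D_map (ℝ ∙ a)ᗮ.subtypeₗᵢ fun j => pr w (z j)).symm

theorem bp (s : ℕ) : ∀ (k n : ℕ), k + 1 ≤ n → ∃ C : ℝ≥0∞, C ≠ 0 ∧ C ≠ ∞ ∧
    ∀ (V : Type) [NormedAddCommGroup V] [InnerProductSpace ℝ V] [FiniteDimensional ℝ V]
      [MeasurableSpace V] [BorelSpace V], finrank ℝ V = n →
      ∀ F : (Fin k → V) × V → ℝ≥0∞, Measurable F →
      (∀ x y (t : ℝ), 0 < t → F (x, t • y) = ENNReal.ofReal (t ^ s) * F (x, y)) →
      ∫⁻ x, ∫⁻ b, F (x, Pj k x b) ∂(stdGaussian V) ∂(γk V k)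
        = C * ∫⁻ b, ∫⁻ x, ENNReal.ofReal (D fun j => pr b (x j)) * F (fun j => pr b (x j), b)
            ∂(γk V k) ∂(stdGaussian V) := by
  intro k
  induction k with
  | zero =>
    refine fun n _ => ⟨1, one_ne_zero, ENNReal.one_ne_top, ?_⟩
    intro V _ _ _ _ _ _ F hF _
    rw [one_mul, lintegral_lintegral_swap (f := fun x b => F (x, Pj 0 x b)) hF.aemeasurable]
    refine lintegral_congr fun b => lintegral_congr fun x => ?_
    rw [D_fin_zero, ENNReal.ofReal_one, one_mul, Subsingleton.elim (fun j => pr b (x j)) x]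
    rfl
  | succ k ih =>
    intro n hn
    obtain ⟨C, hC0, hC, h1⟩ := ih (n - 1) (by omega)
    obtain ⟨E, hE0, hE, h2⟩ := bp_one n s (by omega)
    refine ⟨C * E, mul_ne_zero hC0 hE0, ENNReal.mul_ne_top hC hE, ?_⟩
    intro V _ _ _ _ _ hV F hF hom
    have hcons : ∀ Φ : (Fin (k + 1) → V) → ℝ≥0∞, Measurable Φ → ∫⁻ x, Φ x ∂(γk V (k + 1)) =
        ∫⁻ a, ∫⁻ x, Φ (Fin.cons a x) ∂(γk V k) ∂(stdGaussian V) := fun Φ hΦ =>
      ((mp_cons (stdGaussian V)).lintegral_comp hΦ).symm.trans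
        (lintegral_prod _ (hΦ.comp (mp_cons (stdGaussian V)).measurable).aemeasurable)
    have hΨ : Measurable fun q : (V × V) × (Fin k → V) =>
        ENNReal.ofReal (D fun j => pr q.1.1 (pr q.1.2 (q.2 j))) *
          F (Fin.cons q.1.1 fun j => pr q.1.2 (q.2 j), q.1.2) :=
      Measurable.mul (by fun_prop) (hF.comp (by fun_prop))
    have hΦ : Measurable fun x : Fin (k + 1) → V => ∫⁻ b, F (x, Pj (k + 1) x b) ∂(stdGaussian V) :=
      Measurable.lintegral_prod_right'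
        (f := fun q : (Fin (k + 1) → V) × V => F (q.1, Pj (k + 1) q.1 q.2))
        (hF.comp (measurable_fst.prodMk (measurable_Pj _ measurable_fst measurable_snd)))
    have h3 := h2 V hV _ (hΨ.lintegral_prod_right' (ν := γk V k)) fun x y t ht => by
      rw [← lintegral_const_mul' _ _ ENNReal.ofReal_ne_top]
      refine lintegral_congr fun z => ?_
      simp only [pr_smul_left ht.ne']
      rw [hom _ _ t ht, mul_left_comm]
    calc _ = C * ∫⁻ a, ∫⁻ b, ∫⁻ x, ENNReal.ofReal (D fun j => pr a (pr (pr a b) (x j))) *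
            F (Fin.cons a fun j => pr (pr a b) (x j), pr a b)
            ∂(γk V k) ∂(stdGaussian V) ∂(stdGaussian V) := by
          rw [hcons _ hΦ, ← lintegral_const_mul' _ _ hC]
          refine lintegral_congr_ae ?_
          filter_upwards [ae_ne_zero (V := V) (by omega)] with a ha
          simp only [Pj_succ, Fin.cons_zero, Fin.cons_succ]
          exact bp_step hC ha (h1 _ (by have := finrank_orth ha; omega))
            (G := fun q => F (Fin.cons a q.1, q.2)) (hF.comp (by fun_prop))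
            fun x y t ht => hom _ _ t ht
      _ = _ := by
          rw [mul_assoc, h3]
          congr 2
          refine lintegral_congr fun b => ?_
          have hb : Measurable fun x : Fin (k + 1) → V =>
              ENNReal.ofReal (D fun j => pr b (x j)) * F (fun j => pr b (x j), b) :=
            Measurable.mul (by fun_prop) (hF.comp (by fun_prop))
          rw [hcons _ hb]
          refine lintegral_congr fun a => ?_
          rw [← lintegral_const_mul' _ _ ENNReal.ofReal_ne_top]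
          refine lintegral_congr fun x => ?_
          have h4 : (fun j => pr b ((Fin.cons a x : Fin (k + 1) → V) j)) =
              (Fin.cons (pr b a) fun j => pr b (x j) : Fin (k + 1) → V) :=
            funext fun j => Fin.cases rfl (fun _ => rfl) j
          simp only [h4]
          rw [D_cons, ENNReal.ofReal_mul (norm_nonneg _), mul_assoc]

end Pool.Agent.P.MP_181257_gt
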