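import Pool.Agent.P.MP_181257_gt.Proj

/-! The Blaschke-Petkantschin formula in arbitrary codimension. -/

set_option autoImplicit false
set_option linter.unusedSectionVars false

open MeasureTheory ProbabilityTheory Module Set Filter Topology
open scoped RealInnerProductSpace ENNReal Pointwise Matrix

noncomputable section

namespace Pool.Agent.P.MP_181257_gt

variable {V : Type} [NormedAddCommGroup V] [InnerProductSpace ℝ V] [FiniteDimensional ℝ V]
  [MeasurableSpace V] [BorelSpace V]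

theorem exists_transfer (q : ℕ) : ∀ (i : ℕ) (V : Type) [NormedAddCommGroup V]
    [InnerProductSpace ℝ V] [FiniteDimensional ℝ V] [MeasurableSpace V] [BorelSpace V],
    finrank ℝ V = q + i → ∀ x : Fin i → V, D x ≠ 0 →
      ∃ (ι : EuclideanSpace ℝ (Fin q) →ₗᵢ[ℝ] V) (T : V → EuclideanSpace ℝ (Fin q)),
        MeasurePreserving T (stdGaussian V) (stdGaussian (EuclideanSpace ℝ (Fin q))) ∧
        ∀ b, ι (T b) = Pj i x b := by
  intro i
  induction i with
  | zero =>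
    intro V _ _ _ _ _ hV x _
    let e : V ≃ₗᵢ[ℝ] EuclideanSpace ℝ (Fin q) :=
      ((stdOrthonormalBasis ℝ V).reindex (finCongr hV)).repr
    refine ⟨e.symm.toLinearIsometry, e, ?_, fun b => by simp⟩
    exact mp_coiso e e.continuous.measurable e.symm
      (fun z t => by rw [← e.inner_map_map z, e.apply_symm_apply]) (fun t => e.symm.norm_map t)
  | succ i ih =>
    intro V _ _ _ _ _ hV x hx
    rw [D_succ] at hx
    have ha : x 0 ≠ 0 := norm_ne_zero_iff.1 (left_ne_zero_of_mul hx)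
    have hW : finrank ℝ (ℝ ∙ x 0)ᗮ = q + i := by
      have := finrank_orth ha
      omega
    have hD : D (fun j : Fin i => prS (x 0) (x j.succ)) ≠ 0 := by
      rw [← D_map (ℝ ∙ x 0)ᗮ.subtypeₗᵢ]
      exact right_ne_zero_of_mul hx
    obtain ⟨ι, T, hT, h⟩ := ih (ℝ ∙ x 0)ᗮ hW _ hD
    refine ⟨(ℝ ∙ x 0)ᗮ.subtypeₗᵢ.comp ι, fun b => T (prS (x 0) b), hT.comp (mp_prS (x 0)),
      fun b => ?_⟩
    rw [Pj_succ]
    show (ℝ ∙ x 0)ᗮ.subtypeₗᵢ (ι (T (prS (x 0) b))) = _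
    rw [h, map_Pj]
    rfl

/-- the mean norm of a Gaussian vector depends on the dimension only -/
theorem bpg_mean (n : ℕ) (hn : 1 ≤ n) : ∃ m : ℝ≥0∞, m ≠ 0 ∧ m ≠ ∞ ∧
    ∀ (V : Type) [NormedAddCommGroup V] [InnerProductSpace ℝ V] [FiniteDimensional ℝ V]
      [MeasurableSpace V] [BorelSpace V], finrank ℝ V = n →
      ∫⁻ x, ENNReal.ofReal ‖x‖ ∂(stdGaussian V) = m := by
  have hE : finrank ℝ (EuclideanSpace ℝ (Fin n)) = n := by simp
  refine ⟨∫⁻ x, ENNReal.ofReal ‖x‖ ∂(stdGaussian (EuclideanSpace ℝ (Fin n))), ?_, ?_, ?_⟩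
  · intro h
    rw [lintegral_eq_zero_iff (by fun_prop)] at h
    have h1 : ∀ᵐ x ∂(stdGaussian (EuclideanSpace ℝ (Fin n))), False := by
      filter_upwards [h, ae_ne_zero (V := EuclideanSpace ℝ (Fin n)) (by omega)] with x hx hx0
      simp only [Pi.zero_apply, ENNReal.ofReal_eq_zero] at hx
      exact hx0 (norm_le_zero_iff.1 hx)
    rw [eventually_false_iff_eq_bot, ae_eq_bot] at h1
    exact IsProbabilityMeasure.ne_zero _ h1
  · have hi := integrable_norm_pow (V := EuclideanSpace ℝ (Fin n)) 1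
    simp only [pow_one] at hi
    exact hi.lintegral_lt_top.ne
  · intro V _ _ _ _ _ hV
    have h1 := lintegral_norm_rad (V := V) (by omega) ENNReal.measurable_ofReal
    have h2 := lintegral_norm_rad (V := EuclideanSpace ℝ (Fin n)) (by omega)
      ENNReal.measurable_ofReal
    rw [hV] at h1
    rw [hE] at h2
    exact (ENNReal.mul_left_inj (rad_one_ne_zero n) (rad_one_ne_top n)).1 (h1.trans h2.symm)

/-- the inner integral of the formula -/
def bpgIn (q i p : ℕ) (Ψ : (Fin q → V) → ℝ≥0∞) (x : Fin i → V) : ℝ≥0∞ :=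
  ∫⁻ b, ENNReal.ofReal (D (fun l => Pj i x (b l)) ^ p) * Ψ (fun l => Pj i x (b l)) ∂(γk V q)

theorem bpg_meas_in (q i p : ℕ) {Ψ : (Fin q → V) → ℝ≥0∞} (hΨ : Measurable Ψ) :
    Measurable (bpgIn q i p Ψ) := by
  have h : Measurable fun z : (Fin i → V) × (Fin q → V) => fun l => Pj i z.1 (z.2 l) :=
    measurable_pi_lambda _ fun l => measurable_Pj i measurable_fst (by fun_prop)
  exact Measurable.lintegral_prod_right' (f := fun z : (Fin i → V) × (Fin q → V) =>
    ENNReal.ofReal (D (fun l => Pj i z.1 (z.2 l)) ^ p) * Ψ (fun l => Pj i z.1 (z.2 l)))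
    (((measurable_D h).pow_const p).ennreal_ofReal.mul (hΨ.comp h))

theorem bpg_meas_cons (i : ℕ) :
    Measurable fun z : V × (Fin i → V) => (Fin.cons z.1 z.2 : Fin (i + 1) → V) :=
  (mp_cons (k := i) (stdGaussian V)).measurable

/-- the formula inside the hyperplane orthogonal to `a`, written in the ambient space -/
theorem bpg_hyper (q i : ℕ) (C : ℝ≥0∞) (a : V) {Ψ : (Fin q → V) → ℝ≥0∞} (hΨ : Measurable Ψ)
    (h : ∀ Φ : (Fin q → (ℝ ∙ a)ᗮ) → ℝ≥0∞, Measurable Φ → ∫⁻ y, Φ y ∂(γk (ℝ ∙ a)ᗮ q)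
      = C * ∫⁻ x, ENNReal.ofReal (D x) * bpgIn q i i Φ x ∂(γk (ℝ ∙ a)ᗮ i)) :
    ∫⁻ y, ENNReal.ofReal (D fun j => pr a (y j)) * Ψ (fun j => pr a (y j)) ∂(γk V q)
      = C * ∫⁻ x, ENNReal.ofReal (D fun j => pr a (x j)) *
        bpgIn q (i + 1) (i + 1) Ψ (Fin.cons a x) ∂(γk V i) := by
  have hT : ∀ k : ℕ, MeasurePreserving (fun (x : Fin k → V) j => prS a (x j)) (γk V k)
      (γk (ℝ ∙ a)ᗮ k) := fun k => measurePreserving_pi _ _ fun _ => mp_prS a
  have hD : ∀ (k : ℕ) (z : Fin k → (ℝ ∙ a)ᗮ), D (fun j => (z j : V)) = D z :=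
    fun k z => D_map (ℝ ∙ a)ᗮ.subtypeₗᵢ z
  set Φ : (Fin q → (ℝ ∙ a)ᗮ) → ℝ≥0∞ :=
    fun z => ENNReal.ofReal (D z) * Ψ (fun j => (z j : V)) with hΦ
  have hΦm : Measurable Φ :=
    (measurable_D measurable_id).ennreal_ofReal.mul (hΨ.comp (by fun_prop))
  have h1 : ∫⁻ y, ENNReal.ofReal (D fun j => pr a (y j)) * Ψ (fun j => pr a (y j)) ∂(γk V q)
      = ∫⁻ y, Φ y ∂(γk (ℝ ∙ a)ᗮ q) := by
    rw [← (hT q).lintegral_comp hΦm]
    refine lintegral_congr fun y => ?_
    simp only [hΦ, coe_prS]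
    rw [← hD q]
    rfl
  rw [h1, h Φ hΦm]
  congr 1
  have hA : Measurable fun x : Fin i → (ℝ ∙ a)ᗮ => ENNReal.ofReal (D x) * bpgIn q i i Φ x :=
    (measurable_D measurable_id).ennreal_ofReal.mul (bpg_meas_in q i i hΦm)
  rw [← (hT i).lintegral_comp hA]
  refine lintegral_congr fun x => ?_
  rw [← hD i]
  congr 1
  have hm : Measurable fun b : Fin q → (ℝ ∙ a)ᗮ => fun l => Pj i (fun j => prS a (x j)) (b l) :=
    measurable_pi_lambda _ fun l => measurable_Pj i measurable_const (by fun_prop)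
  have hB : Measurable fun b : Fin q → (ℝ ∙ a)ᗮ =>
      ENNReal.ofReal (D (fun l => Pj i (fun j => prS a (x j)) (b l)) ^ i) *
        Φ (fun l => Pj i (fun j => prS a (x j)) (b l)) :=
    ((measurable_D hm).pow_const i).ennreal_ofReal.mul (hΦm.comp hm)
  unfold bpgIn
  rw [← (hT q).lintegral_comp hB]
  refine lintegral_congr fun b => ?_
  have e : ∀ l, Pj (i + 1) (Fin.cons a x : Fin (i + 1) → V) (b l)
      = (Pj i (fun j => prS a (x j)) (prS a (b l)) : V) := by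
    intro l
    rw [Pj_succ]
    exact (map_Pj (ℝ ∙ a)ᗮ.subtypeₗᵢ (fun j => prS a (x j)) (prS a (b l))).symm
  simp only [e, hΦ, hD q]
  rw [pow_succ, ENNReal.ofReal_mul (pow_nonneg (D_nonneg _) _), mul_assoc]

theorem bpg (q : ℕ) : ∀ i : ℕ, ∃ C : ℝ≥0∞, C ≠ 0 ∧ C ≠ ∞ ∧
    ∀ (V : Type) [NormedAddCommGroup V] [InnerProductSpace ℝ V] [FiniteDimensional ℝ V]
      [MeasurableSpace V] [BorelSpace V], finrank ℝ V = q + i →
      ∀ Ψ : (Fin q → V) → ℝ≥0∞, Measurable Ψ →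
      ∫⁻ y, Ψ y ∂(γk V q) = C * ∫⁻ x, ENNReal.ofReal (D x) *
        ∫⁻ b, ENNReal.ofReal (D (fun l => Pj i x (b l)) ^ i) * Ψ (fun l => Pj i x (b l))
          ∂(γk V q) ∂(γk V i) := by
  intro i
  induction i with
  | zero =>
    refine ⟨1, one_ne_zero, ENNReal.one_ne_top, ?_⟩
    intro V _ _ _ _ _ _ Ψ _
    simp
  | succ i ih =>
    obtain ⟨C2, h20, h2t, h2⟩ := ih
    obtain ⟨C1, h10, h1t, h1⟩ := bp 0 q (q + (i + 1)) (by omega)
    obtain ⟨m, hm0, hmt, hm⟩ := bpg_mean (q + (i + 1)) (by omega)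
    refine ⟨C1 * C2 * m⁻¹, mul_ne_zero (mul_ne_zero h10 h20) (ENNReal.inv_ne_zero.2 hmt),
      ENNReal.mul_ne_top (ENNReal.mul_ne_top h1t h2t) (ENNReal.inv_ne_top.2 hm0), ?_⟩
    intro V _ _ _ _ _ hV Ψ hΨ
    have hn : 1 ≤ finrank ℝ V := by omega
    set H : V → ℝ≥0∞ := fun a => ∫⁻ x, ENNReal.ofReal (D fun j => pr a (x j)) *
      bpgIn q (i + 1) (i + 1) Ψ (Fin.cons a x) ∂(γk V i) with hH
    have hI : Measurable fun z : V × (Fin i → V) => ENNReal.ofReal (D fun j => pr z.1 (z.2 j)) *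
        bpgIn q (i + 1) (i + 1) Ψ (Fin.cons z.1 z.2) :=
      (measurable_D (by fun_prop)).ennreal_ofReal.mul
        ((bpg_meas_in q (i + 1) (i + 1) hΨ).comp (bpg_meas_cons i))
    have hHm : Measurable H := Measurable.lintegral_prod_right' hI
    have hom : ∀ t : ℝ, 0 < t → ∀ a, H (t • a) = H a := by
      intro t ht a
      simp only [hH, bpgIn, Pj_succ, Fin.cons_zero, Fin.cons_succ, pr_smul_left ht.ne']
    have e1 := h1 V hV (fun z => Ψ z.1) (hΨ.comp measurable_fst) (by intro x y t _; simp)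
    simp only [lintegral_const, measure_univ, mul_one] at e1
    have e2 : ∫⁻ a, ∫⁻ y, ENNReal.ofReal (D fun j => pr a (y j)) * Ψ (fun j => pr a (y j))
        ∂(γk V q) ∂(stdGaussian V) = C2 * ∫⁻ a, H a ∂(stdGaussian V) := by
      rw [← lintegral_const_mul _ hHm]
      refine lintegral_congr_ae ?_
      filter_upwards [ae_ne_zero hn] with a ha
      have hW : finrank ℝ (ℝ ∙ a)ᗮ = q + i := by
        have := finrank_orth ha
        omega
      exact bpg_hyper q i C2 a hΨ (h2 _ hW)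
    have e3 : ∫⁻ x, ENNReal.ofReal (D x) * bpgIn q (i + 1) (i + 1) Ψ x ∂(γk V (i + 1))
        = m * ∫⁻ a, H a ∂(stdGaussian V) := by
      have hF : Measurable fun x : Fin (i + 1) → V =>
          ENNReal.ofReal (D x) * bpgIn q (i + 1) (i + 1) Ψ x :=
        (measurable_D measurable_id).ennreal_ofReal.mul (bpg_meas_in q (i + 1) (i + 1) hΨ)
      have hG : Measurable fun z : V × (Fin i → V) =>
          ENNReal.ofReal (D (Fin.cons z.1 z.2 : Fin (i + 1) → V)) *
            bpgIn q (i + 1) (i + 1) Ψ (Fin.cons z.1 z.2) := hF.comp (bpg_meas_cons i)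
      rw [← (mp_cons (k := i) (stdGaussian V)).lintegral_comp hF,
        lintegral_prod _ hG.aemeasurable, ← hm V hV,
        ← radial_indep_lintegral hn ENNReal.measurable_ofReal hHm hom]
      refine lintegral_congr fun a => ?_
      have hJ : Measurable fun x : Fin i → V => ENNReal.ofReal (D fun j => pr a (x j)) *
          bpgIn q (i + 1) (i + 1) Ψ (Fin.cons a x) := hI.comp measurable_prodMk_left
      rw [hH, ← lintegral_const_mul _ hJ]
      refine lintegral_congr fun x => ?_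
      rw [D_cons, ENNReal.ofReal_mul (norm_nonneg _), mul_assoc]
    show _ = C1 * C2 * m⁻¹ *
      ∫⁻ x, ENNReal.ofReal (D x) * bpgIn q (i + 1) (i + 1) Ψ x ∂(γk V (i + 1))
    rw [e1, e2, e3, mul_assoc, mul_assoc, ← mul_assoc m⁻¹, ENNReal.inv_mul_cancel hm0 hmt, one_mul]

end Pool.Agent.P.MP_181257_gt
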