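import Pool.Agent.P.MP_181257_gt.SteinC

/-! Busemann's random simplex inequality in Gaussian form. -/

set_option autoImplicit false
set_option linter.unusedSectionVars false

open MeasureTheory ProbabilityTheory Module Set Filter Topology
open scoped RealInnerProductSpace ENNReal Pointwise Matrix

noncomputable section

namespace Pool.Agent.P.MP_181257_gt

variable {V : Type} [NormedAddCommGroup V] [InnerProductSpace ℝ V] [FiniteDimensional ℝ V]
  [MeasurableSpace V] [BorelSpace V]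

theorem D_smul {k : ℕ} (t : Fin k → ℝ) (y : Fin k → V) :
    D (fun l => t l • y l) = (∏ l, |t l|) * D y := by
  have h : Matrix.gram ℝ (fun l => t l • y l)
      = Matrix.diagonal t * Matrix.gram ℝ y * Matrix.diagonal t := by
    ext a b
    rw [Matrix.mul_diagonal, Matrix.diagonal_mul, Matrix.gram_apply, Matrix.gram_apply,
      real_inner_smul_left, real_inner_smul_right]
    ring
  unfold D
  rw [h, Matrix.det_mul, Matrix.det_mul, Matrix.det_diagonal, mul_right_comm,
    Real.sqrt_mul (mul_self_nonneg _), Real.sqrt_mul_self_eq_abs, Finset.abs_prod]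

theorem brs_measurable_cons {k : ℕ} :
    Measurable fun q : V × (Fin k → V) => (Fin.cons q.1 q.2 : Fin (k + 1) → V) := by
  refine measurable_pi_iff.2 fun l => ?_
  refine Fin.cases ?_ (fun l => ?_) l
  · exact measurable_fst
  · exact (measurable_pi_apply l).comp measurable_snd

/-- an identity for homogeneous functions passes to separately homogeneous functions -/
theorem pi_congr_hom (j : ℕ) {μ ν : Measure V} [SigmaFinite μ] [SigmaFinite ν] {w : V → ℝ≥0∞}
    (hw : Measurable w) (h : ∀ G : V → ℝ≥0∞, Measurable G →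
      (∀ t : ℝ, 0 < t → ∀ y, G (t • y) = ENNReal.ofReal (t ^ j) * G y) →
      ∫⁻ y, G y ∂μ = ∫⁻ y, G y * w y ∂ν) :
    ∀ (k : ℕ) (G : (Fin k → V) → ℝ≥0∞), Measurable G →
      (∀ t : Fin k → ℝ, (∀ l, 0 < t l) → ∀ y,
        G (fun l => t l • y l) = (∏ l, ENNReal.ofReal (t l ^ j)) * G y) →
      ∫⁻ y, G y ∂(Measure.pi fun _ => μ)
        = ∫⁻ y, G y * ∏ l, w (y l) ∂(Measure.pi fun _ => ν) := by
  intro k
  induction k with
  | zero =>
    intro G _ _
    rw [Measure.pi_of_empty (fun _ : Fin 0 => μ), Measure.pi_of_empty (fun _ : Fin 0 => ν)]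
    simp
  | succ k ih =>
    intro G hG hom
    have hc := brs_measurable_cons (V := V) (k := k)
    have hW : Measurable fun y : Fin k → V => ∏ l, w (y l) :=
      Finset.measurable_prod _ fun l _ => hw.comp (measurable_pi_apply l)
    have hW' : Measurable fun y : Fin (k + 1) → V => ∏ l, w (y l) :=
      Finset.measurable_prod _ fun l _ => hw.comp (measurable_pi_apply l)
    have hGc : Measurable fun q : V × (Fin k → V) => G (Fin.cons q.1 q.2) := hG.comp hc
    have h1 : ∀ a : V, ∫⁻ z, G (Fin.cons a z) ∂(Measure.pi fun _ : Fin k => μ)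
        = ∫⁻ z, G (Fin.cons a z) * ∏ l, w (z l) ∂(Measure.pi fun _ : Fin k => ν) := by
      intro a
      refine ih (fun z => G (Fin.cons a z)) (hGc.comp measurable_prodMk_left) fun t ht z => ?_
      have := hom (Fin.cons 1 t) (fun l => Fin.cases one_pos ht l) (Fin.cons a z)
      rw [Fin.prod_univ_succ] at this
      simp only [Fin.cons_zero, Fin.cons_succ, one_pow, ENNReal.ofReal_one, one_mul] at this
      rw [← this]
      congr 1
      funext l
      refine Fin.cases ?_ (fun l => ?_) l <;> simp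
    have hH : Measurable fun q : V × (Fin k → V) => G (Fin.cons q.1 q.2) * ∏ l, w (q.2 l) :=
      hGc.mul (hW.comp measurable_snd)
    have hHa : ∀ a : V, Measurable fun z : Fin k → V => G (Fin.cons a z) * ∏ l, w (z l) :=
      fun a => hH.comp measurable_prodMk_left
    have hGW : Measurable fun y : Fin (k + 1) → V => G y * ∏ l, w (y l) := hG.mul hW'
    have hGWc : Measurable fun q : V × (Fin k → V) => G (Fin.cons q.1 q.2)
        * ∏ l, w ((Fin.cons q.1 q.2 : Fin (k + 1) → V) l) := hGW.comp hc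
    have h2 := h (fun a => ∫⁻ z, G (Fin.cons a z) * ∏ l, w (z l) ∂(Measure.pi fun _ : Fin k => ν))
      hH.lintegral_prod_right' (fun s hs a => by
        rw [← lintegral_const_mul _ (hHa a)]
        refine lintegral_congr fun z => ?_
        have := hom (Fin.cons s fun _ => 1) (fun l => Fin.cases hs (fun _ => one_pos) l)
          (Fin.cons a z)
        rw [Fin.prod_univ_succ] at this
        simp only [Fin.cons_zero, Fin.cons_succ, one_pow, ENNReal.ofReal_one,
          Finset.prod_const_one, mul_one] at this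
        rw [← mul_assoc, ← this]
        congr 2
        funext l
        refine Fin.cases ?_ (fun l => ?_) l <;> simp)
    rw [← (mp_cons μ).lintegral_comp hG, ← (mp_cons ν).lintegral_comp hGW,
      lintegral_prod _ hGc.aemeasurable, lintegral_prod _ hGWc.aemeasurable]
    simp only [h1]
    rw [h2]
    refine lintegral_congr fun a => ?_
    rw [← lintegral_mul_const _ (hHa a)]
    refine lintegral_congr fun z => ?_
    simp only [Fin.prod_univ_succ, Fin.cons_zero, Fin.cons_succ]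
    ring

theorem brs_scale (j : ℕ) {r : ℝ} (hr : 0 < r) :
    ∫⁻ x in Metric.ball (0 : V) r, ENNReal.ofReal (‖x‖ ^ j)
      = ENNReal.ofReal (r ^ (finrank ℝ V + j))
        * ∫⁻ x in Metric.ball (0 : V) 1, ENNReal.ofReal (‖x‖ ^ j) := by
  have hm : Measurable fun x : V => ENNReal.ofReal (‖x‖ ^ j) := by fun_prop
  have hi : r⁻¹ ≠ 0 := inv_ne_zero hr.ne'
  have h1 := Measure.map_addHaar_smul (volume : Measure V) hi
  have h2 := lintegral_map (μ := (volume : Measure V))
    (hm.indicator (Metric.isOpen_ball (x := (0 : V)) (ε := 1)).measurableSet)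
    (measurable_const_smul r⁻¹)
  rw [h1, lintegral_smul_measure, lintegral_indicator Metric.isOpen_ball.measurableSet, inv_pow,
    inv_inv, abs_of_pos (pow_pos hr _), smul_eq_mul] at h2
  rw [pow_add, mul_comm (r ^ finrank ℝ V), ENNReal.ofReal_mul (by positivity), mul_assoc, h2,
    ← lintegral_indicator Metric.isOpen_ball.measurableSet, ← lintegral_const_mul' _ _
      ENNReal.ofReal_ne_top]
  refine lintegral_congr fun x => ?_
  have hx : r⁻¹ • x ∈ Metric.ball (0 : V) 1 ↔ x ∈ Metric.ball (0 : V) r := by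
    simp only [mem_ball_zero_iff, norm_smul, norm_inv, Real.norm_eq_abs, abs_of_pos hr]
    rw [inv_mul_lt_iff₀ hr, mul_one]
  by_cases h : x ∈ Metric.ball (0 : V) r
  · rw [indicator_of_mem h, indicator_of_mem (hx.2 h), ← ENNReal.ofReal_mul (by positivity),
      ← mul_pow, norm_smul, norm_inv, Real.norm_eq_abs, abs_of_pos hr, ← mul_assoc,
      mul_inv_cancel₀ hr.ne', one_mul]
  · rw [indicator_of_notMem h, indicator_of_notMem (fun h' => h (hx.1 h')), mul_zero]

theorem brs_vol_ae (hn : 1 ≤ finrank ℝ V) : ∀ᵐ x ∂(volume : Measure V), x ≠ 0 := by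
  have : Nontrivial V := Module.finrank_pos_iff.1 hn
  exact Measure.ae_ne _ _

theorem brs_A_ne_zero (hn : 1 ≤ finrank ℝ V) (j : ℕ) :
    ∫⁻ x in Metric.ball (0 : V) 1, ENNReal.ofReal (‖x‖ ^ j) ≠ 0 := by
  intro h
  rw [lintegral_eq_zero_iff (by fun_prop)] at h
  have h1 : ∀ᵐ x ∂((volume : Measure V).restrict (Metric.ball (0 : V) 1)), False := by
    filter_upwards [h, ae_restrict_of_ae (brs_vol_ae hn)] with x hx hx'
    have h2 : 0 < ‖x‖ ^ j := pow_pos (norm_pos_iff.2 hx') j
    exact (ENNReal.ofReal_pos.2 h2).ne' hx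
  rw [eventually_false_iff_eq_bot, ae_eq_bot, Measure.restrict_eq_zero] at h1
  exact (Metric.measure_ball_pos _ _ one_pos).ne' h1

theorem brs_A_ne_top (j : ℕ) :
    ∫⁻ x in Metric.ball (0 : V) 1, ENNReal.ofReal (‖x‖ ^ j) ≠ ∞ := by
  refine ne_top_of_le_ne_top (b := ∫⁻ _ in Metric.ball (0 : V) 1, 1) ?_ ?_
  · rw [setLIntegral_one]
    exact measure_ball_lt_top.ne
  · refine setLIntegral_mono measurable_const fun x hx => ?_
    rw [ENNReal.ofReal_le_one]
    exact pow_le_one₀ (norm_nonneg _) (mem_ball_zero_iff.1 hx).le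

theorem brs_B_ne_zero (hn : 1 ≤ finrank ℝ V) (j : ℕ) :
    ∫⁻ x, ENNReal.ofReal (‖x‖ ^ j) ∂(stdGaussian V) ≠ 0 := by
  intro h
  rw [lintegral_eq_zero_iff (by fun_prop)] at h
  obtain ⟨x, hx, hx'⟩ := (h.and (ae_ne_zero hn)).exists
  have h2 : 0 < ‖x‖ ^ j := pow_pos (norm_pos_iff.2 hx') j
  exact (ENNReal.ofReal_pos.2 h2).ne' hx

theorem brs_B_ne_top (j : ℕ) : ∫⁻ x, ENNReal.ofReal (‖x‖ ^ j) ∂(stdGaussian V) ≠ ∞ := by
  have h := (integrable_norm_pow (V := V) j).2
  rw [hasFiniteIntegral_iff_ofReal (ae_of_all _ fun x => by positivity)] at h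
  exact h.ne

theorem brs_measurableSet {ρ : V → ℝ} (hρ : Measurable ρ) : MeasurableSet {y | ‖y‖ < ρ y} :=
  measurableSet_lt measurable_norm hρ

/-- integration of homogeneous functions over a star-shaped set -/
theorem star_lintegral (hn : 1 ≤ finrank ℝ V) (j : ℕ) : ∃ c : ℝ≥0∞, c ≠ 0 ∧ c ≠ ∞ ∧
    ∀ ρ : V → ℝ, Den ρ → ∀ G : V → ℝ≥0∞, Measurable G →
      (∀ t : ℝ, 0 < t → ∀ y, G (t • y) = ENNReal.ofReal (t ^ j) * G y) →
      ∫⁻ y in {y | ‖y‖ < ρ y}, G y
        = c * ∫⁻ y, G y * ENNReal.ofReal (ρ y ^ (finrank ℝ V + j)) ∂(stdGaussian V) := by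
  set A := ∫⁻ x in Metric.ball (0 : V) 1, ENNReal.ofReal (‖x‖ ^ j) with hA
  set B := ∫⁻ x, ENNReal.ofReal (‖x‖ ^ j) ∂(stdGaussian V) with hB
  have hA0 : A ≠ 0 := brs_A_ne_zero hn j
  have hA1 : A ≠ ∞ := brs_A_ne_top j
  have hB0 : B ≠ 0 := brs_B_ne_zero hn j
  have hB1 : B ≠ ∞ := brs_B_ne_top j
  refine ⟨A / B, ENNReal.div_ne_zero.2 ⟨hA0, hB1⟩, ENNReal.div_ne_top hA1 hB0,
    fun ρ hρ G hG hom => ?_⟩
  obtain ⟨e, he⟩ := haar_exists_unit hn
  have hρm := hρ.meas
  have hS := brs_measurableSet hρm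
  have hm : Measurable fun x : V => ENNReal.ofReal (‖x‖ ^ j) := by fun_prop
  have hK : Measurable fun y : V => G y * ENNReal.ofReal (ρ y ^ (finrank ℝ V + j)) := by
    fun_prop
  have hI : Measurable fun g : OG V =>
      G (ap g e) * ENNReal.ofReal (ρ (ap g e) ^ (finrank ℝ V + j)) :=
    hK.comp (measurable_ap measurable_id measurable_const)
  have hL : ∫⁻ y in {y | ‖y‖ < ρ y}, G y = A * ∫⁻ g,
      G (ap g e) * ENNReal.ofReal (ρ (ap g e) ^ (finrank ℝ V + j)) ∂(haar V) := by
    rw [← lintegral_indicator hS, polar (volume : Measure V) mp_ap_volume he (hG.indicator hS),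
      ← lintegral_const_mul _ hI]
    refine lintegral_congr fun g => ?_
    have hp : 0 < ρ (ap g e) := hρ.toPos.pos _
    rw [mul_comm A, mul_assoc, hA, ← brs_scale j hp, mul_comm,
      ← lintegral_indicator Metric.isOpen_ball.measurableSet,
      ← lintegral_mul_const _ (hm.indicator Metric.isOpen_ball.measurableSet)]
    refine lintegral_congr_ae ?_
    filter_upwards [brs_vol_ae hn] with x hx
    have hx' : 0 < ‖x‖ := norm_pos_iff.2 hx
    have hmem : ‖x‖ • ap g e ∈ {y | ‖y‖ < ρ y} ↔ x ∈ Metric.ball (0 : V) (ρ (ap g e)) := by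
      simp only [mem_ofPred_eq, mem_ball_zero_iff]
      rw [hρ.hom _ hx', norm_smul, norm_norm, norm_ap, he, mul_one]
    by_cases h : x ∈ Metric.ball (0 : V) (ρ (ap g e))
    · rw [indicator_of_mem h, indicator_of_mem (hmem.2 h), hom _ hx']
    · rw [indicator_of_notMem h, indicator_of_notMem (fun h' => h (hmem.1 h')), zero_mul]
  have hR : ∫⁻ y, G y * ENNReal.ofReal (ρ y ^ (finrank ℝ V + j)) ∂(stdGaussian V) = B * ∫⁻ g,
      G (ap g e) * ENNReal.ofReal (ρ (ap g e) ^ (finrank ℝ V + j)) ∂(haar V) := by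
    rw [polar (stdGaussian V) mp_ap he hK, ← lintegral_const_mul _ hI]
    refine lintegral_congr fun g => ?_
    rw [hB, ← lintegral_mul_const _ hm]
    refine lintegral_congr_ae ?_
    filter_upwards [ae_ne_zero hn] with x hx
    have hx' : 0 < ‖x‖ := norm_pos_iff.2 hx
    rw [hom _ hx', hρ.hom _ hx', mul_assoc]
  rw [hL, hR, ← mul_assoc, ENNReal.div_mul_cancel hB0 hB1]

theorem integrable_D_pow (k j : ℕ) {F : V → ℝ} (hF : Bd F) :
    Integrable (fun y : Fin k → V => D y ^ j * ∏ l, F (y l)) (γk V k) := by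
  obtain ⟨C, hC⟩ := hF.bdd
  have hm := hF.meas
  have hP : Measurable fun y : Fin k → V => ∏ l, F (y l) :=
    Finset.measurable_prod _ fun l _ => hm.comp (measurable_pi_apply l)
  have hD : Measurable fun y : Fin k → V => D y ^ j := (measurable_D measurable_id).pow_const j
  refine ((integrable_prod_norm_pow (V := V) k j).mul_const (C ^ k)).mono'
    (hD.mul hP).aestronglyMeasurable (ae_of_all _ fun y => ?_)
  rw [Real.norm_eq_abs, abs_mul, abs_of_nonneg (pow_nonneg (D_nonneg y) j), Finset.abs_prod,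
    Finset.prod_pow]
  refine mul_le_mul (pow_le_pow_left₀ (D_nonneg y) (D_le_prod y) j) ?_
    (Finset.prod_nonneg fun _ _ => abs_nonneg _) (by positivity)
  calc ∏ l, |F (y l)| ≤ ∏ _l : Fin k, C :=
        Finset.prod_le_prod (fun _ _ => abs_nonneg _) fun l _ => hC _
    _ = C ^ k := by simp

theorem brs_JJ (hn : 1 ≤ finrank ℝ V) (k j : ℕ) : ∃ c : ℝ≥0∞, c ≠ 0 ∧ c ≠ ∞ ∧
    ∀ ρ : V → ℝ, Den ρ → JJ k j {y | ‖y‖ < ρ y}
      = c * ∫⁻ y, ENNReal.ofReal (D y ^ j * ∏ l, ρ (y l) ^ (finrank ℝ V + j)) ∂(γk V k) := by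
  obtain ⟨c, hc0, hc1, hc⟩ := star_lintegral hn j
  refine ⟨c ^ k, pow_ne_zero k hc0, ENNReal.pow_ne_top hc1, fun ρ hρ => ?_⟩
  have hρm := hρ.meas
  have hw : Measurable fun y : V => c * ENNReal.ofReal (ρ y ^ (finrank ℝ V + j)) := by fun_prop
  have hD : Measurable fun y : Fin k → V => ENNReal.ofReal (D y ^ j) :=
    ((measurable_D measurable_id).pow_const j).ennreal_ofReal
  have h1 := pi_congr_hom j (μ := (volume : Measure V).restrict {y | ‖y‖ < ρ y})
    (ν := stdGaussian V) hw (fun G hG hom => by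
      rw [hc ρ hρ G hG hom, ← lintegral_const_mul' _ _ hc1]
      refine lintegral_congr fun y => ?_
      ring) k _ hD (fun t ht y => by
      rw [D_smul, mul_pow, ENNReal.ofReal_mul (by positivity), ← Finset.prod_pow,
        ENNReal.ofReal_prod_of_nonneg (fun _ _ => by positivity)]
      simp only [abs_of_pos (ht _)])
  rw [JJ, h1, ← lintegral_const_mul' _ _ (ENNReal.pow_ne_top hc1)]
  refine lintegral_congr fun y => ?_
  rw [Finset.prod_mul_distrib, Finset.prod_const, Finset.card_univ, Fintype.card_fin,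
    ENNReal.ofReal_mul (pow_nonneg (D_nonneg y) j),
    ENNReal.ofReal_prod_of_nonneg (fun l _ => pow_nonneg (hρ.toPos.pos _).le _)]
  ring

theorem brs {d : ℕ} (hd : finrank ℝ V = d) (h1 : 1 ≤ d) (k j : ℕ) {F : V → ℝ} (hF : Den F) :
    (∫ y, D y ^ j ∂(γk V k))
        * (∫ x, F x ^ ((d : ℝ) / (d + j)) ∂(stdGaussian V)) ^ ((k : ℝ) * (d + j) / d)
      ≤ ∫ y, D y ^ j * ∏ l, F (y l) ∂(γk V k) := by
  have hn : 1 ≤ finrank ℝ V := hd ▸ h1
  have hd0 : (0 : ℝ) < d := by exact_mod_cast h1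
  have hdj : (0 : ℝ) < d + j := by positivity
  set m := ∫ x, F x ^ ((d : ℝ) / (d + j)) ∂(stdGaussian V) with hm
  have hFd : Den fun x => F x ^ ((d : ℝ) / (d + j)) := hF.rpow (by positivity)
  have hm0 : 0 < m := by
    obtain ⟨a, C, ha, h⟩ := hFd.bdd
    refine ha.trans_le ?_
    calc a = ∫ _x, a ∂(stdGaussian V) := by simp
      _ ≤ m := integral_mono (integrable_const a) (hFd.toPos.bd.integrable _) fun x => (h x).1
  set r := m ^ (1 / (d : ℝ)) with hr
  have hr0 : 0 < r := Real.rpow_pos_of_pos hm0 _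
  have hρ : Den fun x => F x ^ (1 / ((d : ℝ) + j)) := hF.rpow (by positivity)
  have hb : Den fun _ : V => r :=
    ⟨⟨measurable_const, r, r, hr0, fun _ => ⟨le_rfl, le_rfl⟩⟩, fun _ _ _ => rfl⟩
  have hball : Metric.ball (0 : V) r = {y : V | ‖y‖ < (fun _ : V => r) y} := by
    ext y
    simp
  have hS := brs_measurableSet hρ.meas
  have e1 : ∀ x, (F x ^ (1 / ((d : ℝ) + j))) ^ (d + 0) = F x ^ ((d : ℝ) / (d + j)) := by
    intro x
    rw [← Real.rpow_natCast, ← Real.rpow_mul (hF.toPos.pos x).le]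
    congr 1
    push_cast
    field_simp
    ring
  have e2 : ∀ x, (F x ^ (1 / ((d : ℝ) + j))) ^ (d + j) = F x := by
    intro x
    rw [← Real.rpow_natCast, ← Real.rpow_mul (hF.toPos.pos x).le]
    push_cast
    rw [one_div_mul_cancel hdj.ne', Real.rpow_one]
  have e3 : r ^ (d + 0) = m := by
    rw [hr, ← Real.rpow_natCast, ← Real.rpow_mul hm0.le]
    push_cast
    rw [add_zero, one_div_mul_cancel hd0.ne', Real.rpow_one]
  have e4 : (r ^ (d + j)) ^ k = m ^ ((k : ℝ) * (d + j) / d) := by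
    rw [hr, ← pow_mul, ← Real.rpow_natCast, ← Real.rpow_mul hm0.le]
    congr 1
    push_cast
    field_simp
  have hvol : volume (Metric.ball (0 : V) r)
      = volume {y : V | ‖y‖ < F y ^ (1 / ((d : ℝ) + j))} := by
    obtain ⟨c, -, -, hc⟩ := star_lintegral hn 0
    have h2 := hc _ hρ (fun _ => 1) measurable_const (by simp)
    have h3 := hc _ hb (fun _ => 1) measurable_const (by simp)
    rw [setLIntegral_one] at h2 h3
    rw [hball, h2, h3, hd]
    congr 1
    simp only [one_mul, e1, e3, lintegral_const, measure_univ, mul_one]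
    rw [hm, ofReal_integral_eq_lintegral_ofReal (hFd.toPos.bd.integrable _)
      (ae_of_all _ fun x => (hFd.toPos.pos x).le)]
  obtain ⟨a, R, -, hR⟩ := hρ.bdd
  have hsub : {y : V | ‖y‖ < F y ^ (1 / ((d : ℝ) + j))} ⊆ Metric.closedBall 0 R := fun y hy =>
    mem_closedBall_zero_iff.2 ((le_of_lt hy).trans (hR y).2)
  have hJ := JJ_ball_le hn k j hS hsub hvol
  obtain ⟨c, hc0, hc1, hc⟩ := brs_JJ hn k j
  rw [hball, hc _ hb, hc _ hρ, ENNReal.mul_le_mul_iff_right hc0 hc1, hd] at hJ
  simp only [e2, Finset.prod_const, Finset.card_univ, Fintype.card_fin, e4] at hJ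
  have i1 := integrable_D_pow k j (Den.one (V := V)).toPos.bd
  simp only [Finset.prod_const_one, mul_one] at i1
  have i2 := integrable_D_pow k j hF.toPos.bd
  have n2 : ∀ y : Fin k → V, 0 ≤ D y ^ j * ∏ l, F (y l) := fun y =>
    mul_nonneg (pow_nonneg (D_nonneg y) j) (Finset.prod_nonneg fun l _ => (hF.toPos.pos _).le)
  rw [← ofReal_integral_eq_lintegral_ofReal (i1.mul_const _) (ae_of_all _ fun y =>
      mul_nonneg (pow_nonneg (D_nonneg y) j) (Real.rpow_pos_of_pos hm0 _).le),
    ← ofReal_integral_eq_lintegral_ofReal i2 (ae_of_all _ n2),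
    ENNReal.ofReal_le_ofReal_iff (integral_nonneg n2), integral_mul_const] at hJ
  exact hJ

end Pool.Agent.P.MP_181257_gt
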