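import Pool.Agent.P.MP_181257_gt.Defs

/-! Common definitions: projections, parallelepiped volume `D`, densities, the maps `Rd`, `sk`. -/

set_option autoImplicit false
set_option linter.unusedSectionVars false

open MeasureTheory ProbabilityTheory Module Set
open scoped RealInnerProductSpace ENNReal Pointwise

noncomputable section

namespace Pool.Agent.P.MP_181257_gt

section alg

variable {V : Type} [NormedAddCommGroup V] [InnerProductSpace ℝ V]
variable {W : Type} [NormedAddCommGroup W] [InnerProductSpace ℝ W]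

/-- orthogonal projection onto the complement of `a` (the identity for `a = 0`) -/
def pr (a v : V) : V := v - (⟪a, v⟫ / ‖a‖ ^ 2) • a

/-- `pr a` as a continuous linear map -/
def prL (a : V) : V →L[ℝ] V :=
  ContinuousLinearMap.id ℝ V - (‖a‖ ^ 2)⁻¹ • (innerSL ℝ a).smulRight a

@[simp] theorem prL_apply (a v : V) : prL a v = pr a v := by
  simp [prL, pr, smul_smul, div_eq_inv_mul]

theorem pr_add (a v w : V) : pr a (v + w) = pr a v + pr a w := by
  simpa using (prL a).map_add v w

theorem pr_sub (a v w : V) : pr a (v - w) = pr a v - pr a w := by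
  simpa using (prL a).map_sub v w

theorem pr_smul (a : V) (c : ℝ) (v : V) : pr a (c • v) = c • pr a v := by
  rw [← prL_apply, ← prL_apply, map_smul]

@[simp] theorem pr_zero_left (v : V) : pr (0 : V) v = v := by simp [pr]

@[simp] theorem pr_zero_right (a : V) : pr a 0 = 0 := by simp [pr]

theorem inner_pr_self (a v : V) : ⟪a, pr a v⟫ = 0 := by
  by_cases ha : a = 0
  · simp [ha]
  · have : ‖a‖ ≠ 0 := norm_ne_zero_iff.2 ha
    simp only [pr, inner_sub_right, real_inner_smul_right, real_inner_self_eq_norm_sq]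
    field_simp
    ring

theorem pr_of_inner_eq_zero {a v : V} (h : ⟪a, v⟫ = 0) : pr a v = v := by simp [pr, h]

@[simp] theorem pr_self (a : V) : pr a a = 0 := by
  by_cases ha : a = 0
  · simp [ha]
  · have : ‖a‖ ≠ 0 := norm_ne_zero_iff.2 ha
    simp only [pr, real_inner_self_eq_norm_sq]
    rw [div_self (pow_ne_zero 2 this), one_smul, sub_self]

@[simp] theorem pr_pr (a v : V) : pr a (pr a v) = pr a v := pr_of_inner_eq_zero (inner_pr_self a v)

theorem inner_pr_comm (a v w : V) : ⟪pr a v, w⟫ = ⟪v, pr a w⟫ := by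
  simp only [pr, inner_sub_left, inner_sub_right, real_inner_smul_left, real_inner_smul_right,
    real_inner_comm a v]
  ring

theorem pr_smul_left {t : ℝ} (ht : t ≠ 0) (a v : V) : pr (t • a) v = pr a v := by
  by_cases ha : a = 0
  · simp [ha]
  · have : ‖a‖ ≠ 0 := norm_ne_zero_iff.2 ha
    simp only [pr, real_inner_smul_left, norm_smul, smul_smul, mul_pow, Real.norm_eq_abs, sq_abs]
    congr 2
    field_simp

theorem norm_sq_pr (a v : V) : ‖pr a v‖ ^ 2 = ‖v‖ ^ 2 - ⟪a, v⟫ ^ 2 / ‖a‖ ^ 2 := by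
  rw [← real_inner_self_eq_norm_sq, inner_pr_comm, pr_pr]
  simp only [pr, inner_sub_right, real_inner_smul_right, real_inner_self_eq_norm_sq,
    real_inner_comm a v]
  ring

theorem norm_pr_le (a v : V) : ‖pr a v‖ ≤ ‖v‖ := by
  refine abs_le_of_sq_le_sq' ?_ (norm_nonneg _) |>.2
  rw [norm_sq_pr]
  have : 0 ≤ ⟪a, v⟫ ^ 2 / ‖a‖ ^ 2 := by positivity
  linarith

theorem map_pr (ι : W →ₗᵢ[ℝ] V) (a v : W) : ι (pr a v) = pr (ι a) (ι v) := by
  simp [pr]

theorem starProjection_eq_pr (u v : V) : (ℝ ∙ u)ᗮ.starProjection v = pr u v := by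
  rw [Submodule.starProjection_orthogonal_val, Submodule.starProjection_singleton]
  simp [pr]

/-- volume of the parallelepiped spanned by a family of vectors -/
def D {k : ℕ} (v : Fin k → V) : ℝ := √((Matrix.gram ℝ v).det)

theorem D_nonneg {k : ℕ} (v : Fin k → V) : 0 ≤ D v := Real.sqrt_nonneg _

theorem D_sq {k : ℕ} (v : Fin k → V) : D v ^ 2 = (Matrix.gram ℝ v).det :=
  Real.sq_sqrt (Matrix.posSemidef_gram ℝ v).det_nonneg

@[simp] theorem D_fin_zero (v : Fin 0 → V) : D v = 1 := by simp [D]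

theorem D_perm {k : ℕ} (v : Fin k → V) (σ : Equiv.Perm (Fin k)) : D (fun j => v (σ j)) = D v := by
  unfold D
  rw [← Matrix.det_submatrix_equiv_self σ (Matrix.gram ℝ v)]
  rfl

theorem D_map {k : ℕ} (ι : W →ₗᵢ[ℝ] V) (v : Fin k → W) : D (fun j => ι (v j)) = D v := by
  unfold D
  congr 2
  ext i j
  simp

theorem continuous_D {k : ℕ} : Continuous (D : (Fin k → V) → ℝ) := by
  unfold D
  refine Continuous.sqrt (Continuous.matrix_det ?_)
  refine continuous_matrix fun i j => ?_
  simp only [Matrix.gram_apply]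
  fun_prop

theorem D_cons {k : ℕ} (a : V) (v : Fin k → V) :
    D (Fin.cons a v : Fin (k + 1) → V) = ‖a‖ * D (fun j => pr a (v j)) := by
  set w : Fin (k + 1) → V := Fin.cons a fun j => pr a (v j) with hw
  set c : Fin (k + 1) → ℝ := Fin.cons 0 fun j => ⟪a, v j⟫ / ‖a‖ ^ 2 with hc
  have hv : ∀ i, (Fin.cons a v : Fin (k + 1) → V) i = w i + c i • w 0 := by
    intro i
    refine Fin.cases ?_ (fun j => ?_) i
    · simp [hw, hc]
    · simp [hw, hc, pr]
  set M : Matrix (Fin (k + 1)) (Fin (k + 1)) ℝ :=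
    Matrix.of fun i j => ⟪w i, (Fin.cons a v : Fin (k + 1) → V) j⟫ with hM
  have h1 : (Matrix.gram ℝ (Fin.cons a v : Fin (k + 1) → V)).det = M.det := by
    refine Matrix.det_eq_of_forall_row_eq_smul_add_const c 0 (by simp [hc]) fun i j => ?_
    rw [Matrix.gram_apply, hv i, inner_add_left, real_inner_smul_left]
    simp [hM]
  have h2 : M.det = (Matrix.gram ℝ w).det := by
    rw [← Matrix.det_transpose M, ← Matrix.det_transpose (Matrix.gram ℝ w)]
    refine Matrix.det_eq_of_forall_row_eq_smul_add_const c 0 (by simp [hc]) fun i j => ?_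
    simp only [Matrix.transpose_apply, hM, Matrix.of_apply, Matrix.gram_apply]
    rw [hv i, inner_add_right, real_inner_smul_right]
  have h3 : (Matrix.gram ℝ w).det = ‖a‖ ^ 2 * (Matrix.gram ℝ fun j => pr a (v j)).det := by
    rw [Matrix.det_succ_row_zero, Fin.sum_univ_succ]
    have : ∀ j : Fin k, Matrix.gram ℝ w 0 j.succ = 0 := fun j => by
      simp [hw, inner_pr_self]
    simp only [this, mul_zero, zero_mul, Finset.sum_const_zero, add_zero]
    have e : (Matrix.gram ℝ w).submatrix Fin.succ (Fin.succAbove 0)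
        = Matrix.gram ℝ fun j => pr a (v j) := by
      ext i j
      simp [hw]
    rw [e]
    simp [hw]
  unfold D
  rw [h1, h2, h3, Real.sqrt_mul (by positivity), Real.sqrt_sq (norm_nonneg _)]

theorem D_succ {k : ℕ} (v : Fin (k + 1) → V) :
    D v = ‖v 0‖ * D (fun j : Fin k => pr (v 0) (v j.succ)) := by
  conv_lhs => rw [← Fin.cons_self_tail v]
  exact D_cons _ _

theorem D_swap {k : ℕ} (a b : V) (v : Fin k → V) :
    D (Fin.cons a (Fin.cons b v : Fin (k + 1) → V) : Fin (k + 2) → V)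
      = D (Fin.cons b (Fin.cons a v : Fin (k + 1) → V) : Fin (k + 2) → V) := by
  rw [← D_perm _ (Equiv.swap 0 1)]
  congr 1
  ext j
  refine Fin.cases ?_ (fun j => Fin.cases ?_ (fun j => ?_) j) j
  · simp
  · simp
  · rw [Equiv.swap_apply_of_ne_of_ne (Fin.succ_ne_zero _) (by simp [Fin.ext_iff])]
    simp

theorem D_le_prod : ∀ {k : ℕ} (v : Fin k → V), D v ≤ ∏ j, ‖v j‖
  | 0, v => by simp
  | k + 1, v => by
    rw [D_succ, Fin.prod_univ_succ]
    refine mul_le_mul_of_nonneg_left ((D_le_prod _).trans ?_) (norm_nonneg _)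
    exact Finset.prod_le_prod (fun _ _ => norm_nonneg _) fun j _ => norm_pr_le _ _

theorem D_one (v : Fin 1 → V) : D v = ‖v 0‖ := by rw [D_succ]; simp

theorem D_two (a b : V) : D ![a, b] = ‖a‖ * ‖pr a b‖ := by
  rw [D_succ, D_one]; rfl

/-- orthogonal projection onto the complement of the span of `x`, by recursion -/
def Pj : (k : ℕ) → (Fin k → V) → V →L[ℝ] V
  | 0, _ => ContinuousLinearMap.id ℝ V
  | k + 1, x => (Pj k fun j => pr (x 0) (x j.succ)).comp (prL (x 0))

theorem Pj_realize : True := by have := @Pj.eq_def; trivial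

@[simp] theorem Pj_zero (x : Fin 0 → V) (v : V) : Pj 0 x v = v := rfl

theorem Pj_succ {k : ℕ} (x : Fin (k + 1) → V) (v : V) :
    Pj (k + 1) x v = Pj k (fun j => pr (x 0) (x j.succ)) (pr (x 0) v) := by
  simp [Pj]

theorem Pj_of_inner : ∀ {k : ℕ} (x : Fin k → V) (a : V), (∀ j, ⟪x j, a⟫ = 0) → Pj k x a = a
  | 0, _, _, _ => rfl
  | k + 1, x, a, h => by
    rw [Pj_succ, pr_of_inner_eq_zero (h 0)]
    refine Pj_of_inner _ _ fun j => ?_
    rw [inner_pr_comm, pr_of_inner_eq_zero (h 0), h]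

theorem inner_Pj_comm : ∀ {k : ℕ} (x : Fin k → V) (v w : V), ⟪Pj k x v, w⟫ = ⟪v, Pj k x w⟫
  | 0, _, _, _ => rfl
  | k + 1, x, v, w => by
    have ha : Pj k (fun j => pr (x 0) (x j.succ)) (x 0) = x 0 :=
      Pj_of_inner _ _ fun j => by rw [real_inner_comm]; exact inner_pr_self _ _
    rw [Pj_succ, Pj_succ, inner_Pj_comm, inner_pr_comm]
    congr 1
    rw [pr, ← inner_Pj_comm, ha, pr, map_sub, map_smul, ha]

theorem map_Pj (ι : W →ₗᵢ[ℝ] V) : ∀ {k : ℕ} (x : Fin k → W) (v : W),
    ι (Pj k x v) = Pj k (fun j => ι (x j)) (ι v)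
  | 0, _, _ => rfl
  | k + 1, x, v => by
    rw [Pj_succ, Pj_succ, map_Pj ι]
    simp only [map_pr]

theorem D_cons_eq : ∀ {k : ℕ} (u : V) (x : Fin k → V),
    D (Fin.cons u x : Fin (k + 1) → V) = D x * ‖Pj k x u‖
  | 0, u, x => by rw [D_one]; simp
  | k + 1, u, x => by
    have h : (Fin.cons u x : Fin (k + 2) → V) = Fin.cons u (Fin.cons (x 0) (Fin.tail x)) := by
      rw [Fin.cons_self_tail]
    rw [h, D_swap, D_cons, D_succ x, Pj_succ, mul_assoc, ← D_cons_eq]
    congr 2
    ext j
    refine Fin.cases ?_ (fun j => ?_) j <;> simp [Fin.tail]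

/-- the linear map `x ↦ (⟪g j, x⟫)_j` -/
def lin {k : ℕ} (g : Fin k → V) : V →L[ℝ] (Fin k → ℝ) :=
  ContinuousLinearMap.pi fun j => innerSL ℝ (g j)

@[simp] theorem lin_apply {k : ℕ} (g : Fin k → V) (x : V) (j : Fin k) : lin g x j = ⟪g j, x⟫ := by
  simp [lin]

/-- the convex set cut out by the values of `h` on the unit sphere -/
def Zs (h : V → ℝ) : Set V := {x | ∀ u : V, ‖u‖ = 1 → ⟪x, u⟫ ≤ h u}

end alg

section meas

variable {V : Type} [NormedAddCommGroup V] [InnerProductSpace ℝ V] [FiniteDimensional ℝ V]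
  [MeasurableSpace V] [BorelSpace V]

variable (V) in
/-- `k` independent standard Gaussian vectors -/
abbrev γk (k : ℕ) : Measure (Fin k → V) := Measure.pi fun _ : Fin k => stdGaussian V

@[fun_prop] theorem measurable_pr {X : Type*} [MeasurableSpace X] {a v : X → V}
    (ha : Measurable a) (hv : Measurable v) : Measurable fun x => pr (a x) (v x) := by
  unfold pr
  fun_prop

@[fun_prop] theorem measurable_D {X : Type*} [MeasurableSpace X] {k : ℕ} {v : X → Fin k → V}
    (hv : Measurable v) : Measurable fun x => D (v x) :=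
  continuous_D.measurable.comp hv

theorem measurable_Pj : ∀ (k : ℕ) {X : Type} [MeasurableSpace X] {x : X → Fin k → V} {v : X → V},
    Measurable x → Measurable v → Measurable fun p => Pj k (x p) (v p)
  | 0, _, _, _, _, _, hv => hv
  | k + 1, _, _, x, v, hx, hv => by
    simp only [Pj_succ]
    exact measurable_Pj k (by fun_prop) (by fun_prop)

theorem integrable_norm_pow (p : ℕ) : Integrable (fun x : V => ‖x‖ ^ p) (stdGaussian V) := by
  rcases Nat.eq_zero_or_pos p with rfl | hp
  · simp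
  · exact (IsGaussian.memLp_id (stdGaussian V) p (by simp)).integrable_norm_pow hp.ne'

theorem integrable_prod_norm_pow (k p : ℕ) :
    Integrable (fun x : Fin k → V => ∏ j, ‖x j‖ ^ p) (γk V k) :=
  Integrable.fintype_prod (f := fun _ (x : V) => ‖x‖ ^ p) fun _ => integrable_norm_pow p

/-- bounded measurable functions -/
structure Bd {X : Type} [MeasurableSpace X] (f : X → ℝ) : Prop where
  meas : Measurable f
  bdd : ∃ C, ∀ x, |f x| ≤ C

/-- measurable functions bounded above and below by positive constants -/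
structure Pos {X : Type} [MeasurableSpace X] (f : X → ℝ) : Prop where
  meas : Measurable f
  bdd : ∃ c C, 0 < c ∧ ∀ x, c ≤ f x ∧ f x ≤ C

/-- densities on the sphere, as `0`-homogeneous functions -/
structure Den (f : V → ℝ) : Prop extends Pos f where
  hom : ∀ t : ℝ, 0 < t → ∀ x, f (t • x) = f x

theorem Pos.pos {X : Type} [MeasurableSpace X] {f : X → ℝ} (hf : Pos f) (x : X) : 0 < f x := by
  obtain ⟨c, C, hc, h⟩ := hf.bdd
  exact hc.trans_le (h x).1

theorem Pos.bd {X : Type} [MeasurableSpace X] {f : X → ℝ} (hf : Pos f) : Bd f := by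
  obtain ⟨c, C, hc, h⟩ := hf.bdd
  exact ⟨hf.meas, C, fun x => by rw [abs_of_pos (hf.pos x)]; exact (h x).2⟩

theorem Bd.integrable {X : Type} [MeasurableSpace X] {f : X → ℝ} (hf : Bd f) (μ : Measure X)
    [IsFiniteMeasure μ] : Integrable f μ := by
  obtain ⟨C, h⟩ := hf.bdd
  exact Integrable.of_bound hf.meas.aestronglyMeasurable C (ae_of_all _ h)

theorem Pos.rpow {X : Type} [MeasurableSpace X] {f : X → ℝ} (hf : Pos f) {r : ℝ} (hr : 0 ≤ r) :
    Pos fun x => f x ^ r := by
  obtain ⟨c, C, hc, h⟩ := hf.bdd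
  refine ⟨hf.meas.pow_const r, c ^ r, C ^ r, Real.rpow_pos_of_pos hc r, fun x => ⟨?_, ?_⟩⟩
  · exact Real.rpow_le_rpow hc.le (h x).1 hr
  · exact Real.rpow_le_rpow (hf.pos x).le (h x).2 hr

theorem Den.rpow {f : V → ℝ} (hf : Den f) {r : ℝ} (hr : 0 ≤ r) : Den fun x => f x ^ r :=
  ⟨hf.toPos.rpow hr, fun t ht x => by rw [hf.hom t ht]⟩

theorem Den.one : Den fun _ : V => (1 : ℝ) :=
  ⟨⟨measurable_const, 1, 1, one_pos, fun _ => ⟨le_rfl, le_rfl⟩⟩, fun _ _ _ => rfl⟩

/-- support function of the zonoid with generating density `f` -/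
def hz (f : V → ℝ) (u : V) : ℝ := ∫ y, |⟪u, y⟫| * f y ∂(stdGaussian V)

/-- spherical Radon transform -/
def Rd (f : V → ℝ) (y : V) : ℝ := ∫ x, f (pr y x) ∂(stdGaussian V)

/-- density of the `k`-th area measure of the zonoid with generating density `f` -/
def sk (k : ℕ) (f : V → ℝ) (y : V) : ℝ := by
  classical
  exact if y = 0 then 1 else
    (∫ x, D (fun j => pr y (x j)) ^ 2 * ∏ j, f (pr y (x j)) ∂(γk V k))
      / ((finrank ℝ V - 1).descFactorial k : ℝ)

/-- the projection body operator on support functions -/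
def PP (i : ℕ) (h : V → ℝ) (u : V) : ℝ := intrinsicVol i (pr u '' Zs h)

theorem intrinsicVol_eq (i : ℕ) (M : Set V) :
    intrinsicVol i M = ∫ g, (volume (lin g '' M)).toReal ∂(γk V i) := rfl

theorem projBody_eq (i : ℕ) (K : Set V) :
    projBody i K = Zs fun u => intrinsicVol i (pr u '' K) := by
  ext x
  simp only [projBody, Zs, mem_ofPred_eq]
  have : ∀ u : V, ((ℝ ∙ u)ᗮ.starProjection : V → V) = pr u := fun u =>
    funext fun v => starProjection_eq_pr u v
  simp only [this]

end meas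

end Pool.Agent.P.MP_181257_gt
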