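import Pool.Agent.P.MP_181257_gt.Quant

/-! Rearrangement on the line for even convex kernels. -/

set_option autoImplicit false
set_option linter.unusedSectionVars false

open MeasureTheory ProbabilityTheory Module Set Filter Topology
open scoped RealInnerProductSpace ENNReal Pointwise Matrix

noncomputable section

namespace Pool.Agent.P.MP_181257_gt

variable {V : Type} [NormedAddCommGroup V] [InnerProductSpace ℝ V] [FiniteDimensional ℝ V]
  [MeasurableSpace V] [BorelSpace V]

theorem box_mp_sign (A : Set ℝ) (ε : ℤˣ) :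
    MeasurePreserving (fun x : ℝ => ε • x) (volume.restrict (cen A)) (volume.restrict (cen A)) := by
  rcases Int.units_eq_one_or ε with rfl | rfl
  · simp only [one_smul]
    exact MeasurePreserving.id _
  · have h := (Measure.measurePreserving_neg (volume : Measure ℝ)).restrict_preimage
      (s := cen A) measurableSet_Ioo
    have e : Neg.neg ⁻¹' cen A = cen A := by
      ext x
      simp only [cen, mem_preimage, mem_Ioo]
      constructor <;> rintro ⟨h1, h2⟩ <;> constructor <;> linarith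
    rw [e] at h
    have e2 : (fun x : ℝ => (-1 : ℤˣ) • x) = Neg.neg := funext fun x => by simp
    rwa [e2]

theorem box_sum_le {k : ℕ} {Φ : (Fin k → ℝ) → ℝ} (hc : ConvexOn ℝ univ Φ) {s t : Fin k → ℝ}
    (h : ∀ l, |s l| ≤ |t l|) :
    ∑ e : Fin k → ℤˣ, Φ (e • s) ≤ ∑ e : Fin k → ℤˣ, Φ (e • t) := by
  have hΨ : ConvexOn ℝ univ fun x : Fin k → ℝ => ∑ e : Fin k → ℤˣ, Φ (e • x) := by
    refine ⟨convex_univ, fun x _ y _ a b ha hb hab => ?_⟩
    simp only [Finset.smul_sum, ← Finset.sum_add_distrib]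
    refine Finset.sum_le_sum fun e _ => ?_
    have h1 := hc.2 (mem_univ (e • x)) (mem_univ (e • y)) ha hb hab
    have e1 : e • (a • x + b • y) = a • e • x + b • e • y := by
      ext l
      simp only [Pi.smul_apply', Pi.add_apply, Pi.smul_apply, smul_add, smul_comm (e l)]
    rwa [e1]
  have hs : s ∈ convexHull ℝ (Set.pi univ fun l => ({-|t l|, |t l|} : Set ℝ)) := by
    rw [convexHull_pi]
    intro l _
    beta_reduce
    rw [convexHull_pair, segment_eq_Icc (neg_le_self (abs_nonneg _))]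
    exact abs_le.1 (h l)
  obtain ⟨y, hy, hle⟩ := hΨ.exists_ge_of_mem_convexHull (subset_univ _) hs
  have hex : ∀ l, ∃ ε : ℤˣ, y l = ε • t l := by
    intro l
    have h1 := hy l (mem_univ _)
    simp only [mem_insert_iff, mem_singleton_iff] at h1
    rcases h1 with h1 | h1 <;> rcases abs_choice (t l) with h2 | h2 <;> rw [h2] at h1
    · exact ⟨-1, by simpa using h1⟩
    · exact ⟨1, by simpa using h1⟩
    · exact ⟨1, by simpa using h1⟩
    · exact ⟨-1, by simpa using h1⟩
  choose e' he' using hex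
  have e2 : y = e' • t := funext he'
  refine hle.trans (le_of_eq ?_)
  simp only [e2, ← mul_smul]
  exact Equiv.sum_comp (Equiv.mulRight e') fun e => Φ (e • t)

theorem box_le {k : ℕ} {Φ : (Fin k → ℝ) → ℝ} (hc : ConvexOn ℝ univ Φ) (he : ∀ t, Φ (-t) = Φ t)
    (h0 : ∀ t, 0 ≤ Φ t) (hm : Measurable Φ) {A : Fin k → Set ℝ} (hA : ∀ l, MeasurableSet (A l))
    (hb : ∀ l, Bornology.IsBounded (A l)) :
    ∫⁻ t, ENNReal.ofReal (Φ t) ∂(Measure.pi fun l => volume.restrict (cen (A l)))
      ≤ ∫⁻ t, ENNReal.ofReal (Φ t) ∂(Measure.pi fun l => volume.restrict (A l)) := by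
  choose τ hτ hgap using fun l => exists_quantile (hA l) (hb l)
  set Q : Measure (Fin k → ℝ) := Measure.pi fun l => volume.restrict (cen (A l)) with hQ
  set R := ∫⁻ t, ENNReal.ofReal (Φ t) ∂(Measure.pi fun l => volume.restrict (A l)) with hR
  have hF : Measurable fun t => ENNReal.ofReal (Φ t) := hm.ennreal_ofReal
  have hT : MeasurePreserving (fun (s : Fin k → ℝ) l => τ l (s l)) Q
      (Measure.pi fun l => volume.restrict (A l)) := measurePreserving_pi _ _ hτ
  have hE : ∀ e : Fin k → ℤˣ, MeasurePreserving (fun s : Fin k → ℝ => e • s) Q Q := fun e =>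
    measurePreserving_pi _ _ fun l => box_mp_sign (A l) (e l)
  set σ : (Fin k → ℝ) → Fin k → ℝ := fun s l => (τ l (s l) - τ l (-s l)) / 2 with hσ
  have hσm : Measurable σ := by
    refine measurable_pi_lambda _ fun l => Measurable.div_const (Measurable.sub ?_ ?_) _
    · exact (hτ l).measurable.comp (measurable_pi_apply l)
    · exact (hτ l).measurable.comp (measurable_pi_apply l).neg
  have hσe : ∀ (e : Fin k → ℤˣ) (s : Fin k → ℝ), e • σ s = σ (e • s) := by
    intro e s
    ext l
    simp only [hσ, Pi.smul_apply']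
    rcases Int.units_eq_one_or (e l) with h | h <;> rw [h]
    · simp
    · simp only [Units.neg_smul, one_smul, neg_neg]
      ring
  have h1 : ∫⁻ s, ENNReal.ofReal (Φ (σ s)) ∂Q ≤ R := by
    have a1 : ∫⁻ s, ENNReal.ofReal (Φ fun l => τ l (s l)) ∂Q = R := hT.lintegral_comp hF
    have a2 : ∫⁻ s, ENNReal.ofReal (Φ fun l => τ l (-s l)) ∂Q = R := by
      rw [← a1, ← (hE (-1)).lintegral_comp (f := fun s => ENNReal.ofReal (Φ fun l => τ l (s l)))
        (hF.comp hT.measurable)]
      simp [Pi.smul_apply']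
    have a3 : ∀ s, 2 * ENNReal.ofReal (Φ (σ s))
        ≤ ENNReal.ofReal (Φ fun l => τ l (s l)) + ENNReal.ofReal (Φ fun l => τ l (-s l)) := by
      intro s
      have b1 := hc.2 (mem_univ fun l => τ l (s l)) (mem_univ (-fun l => τ l (-s l)))
        (show (0 : ℝ) ≤ 1 / 2 by norm_num) (show (0 : ℝ) ≤ 1 / 2 by norm_num) (by norm_num)
      have b2 : (1 / 2 : ℝ) • (fun l => τ l (s l)) + (1 / 2 : ℝ) • (-fun l => τ l (-s l))
          = σ s := by
        ext l
        simp only [hσ, Pi.add_apply, Pi.smul_apply, Pi.neg_apply, smul_eq_mul]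
        ring
      rw [b2, he, smul_eq_mul, smul_eq_mul] at b1
      rw [← ENNReal.ofReal_add (h0 _) (h0 _), ← ENNReal.ofReal_ofNat,
        ← ENNReal.ofReal_mul (by norm_num)]
      exact ENNReal.ofReal_le_ofReal (by linarith)
    have a4 := lintegral_mono (μ := Q) a3
    have m1 : Measurable fun s : Fin k → ℝ => ENNReal.ofReal (Φ fun l => τ l (s l)) :=
      hF.comp hT.measurable
    rw [lintegral_const_mul' _ _ ENNReal.ofNat_ne_top, lintegral_add_left m1, a1, a2,
      ← two_mul] at a4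
    exact (ENNReal.mul_le_mul_iff_right two_ne_zero ENNReal.ofNat_ne_top).1 a4
  refine le_trans ?_ h1
  have hae : ∀ᵐ s ∂Q, ∀ l, s l ∈ cen (A l) := ae_all_iff.2 fun l =>
    (Measure.quasiMeasurePreserving_eval _ l).ae (ae_restrict_mem measurableSet_Ioo)
  have h2 : ∫⁻ s, ∑ e : Fin k → ℤˣ, ENNReal.ofReal (Φ (e • s)) ∂Q
      ≤ ∫⁻ s, ∑ e : Fin k → ℤˣ, ENNReal.ofReal (Φ (σ (e • s))) ∂Q := by
    refine lintegral_mono_ae (hae.mono fun s hs => ?_)
    simp only [← hσe]
    rw [← ENNReal.ofReal_sum_of_nonneg fun _ _ => h0 _,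
      ← ENNReal.ofReal_sum_of_nonneg fun _ _ => h0 _]
    refine ENNReal.ofReal_le_ofReal (box_sum_le hc fun l => ?_)
    have hl := hs l
    simp only [hσ]
    rcases le_total 0 (s l) with h | h
    · have := hgap l (s l) h hl.2
      rw [abs_of_nonneg h]
      exact le_abs.2 (Or.inl (by linarith))
    · have := hgap l (-s l) (by linarith) (by linarith [hl.1])
      rw [neg_neg] at this
      rw [abs_of_nonpos h]
      exact le_abs.2 (Or.inr (by linarith))
  have m2 : ∀ e : Fin k → ℤˣ, Measurable fun s => ENNReal.ofReal (Φ (e • s)) := fun e =>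
    hF.comp (hE e).measurable
  have m3 : ∀ e : Fin k → ℤˣ, Measurable fun s => ENNReal.ofReal (Φ (σ (e • s))) := fun e =>
    (hF.comp hσm).comp (hE e).measurable
  rw [lintegral_finsetSum _ fun e _ => m2 e, lintegral_finsetSum _ fun e _ => m3 e] at h2
  have c1 : ∀ e : Fin k → ℤˣ, ∫⁻ s, ENNReal.ofReal (Φ (e • s)) ∂Q
      = ∫⁻ s, ENNReal.ofReal (Φ s) ∂Q := fun e => (hE e).lintegral_comp hF
  have c2 : ∀ e : Fin k → ℤˣ, ∫⁻ s, ENNReal.ofReal (Φ (σ (e • s))) ∂Q
      = ∫⁻ s, ENNReal.ofReal (Φ (σ s)) ∂Q := fun e =>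
    (hE e).lintegral_comp (f := fun s => ENNReal.ofReal (Φ (σ s))) (hF.comp hσm)
  simp only [c1, c2, Finset.sum_const, nsmul_eq_mul] at h2
  refine (ENNReal.mul_le_mul_iff_right ?_ (ENNReal.natCast_ne_top _)).1 h2
  exact Nat.cast_ne_zero.2 (Finset.card_pos.2 Finset.univ_nonempty).ne'

end Pool.Agent.P.MP_181257_gt
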