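import Pool.Agent.P.MP_181257_gt.Shadow

/-! Growth of the volume when a multiple of a zonoid is added to a convex set. -/

set_option autoImplicit false
set_option linter.unusedSectionVars false

open MeasureTheory ProbabilityTheory Module Set Filter Topology
open scoped RealInnerProductSpace ENNReal Pointwise Matrix

noncomputable section

namespace Pool.Agent.P.MP_181257_gt

theorem brA_meas_vol {X K : Type} [TopologicalSpace X] [MeasurableSpace X] [BorelSpace X]
    [SecondCountableTopology X] [TopologicalSpace K] [CompactSpace K] {k : ℕ}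
    {F : X × K → (Fin k → ℝ)} (hF : Continuous F) :
    Measurable fun x => volume (range fun q => F (x, q)) := by
  have hT : IsClosed {q : (X × (Fin k → ℝ)) × K | F (q.1.1, q.2) = q.1.2} :=
    isClosed_eq (by fun_prop) (by fun_prop)
  have hS : IsClosed {p : X × (Fin k → ℝ) | p.2 ∈ range fun q => F (p.1, q)} := by
    convert isClosedMap_fst_of_compactSpace _ hT using 1
    ext p
    constructor
    · rintro ⟨x, e⟩
      exact ⟨(p, x), e, rfl⟩
    · rintro ⟨⟨p', x⟩, e, rfl⟩
      exact ⟨x, e⟩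
  exact measurable_measure_prodMk_left (ν := volume) hS.measurableSet

theorem brA_mem_segment {E : Type} [AddCommGroup E] [Module ℝ E] (z y : E) :
    y ∈ segment ℝ (-z) z ↔ ∃ s ∈ Icc (-1 : ℝ) 1, y = s • z := by
  constructor
  · rintro ⟨a, b, ha, hb, hab, rfl⟩
    refine ⟨b - a, ⟨by linarith, by linarith⟩, ?_⟩
    rw [sub_smul, smul_neg]
    abel
  · rintro ⟨s, ⟨h1, h2⟩, rfl⟩
    refine ⟨(1 - s) / 2, (1 + s) / 2, by linarith, by linarith, by ring, ?_⟩
    rw [smul_neg, ← neg_smul, ← add_smul]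
    congr 1
    ring

theorem brA_meas_shad {d : ℕ} {C : Set (Fin d → ℝ)} (hC : IsCompact C) : Measurable (shad C) := by
  have : CompactSpace C := isCompact_iff_compactSpace.1 hC
  have h := brA_meas_vol (X := Fin d → ℝ) (K := C × Icc (-1 : ℝ) 1)
    (F := fun p => (p.2.1 : Fin d → ℝ) + (p.2.2 : ℝ) • p.1) (by fun_prop)
  have e : ∀ z : Fin d → ℝ, C + segment ℝ (-z) z
      = range fun q : C × Icc (-1 : ℝ) 1 => (q.1 : Fin d → ℝ) + (q.2 : ℝ) • z := by
    intro z
    ext p
    constructor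
    · rintro ⟨c, hc, y, hy, rfl⟩
      obtain ⟨s, hs, rfl⟩ := (brA_mem_segment z y).1 hy
      exact ⟨(⟨c, hc⟩, ⟨s, hs⟩), rfl⟩
    · rintro ⟨⟨⟨c, hc⟩, ⟨s, hs⟩⟩, rfl⟩
      exact ⟨c, hc, s • z, (brA_mem_segment z _).2 ⟨s, hs, rfl⟩, rfl⟩
  unfold shad
  simp only [e, Measure.real]
  exact (h.ennreal_toReal.sub measurable_const).div_const 2

theorem brA_int_shad {Ω : Type} [MeasurableSpace Ω] (μ : Measure Ω) {d : ℕ}
    {Y : Ω → Fin (d + 1) → ℝ} (hY : Measurable Y) (hi : Integrable Y μ)
    {C : Set (Fin (d + 1) → ℝ)} (hC : IsCompact C) (hc : Convex ℝ C) (hne : C.Nonempty) :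
    Integrable (fun ω => 2 * shad C (Y ω)) μ := by
  obtain ⟨B, hB⟩ := shad_bound hC hc hne
  refine (hi.norm.const_mul B).mono'
    (((brA_meas_shad hC).comp hY).const_mul 2).aestronglyMeasurable (ae_of_all _ fun ω => ?_)
  rw [Real.norm_of_nonneg
    (mul_nonneg zero_le_two (shadow_nonneg hc hC.isBounded (Or.inr hC) _))]
  exact (shadow_sandwich one_pos hC hc hne _).1.trans (hB 1 ⟨one_pos, le_rfl⟩ _)

theorem brA_deriv_bounds {Ω : Type} [MeasurableSpace Ω] (μ : Measure Ω) [IsFiniteMeasure μ]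
    {d : ℕ} {Y : Ω → Fin (d + 1) → ℝ} (hY : Measurable Y) (hi : Integrable Y μ)
    {C : Set (Fin (d + 1) → ℝ)} (hC : IsCompact C) (hc : Convex ℝ C) (hne : C.Nonempty)
    {η : ℝ} (hη : 0 < η) :
    (∫ ω, 2 * shad C (Y ω) ∂μ) * η ≤ ∫ x, ∫ ω, |(-fderiv ℝ (bump η C) x) (Y ω)| ∂μ ∧
      ∫ x, ∫ ω, |(-fderiv ℝ (bump η C) x) (Y ω)| ∂μ
        ≤ (∫ ω, 2 * shad (Metric.cthickening η C) (Y ω) ∂μ) * η := by
  have hint : Integrable (Function.uncurry fun (x : Fin (d + 1) → ℝ) (ω : Ω) =>
      |fderiv ℝ (bump η C) x (Y ω)|) ((volume : Measure (Fin (d + 1) → ℝ)).prod μ) := by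
    refine ((integrable_norm_fderiv_bump η hC hne).mul_prod hi.norm).mono' ?_
      (Eventually.of_forall fun q => ?_)
    · have hm : Measurable fun q : (Fin (d + 1) → ℝ) × Ω => fderiv ℝ (bump η C) q.1 (Y q.2) :=
        isBoundedBilinearMap_apply.continuous.measurable.comp
          (((measurable_fderiv ℝ (bump η C)).comp measurable_fst).prodMk (hY.comp measurable_snd))
      exact hm.abs.aestronglyMeasurable
    · rw [Function.uncurry_def, Real.norm_eq_abs, abs_abs]
      exact (fderiv ℝ (bump η C) q.1).le_opNorm (Y q.2)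
  simp only [neg_apply, abs_neg]
  rw [integral_integral_swap hint, ← integral_mul_const, ← integral_mul_const]
  have h1 := brA_int_shad μ hY hi hC hc hne
  have h2 := brA_int_shad μ hY hi (hC.cthickening (r := η)) (hc.cthickening η)
    (hne.mono (Metric.self_subset_cthickening C))
  constructor
  · refine integral_mono (h1.mul_const η) hint.integral_prod_right fun ω => ?_
    exact (le_div_iff₀ hη).1 (shadow_sandwich hη hC hc hne (Y ω)).1
  · refine integral_mono hint.integral_prod_right (h2.mul_const η) fun ω => ?_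
    exact (div_le_iff₀ hη).1 (shadow_sandwich hη hC hc hne (Y ω)).2

theorem brA_add_smul {E : Type} [AddCommGroup E] [Module ℝ E] {C Z : Set E} (hZ : Convex ℝ Z)
    {r t : ℝ} (hr : 0 ≤ r) (ht : 0 ≤ t) : C + r • Z + t • Z = C + (r + t) • Z := by
  rw [hZ.add_smul hr ht, add_assoc]

theorem brA_subset {E : Type} [AddCommGroup E] [Module ℝ E] {C Z : Set E} (hZ : Convex ℝ Z)
    (h0 : (0 : E) ∈ Z) {r t : ℝ} (hr : 0 ≤ r) (ht : r ≤ t) : C + r • Z ⊆ C + t • Z := by
  have e : t = r + (t - r) := by ring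
  rw [e, ← brA_add_smul hZ hr (sub_nonneg.2 ht)]
  intro x hx
  exact ⟨x, hx, 0, ⟨0, h0, smul_zero _⟩, add_zero x⟩

theorem brA_bump_mono {d : ℕ} (η : ℝ) {C C' : Set (Fin d → ℝ)} (hne : C.Nonempty) (h : C ⊆ C')
    (x : Fin d → ℝ) : bump η C x ≤ bump η C' x := by
  unfold bump
  exact max_le_max (sub_le_sub_left (Metric.infDist_le_infDist_of_subset h hne) η) le_rfl

theorem brA_cont {d : ℕ} (η : ℝ) {C Z : Set (Fin d → ℝ)} (hC : IsCompact C) (hne : C.Nonempty)
    (hZ : IsCompact Z) (hZc : Convex ℝ Z) (h0 : (0 : Fin d → ℝ) ∈ Z) (t : ℝ) :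
    ContinuousOn (fun r : ℝ => ∫ x, bump η (C + r • Z) x) (Icc 0 t) := by
  obtain ⟨R, hR0, hR⟩ := hZ.isBounded.exists_pos_norm_le
  have hZne : Z.Nonempty := ⟨0, h0⟩
  refine continuousOn_of_dominated (bound := bump η (C + t • Z)) (fun r _ => ?_) (fun r hr => ?_)
    (integrable_bump η (hC.add (hZ.smul t)) (hne.add hZne.smul_set)) (ae_of_all _ fun x => ?_)
  · exact (var_lip η _).continuous.aestronglyMeasurable
  · refine ae_of_all _ fun x => ?_
    rw [Real.norm_of_nonneg (var_bump_nonneg _ _ _)]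
    exact brA_bump_mono η (hne.add hZne.smul_set) (brA_subset hZc h0 hr.1 hr.2) x
  · have hl : LipschitzWith ⟨R, hR0.le⟩ fun r : ℝ => bump η (C + r • Z) x := by
      refine LipschitzWith.of_le_add_mul _ fun r s => ?_
      obtain ⟨m, hm, he⟩ := var_exists_eq η r hC hne hZ hZne x
      have h1 := var_le_add η s hC hne hm x
      have h2 := (var_lip η C).le_add_mul (x - r • m) (x - s • m)
      have h3 : dist (x - r • m) (x - s • m) ≤ R * dist r s := by
        rw [dist_sub_left, dist_eq_norm, ← sub_smul, norm_smul, Real.dist_eq, Real.norm_eq_abs,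
          mul_comm]
        exact mul_le_mul_of_nonneg_right (hR m hm) (abs_nonneg _)
      have h4 : bump η C (x - r • m) ≤ bump η C (x - s • m) + dist (x - r • m) (x - s • m) := by
        simpa using h2
      show bump η (C + r • Z) x ≤ bump η (C + s • Z) x + R * dist r s
      linarith
    exact hl.continuous.continuousOn

theorem brA_hasDeriv {d : ℕ} (η : ℝ) {C Z : Set (Fin d → ℝ)} (hC : IsCompact C)
    (hne : C.Nonempty) (hZ : IsCompact Z) (hZc : Convex ℝ Z)
    {H : ((Fin d → ℝ) →L[ℝ] ℝ) → ℝ} (hH : ∀ ℓ : (Fin d → ℝ) →L[ℝ] ℝ, IsGreatest (ℓ '' Z) (H ℓ))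
    {r : ℝ} (hr : 0 ≤ r) :
    HasDerivWithinAt (fun r : ℝ => ∫ x, bump η (C + r • Z) x)
      (∫ x, H (-fderiv ℝ (bump η (C + r • Z)) x)) (Ici r) r := by
  have hZne : Z.Nonempty := by
    obtain ⟨x, hx, -⟩ := (hH 0).1
    exact ⟨x, hx⟩
  have h := first_variation η (hC.add (hZ.smul r)) (hne.add hZne.smul_set) hZ hH
  refine HasDerivWithinAt.Ici_of_Ioi ?_
  rw [hasDerivWithinAt_iff_tendsto_slope' (by simp)]
  have h2 : Tendsto (fun y : ℝ => y - r) (𝓝[>] r) (𝓝[>] 0) := by
    refine tendsto_nhdsWithin_iff.2 ⟨?_, ?_⟩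
    · have : Tendsto (fun y : ℝ => y - r) (𝓝 r) (𝓝 (r - r)) :=
        (continuous_id.sub continuous_const).tendsto r
      rw [sub_self] at this
      exact this.mono_left nhdsWithin_le_nhds
    · filter_upwards [self_mem_nhdsWithin] with y hy using sub_pos.2 (mem_Ioi.1 hy)
  refine (h.comp h2).congr' ?_
  filter_upwards [self_mem_nhdsWithin] with y hy
  have hy' : 0 ≤ y - r := (sub_pos.2 (mem_Ioi.1 hy)).le
  simp only [Function.comp_apply, slope_def_field]
  rw [brA_add_smul hZc hr hy', add_sub_cancel]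

theorem brA_tendsto_vol {d : ℕ} {S : Set (Fin d → ℝ)} (hS : IsCompact S) :
    Tendsto (fun η : ℝ => volume.real (Metric.cthickening η S)) (𝓝[>] 0) (𝓝 (volume.real S)) :=
  ((ENNReal.tendsto_toReal hS.measure_lt_top.ne).comp
    (tendsto_measure_cthickening_of_isCompact hS)).mono_left nhdsWithin_le_nhds

theorem brA_tendsto_bump {d : ℕ} {S : Set (Fin d → ℝ)} (hS : IsCompact S) (hne : S.Nonempty) :
    Tendsto (fun η : ℝ => (∫ x, bump η S x) / η) (𝓝[>] 0) (𝓝 (volume.real S)) := by
  refine tendsto_of_tendsto_of_tendsto_of_le_of_le' tendsto_const_nhds (brA_tendsto_vol hS) ?_ ?_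
  · filter_upwards [self_mem_nhdsWithin] with η hη
    exact (le_div_iff₀ hη).2 (var_int_bounds hη hS hne).1
  · filter_upwards [self_mem_nhdsWithin] with η hη
    exact (div_le_iff₀ hη).2 (var_int_bounds hη hS hne).2

theorem brA_tendsto_shad {d : ℕ} {C : Set (Fin d → ℝ)} (hC : IsCompact C) (z : Fin d → ℝ) :
    Tendsto (fun η : ℝ => 2 * shad (Metric.cthickening η C) z) (𝓝[>] 0) (𝓝 (2 * shad C z)) := by
  have hC2 : IsCompact (C + segment ℝ (-z) z) := hC.add (shadow_isCompact_segment (-z) z)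
  refine ((((brA_tendsto_vol hC2).sub (brA_tendsto_vol hC)).div_const 2).const_mul 2).congr' ?_
  filter_upwards [self_mem_nhdsWithin] with η hη
  have hη' : 0 < η := hη
  unfold shad
  rw [← hC2.add_closedBall_zero hη'.le, add_right_comm, hC.add_closedBall_zero hη'.le]

theorem brA_sandwich {Ω : Type} [MeasurableSpace Ω] (μ : Measure Ω) [IsFiniteMeasure μ] {d : ℕ}
    {Y : Ω → Fin (d + 1) → ℝ} (hY : Measurable Y) (hi : Integrable Y μ)
    {C Z : Set (Fin (d + 1) → ℝ)} (hC : IsCompact C) (hc : Convex ℝ C) (hne : C.Nonempty)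
    (hZ : IsCompact Z) (hZc : Convex ℝ Z) (h0 : (0 : Fin (d + 1) → ℝ) ∈ Z)
    (hH : ∀ ℓ : (Fin (d + 1) → ℝ) →L[ℝ] ℝ, IsGreatest (ℓ '' Z) (∫ ω, |ℓ (Y ω)| ∂μ))
    {t : ℝ} (ht : 0 ≤ t) :
    t * ∫ ω, 2 * shad C (Y ω) ∂μ ≤ volume.real (C + t • Z) - volume.real C ∧
      volume.real (C + t • Z) - volume.real C ≤ t * ∫ ω, 2 * shad (C + t • Z) (Y ω) ∂μ := by
  have hZne : Z.Nonempty := ⟨0, h0⟩
  have hK : ∀ r : ℝ, IsCompact (C + r • Z) := fun r => hC.add (hZ.smul r)
  have hKc : ∀ r : ℝ, Convex ℝ (C + r • Z) := fun r => hc.add (hZc.smul r)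
  have hKn : ∀ r : ℝ, (C + r • Z).Nonempty := fun r => hne.add hZne.smul_set
  have hC0 : C + (0 : ℝ) • Z = C := by rw [Set.zero_smul_set hZne, add_zero]
  have hsub : ∀ r : ℝ, 0 ≤ r → C ⊆ C + r • Z := fun r hr => by
    conv_lhs => rw [← hC0]
    exact brA_subset hZc h0 le_rfl hr
  have hlim : Tendsto (fun η : ℝ => (∫ x, bump η (C + t • Z) x) / η - (∫ x, bump η C x) / η)
      (𝓝[>] 0) (𝓝 (volume.real (C + t • Z) - volume.real C)) :=
    (brA_tendsto_bump (hK t) (hKn t)).sub (brA_tendsto_bump hC hne)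
  have hlin : ∀ a b r : ℝ, HasDerivWithinAt (fun r : ℝ => a + r * b) b (Ici r) r := fun a b r => by
    simpa using (((hasDerivAt_id r).mul_const b).const_add a).hasDerivWithinAt
  constructor
  · refine ge_of_tendsto hlim ?_
    filter_upwards [self_mem_nhdsWithin] with η hη
    have hη' : 0 < η := hη
    have key := image_le_of_deriv_right_le_deriv_boundary (a := 0) (b := t)
      (f := fun r : ℝ => (∫ x, bump η C x) + r * ((∫ ω, 2 * shad C (Y ω) ∂μ) * η))
      (by fun_prop) (fun r _ => hlin _ _ r) (B := fun r : ℝ => ∫ x, bump η (C + r • Z) x)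
      (by simp only [hC0, zero_mul, add_zero, le_refl]) (brA_cont η hC hne hZ hZc h0 t)
      (fun r hr => brA_hasDeriv η hC hne hZ hZc hH hr.1)
      (fun r hr => by
        refine le_trans (mul_le_mul_of_nonneg_right ?_ hη'.le)
          (brA_deriv_bounds μ hY hi (hK r) (hKc r) (hKn r) hη').1
        refine integral_mono (brA_int_shad μ hY hi hC hc hne)
          (brA_int_shad μ hY hi (hK r) (hKc r) (hKn r)) fun ω => ?_
        exact mul_le_mul_of_nonneg_left (shadow_mono hc (Or.inr hC) (hKc r) (hK r).isBounded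
          (Or.inr (hK r)) (hsub r hr.1) _) zero_le_two) ⟨ht, le_rfl⟩
    rw [← sub_div, le_div_iff₀ hη']
    linarith
  · have hup : Tendsto (fun η : ℝ => t * ∫ ω, 2 * shad (Metric.cthickening η (C + t • Z)) (Y ω) ∂μ)
        (𝓝[>] 0) (𝓝 (t * ∫ ω, 2 * shad (C + t • Z) (Y ω) ∂μ)) := by
      refine Tendsto.const_mul t (tendsto_integral_filter_of_dominated_convergence
        (fun ω => 2 * shad (Metric.cthickening 1 (C + t • Z)) (Y ω))
        (Eventually.of_forall fun η => ?_) ?_ ?_
        (Eventually.of_forall fun ω => brA_tendsto_shad (hK t) (Y ω)))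
      · exact (((brA_meas_shad (hK t).cthickening).comp hY).const_mul 2).aestronglyMeasurable
      · filter_upwards [Ioc_mem_nhdsGT (zero_lt_one' ℝ)] with η hη
        refine Eventually.of_forall fun ω => ?_
        rw [Real.norm_of_nonneg (mul_nonneg zero_le_two (shadow_nonneg ((hKc t).cthickening η)
          (hK t).cthickening.isBounded (Or.inr (hK t).cthickening) _))]
        exact mul_le_mul_of_nonneg_left (shadow_mono ((hKc t).cthickening η)
          (Or.inr (hK t).cthickening) ((hKc t).cthickening 1) (hK t).cthickening.isBounded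
          (Or.inr (hK t).cthickening) (Metric.cthickening_mono hη.2 _) _) zero_le_two
      · exact brA_int_shad μ hY hi (hK t).cthickening ((hKc t).cthickening 1)
          ((hKn t).mono (Metric.self_subset_cthickening _))
    refine le_of_tendsto_of_tendsto hlim hup ?_
    filter_upwards [self_mem_nhdsWithin] with η hη
    have hη' : 0 < η := hη
    have key := image_le_of_deriv_right_le_deriv_boundary (a := 0) (b := t)
      (f := fun r : ℝ => ∫ x, bump η (C + r • Z) x) (brA_cont η hC hne hZ hZc h0 t)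
      (fun r hr => brA_hasDeriv η hC hne hZ hZc hH hr.1)
      (B := fun r : ℝ => (∫ x, bump η C x)
        + r * ((∫ ω, 2 * shad (Metric.cthickening η (C + t • Z)) (Y ω) ∂μ) * η))
      (by simp only [hC0, zero_mul, add_zero, le_refl]) (by fun_prop) (fun r _ => hlin _ _ r)
      (fun r hr => by
        refine le_trans (brA_deriv_bounds μ hY hi (hK r) (hKc r) (hKn r) hη').2
          (mul_le_mul_of_nonneg_right ?_ hη'.le)
        refine integral_mono
          (brA_int_shad μ hY hi (hK r).cthickening ((hKc r).cthickening η)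
            ((hKn r).mono (Metric.self_subset_cthickening _)))
          (brA_int_shad μ hY hi (hK t).cthickening ((hKc t).cthickening η)
            ((hKn t).mono (Metric.self_subset_cthickening _))) fun ω => ?_
        exact mul_le_mul_of_nonneg_left (shadow_mono ((hKc r).cthickening η)
          (Or.inr (hK r).cthickening) ((hKc t).cthickening η) (hK t).cthickening.isBounded
          (Or.inr (hK t).cthickening)
          (Metric.cthickening_subset_of_subset η (brA_subset hZc h0 hr.1 hr.2.le)) _) zero_le_two)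
      ⟨ht, le_rfl⟩
    rw [← sub_div, div_le_iff₀ hη']
    linarith

end Pool.Agent.P.MP_181257_gt
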