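import Pool.Agent.P.MP_181257_gt.Kub
import Pool.Agent.P.MP_181257_gt.AF

/-! Orthonormal frames, the Kubota recursion and the top degree. -/

set_option autoImplicit false
set_option linter.unusedSectionVars false

open MeasureTheory ProbabilityTheory Module Set Filter Topology
open scoped RealInnerProductSpace ENNReal Pointwise Matrix

noncomputable section

namespace Pool.Agent.P.MP_181257_gt

variable {V : Type} [NormedAddCommGroup V] [InnerProductSpace ℝ V] [FiniteDimensional ℝ V]
  [MeasurableSpace V] [BorelSpace V]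

/-- a fixed orthonormal frame -/
def brE {j : ℕ} (hj : j ≤ finrank ℝ V) (b : Fin j) : V := stdOrthonormalBasis ℝ V (Fin.castLE hj b)

theorem brB_frame {j : ℕ} (hj : j ≤ finrank ℝ V) (x : Fin j → V) :
    ∃ (h : OG V) (A : Matrix (Fin j) (Fin j) ℝ), |A.det| = D x ∧
      ∀ a, x a = ∑ b, A a b • ap h (brE hj b) := by
  classical
  let x' : Fin (finrank ℝ V) → V := fun i => if h : i.val < j then x ⟨i, h⟩ else 0
  have hcard : finrank ℝ V = Fintype.card (Fin (finrank ℝ V)) := by simp
  let b := InnerProductSpace.gramSchmidtOrthonormalBasis hcard x'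
  have hx : ∀ a : Fin j, x' (Fin.castLE hj a) = x a := fun a => by simp [x']
  let A : Matrix (Fin j) (Fin j) ℝ := Matrix.of fun a l => ⟪b (Fin.castLE hj l), x a⟫
  have hA : ∀ a, x a = ∑ l, A a l • b (Fin.castLE hj l) := by
    intro a
    conv_lhs => rw [← b.sum_repr' (x a)]
    refine (Fintype.sum_of_injective (Fin.castLE hj) (Fin.castLE_injective hj) _ _
      (fun i hi => ?_) (fun l => rfl)).symm
    have h1 : Fin.castLE hj a < i := by
      by_contra h
      have h2 : i.val ≤ a.val := not_lt.1 h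
      exact hi ⟨⟨i.val, h2.trans_lt a.2⟩, rfl⟩
    have h3 := InnerProductSpace.gramSchmidtOrthonormalBasis_inv_triangular hcard x' h1
    rw [hx] at h3
    rw [h3, zero_smul]
  refine ⟨ofIso ((stdOrthonormalBasis ℝ V).equiv b (Equiv.refl _)), A, ?_, fun a => ?_⟩
  · have hg : Matrix.gram ℝ x = A * Aᵀ := by
      ext a a'
      rw [Matrix.gram_apply, Matrix.mul_apply]
      conv_lhs => rw [hA a, sum_inner]
      refine Finset.sum_congr rfl fun l _ => ?_
      rw [real_inner_smul_left]
      rfl
    unfold D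
    rw [hg, Matrix.det_mul, Matrix.det_transpose, Real.sqrt_mul_self_eq_abs]
  · simp only [ap_ofIso, brE, OrthonormalBasis.equiv_apply_basis, Equiv.refl_apply]
    exact hA a

theorem brB_vol {j : ℕ} (A : Matrix (Fin j) (Fin j) ℝ) (f : Fin j → V) (L : Set V) :
    volume (lin (fun a => ∑ b, A a b • f b) '' L)
      = ENNReal.ofReal |A.det| * volume (lin f '' L) := by
  rw [← LinearMap.det_toLin' A, ← Measure.addHaar_image_linearMap, image_image]
  congr 2
  funext v a
  simp [Matrix.mulVec, dotProduct, sum_inner, real_inner_smul_left]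

/-- mean volume of the projections of `L` onto rotated frames -/
def brK {j : ℕ} (hj : j ≤ finrank ℝ V) (L : Set V) : ℝ≥0∞ :=
  ∫⁻ h, volume (lin (fun b => ap h (brE hj b)) '' L) ∂(haar V)

theorem brB_avg {j : ℕ} (hj : j ≤ finrank ℝ V) {L : Set V} (hL : IsCompact L) (x : Fin j → V) :
    ∫⁻ h, volume (lin (fun a => ap h (x a)) '' L) ∂(haar V) = ENNReal.ofReal (D x) * brK hj L := by
  obtain ⟨h₀, A, hA, hx⟩ := brB_frame hj x
  have e : ∀ h : OG V, (fun a => ap h (x a)) = fun a => ∑ b, A a b • ap (h * h₀) (brE hj b) := by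
    intro h
    funext a
    rw [hx a]
    simp only [ap_mul]
    simp only [ap, map_sum, map_smul]
  simp only [e, brB_vol, hA]
  rw [lintegral_const_mul' _ _ ENNReal.ofReal_ne_top]
  congr 1
  exact lintegral_mul_right_eq_self
    (fun h : OG V => volume (lin (fun b => ap h (brE hj b)) '' L)) h₀

theorem brB_haar {k : ℕ} {F : (Fin k → V) → ℝ≥0∞} (hF : Measurable F) :
    ∫⁻ x, F x ∂(γk V k) = ∫⁻ x, ∫⁻ h, F (fun a => ap h (x a)) ∂(haar V) ∂(γk V k) := by
  have h1 : ∀ h : OG V, ∫⁻ x, F (fun a => ap h (x a)) ∂(γk V k) = ∫⁻ x, F x ∂(γk V k) := fun h =>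
    (measurePreserving_pi _ _ fun _ => mp_ap h).lintegral_comp hF
  rw [lintegral_lintegral_swap (by fun_prop)]
  simp [h1]

variable (V) in
/-- mean volume of a Gaussian parallelepiped -/
def brD (k : ℕ) : ℝ≥0∞ := ∫⁻ x, ENNReal.ofReal (D x) ∂(γk V k)

theorem brB_intD (k : ℕ) : Integrable (fun x : Fin k → V => D x) (γk V k) := by
  refine (integrable_prod_norm_pow k 1).mono' continuous_D.aestronglyMeasurable
    (ae_of_all _ fun x => ?_)
  rw [Real.norm_of_nonneg (D_nonneg _)]
  simpa using D_le_prod x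

theorem brD_eq (k : ℕ) : brD V k = ENNReal.ofReal (∫ x, D x ∂(γk V k)) :=
  (ofReal_integral_eq_lintegral_ofReal (brB_intD k) (ae_of_all _ fun x => D_nonneg x)).symm

theorem brD_pos {k : ℕ} (hk : k ≤ finrank ℝ V) : 0 < (brD V k).toReal := by
  rw [brD_eq, ENNReal.toReal_ofReal (integral_D_pos hk).le]
  exact integral_D_pos hk

theorem brD_ne_top (k : ℕ) : brD V k ≠ ∞ := by
  rw [brD_eq]
  exact ENNReal.ofReal_ne_top

theorem brB_lint {j : ℕ} {L : Set V} (hL : IsCompact L) :
    ENNReal.ofReal (intrinsicVol j L) = ∫⁻ g, volume (lin g '' L) ∂(γk V j) := by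
  rw [intrinsicVol_eq, ofReal_integral_eq_lintegral_ofReal (integrable_vol hL)
    (ae_of_all _ fun g => ENNReal.toReal_nonneg)]
  exact lintegral_congr fun g =>
    ENNReal.ofReal_toReal (hL.image (lin g).continuous).measure_lt_top.ne

theorem brB_W {j : ℕ} (hj : j ≤ finrank ℝ V) {L : Set V} (hL : IsCompact L) :
    ENNReal.ofReal (intrinsicVol j L) = brD V j * brK hj L := by
  rw [brB_lint hL, brB_haar (measurable_vol hL)]
  simp only [brB_avg hj hL]
  rw [lintegral_mul_const _ (by fun_prop)]
  rfl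

theorem brB_W' {j : ℕ} (hj : j ≤ finrank ℝ V) {L : Set V} (hL : IsCompact L) :
    intrinsicVol j L = (brD V j).toReal * (brK hj L).toReal := by
  rw [← ENNReal.toReal_mul, ← brB_W hj hL, ENNReal.toReal_ofReal (intrinsicVol_nonneg _ _)]

theorem brB_img {j : ℕ} (y : V) (g : Fin j → V) (L : Set V) :
    lin g '' (pr y '' L) = lin (fun a => pr y (g a)) '' L := by
  rw [image_image]
  congr 1
  funext v a
  simp [inner_pr_comm]

theorem brB_rec {j : ℕ} (hj : j ≤ finrank ℝ V) {L : Set V} (hL : IsCompact L) :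
    ∫⁻ y, ENNReal.ofReal (‖y‖ * intrinsicVol j (pr y '' L)) ∂(stdGaussian V)
      = brD V (j + 1) * brK hj L := by
  have hF : Measurable fun x : Fin (j + 1) → V => ENNReal.ofReal ‖x 0‖
      * volume (lin (fun a : Fin j => pr (x 0) (x a.succ)) '' L) :=
    Measurable.mul (by fun_prop) ((measurable_vol hL).comp (by fun_prop))
  have h1 := brB_haar hF
  have h2 : ∀ x : Fin (j + 1) → V, ∫⁻ h, ENNReal.ofReal ‖ap h (x 0)‖
      * volume (lin (fun a : Fin j => pr (ap h (x 0)) (ap h (x a.succ))) '' L) ∂(haar V)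
      = ENNReal.ofReal (D x) * brK hj L := by
    intro x
    simp only [norm_ap, ← ap_pr]
    rw [lintegral_const_mul' _ _ ENNReal.ofReal_ne_top, brB_avg hj hL, D_succ x,
      ENNReal.ofReal_mul (norm_nonneg _), mul_assoc]
  simp only [h2] at h1
  rw [lintegral_mul_const _ (by fun_prop)] at h1
  rw [brD, ← h1, ← (mp_cons (k := j) (stdGaussian V)).lintegral_comp hF]
  refine Eq.trans ?_ (lintegral_prod _
    (hF.comp (mp_cons (k := j) (stdGaussian V)).measurable).aemeasurable).symm
  refine lintegral_congr fun y => ?_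
  simp only [Function.comp_apply, Fin.cons_zero, Fin.cons_succ]
  rw [lintegral_const_mul' _ _ ENNReal.ofReal_ne_top, ENNReal.ofReal_mul (norm_nonneg _),
    brB_lint (hL.image (kub_continuous_pr y))]
  simp only [brB_img]

theorem brB_meas {j : ℕ} {L : Set V} (hL : IsCompact L) :
    Measurable fun y : V => intrinsicVol j (pr y '' L) := by
  have h : Measurable fun p : V × (Fin j → V) =>
      (volume (lin (fun a => pr p.1 (p.2 a)) '' L)).toReal :=
    ((measurable_vol hL).comp (by fun_prop)).ennreal_toReal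
  simp only [intrinsicVol_eq, brB_img]
  exact h.stronglyMeasurable.integral_prod_right'.measurable

theorem brB_int {j : ℕ} {L : Set V} (hL : IsCompact L) :
    Integrable (fun y : V => ‖y‖ * intrinsicVol j (pr y '' L)) (stdGaussian V) := by
  obtain ⟨B, hB⟩ := exists_bound_proj j hL
  refine ((integrable_norm_pow (V := V) 1).mul_const B).mono'
    (measurable_norm.mul (brB_meas hL)).aestronglyMeasurable (ae_of_all _ fun y => ?_)
  rw [Real.norm_of_nonneg (mul_nonneg (norm_nonneg _) (intrinsicVol_nonneg _ _)), pow_one]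
  exact mul_le_mul_of_nonneg_left (hB y) (norm_nonneg _)

/-- Kubota recursion -/
theorem brB_kubota {j : ℕ} (hj : j + 1 ≤ finrank ℝ V) : ∃ c : ℝ, 0 < c ∧ ∀ L : Set V,
    IsCompact L →
      ∫ y, ‖y‖ * intrinsicVol j (pr y '' L) ∂(stdGaussian V) = c * intrinsicVol j L := by
  have hj' : j ≤ finrank ℝ V := by omega
  have h0 := brD_pos hj'
  refine ⟨(brD V (j + 1)).toReal / (brD V j).toReal, div_pos (brD_pos hj) h0, fun L hL => ?_⟩
  rw [integral_eq_lintegral_of_nonneg_ae
    (ae_of_all _ fun y => mul_nonneg (norm_nonneg _) (intrinsicVol_nonneg _ _))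
    (brB_int hL).aestronglyMeasurable, brB_rec hj' hL, brB_W' hj' hL, ENNReal.toReal_mul]
  field_simp

/-- top degree -/
theorem brB_top : ∃ c : ℝ, 0 < c ∧ ∀ L : Set V, IsCompact L →
    intrinsicVol (finrank ℝ V) L = c * (volume L).toReal := by
  refine ⟨(brD V (finrank ℝ V)).toReal, brD_pos le_rfl, fun L hL => ?_⟩
  rw [brB_W' le_rfl hL]
  congr 2
  have h : ∀ h : OG V, volume (lin (fun b => ap h (brE (le_refl (finrank ℝ V)) b)) '' L)
      = volume L := by
    intro h
    let b := (stdOrthonormalBasis ℝ V).map (Unitary.linearIsometryEquiv h)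
    have hm := (PiLp.volume_preserving_ofLp (Fin (finrank ℝ V))).comp b.measurePreserving_repr
    have e : (lin (fun b => ap h (brE (le_refl (finrank ℝ V)) b)) : V → _)
        = WithLp.ofLp ∘ b.repr := by
      funext v a
      simp only [lin_apply, Function.comp_apply, OrthonormalBasis.repr_apply_apply]
      rfl
    have hi : Function.Injective (WithLp.ofLp ∘ b.repr) :=
      (WithLp.ofLp_injective 2).comp b.repr.injective
    have hc : IsCompact ((WithLp.ofLp ∘ b.repr) '' L) := by
      rw [← e]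
      exact hL.image (lin _).continuous
    rw [e, ← hm.measure_preimage hc.measurableSet.nullMeasurableSet, preimage_image_eq _ hi]
  simp [brK, h]

theorem brB_zero {L : Set V} (hne : L.Nonempty) : intrinsicVol 0 L = 1 := by
  have h : ∀ g : Fin 0 → V, lin g '' L = univ := fun g => by
    obtain ⟨x, hx⟩ := hne
    exact eq_univ_of_forall fun y => ⟨x, hx, Subsingleton.elim _ _⟩
  simp [intrinsicVol_eq, h, volume_pi]

end Pool.Agent.P.MP_181257_gt
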