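import Pool.Agent.P.MP_181257_gt.DefsS
import Pool.Agent.P.MP_181257_gt.BridgeA
import Pool.Agent.P.MP_181257_gt.BridgeB

/-! Steiner's formula: the Gaussian mean projection volumes are multiples of the intrinsic
volumes. -/

set_option autoImplicit false
set_option linter.unusedSectionVars false

open MeasureTheory ProbabilityTheory Module Set Filter Topology
open scoped RealInnerProductSpace ENNReal Pointwise Matrix

noncomputable section

namespace Pool.Agent.P.MP_181257_gt

variable {V : Type} [NormedAddCommGroup V] [InnerProductSpace ℝ V] [FiniteDimensional ℝ V]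
  [MeasurableSpace V] [BorelSpace V]

theorem brC_meas {k : ℕ} {L : Set V} (hL : IsCompact L) :
    Measurable fun p : (Fin k → V) × V => shad (lin p.1 '' L) (lin p.1 p.2) := by
  have : CompactSpace L := isCompact_iff_compactSpace.1 hL
  have h := brA_meas_vol (X := (Fin k → V) × V) (K := L × Icc (-1 : ℝ) 1)
    (F := fun p => lin p.1.1 (p.2.1 : V) + (p.2.2 : ℝ) • lin p.1.1 p.1.2) (by
      refine continuous_pi fun j => ?_
      simp only [Pi.add_apply, Pi.smul_apply, lin_apply]
      fun_prop)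
  have e : ∀ p : (Fin k → V) × V, lin p.1 '' L + segment ℝ (-lin p.1 p.2) (lin p.1 p.2)
      = range fun q : L × Icc (-1 : ℝ) 1 => lin p.1 (q.1 : V) + (q.2 : ℝ) • lin p.1 p.2 := by
    intro p
    ext w
    constructor
    · rintro ⟨_, ⟨c, hc, rfl⟩, y, hy, rfl⟩
      obtain ⟨s, hs, rfl⟩ := (brA_mem_segment _ y).1 hy
      exact ⟨(⟨c, hc⟩, ⟨s, hs⟩), rfl⟩
    · rintro ⟨⟨⟨c, hc⟩, ⟨s, hs⟩⟩, rfl⟩
      exact ⟨_, ⟨c, hc, rfl⟩, s • lin p.1 p.2, (brA_mem_segment _ _).2 ⟨s, hs, rfl⟩, rfl⟩
  unfold shad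
  simp only [e, Measure.real]
  exact (h.ennreal_toReal.sub
    ((measurable_vol hL).comp measurable_fst).ennreal_toReal).div_const 2

theorem brC_slice {j : ℕ} {L : Set V} (hL : IsCompact L) (hc : Convex ℝ L) {y : V} (hy : y ≠ 0) :
    Integrable (fun g : Fin (j + 1) → V => shad (lin g '' L) (lin g y)) (γk V (j + 1)) ∧
    ∫ g, shad (lin g '' L) (lin g y) ∂(γk V (j + 1))
      = (aN (j + 1)).toReal * (‖y‖ * intrinsicVol j (pr y '' L)) := by
  have hn : 0 < ‖y‖ := norm_pos_iff.2 hy
  have hu : ‖‖y‖⁻¹ • y‖ = 1 := norm_smul_inv_norm hy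
  obtain ⟨h1, h2⟩ := integral_shad j hL hc hu
  have e : ∀ g : Fin (j + 1) → V, shad (lin g '' L) (lin g y)
      = ‖y‖ * shad (lin g '' L) (lin g (‖y‖⁻¹ • y)) := by
    intro g
    have hC : IsCompact (lin g '' L) := hL.image (lin g).continuous
    have hcv : Convex ℝ (lin g '' L) := hc.is_linear_image (lin g).toLinearMap.isLinear
    rw [← shadow_smul hcv hC.isBounded (Or.inr hC) _
      hn.le, ← map_smul, smul_smul, mul_inv_cancel₀ hn.ne', one_smul]
  have e2 : pr (‖y‖⁻¹ • y) = pr y := funext fun v => pr_smul_left (inv_ne_zero hn.ne') y v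
  simp only [e]
  refine ⟨h1.const_mul _, ?_⟩
  rw [integral_const_mul, h2, e2]
  ring

theorem brC_fubini {j : ℕ} (hn : 1 ≤ finrank ℝ V) {L : Set V} (hL : IsCompact L)
    (hc : Convex ℝ L) :
    Integrable (fun g : Fin (j + 1) → V => ∫ y, 2 * shad (lin g '' L) (lin g y) ∂(stdGaussian V))
      (γk V (j + 1)) ∧
    ∫ g, ∫ y, 2 * shad (lin g '' L) (lin g y) ∂(stdGaussian V) ∂(γk V (j + 1))
      = 2 * (aN (j + 1)).toReal * ∫ y, ‖y‖ * intrinsicVol j (pr y '' L) ∂(stdGaussian V) := by
  have hm := brC_meas (k := j + 1) hL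
  have hnn : ∀ (g : Fin (j + 1) → V) (y : V), 0 ≤ shad (lin g '' L) (lin g y) := fun g y => by
    have hC : IsCompact (lin g '' L) := hL.image (lin g).continuous
    exact shadow_nonneg (hc.is_linear_image (lin g).toLinearMap.isLinear) hC.isBounded
      (Or.inr hC) _
  have hI : Integrable (fun p : (Fin (j + 1) → V) × V => shad (lin p.1 '' L) (lin p.1 p.2))
      ((γk V (j + 1)).prod (stdGaussian V)) := by
    refine (integrable_prod_iff' hm.aestronglyMeasurable).2 ⟨?_, ?_⟩
    · filter_upwards [ae_ne_zero hn] with y hy using (brC_slice hL hc hy).1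
    · refine ((brB_int (j := j) hL).const_mul (aN (j + 1)).toReal).congr ?_
      filter_upwards [ae_ne_zero hn] with y hy
      rw [← (brC_slice hL hc hy).2]
      exact integral_congr_ae (ae_of_all _ fun g => (Real.norm_of_nonneg (hnn g y)).symm)
  simp only [integral_const_mul]
  refine ⟨hI.integral_prod_left.const_mul 2, ?_⟩
  have e : ∫ y, ∫ g, shad (lin g '' L) (lin g y) ∂(γk V (j + 1)) ∂(stdGaussian V)
      = ∫ y, (aN (j + 1)).toReal * (‖y‖ * intrinsicVol j (pr y '' L)) ∂(stdGaussian V) := by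
    refine integral_congr_ae ?_
    filter_upwards [ae_ne_zero hn] with y hy using (brC_slice hL hc hy).2
  rw [integral_integral_swap (f := fun (g : Fin (j + 1) → V) (y : V) =>
    shad (lin g '' L) (lin g y)) hI, e, integral_const_mul, mul_assoc]

theorem brC_isGreatest {k : ℕ} (g : Fin k → V) (ℓ : (Fin k → ℝ) →L[ℝ] ℝ) :
    IsGreatest (ℓ '' (lin g '' Metric.closedBall (0 : V) c0))
      (∫ y, |ℓ (lin g y)| ∂(stdGaussian V)) := by
  have := FiniteDimensional.complete ℝ V
  set w := (InnerProductSpace.toDual ℝ V).symm (ℓ.comp (lin g)) with hw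
  have h : ∀ y, ℓ (lin g y) = ⟪w, y⟫ := fun y => by
    rw [hw, InnerProductSpace.toDual_symm_apply]
    rfl
  simp only [h, image_image]
  rw [integral_abs_inner]
  constructor
  · by_cases hw0 : w = 0
    · exact ⟨0, Metric.mem_closedBall_self c0_pos.le, by simp [hw0]⟩
    · have hn : ‖w‖ ≠ 0 := norm_ne_zero_iff.2 hw0
      refine ⟨c0 • ‖w‖⁻¹ • w, ?_, ?_⟩
      · have hu : ‖‖w‖⁻¹ • w‖ = 1 := norm_smul_inv_norm hw0
        rw [mem_closedBall_zero_iff, norm_smul, hu, mul_one, Real.norm_of_nonneg c0_pos.le]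
      · simp only [real_inner_smul_right, real_inner_self_eq_norm_sq]
        field_simp
  · rintro _ ⟨x, hx, rfl⟩
    rw [mem_closedBall_zero_iff] at hx
    refine (real_inner_le_norm _ _).trans ?_
    rw [mul_comm]
    exact mul_le_mul_of_nonneg_right hx (norm_nonneg _)

theorem brC_sandwich {j : ℕ} (hj : j + 1 ≤ finrank ℝ V) : ∃ k : ℝ, 0 < k ∧ ∀ L : Set V,
    IsCompact L → Convex ℝ L → L.Nonempty → ∀ s : ℝ, 0 ≤ s →
      s * (k * intrinsicVol j L)
        ≤ intrinsicVol (j + 1) (Metric.cthickening s L) - intrinsicVol (j + 1) L ∧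
      intrinsicVol (j + 1) (Metric.cthickening s L) - intrinsicVol (j + 1) L
        ≤ s * (k * intrinsicVol j (Metric.cthickening s L)) := by
  obtain ⟨c, hc0, hc⟩ := brB_kubota hj
  have ha : 0 < (aN (j + 1)).toReal := ENNReal.toReal_pos (aN_ne_zero j) (aN_ne_top _)
  have h0 := c0_pos
  refine ⟨2 * (aN (j + 1)).toReal * c / c0, by positivity, fun L hL hcv hne s hs => ?_⟩
  have ht : 0 ≤ s / c0 := by positivity
  have hT : IsCompact (Metric.cthickening s L) := hL.cthickening
  have e : ∀ g : Fin (j + 1) → V, lin g '' L + (s / c0) • (lin g '' Metric.closedBall (0 : V) c0)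
      = lin g '' Metric.cthickening s L := by
    intro g
    have e1 : (s / c0) • Metric.closedBall (0 : V) c0 = Metric.closedBall (0 : V) s := by
      rw [smul_closedBall _ _ h0.le, smul_zero, Real.norm_of_nonneg ht, div_mul_cancel₀ _ h0.ne']
    rw [← hL.add_closedBall_zero hs, image_add, ← e1, image_smul_set]
  have key : ∀ g : Fin (j + 1) → V,
      s / c0 * ∫ y, 2 * shad (lin g '' L) (lin g y) ∂(stdGaussian V)
        ≤ (volume (lin g '' Metric.cthickening s L)).toReal - (volume (lin g '' L)).toReal ∧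
      (volume (lin g '' Metric.cthickening s L)).toReal - (volume (lin g '' L)).toReal
        ≤ s / c0 * ∫ y, 2 * shad (lin g '' Metric.cthickening s L) (lin g y) ∂(stdGaussian V) := by
    intro g
    have h := brA_sandwich (stdGaussian V) (Y := lin g) (lin g).continuous.measurable
      ((lin g).integrable_comp IsGaussian.integrable_id) (hL.image (lin g).continuous)
      (hcv.is_linear_image (lin g).toLinearMap.isLinear) (hne.image _)
      ((isCompact_closedBall (0 : V) c0).image (lin g).continuous)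
      ((convex_closedBall (0 : V) c0).is_linear_image (lin g).toLinearMap.isLinear)
      ⟨0, Metric.mem_closedBall_self h0.le, map_zero _⟩ (brC_isGreatest g) ht
    rw [e] at h
    exact h
  obtain ⟨i1, e1⟩ := brC_fubini (j := j) (by omega) hL hcv
  obtain ⟨i2, e2⟩ := brC_fubini (j := j) (by omega) hT (hcv.cthickening s)
  have i3 := (integrable_vol (k := j + 1) hT).sub (integrable_vol hL)
  have a1 := integral_mono (i1.const_mul (s / c0)) i3 fun g => (key g).1
  have a2 := integral_mono i3 (i2.const_mul (s / c0)) fun g => (key g).2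
  simp only [Pi.sub_apply] at a1 a2
  rw [integral_sub (integrable_vol hT) (integrable_vol hL), ← intrinsicVol_eq, ← intrinsicVol_eq,
    integral_const_mul] at a1 a2
  rw [e1, hc L hL] at a1
  rw [e2, hc _ hT] at a2
  constructor
  · refine le_trans (le_of_eq ?_) a1
    ring
  · refine a2.trans (le_of_eq ?_)
    ring

theorem brC_hasDeriv {f g : ℝ → ℝ} (hg : ContinuousOn g (Ici 0))
    (h : ∀ a b : ℝ, 0 ≤ a → a ≤ b → (b - a) * g a ≤ f b - f a ∧ f b - f a ≤ (b - a) * g b)
    {r : ℝ} (hr : 0 ≤ r) : HasDerivWithinAt f (g r) (Ici 0) r := by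
  rw [hasDerivWithinAt_iff_tendsto_slope]
  have h1 : Tendsto g (𝓝[Ici 0 \ {r}] r) (𝓝 (g r)) :=
    (hg r hr).tendsto.mono_left (nhdsWithin_mono _ diff_subset)
  have h2 : Tendsto (fun y => min (g r) (g y)) (𝓝[Ici 0 \ {r}] r) (𝓝 (g r)) := by
    simpa using (tendsto_const_nhds (x := g r)).min h1
  have h3 : Tendsto (fun y => max (g r) (g y)) (𝓝[Ici 0 \ {r}] r) (𝓝 (g r)) := by
    simpa using (tendsto_const_nhds (x := g r)).max h1
  have hb : ∀ y ∈ Ici (0 : ℝ) \ {r},
      min (g r) (g y) ≤ slope f r y ∧ slope f r y ≤ max (g r) (g y) := by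
    rintro y ⟨hy, hyr⟩
    rcases lt_or_gt_of_ne (show y ≠ r from hyr) with hl | hl
    · obtain ⟨a1, a2⟩ := h y r hy hl.le
      have hp : 0 < r - y := sub_pos.2 hl
      rw [slope_comm, slope_def_field]
      refine ⟨(min_le_right _ _).trans ?_, le_trans ?_ (le_max_left _ _)⟩
      · rw [le_div_iff₀ hp]
        linarith
      · rw [div_le_iff₀ hp]
        linarith
    · obtain ⟨a1, a2⟩ := h r y hr hl.le
      have hp : 0 < y - r := sub_pos.2 hl
      rw [slope_def_field]
      refine ⟨(min_le_left _ _).trans ?_, le_trans ?_ (le_max_right _ _)⟩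
      · rw [le_div_iff₀ hp]
        linarith
      · rw [div_le_iff₀ hp]
        linarith
  refine tendsto_of_tendsto_of_tendsto_of_le_of_le' h2 h3 ?_ ?_
  · filter_upwards [self_mem_nhdsWithin] with y hy using (hb y hy).1
  · filter_upwards [self_mem_nhdsWithin] with y hy using (hb y hy).2

theorem brC_iter {n : ℕ} {F : ℕ → ℝ → ℝ}
    (hF : ∀ j, j + 1 ≤ n → ∀ r : ℝ, 0 ≤ r → HasDerivWithinAt (F (j + 1)) (F j r) (Ici 0) r)
    (i : ℕ) : ∀ m : ℕ, i + m ≤ n → EqOn (iteratedDerivWithin m (F (i + m)) (Ici 0)) (F i) (Ici 0)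
  | 0, _ => by simp [EqOn]
  | m + 1, h => by
    rw [iteratedDerivWithin_succ']
    refine EqOn.trans (iteratedDerivWithin_congr fun r hr => ?_) (brC_iter hF i m (by omega))
    exact (hF (i + m) h r hr).derivWithin (uniqueDiffOn_Ici 0 r hr)

theorem brC_poly {n : ℕ} {F : ℕ → ℝ → ℝ} (h0 : ∀ r : ℝ, 0 ≤ r → F 0 r = F 0 0)
    (hF : ∀ j, j + 1 ≤ n → ∀ r : ℝ, 0 ≤ r → HasDerivWithinAt (F (j + 1)) (F j r) (Ici 0) r) :
    ∀ j : ℕ, j ≤ n → ∀ r : ℝ, 0 ≤ r →
      F j r = ∑ l ∈ Finset.range (j + 1), F (j - l) 0 / (l.factorial : ℝ) * r ^ l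
  | 0, _, r, hr => by simpa using h0 r hr
  | j + 1, h, r, hr => by
    have hd : ∀ x : ℝ, HasDerivAt (fun r : ℝ => ∑ l ∈ Finset.range (j + 1 + 1),
        F (j + 1 - l) 0 / (l.factorial : ℝ) * r ^ l)
        (∑ l ∈ Finset.range (j + 1), F (j - l) 0 / (l.factorial : ℝ) * x ^ l) x := by
      intro x
      have h1 := HasDerivAt.fun_sum (u := Finset.range (j + 1 + 1)) fun l _ =>
        (hasDerivAt_pow l x).const_mul (F (j + 1 - l) 0 / (l.factorial : ℝ))
      refine h1.congr_deriv ?_
      rw [Finset.sum_range_succ']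
      simp only [Nat.cast_zero, zero_mul, mul_zero, add_zero, Nat.add_sub_add_right,
        Nat.add_sub_cancel, Nat.factorial_succ]
      refine Finset.sum_congr rfl fun l _ => ?_
      push_cast
      field_simp
    refine eq_of_has_deriv_right_eq (a := 0) (b := r) (f' := F j)
      (fun x hx => (hF j h x hx.1).mono (Ici_subset_Ici.2 hx.1)) (fun x hx => ?_)
      (fun x hx => (hF j h x hx.1).continuousWithinAt.mono Icc_subset_Ici_self)
      (fun x _ => (hd x).continuousAt.continuousWithinAt) ?_ r ⟨hr, le_rfl⟩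
    · rw [brC_poly h0 hF j (by omega) x hx.1]
      exact (hd x).hasDerivWithinAt
    · rw [Finset.sum_range_succ']
      simp

theorem brC_family : ∃ P : ℕ → ℝ, (∀ j, 0 < P j) ∧ ∀ M : Set V, IsCompact M → Convex ℝ M →
    M.Nonempty → ∃ F : ℕ → ℝ → ℝ, (∀ j, F j 0 = P j * intrinsicVol j M) ∧
      (∀ r : ℝ, 0 ≤ r → F 0 r = F 0 0) ∧
      (∀ j, j + 1 ≤ finrank ℝ V → ∀ r : ℝ, 0 ≤ r →
        HasDerivWithinAt (F (j + 1)) (F j r) (Ici 0) r) ∧
      F (finrank ℝ V) = fun r : ℝ => (volume (Metric.cthickening r M)).toReal := by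
  have hk : ∀ j : ℕ, ∃ k : ℝ, 0 < k ∧ (j + 1 ≤ finrank ℝ V → ∀ L : Set V,
      IsCompact L → Convex ℝ L → L.Nonempty → ∀ s : ℝ, 0 ≤ s →
      s * (k * intrinsicVol j L)
        ≤ intrinsicVol (j + 1) (Metric.cthickening s L) - intrinsicVol (j + 1) L ∧
      intrinsicVol (j + 1) (Metric.cthickening s L) - intrinsicVol (j + 1) L
        ≤ s * (k * intrinsicVol j (Metric.cthickening s L))) := by
    intro j
    by_cases hj : j + 1 ≤ finrank ℝ V
    · obtain ⟨k, h0, h⟩ := brC_sandwich hj
      exact ⟨k, h0, fun _ => h⟩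
    · exact ⟨1, one_pos, fun h => absurd h hj⟩
  choose k hk0 hk using hk
  obtain ⟨c, hc0, hc⟩ := brB_top (V := V)
  have hQ : ∀ j, 0 < ∏ l ∈ Finset.range j, k l := fun j => Finset.prod_pos fun l _ => hk0 l
  refine ⟨fun j => (∏ l ∈ Finset.range (finrank ℝ V), k l) / (c * ∏ l ∈ Finset.range j, k l),
    fun j => div_pos (hQ _) (mul_pos hc0 (hQ j)), fun M hM hcv hne => ?_⟩
  have hT : ∀ r : ℝ, IsCompact (Metric.cthickening r M) := fun r => hM.cthickening
  have hN : ∀ r : ℝ, (Metric.cthickening r M).Nonempty := fun r =>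
    hne.mono (Metric.self_subset_cthickening M)
  have hder : ∀ j, j + 1 ≤ finrank ℝ V →
      ContinuousOn (fun r : ℝ => intrinsicVol j (Metric.cthickening r M)) (Ici 0) →
      ∀ r : ℝ, 0 ≤ r → HasDerivWithinAt (fun r : ℝ => intrinsicVol (j + 1) (Metric.cthickening r M))
        (k j * intrinsicVol j (Metric.cthickening r M)) (Ici 0) r := by
    intro j hj hcont r hr
    refine brC_hasDeriv (g := fun r : ℝ => k j * intrinsicVol j (Metric.cthickening r M))
      (continuousOn_const.mul hcont) (fun a b ha hab => ?_) hr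
    have h := hk j hj _ (hT a) (hcv.cthickening a) (hN a) (b - a) (sub_nonneg.2 hab)
    rwa [cthickening_cthickening (sub_nonneg.2 hab) ha, sub_add_cancel] at h
  have hcont : ∀ j, j ≤ finrank ℝ V →
      ContinuousOn (fun r : ℝ => intrinsicVol j (Metric.cthickening r M)) (Ici 0) := by
    intro j
    induction j with
    | zero =>
      intro _
      simp only [brB_zero (hN _)]
      exact continuousOn_const
    | succ j ih => exact fun hj r hr => (hder j hj (ih (by omega)) r hr).continuousWithinAt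
  refine ⟨fun j r => (∏ l ∈ Finset.range (finrank ℝ V), k l) / (c * ∏ l ∈ Finset.range j, k l)
    * intrinsicVol j (Metric.cthickening r M), fun j => ?_, fun r _ => ?_, fun j hj r hr => ?_, ?_⟩
  · simp only [Metric.cthickening_zero, hM.isClosed.closure_eq]
  · simp only [brB_zero (hN _)]
  · refine ((hder j hj (hcont j (by omega)) r hr).const_mul _).congr_deriv ?_
    have h1 := (hQ j).ne'
    have h2 := (hk0 j).ne'
    rw [Finset.prod_range_succ]
    field_simp
  · funext r
    have h1 := (hQ (finrank ℝ V)).ne'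
    simp only [hc _ (hT r)]
    field_simp

theorem ballVol_pos (m : ℕ) : 0 < ballVol m :=
  ENNReal.toReal_pos (Metric.measure_closedBall_pos _ _ one_pos).ne' measure_closedBall_lt_top.ne

/-- the Steiner coefficient is a fixed positive multiple of the Gaussian mean projection volume -/
theorem steinerVol_eq {i : ℕ} (hi : i ≤ finrank ℝ V) : ∃ c : ℝ, 0 < c ∧ ∀ M : Set V,
    IsCompact M → Convex ℝ M → M.Nonempty → steinerVol i M = c * intrinsicVol i M := by
  obtain ⟨P, hP, h⟩ := brC_family (V := V)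
  have hb := ballVol_pos (finrank ℝ V - i)
  have hp := hP i
  refine ⟨P i / (((finrank ℝ V - i).factorial : ℝ) * ballVol (finrank ℝ V - i)), by positivity,
    fun M hM hcv hne => ?_⟩
  obtain ⟨F, h1, -, h3, h4⟩ := h M hM hcv hne
  have h5 := brC_iter h3 i (finrank ℝ V - i) (by omega) (mem_Ici.2 le_rfl)
  rw [Nat.add_sub_cancel' hi, h4, h1] at h5
  rw [steinerVol, h5]
  ring

/-- Steiner's formula -/
theorem steiner_formula {M : Set V} (hM : IsCompact M) (hcv : Convex ℝ M) (hne : M.Nonempty)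
    {r : ℝ} (hr : 0 ≤ r) :
    (volume (Metric.cthickening r M)).toReal = ∑ j ∈ Finset.range (finrank ℝ V + 1),
      ballVol (finrank ℝ V - j) * steinerVol j M * r ^ (finrank ℝ V - j) := by
  obtain ⟨P, -, h⟩ := brC_family (V := V)
  obtain ⟨F, -, h2, h3, h4⟩ := h M hM hcv hne
  have h6 := brC_poly h2 h3 _ le_rfl r hr
  rw [h4] at h6
  simp only at h6
  rw [h6, ← Finset.sum_range_reflect]
  refine Finset.sum_congr rfl fun j hj => ?_
  have hj' : j ≤ finrank ℝ V := Nat.lt_succ_iff.1 (Finset.mem_range.1 hj)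
  have h5 := brC_iter h3 j (finrank ℝ V - j) (by omega) (mem_Ici.2 le_rfl)
  rw [Nat.add_sub_cancel' hj', h4] at h5
  have hb := (ballVol_pos (finrank ℝ V - j)).ne'
  have e1 : finrank ℝ V + 1 - 1 - j = finrank ℝ V - j := by omega
  have e2 : finrank ℝ V - (finrank ℝ V - j) = j := by omega
  rw [steinerVol, h5, e1, e2]
  field_simp

theorem projBodyS_eq {i : ℕ} (hi : i ≤ finrank ℝ V) : ∃ c : ℝ, 0 < c ∧ ∀ K : Set V,
    IsCompact K → Convex ℝ K → K.Nonempty → projBodyS i K = c • projBody i K := by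
  obtain ⟨c, hc, h⟩ := steinerVol_eq hi
  refine ⟨c, hc, fun K hK hcv hne => ?_⟩
  rw [projBody_eq, ← Zs_smul _ hc]
  ext x
  simp only [projBodyS, Zs, mem_ofPred_eq]
  refine forall_congr' fun u => forall_congr' fun _ => ?_
  have e : ((ℝ ∙ u)ᗮ.starProjection : V → V) = pr u := funext fun v => starProjection_eq_pr u v
  have e2 : pr u = prL u := funext fun v => (prL_apply u v).symm
  rw [e, h _ (hK.image (kub_continuous_pr u))
    (by rw [e2]; exact hcv.is_linear_image (prL u).toLinearMap.isLinear) (hne.image _)]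

theorem projBody_smul (i : ℕ) (K : Set V) {t : ℝ} (ht : 0 < t) :
    projBody i (t • K) = t ^ i • projBody i K := by
  rw [projBody_eq, projBody_eq, ← Zs_smul _ (pow_pos ht i)]
  congr 1
  funext u
  have e2 : pr u = prL u := funext fun v => (prL_apply u v).symm
  rw [← intrinsicVol_smul i _ ht.le, e2, image_smul_set]

theorem projBodyS_sq {i : ℕ} (hi : i ≤ finrank ℝ V) : ∃ c : ℝ, 0 < c ∧ ∀ K : Set V,
    IsCompact K → Convex ℝ K → K.Nonempty →
      projBodyS i (projBodyS i K) = c • projBody i (projBody i K) := by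
  obtain ⟨c, hc, h⟩ := projBodyS_eq hi
  refine ⟨c * c ^ i, by positivity, fun K hK hcv hne => ?_⟩
  obtain ⟨B, hB⟩ := exists_bound_proj i hK
  have h1 : IsCompact (projBody i K) := by
    rw [projBody_eq]
    exact isCompact_Zs fun u _ => hB u
  have h2 : Convex ℝ (projBody i K) := by
    rw [projBody_eq]
    exact convex_Zs _
  have h3 : (projBody i K).Nonempty := by
    rw [projBody_eq]
    exact ⟨0, fun u _ => by simpa using intrinsicVol_nonneg i _⟩
  rw [h K hK hcv hne, h _ (h1.smul c) (h2.smul c) h3.smul_set, projBody_smul i _ hc, smul_smul]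

/-- the fixed point equation does not depend on the normalisation of the intrinsic volume -/
theorem fixed_iff {i : ℕ} (hi : i ≤ finrank ℝ V) {K : Set V} (hK : IsCompact K) (hcv : Convex ℝ K)
    (hne : K.Nonempty) :
    (∃ (x : V) (lam : ℝ), 0 < lam ∧ K = x +ᵥ lam • projBodyS i (projBodyS i K)) ↔
      ∃ (x : V) (lam : ℝ), 0 < lam ∧ K = x +ᵥ lam • projBody i (projBody i K) := by
  obtain ⟨c, hc, h⟩ := projBodyS_sq hi
  rw [h K hK hcv hne]
  constructor
  · rintro ⟨x, lam, hl, e⟩
    exact ⟨x, lam * c, by positivity, by rwa [smul_smul] at e⟩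
  · rintro ⟨x, lam, hl, e⟩
    exact ⟨x, lam / c, by positivity, by rwa [smul_smul, div_mul_cancel₀ _ hc.ne']⟩

end Pool.Agent.P.MP_181257_gt
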