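import Mathlib

set_option autoImplicit false

open MeasureTheory ProbabilityTheory
open scoped RealInnerProductSpace

noncomputable section

namespace Pool.Agent.P.MP_181257_gt

variable {V : Type} [NormedAddCommGroup V] [InnerProductSpace ℝ V] [FiniteDimensional ℝ V]
  [MeasurableSpace V] [BorelSpace V]

/-- The `i`-th intrinsic volume up to a positive factor depending only on `i`, by Kubota's formula
in Tsirelson's form: the mean `i`-dimensional volume of the image of `M` under
`x ↦ (⟪g₁, x⟫, …, ⟪g_i, x⟫)`, where `g₁, …, g_i` are independent standard Gaussian vectors. -/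
def intrinsicVol (i : ℕ) (M : Set V) : ℝ :=
  ∫ g : Fin i → V, (volume ((fun x : V => fun j : Fin i => ⟪g j, x⟫) '' M)).toReal
    ∂(Measure.pi fun _ : Fin i => stdGaussian V)

/-- The `i`-th projection body: the set cut out by the support function
`u ↦ V_i (K | u^⊥)` on the unit sphere. -/
def projBody (i : ℕ) (K : Set V) : Set V :=
  {x | ∀ u : V, ‖u‖ = 1 → ⟪x, u⟫ ≤ intrinsicVol i ((ℝ ∙ u)ᗮ.starProjection '' K)}

end Pool.Agent.P.MP_181257_gt
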