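import Pool.Agent.P.MP_181257_gt.Basic

/-! Gaussian measure: linear images, density, radial law. -/

set_option autoImplicit false
set_option linter.unusedSectionVars false

open MeasureTheory ProbabilityTheory Module Set Filter Topology
open scoped RealInnerProductSpace ENNReal Pointwise Matrix

noncomputable section

namespace Pool.Agent.P.MP_181257_gt

variable {V : Type} [NormedAddCommGroup V] [InnerProductSpace ℝ V] [FiniteDimensional ℝ V]
  [MeasurableSpace V] [BorelSpace V]

section two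
variable {H₁ H₂ : Type} [NormedAddCommGroup H₁] [InnerProductSpace ℝ H₁] [FiniteDimensional ℝ H₁]
  [MeasurableSpace H₁] [BorelSpace H₁] [NormedAddCommGroup H₂] [InnerProductSpace ℝ H₂]
  [FiniteDimensional ℝ H₂] [MeasurableSpace H₂] [BorelSpace H₂]

/-- image of the standard Gaussian under a map with isometric adjoint -/
theorem mp_coiso (T : H₁ → V) (hT : Measurable T) (S : V → H₁)
    (hS : ∀ z t, ⟪T z, t⟫ = ⟪z, S t⟫) (hc : ∀ t, ‖S t‖ = ‖t‖) :
    MeasurePreserving T (stdGaussian H₁) (stdGaussian V) := by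
  refine ⟨hT, ?_⟩
  have : IsProbabilityMeasure ((stdGaussian H₁).map T) :=
    Measure.isProbabilityMeasure_map hT.aemeasurable
  apply Measure.ext_of_charFun
  ext t
  rw [charFun_stdGaussian, charFun_apply, integral_map hT.aemeasurable (by fun_prop)]
  simp_rw [hS]
  rw [← charFun_apply, charFun_stdGaussian, hc]

theorem mp_split (T₁ : H₁ → V) (T₂ : H₂ → V) (h₁ : Measurable T₁) (h₂ : Measurable T₂)
    (S₁ : V → H₁) (S₂ : V → H₂)
    (hs₁ : ∀ z t, ⟪T₁ z, t⟫ = ⟪z, S₁ t⟫) (hs₂ : ∀ z t, ⟪T₂ z, t⟫ = ⟪z, S₂ t⟫)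
    (hn : ∀ t, ‖S₁ t‖ ^ 2 + ‖S₂ t‖ ^ 2 = ‖t‖ ^ 2) :
    MeasurePreserving (fun q : H₁ × H₂ => T₁ q.1 + T₂ q.2)
      ((stdGaussian H₁).prod (stdGaussian H₂)) (stdGaussian V) := by
  have hm : Measurable (fun q : H₁ × H₂ => T₁ q.1 + T₂ q.2) := by fun_prop
  refine ⟨hm, ?_⟩
  have : IsProbabilityMeasure (((stdGaussian H₁).prod (stdGaussian H₂)).map
      (fun q => T₁ q.1 + T₂ q.2)) := Measure.isProbabilityMeasure_map hm.aemeasurable
  apply Measure.ext_of_charFun
  ext t
  rw [charFun_stdGaussian, charFun_apply, integral_map hm.aemeasurable (by fun_prop)]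
  simp_rw [inner_add_left, hs₁, hs₂, Complex.ofReal_add, add_mul, Complex.exp_add]
  rw [integral_prod_mul (fun z : H₁ => Complex.exp ((⟪z, S₁ t⟫ : ℝ) * Complex.I))
    (fun z : H₂ => Complex.exp ((⟪z, S₂ t⟫ : ℝ) * Complex.I)), ← charFun_apply, ← charFun_apply,
    charFun_stdGaussian, charFun_stdGaussian, ← Complex.exp_add]
  congr 1
  have := hn t
  have h2 : ((‖t‖ : ℂ)) ^ 2 = (‖S₁ t‖ : ℂ) ^ 2 + (‖S₂ t‖ : ℂ) ^ 2 := by
    exact_mod_cast this.symm
  rw [h2]; ring

end two

theorem stdGaussian_real : stdGaussian ℝ = gaussianReal 0 1 := by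
  apply Measure.ext_of_charFun
  ext t
  rw [charFun_stdGaussian, charFun_gaussianReal]
  congr 1
  have : ((‖t‖ : ℝ) : ℂ) ^ 2 = (t : ℂ) ^ 2 := by
    rw [← Complex.ofReal_pow, Real.norm_eq_abs, sq_abs, Complex.ofReal_pow]
  rw [this]; simp; ring

/-- splitting along a unit vector, ambient form -/
theorem mp_pr_split {u : V} (hu : ‖u‖ = 1) :
    MeasurePreserving (fun q : V × ℝ => pr u q.1 + q.2 • u)
      ((stdGaussian V).prod (gaussianReal 0 1)) (stdGaussian V) := by
  rw [← stdGaussian_real]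
  refine mp_split (pr u) (fun t : ℝ => t • u) (by fun_prop) (by fun_prop) (pr u)
    (fun t => ⟪u, t⟫) (inner_pr_comm u) (fun z t => ?_) (fun t => ?_)
  · rw [real_inner_smul_left]; simp [mul_comm]
  · rw [norm_sq_pr, hu, Real.norm_eq_abs, sq_abs]; ring

/-- splitting along a unit vector `e` parallel to `a`, with the hyperplane as a type -/
theorem mp_sub_split {a e : V} (he : ‖e‖ = 1) (hae : a = ‖a‖ • e) (ha : a ≠ 0) :
    MeasurePreserving (fun q : (ℝ ∙ a)ᗮ × ℝ => (q.1 : V) + q.2 • e)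
      ((stdGaussian (ℝ ∙ a)ᗮ).prod (gaussianReal 0 1)) (stdGaussian V) := by
  rw [← stdGaussian_real]
  have hna : ‖a‖ ≠ 0 := norm_ne_zero_iff.2 ha
  refine mp_split (fun z : (ℝ ∙ a)ᗮ => (z : V)) (fun t : ℝ => t • e) measurable_subtype_coe
    (by fun_prop) (fun v => ⟨pr a v,
      Submodule.mem_orthogonal_singleton_iff_inner_right.2 (inner_pr_self a v)⟩)
    (fun t => ⟪e, t⟫) (fun z t => ?_) (fun z t => ?_) (fun t => ?_)
  · have hz : ⟪a, (z : V)⟫ = 0 := Submodule.mem_orthogonal_singleton_iff_inner_right.1 z.2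
    rw [Submodule.coe_inner, ← inner_pr_comm, pr_of_inner_eq_zero hz]
  · rw [real_inner_smul_left]; simp [mul_comm]
  · have h1 : ⟪a, t⟫ = ‖a‖ * ⟪e, t⟫ := by
      conv_lhs => rw [hae]
      rw [real_inner_smul_left]
    show ‖pr a t‖ ^ 2 + _ = _
    rw [norm_sq_pr, h1, Real.norm_eq_abs, sq_abs]
    field_simp
    ring

/-- the projection to a hyperplane, as an element of the hyperplane -/
def prS (a v : V) : (ℝ ∙ a)ᗮ :=
  ⟨pr a v, Submodule.mem_orthogonal_singleton_iff_inner_right.2 (inner_pr_self a v)⟩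

@[simp] theorem coe_prS (a v : V) : (prS a v : V) = pr a v := rfl

theorem mp_prS (a : V) : MeasurePreserving (prS a) (stdGaussian V) (stdGaussian (ℝ ∙ a)ᗮ) := by
  refine mp_coiso (prS a) (Measurable.subtype_mk (by fun_prop)) (fun z => (z : V))
    (fun z t => ?_) (fun t => rfl)
  have ht : ⟪a, (t : V)⟫ = 0 := Submodule.mem_orthogonal_singleton_iff_inner_right.1 t.2
  rw [Submodule.coe_inner, coe_prS, inner_pr_comm, pr_of_inner_eq_zero ht]

theorem finrank_orth {a : V} (ha : a ≠ 0) : finrank ℝ (ℝ ∙ a)ᗮ + 1 = finrank ℝ V := by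
  have h := Submodule.finrank_add_finrank_orthogonal (ℝ ∙ a)
  rw [finrank_span_singleton ha] at h
  omega

theorem mp_pi_split {k : ℕ} {A B : Type} [MeasurableSpace A] [MeasurableSpace B] {μ : Measure A}
    {ν : Measure B} [IsProbabilityMeasure μ] [IsProbabilityMeasure ν] {T : A × B → V}
    (hT : MeasurePreserving T (μ.prod ν) (stdGaussian V)) :
    MeasurePreserving (fun q : (Fin k → A) × (Fin k → B) => fun j => T (q.1 j, q.2 j))
      ((Measure.pi fun _ => μ).prod (Measure.pi fun _ => ν)) (γk V k) := by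
  have h1 := (measurePreserving_arrowProdEquivProdArrow A B (Fin k) (fun _ => μ)
    (fun _ => ν)).symm
  have h2 := measurePreserving_pi (fun _ : Fin k => μ.prod ν) (fun _ => stdGaussian V)
    (f := fun _ => T) (fun _ => hT)
  exact h2.comp h1

/-- `Fin.cons` as a measure preserving map -/
theorem mp_cons {k : ℕ} {A : Type} [MeasurableSpace A] (μ : Measure A) [SigmaFinite μ] :
    MeasurePreserving (fun q : A × (Fin k → A) => (Fin.cons q.1 q.2 : Fin (k + 1) → A))
      (μ.prod (Measure.pi fun _ => μ)) (Measure.pi fun _ => μ) := by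
  have h1 := (measurePreserving_piFinSuccAbove (fun _ : Fin (k + 1) => μ) 0).symm
  convert h1 using 1
  funext q
  simp [MeasurableEquiv.piFinSuccAbove, Fin.insertNthEquiv]

theorem mp_perm {k : ℕ} {A : Type} [MeasurableSpace A] (μ : Measure A) [SigmaFinite μ]
    (σ : Equiv.Perm (Fin k)) :
    MeasurePreserving (fun x : Fin k → A => fun j => x (σ j))
      (Measure.pi fun _ => μ) (Measure.pi fun _ => μ) := by
  have h1 := measurePreserving_arrowCongr' (fun _ : Fin k => μ) (fun _ : Fin k => μ) σ.symm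
    (MeasurableEquiv.refl A) (fun _ => MeasurePreserving.id μ)
  exact h1

theorem stdGaussian_eq_withDensity : stdGaussian V = (volume : Measure V).withDensity fun x =>
    ENNReal.ofReal ((2 * Real.pi) ^ (-(finrank ℝ V : ℝ) / 2) * Real.exp (-‖x‖ ^ 2 / 2)) := by
  set c : ℝ := (2 * Real.pi) ^ (-(finrank ℝ V : ℝ) / 2) with hc
  have hpi := Real.pi_pos
  have hc0 : 0 < c := Real.rpow_pos_of_pos (by positivity) _
  have hb : 0 < ((1 / 2 : ℂ)).re := by norm_num
  have hint : Integrable (fun x : V => c * Real.exp (-‖x‖ ^ 2 / 2)) volume := by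
    have h := (GaussianFourier.integrable_cexp_neg_mul_sq_norm_add hb 0 (0 : V)).norm
    refine (h.congr (ae_of_all _ fun x => ?_)).const_mul c
    simp only [zero_mul, add_zero, Complex.norm_exp]
    congr 1
    have : -(1 / 2 : ℂ) * (‖x‖ : ℂ) ^ 2 = ((-‖x‖ ^ 2 / 2 : ℝ) : ℂ) := by push_cast; ring
    rw [this, Complex.ofReal_re]
  have : IsFiniteMeasure ((volume : Measure V).withDensity fun x =>
      ENNReal.ofReal (c * Real.exp (-‖x‖ ^ 2 / 2))) :=
    isFiniteMeasure_withDensity_ofReal hint.2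
  apply Measure.ext_of_charFun
  ext t
  rw [charFun_stdGaussian, charFun_apply, integral_withDensity_eq_integral_toReal_smul
    (by fun_prop) (ae_of_all _ fun x => ENNReal.ofReal_lt_top)]
  have h1 : ∀ x : V, (ENNReal.ofReal (c * Real.exp (-‖x‖ ^ 2 / 2))).toReal •
      Complex.exp ((⟪x, t⟫ : ℝ) * Complex.I)
      = (c : ℂ) * Complex.exp (-(1 / 2 : ℂ) * (‖x‖ : ℂ) ^ 2 + Complex.I * (⟪t, x⟫ : ℝ)) := by
    intro x
    rw [ENNReal.toReal_ofReal (by positivity), Complex.real_smul, Complex.exp_add,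
      real_inner_comm x t]
    push_cast
    rw [mul_assoc]
    congr 3 <;> ring
  simp_rw [h1]
  rw [integral_const_mul, GaussianFourier.integral_cexp_neg_mul_sq_norm_add hb, ← mul_assoc]
  have h2 : (c : ℂ) * ((Real.pi : ℂ) / (1 / 2)) ^ ((finrank ℝ V : ℂ) / 2) = 1 := by
    have e1 : ((Real.pi : ℂ) / (1 / 2)) = ((2 * Real.pi : ℝ) : ℂ) := by push_cast; ring
    have e2 : ((finrank ℝ V : ℂ) / 2) = (((finrank ℝ V : ℝ) / 2 : ℝ) : ℂ) := by push_cast; ring
    rw [e1, e2, ← Complex.ofReal_cpow (by positivity), ← Complex.ofReal_mul, hc,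
      ← Real.rpow_add (by positivity)]
    have : -(finrank ℝ V : ℝ) / 2 + (finrank ℝ V : ℝ) / 2 = 0 := by ring
    rw [this]; simp
  rw [h2, one_mul, Complex.I_sq]
  congr 1
  ring

theorem ae_inner_ne_zero {a : V} (ha : a ≠ 0) : ∀ᵐ x ∂(stdGaussian V), ⟪a, x⟫ ≠ 0 := by
  have hna : ‖a‖ ≠ 0 := norm_ne_zero_iff.2 ha
  have hm := mp_coiso (fun x : V => ⟪‖a‖⁻¹ • a, x⟫) (by fun_prop) (fun t : ℝ => t • ‖a‖⁻¹ • a)
    (fun z t => by rw [real_inner_smul_right, real_inner_comm z]; simp)
    (fun t => by simp [norm_smul, hna])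
  rw [stdGaussian_real] at hm
  have := nullSingletonClass_gaussianReal (μ := 0) (v := 1) (by norm_num)
  have h0 : ∀ᵐ t ∂(gaussianReal 0 1), t ≠ 0 := by
    rw [ae_iff]; simp
  filter_upwards [hm.quasiMeasurePreserving.ae h0] with x hx h
  exact hx (by rw [real_inner_smul_left, h, mul_zero])

theorem ae_ne_zero (hn : 1 ≤ finrank ℝ V) : ∀ᵐ x ∂(stdGaussian V), x ≠ 0 := by
  have : Nontrivial V := Module.finrank_pos_iff.1 hn
  obtain ⟨a, ha⟩ := exists_ne (0 : V)
  filter_upwards [ae_inner_ne_zero ha] with x hx h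
  exact hx (by rw [h, inner_zero_right])

/-- the radial integral in dimension `n` -/
def rad (n : ℕ) (ψ : ℝ → ℝ≥0∞) : ℝ≥0∞ :=
  ∫⁻ r in Ioi (0 : ℝ), ψ r * ENNReal.ofReal (r ^ (n - 1) * Real.exp (-r ^ 2 / 2))

theorem rad_one_ne_zero (n : ℕ) : rad n (fun _ => 1) ≠ 0 := by
  unfold rad
  intro h
  rw [lintegral_eq_zero_iff (by fun_prop)] at h
  have h1 : ∀ᵐ r ∂(volume.restrict (Ioi (0 : ℝ))), False := by
    filter_upwards [h, ae_restrict_mem measurableSet_Ioi] with r hr hr0
    have hr1 : 0 < r := hr0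
    have : 0 < r ^ (n - 1) * Real.exp (-r ^ 2 / 2) := by positivity
    simp only [one_mul, Pi.zero_apply, ENNReal.ofReal_eq_zero] at hr
    linarith
  rw [eventually_false_iff_eq_bot, ae_eq_bot, Measure.restrict_eq_zero] at h1
  simp at h1

theorem rad_one_ne_top (n : ℕ) : rad n (fun _ => 1) ≠ ∞ := by
  unfold rad
  have hi : IntegrableOn (fun r : ℝ => r ^ (n - 1) * Real.exp (-r ^ 2 / 2)) (Ioi 0) := by
    have h := integrableOn_rpow_mul_exp_neg_mul_sq (b := 1 / 2) (by norm_num)
      (s := ((n - 1 : ℕ) : ℝ)) (by have := Nat.cast_nonneg (α := ℝ) (n - 1); linarith)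
    refine h.congr_fun (fun r _ => ?_) measurableSet_Ioi
    simp only [Real.rpow_natCast]
    congr 2
    ring
  simp only [one_mul]
  exact (hi.lintegral_lt_top).ne

theorem lintegral_norm_rad (hn : 1 ≤ finrank ℝ V) {ψ : ℝ → ℝ≥0∞} (hψ : Measurable ψ) :
    (∫⁻ x, ψ ‖x‖ ∂(stdGaussian V)) * rad (finrank ℝ V) (fun _ => 1) = rad (finrank ℝ V) ψ := by
  have : Nontrivial V := Module.finrank_pos_iff.1 hn
  set c : ℝ := (2 * Real.pi) ^ (-(finrank ℝ V : ℝ) / 2) with hc
  have hpi := Real.pi_pos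
  have hc0 : 0 < c := Real.rpow_pos_of_pos (by positivity) _
  have key : ∀ φ : ℝ → ℝ≥0∞, Measurable φ → ∫⁻ x, φ ‖x‖ ∂(stdGaussian V) =
      ((volume : Measure V).toSphere univ * ENNReal.ofReal c) * rad (finrank ℝ V) φ := by
    intro φ hφ
    set f : ℝ → ℝ≥0∞ := fun r => ENNReal.ofReal (c * Real.exp (-r ^ 2 / 2)) * φ r with hf
    have hfm : Measurable f := by rw [hf]; fun_prop
    rw [stdGaussian_eq_withDensity, lintegral_withDensity_eq_lintegral_mul _ (by fun_prop)
      (by fun_prop)]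
    calc ∫⁻ x : V, ((fun x : V => ENNReal.ofReal (c * Real.exp (-‖x‖ ^ 2 / 2))) *
          fun x : V => φ ‖x‖) x
        = ∫⁻ x : ({(0)}ᶜ : Set V), f ‖x.1‖ ∂((volume : Measure V).comap (↑)) := by
          rw [lintegral_subtype_comap (measurableSet_singleton _).compl fun x => f ‖x‖,
            restrict_compl_singleton]
          rfl
      _ = ∫⁻ x, f x.2 ∂((volume : Measure V).toSphere.prod
            (Measure.volumeIoiPow (finrank ℝ V - 1))) := by
          simpa using (volume : Measure V).measurePreserving_homeomorphUnitSphereProd.lintegral_comp_emb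
            (Homeomorph.measurableEmbedding _) (f ∘ Subtype.val ∘ Prod.snd)
      _ = (volume : Measure V).toSphere univ *
            ∫⁻ x : Ioi (0 : ℝ), f x ∂(Measure.volumeIoiPow (finrank ℝ V - 1)) := by
          rw [lintegral_prod _ (by fun_prop)]
          simp only [lintegral_const]
          rw [mul_comm]
      _ = _ := by
          rw [mul_assoc]
          congr 1
          rw [Measure.volumeIoiPow, lintegral_withDensity_eq_lintegral_mul _ (by fun_prop)
            (by fun_prop)]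
          have e := lintegral_subtype_comap (μ := volume) (measurableSet_Ioi (a := (0 : ℝ)))
            fun r => ENNReal.ofReal (r ^ (finrank ℝ V - 1)) * f r
          simp only [Pi.mul_apply]
          rw [e, rad, ← lintegral_const_mul _ (by fun_prop)]
          refine setLIntegral_congr_fun measurableSet_Ioi fun r hr => ?_
          have hr1 : 0 < r := hr
          simp only [hf]
          rw [ENNReal.ofReal_mul hc0.le, ENNReal.ofReal_mul (by positivity)]
          ring
  have h1 := key (fun _ => 1) measurable_const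
  rw [lintegral_const, measure_univ, mul_one] at h1
  rw [key ψ hψ, mul_right_comm, ← h1, one_mul]

/-- the first absolute moment of the standard normal law -/
def c0 : ℝ := ∫ t, |t| ∂(gaussianReal 0 1)

theorem c0_pos : 0 < c0 := by
  unfold c0
  have hi : Integrable (fun t : ℝ => |t|) (gaussianReal 0 1) := by
    have := (memLp_id_gaussianReal (μ := 0) (v := 1) 1)
    rw [ENNReal.coe_one, memLp_one_iff_integrable] at this
    exact this.abs
  rw [integral_pos_iff_support_of_nonneg (fun t => abs_nonneg t) hi]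
  have := nullSingletonClass_gaussianReal (μ := 0) (v := 1) (by norm_num)
  have h : Function.support (fun t : ℝ => |t|) = {0}ᶜ := by
    ext t; simp
  rw [h, prob_compl_eq_one_sub (measurableSet_singleton _), measure_singleton]
  simp

theorem integrable_abs_inner (w : V) : Integrable (fun x => |⟪w, x⟫|) (stdGaussian V) := by
  have h := (integrable_norm_pow (V := V) 1).const_mul ‖w‖
  refine h.mono' (by fun_prop) (ae_of_all _ fun x => ?_)
  rw [Real.norm_eq_abs, abs_abs, pow_one]
  exact abs_real_inner_le_norm w x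

theorem integral_abs_inner (w : V) : ∫ x, |⟪w, x⟫| ∂(stdGaussian V) = c0 * ‖w‖ := by
  by_cases hw : w = 0
  · simp [hw]
  have hna : ‖w‖ ≠ 0 := norm_ne_zero_iff.2 hw
  have hm := mp_coiso (fun x : V => ⟪‖w‖⁻¹ • w, x⟫) (by fun_prop) (fun t : ℝ => t • ‖w‖⁻¹ • w)
    (fun z t => by rw [real_inner_smul_right, real_inner_comm z]; simp)
    (fun t => by simp [norm_smul, hna])
  rw [stdGaussian_real] at hm
  rw [c0, ← hm.map_eq, integral_map hm.measurable.aemeasurable (by fun_prop),
    ← integral_mul_const]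
  refine integral_congr_ae (ae_of_all _ fun x => ?_)
  simp only [real_inner_smul_left, abs_mul, abs_inv, abs_norm]
  field_simp

theorem integral_norm_sq : ∫ x, ‖x‖ ^ 2 ∂(stdGaussian V) = finrank ℝ V := by
  set b := stdOrthonormalBasis ℝ V
  have h0 : ∫ x, x ^ 2 ∂(gaussianReal 0 1) = 1 := by
    have h := variance_id_gaussianReal (μ := 0) (v := 1)
    rw [variance_eq_integral (by fun_prop)] at h
    simpa using h
  have hi : Integrable (fun x : ℝ => x ^ 2) (gaussianReal 0 1) := by
    have := (memLp_id_gaussianReal (μ := 0) (v := 1) 2).integrable_sq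
    simpa using this
  have hm : ∀ i, MeasurePreserving (fun x : V => ⟪x, b i⟫) (stdGaussian V) (gaussianReal 0 1) := by
    intro i
    rw [← stdGaussian_real]
    exact mp_coiso (fun x : V => ⟪x, b i⟫) (by fun_prop) (fun t : ℝ => t • b i)
      (by intro z t; simp [inner_smul_right])
      (by intro t; simp [norm_smul, b.orthonormal.1 i])
  have h1 : ∀ x : V, ‖x‖ ^ 2 = ∑ i, ⟪x, b i⟫ ^ 2 := fun x => (b.sum_sq_inner_left x).symm
  simp_rw [h1]
  have h3 : ∀ i, Integrable (fun x : V => ⟪x, b i⟫ ^ 2) (stdGaussian V) := fun i =>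
    (hm i).integrable_comp_of_integrable hi
  rw [integral_finsetSum _ (fun i _ => h3 i)]
  have h2 : ∀ i, ∫ x, ⟪x, b i⟫ ^ 2 ∂(stdGaussian V) = 1 := by
    intro i
    rw [← h0, ← (hm i).map_eq, integral_map (hm i).measurable.aemeasurable (by fun_prop)]
  simp [h2]

end Pool.Agent.P.MP_181257_gt
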