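import Pool.Agent.P.MP_181257_gt.Holder

/-! The classification. -/

set_option autoImplicit false
set_option linter.unusedSectionVars false

open MeasureTheory ProbabilityTheory Module Set Filter Topology
open scoped RealInnerProductSpace ENNReal Pointwise Matrix

noncomputable section

namespace Pool.Agent.P.MP_181257_gt

variable {V : Type} [NormedAddCommGroup V] [InnerProductSpace ℝ V] [FiniteDimensional ℝ V]
  [MeasurableSpace V] [BorelSpace V]

/-- two-sided comparison on the sphere, up to scaling and the factor `τ` -/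
def Cmp (τ : ℝ) (h g : V → ℝ) : Prop :=
  ∃ c : ℝ, 0 < c ∧ ∀ u, ‖u‖ = 1 → c * g u ≤ h u ∧ h u ≤ τ * (c * g u)

theorem Cmp.scale {τ : ℝ} {h h' g : V → ℝ} (H : Cmp τ h g) {lam : ℝ} (hl : 0 < lam)
    (e : ∀ u, ‖u‖ = 1 → h' u = lam * h u) : Cmp τ h' g := by
  obtain ⟨c, hc, H⟩ := H
  refine ⟨lam * c, mul_pos hl hc, fun u hu => ?_⟩
  obtain ⟨h1, h2⟩ := H u hu
  rw [e u hu]
  constructor
  · nlinarith [mul_le_mul_of_nonneg_left h1 hl.le]
  · nlinarith [mul_le_mul_of_nonneg_left h2 hl.le]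

theorem Cmp.pp {m i : ℕ} (hm : finrank ℝ V = m + 1) (h1 : 1 ≤ m) (hi : i ≤ m) {τ : ℝ}
    (hτ : 0 < τ) {h f : V → ℝ} (hf : Den f) (H : Cmp τ h (hz f)) :
    Cmp (τ ^ i) (PP i h) (hz (sk i f)) := by
  obtain ⟨c, hc, H⟩ := H
  obtain ⟨c', hc', hP⟩ := PP_hz hm h1 hi
  obtain ⟨B, hB⟩ := hz_le hf.toPos
  have hB' : ∀ u : V, ‖u‖ = 1 → (τ * c) * hz f u ≤ (τ * c) * B := fun u hu =>
    mul_le_mul_of_nonneg_left (hB u hu) (mul_pos hτ hc).le
  refine ⟨c ^ i * c', by positivity, fun u hu => ⟨?_, ?_⟩⟩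
  · have := PP_mono i (h := fun u => c * hz f u) (h' := h) (B := (τ * c) * B)
      (fun u hu => ((H u hu).2.trans_eq (by ring)).trans (hB' u hu)) (fun u hu => (H u hu).1) u
    rw [PP_smul i _ hc, hP f hf u hu] at this
    linarith
  · have := PP_mono i (h := h) (h' := fun u => (τ * c) * hz f u) (B := (τ * c) * B) hB'
      (fun u hu => (H u hu).2.trans_eq (by ring)) u
    rw [PP_smul i _ (mul_pos hτ hc), hP f hf u hu, mul_pow] at this
    linarith

theorem iter_step {m i : ℕ} (hm : finrank ℝ V = m + 1) (h1 : 1 ≤ m) (him : i ≤ m)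
    {h : V → ℝ} {lam : ℝ} (hlam : 0 < lam)
    (hfix : ∀ u, ‖u‖ = 1 → h u = lam * PP i (PP i h) u) {κ : ℝ} (h0 : 0 ≤ κ) (hκ : κ ≤ 1)
    {E : (V → ℝ) → ℝ} (hE : ∀ f : V → ℝ, Den f → 0 ≤ E f)
    (hΔ : ∀ f : V → ℝ, Den f → E (sk i f) ≤ κ * E f) {a : ℝ} {f : V → ℝ} (hf : Den f)
    (H : Cmp (Real.exp a) h (hz f)) : ∀ k : ℕ, ∃ g : V → ℝ, Den g ∧
      Cmp (Real.exp (a * ((i : ℝ) ^ 2) ^ k)) h (hz g) ∧ E g ≤ κ ^ k * E f
  | 0 => ⟨f, hf, by simpa using H, by simp⟩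
  | k + 1 => by
    obtain ⟨g, hg, Hg, hd⟩ := iter_step hm h1 him hlam hfix h0 hκ hE hΔ hf H k
    have hg1 := den_sk hm h1 him hg
    have hg2 := den_sk hm h1 him hg1
    refine ⟨sk i (sk i g), hg2, ?_, ?_⟩
    · have := ((Hg.pp hm h1 him (Real.exp_pos _) hg).pp hm h1 him (by positivity) hg1).scale
        hlam hfix
      rw [← Real.exp_nat_mul, ← Real.exp_nat_mul] at this
      convert this using 2
      ring
    · have e1 := hΔ _ hg1
      have e2 := hΔ _ hg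
      have e3 := hE _ hg1
      have e4 : κ * E g ≤ κ * (κ ^ k * E f) := mul_le_mul_of_nonneg_left hd h0
      calc E (sk i (sk i g)) ≤ κ * E (sk i g) := e1
        _ ≤ 1 * E (sk i g) := mul_le_mul_of_nonneg_right hκ e3
        _ ≤ κ * (κ ^ k * E f) := by linarith
        _ = κ ^ (k + 1) * E f := by ring

theorem cmp_of_close {h g : V → ℝ} {δ η : ℝ} (hδ : 0 < δ) (hη : 0 ≤ η) (hη' : η ≤ 1 / 2)
    (hpos : ∀ u, ‖u‖ = 1 → δ ≤ h u) (H : ∀ u, ‖u‖ = 1 → |g u - h u| ≤ η * δ) :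
    Cmp (Real.exp (4 * η)) h g := by
  refine ⟨(1 + η)⁻¹, by positivity, fun u hu => ?_⟩
  have h1 := abs_le.1 (H u hu)
  have h2 := hpos u hu
  have h3 : η * δ ≤ η * h u := mul_le_mul_of_nonneg_left h2 hη
  have hp : 0 < 1 + η := by positivity
  constructor
  · rw [inv_mul_le_iff₀ hp]
    nlinarith
  · have h4 : (1 - η) * h u ≤ g u := by nlinarith
    have h5 : 1 + 4 * η ≤ Real.exp (4 * η) := by linarith [Real.add_one_le_exp (4 * η)]
    have hg : 0 ≤ g u := le_trans (mul_nonneg (by linarith) (by linarith)) h4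
    have h6 : h u ≤ (1 + 4 * η) * ((1 + η)⁻¹ * g u) := by
      rw [← mul_assoc, mul_comm (1 + 4 * η), mul_assoc, le_inv_mul_iff₀ hp]
      have h7 : (1 + η) ≤ (1 + 4 * η) * (1 - η) := by nlinarith
      calc (1 + η) * h u ≤ ((1 + 4 * η) * (1 - η)) * h u :=
            mul_le_mul_of_nonneg_right h7 (by linarith)
        _ = (1 + 4 * η) * ((1 - η) * h u) := by ring
        _ ≤ (1 + 4 * η) * g u := mul_le_mul_of_nonneg_left h4 (by linarith)
    exact h6.trans (mul_le_mul_of_nonneg_right h5 (by positivity))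

theorem exists_small {κ : ℝ} (h0 : 0 ≤ κ) (hκ : κ < 1) (a b : ℝ) {δ : ℝ} (hδ : 0 < δ) :
    ∃ k : ℕ, κ ^ k * (a + b * k) ≤ δ := by
  have t1 : Tendsto (fun k : ℕ => κ ^ k) atTop (𝓝 0) := tendsto_pow_atTop_nhds_zero_of_lt_one h0 hκ
  have t2 : Tendsto (fun k : ℕ => (k : ℝ) * κ ^ k) atTop (𝓝 0) :=
    tendsto_self_mul_const_pow_of_lt_one h0 hκ
  have t3 : Tendsto (fun k : ℕ => κ ^ k * (a + b * k)) atTop (𝓝 0) := by
    have := (t1.const_mul a).add (t2.const_mul b)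
    simp only [mul_zero, add_zero] at this
    refine this.congr fun k => by ring
  obtain ⟨k, hk⟩ := (t3.eventually (gt_mem_nhds hδ)).exists
  exact ⟨k, hk.le⟩

theorem const_of_contr {m i : ℕ} (hm : finrank ℝ V = m + 1) (hi : 1 ≤ i) (him : i ≤ m)
    {κ : ℝ} (h0 : 0 ≤ κ) (hκ : κ < 1) {E : (V → ℝ) → ℝ} (hE : ∀ f : V → ℝ, Den f → 0 ≤ E f)
    (hΔ : ∀ f : V → ℝ, Den f → E (sk i f) ≤ κ * E f)
    (hle : ∀ f : V → ℝ, Den f → ∀ c C : ℝ, 0 < c → (∀ x, c ≤ f x ∧ f x ≤ C) →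
      E f ≤ Real.log (C / c))
    (hcl : ∀ ε : ℝ, 0 < ε → ∃ δ : ℝ, 0 < δ ∧ ∀ f : V → ℝ, Den f → E f ≤ δ →
      ∀ u u' : V, ‖u‖ = 1 → ‖u'‖ = 1 → hz f u ≤ (1 + ε) * hz f u')
    {h : V → ℝ} (hZ : Zon h) {δ : ℝ} (hδ : 0 < δ) (hpos : ∀ u, ‖u‖ = 1 → δ ≤ h u) {lam : ℝ}
    (hlam : 0 < lam) (hfix : ∀ u, ‖u‖ = 1 → h u = lam * PP i (PP i h) u) :
    ∀ u u' : V, ‖u‖ = 1 → ‖u'‖ = 1 → h u = h u' := by
  have h1 : 1 ≤ m := hi.trans him
  obtain ⟨μ, hμ, hμ1, hrep⟩ := hZ.exists_measure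
  obtain ⟨A, hA, happ⟩ := exists_den_approx (V := V) (by omega) μ hμ1
  have key : ∀ ε : ℝ, 0 < ε → ε ≤ 1 / 2 → ∀ u u' : V, ‖u‖ = 1 → ‖u'‖ = 1 →
      h u ≤ Real.exp (4 * ε) * (1 + ε) * h u' := by
    intro ε hε hε' u u' hu hu'
    obtain ⟨δ', hδ', hclose⟩ := hcl ε hε
    set θ : ℝ := min 1 (ε * δ / A) with hθ
    have hθ0 : 0 < θ := lt_min one_pos (by positivity)
    have hθ1 : θ ≤ 1 := min_le_left _ _
    have hθ2 : A * θ ≤ ε * δ := by
      have : θ ≤ ε * δ / A := min_le_right _ _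
      rw [le_div_iff₀ (by positivity)] at this
      linarith
    have hi1 : (1 : ℝ) ≤ (i : ℝ) ^ 2 := one_le_pow₀ (by exact_mod_cast hi)
    obtain ⟨k, hk⟩ := exists_small h0 hκ (Real.log A - (m + 2) * Real.log θ)
      ((m + 2) * Real.log ((i : ℝ) ^ 2)) hδ'
    set q : ℝ := ((i : ℝ) ^ 2) ^ k with hq
    have hq1 : 1 ≤ q := one_le_pow₀ hi1
    have hq0 : 0 < q := by positivity
    obtain ⟨f, hf, hb, hclo⟩ := happ (θ / q) ⟨by positivity, by
      rw [div_le_one hq0]; exact hθ1.trans hq1⟩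
    have hcmp : Cmp (Real.exp (4 * (ε / q))) h (hz f) := by
      refine cmp_of_close hδ (by positivity) ((div_le_self hε.le hq1).trans hε') hpos
        fun u hu => ?_
      rw [hrep u hu]
      refine (hclo u hu).trans ?_
      rw [← mul_div_assoc, div_mul_eq_mul_div]
      exact div_le_div_of_nonneg_right hθ2 hq0.le
    obtain ⟨g, hg, ⟨c, hc, Hg⟩, hd⟩ := iter_step hm h1 him hlam hfix h0 hκ.le hE hΔ hf hcmp k
    have e1 : 4 * (ε / q) * ((i : ℝ) ^ 2) ^ k = 4 * ε := by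
      rw [← hq]; field_simp
    rw [e1] at Hg
    have e2 : E f ≤ Real.log A - (m + 2) * Real.log θ + (m + 2) * Real.log ((i : ℝ) ^ 2) * k := by
      refine (hle f hf _ _ (by positivity) hb).trans_eq ?_
      rw [Real.log_div (by positivity) (by positivity), Real.log_div (by positivity)
        (by positivity), Real.log_pow, Real.log_div hθ0.ne' hq0.ne', hq, Real.log_pow, hm]
      push_cast
      ring
    have e3 : E g ≤ δ' :=
      hd.trans ((mul_le_mul_of_nonneg_left e2 (pow_nonneg h0 k)).trans hk)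
    have e4 := hclose g hg e3 u u' hu hu'
    calc h u ≤ Real.exp (4 * ε) * (c * hz g u) := (Hg u hu).2
      _ ≤ Real.exp (4 * ε) * (c * ((1 + ε) * hz g u')) := by gcongr
      _ = Real.exp (4 * ε) * (1 + ε) * (c * hz g u') := by ring
      _ ≤ Real.exp (4 * ε) * (1 + ε) * h u' := by
        gcongr
        exact (Hg u' hu').1
  have le : ∀ u u' : V, ‖u‖ = 1 → ‖u'‖ = 1 → h u ≤ h u' := by
    intro u u' hu hu'
    have t : Tendsto (fun ε : ℝ => Real.exp (4 * ε) * (1 + ε) * h u') (𝓝[>] 0) (𝓝 (h u')) := by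
      have : Continuous fun ε : ℝ => Real.exp (4 * ε) * (1 + ε) * h u' := by fun_prop
      have := (this.tendsto 0).mono_left (nhdsWithin_le_nhds (s := Ioi 0))
      simpa using this
    refine ge_of_tendsto t ?_
    filter_upwards [Ioc_mem_nhdsGT (show (0 : ℝ) < 1 / 2 by norm_num)] with ε hε
    exact key ε hε.1 hε.2 u u' hu hu'
  exact fun u u' hu hu' => le_antisymm (le u u' hu hu') (le u' u hu' hu)

theorem const_of_fixed {m i : ℕ} (hm : finrank ℝ V = m + 1) (hi : 1 ≤ i) (hn : 5 * i ≤ m + 3)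
    {h : V → ℝ} (hZ : Zon h) {δ : ℝ} (hδ : 0 < δ) (hpos : ∀ u, ‖u‖ = 1 → δ ≤ h u) {lam : ℝ}
    (hlam : 0 < lam) (hfix : ∀ u, ‖u‖ = 1 → h u = lam * PP i (PP i h) u) :
    ∀ u u' : V, ‖u‖ = 1 → ‖u'‖ = 1 → h u = h u' := by
  obtain ⟨κ, h0, hκ, hΔ⟩ := Δ_sk_le hm hi hn
  have h1 : 1 ≤ m := by omega
  exact const_of_contr hm hi (by omega) h0 hκ (fun f hf => Δ_nonneg h1 hf.toPos) hΔ
    (fun f hf _ _ hc hb => Δ_le h1 hf.toPos hc hb) (fun _ hε => hz_close hm h1 hε)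
    hZ hδ hpos hlam hfix

theorem vol_proj_affine (i : ℕ) (u x : V) {t : ℝ} (ht : 0 ≤ t) (M : Set V) :
    intrinsicVol i (pr u '' (x +ᵥ t • M)) = t ^ i * intrinsicVol i (pr u '' M) := by
  have : pr u '' (x +ᵥ t • M) = pr u x +ᵥ t • (pr u '' M) := by
    ext y
    simp only [mem_image, mem_vadd_set, mem_smul_set, vadd_eq_add]
    constructor
    · rintro ⟨_, ⟨_, ⟨z, hz, rfl⟩, rfl⟩, rfl⟩
      exact ⟨_, ⟨_, ⟨z, hz, rfl⟩, rfl⟩, by rw [pr_add, pr_smul]⟩
    · rintro ⟨_, ⟨_, ⟨z, hz, rfl⟩, rfl⟩, rfl⟩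
      exact ⟨_, ⟨_, ⟨z, hz, rfl⟩, rfl⟩, by rw [pr_add, pr_smul]⟩
  rw [this, intrinsicVol_vadd, intrinsicVol_smul i _ ht]

theorem ball_eq (x : V) {t ρ : ℝ} (ht : 0 < t) (hρ : 0 ≤ ρ) :
    x +ᵥ t • Metric.closedBall (0 : V) ρ = Metric.closedBall x (t * ρ) := by
  rw [smul_closedBall _ _ hρ, smul_zero, Real.norm_of_nonneg ht.le, vadd_closedBall_zero]

theorem projBody_ball {m i : ℕ} (hm : finrank ℝ V = m + 1) (h1 : 1 ≤ m) (hi : i ≤ m) (x : V)
    {r : ℝ} (hr : 0 < r) :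
    ∃ ρ : ℝ, 0 < ρ ∧ projBody i (Metric.closedBall x r) = Metric.closedBall 0 ρ := by
  obtain ⟨c, hc, hP⟩ := PP_hz hm h1 hi
  have e1 : ∀ u : V, ‖u‖ = 1 → hz (fun _ : V => (1 : ℝ)) u = c0 := fun u hu => by
    simp [hz, integral_abs_inner, hu]
  have e2 : sk i (fun _ : V => (1 : ℝ)) = fun _ => 1 := funext fun y => sk_one hm h1 hi y
  have hc0 := c0_pos
  refine ⟨(r / c0) ^ i * (c * c0), by positivity, ?_⟩
  rw [projBody_eq, ← Zs_const (by positivity)]
  refine Zs_congr fun u hu => ?_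
  have e3 : Metric.closedBall x r = x +ᵥ (r / c0) • Zs (hz fun _ : V => (1 : ℝ)) := by
    rw [Zs_congr e1, Zs_const hc0.le, ball_eq x (by positivity) hc0.le]
    congr 1
    field_simp
  rw [e3, vol_proj_affine i u x (by positivity)]
  congr 1
  have := hP _ Den.one u hu
  rw [e2, e1 u hu] at this
  exact this

/-- the reduction of the classification to the rigidity of fixed support functions -/
theorem classification_of {m i : ℕ} (hm : finrank ℝ V = m + 1) (hi : 1 ≤ i) (him : i ≤ m)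
    (hcon : ∀ (h : V → ℝ) (δ lam : ℝ), Zon h → 0 < δ → (∀ u, ‖u‖ = 1 → δ ≤ h u) → 0 < lam →
      (∀ u, ‖u‖ = 1 → h u = lam * PP i (PP i h) u) →
      ∀ u u' : V, ‖u‖ = 1 → ‖u'‖ = 1 → h u = h u')
    {K : Set V} (hK : IsCompact K) (hint : (interior K).Nonempty) :
    (∃ (x : V) (lam : ℝ), 0 < lam ∧ K = x +ᵥ lam • projBody i (projBody i K)) ↔
      ∃ (x : V) (r : ℝ), K = Metric.closedBall x r := by
  have h1 : 1 ≤ m := hi.trans him
  have : Nontrivial V := Module.nontrivial_of_finrank_pos (R := ℝ) (by omega)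
  obtain ⟨u₀, hu₀⟩ := exists_norm_eq V zero_le_one
  constructor
  · rintro ⟨x, lam, hlam, hKe⟩
    set h₁ : V → ℝ := fun u => intrinsicVol i (pr u '' K) with hh₁
    have e1 : projBody i K = Zs h₁ := projBody_eq i K
    have e2 : projBody i (projBody i K) = Zs (PP i h₁) := by rw [projBody_eq, e1]; rfl
    rw [e2] at hKe
    set h₂ := PP i h₁ with hh₂
    obtain ⟨B, hB⟩ := exists_bound_proj i hK
    have hZ : Zon h₂ := zon_proj i (isCompact_Zs (B := B) fun u _ => hB u) (convex_Zs h₁)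
      ⟨0, fun u _ => by simpa using intrinsicVol_nonneg i _⟩
    have e3 : h₁ = fun u => lam ^ i * PP i h₂ u := by
      ext u
      show intrinsicVol i (pr u '' K) = _
      conv_lhs => rw [hKe]
      exact vol_proj_affine i u x hlam.le _
    have hfix : ∀ u, ‖u‖ = 1 → h₂ u = (lam ^ i) ^ i * PP i (PP i h₂) u := fun u _ => by
      rw [← PP_smul i _ (pow_pos hlam i), ← e3]
    have hev : ∀ u, h₂ (-u) = h₂ u := fun u => by
      have : pr (-u) = pr u := funext fun v => by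
        simpa using pr_smul_left (t := -1) (by norm_num) u v
      simp only [hh₂, PP, this]
    obtain ⟨y, hy⟩ := hint
    obtain ⟨r, hr, hball⟩ := Metric.mem_nhds_iff.1 (mem_interior_iff_mem_nhds.1 hy)
    have hs : ∀ u, ‖u‖ = 1 → ⟪y - x, u⟫ + r / 2 ≤ lam * h₂ u := fun u hu => by
      have : y + (r / 2) • u ∈ K := hball (by
        rw [mem_ball_iff_norm, add_sub_cancel_left, norm_smul, hu, Real.norm_of_nonneg
          (by positivity)]
        linarith)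
      rw [hKe] at this
      obtain ⟨_, ⟨z, hz, rfl⟩, hz'⟩ := this
      have h3 := mul_le_mul_of_nonneg_left (hz u hu) hlam.le
      have h4 : lam • z = y - x + (r / 2) • u := by
        simp only [vadd_eq_add] at hz'
        rw [← sub_eq_zero] at hz' ⊢
        rw [← hz']
        abel
      rw [← real_inner_smul_left, h4, inner_add_left, real_inner_smul_left,
        real_inner_self_eq_norm_sq, hu] at h3
      linarith
    have hpos : ∀ u, ‖u‖ = 1 → r / (2 * lam) ≤ h₂ u := fun u hu => by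
      have a1 := hs u hu
      have a2 := hs (-u) (by rw [norm_neg, hu])
      rw [hev, inner_neg_right] at a2
      rw [div_le_iff₀ (by positivity)]
      linarith
    have hc := hcon h₂ _ _ hZ (by positivity) hpos (by positivity) hfix
    have hρ : 0 ≤ h₂ u₀ := intrinsicVol_nonneg i _
    refine ⟨x, lam * h₂ u₀, ?_⟩
    rw [← ball_eq x hlam hρ, ← Zs_const hρ, ← Zs_congr fun u hu => hc u u₀ hu hu₀]
    exact hKe
  · rintro ⟨x, r, rfl⟩
    have hr : 0 < r := by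
      by_contra hr
      rw [interior_closedBall', Metric.nonempty_ball] at hint
      exact hr hint
    obtain ⟨ρ, hρ, e1⟩ := projBody_ball hm h1 him x hr
    obtain ⟨ρ', hρ', e2⟩ := projBody_ball hm h1 him (0 : V) hρ
    refine ⟨x, r / ρ', by positivity, ?_⟩
    rw [e1, e2, ball_eq x (by positivity) hρ'.le]
    congr 1
    field_simp

theorem classification {i : ℕ} (hi : 1 ≤ i) (hn : 5 * i ≤ finrank ℝ V + 2) {K : Set V}
    (hK : IsCompact K) (hint : (interior K).Nonempty) :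
    (∃ (x : V) (lam : ℝ), 0 < lam ∧ K = x +ᵥ lam • projBody i (projBody i K)) ↔
      ∃ (x : V) (r : ℝ), K = Metric.closedBall x r := by
  obtain ⟨m, hm⟩ : ∃ m, finrank ℝ V = m + 1 := ⟨finrank ℝ V - 1, by omega⟩
  exact classification_of hm hi (by omega)
    (fun _ _ _ hZ hδ hpos hlam hfix => const_of_fixed hm hi (by omega) hZ hδ hpos hlam hfix) hK hint

end Pool.Agent.P.MP_181257_gt
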