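import Pool.Agent.P.MP_181257_gt.BSG
import Pool.Agent.P.MP_181257_gt.Main

/-! The contraction for `2 i < n` and the classification. -/

set_option autoImplicit false
set_option linter.unusedSectionVars false

open MeasureTheory ProbabilityTheory Module Set Filter Topology
open scoped RealInnerProductSpace ENNReal Pointwise Matrix

noncomputable section

namespace Pool.Agent.P.MP_181257_gt

variable {V : Type} [NormedAddCommGroup V] [InnerProductSpace ℝ V] [FiniteDimensional ℝ V]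
  [MeasurableSpace V] [BorelSpace V]

/-- `log (‖f‖_Q / ‖f‖_1)` -/
def Gap (Q : ℝ) (f : V → ℝ) : ℝ := Lm f Q / Q - Lm f 1

/-- the volume weighted moment -/
def Wm (k : ℕ) (f : V → ℝ) (r : ℝ) : ℝ := ∫ x, D x * ∏ j, f (x j) ^ r ∂(γk V k)

theorem three_point {f : V → ℝ} (hf : Pos f) {p Q : ℝ} (hp : 0 < p) (hp1 : p ≤ 1) (hQ : 1 < Q) :
    Lm f Q / Q - Lm f p / p ≤ (Q - p) / (p * (Q - 1)) * Gap Q f := by
  have h1 : 0 < Q - p := by linarith
  have h2 : 0 < Q - 1 := by linarith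
  have hQ0 : 0 < Q := by linarith
  have h := Lm_convex hf (r₀ := Q) (r₁ := p) (a := (1 - p) / (Q - p)) hQ0.le hp.le
    (div_nonneg (by linarith) h1.le) (by rw [div_le_one h1]; linarith)
  rw [show (1 - p) / (Q - p) * Q + (1 - (1 - p) / (Q - p)) * p = 1 by field_simp; ring] at h
  have h3 := mul_le_mul_of_nonneg_left h (by positivity : 0 ≤ (Q - p) / (p * (Q - 1)))
  have e : (Q - p) / (p * (Q - 1)) * ((1 - p) / (Q - p) * Lm f Q + (1 - (1 - p) / (Q - p)) * Lm f p)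
      = (Q - p) / (p * (Q - 1)) * (Lm f Q / Q) - (Lm f Q / Q - Lm f p / p) := by
    field_simp
    ring
  unfold Gap
  rw [e] at h3
  linarith

theorem Gap_nonneg {f : V → ℝ} (hf : Pos f) {Q : ℝ} (hQ : 1 ≤ Q) : 0 ≤ Gap Q f := by
  have hQ0 : 0 < Q := by linarith
  have h := holder_scale hf (r := Q) (s := Q⁻¹) hQ0.le (by positivity) (inv_le_one_of_one_le₀ hQ)
  rw [inv_mul_cancel₀ hQ0.ne'] at h
  unfold Gap
  rw [div_eq_inv_mul]
  linarith

theorem Gap_le {f : V → ℝ} (hf : Pos f) {Q : ℝ} (hQ : 0 < Q) {c C : ℝ} (hc : 0 < c)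
    (h : ∀ x, c ≤ f x ∧ f x ≤ C) : Gap Q f ≤ Real.log (C / c) := by
  have hC : 0 < C := hc.trans_le ((h 0).1.trans (h 0).2)
  have hu : Lm f Q ≤ Q * Real.log C := by
    have h2 : ∫ x, f x ^ Q ∂(stdGaussian V) ≤ ∫ _x, C ^ Q ∂(stdGaussian V) :=
      integral_mono (holder_int hf hQ.le) (integrable_const _) fun x =>
        Real.rpow_le_rpow (hf.pos x).le (h x).2 hQ.le
    simp only [integral_const, probReal_univ, one_smul] at h2
    rw [← Real.log_rpow hC]
    exact Real.log_le_log (holder_pos (hf.rpow hQ.le)) h2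
  have hl : Real.log c ≤ Lm f 1 := by
    have h2 : ∫ _x, c ∂(stdGaussian V) ≤ ∫ x, f x ^ (1 : ℝ) ∂(stdGaussian V) :=
      integral_mono (integrable_const _) (holder_int hf zero_le_one) fun x => by
        simpa using (h x).1
    simp only [integral_const, probReal_univ, one_smul] at h2
    exact Real.log_le_log hc h2
  have h2 : Lm f Q / Q ≤ Real.log C := by
    rw [div_le_iff₀ hQ, mul_comm]
    exact hu
  rw [Real.log_div hC.ne' hc.ne']
  unfold Gap
  linarith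

theorem Gap_close {m : ℕ} (hm : finrank ℝ V = m + 1) (h2 : 2 ≤ m) {Q : ℝ} (hQ : 2 ≤ Q) {ε : ℝ}
    (hε : 0 < ε) : ∃ δ : ℝ, 0 < δ ∧ ∀ f : V → ℝ, Den f → Gap Q f ≤ δ →
      ∀ u u' : V, ‖u‖ = 1 → ‖u'‖ = 1 → hz f u ≤ (1 + ε) * hz f u' := by
  obtain ⟨δ, hδ, h⟩ := hz_close hm (by omega) hε
  have hm2 : (2 : ℝ) ≤ m := by exact_mod_cast h2
  have hp : (0 : ℝ) < m / (m + 2) := by positivity
  have hp1 : (m : ℝ) / (m + 2) ≤ 1 := by rw [div_le_one (by positivity)]; linarith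
  set c : ℝ := (Q - m / (m + 2)) / (m / (m + 2) * (Q - 1)) with hc
  have hc0 : 0 < c := div_pos (by linarith) (mul_pos hp (by linarith))
  refine ⟨δ / c, by positivity, fun f hf hG => h f hf ?_⟩
  have h3 := three_point hf.toPos hp hp1 (by linarith : 1 < Q)
  have hP : ((m : ℝ) + 2) / m ≤ Q := by
    rw [div_le_iff₀ (by positivity)]
    nlinarith
  have hQ0 : 0 < Q := by linarith
  have h4 := holder_scale hf.toPos (r := Q) (s := ((m : ℝ) + 2) / m / Q) hQ0.le (by positivity)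
    ((div_le_one hQ0).2 hP)
  rw [div_mul_cancel₀ _ hQ0.ne'] at h4
  have h5 : Lm f (((m : ℝ) + 2) / m) / (((m : ℝ) + 2) / m) ≤ Lm f Q / Q := by
    rw [div_le_iff₀ (by positivity)]
    refine h4.trans_eq ?_
    ring
  have h6 : c * Gap Q f ≤ δ := by
    rw [mul_comm, ← le_div_iff₀ hc0]
    exact hG
  have h7 : ((m : ℝ) + 2) / m * Lm f ((m : ℝ) / (m + 2))
      = Lm f ((m : ℝ) / (m + 2)) / ((m : ℝ) / (m + 2)) := by
    field_simp
  unfold Δ
  rw [h7]
  linarith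

theorem Wm_eq {m k : ℕ} (hm : finrank ℝ V = m + 1) (h1 : 1 ≤ m) (hk : k ≤ m) {f : V → ℝ}
    (hf : Den f) {r : ℝ} (hr : 0 ≤ r) :
    Wm k f r = (∫ y, sk k (fun x => f x ^ r) y ∂(stdGaussian V)) * ∫ x, D x ∂(γk V k) :=
  (bp_mass hm h1 hk (hf.rpow hr)).symm

theorem Wm_pos {m k : ℕ} (hm : finrank ℝ V = m + 1) (h1 : 1 ≤ m) (hk : k ≤ m) {f : V → ℝ}
    (hf : Den f) {r : ℝ} (hr : 0 ≤ r) : 0 < Wm k f r := by
  rw [Wm_eq hm h1 hk hf hr]
  exact mul_pos (holder_pos (den_sk hm h1 hk (hf.rpow hr)).toPos) (integral_D_pos (by omega))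

theorem Wm_convex {m k : ℕ} (hm : finrank ℝ V = m + 1) (h1 : 1 ≤ m) (hk : k ≤ m) {f : V → ℝ}
    (hf : Den f) {r₀ r₁ a : ℝ} (h₀ : 0 ≤ r₀) (h₁ : 0 ≤ r₁) (ha : 0 ≤ a) (ha' : a ≤ 1) :
    Real.log (Wm k f (a * r₀ + (1 - a) * r₁))
      ≤ a * Real.log (Wm k f r₀) + (1 - a) * Real.log (Wm k f r₁) := by
  have hb : 0 ≤ 1 - a := by linarith
  have hA := Wm_pos hm h1 hk hf h₀
  have hB := Wm_pos hm h1 hk hf h₁
  have hr : 0 ≤ a * r₀ + (1 - a) * r₁ := by positivity
  have hC := Wm_pos hm h1 hk hf hr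
  have hint : ∀ r : ℝ, 0 ≤ r →
      Integrable (fun x : Fin k → V => D x * ∏ j, f (x j) ^ r) (γk V k) := fun r hr =>
    proj_integrable_D (hf.toPos.rpow hr)
  generalize hAe : Wm k f r₀ = A at hA ⊢
  generalize hBe : Wm k f r₁ = B at hB ⊢
  have hK : 0 < A ^ a * B ^ (1 - a) := by positivity
  have hp : ∀ x : Fin k → V, D x * ∏ j, f (x j) ^ (a * r₀ + (1 - a) * r₁)
      ≤ A ^ a * B ^ (1 - a) * (a / A * (D x * ∏ j, f (x j) ^ r₀)
        + (1 - a) / B * (D x * ∏ j, f (x j) ^ r₁)) := by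
    intro x
    have hx : 0 < ∏ j, f (x j) := Finset.prod_pos fun j _ => hf.toPos.pos _
    simp only [Real.finsetProd_rpow _ _ fun j _ => (hf.toPos.pos (x j)).le]
    generalize ∏ j, f (x j) = u at hx
    have h2 := Real.geom_mean_le_arith_mean2_weighted (p₁ := u ^ r₀ / A) (p₂ := u ^ r₁ / B)
      ha hb (by positivity) (by positivity) (by ring)
    have e : u ^ (a * r₀ + (1 - a) * r₁)
        = A ^ a * B ^ (1 - a) * ((u ^ r₀ / A) ^ a * (u ^ r₁ / B) ^ (1 - a)) := by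
      rw [Real.div_rpow (by positivity) hA.le, Real.div_rpow (by positivity) hB.le,
        ← Real.rpow_mul hx.le, ← Real.rpow_mul hx.le, Real.rpow_add hx, mul_comm r₀, mul_comm r₁]
      field_simp
    rw [e]
    have h3 := mul_le_mul_of_nonneg_left (mul_le_mul_of_nonneg_left h2 hK.le) (D_nonneg x)
    refine h3.trans_eq ?_
    ring
  have i0 := (hint r₀ h₀).const_mul (a / A)
  have i1 := (hint r₁ h₁).const_mul ((1 - a) / B)
  have h3 := integral_mono (hint _ hr) ((i0.add i1).const_mul (A ^ a * B ^ (1 - a))) hp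
  simp only [Pi.add_apply] at h3
  unfold Wm at hAe hBe hC ⊢
  rw [integral_const_mul, integral_add i0 i1, integral_const_mul, integral_const_mul, hAe, hBe,
    div_mul_cancel₀ _ hA.ne', div_mul_cancel₀ _ hB.ne', add_sub_cancel, mul_one] at h3
  refine (Real.log_le_log hC h3).trans_eq ?_
  rw [Real.log_mul (by positivity) (by positivity), Real.log_rpow hA, Real.log_rpow hB]

theorem Gap_sk_le {m i : ℕ} (hm : finrank ℝ V = m + 1) (hi : 1 ≤ i) (him : i ≤ m) {f : V → ℝ}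
    (hf : Den f) : Gap (((m : ℝ) + 1) / i) (sk i f)
      ≤ i * ((m : ℝ) + 2 - i) / ((m : ℝ) + 1 - i) ^ 2 * Gap (((m : ℝ) + 1) / i) f := by
  have h1 : 1 ≤ m := hi.trans him
  have hi' : (1 : ℝ) ≤ i := by exact_mod_cast hi
  have him' : (i : ℝ) ≤ m := by exact_mod_cast him
  have hm0 : (0 : ℝ) < m := by linarith
  have hi0 : (0 : ℝ) < i := by linarith
  have hq : (0 : ℝ) < m + 1 - i := by linarith
  have hE : 0 < ∫ x, D x ∂(γk V i) := integral_D_pos (by omega)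
  set Q : ℝ := ((m : ℝ) + 1) / i with hQ
  have hQ0 : 0 < Q := by positivity
  have hQ1 : 1 < Q := by rw [hQ, lt_div_iff₀ hi0]; linarith
  have hg := den_sk hm h1 him hf
  -- the function `ζ`
  set ζ : ℝ → ℝ := fun r => Real.log (∫ y, sk i (fun x => f x ^ r) y ∂(stdGaussian V)) with hζ
  have hpos : ∀ r : ℝ, 0 ≤ r → 0 < ∫ y, sk i (fun x => f x ^ r) y ∂(stdGaussian V) := fun r hr =>
    holder_pos (den_sk hm h1 him (hf.rpow hr)).toPos
  have hW : ∀ r : ℝ, 0 ≤ r →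
      Real.log (Wm i f r) = ζ r + Real.log (∫ x, D x ∂(γk V i)) := fun r hr => by
    rw [Wm_eq hm h1 him hf hr, Real.log_mul (hpos r hr).ne' hE.ne']
  have e1 : Lm (sk i f) 1 = ζ 1 := by simp [Lm, hζ]
  have hU : (i : ℝ) * Lm (sk i f) Q ≤ m * ζ (((m : ℝ) + 1) / m) := by
    have := Real.log_le_log (pow_pos (holder_pos (hg.toPos.rpow hQ0.le)) i)
      (sk_norm_le hm hi him hf)
    rwa [Real.log_pow, Real.log_pow] at this
  have hAF : ζ Q ≤ i * Lm f Q := by
    have := Real.log_le_log (hpos Q hQ0.le) (integral_sk_le hm h1 him (hf.rpow hQ0.le))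
    rwa [Real.log_pow] at this
  have hL : (i : ℝ) * (Lm f (((m : ℝ) + 1) / (m + 2)) / (((m : ℝ) + 1) / (m + 2))) ≤ ζ 1 := by
    have h2 := brs hm (by omega) i 1 hf
    simp only [pow_one] at h2
    rw [← bp_mass hm h1 him hf, mul_comm] at h2
    have h3 := le_of_mul_le_mul_right h2 hE
    push_cast at h3
    rw [show (m : ℝ) + 1 + 1 = m + 2 by ring] at h3
    have hp := holder_pos (hf.toPos.rpow (r := ((m : ℝ) + 1) / (m + 2)) (by positivity))
    have h4 := Real.log_le_log (Real.rpow_pos_of_pos hp _) h3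
    rw [Real.log_rpow hp] at h4
    have e : ζ 1 = Real.log (∫ y, sk i f y ∂(stdGaussian V)) := by simp [hζ]
    rw [e]
    refine le_of_eq_of_le ?_ h4
    unfold Lm
    field_simp
  have hC := Wm_convex hm h1 him hf (r₀ := Q) (r₁ := 1) (a := i / ((m + 1 - i) * m)) hQ0.le
    zero_le_one (by positivity) (by rw [div_le_one (by positivity)]; nlinarith)
  rw [show (i : ℝ) / ((m + 1 - i) * m) * Q + (1 - i / ((m + 1 - i) * m)) * 1 = (m + 1) / m by
    rw [hQ]; field_simp; ring, hW _ (by positivity), hW _ hQ0.le, hW _ zero_le_one] at hC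
  have h3 := three_point hf.toPos (p := ((m : ℝ) + 1) / (m + 2)) (by positivity)
    (by rw [div_le_one (by positivity)]; linarith) hQ1
  have e2 : (Q - ((m : ℝ) + 1) / (m + 2)) / (((m : ℝ) + 1) / (m + 2) * (Q - 1))
      = ((m : ℝ) + 2 - i) / (m + 1 - i) := by
    rw [hQ]
    field_simp
  rw [e2] at h3
  -- assemble
  have s1 : Lm (sk i f) Q / Q ≤ m / (m + 1) * ζ (((m : ℝ) + 1) / m) := by
    have : Lm (sk i f) Q / Q = (i * Lm (sk i f) Q) / (m + 1) := by rw [hQ]; field_simp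
    rw [this, div_le_iff₀ (by positivity)]
    refine hU.trans_eq ?_
    field_simp
  have s2 : m / (m + 1) * ζ (((m : ℝ) + 1) / m) - ζ 1 ≤ (ζ Q / Q - ζ 1) / (m + 1 - i) := by
    have hC' : ζ (((m : ℝ) + 1) / m)
        ≤ i / ((m + 1 - i) * m) * ζ Q + (1 - i / ((m + 1 - i) * m)) * ζ 1 := by linarith
    have := mul_le_mul_of_nonneg_left hC' (by positivity : (0 : ℝ) ≤ m / (m + 1))
    refine (sub_le_sub_right this _).trans_eq ?_
    rw [hQ]
    field_simp
    ring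
  have s3 : ζ Q / Q ≤ i * (Lm f Q / Q) := by
    rw [← mul_div_assoc]
    exact div_le_div_of_nonneg_right hAF hQ0.le
  have s4 : ζ Q / Q - ζ 1 ≤ i * (((m : ℝ) + 2 - i) / (m + 1 - i) * Gap Q f) := by
    have := mul_le_mul_of_nonneg_left h3 hi0.le
    linarith
  have s5 := div_le_div_of_nonneg_right s4 hq.le
  calc Gap Q (sk i f) = Lm (sk i f) Q / Q - ζ 1 := by rw [Gap, e1]
    _ ≤ i * (((m : ℝ) + 2 - i) / (m + 1 - i) * Gap Q f) / (m + 1 - i) := by linarith
    _ = _ := by field_simp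

theorem classification_half {i : ℕ} (hi : 1 ≤ i) (hn : 2 * i < finrank ℝ V) {K : Set V}
    (hK : IsCompact K) (hint : (interior K).Nonempty) :
    (∃ (x : V) (lam : ℝ), 0 < lam ∧ K = x +ᵥ lam • projBody i (projBody i K)) ↔
      ∃ (x : V) (r : ℝ), K = Metric.closedBall x r := by
  obtain ⟨m, hm⟩ : ∃ m, finrank ℝ V = m + 1 := ⟨finrank ℝ V - 1, by omega⟩
  have him : i ≤ m := by omega
  have hi' : (1 : ℝ) ≤ i := by exact_mod_cast hi
  have h2 : 2 * (i : ℝ) ≤ m := by exact_mod_cast (by omega : 2 * i ≤ m)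
  have hQ : 2 ≤ ((m : ℝ) + 1) / i := by
    rw [le_div_iff₀ (by positivity)]
    linarith
  have hq : (0 : ℝ) < m + 1 - i := by linarith
  refine classification_of hm hi him (fun _ _ _ hZ hδ hpos hlam hfix => const_of_contr hm hi him
    (κ := i * ((m : ℝ) + 2 - i) / ((m : ℝ) + 1 - i) ^ 2) (E := Gap (((m : ℝ) + 1) / i)) ?_ ?_
    (fun f hf => Gap_nonneg hf.toPos (by linarith)) (fun f hf => Gap_sk_le hm hi him hf)
    (fun f hf _ _ hc hb => Gap_le hf.toPos (by positivity) hc hb)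
    (fun _ hε => Gap_close hm (by omega) hQ hε) hZ hδ hpos hlam hfix) hK hint
  · have : (0 : ℝ) ≤ m + 2 - i := by linarith
    positivity
  · rw [div_lt_one (by positivity)]
    nlinarith

end Pool.Agent.P.MP_181257_gt
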