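import Pool.Agent.P.MP_181257_gt.HiFr1

/-! Alexandrov-Fenchel inequality for a base measure that dominates the Gaussian. -/

set_option autoImplicit false
set_option linter.unusedSectionVars false
set_option linter.unusedVariables false

open MeasureTheory ProbabilityTheory Module Set Filter Topology
open scoped RealInnerProductSpace ENNReal Pointwise Matrix

noncomputable section

namespace Pool.Agent.P.MP_181257_gt

variable {V : Type} [NormedAddCommGroup V] [InnerProductSpace ℝ V] [FiniteDimensional ℝ V]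
  [MeasurableSpace V] [BorelSpace V]

/-- first moment and a uniform lower bound for the mean length -/
structure Good_HiA1 (ρ : Measure V) : Prop where
  mom : Mom ρ
  low : ∃ c : ℝ, 0 < c ∧ ∀ T : V →L[ℝ] V, Ex T 1 → c ≤ ∫ x, ‖T x‖ ∂ρ

/-- the constant of the lower bound -/
def cc_HiA1 (ρ : Measure V) [h : Fact (Good_HiA1 ρ)] : ℝ := h.out.low.choose

theorem cc_pos_HiA1 (ρ : Measure V) [h : Fact (Good_HiA1 ρ)] : 0 < cc_HiA1 ρ :=
  h.out.low.choose_spec.1

theorem cc_le_HiA1 {ρ : Measure V} [h : Fact (Good_HiA1 ρ)] {T : V →L[ℝ] V} (hT : Ex T 1) :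
    cc_HiA1 ρ ≤ ∫ x, ‖T x‖ ∂ρ :=
  h.out.low.choose_spec.2 T hT

theorem good_HiA1 {ρ : Measure V} (hρ : Mom ρ) {c : ℝ} (hc : 0 < c)
    (hcρ : ENNReal.ofReal c • stdGaussian V ≤ ρ) : Good_HiA1 ρ := by
  refine ⟨hρ, c * c0, mul_pos hc c0_pos, fun T hT => ?_⟩
  have hi : Integrable (fun x => ‖T x‖) ρ :=
    Integrable.mono' hρ.int (by fun_prop) (ae_of_all _ fun x => by simpa using hT.le x)
  calc c * c0 ≤ c * ∫ x, ‖T x‖ ∂(stdGaussian V) := mul_le_mul_of_nonneg_left hT.c0_le hc.le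
    _ = ∫ x, ‖T x‖ ∂(ENNReal.ofReal c • stdGaussian V) := by
      rw [integral_smul_measure, ENNReal.toReal_ofReal hc.le, smul_eq_mul]
    _ ≤ _ := integral_mono_measure hcρ (ae_of_all _ fun x => norm_nonneg _) hi

section copy

variable {ρ : Measure V} [IsProbabilityMeasure ρ] [Fact (Good_HiA1 ρ)]

theorem integrable_D_HiA1 {k : ℕ} (T : V →L[ℝ] V) (hT : ∀ x, ‖T x‖ ≤ ‖x‖) {g : Fin k → V → ℝ}
    (hg : ∀ j, Bd (g j)) :
    Integrable (fun x : Fin k → V => D (fun j => T (x j)) * ∏ j, g j (x j)) (mk ρ k) := by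
  choose C hC using fun j => (hg j).bdd
  refine Integrable.mono' ((integrable_prod_norm_mk (Fact.out : Good_HiA1 ρ).mom k).mul_const (∏ j, C j))
    (af_measurable T hg).aestronglyMeasurable (ae_of_all _ fun x => ?_)
  rw [Real.norm_eq_abs, abs_mul, abs_of_nonneg (D_nonneg _), Finset.abs_prod]
  refine mul_le_mul ((D_le_prod _).trans ?_) ?_ (by positivity) (by positivity)
  · exact Finset.prod_le_prod (fun _ _ => norm_nonneg _) fun j _ => by simpa using hT _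
  · exact Finset.prod_le_prod (fun _ _ => abs_nonneg _) fun j _ => hC j _

/-- mixed volume of projected zonoids -/
def IIR_HiA1 (ρ : Measure V) {k : ℕ} (T : V →L[ℝ] V) (g : Fin k → V → ℝ) : ℝ :=
  ∫ x, D (fun j => T (x j)) * ∏ j, g j (x j) ∂(mk ρ k)

theorem integrable_norm_T_HiA1 {T : V →L[ℝ] V} (hT : ∀ x, ‖T x‖ ≤ ‖x‖) :
    Integrable (fun x => ‖T x‖) ρ :=
  Integrable.mono' (Fact.out : Good_HiA1 ρ).mom.int (by fun_prop)
    (ae_of_all _ fun x => by simpa using hT x)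

theorem II_perm_HiA1 {k : ℕ} (T : V →L[ℝ] V) {g : Fin k → V → ℝ} (hg : ∀ j, Bd (g j))
    (σ : Equiv.Perm (Fin k)) : IIR_HiA1 ρ T (fun j => g (σ j)) = IIR_HiA1 ρ T g := by
  unfold IIR_HiA1
  rw [← af_mp_integral (mp_perm ρ σ)
    (af_measurable T (g := fun j => g (σ j)) fun j => hg _).aestronglyMeasurable]
  congr 1
  ext x
  rw [D_perm (fun j => T (x j)) σ, Equiv.prod_comp σ fun j => g j (x j)]

theorem II_cons_HiA1 {k : ℕ} {T : V →L[ℝ] V} (hT : ∀ x, ‖T x‖ ≤ ‖x‖) {a : V → ℝ} {g : Fin k → V → ℝ}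
    (ha : Bd a) (hg : ∀ j, Bd (g j)) :
    Integrable (fun x => a x * (‖T x‖ * IIR_HiA1 ρ (lk T x) g)) ρ ∧
      IIR_HiA1 ρ T (Fin.cons a g : Fin (k + 1) → V → ℝ)
        = ∫ x, a x * (‖T x‖ * IIR_HiA1 ρ (lk T x) g) ∂ρ := by
  have hi := integrable_D_HiA1 (ρ := ρ) T hT (bd_cons ha hg)
  have hi2 := (mp_cons (k := k) ρ).integrable_comp_of_integrable hi
  have e : ∀ x : V, ∫ y : Fin k → V, a x * (‖T x‖ * (D (fun j => lk T x (y j)) * ∏ j, g j (y j)))
      ∂(mk ρ k) = a x * (‖T x‖ * IIR_HiA1 ρ (lk T x) g) := fun x => by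
    rw [integral_const_mul, integral_const_mul]; rfl
  have hi3 : Integrable (fun q : V × (Fin k → V) =>
      a q.1 * (‖T q.1‖ * (D (fun j => lk T q.1 (q.2 j)) * ∏ j, g j (q.2 j))))
      (ρ.prod (mk ρ k)) := by
    refine hi2.congr (ae_of_all _ fun q => ?_)
    exact II_cons_aux T a g q.1 q.2
  refine ⟨by simpa only [e] using hi3.integral_prod_left, ?_⟩
  unfold IIR_HiA1
  rw [← af_mp_integral (mp_cons (k := k) ρ) hi.aestronglyMeasurable]
  simp only [II_cons_aux]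
  rw [integral_prod _ hi3]
  exact congrArg _ (funext e)

theorem II_nonneg_HiA1 {k : ℕ} (T : V →L[ℝ] V) {g : Fin k → V → ℝ} (hg : ∀ j, Pos (g j)) :
    0 ≤ IIR_HiA1 ρ T g :=
  integral_nonneg fun _ => mul_nonneg (D_nonneg _)
    (Finset.prod_nonneg fun j _ => ((hg j).pos _).le)

theorem II_one_ge_HiA1 : ∀ (k : ℕ) {T : V →L[ℝ] V}, Ex T k →
    cc_HiA1 ρ ^ k ≤ IIR_HiA1 ρ T fun (_ : Fin k) (_ : V) => (1 : ℝ)
  | 0, T, _ => by simp [IIR_HiA1]
  | k + 1, T, h => by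
    have e : (fun (_ : Fin (k + 1)) (_ : V) => (1 : ℝ))
        = Fin.cons (fun _ => 1) fun (_ : Fin k) (_ : V) => (1 : ℝ) := by
      ext j; refine Fin.cases ?_ (fun j => ?_) j <;> simp
    obtain ⟨hi, he⟩ := II_cons_HiA1 (ρ := ρ) (k := k) h.le bd_one (g := fun _ _ => 1) fun _ => bd_one
    rw [e, he]
    calc cc_HiA1 ρ ^ (k + 1) = cc_HiA1 ρ * cc_HiA1 ρ ^ k := by ring
      _ ≤ (∫ x, ‖T x‖ ∂ρ) * cc_HiA1 ρ ^ k :=
        mul_le_mul_of_nonneg_right (cc_le_HiA1 (h.mono (by omega))) (pow_pos (cc_pos_HiA1 ρ) k).le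
      _ = ∫ x, ‖T x‖ * cc_HiA1 ρ ^ k ∂ρ := (integral_mul_const _ _).symm
      _ ≤ _ := by
        refine integral_mono ((integrable_norm_T_HiA1 h.le).mul_const _) hi fun x => ?_
        simp only [one_mul]
        exact mul_le_mul_of_nonneg_left (II_one_ge_HiA1 k (h.lk x)) (norm_nonneg _)

theorem II_bounds_HiA1 {k : ℕ} {g : Fin k → V → ℝ} (hg : ∀ j, Pos (g j)) :
    ∃ c C : ℝ, 0 < c ∧ ∀ T : V →L[ℝ] V, Ex T k → c ≤ IIR_HiA1 ρ T g ∧ IIR_HiA1 ρ T g ≤ C := by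
  choose c C hc h using fun j => (hg j).bdd
  have hcp : 0 < ∏ j, c j := Finset.prod_pos fun j _ => hc j
  refine ⟨cc_HiA1 ρ ^ k * ∏ j, c j, (∫ x, ∏ j, ‖x j‖ ∂(mk ρ k)) * ∏ j, C j,
    mul_pos (pow_pos (cc_pos_HiA1 ρ) k) hcp, fun T hT => ⟨?_, ?_⟩⟩
  · refine (mul_le_mul_of_nonneg_right (II_one_ge_HiA1 k hT) hcp.le).trans ?_
    unfold IIR_HiA1
    rw [← integral_mul_const]
    refine integral_mono ((integrable_D_HiA1 T hT.le fun _ => bd_one).mul_const _)
      (integrable_D_HiA1 T hT.le fun j => (hg j).bd) fun x => ?_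
    simp only [Finset.prod_const_one, mul_one]
    exact mul_le_mul_of_nonneg_left
      (Finset.prod_le_prod (fun j _ => (hc j).le) fun j _ => (h j _).1) (D_nonneg _)
  · unfold IIR_HiA1
    rw [← integral_mul_const]
    refine integral_mono (integrable_D_HiA1 T hT.le fun j => (hg j).bd)
      ((integrable_prod_norm_mk (Fact.out : Good_HiA1 ρ).mom k).mul_const _) fun x => ?_
    refine mul_le_mul ((D_le_prod _).trans ?_) ?_
      (Finset.prod_nonneg fun j _ => ((hg j).pos _).le) (by positivity)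
    · exact Finset.prod_le_prod (fun _ _ => norm_nonneg _) fun j _ => by simpa using hT.le _
    · exact Finset.prod_le_prod (fun j _ => ((hg j).pos _).le) fun j _ => (h j _).2

theorem om_eq_HiA1 {k : ℕ} (T : V →L[ℝ] V) (g : Fin k → V → ℝ) (x z : V) :
    omR ρ T g (x, z) = ‖T x‖ * (‖lk T x z‖ * IIR_HiA1 ρ (lk (lk T x) z) g) := by
  unfold omR IIR_HiA1
  rw [← integral_const_mul, ← integral_const_mul]
  congr 1
  ext y
  rw [D_succ, D_succ]
  simp only [Fin.cons_zero, Fin.cons_succ, lk_apply]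
  ring

theorem om_eq2_HiA1 {k : ℕ} (T : V →L[ℝ] V) (g : Fin k → V → ℝ) (x z : V) :
    omR ρ T g (x, z) = D ![T x, T z] * IIR_HiA1 ρ (lk (lk T x) z) g := by
  rw [om_eq_HiA1, D_two, lk_apply, mul_assoc]

theorem om_symm_HiA1 {k : ℕ} (T : V →L[ℝ] V) (g : Fin k → V → ℝ) (x z : V) :
    omR ρ T g (x, z) = omR ρ T g (z, x) := by
  unfold omR
  congr 1
  ext y
  congr 1
  have e : ∀ a b : V, (fun j => T ((Fin.cons a (Fin.cons b y : Fin (k + 1) → V) :
      Fin (k + 2) → V) j)) = Fin.cons (T a) (Fin.cons (T b) fun j => T (y j) : Fin (k + 1) → V) := by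
    intro a b
    ext j
    refine Fin.cases ?_ (fun j => Fin.cases ?_ (fun j => ?_) j) j <;> simp
  rw [e, e, D_swap]

theorem measurable_om_HiA1 {k : ℕ} (T : V →L[ℝ] V) {g : Fin k → V → ℝ} (hg : ∀ j, Bd (g j)) :
    Measurable (omR ρ T g) := by
  unfold omR
  refine (StronglyMeasurable.integral_prod_right (f := fun (p : V × V) (y : Fin k → V) =>
    D (fun j => T ((Fin.cons p.1 (Fin.cons p.2 y : Fin (k + 1) → V) : Fin (k + 2) → V) j))
      * ∏ j, g j (y j)) (Measurable.stronglyMeasurable ?_)).measurable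
  refine Measurable.mul (measurable_D (measurable_pi_lambda _ fun j => ?_))
    (Finset.measurable_prod _ fun j _ => ?_)
  · refine Fin.cases ?_ (fun j => Fin.cases ?_ (fun j => ?_) j) j <;>
      simp only [Fin.cons_zero, Fin.cons_succ] <;> fun_prop
  · exact (hg j).meas.comp ((measurable_pi_apply j).comp measurable_snd)

theorem integrable_D2_HiA1 {T : V →L[ℝ] V} (hT : ∀ x, ‖T x‖ ≤ ‖x‖) :
    Integrable (fun p : V × V => D ![T p.1, T p.2]) (ρ.prod ρ) := by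
  refine Integrable.mono' ((Fact.out : Good_HiA1 ρ).mom.int.mul_prod (Fact.out : Good_HiA1 ρ).mom.int)
    (measurable_D2 T).aestronglyMeasurable (ae_of_all _ fun p => ?_)
  rw [Real.norm_eq_abs, abs_of_nonneg (D_nonneg _)]
  simpa using D2_le hT p.1 p.2

theorem integrable_D2_row_HiA1 {T : V →L[ℝ] V} (hT : ∀ x, ‖T x‖ ≤ ‖x‖) (x : V) :
    Integrable (fun z : V => D ![T x, T z]) ρ := by
  refine Integrable.mono' ((Fact.out : Good_HiA1 ρ).mom.int.const_mul ‖x‖)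
    ((measurable_D2 T).comp measurable_prodMk_left).aestronglyMeasurable (ae_of_all _ fun z => ?_)
  rw [Real.norm_eq_abs, abs_of_nonneg (D_nonneg _)]
  simpa using D2_le hT x z

theorem om_bounds_HiA1 {k : ℕ} {T : V →L[ℝ] V} (hT : Ex T (k + 2)) {g : Fin k → V → ℝ}
    (hg : ∀ j, Pos (g j)) : ∃ c C : ℝ, 0 < c ∧
      ∀ p : V × V, c * D ![T p.1, T p.2] ≤ omR ρ T g p ∧ omR ρ T g p ≤ C * D ![T p.1, T p.2] := by
  obtain ⟨c, C, hc, h⟩ := II_bounds_HiA1 (ρ := ρ) hg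
  refine ⟨c, C, hc, fun ⟨x, z⟩ => ?_⟩
  have := h _ ((hT.lk x).lk z)
  rw [om_eq2_HiA1, mul_comm c, mul_comm C]
  exact ⟨mul_le_mul_of_nonneg_left this.1 (D_nonneg _),
    mul_le_mul_of_nonneg_left this.2 (D_nonneg _)⟩

theorem integrable_om_HiA1 {k : ℕ} {T : V →L[ℝ] V} (hT : Ex T (k + 2)) {g : Fin k → V → ℝ}
    (hg : ∀ j, Pos (g j)) : Integrable (omR ρ T g) (ρ.prod ρ) := by
  obtain ⟨c, C, hc, h⟩ := om_bounds_HiA1 (ρ := ρ) hT hg
  refine Integrable.mono' ((integrable_D2_HiA1 hT.le).const_mul C)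
    (measurable_om_HiA1 T fun j => (hg j).bd).aestronglyMeasurable (ae_of_all _ fun p => ?_)
  rw [Real.norm_eq_abs, abs_of_nonneg ((mul_nonneg hc.le (D_nonneg _)).trans (h p).1)]
  exact (h p).2

theorem integrable_BF_HiA1 {w : V × V → ℝ} (hw : Integrable w (ρ.prod ρ))
    {a b : V → ℝ} (ha : Bd a) (hb : Bd b) :
    Integrable (fun p : V × V => w p * (a p.1 * b p.2)) (ρ.prod ρ) := by
  obtain ⟨A, hA⟩ := ha.bdd
  obtain ⟨B, hB⟩ := hb.bdd
  refine hw.mul_bdd (c := A * B) ((ha.meas.comp measurable_fst).mul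
    (hb.meas.comp measurable_snd)).aestronglyMeasurable (ae_of_all _ fun p => ?_)
  rw [Real.norm_eq_abs, abs_mul]
  exact mul_le_mul (hA _) (hB _) (abs_nonneg _) ((abs_nonneg _).trans (hA p.1))

theorem row_om_HiA1 {k : ℕ} {T : V →L[ℝ] V} (hT : ∀ x, ‖T x‖ ≤ ‖x‖) {g : Fin k → V → ℝ}
    (hg : ∀ j, Bd (g j)) {b : V → ℝ} (hb : Bd b) (x : V) :
    ∫ z, omR ρ T g (x, z) * b z ∂ρ
      = ‖T x‖ * IIR_HiA1 ρ (lk T x) (Fin.cons b g : Fin (k + 1) → V → ℝ) := by
  rw [(II_cons_HiA1 (lk_le hT x) hb hg).2, ← integral_const_mul]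
  congr 1
  ext z
  rw [om_eq_HiA1]
  ring

theorem II_eq_BF_HiA1 {k : ℕ} {T : V →L[ℝ] V} (hT : Ex T (k + 2)) {g : Fin k → V → ℝ}
    (hg : ∀ j, Pos (g j)) {a b : V → ℝ} (ha : Bd a) (hb : Bd b) :
    IIR_HiA1 ρ T (Fin.cons a (Fin.cons b g : Fin (k + 1) → V → ℝ) : Fin (k + 2) → V → ℝ)
      = BF ρ (omR ρ T g) a b := by
  rw [(II_cons_HiA1 hT.le ha (bd_cons hb fun j => (hg j).bd)).2, BF,
    integral_prod _ (integrable_BF_HiA1 (integrable_om_HiA1 hT hg) ha hb)]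
  congr 1
  ext x
  rw [← row_om_HiA1 hT.le (fun j => (hg j).bd) hb x, ← integral_const_mul]
  congr 1
  ext z
  ring

theorem BF_symm_HiA1 {w : V × V → ℝ} (hs : ∀ x z, w (x, z) = w (z, x)) (a b : V → ℝ) :
    BF ρ w a b = BF ρ w b a := by
  unfold BF
  rw [← integral_prod_swap]
  congr 1
  ext ⟨x, z⟩
  simp only [Prod.swap_prod_mk]
  rw [hs z x, mul_comm (a z)]

theorem BF_sub_left_HiA1 {w : V × V → ℝ} (hw : Integrable w (ρ.prod ρ))
    {a b c : V → ℝ} (ha : Bd a) (hb : Bd b) (hc : Bd c) (s : ℝ) :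
    BF ρ w (fun x => a x - s * b x) c
      = BF ρ w a c - s * BF ρ w b c := by
  unfold BF
  rw [← integral_const_mul, ← integral_sub (integrable_BF_HiA1 hw ha hc)
    ((integrable_BF_HiA1 hw hb hc).const_mul s)]
  congr 1
  ext p
  ring

/-- negative on a hyperplane implies the reverse Cauchy-Schwarz inequality -/
theorem hyp_of_neg_HiA1 {w : V × V → ℝ} (hw : Integrable w (ρ.prod ρ))
    (hs : ∀ x z, w (x, z) = w (z, x)) (ℓ : (V → ℝ) → ℝ) {ξ η : V → ℝ} (hξ : Bd ξ) (hη : Bd η)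
    (hℓ : ∀ s, ℓ (fun x => ξ x - s * η x) = ℓ ξ - s * ℓ η) (h0 : ℓ η ≠ 0)
    (hη0 : 0 ≤ BF ρ w η η)
    (neg : ∀ ζ, Bd ζ → ℓ ζ = 0 → BF ρ w ζ ζ ≤ 0) :
    BF ρ w ξ ξ * BF ρ w η η ≤ BF ρ w ξ η ^ 2 := by
  set s := ℓ ξ / ℓ η
  have hz := hξ.sub_mul hη s
  have h1 := neg _ hz (by rw [hℓ]; simp only [s]; field_simp; ring)
  rw [BF_sub_left_HiA1 hw hξ hη hz, BF_symm_HiA1 hs ξ, BF_symm_HiA1 hs η, BF_sub_left_HiA1 hw hξ hη hξ,
    BF_sub_left_HiA1 hw hξ hη hη, BF_symm_HiA1 hs η ξ] at h1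
  nlinarith [mul_nonneg hη0 (neg_nonneg.2 h1),
    sq_nonneg (BF ρ w ξ η - s * BF ρ w η η)]

theorem hyp_base_HiA1 {T : V →L[ℝ] V} (hT : Ex T 1) {ξ η : V → ℝ} (hξ : Bd ξ) (hη : Pos η) :
    BF ρ (fun p => D ![T p.1, T p.2]) ξ ξ
        * BF ρ (fun p => D ![T p.1, T p.2]) η η
      ≤ BF ρ (fun p => D ![T p.1, T p.2]) ξ η ^ 2 := by
  have hi := integrable_norm_T_HiA1 (ρ := ρ) hT.le
  have hm : ∀ {a : V → ℝ}, Bd a → Integrable (fun x => ‖T x‖ * a x) ρ := by
    intro a ha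
    obtain ⟨A, hA⟩ := ha.bdd
    exact hi.mul_bdd ha.meas.aestronglyMeasurable (ae_of_all _ hA)
  refine hyp_of_neg_HiA1 (integrable_D2_HiA1 hT.le) (fun x z => D_swap _ _ _)
    (fun a => ∫ x, ‖T x‖ * a x ∂ρ) hξ hη.bd (fun s => ?_) ?_ ?_ fun ζ hζ h => ?_
  · rw [← integral_const_mul, ← integral_sub (hm hξ) ((hm hη.bd).const_mul s)]
    congr 1
    ext x
    ring
  · obtain ⟨c, C, hc, h⟩ := hη.bdd
    refine ne_of_gt (lt_of_lt_of_le (mul_pos (cc_pos_HiA1 ρ) hc) ?_)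
    refine (mul_le_mul_of_nonneg_right (cc_le_HiA1 hT) hc.le).trans ?_
    rw [← integral_mul_const]
    exact integral_mono (hi.mul_const c) (hm hη.bd) fun x =>
      mul_le_mul_of_nonneg_left (h x).1 (norm_nonneg _)
  · exact integral_nonneg fun p => mul_nonneg (D_nonneg _) (mul_pos (hη.pos _) (hη.pos _)).le
  · exact ker_neg ρ (v := fun x => T x) (by fun_prop) hi hζ h

theorem om_zero_HiA1 (T : V →L[ℝ] V) (g : Fin 0 → V → ℝ) : omR ρ T g = fun p => D ![T p.1, T p.2] := by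
  ext ⟨x, z⟩
  rw [om_eq2_HiA1]
  simp [IIR_HiA1]

theorem integrable_trickle_HiA1 {w : V × V → ℝ} (hm : Measurable w)
    (hw : Integrable w (ρ.prod ρ)) (h0 : ∀ p, 0 ≤ w p)
    {g : V → ℝ} (hg : Bd g) :
    Integrable (fun x => (∫ z, w (x, z) * g z ∂ρ) ^ 2
      / ∫ z, w (x, z) ∂ρ) ρ := by
  obtain ⟨A, hA⟩ := hg.bdd
  have m1 : Measurable fun x => ∫ z, w (x, z) * g z ∂ρ :=
    (StronglyMeasurable.integral_prod_right (f := fun x z => w (x, z) * g z)
      (hm.mul (hg.meas.comp measurable_snd)).stronglyMeasurable).measurable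
  have m2 : Measurable fun x => ∫ z, w (x, z) ∂ρ :=
    (StronglyMeasurable.integral_prod_right (f := fun x z => w (x, z))
      hm.stronglyMeasurable).measurable
  refine Integrable.mono' (hw.integral_prod_left.const_mul (A ^ 2))
    ((m1.pow_const 2).div m2).aestronglyMeasurable ?_
  filter_upwards [hw.prod_right_ae] with x hx
  have hW : 0 ≤ ∫ z, w (x, z) ∂ρ := integral_nonneg fun z => h0 _
  have h1 : |∫ z, w (x, z) * g z ∂ρ| ≤ A * ∫ z, w (x, z) ∂ρ := by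
    rw [← integral_const_mul, ← Real.norm_eq_abs]
    refine norm_integral_le_of_norm_le (hx.const_mul A) (ae_of_all _ fun z => ?_)
    rw [Real.norm_eq_abs, abs_mul, abs_of_nonneg (h0 _), mul_comm]
    exact mul_le_mul_of_nonneg_right (hA z) (h0 _)
  rw [Real.norm_eq_abs, abs_of_nonneg (by positivity)]
  refine div_le_of_le_mul₀ hW (by positivity) ?_
  have := pow_le_pow_left₀ (abs_nonneg _) h1 2
  rw [sq_abs] at this
  nlinarith

theorem hyp_HiA1 : ∀ (r : ℕ) {T : V →L[ℝ] V}, Ex T (r + 2) → ∀ {g : Fin r → V → ℝ},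
    (∀ j, Pos (g j)) → ∀ {ξ η : V → ℝ}, Bd ξ → Pos η →
    BF ρ (omR ρ T g) ξ ξ * BF ρ (omR ρ T g) η η
      ≤ BF ρ (omR ρ T g) ξ η ^ 2
  | 0, T, hT, g, _, ξ, η, hξ, hη => by
    rw [om_zero_HiA1]; exact hyp_base_HiA1 (hT.mono (by omega)) hξ hη
  | r + 1, T, hT, g, hg, ξ, η, hξ, hη => by
    obtain ⟨m, g', rfl⟩ : ∃ (m : V → ℝ) (g' : Fin r → V → ℝ), g = Fin.cons m g' :=
      ⟨g 0, Fin.tail g, (Fin.cons_self_tail g).symm⟩
    have hm : Pos m := hg 0
    have hg' : ∀ j, Pos (g' j) := fun j => hg j.succ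
    have hb : ∀ j, Bd ((Fin.cons m g' : Fin (r + 1) → V → ℝ) j) := fun j => (hg j).bd
    set ω := omR ρ T (Fin.cons m g' : Fin (r + 1) → V → ℝ) with hω
    have hωi : Integrable ω (ρ.prod ρ) := integrable_om_HiA1 hT hg
    set w : V × V → ℝ := fun p => ω p * (m p.1 * m p.2) with hw
    have hwm : Measurable w := (measurable_om_HiA1 T hb).mul
      ((hm.meas.comp measurable_fst).mul (hm.meas.comp measurable_snd))
    have hwB : ∀ a b : V → ℝ, BF ρ w a b
        = BF ρ ω (fun x => a x * m x) fun x => b x * m x := fun a b => by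
      unfold BF
      congr 1
      ext p
      simp only [hw]
      ring
    obtain ⟨c, C, hc, hcC⟩ := om_bounds_HiA1 (ρ := ρ) hT hg
    obtain ⟨c', C', hc', hm'⟩ := hm.bdd
    have hω0 : ∀ p, 0 ≤ ω p := fun p => (mul_nonneg hc.le (D_nonneg _)).trans (hcC p).1
    have hw0 : ∀ p, 0 ≤ w p := fun p => mul_nonneg (hω0 p) (mul_pos (hm.pos _) (hm.pos _)).le
    have hII : ∀ {a b : V → ℝ}, Pos a → Pos b → 0 < BF ρ ω a b := by
      intro a b ha hb'
      rw [hω, ← II_eq_BF_HiA1 hT hg ha.bd hb'.bd]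
      obtain ⟨c1, C1, hc1, h1⟩ := II_bounds_HiA1 (ρ := ρ) (pos_cons ha (pos_cons hb' hg))
      exact hc1.trans_le (h1 T hT).1
    have key : ∀ a : V → ℝ, Bd a → BF ρ w a (fun _ => 1) = 0 →
        BF ρ w a a ≤ 0 := by
      intro a ha
      refine bochner ρ (w₀ := fun p => D ![T p.1, T p.2]) hwm (measurable_D2 T)
        (fun x z => by simp only [hw, hω]; rw [om_symm_HiA1, mul_comm (m x)]) (fun x z => D_swap _ _ _)
        (fun p => D_nonneg _) (integrable_D2_HiA1 hT.le) (integrable_D2_row_HiA1 hT.le)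
        (c := c * (c' * c')) (C := C * (C' * C')) (by positivity) (fun p => ⟨?_, ?_⟩) ?_
        (fun b hb' => hyp_base_HiA1 (hT.mono (by omega)) hb' Den.one.toPos) (fun b hb' => ?_) ha
      · have h1 := mul_le_mul (hm' p.1).1 (hm' p.2).1 hc'.le (hm.pos _).le
        calc c * (c' * c') * D ![T p.1, T p.2] = c * D ![T p.1, T p.2] * (c' * c') := by ring
          _ ≤ _ := mul_le_mul (hcC p).1 h1 (by positivity) (hω0 p)
      · have h1 := mul_le_mul (hm' p.1).2 (hm' p.2).2 (hm.pos _).le ((hm.pos _).le.trans (hm' p.1).2)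
        calc w p ≤ C * D ![T p.1, T p.2] * (C' * C') :=
            mul_le_mul (hcC p).2 h1 (mul_pos (hm.pos _) (hm.pos _)).le ((hω0 p).trans (hcC p).2)
          _ = _ := by ring
      · have h2 : Ex T (0 + 2) := hT.mono (by omega)
        have hp : ∀ j : Fin 0, Pos ((fun _ _ => 1 : Fin 0 → V → ℝ) j) := fun j => j.elim0
        rw [← om_zero_HiA1 (ρ := ρ) T fun _ _ => 1, ← II_eq_BF_HiA1 h2 hp bd_one bd_one]
        obtain ⟨c1, C1, hc1, h1⟩ := II_bounds_HiA1 (ρ := ρ)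
          (pos_cons Den.one.toPos (pos_cons Den.one.toPos hp))
        exact hc1.trans_le (h1 T h2).1
      · have hbm : Bd fun x => b x * m x := hb'.mul hm.bd
        have hgb : ∀ j, Bd (g' j) := fun j => (hg' j).bd
        have hperm : IIR_HiA1 ρ T (Fin.cons (fun x => b x * m x) (Fin.cons (fun x => b x * m x)
              (Fin.cons m g' : Fin (r + 1) → V → ℝ) : Fin (r + 2) → V → ℝ) : Fin (r + 3) → V → ℝ)
            = IIR_HiA1 ρ T (Fin.cons m (Fin.cons (fun x => b x * m x)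
              (Fin.cons (fun x => b x * m x) g' : Fin (r + 1) → V → ℝ) : Fin (r + 2) → V → ℝ) :
                Fin (r + 3) → V → ℝ) := by
          rw [← II_perm_HiA1 T (bd_cons hbm (bd_cons hbm hb)) (Equiv.swap 0 (Fin.succ (Fin.succ 0)))]
          congr 1
          funext j
          refine Fin.cases ?_ (fun j => Fin.cases ?_ (fun j => Fin.cases ?_ (fun j => ?_) j) j) j
          · rw [Equiv.swap_apply_left]; rfl
          · rw [Equiv.swap_apply_of_ne_of_ne (Fin.succ_ne_zero _)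
              fun h => Fin.succ_ne_zero _ (Fin.succ_injective _ h).symm]
            rfl
          · rw [Equiv.swap_apply_right]; rfl
          · rw [Equiv.swap_apply_of_ne_of_ne (Fin.succ_ne_zero _)
              fun h => Fin.succ_ne_zero _ (Fin.succ_injective _ (Fin.succ_injective _ h))]
            rfl
        obtain ⟨hi, he⟩ := II_cons_HiA1 (ρ := ρ) hT.le hm.bd (bd_cons hbm (bd_cons hbm hgb))
        rw [hwB, hω, ← II_eq_BF_HiA1 hT hg hbm hbm, hperm, he]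
        refine integral_mono hi (integrable_trickle_HiA1 hwm (integrable_BF_HiA1 hωi hm.bd hm.bd) hw0 hb')
          fun x => ?_
        have r1 : ∫ z, w (x, z) * b z ∂ρ = m x * (‖T x‖ *
            BF ρ (omR ρ (lk T x) g') (fun x => b x * m x) m) := by
          rw [← II_eq_BF_HiA1 (hT.lk x) hg' hbm hm.bd, ← row_om_HiA1 hT.le hb hbm x, ← integral_const_mul]
          congr 1
          ext z
          simp only [hw, hω]
          ring
        have r2 : ∫ z, w (x, z) ∂ρ = m x * (‖T x‖ *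
            BF ρ (omR ρ (lk T x) g') m m) := by
          rw [← II_eq_BF_HiA1 (hT.lk x) hg' hm.bd hm.bd, ← row_om_HiA1 hT.le hb hm.bd x, ← integral_const_mul]
          congr 1
          ext z
          simp only [hw, hω]
          ring
        have hq : 0 < BF ρ (omR ρ (lk T x) g') m m := by
          rw [← II_eq_BF_HiA1 (hT.lk x) hg' hm.bd hm.bd]
          obtain ⟨c1, C1, hc1, h1⟩ := II_bounds_HiA1 (ρ := ρ) (pos_cons hm (pos_cons hm hg'))
          exact hc1.trans_le (h1 _ (hT.lk x)).1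
        have ih := hyp_HiA1 r (hT.lk x) hg' hbm hm
        simp only
        rw [r1, r2, II_eq_BF_HiA1 (hT.lk x) hg' hbm hbm]
        rcases (norm_nonneg (T x)).eq_or_lt with h0 | h0
        · rw [← h0]; simp
        · rw [le_div_iff₀ (mul_pos (hm.pos x) (mul_pos h0 hq))]
          have := mul_le_mul_of_nonneg_left ih (sq_nonneg (m x * ‖T x‖))
          nlinarith
    refine hyp_of_neg_HiA1 hωi (om_symm_HiA1 T _) (fun a => BF ρ ω a m) hξ hη.bd
      (fun s => BF_sub_left_HiA1 hωi hξ hη.bd hm.bd s) (hII hη hm).ne' (hII hη hη).le fun ζ hζ h => ?_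
    have e : (fun x => ζ x / m x * m x) = ζ := funext fun x => div_mul_cancel₀ _ (hm.pos x).ne'
    have := key _ (hζ.div hm) (by rw [hwB, e]; simpa using h)
    rwa [hwB, e] at this

end copy

theorem hypR {ρ : Measure V} (hρ : Mom ρ) {c : ℝ} (hc : 0 < c)
    (hcρ : ENNReal.ofReal c • stdGaussian V ≤ ρ) :
    ∀ (r : ℕ) {T : V →L[ℝ] V}, Ex T (r + 2) → ∀ {g : Fin r → V → ℝ},
    (∀ j, Pos (g j)) → ∀ {ξ η : V → ℝ}, Bd ξ → Pos η →
    BF ρ (omR ρ T g) ξ ξ * BF ρ (omR ρ T g) η η ≤ BF ρ (omR ρ T g) ξ η ^ 2 := by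
  haveI := hρ.prob
  haveI : Fact (Good_HiA1 ρ) := ⟨good_HiA1 hρ hc hcρ⟩
  exact hyp_HiA1

end Pool.Agent.P.MP_181257_gt
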