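import Pool.Agent.P.MP_181257_gt.HiA1

/-! Alexandrov-Fenchel inequality for arbitrary measures. -/

set_option autoImplicit false
set_option linter.unusedSectionVars false
set_option linter.unusedVariables false

open MeasureTheory ProbabilityTheory Module Set Filter Topology
open scoped RealInnerProductSpace ENNReal Pointwise Matrix

noncomputable section

namespace Pool.Agent.P.MP_181257_gt

variable {V : Type} [NormedAddCommGroup V] [InnerProductSpace ℝ V] [FiniteDimensional ℝ V]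
  [MeasurableSpace V] [BorelSpace V]

theorem meas_HiA2 {r : ℕ} (U : Submodule ℝ V) :
    Measurable fun q : (V × V) × (Fin r → V) => D fun j =>
      pU U ((Fin.cons q.1.1 (Fin.cons q.1.2 q.2 : Fin (r + 1) → V) : Fin (r + 2) → V) j) := by
  have h : Measurable fun q : (V × V) × (Fin r → V) =>
      (Fin.cons q.1.1 (Fin.cons q.1.2 q.2 : Fin (r + 1) → V) : Fin (r + 2) → V) := by fun_prop
  exact measurable_D (measurable_pi_lambda _ fun j =>
    (pU U).continuous.measurable.comp ((measurable_pi_apply j).comp h))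

theorem le_HiA2 {r : ℕ} (U : Submodule ℝ V) (p : V × V) (y : Fin r → V) :
    (D fun j => pU U ((Fin.cons p.1 (Fin.cons p.2 y : Fin (r + 1) → V) : Fin (r + 2) → V) j))
      ≤ ‖p.1‖ * ‖p.2‖ * ∏ j, ‖y j‖ := by
  refine (D_le_prod _).trans ((Finset.prod_le_prod (fun _ _ => norm_nonneg _)
    fun j _ => norm_pU_le U _).trans (le_of_eq ?_))
  simp [Fin.prod_univ_succ, mul_assoc]

theorem measurable_omU {μ : Measure V} (hμ : Mom μ) (r : ℕ) (U : Submodule ℝ V) :
    Measurable (omU μ r U) := by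
  have := hμ.prob
  exact ((meas_HiA2 (r := r) U).stronglyMeasurable.integral_prod_right' (ν := mk μ r)).measurable

theorem omU_bound {μ : Measure V} (hμ : Mom μ) (r : ℕ) (U : Submodule ℝ V) (p : V × V) :
    0 ≤ omU μ r U p ∧ omU μ r U p ≤ ‖p.1‖ * ‖p.2‖ * (∫ x, ‖x‖ ∂μ) ^ r := by
  have := hμ.prob
  refine ⟨integral_nonneg fun _ => D_nonneg _, ?_⟩
  refine (integral_mono_of_nonneg (ae_of_all _ fun _ => D_nonneg _)
    ((integrable_prod_norm_mk hμ r).const_mul (‖p.1‖ * ‖p.2‖))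
    (ae_of_all _ fun y => le_HiA2 U p y)).trans (le_of_eq ?_)
  rw [integral_const_mul, integral_fintype_prod_eq_pow (fun x : V => ‖x‖), Fintype.card_fin]

theorem omU_symm (μ : Measure V) (r : ℕ) (U : Submodule ℝ V) (x z : V) :
    omU μ r U (x, z) = omU μ r U (z, x) := by
  have h : ∀ (a b : V) (y : Fin r → V),
      (fun j => pU U ((Fin.cons a (Fin.cons b y : Fin (r + 1) → V) : Fin (r + 2) → V) j)) =
      (Fin.cons (pU U a) (Fin.cons (pU U b) fun j => pU U (y j) : Fin (r + 1) → V) :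
        Fin (r + 2) → V) := fun a b y => by
    funext j
    refine Fin.cases rfl (fun j => Fin.cases rfl (fun j => rfl) j) j
  unfold omU
  simp only [h]
  exact integral_congr_ae (ae_of_all _ fun y => D_swap _ _ _)

theorem dens_HiA2 {ν ρ : Measure V} [IsFiniteMeasure ν] [IsFiniteMeasure ρ]
    (h : ν ≤ (3 : ℝ≥0∞) • ρ) : ∃ p : V → ℝ, Measurable p ∧ (∀ x, 0 ≤ p x ∧ p x ≤ 3) ∧
      ν = ρ.withDensity fun x => ENNReal.ofReal (p x) := by
  have : IsFiniteMeasure ((3 : ℝ≥0∞) • ρ) := Measure.smul_finite ρ (by simp)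
  refine ⟨fun x => 3 * (min (ν.rnDeriv ((3 : ℝ≥0∞) • ρ) x) 1).toReal, by fun_prop,
    fun x => ⟨by positivity, ?_⟩, ?_⟩
  · have : (min (ν.rnDeriv ((3 : ℝ≥0∞) • ρ) x) 1).toReal ≤ 1 :=
      ENNReal.toReal_le_of_le_ofReal zero_le_one (by simp)
    linarith
  · have h1 := Measure.withDensity_rnDeriv_eq ν _ (Measure.absolutelyContinuous_of_le h)
    have h2 := Measure.rnDeriv_le_one_of_le h
    rw [Filter.EventuallyLE, Measure.ae_ennreal_smul_measure_iff (by simp)] at h2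
    rw [withDensity_smul_measure, ← withDensity_smul' _ _ (by simp)] at h1
    conv_lhs => rw [← h1]
    refine withDensity_congr_ae ?_
    filter_upwards [h2] with x hx
    rw [Pi.one_apply] at hx
    rw [min_eq_left hx, ENNReal.ofReal_mul (by norm_num),
      ENNReal.ofReal_toReal (ne_top_of_le_ne_top (by simp) hx)]
    simp

theorem pi_HiA2 {ρ : Measure V} [IsFiniteMeasure ρ] {p : V → ℝ} (hp : Measurable p)
    (h : ∀ x, 0 ≤ p x ∧ p x ≤ 3) (r : ℕ) :
    mk (ρ.withDensity fun x => ENNReal.ofReal (p x)) r =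
      (mk ρ r).withDensity fun y => ENNReal.ofReal (∏ j, p (y j)) := by
  have hb : Bd p := ⟨hp, 3, fun x => by rw [abs_of_nonneg (h x).1]; exact (h x).2⟩
  have : IsFiniteMeasure (ρ.withDensity fun x => ENNReal.ofReal (p x)) :=
    isFiniteMeasure_withDensity_ofReal (hb.integrable ρ).2
  refine Measure.pi_eq fun s hs => ?_
  rw [withDensity_apply _ (MeasurableSet.univ_pi hs), Measure.restrict_pi_pi,
    ← ofReal_integral_eq_lintegral_ofReal
      (Integrable.fintype_prod (f := fun _ : Fin r => p) fun j => hb.integrable _)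
      (ae_of_all _ fun y => Finset.prod_nonneg fun j _ => (h _).1),
    integral_fintype_prod_eq_prod (fun _ : Fin r => p),
    ENNReal.ofReal_prod_of_nonneg fun j _ => integral_nonneg fun x => (h x).1]
  refine Finset.prod_congr rfl fun j _ => ?_
  rw [withDensity_apply _ (hs j), ofReal_integral_eq_lintegral_ofReal (hb.integrable _)
    (ae_of_all _ fun x => (h x).1)]

theorem omU_eq_HiA2 {ρ : Measure V} [IsFiniteMeasure ρ] {p : V → ℝ} (hp : Measurable p)
    (h : ∀ x, 0 ≤ p x ∧ p x ≤ 3) (r : ℕ) (U : Submodule ℝ V) :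
    omU (ρ.withDensity fun x => ENNReal.ofReal (p x)) r U = omR ρ (pU U) fun _ : Fin r => p := by
  funext q
  rw [omU, omR, pi_HiA2 hp h, integral_withDensity_eq_integral_toReal_smul (by fun_prop)
    (ae_of_all _ fun _ => ENNReal.ofReal_lt_top)]
  refine integral_congr_ae (ae_of_all _ fun y => ?_)
  simp only [smul_eq_mul]
  rw [ENNReal.toReal_ofReal (Finset.prod_nonneg fun j _ => (h _).1), mul_comm]

theorem BF_eq_HiA2 {ρ : Measure V} [IsFiniteMeasure ρ] {s : V → ℝ} (hs : Measurable s)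
    (h : ∀ x, 0 ≤ s x ∧ s x ≤ 3) (w : V × V → ℝ) (a b : V → ℝ) :
    BF (ρ.withDensity fun x => ENNReal.ofReal (s x)) w a b =
      BF ρ w (fun x => a x * s x) fun x => b x * s x := by
  rw [BF, BF, prod_withDensity (by fun_prop) (by fun_prop),
    integral_withDensity_eq_integral_toReal_smul (by fun_prop)
    (ae_of_all _ fun _ => ENNReal.mul_lt_top ENNReal.ofReal_lt_top ENNReal.ofReal_lt_top)]
  refine integral_congr_ae (ae_of_all _ fun y => ?_)
  simp only [smul_eq_mul]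
  rw [ENNReal.toReal_mul, ENNReal.toReal_ofReal (h _).1, ENNReal.toReal_ofReal (h _).1]
  ring

theorem cont_HiA2 {ρ : Measure V} (hρ : Mom ρ) {p : V → ℝ} (hp : Measurable p)
    (h : ∀ x, 0 ≤ p x ∧ p x ≤ 3) (r : ℕ) (U : Submodule ℝ V) {a b : V → ℝ} (ha : Bd a)
    (hb : Bd b) (α β : ℝ) :
    ContinuousAt (fun δ : ℝ => BF ρ (omR ρ (pU U) fun (_ : Fin r) x => p x + δ)
      (fun x => a x + δ * α) fun x => b x + δ * β) 0 := by
  have := hρ.prob
  obtain ⟨A, hA⟩ := ha.bdd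
  obtain ⟨B, hB⟩ := hb.bdd
  have ham := ha.meas
  have hbm := hb.meas
  have e1 : ∀ᶠ δ : ℝ in 𝓝 0, |δ| ≤ 1 := by
    filter_upwards [Metric.closedBall_mem_nhds (0 : ℝ) one_pos] with δ hδ
    simpa using hδ
  have m1 : ∀ δ : ℝ, Measurable fun q : (V × V) × (Fin r → V) => (D fun j =>
      pU U ((Fin.cons q.1.1 (Fin.cons q.1.2 q.2 : Fin (r + 1) → V) : Fin (r + 2) → V) j)) *
      ∏ j, (p (q.2 j) + δ) := fun δ => (meas_HiA2 U).mul (by fun_prop)
  have b1 : ∀ δ : ℝ, |δ| ≤ 1 → ∀ (q : V × V) (y : Fin r → V), ‖(D fun j =>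
      pU U ((Fin.cons q.1 (Fin.cons q.2 y : Fin (r + 1) → V) : Fin (r + 2) → V) j)) *
      ∏ j, (p (y j) + δ)‖ ≤ ‖q.1‖ * ‖q.2‖ * 4 ^ r * ∏ j, ‖y j‖ := fun δ hδ q y => by
    rw [Real.norm_eq_abs, abs_mul, abs_of_nonneg (D_nonneg _), Finset.abs_prod, mul_right_comm]
    refine mul_le_mul (le_HiA2 U q y) ?_ (by positivity) (by positivity)
    refine (Finset.prod_le_prod (fun _ _ => abs_nonneg _) (g := fun _ => (4 : ℝ))
      fun j _ => ?_).trans (by simp)
    obtain ⟨h1, h2⟩ := h (y j)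
    obtain ⟨h3, h4⟩ := abs_le.1 hδ
    rw [abs_le]; constructor <;> linarith
  have i1 : ∀ q : V × V, Integrable (fun y : Fin r → V => ‖q.1‖ * ‖q.2‖ * 4 ^ r * ∏ j, ‖y j‖)
      (mk ρ r) := fun q => (integrable_prod_norm_mk hρ r).const_mul _
  have c1 : ∀ q : V × V,
      ContinuousAt (fun δ : ℝ => omR ρ (pU U) (fun (_ : Fin r) x => p x + δ) q) 0 := fun q =>
    continuousAt_of_dominated
      (Eventually.of_forall fun δ => ((m1 δ).comp measurable_prodMk_left).aestronglyMeasurable)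
      (e1.mono fun δ hδ => ae_of_all _ (b1 δ hδ q)) (i1 q) (ae_of_all _ fun y => by fun_prop)
  refine continuousAt_of_dominated
    (bound := fun q : V × V => ‖q.1‖ * ‖q.2‖ * (4 ^ r * (∫ y, ∏ j, ‖y j‖ ∂(mk ρ r)) *
      ((A + |α|) * (B + |β|)))) (Eventually.of_forall fun δ => ?_)
    (e1.mono fun δ hδ => ae_of_all _ fun q => ?_) ((hρ.int.mul_prod hρ.int).mul_const _)
    (ae_of_all _ fun q => (c1 q).mul (by fun_prop))
  · exact (((m1 δ).stronglyMeasurable.integral_prod_right' (ν := mk ρ r)).measurable.mul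
      (by fun_prop)).aestronglyMeasurable
  · have a1 := norm_integral_le_of_norm_le (i1 q) (ae_of_all _ (b1 δ hδ q))
    rw [integral_const_mul, mul_assoc] at a1
    have a2 : ∀ x C γ : ℝ, |x| ≤ C → |x + δ * γ| ≤ C + |γ| := fun x C γ hx =>
      (abs_add_le _ _).trans (add_le_add hx (by
        rw [abs_mul]; exact mul_le_of_le_one_left (abs_nonneg _) hδ))
    rw [norm_mul, norm_mul, ← mul_assoc (‖q.1‖ * ‖q.2‖)]
    exact mul_le_mul a1 (mul_le_mul (a2 _ _ _ (hA _)) (a2 _ _ _ (hB _)) (norm_nonneg _)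
      ((abs_nonneg _).trans (a2 _ _ α (hA q.1)))) (by positivity) ((norm_nonneg _).trans a1)

theorem hypM {μ κ : Measure V} (hμ : Mom μ) (hκ : Mom κ) (r : ℕ) (U : Submodule ℝ V)
    {ξ η : V → ℝ} (hξ : Bd ξ) (hη : Bd η) (h0 : ∀ x, 0 ≤ η x) :
    BF κ (omU μ r U) ξ ξ * BF κ (omU μ r U) η η ≤ BF κ (omU μ r U) ξ η ^ 2 := by
  rcases lt_or_ge (finrank ℝ U) (r + 2) with hU | hU
  · have : omU μ r U = fun _ => 0 := by
      funext q
      simp [omU, D_pU_eq_zero hU]
    simp [this, BF]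
  have := hμ.prob
  have := hκ.prob
  have hγ : Integrable (fun x => ‖x‖) (stdGaussian V) := IsGaussian.integrable_id.norm
  obtain ⟨ρ, hρ⟩ : ∃ ρ : Measure V, ρ = (3 : ℝ≥0∞)⁻¹ • (μ + κ + stdGaussian V) := ⟨_, rfl⟩
  have h3 : (3 : ℝ≥0∞) • ρ = μ + κ + stdGaussian V := by
    rw [hρ, smul_smul, ENNReal.mul_inv_cancel (by simp) (by simp), one_smul]
  have hm : Mom ρ := by
    refine ⟨⟨?_⟩, ?_⟩
    · rw [hρ]
      simp only [Measure.smul_apply, Measure.add_apply, measure_univ, smul_eq_mul]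
      rw [show (1 : ℝ≥0∞) + 1 + 1 = 3 by norm_num, ENNReal.inv_mul_cancel (by simp) (by simp)]
    · rw [hρ]
      exact ((hμ.int.add_measure hκ.int).add_measure hγ).smul_measure (by simp)
  have := hm.prob
  obtain ⟨p, p1, p2, p3⟩ := dens_HiA2 (ν := μ) (ρ := ρ)
    (by rw [h3, add_assoc]; exact Measure.le_add_right le_rfl)
  obtain ⟨s, s1, s2, s3⟩ := dens_HiA2 (ν := κ) (ρ := ρ)
    (by rw [h3]; exact Measure.le_add_right (Measure.le_add_left le_rfl))
  have hg : ENNReal.ofReal (1 / 3) • stdGaussian V ≤ ρ := by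
    rw [hρ, one_div, ENNReal.ofReal_inv_of_pos (by norm_num), ENNReal.ofReal_ofNat, smul_add]
    exact Measure.le_add_left le_rfl
  have hs : Bd s := ⟨s1, 3, fun x => by rw [abs_of_nonneg (s2 x).1]; exact (s2 x).2⟩
  have hE : Ex (pU U) (r + 2) :=
    ⟨norm_pU_le U, U, hU, fun u hu => Submodule.starProjection_eq_self_iff.2 hu⟩
  have ha := hξ.mul hs
  have hb := hη.mul hs
  have c1 := ((cont_HiA2 hm p1 p2 r U ha ha 0 0).mul (cont_HiA2 hm p1 p2 r U hb hb 1 1)).tendsto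
  have c2 := ((cont_HiA2 hm p1 p2 r U ha hb 0 1).pow 2).tendsto
  have key := le_of_tendsto_of_tendsto (c1.mono_left (nhdsWithin_le_nhds (s := Ioi 0)))
    (c2.mono_left nhdsWithin_le_nhds) (eventually_nhdsWithin_of_forall fun δ (hδ : 0 < δ) => by
      obtain ⟨A, hA⟩ := ha.bdd
      obtain ⟨B, hB⟩ := hb.bdd
      refine hypR hm (by norm_num) hg r hE (fun _ => ⟨by fun_prop, δ, 3 + δ, hδ, fun x => ?_⟩)
        ⟨ha.meas.add_const _, A, fun x => by simpa using hA x⟩
        ⟨hb.meas.add_const _, δ, B + δ, hδ, fun x => ?_⟩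
      · constructor <;> linarith [(p2 x).1, (p2 x).2]
      · have := mul_nonneg (h0 x) (s2 x).1
        have := (le_abs_self _).trans (hB x)
        constructor <;> linarith)
  simp only [Pi.mul_apply, Pi.pow_apply, add_zero, zero_mul] at key
  rw [p3, s3, omU_eq_HiA2 p1 p2, BF_eq_HiA2 s1 s2, BF_eq_HiA2 s1 s2, BF_eq_HiA2 s1 s2]
  exact key

end Pool.Agent.P.MP_181257_gt
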