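import Pool.Agent.P.MP_181257_gt.HiA2

/-! Negative correlation in the links. -/

set_option autoImplicit false
set_option linter.unusedSectionVars false
set_option linter.unusedVariables false

open MeasureTheory ProbabilityTheory Module Set Filter Topology
open scoped RealInnerProductSpace ENNReal Pointwise Matrix

noncomputable section

namespace Pool.Agent.P.MP_181257_gt

variable {V : Type} [NormedAddCommGroup V] [InnerProductSpace ℝ V] [FiniteDimensional ℝ V]
  [MeasurableSpace V] [BorelSpace V]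

theorem integrable_IU_HiA3 {μ : Measure V} (hμ : Mom μ) {k : ℕ} (U : Submodule ℝ V)
    {F : (Fin k → V) → ℝ} (hF : Bd F) :
    Integrable (fun x : Fin k → V => D (fun j => pU U (x j)) * F x) (mk μ k) := by
  obtain ⟨C, hC⟩ := hF.bdd
  exact (integrable_D_mk hμ k U).mul_bdd hF.meas.aestronglyMeasurable
    (Eventually.of_forall fun x => by simpa using hC x)

theorem D_pU_cons_HiA3 {k : ℕ} (U : Submodule ℝ V) (a : V) (x : Fin k → V) :
    D (fun j => pU U ((Fin.cons a x : Fin (k + 1) → V) j))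
      = ‖pU U a‖ * D fun j => pU (U ⊓ (ℝ ∙ pU U a)ᗮ) (x j) := by
  have h : (fun j => pU U ((Fin.cons a x : Fin (k + 1) → V) j))
      = (Fin.cons (pU U a) (fun j => pU U (x j)) : Fin (k + 1) → V) := by
    funext j
    refine Fin.cases ?_ (fun i => ?_) j <;> simp
  rw [h, D_cons]
  simp only [pr_pU]

theorem IU_cons {μ : Measure V} (hμ : Mom μ) {k : ℕ} (U : Submodule ℝ V)
    {F : (Fin (k + 1) → V) → ℝ} (hF : Bd F) :
    Integrable (fun a => ‖pU U a‖ *
      IU μ k (U ⊓ (ℝ ∙ pU U a)ᗮ) fun x => F (Fin.cons a x)) μ ∧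
    IU μ (k + 1) U F
      = ∫ a, ‖pU U a‖ * IU μ k (U ⊓ (ℝ ∙ pU U a)ᗮ) (fun x => F (Fin.cons a x)) ∂μ := by
  have := hμ.prob
  have hi := integrable_IU_HiA3 hμ U hF
  have hm := mp_cons (k := k) μ
  have hi2 := hm.integrable_comp_of_integrable hi
  have key : ∀ a : V, ∫ x, D (fun j => pU U ((Fin.cons a x : Fin (k + 1) → V) j))
      * F (Fin.cons a x) ∂(mk μ k)
      = ‖pU U a‖ * IU μ k (U ⊓ (ℝ ∙ pU U a)ᗮ) fun x => F (Fin.cons a x) := by
    intro a
    unfold IU
    rw [← integral_const_mul]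
    refine integral_congr_ae (Eventually.of_forall fun x => ?_)
    simp only [D_pU_cons_HiA3]
    ring
  refine ⟨?_, ?_⟩
  · have h := hi2.integral_prod_left
    simp only [Function.comp] at h
    simpa only [key] using h
  · have h1 := af_mp_integral hm hi.aestronglyMeasurable
    have h2 := integral_prod _ hi2
    simp only [Function.comp] at h2
    simp only [key] at h2
    rw [← h2, h1]
    rfl

theorem IU_perm {μ : Measure V} (hμ : Mom μ) {k : ℕ} (U : Submodule ℝ V)
    {F : (Fin k → V) → ℝ} (hF : Bd F) (σ : Equiv.Perm (Fin k)) :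
    IU μ k U (fun x => F fun j => x (σ j)) = IU μ k U F := by
  have := hμ.prob
  have hi := integrable_IU_HiA3 hμ U hF
  have h1 := af_mp_integral (mp_perm μ σ) hi.aestronglyMeasurable
  unfold IU
  rw [← h1]
  refine integral_congr_ae (Eventually.of_forall fun x => ?_)
  simp only []
  rw [D_perm (fun j => pU U (x j)) σ]

theorem Bd_two_HiA3 {k : ℕ} {φ ψ : V → ℝ} (hφ : Bd φ) (hψ : Bd ψ) (j j' : Fin k) :
    Bd fun x : Fin k → V => φ (x j) * ψ (x j') := by
  obtain ⟨C, hC⟩ := hφ.bdd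
  obtain ⟨C', hC'⟩ := hψ.bdd
  refine ⟨(hφ.meas.comp (measurable_pi_apply j)).mul (hψ.meas.comp (measurable_pi_apply j')),
    C * C', fun x => ?_⟩
  rw [abs_mul]
  exact mul_le_mul (hC _) (hC' _) (abs_nonneg _) ((abs_nonneg _).trans (hC (x j)))

theorem IU_eq_BF_HiA3 {μ : Measure V} (hμ : Mom μ) {r : ℕ} (U : Submodule ℝ V) {φ ψ : V → ℝ}
    (hφ : Bd φ) (hψ : Bd ψ) :
    IU μ (r + 2) U (fun x => φ (x 0) * ψ (x 1)) = BF μ (omU μ r U) φ ψ := by
  have := hμ.prob
  have hi := integrable_IU_HiA3 hμ U (Bd_two_HiA3 hφ hψ (0 : Fin (r + 2)) 1)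
  have hm : MeasurePreserving (fun q : (V × V) × (Fin r → V) =>
      (Fin.cons q.1.1 (Fin.cons q.1.2 q.2 : Fin (r + 1) → V) : Fin (r + 2) → V))
      ((μ.prod μ).prod (mk μ r)) (mk μ (r + 2)) :=
    ((mp_cons (k := r + 1) μ).comp
      ((MeasurePreserving.id μ).prod (mp_cons (k := r) μ))).comp
      (measurePreserving_prodAssoc μ μ (mk μ r))
  have hi2 := hm.integrable_comp_of_integrable hi
  have h1 := af_mp_integral hm hi.aestronglyMeasurable
  have h2 := integral_prod _ hi2
  simp only [Function.comp] at h2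
  unfold IU BF
  rw [← h1, h2]
  refine integral_congr_ae (Eventually.of_forall fun p => ?_)
  simp only [omU]
  rw [← integral_mul_const]
  rfl

theorem offdiag_HiA3 {μ : Measure V} (hμ : Mom μ) {r : ℕ} (U : Submodule ℝ V) {φ : V → ℝ}
    (hφ : Bd φ) (h0 : IU μ (r + 2) U (fun x => φ (x 0)) = 0) :
    IU μ (r + 2) U (fun x => φ (x 0) * φ (x 1)) ≤ 0 := by
  have h1 : Bd (fun _ : V => (1 : ℝ)) := ⟨measurable_const, 1, fun _ => by simp⟩
  have hyp := hypM hμ hμ r U hφ h1 (fun _ => zero_le_one)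
  rw [← IU_eq_BF_HiA3 hμ U hφ hφ, ← IU_eq_BF_HiA3 hμ U h1 h1, ← IU_eq_BF_HiA3 hμ U hφ h1] at hyp
  simp only [mul_one] at hyp
  rw [h0] at hyp
  have hn : 0 ≤ IU μ (r + 2) U (fun _ => 1) :=
    integral_nonneg fun x => mul_nonneg (D_nonneg _) zero_le_one
  rcases hn.eq_or_lt with he | hp
  · obtain ⟨C, hC⟩ := (Bd_two_HiA3 hφ hφ (0 : Fin (r + 2)) 1).bdd
    have hle : IU μ (r + 2) U (fun x => φ (x 0) * φ (x 1)) ≤ C * IU μ (r + 2) U (fun _ => 1) := by
      unfold IU
      rw [← integral_const_mul]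
      refine integral_mono (integrable_IU_HiA3 hμ U (Bd_two_HiA3 hφ hφ 0 1))
        ((integrable_IU_HiA3 hμ U ⟨measurable_const, 1, fun _ => by simp⟩).const_mul C) fun x => ?_
      have h2 := (abs_le.1 (hC x)).2
      have h3 := D_nonneg fun j => pU U (x j)
      simp only []
      nlinarith
    rw [← he] at hle
    simpa using hle
  · by_contra hc
    have := mul_pos (not_le.1 hc) hp
    nlinarith

theorem es_sum {μ : Measure V} (hμ : Mom μ) {k : ℕ} (U : Submodule ℝ V) {φ : V → ℝ} (hφ : Bd φ)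
    (h0 : IU μ (k + 1) U (fun x => φ (x 0)) = 0) :
    IU μ (k + 1) U (fun x => (∑ j, φ (x j)) ^ 2)
      ≤ (k + 1 : ℝ) * IU μ (k + 1) U fun x => φ (x 0) ^ 2 := by
  have hexp : IU μ (k + 1) U (fun x => (∑ j, φ (x j)) ^ 2)
      = ∑ j, ∑ j', IU μ (k + 1) U fun x => φ (x j) * φ (x j') := by
    unfold IU
    simp only [sq, Finset.sum_mul_sum]
    simp only [Finset.mul_sum]
    rw [integral_finsetSum]
    · refine Finset.sum_congr rfl fun j _ => ?_
      rw [integral_finsetSum]
      exact fun j' _ => integrable_IU_HiA3 hμ U (Bd_two_HiA3 hφ hφ j j')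
    · exact fun j _ => integrable_finsetSum _
        fun j' _ => integrable_IU_HiA3 hμ U (Bd_two_HiA3 hφ hφ j j')
  have hdiag : ∀ j : Fin (k + 1), (IU μ (k + 1) U fun x => φ (x j) * φ (x j))
      = IU μ (k + 1) U fun x => φ (x 0) ^ 2 := by
    intro j
    have h := IU_perm hμ U (Bd_two_HiA3 hφ hφ (0 : Fin (k + 1)) 0) (Equiv.swap 0 j)
    simp only [Equiv.swap_apply_left] at h
    simp only [sq]
    exact h
  have hoff : ∀ j j' : Fin (k + 1), j' ≠ j →
      (IU μ (k + 1) U fun x => φ (x j) * φ (x j')) ≤ 0 := by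
    intro j j' hne
    cases k with
    | zero => exact absurd (Subsingleton.elim (α := Fin 1) j' j) hne
    | succ r =>
      have h := IU_perm hμ U (Bd_two_HiA3 hφ hφ (0 : Fin (r + 2)) 1)
        (Equiv.swap 0 j * Equiv.swap 1 (Equiv.swap 0 j j'))
      have hne0 : (0 : Fin (r + 2)) ≠ Equiv.swap 0 j j' := by
        intro h0'
        apply hne
        have := congrArg (Equiv.swap 0 j) h0'
        simpa using this.symm
      have e0 : (Equiv.swap 0 j * Equiv.swap 1 (Equiv.swap 0 j j')) 0 = j := by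
        rw [Equiv.Perm.mul_apply, Equiv.swap_apply_of_ne_of_ne zero_ne_one hne0,
          Equiv.swap_apply_left]
      have e1 : (Equiv.swap 0 j * Equiv.swap 1 (Equiv.swap 0 j j')) 1 = j' := by
        rw [Equiv.Perm.mul_apply, Equiv.swap_apply_left, Equiv.swap_apply_self]
      simp only [e0, e1] at h
      rw [h]
      exact offdiag_HiA3 hμ U hφ h0
  rw [hexp]
  calc ∑ j, ∑ j', IU μ (k + 1) U (fun x => φ (x j) * φ (x j'))
      ≤ ∑ _j : Fin (k + 1), IU μ (k + 1) U fun x => φ (x 0) ^ 2 := by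
        refine Finset.sum_le_sum fun j _ => ?_
        rw [← Finset.add_sum_erase _ _ (Finset.mem_univ j), hdiag j]
        have : ∑ j' ∈ Finset.univ.erase j, IU μ (k + 1) U (fun x => φ (x j) * φ (x j')) ≤ 0 :=
          Finset.sum_nonpos fun j' hj' => hoff j j' (Finset.ne_of_mem_erase hj')
        linarith
    _ = _ := by simp

end Pool.Agent.P.MP_181257_gt
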