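import Pool.Agent.P.MP_181257_gt.HiA3

/-! The Efron-Stein inequality for frame laws. -/

set_option autoImplicit false
set_option linter.unusedSectionVars false
set_option linter.unusedVariables false

open MeasureTheory ProbabilityTheory Module Set Filter Topology
open scoped RealInnerProductSpace ENNReal Pointwise Matrix

noncomputable section

namespace Pool.Agent.P.MP_181257_gt

variable {V : Type} [NormedAddCommGroup V] [InnerProductSpace ℝ V] [FiniteDimensional ℝ V]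
  [MeasurableSpace V] [BorelSpace V]

theorem bd_sq_HiA4 {X : Type} [MeasurableSpace X] {F : X → ℝ} (hF : Bd F) :
    Bd fun x => F x ^ 2 := by
  have := AFK.bd_mul hF hF
  simpa only [sq] using this

theorem bd_sub_HiA4 {X : Type} [MeasurableSpace X] {F G : X → ℝ} (hF : Bd F) (hG : Bd G) :
    Bd fun x => F x - G x := by
  have := AFK.bd_add hF (AFK.bd_mul (AFK.bd_const (-1)) hG)
  simpa only [neg_mul, one_mul, ← sub_eq_add_neg] using this

theorem bd_comp_HiA4 {X Y : Type} [MeasurableSpace X] [MeasurableSpace Y] {F : Y → ℝ}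
    (hF : Bd F) {T : X → Y} (hT : Measurable T) : Bd fun x => F (T x) :=
  ⟨hF.meas.comp hT, by obtain ⟨C, hC⟩ := hF.bdd; exact ⟨C, fun x => hC _⟩⟩

theorem bd_sum_HiA4 {X ι : Type} [MeasurableSpace X] (s : Finset ι) {F : ι → X → ℝ}
    (hF : ∀ j, Bd (F j)) : Bd fun x => ∑ j ∈ s, F j x := by
  classical
  induction s using Finset.induction_on with
  | empty => simpa using AFK.bd_const (X := X) 0
  | insert a s ha ih =>
    simp only [Finset.sum_insert ha]
    exact AFK.bd_add (hF a) ih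

theorem meas_tail_HiA4 {k : ℕ} : Measurable fun x : Fin (k + 1) → V => Fin.tail x :=
  measurable_pi_lambda _ fun j => measurable_pi_apply j.succ

theorem meas_cons_HiA4 {k : ℕ} (a : V) :
    Measurable fun x : Fin k → V => (Fin.cons a x : Fin (k + 1) → V) :=
  bp_measurable_cons measurable_const measurable_id

theorem IU_int_HiA4 {μ : Measure V} (hμ : Mom μ) {k : ℕ} (U : Submodule ℝ V)
    {F : (Fin k → V) → ℝ} (hF : Bd F) :
    Integrable (fun x => D (fun j => pU U (x j)) * F x) (mk μ k) :=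
  AFK.int_mul (integrable_D_mk hμ k U) hF

theorem IU_add_HiA4 {μ : Measure V} (hμ : Mom μ) {k : ℕ} (U : Submodule ℝ V)
    {F G : (Fin k → V) → ℝ} (hF : Bd F) (hG : Bd G) :
    IU μ k U (fun x => F x + G x) = IU μ k U F + IU μ k U G := by
  unfold IU
  rw [← integral_add (IU_int_HiA4 hμ U hF) (IU_int_HiA4 hμ U hG)]
  exact integral_congr_ae (ae_of_all _ fun x => by ring)

theorem IU_mul_HiA4 (μ : Measure V) {k : ℕ} (U : Submodule ℝ V) (c : ℝ)
    (F : (Fin k → V) → ℝ) : IU μ k U (fun x => c * F x) = c * IU μ k U F := by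
  unfold IU
  rw [← integral_const_mul]
  exact integral_congr_ae (ae_of_all _ fun x => by ring)

theorem IU_const_HiA4 (μ : Measure V) {k : ℕ} (U : Submodule ℝ V) (c : ℝ) :
    IU μ k U (fun _ => c) = c * IU μ k U fun _ => 1 := by
  rw [← IU_mul_HiA4]; simp only [mul_one]

theorem IU_nonneg_HiA4 (μ : Measure V) {k : ℕ} (U : Submodule ℝ V)
    {F : (Fin k → V) → ℝ} (h : ∀ x, 0 ≤ F x) : 0 ≤ IU μ k U F :=
  integral_nonneg fun x => mul_nonneg (D_nonneg _) (h x)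

theorem IU_mono_HiA4 {μ : Measure V} (hμ : Mom μ) {k : ℕ} (U : Submodule ℝ V)
    {F G : (Fin k → V) → ℝ} (hF : Bd F) (hG : Bd G) (h : ∀ x, F x ≤ G x) :
    IU μ k U F ≤ IU μ k U G :=
  integral_mono (IU_int_HiA4 hμ U hF) (IU_int_HiA4 hμ U hG) fun x =>
    mul_le_mul_of_nonneg_left (h x) (D_nonneg _)

theorem IU_abs_HiA4 {μ : Measure V} (hμ : Mom μ) {k : ℕ} (U : Submodule ℝ V)
    {F : (Fin k → V) → ℝ} (hF : Bd F) {C : ℝ} (hC : ∀ x, |F x| ≤ C) :
    |IU μ k U F| ≤ C * IU μ k U fun _ => 1 := by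
  rw [abs_le]
  constructor
  · have := IU_mono_HiA4 hμ U (AFK.bd_const (-C)) hF fun x => (abs_le.1 (hC x)).1
    rw [IU_const_HiA4] at this
    linarith
  · have := IU_mono_HiA4 hμ U hF (AFK.bd_const C) fun x => (abs_le.1 (hC x)).2
    rwa [IU_const_HiA4] at this

theorem IU_sum_HiA4 {μ : Measure V} (hμ : Mom μ) {k : ℕ} (U : Submodule ℝ V) {ι : Type}
    (s : Finset ι) {F : ι → (Fin k → V) → ℝ} (hF : ∀ j, Bd (F j)) :
    IU μ k U (fun x => ∑ j ∈ s, F j x) = ∑ j ∈ s, IU μ k U (F j) := by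
  unfold IU
  rw [← integral_finsetSum _ fun j _ => IU_int_HiA4 hμ U (hF j)]
  exact integral_congr_ae (ae_of_all _ fun x => by simp only [Finset.mul_sum])

theorem IU_sq_sub_HiA4 {μ : Measure V} (hμ : Mom μ) {k : ℕ} (U : Submodule ℝ V)
    {F G : (Fin k → V) → ℝ} (hF : Bd F) (hG : Bd G) :
    IU μ k U (fun x => (F x - G x) ^ 2) = IU μ k U (fun x => F x ^ 2)
      - 2 * IU μ k U (fun x => F x * G x) + IU μ k U fun x => G x ^ 2 := by
  have h1 := IU_add_HiA4 hμ U (bd_sq_HiA4 hF) (AFK.bd_mul (AFK.bd_const (-2)) (AFK.bd_mul hF hG))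
  have h2 := IU_add_HiA4 hμ U (AFK.bd_add (bd_sq_HiA4 hF) (AFK.bd_mul (AFK.bd_const (-2)) (AFK.bd_mul hF hG)))
    (bd_sq_HiA4 hG)
  rw [h1, IU_mul_HiA4] at h2
  have e : (fun x => (F x - G x) ^ 2) = fun x => F x ^ 2 + -2 * (F x * G x) + G x ^ 2 := by
    funext x; ring
  rw [e, h2]; ring

theorem IU_meas_HiA4 {μ : Measure V} (hμ : Mom μ) {k : ℕ} (U : Submodule ℝ V)
    {F : (Fin (k + 1) → V) → ℝ} (hF : Bd F) :
    Measurable fun a => IU μ k (U ⊓ (ℝ ∙ pU U a)ᗮ) fun x => F (Fin.cons a x) := by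
  have := hμ.prob
  have e : (fun a => IU μ k (U ⊓ (ℝ ∙ pU U a)ᗮ) fun x => F (Fin.cons a x))
      = fun a => ∫ x, D (fun j => pr (pU U a) (pU U (x j))) * F (Fin.cons a x) ∂(mk μ k) := by
    funext a
    unfold IU
    simp only [pr_pU]
  rw [e]
  have hm : Measurable fun q : V × (Fin k → V) =>
      D (fun j => pr (pU U q.1) (pU U (q.2 j))) * F (Fin.cons q.1 q.2) := by
    refine Measurable.mul (measurable_D (measurable_pi_lambda _ fun j => measurable_pr ?_ ?_))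
      (hF.meas.comp brs_measurable_cons)
    · exact (pU U).continuous.measurable.comp measurable_fst
    · exact (pU U).continuous.measurable.comp ((measurable_pi_apply j).comp measurable_snd)
  exact (hm.stronglyMeasurable.integral_prod_right' (ν := mk μ k)).measurable

theorem es_reduce_HiA4 {μ : Measure V} (hμ : Mom μ) (k : ℕ) (U : Submodule ℝ V)
    (H : ∀ {F : (Fin (k + 1) → V) → ℝ}, Bd F →
      (∀ (σ : Equiv.Perm (Fin (k + 1))) x, F (fun j => x (σ j)) = F x) →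
      IU μ (k + 1) U F = 0 → ∀ {G : (Fin k → V) → ℝ}, Bd G →
      IU μ (k + 1) U (fun x => F x ^ 2)
        ≤ (k + 1 : ℝ) * IU μ (k + 1) U fun x => (F x - G (Fin.tail x)) ^ 2)
    {F : (Fin (k + 1) → V) → ℝ} (hF : Bd F)
    (hs : ∀ (σ : Equiv.Perm (Fin (k + 1))) x, F (fun j => x (σ j)) = F x)
    {G : (Fin k → V) → ℝ} (hG : Bd G) :
    IU μ (k + 1) U (fun x => F x ^ 2) - IU μ (k + 1) U F ^ 2 / IU μ (k + 1) U (fun _ => 1)
      ≤ (k + 1 : ℝ) * IU μ (k + 1) U fun x => (F x - G (Fin.tail x)) ^ 2 := by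
  by_cases h1 : IU μ (k + 1) U (fun _ => 1) = 0
  · obtain ⟨C, hC⟩ := (bd_sq_HiA4 hF).bdd
    have h2 := IU_abs_HiA4 hμ U (bd_sq_HiA4 hF) hC
    rw [h1, mul_zero] at h2
    have h3 : 0 ≤ IU μ (k + 1) U fun x => (F x - G (Fin.tail x)) ^ 2 :=
      IU_nonneg_HiA4 μ U fun x => sq_nonneg _
    rw [h1, div_zero, sub_zero]
    have h4 := (abs_le.1 h2).2
    have h5 : (0 : ℝ) ≤ (k + 1 : ℝ) := by positivity
    exact h4.trans (mul_nonneg h5 h3)
  · set m := IU μ (k + 1) U F / IU μ (k + 1) U (fun _ => 1) with hm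
    have hF' : Bd fun x => F x - m := bd_sub_HiA4 hF (AFK.bd_const m)
    have hG' : Bd fun x => G x - m := bd_sub_HiA4 hG (AFK.bd_const m)
    have h0 : IU μ (k + 1) U (fun x => F x - m) = 0 := by
      have := IU_add_HiA4 hμ U hF (AFK.bd_const (-m))
      simp only [← sub_eq_add_neg] at this
      rw [this, IU_const_HiA4, hm]
      field_simp
      ring
    have h2 := H hF' (fun σ x => by simp only [hs σ x]) h0 hG'
    have e : (fun x : Fin (k + 1) → V => (F x - m - (G (Fin.tail x) - m)) ^ 2)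
        = fun x => (F x - G (Fin.tail x)) ^ 2 := by
      funext x; ring
    rw [e, IU_sq_sub_HiA4 hμ U hF (AFK.bd_const m)] at h2
    have h3 : IU μ (k + 1) U (fun x => F x * m) = m * IU μ (k + 1) U F := by
      rw [← IU_mul_HiA4]; simp only [mul_comm]
    rw [h3, IU_const_HiA4] at h2
    have h4 : IU μ (k + 1) U F ^ 2 / IU μ (k + 1) U (fun _ => 1)
        = 2 * (m * IU μ (k + 1) U F) - m ^ 2 * IU μ (k + 1) U (fun _ => 1) := by
      rw [hm]; field_simp; ring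
    rw [h4]; linarith

theorem tail_swap_HiA4 {k : ℕ} (x : Fin (k + 2) → V) :
    Fin.tail (fun j => x (Equiv.swap 0 1 j))
      = (Fin.cons (x 0) (Fin.tail (Fin.tail x)) : Fin (k + 1) → V) := by
  funext j
  refine Fin.cases ?_ (fun j => ?_) j
  · simp [Fin.tail]
  · simp only [Fin.tail, Fin.cons_succ]
    rw [Equiv.swap_apply_of_ne_of_ne (Fin.succ_ne_zero _)]
    intro h
    have := congrArg Fin.val h
    simp at this

theorem cons_perm_HiA4 {k : ℕ} (a : V) (σ : Equiv.Perm (Fin k)) (x : Fin k → V) :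
    (Fin.cons a (fun j => x (σ j)) : Fin (k + 1) → V)
      = fun j => (Fin.cons a x : Fin (k + 1) → V) (Equiv.Perm.decomposeFin.symm (0, σ) j) := by
  funext j
  refine Fin.cases ?_ (fun j => ?_) j
  · simp
  · simp [Equiv.Perm.decomposeFin_symm_apply_succ]

theorem es_step_HiA4 {μ : Measure V} (hμ : Mom μ) (k : ℕ)
    (ih : ∀ (U : Submodule ℝ V) {F : (Fin (k + 1) → V) → ℝ}, Bd F →
      (∀ (σ : Equiv.Perm (Fin (k + 1))) x, F (fun j => x (σ j)) = F x) →
      ∀ {G : (Fin k → V) → ℝ}, Bd G →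
      IU μ (k + 1) U (fun x => F x ^ 2) - IU μ (k + 1) U F ^ 2 / IU μ (k + 1) U (fun _ => 1)
        ≤ (k + 1 : ℝ) * IU μ (k + 1) U fun x => (F x - G (Fin.tail x)) ^ 2)
    (U : Submodule ℝ V) {F : (Fin (k + 2) → V) → ℝ} (hF : Bd F)
    (hs : ∀ (σ : Equiv.Perm (Fin (k + 2))) x, F (fun j => x (σ j)) = F x)
    (h0 : IU μ (k + 2) U F = 0) {G : (Fin (k + 1) → V) → ℝ} (hG : Bd G) :
    IU μ (k + 2) U (fun x => F x ^ 2)
      ≤ ((k + 1 : ℕ) + 1 : ℝ) * IU μ (k + 2) U fun x => (F x - G (Fin.tail x)) ^ 2 := by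
  have := hμ.prob
  obtain ⟨C, hC⟩ := hF.bdd
  have hC0 : 0 ≤ C := (abs_nonneg _).trans (hC 0)
  have hFa : ∀ a, Bd fun x : Fin (k + 1) → V => F (Fin.cons a x) := fun a =>
    bd_comp_HiA4 hF (meas_cons_HiA4 a)
  have hGa : ∀ a, Bd fun x : Fin k → V => G (Fin.cons a x) := fun a =>
    bd_comp_HiA4 hG (meas_cons_HiA4 a)
  set I1 : V → ℝ := fun a => IU μ (k + 1) (U ⊓ (ℝ ∙ pU U a)ᗮ) fun _ => 1 with hI1
  set IF : V → ℝ := fun a => IU μ (k + 1) (U ⊓ (ℝ ∙ pU U a)ᗮ) fun x => F (Fin.cons a x) with hIF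
  have hI0 : ∀ a, 0 ≤ I1 a := fun a => IU_nonneg_HiA4 μ _ fun _ => zero_le_one
  have habs : ∀ a, |IF a| ≤ C * I1 a := fun a => IU_abs_HiA4 hμ _ (hFa a) fun x => hC _
  set φ : V → ℝ := fun a => IF a / I1 a with hφd
  have hφ : Bd φ := by
    refine ⟨(IU_meas_HiA4 hμ U hF).div (IU_meas_HiA4 hμ U (F := fun _ => 1) (AFK.bd_const 1)),
      C, fun a => ?_⟩
    rcases (hI0 a).eq_or_lt with h | h
    · simp only [hφd, ← h, div_zero, abs_zero]; exact hC0
    · simp only [hφd, abs_div, abs_of_pos h]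
      exact (div_le_iff₀ h).2 (habs a)
  have hmul : ∀ a, φ a * I1 a = IF a := by
    intro a
    rcases (hI0 a).eq_or_lt with h | h
    · have := habs a
      rw [← h, mul_zero] at this
      rw [← h, mul_zero, abs_nonpos_iff.1 this]
    · simp only [hφd]; field_simp
  have hφj : ∀ j : Fin (k + 2), Bd fun x : Fin (k + 2) → V => φ (x j) := fun j =>
    bd_comp_HiA4 hφ (measurable_pi_apply j)
  -- the right side after the swap
  have hT : Measurable fun x : Fin (k + 2) → V =>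
      (Fin.cons (x 0) (Fin.tail (Fin.tail x)) : Fin (k + 1) → V) :=
    bp_measurable_cons (measurable_pi_apply 0) (meas_tail_HiA4.comp meas_tail_HiA4)
  have hR0 : Bd fun x : Fin (k + 2) → V => (F x - G (Fin.tail x)) ^ 2 :=
    bd_sq_HiA4 (bd_sub_HiA4 hF (bd_comp_HiA4 hG meas_tail_HiA4))
  have hR1 : Bd fun x : Fin (k + 2) → V =>
      (F x - G (Fin.cons (x 0) (Fin.tail (Fin.tail x)))) ^ 2 :=
    bd_sq_HiA4 (bd_sub_HiA4 hF (bd_comp_HiA4 hG hT))
  have eR : IU μ (k + 2) U (fun x => (F x - G (Fin.tail x)) ^ 2)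
      = IU μ (k + 2) U fun x => (F x - G (Fin.cons (x 0) (Fin.tail (Fin.tail x)))) ^ 2 := by
    rw [← IU_perm hμ U hR0 (Equiv.swap 0 1)]
    simp only [hs, tail_swap_HiA4]
  obtain ⟨iR, cR⟩ := IU_cons hμ U hR1
  obtain ⟨iF2, cF2⟩ := IU_cons hμ U (bd_sq_HiA4 hF)
  obtain ⟨iA, cA⟩ := IU_cons hμ U (bd_sq_HiA4 (hφj 0))
  obtain ⟨-, cB⟩ := IU_cons hμ U (AFK.bd_mul hF (hφj 0))
  obtain ⟨-, cφ⟩ := IU_cons hμ U (hφj 0)
  obtain ⟨-, cF⟩ := IU_cons hμ U hF
  simp only [Fin.cons_zero, Fin.tail_cons] at iR cR iA cA cB cφ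
  set A := IU μ (k + 1 + 1) U fun x => φ (x 0) ^ 2 with hA
  have k1 : IU μ (k + 2) U (fun x => F x ^ 2) - A
      ≤ (k + 1 : ℝ) * IU μ (k + 2) U fun x => (F x - G (Fin.tail x)) ^ 2 := by
    rw [eR, cR, cF2, cA, ← integral_sub iF2 iA, ← integral_const_mul]
    refine integral_mono (iF2.sub iA) (iR.const_mul _) fun a => ?_
    have h1 := ih (U ⊓ (ℝ ∙ pU U a)ᗮ) (hFa a)
      (fun σ x => by rw [cons_perm_HiA4, hs]) (hGa a)
    have h2 : IU μ (k + 1) (U ⊓ (ℝ ∙ pU U a)ᗮ) (fun _ => φ a ^ 2) = IF a ^ 2 / I1 a := by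
      rw [IU_const_HiA4]
      change φ a ^ 2 * I1 a = _
      rw [sq, mul_assoc, hmul a, hφd]
      simp only
      ring
    have h3 := mul_le_mul_of_nonneg_left h1 (norm_nonneg (pU U a))
    simp only [h2]
    change ‖pU U a‖ * (_ - IF a ^ 2 / I1 a) ≤ _ at h3
    linarith
  have k2 : IU μ (k + 2) U (fun x => F x * φ (x 0)) = A := by
    rw [cB, cA]
    refine integral_congr_ae (ae_of_all _ fun a => ?_)
    have h1 : IU μ (k + 1) (U ⊓ (ℝ ∙ pU U a)ᗮ) (fun x => F (Fin.cons a x) * φ a)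
        = φ a * IF a := by
      simp only [hIF]
      rw [← IU_mul_HiA4]; simp only [mul_comm]
    have h2 : IU μ (k + 1) (U ⊓ (ℝ ∙ pU U a)ᗮ) (fun _ => φ a ^ 2) = φ a * IF a := by
      rw [IU_const_HiA4]
      change φ a ^ 2 * I1 a = _
      rw [sq, mul_assoc, hmul a]
    simp only [h1, h2]
  have k3 : IU μ (k + 1 + 1) U (fun x => φ (x 0)) = 0 := by
    rw [cφ, ← h0, cF]
    refine integral_congr_ae (ae_of_all _ fun a => ?_)
    have h2 : IU μ (k + 1) (U ⊓ (ℝ ∙ pU U a)ᗮ) (fun _ => φ a) = IF a := by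
      rw [IU_const_HiA4]
      exact hmul a
    simp only [h2, hIF]
  have k4 := es_sum hμ U hφ k3
  have hS : Bd fun x : Fin (k + 2) → V => ∑ j, φ (x j) := bd_sum_HiA4 _ hφj
  have k5 : IU μ (k + 2) U (fun x => F x * ∑ j, φ (x j)) = (k + 2 : ℝ) * A := by
    simp only [Finset.mul_sum]
    rw [IU_sum_HiA4 hμ U _ fun j => AFK.bd_mul hF (hφj j)]
    have : ∀ j : Fin (k + 2), IU μ (k + 2) U (fun x => F x * φ (x j)) = A := by
      intro j
      rw [← k2, ← IU_perm hμ U (AFK.bd_mul hF (hφj 0)) (Equiv.swap 0 j)]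
      simp only [hs, Equiv.swap_apply_left]
    simp only [this, Finset.sum_const, Finset.card_univ, Fintype.card_fin, nsmul_eq_mul]
    push_cast; ring
  have k6 := IU_sq_sub_HiA4 hμ U hF hS
  have k7 : 0 ≤ IU μ (k + 2) U fun x => (F x - ∑ j, φ (x j)) ^ 2 :=
    IU_nonneg_HiA4 μ U fun x => sq_nonneg _
  rw [k6, k5] at k7
  have k8 : (k + 2 : ℝ) * A ≤ IU μ (k + 2) U fun x => F x ^ 2 := by
    have : ((k + 1 : ℕ) + 1 : ℝ) = k + 2 := by push_cast; ring
    rw [this] at k4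
    linarith
  have hk : (0 : ℝ) < k + 1 := by positivity
  have : ((k + 1 : ℕ) + 1 : ℝ) = k + 2 := by push_cast; ring
  rw [this]
  refine le_of_mul_le_mul_left ?_ hk
  nlinarith

theorem es_link {μ : Measure V} (hμ : Mom μ) : ∀ (k : ℕ) (U : Submodule ℝ V)
    {F : (Fin (k + 1) → V) → ℝ}, Bd F →
    (∀ (σ : Equiv.Perm (Fin (k + 1))) x, F (fun j => x (σ j)) = F x) →
    ∀ {G : (Fin k → V) → ℝ}, Bd G →
    IU μ (k + 1) U (fun x => F x ^ 2) - IU μ (k + 1) U F ^ 2 / IU μ (k + 1) U (fun _ => 1)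
      ≤ (k + 1 : ℝ) * IU μ (k + 1) U fun x => (F x - G (Fin.tail x)) ^ 2 := by
  intro k
  induction k with
  | zero =>
    intro U F hF hs G hG
    refine es_reduce_HiA4 hμ 0 U ?_ hF hs hG
    intro F hF hs h0 G hG
    have e : (fun x : Fin (0 + 1) → V => (F x - G (Fin.tail x)) ^ 2)
        = fun x => (F x - G default) ^ 2 := by
      funext x
      rw [Subsingleton.elim (Fin.tail x) default]
    rw [e, IU_sq_sub_HiA4 hμ U hF (AFK.bd_const _)]
    have h3 : IU μ (0 + 1) U (fun x => F x * G default) = G default * IU μ (0 + 1) U F := by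
      rw [← IU_mul_HiA4]; simp only [mul_comm]
    have h4 : 0 ≤ IU μ (0 + 1) U fun _ => G default ^ 2 :=
      IU_nonneg_HiA4 μ U fun x => sq_nonneg _
    rw [h3, h0]
    push_cast
    linarith
  | succ k ih =>
    intro U F hF hs G hG
    refine es_reduce_HiA4 hμ (k + 1) U ?_ hF hs hG
    intro F hF hs h0 G hG
    exact es_step_HiA4 hμ k ih U hF hs h0 hG

theorem efron_stein {μ : Measure V} (hμ : Mom μ) {k : ℕ} (h : 0 < Wr (k + 1) μ)
    {F : (Fin (k + 1) → V) → ℝ} (hF : Bd F)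
    (hs : ∀ (σ : Equiv.Perm (Fin (k + 1))) x, F (fun j => x (σ j)) = F x)
    {G : (Fin k → V) → ℝ} (hG : Bd G) :
    ∫ x, (F x - ∫ y, F y ∂(Fr (k + 1) μ)) ^ 2 ∂(Fr (k + 1) μ)
      ≤ (k + 1 : ℝ) * ∫ x, (F x - G (Fin.tail x)) ^ 2 ∂(Fr (k + 1) μ) := by
  have top : ∀ H : (Fin (k + 1) → V) → ℝ,
      ∫ x, H x ∂(Fr (k + 1) μ) = (Wr (k + 1) μ)⁻¹ * IU μ (k + 1) ⊤ H := by
    intro H
    rw [integral_Fr h]
    unfold IU
    simp only [pU, Submodule.starProjection_top, ContinuousLinearMap.id_apply]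
  have hW : IU μ (k + 1) ⊤ (fun _ => 1) = Wr (k + 1) μ := by
    unfold IU Wr
    simp only [pU, Submodule.starProjection_top, ContinuousLinearMap.id_apply, mul_one]
  have h1 := es_link hμ k ⊤ hF hs hG
  rw [hW] at h1
  rw [top, top, top]
  set m := (Wr (k + 1) μ)⁻¹ * IU μ (k + 1) ⊤ F with hm
  rw [IU_sq_sub_HiA4 hμ ⊤ hF (AFK.bd_const m)]
  have h3 : IU μ (k + 1) ⊤ (fun x => F x * m) = m * IU μ (k + 1) ⊤ F := by
    rw [← IU_mul_HiA4]; simp only [mul_comm]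
  rw [h3, IU_const_HiA4, hW]
  have h4 : IU μ (k + 1) ⊤ F ^ 2 / Wr (k + 1) μ
      = 2 * (m * IU μ (k + 1) ⊤ F) - m ^ 2 * Wr (k + 1) μ := by
    rw [hm]; field_simp; ring
  rw [h4] at h1
  have h5 := mul_le_mul_of_nonneg_left h1 (inv_pos.2 h).le
  linarith

end Pool.Agent.P.MP_181257_gt
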