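import Pool.Agent.P.MP_181257_gt.HiP2

/-! Gaussian moments. -/

set_option autoImplicit false
set_option linter.unusedSectionVars false
set_option linter.unusedVariables false

open MeasureTheory ProbabilityTheory Module Set Filter Topology
open scoped RealInnerProductSpace ENNReal Pointwise Matrix

noncomputable section

namespace Pool.Agent.P.MP_181257_gt

variable {V : Type} [NormedAddCommGroup V] [InnerProductSpace ℝ V] [FiniteDimensional ℝ V]
  [MeasurableSpace V] [BorelSpace V]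

theorem Km_nonneg (k : ℕ) : 0 ≤ Km k :=
  integral_nonneg fun t => by
    show 0 ≤ t ^ (2 * k)
    rw [pow_mul]; positivity

theorem Km_one : Km 1 = 1 := by
  have h := variance_id_gaussianReal (μ := 0) (v := 1)
  rw [variance_eq_integral (by fun_prop)] at h
  simpa [Km] using h

theorem deriv_HiG1 {p p' : ℝ → ℝ} (h : ∀ t, HasDerivAt p (p' t) t) :
    deriv (fun t => p t * Real.exp (t ^ 2 / 2)) =
      fun t => (p' t + t * p t) * Real.exp (t ^ 2 / 2) := by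
  funext t
  have h1 : HasDerivAt (fun t : ℝ => t ^ 2 / 2) t t := by
    have := (hasDerivAt_pow 2 t).div_const 2
    refine this.congr_deriv ?_
    simp
  have h2 := (h t).mul h1.exp
  rw [show (fun t => p t * Real.exp (t ^ 2 / 2)) = p * fun t : ℝ => Real.exp (t ^ 2 / 2) from rfl,
    h2.deriv]
  ring

theorem Km_two : Km 2 = 3 := by
  have h0 : Km 2 = iteratedDeriv 4 (mgf (fun x => x) (gaussianReal 0 1)) 0 := by
    rw [iteratedDeriv_mgf_zero] <;> simp [Km]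
  have h1 : mgf (fun x : ℝ => x) (gaussianReal 0 1) = fun t => 1 * Real.exp (t ^ 2 / 2) := by
    rw [mgf_fun_id_gaussianReal]
    funext t
    simp
  have d1 := deriv_HiG1 (p := fun _ => 1) (p' := fun _ => 0) (fun t => hasDerivAt_const t 1)
  have d2 := deriv_HiG1 (p := fun t => 0 + t * 1) (p' := fun _ => 1) (fun t => by
    simpa using hasDerivAt_id' t)
  have d3 := deriv_HiG1 (p := fun t => 1 + t * (0 + t * 1)) (p' := fun t => 2 * t) (fun t => by
    have := (hasDerivAt_pow 2 t).const_add 1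
    refine (this.congr_deriv (by simp)).congr_of_eventuallyEq (Eventually.of_forall fun x => ?_)
    ring)
  have d4 := deriv_HiG1 (p := fun t => 2 * t + t * (1 + t * (0 + t * 1)))
    (p' := fun t => 3 + 3 * t ^ 2) (fun t => by
    have := ((hasDerivAt_id' t).const_mul 3).add (hasDerivAt_pow 3 t)
    refine (this.congr_deriv (by simp)).congr_of_eventuallyEq (Eventually.of_forall fun x => ?_)
    simp only [Pi.add_apply]
    ring)
  rw [h0, h1, iteratedDeriv_succ, iteratedDeriv_succ, iteratedDeriv_succ, iteratedDeriv_one,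
    d1, d2, d3, d4]
  simp

theorem c2_pos : 0 < c2 :=
  mul_pos two_pos (gaussianPDFReal_pos 0 1 0 one_ne_zero)

theorem measurable_sg : Measurable sg := by
  unfold sg
  fun_prop

theorem integrable_inner_pow (a : V) (p : ℕ) :
    Integrable (fun g => ⟪a, g⟫ ^ p) (stdGaussian V) := by
  have h := (integrable_norm_pow (V := V) p).const_mul (‖a‖ ^ p)
  refine h.mono' (by fun_prop) (ae_of_all _ fun x => ?_)
  rw [Real.norm_eq_abs, abs_pow, ← mul_pow]
  exact pow_le_pow_left₀ (abs_nonneg _) (abs_real_inner_le_norm a x) p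

theorem integral_inner_pow (a : V) (k : ℕ) :
    ∫ g, ⟪a, g⟫ ^ (2 * k) ∂(stdGaussian V) = Km k * ‖a‖ ^ (2 * k) := by
  by_cases hw : a = 0
  · rcases Nat.eq_zero_or_pos k with rfl | hk
    · simp [Km]
    · have : 2 * k ≠ 0 := by omega
      simp [hw, this]
  have hna : ‖a‖ ≠ 0 := norm_ne_zero_iff.2 hw
  have hm := mp_coiso (fun x : V => ⟪‖a‖⁻¹ • a, x⟫) (by fun_prop) (fun t : ℝ => t • ‖a‖⁻¹ • a)
    (fun z t => by rw [real_inner_smul_right, real_inner_comm z]; simp)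
    (fun t => by simp [norm_smul, hna])
  rw [stdGaussian_real] at hm
  rw [Km, ← hm.map_eq, integral_map hm.measurable.aemeasurable (by fun_prop),
    ← integral_mul_const]
  refine integral_congr_ae (ae_of_all _ fun x => ?_)
  simp only [real_inner_smul_left]
  rw [← mul_pow]
  congr 1
  field_simp

theorem integral_norm_pow_le {k : ℕ} (hk : 1 ≤ k) :
    ∫ g, ‖g‖ ^ (2 * k) ∂(stdGaussian V) ≤ (finrank ℝ V : ℝ) ^ k * Km k := by
  obtain ⟨j, rfl⟩ : ∃ j, k = j + 1 := ⟨k - 1, by omega⟩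
  set b := stdOrthonormalBasis ℝ V
  have h1 : ∀ g : V, ‖g‖ ^ (2 * (j + 1)) ≤
      (finrank ℝ V : ℝ) ^ j * ∑ l, ⟪b l, g⟫ ^ (2 * (j + 1)) := by
    intro g
    have h2 := pow_sum_le_card_mul_sum_pow (s := Finset.univ) (f := fun l => ⟪b l, g⟫ ^ 2)
      (fun l _ => sq_nonneg _) j
    rw [b.sum_sq_inner_right, Finset.card_univ, Fintype.card_fin] at h2
    simpa only [pow_mul] using h2
  have h3 : Integrable (fun g : V => (finrank ℝ V : ℝ) ^ j * ∑ l, ⟪b l, g⟫ ^ (2 * (j + 1)))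
      (stdGaussian V) :=
    (integrable_finsetSum _ fun l _ => integrable_inner_pow (b l) _).const_mul _
  refine (integral_mono (integrable_norm_pow _) h3 h1).trans (le_of_eq ?_)
  rw [integral_const_mul, integral_finsetSum _ fun l _ => integrable_inner_pow (b l) _]
  simp only [integral_inner_pow, b.orthonormal.1, one_pow, mul_one, Finset.sum_const,
    Finset.card_univ, Fintype.card_fin, nsmul_eq_mul]
  ring

theorem sq_HiG1 (a : V) : ∫ g, ⟪a, g⟫ ^ 2 ∂(stdGaussian V) = ‖a‖ ^ 2 := by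
  have := integral_inner_pow a 1
  rwa [Km_one, one_mul] at this

theorem four_HiG1 (a : V) : ∫ g, ⟪a, g⟫ ^ 4 ∂(stdGaussian V) = 3 * ‖a‖ ^ 4 := by
  have := integral_inner_pow a 2
  rwa [Km_two] at this

theorem integral_inner_mul (a b : V) : ∫ g, ⟪a, g⟫ * ⟪b, g⟫ ∂(stdGaussian V) = ⟪a, b⟫ := by
  have h1 : ∀ g : V, ⟪a, g⟫ * ⟪b, g⟫ = (1 / 4) * (⟪a + b, g⟫ ^ 2 - ⟪a - b, g⟫ ^ 2) := by
    intro g
    rw [inner_add_left, inner_sub_left]
    ring
  simp only [h1]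
  rw [integral_const_mul, integral_sub (integrable_inner_pow _ _) (integrable_inner_pow _ _),
    sq_HiG1, sq_HiG1, norm_add_sq_real, norm_sub_sq_real]
  ring

theorem sqsq_HiG1 (a b g : V) : ⟪a, g⟫ ^ 2 * ⟪b, g⟫ ^ 2 = (1 / 12) *
    ((⟪a + b, g⟫ ^ 4 + ⟪a - b, g⟫ ^ 4) - (2 * ⟪a, g⟫ ^ 4 + 2 * ⟪b, g⟫ ^ 4)) := by
  rw [inner_add_left, inner_sub_left]
  ring

theorem int_sqsq_HiG1 (a b : V) :
    Integrable (fun g => ⟪a, g⟫ ^ 2 * ⟪b, g⟫ ^ 2) (stdGaussian V) := by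
  simp only [sqsq_HiG1]
  exact (((integrable_inner_pow _ 4).add (integrable_inner_pow _ 4)).sub
    (((integrable_inner_pow _ 4).const_mul 2).add
      ((integrable_inner_pow _ 4).const_mul 2))).const_mul _

theorem integral_inner_sq_mul (a b : V) :
    ∫ g, ⟪a, g⟫ ^ 2 * ⟪b, g⟫ ^ 2 ∂(stdGaussian V) = ‖a‖ ^ 2 * ‖b‖ ^ 2 + 2 * ⟪a, b⟫ ^ 2 := by
  simp only [sqsq_HiG1]
  have i1 : Integrable (fun g => ⟪a + b, g⟫ ^ 4 + ⟪a - b, g⟫ ^ 4) (stdGaussian V) :=
    (integrable_inner_pow _ 4).add (integrable_inner_pow _ 4)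
  have i2 : Integrable (fun g => 2 * ⟪a, g⟫ ^ 4 + 2 * ⟪b, g⟫ ^ 4) (stdGaussian V) :=
    ((integrable_inner_pow _ 4).const_mul 2).add ((integrable_inner_pow _ 4).const_mul 2)
  rw [integral_const_mul, integral_sub i1 i2,
    integral_add (integrable_inner_pow _ 4) (integrable_inner_pow _ 4),
    integral_add ((integrable_inner_pow _ 4).const_mul 2) ((integrable_inner_pow _ 4).const_mul 2),
    integral_const_mul, integral_const_mul, four_HiG1, four_HiG1, four_HiG1, four_HiG1]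
  have e1 : ‖a + b‖ ^ 4 = (‖a‖ ^ 2 + 2 * ⟪a, b⟫ + ‖b‖ ^ 2) ^ 2 := by
    rw [← norm_add_sq_real]; ring
  have e2 : ‖a - b‖ ^ 4 = (‖a‖ ^ 2 - 2 * ⟪a, b⟫ + ‖b‖ ^ 2) ^ 2 := by
    rw [← norm_sub_sq_real]; ring
  rw [e1, e2]
  ring

theorem normsq_HiG1 {n : ℕ} (b : OrthonormalBasis (Fin n) ℝ V) (T : V →L[ℝ] V) (g : V) :
    ‖T g‖ ^ 2 = ∑ l, ⟪ContinuousLinearMap.adjoint T (b l), g⟫ ^ 2 := by
  simp only [ContinuousLinearMap.adjoint_inner_left]
  exact (b.sum_sq_inner_right _).symm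

theorem mean_HiG1 {n : ℕ} (b : OrthonormalBasis (Fin n) ℝ V) (T : V →L[ℝ] V) :
    ∫ g, ‖T g‖ ^ 2 ∂(stdGaussian V) = ∑ l, ‖ContinuousLinearMap.adjoint T (b l)‖ ^ 2 := by
  simp only [normsq_HiG1 b T]
  rw [integral_finsetSum _ fun l _ => integrable_inner_pow _ _]
  simp only [sq_HiG1]

theorem integral_norm_sq_clm {n : ℕ} (b : OrthonormalBasis (Fin n) ℝ V) (T : V →L[ℝ] V) :
    ∫ g, ‖T g‖ ^ 2 ∂(stdGaussian V) = ∑ l, ‖T (b l)‖ ^ 2 := by
  rw [mean_HiG1 b T]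
  simp only [normsq_HiG1 b T]
  rw [Finset.sum_comm]
  refine Finset.sum_congr rfl fun l _ => ?_
  exact (b.sum_sq_inner_left _).symm

theorem quad_var (T : V →L[ℝ] V) (hT : ∀ x, ‖T x‖ ≤ ‖x‖) :
    ∫ g, (‖T g‖ ^ 2 - ∫ z, ‖T z‖ ^ 2 ∂(stdGaussian V)) ^ 2 ∂(stdGaussian V)
      ≤ 2 * (finrank ℝ V : ℝ) := by
  set b := stdOrthonormalBasis ℝ V
  obtain ⟨c, hc⟩ : ∃ c : Fin (finrank ℝ V) → V, ∀ l, c l = ContinuousLinearMap.adjoint T (b l) :=
    ⟨_, fun _ => rfl⟩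
  have h1 : ∀ g, ‖T g‖ ^ 2 = ∑ l, ⟪c l, g⟫ ^ 2 := fun g => by
    simp only [hc]; exact normsq_HiG1 b T g
  have h2 : ∫ z, ‖T z‖ ^ 2 ∂(stdGaussian V) = ∑ l, ‖c l‖ ^ 2 := by
    simp only [hc]; exact mean_HiG1 b T
  have h3 : ∀ l, ‖c l‖ ≤ 1 := by
    intro l
    have e1 : ‖c l‖ ^ 2 = ⟪b l, T (c l)⟫ := by
      rw [← real_inner_self_eq_norm_sq, ← ContinuousLinearMap.adjoint_inner_left, ← hc]
    have e2 : ⟪b l, T (c l)⟫ ≤ ‖c l‖ := by
      refine (real_inner_le_norm _ _).trans ?_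
      rw [b.orthonormal.1 l, one_mul]
      exact hT _
    nlinarith [norm_nonneg (c l)]
  have h4 : ∀ l, ∑ l', ⟪c l', c l⟫ ^ 2 ≤ 1 := by
    intro l
    rw [← h1]
    have := (hT (c l)).trans (h3 l)
    nlinarith [norm_nonneg (T (c l))]
  set m := ∑ l, ‖c l‖ ^ 2 with hm
  have i1 : Integrable (fun g => ∑ l, ⟪c l, g⟫ ^ 2) (stdGaussian V) :=
    integrable_finsetSum _ fun l _ => integrable_inner_pow _ _
  have i2 : Integrable (fun g => ∑ l, ∑ l', ⟪c l', g⟫ ^ 2 * ⟪c l, g⟫ ^ 2) (stdGaussian V) :=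
    integrable_finsetSum _ fun l _ => integrable_finsetSum _ fun l' _ => int_sqsq_HiG1 _ _
  have h5 : ∀ g, (‖T g‖ ^ 2 - m) ^ 2 =
      (∑ l, ∑ l', ⟪c l', g⟫ ^ 2 * ⟪c l, g⟫ ^ 2 - 2 * m * ∑ l, ⟪c l, g⟫ ^ 2) + m ^ 2 := by
    intro g
    simp only [← Finset.sum_mul, ← Finset.mul_sum]
    rw [h1]
    ring
  have h6 : ∫ g, ∑ l, ⟪c l, g⟫ ^ 2 ∂(stdGaussian V) = m := by
    rw [integral_finsetSum _ fun l _ => integrable_inner_pow _ _]
    simp only [sq_HiG1, hm]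
  have h7 : ∫ g, ∑ l, ∑ l', ⟪c l', g⟫ ^ 2 * ⟪c l, g⟫ ^ 2 ∂(stdGaussian V) =
      m ^ 2 + 2 * ∑ l, ∑ l', ⟪c l', c l⟫ ^ 2 := by
    rw [integral_finsetSum _ fun l _ => integrable_finsetSum _ fun l' _ => int_sqsq_HiG1 _ _]
    have : ∀ l, ∫ g, ∑ l', ⟪c l', g⟫ ^ 2 * ⟪c l, g⟫ ^ 2 ∂(stdGaussian V) =
        m * ‖c l‖ ^ 2 + 2 * ∑ l', ⟪c l', c l⟫ ^ 2 := by
      intro l
      rw [integral_finsetSum _ fun l' _ => int_sqsq_HiG1 _ _]
      simp only [integral_inner_sq_mul, Finset.sum_add_distrib, ← Finset.sum_mul,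
        ← Finset.mul_sum, hm]
    simp only [this, Finset.sum_add_distrib, ← Finset.mul_sum, ← hm]
    ring
  have h8 : ∑ l, ∑ l', ⟪c l', c l⟫ ^ 2 ≤ (finrank ℝ V : ℝ) := by
    refine (Finset.sum_le_sum fun l _ => h4 l).trans (le_of_eq ?_)
    simp
  rw [h2]
  simp only [h5]
  have i3 : Integrable (fun g => ∑ l, ∑ l', ⟪c l', g⟫ ^ 2 * ⟪c l, g⟫ ^ 2
      - 2 * m * ∑ l, ⟪c l, g⟫ ^ 2) (stdGaussian V) := i2.sub (i1.const_mul _)
  rw [integral_add i3 (integrable_const _), integral_sub i2 (i1.const_mul _), integral_const_mul,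
    h6, h7]
  simp only [integral_const, probReal_univ, smul_eq_mul, one_mul]
  linarith

theorem abs_sg_HiG1 (t : ℝ) : |sg t| ≤ 1 := by
  rw [sg, abs_div, abs_abs]
  exact div_self_le_one _

theorem int_sg_HiG1 (z b : V) : Integrable (fun g => sg ⟪z, g⟫ * ⟪b, g⟫) (stdGaussian V) := by
  refine (integrable_abs_inner b).mono' ?_ (ae_of_all _ fun x => ?_)
  · exact ((measurable_sg.comp (by fun_prop)).mul (by fun_prop)).aestronglyMeasurable
  · rw [Real.norm_eq_abs, abs_mul]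
    exact mul_le_of_le_one_left (abs_nonneg _) (abs_sg_HiG1 _)

theorem orth_sg_HiG1 {z c : V} (h : ⟪c, z⟫ = 0) :
    ∫ g, sg ⟪z, g⟫ * ⟪c, g⟫ ∂(stdGaussian V) = 0 := by
  have hm := mp_coiso (fun g : V => (2 : ℝ) • pr c g - g) (by fun_prop)
    (fun g : V => (2 : ℝ) • pr c g - g)
    (fun x t => by
      rw [inner_sub_left, inner_sub_right, real_inner_smul_left, real_inner_smul_right,
        inner_pr_comm])
    (fun t => by
      have e1 : ⟪pr c t, t⟫ = ‖pr c t‖ ^ 2 := by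
        rw [← real_inner_self_eq_norm_sq, ← inner_pr_comm, pr_pr]
      have e2 : ‖(2 : ℝ) • pr c t - t‖ ^ 2 = ‖t‖ ^ 2 := by
        rw [norm_sub_sq_real, real_inner_smul_left, e1, norm_smul]
        simp only [Real.norm_ofNat]
        ring
      exact (sq_eq_sq₀ (norm_nonneg _) (norm_nonneg _)).1 e2)
  have h1 := moment_integral_mp hm (F := fun g => sg ⟪z, g⟫ * ⟪c, g⟫)
    ((measurable_sg.comp (by fun_prop)).mul (by fun_prop))
  have h2 : ∀ g : V, sg ⟪z, (2 : ℝ) • pr c g - g⟫ * ⟪c, (2 : ℝ) • pr c g - g⟫ =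
      -(sg ⟪z, g⟫ * ⟪c, g⟫) := by
    intro g
    have e1 : ⟪z, (2 : ℝ) • pr c g - g⟫ = ⟪z, g⟫ := by
      rw [inner_sub_right, real_inner_smul_right, ← inner_pr_comm, pr_of_inner_eq_zero h]
      ring
    have e2 : ⟪c, (2 : ℝ) • pr c g - g⟫ = -⟪c, g⟫ := by
      rw [inner_sub_right, real_inner_smul_right, inner_pr_self]
      ring
    rw [e1, e2]
    ring
  simp only [h2, integral_neg] at h1
  linarith

theorem integral_sg (z b : V) :
    ∫ g, sg ⟪z, g⟫ * ⟪b, g⟫ ∂(stdGaussian V) = c0 * (⟪z, b⟫ / ‖z‖) := by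
  have h1 : ∀ g : V, sg ⟪z, g⟫ * ⟪b, g⟫ =
      sg ⟪z, g⟫ * ⟪pr z b, g⟫ + (⟪z, b⟫ / ‖z‖ ^ 2) * |⟪z, g⟫| := by
    intro g
    have e1 : sg ⟪z, g⟫ * ⟪z, g⟫ = |⟪z, g⟫| := by
      rw [sg]
      by_cases h : ⟪z, g⟫ = 0
      · simp [h]
      · have : |⟪z, g⟫| ≠ 0 := abs_ne_zero.2 h
        field_simp
        rw [sq_abs]
    rw [pr, inner_sub_left, real_inner_smul_left, ← e1]
    ring
  simp only [h1]
  rw [integral_add (int_sg_HiG1 _ _) ((integrable_abs_inner z).const_mul _), integral_const_mul,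
    orth_sg_HiG1 (by rw [real_inner_comm]; exact inner_pr_self z b), integral_abs_inner]
  by_cases hz : ‖z‖ = 0
  · simp [hz]
  · field_simp
    ring

theorem aN_HiG1 (d : ℕ) :
    ∫ x, ‖x‖ ∂(stdGaussian (EuclideanSpace ℝ (Fin d))) = (aN d).toReal := by
  rw [haar_aN_eq, integral_eq_lintegral_of_nonneg_ae (ae_of_all _ fun x => norm_nonneg x)
    (by fun_prop)]

theorem integral_norm_pU (U : Submodule ℝ V) :
    ∫ g, ‖pU U g‖ ∂(stdGaussian V) = (aN (finrank ℝ U)).toReal := by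
  obtain ⟨e, he, -, hw⟩ := exists_onb U
  have hm := mp_coiso
    (fun g : V => (WithLp.toLp 2 fun l => ⟪e l, g⟫ : EuclideanSpace ℝ (Fin (finrank ℝ U))))
    (by fun_prop) (fun t => ∑ l, t l • e l)
    (fun z t => by
      simp only [PiLp.inner_apply, inner_sum, real_inner_smul_right]
      refine Finset.sum_congr rfl fun l _ => ?_
      simp [real_inner_comm])
    (fun t => by
      have e1 : ‖∑ l, t l • e l‖ ^ 2 = ‖t‖ ^ 2 := by
        rw [← real_inner_self_eq_norm_sq, he.inner_sum, EuclideanSpace.real_norm_sq_eq]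
        simp [sq]
      exact (sq_eq_sq₀ (norm_nonneg _) (norm_nonneg _)).1 e1)
  rw [← aN_HiG1, ← moment_integral_mp hm (F := fun x => ‖x‖) (by fun_prop)]
  refine integral_congr_ae (ae_of_all _ fun g => ?_)
  refine (sq_eq_sq₀ (norm_nonneg _) (norm_nonneg _)).1 ?_
  rw [hw, EuclideanSpace.real_norm_sq_eq]

theorem aN_mono (d : ℕ) : (aN d).toReal ≤ (aN (d + 1)).toReal := by
  have ha : (EuclideanSpace.single 0 1 : EuclideanSpace ℝ (Fin (d + 1))) ≠ 0 := by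
    rw [← norm_ne_zero_iff]
    simp
  have h1 := finrank_orth ha
  rw [finrank_euclideanSpace_fin] at h1
  have h2 := integral_norm_pU
    (ℝ ∙ (EuclideanSpace.single 0 1 : EuclideanSpace ℝ (Fin (d + 1))))ᗮ
  rw [Nat.add_right_cancel h1] at h2
  rw [← h2, ← aN_HiG1]
  have i1 : Integrable (fun x : EuclideanSpace ℝ (Fin (d + 1)) => ‖x‖) (stdGaussian _) := by
    simpa using integrable_norm_pow (V := EuclideanSpace ℝ (Fin (d + 1))) 1
  exact integral_mono_of_nonneg (ae_of_all _ fun x => norm_nonneg _) i1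
    (ae_of_all _ fun x => norm_pU_le _ x)

end Pool.Agent.P.MP_181257_gt
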