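import Pool.Agent.P.MP_181257_gt.HiA2
import Pool.Agent.P.MP_181257_gt.HiG1

/-! The reverse Khovanskii-Teissier inequality. -/

set_option autoImplicit false
set_option linter.unusedSectionVars false
set_option linter.unusedVariables false

open MeasureTheory ProbabilityTheory Module Set Filter Topology
open scoped RealInnerProductSpace ENNReal Pointwise Matrix

noncomputable section

namespace Pool.Agent.P.MP_181257_gt

variable {V : Type} [NormedAddCommGroup V] [InnerProductSpace ℝ V] [FiniteDimensional ℝ V]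
  [MeasurableSpace V] [BorelSpace V]

theorem BF_eq_HiA5 {ρ : Measure V} [IsFiniteMeasure ρ] {s t : V → ℝ} (hs : Measurable s)
    (ht : Measurable t) (h : ∀ x, 0 ≤ s x ∧ s x ≤ 3) (h' : ∀ x, 0 ≤ t x ∧ t x ≤ 3)
    (w : V × V → ℝ) :
    ∫ p, w p ∂((ρ.withDensity fun x => ENNReal.ofReal (s x)).prod
      (ρ.withDensity fun x => ENNReal.ofReal (t x))) = BF ρ w s t := by
  rw [BF, prod_withDensity (by fun_prop) (by fun_prop),
    integral_withDensity_eq_integral_toReal_smul (by fun_prop)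
    (ae_of_all _ fun _ => ENNReal.mul_lt_top ENNReal.ofReal_lt_top ENNReal.ofReal_lt_top)]
  refine integral_congr_ae (ae_of_all _ fun y => ?_)
  simp only [smul_eq_mul]
  rw [ENNReal.toReal_mul, ENNReal.toReal_ofReal (h _).1, ENNReal.toReal_ofReal (h' _).1]
  ring

theorem BF_lin_HiA5 {ρ : Measure V} [IsProbabilityMeasure ρ] {w : V × V → ℝ}
    (hi : Integrable w (ρ.prod ρ)) {f g h : V → ℝ} (hf : Bd f) (hg : Bd g) (hh : Bd h) (s : ℝ) :
    BF ρ w (fun x => s * f x + g x) h = s * BF ρ w f h + BF ρ w g h := by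
  unfold BF
  rw [← integral_const_mul, ← integral_add
    ((AFK.int_mul hi (AFK.bd_mul (AFK.bd_fst hf) (AFK.bd_snd hh))).const_mul _)
    (AFK.int_mul hi (AFK.bd_mul (AFK.bd_fst hg) (AFK.bd_snd hh)))]
  refine integral_congr_ae (ae_of_all _ fun p => ?_)
  simp only
  ring

theorem rKT {μ e a b : Measure V} (hμ : Mom μ) (he : Mom e) (ha : Mom a) (hb : Mom b) (r : ℕ)
    (U : Submodule ℝ V) (hpos : 0 < ∫ p, omU μ r U p ∂(e.prod e)) :
    (∫ p, omU μ r U p ∂(e.prod e)) * ∫ p, omU μ r U p ∂(a.prod b)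
      ≤ 2 * ((∫ p, omU μ r U p ∂(e.prod a)) * ∫ p, omU μ r U p ∂(e.prod b)) := by
  have := he.prob
  have := ha.prob
  have := hb.prob
  obtain ⟨ρ, hρ⟩ : ∃ ρ : Measure V, ρ = (3 : ℝ≥0∞)⁻¹ • (e + a + b) := ⟨_, rfl⟩
  have h3 : (3 : ℝ≥0∞) • ρ = e + a + b := by
    rw [hρ, smul_smul, ENNReal.mul_inv_cancel (by simp) (by simp), one_smul]
  have hm : Mom ρ := by
    refine ⟨⟨?_⟩, ?_⟩
    · rw [hρ]
      simp only [Measure.smul_apply, Measure.add_apply, measure_univ, smul_eq_mul]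
      rw [show (1 : ℝ≥0∞) + 1 + 1 = 3 by norm_num, ENNReal.inv_mul_cancel (by simp) (by simp)]
    · rw [hρ]
      exact ((he.int.add_measure ha.int).add_measure hb.int).smul_measure (by simp)
  have := hm.prob
  obtain ⟨f, f1, f2, rfl⟩ := dens_HiA2 (ν := e) (ρ := ρ)
    (by rw [h3, add_assoc]; exact Measure.le_add_right le_rfl)
  obtain ⟨g, g1, g2, rfl⟩ := dens_HiA2 (ν := a) (ρ := ρ)
    (by rw [h3]; exact Measure.le_add_right (Measure.le_add_left le_rfl))
  obtain ⟨h, h1, h2, rfl⟩ := dens_HiA2 (ν := b) (ρ := ρ)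
    (by rw [h3]; exact Measure.le_add_left le_rfl)
  rw [BF_eq_HiA5 f1 f1 f2 f2] at hpos
  rw [BF_eq_HiA5 f1 f1 f2 f2, BF_eq_HiA5 g1 h1 g2 h2, BF_eq_HiA5 f1 g1 f2 g2,
    BF_eq_HiA5 f1 h1 f2 h2]
  have hf : Bd f := ⟨f1, 3, fun x => by rw [abs_of_nonneg (f2 x).1]; exact (f2 x).2⟩
  have hg : Bd g := ⟨g1, 3, fun x => by rw [abs_of_nonneg (g2 x).1]; exact (g2 x).2⟩
  have hh : Bd h := ⟨h1, 3, fun x => by rw [abs_of_nonneg (h2 x).1]; exact (h2 x).2⟩
  have hi : Integrable (omU μ r U) (ρ.prod ρ) :=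
    Integrable.mono' ((hm.int.mul_prod hm.int).mul_const ((∫ x, ‖x‖ ∂μ) ^ r))
      (measurable_omU hμ r U).aestronglyMeasurable (ae_of_all _ fun p => by
        rw [Real.norm_eq_abs, abs_of_nonneg (omU_bound hμ r U p).1]
        exact (omU_bound hμ r U p).2)
  have hs : ∀ u v, BF ρ (omU μ r U) u v = BF ρ (omU μ r U) v u :=
    AFK.BF_comm (omU_symm μ r U)
  have nn : ∀ u v : V → ℝ, (∀ x, 0 ≤ u x ∧ u x ≤ 3) → (∀ x, 0 ≤ v x ∧ v x ≤ 3) →
      0 ≤ BF ρ (omU μ r U) u v := fun u v hu hv => integral_nonneg fun p =>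
    mul_nonneg (omU_bound hμ r U p).1 (mul_nonneg (hu _).1 (hv _).1)
  have k1 := hypM hμ hm r U hg hf fun x => (f2 x).1
  have k2 := hypM hμ hm r U hh hf fun x => (f2 x).1
  have k3 : ∀ s : ℝ, _ := fun s => by
    have hx : Bd fun x => s * g x + h x := AFK.bd_add (AFK.bd_mul (AFK.bd_const s) hg) hh
    have := hypM hμ hm r U hx hf fun x => (f2 x).1
    rw [BF_lin_HiA5 hi hg hh hx, BF_lin_HiA5 hi hg hh hf, hs g fun x => s * g x + h x,
      hs h fun x => s * g x + h x, BF_lin_HiA5 hi hg hh hg, BF_lin_HiA5 hi hg hh hh, hs h g,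
      hs g f, hs h f] at this
    exact this
  rw [hs g f] at k1
  rw [hs h f] at k2
  have n1 := nn g g g2 g2
  have n2 := nn h h h2 h2
  have n3 := nn f g f2 g2
  have n4 := nn f h f2 h2
  generalize BF ρ (omU μ r U) f f = E at *
  generalize BF ρ (omU μ r U) f g = x at *
  generalize BF ρ (omU μ r U) f h = y at *
  generalize BF ρ (omU μ r U) g h = z at *
  generalize BF ρ (omU μ r U) g g = A at *
  generalize BF ρ (omU μ r U) h h = B at *
  have d := discrim_le_zero (a := x ^ 2 - A * E) (b := 2 * (x * y - z * E)) (c := y ^ 2 - B * E)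
    fun s => by have := k3 s; nlinarith
  rw [discrim] at d
  have d1 : (x ^ 2 - A * E) * (y ^ 2 - B * E) ≤ x ^ 2 * y ^ 2 :=
    mul_le_mul (by nlinarith) (by nlinarith) (by linarith) (by positivity)
  have d2 : (z * E - x * y) ^ 2 ≤ (x * y) ^ 2 := by nlinarith
  have d3 := (abs_le_of_sq_le_sq' d2 (mul_nonneg n3 n4)).2
  linarith

end Pool.Agent.P.MP_181257_gt
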