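import Pool.Agent.P.MP_181257_gt.HiA5

/-! Comparison of consecutive frame laws. -/

set_option autoImplicit false
set_option linter.unusedSectionVars false
set_option linter.unusedVariables false

open MeasureTheory ProbabilityTheory Module Set Filter Topology
open scoped RealInnerProductSpace ENNReal Pointwise Matrix

noncomputable section

namespace Pool.Agent.P.MP_181257_gt

variable {V : Type} [NormedAddCommGroup V] [InnerProductSpace ℝ V] [FiniteDimensional ℝ V]
  [MeasurableSpace V] [BorelSpace V]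

theorem gauss_cons_HiA6 {k d : ℕ} (hd : finrank ℝ V = d + k) (x : Fin k → V) :
    ∫ g, D (Fin.cons g x : Fin (k + 1) → V) ∂(stdGaussian V) = (aN d).toReal * D x := by
  simp_rw [D_cons_eq]
  rw [integral_const_mul]
  by_cases hx : D x = 0
  · simp [hx]
  · have h1 := finrank_nrm_eq hx
    have h2 : finrank ℝ (nrm x) = d := by omega
    rw [Pj_eq, integral_norm_pU, h2, mul_comm]

theorem D_cons_le_HiA6 {k : ℕ} (a : V) (x : Fin k → V) :
    D (Fin.cons a x : Fin (k + 1) → V) ≤ ‖a‖ * ∏ j, ‖x j‖ := by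
  have := D_le_prod (Fin.cons a x : Fin (k + 1) → V)
  rwa [Fin.prod_univ_succ] at this

theorem D_cons2_le_HiA6 {k : ℕ} (a b : V) (x : Fin k → V) :
    D (Fin.cons a (Fin.cons b x : Fin (k + 1) → V) : Fin (k + 2) → V)
      ≤ ‖a‖ * ‖b‖ * ∏ j, ‖x j‖ := by
  have := D_cons_le_HiA6 a (Fin.cons b x : Fin (k + 1) → V)
  rw [Fin.prod_univ_succ] at this
  simpa [mul_assoc] using this

theorem omU_top_HiA6 (μ : Measure V) (k : ℕ) (p : V × V) :
    omU μ k ⊤ p = ∫ y, D (Fin.cons p.1 (Fin.cons p.2 y : Fin (k + 1) → V) : Fin (k + 2) → V)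
      ∂(mk μ k) := by
  unfold omU
  simp only [pU, Submodule.starProjection_top, ContinuousLinearMap.id_apply]

theorem mom_gauss_HiA6 : Mom (stdGaussian V) :=
  ⟨inferInstance, by simpa using integrable_norm_pow (V := V) 1⟩

theorem mom_dirac_HiA6 (u : V) : Mom (Measure.dirac u) :=
  ⟨inferInstance, integrable_dirac (by simp)⟩

theorem B_gauss_HiA6 {μ κ : Measure V} (hμ : Mom μ) (hκ : Mom κ) {k d : ℕ}
    (hd : finrank ℝ V = d + (k + 1)) :
    ∫ p, omU μ k ⊤ p ∂((stdGaussian V).prod κ)
      = (aN d).toReal * ∫ y, ∫ z, D (Fin.cons z y : Fin (k + 1) → V) ∂κ ∂(mk μ k) := by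
  have := hμ.prob
  have := hκ.prob
  have hγ : Integrable (fun x : V => ‖x‖) (stdGaussian V) := (mom_gauss_HiA6 (V := V)).int
  have hp : Integrable (fun p : V × V => ‖p.1‖ * ‖p.2‖) ((stdGaussian V).prod κ) :=
    hγ.mul_prod hκ.int
  have hI : Integrable (Function.uncurry fun (p : V × V) (y : Fin k → V) =>
      D (Fin.cons p.1 (Fin.cons p.2 y : Fin (k + 1) → V) : Fin (k + 2) → V))
      (((stdGaussian V).prod κ).prod (mk μ k)) := by
    refine (hp.mul_prod (integrable_prod_norm_mk hμ k)).mono' ?_ (Eventually.of_forall fun q => ?_)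
    · refine Measurable.aestronglyMeasurable ?_
      exact measurable_D (bp_measurable_cons (measurable_fst.comp measurable_fst)
        (bp_measurable_cons (measurable_snd.comp measurable_fst) measurable_snd))
    · rw [Real.norm_eq_abs, Function.uncurry, abs_of_nonneg (D_nonneg _)]
      exact D_cons2_le_HiA6 _ _ _
  simp_rw [omU_top_HiA6]
  rw [integral_integral_swap hI, ← integral_const_mul]
  refine integral_congr_ae (Eventually.of_forall fun y => ?_)
  have hy : Integrable (fun p : V × V =>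
      D (Fin.cons p.1 (Fin.cons p.2 y : Fin (k + 1) → V) : Fin (k + 2) → V))
      ((stdGaussian V).prod κ) := by
    refine (hp.mul_const (∏ j, ‖y j‖)).mono' ?_ (Eventually.of_forall fun q => ?_)
    · refine Measurable.aestronglyMeasurable ?_
      exact measurable_D (bp_measurable_cons measurable_fst
        (bp_measurable_cons measurable_snd measurable_const))
    · rw [Real.norm_eq_abs, abs_of_nonneg (D_nonneg _)]
      exact D_cons2_le_HiA6 _ _ _
  simp only
  rw [integral_prod_symm _ hy, ← integral_const_mul]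
  refine integral_congr_ae (Eventually.of_forall fun z => ?_)
  exact gauss_cons_HiA6 hd (Fin.cons z y : Fin (k + 1) → V)

theorem D_th_HiA6 {μ : Measure V} {k : ℕ} (h : 0 < Wr k μ) (u : V) :
    ∫ y, D (Fin.cons u y : Fin (k + 1) → V) ∂(mk μ k) = Wr k μ * th k μ u := by
  unfold th
  rw [integral_Fr h, ← mul_assoc, mul_inv_cancel₀ h.ne', one_mul]
  simp_rw [D_cons_eq]

theorem th_nonneg_HiA6 (μ : Measure V) (k : ℕ) (u : V) : 0 ≤ th k μ u :=
  integral_nonneg fun _ => norm_nonneg _

theorem th_succ_le {μ : Measure V} (hμ : Mom μ) {i : ℕ} (hi : i + 2 ≤ finrank ℝ V)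
    (h : 0 < Wr (i + 1) μ) (u : V) : th (i + 1) μ u ≤ 2 * th i μ u := by
  have := hμ.prob
  obtain ⟨d, hd⟩ := Nat.exists_eq_add_of_le hi
  have hW : 0 < Wr i μ := Wr_pos_of_succ hμ h
  have hd1 : finrank ℝ V = (d + 1) + (i + 1) := by omega
  have hd2 : finrank ℝ V = (d + 2) + i := by omega
  have ha1 : 0 < (aN (d + 1)).toReal := ENNReal.toReal_pos (aN_ne_zero d) (aN_ne_top _)
  have ha2 : (aN (d + 1)).toReal ≤ (aN (d + 2)).toReal := aN_mono (d + 1)
  have hee : ∫ p, omU μ i ⊤ p ∂((stdGaussian V).prod (stdGaussian V))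
      = (aN (d + 1)).toReal * ((aN (d + 2)).toReal * Wr i μ) := by
    rw [B_gauss_HiA6 hμ mom_gauss_HiA6 hd1]
    simp_rw [gauss_cons_HiA6 hd2]
    rw [integral_const_mul]
    rfl
  have hea : ∫ p, omU μ i ⊤ p ∂((stdGaussian V).prod μ)
      = (aN (d + 1)).toReal * Wr (i + 1) μ := by
    rw [B_gauss_HiA6 hμ hμ hd1]
    congr 1
    have hI := (mp_cons (k := i) μ).integrable_comp_of_integrable (integrable_D_mk' hμ (i + 1))
    unfold Wr
    rw [← moment_integral_mp (mp_cons (k := i) μ)
      (F := fun x : Fin (i + 1) → V => D x) (measurable_D measurable_id)]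
    exact (integral_prod_symm _ hI).symm
  have heb : ∫ p, omU μ i ⊤ p ∂((stdGaussian V).prod (Measure.dirac u))
      = (aN (d + 1)).toReal * (Wr i μ * th i μ u) := by
    rw [B_gauss_HiA6 hμ (mom_dirac_HiA6 u) hd1, ← D_th_HiA6 hW]
    simp_rw [integral_dirac]
  have hab : ∫ p, omU μ i ⊤ p ∂(μ.prod (Measure.dirac u))
      = Wr (i + 1) μ * th (i + 1) μ u := by
    have hm : Measurable fun y : Fin (i + 1) → V => D (Fin.cons u y : Fin (i + 2) → V) :=
      measurable_D (bp_measurable_cons measurable_const measurable_id)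
    have hI0 : Integrable (fun y : Fin (i + 1) → V => D (Fin.cons u y : Fin (i + 2) → V))
        (mk μ (i + 1)) := by
      refine ((integrable_prod_norm_mk hμ (i + 1)).const_mul ‖u‖).mono' hm.aestronglyMeasurable
        (Eventually.of_forall fun y => ?_)
      rw [Real.norm_eq_abs, abs_of_nonneg (D_nonneg _)]
      exact D_cons_le_HiA6 _ _
    have hI := (mp_cons (k := i) μ).integrable_comp_of_integrable hI0
    rw [Measure.prod_dirac, integral_map (by fun_prop)
      (measurable_omU hμ i ⊤).aestronglyMeasurable, ← D_th_HiA6 h,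
      ← moment_integral_mp (mp_cons (k := i) μ) hm]
    refine Eq.trans ?_ (integral_prod _ hI).symm
    refine integral_congr_ae (Eventually.of_forall fun x => ?_)
    simp only [omU_top_HiA6, Function.comp]
    refine integral_congr_ae (Eventually.of_forall fun y => ?_)
    exact D_swap _ _ _
  have hpos : 0 < ∫ p, omU μ i ⊤ p ∂((stdGaussian V).prod (stdGaussian V)) := by
    rw [hee]
    exact mul_pos ha1 (mul_pos (ha1.trans_le ha2) hW)
  have key := rKT hμ mom_gauss_HiA6 hμ (mom_dirac_HiA6 u) i ⊤ hpos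
  rw [hee, hea, heb, hab] at key
  have t0 := th_nonneg_HiA6 μ i u
  have t1 := th_nonneg_HiA6 μ (i + 1) u
  set a1 := (aN (d + 1)).toReal
  set a2 := (aN (d + 2)).toReal
  have hc : 0 < a1 * a1 * Wr i μ * Wr (i + 1) μ := by positivity
  have h3 : a1 * a1 * Wr i μ * Wr (i + 1) μ * th (i + 1) μ u
      ≤ a1 * a1 * Wr i μ * Wr (i + 1) μ * (2 * th i μ u) := by
    have h4 : a1 * (a1 * Wr i μ) * (Wr (i + 1) μ * th (i + 1) μ u)
        ≤ a1 * (a2 * Wr i μ) * (Wr (i + 1) μ * th (i + 1) μ u) := by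
      gcongr
    nlinarith [h4, key]
  exact le_of_mul_le_mul_left h3 hc

end Pool.Agent.P.MP_181257_gt
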