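import Pool.Agent.P.MP_181257_gt.HiFr2

/-! The Pohozaev identity. -/

set_option autoImplicit false
set_option linter.unusedSectionVars false
set_option linter.unusedVariables false

open MeasureTheory ProbabilityTheory Module Set Filter Topology
open scoped RealInnerProductSpace ENNReal Pointwise Matrix

noncomputable section

namespace Pool.Agent.P.MP_181257_gt

variable {V : Type} [NormedAddCommGroup V] [InnerProductSpace ℝ V] [FiniteDimensional ℝ V]
  [MeasurableSpace V] [BorelSpace V]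

theorem quot_le_HiB1 (z b : V) : |⟪z, b⟫ / ‖z‖| ≤ ‖b‖ := by
  rcases eq_or_ne z 0 with hz | hz
  · simp [hz]
  · have hz' : 0 < ‖z‖ := norm_pos_iff.mpr hz
    rw [abs_div, abs_of_pos hz', div_le_iff₀ hz', mul_comm]
    exact abs_real_inner_le_norm z b

theorem term_le_HiB1 (a w z b : V) : |⟪a, w⟫ * (⟪z, b⟫ / ‖z‖)| ≤ ‖a‖ * ‖b‖ * ‖w‖ := by
  rw [abs_mul]
  calc |⟪a, w⟫| * |⟪z, b⟫ / ‖z‖| ≤ (‖a‖ * ‖w‖) * ‖b‖ :=
        mul_le_mul (abs_real_inner_le_norm a w) (quot_le_HiB1 z b) (abs_nonneg _) (by positivity)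
    _ = ‖a‖ * ‖b‖ * ‖w‖ := by ring

theorem meas_K_HiB1 {X : Type} [MeasurableSpace X] {i : ℕ} {x : X → Fin i → V} {w : X → V}
    (hx : Measurable x) (hw : Measurable w) (a b : V) :
    Measurable fun q : X => ⟪a, w q⟫ * (⟪Pj i (x q) (w q), b⟫ / ‖Pj i (x q) (w q)‖) := by
  have h1 : Measurable fun q : X => Pj i (x q) (w q) := measurable_Pj i hx hw
  exact (measurable_const.inner hw).mul ((h1.inner measurable_const).div h1.norm)

theorem int_K_HiB1 {μ : Measure V} (hμ : Mom μ) {i : ℕ} (h : 0 < Wr i μ) (a b : V) :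
    Integrable (fun p : (Fin i → V) × V => ⟪a, p.2⟫ * (⟪Pj i p.1 p.2, b⟫ / ‖Pj i p.1 p.2‖))
      ((Fr i μ).prod μ) := by
  have := hμ.prob
  have := Fr_prob hμ h
  have hb : Integrable (fun p : (Fin i → V) × V => (‖a‖ * ‖b‖) * ‖p.2‖) ((Fr i μ).prod μ) :=
    Integrable.mul_prod (f := fun _ : Fin i → V => ‖a‖ * ‖b‖) (integrable_const _) hμ.int
  refine hb.mono' (meas_K_HiB1 measurable_fst measurable_snd a b).aestronglyMeasurable ?_
  exact Eventually.of_forall fun p => term_le_HiB1 _ _ _ _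

theorem meas_H_HiB1 {i : ℕ} (a b : V) :
    Measurable fun q : V × (Fin i → V) =>
      D q.2 * (⟪a, q.1⟫ * (⟪Pj i q.2 q.1, b⟫ / ‖Pj i q.2 q.1‖)) :=
  (measurable_D measurable_snd).mul (meas_K_HiB1 measurable_snd measurable_fst a b)

theorem int_H_HiB1 {μ : Measure V} (hμ : Mom μ) {i : ℕ} (a b : V) :
    Integrable (fun q : V × (Fin i → V) =>
      D q.2 * (⟪a, q.1⟫ * (⟪Pj i q.2 q.1, b⟫ / ‖Pj i q.2 q.1‖))) (μ.prod (mk μ i)) := by
  have := hμ.prob
  have hb : Integrable (fun q : V × (Fin i → V) => ((‖a‖ * ‖b‖) * ‖q.1‖) * D q.2)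
      (μ.prod (mk μ i)) :=
    Integrable.mul_prod (f := fun w : V => (‖a‖ * ‖b‖) * ‖w‖) (hμ.int.const_mul _)
      (integrable_D_mk' hμ i)
  refine hb.mono' (meas_H_HiB1 a b).aestronglyMeasurable ?_
  refine Eventually.of_forall fun q => ?_
  rw [Real.norm_eq_abs, abs_mul, abs_of_nonneg (D_nonneg _), mul_comm]
  exact mul_le_mul_of_nonneg_right (term_le_HiB1 _ _ _ _) (D_nonneg _)

theorem mp_succAbove_HiB1 (μ : Measure V) [SigmaFinite μ] {i : ℕ} (j : Fin (i + 1)) :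
    MeasurePreserving (fun x : Fin (i + 1) → V => (x j, fun l => x (j.succAbove l)))
      (mk μ (i + 1)) (μ.prod (mk μ i)) :=
  measurePreserving_piFinSuccAbove (fun _ : Fin (i + 1) => μ) j

theorem poho {μ : Measure V} (hμ : Mom μ) {i : ℕ} (h : 0 < Wr (i + 1) μ) (a b : V) :
    ⟪a, b⟫ - SS (i + 1) μ a b = (i + 1 : ℝ) / Zq i μ *
      ∫ p : (Fin i → V) × V, ⟪a, p.2⟫ * (⟪Pj i p.1 p.2, b⟫ / ‖Pj i p.1 p.2‖)
        ∂((Fr i μ).prod μ) := by
  have := hμ.prob
  have := Fr_prob hμ h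
  have hi : 0 < Wr i μ := Wr_pos_of_succ hμ h
  have := Fr_prob hμ hi
  set H : V × (Fin i → V) → ℝ := fun q =>
    D q.2 * (⟪a, q.1⟫ * (⟪Pj i q.2 q.1, b⟫ / ‖Pj i q.2 q.1‖)) with hH
  have hHm : Measurable H := meas_H_HiB1 a b
  have hHi : Integrable H (μ.prod (mk μ i)) := int_H_HiB1 hμ a b
  have hP : Integrable (fun x : Fin (i + 1) → V => ⟪Pj (i + 1) x a, b⟫) (Fr (i + 1) μ) := by
    refine (integrable_const (‖a‖ * ‖b‖)).mono'
      ((measurable_Pj (i + 1) measurable_id measurable_const).inner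
        measurable_const).aestronglyMeasurable ?_
    refine Eventually.of_forall fun x => ?_
    exact (abs_real_inner_le_norm _ _).trans
      (mul_le_mul_of_nonneg_right (norm_Pj_le x a) (norm_nonneg _))
  have e1 : ⟪a, b⟫ - SS (i + 1) μ a b
      = ∫ x, (⟪a, b⟫ - ⟪Pj (i + 1) x a, b⟫) ∂(Fr (i + 1) μ) := by
    rw [integral_sub (integrable_const _) hP, integral_const]
    simp [SS]
  have e2 : ∫ x, D x * (⟪a, b⟫ - ⟪Pj (i + 1) x a, b⟫) ∂(mk μ (i + 1))
      = (i + 1 : ℝ) * ∫ q, H q ∂(μ.prod (mk μ i)) := by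
    have e3 : ∀ x : Fin (i + 1) → V, D x * (⟪a, b⟫ - ⟪Pj (i + 1) x a, b⟫)
        = ∑ j : Fin (i + 1), H (x j, fun l => x (j.succAbove l)) := fun x => dual_basis x a b
    simp_rw [e3]
    rw [integral_finsetSum (f := fun (j : Fin (i + 1)) (x : Fin (i + 1) → V) =>
      H (x j, fun l => x (j.succAbove l))) _ fun j _ =>
      (mp_succAbove_HiB1 μ j).integrable_comp_of_integrable hHi]
    have e4 : ∀ j : Fin (i + 1), ∫ x, H (x j, fun l => x (j.succAbove l)) ∂(mk μ (i + 1))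
        = ∫ q, H q ∂(μ.prod (mk μ i)) := fun j =>
      moment_integral_mp (mp_succAbove_HiB1 μ j) hHm
    simp_rw [e4]
    simp
  have e5 : ∫ p : (Fin i → V) × V, ⟪a, p.2⟫ * (⟪Pj i p.1 p.2, b⟫ / ‖Pj i p.1 p.2‖)
        ∂((Fr i μ).prod μ) = (Wr i μ)⁻¹ * ∫ q, H q ∂(μ.prod (mk μ i)) := by
    rw [integral_prod _ (int_K_HiB1 hμ hi a b), integral_Fr hi, integral_prod_symm _ hHi]
    congr 1
    refine integral_congr_ae (Eventually.of_forall fun x => ?_)
    simp only [hH]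
    rw [integral_const_mul]
  rw [e1, integral_Fr h, e2, e5, Zq]
  field_simp

theorem abs_sg_HiB1 (t : ℝ) : |sg t| ≤ 1 := by
  unfold sg
  rw [abs_div, abs_abs]
  exact div_self_le_one _

theorem side_HiB1 {i : ℕ} {μ ν : Measure V} (h : FP i μ ν) (a b : V) :
    c0 * ∫ p : (Fin i → V) × V, ⟪a, p.2⟫ * (⟪Pj i p.1 p.2, b⟫ / ‖Pj i p.1 p.2‖)
        ∂((Fr i μ).prod μ)
      = ∫ w, ∫ y, ⟪a, w⟫ * (sg ⟪w, y⟫ * ⟪b, y⟫) ∂ν ∂μ := by
  have := h.ml.prob
  have := Fr_prob h.ml h.wl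
  rw [integral_prod_symm _ (int_K_HiB1 h.ml h.wl a b), ← integral_const_mul]
  refine integral_congr_ae (Eventually.of_forall fun w => ?_)
  have := sg_Tn h.ml h.wl w b
  rw [← h.er] at this
  simp only
  rw [integral_const_mul, integral_const_mul, this]
  ring

theorem SS_eq {i : ℕ} {μ ν : Measure V} (h : FP i μ ν) (a b : V) :
    SS (i + 1) μ a b = SS (i + 1) ν a b := by
  have := h.ml.prob
  have := h.mr.prob
  have p1 := poho h.ml h.posl a b
  have p2 := poho h.mr h.posr b a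
  have s1 := side_HiB1 h a b
  have s2 := side_HiB1 h.symm b a
  have hz : Zq i μ = Zq i ν := Zq_symm h.ml h.mr h.wl h.wr h.el h.er
  have hint : Integrable (Function.uncurry fun w y : V => ⟪a, w⟫ * (sg ⟪w, y⟫ * ⟪b, y⟫))
      (μ.prod ν) := by
    have hb : Integrable (fun q : V × V => (‖a‖ * ‖q.1‖) * (‖b‖ * ‖q.2‖)) (μ.prod ν) :=
      Integrable.mul_prod (f := fun w : V => ‖a‖ * ‖w‖) (g := fun y : V => ‖b‖ * ‖y‖)
        (h.ml.int.const_mul _) (h.mr.int.const_mul _)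
    have hm : Measurable fun q : V × V => ⟪a, q.1⟫ * (sg ⟪q.1, q.2⟫ * ⟪b, q.2⟫) :=
      (measurable_const.inner measurable_fst).mul
        ((measurable_sg.comp (measurable_fst.inner measurable_snd)).mul
          (measurable_const.inner measurable_snd))
    refine hb.mono' hm.aestronglyMeasurable (Eventually.of_forall fun q => ?_)
    change |⟪a, q.1⟫ * (sg ⟪q.1, q.2⟫ * ⟪b, q.2⟫)| ≤ _
    rw [abs_mul, abs_mul]
    refine mul_le_mul (abs_real_inner_le_norm _ _) ?_ (by positivity) (by positivity)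
    exact (mul_le_of_le_one_left (abs_nonneg _) (abs_sg_HiB1 _)).trans
      (abs_real_inner_le_norm _ _)
  have hsw := integral_integral_swap hint
  have e : ∫ y, ∫ w, ⟪a, w⟫ * (sg ⟪w, y⟫ * ⟪b, y⟫) ∂μ ∂ν
      = ∫ y, ∫ w, ⟪b, y⟫ * (sg ⟪y, w⟫ * ⟪a, w⟫) ∂μ ∂ν := by
    refine integral_congr_ae (Eventually.of_forall fun y => ?_)
    refine integral_congr_ae (Eventually.of_forall fun w => ?_)
    simp only
    rw [real_inner_comm y w]
    ring
  have hI := mul_left_cancel₀ c0_pos.ne' (s1.trans (hsw.trans (e.trans s2.symm)))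
  rw [hI, hz, ← p2, real_inner_comm a b, SS_symm (i + 1) ν b a] at p1
  linarith

end Pool.Agent.P.MP_181257_gt
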