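import Pool.Agent.P.MP_181257_gt.HiB1
import Pool.Agent.P.MP_181257_gt.HiA6

/-! Fixed pairs are not thin. -/

set_option autoImplicit false
set_option linter.unusedSectionVars false
set_option linter.unusedVariables false

open MeasureTheory ProbabilityTheory Module Set Filter Topology
open scoped RealInnerProductSpace ENNReal Pointwise Matrix

noncomputable section

namespace Pool.Agent.P.MP_181257_gt

variable {V : Type} [NormedAddCommGroup V] [InnerProductSpace ℝ V] [FiniteDimensional ℝ V]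
  [MeasurableSpace V] [BorelSpace V]

theorem int_norm_HiB2 {μ : Measure V} (hμ : Mom μ) {k : ℕ} (h : 0 < Wr k μ) (a : V) (p : ℕ) :
    Integrable (fun x : Fin k → V => ‖Pj k x a‖ ^ p) (Fr k μ) := by
  have := Fr_prob hμ h
  have hm : Measurable fun x : Fin k → V => Pj k x a :=
    measurable_Pj k measurable_id measurable_const
  refine Integrable.of_bound (hm.norm.pow_const p).aestronglyMeasurable (‖a‖ ^ p)
    (ae_of_all _ fun x => ?_)
  rw [Real.norm_eq_abs, abs_of_nonneg (by positivity)]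
  exact pow_le_pow_left₀ (norm_nonneg _) (norm_Pj_le x a) p

theorem SS_le_th_HiB2 {μ : Measure V} (hμ : Mom μ) {k : ℕ} (h : 0 < Wr k μ) (a : V) :
    SS k μ a a ≤ ‖a‖ * th k μ a := by
  rw [SS_self, th, ← integral_const_mul]
  have h1 : Integrable (fun x : Fin k → V => ‖Pj k x a‖) (Fr k μ) := by
    simpa using int_norm_HiB2 hμ h a 1
  refine integral_mono (int_norm_HiB2 hμ h a 2) (h1.const_mul _) fun x => ?_
  have h2 := norm_Pj_le x a
  have h3 := norm_nonneg (Pj k x a)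
  change ‖Pj k x a‖ ^ 2 ≤ ‖a‖ * ‖Pj k x a‖
  nlinarith

theorem th_sq_le_HiB2 {μ : Measure V} (hμ : Mom μ) {k : ℕ} (h : 0 < Wr k μ) (a : V) :
    th k μ a ^ 2 ≤ SS k μ a a := by
  have := Fr_prob hμ h
  have h1 : Integrable (fun x : Fin k → V => ‖Pj k x a‖) (Fr k μ) := by
    simpa using int_norm_HiB2 hμ h a 1
  have h2 : ∫ x, (2 * th k μ a * ‖Pj k x a‖ - th k μ a ^ 2) ∂(Fr k μ)
      ≤ ∫ x, ‖Pj k x a‖ ^ 2 ∂(Fr k μ) := by
    refine integral_mono ((h1.const_mul _).sub (integrable_const _)) (int_norm_HiB2 hμ h a 2)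
      fun x => ?_
    change 2 * th k μ a * ‖Pj k x a‖ - th k μ a ^ 2 ≤ ‖Pj k x a‖ ^ 2
    nlinarith [sq_nonneg (th k μ a - ‖Pj k x a‖)]
  rw [integral_sub (h1.const_mul _) (integrable_const _), integral_const_mul, integral_const,
    probReal_univ, one_smul, ← SS_self] at h2
  change 2 * th k μ a * th k μ a - _ ≤ _ at h2
  linarith

theorem point_HiB2 {T X r t q : ℝ} (hT : 0 ≤ T) (hX : 0 ≤ X) (hr : 0 ≤ r) (hq : 0 < q)
    (h1 : X ≤ r * (2 * T)) (h2 : X ≤ r * r) :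
    t * X - t ^ 2 / 4 * (q * r ^ 2 + r ^ 4 / q) ≤ T := by
  have h3 : 2 * r ^ 3 ≤ q * r ^ 2 + r ^ 4 / q := by
    have h4 : q * r ^ 2 + r ^ 4 / q - 2 * r ^ 3 = (r * (q - r)) ^ 2 / q := by
      field_simp
      ring
    have h5 : 0 ≤ (r * (q - r)) ^ 2 / q := by positivity
    linarith
  have h6 : t * X - t ^ 2 / 2 * r ^ 3 ≤ T := by
    rcases hr.eq_or_lt with h0 | h0
    · subst h0
      have : X = 0 := by linarith
      subst this
      simpa using hT
    · refine le_of_mul_le_mul_left ?_ (by linarith : 0 < 2 * r)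
      have h7 : 0 ≤ X * (1 - t * r) ^ 2 := by positivity
      have h8 : 0 ≤ (t * r) ^ 2 * (r * r - X) := mul_nonneg (sq_nonneg _) (by linarith)
      nlinarith
  have h9 := mul_le_mul_of_nonneg_left h3 (by positivity : 0 ≤ t ^ 2 / 4)
  linarith

theorem nonthin {i : ℕ} {μ ν : Measure V} (h : FP i μ ν) (hi : i + 2 ≤ finrank ℝ V) :
    (((finrank ℝ V : ℝ) - i - 1) / finrank ℝ V) ^ 6 * √(finrank ℝ V : ℝ) / 100 ≤ Zq i μ := by
  have := h.ml.prob
  obtain ⟨b, sl, hb⟩ := exists_diag (SS (i + 1) μ) (SS_symm _ _) (SS_add h.ml h.posl)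
    (SS_smul _ _)
  have hsum := sum_SS h.ml h.posl b
  have hbb : ∀ l, SS (i + 1) μ (b l) (b l) = sl l := fun l => by
    rw [hb, real_inner_self_eq_norm_sq, b.orthonormal.1 l, one_pow, mul_one]
  simp only [hbb] at hsum
  have hcard : ((Finset.univ : Finset (Fin (finrank ℝ V))).card : ℝ) = (finrank ℝ V : ℝ) := by
    simp
  have hE2 : ∫ w, ‖w‖ ^ 2 ∂μ ≤ (finrank ℝ V : ℝ) := by
    have := integral_norm_pow_Tn h.mr h.wr (j := 1) le_rfl
    rw [← h.el, Km_one] at this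
    simpa using this
  have hE4 : ∫ w, ‖w‖ ^ 4 ∂μ ≤ (finrank ℝ V : ℝ) ^ 2 * 3 := by
    have := integral_norm_pow_Tn h.mr h.wr (j := 2) (by norm_num)
    rwa [← h.el, Km_two] at this
  have hi' : (i : ℝ) + 2 ≤ (finrank ℝ V : ℝ) := by exact_mod_cast hi
  have hi0 : (0 : ℝ) ≤ i := Nat.cast_nonneg i
  generalize hN : (finrank ℝ V : ℝ) = N at hsum hcard hE2 hE4 hi' ⊢
  have hN0 : 0 < N := by linarith
  obtain ⟨q, hq0, hq⟩ : ∃ q : ℝ, 0 < q ∧ N = q ^ 2 :=
    ⟨√N, Real.sqrt_pos.2 hN0, (Real.sq_sqrt hN0.le).symm⟩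
  have hsq : √N = q := by rw [hq, Real.sqrt_sq hq0.le]
  rw [hsq]
  obtain ⟨s, hs⟩ : ∃ s : ℝ, s = (N - i - 1) / N := ⟨_, rfl⟩
  rw [← hs]
  have hs0 : 0 ≤ s := by
    rw [hs]
    exact div_nonneg (by linarith) hN0.le
  have hsN : ∑ l, sl l = N * s := by
    rw [hsum, hs]
    push_cast
    field_simp
    ring
  have hSn : ∀ w, 0 ≤ SS (i + 1) μ w w := fun w => by
    rw [SS_self]
    exact integral_nonneg fun x => sq_nonneg _
  have hsl : ∀ l, 0 ≤ sl l := fun l => hbb l ▸ hSn (b l)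
  have hth0 : ∀ (κ : Measure V) w, 0 ≤ th i κ w := fun κ w =>
    integral_nonneg fun x => norm_nonneg _
  -- the quadratic form in the eigenbasis
  have hform : ∀ w, SS (i + 1) μ w w = ∑ l, sl l * ⟪b l, w⟫ ^ 2 := fun w => by
    let L : V →ₗ[ℝ] ℝ :=
      { toFun := fun u => SS (i + 1) μ u w
        map_add' := fun u u' => SS_add h.ml h.posl u u' w
        map_smul' := fun t u => SS_smul _ _ t u w }
    have h1 : SS (i + 1) μ w w = L (∑ l, ⟪b l, w⟫ • b l) := by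
      rw [b.sum_repr' w]
      rfl
    rw [h1, map_sum]
    refine Finset.sum_congr rfl fun l _ => ?_
    rw [map_smul, smul_eq_mul]
    change ⟪b l, w⟫ * SS (i + 1) μ (b l) w = _
    rw [hb]
    ring
  -- second moments from below
  have hmom : ∀ l, sl l ^ 2 / 4 ≤ ∫ w, ⟪b l, w⟫ ^ 2 ∂μ := fun l => by
    have h1 := SS_le_th_HiB2 h.mr h.posr (b l)
    rw [← SS_eq h, hbb, b.orthonormal.1 l, one_mul] at h1
    have h2 := th_succ_le h.mr hi h.posr (b l)
    have h3 := th_sq_le_HiB2 h.mr h.wr (b l)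
    rw [← Sg_Tn h.mr h.wr, ← h.el] at h3
    have h4 : Sg μ (b l) (b l) = ∫ w, ⟪b l, w⟫ ^ 2 ∂μ := by
      simp only [Sg, pow_two]
    have h5 := hsl l
    have h6 := hth0 ν (b l)
    rw [← h4]
    nlinarith
  have hI2 : ∀ l, Integrable (fun w => ⟪b l, w⟫ ^ 2) μ := fun l => by
    have := integrable_inner_pow_Tn h.mr h.wr (b l) 2
    rwa [← h.el] at this
  have hIn : ∀ p : ℕ, Integrable (fun w : V => ‖w‖ ^ p) μ := fun p => by
    have := integrable_norm_pow_Tn h.mr h.wr p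
    rwa [← h.el] at this
  have hIS : Integrable (fun w => ∑ l, sl l * ⟪b l, w⟫ ^ 2) μ :=
    integrable_finsetSum _ fun l _ => (hI2 l).const_mul _
  have hES : N * s ^ 3 / 4 ≤ ∫ w, ∑ l, sl l * ⟪b l, w⟫ ^ 2 ∂μ := by
    rw [integral_finsetSum _ fun l _ => (hI2 l).const_mul _]
    have h1 : ∀ l, (3 * s ^ 2 * sl l - 2 * s ^ 3) / 4 ≤ ∫ w, sl l * ⟪b l, w⟫ ^ 2 ∂μ := fun l => by
      rw [integral_const_mul]
      have h2 := mul_le_mul_of_nonneg_left (hmom l) (hsl l)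
      have h3 : 0 ≤ (sl l - s) ^ 2 * (sl l + 2 * s) :=
        mul_nonneg (sq_nonneg _) (by linarith [hsl l])
      nlinarith
    refine le_trans (le_of_eq ?_) (Finset.sum_le_sum fun l _ => h1 l)
    rw [← Finset.sum_div, Finset.sum_sub_distrib, ← Finset.mul_sum, hsN, Finset.sum_const,
      nsmul_eq_mul, hcard]
    ring
  have hIth : Integrable (fun w => th i μ w) μ := by
    have := Fr_prob h.ml h.wl
    exact (integrable_norm_Pj_prod h.ml h.wl).integral_prod_right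
  obtain ⟨t, ht⟩ : ∃ t : ℝ, t = s ^ 3 / (8 * q) := ⟨_, rfl⟩
  have ht0 : 0 ≤ t := by rw [ht]; positivity
  have hI3 : Integrable (fun w : V => q * ‖w‖ ^ 2 + ‖w‖ ^ 4 / q) μ :=
    ((hIn 2).const_mul q).add ((hIn 4).div_const q)
  have hmain : ∫ w, (t * ∑ l, sl l * ⟪b l, w⟫ ^ 2 - t ^ 2 / 4 * (q * ‖w‖ ^ 2 + ‖w‖ ^ 4 / q)) ∂μ
      ≤ ∫ w, th i μ w ∂μ := by
    refine integral_mono ((hIS.const_mul t).sub (hI3.const_mul _)) hIth fun w => ?_
    have h1 := SS_le_th_HiB2 h.ml h.posl w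
    have h2 := mul_le_mul_of_nonneg_left (th_succ_le h.ml hi h.posl w) (norm_nonneg w)
    have h3 := (le_abs_self _).trans (abs_SS_le h.ml h.posl w w)
    have h4 := point_HiB2 (t := t) (hth0 μ w) (hSn w) (norm_nonneg w) hq0 (h1.trans h2) h3
    rw [hform] at h4
    exact h4
  rw [integral_sub (hIS.const_mul t) (hI3.const_mul _), integral_const_mul, integral_const_mul,
    integral_add ((hIn 2).const_mul q) ((hIn 4).div_const q), integral_const_mul, integral_div,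
    ← Zq_eq_th h.ml h.wl] at hmain
  have h1 := mul_le_mul_of_nonneg_left hES ht0
  have h2 : q * ∫ w, ‖w‖ ^ 2 ∂μ + (∫ w, ‖w‖ ^ 4 ∂μ) / q ≤ 4 * q ^ 3 := by
    have h3 := mul_le_mul_of_nonneg_left hE2 hq0.le
    have h4 := div_le_div_of_nonneg_right hE4 hq0.le
    have h5 : q * N + N ^ 2 * 3 / q = 4 * q ^ 3 := by
      rw [hq]
      field_simp
      ring
    linarith
  have h3 := mul_le_mul_of_nonneg_left h2 (by positivity : 0 ≤ t ^ 2 / 4)
  have h4 : t * (N * s ^ 3 / 4) - t ^ 2 / 4 * (4 * q ^ 3) = s ^ 6 * q / 64 := by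
    rw [ht, hq]
    field_simp
    ring
  have h5 : 0 ≤ s ^ 6 * q := by positivity
  linarith

end Pool.Agent.P.MP_181257_gt
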