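import Pool.Agent.P.MP_181257_gt.HiFr2
import Pool.Agent.P.MP_181257_gt.HiA4

/-! Concentration of the length of projections. -/

set_option autoImplicit false
set_option linter.unusedSectionVars false
set_option linter.unusedVariables false

open MeasureTheory ProbabilityTheory Module Set Filter Topology
open scoped RealInnerProductSpace ENNReal Pointwise Matrix

noncomputable section

namespace Pool.Agent.P.MP_181257_gt

variable {V : Type} [NormedAddCommGroup V] [InnerProductSpace ℝ V] [FiniteDimensional ℝ V]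
  [MeasurableSpace V] [BorelSpace V]

theorem le_HiC1 {k : ℕ} (x : Fin k → V) (T : V →L[ℝ] V) (hT : ∀ v, ‖T v‖ ≤ ‖v‖) (w : V) (p : ℕ) :
    ‖Pj k x (T w)‖ ^ p ≤ ‖w‖ ^ p :=
  pow_le_pow_left₀ (norm_nonneg _) ((norm_Pj_le x _).trans (hT w)) p

theorem int_HiC1 {κ : Measure V} {k : ℕ} (x : Fin k → V) (T : V →L[ℝ] V) (hT : ∀ v, ‖T v‖ ≤ ‖v‖)
    (h2 : Integrable (fun w => ‖w‖ ^ 2) κ) : Integrable (fun w => ‖Pj k x (T w)‖ ^ 2) κ := by
  refine h2.mono' (Measurable.aestronglyMeasurable (by fun_prop)) (ae_of_all _ fun w => ?_)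
  rw [Real.norm_eq_abs, abs_of_nonneg (sq_nonneg _)]
  exact le_HiC1 x T hT w 2

theorem bd_HiC1 {κ : Measure V} [IsProbabilityMeasure κ] (k : ℕ) (T : V →L[ℝ] V)
    (hT : ∀ v, ‖T v‖ ≤ ‖v‖) (h2 : Integrable (fun w => ‖w‖ ^ 2) κ) :
    Bd fun x : Fin k → V => ∫ w, ‖Pj k x (T w)‖ ^ 2 ∂κ := by
  refine ⟨?_, ∫ w, ‖w‖ ^ 2 ∂κ, fun x => ?_⟩
  · have h1 : Measurable fun p : (Fin k → V) × V => ‖Pj k p.1 (T p.2)‖ ^ 2 :=
      (measurable_Pj k measurable_fst (by fun_prop)).norm.pow_const 2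
    exact (h1.stronglyMeasurable.integral_prod_right' (ν := κ)).measurable
  · rw [abs_of_nonneg (integral_nonneg fun w => sq_nonneg _)]
    exact integral_mono (int_HiC1 x T hT h2) h2 fun w => le_HiC1 x T hT w 2

theorem sq_int_HiC1 {X : Type} [MeasurableSpace X] {κ : Measure X} [IsProbabilityMeasure κ]
    {f g : X → ℝ} (hf : Measurable f) (hg : Integrable g κ) (h : ∀ w, f w ^ 2 ≤ g w) (m : ℝ) :
    Integrable (fun w => (f w - m) ^ 2) κ := by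
  refine ((hg.const_mul 2).add (integrable_const (2 * m ^ 2))).mono'
    (Measurable.aestronglyMeasurable (by fun_prop)) (ae_of_all _ fun w => ?_)
  rw [Real.norm_eq_abs, abs_of_nonneg (sq_nonneg _)]
  have := h w
  simp only [Pi.add_apply]
  nlinarith [sq_nonneg (f w + m)]

theorem split_HiC1 {X : Type} [MeasurableSpace X] {κ : Measure X} [IsProbabilityMeasure κ]
    {f : X → ℝ} {m : ℝ} (hi : Integrable (fun w => (f w - m) ^ 2) κ) (M : ℝ) :
    ∫ w, (f w - M) ^ 2 ∂κ ≤ 2 * ∫ w, (f w - m) ^ 2 ∂κ + 2 * (m - M) ^ 2 := by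
  have h1 := integral_mono_of_nonneg (μ := κ) (f := fun w => (f w - M) ^ 2)
    (g := fun w => 2 * (f w - m) ^ 2 + 2 * (m - M) ^ 2) (ae_of_all _ fun w => sq_nonneg _)
    ((hi.const_mul 2).add (integrable_const _))
    (ae_of_all _ fun w => by nlinarith [sq_nonneg (f w - m - (m - M))])
  rw [integral_add (hi.const_mul 2) (integrable_const _), integral_const_mul, integral_const]
    at h1
  simpa using h1

theorem outer_HiC1 {X : Type} [MeasurableSpace X] {κ : Measure X} [IsProbabilityMeasure κ]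
    {f m : X → ℝ} (hm : Bd m) (hf : ∀ x, 0 ≤ f x) {c M : ℝ}
    (h : ∀ x, f x ≤ c + 2 * (m x - M) ^ 2) :
    ∫ x, f x ∂κ ≤ c + 2 * ∫ x, (m x - M) ^ 2 ∂κ := by
  obtain ⟨C, hC⟩ := hm.bdd
  have hi : Integrable (fun x => (m x - M) ^ 2) κ :=
    sq_int_HiC1 hm.meas (integrable_const (C ^ 2))
      (fun w => sq_le_sq' (abs_le.1 (hC w)).1 (abs_le.1 (hC w)).2) M
  have h1 := integral_mono_of_nonneg (μ := κ) (f := f)
    (g := fun x => c + 2 * (m x - M) ^ 2) (ae_of_all _ hf)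
    ((integrable_const _).add (hi.const_mul 2)) (ae_of_all _ h)
  rw [integral_add (integrable_const _) (hi.const_mul 2), integral_const_mul, integral_const]
    at h1
  simpa using h1

theorem swap_HiC1 (U : Submodule ℝ V) {k : ℕ} (y : Fin k → V) :
    ∫ g, ‖pU U (Pj k y g)‖ ^ 2 ∂(stdGaussian V) = ∫ g, ‖Pj k y (pU U g)‖ ^ 2 ∂(stdGaussian V) := by
  have h1 := integral_norm_sq_clm (stdOrthonormalBasis ℝ V) ((pU U).comp (Pj k y))
  have h2 := integral_norm_sq_clm (stdOrthonormalBasis ℝ V) ((Pj k y).comp (pU U))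
  simp only [ContinuousLinearMap.comp_apply] at h1 h2
  rw [h1, h2]
  simp only [← (stdOrthonormalBasis ℝ V).sum_sq_inner_right]
  rw [Finset.sum_comm]
  refine Finset.sum_congr rfl fun l _ => Finset.sum_congr rfl fun l' _ => ?_
  rw [← Submodule.inner_starProjection_left_eq_right, ← inner_Pj_comm, real_inner_comm]

/-- bounded differences -/
theorem es_one {μ : Measure V} (hμ : Mom μ) {i : ℕ} (hi : 1 ≤ i) (h : 0 < Wr i μ)
    {κ : Measure V} [IsProbabilityMeasure κ] (T : V →L[ℝ] V) (hT : ∀ v, ‖T v‖ ≤ ‖v‖)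
    (h2 : Integrable (fun w => ‖w‖ ^ 2) κ) (h1 : ∀ a : V, ∫ w, ⟪a, w⟫ ^ 2 ∂κ ≤ ‖a‖ ^ 2) :
    ∫ x, ((∫ w, ‖Pj i x (T w)‖ ^ 2 ∂κ) - ∫ y, ∫ w, ‖Pj i y (T w)‖ ^ 2 ∂κ ∂(Fr i μ)) ^ 2 ∂(Fr i μ)
      ≤ i := by
  obtain ⟨k, rfl⟩ : ∃ k, i = k + 1 := ⟨i - 1, by omega⟩
  have := Fr_prob hμ h
  have : CompleteSpace V := FiniteDimensional.complete ℝ V
  have h3 := efron_stein hμ h (bd_HiC1 (k + 1) T hT h2) (fun σ x => by simp only [Pj_perm])
    (bd_HiC1 k T hT h2)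
  refine h3.trans ?_
  have h4 : ∀ x : Fin (k + 1) → V, ((∫ w, ‖Pj (k + 1) x (T w)‖ ^ 2 ∂κ)
      - ∫ w, ‖Pj k (Fin.tail x) (T w)‖ ^ 2 ∂κ) ^ 2 ≤ 1 := by
    intro x
    obtain ⟨z, hz⟩ : ∃ z, z = Pj k (Fin.tail x) (x 0) := ⟨_, rfl⟩
    have e1 : ∀ w, ‖Pj (k + 1) x (T w)‖ ^ 2 = ‖Pj k (Fin.tail x) (T w)‖ ^ 2
        - ⟪ContinuousLinearMap.adjoint T z, w⟫ ^ 2 / ‖z‖ ^ 2 := by
      intro w
      have := norm_sq_Pj_cons (x 0) (Fin.tail x) (T w)
      rw [Fin.cons_self_tail, ← hz] at this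
      rw [this, ContinuousLinearMap.adjoint_inner_left]
    have e2 : ‖ContinuousLinearMap.adjoint T z‖ ≤ ‖z‖ := by
      have a1 : ‖T‖ ≤ 1 := T.opNorm_le_bound zero_le_one fun v => by simpa using hT v
      have a2 := (ContinuousLinearMap.adjoint T).le_opNorm z
      rw [LinearIsometryEquiv.norm_map] at a2
      nlinarith [norm_nonneg z]
    have e3 : ∫ w, ⟪ContinuousLinearMap.adjoint T z, w⟫ ^ 2 / ‖z‖ ^ 2 ∂κ ≤ 1 := by
      rw [integral_div]
      exact div_le_one_of_le₀ ((h1 _).trans (pow_le_pow_left₀ (norm_nonneg _) e2 2)) (sq_nonneg _)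
    have e4 : 0 ≤ ∫ w, ⟪ContinuousLinearMap.adjoint T z, w⟫ ^ 2 / ‖z‖ ^ 2 ∂κ :=
      integral_nonneg fun w => by positivity
    have e5 : (∫ w, ‖Pj k (Fin.tail x) (T w)‖ ^ 2 ∂κ) - ∫ w, ‖Pj (k + 1) x (T w)‖ ^ 2 ∂κ
        = ∫ w, ⟪ContinuousLinearMap.adjoint T z, w⟫ ^ 2 / ‖z‖ ^ 2 ∂κ := by
      rw [← integral_sub (int_HiC1 _ T hT h2) (int_HiC1 _ T hT h2)]
      congr 1
      ext w
      rw [e1]
      ring
    nlinarith
  have h5 := integral_mono_of_nonneg (μ := Fr (k + 1) μ) (ae_of_all _ fun x => sq_nonneg _)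
    (integrable_const (1 : ℝ)) (ae_of_all _ h4)
  rw [integral_const, probReal_univ, one_smul] at h5
  push_cast
  have h6 : (0 : ℝ) ≤ k + 1 := by positivity
  nlinarith

theorem conc_sub {i : ℕ} {μ ν : Measure V} (h : FP i μ ν) (hi : 1 ≤ i) (hin : i ≤ finrank ℝ V)
    (U : Submodule ℝ V) :
    ∫ w, (‖pU U w‖ ^ 2 - ∫ z, ‖pU U z‖ ^ 2 ∂μ) ^ 2 ∂μ ≤ 6 * (finrank ℝ V : ℝ) := by
  have := Fr_prob h.mr h.wr
  obtain ⟨M, hM⟩ : ∃ M, M = ∫ z, ‖pU U z‖ ^ 2 ∂μ := ⟨_, rfl⟩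
  rw [← hM]
  have b2 : ∀ w, ‖pU U w‖ ^ 2 ≤ ‖w‖ ^ 2 := fun w =>
    pow_le_pow_left₀ (norm_nonneg _) (norm_pU_le U w) 2
  have h1 := (integrable_Tn h.mr h.wr (φ := fun w => ‖pU U w‖ ^ 2) (by fun_prop) (C := 1) (p := 2)
    (fun w => by rw [abs_of_nonneg (sq_nonneg _)]; linarith [b2 w])).2
  have h2 := (integrable_Tn h.mr h.wr (φ := fun w => (‖pU U w‖ ^ 2 - M) ^ 2) (by fun_prop)
    (C := 2 + 2 * M ^ 2) (p := 4) (fun w => by
      rw [abs_of_nonneg (sq_nonneg _)]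
      have a1 : (‖pU U w‖ ^ 2) ^ 2 ≤ (‖w‖ ^ 2) ^ 2 := pow_le_pow_left₀ (sq_nonneg _) (b2 w) 2
      have a2 : 0 ≤ M ^ 2 * ‖w‖ ^ 4 := by positivity
      nlinarith [sq_nonneg (‖pU U w‖ ^ 2 + M)])).2
  rw [← h.el] at h1 h2
  rw [← hM] at h1
  simp only [swap_HiC1] at h1
  have h3 := es_one h.mr hi h.wr (κ := stdGaussian V) (pU U) (norm_pU_le U)
    (integrable_norm_pow 2) (fun a => by
      have := integral_inner_pow a 1
      rw [Km_one, one_mul] at this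
      exact this.le)
  rw [← h1] at h3
  rw [h2]
  have h4 := outer_HiC1 (κ := Fr i ν) (bd_HiC1 i (pU U) (norm_pU_le U) (integrable_norm_pow 2))
    (f := fun y => ∫ g, (‖pU U (Pj i y g)‖ ^ 2 - M) ^ 2 ∂(stdGaussian V))
    (fun y => integral_nonneg fun g => sq_nonneg _) (c := 4 * (finrank ℝ V : ℝ)) (M := M) (by
      intro y
      have a1 := quad_var ((pU U).comp (Pj i y)) fun g => (norm_pU_le U _).trans (norm_Pj_le y g)
      simp only [ContinuousLinearMap.comp_apply] at a1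
      have a2 := split_HiC1 (κ := stdGaussian V) (sq_int_HiC1 (f := fun g => ‖pU U (Pj i y g)‖ ^ 2)
        (by fun_prop) (integrable_norm_pow 4) (fun g => by
          rw [← pow_mul]
          exact pow_le_pow_left₀ (norm_nonneg _) ((norm_pU_le U _).trans (norm_Pj_le y g)) _)
        (∫ z, ‖pU U (Pj i y z)‖ ^ 2 ∂(stdGaussian V))) M
      rw [← swap_HiC1]
      linarith)
  have h5 : (i : ℝ) ≤ finrank ℝ V := by exact_mod_cast hin
  linarith

theorem conc_pair {i : ℕ} {μ ν : Measure V} (h : FP i μ ν) (hi : 1 ≤ i) (hin : i ≤ finrank ℝ V) :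
    Integrable (fun p : (Fin i → V) × V => ‖Pj i p.1 p.2‖ ^ 2) ((Fr i μ).prod μ) ∧
    Integrable (fun p : (Fin i → V) × V => ‖Pj i p.1 p.2‖ ^ 4) ((Fr i μ).prod μ) ∧
    ∫ p : (Fin i → V) × V, (‖Pj i p.1 p.2‖ ^ 2
        - ∫ s : (Fin i → V) × V, ‖Pj i s.1 s.2‖ ^ 2 ∂((Fr i μ).prod μ)) ^ 2 ∂((Fr i μ).prod μ)
      ≤ 14 * (finrank ℝ V : ℝ) := by
  have := Fr_prob h.ml h.wl
  have := h.ml.prob
  have n1 : ∀ q : ℕ, Integrable (fun w => ‖w‖ ^ q) μ := fun q => by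
    have := integrable_norm_pow_Tn h.mr h.wr q
    rwa [← h.el] at this
  have m1 : Measurable fun p : (Fin i → V) × V => ‖Pj i p.1 p.2‖ :=
    (measurable_Pj i measurable_fst measurable_snd).norm
  have n2 : ∀ q : ℕ, Integrable (fun p : (Fin i → V) × V => ‖Pj i p.1 p.2‖ ^ q)
      ((Fr i μ).prod μ) := fun q => by
    refine ((n1 q).comp_snd (Fr i μ)).mono' (m1.pow_const q).aestronglyMeasurable
      (ae_of_all _ fun p => ?_)
    rw [Real.norm_eq_abs, abs_of_nonneg (by positivity)]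
    exact pow_le_pow_left₀ (norm_nonneg _) (norm_Pj_le _ _) q
  refine ⟨n2 2, n2 4, ?_⟩
  obtain ⟨M, hM⟩ : ∃ M, M = ∫ s : (Fin i → V) × V, ‖Pj i s.1 s.2‖ ^ 2 ∂((Fr i μ).prod μ) :=
    ⟨_, rfl⟩
  rw [← hM]
  rw [integral_prod _ (n2 2)] at hM
  rw [integral_prod _ (sq_int_HiC1 (m1.pow_const 2) (n2 4) (fun p => by rw [← pow_mul]) M)]
  have h3 := es_one h.ml hi h.wl (κ := μ) (ContinuousLinearMap.id ℝ V) (fun v => le_rfl) (n1 2)
    (fun a => by
      have := integral_inner_pow_Tn h.mr h.wr a 1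
      rwa [← h.el, Km_one, one_mul] at this)
  simp only [ContinuousLinearMap.id_apply] at h3
  rw [← hM] at h3
  have b1 := bd_HiC1 i (ContinuousLinearMap.id ℝ V) (fun v => le_rfl) (n1 2)
  simp only [ContinuousLinearMap.id_apply] at b1
  have h4 := outer_HiC1 (κ := Fr i μ) b1 (f := fun x => ∫ w, (‖Pj i x w‖ ^ 2 - M) ^ 2 ∂μ)
    (fun y => integral_nonneg fun g => sq_nonneg _) (c := 12 * (finrank ℝ V : ℝ)) (M := M) (by
      intro x
      have a1 := conc_sub h hi hin (nrm x)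
      rw [← Pj_eq] at a1
      have a2 := split_HiC1 (κ := μ) (sq_int_HiC1 (f := fun w => ‖Pj i x w‖ ^ 2)
        (by fun_prop) (n1 4) (fun g => by
          rw [← pow_mul]
          exact pow_le_pow_left₀ (norm_nonneg _) (norm_Pj_le x g) _)
        (∫ z, ‖Pj i x z‖ ^ 2 ∂μ)) M
      linarith)
  have h5 : (i : ℝ) ≤ finrank ℝ V := by exact_mod_cast hin
  linarith

end Pool.Agent.P.MP_181257_gt
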