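import Pool.Agent.P.MP_181257_gt.HiC1

/-! Consecutive mean projections are close. -/

set_option autoImplicit false
set_option linter.unusedSectionVars false
set_option linter.unusedVariables false

open MeasureTheory ProbabilityTheory Module Set Filter Topology
open scoped RealInnerProductSpace ENNReal Pointwise Matrix

noncomputable section

namespace Pool.Agent.P.MP_181257_gt

variable {V : Type} [NormedAddCommGroup V] [InnerProductSpace ℝ V] [FiniteDimensional ℝ V]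
  [MeasurableSpace V] [BorelSpace V]

theorem point_HiC2 {k : ℕ} (x : Fin k → V) (w : V) {a b : V} (ha : ‖a‖ ≤ 1) (hb : ‖b‖ ≤ 1)
    {c : ℝ} (hc : 0 < c) (Z : ℝ) :
    |‖Pj k x w‖ * ⟪Pj (k + 1) (Fin.cons w x : Fin (k + 1) → V) a, b⟫ - Z * ⟪Pj k x a, b⟫|
      ≤ c / 8 * (‖Pj k x w‖ - Z) ^ 2 + (2 / c + 1 / 2) + 1 / 2 * ⟪Pj k x b, w⟫ ^ 2 := by
  have hPa : ‖Pj k x a‖ ≤ 1 := (norm_Pj_le x a).trans ha
  have hφ : |⟪Pj k x a, b⟫| ≤ 1 :=
    (abs_real_inner_le_norm _ _).trans (mul_le_one₀ hPa (norm_nonneg _) hb)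
  have hβ : ⟪Pj k x w, b⟫ = ⟪Pj k x b, w⟫ := by
    rw [inner_Pj_comm, real_inner_comm]
  rw [Pj_cons, pr, inner_sub_left, real_inner_smul_left, hβ]
  set R := ‖Pj k x w‖ with hR
  set φ := ⟪Pj k x a, b⟫
  set β := ⟪Pj k x b, w⟫
  have hα : |⟪Pj k x w, Pj k x a⟫| ≤ R := by
    refine (abs_real_inner_le_norm _ _).trans ?_
    exact mul_le_of_le_one_right (norm_nonneg _) hPa
  set α := ⟪Pj k x w, Pj k x a⟫
  have hR0 : 0 ≤ R := norm_nonneg _
  have h1 : |R * (α / R ^ 2)| ≤ 1 := by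
    rcases hR0.eq_or_lt with h0 | h0
    · rw [← h0]; simp
    · have : R * (α / R ^ 2) = α / R := by field_simp
      rw [this, abs_div, abs_of_pos h0, div_le_one h0]
      exact hα
  have e : R * (φ - α / R ^ 2 * β) - Z * φ = (R - Z) * φ - R * (α / R ^ 2) * β := by ring
  rw [e]
  have h2 : |(R - Z) * φ| ≤ |R - Z| := by
    rw [abs_mul]
    exact mul_le_of_le_one_right (abs_nonneg _) hφ
  have h3 : |R * (α / R ^ 2) * β| ≤ |β| := by
    rw [abs_mul]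
    exact mul_le_of_le_one_left (abs_nonneg _) h1
  have h4 : |β| ≤ 1 / 2 + 1 / 2 * β ^ 2 := by
    rw [← sq_abs β]
    nlinarith [sq_nonneg (|β| - 1)]
  have h5 : |R - Z| ≤ c / 8 * (R - Z) ^ 2 + 2 / c := by
    rw [← sq_abs (R - Z)]
    set y := |R - Z|
    have : c / 8 * y ^ 2 + 2 / c - y = (c * y - 4) ^ 2 / (8 * c) := by
      field_simp
      ring
    have h6 : 0 ≤ (c * y - 4) ^ 2 / (8 * c) := by positivity
    linarith
  have h7 := abs_sub ((R - Z) * φ) (R * (α / R ^ 2) * β)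
  linarith

theorem sq_int_HiC2 {X : Type} [MeasurableSpace X] {Q : Measure X} [IsProbabilityMeasure Q]
    {R : X → ℝ} (h1 : Integrable R Q) (h2 : Integrable (fun p => R p ^ 2) Q) (t : ℝ) :
    Integrable (fun p => (R p - t) ^ 2) Q ∧
      ∫ p, (R p - t) ^ 2 ∂Q = ∫ p, R p ^ 2 ∂Q - 2 * t * ∫ p, R p ∂Q + t ^ 2 := by
  have e : (fun p => (R p - t) ^ 2) = fun p => R p ^ 2 - 2 * t * R p + t ^ 2 := by
    ext p; ring
  have h3 : Integrable (fun p => R p ^ 2 - 2 * t * R p) Q := h2.sub (h1.const_mul _)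
  rw [e]
  refine ⟨h3.add (integrable_const _), ?_⟩
  rw [integral_add h3 (integrable_const _), integral_sub h2 (h1.const_mul _), integral_const_mul]
  simp

theorem var_HiC2 {X : Type} [MeasurableSpace X] {Q : Measure X} [IsProbabilityMeasure Q]
    {R : X → ℝ} (h0 : ∀ p, 0 ≤ R p) (h1 : Integrable R Q) (h2 : Integrable (fun p => R p ^ 2) Q)
    (h4 : Integrable (fun p => R p ^ 4) Q) {K : ℝ}
    (hK : ∫ p, (R p ^ 2 - ∫ s, R s ^ 2 ∂Q) ^ 2 ∂Q ≤ K) (hZ : 0 < ∫ p, R p ∂Q) :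
    ∫ p, (R p - ∫ s, R s ∂Q) ^ 2 ∂Q ≤ K / (∫ p, R p ∂Q) ^ 2 := by
  set Z := ∫ p, R p ∂Q with hZd
  set τ := ∫ p, R p ^ 2 ∂Q with hτ
  have a1 := (sq_int_HiC2 h1 h2 Z).2
  have a0 : 0 ≤ ∫ p, (R p - Z) ^ 2 ∂Q := integral_nonneg fun p => sq_nonneg _
  rw [← hZd, ← hτ] at a1
  have hτZ : Z ^ 2 ≤ τ := by nlinarith
  have hτ0 : 0 < τ := (pow_pos hZ 2).trans_le hτZ
  have a2 := sq_int_HiC2 h1 h2 (√τ)
  rw [← hZd, ← hτ] at a2
  have hl : √τ ^ 2 = τ := Real.sq_sqrt hτ0.le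
  have hl0 : 0 ≤ √τ := Real.sqrt_nonneg _
  have h4' : Integrable (fun p => (R p ^ 2) ^ 2) Q := by
    simpa [← pow_mul] using h4
  have a3 := (sq_int_HiC2 h2 h4' τ).1
  have a4 : ∫ p, (R p - √τ) ^ 2 ∂Q ≤ ∫ p, (R p ^ 2 - τ) ^ 2 / τ ∂Q := by
    refine integral_mono a2.1 (a3.div_const _) fun p => ?_
    simp only
    rw [le_div_iff₀ hτ0]
    have e : (R p ^ 2 - τ) ^ 2 = (R p - √τ) ^ 2 * (R p + √τ) ^ 2 := by
      rw [← mul_pow]
      congr 1
      nlinarith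
    rw [e]
    refine mul_le_mul_of_nonneg_left ?_ (sq_nonneg _)
    nlinarith [h0 p]
  rw [integral_div] at a4
  have hK0 : 0 ≤ K := (integral_nonneg fun p => sq_nonneg _).trans hK
  have a5 : (∫ p, (R p ^ 2 - τ) ^ 2 ∂Q) / τ ≤ K / Z ^ 2 :=
    div_le_div₀ hK0 hK (pow_pos hZ 2) hτZ
  have a6 := a2.2
  nlinarith [sq_nonneg (√τ - Z)]

theorem SS_close {i : ℕ} {μ ν : Measure V} (h : FP i μ ν) (hi : 1 ≤ i) (hin : i ≤ finrank ℝ V)
    {c m : ℝ} (hc : 0 < c) (hc1 : c ≤ 1) (hm : 1 ≤ m) (hmn : m ^ 4 = finrank ℝ V)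
    (hZ : c * m ^ 2 ≤ Zq i μ) {a b : V} (ha : ‖a‖ ≤ 1) (hb : ‖b‖ ≤ 1) :
    |SS (i + 1) μ a b - SS i μ a b| ≤ 10 / (c ^ 2 * m ^ 2) := by
  have := h.ml.prob
  have := Fr_prob h.ml h.wl
  obtain ⟨h2, h4, hK⟩ := conc_pair h hi hin
  have h1 := integrable_norm_Pj_prod h.ml h.wl
  have hZe := Zq_eq h.ml h.wl
  have hm0 : 0 < m := one_pos.trans_le hm
  have hcm : 0 < c * m ^ 2 := by positivity
  have hZ0 : 0 < Zq i μ := hcm.trans_le hZ
  have hv := var_HiC2 (fun p => norm_nonneg _) h1 h2 h4 hK (hZe ▸ hZ0)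
  rw [← hZe] at hv
  have hv' : 14 * (finrank ℝ V : ℝ) / Zq i μ ^ 2 ≤ 14 / c ^ 2 := by
    rw [← hmn, div_le_div_iff₀ (by positivity) (by positivity)]
    have : (c * m ^ 2) ^ 2 ≤ Zq i μ ^ 2 := by gcongr
    nlinarith
  have hbd : ∀ k : ℕ, Bd fun x : Fin k → V => ⟪Pj k x a, b⟫ := fun k =>
    ⟨(measurable_Pj k measurable_id measurable_const).inner measurable_const, 1, fun x =>
      (abs_real_inner_le_norm _ _).trans
        (mul_le_one₀ ((norm_Pj_le x a).trans ha) (norm_nonneg _) hb)⟩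
  have hF : Bd fun p : (Fin i → V) × V =>
      ⟪Pj (i + 1) (Fin.cons p.2 p.1 : Fin (i + 1) → V) a, b⟫ := by
    obtain ⟨hm', C, hC⟩ := hbd (i + 1)
    exact ⟨hm'.comp (bp_measurable_cons measurable_snd measurable_fst), C, fun p => hC _⟩
  have hφ : Bd fun p : (Fin i → V) × V => ⟪Pj i p.1 a, b⟫ := by
    obtain ⟨hm', C, hC⟩ := hbd i
    exact ⟨hm'.comp measurable_fst, C, fun p => hC _⟩
  have hS : SS (i + 1) μ a b = (Zq i μ)⁻¹ * ∫ p : (Fin i → V) × V,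
      ‖Pj i p.1 p.2‖ * ⟪Pj (i + 1) (Fin.cons p.2 p.1 : Fin (i + 1) → V) a, b⟫
        ∂((Fr i μ).prod μ) := integral_Fr_succ h.ml h.posl (hbd (i + 1))
  have hS0 : SS i μ a b = ∫ p : (Fin i → V) × V, ⟪Pj i p.1 a, b⟫ ∂((Fr i μ).prod μ) := by
    rw [integral_prod _ (hφ.integrable _)]
    simp [SS]
  have hβi : Integrable (fun p : (Fin i → V) × V => ⟪Pj i p.1 b, p.2⟫ ^ 2) ((Fr i μ).prod μ) := by
    refine h2.mono' ?_ (Eventually.of_forall fun p => ?_)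
    · exact (((measurable_Pj i measurable_fst measurable_const).inner measurable_snd).pow_const
        2).aestronglyMeasurable
    · rw [Real.norm_eq_abs, abs_of_nonneg (sq_nonneg _), inner_Pj_comm, ← sq_abs]
      refine pow_le_pow_left₀ (abs_nonneg _) ((abs_real_inner_le_norm _ _).trans ?_) 2
      exact mul_le_of_le_one_left (norm_nonneg _) hb
  have hβ : ∫ p : (Fin i → V) × V, ⟪Pj i p.1 b, p.2⟫ ^ 2 ∂((Fr i μ).prod μ) ≤ 1 := by
    rw [integral_prod _ hβi]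
    have hx : ∀ x : Fin i → V, ∫ w, ⟪Pj i x b, w⟫ ^ 2 ∂μ ≤ 1 := fun x => by
      have h5 := integral_inner_pow_Tn h.mr h.wr (Pj i x b) 1
      rw [← h.el, Km_one, one_mul, mul_one] at h5
      exact h5.trans (pow_le_one₀ (norm_nonneg _) ((norm_Pj_le x b).trans hb))
    refine (integral_mono_of_nonneg (Eventually.of_forall fun x => ?_) (integrable_const (1 : ℝ))
      (Eventually.of_forall hx)).trans (by simp)
    exact integral_nonneg fun w => sq_nonneg _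
  have hsq := (sq_int_HiC2 h1 h2 (Zq i μ)).1
  have hH1 : Integrable (fun p : (Fin i → V) × V =>
      c / 8 * (‖Pj i p.1 p.2‖ - Zq i μ) ^ 2 + (2 / c + 1 / 2)) ((Fr i μ).prod μ) :=
    (hsq.const_mul _).add (integrable_const _)
  have hG := norm_integral_le_of_norm_le (μ := (Fr i μ).prod μ)
    (f := fun p : (Fin i → V) × V =>
      ‖Pj i p.1 p.2‖ * ⟪Pj (i + 1) (Fin.cons p.2 p.1 : Fin (i + 1) → V) a, b⟫
        - Zq i μ * ⟪Pj i p.1 a, b⟫)
    (g := fun p : (Fin i → V) × V => c / 8 * (‖Pj i p.1 p.2‖ - Zq i μ) ^ 2 + (2 / c + 1 / 2)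
      + 1 / 2 * ⟪Pj i p.1 b, p.2⟫ ^ 2)
    (hH1.add (hβi.const_mul _))
    (Eventually.of_forall fun p => point_HiC2 p.1 p.2 ha hb hc _)
  rw [integral_sub (AFK.int_mul h1 hF) ((hφ.integrable _).const_mul _), integral_const_mul, ← hS0,
    integral_add hH1 (hβi.const_mul _), integral_add (hsq.const_mul _) (integrable_const _),
    integral_const_mul, integral_const_mul, Real.norm_eq_abs] at hG
  simp only [integral_const, probReal_univ, smul_eq_mul, one_mul] at hG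
  set I := ∫ p : (Fin i → V) × V,
      ‖Pj i p.1 p.2‖ * ⟪Pj (i + 1) (Fin.cons p.2 p.1 : Fin (i + 1) → V) a, b⟫ ∂((Fr i μ).prod μ)
  have e : SS (i + 1) μ a b - SS i μ a b = (I - Zq i μ * SS i μ a b) / Zq i μ := by
    rw [hS]
    field_simp
  have hb1 : |I - Zq i μ * SS i μ a b| ≤ 10 / c := by
    have t1 := mul_le_mul_of_nonneg_left (hv.trans hv') (by positivity : 0 ≤ c / 8)
    have t2 : c / 8 * (14 / c ^ 2) = 7 / 4 * (1 / c) := by field_simp; ring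
    have t3 : 1 ≤ 1 / c := by rw [le_div_iff₀ hc]; linarith
    have t4 : 2 / c = 2 * (1 / c) := by ring
    have t5 : 10 / c = 10 * (1 / c) := by ring
    linarith
  rw [e, abs_div, abs_of_pos hZ0]
  calc |I - Zq i μ * SS i μ a b| / Zq i μ ≤ (10 / c) / (c * m ^ 2) :=
        div_le_div₀ (by positivity) hb1 hcm hZ
    _ = 10 / (c ^ 2 * m ^ 2) := by field_simp

end Pool.Agent.P.MP_181257_gt
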