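import Pool.Agent.P.MP_181257_gt.HiC1
import Pool.Agent.P.MP_181257_gt.HiB1

/-! The self-consistent equation. -/

set_option autoImplicit false
set_option linter.unusedSectionVars false
set_option linter.unusedVariables false

open MeasureTheory ProbabilityTheory Module Set Filter Topology
open scoped RealInnerProductSpace ENNReal Pointwise Matrix

noncomputable section

namespace Pool.Agent.P.MP_181257_gt

variable {V : Type} [NormedAddCommGroup V] [InnerProductSpace ℝ V] [FiniteDimensional ℝ V]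
  [MeasurableSpace V] [BorelSpace V]

theorem pt_HiC3 {α β R lam m : ℝ} (hR : 0 ≤ R) (hβ : |β| ≤ R) (hl : 0 < lam) (hm : 0 < m) :
    |α * (β / R) - α * β / lam| ≤ (m ^ 2 / (2 * lam ^ 3) + 1 / m ^ 3) * α ^ 4
      + m ^ 2 / (2 * lam ^ 3) * β ^ 4
      + (1 / (m ^ 2 * lam ^ 3) + 16 / 9 * m / lam ^ 4) * (R ^ 2 - lam ^ 2) ^ 2 := by
  have e0 : α * (β / R) - α * β / lam = α * (β / R - β / lam) := by ring
  rw [e0, abs_mul]
  have ha4 : α ^ 4 = |α| ^ 4 := by rw [← abs_pow, abs_of_nonneg (by positivity)]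
  have hb4 : β ^ 4 = |β| ^ 4 := by rw [← abs_pow, abs_of_nonneg (by positivity)]
  have hA := abs_nonneg α
  have hB := abs_nonneg β
  have p1 : 0 ≤ m ^ 2 / (2 * lam ^ 3) * α ^ 4 := by positivity
  have p2 : 0 ≤ 1 / m ^ 3 * α ^ 4 := by positivity
  have p3 : 0 ≤ m ^ 2 / (2 * lam ^ 3) * β ^ 4 := by positivity
  have p4 : 0 ≤ 1 / (m ^ 2 * lam ^ 3) * (R ^ 2 - lam ^ 2) ^ 2 := by positivity
  have p5 : 0 ≤ 16 / 9 * m / lam ^ 4 * (R ^ 2 - lam ^ 2) ^ 2 := by positivity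
  by_cases hc : R < lam / 2
  · have h1 : |β / R - β / lam| ≤ 1 := by
      rcases hR.eq_or_lt with h0 | h0
      · have : β = 0 := abs_nonpos_iff.1 (h0 ▸ hβ)
        simp [this]
      · have e : β / R - β / lam = β / R * (1 - R / lam) := by field_simp
        have h2 : |β / R| ≤ 1 := by
          rw [abs_div, abs_of_pos h0]; exact (div_le_one h0).2 hβ
        have h3 : R / lam ≤ 1 := (div_le_one hl).2 (by linarith)
        have h4 : 0 ≤ R / lam := by positivity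
        rw [e, abs_mul, abs_of_nonneg (by linarith : 0 ≤ 1 - R / lam)]
        exact mul_le_one₀ h2 (by linarith) (by linarith)
    have h2 : |α| ≤ 1 / m ^ 3 * α ^ 4 + m := by
      by_cases h : |α| ≤ m
      · linarith
      · have h3 : m ^ 3 ≤ |α| ^ 3 := pow_le_pow_left₀ hm.le (not_le.1 h).le 3
        have h4 : |α| ≤ 1 / m ^ 3 * α ^ 4 := by
          rw [ha4, one_div, inv_mul_eq_div, le_div_iff₀ (by positivity)]
          nlinarith
        linarith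
    have h3 : m ≤ 16 / 9 * m / lam ^ 4 * (R ^ 2 - lam ^ 2) ^ 2 := by
      have h4 : R ^ 2 ≤ lam ^ 2 / 4 := by nlinarith
      have h5 : (3 / 4 * lam ^ 2) ^ 2 ≤ (lam ^ 2 - R ^ 2) ^ 2 :=
        pow_le_pow_left₀ (by positivity) (by linarith) 2
      calc m = 16 / 9 * m / lam ^ 4 * (3 / 4 * lam ^ 2) ^ 2 := by field_simp; ring
        _ ≤ 16 / 9 * m / lam ^ 4 * (lam ^ 2 - R ^ 2) ^ 2 :=
          mul_le_mul_of_nonneg_left h5 (by positivity)
        _ = _ := by ring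
    have h4 : |α| * |β / R - β / lam| ≤ |α| := mul_le_of_le_one_right hA h1
    nlinarith
  · have hc' : lam / 2 ≤ R := not_lt.1 hc
    have h0 : 0 < R := by linarith
    have e : β / R - β / lam = β * (lam ^ 2 - R ^ 2) / (R * lam * (R + lam)) := by
      field_simp; ring
    have hY := abs_nonneg (lam ^ 2 - R ^ 2)
    have h1 : |β / R - β / lam| ≤ |β| * |lam ^ 2 - R ^ 2| / (lam ^ 3 / 2) := by
      rw [e, abs_div, abs_mul, abs_of_pos (by positivity : 0 < R * lam * (R + lam))]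
      refine div_le_div_of_nonneg_left (by positivity) (by positivity) ?_
      have : lam / 2 * lam * lam ≤ R * lam * (R + lam) := by gcongr; linarith
      nlinarith
    have hY2 : (R ^ 2 - lam ^ 2) ^ 2 = |lam ^ 2 - R ^ 2| ^ 2 := by rw [sq_abs]; ring
    generalize |lam ^ 2 - R ^ 2| = Y at *
    have h2 : 2 * (|α| * |β| * Y) ≤ m ^ 2 * ((|α| ^ 4 + |β| ^ 4) / 2) + Y ^ 2 / m ^ 2 := by
      have h3 : 2 * (|α| * |β| * Y) ≤ m ^ 2 * (|α| * |β|) ^ 2 + Y ^ 2 / m ^ 2 := by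
        have h4 := sq_nonneg (m * (|α| * |β|) - Y / m)
        have e1 : (m * (|α| * |β|) - Y / m) ^ 2
            = m ^ 2 * (|α| * |β|) ^ 2 + Y ^ 2 / m ^ 2 - 2 * (|α| * |β| * Y) := by
          field_simp; ring
        linarith
      have h4 : (|α| * |β|) ^ 2 ≤ (|α| ^ 4 + |β| ^ 4) / 2 := by
        nlinarith [sq_nonneg (|α| ^ 2 - |β| ^ 2)]
      have h5 := mul_le_mul_of_nonneg_left h4 (sq_nonneg m)
      linarith
    have h3 : |α| * |β / R - β / lam| ≤ 2 * (|α| * |β| * Y) / lam ^ 3 := by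
      calc _ ≤ |α| * (|β| * Y / (lam ^ 3 / 2)) := mul_le_mul_of_nonneg_left h1 hA
        _ = _ := by field_simp
    have h4 := div_le_div_of_nonneg_right h2 (by positivity : (0 : ℝ) ≤ lam ^ 3)
    have e2 : (m ^ 2 * ((|α| ^ 4 + |β| ^ 4) / 2) + Y ^ 2 / m ^ 2) / lam ^ 3
        = m ^ 2 / (2 * lam ^ 3) * α ^ 4 + m ^ 2 / (2 * lam ^ 3) * β ^ 4
          + 1 / (m ^ 2 * lam ^ 3) * (R ^ 2 - lam ^ 2) ^ 2 := by
      rw [ha4, hb4, hY2]; field_simp
    nlinarith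

theorem num_HiC3 {c m lam Z N I : ℝ} (hc : 0 < c) (hc1 : c ≤ 1) (hm : 1 ≤ m) (hZ : c * m ^ 2 ≤ Z)
    (hl : Z ≤ lam) (hN0 : 0 ≤ N) (hN : N ≤ m ^ 4) (hI0 : 0 ≤ I)
    (hI : I ≤ (m ^ 2 / (2 * lam ^ 3) + 1 / m ^ 3) * 3 + m ^ 2 / (2 * lam ^ 3) * 3
      + (1 / (m ^ 2 * lam ^ 3) + 16 / 9 * m / lam ^ 4) * (14 * m ^ 4)) :
    N / Z * I ≤ 100 / (c ^ 5 * m) := by
  have hm0 : 0 < m := by linarith
  have hcm : 0 < c * m ^ 2 := by positivity
  have hl' : c * m ^ 2 ≤ lam := hZ.trans hl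
  have hl0 : 0 < lam := by linarith
  have h1 : N / Z ≤ m ^ 4 / (c * m ^ 2) := by gcongr
  have h2 : I ≤ (m ^ 2 / (2 * (c * m ^ 2) ^ 3) + 1 / m ^ 3) * 3 + m ^ 2 / (2 * (c * m ^ 2) ^ 3) * 3
      + (1 / (m ^ 2 * (c * m ^ 2) ^ 3) + 16 / 9 * m / (c * m ^ 2) ^ 4) * (14 * m ^ 4) := by
    refine hI.trans ?_
    gcongr
  have h3 := mul_le_mul h1 h2 hI0 (by positivity)
  refine h3.trans ?_
  have e : m ^ 4 / (c * m ^ 2) * ((m ^ 2 / (2 * (c * m ^ 2) ^ 3) + 1 / m ^ 3) * 3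
      + m ^ 2 / (2 * (c * m ^ 2) ^ 3) * 3
      + (1 / (m ^ 2 * (c * m ^ 2) ^ 3) + 16 / 9 * m / (c * m ^ 2) ^ 4) * (14 * m ^ 4))
      = (17 * (c / m) + 3 * c ^ 4 + 224 / 9) / (c ^ 5 * m) := by
    field_simp; ring
  rw [e]
  have h4 : c / m ≤ 1 := (div_le_one hm0).2 (hc1.trans hm)
  have h5 : c ^ 4 ≤ 1 := pow_le_one₀ hc.le hc1
  exact div_le_div_of_nonneg_right (by linarith) (by positivity)

theorem selfcons {i : ℕ} {μ ν : Measure V} (h : FP i μ ν) (hi : 1 ≤ i)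
    (hin : i + 1 ≤ finrank ℝ V) {c m : ℝ} (hc : 0 < c) (hc1 : c ≤ 1) (hm : 1 ≤ m)
    (hmn : m ^ 4 = finrank ℝ V) (hZ : c * m ^ 2 ≤ Zq i μ) :
    ∃ t : ℝ, 0 ≤ t ∧ t ≤ 1 / c ^ 2 ∧ ∀ a b : V, ‖a‖ ≤ 1 → ‖b‖ ≤ 1 →
      |⟪a, b⟫ - SS (i + 1) μ a b - t * ∫ x, Sg μ a (Pj i x b) ∂(Fr i μ)|
        ≤ 100 / (c ^ 5 * m) := by
  have := h.ml.prob
  have := Fr_prob h.ml h.wl
  have hm0 : 0 < m := by linarith
  have hZ0 : 0 < Zq i μ := Zq_pos h.ml h.posl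
  obtain ⟨I2, I4, hY⟩ := conc_pair h hi (by omega)
  set Q : Measure ((Fin i → V) × V) := (Fr i μ).prod μ with hQ
  set L : ℝ := ∫ s : (Fin i → V) × V, ‖Pj i s.1 s.2‖ ^ 2 ∂Q with hL
  have I1 := integrable_norm_Pj_prod h.ml h.wl
  have hZe := Zq_eq h.ml h.wl
  rw [← hQ] at I1 hZe
  have hZL : Zq i μ ^ 2 ≤ L := by
    have h1 : 0 ≤ ∫ s : (Fin i → V) × V,
        (‖Pj i s.1 s.2‖ ^ 2 - 2 * Zq i μ * ‖Pj i s.1 s.2‖ + Zq i μ ^ 2) ∂Q :=
      integral_nonneg fun s => by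
        have := sq_nonneg (‖Pj i s.1 s.2‖ - Zq i μ)
        simp only [Pi.zero_apply]
        nlinarith
    have I3 : Integrable (fun s : (Fin i → V) × V =>
        ‖Pj i s.1 s.2‖ ^ 2 - 2 * Zq i μ * ‖Pj i s.1 s.2‖) Q := I2.sub (I1.const_mul _)
    rw [integral_add I3 (integrable_const _),
      integral_sub I2 (I1.const_mul _), integral_const_mul, ← hZe] at h1
    simp only [integral_const, probReal_univ, one_smul] at h1
    nlinarith
  set lam : ℝ := √L with hlam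
  have hl : Zq i μ ≤ lam := Real.le_sqrt_of_sq_le hZL
  have hl0 : 0 < lam := by linarith
  have hl2 : lam ^ 2 = L := Real.sq_sqrt ((sq_nonneg _).trans hZL)
  have hN : (i + 1 : ℝ) ≤ m ^ 4 := by rw [hmn]; exact_mod_cast hin
  have hnp : ∀ p : ℕ, Integrable (fun s : (Fin i → V) × V => ‖s.2‖ ^ p) Q := fun p => by
    have h1 := integrable_norm_pow_Tn h.mr h.wr p
    rw [← h.el] at h1
    exact h1.comp_snd _
  have h4 : ∀ u : V, ‖u‖ ≤ 1 → ∫ w, ⟪u, w⟫ ^ 4 ∂μ ≤ 3 := fun u hu => by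
    have h1 := integral_inner_pow_Tn h.mr h.wr u 2
    rw [← h.el, Km_two] at h1
    have h2 : ‖u‖ ^ (2 * 2) ≤ 1 := pow_le_one₀ (norm_nonneg _) hu
    have h3 : ∫ w, ⟪u, w⟫ ^ 4 ∂μ = ∫ w, ⟪u, w⟫ ^ (2 * 2) ∂μ := rfl
    linarith
  refine ⟨(i + 1 : ℝ) / (Zq i μ * lam), by positivity, ?_, fun a b ha hb => ?_⟩
  · have h1 : (c * m ^ 2) * (c * m ^ 2) ≤ Zq i μ * lam :=
      mul_le_mul hZ (hZ.trans hl) (by positivity) hZ0.le
    calc (i + 1 : ℝ) / (Zq i μ * lam) ≤ m ^ 4 / ((c * m ^ 2) * (c * m ^ 2)) := by gcongr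
      _ = 1 / c ^ 2 := by field_simp
  have mP : Measurable fun s : (Fin i → V) × V => Pj i s.1 s.2 :=
    measurable_Pj i measurable_fst measurable_snd
  have mα : Measurable fun s : (Fin i → V) × V => ⟪a, s.2⟫ := measurable_const.inner measurable_snd
  have mβ : Measurable fun s : (Fin i → V) × V => ⟪Pj i s.1 s.2, b⟫ := mP.inner measurable_const
  have bα : ∀ s : (Fin i → V) × V, |⟪a, s.2⟫| ≤ ‖s.2‖ := fun s =>
    (abs_real_inner_le_norm _ _).trans (mul_le_of_le_one_left (norm_nonneg _) ha)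
  have bβ : ∀ s : (Fin i → V) × V, |⟪Pj i s.1 s.2, b⟫| ≤ ‖Pj i s.1 s.2‖ := fun s =>
    (abs_real_inner_le_norm _ _).trans (mul_le_of_le_one_right (norm_nonneg _) hb)
  have bβ' : ∀ s : (Fin i → V) × V, |⟪Pj i s.1 s.2, b⟫| ≤ ‖s.2‖ := fun s =>
    (bβ s).trans (norm_Pj_le _ _)
  have J1 : Integrable (fun s : (Fin i → V) × V =>
      ⟪a, s.2⟫ * (⟪Pj i s.1 s.2, b⟫ / ‖Pj i s.1 s.2‖)) Q := by
    refine (hnp 1).mono' (mα.mul (mβ.div mP.norm)).aestronglyMeasurable (ae_of_all _ fun s => ?_)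
    rw [Real.norm_eq_abs, abs_mul, pow_one, abs_div, abs_norm]
    exact (mul_le_of_le_one_right (abs_nonneg _) (div_le_one_of_le₀ (bβ s) (norm_nonneg _))).trans
      (bα s)
  have J2 : Integrable (fun s : (Fin i → V) × V => ⟪a, s.2⟫ * ⟪Pj i s.1 s.2, b⟫) Q := by
    refine (hnp 2).mono' (mα.mul mβ).aestronglyMeasurable (ae_of_all _ fun s => ?_)
    rw [Real.norm_eq_abs, abs_mul, sq]
    exact mul_le_mul (bα s) (bβ' s) (abs_nonneg _) (norm_nonneg _)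
  have J3 : Integrable (fun s : (Fin i → V) × V => ⟪a, s.2⟫ ^ 4) Q := by
    refine (hnp 4).mono' (mα.pow_const 4).aestronglyMeasurable (ae_of_all _ fun s => ?_)
    rw [Real.norm_eq_abs, abs_pow]
    exact pow_le_pow_left₀ (abs_nonneg _) (bα s) 4
  have J4 : Integrable (fun s : (Fin i → V) × V => ⟪Pj i s.1 s.2, b⟫ ^ 4) Q := by
    refine (hnp 4).mono' (mβ.pow_const 4).aestronglyMeasurable (ae_of_all _ fun s => ?_)
    rw [Real.norm_eq_abs, abs_pow]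
    exact pow_le_pow_left₀ (abs_nonneg _) (bβ' s) 4
  have J5 : Integrable (fun s : (Fin i → V) × V => (‖Pj i s.1 s.2‖ ^ 2 - L) ^ 2) Q := by
    have h1 := (I4.sub (I2.const_mul (2 * L))).add (integrable_const (L ^ 2))
    refine h1.congr (ae_of_all _ fun s => ?_)
    simp only [Pi.add_apply, Pi.sub_apply]
    ring
  have sw : ∀ (x : Fin i → V) (w : V), ⟪Pj i x w, b⟫ = ⟪Pj i x b, w⟫ := fun x w => by
    rw [inner_Pj_comm, real_inner_comm]
  have E3 : ∫ s : (Fin i → V) × V, ⟪a, s.2⟫ ^ 4 ∂Q ≤ 3 := by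
    rw [hQ, integral_prod _ J3]
    simpa using h4 a ha
  have E4 : ∫ s : (Fin i → V) × V, ⟪Pj i s.1 s.2, b⟫ ^ 4 ∂Q ≤ 3 := by
    rw [hQ, integral_prod _ J4]
    have h1 : ∫ x, ∫ w, ⟪Pj i x w, b⟫ ^ 4 ∂μ ∂(Fr i μ) ≤ ∫ x, (3 : ℝ) ∂(Fr i μ) := by
      refine integral_mono_of_nonneg (ae_of_all _ fun x => integral_nonneg fun w => ?_)
        (integrable_const _) (ae_of_all _ fun x => ?_)
      · simp only [Pi.zero_apply]
        positivity
      · simp only [sw]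
        exact h4 _ ((norm_Pj_le _ _).trans hb)
    simpa using h1
  have E2 : ∫ x, Sg μ a (Pj i x b) ∂(Fr i μ)
      = ∫ s : (Fin i → V) × V, ⟪a, s.2⟫ * ⟪Pj i s.1 s.2, b⟫ ∂Q := by
    rw [hQ, integral_prod _ J2]
    simp only [Sg, sw]
  rw [poho h.ml h.posl, E2, ← hQ]
  have e1 : (i + 1 : ℝ) / Zq i μ * ∫ s : (Fin i → V) × V,
        ⟪a, s.2⟫ * (⟪Pj i s.1 s.2, b⟫ / ‖Pj i s.1 s.2‖) ∂Q
      - (i + 1 : ℝ) / (Zq i μ * lam) * ∫ s : (Fin i → V) × V, ⟪a, s.2⟫ * ⟪Pj i s.1 s.2, b⟫ ∂Q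
      = (i + 1 : ℝ) / Zq i μ * ∫ s : (Fin i → V) × V,
        (⟪a, s.2⟫ * (⟪Pj i s.1 s.2, b⟫ / ‖Pj i s.1 s.2‖)
          - ⟪a, s.2⟫ * ⟪Pj i s.1 s.2, b⟫ / lam) ∂Q := by
    rw [integral_sub J1 (J2.div_const _), integral_div]
    field_simp
  rw [e1, abs_mul, abs_of_nonneg (by positivity : 0 ≤ (i + 1 : ℝ) / Zq i μ)]
  refine num_HiC3 hc hc1 hm hZ hl (by positivity) hN (abs_nonneg _) ?_
  refine (abs_integral_le_integral_abs).trans ?_
  have K := ((J3.const_mul (m ^ 2 / (2 * lam ^ 3) + 1 / m ^ 3)).add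
    (J4.const_mul (m ^ 2 / (2 * lam ^ 3)))).add
    (J5.const_mul (1 / (m ^ 2 * lam ^ 3) + 16 / 9 * m / lam ^ 4))
  refine (integral_mono_of_nonneg (ae_of_all _ fun s => abs_nonneg _) K
    (ae_of_all _ fun s => ?_)).trans ?_
  · have := pt_HiC3 (α := ⟪a, s.2⟫) (norm_nonneg _) (bβ s) hl0 hm0
    rw [hl2] at this
    exact this
  · rw [integral_add' ((J3.const_mul _).add (J4.const_mul _)) (J5.const_mul _),
      integral_add' (J3.const_mul _) (J4.const_mul _), integral_const_mul, integral_const_mul,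
      integral_const_mul]
    rw [← hmn] at hY
    gcongr

end Pool.Agent.P.MP_181257_gt
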