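import Pool.Agent.P.MP_181257_gt.HiC2
import Pool.Agent.P.MP_181257_gt.HiC3
import Pool.Agent.P.MP_181257_gt.HiB2

/-! Isotropy. -/

set_option autoImplicit false
set_option linter.unusedSectionVars false
set_option linter.unusedVariables false

open MeasureTheory ProbabilityTheory Module Set Filter Topology
open scoped RealInnerProductSpace ENNReal Pointwise Matrix

noncomputable section

namespace Pool.Agent.P.MP_181257_gt

variable {V : Type} [NormedAddCommGroup V] [InnerProductSpace ℝ V] [FiniteDimensional ℝ V]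
  [MeasurableSpace V] [BorelSpace V]

theorem measurable_SS_HiC4 {ν : Measure V} (hν : Mom ν) {k : ℕ} (h : 0 < Wr k ν) (a : V) :
    Measurable fun y : V => SS k ν a y := by
  let L : V →ₗ[ℝ] ℝ :=
    { toFun := fun y => SS k ν a y
      map_add' := fun y z => by
        rw [SS_symm k ν a (y + z), SS_add hν h, SS_symm k ν y a, SS_symm k ν z a]
      map_smul' := fun t y => by
        rw [SS_symm k ν a (t • y), SS_smul, SS_symm k ν y a]; rfl }
  exact (LinearMap.continuous_of_finiteDimensional L).measurable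

theorem root_close_HiC4 {s s' t e : ℝ} (hs : 0 ≤ s) (hs' : 0 ≤ s') (ht : 0 ≤ t)
    (h1 : |1 - s - t * s ^ 2| ≤ e) (h2 : |1 - s' - t * s' ^ 2| ≤ e) : |s - s'| ≤ 2 * e := by
  have hk : 0 ≤ t * (s + s') := mul_nonneg ht (add_nonneg hs hs')
  have h3 : |(s - s') * (1 + t * (s + s'))| ≤ 2 * e := by
    have : (s - s') * (1 + t * (s + s')) = (1 - s' - t * s' ^ 2) - (1 - s - t * s ^ 2) := by ring
    rw [this]
    have := abs_sub (1 - s' - t * s' ^ 2) (1 - s - t * s ^ 2)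
    linarith
  rw [abs_mul, abs_of_nonneg (by linarith : (0 : ℝ) ≤ 1 + t * (s + s'))] at h3
  have := mul_nonneg (abs_nonneg (s - s')) hk
  nlinarith

theorem iso_core {i : ℕ} {μ ν : Measure V} (h : FP i μ ν) (hi : 1 ≤ i)
    (hin : i + 1 ≤ finrank ℝ V) {c m : ℝ} (hc : 0 < c) (hc1 : c ≤ 1) (hm : 1 ≤ m)
    (hmn : m ^ 4 = finrank ℝ V) (hZ : c * m ^ 2 ≤ Zq i μ) {a : V} (ha : ‖a‖ = 1) :
    |Sg μ a a - ((finrank ℝ V : ℝ) - i - 1) / finrank ℝ V| ≤ 1000 / (c ^ 6 * m) := by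
  haveI := Fr_prob h.ml h.wl
  have hm0 : 0 < m := by linarith
  have hin' : i ≤ finrank ℝ V := by omega
  have hZ' : c * m ^ 2 ≤ Zq i ν := by
    rw [← Zq_symm h.ml h.mr h.wl h.wr h.el h.er]; exact hZ
  have hSg : ∀ u v : V, Sg μ u v = SS i ν u v := by
    intro u v
    have := Sg_Tn h.mr h.wr u v
    rwa [← h.el] at this
  set δ : ℝ := 10 / (c ^ 2 * m ^ 2) with hδ
  have hδ0 : 0 ≤ δ := by positivity
  have hcl : ∀ u v : V, ‖u‖ ≤ 1 → ‖v‖ ≤ 1 → |SS (i + 1) μ u v - SS i μ u v| ≤ δ :=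
    fun u v hu hv => SS_close h hi hin' hc hc1 hm hmn hZ hu hv
  have hcl' : ∀ u v : V, ‖u‖ ≤ 1 → ‖v‖ ≤ 1 → |SS (i + 1) μ u v - SS i ν u v| ≤ δ := by
    intro u v hu hv
    rw [SS_eq h]
    exact SS_close h.symm hi hin' hc hc1 hm hmn hZ' hu hv
  obtain ⟨b, s, hb⟩ := exists_diag (SS (i + 1) μ) (SS_symm _ _) (SS_add h.ml h.posl)
    (SS_smul _ _)
  obtain ⟨t, ht0, ht1, ht⟩ := selfcons h hi hin hc hc1 hm hmn hZ
  have hb1 : ∀ l, ‖b l‖ = 1 := fun l => b.orthonormal.1 l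
  have hbb : ∀ l, ⟪b l, b l⟫ = (1 : ℝ) := fun l => by
    rw [real_inner_self_eq_norm_sq, hb1]; norm_num
  have hsl : ∀ l, SS (i + 1) μ (b l) (b l) = s l := fun l => by rw [hb, hbb, mul_one]
  have hs0 : ∀ l, 0 ≤ s l := fun l => by
    rw [← hsl, SS_self]
    exact integral_nonneg fun x => sq_nonneg _
  have hs1 : ∀ l, s l ≤ 1 := fun l => by
    have := abs_SS_le h.ml h.posl (b l) (b l)
    rw [hsl, hb1, mul_one] at this
    exact (le_abs_self _).trans this
  have hkey : ∀ l, |1 - s l - t * s l ^ 2| ≤ 120 / (c ^ 5 * m) := by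
    intro l
    have hP : Measurable fun x : Fin i → V => Pj i x (b l) :=
      measurable_Pj i measurable_id measurable_const
    have hPn : ∀ x : Fin i → V, ‖Pj i x (b l)‖ ≤ 1 := fun x => by
      simpa [hb1] using norm_Pj_le x (b l)
    have hI1 : Integrable (fun x : Fin i → V => SS i ν (b l) (Pj i x (b l))) (Fr i μ) := by
      refine Bd.integrable ⟨(measurable_SS_HiC4 h.mr h.wr (b l)).comp hP, 1, fun x => ?_⟩ _
      have := abs_SS_le h.mr h.wr (b l) (Pj i x (b l))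
      rw [hb1, one_mul] at this
      exact this.trans (hPn x)
    have hI2 : Integrable (fun x : Fin i → V => s l * ⟪Pj i x (b l), b l⟫) (Fr i μ) := by
      refine Integrable.const_mul (Bd.integrable ⟨hP.inner measurable_const, 1, fun x => ?_⟩ _) _
      have := abs_real_inner_le_norm (Pj i x (b l)) (b l)
      rw [hb1, mul_one] at this
      exact this.trans (hPn x)
    have hd : |(∫ x, Sg μ (b l) (Pj i x (b l)) ∂(Fr i μ)) - s l * SS i μ (b l) (b l)| ≤ δ := by
      have e1 : (∫ x, Sg μ (b l) (Pj i x (b l)) ∂(Fr i μ)) - s l * SS i μ (b l) (b l)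
          = ∫ x, (SS i ν (b l) (Pj i x (b l)) - s l * ⟪Pj i x (b l), b l⟫) ∂(Fr i μ) := by
        rw [integral_sub hI1 hI2, integral_const_mul]
        simp only [hSg]
        rfl
      rw [e1]
      have := norm_integral_le_of_norm_le_const (μ := Fr i μ) (C := δ)
        (f := fun x => SS i ν (b l) (Pj i x (b l)) - s l * ⟪Pj i x (b l), b l⟫)
        (Eventually.of_forall fun x => by
          have h1 := hcl' (b l) (Pj i x (b l)) (hb1 l).le (hPn x)
          rw [hb, real_inner_comm, abs_sub_comm] at h1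
          exact h1)
      simpa using this
    have h2 := hcl (b l) (b l) (hb1 l).le (hb1 l).le
    rw [hsl] at h2
    have h3 := ht (b l) (b l) (hb1 l).le (hb1 l).le
    rw [hsl, hbb] at h3
    set J := ∫ x, Sg μ (b l) (Pj i x (b l)) ∂(Fr i μ) with hJ
    set Q := SS i μ (b l) (b l) with hQ
    have h4 : |J - s l ^ 2| ≤ 2 * δ := by
      have e2 : J - s l ^ 2 = (J - s l * Q) - s l * (s l - Q) := by ring
      have h5 : |s l * (s l - Q)| ≤ δ := by
        rw [abs_mul, abs_of_nonneg (hs0 l)]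
        calc s l * |s l - Q| ≤ 1 * δ :=
              mul_le_mul (hs1 l) h2 (abs_nonneg _) zero_le_one
          _ = δ := one_mul _
      rw [e2]
      have := abs_sub (J - s l * Q) (s l * (s l - Q))
      linarith
    have h6 : |t * (J - s l ^ 2)| ≤ 20 / (c ^ 5 * m) := by
      rw [abs_mul, abs_of_nonneg ht0]
      calc t * |J - s l ^ 2| ≤ 1 / c ^ 2 * (2 * δ) :=
            mul_le_mul ht1 h4 (abs_nonneg _) (by positivity)
        _ = 20 / (c ^ 4 * m ^ 2) := by rw [hδ]; field_simp; norm_num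
        _ ≤ 20 / (c ^ 5 * m) := by
            apply div_le_div_of_nonneg_left (by norm_num) (by positivity)
            have h7 : c ≤ m := hc1.trans hm
            have : c ^ 4 * m * c ≤ c ^ 4 * m * m :=
              mul_le_mul_of_nonneg_left h7 (by positivity)
            calc c ^ 5 * m = c ^ 4 * m * c := by ring
              _ ≤ c ^ 4 * m * m := this
              _ = c ^ 4 * m ^ 2 := by ring
    have e3 : 1 - s l - t * s l ^ 2 = (1 - s l - t * J) + t * (J - s l ^ 2) := by ring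
    rw [e3]
    have := abs_add_le (1 - s l - t * J) (t * (J - s l ^ 2))
    have e4 : (120 : ℝ) / (c ^ 5 * m) = 100 / (c ^ 5 * m) + 20 / (c ^ 5 * m) := by ring
    linarith
  set e : ℝ := 120 / (c ^ 5 * m) with he
  have hss : ∀ l l', |s l - s l'| ≤ 2 * e := fun l l' =>
    root_close_HiC4 (hs0 l) (hs0 l') ht0 (hkey l) (hkey l')
  have hn0 : (0 : ℝ) < finrank ℝ V := by
    have : 0 < finrank ℝ V := by omega
    exact_mod_cast this
  have hsum : ∑ l, s l = (finrank ℝ V : ℝ) - i - 1 := by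
    have := sum_SS h.ml h.posl b
    simp only [hsl] at this
    rw [this]; push_cast; ring
  set σ : ℝ := ((finrank ℝ V : ℝ) - i - 1) / finrank ℝ V with hσ
  have hmean : ∀ l, |s l - σ| ≤ 2 * e := by
    intro l
    have e5 : s l - σ = (∑ l', (s l - s l')) / finrank ℝ V := by
      rw [Finset.sum_sub_distrib, hsum, hσ]
      simp only [Finset.sum_const, Finset.card_univ, Fintype.card_fin, nsmul_eq_mul]
      field_simp
    rw [e5, abs_div, abs_of_pos hn0, div_le_iff₀ hn0]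
    calc |∑ l', (s l - s l')| ≤ ∑ l', |s l - s l'| := Finset.abs_sum_le_sum_abs _ _
      _ ≤ ∑ l' : Fin (finrank ℝ V), 2 * e := Finset.sum_le_sum fun l' _ => hss l l'
      _ = 2 * e * finrank ℝ V := by
          simp only [Finset.sum_const, Finset.card_univ, Fintype.card_fin, nsmul_eq_mul]
          ring
  have hone : ∑ l, ⟪b l, a⟫ ^ 2 = (1 : ℝ) := by
    have := b.sum_sq_inner_right a
    rw [this, ha]; norm_num
  have hSa : SS (i + 1) μ a a = ∑ l, s l * ⟪b l, a⟫ ^ 2 := by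
    have hlin : ∀ (T : Finset (Fin (finrank ℝ V))) (r : Fin (finrank ℝ V) → ℝ),
        SS (i + 1) μ (∑ l ∈ T, r l • b l) a = ∑ l ∈ T, r l * SS (i + 1) μ (b l) a := by
      intro T r
      induction T using Finset.induction_on with
      | empty =>
        have := SS_smul (i + 1) μ 0 a a
        simpa using this
      | insert l T hl ih =>
        rw [Finset.sum_insert hl, Finset.sum_insert hl, SS_add h.ml h.posl, SS_smul, ih]
    have e6 := hlin Finset.univ fun l => ⟪b l, a⟫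
    rw [b.sum_repr' a] at e6
    rw [e6]
    refine Finset.sum_congr rfl fun l _ => ?_
    rw [hb]; ring
  have hA : |SS (i + 1) μ a a - σ| ≤ 2 * e := by
    have e7 : SS (i + 1) μ a a - σ = ∑ l, (s l - σ) * ⟪b l, a⟫ ^ 2 := by
      simp only [sub_mul, Finset.sum_sub_distrib, ← Finset.mul_sum, hone, hSa, mul_one]
    rw [e7]
    calc |∑ l, (s l - σ) * ⟪b l, a⟫ ^ 2| ≤ ∑ l, |(s l - σ) * ⟪b l, a⟫ ^ 2| :=
          Finset.abs_sum_le_sum_abs _ _
      _ ≤ ∑ l, 2 * e * ⟪b l, a⟫ ^ 2 := Finset.sum_le_sum fun l _ => by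
          rw [abs_mul, abs_of_nonneg (sq_nonneg ⟪b l, a⟫)]
          exact mul_le_mul_of_nonneg_right (hmean l) (sq_nonneg _)
      _ = 2 * e := by rw [← Finset.mul_sum, hone, mul_one]
  have hB := hcl' a a ha.le ha.le
  rw [← hSg] at hB
  have hc6 : c ^ 6 * m ≤ c ^ 5 * m := by
    have : c ^ 5 * m * c ≤ c ^ 5 * m * 1 := mul_le_mul_of_nonneg_left hc1 (by positivity)
    calc c ^ 6 * m = c ^ 5 * m * c := by ring
      _ ≤ c ^ 5 * m * 1 := this
      _ = c ^ 5 * m := by ring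
  have hc2 : c ^ 6 * m ≤ c ^ 2 * m ^ 2 := by
    have h4 : c ^ 4 ≤ m := (pow_le_one₀ hc.le hc1).trans hm
    have : c ^ 2 * m * c ^ 4 ≤ c ^ 2 * m * m := mul_le_mul_of_nonneg_left h4 (by positivity)
    calc c ^ 6 * m = c ^ 2 * m * c ^ 4 := by ring
      _ ≤ c ^ 2 * m * m := this
      _ = c ^ 2 * m ^ 2 := by ring
  have hE : e ≤ 120 / (c ^ 6 * m) :=
    div_le_div_of_nonneg_left (by norm_num) (by positivity) hc6
  have hD : δ ≤ 10 / (c ^ 6 * m) :=
    div_le_div_of_nonneg_left (by norm_num) (by positivity) hc2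
  have e8 : Sg μ a a - σ = (SS (i + 1) μ a a - σ) - (SS (i + 1) μ a a - Sg μ a a) := by ring
  rw [e8]
  have h9 := abs_sub (SS (i + 1) μ a a - σ) (SS (i + 1) μ a a - Sg μ a a)
  have hp : 0 < 1 / (c ^ 6 * m) := by positivity
  have e9 : (1000 : ℝ) / (c ^ 6 * m) = 1000 * (1 / (c ^ 6 * m)) := by ring
  have e10 : (120 : ℝ) / (c ^ 6 * m) = 120 * (1 / (c ^ 6 * m)) := by ring
  have e11 : (10 : ℝ) / (c ^ 6 * m) = 10 * (1 / (c ^ 6 * m)) := by ring
  linarith

theorem isotropy {ε η : ℝ} (hε : 0 < ε) (hη : 0 < η) : ∃ n₀ : ℕ, ∀ n : ℕ, n₀ ≤ n →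
    ∀ (i : ℕ) (μ ν : Measure (En n)), FP i μ ν → 1 ≤ i → (i : ℝ) ≤ (1 - ε) * n →
      ∀ a : En n, ‖a‖ = 1 → |Sg μ a a - ((n : ℝ) - i - 1) / n| ≤ η := by
  set c : ℝ := (ε / 2) ^ 6 / 100 with hcdef
  have hc : 0 < c := by positivity
  obtain ⟨n₁, hn₁⟩ := exists_nat_ge (2 / ε)
  obtain ⟨n₂, hn₂⟩ := exists_nat_ge ((1000 / (c ^ 6 * η)) ^ 4)
  refine ⟨n₁ + n₂ + 1, fun n hn i μ ν h hi hin a ha => ?_⟩
  have hfr : finrank ℝ (En n) = n := finrank_euclideanSpace_fin
  have hn1 : (1 : ℝ) ≤ n := by exact_mod_cast (by omega : 1 ≤ n)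
  have hn0 : (0 : ℝ) < n := by linarith
  have hi1 : (1 : ℝ) ≤ i := by exact_mod_cast hi
  have hε1 : ε < 1 := by
    by_contra hh
    push Not at hh
    have : (1 - ε) * n ≤ 0 := mul_nonpos_of_nonpos_of_nonneg (by linarith) hn0.le
    linarith
  have hεn : 2 ≤ ε * n := by
    have h1 : (n₁ : ℝ) ≤ n := by exact_mod_cast (by omega : n₁ ≤ n)
    have h2 : 2 / ε ≤ n := hn₁.trans h1
    rw [div_le_iff₀ hε] at h2
    linarith
  have hi2 : i + 2 ≤ n := by
    have : (i : ℝ) + 2 ≤ n := by linarith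
    exact_mod_cast this
  set m : ℝ := √(√(n : ℝ)) with hmdef
  have hm2 : m ^ 2 = √(n : ℝ) := Real.sq_sqrt (Real.sqrt_nonneg _)
  have hm4 : m ^ 4 = n := by
    rw [show m ^ 4 = (m ^ 2) ^ 2 by ring, hm2, Real.sq_sqrt hn0.le]
  have hm1 : 1 ≤ m := Real.one_le_sqrt.2 (Real.one_le_sqrt.2 hn1)
  have hc1 : c ≤ 1 := by
    have : (ε / 2) ^ 6 ≤ 1 := pow_le_one₀ (by positivity) (by linarith)
    rw [hcdef]; linarith
  have hnt := nonthin h (by rw [hfr]; exact hi2)
  rw [hfr] at hnt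
  have hZ : c * m ^ 2 ≤ Zq i μ := by
    refine le_trans ?_ hnt
    rw [hm2, hcdef]
    have h1 : ε / 2 ≤ ((n : ℝ) - i - 1) / n := by
      rw [le_div_iff₀ hn0]; nlinarith
    have h2 : (ε / 2) ^ 6 ≤ (((n : ℝ) - i - 1) / n) ^ 6 := pow_le_pow_left₀ (by positivity) h1 6
    have h3 := mul_le_mul_of_nonneg_right h2 (Real.sqrt_nonneg (n : ℝ))
    linarith
  have hcore := iso_core h hi (by rw [hfr]; omega) hc hc1 hm1 (by rw [hfr]; exact hm4) hZ ha
  rw [hfr] at hcore
  refine hcore.trans ?_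
  have h4 : (1000 / (c ^ 6 * η)) ^ 4 ≤ m ^ 4 := by
    rw [hm4]
    have h1 : (n₂ : ℝ) ≤ n := by exact_mod_cast (by omega : n₂ ≤ n)
    exact hn₂.trans h1
  have h5 : 1000 / (c ^ 6 * η) ≤ m :=
    le_of_pow_le_pow_left₀ (by norm_num) (by linarith) h4
  rw [div_le_iff₀ (by positivity)] at h5 ⊢
  calc (1000 : ℝ) ≤ m * (c ^ 6 * η) := h5
    _ = η * (c ^ 6 * m) := by ring

end Pool.Agent.P.MP_181257_gt
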