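import Pool.Agent.P.MP_181257_gt.HiFr1

/-! Peeling off the rows of a frame. -/

set_option autoImplicit false
set_option linter.unusedSectionVars false
set_option linter.unusedVariables false

open MeasureTheory ProbabilityTheory Module Set Filter Topology
open scoped RealInnerProductSpace ENNReal Pointwise Matrix

noncomputable section

namespace Pool.Agent.P.MP_181257_gt

variable {V : Type} [NormedAddCommGroup V] [InnerProductSpace ℝ V] [FiniteDimensional ℝ V]
  [MeasurableSpace V] [BorelSpace V]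

theorem cons_HiD1 (U : Submodule ℝ V) {k : ℕ} (a : V) (x : Fin k → V) :
    (fun j => pU U ((Fin.cons a x : Fin (k + 1) → V) j))
      = (Fin.cons (pU U a) fun j => pU U (x j) : Fin (k + 1) → V) := by
  funext j
  refine Fin.cases ?_ (fun j => ?_) j <;> simp

theorem e1_HiD1 (U : Submodule ℝ V) {k : ℕ} (a : V) (x : Fin k → V) :
    ENNReal.ofReal (D fun j => pU U ((Fin.cons a x : Fin (k + 1) → V) j))
      = ENNReal.ofReal (D fun j => pU U (x j))
        * ENNReal.ofReal ‖pU (U ⊓ nrm fun j => pU U (x j)) a‖ := by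
  rw [cons_HiD1, D_cons_eq, Pj_pU, ENNReal.ofReal_mul (D_nonneg _)]

theorem e2_HiD1 (U : Submodule ℝ V) {k : ℕ} (a : V) (x : Fin k → V) :
    ENNReal.ofReal (D fun j => pU U ((Fin.cons a x : Fin (k + 1) → V) j))
      = ENNReal.ofReal ‖pU U a‖
        * ENNReal.ofReal (D fun j => pU (U ⊓ (ℝ ∙ pU U a)ᗮ) (x j)) := by
  rw [cons_HiD1, D_cons, ENNReal.ofReal_mul (norm_nonneg _)]
  simp only [pr_pU]

theorem meas_HiD1 (U : Submodule ℝ V) (k : ℕ) :
    Measurable fun x : Fin k → V => ENNReal.ofReal (D fun j => pU U (x j)) :=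
  (measurable_D (measurable_pi_lambda _ fun j =>
    (pU U).continuous.measurable.comp (measurable_pi_apply j))).ennreal_ofReal

theorem peel {μ : Measure V} (hμ : Mom μ) {d K : ℕ} {B : ℝ≥0∞}
    (Ψ : ∀ k : ℕ, (Fin k → V) → ℝ≥0∞) (hΨ : ∀ k, Measurable (Ψ k)) (h0 : ∀ x, Ψ 0 x ≤ 1)
    (hstep : ∀ k, k < K → ∀ (x : Fin k → V) (U : Submodule ℝ V), d + 1 ≤ finrank ℝ U →
      ∫⁻ a, ENNReal.ofReal ‖pU U a‖ * Ψ (k + 1) (Fin.cons a x) ∂μ
        ≤ B * Ψ k x * ∫⁻ a, ENNReal.ofReal ‖pU U a‖ ∂μ) :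
    ∀ k, k ≤ K → ∀ U : Submodule ℝ V, d + k ≤ finrank ℝ U →
      ∫⁻ x, ENNReal.ofReal (D fun j => pU U (x j)) * Ψ k x ∂(mk μ k)
        ≤ B ^ k * ∫⁻ x, ENNReal.ofReal (D fun j => pU U (x j)) ∂(mk μ k) := by
  have := hμ.prob
  intro k
  induction k with
  | zero =>
    intro _ U _
    rw [pow_zero, one_mul]
    exact lintegral_mono fun x => mul_le_of_le_one_right' (h0 x)
  | succ k ih =>
    intro hk U hU
    have mc : Measurable fun p : (Fin k → V) × V => (Fin.cons p.2 p.1 : Fin (k + 1) → V) :=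
      bp_measurable_cons measurable_snd measurable_fst
    have m1 : Measurable fun p : (Fin k → V) × V =>
        ENNReal.ofReal (D fun j => pU U ((Fin.cons p.2 p.1 : Fin (k + 1) → V) j)) :=
      (meas_HiD1 U (k + 1)).comp mc
    have m2 : Measurable fun p : (Fin k → V) × V =>
        ENNReal.ofReal (D fun j => pU U ((Fin.cons p.2 p.1 : Fin (k + 1) → V) j)) * Ψ k p.1 :=
      m1.mul ((hΨ k).comp measurable_fst)
    have m0 : Measurable fun x : Fin (k + 1) → V =>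
        ENNReal.ofReal (D fun j => pU U (x j)) * Ψ (k + 1) x :=
      (meas_HiD1 U (k + 1)).mul (hΨ (k + 1))
    rw [lintegral_mk_cons hμ m0,
      lintegral_mk_cons hμ (meas_HiD1 U (k + 1))]
    have s1 : ∀ x : Fin k → V,
        ∫⁻ a, ENNReal.ofReal (D fun j => pU U ((Fin.cons a x : Fin (k + 1) → V) j))
          * Ψ (k + 1) (Fin.cons a x) ∂μ
        ≤ B * ∫⁻ a, ENNReal.ofReal (D fun j => pU U ((Fin.cons a x : Fin (k + 1) → V) j))
          * Ψ k x ∂μ := by
      intro x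
      have hr := finrank_inf_nrm U fun j => pU U (x j)
      have h1 := hstep k (by omega) x (U ⊓ nrm fun j => pU U (x j)) (by omega)
      have m3 : Measurable fun a : V =>
          ENNReal.ofReal ‖pU (U ⊓ nrm fun j => pU U (x j)) a‖ :=
        (pU _).continuous.measurable.norm.ennreal_ofReal
      simp only [e1_HiD1, mul_assoc]
      rw [lintegral_const_mul' _ _ ENNReal.ofReal_ne_top,
        lintegral_const_mul' _ _ ENNReal.ofReal_ne_top, lintegral_mul_const _ m3]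
      calc _ ≤ ENNReal.ofReal (D fun j => pU U (x j)) * (B * Ψ k x *
            ∫⁻ a, ENNReal.ofReal ‖pU (U ⊓ nrm fun j => pU U (x j)) a‖ ∂μ) :=
          mul_le_mul_right h1 _
        _ = _ := by ring
    have s2 : ∀ a : V,
        ∫⁻ x, ENNReal.ofReal (D fun j => pU U ((Fin.cons a x : Fin (k + 1) → V) j))
          * Ψ k x ∂(mk μ k)
        ≤ B ^ k * ∫⁻ x, ENNReal.ofReal (D fun j => pU U ((Fin.cons a x : Fin (k + 1) → V) j))
          ∂(mk μ k) := by
      intro a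
      have hr := finrank_link U (pU U a)
      have h1 := ih (by omega) (U ⊓ (ℝ ∙ pU U a)ᗮ) (by omega)
      simp only [e2_HiD1, mul_assoc]
      rw [lintegral_const_mul' _ _ ENNReal.ofReal_ne_top,
        lintegral_const_mul' _ _ ENNReal.ofReal_ne_top]
      exact (mul_le_mul_right h1 _).trans (le_of_eq (by ring))
    have w1 : ∫⁻ x, ∫⁻ a, ENNReal.ofReal
          (D fun j => pU U ((Fin.cons a x : Fin (k + 1) → V) j)) ∂μ ∂(mk μ k)
        = ∫⁻ a, ∫⁻ x, ENNReal.ofReal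
          (D fun j => pU U ((Fin.cons a x : Fin (k + 1) → V) j)) ∂(mk μ k) ∂μ :=
      lintegral_lintegral_swap m1.aemeasurable
    have w2 : ∫⁻ x, ∫⁻ a, ENNReal.ofReal
          (D fun j => pU U ((Fin.cons a x : Fin (k + 1) → V) j)) * Ψ k x ∂μ ∂(mk μ k)
        = ∫⁻ a, ∫⁻ x, ENNReal.ofReal
          (D fun j => pU U ((Fin.cons a x : Fin (k + 1) → V) j)) * Ψ k x ∂(mk μ k) ∂μ :=
      lintegral_lintegral_swap m2.aemeasurable
    refine (lintegral_mono s1).trans ((lintegral_const_mul _ m2.lintegral_prod_right').le.trans ?_)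
    rw [w1, pow_succ', mul_assoc]
    refine mul_le_mul_right (w2.le.trans ((lintegral_mono s2).trans (le_of_eq ?_))) _
    exact lintegral_const_mul _ m1.lintegral_prod_left'

theorem peel_Fr {μ : Measure V} (hμ : Mom μ) {d K : ℕ} (hd : d + K ≤ finrank ℝ V)
    (hW : 0 < Wr K μ) {B : ℝ≥0∞}
    (Ψ : ∀ k : ℕ, (Fin k → V) → ℝ≥0∞) (hΨ : ∀ k, Measurable (Ψ k)) (h0 : ∀ x, Ψ 0 x ≤ 1)
    (hstep : ∀ k, k < K → ∀ (x : Fin k → V) (U : Submodule ℝ V), d + 1 ≤ finrank ℝ U →
      ∫⁻ a, ENNReal.ofReal ‖pU U a‖ * Ψ (k + 1) (Fin.cons a x) ∂μ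
        ≤ B * Ψ k x * ∫⁻ a, ENNReal.ofReal ‖pU U a‖ ∂μ) :
    ∫⁻ x, Ψ K x ∂(Fr K μ) ≤ B ^ K := by
  have h1 := peel hμ Ψ hΨ h0 hstep K le_rfl ⊤ (by rwa [finrank_top])
  simp only [pU, Submodule.starProjection_top, ContinuousLinearMap.id_apply] at h1
  rw [← ofReal_Wr hμ] at h1
  rw [lintegral_Fr μ K (hΨ K)]
  refine (mul_le_mul_right h1 _).trans (le_of_eq ?_)
  rw [mul_comm, mul_assoc,
    ENNReal.mul_inv_cancel (ENNReal.ofReal_pos.2 hW).ne' ENNReal.ofReal_ne_top, mul_one]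

end Pool.Agent.P.MP_181257_gt
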