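import Pool.Agent.P.MP_181257_gt.HiP1

/-! The regularised determinant. -/

set_option autoImplicit false
set_option linter.unusedSectionVars false
set_option linter.unusedVariables false

open MeasureTheory ProbabilityTheory Module Set Filter Topology
open scoped RealInnerProductSpace ENNReal Pointwise Matrix

noncomputable section

namespace Pool.Agent.P.MP_181257_gt

variable {V : Type} [NormedAddCommGroup V] [InnerProductSpace ℝ V] [FiniteDimensional ℝ V]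
  [MeasurableSpace V] [BorelSpace V]

theorem rho_nonneg (δ : ℝ) (U : Submodule ℝ V) (w : V) : 0 ≤ rho δ U w := by
  unfold rho
  positivity

theorem rho_le {δ : ℝ} (h0 : 0 ≤ δ) (h1 : δ ≤ 1) (U : Submodule ℝ V) (w : V) :
    rho δ U w ≤ 2 := by
  unfold rho
  have h2 : ‖pU U w‖ ^ 2 / ‖w‖ ^ 2 ≤ 1 :=
    div_le_one_of_le₀ (pow_le_pow_left₀ (norm_nonneg _) (norm_pU_le U w) 2) (sq_nonneg _)
  nlinarith

theorem measurable_rho (δ : ℝ) (U : Submodule ℝ V) : Measurable (rho δ U) := by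
  unfold rho
  exact ((((pU U).continuous.norm.pow 2).measurable).div
    ((continuous_norm.pow 2).measurable)).add measurable_const

theorem measurable_Dl {r : ℕ} (δ : ℝ) (e : Fin r → V) (k : ℕ) :
    Measurable fun x : Fin k → V => Dl δ e x := by
  have hc : Continuous fun y : Fin r → V =>
      D fun l => (WithLp.toLp 2 (y l, δ • e l) : Db V) := by
    refine continuous_D.comp (continuous_pi fun l => ?_)
    exact (WithLp.prod_continuous_toLp 2 V V).comp ((continuous_apply l).prodMk continuous_const)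
  have hm : Measurable fun x : Fin k → V => fun l => Pj k x (e l) :=
    measurable_pi_lambda _ fun l => measurable_Pj k measurable_id measurable_const
  exact hc.measurable.comp hm

theorem Dl_zero {r : ℕ} (δ : ℝ) {e : Fin r → V} (he : Orthonormal ℝ e) (x : Fin 0 → V) :
    1 ≤ Dl δ e x := by
  unfold Dl D
  have hg : Matrix.gram ℝ (fun l => (WithLp.toLp 2 (Pj 0 x (e l), δ • e l) : Db V))
      = (1 + δ ^ 2) • (1 : Matrix (Fin r) (Fin r) ℝ) := by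
    ext i j
    have h := orthonormal_iff_ite.1 he i j
    simp only [Matrix.gram_apply, WithLp.prod_inner_apply, Pj_zero, real_inner_smul_left,
      real_inner_smul_right, h, Matrix.smul_apply, Matrix.one_apply, smul_eq_mul]
    split_ifs <;> ring
  rw [hg, Matrix.det_smul, Matrix.det_one, mul_one, Real.one_le_sqrt]
  exact one_le_pow₀ (by nlinarith [sq_nonneg δ])

theorem norm_sq_toLp_HiD2 (y z : V) :
    ‖(WithLp.toLp 2 (y, z) : Db V)‖ ^ 2 = ‖y‖ ^ 2 + ‖z‖ ^ 2 := by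
  rw [WithLp.prod_norm_sq_eq_of_L2]
  rfl

theorem pr_toLp_HiD2 (p y z : V) :
    pr (WithLp.toLp 2 (p, (0 : V)) : Db V) (WithLp.toLp 2 (y, z)) = WithLp.toLp 2 (pr p y, z) := by
  unfold pr
  rw [norm_sq_toLp_HiD2, WithLp.prod_inner_apply, ← WithLp.toLp_smul, ← WithLp.toLp_sub]
  simp

theorem span_HiD2 {r : ℕ} (δ : ℝ) (T : V →L[ℝ] V) (e : Fin r → V) {w : Db V}
    (hw : w ∈ Submodule.span ℝ (range fun l => (WithLp.toLp 2 (T (e l), δ • e l) : Db V))) :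
    ∃ u ∈ Submodule.span ℝ (range e), w = WithLp.toLp 2 (T u, δ • u) := by
  induction hw using Submodule.span_induction with
  | mem w h =>
    obtain ⟨l, rfl⟩ := h
    exact ⟨e l, Submodule.subset_span ⟨l, rfl⟩, rfl⟩
  | zero => exact ⟨0, Submodule.zero_mem _, by simp; rfl⟩
  | add w w' _ _ ih ih' =>
    obtain ⟨u, hu, rfl⟩ := ih
    obtain ⟨u', hu', rfl⟩ := ih'
    refine ⟨u + u', Submodule.add_mem _ hu hu', ?_⟩
    rw [← WithLp.toLp_add]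
    simp
  | smul t w _ ih =>
    obtain ⟨u, hu, rfl⟩ := ih
    refine ⟨t • u, Submodule.smul_mem _ _ hu, ?_⟩
    rw [← WithLp.toLp_smul]
    simp [smul_comm t δ]

theorem core_HiD2 {δ : ℝ} (h0 : 0 ≤ δ) (h1 : δ ≤ 1) {p q s u : V} (hp : ⟪q, p⟫ = ‖q‖ ^ 2)
    (hs : ⟪q, s⟫ = 0) (hu : ‖s‖ ≤ ‖u‖) :
    (‖q‖ ^ 2 + δ ^ 2 * ‖p‖ ^ 2) / 2 ≤ ‖p - s‖ ^ 2 + δ ^ 2 * ‖u‖ ^ 2 := by
  have e1 : ‖p - s - q‖ ^ 2 = ‖p - s‖ ^ 2 - ‖q‖ ^ 2 := by
    rw [norm_sub_sq_real (p - s) q, real_inner_comm, inner_sub_right, hp, hs]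
    ring
  have e2 : ‖p - q‖ ^ 2 = ‖p‖ ^ 2 - ‖q‖ ^ 2 := by
    rw [norm_sub_sq_real p q, real_inner_comm, hp]
    ring
  have e3 : ‖p - q‖ ≤ ‖p - s - q‖ + ‖u‖ := by
    have : p - q = (p - s - q) + s := by abel
    rw [this]
    exact (norm_add_le _ _).trans (by linarith)
  have e4 : ‖p - q‖ ^ 2 ≤ 2 * ‖p - s - q‖ ^ 2 + 2 * ‖u‖ ^ 2 := by
    have := pow_le_pow_left₀ (norm_nonneg _) e3 2
    nlinarith [sq_nonneg (‖p - s - q‖ - ‖u‖)]
  have d1 : δ ^ 2 ≤ 1 := by nlinarith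
  have d0 : 0 ≤ δ ^ 2 := sq_nonneg δ
  have e5 : δ ^ 2 * ‖p - q‖ ^ 2 ≤ δ ^ 2 * (2 * ‖p - s - q‖ ^ 2 + 2 * ‖u‖ ^ 2) :=
    mul_le_mul_of_nonneg_left e4 d0
  have e6 : δ ^ 2 * ‖p - s - q‖ ^ 2 ≤ ‖p - s - q‖ ^ 2 :=
    mul_le_of_le_one_left (sq_nonneg _) d1
  have e7 : δ ^ 2 * ‖q‖ ^ 2 ≤ ‖q‖ ^ 2 := mul_le_of_le_one_left (sq_nonneg _) d1
  rw [e2] at e5
  nlinarith

theorem Dl_cons {r k : ℕ} {δ : ℝ} (h0 : 0 ≤ δ) (h1 : δ ≤ 1) (e : Fin r → V) (x : Fin k → V) :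
    ∃ U : Submodule ℝ V, finrank ℝ V ≤ finrank ℝ U + k + r ∧
      ∀ a : V, Dl δ e x ^ 2 * (rho δ U a / 2) ≤ Dl δ e (Fin.cons a x : Fin (k + 1) → V) ^ 2 := by
  refine ⟨nrm x ⊓ nrm e, ?_, fun a => ?_⟩
  · have h2 := finrank_inf_nrm (nrm x) e
    have h3 := finrank_nrm_ge x
    omega
  set U : Submodule ℝ V := nrm x ⊓ nrm e with hU
  set p : V := Pj k x a with hpdef
  set v : Fin r → Db V := fun l => WithLp.toLp 2 (Pj k x (e l), δ • e l) with hv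
  set q : Db V := WithLp.toLp 2 (p, (0 : V)) with hq
  have hD : Dl δ e x = D v := rfl
  have hD' : Dl δ e (Fin.cons a x : Fin (k + 1) → V) = D fun l => pr q (v l) := by
    unfold Dl
    congr 1
    funext l
    rw [Pj_cons, hq, hv, pr_toLp_HiD2]
  by_cases hp0 : p = 0
  · have hq0 : q = 0 := by rw [hq, hp0]; rfl
    rw [hD', hD, hq0]
    simp only [pr_zero_left]
    have := rho_le h0 h1 U a
    exact mul_le_of_le_one_right (sq_nonneg _) (by linarith)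
  have hpp : 0 < ‖p‖ ^ 2 := pow_pos (norm_pos_iff.2 hp0) 2
  have hqn : ‖q‖ ^ 2 = ‖p‖ ^ 2 := by rw [hq, norm_sq_toLp_HiD2]; simp
  have hkey : ‖p‖ ^ 2 * (D fun l => pr q (v l)) ^ 2 = D v ^ 2 * ‖Pj r v q‖ ^ 2 := by
    rw [← hqn, ← mul_pow, ← mul_pow, ← D_cons, D_cons_eq]
  have hmem : q - Pj r v q ∈ Submodule.span ℝ (range v) := by
    letI : MeasurableSpace (Db V) := borel _
    haveI : BorelSpace (Db V) := ⟨rfl⟩
    rw [Pj_eq v]
    have := Submodule.sub_starProjection_mem_orthogonal (K := nrm v) q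
    rwa [nrm, Submodule.orthogonal_orthogonal] at this
  obtain ⟨u, hu, hu'⟩ := span_HiD2 δ (Pj k x) e hmem
  have hP : Pj r v q = WithLp.toLp 2 (p - Pj k x u, -(δ • u)) := by
    have : Pj r v q = q - WithLp.toLp 2 (Pj k x u, δ • u) := by rw [← hu']; abel
    rw [this, hq, ← WithLp.toLp_sub]
    simp
  have hmemU : pU U a ∈ U := Submodule.starProjection_apply_mem U a
  have hfix : Pj k x (pU U a) = pU U a := by
    rw [Pj_eq]
    exact Submodule.starProjection_eq_self_iff.2 hmemU.1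
  have hi1 : ⟪pU U a, p⟫ = ‖pU U a‖ ^ 2 := by
    rw [hpdef, ← inner_Pj_comm, hfix]
    have h := Submodule.starProjection_inner_eq_zero (K := U) a (pU U a) hmemU
    rw [inner_sub_left, real_inner_self_eq_norm_sq, real_inner_comm] at h
    linarith
  have hi2 : ⟪pU U a, Pj k x u⟫ = 0 := by
    rw [← inner_Pj_comm, hfix, real_inner_comm]
    exact (Submodule.mem_orthogonal _ _).1 hmemU.2 u hu
  have hcore := core_HiD2 h0 h1 hi1 hi2 (norm_Pj_le x u)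
  have hPn : ‖Pj r v q‖ ^ 2 = ‖p - Pj k x u‖ ^ 2 + δ ^ 2 * ‖u‖ ^ 2 := by
    rw [hP, norm_sq_toLp_HiD2, norm_neg, norm_smul, mul_pow, Real.norm_eq_abs, sq_abs]
  have hpa : ‖p‖ ^ 2 / ‖a‖ ^ 2 ≤ 1 :=
    div_le_one_of_le₀ (pow_le_pow_left₀ (norm_nonneg _) (norm_Pj_le x a) 2) (sq_nonneg _)
  have hrho : ‖p‖ ^ 2 * (rho δ U a / 2) ≤ ‖Pj r v q‖ ^ 2 := by
    have h3 : ‖p‖ ^ 2 * (‖pU U a‖ ^ 2 / ‖a‖ ^ 2) ≤ ‖pU U a‖ ^ 2 := by
      have : ‖p‖ ^ 2 * (‖pU U a‖ ^ 2 / ‖a‖ ^ 2) = ‖p‖ ^ 2 / ‖a‖ ^ 2 * ‖pU U a‖ ^ 2 := by ring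
      rw [this]
      exact mul_le_of_le_one_left (sq_nonneg _) hpa
    rw [hPn]
    unfold rho
    nlinarith
  rw [hD', hD]
  refine le_of_mul_le_mul_left ?_ hpp
  rw [hkey]
  calc ‖p‖ ^ 2 * (D v ^ 2 * (rho δ U a / 2)) = D v ^ 2 * (‖p‖ ^ 2 * (rho δ U a / 2)) := by ring
    _ ≤ D v ^ 2 * ‖Pj r v q‖ ^ 2 := mul_le_mul_of_nonneg_left hrho (sq_nonneg _)

end Pool.Agent.P.MP_181257_gt
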