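import Pool.Agent.P.MP_181257_gt.HiD1
import Pool.Agent.P.MP_181257_gt.HiD2

/-! A negative moment of the regularised determinant. -/

set_option autoImplicit false
set_option linter.unusedSectionVars false
set_option linter.unusedVariables false

open MeasureTheory ProbabilityTheory Module Set Filter Topology
open scoped RealInnerProductSpace ENNReal Pointwise Matrix

noncomputable section

namespace Pool.Agent.P.MP_181257_gt

variable {V : Type} [NormedAddCommGroup V] [InnerProductSpace ℝ V] [FiniteDimensional ℝ V]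
  [MeasurableSpace V] [BorelSpace V]

theorem holder_HiD3 {μ : Measure V} {A Y : V → ℝ≥0∞} (hA : Measurable A) (hY : Measurable Y)
    {p : ℝ} (hp0 : 0 ≤ p) (hp1 : p ≤ 1) {B : ℝ≥0∞}
    (h : ∫⁻ a, A a * Y a ∂μ ≤ B * ∫⁻ a, A a ∂μ) :
    ∫⁻ a, A a * Y a ^ p ∂μ ≤ B ^ p * ∫⁻ a, A a ∂μ := by
  have e : ∀ t : ℝ≥0∞, t ^ p * t ^ (1 - p) = t := fun t => by
    rw [← ENNReal.rpow_add_of_nonneg _ _ hp0 (by linarith)]; simp
  calc ∫⁻ a, A a * Y a ^ p ∂μ = ∫⁻ a, (A a * Y a) ^ p * A a ^ (1 - p) ∂μ := by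
        refine lintegral_congr fun a => ?_
        rw [ENNReal.mul_rpow_of_nonneg _ _ hp0, mul_right_comm, e]
    _ ≤ (∫⁻ a, A a * Y a ∂μ) ^ p * (∫⁻ a, A a ∂μ) ^ (1 - p) :=
        ENNReal.lintegral_mul_norm_pow_le (hA.mul hY).aemeasurable hA.aemeasurable hp0
          (by linarith) (by ring)
    _ ≤ (B * ∫⁻ a, A a ∂μ) ^ p * (∫⁻ a, A a ∂μ) ^ (1 - p) := by gcongr
    _ = _ := by rw [ENNReal.mul_rpow_of_nonneg _ _ hp0, mul_assoc, e]

theorem cs_HiD3 {μ : Measure V} {δ N n : ℝ} (hN : 0 < N) (hn : 0 ≤ n)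
    (hi2 : Integrable (fun w => ‖w‖ ^ 2) μ) (h2 : ∫ w, ‖w‖ ^ 2 ∂μ ≤ n) (U U' : Submodule ℝ V)
    (hNb : ∫⁻ w, (ENNReal.ofReal (rho δ U' w))⁻¹ ∂μ ≤ ENNReal.ofReal N) :
    ∫⁻ a, ENNReal.ofReal ‖pU U a‖ * (ENNReal.ofReal √(rho δ U' a / 2))⁻¹ ∂μ
      ≤ ENNReal.ofReal √(2 * n * N) := by
  have hm : Measurable fun a => (ENNReal.ofReal (rho δ U' a))⁻¹ :=
    (measurable_rho δ U').ennreal_ofReal.inv
  have h1 : ∫⁻ a, ENNReal.ofReal (‖a‖ ^ 2) ∂μ ≤ ENNReal.ofReal n := by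
    rw [← ofReal_integral_eq_lintegral_ofReal hi2 (ae_of_all _ fun a => by positivity)]
    exact ENNReal.ofReal_le_ofReal h2
  have h3 : ∫⁻ a, 2 * (ENNReal.ofReal (rho δ U' a))⁻¹ ∂μ ≤ ENNReal.ofReal (2 * N) := by
    rw [lintegral_const_mul _ hm, ENNReal.ofReal_mul (by norm_num), ENNReal.ofReal_ofNat]
    gcongr
  calc _ ≤ ∫⁻ a, ENNReal.ofReal (‖a‖ ^ 2) ^ (1 / 2 : ℝ)
          * (2 * (ENNReal.ofReal (rho δ U' a))⁻¹) ^ (1 / 2 : ℝ) ∂μ := by
        refine lintegral_mono fun a => mul_le_mul' ?_ (le_of_eq ?_)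
        · rw [ENNReal.ofReal_rpow_of_nonneg (by positivity) (by norm_num), ← Real.sqrt_eq_rpow,
            Real.sqrt_sq (norm_nonneg _)]
          exact ENNReal.ofReal_le_ofReal (norm_pU_le U a)
        · have h4 : 0 ≤ rho δ U' a := rho_nonneg δ U' a
          rw [Real.sqrt_eq_rpow, ← ENNReal.ofReal_rpow_of_nonneg (by positivity) (by norm_num),
            ← ENNReal.inv_rpow, ENNReal.ofReal_div_of_pos (by norm_num), ENNReal.ofReal_ofNat,
            ENNReal.inv_div (Or.inl (by norm_num)) (Or.inl (by norm_num)), div_eq_mul_inv]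
    _ ≤ (∫⁻ a, ENNReal.ofReal (‖a‖ ^ 2) ∂μ) ^ (1 / 2 : ℝ)
          * (∫⁻ a, 2 * (ENNReal.ofReal (rho δ U' a))⁻¹ ∂μ) ^ (1 / 2 : ℝ) :=
        ENNReal.lintegral_mul_norm_pow_le (by fun_prop) (hm.const_mul 2).aemeasurable
          (by norm_num) (by norm_num) (by norm_num)
    _ ≤ ENNReal.ofReal n ^ (1 / 2 : ℝ) * ENNReal.ofReal (2 * N) ^ (1 / 2 : ℝ) := by gcongr
    _ = _ := by
        rw [← ENNReal.mul_rpow_of_nonneg _ _ (by norm_num), ← ENNReal.ofReal_mul hn,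
          ENNReal.ofReal_rpow_of_nonneg (by positivity) (by norm_num), ← Real.sqrt_eq_rpow]
        congr 2
        ring

theorem step_HiD3 {s t u p : ℝ} (hs : 0 ≤ s) (ht : 0 ≤ t) (hu : 0 ≤ u) (hp : 0 ≤ p)
    (h : s ^ 2 * u ≤ t ^ 2) :
    ENNReal.ofReal t ^ (-p) ≤ ENNReal.ofReal s ^ (-p) * (ENNReal.ofReal √u)⁻¹ ^ p := by
  have h1 : s * √u ≤ t := by
    refine abs_le_of_sq_le_sq' ?_ ht |>.2
    rw [mul_pow, Real.sq_sqrt hu]
    exact h
  rw [ENNReal.inv_rpow, ← ENNReal.rpow_neg,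
    ← ENNReal.mul_rpow_of_ne_top ENNReal.ofReal_ne_top ENNReal.ofReal_ne_top,
    ← ENNReal.ofReal_mul hs, ENNReal.rpow_neg, ENNReal.rpow_neg]
  exact ENNReal.inv_le_inv.2 (ENNReal.rpow_le_rpow (ENNReal.ofReal_le_ofReal h1) hp)

theorem Dl_moment {μ : Measure V} (hμ : Mom μ) {i r : ℕ} (hW : 0 < Wr i μ) (hr : 16 ≤ r)
    (hrq : 2 * r + i ≤ finrank ℝ V + 1) {δ : ℝ} (h0 : 0 ≤ δ) (h1 : δ ≤ 1) {lam N : ℝ}
    (hlam : 0 < lam) (hN : 0 < N) (hi2 : Integrable (fun w => ‖w‖ ^ 2) μ)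
    (h2 : ∫ w, ‖w‖ ^ 2 ∂μ ≤ finrank ℝ V)
    (hU : ∀ U : Submodule ℝ V, r ≤ finrank ℝ U → lam ≤ ∫ w, ‖pU U w‖ ∂μ)
    (hNb : ∀ U : Submodule ℝ V, r ≤ finrank ℝ U →
      ∫⁻ w, (ENNReal.ofReal (rho δ U w))⁻¹ ∂μ ≤ ENNReal.ofReal N)
    {e : Fin r → V} (he : Orthonormal ℝ e) :
    ∫⁻ x, ENNReal.ofReal (Dl δ e x) ^ (-(8 / (r : ℝ))) ∂(Fr i μ)
      ≤ ENNReal.ofReal ((√(2 * finrank ℝ V * N) / lam) ^ (8 * (i : ℝ) / r)) := by
  haveI := hμ.prob
  have hr0 : (0 : ℝ) < r := by exact_mod_cast (by omega : 0 < r)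
  have hr16 : (16 : ℝ) ≤ r := by exact_mod_cast hr
  have hp0 : (0 : ℝ) ≤ 8 / r := by positivity
  have hp1 : (8 : ℝ) / r ≤ 1 := by rw [div_le_one hr0]; linarith
  set B0 : ℝ := √(2 * finrank ℝ V * N) / lam with hB0
  have hB : 0 ≤ B0 := by positivity
  have key := peel_Fr hμ (d := finrank ℝ V - i) (K := i) (by omega) hW
    (B := ENNReal.ofReal B0 ^ (8 / (r : ℝ)))
    (fun k x => ENNReal.ofReal (Dl δ e x) ^ (-(8 / (r : ℝ))))
    (fun k => (measurable_Dl δ e k).ennreal_ofReal.pow_const _) (fun x => ?_) ?_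
  · refine key.trans (le_of_eq ?_)
    rw [← ENNReal.rpow_natCast, ← ENNReal.rpow_mul,
      ENNReal.ofReal_rpow_of_nonneg hB (by positivity)]
    congr 2
    ring
  · exact ENNReal.rpow_le_one_of_one_le_of_neg (ENNReal.one_le_ofReal.2 (Dl_zero δ he x))
      (neg_neg_of_pos (by positivity))
  · intro k hk x U hUd
    obtain ⟨U', hU', hc⟩ := Dl_cons h0 h1 e x
    have hA : Measurable fun a => ENNReal.ofReal ‖pU U a‖ := by fun_prop
    have hY : Measurable fun a => (ENNReal.ofReal √(rho δ U' a / 2))⁻¹ :=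
      ((measurable_rho δ U').div_const 2).sqrt.ennreal_ofReal.inv
    have hint : Integrable (fun a => ‖pU U a‖) μ :=
      Integrable.mono' hμ.int (by fun_prop) (ae_of_all _ fun a => by simpa using norm_pU_le U a)
    have hl : ENNReal.ofReal lam ≤ ∫⁻ a, ENNReal.ofReal ‖pU U a‖ ∂μ := by
      rw [← ofReal_integral_eq_lintegral_ofReal hint (ae_of_all _ fun a => norm_nonneg _)]
      exact ENNReal.ofReal_le_ofReal (hU U (by omega))
    have h3 := holder_HiD3 (μ := μ) hA hY hp0 hp1 (B := ENNReal.ofReal B0) (by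
      refine (cs_HiD3 hN (Nat.cast_nonneg _) hi2 h2 U U' (hNb U' (by omega))).trans ?_
      refine le_trans (le_of_eq ?_) (mul_le_mul' le_rfl hl)
      rw [← ENNReal.ofReal_mul hB, hB0, div_mul_cancel₀ _ hlam.ne'])
    calc _ ≤ ∫⁻ a, ENNReal.ofReal (Dl δ e x) ^ (-(8 / (r : ℝ))) * (ENNReal.ofReal ‖pU U a‖
            * (ENNReal.ofReal √(rho δ U' a / 2))⁻¹ ^ (8 / (r : ℝ))) ∂μ := by
          refine lintegral_mono fun a => ?_
          rw [mul_left_comm]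
          refine mul_le_mul' le_rfl (step_HiD3 (D_nonneg _) (D_nonneg _) ?_ hp0 (hc a))
          have := rho_nonneg δ U' a
          positivity
      _ ≤ _ := by
          have hm : Measurable fun a => ENNReal.ofReal ‖pU U a‖
              * (ENNReal.ofReal √(rho δ U' a / 2))⁻¹ ^ (8 / (r : ℝ)) := hA.mul (hY.pow_const _)
          rw [lintegral_const_mul _ hm, mul_comm (ENNReal.ofReal B0 ^ _), mul_assoc]
          exact mul_le_mul' le_rfl h3

end Pool.Agent.P.MP_181257_gt
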