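import Pool.Agent.P.MP_181257_gt.HiFr1
import Pool.Agent.P.MP_181257_gt.HiG1

/-! The law of the Gaussian normal vector. -/

set_option autoImplicit false
set_option linter.unusedSectionVars false
set_option linter.unusedVariables false

open MeasureTheory ProbabilityTheory Module Set Filter Topology
open scoped RealInnerProductSpace ENNReal Pointwise Matrix

noncomputable section

namespace Pool.Agent.P.MP_181257_gt

variable {V : Type} [NormedAddCommGroup V] [InnerProductSpace ℝ V] [FiniteDimensional ℝ V]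
  [MeasurableSpace V] [BorelSpace V]

theorem mp_Tn {μ : Measure V} {k : ℕ} :
    MeasurePreserving (fun p : (Fin k → V) × V => Pj k p.1 p.2)
      ((Fr k μ).prod (stdGaussian V)) (Tn k μ) := by
  exact ⟨measurable_Pj k measurable_fst measurable_snd, rfl⟩

theorem lintegral_Tn {μ : Measure V} (hμ : Mom μ) {k : ℕ} (h : 0 < Wr k μ) {φ : V → ℝ≥0∞}
    (hφ : Measurable φ) :
    ∫⁻ w, φ w ∂(Tn k μ) = ∫⁻ x, ∫⁻ g, φ (Pj k x g) ∂(stdGaussian V) ∂(Fr k μ) := by
  have := Fr_prob hμ h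
  rw [← (mp_Tn (μ := μ) (k := k)).lintegral_comp hφ]
  exact lintegral_prod _ (hφ.comp (mp_Tn (μ := μ) (k := k)).measurable).aemeasurable

theorem Tn_prob_HiFr2 {μ : Measure V} (hμ : Mom μ) {k : ℕ} (h : 0 < Wr k μ) :
    IsProbabilityMeasure (Tn k μ) := by
  have := Fr_prob hμ h
  exact Measure.isProbabilityMeasure_map (mp_Tn (μ := μ) (k := k)).measurable.aemeasurable

theorem integral_le_const_HiFr2 {X : Type} [MeasurableSpace X] {ρ : Measure X}
    [IsProbabilityMeasure ρ] {F : X → ℝ} {C : ℝ} (h0 : ∀ x, 0 ≤ F x) (hC : ∀ x, F x ≤ C) :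
    ∫ x, F x ∂ρ ≤ C := by
  have := integral_mono_of_nonneg (μ := ρ) (Eventually.of_forall h0) (integrable_const C)
    (Eventually.of_forall hC)
  simpa using this

theorem inner_pow_bound_HiFr2 (a : V) (p : ℕ) (w : V) :
    |⟪a, w⟫ ^ p| ≤ ‖a‖ ^ p * (1 + ‖w‖ ^ p) := by
  rw [abs_pow]
  have h1 := pow_le_pow_left₀ (abs_nonneg _) (abs_real_inner_le_norm a w) p
  rw [mul_pow] at h1
  have h2 : 0 ≤ ‖a‖ ^ p := by positivity
  nlinarith

theorem abs_sg_le_HiFr2 (t : ℝ) : |sg t| ≤ 1 := by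
  unfold sg
  rw [abs_div, abs_abs]
  exact div_self_le_one _

theorem abs_inner_Pj_le_HiFr2 {k : ℕ} (x : Fin k → V) (a b : V) :
    ‖⟪Pj k x a, b⟫‖ ≤ ‖a‖ * ‖b‖ :=
  (abs_real_inner_le_norm _ _).trans
    (mul_le_mul_of_nonneg_right (norm_Pj_le x a) (norm_nonneg _))

theorem integrable_SS_HiFr2 {μ : Measure V} (hμ : Mom μ) {k : ℕ} (h : 0 < Wr k μ) (a b : V) :
    Integrable (fun x => ⟪Pj k x a, b⟫) (Fr k μ) := by
  have := Fr_prob hμ h
  have hm : Measurable fun x : Fin k → V => ⟪Pj k x a, b⟫ :=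
    (measurable_Pj k measurable_id measurable_const).inner measurable_const
  exact (integrable_const (‖a‖ * ‖b‖)).mono' hm.aestronglyMeasurable
    (Eventually.of_forall fun x => abs_inner_Pj_le_HiFr2 x a b)

theorem integrable_norm_pow_Tn {μ : Measure V} (hμ : Mom μ) {k : ℕ} (h : 0 < Wr k μ) (p : ℕ) :
    Integrable (fun w => ‖w‖ ^ p) (Tn k μ) := by
  have := Fr_prob hμ h
  have hm : Measurable fun w : V => ‖w‖ ^ p := by fun_prop
  refine ((mp_Tn (μ := μ) (k := k)).integrable_comp hm.aestronglyMeasurable).1 ?_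
  refine ((integrable_norm_pow (V := V) p).comp_snd (Fr k μ)).mono'
    (hm.comp (mp_Tn (μ := μ) (k := k)).measurable).aestronglyMeasurable
    (Eventually.of_forall fun q => ?_)
  simp only [Function.comp, Real.norm_eq_abs, abs_pow, abs_norm]
  exact pow_le_pow_left₀ (norm_nonneg _) (norm_Pj_le _ _) p

/-- functions of polynomial growth -/
theorem integrable_Tn {μ : Measure V} (hμ : Mom μ) {k : ℕ} (h : 0 < Wr k μ) {φ : V → ℝ}
    (hφ : Measurable φ) {C : ℝ} {p : ℕ} (hb : ∀ w, |φ w| ≤ C * (1 + ‖w‖ ^ p)) :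
    Integrable φ (Tn k μ) ∧
      ∫ w, φ w ∂(Tn k μ) = ∫ x, ∫ g, φ (Pj k x g) ∂(stdGaussian V) ∂(Fr k μ) := by
  have := Fr_prob hμ h
  have := Tn_prob_HiFr2 hμ h
  have hi : Integrable φ (Tn k μ) := by
    refine (((integrable_const (1 : ℝ)).add (integrable_norm_pow_Tn hμ h p)).const_mul C).mono'
      hφ.aestronglyMeasurable (Eventually.of_forall fun w => ?_)
    simpa only [Real.norm_eq_abs, Pi.add_apply] using hb w
  refine ⟨hi, ?_⟩
  rw [← af_mp_integral (mp_Tn (μ := μ) (k := k)) hφ.aestronglyMeasurable]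
  exact integral_prod _ (((mp_Tn (μ := μ) (k := k)).integrable_comp hφ.aestronglyMeasurable).2 hi)

theorem Tn_mom {μ : Measure V} (hμ : Mom μ) {k : ℕ} (h : 0 < Wr k μ) : Mom (Tn k μ) := by
  exact ⟨Tn_prob_HiFr2 hμ h, by simpa only [pow_one] using integrable_norm_pow_Tn hμ h 1⟩

theorem integral_norm_pow_Tn {μ : Measure V} (hμ : Mom μ) {k : ℕ} (h : 0 < Wr k μ) {j : ℕ}
    (hj : 1 ≤ j) : ∫ w, ‖w‖ ^ (2 * j) ∂(Tn k μ) ≤ (finrank ℝ V : ℝ) ^ j * Km j := by
  have := Fr_prob hμ h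
  have hm : Measurable fun w : V => ‖w‖ ^ (2 * j) := by fun_prop
  have hb : ∀ w : V, |‖w‖ ^ (2 * j)| ≤ 1 * (1 + ‖w‖ ^ (2 * j)) := fun w => by
    rw [abs_of_nonneg (by positivity)]; linarith
  rw [(integrable_Tn hμ h hm hb).2]
  refine integral_le_const_HiFr2 (fun x => integral_nonneg fun g => by positivity) fun x => ?_
  refine le_trans ?_ (integral_norm_pow_le (V := V) hj)
  refine integral_mono_of_nonneg (Eventually.of_forall fun g => by positivity)
    (integrable_norm_pow _) (Eventually.of_forall fun g => ?_)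
  exact pow_le_pow_left₀ (norm_nonneg _) (norm_Pj_le _ _) _

theorem integrable_inner_pow_Tn {μ : Measure V} (hμ : Mom μ) {k : ℕ} (h : 0 < Wr k μ) (a : V)
    (p : ℕ) : Integrable (fun w => ⟪a, w⟫ ^ p) (Tn k μ) := by
  have hm : Measurable fun w : V => ⟪a, w⟫ ^ p := by fun_prop
  exact (integrable_Tn hμ h hm (inner_pow_bound_HiFr2 a p)).1

theorem integral_inner_pow_Tn {μ : Measure V} (hμ : Mom μ) {k : ℕ} (h : 0 < Wr k μ) (a : V)
    (j : ℕ) : ∫ w, ⟪a, w⟫ ^ (2 * j) ∂(Tn k μ) ≤ Km j * ‖a‖ ^ (2 * j) := by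
  have := Fr_prob hμ h
  have hm : Measurable fun w : V => ⟪a, w⟫ ^ (2 * j) := by fun_prop
  rw [(integrable_Tn hμ h hm (inner_pow_bound_HiFr2 a (2 * j))).2]
  refine integral_le_const_HiFr2
    (fun x => integral_nonneg fun g => by rw [pow_mul]; positivity) fun x => ?_
  simp only [← inner_Pj_comm x a]
  rw [integral_inner_pow]
  exact mul_le_mul_of_nonneg_left (pow_le_pow_left₀ (norm_nonneg _) (norm_Pj_le _ _) _)
    (Km_nonneg j)

theorem Sg_Tn {μ : Measure V} (hμ : Mom μ) {k : ℕ} (h : 0 < Wr k μ) (a b : V) :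
    Sg (Tn k μ) a b = SS k μ a b := by
  have hm : Measurable fun w : V => ⟪a, w⟫ * ⟪b, w⟫ := by fun_prop
  have hb : ∀ w : V, |⟪a, w⟫ * ⟪b, w⟫| ≤ (‖a‖ * ‖b‖) * (1 + ‖w‖ ^ 2) := fun w => by
    rw [abs_mul]
    have h1 := abs_real_inner_le_norm a w
    have h2 := abs_real_inner_le_norm b w
    have h3 := mul_le_mul h1 h2 (abs_nonneg _) (by positivity)
    have h4 : 0 ≤ ‖a‖ * ‖b‖ := by positivity
    nlinarith
  unfold Sg SS
  rw [(integrable_Tn hμ h hm hb).2]
  refine integral_congr_ae (Eventually.of_forall fun x => ?_)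
  simp only [← inner_Pj_comm x a, ← inner_Pj_comm x b]
  rw [integral_inner_mul, ← inner_Pj_comm, Pj_Pj]

theorem abs_inner_Tn {μ : Measure V} (hμ : Mom μ) {k : ℕ} (h : 0 < Wr k μ) (u : V) :
    ∫ w, |⟪u, w⟫| ∂(Tn k μ) = c0 * th k μ u := by
  have hm : Measurable fun w : V => |⟪u, w⟫| := by fun_prop
  have hb : ∀ w : V, |(|⟪u, w⟫|)| ≤ ‖u‖ * (1 + ‖w‖ ^ 1) := fun w => by
    rw [abs_abs, pow_one]
    have h1 := abs_real_inner_le_norm u w
    have h2 := norm_nonneg u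
    nlinarith
  unfold th
  rw [(integrable_Tn hμ h hm hb).2, ← integral_const_mul]
  refine integral_congr_ae (Eventually.of_forall fun x => ?_)
  simp only [← inner_Pj_comm x u]
  rw [integral_abs_inner]

theorem sg_Tn {μ : Measure V} (hμ : Mom μ) {k : ℕ} (h : 0 < Wr k μ) (w b : V) :
    ∫ y, sg ⟪w, y⟫ * ⟪b, y⟫ ∂(Tn k μ)
      = c0 * ∫ x, ⟪Pj k x w, b⟫ / ‖Pj k x w‖ ∂(Fr k μ) := by
  have hm : Measurable fun y : V => sg ⟪w, y⟫ * ⟪b, y⟫ :=
    (measurable_sg.comp (by fun_prop : Measurable fun y : V => ⟪w, y⟫)).mul (by fun_prop)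
  have hb : ∀ y : V, |sg ⟪w, y⟫ * ⟪b, y⟫| ≤ ‖b‖ * (1 + ‖y‖ ^ 1) := fun y => by
    rw [abs_mul, pow_one]
    have h1 := abs_real_inner_le_norm b y
    have h2 := norm_nonneg b
    have h3 := abs_sg_le_HiFr2 ⟪w, y⟫
    have h4 := mul_le_mul h3 h1 (abs_nonneg _) zero_le_one
    nlinarith
  rw [(integrable_Tn hμ h hm hb).2, ← integral_const_mul]
  refine integral_congr_ae (Eventually.of_forall fun x => ?_)
  simp only [← inner_Pj_comm x w, ← inner_Pj_comm x b]
  rw [integral_sg, ← inner_Pj_comm x (Pj k x w) b, Pj_Pj]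

theorem FP.wl {i : ℕ} {μ ν : Measure V} (h : FP i μ ν) : 0 < Wr i μ :=
  Wr_pos_of_succ h.ml h.posl

theorem FP.wr {i : ℕ} {μ ν : Measure V} (h : FP i μ ν) : 0 < Wr i ν :=
  Wr_pos_of_succ h.mr h.posr

theorem Zq_eq_th {μ : Measure V} (hμ : Mom μ) {k : ℕ} (h : 0 < Wr k μ) :
    Zq k μ = ∫ w, th k μ w ∂μ := by
  have := Fr_prob hμ h
  have := hμ.prob
  rw [Zq_eq hμ h, integral_prod_symm _ (integrable_norm_Pj_prod hμ h)]
  rfl

theorem Zq_symm {i : ℕ} {μ ν : Measure V} (hμ : Mom μ) (hν : Mom ν) (h1 : 0 < Wr i μ)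
    (h2 : 0 < Wr i ν) (el : μ = Tn i ν) (er : ν = Tn i μ) : Zq i μ = Zq i ν := by
  have := hμ.prob
  have := hν.prob
  have e1 : c0 * Zq i μ = ∫ w, ∫ y, |⟪w, y⟫| ∂ν ∂μ := by
    rw [Zq_eq_th hμ h1, ← integral_const_mul]
    refine integral_congr_ae (Eventually.of_forall fun w => ?_)
    have := abs_inner_Tn hμ h1 w
    rw [← er] at this
    exact this.symm
  have e2 : c0 * Zq i ν = ∫ y, ∫ w, |⟪w, y⟫| ∂μ ∂ν := by
    rw [Zq_eq_th hν h2, ← integral_const_mul]
    refine integral_congr_ae (Eventually.of_forall fun y => ?_)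
    have := abs_inner_Tn hν h2 y
    rw [← el] at this
    simp only [real_inner_comm y]
    exact this.symm
  have hi : Integrable (Function.uncurry fun w y : V => |⟪w, y⟫|) (μ.prod ν) := by
    have hm : Measurable (Function.uncurry fun w y : V => |⟪w, y⟫|) := by
      have : Measurable fun q : V × V => |⟪q.1, q.2⟫| := by fun_prop
      exact this
    refine (hμ.int.mul_prod hν.int).mono' hm.aestronglyMeasurable
      (Eventually.of_forall fun q => ?_)
    simp only [Function.uncurry, Real.norm_eq_abs, abs_abs]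
    exact abs_real_inner_le_norm _ _
  have e3 := integral_integral_swap hi
  exact mul_left_cancel₀ c0_pos.ne' (e1.trans (e3.trans e2.symm))

theorem SS_symm (k : ℕ) (μ : Measure V) (a b : V) : SS k μ a b = SS k μ b a := by
  unfold SS
  refine integral_congr_ae (Eventually.of_forall fun x => ?_)
  simp only []
  rw [inner_Pj_comm, real_inner_comm]

theorem SS_self (k : ℕ) (μ : Measure V) (a : V) :
    SS k μ a a = ∫ x, ‖Pj k x a‖ ^ 2 ∂(Fr k μ) := by
  unfold SS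
  simp only [inner_Pj_self]

theorem SS_add {μ : Measure V} (hμ : Mom μ) {k : ℕ} (h : 0 < Wr k μ) (a a' b : V) :
    SS k μ (a + a') b = SS k μ a b + SS k μ a' b := by
  unfold SS
  rw [← integral_add (integrable_SS_HiFr2 hμ h a b) (integrable_SS_HiFr2 hμ h a' b)]
  simp only [map_add, inner_add_left]

theorem SS_smul (k : ℕ) (μ : Measure V) (t : ℝ) (a b : V) :
    SS k μ (t • a) b = t * SS k μ a b := by
  unfold SS
  rw [← integral_const_mul]
  simp only [map_smul, real_inner_smul_left]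

theorem abs_SS_le {μ : Measure V} (hμ : Mom μ) {k : ℕ} (h : 0 < Wr k μ) (a b : V) :
    |SS k μ a b| ≤ ‖a‖ * ‖b‖ := by
  have := Fr_prob hμ h
  unfold SS
  have := norm_integral_le_of_norm_le_const (μ := Fr k μ) (f := fun x => ⟪Pj k x a, b⟫)
    (C := ‖a‖ * ‖b‖) (Eventually.of_forall fun x => abs_inner_Pj_le_HiFr2 x a b)
  simpa using this

theorem sum_SS {μ : Measure V} (hμ : Mom μ) {k : ℕ} (h : 0 < Wr k μ) {n : ℕ}
    (b : OrthonormalBasis (Fin n) ℝ V) :
    ∑ l, SS k μ (b l) (b l) = (finrank ℝ V : ℝ) - k := by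
  have := Fr_prob hμ h
  unfold SS
  rw [← integral_finsetSum _ fun l _ => integrable_SS_HiFr2 hμ h (b l) (b l)]
  have : ∀ᵐ x ∂(Fr k μ), ∑ l, ⟪Pj k x (b l), b l⟫ = (finrank ℝ V : ℝ) - k := by
    filter_upwards [ae_D_Fr μ k] with x hx
    simp only [inner_Pj_self]
    rw [Pj_eq, sum_norm_sq_pU, ← finrank_nrm_eq hx]
    push_cast
    ring
  rw [integral_congr_ae this]
  simp

end Pool.Agent.P.MP_181257_gt
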