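import Pool.Agent.P.MP_181257_gt.HiP1

/-! A negative moment of a Gaussian quadratic form. -/

set_option autoImplicit false
set_option linter.unusedSectionVars false
set_option linter.unusedVariables false

open MeasureTheory ProbabilityTheory Module Set Filter Topology
open scoped RealInnerProductSpace ENNReal Pointwise Matrix

noncomputable section

namespace Pool.Agent.P.MP_181257_gt

variable {V : Type} [NormedAddCommGroup V] [InnerProductSpace ℝ V] [FiniteDimensional ℝ V]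
  [MeasurableSpace V] [BorelSpace V]

theorem gauss_le_HiG2 : gaussianReal 0 1 ≤ (1 / 2 : ℝ≥0∞) • (volume : Measure ℝ) := by
  rw [gaussianReal_of_var_ne_zero 0 one_ne_zero, ← withDensity_const]
  refine withDensity_mono (Eventually.of_forall fun x => ?_)
  have h2 : (1 / 2 : ℝ≥0∞) = ENNReal.ofReal (1 / 2) := by
    rw [ENNReal.ofReal_div_of_pos (by norm_num)]; simp
  rw [h2]
  refine ENNReal.ofReal_le_ofReal ?_
  rw [gaussianPDFReal]
  have h3 : (2 : ℝ) ≤ √(2 * Real.pi * ((1 : NNReal) : ℝ)) := by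
    refine Real.le_sqrt_of_sq_le ?_
    have := Real.pi_gt_three
    simp only [NNReal.coe_one]
    nlinarith
  have h4 : (√(2 * Real.pi * ((1 : NNReal) : ℝ)))⁻¹ ≤ 1 / 2 := by
    rw [one_div]
    exact inv_anti₀ (by norm_num) h3
  have h5 : Real.exp (-(x - 0) ^ 2 / (2 * ((1 : NNReal) : ℝ))) ≤ 1 := by
    refine Real.exp_le_one_iff.2 ?_
    simp only [NNReal.coe_one]
    have := sq_nonneg (x - 0)
    linarith
  calc _ ≤ (1 / 2 : ℝ) * 1 := mul_le_mul h4 h5 (Real.exp_pos _).le (by norm_num)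
    _ = 1 / 2 := by norm_num

/-- the singular part on the unit interval -/
def gs_HiG2 (s : ℝ) : ℝ≥0∞ :=
  (Ioc (0 : ℝ) 1).indicator (fun s => ENNReal.ofReal (s ^ (-(1 / 2 : ℝ)))) s

theorem meas_gs_HiG2 : Measurable gs_HiG2 :=
  Measurable.indicator (by fun_prop) measurableSet_Ioc

theorem int_gs_HiG2 : ∫⁻ s, gs_HiG2 s = 2 := by
  unfold gs_HiG2
  rw [lintegral_indicator measurableSet_Ioc, ← ofReal_integral_eq_lintegral_ofReal]
  · rw [← intervalIntegral.integral_of_le zero_le_one, integral_rpow (Or.inl (by norm_num))]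
    have : ((1 : ℝ) ^ (-(1 / 2 : ℝ) + 1) - 0 ^ (-(1 / 2 : ℝ) + 1)) / (-(1 / 2 : ℝ) + 1) = 2 := by
      rw [Real.one_rpow, Real.zero_rpow (by norm_num)]; norm_num
    rw [this]; simp
  · exact (intervalIntegrable_iff_integrableOn_Ioc_of_le zero_le_one).1
      (intervalIntegral.intervalIntegrable_rpow' (by norm_num))
  · filter_upwards [ae_restrict_mem measurableSet_Ioc] with s hs
    exact Real.rpow_nonneg hs.1.le _

theorem pt_pos_HiG2 {s : ℝ} (hs : 0 < s) :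
    ENNReal.ofReal s ^ (-(1 / 2 : ℝ)) ≤ 1 + gs_HiG2 s := by
  by_cases h : s ≤ 1
  · unfold gs_HiG2
    rw [indicator_of_mem (show s ∈ Ioc (0 : ℝ) 1 from ⟨hs, h⟩), ENNReal.ofReal_rpow_of_pos hs]
    exact le_add_self
  · refine le_trans ?_ le_self_add
    refine ENNReal.rpow_le_one_of_one_le_of_neg ?_ (by norm_num)
    exact ENNReal.one_le_ofReal.2 (not_le.1 h).le

theorem pt_HiG2 {s : ℝ} (hs : s ≠ 0) :
    ENNReal.ofReal |s| ^ (-(1 / 2 : ℝ)) ≤ 1 + (gs_HiG2 s + gs_HiG2 (-s)) := by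
  rcases lt_or_gt_of_ne hs with h | h
  · rw [abs_of_neg h]
    exact (pt_pos_HiG2 (neg_pos.2 h)).trans (add_le_add le_rfl le_add_self)
  · rw [abs_of_pos h]
    exact (pt_pos_HiG2 h).trans (add_le_add le_rfl le_self_add)

theorem shift_neg_half (c : ℝ) :
    ∫⁻ t, ENNReal.ofReal |c + t| ^ (-(1 / 2 : ℝ)) ∂(gaussianReal 0 1) ≤ 3 := by
  have hm : Measurable fun s => gs_HiG2 s + gs_HiG2 (-s) :=
    meas_gs_HiG2.add (meas_gs_HiG2.comp measurable_neg)
  have hae : ∀ᵐ t ∂(gaussianReal 0 1), c + t ≠ 0 := by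
    have h : ∀ᵐ t ∂(volume : Measure ℝ), t ≠ -c := by
      simp [ae_iff, measure_singleton]
    filter_upwards [(gaussianReal_absolutelyContinuous 0 one_ne_zero).ae_le h] with t ht
    intro h'
    exact ht (by linarith)
  have h4 : ∫⁻ t, (gs_HiG2 (c + t) + gs_HiG2 (-(c + t))) = 4 := by
    rw [lintegral_add_left_eq_self (fun s => gs_HiG2 s + gs_HiG2 (-s)) c,
      lintegral_add_left meas_gs_HiG2, lintegral_neg_eq_self gs_HiG2, int_gs_HiG2]
    norm_num
  calc _ ≤ ∫⁻ t, (1 + (gs_HiG2 (c + t) + gs_HiG2 (-(c + t)))) ∂(gaussianReal 0 1) :=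
        lintegral_mono_ae (hae.mono fun t ht => pt_HiG2 ht)
    _ = 1 + ∫⁻ t, (gs_HiG2 (c + t) + gs_HiG2 (-(c + t))) ∂(gaussianReal 0 1) := by
        rw [lintegral_add_left measurable_const]; simp
    _ ≤ 1 + ∫⁻ t, (gs_HiG2 (c + t) + gs_HiG2 (-(c + t)))
          ∂((1 / 2 : ℝ≥0∞) • (volume : Measure ℝ)) :=
        add_le_add le_rfl (lintegral_mono' gauss_le_HiG2 le_rfl)
    _ = 3 := by
        rw [lintegral_smul_measure, h4, smul_eq_mul]
        have : (1 / 2 : ℝ≥0∞) * 4 = 2 := by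
          have h : (4 : ℝ≥0∞) = 2 * 2 := by norm_num
          rw [h, ← mul_assoc, one_div, ENNReal.inv_mul_cancel (by norm_num) (by norm_num), one_mul]
        rw [this]; norm_num

theorem shift_neg_HiG2 {a : ℝ} (h0 : 0 ≤ a) (h1 : a ≤ 1 / 2) (c : ℝ) :
    ∫⁻ t, ENNReal.ofReal |c + t| ^ (-a) ∂(gaussianReal 0 1) ≤ ENNReal.ofReal (3 ^ (2 * a)) := by
  have hm : Measurable fun t : ℝ => ENNReal.ofReal |c + t| ^ (-(1 / 2 : ℝ)) := by fun_prop
  have h := ENNReal.lintegral_mul_norm_pow_le (μ := gaussianReal 0 1) hm.aemeasurable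
    (g := fun _ => 1) aemeasurable_const (p := 2 * a) (q := 1 - 2 * a) (by linarith)
    (by linarith) (by ring)
  simp only [ENNReal.one_rpow, mul_one, lintegral_const, measure_univ] at h
  have he : ∀ t : ℝ, ENNReal.ofReal |c + t| ^ (-a)
      = (ENNReal.ofReal |c + t| ^ (-(1 / 2 : ℝ))) ^ (2 * a) := by
    intro t
    rw [← ENNReal.rpow_mul]
    congr 1
    ring
  simp only [he]
  refine h.trans ?_
  rw [← ENNReal.ofReal_rpow_of_pos (by norm_num)]
  refine ENNReal.rpow_le_rpow ?_ (by linarith)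
  simpa using shift_neg_half c

theorem scale_neg_HiG2 {a : ℝ} (h0 : 0 ≤ a) (h1 : a ≤ 1 / 2) (c : ℝ) {σ : ℝ} (hσ : 0 < σ) :
    ∫⁻ t, ENNReal.ofReal |c + t * σ| ^ (-a) ∂(gaussianReal 0 1)
      ≤ ENNReal.ofReal (3 ^ (2 * a)) * ENNReal.ofReal σ ^ (-a) := by
  have he : ∀ t : ℝ, ENNReal.ofReal |c + t * σ| ^ (-a)
      = ENNReal.ofReal |c / σ + t| ^ (-a) * ENNReal.ofReal σ ^ (-a) := by
    intro t
    rw [← ENNReal.mul_rpow_of_ne_top ENNReal.ofReal_ne_top ENNReal.ofReal_ne_top,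
      ← ENNReal.ofReal_mul (abs_nonneg _)]
    congr 2
    rw [← abs_of_pos hσ, ← abs_mul, abs_of_pos hσ]
    congr 1
    field_simp
  simp only [he]
  rw [lintegral_mul_const _ (by fun_prop)]
  exact mul_le_mul_left (shift_neg_HiG2 h0 h1 _) _

theorem prod_neg_moment {a : ℝ} (h0 : 0 ≤ a) (h1 : a ≤ 1 / 2) : ∀ (r : ℕ) (v : Fin r → V),
    ∫⁻ G, ∏ l, ENNReal.ofReal |⟪v l, G⟫| ^ (-a) ∂(stdGaussian V)
      ≤ ENNReal.ofReal (3 ^ (2 * a * r)) * ENNReal.ofReal (D v) ^ (-a) := by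
  rcases h0.eq_or_lt with rfl | hpos
  · intro r v
    simp
  intro r
  induction r with
  | zero => intro v; simp
  | succ r ih =>
    intro v
    obtain ⟨u, x, rfl⟩ : ∃ (u : V) (x : Fin r → V), v = Fin.cons u x :=
      ⟨v 0, Fin.tail v, (Fin.cons_self_tail v).symm⟩
    rw [D_cons_eq]
    by_cases hσ0 : ‖Pj r x u‖ = 0
    · rw [hσ0, mul_zero, ENNReal.ofReal_zero, ENNReal.zero_rpow_of_neg (by linarith),
        ENNReal.mul_top]
      · exact le_top
      · exact (ENNReal.ofReal_pos.2 (Real.rpow_pos_of_pos (by norm_num) _)).ne'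
    have hσ : 0 < ‖Pj r x u‖ := lt_of_le_of_ne (norm_nonneg _) (Ne.symm hσ0)
    set σ := ‖Pj r x u‖ with hσd
    set z : V := σ⁻¹ • Pj r x u with hz
    have hz1 : ‖z‖ = 1 := by
      rw [hz, norm_smul, norm_inv, Real.norm_of_nonneg hσ.le, ← hσd, inv_mul_cancel₀ hσ0]
    have hxz : ∀ l, ⟪x l, z⟫ = 0 := by
      intro l
      rw [hz, inner_smul_right, ← inner_Pj_comm, Pj_row, inner_zero_left, mul_zero]
    have huz : ⟪u, z⟫ = σ := by
      rw [hz, inner_smul_right, real_inner_comm, inner_Pj_self, ← hσd]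
      field_simp
    have hxp : ∀ l G, ⟪x l, pr z G⟫ = ⟪x l, G⟫ := by
      intro l G
      rw [pr, inner_sub_right, inner_smul_right, hxz, mul_zero, sub_zero]
    have hF : Measurable fun G : V =>
        ∏ l, ENNReal.ofReal |⟪(Fin.cons u x : Fin (r + 1) → V) l, G⟫| ^ (-a) := by
      fun_prop
    have hP : Measurable fun G : V => ∏ l, ENNReal.ofReal |⟪x l, G⟫| ^ (-a) := by
      fun_prop
    have hF2 : Measurable fun q : V × ℝ =>
        ∏ l, ENNReal.ofReal |⟪(Fin.cons u x : Fin (r + 1) → V) l, pr z q.1 + q.2 • z⟫| ^ (-a) :=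
      hF.comp (mp_pr_split hz1).measurable
    rw [← (mp_pr_split hz1).lintegral_comp hF, lintegral_prod _ hF2.aemeasurable]
    calc _ ≤ ∫⁻ G, (ENNReal.ofReal (3 ^ (2 * a)) * ENNReal.ofReal σ ^ (-a))
            * ∏ l, ENNReal.ofReal |⟪x l, G⟫| ^ (-a) ∂(stdGaussian V) := by
          refine lintegral_mono fun G => ?_
          simp only [Fin.prod_univ_succ, Fin.cons_zero, Fin.cons_succ, inner_add_right,
            inner_smul_right, hxz, hxp, huz, mul_zero, add_zero]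
          rw [lintegral_mul_const _ (by fun_prop)]
          exact mul_le_mul_left (scale_neg_HiG2 h0 h1 _ hσ) _
      _ = (ENNReal.ofReal (3 ^ (2 * a)) * ENNReal.ofReal σ ^ (-a))
            * ∫⁻ G, ∏ l, ENNReal.ofReal |⟪x l, G⟫| ^ (-a) ∂(stdGaussian V) :=
          lintegral_const_mul _ hP
      _ ≤ (ENNReal.ofReal (3 ^ (2 * a)) * ENNReal.ofReal σ ^ (-a))
            * (ENNReal.ofReal (3 ^ (2 * a * r)) * ENNReal.ofReal (D x) ^ (-a)) :=
          mul_le_mul_right (ih x) _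
      _ = _ := by
          rw [ENNReal.ofReal_mul (D_nonneg x),
            ENNReal.mul_rpow_of_ne_top ENNReal.ofReal_ne_top ENNReal.ofReal_ne_top]
          have h3 : (3 : ℝ) ^ (2 * a * ((r + 1 : ℕ) : ℝ)) = 3 ^ (2 * a) * 3 ^ (2 * a * r) := by
            rw [← Real.rpow_add (by norm_num)]
            congr 1
            push_cast
            ring
          rw [h3, ENNReal.ofReal_mul (Real.rpow_nonneg (by norm_num) _)]
          ring

theorem amgm_HiG2 {r : ℕ} (hr : 0 < r) (y : Fin r → ℝ) :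
    (r : ℝ) * (∏ l, |y l|) ^ (2 / (r : ℝ)) ≤ ∑ l, y l ^ 2 := by
  have hr' : (0 : ℝ) < r := Nat.cast_pos.2 hr
  have h := Real.geom_mean_le_arith_mean_weighted (Finset.univ : Finset (Fin r))
    (fun _ => 1 / (r : ℝ)) (fun l => y l ^ 2) (fun _ _ => by positivity)
    (by simp; field_simp) (fun _ _ => sq_nonneg _)
  have he : (∏ l, |y l|) ^ (2 / (r : ℝ)) = ∏ l, (y l ^ 2) ^ (1 / (r : ℝ)) := by
    rw [← Real.finsetProd_rpow _ _ (fun l _ => abs_nonneg _)]
    refine Finset.prod_congr rfl fun l _ => ?_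
    rw [← sq_abs, ← Real.rpow_natCast, ← Real.rpow_mul (abs_nonneg _)]
    congr 1
    push_cast
    ring
  rw [he]
  rw [← Finset.mul_sum] at h
  calc _ ≤ (r : ℝ) * (1 / (r : ℝ) * ∑ l, y l ^ 2) := mul_le_mul_of_nonneg_left h hr'.le
    _ = _ := by field_simp

theorem neg_moment {r : ℕ} (hr : 16 ≤ r) (v : Fin r → V) :
    ∫⁻ G, (ENNReal.ofReal (∑ l, ⟪v l, G⟫ ^ 2))⁻¹ ^ 4 ∂(stdGaussian V)
      ≤ ENNReal.ofReal (3 ^ 16 / (r : ℝ) ^ 4) * ENNReal.ofReal (D v) ^ (-(8 / (r : ℝ))) := by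
  have hr0 : 0 < r := by omega
  have hr' : (0 : ℝ) < r := Nat.cast_pos.2 hr0
  have hr16 : (16 : ℝ) ≤ r := by exact_mod_cast hr
  have ha0 : (0 : ℝ) ≤ 8 / (r : ℝ) := by positivity
  have ha1 : 8 / (r : ℝ) ≤ 1 / 2 := by
    rw [div_le_div_iff₀ hr' (by norm_num)]; linarith
  have hpt : ∀ G : V, (ENNReal.ofReal (∑ l, ⟪v l, G⟫ ^ 2))⁻¹ ^ 4
      ≤ ENNReal.ofReal (1 / (r : ℝ) ^ 4)
        * ∏ l, ENNReal.ofReal |⟪v l, G⟫| ^ (-(8 / (r : ℝ))) := by
    intro G
    have hn : 0 ≤ ∏ l, |⟪v l, G⟫| := Finset.prod_nonneg fun l _ => abs_nonneg _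
    rw [ENNReal.prod_rpow_of_ne_top (fun l _ => ENNReal.ofReal_ne_top),
      ← ENNReal.ofReal_prod_of_nonneg (fun l _ => abs_nonneg _)]
    have h := ENNReal.ofReal_le_ofReal (amgm_HiG2 hr0 fun l => ⟪v l, G⟫)
    rw [ENNReal.ofReal_mul hr'.le, ← ENNReal.ofReal_rpow_of_nonneg hn (by positivity)] at h
    refine (pow_le_pow_left' (ENNReal.inv_le_inv.2 h) 4).trans (le_of_eq ?_)
    rw [ENNReal.mul_inv (Or.inl (ENNReal.ofReal_pos.2 hr').ne') (Or.inl ENNReal.ofReal_ne_top),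
      mul_pow, ← ENNReal.ofReal_inv_of_pos hr', ← ENNReal.ofReal_pow (inv_nonneg.2 hr'.le),
      ← ENNReal.rpow_neg, ← ENNReal.rpow_natCast, ← ENNReal.rpow_mul]
    congr 2
    · rw [one_div, inv_pow]
    · push_cast; ring
  calc _ ≤ ∫⁻ G, ENNReal.ofReal (1 / (r : ℝ) ^ 4)
        * ∏ l, ENNReal.ofReal |⟪v l, G⟫| ^ (-(8 / (r : ℝ))) ∂(stdGaussian V) :=
        lintegral_mono hpt
    _ = ENNReal.ofReal (1 / (r : ℝ) ^ 4)
        * ∫⁻ G, ∏ l, ENNReal.ofReal |⟪v l, G⟫| ^ (-(8 / (r : ℝ))) ∂(stdGaussian V) :=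
        lintegral_const_mul _ (by fun_prop)
    _ ≤ ENNReal.ofReal (1 / (r : ℝ) ^ 4) * (ENNReal.ofReal (3 ^ (2 * (8 / (r : ℝ)) * r))
        * ENNReal.ofReal (D v) ^ (-(8 / (r : ℝ)))) :=
        mul_le_mul_right (prod_neg_moment ha0 ha1 r v) _
    _ = _ := by
        rw [← mul_assoc, ← ENNReal.ofReal_mul (by positivity)]
        have h16 : 2 * (8 / (r : ℝ)) * r = ((16 : ℕ) : ℝ) := by
          push_cast; field_simp; norm_num
        rw [h16, Real.rpow_natCast]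
        congr 2
        ring

end Pool.Agent.P.MP_181257_gt
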