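import Pool.Agent.P.MP_181257_gt.HiD2
import Pool.Agent.P.MP_181257_gt.HiG2
import Pool.Agent.P.MP_181257_gt.HiFr2

/-! From the determinant to the Gaussian normal vector. -/

set_option autoImplicit false
set_option linter.unusedSectionVars false
set_option linter.unusedVariables false

open MeasureTheory ProbabilityTheory Module Set Filter Topology
open scoped RealInnerProductSpace ENNReal Pointwise Matrix

noncomputable section

namespace Pool.Agent.P.MP_181257_gt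

variable {V : Type} [NormedAddCommGroup V] [InnerProductSpace ℝ V] [FiniteDimensional ℝ V]
  [MeasurableSpace V] [BorelSpace V]

theorem mp_fst_HiD4 :
    MeasurePreserving (fun G : Db V => G.fst) (stdGaussian (Db V)) (stdGaussian V) := by
  refine mp_coiso _ (by fun_prop) (fun t => WithLp.toLp 2 (t, 0)) (fun z t => ?_) fun t => ?_
  · simp [WithLp.prod_inner_apply]
  · simp

/-- the quadratic form -/
def eta_HiD4 {r k : ℕ} (δ : ℝ) (e : Fin r → V) (p : (Fin k → V) × Db V) : ℝ :=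
  ∑ l, ⟪(WithLp.toLp 2 (Pj k p.1 (e l), δ • e l) : Db V), p.2⟫ ^ 2

theorem eta_eq_HiD4 {r k : ℕ} (δ : ℝ) (e : Fin r → V) (p : (Fin k → V) × Db V) :
    eta_HiD4 δ e p = ∑ l, (⟪e l, Pj k p.1 p.2.fst⟫ + δ * ⟪e l, p.2.snd⟫) ^ 2 := by
  unfold eta_HiD4
  refine Finset.sum_congr rfl fun l _ => ?_
  rw [WithLp.prod_inner_apply, ← inner_Pj_comm]
  simp [real_inner_smul_left]

theorem meas_eta_HiD4 {r k : ℕ} (δ : ℝ) (e : Fin r → V) :
    Measurable (eta_HiD4 (k := k) δ e) := by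
  have h1 : Measurable fun p : (Fin k → V) × Db V => Pj k p.1 p.2.fst :=
    measurable_Pj k measurable_fst (by fun_prop)
  rw [funext (eta_eq_HiD4 δ e)]
  fun_prop

theorem neg_HiD4 {μ : Measure V} {i r : ℕ} (hr : 16 ≤ r) {δ M : ℝ} {e : Fin r → V}
    (hM : ∫⁻ x, ENNReal.ofReal (Dl δ e x) ^ (-(8 / (r : ℝ))) ∂(Fr i μ) ≤ ENNReal.ofReal M) :
    ∫⁻ p, (ENNReal.ofReal (eta_HiD4 δ e p))⁻¹ ^ 4 ∂((Fr i μ).prod (stdGaussian (Db V)))
      ≤ ENNReal.ofReal (3 ^ 16 / (r : ℝ) ^ 4 * M) := by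
  have hm : Measurable fun p : (Fin i → V) × Db V => (ENNReal.ofReal (eta_HiD4 δ e p))⁻¹ ^ 4 :=
    (meas_eta_HiD4 δ e).ennreal_ofReal.inv.pow_const 4
  rw [lintegral_prod _ hm.aemeasurable, ENNReal.ofReal_mul (by positivity)]
  have h1 : ∀ x : Fin i → V,
      ∫⁻ G, (ENNReal.ofReal (eta_HiD4 δ e (x, G)))⁻¹ ^ 4 ∂(stdGaussian (Db V))
        ≤ ENNReal.ofReal (3 ^ 16 / (r : ℝ) ^ 4)
          * ENNReal.ofReal (Dl δ e x) ^ (-(8 / (r : ℝ))) := fun x =>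
    neg_moment hr fun l => (WithLp.toLp 2 (Pj i x (e l), δ • e l) : Db V)
  refine (lintegral_mono h1).trans ?_
  rw [lintegral_const_mul' _ _ ENNReal.ofReal_ne_top]
  exact mul_le_mul_right hM _

theorem lift_HiD4 {μ : Measure V} (hμ : Mom μ) {i : ℕ} (hW : 0 < Wr i μ) {φ : V → ℝ≥0∞}
    (hφ : Measurable φ) : ∫⁻ y, φ y ∂(Tn i μ)
      = ∫⁻ p, φ (Pj i p.1 p.2.fst) ∂((Fr i μ).prod (stdGaussian (Db V))) := by
  have hm : Measurable fun p : (Fin i → V) × Db V => φ (Pj i p.1 p.2.fst) :=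
    hφ.comp (measurable_Pj i measurable_fst (by fun_prop))
  rw [lintegral_Tn hμ hW hφ, lintegral_prod _ hm.aemeasurable]
  refine lintegral_congr fun x => ?_
  exact (mp_fst_HiD4.lintegral_comp (hφ.comp (Pj i x).continuous.measurable)).symm

theorem eta_le_HiD4 {r k : ℕ} (δ : ℝ) {e : Fin r → V} (he : Orthonormal ℝ e) {U : Submodule ℝ V}
    (hU : ∀ l, e l ∈ U) (p : (Fin k → V) × Db V) :
    eta_HiD4 δ e p ≤ 2 * ‖p.2‖ ^ 2 * rho δ U (Pj k p.1 p.2.fst) := by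
  set w := Pj k p.1 p.2.fst with hw
  have h1 := sum_inner_sq_le he hU w
  have h2 := (sum_inner_sq_le he hU p.2.snd).trans
    (pow_le_pow_left₀ (norm_nonneg _) (norm_pU_le U _) 2)
  have h3 : ‖p.2‖ ^ 2 = ‖p.2.fst‖ ^ 2 + ‖p.2.snd‖ ^ 2 := WithLp.prod_norm_sq_eq_of_L2 p.2
  have h4 : ‖w‖ ^ 2 ≤ ‖p.2.fst‖ ^ 2 := pow_le_pow_left₀ (norm_nonneg _) (norm_Pj_le _ _) 2
  have h5 : ‖pU U w‖ ^ 2 ≤ ‖p.2‖ ^ 2 * (‖pU U w‖ ^ 2 / ‖w‖ ^ 2) := by
    rcases (norm_nonneg w).eq_or_lt with h0 | h0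
    · have : w = 0 := norm_eq_zero.1 h0.symm
      simp [this]
    · rw [← mul_div_assoc, le_div_iff₀ (by positivity), mul_comm]
      exact mul_le_mul_of_nonneg_right (by nlinarith [sq_nonneg ‖p.2.snd‖]) (by positivity)
  have h6 : eta_HiD4 δ e p ≤ 2 * ∑ l, ⟪e l, w⟫ ^ 2 + 2 * δ ^ 2 * ∑ l, ⟪e l, p.2.snd⟫ ^ 2 := by
    rw [eta_eq_HiD4, Finset.mul_sum, Finset.mul_sum, ← Finset.sum_add_distrib]
    refine Finset.sum_le_sum fun l _ => ?_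
    nlinarith [sq_nonneg (⟪e l, w⟫ - δ * ⟪e l, p.2.snd⟫)]
  have h7 : δ ^ 2 * ∑ l, ⟪e l, p.2.snd⟫ ^ 2 ≤ δ ^ 2 * ‖p.2‖ ^ 2 :=
    mul_le_mul_of_nonneg_left (by nlinarith [sq_nonneg ‖p.2.fst‖]) (sq_nonneg δ)
  unfold rho
  nlinarith

theorem rho_moment {μ : Measure V} (hμ : Mom μ) {i r : ℕ} (hW : 0 < Wr i μ) (hr : 16 ≤ r)
    {δ : ℝ} (h0 : 0 ≤ δ) {M : ℝ} (hM0 : 0 ≤ M)
    (hM : ∀ e : Fin r → V, Orthonormal ℝ e →
      ∫⁻ x, ENNReal.ofReal (Dl δ e x) ^ (-(8 / (r : ℝ))) ∂(Fr i μ) ≤ ENNReal.ofReal M)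
    (U : Submodule ℝ V) (hU : r ≤ finrank ℝ U) :
    ∫⁻ y, (ENNReal.ofReal (rho δ U y))⁻¹ ^ 2 ∂(Tn i μ)
      ≤ ENNReal.ofReal (4 * √((2 * finrank ℝ V) ^ 4 * Km 4) * √(3 ^ 16 / (r : ℝ) ^ 4 * M)) := by
  obtain ⟨e, he, heU⟩ := exists_on U hU
  have := Fr_prob hμ hW
  have hfr : finrank ℝ (Db V) = 2 * finrank ℝ V := by
    rw [(WithLp.linearEquiv 2 ℝ (V × V)).finrank_eq, Module.finrank_prod, two_mul]
  have h1 : 1 ≤ finrank ℝ (Db V) := by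
    have := Submodule.finrank_le U
    omega
  set Q := (Fr i μ).prod (stdGaussian (Db V)) with hQ
  have hm : Measurable fun y => (ENNReal.ofReal (rho δ U y))⁻¹ ^ 2 :=
    (measurable_rho δ U).ennreal_ofReal.inv.pow_const 2
  rw [lift_HiD4 hμ hW hm]
  have hae : ∀ᵐ p ∂Q, p.2 ≠ 0 :=
    (measurePreserving_snd (μ := Fr i μ)).quasiMeasurePreserving.ae (ae_ne_zero h1)
  have hf : Measurable fun p : (Fin i → V) × Db V => ENNReal.ofReal (‖p.2‖ ^ 4) := by fun_prop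
  have hg : Measurable fun p : (Fin i → V) × Db V => (ENNReal.ofReal (eta_HiD4 δ e p))⁻¹ ^ 2 :=
    (meas_eta_HiD4 δ e).ennreal_ofReal.inv.pow_const 2
  have a1 : ∫⁻ p, (ENNReal.ofReal (rho δ U (Pj i p.1 p.2.fst)))⁻¹ ^ 2 ∂Q
      ≤ ∫⁻ p, 4 * (ENNReal.ofReal (‖p.2‖ ^ 4) * (ENNReal.ofReal (eta_HiD4 δ e p))⁻¹ ^ 2) ∂Q := by
    refine lintegral_mono_ae (hae.mono fun p hp => ?_)
    have hp' : 0 < 2 * ‖p.2‖ ^ 2 := by
      have := norm_pos_iff.2 hp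
      positivity
    have b1 := ENNReal.ofReal_le_ofReal (eta_le_HiD4 δ he heU p)
    rw [ENNReal.ofReal_mul hp'.le] at b1
    have c0 : ENNReal.ofReal (2 * ‖p.2‖ ^ 2) ≠ 0 := by simpa using hp
    have b2 := ENNReal.inv_le_inv.2 b1
    rw [ENNReal.mul_inv (Or.inl c0) (Or.inl ENNReal.ofReal_ne_top)] at b2
    have b3 := mul_le_mul_right b2 (ENNReal.ofReal (2 * ‖p.2‖ ^ 2))
    rw [← mul_assoc, ENNReal.mul_inv_cancel c0 ENNReal.ofReal_ne_top, one_mul] at b3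
    refine (pow_le_pow_left' b3 2).trans (le_of_eq ?_)
    rw [mul_pow, ← mul_assoc, ← ENNReal.ofReal_pow hp'.le,
      show (2 * ‖p.2‖ ^ 2) ^ 2 = 4 * ‖p.2‖ ^ 4 by ring, ENNReal.ofReal_mul (by norm_num)]
    simp
  have a2 := ENNReal.lintegral_mul_le_Lp_mul_Lq Q Real.HolderConjugate.two_two hf.aemeasurable
    hg.aemeasurable
  have a3 : ∫⁻ p, ENNReal.ofReal (‖p.2‖ ^ 4) ^ (2 : ℝ) ∂Q
      ≤ ENNReal.ofReal ((2 * finrank ℝ V) ^ 4 * Km 4) := by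
    have e1 : ∫⁻ p, ENNReal.ofReal (‖p.2‖ ^ 4) ^ (2 : ℝ) ∂Q
        = ∫⁻ G, ENNReal.ofReal (‖G‖ ^ (2 * 4)) ∂(stdGaussian (Db V)) := by
      rw [← (measurePreserving_snd (μ := Fr i μ) (ν := stdGaussian (Db V))).lintegral_comp
        (f := fun G => ENNReal.ofReal (‖G‖ ^ (2 * 4))) (by fun_prop)]
      refine lintegral_congr fun p => ?_
      rw [ENNReal.rpow_two, ← ENNReal.ofReal_pow (by positivity)]
      congr 1
      ring
    rw [e1, ← ofReal_integral_eq_lintegral_ofReal (integrable_norm_pow _)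
      (ae_of_all _ fun G => by positivity)]
    refine ENNReal.ofReal_le_ofReal ((integral_norm_pow_le (by norm_num)).trans (le_of_eq ?_))
    rw [hfr]
    push_cast
    ring
  have a4 : ∫⁻ p, ((ENNReal.ofReal (eta_HiD4 δ e p))⁻¹ ^ 2) ^ (2 : ℝ) ∂Q
      ≤ ENNReal.ofReal (3 ^ 16 / (r : ℝ) ^ 4 * M) := by
    refine le_trans (le_of_eq (lintegral_congr fun p => ?_)) (neg_HiD4 hr (hM e he))
    rw [ENNReal.rpow_two, ← pow_mul]
  have k4 := Km_nonneg 4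
  refine a1.trans ?_
  rw [lintegral_const_mul' _ _ (by simp), mul_assoc, ENNReal.ofReal_mul (by norm_num),
    ENNReal.ofReal_mul (by positivity), Real.sqrt_eq_rpow, Real.sqrt_eq_rpow,
    ← ENNReal.ofReal_rpow_of_nonneg (by positivity) (by norm_num),
    ← ENNReal.ofReal_rpow_of_nonneg (by positivity) (by norm_num)]
  refine mul_le_mul' (by simp) (a2.trans (mul_le_mul' ?_ ?_))
  · exact ENNReal.rpow_le_rpow a3 (by norm_num)
  · exact ENNReal.rpow_le_rpow a4 (by norm_num)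

theorem pU_moment {μ : Measure V} (hμ : Mom μ) {i r : ℕ} (hW : 0 < Wr i μ) (hr : 16 ≤ r)
    {M : ℝ} (hM0 : 0 ≤ M)
    (hM : ∀ e : Fin r → V, Orthonormal ℝ e →
      ∫⁻ x, ENNReal.ofReal (Dl 0 e x) ^ (-(8 / (r : ℝ))) ∂(Fr i μ) ≤ ENNReal.ofReal M)
    (U : Submodule ℝ V) (hU : r ≤ finrank ℝ U) :
    ∫⁻ y, (ENNReal.ofReal ‖pU U y‖)⁻¹ ^ 8 ∂(Tn i μ)
      ≤ ENNReal.ofReal (3 ^ 16 / (r : ℝ) ^ 4 * M) := by
  obtain ⟨e, he, heU⟩ := exists_on U hU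
  have hm : Measurable fun y => (ENNReal.ofReal ‖pU U y‖)⁻¹ ^ 8 :=
    (pU U).continuous.measurable.norm.ennreal_ofReal.inv.pow_const 8
  rw [lift_HiD4 hμ hW hm]
  refine (lintegral_mono fun p => ?_).trans (neg_HiD4 hr (hM e he))
  have h1 : eta_HiD4 0 e p ≤ ‖pU U (Pj i p.1 p.2.fst)‖ ^ 2 := by
    rw [eta_eq_HiD4]
    simpa using sum_inner_sq_le he heU (Pj i p.1 p.2.fst)
  have h2 := ENNReal.inv_le_inv.2 (ENNReal.ofReal_le_ofReal h1)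
  rw [ENNReal.ofReal_pow (norm_nonneg _), ENNReal.inv_pow] at h2
  refine le_trans (le_of_eq ?_) (pow_le_pow_left' h2 4)
  rw [← pow_mul]

end Pool.Agent.P.MP_181257_gt
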