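import Pool.Agent.P.MP_181257_gt.HiC1
import Pool.Agent.P.MP_181257_gt.HiD2

/-! Consequences of isotropy for subspaces. -/

set_option autoImplicit false
set_option linter.unusedSectionVars false
set_option linter.unusedVariables false

open MeasureTheory ProbabilityTheory Module Set Filter Topology
open scoped RealInnerProductSpace ENNReal Pointwise Matrix

noncomputable section

namespace Pool.Agent.P.MP_181257_gt

variable {V : Type} [NormedAddCommGroup V] [InnerProductSpace ℝ V] [FiniteDimensional ℝ V]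
  [MeasurableSpace V] [BorelSpace V]

theorem int_pow_HiD5 {i : ℕ} {μ ν : Measure V} (h : FP i μ ν) (p : ℕ) :
    Integrable (fun w : V => ‖w‖ ^ p) μ := by
  have := integrable_norm_pow_Tn h.mr h.wr p
  rwa [← h.el] at this

theorem int_pU_HiD5 {i : ℕ} {μ ν : Measure V} (h : FP i μ ν) (U : Submodule ℝ V) (p : ℕ) :
    Integrable (fun w : V => ‖pU U w‖ ^ p) μ := by
  refine Integrable.mono' (int_pow_HiD5 h p)
    (((pU U).continuous.norm.pow p).aestronglyMeasurable) (ae_of_all _ fun w => ?_)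
  rw [Real.norm_eq_abs, abs_of_nonneg (by positivity)]
  exact pow_le_pow_left₀ (norm_nonneg _) (norm_pU_le U w) p

theorem int_var_HiD5 {i : ℕ} {μ ν : Measure V} (h : FP i μ ν) (U : Submodule ℝ V) (m : ℝ) :
    Integrable (fun w : V => (‖pU U w‖ ^ 2 - m) ^ 2) μ := by
  have := h.ml.prob
  have h1 := ((int_pU_HiD5 h U 4).sub ((int_pU_HiD5 h U 2).const_mul (2 * m))).add
    (integrable_const (m ^ 2))
  refine h1.congr (ae_of_all _ fun w => ?_)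
  simp only [Pi.add_apply, Pi.sub_apply]
  ring

theorem mean_HiD5 {i : ℕ} {μ ν : Measure V} (h : FP i μ ν)
    {s : ℝ} (hiso : ∀ a : V, ‖a‖ = 1 → s ≤ Sg μ a a) {r : ℕ}
    (U : Submodule ℝ V) (hU : r ≤ finrank ℝ U) : r * s ≤ ∫ z, ‖pU U z‖ ^ 2 ∂μ := by
  obtain ⟨e, he, heU⟩ := exists_on U hU
  have hint : ∀ l, Integrable (fun w => ⟪e l, w⟫ ^ 2) μ := fun l => by
    have := integrable_inner_pow_Tn h.mr h.wr (e l) 2
    rwa [← h.el] at this
  calc (r : ℝ) * s = ∑ _l : Fin r, s := by simp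
    _ ≤ ∑ l, ∫ w, ⟪e l, w⟫ ^ 2 ∂μ := by
        refine Finset.sum_le_sum fun l _ => ?_
        have := hiso (e l) (he.1 l)
        simpa only [Sg, sq] using this
    _ = ∫ w, ∑ l, ⟪e l, w⟫ ^ 2 ∂μ := (integral_finsetSum _ fun l _ => hint l).symm
    _ ≤ _ := integral_mono (integrable_finsetSum _ fun l _ => hint l) (int_pU_HiD5 h U 2)
        fun w => sum_inner_sq_le he heU w

theorem cheb_HiD5 {i : ℕ} {μ ν : Measure V} (h : FP i μ ν) (hi : 1 ≤ i) (hin : i ≤ finrank ℝ V)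
    (U : Submodule ℝ V) {t : ℝ} (ht : 0 < t) :
    μ {w | t ^ 2 ≤ (‖pU U w‖ ^ 2 - ∫ z, ‖pU U z‖ ^ 2 ∂μ) ^ 2}
      ≤ ENNReal.ofReal (6 * (finrank ℝ V : ℝ) / t ^ 2) := by
  have := h.ml.prob
  have h1 := mul_meas_ge_le_integral_of_nonneg (μ := μ)
    (f := fun w => (‖pU U w‖ ^ 2 - ∫ z, ‖pU U z‖ ^ 2 ∂μ) ^ 2)
    (ae_of_all _ fun w => sq_nonneg _) (int_var_HiD5 h U _) (t ^ 2)
  have h2 := h1.trans (conc_sub h hi hin U)
  rw [← ofReal_measureReal]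
  refine ENNReal.ofReal_le_ofReal ?_
  rw [le_div_iff₀ (by positivity), mul_comm]
  exact h2

theorem sub_lower {i : ℕ} {μ ν : Measure V} (h : FP i μ ν) (hi : 1 ≤ i) (hin : i ≤ finrank ℝ V)
    {s : ℝ} (hs : 0 < s) (hiso : ∀ a : V, ‖a‖ = 1 → s ≤ Sg μ a a) {r : ℕ} (hr : 1 ≤ r)
    (hbig : 48 * (finrank ℝ V : ℝ) ≤ (r * s) ^ 2) (U : Submodule ℝ V) (hU : r ≤ finrank ℝ U) :
    √(r * s / 2) / 2 ≤ ∫ w, ‖pU U w‖ ∂μ := by
  have := h.ml.prob
  have hr' : (0 : ℝ) < r := by exact_mod_cast hr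
  set t : ℝ := r * s / 2 with ht
  have ht0 : 0 < t := by positivity
  set m : ℝ := ∫ z, ‖pU U z‖ ^ 2 ∂μ with hm
  have hmt : 2 * t ≤ m := by
    have := mean_HiD5 h hiso U hU
    rw [ht]
    linarith
  have hv := conc_sub h hi hin U
  have hq : 0 ≤ √t := Real.sqrt_nonneg _
  have hpt : ∀ w, √t - √t / t ^ 2 * (‖pU U w‖ ^ 2 - m) ^ 2 ≤ ‖pU U w‖ := by
    intro w
    have h0 : 0 ≤ √t / t ^ 2 * (‖pU U w‖ ^ 2 - m) ^ 2 := by positivity
    by_cases hw : t ≤ ‖pU U w‖ ^ 2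
    · have : √t ≤ ‖pU U w‖ := Real.sqrt_le_iff.mpr ⟨norm_nonneg _, hw⟩
      linarith
    · have h1 : t ^ 2 ≤ (‖pU U w‖ ^ 2 - m) ^ 2 := by
        have h2 : t ≤ m - ‖pU U w‖ ^ 2 := by linarith [not_le.mp hw]
        have h3 := pow_le_pow_left₀ ht0.le h2 2
        linarith [sub_sq' m (‖pU U w‖ ^ 2), sub_sq' (‖pU U w‖ ^ 2) m]
      have h2 : √t / t ^ 2 * t ^ 2 ≤ √t / t ^ 2 * (‖pU U w‖ ^ 2 - m) ^ 2 :=
        mul_le_mul_of_nonneg_left h1 (by positivity)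
      rw [div_mul_cancel₀ _ (by positivity)] at h2
      linarith [norm_nonneg (pU U w)]
  have hI : Integrable (fun w => ‖pU U w‖) μ := by simpa using int_pU_HiD5 h U 1
  have h3 := integral_mono ((integrable_const (√t)).sub ((int_var_HiD5 h U m).const_mul
    (√t / t ^ 2))) hI hpt
  have h4 : ∫ w, (√t - √t / t ^ 2 * (‖pU U w‖ ^ 2 - m) ^ 2) ∂μ
      = √t - √t / t ^ 2 * ∫ w, (‖pU U w‖ ^ 2 - m) ^ 2 ∂μ := by
    rw [integral_sub (integrable_const _) ((int_var_HiD5 h U m).const_mul _), integral_const_mul]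
    simp
  have h5 : ∫ w, (‖pU U w‖ ^ 2 - m) ^ 2 ∂μ ≤ t ^ 2 / 2 := by
    have : t ^ 2 = (r * s) ^ 2 / 4 := by rw [ht]; ring
    linarith
  have h6 : √t / t ^ 2 * ∫ w, (‖pU U w‖ ^ 2 - m) ^ 2 ∂μ ≤ √t / t ^ 2 * (t ^ 2 / 2) :=
    mul_le_mul_of_nonneg_left h5 (by positivity)
  have h7 : √t / t ^ 2 * (t ^ 2 / 2) = √t / 2 := by field_simp
  have h8 : ∫ w, (√t - √t / t ^ 2 * (‖pU U w‖ ^ 2 - m) ^ 2) ∂μ ≤ ∫ w, ‖pU U w‖ ∂μ := h3
  linarith

theorem rho_small {i : ℕ} {μ ν : Measure V} (h : FP i μ ν) (hi : 1 ≤ i) (hin : i ≤ finrank ℝ V)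
    {s : ℝ} (hs : 0 < s) (hiso : ∀ a : V, ‖a‖ = 1 → s ≤ Sg μ a a) {r : ℕ} (hr : 1 ≤ r)
    (δ : ℝ) (U : Submodule ℝ V) (hU : r ≤ finrank ℝ U) :
    μ {w | rho δ U w < r * s / (4 * finrank ℝ V)}
      ≤ ENNReal.ofReal (24 * (finrank ℝ V : ℝ) / (r * s) ^ 2 + 6 / finrank ℝ V) := by
  have hr' : (0 : ℝ) < r := by exact_mod_cast hr
  have hn : (0 : ℝ) < finrank ℝ V := by
    have : 0 < finrank ℝ V := by omega
    exact_mod_cast this
  have ht0 : 0 < r * s / 2 := by positivity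
  have hm := mean_HiD5 h hiso U hU
  have htop : ∀ w : V, pU (⊤ : Submodule ℝ V) w = w := fun w =>
    Submodule.starProjection_eq_self_iff.mpr Submodule.mem_top
  have hm' : ∫ z, ‖z‖ ^ 2 ∂μ ≤ finrank ℝ V := by
    have := integral_norm_pow_Tn h.mr h.wr (j := 1) le_rfl
    rw [← h.el, Km_one] at this
    simpa using this
  have c1 := cheb_HiD5 h hi hin U ht0
  have c2 := cheb_HiD5 h hi hin ⊤ hn
  simp only [htop] at c2
  have hsub : {w | rho δ U w < r * s / (4 * finrank ℝ V)} ⊆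
      {w | (r * s / 2) ^ 2 ≤ (‖pU U w‖ ^ 2 - ∫ z, ‖pU U z‖ ^ 2 ∂μ) ^ 2} ∪
      {w | (finrank ℝ V : ℝ) ^ 2 ≤ (‖w‖ ^ 2 - ∫ z, ‖z‖ ^ 2 ∂μ) ^ 2} := by
    intro w hw
    by_cases h1 : r * s / 2 ≤ ‖pU U w‖ ^ 2
    · right
      by_cases h2 : 2 * (finrank ℝ V : ℝ) ≤ ‖w‖ ^ 2
      · exact pow_le_pow_left₀ hn.le (by linarith) 2
      · exfalso
        have h3 : ‖pU U w‖ ^ 2 ≤ ‖w‖ ^ 2 := pow_le_pow_left₀ (norm_nonneg _) (norm_pU_le U w) 2
        have h4 : 0 < ‖w‖ ^ 2 := by linarith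
        have h5 : r * s / (4 * finrank ℝ V) ≤ ‖pU U w‖ ^ 2 / ‖w‖ ^ 2 := by
          rw [div_le_div_iff₀ (by positivity) h4]
          have h6 := mul_le_mul h1 (not_le.mp h2).le h4.le (sq_nonneg _)
          linarith
        have h7 : rho δ U w < r * s / (4 * finrank ℝ V) := hw
        unfold rho at h7
        linarith [sq_nonneg δ]
    · left
      have h2 : r * s / 2 ≤ (∫ z, ‖pU U z‖ ^ 2 ∂μ) - ‖pU U w‖ ^ 2 := by linarith [not_le.mp h1]
      have h3 := pow_le_pow_left₀ ht0.le h2 2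
      show (r * s / 2) ^ 2 ≤ (‖pU U w‖ ^ 2 - ∫ z, ‖pU U z‖ ^ 2 ∂μ) ^ 2
      linarith [sub_sq' (∫ z, ‖pU U z‖ ^ 2 ∂μ) (‖pU U w‖ ^ 2),
        sub_sq' (‖pU U w‖ ^ 2) (∫ z, ‖pU U z‖ ^ 2 ∂μ)]
  refine (measure_mono hsub).trans ((measure_union_le _ _).trans ((add_le_add c1 c2).trans ?_))
  rw [← ENNReal.ofReal_add (by positivity) (by positivity)]
  refine ENNReal.ofReal_le_ofReal (le_of_eq ?_)
  field_simp
  ring

/-- splitting at a level -/
theorem split_level {X : Type} [MeasurableSpace X] (κ : Measure X) [IsProbabilityMeasure κ]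
    {f : X → ℝ} (hf : Measurable f) {c p A : ℝ} (hc : 0 < c) (hp : 0 ≤ p) (hA : 0 ≤ A)
    (h1 : κ {w | f w < c} ≤ ENNReal.ofReal p)
    (h2 : ∫⁻ w, (ENNReal.ofReal (f w))⁻¹ ^ 2 ∂κ ≤ ENNReal.ofReal A) :
    ∫⁻ w, (ENNReal.ofReal (f w))⁻¹ ∂κ ≤ ENNReal.ofReal (1 / c + √p * √A) := by
  have hS : MeasurableSet {w | f w < c} := measurableSet_lt hf measurable_const
  have hg : Measurable fun w => (ENNReal.ofReal (f w))⁻¹ := hf.ennreal_ofReal.inv
  have hind : Measurable ({w | f w < c}.indicator (1 : X → ℝ≥0∞)) :=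
    measurable_one.indicator hS
  have hpt : ∀ w, (ENNReal.ofReal (f w))⁻¹ ≤ ENNReal.ofReal (1 / c) +
      (({w | f w < c}.indicator (1 : X → ℝ≥0∞)) * fun w => (ENNReal.ofReal (f w))⁻¹) w := by
    intro w
    by_cases hw : f w < c
    · have : w ∈ {w | f w < c} := hw
      simp [indicator_of_mem this]
    · refine le_trans ?_ le_self_add
      rw [one_div, ENNReal.ofReal_inv_of_pos hc]
      exact ENNReal.inv_le_inv.mpr (ENNReal.ofReal_le_ofReal (not_lt.mp hw))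
  have hH := ENNReal.lintegral_mul_le_Lp_mul_Lq κ Real.HolderConjugate.two_two
    hind.aemeasurable hg.aemeasurable
  have e1 : ∫⁻ w, ({w | f w < c}.indicator (1 : X → ℝ≥0∞)) w ^ (2 : ℝ) ∂κ = κ {w | f w < c} := by
    rw [← lintegral_indicator_one hS]
    refine lintegral_congr fun w => ?_
    by_cases hw : w ∈ {w | f w < c}
    · simp [indicator_of_mem hw]
    · simp [indicator_of_notMem hw]
  have e2 : ∫⁻ w, (ENNReal.ofReal (f w))⁻¹ ^ (2 : ℝ) ∂κ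
      = ∫⁻ w, (ENNReal.ofReal (f w))⁻¹ ^ 2 ∂κ := by
    refine lintegral_congr fun w => ?_
    rw [← ENNReal.rpow_natCast]
    norm_num
  rw [e1, e2] at hH
  have e3 : ∀ q : ℝ, 0 ≤ q → ENNReal.ofReal q ^ (1 / 2 : ℝ) = ENNReal.ofReal (√q) := by
    intro q hq
    rw [Real.sqrt_eq_rpow, ENNReal.ofReal_rpow_of_nonneg hq (by norm_num)]
  have hH' := hH.trans (mul_le_mul' (ENNReal.rpow_le_rpow h1 (by norm_num))
    (ENNReal.rpow_le_rpow h2 (by norm_num)))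
  rw [e3 p hp, e3 A hA, ← ENNReal.ofReal_mul (Real.sqrt_nonneg _)] at hH'
  refine (lintegral_mono hpt).trans ?_
  rw [lintegral_add_left measurable_const, lintegral_const, measure_univ, mul_one,
    ENNReal.ofReal_add (by positivity) (by positivity)]
  exact add_le_add le_rfl hH'

theorem meas_rho_HiD5 (δ : ℝ) (U : Submodule ℝ V) :
    Measurable fun w => (ENNReal.ofReal (rho δ U w))⁻¹ := by
  refine (Measurable.ennreal_ofReal ?_).inv
  unfold rho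
  exact (((pU U).continuous.measurable.norm.pow_const 2).div
    (measurable_norm.pow_const 2)).add_const _

theorem one_HiD5 (κ : Measure V) [IsProbabilityMeasure κ] {N : ℝ} (hN : 1 ≤ N)
    (U : Submodule ℝ V) : ∫⁻ w, (ENNReal.ofReal (rho 1 U w))⁻¹ ∂κ ≤ ENNReal.ofReal N := by
  have h1 : ∀ w, (ENNReal.ofReal (rho 1 U w))⁻¹ ≤ ENNReal.ofReal N := by
    intro w
    have h2 : 1 ≤ rho 1 U w := by
      unfold rho
      have : 0 ≤ ‖pU U w‖ ^ 2 / ‖w‖ ^ 2 := by positivity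
      linarith
    exact (ENNReal.inv_le_one.mpr (ENNReal.one_le_ofReal.mpr h2)).trans
      (ENNReal.one_le_ofReal.mpr hN)
  refine (lintegral_mono h1).trans ?_
  simp

theorem half_HiD5 (κ : Measure V) {N δ : ℝ} (hδ : 0 < δ) (U : Submodule ℝ V)
    (h : ∫⁻ w, (ENNReal.ofReal (rho δ U w))⁻¹ ∂κ ≤ ENNReal.ofReal N) :
    ∫⁻ w, (ENNReal.ofReal (rho (δ * (1 / 2)) U w))⁻¹ ∂κ ≤ ENNReal.ofReal (4 * N) := by
  have h1 : ∀ w, (ENNReal.ofReal (rho (δ * (1 / 2)) U w))⁻¹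
      ≤ ENNReal.ofReal 4 * (ENNReal.ofReal (rho δ U w))⁻¹ := by
    intro w
    have h0 : 0 ≤ ‖pU U w‖ ^ 2 / ‖w‖ ^ 2 := by positivity
    have h2 : 0 < rho δ U w := by
      unfold rho
      positivity
    have h3 : 0 < rho (δ * (1 / 2)) U w := by
      unfold rho
      positivity
    rw [← ENNReal.ofReal_inv_of_pos h2, ← ENNReal.ofReal_inv_of_pos h3,
      ← ENNReal.ofReal_mul (by norm_num)]
    refine ENNReal.ofReal_le_ofReal ?_
    rw [← div_eq_mul_inv, inv_eq_one_div, div_le_div_iff₀ h3 h2]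
    unfold rho
    nlinarith
  refine (lintegral_mono h1).trans ?_
  rw [lintegral_const_mul _ (meas_rho_HiD5 δ U), ENNReal.ofReal_mul (by norm_num)]
  exact mul_le_mul' le_rfl h

theorem lim_HiD5 (κ : Measure V) {N : ℝ} (U : Submodule ℝ V)
    (h : ∀ l : ℕ, ∫⁻ w, (ENNReal.ofReal (rho ((1 / 2) ^ l) U w))⁻¹ ∂κ ≤ ENNReal.ofReal N) :
    ∫⁻ w, (ENNReal.ofReal (rho 0 U w))⁻¹ ∂κ ≤ ENNReal.ofReal N := by
  have h1 : ∀ w, Tendsto (fun l : ℕ => (ENNReal.ofReal (rho ((1 / 2) ^ l) U w))⁻¹) atTop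
      (𝓝 (ENNReal.ofReal (rho 0 U w))⁻¹) := by
    intro w
    have h2 : Tendsto (fun l : ℕ => (1 / 2 : ℝ) ^ l) atTop (𝓝 0) :=
      tendsto_pow_atTop_nhds_zero_of_lt_one (by norm_num) (by norm_num)
    have h3 : Continuous fun δ : ℝ => (ENNReal.ofReal (rho δ U w))⁻¹ := by
      refine Continuous.inv (ENNReal.continuous_ofReal.comp ?_)
      unfold rho
      exact continuous_const.add (continuous_pow 2)
    exact (h3.tendsto 0).comp h2
  have h4 := lintegral_liminf_le (μ := κ) (u := atTop)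
    (f := fun (l : ℕ) w => (ENNReal.ofReal (rho ((1 / 2) ^ l) U w))⁻¹)
    (fun l => meas_rho_HiD5 _ U)
  simp only [fun w => (h1 w).liminf_eq] at h4
  exact h4.trans (liminf_le_of_frequently_le' (Frequently.of_forall h))

/-- induction on dyadic scales -/
theorem dyadic {μ ν : Measure V} [IsProbabilityMeasure μ] [IsProbabilityMeasure ν] {r : ℕ}
    {N : ℝ} (hN : 1 ≤ N)
    (hstep : ∀ δ : ℝ, 0 < δ → δ ≤ 1 →
      (∀ U : Submodule ℝ V, r ≤ finrank ℝ U →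
        ∫⁻ w, (ENNReal.ofReal (rho δ U w))⁻¹ ∂μ ≤ ENNReal.ofReal (4 * N) ∧
        ∫⁻ w, (ENNReal.ofReal (rho δ U w))⁻¹ ∂ν ≤ ENNReal.ofReal (4 * N)) →
      ∀ U : Submodule ℝ V, r ≤ finrank ℝ U →
        ∫⁻ w, (ENNReal.ofReal (rho δ U w))⁻¹ ∂μ ≤ ENNReal.ofReal N ∧
        ∫⁻ w, (ENNReal.ofReal (rho δ U w))⁻¹ ∂ν ≤ ENNReal.ofReal N)
    (U : Submodule ℝ V) (hU : r ≤ finrank ℝ U) :
    ∫⁻ w, (ENNReal.ofReal (rho 0 U w))⁻¹ ∂μ ≤ ENNReal.ofReal N ∧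
      ∫⁻ w, (ENNReal.ofReal (rho 0 U w))⁻¹ ∂ν ≤ ENNReal.ofReal N := by
  have key : ∀ l : ℕ, ∀ U : Submodule ℝ V, r ≤ finrank ℝ U →
      ∫⁻ w, (ENNReal.ofReal (rho ((1 / 2) ^ l) U w))⁻¹ ∂μ ≤ ENNReal.ofReal N ∧
      ∫⁻ w, (ENNReal.ofReal (rho ((1 / 2) ^ l) U w))⁻¹ ∂ν ≤ ENNReal.ofReal N := by
    intro l
    induction l with
    | zero =>
      intro U _
      rw [pow_zero]
      exact ⟨one_HiD5 μ hN U, one_HiD5 ν hN U⟩
    | succ l ih =>
      refine hstep _ (by positivity) (pow_le_one₀ (by norm_num) (by norm_num)) fun U hU => ?_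
      rw [pow_succ]
      exact ⟨half_HiD5 μ (by positivity) U (ih U hU).1, half_HiD5 ν (by positivity) U (ih U hU).2⟩
  exact ⟨lim_HiD5 μ U fun l => (key l U hU).1, lim_HiD5 ν U fun l => (key l U hU).2⟩

end Pool.Agent.P.MP_181257_gt
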