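import Pool.Agent.P.MP_181257_gt.HiD3
import Pool.Agent.P.MP_181257_gt.HiD4
import Pool.Agent.P.MP_181257_gt.HiD5
import Pool.Agent.P.MP_181257_gt.HiC4

/-! Negative moments for subspaces. -/

set_option autoImplicit false
set_option linter.unusedSectionVars false
set_option linter.unusedVariables false

open MeasureTheory ProbabilityTheory Module Set Filter Topology
open scoped RealInnerProductSpace ENNReal Pointwise Matrix

noncomputable section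

namespace Pool.Agent.P.MP_181257_gt

variable {V : Type} [NormedAddCommGroup V] [InnerProductSpace ℝ V] [FiniteDimensional ℝ V]
  [MeasurableSpace V] [BorelSpace V]

/-- bound for the negative moment of the regularised determinant -/
def M0_HiD6 (ε : ℝ) : ℝ := (√(8 * (64 / ε ^ 2)) * (8 / ε)) ^ (16 / ε)

/-- bound for the inverse second moment of the relative length -/
def A0_HiD6 (ε : ℝ) : ℝ := 4 * √((4 / ε) ^ 4 * (Km 4 * (3 ^ 16 * M0_HiD6 ε)))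

theorem M0_nonneg_HiD6 {ε : ℝ} (hε : 0 < ε) : 0 ≤ M0_HiD6 ε := by
  unfold M0_HiD6; positivity

theorem A0_nonneg_HiD6 (ε : ℝ) : 0 ≤ A0_HiD6 ε := by
  unfold A0_HiD6; positivity

theorem N_ge_HiD6 {ε : ℝ} (hε : 0 < ε) (hε1 : ε ≤ 1) : 1 ≤ 32 / ε ^ 2 := by
  rw [le_div_iff₀ (by positivity)]; nlinarith

theorem low_HiD6 {i r : ℕ} {μ ν : Measure V} (h : FP i μ ν) (hi : 1 ≤ i)
    (hin : i ≤ finrank ℝ V) {ε : ℝ} (hε : 0 < ε) (hr : 16 ≤ r)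
    (hεr : ε * finrank ℝ V ≤ 2 * r) (hl : ∀ a : V, ‖a‖ = 1 → ε / 4 ≤ Sg μ a a)
    (hbig : 3072 ≤ ε ^ 4 * finrank ℝ V) (U : Submodule ℝ V) (hU : r ≤ finrank ℝ U) :
    ε / 8 * √(finrank ℝ V : ℝ) ≤ ∫ w, ‖pU U w‖ ∂μ := by
  have hn : (0 : ℝ) ≤ finrank ℝ V := Nat.cast_nonneg _
  have h1 : ε ^ 2 * finrank ℝ V / 8 ≤ r * (ε / 4) := by nlinarith
  have h2 : 48 * (finrank ℝ V : ℝ) ≤ (r * (ε / 4)) ^ 2 := by
    have h3 : (ε ^ 2 * finrank ℝ V / 8) ^ 2 ≤ (r * (ε / 4)) ^ 2 :=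
      pow_le_pow_left₀ (by positivity) h1 2
    nlinarith [mul_le_mul_of_nonneg_right hbig hn]
  refine le_trans ?_ (sub_lower h hi hin (by positivity) hl (by omega) h2 U hU)
  have h4 : ε / 4 * √(finrank ℝ V : ℝ) ≤ √(r * (ε / 4) / 2) := by
    refine Real.le_sqrt_of_sq_le ?_
    rw [mul_pow, Real.sq_sqrt hn]
    nlinarith
  linarith

theorem det_HiD6 {i r : ℕ} {μ ν : Measure V} (h : FP i μ ν) (hi : 1 ≤ i)
    (hin : i ≤ finrank ℝ V) {ε : ℝ} (hε : 0 < ε) (hε1 : ε ≤ 1) (hr : 16 ≤ r)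
    (hrq : 2 * r + i ≤ finrank ℝ V + 1)
    (hεr : ε * finrank ℝ V ≤ 2 * r) (hl : ∀ a : V, ‖a‖ = 1 → ε / 4 ≤ Sg μ a a)
    (hbig : 3072 ≤ ε ^ 4 * finrank ℝ V) {δ : ℝ} (h0 : 0 ≤ δ) (h1 : δ ≤ 1)
    (hN : ∀ U : Submodule ℝ V, r ≤ finrank ℝ U →
      ∫⁻ w, (ENNReal.ofReal (rho δ U w))⁻¹ ∂μ ≤ ENNReal.ofReal (4 * (64 / ε ^ 2)))
    (e : Fin r → V) (he : Orthonormal ℝ e) :
    ∫⁻ x, ENNReal.ofReal (Dl δ e x) ^ (-(8 / (r : ℝ))) ∂(Fr i μ)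
      ≤ ENNReal.ofReal (M0_HiD6 ε) := by
  have hn : (0 : ℝ) < finrank ℝ V := by exact_mod_cast (by omega : 0 < finrank ℝ V)
  have hs : 0 < √(finrank ℝ V : ℝ) := Real.sqrt_pos.2 hn
  have hr0 : (0 : ℝ) < r := by exact_mod_cast (by omega : 0 < r)
  have hi2 : Integrable (fun w => ‖w‖ ^ 2) μ := by
    have := integrable_norm_pow_Tn h.mr h.wr 2
    rwa [← h.el] at this
  have h2 : ∫ w, ‖w‖ ^ 2 ∂μ ≤ finrank ℝ V := by
    have := integral_norm_pow_Tn h.mr h.wr (j := 1) le_rfl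
    rw [← h.el, Km_one] at this
    simpa using this
  refine (Dl_moment h.ml h.wl hr hrq h0 h1 (lam := ε / 8 * √(finrank ℝ V : ℝ)) (by positivity)
    (by positivity) hi2 h2 (low_HiD6 h hi hin hε hr hεr hl hbig) hN he).trans
    (ENNReal.ofReal_le_ofReal ?_)
  have e1 : √(2 * finrank ℝ V * (4 * (64 / ε ^ 2))) / (ε / 8 * √(finrank ℝ V : ℝ))
      = √(8 * (64 / ε ^ 2)) * (8 / ε) := by
    rw [show 2 * (finrank ℝ V : ℝ) * (4 * (64 / ε ^ 2)) = finrank ℝ V * (8 * (64 / ε ^ 2)) by ring,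
      Real.sqrt_mul hn.le]
    field_simp
  rw [e1, M0_HiD6]
  have hb1 : 1 ≤ √(8 * (64 / ε ^ 2)) := by
    refine Real.le_sqrt_of_sq_le ?_
    have := N_ge_HiD6 hε hε1
    rw [show 8 * (64 / ε ^ 2) = 16 * (32 / ε ^ 2) by ring]
    linarith
  have hb2 : 1 ≤ 8 / ε := by rw [le_div_iff₀ hε]; linarith
  refine Real.rpow_le_rpow_of_exponent_le (by nlinarith) ?_
  have hin' : (i : ℝ) ≤ finrank ℝ V := by exact_mod_cast hin
  rw [div_le_div_iff₀ hr0 hε]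
  nlinarith

theorem step_HiD6 {i r : ℕ} {μ ν : Measure V} (h : FP i μ ν) (hi : 1 ≤ i)
    (hin : i ≤ finrank ℝ V) {ε : ℝ} (hε : 0 < ε) (hε1 : ε ≤ 1) (hr : 16 ≤ r)
    (hrq : 2 * r + i ≤ finrank ℝ V + 1) (hεr : ε * finrank ℝ V ≤ 2 * r)
    (hl : ∀ a : V, ‖a‖ = 1 → ε / 4 ≤ Sg μ a a) (hl' : ∀ a : V, ‖a‖ = 1 → ε / 4 ≤ Sg ν a a)
    (hbig : 3072 ≤ ε ^ 4 * finrank ℝ V)
    (hbig2 : (1536 / ε ^ 4 + 6) * A0_HiD6 ε ≤ finrank ℝ V) {δ : ℝ} (h0 : 0 ≤ δ) (h1 : δ ≤ 1)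
    (hN : ∀ U : Submodule ℝ V, r ≤ finrank ℝ U →
      ∫⁻ w, (ENNReal.ofReal (rho δ U w))⁻¹ ∂ν ≤ ENNReal.ofReal (4 * (64 / ε ^ 2)))
    (U : Submodule ℝ V) (hU : r ≤ finrank ℝ U) :
    ∫⁻ w, (ENNReal.ofReal (rho δ U w))⁻¹ ∂μ ≤ ENNReal.ofReal (64 / ε ^ 2) := by
  have := h.ml.prob
  have hn : (0 : ℝ) < finrank ℝ V := by exact_mod_cast (by omega : 0 < finrank ℝ V)
  have hr0 : (0 : ℝ) < r := by exact_mod_cast (by omega : 0 < r)
  have hM := M0_nonneg_HiD6 hε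
  have hK := Km_nonneg 4
  have hA := A0_nonneg_HiD6 ε
  have h2 := rho_moment h.mr h.wr hr h0 hM
    (det_HiD6 h.symm hi hin hε hε1 hr hrq hεr hl' hbig h0 h1 hN) U hU
  rw [← h.el] at h2
  have h3 : 4 * √((2 * finrank ℝ V) ^ 4 * Km 4) * √(3 ^ 16 / (r : ℝ) ^ 4 * M0_HiD6 ε)
      ≤ A0_HiD6 ε := by
    rw [A0_HiD6, mul_assoc, ← Real.sqrt_mul (by positivity)]
    refine mul_le_mul_of_nonneg_left (Real.sqrt_le_sqrt ?_) (by norm_num)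
    have h4 : 2 * (finrank ℝ V : ℝ) / r ≤ 4 / ε := by
      rw [div_le_div_iff₀ hr0 hε]; nlinarith
    calc _ = (2 * (finrank ℝ V : ℝ) / r) ^ 4 * (Km 4 * (3 ^ 16 * M0_HiD6 ε)) := by
          rw [div_pow]; ring
      _ ≤ _ := mul_le_mul_of_nonneg_right (pow_le_pow_left₀ (by positivity) h4 4) (by positivity)
  have h5 := rho_small h hi hin (s := ε / 4) (by positivity) hl (by omega) δ U hU
  refine (split_level μ (measurable_rho δ U) (by positivity) (by positivity) hA h5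
    (h2.trans (ENNReal.ofReal_le_ofReal h3))).trans (ENNReal.ofReal_le_ofReal ?_)
  have h6 : ε ^ 2 * finrank ℝ V / 8 ≤ r * (ε / 4) := by nlinarith
  have h7 : 1 / (r * (ε / 4) / (4 * finrank ℝ V)) ≤ 32 / ε ^ 2 := by
    rw [one_div_div, div_le_div_iff₀ (by positivity) (by positivity)]; nlinarith
  have h8 : 24 * (finrank ℝ V : ℝ) / (r * (ε / 4)) ^ 2 ≤ 1536 / ε ^ 4 / finrank ℝ V := by
    calc _ ≤ 24 * (finrank ℝ V : ℝ) / (ε ^ 2 * finrank ℝ V / 8) ^ 2 :=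
          div_le_div_of_nonneg_left (by positivity) (by positivity)
            (pow_le_pow_left₀ (by positivity) h6 2)
      _ = _ := by field_simp; ring
  have h9 : √(24 * (finrank ℝ V : ℝ) / (r * (ε / 4)) ^ 2 + 6 / finrank ℝ V) * √(A0_HiD6 ε)
      ≤ 1 := by
    rw [← Real.sqrt_mul (by positivity)]
    refine Real.sqrt_le_iff.2 ⟨zero_le_one, ?_⟩
    rw [one_pow]
    calc _ ≤ (1536 / ε ^ 4 / finrank ℝ V + 6 / finrank ℝ V) * A0_HiD6 ε :=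
          mul_le_mul_of_nonneg_right (by linarith) hA
      _ = (1536 / ε ^ 4 + 6) * A0_HiD6 ε / finrank ℝ V := by ring
      _ ≤ 1 := (div_le_one hn).2 hbig2
  have h10 := N_ge_HiD6 hε hε1
  rw [show 64 / ε ^ 2 = 32 / ε ^ 2 + 32 / ε ^ 2 by ring]
  linarith

theorem core_HiD6 {i r : ℕ} {μ ν : Measure V} (h : FP i μ ν) (hi : 1 ≤ i)
    (hin : i ≤ finrank ℝ V) {ε : ℝ} (hε : 0 < ε) (hε1 : ε ≤ 1) (hr : 16 ≤ r)
    (hrq : 2 * r + i ≤ finrank ℝ V + 1) (hεr : ε * finrank ℝ V ≤ 2 * r)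
    (hl : ∀ a : V, ‖a‖ = 1 → ε / 4 ≤ Sg μ a a) (hl' : ∀ a : V, ‖a‖ = 1 → ε / 4 ≤ Sg ν a a)
    (hbig : 3072 ≤ ε ^ 4 * finrank ℝ V)
    (hbig2 : (1536 / ε ^ 4 + 6) * A0_HiD6 ε ≤ finrank ℝ V)
    (U : Submodule ℝ V) (hU : r ≤ finrank ℝ U) :
    ∫⁻ w, (ENNReal.ofReal ‖pU U w‖)⁻¹ ^ 8 ∂μ
      ≤ ENNReal.ofReal (3 ^ 16 / (r : ℝ) ^ 4 * M0_HiD6 ε) := by
  have := h.ml.prob
  have := h.mr.prob
  have h10 := N_ge_HiD6 hε hε1
  have hN : 1 ≤ 64 / ε ^ 2 := by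
    rw [show 64 / ε ^ 2 = 32 / ε ^ 2 + 32 / ε ^ 2 by ring]; linarith
  have hd := dyadic (μ := μ) (ν := ν) (r := r) hN fun δ h0 h1 hh W hW =>
    ⟨step_HiD6 h hi hin hε hε1 hr hrq hεr hl hl' hbig hbig2 h0.le h1 (fun X hX => (hh X hX).2) W hW,
      step_HiD6 h.symm hi hin hε hε1 hr hrq hεr hl' hl hbig hbig2 h0.le h1
        (fun X hX => (hh X hX).1) W hW⟩
  have h2 := pU_moment h.mr h.wr hr (M0_nonneg_HiD6 hε)
    (det_HiD6 h.symm hi hin hε hε1 hr hrq hεr hl' hbig le_rfl zero_le_one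
      fun X hX => (hd X hX).2.trans (ENNReal.ofReal_le_ofReal (by linarith))) U hU
  rwa [← h.el] at h2

theorem negsub {ε : ℝ} (hε : 0 < ε) : ∃ c : ℝ, 0 < c ∧ c ≤ 1 ∧ ∃ n₀ : ℕ, ∀ n : ℕ, n₀ ≤ n →
    ∀ (i : ℕ) (μ ν : Measure (En n)), FP i μ ν → 1 ≤ i → (i : ℝ) ≤ (1 - ε) * n →
      Sub i μ (c * √(n : ℝ)) := by
  have hM := M0_nonneg_HiD6 hε
  have hA := A0_nonneg_HiD6 ε
  obtain ⟨X, hX⟩ : ∃ X : ℝ, X = 3 ^ 16 * M0_HiD6 ε * (2 / ε) ^ 4 := ⟨_, rfl⟩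
  have hX0 : 0 ≤ X := by rw [hX]; positivity
  obtain ⟨c, hc⟩ : ∃ c : ℝ, c = min (ε / 8) (1 / (X + 1)) := ⟨_, rfl⟩
  have hc0 : 0 < c := by rw [hc]; positivity
  have hc1 : c ≤ ε / 8 := by rw [hc]; exact min_le_left _ _
  have hc2 : c * (X + 1) ≤ 1 := by
    rw [← le_div_iff₀ (by positivity), hc]; exact min_le_right _ _
  have hc3 : c ≤ 1 := by nlinarith
  obtain ⟨n₁, h₁⟩ := isotropy hε (η := ε / 4) (by positivity)
  obtain ⟨n₂, h₂⟩ := exists_nat_ge (32 / ε + 3072 / ε ^ 4 + (1536 / ε ^ 4 + 6) * A0_HiD6 ε)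
  refine ⟨c, hc0, hc3, max n₁ n₂, fun n hn i μ ν h hi hin => ?_⟩
  have hn1 : n₁ ≤ n := le_trans (le_max_left _ _) hn
  have hn2 : (n₂ : ℝ) ≤ n := by exact_mod_cast le_trans (le_max_right _ _) hn
  have p1 : 0 < 32 / ε := by positivity
  have p2 : 0 < 3072 / ε ^ 4 := by positivity
  have p3 : 0 ≤ (1536 / ε ^ 4 + 6) * A0_HiD6 ε := by positivity
  have q1 : 32 ≤ ε * n := by
    have : 32 / ε ≤ n := by linarith
    rw [div_le_iff₀ hε] at this; linarith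
  have q2 : 3072 ≤ ε ^ 4 * n := by
    have : 3072 / ε ^ 4 ≤ n := by linarith
    rw [div_le_iff₀ (by positivity)] at this; linarith
  have q3 : (1536 / ε ^ 4 + 6) * A0_HiD6 ε ≤ n := by linarith
  have hn0 : (0 : ℝ) < n := by linarith
  have hi' : (1 : ℝ) ≤ i := by exact_mod_cast hi
  have hε1 : ε ≤ 1 := by nlinarith
  have hq : i + 32 ≤ n := by
    have : (i : ℝ) + 32 ≤ n := by nlinarith
    exact_mod_cast this
  have hf : finrank ℝ (En n) = n := by simp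
  obtain ⟨r, hr⟩ : ∃ r : ℕ, r = (n - i + 1) / 2 := ⟨_, rfl⟩
  have hr1 : 16 ≤ r := by omega
  have hr2 : 2 * r + i ≤ finrank ℝ (En n) + 1 := by rw [hf]; omega
  have hr3 : ε * finrank ℝ (En n) ≤ 2 * r := by
    have h3 : n ≤ 2 * r + i := by omega
    have h4 : (n : ℝ) ≤ 2 * r + i := by exact_mod_cast h3
    rw [hf]; nlinarith
  have hiso : ∀ μ' ν' : Measure (En n), FP i μ' ν' → ∀ a : En n, ‖a‖ = 1 →
      ε / 4 ≤ Sg μ' a a := by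
    intro μ' ν' h' a ha
    have h5 := (abs_le.1 (h₁ n hn1 i μ' ν' h' hi hin a ha)).1
    have h6 : ε / 2 ≤ ((n : ℝ) - i - 1) / n := by
      rw [le_div_iff₀ hn0]; nlinarith
    linarith
  have hin' : i ≤ finrank ℝ (En n) := by rw [hf]; omega
  intro U hU
  have hU' : r ≤ finrank ℝ U := by rw [hf] at hU; omega
  have hs : 0 < √(n : ℝ) := Real.sqrt_pos.2 hn0
  refine ⟨?_, ?_⟩
  · have h7 := low_HiD6 h hi hin' hε hr1 hr3 (hiso μ ν h) (by rw [hf]; exact q2) U hU'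
    rw [hf] at h7
    exact le_trans (mul_le_mul_of_nonneg_right hc1 hs.le) h7
  · refine (core_HiD6 h hi hin' hε hε1 hr1 hr2 hr3 (hiso μ ν h) (hiso ν μ h.symm)
      (by rw [hf]; exact q2) (by rw [hf]; exact q3) U hU').trans ?_
    rw [← ENNReal.ofReal_inv_of_pos (by positivity), ← ENNReal.ofReal_pow (by positivity)]
    refine ENNReal.ofReal_le_ofReal ?_
    have hr0 : (0 : ℝ) < r := by exact_mod_cast (by omega : 0 < r)
    have h8 : (n : ℝ) / r ≤ 2 / ε := by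
      rw [hf] at hr3
      rw [div_le_div_iff₀ hr0 hε]; nlinarith
    have h9 : (c * √(n : ℝ)) ^ 8 = c ^ 8 * (n : ℝ) ^ 4 := by
      rw [mul_pow, show (8 : ℕ) = 2 * 4 by rfl, pow_mul (√(n : ℝ)), Real.sq_sqrt hn0.le]
    have h10 : c ^ 8 ≤ c := by
      calc c ^ 8 ≤ c ^ 1 := pow_le_pow_of_le_one hc0.le hc3 (by norm_num)
        _ = c := pow_one c
    rw [inv_pow, h9, ← one_div, le_div_iff₀ (by positivity)]
    calc _ = c ^ 8 * (3 ^ 16 * M0_HiD6 ε * ((n : ℝ) / r) ^ 4) := by rw [div_pow]; ring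
      _ ≤ c * X := by
          rw [hX]
          exact mul_le_mul h10 (mul_le_mul_of_nonneg_left
            (pow_le_pow_left₀ (by positivity) h8 4) (by positivity)) (by positivity) hc0.le
      _ ≤ 1 := by nlinarith

end Pool.Agent.P.MP_181257_gt
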