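import Pool.Agent.P.MP_181257_gt.Main
import Pool.Agent.P.MP_181257_gt.BRS
import Pool.Agent.P.MP_181257_gt.BPG
import Pool.Agent.P.MP_181257_gt.Bridge

/-! Definitions for the range `i ≤ (1 - ε) n`. -/

set_option autoImplicit false
set_option linter.unusedSectionVars false
set_option linter.unusedVariables false

open MeasureTheory ProbabilityTheory Module Set Filter Topology
open scoped RealInnerProductSpace ENNReal Pointwise Matrix

noncomputable section

namespace Pool.Agent.P.MP_181257_gt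

variable {V : Type} [NormedAddCommGroup V] [InnerProductSpace ℝ V] [FiniteDimensional ℝ V]
  [MeasurableSpace V] [BorelSpace V]

/-- Euclidean `n`-space -/
abbrev En (n : ℕ) : Type := EuclideanSpace ℝ (Fin n)

/-- product of `k` copies of a measure -/
abbrev mk (μ : Measure V) (k : ℕ) : Measure (Fin k → V) := Measure.pi fun _ : Fin k => μ

/-- orthogonal projection on a subspace -/
abbrev pU (U : Submodule ℝ V) : V →L[ℝ] V := U.starProjection

/-- the normal space of a family of vectors -/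
def nrm {k : ℕ} (x : Fin k → V) : Submodule ℝ V := (Submodule.span ℝ (range x))ᗮ

/-- total volume weight of the `k`-frames -/
def Wr (k : ℕ) (μ : Measure V) : ℝ := ∫ x, D x ∂(mk μ k)

/-- the frame law -/
def Fr (k : ℕ) (μ : Measure V) : Measure (Fin k → V) :=
  (ENNReal.ofReal (Wr k μ))⁻¹ • (mk μ k).withDensity fun x => ENNReal.ofReal (D x)

/-- the law of a Gaussian vector in the normal space of a random frame -/
def Tn (k : ℕ) (μ : Measure V) : Measure V :=
  ((Fr k μ).prod (stdGaussian V)).map fun p => Pj k p.1 p.2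

/-- probability measures with a first moment -/
structure Mom (μ : Measure V) : Prop where
  prob : IsProbabilityMeasure μ
  int : Integrable (fun x => ‖x‖) μ

/-- a fixed pair -/
structure FP (i : ℕ) (μ ν : Measure V) : Prop where
  ml : Mom μ
  mr : Mom ν
  posl : 0 < Wr (i + 1) μ
  posr : 0 < Wr (i + 1) ν
  el : μ = Tn i ν
  er : ν = Tn i μ

theorem FP.symm {i : ℕ} {μ ν : Measure V} (h : FP i μ ν) : FP i ν μ :=
  ⟨h.mr, h.ml, h.posr, h.posl, h.er, h.el⟩

/-- second moments -/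
def Sg (μ : Measure V) (a b : V) : ℝ := ∫ w, ⟪a, w⟫ * ⟪b, w⟫ ∂μ

/-- mean projection on the normal space -/
def SS (k : ℕ) (μ : Measure V) (a b : V) : ℝ := ∫ x, ⟪Pj k x a, b⟫ ∂(Fr k μ)

/-- mean length of the normal part -/
def th (k : ℕ) (μ : Measure V) (u : V) : ℝ := ∫ x, ‖Pj k x u‖ ∂(Fr k μ)

/-- ratio of consecutive weights -/
def Zq (i : ℕ) (μ : Measure V) : ℝ := Wr (i + 1) μ / Wr i μ

/-- even moments of the standard Gaussian on the line -/
def Km (k : ℕ) : ℝ := ∫ t, t ^ (2 * k) ∂(gaussianReal 0 1)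

/-- regularised relative length of a projection -/
def rho (δ : ℝ) (U : Submodule ℝ V) (w : V) : ℝ := ‖pU U w‖ ^ 2 / ‖w‖ ^ 2 + δ ^ 2

/-- the doubled space -/
abbrev Db (V : Type) : Type := WithLp 2 (V × V)

/-- regularised volume of the projections of `e` on the normal space of `x` -/
def Dl {r k : ℕ} (δ : ℝ) (e : Fin r → V) (x : Fin k → V) : ℝ :=
  D fun l => (WithLp.toLp 2 (Pj k x (e l), δ • e l) : Db V)

/-- second derivative of `u ↦ ‖T u‖` -/
def Phi (T : V →L[ℝ] V) (u a b : V) : ℝ :=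
  ⟪T a, T b⟫ / ‖T u‖ - ⟪T a, T u⟫ * ⟪T b, T u⟫ / ‖T u‖ ^ 3

/-- second derivative of `th i μ` -/
def MK (i : ℕ) (μ : Measure V) (u a b : V) : ℝ := ∫ x, Phi (Pj i x) u a b ∂(Fr i μ)

/-- second moments of a density on the hyperplane orthogonal to `u` -/
def Mf (F : V → ℝ) (u a b : V) : ℝ :=
  ∫ g, ⟪a, pr u g⟫ * ⟪b, pr u g⟫ * F (pr u g) ∂(stdGaussian V)

/-- `i!` times the `i`-th elementary symmetric function of a bilinear form -/
def Ei (i : ℕ) (M : V → V → ℝ) : ℝ :=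
  ∑ l : Fin i → Fin (finrank ℝ V),
    (Matrix.of fun j j' => M (stdOrthonormalBasis ℝ V (l j)) (stdOrthonormalBasis ℝ V (l j'))).det

/-- the squared-volume moment of a density on the hyperplane orthogonal to `y` -/
def Vq (i : ℕ) (F : V → ℝ) (y : V) : ℝ :=
  ∫ x, D (fun j => pr y (x j)) ^ 2 * ∏ j, F (pr y (x j)) ∂(γk V i)

/-- the candidate density -/
def dens (i : ℕ) (μ : Measure V) (y : V) : ℝ := Ei i fun a b => ‖y‖ * MK i μ y a b

/-- bounded nonnegative `0`-homogeneous functions that are Lipschitz on the unit sphere -/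
structure Lf (f : V → ℝ) : Prop where
  meas : Measurable f
  hom : ∀ t : ℝ, 0 < t → ∀ x, f (t • x) = f x
  nonneg : ∀ x, 0 ≤ f x
  bdd : ∃ C, ∀ x, f x ≤ C
  lip : ∃ L, 0 ≤ L ∧ ∀ x y : V, ‖x‖ = 1 → ‖y‖ = 1 → |f x - f y| ≤ L * ‖x - y‖

/-- Fisher information -/
def Jf (f : V → ℝ) : ℝ≥0∞ :=
  ∫⁻ x, ENNReal.ofReal (‖x‖ ^ 2 * ‖fderiv ℝ f x‖ ^ 2 / f x) ∂(stdGaussian V)

/-- rotation by the angle `t` in the plane of the orthonormal pair `y, v` -/
def rot (y v : V) (t : ℝ) (w : V) : V :=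
  w + ⟪y, w⟫ • ((Real.cos t - 1) • y + Real.sin t • v)
    + ⟪v, w⟫ • ((Real.cos t - 1) • v - Real.sin t • y)

/-- inverse fourth moments of the normal part are bounded by `C` -/
def Neg4 (i : ℕ) (μ : Measure V) (C : ℝ) : Prop :=
  ∀ u : V, ‖u‖ = 1 → ∫⁻ x, (ENNReal.ofReal ‖Pj i x u‖)⁻¹ ^ 4 ∂(Fr i μ) ≤ ENNReal.ofReal C

/-- projections on subspaces of codimension at most `i` are not short -/
def Sub (i : ℕ) (μ : Measure V) (lam : ℝ) : Prop :=
  ∀ U : Submodule ℝ V, finrank ℝ V ≤ finrank ℝ U + i →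
    lam ≤ ∫ w, ‖pU U w‖ ∂μ ∧
      ∫⁻ w, (ENNReal.ofReal ‖pU U w‖)⁻¹ ^ 8 ∂μ ≤ (ENNReal.ofReal lam)⁻¹ ^ 8

/-- the sign of a real number -/
def sg (t : ℝ) : ℝ := t / |t|

/-- twice the Gaussian density at the origin -/
def c2 : ℝ := 2 * gaussianPDFReal 0 1 0

/-- the kernel of the mixed volume form for a base measure and densities -/
def omR (ρ : Measure V) {k : ℕ} (T : V →L[ℝ] V) (g : Fin k → V → ℝ) (p : V × V) : ℝ :=
  ∫ y, D (fun j => T ((Fin.cons p.1 (Fin.cons p.2 y : Fin (k + 1) → V) : Fin (k + 2) → V) j))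
    * ∏ j, g j (y j) ∂(mk ρ k)

/-- the kernel of the mixed volume form in the link `U` -/
def omU (μ : Measure V) (k : ℕ) (U : Submodule ℝ V) (p : V × V) : ℝ :=
  ∫ y, D (fun j => pU U ((Fin.cons p.1 (Fin.cons p.2 y : Fin (k + 1) → V) : Fin (k + 2) → V) j))
    ∂(mk μ k)

/-- volume weighted integral in the link `U` -/
def IU (μ : Measure V) (k : ℕ) (U : Submodule ℝ V) (F : (Fin k → V) → ℝ) : ℝ :=
  ∫ x, D (fun j => pU U (x j)) * F x ∂(mk μ k)

/-- `P + d (1 - P)` -/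
def Td (d : ℝ) (P : V →L[ℝ] V) : V →L[ℝ] V := P + d • (ContinuousLinearMap.id ℝ V - P)

/-- unnormalised density of the law of `Td d P g` -/
def Gd (d : ℝ) (P : V →L[ℝ] V) (x : V) : ℝ := Real.exp (-((d⁻¹ ^ 2 - 1) * ‖x - P x‖ ^ 2 / 2))

/-- density of the law of `Td d P g` -/
def Fd (d : ℝ) (P : V →L[ℝ] V) (x : V) : ℝ := Gd d P x / ∫ z, Gd d P z ∂(stdGaussian V)

/-- density of the smoothed measure -/
def Fa (d : ℝ) (i : ℕ) (ν : Measure V) (x : V) : ℝ := ∫ y, Fd d (Pj i y) x ∂(Fr i ν)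

/-- two-sided bound for the second moments on all hyperplanes -/
def Pin (f : V → ℝ) (r R : ℝ) : Prop :=
  ∀ y v : V, ‖y‖ = 1 → ‖v‖ = 1 → ⟪y, v⟫ = 0 → r ≤ Mf f y v v ∧ Mf f y v v ≤ R

end Pool.Agent.P.MP_181257_gt
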