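import Pool.Agent.P.MP_181257_gt.HiFr2

/-! Two mixed moments. -/

set_option autoImplicit false
set_option linter.unusedSectionVars false
set_option linter.unusedVariables false

open MeasureTheory ProbabilityTheory Module Set Filter Topology
open scoped RealInnerProductSpace ENNReal Pointwise Matrix

noncomputable section

namespace Pool.Agent.P.MP_181257_gt

variable {V : Type} [NormedAddCommGroup V] [InnerProductSpace ℝ V] [FiniteDimensional ℝ V]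
  [MeasurableSpace V] [BorelSpace V]

theorem gen_HiE1 {μ : Measure V} {lam K c B : ℝ} (hlam : 0 < lam) (hK : 0 < K) (hc : 0 < c)
    {U : Submodule ℝ V}
    (hU : ∫⁻ w, (ENNReal.ofReal ‖pU U w‖)⁻¹ ^ 8 ∂μ ≤ (ENNReal.ofReal lam)⁻¹ ^ 8)
    {f g : V → ℝ} {p : ℕ} (hf : ∀ w, 0 ≤ f w) (hg0 : ∀ w, 0 ≤ g w) (hg : Integrable g μ)
    (hB : ∫ w, g w ∂μ + c ≤ B)
    (hpt : ∀ w (r : ℝ), 0 < r → ‖w‖ * (f w * r ^ p) ≤ K * (g w + c * lam ^ 8 * r ^ 8)) :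
    ∫⁻ w, ENNReal.ofReal ‖w‖ * (ENNReal.ofReal (f w) * (ENNReal.ofReal ‖pU U w‖)⁻¹ ^ p) ∂μ
      ≤ ENNReal.ofReal (K * B) := by
  have hcl : 0 < c * lam ^ 8 := by positivity
  have h1 : ∀ w, ENNReal.ofReal ‖w‖ * (ENNReal.ofReal (f w) * (ENNReal.ofReal ‖pU U w‖)⁻¹ ^ p)
      ≤ ENNReal.ofReal K * (ENNReal.ofReal (g w)
        + ENNReal.ofReal (c * lam ^ 8) * (ENNReal.ofReal ‖pU U w‖)⁻¹ ^ 8) := by
    intro w
    rcases (norm_nonneg (pU U w)).eq_or_lt with h0 | h0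
    · have e : ENNReal.ofReal K * (ENNReal.ofReal (g w)
          + ENNReal.ofReal (c * lam ^ 8) * (ENNReal.ofReal ‖pU U w‖)⁻¹ ^ 8) = ⊤ := by
        rw [← h0, ENNReal.ofReal_zero, ENNReal.inv_zero, ENNReal.top_pow (by norm_num),
          ENNReal.mul_top (ENNReal.ofReal_pos.2 hcl).ne', add_top,
          ENNReal.mul_top (ENNReal.ofReal_pos.2 hK).ne']
      rw [e]
      exact le_top
    · have hr : 0 < ‖pU U w‖⁻¹ := inv_pos.2 h0
      rw [← ENNReal.ofReal_inv_of_pos h0, ← ENNReal.ofReal_pow hr.le, ← ENNReal.ofReal_pow hr.le,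
        ← ENNReal.ofReal_mul (hf w), ← ENNReal.ofReal_mul (norm_nonneg w),
        ← ENNReal.ofReal_mul hcl.le, ← ENNReal.ofReal_add (hg0 w) (by positivity),
        ← ENNReal.ofReal_mul hK.le]
      exact ENNReal.ofReal_le_ofReal (hpt w _ hr)
  refine (lintegral_mono h1).trans ?_
  have hI : 0 ≤ ∫ w, g w ∂μ := integral_nonneg hg0
  rw [lintegral_const_mul' _ _ ENNReal.ofReal_ne_top,
    lintegral_add_left' hg.aemeasurable.ennreal_ofReal,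
    lintegral_const_mul' _ _ ENNReal.ofReal_ne_top,
    ← ofReal_integral_eq_lintegral_ofReal hg (ae_of_all _ hg0), ENNReal.ofReal_mul hK.le]
  refine mul_le_mul_right ?_ _
  have h2 : ENNReal.ofReal (c * lam ^ 8) * ∫⁻ w, (ENNReal.ofReal ‖pU U w‖)⁻¹ ^ 8 ∂μ
      ≤ ENNReal.ofReal c := by
    refine (mul_le_mul_right hU _).trans (le_of_eq ?_)
    rw [← ENNReal.ofReal_inv_of_pos hlam, ← ENNReal.ofReal_pow (inv_pos.2 hlam).le,
      ← ENNReal.ofReal_mul hcl.le]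
    congr 1
    field_simp
  refine (add_le_add_right h2 _).trans ?_
  rw [← ENNReal.ofReal_add hI hc.le]
  exact ENNReal.ofReal_le_ofReal hB

theorem young_HiE1 (X Y Z : ℝ) : X * (Y * Z) ≤ X ^ 2 / 2 + Y ^ 4 / 4 + Z ^ 4 / 4 := by
  nlinarith [sq_nonneg (X - Y * Z), sq_nonneg (Y ^ 2 - Z ^ 2)]

theorem mom_a {i : ℕ} {μ ν : Measure V} (h : FP i μ ν) (hn : 1 ≤ finrank ℝ V) {lam : ℝ}
    (hlam : 0 < lam) {U : Submodule ℝ V}
    (hU : ∫⁻ w, (ENNReal.ofReal ‖pU U w‖)⁻¹ ^ 8 ∂μ ≤ (ENNReal.ofReal lam)⁻¹ ^ 8) {l : V}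
    (hl : ‖l‖ ≤ 1) :
    ∫⁻ w, ENNReal.ofReal ‖w‖ * (ENNReal.ofReal (⟪l, w⟫ ^ 2) * (ENNReal.ofReal ‖pU U w‖)⁻¹ ^ 2) ∂μ
      ≤ ENNReal.ofReal (√(finrank ℝ V : ℝ) / lam ^ 2 * (1 + Km 4)) := by
  have hn' : (0 : ℝ) < finrank ℝ V := by exact_mod_cast hn
  have hs : 0 < √(finrank ℝ V : ℝ) := Real.sqrt_pos.2 hn'
  have hs2 : √(finrank ℝ V : ℝ) ^ 2 = finrank ℝ V := Real.sq_sqrt hn'.le
  have I1 := integrable_norm_pow_Tn h.mr h.wr 2
  have I2 := integrable_inner_pow_Tn h.mr h.wr l 8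
  have E1 := integral_norm_pow_Tn h.mr h.wr (j := 1) le_rfl
  have E2 := integral_inner_pow_Tn h.mr h.wr l 4
  rw [← h.el] at I1 I2 E1 E2
  have hK := Km_nonneg 4
  refine gen_HiE1 (c := 1 / 4) hlam (by positivity) (by norm_num) hU
    (f := fun w => ⟪l, w⟫ ^ 2)
    (g := fun w => ‖w‖ ^ 2 / (2 * finrank ℝ V) + ⟪l, w⟫ ^ 8 / 4)
    (fun w => by positivity) (fun w => by positivity) ((I1.div_const _).add (I2.div_const _)) ?_ ?_
  · rw [integral_add (I1.div_const _) (I2.div_const _), integral_div, integral_div]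
    have h1 : (∫ w, ‖w‖ ^ 2 ∂μ) / (2 * finrank ℝ V) ≤ 1 / 2 := by
      rw [div_le_iff₀ (by positivity)]
      rw [Km_one] at E1
      norm_num at E1
      linarith
    have h2 : ∫ w, ⟪l, w⟫ ^ 8 ∂μ ≤ Km 4 :=
      E2.trans (mul_le_of_le_one_right hK (pow_le_one₀ (norm_nonneg _) hl))
    linarith
  · intro w r hr
    have h1 := young_HiE1 (‖w‖ / √(finrank ℝ V : ℝ)) (⟪l, w⟫ ^ 2) ((lam * r) ^ 2)
    have h2 := mul_le_mul_of_nonneg_left h1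
      (by positivity : 0 ≤ √(finrank ℝ V : ℝ) / lam ^ 2)
    rw [div_pow, hs2] at h2
    calc _ = √(finrank ℝ V : ℝ) / lam ^ 2 *
          (‖w‖ / √(finrank ℝ V : ℝ) * (⟪l, w⟫ ^ 2 * (lam * r) ^ 2)) := by field_simp
      _ ≤ _ := h2
      _ = _ := by
        congr 1
        field_simp


theorem mom_b {i : ℕ} {μ ν : Measure V} (h : FP i μ ν) (hn : 1 ≤ finrank ℝ V) {lam : ℝ}
    (hlam : 0 < lam) {U : Submodule ℝ V}
    (hU : ∫⁻ w, (ENNReal.ofReal ‖pU U w‖)⁻¹ ^ 8 ∂μ ≤ (ENNReal.ofReal lam)⁻¹ ^ 8) {l : V}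
    (hl : ‖l‖ ≤ 1) :
    ∫⁻ w, ENNReal.ofReal ‖w‖ * (ENNReal.ofReal (⟪l, w⟫ ^ 4) * (ENNReal.ofReal ‖pU U w‖)⁻¹ ^ 4) ∂μ
      ≤ ENNReal.ofReal (√(finrank ℝ V : ℝ) / lam ^ 4 * (2 + Km 8)) := by
  have hn' : (0 : ℝ) < finrank ℝ V := by exact_mod_cast hn
  have hs : 0 < √(finrank ℝ V : ℝ) := Real.sqrt_pos.2 hn'
  have hs2 : √(finrank ℝ V : ℝ) ^ 2 = finrank ℝ V := Real.sq_sqrt hn'.le
  have I1 := integrable_norm_pow_Tn h.mr h.wr 4
  have I2 := integrable_inner_pow_Tn h.mr h.wr l 16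
  have E1 := integral_norm_pow_Tn h.mr h.wr (j := 2) (by norm_num)
  have E2 := integral_inner_pow_Tn h.mr h.wr l 8
  rw [← h.el] at I1 I2 E1 E2
  have hK := Km_nonneg 8
  refine gen_HiE1 (c := 1 / 2) hlam (by positivity) (by norm_num) hU
    (f := fun w => ⟪l, w⟫ ^ 4)
    (g := fun w => ‖w‖ ^ 4 / (4 * (finrank ℝ V : ℝ) ^ 2) + ⟪l, w⟫ ^ 16 / 4)
    (fun w => by positivity) (fun w => by positivity) ((I1.div_const _).add (I2.div_const _)) ?_ ?_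
  · rw [integral_add (I1.div_const _) (I2.div_const _), integral_div, integral_div]
    have h1 : (∫ w, ‖w‖ ^ 4 ∂μ) / (4 * (finrank ℝ V : ℝ) ^ 2) ≤ 3 / 4 := by
      rw [div_le_iff₀ (by positivity)]
      rw [Km_two] at E1
      norm_num at E1
      linarith
    have h2 : ∫ w, ⟪l, w⟫ ^ 16 ∂μ ≤ Km 8 :=
      E2.trans (mul_le_of_le_one_right hK (pow_le_one₀ (norm_nonneg _) hl))
    linarith
  · intro w r hr
    have h1 := young_HiE1 ((lam * r) ^ 4) (‖w‖ / √(finrank ℝ V : ℝ)) (⟪l, w⟫ ^ 4)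
    have h2 := mul_le_mul_of_nonneg_left h1
      (by positivity : 0 ≤ √(finrank ℝ V : ℝ) / lam ^ 4)
    have hs4 : √(finrank ℝ V : ℝ) ^ 4 = (finrank ℝ V : ℝ) ^ 2 := by
      rw [show (4 : ℕ) = 2 * 2 from rfl, pow_mul, hs2]
    rw [div_pow, hs4] at h2
    calc _ = √(finrank ℝ V : ℝ) / lam ^ 4 *
          ((lam * r) ^ 4 * (‖w‖ / √(finrank ℝ V : ℝ) * ⟪l, w⟫ ^ 4)) := by field_simp
      _ ≤ _ := h2
      _ = _ := by
        congr 1
        field_simp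
        ring

end Pool.Agent.P.MP_181257_gt
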