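import Pool.Agent.P.MP_181257_gt.HiE1
import Pool.Agent.P.MP_181257_gt.HiD1

/-! Negative moments of the normal part of a fixed vector. -/

set_option autoImplicit false
set_option linter.unusedSectionVars false
set_option linter.unusedVariables false

open MeasureTheory ProbabilityTheory Module Set Filter Topology
open scoped RealInnerProductSpace ENNReal Pointwise Matrix

noncomputable section

namespace Pool.Agent.P.MP_181257_gt

variable {V : Type} [NormedAddCommGroup V] [InnerProductSpace ℝ V] [FiniteDimensional ℝ V]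
  [MeasurableSpace V] [BorelSpace V]

theorem point_HiE2 {k : ℕ} (x : Fin k → V) (u a : V) (hp : Pj k x u ≠ 0)
    (ha : Pj (k + 1) (Fin.cons u x : Fin (k + 1) → V) a ≠ 0) {t : ℝ} (ht0 : 0 ≤ t)
    (ht : t ≤ ‖a‖) :
    ENNReal.ofReal t * (ENNReal.ofReal ‖Pj (k + 1) (Fin.cons a x : Fin (k + 1) → V) u‖)⁻¹ ^ 4
      ≤ (ENNReal.ofReal ‖Pj k x u‖)⁻¹ ^ 4 * (ENNReal.ofReal t
        + 2 * (ENNReal.ofReal ‖a‖ * (ENNReal.ofReal (⟪‖Pj k x u‖⁻¹ • Pj k x u, a⟫ ^ 2)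
          * (ENNReal.ofReal ‖Pj (k + 1) (Fin.cons u x : Fin (k + 1) → V) a‖)⁻¹ ^ 2))
        + ENNReal.ofReal ‖a‖ * (ENNReal.ofReal (⟪‖Pj k x u‖⁻¹ • Pj k x u, a⟫ ^ 4)
          * (ENNReal.ofReal ‖Pj (k + 1) (Fin.cons u x : Fin (k + 1) → V) a‖)⁻¹ ^ 4)) := by
  have h1 := norm_Pj_swap a u x
  have h2 := norm_sq_Pj_cons u x a
  have hP : 0 < ‖Pj k x u‖ := norm_pos_iff.2 hp
  have hQ : 0 < ‖Pj (k + 1) (Fin.cons u x : Fin (k + 1) → V) a‖ := norm_pos_iff.2 ha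
  rw [real_inner_smul_left]
  have hN0 := norm_nonneg (Pj (k + 1) (Fin.cons a x : Fin (k + 1) → V) u)
  have hA0 := norm_nonneg (Pj k x a)
  have ha0 := norm_nonneg a
  generalize ‖Pj (k + 1) (Fin.cons a x : Fin (k + 1) → V) u‖ = N at *
  generalize ‖Pj (k + 1) (Fin.cons u x : Fin (k + 1) → V) a‖ = Q at *
  generalize ‖Pj k x a‖ = A at *
  generalize ⟪Pj k x u, a⟫ = w at *
  generalize ‖Pj k x u‖ = P at *
  generalize ‖a‖ = s at *
  have hNA : 0 < N * A := h1 ▸ mul_pos hP hQ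
  have hN : 0 < N := lt_of_le_of_ne hN0 (by rintro rfl; simp at hNA)
  have hA : 0 < A := lt_of_le_of_ne hA0 (by rintro rfl; simp at hNA)
  have e1 : N⁻¹ = P⁻¹ * (A * Q⁻¹) := by
    field_simp
    linarith
  have e2 : (A * Q⁻¹) ^ 2 = 1 + (P⁻¹ * w) ^ 2 * Q⁻¹ ^ 2 := by
    have : A ^ 2 = Q ^ 2 + w ^ 2 / P ^ 2 := by linarith
    rw [mul_pow, this]
    field_simp
  have two : (2 : ℝ≥0∞) = ENNReal.ofReal 2 := by simp
  rw [← ENNReal.ofReal_inv_of_pos hN, ← ENNReal.ofReal_inv_of_pos hP,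
    ← ENNReal.ofReal_inv_of_pos hQ, two]
  simp only [← ENNReal.ofReal_pow (inv_nonneg.2 hN.le), ← ENNReal.ofReal_pow (inv_nonneg.2 hP.le),
    ← ENNReal.ofReal_pow (inv_nonneg.2 hQ.le)]
  rw [← ENNReal.ofReal_mul ht0, ← ENNReal.ofReal_mul (sq_nonneg _),
    ← ENNReal.ofReal_mul (p := (P⁻¹ * w) ^ 4) (by positivity), ← ENNReal.ofReal_mul ha0,
    ← ENNReal.ofReal_mul ha0, ← ENNReal.ofReal_mul (by norm_num : (0 : ℝ) ≤ 2),
    ← ENNReal.ofReal_add ht0 (by positivity), ← ENNReal.ofReal_add (by positivity) (by positivity),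
    ← ENNReal.ofReal_mul (by positivity)]
  refine ENNReal.ofReal_le_ofReal ?_
  have e3 : t * N⁻¹ ^ 4 = P⁻¹ ^ 4 * (t * ((A * Q⁻¹) ^ 2) ^ 2) := by rw [e1]; ring
  rw [e3, e2]
  refine mul_le_mul_of_nonneg_left ?_ (by positivity)
  have e4 : (P⁻¹ * w) ^ 4 * Q⁻¹ ^ 4 = ((P⁻¹ * w) ^ 2 * Q⁻¹ ^ 2) ^ 2 := by ring
  rw [e4]
  have hy : 0 ≤ (P⁻¹ * w) ^ 2 * Q⁻¹ ^ 2 := by positivity
  generalize (P⁻¹ * w) ^ 2 * Q⁻¹ ^ 2 = y at *
  nlinarith [mul_le_mul_of_nonneg_right ht hy, mul_le_mul_of_nonneg_right ht (sq_nonneg y)]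

theorem arith_HiE2 {n c K4 K8 : ℝ} (hn : 1 ≤ n) (hc : 0 < c) (hc1 : c ≤ 1) (h4 : 0 ≤ K4)
    (h8 : 0 ≤ K8) :
    2 * (√n / (c * √n) ^ 2 * (1 + K4)) + √n / (c * √n) ^ 4 * (2 + K8)
      ≤ (4 + 2 * K4 + K8) / c ^ 5 / n * (c * √n) := by
  have hn0 : 0 < n := by linarith
  have hs : √n ^ 2 = n := Real.sq_sqrt hn0.le
  have hs0 : 0 < √n := Real.sqrt_pos.2 hn0
  have e1 : (c * √n) ^ 2 = c ^ 2 * n := by rw [mul_pow, hs]
  have e2 : (c * √n) ^ 4 = c ^ 4 * n ^ 2 := by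
    rw [show (c * √n) ^ 4 = ((c * √n) ^ 2) ^ 2 by ring, e1]; ring
  rw [e1, e2]
  have k1 : √n / (c ^ 2 * n) ≤ √n / (c ^ 4 * n) := by
    refine div_le_div_of_nonneg_left hs0.le (by positivity) ?_
    refine mul_le_mul_of_nonneg_right ?_ hn0.le
    exact pow_le_pow_of_le_one hc.le hc1 (by norm_num)
  have k2 : √n / (c ^ 4 * n ^ 2) ≤ √n / (c ^ 4 * n) := by
    refine div_le_div_of_nonneg_left hs0.le (by positivity) ?_
    refine mul_le_mul_of_nonneg_left (by nlinarith) (by positivity)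
  have e3 : (4 + 2 * K4 + K8) / c ^ 5 / n * (c * √n)
      = 2 * (√n / (c ^ 4 * n) * (1 + K4)) + √n / (c ^ 4 * n) * (2 + K8) := by
    field_simp
    ring
  rw [e3]
  have k3 := mul_le_mul_of_nonneg_right k1 (by linarith : 0 ≤ 1 + K4)
  have k4 := mul_le_mul_of_nonneg_right k2 (by linarith : 0 ≤ 2 + K8)
  linarith

theorem neg4 {i : ℕ} {μ ν : Measure V} (h : FP i μ ν) (hin : i + 1 ≤ finrank ℝ V) {c : ℝ}
    (hc : 0 < c) (hc1 : c ≤ 1) (hS : Sub i μ (c * √(finrank ℝ V : ℝ))) :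
    Neg4 i μ (Real.exp ((4 + 2 * Km 4 + Km 8) / c ^ 5)) := by
  intro u hu
  set n := finrank ℝ V with hn
  set κ := (4 + 2 * Km 4 + Km 8) / c ^ 5 with hκ
  have hn1 : 1 ≤ n := by omega
  have hn1' : (1 : ℝ) ≤ n := by exact_mod_cast hn1
  have h4 := Km_nonneg 4
  have h8 := Km_nonneg 8
  have hκ0 : 0 ≤ κ := by positivity
  have hlam : 0 < c * √(n : ℝ) := mul_pos hc (Real.sqrt_pos.2 (by linarith))
  have key := peel_Fr h.ml (d := n - i) (K := i) (by omega) (Wr_pos_of_succ h.ml h.posl)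
    (B := ENNReal.ofReal (1 + κ / n)) (fun k x => (ENNReal.ofReal ‖Pj k x u‖)⁻¹ ^ 4)
    (fun k => ((measurable_Pj k measurable_id measurable_const).norm.ennreal_ofReal.inv).pow_const 4)
    (fun x => by simp [Pj, hu]) ?_
  · refine key.trans ?_
    rw [← ENNReal.ofReal_pow (by positivity)]
    refine ENNReal.ofReal_le_ofReal ?_
    calc (1 + κ / n) ^ i ≤ Real.exp (κ / n) ^ i :=
          pow_le_pow_left₀ (by positivity) (by linarith [Real.add_one_le_exp (κ / n)]) i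
      _ = Real.exp (i * (κ / n)) := (Real.exp_nat_mul _ _).symm
      _ ≤ Real.exp κ := by
          refine Real.exp_le_exp.2 ?_
          have : (i : ℝ) ≤ n := by exact_mod_cast (by omega : i ≤ n)
          calc (i : ℝ) * (κ / n) ≤ n * (κ / n) := mul_le_mul_of_nonneg_right this (by positivity)
            _ = κ := by field_simp
  intro k hk x U hU
  have hmU : Measurable fun a : V => ENNReal.ofReal ‖pU U a‖ :=
    (pU U).continuous.measurable.norm.ennreal_ofReal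
  have hI : ENNReal.ofReal (c * √(n : ℝ)) ≤ ∫⁻ a, ENNReal.ofReal ‖pU U a‖ ∂μ := by
    rw [← ofReal_integral_eq_lintegral_ofReal
      (h.ml.int.mono' (pU U).continuous.norm.aestronglyMeasurable
        (ae_of_all _ fun a => by rw [norm_norm]; exact norm_pU_le U a))
      (ae_of_all _ fun a => norm_nonneg _)]
    exact ENNReal.ofReal_le_ofReal (hS U (by omega)).1
  by_cases hp : Pj k x u = 0
  · have h1 : ENNReal.ofReal (1 + κ / n) ≠ 0 := (ENNReal.ofReal_pos.2 (by positivity)).ne'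
    have h2 : ∫⁻ a, ENNReal.ofReal ‖pU U a‖ ∂μ ≠ 0 :=
      ((ENNReal.ofReal_pos.2 hlam).trans_le hI).ne'
    simp only [hp, norm_zero, ENNReal.ofReal_zero, ENNReal.inv_zero]
    rw [ENNReal.top_pow (by norm_num), ENNReal.mul_top h1, ENNReal.top_mul h2]
    exact le_top
  have hU2 := (hS (nrm (Fin.cons u x : Fin (k + 1) → V))
    (by have := finrank_nrm_ge (Fin.cons u x : Fin (k + 1) → V); omega)).2
  have hl : ‖‖Pj k x u‖⁻¹ • Pj k x u‖ ≤ 1 := by
    rw [norm_smul, norm_inv, norm_norm, inv_mul_cancel₀ (norm_ne_zero_iff.2 hp)]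
  have ka := mom_a h hn1 hlam hU2 hl
  have kb := mom_b h hn1 hlam hU2 hl
  rw [← Pj_eq] at hU2 ka kb
  have hm2 : Measurable fun a : V =>
      (ENNReal.ofReal ‖Pj (k + 1) (Fin.cons u x : Fin (k + 1) → V) a‖)⁻¹ :=
    (Pj (k + 1) (Fin.cons u x : Fin (k + 1) → V)).continuous.measurable.norm.ennreal_ofReal.inv
  have hae : ∀ᵐ a ∂μ, Pj (k + 1) (Fin.cons u x : Fin (k + 1) → V) a ≠ 0 := by
    have := ae_lt_top (hm2.pow_const 8) (ne_top_of_le_ne_top
      (ENNReal.pow_ne_top (ENNReal.inv_ne_top.2 (ENNReal.ofReal_pos.2 hlam).ne')) hU2)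
    filter_upwards [this] with a ha h0
    simp [h0] at ha
  have hin : Measurable fun a : V => ⟪‖Pj k x u‖⁻¹ • Pj k x u, a⟫ := by fun_prop
  have hma : Measurable fun a : V => ENNReal.ofReal ‖pU U a‖ + 2 * (ENNReal.ofReal ‖a‖ *
      (ENNReal.ofReal (⟪‖Pj k x u‖⁻¹ • Pj k x u, a⟫ ^ 2) *
        (ENNReal.ofReal ‖Pj (k + 1) (Fin.cons u x : Fin (k + 1) → V) a‖)⁻¹ ^ 2)) :=
    hmU.add ((measurable_norm.ennreal_ofReal.mul
      ((hin.pow_const 2).ennreal_ofReal.mul (hm2.pow_const 2))).const_mul 2)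
  have hfin : (ENNReal.ofReal ‖Pj k x u‖)⁻¹ ^ 4 ≠ ∞ :=
    ENNReal.pow_ne_top (ENNReal.inv_ne_top.2 (ENNReal.ofReal_pos.2 (norm_pos_iff.2 hp)).ne')
  refine (lintegral_mono_ae (hae.mono fun a ha =>
    point_HiE2 x u a hp ha (norm_nonneg _) (norm_pU_le U a))).trans ?_
  rw [lintegral_const_mul' _ _ hfin, lintegral_add_left hma,
    lintegral_add_left hmU, lintegral_const_mul' _ _ (by simp), mul_comm (ENNReal.ofReal (1 + κ / n)),
    mul_assoc]
  refine mul_le_mul_right ?_ _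
  rw [ENNReal.ofReal_add zero_le_one (by positivity), ENNReal.ofReal_one, add_mul, one_mul,
    add_assoc]
  refine add_le_add_right ?_ _
  refine (add_le_add (mul_le_mul_right ka 2) kb).trans ?_
  refine le_trans ?_ (mul_le_mul_right hI _)
  have two : (2 : ℝ≥0∞) = ENNReal.ofReal 2 := by simp
  rw [two, ← ENNReal.ofReal_mul (by norm_num : (0 : ℝ) ≤ 2),
    ← ENNReal.ofReal_add (by positivity) (by positivity), ← ENNReal.ofReal_mul (by positivity)]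
  exact ENNReal.ofReal_le_ofReal (arith_HiE2 hn1' hc hc1 h4 h8)

end Pool.Agent.P.MP_181257_gt
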