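import Pool.Agent.P.MP_181257_gt.HiE1
import Pool.Agent.P.MP_181257_gt.HiA4

/-! Concentration of the normal part of a fixed vector. -/

set_option autoImplicit false
set_option linter.unusedSectionVars false
set_option linter.unusedVariables false

open MeasureTheory ProbabilityTheory Module Set Filter Topology
open scoped RealInnerProductSpace ENNReal Pointwise Matrix

noncomputable section

namespace Pool.Agent.P.MP_181257_gt

variable {V : Type} [NormedAddCommGroup V] [InnerProductSpace ℝ V] [FiniteDimensional ℝ V]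
  [MeasurableSpace V] [BorelSpace V]

theorem meas_HiE3 (k : ℕ) (u : V) : Measurable fun x : Fin k → V => ‖Pj k x u‖ ^ 2 :=
  ((measurable_Pj k measurable_id measurable_const).norm).pow_const 2

theorem bd_HiE3 (k : ℕ) {u : V} (hu : ‖u‖ = 1) : Bd fun x : Fin k → V => ‖Pj k x u‖ ^ 2 := by
  refine ⟨meas_HiE3 k u, 1, fun x => ?_⟩
  have h1 := norm_Pj_le x u
  rw [hu] at h1
  rw [abs_of_nonneg (sq_nonneg _)]
  exact pow_le_one₀ (norm_nonneg _) h1

theorem point_HiE3 {k : ℕ} (x : Fin k → V) (a u : V) :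
    ENNReal.ofReal ‖Pj k x a‖ * ENNReal.ofReal
      ((‖Pj (k + 1) (Fin.cons a x : Fin (k + 1) → V) u‖ ^ 2 - ‖Pj k x u‖ ^ 2) ^ 2)
      ≤ ENNReal.ofReal ‖a‖ * (ENNReal.ofReal (⟪Pj k x u, a⟫ ^ 4)
        * (ENNReal.ofReal ‖pU (nrm x) a‖)⁻¹ ^ 4) := by
  rw [← Pj_eq]
  rcases (norm_nonneg (Pj k x a)).eq_or_lt with h0 | h0
  · rw [← h0]
    simp
  · refine mul_le_mul' (ENNReal.ofReal_le_ofReal (norm_Pj_le x a)) (le_of_eq ?_)
    rw [← ENNReal.ofReal_inv_of_pos h0, ← ENNReal.ofReal_pow (inv_nonneg.mpr h0.le),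
      ← ENNReal.ofReal_mul (by positivity), norm_sq_Pj_cons]
    have h1 : ⟪Pj k x a, u⟫ = ⟪Pj k x u, a⟫ := by
      rw [inner_Pj_comm, real_inner_comm]
    rw [h1]
    congr 1
    field_simp
    ring

theorem Zq_ge_HiE3 {k : ℕ} {μ : Measure V} (hμ : Mom μ) (h : 0 < Wr k μ) {lam : ℝ}
    (hS : Sub (k + 1) μ lam) : lam ≤ Zq k μ := by
  have := hμ.prob
  have := Fr_prob hμ h
  have hi := integrable_norm_Pj_prod hμ h
  rw [Zq_eq hμ h, integral_prod _ hi]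
  have h1 : ∫ _x, lam ∂(Fr k μ) = lam := by simp
  rw [← h1]
  refine integral_mono (integrable_const _) hi.integral_prod_left fun x => ?_
  have h2 := (hS (nrm x) (by have := finrank_nrm_ge x; omega)).1
  simp only [Pj_eq]
  exact h2

theorem var_point {i : ℕ} {μ ν : Measure V} (h : FP i μ ν) (hi : 1 ≤ i)
    (hin : i + 1 ≤ finrank ℝ V) {c : ℝ} (hc : 0 < c) (hS : Sub i μ (c * √(finrank ℝ V : ℝ)))
    {u : V} (hu : ‖u‖ = 1) :
    ∫ x, (‖Pj i x u‖ ^ 2 - Sg ν u u) ^ 2 ∂(Fr i μ) ≤ (2 + Km 8) / (c ^ 5 * finrank ℝ V) := by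
  obtain ⟨k, rfl⟩ : ∃ k, i = k + 1 := ⟨i - 1, by omega⟩
  have hw := h.wl
  have hw' := Wr_pos_of_succ h.ml hw
  have := h.ml.prob
  have := Fr_prob h.ml hw
  have := Fr_prob h.ml hw'
  have hn : (0 : ℝ) < finrank ℝ V := by
    have : 0 < finrank ℝ V := by omega
    exact_mod_cast this
  set s : ℝ := √(finrank ℝ V : ℝ) with hs
  have hs0 : 0 < s := Real.sqrt_pos.mpr hn
  have hs2 : s ^ 2 = finrank ℝ V := Real.sq_sqrt hn.le
  have hlam : 0 < c * s := mul_pos hc hs0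
  have hK : 0 ≤ 2 + Km 8 := by have := Km_nonneg 8; linarith
  have hmean : Sg ν u u = ∫ y, ‖Pj (k + 1) y u‖ ^ 2 ∂(Fr (k + 1) μ) := by
    have := Sg_Tn h.ml hw u u
    rw [← h.er] at this
    rw [this, SS_self]
  have hes := efron_stein h.ml hw (bd_HiE3 (k + 1) hu)
    (fun σ x => by simp only [Pj_perm]) (bd_HiE3 k hu)
  have htail : Measurable fun x : Fin (k + 1) → V => (Fin.tail x : Fin k → V) :=
    measurable_pi_lambda _ fun j => measurable_pi_apply _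
  have hm : Measurable fun x : Fin (k + 1) → V =>
      (‖Pj (k + 1) x u‖ ^ 2 - ‖Pj k (Fin.tail x) u‖ ^ 2) ^ 2 :=
    ((meas_HiE3 (k + 1) u).sub ((meas_HiE3 k u).comp htail)).pow_const 2
  have hL : ∫⁻ x, ENNReal.ofReal ((‖Pj (k + 1) x u‖ ^ 2 - ‖Pj k (Fin.tail x) u‖ ^ 2) ^ 2)
      ∂(Fr (k + 1) μ) ≤ ENNReal.ofReal ((c * s)⁻¹ * (s / (c * s) ^ 4 * (2 + Km 8))) := by
    rw [lintegral_Fr_succ h.ml hw hm.ennreal_ofReal,
      ENNReal.ofReal_mul (inv_nonneg.mpr hlam.le), ENNReal.ofReal_inv_of_pos hlam]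
    refine mul_le_mul' (ENNReal.inv_le_inv.mpr
      (ENNReal.ofReal_le_ofReal (Zq_ge_HiE3 h.ml hw' hS))) ?_
    have h1 : ∫⁻ _x, ENNReal.ofReal (s / (c * s) ^ 4 * (2 + Km 8)) ∂(Fr k μ)
        = ENNReal.ofReal (s / (c * s) ^ 4 * (2 + Km 8)) := by simp
    rw [← h1]
    refine lintegral_mono fun x => ?_
    have h2 := (hS (nrm x) (by have := finrank_nrm_ge x; omega)).2
    have h3 : ‖Pj k x u‖ ≤ 1 := by
      have := norm_Pj_le x u
      rwa [hu] at this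
    refine le_trans (lintegral_mono fun a => ?_) (mom_b h (by omega) hlam h2 h3)
    simp only [Fin.tail_cons]
    exact point_HiE3 x a u
  have hR : ∫ x, (‖Pj (k + 1) x u‖ ^ 2 - ‖Pj k (Fin.tail x) u‖ ^ 2) ^ 2 ∂(Fr (k + 1) μ)
      ≤ (c * s)⁻¹ * (s / (c * s) ^ 4 * (2 + Km 8)) := by
    rw [integral_eq_lintegral_of_nonneg_ae (ae_of_all _ fun x => sq_nonneg _)
      hm.aestronglyMeasurable]
    exact ENNReal.toReal_le_of_le_ofReal (by positivity) hL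
  rw [hmean]
  refine hes.trans ?_
  have hk : (k + 1 : ℝ) ≤ s ^ 2 := by
    rw [hs2]
    have : k + 1 ≤ finrank ℝ V := by omega
    exact_mod_cast this
  have hB : 0 ≤ (c * s)⁻¹ * (s / (c * s) ^ 4 * (2 + Km 8)) := by positivity
  calc (k + 1 : ℝ) * ∫ x, (‖Pj (k + 1) x u‖ ^ 2 - ‖Pj k (Fin.tail x) u‖ ^ 2) ^ 2 ∂(Fr (k + 1) μ)
      ≤ (k + 1 : ℝ) * ((c * s)⁻¹ * (s / (c * s) ^ 4 * (2 + Km 8))) :=
        mul_le_mul_of_nonneg_left hR (by positivity)
    _ ≤ s ^ 2 * ((c * s)⁻¹ * (s / (c * s) ^ 4 * (2 + Km 8))) :=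
        mul_le_mul_of_nonneg_right hk hB
    _ = (2 + Km 8) / (c ^ 5 * finrank ℝ V) := by
        rw [← hs2]
        field_simp

end Pool.Agent.P.MP_181257_gt
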