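import Pool.Agent.P.MP_181257_gt.HiFr2

/-! Basic properties of the second derivative. -/

set_option autoImplicit false
set_option linter.unusedSectionVars false
set_option linter.unusedVariables false

open MeasureTheory ProbabilityTheory Module Set Filter Topology
open scoped RealInnerProductSpace ENNReal Pointwise Matrix

noncomputable section

namespace Pool.Agent.P.MP_181257_gt

variable {V : Type} [NormedAddCommGroup V] [InnerProductSpace ℝ V] [FiniteDimensional ℝ V]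
  [MeasurableSpace V] [BorelSpace V]

theorem young_HiE4 {p : ℕ} (hp : p ≤ 4) {y : ℝ} (hy : 0 ≤ y) :
    y ^ p ≤ (1 - (p : ℝ) / 4) + (p : ℝ) / 4 * y ^ 4 := by
  interval_cases p
  · simp
  · norm_num
    nlinarith [sq_nonneg (y ^ 2 - 1), sq_nonneg (y - 1)]
  · norm_num
    nlinarith [sq_nonneg (y ^ 2 - 1)]
  · norm_num
    nlinarith [mul_nonneg (sq_nonneg (y - 1)) (show 0 ≤ 3 * y ^ 2 + 2 * y + 1 by positivity)]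
  · norm_num

theorem ofReal_inv_HiE4 (y : ℝ) (hy : 0 ≤ y) :
    ENNReal.ofReal (y⁻¹ ^ 4) ≤ (ENNReal.ofReal y)⁻¹ ^ 4 := by
  rcases hy.eq_or_lt with h | h
  · subst h
    simp
  · rw [ENNReal.ofReal_pow (by positivity), ENNReal.ofReal_inv_of_pos h]

theorem unit_diff_HiE4 (p q : V) (hp : p ≠ 0) (hq : q ≠ 0) :
    ‖‖p‖⁻¹ • p - ‖q‖⁻¹ • q‖ ≤ 2 * ‖p - q‖ * ‖p‖⁻¹ := by
  have hp0 : 0 < ‖p‖ := norm_pos_iff.mpr hp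
  have hq0 : 0 < ‖q‖ := norm_pos_iff.mpr hq
  have e : ‖p‖⁻¹ • p - ‖q‖⁻¹ • q = ‖p‖⁻¹ • (p - q) + (‖p‖⁻¹ - ‖q‖⁻¹) • q := by
    rw [smul_sub, sub_smul]; abel
  have h1 : ‖‖p‖⁻¹ • (p - q)‖ = ‖p - q‖ * ‖p‖⁻¹ := by
    rw [norm_smul, Real.norm_of_nonneg (by positivity), mul_comm]
  have h2 : ‖(‖p‖⁻¹ - ‖q‖⁻¹) • q‖ ≤ ‖p - q‖ * ‖p‖⁻¹ := by
    have e2 : ‖p‖⁻¹ - ‖q‖⁻¹ = (‖q‖ - ‖p‖) * (‖p‖⁻¹ * ‖q‖⁻¹) := by field_simp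
    have h3 : |‖q‖ - ‖p‖| ≤ ‖p - q‖ := by
      rw [abs_sub_comm]; exact abs_norm_sub_norm_le p q
    rw [norm_smul, Real.norm_eq_abs, e2, abs_mul, abs_of_pos (show 0 < ‖p‖⁻¹ * ‖q‖⁻¹ by positivity)]
    calc |‖q‖ - ‖p‖| * (‖p‖⁻¹ * ‖q‖⁻¹) * ‖q‖ = |‖q‖ - ‖p‖| * ‖p‖⁻¹ := by field_simp
      _ ≤ ‖p - q‖ * ‖p‖⁻¹ := by gcongr
  rw [e]
  refine (norm_add_le _ _).trans ?_
  linarith

theorem lip_core_HiE4 (p q A B : V) (hp : p ≠ 0) (hq : q ≠ 0) (hA : ‖A‖ ≤ 1) (hB : ‖B‖ ≤ 1) :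
    |(⟪A, B⟫ / ‖p‖ - ⟪A, p⟫ * ⟪B, p⟫ / ‖p‖ ^ 3) - (⟪A, B⟫ / ‖q‖ - ⟪A, q⟫ * ⟪B, q⟫ / ‖q‖ ^ 3)|
      ≤ 6 * ‖p - q‖ * (‖p‖⁻¹ * ‖q‖⁻¹) := by
  have hp0 : 0 < ‖p‖ := norm_pos_iff.mpr hp
  have hq0 : 0 < ‖q‖ := norm_pos_iff.mpr hq
  set p1 := ‖p‖⁻¹ • p with hp1
  set q1 := ‖q‖⁻¹ • q with hq1
  have np : ‖p1‖ = 1 := by
    rw [hp1, norm_smul, Real.norm_of_nonneg (by positivity)]; field_simp
  have nq : ‖q1‖ = 1 := by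
    rw [hq1, norm_smul, Real.norm_of_nonneg (by positivity)]; field_simp
  have hd : ‖p1 - q1‖ ≤ 2 * ‖p - q‖ * ‖p‖⁻¹ := unit_diff_HiE4 p q hp hq
  have inn : ∀ X Y : V, ‖X‖ ≤ 1 → |⟪X, Y⟫| ≤ ‖Y‖ := fun X Y hX =>
    (abs_real_inner_le_norm _ _).trans (by nlinarith [norm_nonneg Y])
  have c0 : |⟪A, B⟫| ≤ 1 := (inn A B hA).trans hB
  have a1 : |⟪A, p1⟫| ≤ 1 := (inn A p1 hA).trans np.le
  have b1 : |⟪B, p1⟫| ≤ 1 := (inn B p1 hB).trans np.le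
  have a2 : |⟪A, q1⟫| ≤ 1 := (inn A q1 hA).trans nq.le
  have da : |⟪A, p1⟫ - ⟪A, q1⟫| ≤ ‖p1 - q1‖ := by rw [← inner_sub_right]; exact inn A _ hA
  have db : |⟪B, p1⟫ - ⟪B, q1⟫| ≤ ‖p1 - q1‖ := by rw [← inner_sub_right]; exact inn B _ hB
  have e1 : ⟪A, p⟫ * ⟪B, p⟫ / ‖p‖ ^ 3 = ⟪A, p1⟫ * ⟪B, p1⟫ * ‖p‖⁻¹ := by
    rw [hp1, real_inner_smul_right, real_inner_smul_right]; field_simp
  have e2 : ⟪A, q⟫ * ⟪B, q⟫ / ‖q‖ ^ 3 = ⟪A, q1⟫ * ⟪B, q1⟫ * ‖q‖⁻¹ := by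
    rw [hq1, real_inner_smul_right, real_inner_smul_right]; field_simp
  rw [e1, e2]
  have e3 : (⟪A, B⟫ / ‖p‖ - ⟪A, p1⟫ * ⟪B, p1⟫ * ‖p‖⁻¹) - (⟪A, B⟫ / ‖q‖ - ⟪A, q1⟫ * ⟪B, q1⟫ * ‖q‖⁻¹)
      = (⟪A, B⟫ - ⟪A, p1⟫ * ⟪B, p1⟫) * (‖p‖⁻¹ - ‖q‖⁻¹)
        - ((⟪A, p1⟫ - ⟪A, q1⟫) * ⟪B, p1⟫ + ⟪A, q1⟫ * (⟪B, p1⟫ - ⟪B, q1⟫)) * ‖q‖⁻¹ := by
    ring
  rw [e3]
  have f1 : |⟪A, B⟫ - ⟪A, p1⟫ * ⟪B, p1⟫| ≤ 2 := by
    refine (abs_sub _ _).trans ?_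
    rw [abs_mul]
    nlinarith [abs_nonneg ⟪A, p1⟫, abs_nonneg ⟪B, p1⟫]
  have f2 : |‖p‖⁻¹ - ‖q‖⁻¹| ≤ ‖p - q‖ * (‖p‖⁻¹ * ‖q‖⁻¹) := by
    have e4 : ‖p‖⁻¹ - ‖q‖⁻¹ = (‖q‖ - ‖p‖) * (‖p‖⁻¹ * ‖q‖⁻¹) := by field_simp
    have h3 : |‖q‖ - ‖p‖| ≤ ‖p - q‖ := by
      rw [abs_sub_comm]; exact abs_norm_sub_norm_le p q
    rw [e4, abs_mul, abs_of_pos (show 0 < ‖p‖⁻¹ * ‖q‖⁻¹ by positivity)]
    gcongr
  have f3 : |(⟪A, p1⟫ - ⟪A, q1⟫) * ⟪B, p1⟫ + ⟪A, q1⟫ * (⟪B, p1⟫ - ⟪B, q1⟫)| ≤ 2 * ‖p1 - q1‖ := by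
    refine (abs_add_le _ _).trans ?_
    rw [abs_mul, abs_mul]
    nlinarith [abs_nonneg (⟪A, p1⟫ - ⟪A, q1⟫), abs_nonneg (⟪B, p1⟫ - ⟪B, q1⟫), abs_nonneg ⟪B, p1⟫,
      abs_nonneg ⟪A, q1⟫, norm_nonneg (p1 - q1)]
  refine (abs_sub _ _).trans ?_
  rw [abs_mul, abs_mul, abs_of_pos (show 0 < ‖q‖⁻¹ by positivity)]
  have g1 : |⟪A, B⟫ - ⟪A, p1⟫ * ⟪B, p1⟫| * |‖p‖⁻¹ - ‖q‖⁻¹| ≤ 2 * (‖p - q‖ * (‖p‖⁻¹ * ‖q‖⁻¹)) :=
    mul_le_mul f1 f2 (abs_nonneg _) (by norm_num)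
  have g2 : |(⟪A, p1⟫ - ⟪A, q1⟫) * ⟪B, p1⟫ + ⟪A, q1⟫ * (⟪B, p1⟫ - ⟪B, q1⟫)| * ‖q‖⁻¹
      ≤ 2 * (2 * ‖p - q‖ * ‖p‖⁻¹) * ‖q‖⁻¹ :=
    mul_le_mul_of_nonneg_right (f3.trans (by linarith)) (by positivity)
  nlinarith [g1, g2]

theorem abs_Phi_le {T : V →L[ℝ] V} (hT : ∀ v, ‖T v‖ ≤ ‖v‖) (u a b : V) :
    |Phi T u a b| ≤ 2 * (‖a‖ * ‖b‖) / ‖T u‖ := by
  have ha := hT a
  have hb := hT b
  by_cases h0 : T u = 0
  · simp [Phi, h0]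
  have hp : 0 < ‖T u‖ := norm_pos_iff.mpr h0
  have h1 : |⟪T a, T b⟫| ≤ ‖a‖ * ‖b‖ :=
    (abs_real_inner_le_norm _ _).trans (mul_le_mul ha hb (norm_nonneg _) (norm_nonneg _))
  have h2 : |⟪T a, T u⟫| ≤ ‖a‖ * ‖T u‖ :=
    (abs_real_inner_le_norm _ _).trans (mul_le_mul_of_nonneg_right ha (norm_nonneg _))
  have h3 : |⟪T b, T u⟫| ≤ ‖b‖ * ‖T u‖ :=
    (abs_real_inner_le_norm _ _).trans (mul_le_mul_of_nonneg_right hb (norm_nonneg _))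
  have h4 : |⟪T a, T u⟫ * ⟪T b, T u⟫| ≤ (‖a‖ * ‖T u‖) * (‖b‖ * ‖T u‖) := by
    rw [abs_mul]
    exact mul_le_mul h2 h3 (abs_nonneg _) (by positivity)
  unfold Phi
  refine (abs_sub _ _).trans ?_
  rw [abs_div, abs_div, abs_of_pos hp, abs_of_pos (pow_pos hp 3)]
  have h5 : |⟪T a, T b⟫| / ‖T u‖ ≤ ‖a‖ * ‖b‖ / ‖T u‖ := by gcongr
  have h6 : |⟪T a, T u⟫ * ⟪T b, T u⟫| / ‖T u‖ ^ 3 ≤ ‖a‖ * ‖b‖ / ‖T u‖ := by
    refine (div_le_div_of_nonneg_right h4 (by positivity)).trans (le_of_eq ?_)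
    field_simp
  have h7 : 2 * (‖a‖ * ‖b‖) / ‖T u‖ = ‖a‖ * ‖b‖ / ‖T u‖ + ‖a‖ * ‖b‖ / ‖T u‖ := by ring
  linarith

theorem Phi_lip {T : V →L[ℝ] V} (hT : ∀ v, ‖T v‖ ≤ ‖v‖) {u u' : V} (hu : T u ≠ 0)
    (hu' : T u' ≠ 0) {a b : V} (ha : ‖a‖ ≤ 1) (hb : ‖b‖ ≤ 1) :
    |Phi T u a b - Phi T u' a b| ≤ 10 * ‖u - u'‖ * (‖T u‖⁻¹ ^ 2 + ‖T u'‖⁻¹ ^ 2) := by
  have hd : ‖T u - T u'‖ ≤ ‖u - u'‖ := by rw [← map_sub]; exact hT _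
  have h := lip_core_HiE4 (T u) (T u') (T a) (T b) hu hu' ((hT a).trans ha) ((hT b).trans hb)
  unfold Phi
  refine h.trans ?_
  have hx : 0 ≤ ‖T u‖⁻¹ := by positivity
  have hy : 0 ≤ ‖T u'‖⁻¹ := by positivity
  have h1 : ‖T u‖⁻¹ * ‖T u'‖⁻¹ ≤ ‖T u‖⁻¹ ^ 2 + ‖T u'‖⁻¹ ^ 2 := by
    nlinarith [sq_nonneg (‖T u‖⁻¹ - ‖T u'‖⁻¹), mul_nonneg hx hy]
  have h2 : 0 ≤ ‖T u‖⁻¹ * ‖T u'‖⁻¹ := mul_nonneg hx hy
  calc 6 * ‖T u - T u'‖ * (‖T u‖⁻¹ * ‖T u'‖⁻¹)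
      ≤ 10 * ‖u - u'‖ * (‖T u‖⁻¹ * ‖T u'‖⁻¹) := by
        refine mul_le_mul_of_nonneg_right ?_ h2
        nlinarith [norm_nonneg (u - u'), norm_nonneg (T u - T u')]
    _ ≤ 10 * ‖u - u'‖ * (‖T u‖⁻¹ ^ 2 + ‖T u'‖⁻¹ ^ 2) :=
        mul_le_mul_of_nonneg_left h1 (by positivity)

theorem measurable_Phi (i : ℕ) (a b : V) :
    Measurable fun p : (Fin i → V) × V => Phi (Pj i p.1) p.2 a b := by
  have h1 : Measurable fun p : (Fin i → V) × V => Pj i p.1 a :=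
    measurable_Pj i measurable_fst measurable_const
  have h2 : Measurable fun p : (Fin i → V) × V => Pj i p.1 b :=
    measurable_Pj i measurable_fst measurable_const
  have h3 : Measurable fun p : (Fin i → V) × V => Pj i p.1 p.2 :=
    measurable_Pj i measurable_fst measurable_snd
  unfold Phi
  exact ((h1.inner h2).div h3.norm).sub
    (((h1.inner h3).mul (h2.inner h3)).div (h3.norm.pow_const 3))

theorem Neg4.ae_ne {i : ℕ} {μ : Measure V} {C : ℝ} (h : Neg4 i μ C) {u : V} (hu : ‖u‖ = 1) :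
    ∀ᵐ x ∂(Fr i μ), Pj i x u ≠ 0 := by
  have hm : Measurable fun x : Fin i → V => (ENNReal.ofReal ‖Pj i x u‖)⁻¹ ^ 4 :=
    ((measurable_Pj i measurable_id measurable_const).norm.ennreal_ofReal.inv).pow_const 4
  have h1 := ae_lt_top hm (ne_top_of_le_ne_top ENNReal.ofReal_ne_top (h u hu))
  filter_upwards [h1] with x hx
  intro h0
  rw [h0] at hx
  simp at hx

theorem Neg4.inv_pow {i : ℕ} {μ : Measure V} (hμ : Mom μ) (hW : 0 < Wr i μ) {C : ℝ} (hC : 1 ≤ C)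
    (h : Neg4 i μ C) {u : V} (hu : ‖u‖ = 1) {p : ℕ} (hp : p ≤ 4) :
    Integrable (fun x => ‖Pj i x u‖⁻¹ ^ p) (Fr i μ) ∧
      ∫ x, ‖Pj i x u‖⁻¹ ^ p ∂(Fr i μ) ≤ C := by
  haveI := Fr_prob hμ hW
  have hm : Measurable fun x : Fin i → V => ‖Pj i x u‖⁻¹ :=
    (measurable_Pj i measurable_id measurable_const).norm.inv
  have h4 : ∫⁻ x, ENNReal.ofReal (‖Pj i x u‖⁻¹ ^ 4) ∂(Fr i μ) ≤ ENNReal.ofReal C :=
    (lintegral_mono fun x => ofReal_inv_HiE4 _ (norm_nonneg _)).trans (h u hu)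
  have hi4 : Integrable (fun x => ‖Pj i x u‖⁻¹ ^ 4) (Fr i μ) := by
    refine ⟨(hm.pow_const 4).aestronglyMeasurable, ?_⟩
    rw [hasFiniteIntegral_iff_ofReal (Eventually.of_forall fun x => by positivity)]
    exact h4.trans_lt ENNReal.ofReal_lt_top
  have hb4 : ∫ x, ‖Pj i x u‖⁻¹ ^ 4 ∂(Fr i μ) ≤ C := by
    rw [integral_eq_lintegral_of_nonneg_ae (Eventually.of_forall fun x => by positivity)
      hi4.aestronglyMeasurable]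
    exact ENNReal.toReal_le_of_le_ofReal (by linarith) h4
  have hp4 : (p : ℝ) ≤ 4 := by exact_mod_cast hp
  have hp0 : (0 : ℝ) ≤ p := Nat.cast_nonneg p
  have hg : Integrable (fun x => (1 - (p : ℝ) / 4) + (p : ℝ) / 4 * ‖Pj i x u‖⁻¹ ^ 4) (Fr i μ) :=
    (integrable_const _).add (hi4.const_mul _)
  have hle : ∀ x : Fin i → V, ‖Pj i x u‖⁻¹ ^ p
      ≤ (1 - (p : ℝ) / 4) + (p : ℝ) / 4 * ‖Pj i x u‖⁻¹ ^ 4 :=
    fun x => young_HiE4 hp (by positivity)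
  have hip : Integrable (fun x => ‖Pj i x u‖⁻¹ ^ p) (Fr i μ) := by
    refine hg.mono' (hm.pow_const p).aestronglyMeasurable (Eventually.of_forall fun x => ?_)
    rw [Real.norm_of_nonneg (by positivity)]
    exact hle x
  refine ⟨hip, (integral_mono hip hg hle).trans ?_⟩
  rw [integral_add (integrable_const _) (hi4.const_mul _), integral_const, integral_const_mul]
  simp only [probReal_univ, smul_eq_mul, one_mul]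
  nlinarith [mul_le_mul_of_nonneg_left hb4 (show (0 : ℝ) ≤ p / 4 by positivity)]

theorem Neg4.lintegral_ne_top {i : ℕ} {μ : Measure V} (hμ : Mom μ) (hW : 0 < Wr i μ) {C : ℝ}
    (h : Neg4 i μ C) {u : V} (hu : ‖u‖ = 1) :
    ∫⁻ x, (ENNReal.ofReal ‖Pj i x u‖)⁻¹ ∂(Fr i μ) ≠ ∞ := by
  haveI := Fr_prob hμ hW
  have hm : Measurable fun x : Fin i → V => (ENNReal.ofReal ‖Pj i x u‖)⁻¹ ^ 4 :=
    ((measurable_Pj i measurable_id measurable_const).norm.ennreal_ofReal.inv).pow_const 4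
  have h1 : ∀ y : ℝ≥0∞, y ≤ 1 + y ^ 4 := by
    intro y
    rcases le_total y 1 with hy | hy
    · exact hy.trans le_self_add
    · exact (le_self_pow hy (by norm_num)).trans le_add_self
  refine ne_top_of_le_ne_top ?_ (lintegral_mono fun x => h1 _)
  rw [lintegral_add_right _ hm, lintegral_const, measure_univ]
  exact ENNReal.add_ne_top.mpr ⟨by simp, ne_top_of_le_ne_top ENNReal.ofReal_ne_top (h u hu)⟩

theorem integrable_Phi {i : ℕ} {μ : Measure V} (hμ : Mom μ) (hW : 0 < Wr i μ) {C : ℝ}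
    (hC : 1 ≤ C) (h : Neg4 i μ C) {u : V} (hu : ‖u‖ = 1) (a b : V) :
    Integrable (fun x => Phi (Pj i x) u a b) (Fr i μ) := by
  have h1 := (h.inv_pow hμ hW hC hu (p := 1) (by norm_num)).1
  have hm : Measurable fun x : Fin i → V => Phi (Pj i x) u a b :=
    (measurable_Phi i a b).comp (measurable_id.prodMk measurable_const)
  refine (h1.const_mul (2 * (‖a‖ * ‖b‖))).mono' hm.aestronglyMeasurable
    (Eventually.of_forall fun x => ?_)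
  rw [Real.norm_eq_abs, pow_one, ← div_eq_mul_inv]
  exact abs_Phi_le (norm_Pj_le x) u a b

theorem abs_MK_le {i : ℕ} {μ : Measure V} (hμ : Mom μ) (hW : 0 < Wr i μ) {C : ℝ}
    (hC : 1 ≤ C) (h : Neg4 i μ C) {u : V} (hu : ‖u‖ = 1) (a b : V) :
    |MK i μ u a b| ≤ 2 * C * (‖a‖ * ‖b‖) := by
  obtain ⟨h1, h2⟩ := h.inv_pow hμ hW hC hu (p := 1) (by norm_num)
  have h3 : ‖MK i μ u a b‖ ≤ ∫ x, 2 * (‖a‖ * ‖b‖) * ‖Pj i x u‖⁻¹ ^ 1 ∂(Fr i μ) := by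
    refine norm_integral_le_of_norm_le (h1.const_mul _) (Eventually.of_forall fun x => ?_)
    rw [Real.norm_eq_abs, pow_one, ← div_eq_mul_inv]
    exact abs_Phi_le (norm_Pj_le x) u a b
  rw [integral_const_mul, Real.norm_eq_abs] at h3
  have h4 := mul_le_mul_of_nonneg_left h2 (show 0 ≤ 2 * (‖a‖ * ‖b‖) by positivity)
  linarith

theorem MK_lip {i : ℕ} {μ : Measure V} (hμ : Mom μ) (hW : 0 < Wr i μ) {C : ℝ}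
    (hC : 1 ≤ C) (h : Neg4 i μ C) {u u' : V} (hu : ‖u‖ = 1) (hu' : ‖u'‖ = 1) {a b : V}
    (ha : ‖a‖ ≤ 1) (hb : ‖b‖ ≤ 1) : |MK i μ u a b - MK i μ u' a b| ≤ 20 * C * ‖u - u'‖ := by
  obtain ⟨h1, h2⟩ := h.inv_pow hμ hW hC hu (p := 2) (by norm_num)
  obtain ⟨h1', h2'⟩ := h.inv_pow hμ hW hC hu' (p := 2) (by norm_num)
  unfold MK
  rw [← integral_sub (integrable_Phi hμ hW hC h hu a b) (integrable_Phi hμ hW hC h hu' a b)]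
  have h3 : ‖∫ x, (Phi (Pj i x) u a b - Phi (Pj i x) u' a b) ∂(Fr i μ)‖
      ≤ ∫ x, 10 * ‖u - u'‖ * (‖Pj i x u‖⁻¹ ^ 2 + ‖Pj i x u'‖⁻¹ ^ 2) ∂(Fr i μ) := by
    refine norm_integral_le_of_norm_le ((h1.add h1').const_mul _) ?_
    filter_upwards [h.ae_ne hu, h.ae_ne hu'] with x hx hx'
    rw [Real.norm_eq_abs]
    exact Phi_lip (norm_Pj_le x) hx hx' ha hb
  rw [integral_const_mul, integral_add h1 h1', Real.norm_eq_abs] at h3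
  have h4 := mul_le_mul_of_nonneg_left (add_le_add h2 h2')
    (show 0 ≤ 10 * ‖u - u'‖ by positivity)
  linarith

theorem MK_hom (i : ℕ) (μ : Measure V) {t : ℝ} (ht : 0 < t) (u a b : V) :
    MK i μ (t • u) a b = t⁻¹ * MK i μ u a b := by
  unfold MK
  rw [← integral_const_mul]
  refine integral_congr_ae (Eventually.of_forall fun x => ?_)
  simp only [Phi, map_smul, norm_smul, Real.norm_of_nonneg ht.le, real_inner_smul_right]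
  by_cases h0 : ‖Pj i x u‖ = 0
  · simp [h0]
  · have := ht.ne'
    field_simp

theorem measurable_MK {i : ℕ} {μ : Measure V} (hμ : Mom μ) (hW : 0 < Wr i μ) (a b : V) :
    Measurable fun u => MK i μ u a b := by
  haveI := Fr_prob hμ hW
  exact ((measurable_Phi i a b).stronglyMeasurable.integral_prod_left'
    (μ := Fr i μ)).measurable

end Pool.Agent.P.MP_181257_gt
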