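import Pool.Agent.P.MP_181257_gt.HiE4

/-! Pinching. -/

set_option autoImplicit false
set_option linter.unusedSectionVars false
set_option linter.unusedVariables false

open MeasureTheory ProbabilityTheory Module Set Filter Topology
open scoped RealInnerProductSpace ENNReal Pointwise Matrix

noncomputable section

namespace Pool.Agent.P.MP_181257_gt

variable {V : Type} [NormedAddCommGroup V] [InnerProductSpace ℝ V] [FiniteDimensional ℝ V]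
  [MeasurableSpace V] [BorelSpace V]

theorem young_HiE5 {η : ℝ} (hη : 0 < η) (y z : ℝ) : |y| * z ≤ (y ^ 2 / η + η * z ^ 2) / 2 := by
  have h1 : 0 ≤ (|y| - η * z) ^ 2 / η := by positivity
  have h2 : (|y| - η * z) ^ 2 / η = y ^ 2 / η + η * z ^ 2 - 2 * (|y| * z) := by
    rw [← sq_abs y]; field_simp; ring
  linarith

theorem point_HiE5 {A B c σ η ya yb : ℝ} (hA : 0 < A) (hσ : 0 < σ) (hη : 0 < η)
    (hc : |c| ≤ A) (hc2 : 2 * c = ya - yb) :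
    |B / A - c * c / A ^ 3 - √σ| ≤ ((B - σ) ^ 2 / η + η * A⁻¹ ^ 2) / 2
      + ((A ^ 2 - σ) ^ 2 / η + η * A⁻¹ ^ 2) / 2
      + (((ya - σ) ^ 2 / η + η * A⁻¹ ^ 4) / 2 + ((yb - σ) ^ 2 / η + η * A⁻¹ ^ 4) / 2) / 2 := by
  have hs : 0 < √σ := Real.sqrt_pos.2 hσ
  have hss : √σ ^ 2 = σ := Real.sq_sqrt hσ.le
  have hAi : 0 < A⁻¹ := inv_pos.2 hA
  have e1 : B / A - c * c / A ^ 3 - √σ
      = (B - σ) * A⁻¹ + (√σ * (√σ - A)) * A⁻¹ - c * c / A ^ 3 := by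
    have : √σ * (√σ - A) = σ - √σ * A := by rw [mul_sub, ← sq, hss]
    rw [this]; field_simp; ring
  have h1 : |(B - σ) * A⁻¹| ≤ ((B - σ) ^ 2 / η + η * A⁻¹ ^ 2) / 2 := by
    rw [abs_mul, abs_of_pos hAi]; exact young_HiE5 hη _ _
  have h2 : |(√σ * (√σ - A)) * A⁻¹| ≤ ((A ^ 2 - σ) ^ 2 / η + η * A⁻¹ ^ 2) / 2 := by
    refine le_trans ?_ (young_HiE5 hη (A ^ 2 - σ) A⁻¹)
    rw [abs_mul, abs_of_pos hAi]
    refine mul_le_mul_of_nonneg_right ?_ hAi.le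
    have e : A ^ 2 - σ = -((√σ + A) * (√σ - A)) := by nlinarith
    rw [e, abs_neg, abs_mul, abs_mul, abs_of_pos hs, abs_of_pos (by linarith : 0 < √σ + A)]
    exact mul_le_mul_of_nonneg_right (by linarith) (abs_nonneg _)
  have h3 : |c * c / A ^ 3| ≤ |c| * A⁻¹ ^ 2 := by
    rw [abs_div, abs_mul, abs_of_pos (pow_pos hA 3), div_le_iff₀ (pow_pos hA 3)]
    have : |c| * A⁻¹ ^ 2 * A ^ 3 = |c| * A := by field_simp
    rw [this]
    exact mul_le_mul_of_nonneg_left hc (abs_nonneg _)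
  have h4 : |c| ≤ (|ya - σ| + |yb - σ|) / 2 := by
    have e : c = ((ya - σ) - (yb - σ)) / 2 := by linarith
    rw [e, abs_div, abs_two]
    exact div_le_div_of_nonneg_right (abs_sub _ _) (by norm_num)
  have h5 := young_HiE5 hη (ya - σ) (A⁻¹ ^ 2)
  have h6 := young_HiE5 hη (yb - σ) (A⁻¹ ^ 2)
  have e4 : (A⁻¹ ^ 2) ^ 2 = A⁻¹ ^ 4 := by ring
  rw [e4] at h5 h6
  have h7 : |c| * A⁻¹ ^ 2 ≤ (|ya - σ| * A⁻¹ ^ 2 + |yb - σ| * A⁻¹ ^ 2) / 2 := by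
    have := mul_le_mul_of_nonneg_right h4 (pow_pos hAi 2).le
    linarith
  rw [e1]
  have t1 := abs_sub ((B - σ) * A⁻¹ + (√σ * (√σ - A)) * A⁻¹) (c * c / A ^ 3)
  have t2 := abs_add_le ((B - σ) * A⁻¹) ((√σ * (√σ - A)) * A⁻¹)
  linarith

theorem int_sq_HiE5 {i : ℕ} {μ : Measure V} (hμ : Mom μ) (hW : 0 < Wr i μ) {σ : ℝ} (hσ : 0 < σ)
    (hσ1 : σ ≤ 1) {u : V} (hu : ‖u‖ = 1) :
    Integrable (fun x => (‖Pj i x u‖ ^ 2 - σ) ^ 2) (Fr i μ) := by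
  have := Fr_prob hμ hW
  have hm : Measurable fun x : Fin i → V => Pj i x u :=
    measurable_Pj i measurable_id measurable_const
  refine Integrable.of_bound (C := 1) ?_ (Eventually.of_forall fun x => ?_)
  · exact ((hm.norm.pow_const 2).sub_const σ |>.pow_const 2).aestronglyMeasurable
  · have h1 : ‖Pj i x u‖ ≤ 1 := hu ▸ norm_Pj_le x u
    have h0 := norm_nonneg (Pj i x u)
    have h2 : ‖Pj i x u‖ ^ 2 ≤ 1 := by nlinarith
    have h3 : 0 ≤ ‖Pj i x u‖ ^ 2 := by positivity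
    rw [Real.norm_eq_abs, abs_of_nonneg (sq_nonneg _)]
    nlinarith

theorem pinch {i : ℕ} {μ : Measure V} (hμ : Mom μ) (hW : 0 < Wr i μ) {C σ η : ℝ} (hC : 1 ≤ C)
    (h : Neg4 i μ C) (hσ : 0 < σ) (hσ1 : σ ≤ 1) (hη : 0 < η)
    (hv : ∀ u : V, ‖u‖ = 1 → ∫ x, (‖Pj i x u‖ ^ 2 - σ) ^ 2 ∂(Fr i μ) ≤ η ^ 2) {u v : V}
    (hu : ‖u‖ = 1) (hv1 : ‖v‖ = 1) (huv : ⟪u, v⟫ = 0) :
    |MK i μ u v v - √σ| ≤ 3 * η * C / σ := by
  have := Fr_prob hμ hW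
  set t : ℝ := (√2)⁻¹ with ht
  have ht2 : t ^ 2 = 1 / 2 := by
    rw [ht, inv_pow, Real.sq_sqrt (by norm_num)]; norm_num
  have ht0 : 0 < t := by positivity
  have hna : ‖t • (u + v)‖ = 1 := by
    have : ‖t • (u + v)‖ ^ 2 = 1 := by
      rw [norm_smul, mul_pow, Real.norm_eq_abs, sq_abs, ht2, norm_add_sq_real, hu, hv1, huv]
      norm_num
    exact (pow_eq_one_iff_of_nonneg (norm_nonneg _) two_ne_zero).1 this
  have hnb : ‖t • (u - v)‖ = 1 := by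
    have : ‖t • (u - v)‖ ^ 2 = 1 := by
      rw [norm_smul, mul_pow, Real.norm_eq_abs, sq_abs, ht2, norm_sub_sq_real, hu, hv1, huv]
      norm_num
    exact (pow_eq_one_iff_of_nonneg (norm_nonneg _) two_ne_zero).1 this
  have iu := int_sq_HiE5 hμ hW hσ hσ1 hu
  have iv := int_sq_HiE5 hμ hW hσ hσ1 hv1
  have ia := int_sq_HiE5 hμ hW hσ hσ1 hna
  have ib := int_sq_HiE5 hμ hW hσ hσ1 hnb
  obtain ⟨i2, b2⟩ := h.inv_pow hμ hW hC hu (p := 2) (by norm_num)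
  obtain ⟨i4, b4⟩ := h.inv_pow hμ hW hC hu (p := 4) le_rfl
  have iP := integrable_Phi hμ hW hC h hu v v
  have e0 : MK i μ u v v - √σ = ∫ x, (Phi (Pj i x) u v v - √σ) ∂(Fr i μ) := by
    rw [integral_sub iP (integrable_const _), MK]; simp
  have key : ∀ {w : V} {p : ℕ}, Integrable (fun x => (‖Pj i x w‖ ^ 2 - σ) ^ 2) (Fr i μ) →
      ‖w‖ = 1 → Integrable (fun x => ‖Pj i x u‖⁻¹ ^ p) (Fr i μ) →
      ∫ x, ‖Pj i x u‖⁻¹ ^ p ∂(Fr i μ) ≤ C →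
      Integrable (fun x => ((‖Pj i x w‖ ^ 2 - σ) ^ 2 / η + η * ‖Pj i x u‖⁻¹ ^ p) / 2) (Fr i μ) ∧
      ∫ x, ((‖Pj i x w‖ ^ 2 - σ) ^ 2 / η + η * ‖Pj i x u‖⁻¹ ^ p) / 2 ∂(Fr i μ) ≤ η * C := by
    intro w p iw hw ip bp
    refine ⟨((iw.div_const η).add (ip.const_mul η)).div_const 2, ?_⟩
    rw [integral_div, integral_add (iw.div_const η) (ip.const_mul η), integral_div,
      integral_const_mul]
    have h1 : (∫ x, (‖Pj i x w‖ ^ 2 - σ) ^ 2 ∂(Fr i μ)) / η ≤ η := by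
      rw [div_le_iff₀ hη, ← sq]; exact hv w hw
    have h2 := mul_le_mul_of_nonneg_left bp hη.le
    have h3 := mul_le_mul_of_nonneg_left hC hη.le
    linarith
  obtain ⟨j1, c1⟩ := key iv hv1 i2 b2
  obtain ⟨j2, c2'⟩ := key iu hu i2 b2
  obtain ⟨j3, c3⟩ := key ia hna i4 b4
  obtain ⟨j4, c4⟩ := key ib hnb i4 b4
  have main : |∫ x, (Phi (Pj i x) u v v - √σ) ∂(Fr i μ)| ≤ 3 * η * C := by
    rw [← Real.norm_eq_abs]
    refine (norm_integral_le_of_norm_le ((j1.add j2).add ((j3.add j4).div_const 2)) ?_).trans ?_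
    · filter_upwards [h.ae_ne hu] with x hx
      have hA : 0 < ‖Pj i x u‖ := norm_pos_iff.2 hx
      have hc : |⟪Pj i x v, Pj i x u⟫| ≤ ‖Pj i x u‖ := by
        refine (abs_real_inner_le_norm _ _).trans ?_
        have h1 : ‖Pj i x v‖ ≤ 1 := hv1 ▸ norm_Pj_le x v
        nlinarith
      have hc2 : 2 * ⟪Pj i x v, Pj i x u⟫
          = ‖Pj i x (t • (u + v))‖ ^ 2 - ‖Pj i x (t • (u - v))‖ ^ 2 := by
        rw [map_smul, map_smul, map_add, map_sub, norm_smul, norm_smul, mul_pow, mul_pow,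
          Real.norm_eq_abs, sq_abs, ht2, norm_add_sq_real, norm_sub_sq_real, real_inner_comm]
        ring
      have := point_HiE5 (B := ‖Pj i x v‖ ^ 2) hA hσ hη hc hc2
      rw [Real.norm_eq_abs, Phi, real_inner_self_eq_norm_sq]
      simpa only [Pi.add_apply] using this
    · have a1 := integral_add (j1.add j2) ((j3.add j4).div_const 2)
      have a2 := integral_add j1 j2
      have a3 := integral_add j3 j4
      simp only [Pi.add_apply] at a1 ⊢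
      rw [a1, a2, integral_div 2 fun x =>
        ((‖Pj i x (t • (u + v))‖ ^ 2 - σ) ^ 2 / η + η * ‖Pj i x u‖⁻¹ ^ 4) / 2 +
          ((‖Pj i x (t • (u - v))‖ ^ 2 - σ) ^ 2 / η + η * ‖Pj i x u‖⁻¹ ^ 4) / 2, a3]
      linarith
  rw [e0]
  refine main.trans ?_
  rw [le_div_iff₀ hσ]
  have : 0 ≤ 3 * η * C := by positivity
  nlinarith

end Pool.Agent.P.MP_181257_gt
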