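import Pool.Agent.P.MP_181257_gt.HiE2
import Pool.Agent.P.MP_181257_gt.HiE3
import Pool.Agent.P.MP_181257_gt.HiE5
import Pool.Agent.P.MP_181257_gt.HiD6

/-! The a priori estimates. -/

set_option autoImplicit false
set_option linter.unusedSectionVars false
set_option linter.unusedVariables false

open MeasureTheory ProbabilityTheory Module Set Filter Topology
open scoped RealInnerProductSpace ENNReal Pointwise Matrix

noncomputable section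

namespace Pool.Agent.P.MP_181257_gt

variable {V : Type} [NormedAddCommGroup V] [InnerProductSpace ℝ V] [FiniteDimensional ℝ V]
  [MeasurableSpace V] [BorelSpace V]

theorem shift_HiE6 {i : ℕ} {μ : Measure V} (hμ : Mom μ) (hW : 0 < Wr i μ) {u : V} (hu : ‖u‖ = 1)
    (a b : ℝ) : ∫ x, (‖Pj i x u‖ ^ 2 - b) ^ 2 ∂(Fr i μ)
      ≤ 2 * ∫ x, (‖Pj i x u‖ ^ 2 - a) ^ 2 ∂(Fr i μ) + 2 * (a - b) ^ 2 := by
  have := Fr_prob hμ hW
  have hm : Measurable fun x : Fin i → V => Pj i x u :=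
    measurable_Pj i measurable_id measurable_const
  have hI : ∀ t : ℝ, Integrable (fun x : Fin i → V => (‖Pj i x u‖ ^ 2 - t) ^ 2) (Fr i μ) := by
    intro t
    refine Integrable.of_bound (C := 2 + 2 * t ^ 2)
      (((hm.norm.pow_const 2).sub_const t).pow_const 2).aestronglyMeasurable
      (Eventually.of_forall fun x => ?_)
    have h1 : ‖Pj i x u‖ ≤ 1 := hu ▸ norm_Pj_le x u
    have h2 : ‖Pj i x u‖ ^ 2 ≤ 1 := by nlinarith [norm_nonneg (Pj i x u)]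
    have h3 : 0 ≤ ‖Pj i x u‖ ^ 2 := sq_nonneg _
    rw [Real.norm_eq_abs, abs_of_nonneg (sq_nonneg _)]
    nlinarith [sq_nonneg (‖Pj i x u‖ ^ 2 + t)]
  calc ∫ x, (‖Pj i x u‖ ^ 2 - b) ^ 2 ∂(Fr i μ)
      ≤ ∫ x, (2 * (‖Pj i x u‖ ^ 2 - a) ^ 2 + 2 * (a - b) ^ 2) ∂(Fr i μ) := by
        refine integral_mono (hI b) (((hI a).const_mul 2).add (integrable_const _)) fun x => ?_
        nlinarith [sq_nonneg (‖Pj i x u‖ ^ 2 - a - (a - b))]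
    _ = _ := by
        rw [integral_add ((hI a).const_mul 2) (integrable_const _), integral_const_mul]
        simp

theorem ar1_HiE6 {ε η C σ : ℝ} (hε : 0 < ε) (hη : 0 < η) (hC : 1 ≤ C) (h1 : ε / 2 ≤ σ)
    (h2 : σ ≤ 1) : 3 * (η * (ε / 2) ^ 2 / (3 * C)) * C / σ ≤ η * √σ := by
  have hσ : 0 < σ := (half_pos hε).trans_le h1
  have p2 : σ ≤ √σ := by
    apply Real.le_sqrt_of_sq_le
    nlinarith
  have : 3 * (η * (ε / 2) ^ 2 / (3 * C)) * C = η * (ε / 2) ^ 2 := by field_simp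
  rw [this, div_le_iff₀ hσ]
  have q1 : (ε / 2) ^ 2 ≤ σ ^ 2 := pow_le_pow_left₀ (half_pos hε).le h1 2
  have q2 : σ ^ 2 ≤ √σ * σ := by nlinarith
  nlinarith

theorem ar2_HiE6 {K c e n : ℝ} (hc : 0 < c) (he : 0 < e) (hn : 0 < n)
    (h : 4 * K / (c * e ^ 2) ≤ n) : K / (c * n) ≤ e ^ 2 / 4 := by
  have := (div_le_iff₀ (by positivity)).1 h
  rw [div_le_div_iff₀ (by positivity) (by norm_num)]
  nlinarith

theorem ar3_HiE6 {ε n i : ℝ} (hε : 0 < ε) (hn : 1 ≤ n) (hi : 0 ≤ i) (h : 2 / ε ≤ n)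
    (hin : i ≤ (1 - ε) * n) : i + 1 ≤ n ∧ ε / 2 ≤ (n - i - 1) / n ∧ (n - i - 1) / n ≤ 1 := by
  have hnpos : (0 : ℝ) < n := by linarith
  have b1 : 2 ≤ ε * n := by
    have := (div_le_iff₀ hε).1 h
    linarith
  have b2 : ε / 2 * n ≤ n - i - 1 := by linarith
  refine ⟨by linarith, (le_div_iff₀ hnpos).2 b2, ?_⟩
  rw [div_le_one hnpos]
  linarith

theorem apriori {ε η : ℝ} (hε : 0 < ε) (hη : 0 < η) : ∃ n₀ : ℕ, ∀ n : ℕ, n₀ ≤ n →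
    ∀ (i : ℕ) (μ ν : Measure (En n)), FP i μ ν → 1 ≤ i → (i : ℝ) ≤ (1 - ε) * n →
      ∃ C s : ℝ, 1 ≤ C ∧ 0 < s ∧ Neg4 i μ C ∧ ∀ u v : En n, ‖u‖ = 1 → ‖v‖ = 1 → ⟪u, v⟫ = 0 →
        (1 - η) * s ≤ MK i μ u v v ∧ MK i μ u v v ≤ (1 + η) * s := by
  obtain ⟨c, hc, hc1, n₁, hsub⟩ := negsub hε
  obtain ⟨C, hCdef⟩ : ∃ C : ℝ, C = Real.exp ((4 + 2 * Km 4 + Km 8) / c ^ 5) := ⟨_, rfl⟩
  have hK4 := Km_nonneg 4
  have hK8 := Km_nonneg 8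
  have hC : 1 ≤ C := hCdef ▸ Real.one_le_exp (by positivity)
  obtain ⟨e, hedef⟩ : ∃ e : ℝ, e = η * (ε / 2) ^ 2 / (3 * C) := ⟨_, rfl⟩
  have he : 0 < e := by rw [hedef]; positivity
  obtain ⟨n₂, hiso⟩ := isotropy hε (half_pos he)
  obtain ⟨n₃, hn₃⟩ := exists_nat_ge (2 / ε)
  obtain ⟨n₄, hn₄⟩ := exists_nat_ge (4 * (2 + Km 8) / (c ^ 5 * e ^ 2))
  refine ⟨n₁ + n₂ + n₃ + n₄ + 1, fun n hn i μ ν h hi hin => ?_⟩
  have a1 : n₁ ≤ n := by omega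
  have a2 : n₂ ≤ n := by omega
  have a3 : (n₃ : ℝ) ≤ n := Nat.cast_le.2 (by omega)
  have a4 : (n₄ : ℝ) ≤ n := Nat.cast_le.2 (by omega)
  have a5 : (1 : ℝ) ≤ n := Nat.one_le_cast.2 (by omega)
  have hnpos : (0 : ℝ) < n := zero_lt_one.trans_le a5
  have hfr : finrank ℝ (En n) = n := finrank_euclideanSpace_fin
  obtain ⟨b1, hσε, hσ1⟩ := ar3_HiE6 hε a5 (Nat.cast_nonneg i) (hn₃.trans a3) hin
  have hin' : i + 1 ≤ finrank ℝ (En n) := by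
    rw [hfr]
    exact_mod_cast b1
  obtain ⟨σ, hσdef⟩ : ∃ σ : ℝ, σ = ((n : ℝ) - i - 1) / n := ⟨_, rfl⟩
  rw [← hσdef] at hσε hσ1
  have hσ : 0 < σ := (half_pos hε).trans_le hσε
  have hS : Sub i μ (c * √(finrank ℝ (En n) : ℝ)) := by
    rw [hfr]; exact hsub n a1 i μ ν h hi hin
  have hN : Neg4 i μ C := hCdef ▸ neg4 h hin' hc hc1 hS
  have hv : ∀ u : En n, ‖u‖ = 1 → ∫ x, (‖Pj i x u‖ ^ 2 - σ) ^ 2 ∂(Fr i μ) ≤ e ^ 2 := by
    intro u hu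
    have e1 := shift_HiE6 h.ml h.wl hu (Sg ν u u) σ
    have e2 := var_point h hi hin' hc hS hu
    rw [hfr] at e2
    have e3 := hiso n a2 i ν μ h.symm hi hin u hu
    rw [← hσdef] at e3
    have e4 : (Sg ν u u - σ) ^ 2 ≤ (e / 2) ^ 2 := sq_le_sq' (abs_le.1 e3).1 (abs_le.1 e3).2
    have e5 := ar2_HiE6 (pow_pos hc 5) he hnpos (hn₄.trans a4)
    have e6 : (e / 2) ^ 2 = e ^ 2 / 4 := by ring
    linarith
  refine ⟨C, √σ, hC, Real.sqrt_pos.2 hσ, hN, fun u v hu hv1 huv => ?_⟩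
  have p1 := pinch h.ml h.wl hC hN hσ hσ1 he hv hu hv1 huv
  have p3 := ar1_HiE6 hε hη hC hσε hσ1
  rw [← hedef] at p3
  have p4 := abs_le.1 (p1.trans p3)
  constructor <;> linarith [p4.1, p4.2]

end Pool.Agent.P.MP_181257_gt
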