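import Pool.Agent.P.MP_181257_gt.HiP1

/-! Second moments on hyperplanes and the squared-volume moment. -/

set_option autoImplicit false
set_option linter.unusedSectionVars false
set_option linter.unusedVariables false

open MeasureTheory ProbabilityTheory Module Set Filter Topology
open scoped RealInnerProductSpace ENNReal Pointwise Matrix

noncomputable section

namespace Pool.Agent.P.MP_181257_gt

variable {V : Type} [NormedAddCommGroup V] [InnerProductSpace ℝ V] [FiniteDimensional ℝ V]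
  [MeasurableSpace V] [BorelSpace V]

theorem bd_pr_HiF1 {F : V → ℝ} (hF : Bd F) (u : V) : Bd fun g => F (pr u g) := by
  obtain ⟨C, hC⟩ := hF.bdd
  exact ⟨hF.meas.comp (by fun_prop), C, fun x => hC _⟩

theorem integrable_Mf_HiF1 {F : V → ℝ} (hF : Bd F) (u a b : V) :
    Integrable (fun g => ⟪a, pr u g⟫ * ⟪b, pr u g⟫ * F (pr u g)) (stdGaussian V) := by
  have h := moment_integrable_inner (bd_pr_HiF1 hF u) (pr u a) (pr u b)
  simpa only [inner_pr_comm] using h

theorem prod_lip_HiF1 {ι : Type} (s : Finset ι) (a b : ι → ℝ) {B L : ℝ} (hB : 1 ≤ B) (hL : 0 ≤ L)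
    (ha : ∀ j, |a j| ≤ B) (hb : ∀ j, |b j| ≤ B) (hab : ∀ j, |a j - b j| ≤ L) :
    |∏ j ∈ s, a j - ∏ j ∈ s, b j| ≤ s.card * B ^ s.card * L := by
  classical
  have hB0 : 0 ≤ B := by linarith
  induction s using Finset.induction_on with
  | empty => simp
  | insert j s hj ih =>
    rw [Finset.prod_insert hj, Finset.prod_insert hj, Finset.card_insert_of_notMem hj]
    have h1 : |∏ j ∈ s, b j| ≤ B ^ s.card := by
      rw [Finset.abs_prod]
      calc ∏ j ∈ s, |b j| ≤ ∏ _j ∈ s, B :=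
            Finset.prod_le_prod (fun _ _ => abs_nonneg _) fun j _ => hb j
        _ = B ^ s.card := by simp
    have hp : 0 ≤ B ^ s.card := by positivity
    have e : a j * ∏ j ∈ s, a j - b j * ∏ j ∈ s, b j
        = a j * (∏ j ∈ s, a j - ∏ j ∈ s, b j) + (a j - b j) * ∏ j ∈ s, b j := by ring
    have h2 : |a j * (∏ j ∈ s, a j - ∏ j ∈ s, b j)| ≤ B * (s.card * B ^ s.card * L) := by
      rw [abs_mul]
      exact mul_le_mul (ha j) ih (abs_nonneg _) hB0
    have h3 : |(a j - b j) * ∏ j ∈ s, b j| ≤ L * B ^ s.card := by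
      rw [abs_mul]
      exact mul_le_mul (hab j) h1 (abs_nonneg _) hL
    have h4 : L * B ^ s.card ≤ L * B ^ s.card * B :=
      le_mul_of_one_le_right (mul_nonneg hL hp) hB
    rw [e]
    refine (abs_add_le _ _).trans ?_
    push_cast
    rw [pow_succ]
    nlinarith

theorem Mf_symm (F : V → ℝ) (u a b : V) : Mf F u a b = Mf F u b a := by
  unfold Mf
  congr 1
  ext g
  ring

theorem Mf_add {F : V → ℝ} (hF : Bd F) (u a a' b : V) :
    Mf F u (a + a') b = Mf F u a b + Mf F u a' b := by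
  unfold Mf
  rw [← integral_add (integrable_Mf_HiF1 hF u a b) (integrable_Mf_HiF1 hF u a' b)]
  congr 1
  ext g
  rw [inner_add_left]
  ring

theorem Mf_smul (F : V → ℝ) (u : V) (t : ℝ) (a b : V) : Mf F u (t • a) b = t * Mf F u a b := by
  unfold Mf
  rw [← integral_const_mul]
  congr 1
  ext g
  rw [real_inner_smul_left]
  ring

theorem Mf_pr (F : V → ℝ) (u a b : V) : Mf F u (pr u a) (pr u b) = Mf F u a b := by
  unfold Mf
  simp only [inner_pr_comm, pr_pr]

theorem Mf_hom (F : V → ℝ) {t : ℝ} (ht : t ≠ 0) (u a b : V) :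
    Mf F (t • u) a b = Mf F u a b := by
  unfold Mf
  simp only [pr_smul_left ht]

theorem integrable_Mf {F : V → ℝ} (hF : Bd F) (u a b : V) :
    Integrable (fun g => ⟪a, pr u g⟫ * ⟪b, pr u g⟫ * F (pr u g)) (stdGaussian V) := by
  exact integrable_Mf_HiF1 hF u a b

theorem Ei_smul (i : ℕ) (c : ℝ) (M : V → V → ℝ) :
    Ei i (fun a b => c * M a b) = c ^ i * Ei i M := by
  unfold Ei
  rw [Finset.mul_sum]
  refine Finset.sum_congr rfl fun l _ => ?_
  have e : (Matrix.of fun j j' : Fin i =>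
      c * M (stdOrthonormalBasis ℝ V (l j)) (stdOrthonormalBasis ℝ V (l j')))
      = c • Matrix.of fun j j' : Fin i =>
        M (stdOrthonormalBasis ℝ V (l j)) (stdOrthonormalBasis ℝ V (l j')) := by
    ext j j'
    simp
  rw [e, Matrix.det_smul, Fintype.card_fin]

theorem Ei_bound (i : ℕ) (C : ℝ) : ∃ K : ℝ, ∀ M : V → V → ℝ,
    (∀ a b, ‖a‖ = 1 → ‖b‖ = 1 → |M a b| ≤ C) → |Ei i M| ≤ K := by
  refine ⟨∑ _l : Fin i → Fin (finrank ℝ V),
    Nat.factorial (Fintype.card (Fin i)) • C ^ Fintype.card (Fin i), fun M hM => ?_⟩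
  unfold Ei
  refine (Finset.abs_sum_le_sum_abs _ _).trans (Finset.sum_le_sum fun l _ => ?_)
  exact Matrix.det_le (abv := AbsoluteValue.abs) fun j j' =>
    hM _ _ ((stdOrthonormalBasis ℝ V).orthonormal.norm_eq_one _)
      ((stdOrthonormalBasis ℝ V).orthonormal.norm_eq_one _)

theorem Ei_lip (i : ℕ) (C : ℝ) : ∃ K : ℝ, 0 ≤ K ∧ ∀ (M M' : V → V → ℝ) (L : ℝ), 0 ≤ L →
    (∀ a b, ‖a‖ = 1 → ‖b‖ = 1 → |M a b| ≤ C ∧ |M' a b| ≤ C ∧ |M a b - M' a b| ≤ L) →
      |Ei i M - Ei i M'| ≤ K * L := by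
  have hB : 1 ≤ max C 1 := le_max_right _ _
  refine ⟨∑ _l : Fin i → Fin (finrank ℝ V), ∑ _σ : Equiv.Perm (Fin i),
    (i : ℝ) * max C 1 ^ i, by positivity, fun M M' L hL h => ?_⟩
  unfold Ei
  rw [← Finset.sum_sub_distrib, Finset.sum_mul]
  refine (Finset.abs_sum_le_sum_abs _ _).trans (Finset.sum_le_sum fun l _ => ?_)
  rw [Matrix.det_apply', Matrix.det_apply', ← Finset.sum_sub_distrib, Finset.sum_mul]
  refine (Finset.abs_sum_le_sum_abs _ _).trans (Finset.sum_le_sum fun σ _ => ?_)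
  have hn : ∀ t, ‖stdOrthonormalBasis ℝ V t‖ = 1 := fun t =>
    (stdOrthonormalBasis ℝ V).orthonormal.norm_eq_one t
  have hs : |((Equiv.Perm.sign σ : ℤ) : ℝ)| = 1 := by
    rcases Int.units_eq_one_or (Equiv.Perm.sign σ) with h1 | h1 <;> simp [h1]
  rw [← mul_sub, abs_mul, hs, one_mul]
  have key := prod_lip_HiF1 (Finset.univ : Finset (Fin i))
    (fun j => M (stdOrthonormalBasis ℝ V (l (σ j))) (stdOrthonormalBasis ℝ V (l j)))
    (fun j => M' (stdOrthonormalBasis ℝ V (l (σ j))) (stdOrthonormalBasis ℝ V (l j))) hB hL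
    (fun j => (h _ _ (hn _) (hn _)).1.trans (le_max_left _ _))
    (fun j => (h _ _ (hn _) (hn _)).2.1.trans (le_max_left _ _))
    (fun j => (h _ _ (hn _) (hn _)).2.2)
  simpa only [Finset.card_univ, Fintype.card_fin, Matrix.of_apply] using key

theorem Ei_tendsto (i : ℕ) {ι : Type} {l : Filter ι} {M : ι → V → V → ℝ} {M' : V → V → ℝ}
    (h : ∀ a b, Tendsto (fun d => M d a b) l (𝓝 (M' a b))) :
    Tendsto (fun d => Ei i (M d)) l (𝓝 (Ei i M')) := by
  unfold Ei
  refine tendsto_finsetSum _ fun t _ => ?_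
  simp only [Matrix.det_apply', Matrix.of_apply]
  refine tendsto_finsetSum _ fun σ _ => ?_
  exact (tendsto_finsetProd _ fun j _ => h _ _).const_mul _

theorem measurable_Ei (i : ℕ) {X : Type} [MeasurableSpace X] {M : X → V → V → ℝ}
    (h : ∀ a b, Measurable fun x => M x a b) : Measurable fun x => Ei i (M x) := by
  unfold Ei
  refine Finset.measurable_sum _ fun t _ => ?_
  simp only [Matrix.det_apply', Matrix.of_apply]
  refine Finset.measurable_sum _ fun σ _ => ?_
  exact (Finset.measurable_prod _ fun j _ => h _ _).const_mul _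

theorem integrable_Vq (i : ℕ) {F : V → ℝ} (hF : Bd F) (y : V) :
    Integrable (fun x : Fin i → V => D (fun j => pr y (x j)) ^ 2 * ∏ j, F (pr y (x j)))
      (γk V i) := by
  obtain ⟨C, hC⟩ := hF.bdd
  have hprod : Measurable fun x : Fin i → V => ∏ j, F (pr y (x j)) :=
    Finset.measurable_prod _ fun j _ => hF.meas.comp (by fun_prop)
  have h1 : Integrable (fun x : Fin i → V => D (fun j => pr y (x j)) ^ 2) (γk V i) := by
    refine (integrable_prod_norm_pow i 2).mono' (Measurable.aestronglyMeasurable (by fun_prop))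
      (ae_of_all _ fun x => ?_)
    rw [Real.norm_of_nonneg (sq_nonneg _), Finset.prod_pow]
    refine pow_le_pow_left₀ (D_nonneg _) ((D_le_prod _).trans ?_) 2
    exact Finset.prod_le_prod (fun _ _ => norm_nonneg _) fun j _ => norm_pr_le _ _
  refine h1.mul_bdd (c := C ^ i) hprod.aestronglyMeasurable (ae_of_all _ fun x => ?_)
  rw [Real.norm_eq_abs, Finset.abs_prod]
  calc ∏ j, |F (pr y (x j))| ≤ ∏ _j : Fin i, C :=
        Finset.prod_le_prod (fun _ _ => abs_nonneg _) fun j _ => hC _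
    _ = C ^ i := by simp

theorem Vq_eq_Ei (i : ℕ) {F : V → ℝ} (hF : Bd F) (u : V) : Vq i F u = Ei i (Mf F u) := by
  classical
  set b := stdOrthonormalBasis ℝ V with hb
  have h1 : ∀ x : Fin i → V, D (fun j => pr u (x j)) ^ 2 * ∏ j, F (pr u (x j))
      = ∑ l : Fin i → Fin (finrank ℝ V), ∑ σ : Equiv.Perm (Fin i), (Equiv.Perm.sign σ : ℤ) *
        ∏ j, ⟪b (l (σ j)), pr u (x j)⟫ * ⟪b (l j), pr u (x j)⟫ * F (pr u (x j)) := by
    intro x
    rw [moment_det_expand b (fun j => pr u (x j)), Finset.sum_mul]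
    refine Finset.sum_congr rfl fun l _ => ?_
    rw [Finset.sum_mul]
    refine Finset.sum_congr rfl fun σ _ => ?_
    rw [mul_assoc, ← Finset.prod_mul_distrib]
  have hi : ∀ (l : Fin i → Fin (finrank ℝ V)) (σ : Equiv.Perm (Fin i)),
      Integrable (fun x : Fin i → V => ((Equiv.Perm.sign σ : ℤ) : ℝ) *
        ∏ j, ⟪b (l (σ j)), pr u (x j)⟫ * ⟪b (l j), pr u (x j)⟫ * F (pr u (x j))) (γk V i) :=
    fun l σ => (Integrable.fintype_prod
      (f := fun j (x : V) => ⟪b (l (σ j)), pr u x⟫ * ⟪b (l j), pr u x⟫ * F (pr u x))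
      fun j => integrable_Mf_HiF1 hF u _ _).const_mul _
  unfold Vq Ei
  simp only [h1]
  rw [integral_finsetSum _ fun l _ => integrable_finsetSum _ fun σ _ => hi l σ]
  refine Finset.sum_congr rfl fun l _ => ?_
  rw [integral_finsetSum _ fun σ _ => hi l σ, Matrix.det_apply']
  refine Finset.sum_congr rfl fun σ _ => ?_
  rw [integral_const_mul, integral_fintype_prod_eq_prod
    (f := fun j (x : V) => ⟪b (l (σ j)), pr u x⟫ * ⟪b (l j), pr u x⟫ * F (pr u x))]
  rfl

theorem Vq_nonneg (i : ℕ) {F : V → ℝ} (h0 : ∀ x, 0 ≤ F x) (y : V) : 0 ≤ Vq i F y := by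
  exact integral_nonneg fun x => mul_nonneg (sq_nonneg _) (Finset.prod_nonneg fun j _ => h0 _)

theorem Vq_hom (i : ℕ) (F : V → ℝ) {t : ℝ} (ht : t ≠ 0) (y : V) :
    Vq i F (t • y) = Vq i F y := by
  unfold Vq
  simp only [pr_smul_left ht]

theorem bd_Vq (i : ℕ) {F : V → ℝ} (hF : Bd F) : Bd (Vq i F) := by
  obtain ⟨C, hC⟩ := hF.bdd
  have hm : Measurable fun p : V × (Fin i → V) =>
      D (fun j => pr p.1 (p.2 j)) ^ 2 * ∏ j, F (pr p.1 (p.2 j)) :=
    Measurable.mul (by fun_prop)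
      (Finset.measurable_prod _ fun j _ => hF.meas.comp (by fun_prop))
  refine ⟨(hm.stronglyMeasurable.integral_prod_right' (ν := γk V i)).measurable,
    ∫ x, (∏ j, ‖x j‖ ^ 2) * C ^ i ∂(γk V i), fun y => ?_⟩
  rw [← Real.norm_eq_abs]
  refine norm_integral_le_of_norm_le ((integrable_prod_norm_pow i 2).mul_const _)
    (ae_of_all _ fun x => ?_)
  rw [Real.norm_eq_abs, abs_mul, abs_of_nonneg (sq_nonneg _), Finset.abs_prod]
  refine mul_le_mul ?_ ?_ (Finset.prod_nonneg fun _ _ => abs_nonneg _)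
    (Finset.prod_nonneg fun _ _ => sq_nonneg _)
  · rw [Finset.prod_pow]
    refine pow_le_pow_left₀ (D_nonneg _) ((D_le_prod _).trans ?_) 2
    exact Finset.prod_le_prod (fun _ _ => norm_nonneg _) fun j _ => norm_pr_le _ _
  · calc ∏ j, |F (pr y (x j))| ≤ ∏ _j : Fin i, C :=
          Finset.prod_le_prod (fun _ _ => abs_nonneg _) fun j _ => hC _
      _ = C ^ i := by simp

theorem bp_supp' {i : ℕ} (hi : i + 1 ≤ finrank ℝ V) : ∃ c : ℝ, 0 < c ∧ ∀ F : V → ℝ, Bd F →
    (∀ x, 0 ≤ F x) → ∀ u : V,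
      ∫ x, D x * ‖Pj i x u‖ * ∏ j, F (x j) ∂(γk V i) = c * hz (Vq i F) u := by
  obtain ⟨C, hC0, hCt, h⟩ := bp 1 i (finrank ℝ V) hi
  have hc := c0_pos
  refine ⟨C.toReal / c0, div_pos (ENNReal.toReal_pos hC0 hCt) hc, fun F hF h0 u => ?_⟩
  have hprod : Measurable fun x : Fin i → V => ∏ j, F (x j) :=
    Finset.measurable_prod _ fun j _ => hF.meas.comp (measurable_pi_apply j)
  have hA : Measurable fun x : Fin i → V => ENNReal.ofReal (D x * ∏ j, F (x j)) :=
    ((measurable_D measurable_id).mul hprod).ennreal_ofReal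
  have hφ : Measurable fun y : V => ENNReal.ofReal |⟪u, y⟫| :=
    Measurable.ennreal_ofReal (by fun_prop)
  have key := h V rfl (fun q => ENNReal.ofReal (D q.1 * ∏ j, F (q.1 j)) * ENNReal.ofReal |⟪u, q.2⟫|)
    ((hA.comp measurable_fst).mul (hφ.comp measurable_snd))
    (fun x y t ht => by
      simp only
      rw [real_inner_smul_right, abs_mul, abs_of_pos ht, pow_one, ENNReal.ofReal_mul ht.le]
      ring)
  simp only at key
  have hpn : ∀ x : Fin i → V, 0 ≤ ∏ j, F (x j) := fun x => Finset.prod_nonneg fun j _ => h0 _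
  have e1 : ∀ x : Fin i → V, ∫⁻ b, ENNReal.ofReal (D x * ∏ j, F (x j)) *
      ENNReal.ofReal |⟪u, Pj i x b⟫| ∂(stdGaussian V)
      = ENNReal.ofReal (c0 * (D x * ‖Pj i x u‖ * ∏ j, F (x j))) := by
    intro x
    rw [lintegral_const_mul' _ _ ENNReal.ofReal_ne_top]
    simp only [← inner_Pj_comm]
    rw [← ofReal_integral_eq_lintegral_ofReal (integrable_abs_inner _)
      (ae_of_all _ fun _ => abs_nonneg _), integral_abs_inner,
      ← ENNReal.ofReal_mul (mul_nonneg (D_nonneg _) (hpn x))]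
    congr 1
    ring
  have e2 : ∀ b : V, ∫⁻ x, ENNReal.ofReal (D fun j => pr b (x j)) *
      (ENNReal.ofReal (D (fun j => pr b (x j)) * ∏ j, F (pr b (x j))) * ENNReal.ofReal |⟪u, b⟫|)
      ∂(γk V i) = ENNReal.ofReal (|⟪u, b⟫| * Vq i F b) := by
    intro b
    have e3 : ∀ x : Fin i → V, ENNReal.ofReal (D fun j => pr b (x j)) *
        (ENNReal.ofReal (D (fun j => pr b (x j)) * ∏ j, F (pr b (x j))) * ENNReal.ofReal |⟪u, b⟫|)
        = ENNReal.ofReal |⟪u, b⟫| *
          ENNReal.ofReal (D (fun j => pr b (x j)) ^ 2 * ∏ j, F (pr b (x j))) := fun x => by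
      rw [← mul_assoc, ← ENNReal.ofReal_mul (D_nonneg _), mul_comm, ← mul_assoc, ← sq]
    simp only [e3]
    rw [lintegral_const_mul' _ _ ENNReal.ofReal_ne_top, ← ofReal_integral_eq_lintegral_ofReal
      (integrable_Vq i hF b) (ae_of_all _ fun x =>
        mul_nonneg (sq_nonneg _) (Finset.prod_nonneg fun j _ => h0 _)),
      ← ENNReal.ofReal_mul (abs_nonneg _)]
    rfl
  simp only [e1, e2] at key
  have hmL : Measurable fun x : Fin i → V => c0 * (D x * ‖Pj i x u‖ * ∏ j, F (x j)) :=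
    (((measurable_D measurable_id).mul
      (measurable_Pj i measurable_id measurable_const).norm).mul hprod).const_mul _
  have hmR : Measurable fun b : V => |⟪u, b⟫| * Vq i F b :=
    Measurable.mul (by fun_prop) (bd_Vq i hF).meas
  have key2 := congrArg ENNReal.toReal key
  rw [← integral_eq_lintegral_of_nonneg_ae (ae_of_all _ fun x =>
      mul_nonneg hc.le (mul_nonneg (mul_nonneg (D_nonneg _) (norm_nonneg _)) (hpn x)))
      hmL.aestronglyMeasurable,
    ENNReal.toReal_mul, ← integral_eq_lintegral_of_nonneg_ae (ae_of_all _ fun b =>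
      mul_nonneg (abs_nonneg _) (Vq_nonneg i h0 b)) hmR.aestronglyMeasurable,
    integral_const_mul] at key2
  rw [hz, div_mul_eq_mul_div, eq_div_iff hc.ne', ← key2, mul_comm]

end Pool.Agent.P.MP_181257_gt
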