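import Pool.Agent.P.MP_181257_gt.HiF1
import Pool.Agent.P.MP_181257_gt.HiG1

/-! Second differences of the cosine transform. -/

set_option autoImplicit false
set_option linter.unusedSectionVars false
set_option linter.unusedVariables false

open MeasureTheory ProbabilityTheory Module Set Filter Topology
open scoped RealInnerProductSpace ENNReal Pointwise Matrix

noncomputable section

namespace Pool.Agent.P.MP_181257_gt

variable {V : Type} [NormedAddCommGroup V] [InnerProductSpace ℝ V] [FiniteDimensional ℝ V]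
  [MeasurableSpace V] [BorelSpace V]

theorem tent_pt_HiF2 (s b : ℝ) : |s + b| + |s - b| - 2 * |s| = 2 * max (|b| - |s|) 0 := by
  rcases le_total (|b| - |s|) 0 with h | h
  · rw [max_eq_right h]
    rcases abs_cases s with h1 | h1 <;> rcases abs_cases b with h2 | h2 <;>
      rcases abs_cases (s + b) with h3 | h3 <;> rcases abs_cases (s - b) with h4 | h4 <;>
      linarith [h1.1, h1.2, h2.1, h2.2, h3.1, h3.2, h4.1, h4.2]
  · rw [max_eq_left h]
    rcases abs_cases s with h1 | h1 <;> rcases abs_cases b with h2 | h2 <;>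
      rcases abs_cases (s + b) with h3 | h3 <;> rcases abs_cases (s - b) with h4 | h4 <;>
      linarith [h1.1, h1.2, h2.1, h2.2, h3.1, h3.2, h4.1, h4.2]

theorem tent_integrable_HiF2 (A : ℝ) : Integrable (fun σ : ℝ => max (A - |σ|) 0) := by
  refine Continuous.integrable_of_hasCompactSupport (by fun_prop) ?_
  refine HasCompactSupport.intro (isCompact_Icc (a := -|A|) (b := |A|)) fun x hx => ?_
  refine max_eq_right ?_
  by_contra h
  push Not at h
  have h1 : |x| ≤ |A| := by linarith [le_abs_self A]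
  exact hx (abs_le.1 h1)

theorem tent_integral_HiF2 {A : ℝ} (hA : 0 ≤ A) : ∫ σ : ℝ, max (A - |σ|) 0 = A ^ 2 := by
  rw [integral_comp_abs (f := fun x => max (A - x) 0)]
  have h1 : ∫ x in Ioi (0 : ℝ), max (A - x) 0 = ∫ x in Ioc (0 : ℝ) A, max (A - x) 0 := by
    refine setIntegral_eq_of_subset_of_forall_sdiff_eq_zero measurableSet_Ioi Ioc_subset_Ioi_self
      fun x hx => max_eq_right ?_
    have h2 : ¬ x ≤ A := fun h => hx.2 ⟨hx.1, h⟩
    linarith [not_le.1 h2]
  have h2 : ∫ x in Ioc (0 : ℝ) A, max (A - x) 0 = ∫ x in Ioc (0 : ℝ) A, (A - x) :=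
    setIntegral_congr_fun measurableSet_Ioc fun x hx => max_eq_left (by linarith [hx.2])
  rw [h1, h2, ← intervalIntegral.integral_of_le hA,
    intervalIntegral.integral_sub (by simp) (by simp)]
  simp only [intervalIntegral.integral_const, integral_id, smul_eq_mul]
  ring

theorem pdf_le_HiF2 (x : ℝ) : gaussianPDFReal 0 1 x ≤ gaussianPDFReal 0 1 0 := by
  unfold gaussianPDFReal
  refine mul_le_mul_of_nonneg_left (Real.exp_le_exp.2 ?_) (by positivity)
  simp only [sub_zero, NNReal.coe_one, mul_one, ne_eq, OfNat.ofNat_ne_zero, not_false_eq_true,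
    zero_pow, neg_zero, zero_div]
  nlinarith [sq_nonneg x]

theorem pdf_cont_HiF2 : Continuous (gaussianPDFReal 0 1) := by
  unfold gaussianPDFReal
  fun_prop

theorem line_eq_HiF2 (G : ℝ → ℝ) (A : ℝ) {t : ℝ} (ht : 0 < t) :
    (∫ s, 2 * max (t * A - |s|) 0 * G s ∂(gaussianReal 0 1)) / t ^ 2
      = ∫ σ, 2 * max (A - |σ|) 0 * G (t * σ) * gaussianPDFReal 0 1 (t * σ) := by
  rw [integral_gaussianReal_eq_integral_smul one_ne_zero]
  have h := Measure.integral_comp_mul_left
    (fun s : ℝ => gaussianPDFReal 0 1 s • (2 * max (t * A - |s|) 0 * G s)) t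
  have h2 : ∀ σ : ℝ, gaussianPDFReal 0 1 (t * σ) • (2 * max (t * A - |t * σ|) 0 * G (t * σ))
      = t * (2 * max (A - |σ|) 0 * G (t * σ) * gaussianPDFReal 0 1 (t * σ)) := by
    intro σ
    have : max (t * A - |t * σ|) 0 = t * max (A - |σ|) 0 := by
      rw [mul_max_of_nonneg _ _ ht.le, abs_mul, abs_of_pos ht, mul_zero, mul_sub]
    rw [this, smul_eq_mul]
    ring
  simp only [h2] at h
  rw [integral_const_mul, abs_of_pos (inv_pos.2 ht), smul_eq_mul] at h
  rw [div_eq_iff (by positivity)]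
  have h3 := congrArg (fun z => t * z) h
  rw [← mul_assoc t t⁻¹, mul_inv_cancel₀ ht.ne', one_mul] at h3
  rw [← h3]
  ring

theorem line_bd_HiF2 {G : ℝ → ℝ} {C : ℝ} (hC : ∀ s, |G s| ≤ C) (A t σ : ℝ) :
    ‖2 * max (A - |σ|) 0 * G (t * σ) * gaussianPDFReal 0 1 (t * σ)‖
      ≤ 2 * C * gaussianPDFReal 0 1 0 * max (A - |σ|) 0 := by
  have h0 : 0 ≤ max (A - |σ|) 0 := le_max_right _ _
  have h1 := gaussianPDFReal_nonneg 0 1 (t * σ)
  have hC0 : 0 ≤ C := (abs_nonneg _).trans (hC 0)
  rw [Real.norm_eq_abs, abs_mul, abs_mul, abs_mul, abs_of_nonneg h0, abs_of_nonneg h1, abs_two]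
  calc 2 * max (A - |σ|) 0 * |G (t * σ)| * gaussianPDFReal 0 1 (t * σ)
      ≤ 2 * max (A - |σ|) 0 * C * gaussianPDFReal 0 1 0 := by
        gcongr
        · exact hC _
        · exact pdf_le_HiF2 _
    _ = _ := by ring

theorem line_le_HiF2 {G : ℝ → ℝ} {C : ℝ} (hC : ∀ s, |G s| ≤ C) {A : ℝ} (hA : 0 ≤ A) {t : ℝ}
    (ht : 0 < t) :
    ‖(∫ s, 2 * max (t * A - |s|) 0 * G s ∂(gaussianReal 0 1)) / t ^ 2‖
      ≤ 2 * C * gaussianPDFReal 0 1 0 * A ^ 2 := by
  rw [line_eq_HiF2 G A ht, ← tent_integral_HiF2 hA, ← integral_const_mul]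
  exact norm_integral_le_of_norm_le ((tent_integrable_HiF2 A).const_mul _)
    (Eventually.of_forall fun σ => line_bd_HiF2 hC A t σ)

theorem line_tendsto_HiF2 {G : ℝ → ℝ} (hG : Measurable G) {C : ℝ} (hC : ∀ s, |G s| ≤ C)
    (hc : ContinuousAt G 0) {A : ℝ} (hA : 0 ≤ A) :
    Tendsto (fun t : ℝ => (∫ s, 2 * max (t * A - |s|) 0 * G s ∂(gaussianReal 0 1)) / t ^ 2)
      (𝓝[>] 0) (𝓝 (c2 * (A ^ 2 * G 0))) := by
  have h1 : Tendsto (fun t : ℝ =>
      ∫ σ, 2 * max (A - |σ|) 0 * G (t * σ) * gaussianPDFReal 0 1 (t * σ)) (𝓝[>] 0)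
      (𝓝 (∫ σ, 2 * max (A - |σ|) 0 * G 0 * gaussianPDFReal 0 1 0)) := by
    refine tendsto_integral_filter_of_dominated_convergence
      (fun σ => 2 * C * gaussianPDFReal 0 1 0 * max (A - |σ|) 0)
      (Eventually.of_forall fun t => ?_)
      (Eventually.of_forall fun t => Eventually.of_forall fun σ => line_bd_HiF2 hC A t σ)
      ((tent_integrable_HiF2 A).const_mul _) (Eventually.of_forall fun σ => ?_)
    · have hp := pdf_cont_HiF2.measurable
      refine Measurable.aestronglyMeasurable ?_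
      fun_prop
    · have h0 : Tendsto (fun t : ℝ => t * σ) (𝓝[>] 0) (𝓝 0) := by
        have : Tendsto (fun t : ℝ => t * σ) (𝓝 0) (𝓝 (0 * σ)) :=
          (continuous_id.mul continuous_const).tendsto 0
        rw [zero_mul] at this
        exact this.mono_left nhdsWithin_le_nhds
      exact (tendsto_const_nhds.mul (hc.tendsto.comp h0)).mul
        ((pdf_cont_HiF2.tendsto 0).comp h0)
  have h2 : ∫ σ : ℝ, 2 * max (A - |σ|) 0 * G 0 * gaussianPDFReal 0 1 0 = c2 * (A ^ 2 * G 0) := by
    rw [integral_mul_const, integral_mul_const, integral_const_mul, tent_integral_HiF2 hA, c2]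
    ring
  rw [h2] at h1
  refine h1.congr' ?_
  filter_upwards [self_mem_nhdsWithin] with t ht
  exact (line_eq_HiF2 G A ht).symm

theorem hz_second (hn : 2 ≤ finrank ℝ V) {F : V → ℝ} (hF : Bd F) (hc : ContinuousOn F {0}ᶜ)
    {u v : V} (hu : ‖u‖ = 1) (huv : ⟪u, v⟫ = 0) :
    Tendsto (fun t : ℝ => (hz F (u + t • v) + hz F (u - t • v) - 2 * hz F u) / t ^ 2) (𝓝[>] 0)
      (𝓝 (c2 * Mf F u v v)) := by
  obtain ⟨C, hC⟩ := hF.bdd
  have hFm := hF.meas
  have hu0 : u ≠ 0 := by
    rintro rfl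
    simp at hu
  obtain ⟨m, hm⟩ : ∃ m, finrank ℝ V = m + 2 := ⟨finrank ℝ V - 2, by omega⟩
  have hmp := mp_pr_split hu
  -- the second difference as one integral
  have hint : ∀ t : ℝ, Integrable (fun y => |⟪u + t • v, y⟫| * F y + |⟪u - t • v, y⟫| * F y
      - 2 * (|⟪u, y⟫| * F y)) (stdGaussian V) := fun t =>
    ((proj_integrable_hz hF _).add (proj_integrable_hz hF _)).sub
      ((proj_integrable_hz hF u).const_mul 2)
  have hpt : ∀ t : ℝ, 0 < t → ∀ q : V × ℝ,
      |⟪u + t • v, pr u q.1 + q.2 • u⟫| * F (pr u q.1 + q.2 • u)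
        + |⟪u - t • v, pr u q.1 + q.2 • u⟫| * F (pr u q.1 + q.2 • u)
        - 2 * (|⟪u, pr u q.1 + q.2 • u⟫| * F (pr u q.1 + q.2 • u))
      = 2 * max (t * |⟪v, pr u q.1⟫| - |q.2|) 0 * F (pr u q.1 + q.2 • u) := by
    intro t ht q
    have e1 : ⟪u, pr u q.1 + q.2 • u⟫ = q.2 := by
      rw [inner_add_right, inner_pr_self, real_inner_smul_right, real_inner_self_eq_norm_sq, hu]
      ring
    have e2 : ⟪v, pr u q.1 + q.2 • u⟫ = ⟪v, pr u q.1⟫ := by
      rw [inner_add_right, real_inner_smul_right, real_inner_comm u v, huv]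
      ring
    rw [inner_add_left, inner_sub_left, real_inner_smul_left, e1, e2]
    have e3 := tent_pt_HiF2 q.2 (t * ⟪v, pr u q.1⟫)
    rw [abs_mul t, abs_of_pos ht] at e3
    rw [← e3]
    ring
  have hprod : ∀ t : ℝ, 0 < t → Integrable (fun q : V × ℝ =>
      2 * max (t * |⟪v, pr u q.1⟫| - |q.2|) 0 * F (pr u q.1 + q.2 • u))
      ((stdGaussian V).prod (gaussianReal 0 1)) := by
    intro t ht
    have h1 := (hmp.integrable_comp (hint t).aestronglyMeasurable).2 (hint t)
    refine h1.congr (Eventually.of_forall fun q => ?_)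
    exact hpt t ht q
  have heq : ∀ t : ℝ, 0 < t → (hz F (u + t • v) + hz F (u - t • v) - 2 * hz F u) / t ^ 2
      = ∫ g, (∫ s, 2 * max (t * |⟪v, pr u g⟫| - |s|) 0 * F (pr u g + s • u)
          ∂(gaussianReal 0 1)) / t ^ 2 ∂(stdGaussian V) := by
    intro t ht
    rw [integral_div, ← integral_prod _ (hprod t ht)]
    congr 1
    unfold hz
    have ha : Integrable (fun y => |⟪u + t • v, y⟫| * F y + |⟪u - t • v, y⟫| * F y)
        (stdGaussian V) := (proj_integrable_hz hF _).add (proj_integrable_hz hF _)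
    rw [← integral_add (proj_integrable_hz hF _) (proj_integrable_hz hF _), ← integral_const_mul,
      ← integral_sub ha ((proj_integrable_hz hF u).const_mul 2),
      ← af_mp_integral hmp (hint t).aestronglyMeasurable]
    exact integral_congr_ae (Eventually.of_forall fun q => hpt t ht q)
  have hlim : Tendsto (fun t : ℝ => ∫ g, (∫ s, 2 * max (t * |⟪v, pr u g⟫| - |s|) 0
      * F (pr u g + s • u) ∂(gaussianReal 0 1)) / t ^ 2 ∂(stdGaussian V)) (𝓝[>] 0)
      (𝓝 (∫ g, c2 * (|⟪v, pr u g⟫| ^ 2 * F (pr u g + (0 : ℝ) • u)) ∂(stdGaussian V))) := by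
    refine tendsto_integral_filter_of_dominated_convergence
      (fun g => 2 * C * gaussianPDFReal 0 1 0 * |⟪v, pr u g⟫| ^ 2) ?_ ?_ ?_ ?_
    · filter_upwards [self_mem_nhdsWithin] with t ht
      exact ((hprod t ht).integral_prod_left.div_const _).aestronglyMeasurable
    · filter_upwards [self_mem_nhdsWithin] with t ht
      exact Eventually.of_forall fun g =>
        line_le_HiF2 (G := fun s => F (pr u g + s • u)) (fun s => hC _) (abs_nonneg _) ht
    · refine Integrable.const_mul ?_ _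
      refine (integrable_inner_pow (pr u v) 2).congr (Eventually.of_forall fun g => ?_)
      simp only [sq_abs, inner_pr_comm]
    · filter_upwards [bp_ae_pr hm hu0] with g hg
      refine line_tendsto_HiF2 (G := fun s => F (pr u g + s • u)) (by fun_prop)
        (fun s => hC _) ?_ (abs_nonneg _)
      have h1 : ContinuousAt F (pr u g + (0 : ℝ) • u) := by
        rw [zero_smul, add_zero]
        exact hc.continuousAt (isOpen_compl_singleton.mem_nhds hg)
      exact ContinuousAt.comp (f := fun s : ℝ => pr u g + s • u) h1 (by fun_prop)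
  have hval : ∫ g, c2 * (|⟪v, pr u g⟫| ^ 2 * F (pr u g + (0 : ℝ) • u)) ∂(stdGaussian V)
      = c2 * Mf F u v v := by
    rw [integral_const_mul, Mf]
    congr 1
    refine integral_congr_ae (Eventually.of_forall fun g => ?_)
    simp only [zero_smul, add_zero, sq_abs]
    ring
  rw [hval] at hlim
  refine hlim.congr' ?_
  filter_upwards [self_mem_nhdsWithin] with t ht
  exact (heq t ht).symm

end Pool.Agent.P.MP_181257_gt
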