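import Pool.Agent.P.MP_181257_gt.HiF2
import Pool.Agent.P.MP_181257_gt.HiE4

/-! Second differences of a mean norm. -/

set_option autoImplicit false
set_option linter.unusedSectionVars false
set_option linter.unusedVariables false

open MeasureTheory ProbabilityTheory Module Set Filter Topology
open scoped RealInnerProductSpace ENNReal Pointwise Matrix

noncomputable section

namespace Pool.Agent.P.MP_181257_gt

variable {V : Type} [NormedAddCommGroup V] [InnerProductSpace ℝ V] [FiniteDimensional ℝ V]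
  [MeasurableSpace V] [BorelSpace V]

theorem sq_add_HiF3 (a b : V) (t : ℝ) :
    ‖a + t • b‖ ^ 2 = ‖a‖ ^ 2 + 2 * t * ⟪b, a⟫ + t ^ 2 * ‖b‖ ^ 2 := by
  rw [norm_add_sq_real, real_inner_smul_right, norm_smul, mul_pow, Real.norm_eq_abs, sq_abs,
    real_inner_comm]
  ring

theorem sq_sub_HiF3 (a b : V) (t : ℝ) :
    ‖a - t • b‖ ^ 2 = ‖a‖ ^ 2 - 2 * t * ⟪b, a⟫ + t ^ 2 * ‖b‖ ^ 2 := by
  rw [norm_sub_sq_real, real_inner_smul_right, norm_smul, mul_pow, Real.norm_eq_abs, sq_abs,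
    real_inner_comm]
  ring

theorem tri_HiF3 (a b : V) (t : ℝ) : 2 * ‖a‖ ≤ ‖a + t • b‖ + ‖a - t • b‖ := by
  have h := norm_add_le (a + t • b) (a - t • b)
  have e : a + t • b + (a - t • b) = (2 : ℝ) • a := by rw [two_smul]; abel
  rw [e, norm_smul] at h
  simpa using h

theorem alg_HiF3 {x y A p B t : ℝ} (hA : 0 < A) (hx : 0 ≤ x) (hy : 0 ≤ y) (hxy : 2 * A ≤ x + y)
    (ht : 0 < t) (h1 : x ^ 2 = A ^ 2 + 2 * t * p + t ^ 2 * B)
    (h2 : y ^ 2 = A ^ 2 - 2 * t * p + t ^ 2 * B) :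
    (x + y - 2 * A) / t ^ 2
      = B * (1 / (x + A) + 1 / (y + A)) - 8 * p ^ 2 / ((x + A) * (y + A) * (x + y)) := by
  have a1 : 0 < x + A := by linarith
  have a2 : 0 < y + A := by linarith
  have a3 : 0 < x + y := by linarith
  have e1 : x - A = (2 * t * p + t ^ 2 * B) / (x + A) := by
    rw [eq_div_iff a1.ne']; linarith
  have e2 : y - A = (-(2 * t * p) + t ^ 2 * B) / (y + A) := by
    rw [eq_div_iff a2.ne']; linarith
  have e3 : y - x = -(4 * t * p) / (x + y) := by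
    rw [eq_div_iff a3.ne']; linarith
  have e4 : x + y - 2 * A = t ^ 2 * B * (1 / (x + A) + 1 / (y + A))
      + 2 * t * p * (y - x) / ((x + A) * (y + A)) := by
    have : x + y - 2 * A = (x - A) + (y - A) := by ring
    rw [this, e1, e2]
    field_simp
    ring
  rw [e4, e3]
  field_simp
  ring

theorem norm_second {a : V} (ha : a ≠ 0) (b : V) :
    Tendsto (fun t : ℝ => (‖a + t • b‖ + ‖a - t • b‖ - 2 * ‖a‖) / t ^ 2) (𝓝[>] 0)
      (𝓝 (⟪b, b⟫ / ‖a‖ - ⟪b, a⟫ * ⟪b, a⟫ / ‖a‖ ^ 3)) := by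
  have hA : 0 < ‖a‖ := norm_pos_iff.2 ha
  have cx : Tendsto (fun t : ℝ => ‖a + t • b‖) (𝓝 0) (𝓝 ‖a‖) := by
    have : Continuous fun t : ℝ => ‖a + t • b‖ := by fun_prop
    simpa using this.tendsto 0
  have cy : Tendsto (fun t : ℝ => ‖a - t • b‖) (𝓝 0) (𝓝 ‖a‖) := by
    have : Continuous fun t : ℝ => ‖a - t • b‖ := by fun_prop
    simpa using this.tendsto 0
  have h2 : ‖a‖ + ‖a‖ ≠ 0 := by positivity
  have key : Tendsto (fun t : ℝ => ‖b‖ ^ 2 * (1 / (‖a + t • b‖ + ‖a‖) + 1 / (‖a - t • b‖ + ‖a‖))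
      - 8 * ⟪b, a⟫ ^ 2 / ((‖a + t • b‖ + ‖a‖) * (‖a - t • b‖ + ‖a‖)
        * (‖a + t • b‖ + ‖a - t • b‖))) (𝓝 0)
      (𝓝 (‖b‖ ^ 2 * (1 / (‖a‖ + ‖a‖) + 1 / (‖a‖ + ‖a‖))
        - 8 * ⟪b, a⟫ ^ 2 / ((‖a‖ + ‖a‖) * (‖a‖ + ‖a‖) * (‖a‖ + ‖a‖)))) :=
    (((tendsto_const_nhds.div (cx.add_const _) h2).add
      (tendsto_const_nhds.div (cy.add_const _) h2)).const_mul _).sub
      (tendsto_const_nhds.div (((cx.add_const _).mul (cy.add_const _)).mul (cx.add cy))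
        (by positivity))
  have e : ‖b‖ ^ 2 * (1 / (‖a‖ + ‖a‖) + 1 / (‖a‖ + ‖a‖))
        - 8 * ⟪b, a⟫ ^ 2 / ((‖a‖ + ‖a‖) * (‖a‖ + ‖a‖) * (‖a‖ + ‖a‖))
      = ⟪b, b⟫ / ‖a‖ - ⟪b, a⟫ * ⟪b, a⟫ / ‖a‖ ^ 3 := by
    rw [real_inner_self_eq_norm_sq]
    field_simp
    ring
  rw [e] at key
  refine (key.mono_left nhdsWithin_le_nhds).congr' ?_
  filter_upwards [self_mem_nhdsWithin] with t ht
  exact (alg_HiF3 hA (norm_nonneg _) (norm_nonneg _) (tri_HiF3 a b t) ht (sq_add_HiF3 a b t)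
    (sq_sub_HiF3 a b t)).symm

theorem norm_second_le {a : V} (ha : a ≠ 0) (b : V) {t : ℝ} (ht : 0 < t) :
    |(‖a + t • b‖ + ‖a - t • b‖ - 2 * ‖a‖) / t ^ 2| ≤ ‖b‖ ^ 2 / ‖a‖ := by
  have hA : 0 < ‖a‖ := norm_pos_iff.2 ha
  have h0 := tri_HiF3 a b t
  have h1 := sq_add_HiF3 a b t
  have h2 := sq_sub_HiF3 a b t
  rw [abs_of_nonneg (div_nonneg (by linarith) (sq_nonneg _)),
    div_le_div_iff₀ (by positivity) hA]
  nlinarith [sq_nonneg (‖a + t • b‖ - ‖a‖), sq_nonneg (‖a - t • b‖ - ‖a‖)]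

theorem Phi_pr_HiF3 (T : V →L[ℝ] V) (u a : V) : Phi T u (pr u a) (pr u a) = Phi T u a a := by
  by_cases h : T u = 0
  · simp [Phi, h]
  · have hA : 0 < ‖T u‖ := norm_pos_iff.2 h
    simp only [Phi, pr, map_sub, map_smul, inner_sub_left, inner_sub_right, real_inner_smul_left,
      real_inner_smul_right, real_inner_self_eq_norm_sq, real_inner_comm (T a) (T u), norm_smul,
      mul_pow, Real.norm_eq_abs, sq_abs]
    generalize ⟪u, a⟫ / ‖u‖ ^ 2 = s
    field_simp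
    ring

theorem Phi_pol_HiF3 (T : V →L[ℝ] V) (u a b : V) :
    4 * Phi T u a b = Phi T u (a + b) (a + b) - Phi T u (a - b) (a - b) := by
  simp only [Phi, map_add, map_sub, inner_add_left, inner_add_right, inner_sub_left,
    inner_sub_right, real_inner_comm (T a) (T b)]
  ring

theorem Mf_pol_HiF3 {F : V → ℝ} (hF : Bd F) (u a b : V) :
    4 * Mf F u a b = Mf F u (a + b) (a + b) - Mf F u (a - b) (a - b) := by
  have hs : ∀ x y z : V, Mf F u (x - y) z = Mf F u x z - Mf F u y z := fun x y z => by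
    rw [sub_eq_add_neg, Mf_add hF, ← neg_one_smul ℝ y, Mf_smul]
    ring
  rw [Mf_add hF, hs, Mf_symm F u a (a + b), Mf_symm F u b (a + b), Mf_symm F u a (a - b),
    Mf_symm F u b (a - b), Mf_add hF, Mf_add hF, hs, hs, Mf_symm F u b a]
  ring

theorem Mf_eq_Phi (hn : 2 ≤ finrank ℝ V) {Ω : Type} [MeasurableSpace Ω] (κ : Measure Ω)
    [IsProbabilityMeasure κ] (T : Ω → V →L[ℝ] V) (hTm : ∀ v, Measurable fun ω => T ω v)
    (hT : ∀ ω v, ‖T ω v‖ ≤ ‖v‖) {F : V → ℝ} (hF : Bd F) (hc : ContinuousOn F {0}ᶜ) {c : ℝ}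
    (h : ∀ w, hz F w = c * ∫ ω, ‖T ω w‖ ∂κ) {u : V} (hu : ‖u‖ = 1)
    (hfin : ∫⁻ ω, (ENNReal.ofReal ‖T ω u‖)⁻¹ ∂κ ≠ ∞) (a b : V) :
    c2 * Mf F u a b = c * ∫ ω, Phi (T ω) u a b ∂κ := by
  have hm : Measurable fun ω => (ENNReal.ofReal ‖T ω u‖)⁻¹ :=
    (ENNReal.measurable_ofReal.comp (hTm u).norm).inv
  have hne : ∀ᵐ ω ∂κ, T ω u ≠ 0 := by
    filter_upwards [ae_lt_top hm hfin] with ω hω h0
    simp [h0] at hω
  have hinv : Integrable (fun ω => ‖T ω u‖⁻¹) κ := by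
    refine (integrable_toReal_of_lintegral_ne_top hm.aemeasurable hfin).congr
      (Eventually.of_forall fun ω => ?_)
    simp
  have hPm : ∀ x y, Measurable fun ω => Phi (T ω) u x y := fun x y =>
    (((hTm x).inner (hTm y)).div (hTm u).norm).sub
      ((((hTm x).inner (hTm u)).mul ((hTm y).inner (hTm u))).div ((hTm u).norm.pow_const 3))
  have hPi : ∀ x y, Integrable (fun ω => Phi (T ω) u x y) κ := fun x y => by
    refine (hinv.const_mul (2 * (‖x‖ * ‖y‖))).mono' (hPm x y).aestronglyMeasurable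
      (Eventually.of_forall fun ω => ?_)
    rw [Real.norm_eq_abs, ← div_eq_mul_inv]
    exact abs_Phi_le (hT ω) u x y
  have hNi : ∀ w, Integrable (fun ω => ‖T ω w‖) κ := fun w =>
    Integrable.of_bound (C := ‖w‖) (hTm w).norm.aestronglyMeasurable
      (Eventually.of_forall fun ω => by simpa using hT ω w)
  have hdiag : ∀ v, ⟪u, v⟫ = 0 → c2 * Mf F u v v = c * ∫ ω, Phi (T ω) u v v ∂κ := by
    intro v huv
    have t1 := hz_second hn hF hc hu huv
    have t2 : Tendsto (fun t : ℝ => ∫ ω, (‖T ω u + t • T ω v‖ + ‖T ω u - t • T ω v‖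
        - 2 * ‖T ω u‖) / t ^ 2 ∂κ) (𝓝[>] 0) (𝓝 (∫ ω, Phi (T ω) u v v ∂κ)) := by
      refine tendsto_integral_filter_of_dominated_convergence (fun ω => ‖v‖ ^ 2 * ‖T ω u‖⁻¹)
        (Eventually.of_forall fun t => ?_) ?_ (hinv.const_mul _) ?_
      · exact ((((((hTm u).add ((hTm v).const_smul t)).norm).add
          (((hTm u).sub ((hTm v).const_smul t)).norm)).sub
          ((hTm u).norm.const_mul 2)).div_const _).aestronglyMeasurable
      · filter_upwards [self_mem_nhdsWithin] with t ht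
        filter_upwards [hne] with ω hω
        rw [Real.norm_eq_abs, ← div_eq_mul_inv]
        refine (norm_second_le hω (T ω v) ht).trans ?_
        exact div_le_div_of_nonneg_right (pow_le_pow_left₀ (norm_nonneg _) (hT ω v) 2)
          (norm_nonneg _)
      · filter_upwards [hne] with ω hω
        exact norm_second hω (T ω v)
    refine tendsto_nhds_unique t1 ((t2.const_mul c).congr fun t => ?_)
    have e : ∀ ω, (‖T ω u + t • T ω v‖ + ‖T ω u - t • T ω v‖ - 2 * ‖T ω u‖) / t ^ 2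
        = (‖T ω (u + t • v)‖ + ‖T ω (u - t • v)‖ - 2 * ‖T ω u‖) / t ^ 2 := fun ω => by
      simp only [map_add, map_sub, map_smul]
    simp only [e]
    have i1 : Integrable (fun ω => ‖T ω (u + t • v)‖ + ‖T ω (u - t • v)‖) κ :=
      (hNi _).add (hNi _)
    rw [integral_div, integral_sub i1 ((hNi _).const_mul 2),
      integral_add (hNi _) (hNi _), integral_const_mul, h, h, h]
    ring
  have hall : ∀ v, c2 * Mf F u v v = c * ∫ ω, Phi (T ω) u v v ∂κ := fun v => by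
    have := hdiag (pr u v) (inner_pr_self u v)
    rw [Mf_pr] at this
    simpa only [Phi_pr_HiF3] using this
  have e1 := Mf_pol_HiF3 hF u a b
  have e2 : 4 * ∫ ω, Phi (T ω) u a b ∂κ
      = ∫ ω, Phi (T ω) u (a + b) (a + b) ∂κ - ∫ ω, Phi (T ω) u (a - b) (a - b) ∂κ := by
    rw [← integral_sub (hPi _ _) (hPi _ _), ← integral_const_mul]
    simp only [Phi_pol_HiF3]
  have e3 := hall (a + b)
  have e4 := hall (a - b)
  have e5 : 4 * (c2 * Mf F u a b) = 4 * (c * ∫ ω, Phi (T ω) u a b ∂κ) := by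
    calc 4 * (c2 * Mf F u a b) = c2 * (4 * Mf F u a b) := by ring
      _ = c * (4 * ∫ ω, Phi (T ω) u a b ∂κ) := by rw [e1, e2, mul_sub, mul_sub, e3, e4]
      _ = _ := by ring
  linarith

end Pool.Agent.P.MP_181257_gt
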