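import Pool.Agent.P.MP_181257_gt.HiP1

/-! Gaussian smoothing in the normal directions. -/

set_option autoImplicit false
set_option linter.unusedSectionVars false
set_option linter.unusedVariables false

open MeasureTheory ProbabilityTheory Module Set Filter Topology
open scoped RealInnerProductSpace ENNReal Pointwise Matrix

noncomputable section

namespace Pool.Agent.P.MP_181257_gt

variable {V : Type} [NormedAddCommGroup V] [InnerProductSpace ℝ V] [FiniteDimensional ℝ V]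
  [MeasurableSpace V] [BorelSpace V]

theorem Td_apply_HiF4 (d : ℝ) (P : V →L[ℝ] V) (v : V) : Td d P v = P v + d • (v - P v) := by
  simp [Td]

theorem pU_pU_HiF4 (U : Submodule ℝ V) (v : V) : pU U (pU U v) = pU U v :=
  Submodule.starProjection_eq_self_iff.2 (U.starProjection_apply_mem v)

theorem inner_pU_sub_HiF4 (U : Submodule ℝ V) (v w : V) : ⟪pU U v, w - pU U w⟫ = 0 :=
  Submodule.inner_right_of_mem_orthogonal (U.starProjection_apply_mem v)
    (U.sub_starProjection_mem_orthogonal w)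

theorem norm_sq_Td_HiF4 (d : ℝ) (U : Submodule ℝ V) (v : V) :
    ‖Td d (pU U) v‖ ^ 2 = ‖pU U v‖ ^ 2 + d ^ 2 * ‖v - pU U v‖ ^ 2 := by
  rw [Td_apply_HiF4, norm_add_sq_real, real_inner_smul_right, inner_pU_sub_HiF4, norm_smul,
    mul_pow, Real.norm_eq_abs, sq_abs]
  ring

theorem norm_sq_split_HiF4 (U : Submodule ℝ V) (v : V) :
    ‖v‖ ^ 2 = ‖pU U v‖ ^ 2 + ‖v - pU U v‖ ^ 2 := by
  have h := norm_sq_Td_HiF4 1 U v
  rw [Td_apply_HiF4, one_smul, add_sub_cancel] at h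
  rw [h]; ring

theorem Td_Td_HiF4 (d e : ℝ) (U : Submodule ℝ V) (v : V) :
    Td d (pU U) (Td e (pU U) v) = Td (d * e) (pU U) v := by
  have h : pU U (Td e (pU U) v) = pU U v := by
    rw [Td_apply_HiF4, map_add, map_smul, map_sub, pU_pU_HiF4, sub_self, smul_zero, add_zero]
  rw [Td_apply_HiF4 d, h, Td_apply_HiF4, Td_apply_HiF4, add_sub_cancel_left, smul_smul]

theorem Td_one_HiF4 (P : V →L[ℝ] V) (v : V) : Td 1 P v = v := by
  rw [Td_apply_HiF4, one_smul, add_sub_cancel]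

theorem coef_nonneg_HiF4 {d : ℝ} (h0 : 0 < d) (h1 : d ≤ 1) : 0 ≤ d⁻¹ ^ 2 - 1 := by
  have h : 1 ≤ d⁻¹ := (one_le_inv₀ h0).2 h1
  nlinarith

theorem Gd_pos_HiF4 (d : ℝ) (P : V →L[ℝ] V) (x : V) : 0 < Gd d P x := Real.exp_pos _

theorem Gd_le_one_HiF4 {d : ℝ} (h0 : 0 < d) (h1 : d ≤ 1) (P : V →L[ℝ] V) (x : V) :
    Gd d P x ≤ 1 := by
  unfold Gd
  rw [Real.exp_le_one_iff]
  have := coef_nonneg_HiF4 h0 h1
  have h2 : 0 ≤ (d⁻¹ ^ 2 - 1) * ‖x - P x‖ ^ 2 / 2 := by positivity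
  linarith

theorem continuous_Gd_HiF4 (d : ℝ) (P : V →L[ℝ] V) : Continuous (Gd d P) := by
  unfold Gd
  fun_prop

theorem integrable_Gd_HiF4 {d : ℝ} (h0 : 0 < d) (h1 : d ≤ 1) (P : V →L[ℝ] V) :
    Integrable (Gd d P) (stdGaussian V) := by
  refine (integrable_const (1 : ℝ)).mono' (continuous_Gd_HiF4 d P).aestronglyMeasurable
    (ae_of_all _ fun x => ?_)
  rw [Real.norm_eq_abs, abs_of_pos (Gd_pos_HiF4 d P x)]
  exact Gd_le_one_HiF4 h0 h1 P x

theorem integral_Gd_pos_HiF4 {d : ℝ} (h0 : 0 < d) (h1 : d ≤ 1) (P : V →L[ℝ] V) :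
    0 < ∫ z, Gd d P z ∂(stdGaussian V) := by
  have h := integrable_Gd_HiF4 h0 h1 P
  unfold Gd at h ⊢
  exact integral_exp_pos h

theorem lintegral_Td_HiF4 {d : ℝ} (h0 : 0 < d) (U : Submodule ℝ V) : ∃ κ : ℝ≥0∞,
    ∀ φ : V → ℝ≥0∞, Measurable φ → ∫⁻ g, φ (Td d (pU U) g) ∂(stdGaussian V)
      = κ * ∫⁻ x, ENNReal.ofReal (Gd d (pU U) x) * φ x ∂(stdGaussian V) := by
  have hdet : LinearMap.det ((Td d (pU U) : V →L[ℝ] V) : V →ₗ[ℝ] V) ≠ 0 := by
    have hc : ((Td d (pU U) : V →L[ℝ] V) : V →ₗ[ℝ] V).comp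
        ((Td d⁻¹ (pU U) : V →L[ℝ] V) : V →ₗ[ℝ] V) = LinearMap.id := by
      ext v
      simp only [LinearMap.comp_apply, ContinuousLinearMap.coe_coe, LinearMap.id_apply]
      rw [Td_Td_HiF4, mul_inv_cancel₀ h0.ne', Td_one_HiF4]
    have h := congrArg LinearMap.det hc
    rw [LinearMap.det_comp, LinearMap.det_id] at h
    exact left_ne_zero_of_mul_eq_one h
  have hmap := Measure.map_linearMap_addHaar_eq_smul_addHaar (volume : Measure V) hdet
  refine ⟨ENNReal.ofReal |(LinearMap.det ((Td d (pU U) : V →L[ℝ] V) : V →ₗ[ℝ] V))⁻¹|,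
    fun φ hφ => ?_⟩
  set ρ : V → ℝ≥0∞ := fun x =>
    ENNReal.ofReal ((2 * Real.pi) ^ (-(finrank ℝ V : ℝ) / 2) * Real.exp (-‖x‖ ^ 2 / 2)) with hρ
  have hρm : Measurable ρ := by rw [hρ]; fun_prop
  have hT : Measurable (Td d (pU U)) := (Td d (pU U)).continuous.measurable
  have hS : Measurable (Td d⁻¹ (pU U)) := (Td d⁻¹ (pU U)).continuous.measurable
  have hG : Measurable fun x => ENNReal.ofReal (Gd d (pU U) x) :=
    (continuous_Gd_HiF4 d (pU U)).measurable.ennreal_ofReal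
  have hρS : ∀ x, ρ (Td d⁻¹ (pU U) x) = ρ x * ENNReal.ofReal (Gd d (pU U) x) := by
    intro x
    simp only [hρ]
    rw [← ENNReal.ofReal_mul (by positivity)]
    congr 1
    unfold Gd
    rw [mul_assoc, ← Real.exp_add, norm_sq_Td_HiF4, norm_sq_split_HiF4 U x]
    congr 2
    ring
  have hγ : stdGaussian V = (volume : Measure V).withDensity ρ := stdGaussian_eq_withDensity
  have e1 : ∫⁻ g, φ (Td d (pU U) g) ∂(stdGaussian V)
      = ∫⁻ g, (fun x => ρ (Td d⁻¹ (pU U) x) * φ x) (Td d (pU U) g) ∂(volume : Measure V) := by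
    have hφT : Measurable fun g => φ (Td d (pU U) g) := hφ.comp hT
    rw [hγ, lintegral_withDensity_eq_lintegral_mul _ hρm hφT]
    refine lintegral_congr fun g => ?_
    simp only [Pi.mul_apply]
    rw [Td_Td_HiF4, inv_mul_cancel₀ h0.ne', Td_one_HiF4]
  have hm : Measurable fun x => ρ (Td d⁻¹ (pU U) x) * φ x := (hρm.comp hS).mul hφ
  rw [e1, ← lintegral_map hm hT]
  have hmap' : Measure.map (Td d (pU U)) (volume : Measure V)
      = ENNReal.ofReal |(LinearMap.det ((Td d (pU U) : V →L[ℝ] V) : V →ₗ[ℝ] V))⁻¹|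
        • (volume : Measure V) := hmap
  rw [hmap', lintegral_smul_measure, smul_eq_mul]
  congr 1
  have hGφ : Measurable fun x => ENNReal.ofReal (Gd d (pU U) x) * φ x := hG.mul hφ
  rw [hγ, lintegral_withDensity_eq_lintegral_mul _ hρm hGφ]
  refine lintegral_congr fun x => ?_
  simp only [Pi.mul_apply]
  rw [hρS, mul_assoc]

theorem norm_Td {d : ℝ} (h0 : 0 ≤ d) (h1 : d ≤ 1) (U : Submodule ℝ V) (v : V) :
    ‖pU U v‖ ≤ ‖Td d (pU U) v‖ ∧ ‖Td d (pU U) v‖ ≤ ‖v‖ ∧ d * ‖v‖ ≤ ‖Td d (pU U) v‖ := by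
  have e1 := norm_sq_Td_HiF4 d U v
  have e2 := norm_sq_split_HiF4 U v
  have hd : d ^ 2 ≤ 1 := by nlinarith
  have ha := sq_nonneg ‖pU U v‖
  have hb := sq_nonneg ‖v - pU U v‖
  have hd0 := sq_nonneg d
  refine ⟨?_, ?_, ?_⟩
  · refine (pow_le_pow_iff_left₀ (norm_nonneg _) (norm_nonneg _) two_ne_zero).1 ?_
    rw [e1]; nlinarith
  · refine (pow_le_pow_iff_left₀ (norm_nonneg _) (norm_nonneg _) two_ne_zero).1 ?_
    rw [e1, e2]; nlinarith
  · refine (pow_le_pow_iff_left₀ (by positivity) (norm_nonneg _) two_ne_zero).1 ?_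
    rw [mul_pow, e1, e2]; nlinarith

theorem inner_Td_comm (d : ℝ) (U : Submodule ℝ V) (v w : V) :
    ⟪Td d (pU U) v, w⟫ = ⟪v, Td d (pU U) w⟫ := by
  have h : ⟪pU U v, w⟫ = ⟪v, pU U w⟫ := U.inner_starProjection_left_eq_right v w
  rw [Td_apply_HiF4, Td_apply_HiF4, inner_add_left, inner_add_right, real_inner_smul_left,
    real_inner_smul_right, inner_sub_left, inner_sub_right, h]

theorem tendsto_Td (P : V →L[ℝ] V) (v : V) :
    Tendsto (fun d : ℝ => Td d P v) (𝓝[>] 0) (𝓝 (P v)) := by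
  have h : Continuous fun d : ℝ => P v + d • (v - P v) := by fun_prop
  have h2 := (h.tendsto 0).mono_left (nhdsWithin_le_nhds (s := Ioi (0 : ℝ)))
  simp only [zero_smul, add_zero] at h2
  simpa only [Td_apply_HiF4] using h2

theorem measurable_Td (d : ℝ) (i : ℕ) :
    Measurable fun p : (Fin i → V) × V => Td d (Pj i p.1) p.2 := by
  have h : Measurable fun p : (Fin i → V) × V => Pj i p.1 p.2 :=
    measurable_Pj i measurable_fst measurable_snd
  simp only [Td_apply_HiF4]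
  exact h.add ((measurable_snd.sub h).const_smul d)

theorem Fd_bound {d : ℝ} (h0 : 0 < d) (h1 : d ≤ 1) : ∃ C : ℝ, ∀ (U : Submodule ℝ V) (x : V),
    0 ≤ Fd d (pU U) x ∧ Fd d (pU U) x ≤ C := by
  have hpos := integral_Gd_pos_HiF4 h0 h1 (0 : V →L[ℝ] V)
  refine ⟨1 / ∫ z, Gd d (0 : V →L[ℝ] V) z ∂(stdGaussian V), fun U x => ⟨?_, ?_⟩⟩
  · exact div_nonneg (Gd_pos_HiF4 d _ x).le (integral_Gd_pos_HiF4 h0 h1 _).le
  · unfold Fd
    refine div_le_div₀ zero_le_one (Gd_le_one_HiF4 h0 h1 _ x) hpos ?_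
    refine integral_mono (integrable_Gd_HiF4 h0 h1 _) (integrable_Gd_HiF4 h0 h1 _) fun z => ?_
    unfold Gd
    rw [Real.exp_le_exp]
    have e2 := norm_sq_split_HiF4 U z
    have hc := coef_nonneg_HiF4 h0 h1
    have ha := sq_nonneg ‖pU U z‖
    simp only [ContinuousLinearMap.zero_apply, sub_zero]
    rw [e2]
    nlinarith [mul_nonneg hc ha]

theorem continuous_Fd (d : ℝ) (P : V →L[ℝ] V) : Continuous (Fd d P) := by
  unfold Fd
  exact (continuous_Gd_HiF4 d P).div_const _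

theorem measurable_Fd (d : ℝ) (i : ℕ) :
    Measurable fun p : (Fin i → V) × V => Fd d (Pj i p.1) p.2 := by
  have h : Measurable fun p : (Fin i → V) × V => Pj i p.1 p.2 :=
    measurable_Pj i measurable_fst measurable_snd
  have hG : Measurable fun p : (Fin i → V) × V => Gd d (Pj i p.1) p.2 := by
    unfold Gd
    exact ((((measurable_snd.sub h).norm.pow_const 2).const_mul _).div_const 2).neg.exp
  have hI : Measurable fun y : Fin i → V => ∫ z, Gd d (Pj i y) z ∂(stdGaussian V) :=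
    (hG.stronglyMeasurable.integral_prod_right' (ν := stdGaussian V)).measurable
  unfold Fd
  exact hG.div (hI.comp measurable_fst)

theorem map_Td {d : ℝ} (h0 : 0 < d) (h1 : d ≤ 1) (U : Submodule ℝ V) :
    (stdGaussian V).map (Td d (pU U))
      = (stdGaussian V).withDensity fun x => ENNReal.ofReal (Fd d (pU U) x) := by
  obtain ⟨κ, hκ⟩ := lintegral_Td_HiF4 h0 U
  have hT : Measurable (Td d (pU U)) := (Td d (pU U)).continuous.measurable
  have hG : Measurable fun x => ENNReal.ofReal (Gd d (pU U) x) :=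
    (continuous_Gd_HiF4 d (pU U)).measurable.ennreal_ofReal
  have hF : Measurable fun x => ENNReal.ofReal (Fd d (pU U) x) :=
    (continuous_Fd d (pU U)).measurable.ennreal_ofReal
  have hpos := integral_Gd_pos_HiF4 h0 h1 (pU U)
  have h1' := hκ (fun _ => 1) measurable_const
  simp only [lintegral_const, measure_univ, mul_one] at h1'
  rw [← ofReal_integral_eq_lintegral_ofReal (integrable_Gd_HiF4 h0 h1 _)
    (ae_of_all _ fun x => (Gd_pos_HiF4 d _ x).le)] at h1'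
  have hκ' : κ = (ENNReal.ofReal (∫ z, Gd d (pU U) z ∂(stdGaussian V)))⁻¹ :=
    ENNReal.eq_inv_of_mul_eq_one_left h1'.symm
  have hFG : ∀ x, ENNReal.ofReal (Fd d (pU U) x) = κ * ENNReal.ofReal (Gd d (pU U) x) := by
    intro x
    unfold Fd
    rw [ENNReal.ofReal_div_of_pos hpos, hκ', div_eq_mul_inv, mul_comm]
  refine Measure.ext_of_lintegral _ fun φ hφ => ?_
  have hGφ : Measurable fun x => ENNReal.ofReal (Gd d (pU U) x) * φ x := hG.mul hφ
  rw [lintegral_map hφ hT, hκ φ hφ, lintegral_withDensity_eq_lintegral_mul _ hF hφ,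
    ← lintegral_const_mul _ hGφ]
  refine lintegral_congr fun x => ?_
  simp only [Pi.mul_apply]
  rw [hFG, mul_assoc]

theorem hz_Fd {d : ℝ} (h0 : 0 < d) (h1 : d ≤ 1) (U : Submodule ℝ V) (w : V) :
    hz (Fd d (pU U)) w = c0 * ‖Td d (pU U) w‖ := by
  obtain ⟨C, hC⟩ := Fd_bound (V := V) h0 h1
  have hT : Measurable (Td d (pU U)) := (Td d (pU U)).continuous.measurable
  have hF : Measurable fun x => ENNReal.ofReal (Fd d (pU U) x) :=
    (continuous_Fd d (pU U)).measurable.ennreal_ofReal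
  have hc : Continuous fun y : V => |⟪w, y⟫| := by fun_prop
  have e1 := integral_withDensity_eq_integral_toReal_smul (μ := stdGaussian V) hF
    (ae_of_all _ fun x => ENNReal.ofReal_lt_top) (fun y : V => |⟪w, y⟫|)
  rw [← map_Td h0 h1 U, integral_map hT.aemeasurable hc.aestronglyMeasurable] at e1
  rw [← integral_abs_inner]
  unfold hz
  calc ∫ y, |⟪w, y⟫| * Fd d (pU U) y ∂(stdGaussian V)
      = ∫ y, (ENNReal.ofReal (Fd d (pU U) y)).toReal • |⟪w, y⟫| ∂(stdGaussian V) := by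
        refine integral_congr_ae (ae_of_all _ fun y => ?_)
        simp only [smul_eq_mul]
        rw [ENNReal.toReal_ofReal (hC U y).1, mul_comm]
    _ = ∫ y, |⟪w, Td d (pU U) y⟫| ∂(stdGaussian V) := e1.symm
    _ = _ := by
        refine integral_congr_ae (ae_of_all _ fun y => ?_)
        simp only [inner_Td_comm]

end Pool.Agent.P.MP_181257_gt
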