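import Pool.Agent.P.MP_181257_gt.HiF3
import Pool.Agent.P.MP_181257_gt.HiF4

/-! Second moments of the smoothed density. -/

set_option autoImplicit false
set_option linter.unusedSectionVars false
set_option linter.unusedVariables false

open MeasureTheory ProbabilityTheory Module Set Filter Topology
open scoped RealInnerProductSpace ENNReal Pointwise Matrix

noncomputable section

namespace Pool.Agent.P.MP_181257_gt

variable {V : Type} [NormedAddCommGroup V] [InnerProductSpace ℝ V] [FiniteDimensional ℝ V]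
  [MeasurableSpace V] [BorelSpace V]

theorem meas_Td_HiF5 (d : ℝ) (i : ℕ) (v : V) :
    Measurable fun y : Fin i → V => Td d (Pj i y) v :=
  (measurable_Td d i).comp (measurable_id.prodMk measurable_const)

theorem meas_Phi_HiF5 (d : ℝ) (i : ℕ) (u a b : V) :
    Measurable fun y : Fin i → V => Phi (Td d (Pj i y)) u a b := by
  have h := meas_Td_HiF5 (V := V) d i
  unfold Phi
  exact (((h a).inner (h b)).div (h u).norm).sub
    ((((h a).inner (h u)).mul ((h b).inner (h u))).div ((h u).norm.pow_const 3))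

theorem Fd_bound_HiF5 {d : ℝ} (h0 : 0 < d) (h1 : d ≤ 1) (i : ℕ) :
    ∃ C : ℝ, ∀ (y : Fin i → V) (x : V), 0 ≤ Fd d (Pj i y) x ∧ Fd d (Pj i y) x ≤ C := by
  obtain ⟨C, hC⟩ := Fd_bound (V := V) h0 h1
  refine ⟨C, fun y x => ?_⟩
  rw [Pj_eq]
  exact hC _ x

theorem bd_Fa {i : ℕ} {ν : Measure V} (hν : Mom ν) (hW : 0 < Wr i ν) {d : ℝ} (h0 : 0 < d)
    (h1 : d ≤ 1) : Bd (Fa d i ν) ∧ (∀ x, 0 ≤ Fa d i ν x) ∧ Continuous (Fa d i ν) := by
  have := Fr_prob hν hW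
  obtain ⟨C, hC⟩ := Fd_bound_HiF5 (V := V) h0 h1 i
  have hb : ∀ (y : Fin i → V) (x : V), ‖Fd d (Pj i y) x‖ ≤ C := fun y x => by
    rw [Real.norm_of_nonneg (hC y x).1]
    exact (hC y x).2
  have hc : Continuous (Fa d i ν) := by
    unfold Fa
    refine continuous_of_dominated (F := fun (x : V) (y : Fin i → V) => Fd d (Pj i y) x)
      (bound := fun _ => C) (fun x => ?_) (fun x => Eventually.of_forall fun y => hb y x)
      (integrable_const C) (Eventually.of_forall fun y => continuous_Fd d _)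
    exact ((measurable_Fd d i).comp (measurable_id.prodMk measurable_const)).aestronglyMeasurable
  refine ⟨⟨hc.measurable, C, fun x => ?_⟩, fun x => integral_nonneg fun y => (hC y x).1, hc⟩
  have h := norm_integral_le_of_norm_le_const (μ := Fr i ν)
    (f := fun y => Fd d (Pj i y) x) (Eventually.of_forall fun y => hb y x)
  simpa [Fa] using h

theorem hz_Fa_HiF5 {i : ℕ} {ν : Measure V} (hν : Mom ν) (hW : 0 < Wr i ν) {d : ℝ} (h0 : 0 < d)
    (h1 : d ≤ 1) (w : V) : hz (Fa d i ν) w = c0 * ∫ y, ‖Td d (Pj i y) w‖ ∂(Fr i ν) := by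
  have := Fr_prob hν hW
  obtain ⟨C, hC⟩ := Fd_bound_HiF5 (V := V) h0 h1 i
  have hI : Integrable (fun x : V => |⟪w, x⟫| * C) (stdGaussian V) := by
    have h := (integrable_inner_pow w 1).abs.mul_const C
    simpa using h
  have hint : Integrable (Function.uncurry fun (x : V) (y : Fin i → V) =>
      |⟪w, x⟫| * Fd d (Pj i y) x) ((stdGaussian V).prod (Fr i ν)) := by
    refine (hI.comp_fst (Fr i ν)).mono' ?_ (Eventually.of_forall fun p => ?_)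
    · have h1 : Measurable fun p : V × (Fin i → V) => |⟪w, p.1⟫| := by fun_prop
      have h2 := (measurable_Fd (V := V) d i).comp
        (measurable_snd.prodMk measurable_fst :
          Measurable fun p : V × (Fin i → V) => (p.2, p.1))
      have h3 : Measurable fun p : V × (Fin i → V) => Fd d (Pj i p.2) p.1 := by
        simpa only [Function.comp_def] using h2
      have hm : Measurable fun p : V × (Fin i → V) => |⟪w, p.1⟫| * Fd d (Pj i p.2) p.1 :=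
        h1.mul h3
      exact hm.aestronglyMeasurable
    · show ‖|⟪w, p.1⟫| * Fd d (Pj i p.2) p.1‖ ≤ |⟪w, p.1⟫| * C
      rw [Real.norm_of_nonneg (mul_nonneg (abs_nonneg _) (hC _ _).1)]
      exact mul_le_mul_of_nonneg_left (hC _ _).2 (abs_nonneg _)
  calc hz (Fa d i ν) w
      = ∫ x, ∫ y, |⟪w, x⟫| * Fd d (Pj i y) x ∂(Fr i ν) ∂(stdGaussian V) := by
        unfold hz Fa
        simp only [integral_const_mul]
    _ = ∫ y, ∫ x, |⟪w, x⟫| * Fd d (Pj i y) x ∂(stdGaussian V) ∂(Fr i ν) :=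
        integral_integral_swap hint
    _ = ∫ y, c0 * ‖Td d (Pj i y) w‖ ∂(Fr i ν) := by
        refine integral_congr_ae (Eventually.of_forall fun y => ?_)
        have h := hz_Fd h0 h1 (nrm y) w
        rw [← Pj_eq] at h
        exact h
    _ = _ := integral_const_mul _ _

theorem Td_HiF5 {d : ℝ} (h0 : 0 ≤ d) (h1 : d ≤ 1) {i : ℕ} (y : Fin i → V) (v : V) :
    ‖Pj i y v‖ ≤ ‖Td d (Pj i y) v‖ ∧ ‖Td d (Pj i y) v‖ ≤ ‖v‖
      ∧ d * ‖v‖ ≤ ‖Td d (Pj i y) v‖ := by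
  rw [Pj_eq]
  exact norm_Td h0 h1 _ v

theorem Mf_Fa (hn : 2 ≤ finrank ℝ V) {i : ℕ} {ν : Measure V} (hν : Mom ν) (hW : 0 < Wr i ν)
    {d : ℝ} (h0 : 0 < d) (h1 : d ≤ 1) {u : V} (hu : ‖u‖ = 1) (a b : V) :
    c2 * Mf (Fa d i ν) u a b = c0 * ∫ y, Phi (Td d (Pj i y)) u a b ∂(Fr i ν) := by
  have := Fr_prob hν hW
  obtain ⟨hB, -, hc⟩ := bd_Fa hν hW h0 h1
  refine Mf_eq_Phi hn (Fr i ν) (fun y => Td d (Pj i y)) (meas_Td_HiF5 d i)
    (fun y v => (Td_HiF5 h0.le h1 y v).2.1) hB hc.continuousOn (hz_Fa_HiF5 hν hW h0 h1) hu ?_ a b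
  have hle : ∫⁻ y, (ENNReal.ofReal ‖Td d (Pj i y) u‖)⁻¹ ∂(Fr i ν)
      ≤ ∫⁻ _, (ENNReal.ofReal d)⁻¹ ∂(Fr i ν) := by
    refine lintegral_mono fun y => ENNReal.inv_le_inv.2 (ENNReal.ofReal_le_ofReal ?_)
    have h := (Td_HiF5 h0.le h1 y u).2.2
    rwa [hu, mul_one] at h
  refine ne_top_of_le_ne_top ?_ hle
  rw [lintegral_const, measure_univ, mul_one]
  exact ENNReal.inv_ne_top.2 (ENNReal.ofReal_pos.2 h0).ne'

theorem Mf_Fa_HiF5 (hn : 2 ≤ finrank ℝ V) {i : ℕ} {ν : Measure V} (hν : Mom ν) (hW : 0 < Wr i ν)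
    {d : ℝ} (h0 : 0 < d) (h1 : d ≤ 1) {u : V} (hu : ‖u‖ = 1) (a b : V) :
    Mf (Fa d i ν) u a b = c0 / c2 * ∫ y, Phi (Td d (Pj i y)) u a b ∂(Fr i ν) := by
  have h := Mf_Fa hn hν hW h0 h1 hu a b
  have h2 := c2_pos.ne'
  rw [div_mul_eq_mul_div, ← h]
  field_simp

theorem Phi_le_HiF5 {d : ℝ} (h0 : 0 ≤ d) (h1 : d ≤ 1) {i : ℕ} {y : Fin i → V} {u : V}
    (hy : Pj i y u ≠ 0) (a b : V) :
    ‖Phi (Td d (Pj i y)) u a b‖ ≤ 2 * (‖a‖ * ‖b‖) * ‖Pj i y u‖⁻¹ ^ 1 := by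
  rw [Real.norm_eq_abs, pow_one, ← div_eq_mul_inv]
  refine (abs_Phi_le (fun v => (Td_HiF5 h0 h1 y v).2.1) u a b).trans ?_
  exact div_le_div_of_nonneg_left (by positivity) (norm_pos_iff.2 hy) (Td_HiF5 h0 h1 y u).1

theorem Mf_Fa_bound (hn : 2 ≤ finrank ℝ V) {i : ℕ} {ν : Measure V} (hν : Mom ν)
    (hW : 0 < Wr i ν) {C : ℝ} (hC : 1 ≤ C) (hN : Neg4 i ν C) {d : ℝ} (h0 : 0 < d) (h1 : d ≤ 1)
    {u : V} (hu : ‖u‖ = 1) (a b : V) :
    |Mf (Fa d i ν) u a b| ≤ c0 / c2 * (2 * C) * (‖a‖ * ‖b‖) := by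
  obtain ⟨hI, hle⟩ := hN.inv_pow hν hW hC hu (p := 1) (by norm_num)
  have hq : 0 ≤ c0 / c2 := (div_pos c0_pos c2_pos).le
  rw [Mf_Fa_HiF5 hn hν hW h0 h1 hu, abs_mul, abs_of_nonneg hq, mul_assoc]
  refine mul_le_mul_of_nonneg_left ?_ hq
  have h := norm_integral_le_of_norm_le (hI.const_mul (2 * (‖a‖ * ‖b‖)))
    ((hN.ae_ne hu).mono fun y hy => Phi_le_HiF5 h0.le h1 hy a b)
  rw [integral_const_mul, Real.norm_eq_abs] at h
  calc _ ≤ _ := h
    _ ≤ 2 * (‖a‖ * ‖b‖) * C := mul_le_mul_of_nonneg_left hle (by positivity)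
    _ = _ := by ring

theorem Mf_Fa_tendsto (hn : 2 ≤ finrank ℝ V) {i : ℕ} {ν : Measure V} (hν : Mom ν)
    (hW : 0 < Wr i ν) {C : ℝ} (hC : 1 ≤ C) (hN : Neg4 i ν C) {u : V} (hu : ‖u‖ = 1) (a b : V) :
    Tendsto (fun d : ℝ => Mf (Fa d i ν) u a b) (𝓝[>] 0) (𝓝 (c0 / c2 * MK i ν u a b)) := by
  obtain ⟨hI, -⟩ := hN.inv_pow hν hW hC hu (p := 1) (by norm_num)
  have hev : ∀ᶠ d : ℝ in 𝓝[>] 0, 0 < d ∧ d ≤ 1 :=
    Ioc_mem_nhdsGT (zero_lt_one' ℝ)
  have hT : Tendsto (fun d : ℝ => ∫ y, Phi (Td d (Pj i y)) u a b ∂(Fr i ν)) (𝓝[>] 0)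
      (𝓝 (MK i ν u a b)) := by
    unfold MK
    refine tendsto_integral_filter_of_dominated_convergence
      (fun y => 2 * (‖a‖ * ‖b‖) * ‖Pj i y u‖⁻¹ ^ 1)
      (Eventually.of_forall fun d => (meas_Phi_HiF5 d i u a b).aestronglyMeasurable)
      (hev.mono fun d hd => (hN.ae_ne hu).mono fun y hy => Phi_le_HiF5 hd.1.le hd.2 hy a b)
      (hI.const_mul _) ((hN.ae_ne hu).mono fun y hy => ?_)
    have h := tendsto_Td (Pj i y)
    have hn0 : ‖Pj i y u‖ ≠ 0 := norm_ne_zero_iff.2 hy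
    unfold Phi
    exact (((h a).inner (h b)).div (h u).norm hn0).sub
      ((((h a).inner (h u)).mul ((h b).inner (h u))).div ((h u).norm.pow 3) (pow_ne_zero 3 hn0))
  exact (hT.const_mul (c0 / c2)).congr'
    (hev.mono fun d hd => (Mf_Fa_HiF5 hn hν hW hd.1 hd.2 hu a b).symm)

end Pool.Agent.P.MP_181257_gt
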