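import Pool.Agent.P.MP_181257_gt.HiF4
import Pool.Agent.P.MP_181257_gt.HiFr2

/-! Volumes for the smoothed density. -/

set_option autoImplicit false
set_option linter.unusedSectionVars false
set_option linter.unusedVariables false

open MeasureTheory ProbabilityTheory Module Set Filter Topology
open scoped RealInnerProductSpace ENNReal Pointwise Matrix

noncomputable section

namespace Pool.Agent.P.MP_181257_gt

variable {V : Type} [NormedAddCommGroup V] [InnerProductSpace ℝ V] [FiniteDimensional ℝ V]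
  [MeasurableSpace V] [BorelSpace V]

theorem Fa_meas_HiF6 {i : ℕ} {ν : Measure V} (hν : Mom ν) (hW : 0 < Wr i ν) (d : ℝ) :
    Measurable (Fa d i ν) := by
  have := Fr_prob hν hW
  exact ((measurable_Fd d i).stronglyMeasurable.integral_prod_left' (μ := Fr i ν)).measurable

theorem Fa_bd_HiF6 {i : ℕ} {ν : Measure V} (hν : Mom ν) (hW : 0 < Wr i ν) {d : ℝ} (h0 : 0 < d)
    (h1 : d ≤ 1) : ∃ C, ∀ x, 0 ≤ Fa d i ν x ∧ Fa d i ν x ≤ C := by
  obtain ⟨C, hC⟩ := Fd_bound (V := V) h0 h1
  have := Fr_prob hν hW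
  have hb : ∀ (y : Fin i → V) x, 0 ≤ Fd d (Pj i y) x ∧ Fd d (Pj i y) x ≤ C := fun y x => by
    rw [Pj_eq]; exact hC _ x
  refine ⟨C, fun x => ⟨integral_nonneg fun y => (hb y x).1, ?_⟩⟩
  have := integral_mono_of_nonneg (μ := Fr i ν) (ae_of_all _ fun y => (hb y x).1)
    (integrable_const C) (ae_of_all _ fun y => (hb y x).2)
  simpa [Fa] using this

theorem map_Fa {i : ℕ} {ν : Measure V} (hν : Mom ν) (hW : 0 < Wr i ν) {d : ℝ} (h0 : 0 < d)
    (h1 : d ≤ 1) :
    ((Fr i ν).prod (stdGaussian V)).map (fun p : (Fin i → V) × V => Td d (Pj i p.1) p.2)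
      = (stdGaussian V).withDensity fun x => ENNReal.ofReal (Fa d i ν x) := by
  obtain ⟨C, hC⟩ := Fd_bound (V := V) h0 h1
  have := Fr_prob hν hW
  have hb : ∀ (y : Fin i → V) x, 0 ≤ Fd d (Pj i y) x ∧ Fd d (Pj i y) x ≤ C := fun y x => by
    rw [Pj_eq]; exact hC _ x
  refine Measure.ext_of_lintegral _ fun φ hφ => ?_
  have m1 : Measurable fun p : (Fin i → V) × V => φ (Td d (Pj i p.1) p.2) := by
    have h := hφ.comp (measurable_Td (V := V) d i)
    exact h
  have m2 : Measurable fun p : (Fin i → V) × V => ENNReal.ofReal (Fd d (Pj i p.1) p.2) :=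
    (measurable_Fd d i).ennreal_ofReal
  have m3 : Measurable fun x => ENNReal.ofReal (Fa d i ν x) := 
    (Fa_meas_HiF6 hν hW d).ennreal_ofReal
  rw [lintegral_map hφ (measurable_Td d i), lintegral_prod _ m1.aemeasurable,
    lintegral_withDensity_eq_lintegral_mul _ m3 hφ]
  have e1 : ∀ y : Fin i → V, ∫⁻ g, φ (Td d (Pj i y) g) ∂(stdGaussian V)
      = ∫⁻ x, ENNReal.ofReal (Fd d (Pj i y) x) * φ x ∂(stdGaussian V) := fun y => by
    rw [← lintegral_map hφ (Td d (Pj i y)).continuous.measurable, Pj_eq, map_Td h0 h1,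
      lintegral_withDensity_eq_lintegral_mul _ (continuous_Fd d _).measurable.ennreal_ofReal hφ]
    rfl
  have m6 : Measurable fun p : (Fin i → V) × V => φ p.2 := hφ.comp measurable_snd
  have m5 : Measurable (Function.uncurry fun (y : Fin i → V) (x : V) =>
      ENNReal.ofReal (Fd d (Pj i y) x) * φ x) := by
    have h := m2.mul m6
    exact h
  rw [lintegral_congr e1, lintegral_lintegral_swap m5.aemeasurable]
  refine lintegral_congr fun x => ?_
  have m4 : Measurable fun y : Fin i → V => Fd d (Pj i y) x :=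
    by
    have h := (measurable_Fd (V := V) d i).comp (measurable_prodMk_right (y := x))
    exact h
  have i4 : Integrable (fun y : Fin i → V => Fd d (Pj i y) x) (Fr i ν) :=
    Integrable.of_bound m4.aestronglyMeasurable C
      (ae_of_all _ fun y => by rw [Real.norm_of_nonneg (hb y x).1]; exact (hb y x).2)
  have e2 : ENNReal.ofReal (Fa d i ν x) = ∫⁻ y, ENNReal.ofReal (Fd d (Pj i y) x) ∂(Fr i ν) :=
    ofReal_integral_eq_lintegral_ofReal i4 (ae_of_all _ fun y => (hb y x).1)
  rw [lintegral_mul_const _ m4.ennreal_ofReal, ← e2]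
  rfl

theorem pi_HiF6 {p : V → ℝ} (hp : Measurable p) {C : ℝ} (h : ∀ x, 0 ≤ p x ∧ p x ≤ C) (r : ℕ) :
    mk ((stdGaussian V).withDensity fun x => ENNReal.ofReal (p x)) r =
      (γk V r).withDensity fun y => ENNReal.ofReal (∏ j, p (y j)) := by
  have hb : Bd p := ⟨hp, C, fun x => by rw [abs_of_nonneg (h x).1]; exact (h x).2⟩
  have : IsFiniteMeasure ((stdGaussian V).withDensity fun x => ENNReal.ofReal (p x)) :=
    isFiniteMeasure_withDensity_ofReal (hb.integrable _).2
  refine Measure.pi_eq fun s hs => ?_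
  rw [withDensity_apply _ (MeasurableSet.univ_pi hs), Measure.restrict_pi_pi,
    ← ofReal_integral_eq_lintegral_ofReal
      (Integrable.fintype_prod (f := fun _ : Fin r => p) fun j => hb.integrable _)
      (ae_of_all _ fun y => Finset.prod_nonneg fun j _ => (h _).1),
    integral_fintype_prod_eq_prod (fun _ : Fin r => p),
    ENNReal.ofReal_prod_of_nonneg fun j _ => integral_nonneg fun x => (h x).1]
  refine Finset.prod_congr rfl fun j _ => ?_
  rw [withDensity_apply _ (hs j), ofReal_integral_eq_lintegral_ofReal (hb.integrable _)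
    (ae_of_all _ fun x => (h x).1)]

theorem vol_Fa_tendsto {i : ℕ} {ν : Measure V} (hν : Mom ν) (hW : 0 < Wr i ν) (k : ℕ) (u : V) :
    Tendsto (fun d : ℝ => ∫ x, D x * ‖Pj k x u‖ * ∏ j, Fa d i ν (x j) ∂(γk V k)) (𝓝[>] 0)
      (𝓝 (∫ x, D x * ‖Pj k x u‖ ∂(mk (Tn i ν) k))) := by
  have := Fr_prob hν hW
  have := (Tn_mom hν hW).prob
  set Q := (Fr i ν).prod (stdGaussian V) with hQ
  have hΦ : Continuous fun x : Fin k → V => D x * ‖Pj k x u‖ := by
    simp only [← D_cons_eq]
    refine continuous_D.comp (continuous_pi fun j => ?_)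
    refine Fin.cases ?_ (fun j => ?_) j
    · simpa using continuous_const
    · simpa using continuous_apply j
  have hle : ∀ x : Fin k → V, D x * ‖Pj k x u‖ ≤ (∏ j, ‖x j‖) * ‖u‖ := fun x =>
    mul_le_mul (D_le_prod x) (norm_Pj_le x u) (norm_nonneg _) (by positivity)
  have e0 : ∫ x, D x * ‖Pj k x u‖ ∂(mk (Tn i ν) k)
      = ∫ ω : Fin k → (Fin i → V) × V, D (fun j => Pj i (ω j).1 (ω j).2)
        * ‖Pj k (fun j => Pj i (ω j).1 (ω j).2) u‖ ∂(Measure.pi fun _ => Q) :=
    (moment_integral_mp (measurePreserving_pi _ _ fun _ => mp_Tn) hΦ.measurable).symm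
  have e1 : ∀ d : ℝ, 0 < d → d ≤ 1 → ∫ x, D x * ‖Pj k x u‖ * ∏ j, Fa d i ν (x j) ∂(γk V k)
      = ∫ ω : Fin k → (Fin i → V) × V, D (fun j => Td d (Pj i (ω j).1) (ω j).2)
        * ‖Pj k (fun j => Td d (Pj i (ω j).1) (ω j).2) u‖ ∂(Measure.pi fun _ => Q) := by
    intro d h0 h1
    obtain ⟨C, hC⟩ := Fa_bd_HiF6 hν hW h0 h1
    have hm := Fa_meas_HiF6 hν hW d
    have hp : MeasurePreserving (fun p : (Fin i → V) × V => Td d (Pj i p.1) p.2) Q
        ((stdGaussian V).withDensity fun x => ENNReal.ofReal (Fa d i ν x)) :=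
      ⟨measurable_Td d i, map_Fa hν hW h0 h1⟩
    have : IsProbabilityMeasure
        ((stdGaussian V).withDensity fun x => ENNReal.ofReal (Fa d i ν x)) := by
      rw [← hp.map_eq]
      exact Measure.isProbabilityMeasure_map hp.measurable.aemeasurable
    refine Eq.trans ?_
      (moment_integral_mp (measurePreserving_pi _ _ fun _ => hp) hΦ.measurable).symm
    have h2 := pi_HiF6 hm hC k
    unfold mk at h2
    rw [h2, integral_withDensity_eq_integral_toReal_smul (by fun_prop)
      (ae_of_all _ fun _ => ENNReal.ofReal_lt_top)]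
    refine integral_congr_ae (ae_of_all _ fun y => ?_)
    simp only [smul_eq_mul]
    rw [ENNReal.toReal_ofReal (Finset.prod_nonneg fun j _ => (hC _).1), mul_comm]
  have hev : ∀ᶠ d : ℝ in 𝓝[>] 0, 0 < d ∧ d ≤ 1 := Ioc_mem_nhdsGT one_pos
  rw [e0]
  refine Tendsto.congr' (hev.mono fun d hd => (e1 d hd.1 hd.2).symm) ?_
  have hi : Integrable (fun p : (Fin i → V) × V => ‖p.2‖) Q := rep_int_norm.comp_snd _
  refine tendsto_integral_filter_of_dominated_convergence
    (fun ω => (∏ j, ‖(ω j).2‖) * ‖u‖) (Eventually.of_forall fun d => ?_)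
    (hev.mono fun d hd => ae_of_all _ fun ω => ?_)
    ((Integrable.fintype_prod (f := fun _ (p : (Fin i → V) × V) => ‖p.2‖)
      fun _ => hi).mul_const _) (ae_of_all _ fun ω => ?_)
  · have hm : Measurable fun (ω : Fin k → (Fin i → V) × V) (j : Fin k) =>
        Td d (Pj i (ω j).1) (ω j).2 :=
      measurable_pi_lambda _ fun j => (measurable_Td d i).comp (measurable_pi_apply j)
    exact (hΦ.measurable.comp hm).aestronglyMeasurable
  · rw [Real.norm_of_nonneg (mul_nonneg (D_nonneg _) (norm_nonneg _))]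
    refine (hle _).trans (mul_le_mul_of_nonneg_right
      (Finset.prod_le_prod (fun _ _ => norm_nonneg _) fun j _ => ?_) (norm_nonneg _))
    rw [Pj_eq]
    exact (norm_Td hd.1.le hd.2 _ _).2.1
  · exact (hΦ.tendsto _).comp (tendsto_pi_nhds.2 fun j => tendsto_Td _ _)

end Pool.Agent.P.MP_181257_gt
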