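import Pool.Agent.P.MP_181257_gt.HiF5
import Pool.Agent.P.MP_181257_gt.HiF6

/-! The density of a fixed pair. -/

set_option autoImplicit false
set_option linter.unusedSectionVars false
set_option linter.unusedVariables false

open MeasureTheory ProbabilityTheory Module Set Filter Topology
open scoped RealInnerProductSpace ENNReal Pointwise Matrix

noncomputable section

namespace Pool.Agent.P.MP_181257_gt

variable {V : Type} [NormedAddCommGroup V] [InnerProductSpace ℝ V] [FiniteDimensional ℝ V]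
  [MeasurableSpace V] [BorelSpace V]

theorem dens_eq (i : ℕ) (μ : Measure V) {y : V} (hy : y ≠ 0) :
    dens i μ y = Ei i (MK i μ (‖y‖⁻¹ • y)) := by
  have h : 0 < ‖y‖ := norm_pos_iff.2 hy
  unfold dens
  congr 1
  funext a b
  rw [MK_hom i μ (inv_pos.2 h), inv_inv]

theorem unit_HiF7 {y : V} (hy : y ≠ 0) : ‖‖y‖⁻¹ • y‖ = 1 := by
  rw [norm_smul, norm_inv, norm_norm, inv_mul_cancel₀ (norm_ne_zero_iff.2 hy)]

theorem ev_HiF7 : ∀ᶠ d : ℝ in 𝓝[>] 0, 0 < d ∧ d ≤ 1 := by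
  filter_upwards [Ioc_mem_nhdsGT (zero_lt_one' ℝ)] with d hd using hd

theorem Vq_unit_HiF7 (i : ℕ) {F : V → ℝ} (hF : Bd F) {y : V} (hy : y ≠ 0) :
    Vq i F y = Ei i (Mf F (‖y‖⁻¹ • y)) := by
  rw [← Vq_eq_Ei i hF, Vq_hom i F (inv_ne_zero (norm_ne_zero_iff.2 hy))]

theorem Vq_tendsto_HiF7 (hn : 2 ≤ finrank ℝ V) {i : ℕ} {ν : Measure V} (hν : Mom ν)
    (hW : 0 < Wr i ν) {C : ℝ} (hC : 1 ≤ C) (hN : Neg4 i ν C) {y : V} (hy : y ≠ 0) :
    Tendsto (fun d : ℝ => Vq i (Fa d i ν) y) (𝓝[>] 0) (𝓝 ((c0 / c2) ^ i * dens i ν y)) := by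
  have h := Ei_tendsto i (fun a b => Mf_Fa_tendsto hn hν hW hC hN (unit_HiF7 hy) a b)
  rw [Ei_smul, ← dens_eq i ν hy] at h
  refine h.congr' ?_
  filter_upwards [ev_HiF7] with d hd
  exact (Vq_unit_HiF7 i (bd_Fa hν hW hd.1 hd.2).1 hy).symm

theorem density {i : ℕ} {μ ν : Measure V} (h : FP i μ ν) (hi : 1 ≤ i)
    (hin : i + 1 ≤ finrank ℝ V) {C : ℝ} (hC : 1 ≤ C) (hN : Neg4 i ν C) :
    (∀ y, 0 ≤ dens i ν y) ∧ ∃ c : ℝ, 0 < c ∧ ∀ u, th i μ u = c * hz (dens i ν) u := by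
  have hn : 2 ≤ finrank ℝ V := by omega
  have hq : 0 < (c0 / c2) ^ i := pow_pos (div_pos c0_pos c2_pos) i
  refine ⟨fun y => ?_, ?_⟩
  · by_cases hy : y = 0
    · rw [hy, dens, Ei_smul, norm_zero, zero_pow (by omega), zero_mul]
    · have h1 : 0 ≤ (c0 / c2) ^ i * dens i ν y := by
        refine ge_of_tendsto (Vq_tendsto_HiF7 hn h.mr h.wr hC hN hy) ?_
        filter_upwards [ev_HiF7] with d hd
        exact Vq_nonneg i (bd_Fa h.mr h.wr hd.1 hd.2).2.1 y
      exact (mul_nonneg_iff_of_pos_left hq).1 h1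
  · obtain ⟨c, hc, hb⟩ := bp_supp' (V := V) hin
    obtain ⟨K, hK⟩ := Ei_bound (V := V) i (c0 / c2 * (2 * C))
    refine ⟨(Wr i μ)⁻¹ * (c * (c0 / c2) ^ i), mul_pos (inv_pos.2 h.wl) (mul_pos hc hq),
      fun u => ?_⟩
    have h1 : Tendsto (fun d : ℝ => hz (Vq i (Fa d i ν)) u) (𝓝[>] 0)
        (𝓝 (∫ y, |⟪u, y⟫| * ((c0 / c2) ^ i * dens i ν y) ∂(stdGaussian V))) := by
      refine tendsto_integral_filter_of_dominated_convergence (fun y => |⟪u, y⟫| * K) ?_ ?_
        (proj_integrable_hz (f := fun _ => K) ⟨measurable_const, |K|, fun _ => le_rfl⟩ u)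
        (Eventually.of_forall fun y => ?_)
      · filter_upwards [ev_HiF7] with d hd
        exact (proj_integrable_hz (bd_Vq i (bd_Fa h.mr h.wr hd.1 hd.2).1) u).aestronglyMeasurable
      · filter_upwards [ev_HiF7] with d hd
        refine Eventually.of_forall fun y => ?_
        by_cases hy : y = 0
        · simp [hy]
        · rw [Real.norm_eq_abs, abs_mul, abs_abs,
            Vq_unit_HiF7 i (bd_Fa h.mr h.wr hd.1 hd.2).1 hy]
          refine mul_le_mul_of_nonneg_left (hK _ fun a b ha hb' => ?_) (abs_nonneg _)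
          have := Mf_Fa_bound hn h.mr h.wr hC hN hd.1 hd.2 (unit_HiF7 hy) a b
          rwa [ha, hb', mul_one, mul_one] at this
      · by_cases hy : y = 0
        · simp [hy]
        · exact (Vq_tendsto_HiF7 hn h.mr h.wr hC hN hy).const_mul _
    have h2 := vol_Fa_tendsto h.mr h.wr i u
    rw [← h.el] at h2
    have h3 := tendsto_nhds_unique h2 ((h1.const_mul c).congr' (by
      filter_upwards [ev_HiF7] with d hd
      exact (hb _ (bd_Fa h.mr h.wr hd.1 hd.2).1 (bd_Fa h.mr h.wr hd.1 hd.2).2.1 u).symm))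
    have h4 : ∫ y, |⟪u, y⟫| * ((c0 / c2) ^ i * dens i ν y) ∂(stdGaussian V)
        = (c0 / c2) ^ i * hz (dens i ν) u := by
      rw [hz, ← integral_const_mul]
      exact integral_congr_ae (Eventually.of_forall fun y => by ring)
    rw [th, integral_Fr h.wl, h3, h4]
    ring

theorem Lf_dens {i : ℕ} {μ : Measure V} (hμ : Mom μ) (hW : 0 < Wr i μ) {C : ℝ} (hC : 1 ≤ C)
    (hN : Neg4 i μ C) (h0 : ∀ y, 0 ≤ dens i μ y) : Lf (dens i μ) := by
  have hb : ∀ u a b : V, ‖u‖ = 1 → ‖a‖ = 1 → ‖b‖ = 1 → |MK i μ u a b| ≤ 2 * C := by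
    intro u a b hu ha hb
    have := abs_MK_le hμ hW hC hN hu a b
    rwa [ha, hb, mul_one, mul_one] at this
  refine ⟨measurable_Ei i fun a b => measurable_norm.mul (measurable_MK hμ hW a b),
    fun t ht x => ?_, h0, ?_, ?_⟩
  · unfold dens
    congr 1
    funext a b
    rw [MK_hom i μ ht, norm_smul, Real.norm_of_nonneg ht.le]
    field_simp
  · obtain ⟨K, hK⟩ := Ei_bound (V := V) i (2 * C)
    refine ⟨max K (dens i μ 0), fun x => ?_⟩
    by_cases hx : x = 0
    · rw [hx]; exact le_max_right _ _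
    · rw [dens_eq i μ hx]
      exact ((le_abs_self _).trans (hK _ fun a b => hb _ a b (unit_HiF7 hx))).trans
        (le_max_left _ _)
  · obtain ⟨K, hK0, hK⟩ := Ei_lip (V := V) i (2 * C)
    refine ⟨K * (20 * C), by positivity, fun x y hx hy => ?_⟩
    have e : ∀ z : V, ‖z‖ = 1 → dens i μ z = Ei i (MK i μ z) := by
      intro z hz'
      unfold dens
      congr 1
      funext a b
      rw [hz', one_mul]
    rw [e x hx, e y hy, mul_assoc]
    exact hK _ _ _ (by positivity) fun a b ha hb' =>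
      ⟨hb x a b hx ha hb', hb y a b hy ha hb', MK_lip hμ hW hC hN hx hy ha.le hb'.le⟩

end Pool.Agent.P.MP_181257_gt
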