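import Pool.Agent.P.MP_181257_gt.HiP1

/-! The frame law. -/

set_option autoImplicit false
set_option linter.unusedSectionVars false
set_option linter.unusedVariables false

open MeasureTheory ProbabilityTheory Module Set Filter Topology
open scoped RealInnerProductSpace ENNReal Pointwise Matrix

noncomputable section

namespace Pool.Agent.P.MP_181257_gt

variable {V : Type} [NormedAddCommGroup V] [InnerProductSpace ℝ V] [FiniteDimensional ℝ V]
  [MeasurableSpace V] [BorelSpace V]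

theorem measurable_ofReal_D_HiFr1 {k : ℕ} :
    Measurable fun x : Fin k → V => ENNReal.ofReal (D x) :=
  (measurable_D measurable_id).ennreal_ofReal

theorem integrable_prod_norm_mk {μ : Measure V} (hμ : Mom μ) (k : ℕ) :
    Integrable (fun x : Fin k → V => ∏ j, ‖x j‖) (mk μ k) := by
  have := hμ.prob
  exact Integrable.fintype_prod (f := fun (_ : Fin k) (v : V) => ‖v‖) fun _ => hμ.int

theorem integrable_D_mk {μ : Measure V} (hμ : Mom μ) (k : ℕ) (U : Submodule ℝ V) :
    Integrable (fun x : Fin k → V => D fun j => pU U (x j)) (mk μ k) := by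
  refine (integrable_prod_norm_mk hμ k).mono' ?_ (Eventually.of_forall fun x => ?_)
  · exact (measurable_D (by fun_prop)).aestronglyMeasurable
  · rw [Real.norm_of_nonneg (D_nonneg _)]
    exact (D_le_prod _).trans
      (Finset.prod_le_prod (fun j _ => norm_nonneg _) fun j _ => norm_pU_le U (x j))

theorem integrable_D_mk' {μ : Measure V} (hμ : Mom μ) (k : ℕ) :
    Integrable (fun x : Fin k → V => D x) (mk μ k) := by
  refine (integrable_prod_norm_mk hμ k).mono' ?_ (Eventually.of_forall fun x => ?_)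
  · exact (measurable_D measurable_id).aestronglyMeasurable
  · rw [Real.norm_of_nonneg (D_nonneg _)]
    exact D_le_prod _

theorem Wr_nonneg (k : ℕ) (μ : Measure V) : 0 ≤ Wr k μ := by
  exact integral_nonneg fun x => D_nonneg x

theorem ofReal_Wr {μ : Measure V} (hμ : Mom μ) (k : ℕ) :
    ENNReal.ofReal (Wr k μ) = ∫⁻ x, ENNReal.ofReal (D x) ∂(mk μ k) := by
  exact ofReal_integral_eq_lintegral_ofReal (integrable_D_mk' hμ k)
    (Eventually.of_forall fun x => D_nonneg x)

theorem Fr_prob {μ : Measure V} (hμ : Mom μ) {k : ℕ} (h : 0 < Wr k μ) :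
    IsProbabilityMeasure (Fr k μ) := by
  constructor
  rw [Fr, Measure.smul_apply, withDensity_apply _ MeasurableSet.univ, Measure.restrict_univ,
    ← ofReal_Wr hμ k, smul_eq_mul]
  exact ENNReal.inv_mul_cancel (by simpa using h) ENNReal.ofReal_ne_top

theorem lintegral_Fr (μ : Measure V) (k : ℕ) {F : (Fin k → V) → ℝ≥0∞} (hF : Measurable F) :
    ∫⁻ x, F x ∂(Fr k μ)
      = (ENNReal.ofReal (Wr k μ))⁻¹ * ∫⁻ x, ENNReal.ofReal (D x) * F x ∂(mk μ k) := by
  rw [Fr, lintegral_smul_measure,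
    lintegral_withDensity_eq_lintegral_mul _ measurable_ofReal_D_HiFr1 hF, smul_eq_mul]
  rfl

theorem integral_Fr {μ : Measure V} {k : ℕ} (h : 0 < Wr k μ) (F : (Fin k → V) → ℝ) :
    ∫ x, F x ∂(Fr k μ) = (Wr k μ)⁻¹ * ∫ x, D x * F x ∂(mk μ k) := by
  rw [Fr, integral_smul_measure,
    integral_withDensity_eq_integral_toReal_smul measurable_ofReal_D_HiFr1
      (Eventually.of_forall fun x => ENNReal.ofReal_lt_top),
    ENNReal.toReal_inv, ENNReal.toReal_ofReal h.le, smul_eq_mul]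
  congr 1
  refine integral_congr_ae (Eventually.of_forall fun x => ?_)
  simp only [ENNReal.toReal_ofReal (D_nonneg x), smul_eq_mul]

theorem ae_D_Fr (μ : Measure V) (k : ℕ) : ∀ᵐ x ∂(Fr k μ), D x ≠ 0 := by
  refine Measure.ae_smul_measure ?_ _
  rw [ae_withDensity_iff measurable_ofReal_D_HiFr1]
  refine Eventually.of_forall fun x hx h0 => hx ?_
  simp [h0]

theorem mp_perm_Fr {μ : Measure V} (hμ : Mom μ) {k : ℕ} (σ : Equiv.Perm (Fin k)) :
    MeasurePreserving (fun x : Fin k → V => fun j => x (σ j)) (Fr k μ) (Fr k μ) := by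
  have := hμ.prob
  have hm : Measurable (fun x : Fin k → V => fun j => x (σ j)) := (mp_perm μ σ).measurable
  refine ⟨hm, Measure.ext_of_lintegral _ fun f hf => ?_⟩
  rw [lintegral_map hf hm, lintegral_Fr μ k hf,
    lintegral_Fr μ k (F := fun x => f fun j => x (σ j)) (hf.comp hm)]
  congr 1
  rw [← (mp_perm μ σ).lintegral_comp (measurable_ofReal_D_HiFr1.fun_mul hf)]
  simp only [D_perm]

theorem lintegral_mk_cons {μ : Measure V} (hμ : Mom μ) {k : ℕ} {F : (Fin (k + 1) → V) → ℝ≥0∞}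
    (hF : Measurable F) :
    ∫⁻ x, F x ∂(mk μ (k + 1)) = ∫⁻ x, ∫⁻ a, F (Fin.cons a x) ∂μ ∂(mk μ k) := by
  have := hμ.prob
  rw [← (mp_cons μ).lintegral_comp hF]
  exact lintegral_prod_symm _ (hF.comp brs_measurable_cons).aemeasurable

theorem lintegral_D_cons_HiFr1 {μ : Measure V} (hμ : Mom μ) {k : ℕ}
    {F : (Fin (k + 1) → V) → ℝ≥0∞} (hF : Measurable F) :
    ∫⁻ x, ENNReal.ofReal (D x) * F x ∂(mk μ (k + 1)) = ∫⁻ x, ENNReal.ofReal (D x) *
      ∫⁻ a, ENNReal.ofReal ‖Pj k x a‖ * F (Fin.cons a x) ∂μ ∂(mk μ k) := by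
  rw [lintegral_mk_cons hμ (measurable_ofReal_D_HiFr1.fun_mul hF)]
  refine lintegral_congr fun x => ?_
  rw [← lintegral_const_mul' _ _ ENNReal.ofReal_ne_top]
  refine lintegral_congr fun a => ?_
  rw [D_cons_eq, ENNReal.ofReal_mul (D_nonneg x), mul_assoc]

theorem Wr_pos_of_succ {μ : Measure V} (hμ : Mom μ) {k : ℕ} (h : 0 < Wr (k + 1) μ) :
    0 < Wr k μ := by
  by_contra h0
  have h1 : Wr k μ = 0 := le_antisymm (not_lt.1 h0) (Wr_nonneg k μ)
  have h2 := ofReal_Wr hμ k
  rw [h1, ENNReal.ofReal_zero, eq_comm, lintegral_eq_zero_iff measurable_ofReal_D_HiFr1] at h2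
  have h3 := lintegral_D_cons_HiFr1 hμ (k := k) (F := fun _ => 1) measurable_const
  simp only [mul_one] at h3
  rw [← ofReal_Wr hμ, lintegral_congr_ae (g := fun _ => 0), lintegral_zero] at h3
  · simp only [ENNReal.ofReal_eq_zero] at h3
    linarith
  · filter_upwards [h2] with x hx
    simp only [Pi.zero_apply] at hx
    simp [hx]

theorem Zq_pos {μ : Measure V} (hμ : Mom μ) {k : ℕ} (h : 0 < Wr (k + 1) μ) : 0 < Zq k μ := by
  exact div_pos h (Wr_pos_of_succ hμ h)

theorem integrable_norm_Pj_prod {μ : Measure V} (hμ : Mom μ) {k : ℕ} (h : 0 < Wr k μ) :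
    Integrable (fun p : (Fin k → V) × V => ‖Pj k p.1 p.2‖) ((Fr k μ).prod μ) := by
  have := hμ.prob
  have := Fr_prob hμ h
  refine (hμ.int.comp_snd (Fr k μ)).mono' ?_ (Eventually.of_forall fun p => ?_)
  · exact (measurable_Pj k measurable_fst measurable_snd).norm.aestronglyMeasurable
  · rw [norm_norm]
    exact norm_Pj_le _ _

theorem integral_D_cons_HiFr1 {μ : Measure V} (hμ : Mom μ) {k : ℕ} (h : 0 < Wr k μ)
    {F : (Fin (k + 1) → V) → ℝ} (hF : Bd F) :
    ∫ x, D x * F x ∂(mk μ (k + 1)) = Wr k μ *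
      ∫ p : (Fin k → V) × V, ‖Pj k p.1 p.2‖ * F (Fin.cons p.2 p.1) ∂((Fr k μ).prod μ) := by
  have := hμ.prob
  have := Fr_prob hμ h
  have hi : Integrable (fun x => D x * F x) (mk μ (k + 1)) := AFK.int_mul (integrable_D_mk' hμ _) hF
  have hF' : Bd fun p : (Fin k → V) × V => F (Fin.cons p.2 p.1) :=
    ⟨hF.meas.comp (bp_measurable_cons measurable_snd measurable_fst),
      hF.bdd.imp fun C hC p => hC _⟩
  have hi2 := AFK.int_mul (integrable_norm_Pj_prod hμ h) hF'
  have hi3 := (mp_cons (k := k) μ).integrable_comp_of_integrable hi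
  rw [integral_prod _ hi2, integral_Fr h, ← mul_assoc, mul_inv_cancel₀ h.ne', one_mul,
    ← af_mp_integral (mp_cons μ) hi.aestronglyMeasurable]
  refine (integral_prod_symm _ hi3).trans ?_
  refine integral_congr_ae (Eventually.of_forall fun x => ?_)
  simp only [Function.comp_apply]
  rw [← integral_const_mul]
  refine integral_congr_ae (Eventually.of_forall fun a => ?_)
  simp only [D_cons_eq, mul_assoc]

theorem Zq_eq {μ : Measure V} (hμ : Mom μ) {k : ℕ} (h : 0 < Wr k μ) :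
    Zq k μ = ∫ p : (Fin k → V) × V, ‖Pj k p.1 p.2‖ ∂((Fr k μ).prod μ) := by
  have h1 := integral_D_cons_HiFr1 hμ h (F := fun _ => 1) (AFK.bd_const 1)
  simp only [mul_one] at h1
  rw [Zq, div_eq_iff h.ne', mul_comm]
  exact h1

theorem lintegral_Fr_succ {μ : Measure V} (hμ : Mom μ) {k : ℕ} (h : 0 < Wr (k + 1) μ)
    {F : (Fin (k + 1) → V) → ℝ≥0∞} (hF : Measurable F) :
    ∫⁻ x, F x ∂(Fr (k + 1) μ) = (ENNReal.ofReal (Zq k μ))⁻¹ *
      ∫⁻ x, ∫⁻ a, ENNReal.ofReal ‖Pj k x a‖ * F (Fin.cons a x) ∂μ ∂(Fr k μ) := by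
  have := hμ.prob
  have hk := Wr_pos_of_succ hμ h
  have hm : Measurable fun x : Fin k → V =>
      ∫⁻ a, ENNReal.ofReal ‖Pj k x a‖ * F (Fin.cons a x) ∂μ :=
    Measurable.lintegral_prod_right' (f := fun p : (Fin k → V) × V =>
      ENNReal.ofReal ‖Pj k p.1 p.2‖ * F (Fin.cons p.2 p.1))
      ((measurable_Pj k measurable_fst measurable_snd).norm.ennreal_ofReal.mul
        (hF.comp (bp_measurable_cons measurable_snd measurable_fst)))
  rw [lintegral_Fr μ _ hF, lintegral_Fr μ _ hm, lintegral_D_cons_HiFr1 hμ hF, ← mul_assoc]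
  congr 1
  have e : Wr (k + 1) μ = Zq k μ * Wr k μ := by rw [Zq, div_mul_cancel₀ _ hk.ne']
  rw [e, ENNReal.ofReal_mul (Zq_pos hμ h).le,
    ENNReal.mul_inv (Or.inr ENNReal.ofReal_ne_top) (Or.inl ENNReal.ofReal_ne_top)]

theorem integral_Fr_succ {μ : Measure V} (hμ : Mom μ) {k : ℕ} (h : 0 < Wr (k + 1) μ)
    {F : (Fin (k + 1) → V) → ℝ} (hF : Bd F) :
    ∫ x, F x ∂(Fr (k + 1) μ) = (Zq k μ)⁻¹ *
      ∫ p : (Fin k → V) × V, ‖Pj k p.1 p.2‖ * F (Fin.cons p.2 p.1) ∂((Fr k μ).prod μ) := by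
  have hk := Wr_pos_of_succ hμ h
  rw [integral_Fr h, integral_D_cons_HiFr1 hμ hk hF, Zq, inv_div, ← mul_assoc]
  congr 1
  rw [div_eq_mul_inv, mul_comm]

theorem Wr_pos {μ : Measure V} (hμ : Mom μ)
    (hpos : ∀ u : V, ‖u‖ = 1 → 0 < ∫ x, |⟪u, x⟫| ∂μ) : ∀ k : ℕ, k ≤ finrank ℝ V → 0 < Wr k μ := by
  have := hμ.prob
  intro k
  induction k with
  | zero => intro _; simp [Wr]
  | succ k ih =>
    intro hk
    have h := ih (by omega)
    have := Fr_prob hμ h
    have h1 := Zq_eq hμ h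
    have hi := integrable_norm_Pj_prod hμ h
    rw [integral_prod _ hi] at h1
    have h2 : ∀ x : Fin k → V, 0 < ∫ a, ‖Pj k x a‖ ∂μ := by
      intro x
      have h3 := finrank_nrm_ge x
      obtain ⟨v, hv0⟩ := (Module.finrank_pos_iff_exists_ne_zero (R := ℝ) (M := nrm x)).1 (by omega)
      have hv1 : (v : V) ≠ 0 := fun e => hv0 (Subtype.ext e)
      have hn : ‖(v : V)‖ ≠ 0 := norm_ne_zero_iff.2 hv1
      have hu : ‖(‖(v : V)‖⁻¹ • (v : V))‖ = 1 := by
        rw [norm_smul, norm_inv, norm_norm, inv_mul_cancel₀ hn]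
      have hP : Pj k x (‖(v : V)‖⁻¹ • (v : V)) = ‖(v : V)‖⁻¹ • (v : V) := by
        refine Pj_of_inner x _ fun j => ?_
        have h4 : ⟪x j, (v : V)⟫ = 0 :=
          (Submodule.mem_orthogonal _ _).1 v.2 (x j) (Submodule.subset_span ⟨j, rfl⟩)
        rw [inner_smul_right, h4, mul_zero]
      refine (hpos _ hu).trans_le (integral_mono_of_nonneg
        (Eventually.of_forall fun a => abs_nonneg _) ?_ (Eventually.of_forall fun a => ?_))
      · exact hμ.int.mono' (Pj k x).continuous.norm.aestronglyMeasurable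
          (Eventually.of_forall fun a => by rw [norm_norm]; exact norm_Pj_le _ _)
      · have h5 := abs_real_inner_le_norm (‖(v : V)‖⁻¹ • (v : V)) (Pj k x a)
        rw [hu, one_mul, ← inner_Pj_comm, hP] at h5
        exact h5
    have h6 : 0 < Zq k μ := by
      rw [h1, integral_pos_iff_support_of_nonneg (fun x => (h2 x).le) hi.integral_prod_left]
      have : Function.support (fun x : Fin k → V => ∫ a, ‖Pj k x a‖ ∂μ) = univ :=
        eq_univ_of_forall fun x => (h2 x).ne'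
      rw [this]
      simp
    exact (div_pos_iff_of_pos_right h).1 h6

end Pool.Agent.P.MP_181257_gt
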