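import Pool.Agent.P.MP_181257_gt.HiP1

/-! Leaving one vector out of the squared-volume moment. -/

set_option autoImplicit false
set_option linter.unusedSectionVars false
set_option linter.unusedVariables false

open MeasureTheory ProbabilityTheory Module Set Filter Topology
open scoped RealInnerProductSpace ENNReal Pointwise Matrix

noncomputable section

namespace Pool.Agent.P.MP_181257_gt

variable {V : Type} [NormedAddCommGroup V] [InnerProductSpace ℝ V] [FiniteDimensional ℝ V]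
  [MeasurableSpace V] [BorelSpace V]

theorem det_HiL1 {m k : ℕ} (W M : Fin m → Fin m → ℝ) (hM : ∀ a c, a ≠ c → M a c = 0)
    (l : Fin (k + 1) → Fin m) :
    ∑ σ : Equiv.Perm (Fin (k + 1)), ((Equiv.Perm.sign σ : ℤ) : ℝ) *
        (W (l (σ 0)) (l 0) * ∏ j : Fin k, M (l (σ j.succ)) (l j.succ))
      = if Function.Injective l then W (l 0) (l 0) * ∏ j : Fin k, M (l j.succ) (l j.succ)
        else 0 := by
  classical
  obtain ⟨N, hN⟩ : ∃ N : Matrix (Fin (k + 1)) (Fin (k + 1)) ℝ, N = Matrix.of fun i j =>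
      (Fin.cons (W (l i) (l 0)) (fun j : Fin k => M (l i) (l j.succ)) : Fin (k + 1) → ℝ) j :=
    ⟨_, rfl⟩
  have h0 : ∀ i, N i 0 = W (l i) (l 0) := fun i => by rw [hN]; rfl
  have h1 : ∀ i (j : Fin k), N i j.succ = M (l i) (l j.succ) := fun i j => by rw [hN]; rfl
  have h2 : ∑ σ : Equiv.Perm (Fin (k + 1)), ((Equiv.Perm.sign σ : ℤ) : ℝ) *
      (W (l (σ 0)) (l 0) * ∏ j : Fin k, M (l (σ j.succ)) (l j.succ)) = N.det := by
    rw [Matrix.det_apply']
    refine Finset.sum_congr rfl fun σ _ => ?_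
    rw [Fin.prod_univ_succ, h0]
    simp only [h1]
  rw [h2]
  split_ifs with hl
  · rw [Matrix.det_of_isLowerTriangular, Fin.prod_univ_succ, h0]
    · simp only [h1]
    · intro i j hij
      have h3 : i < j := hij
      obtain ⟨j', rfl⟩ := Fin.exists_succ_eq.2 (Fin.ne_zero_of_lt h3)
      rw [h1]
      exact hM _ _ fun h => h3.ne (hl h)
  · obtain ⟨i, j, hij, hne⟩ := Function.not_injective_iff.1 hl
    refine Matrix.det_zero_of_row_eq hne ?_
    ext t
    refine Fin.cases ?_ (fun t => ?_) t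
    · rw [h0, h0, hij]
    · rw [h1, h1, hij]

theorem key_HiL1 {m k : ℕ} (ρ : Fin m → ℝ) {r : ℝ} (hr : 0 ≤ r) (hρ : ∀ a, r ≤ ρ a) (a c : Fin m) :
    ∑ l : Fin (k + 1) → Fin m,
        (if Function.Injective l ∧ l 0 = a then r * ∏ j : Fin k, ρ (l j.succ) else 0)
      ≤ ∑ l : Fin (k + 1) → Fin m,
        (if Function.Injective l ∧ l 0 = c then ρ (l 0) * ∏ j : Fin k, ρ (l j.succ) else 0) := by
  classical
  rw [← Equiv.sum_comp (Equiv.piCongrRight fun _ : Fin (k + 1) => Equiv.swap a c)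
    (fun l : Fin (k + 1) → Fin m =>
      if Function.Injective l ∧ l 0 = c then ρ (l 0) * ∏ j : Fin k, ρ (l j.succ) else 0)]
  refine Finset.sum_le_sum fun l _ => ?_
  have e : ∀ j, (Equiv.piCongrRight fun _ : Fin (k + 1) => Equiv.swap a c) l j
      = Equiv.swap a c (l j) := fun j => rfl
  have hp : ∀ l' : Fin (k + 1) → Fin m, 0 ≤ ∏ j : Fin k, ρ (l' j.succ) := fun l' =>
    Finset.prod_nonneg fun j _ => hr.trans (hρ _)
  by_cases h : Function.Injective l ∧ l 0 = a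
  · obtain ⟨h1, h2⟩ := h
    rw [if_pos ⟨h1, h2⟩, if_pos ⟨(Equiv.swap a c).injective.comp h1, by
      rw [e, h2, Equiv.swap_apply_left]⟩]
    by_cases hc : ∃ j0, l j0 = c
    · obtain ⟨j0, rfl⟩ := hc
      subst h2
      rw [← Fin.prod_univ_succ fun j =>
        ρ ((Equiv.piCongrRight fun _ : Fin (k + 1) => Equiv.swap (l 0) (l j0)) l j)]
      simp only [e, h1.swap_apply]
      rw [Equiv.prod_comp (Equiv.swap 0 j0) fun j => ρ (l j), Fin.prod_univ_succ]
      exact mul_le_mul_of_nonneg_right (hρ _) (hp l)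
    · have h3 : ∀ j : Fin k, Equiv.swap a c (l j.succ) = l j.succ := fun j =>
        Equiv.swap_apply_of_ne_of_ne (fun h => Fin.succ_ne_zero j (h1 (h.trans h2.symm)))
          fun h => hc ⟨_, h⟩
      simp only [e, h3]
      exact mul_le_mul_of_nonneg_right (hρ _) (hp l)
  · rw [if_neg h]
    split_ifs
    · exact mul_nonneg (hr.trans (hρ _)) (hp _)
    · exact le_rfl

theorem comb_HiL1 {m k : ℕ} (ρ u : Fin m → ℝ) {r : ℝ} (hr : 0 ≤ r) (hρ : ∀ a, r ≤ ρ a)
    (hu : ∀ a, 0 ≤ u a) :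
    (m : ℝ) * r * ∑ l : Fin (k + 1) → Fin m,
        (if Function.Injective l then u (l 0) * ∏ j : Fin k, ρ (l j.succ) else 0)
      ≤ (∑ a, u a) * ∑ l : Fin (k + 1) → Fin m,
        (if Function.Injective l then ρ (l 0) * ∏ j : Fin k, ρ (l j.succ) else 0) := by
  classical
  have h1 : r * ∑ l : Fin (k + 1) → Fin m,
      (if Function.Injective l then u (l 0) * ∏ j : Fin k, ρ (l j.succ) else 0)
      = ∑ a, u a * ∑ l : Fin (k + 1) → Fin m,
        (if Function.Injective l ∧ l 0 = a then r * ∏ j : Fin k, ρ (l j.succ) else 0) := by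
    simp only [Finset.mul_sum]
    rw [Finset.sum_comm]
    refine Finset.sum_congr rfl fun l _ => ?_
    rw [Finset.sum_eq_single (l 0) (fun a _ ha => by
      rw [if_neg fun h => ha h.2.symm, mul_zero]) (by simp)]
    by_cases hl : Function.Injective l
    · rw [if_pos hl, if_pos ⟨hl, rfl⟩]
      ring
    · rw [if_neg hl, if_neg fun h => hl h.1, mul_zero, mul_zero]
  have h2 : ∑ l : Fin (k + 1) → Fin m,
      (if Function.Injective l then ρ (l 0) * ∏ j : Fin k, ρ (l j.succ) else 0)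
      = ∑ c, ∑ l : Fin (k + 1) → Fin m,
        (if Function.Injective l ∧ l 0 = c then ρ (l 0) * ∏ j : Fin k, ρ (l j.succ) else 0) := by
    rw [Finset.sum_comm]
    refine Finset.sum_congr rfl fun l _ => ?_
    rw [Finset.sum_eq_single (l 0) (fun a _ ha => by rw [if_neg fun h => ha h.2.symm]) (by simp)]
    by_cases hl : Function.Injective l
    · rw [if_pos hl, if_pos ⟨hl, rfl⟩]
    · rw [if_neg hl, if_neg fun h => hl h.1]
  rw [mul_assoc, h1, h2, Finset.mul_sum, Finset.sum_mul]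
  refine Finset.sum_le_sum fun a _ => ?_
  rw [mul_left_comm]
  refine mul_le_mul_of_nonneg_left ?_ (hu a)
  have h3 := Finset.sum_le_sum fun c (_ : c ∈ Finset.univ) => key_HiL1 (k := k) ρ hr hρ a c
  rwa [Finset.sum_const, Finset.card_univ, Fintype.card_fin, nsmul_eq_mul] at h3

theorem kappa_core {m k : ℕ} (hm : finrank ℝ V = m) {f : V → ℝ} (hf : Bd f) (h0 : ∀ x, 0 ≤ f x)
    {r : ℝ} (hr : 0 ≤ r) (hl : ∀ v : V, ‖v‖ = 1 → r ≤ ∫ x, ⟪v, x⟫ ^ 2 * f x ∂(stdGaussian V))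
    (w : V) :
    (m : ℝ) * r * ∫ x, D (Fin.cons w x : Fin (k + 1) → V) ^ 2 * ∏ j, f (x j) ∂(γk V k)
      ≤ ‖w‖ ^ 2 * ∫ x, D x ^ 2 * ∏ j, f (x j) ∂(γk V (k + 1)) := by
  classical
  obtain ⟨b, hb⟩ := moment_exists_diag hm hf
  obtain ⟨M, hM⟩ : ∃ M : Fin m → Fin m → ℝ, ∀ l l',
      M l l' = ∫ x, ⟪b l, x⟫ * ⟪b l', x⟫ * f x ∂(stdGaussian V) := ⟨_, fun _ _ => rfl⟩
  have hd : ∀ a c, a ≠ c → M a c = 0 := fun a c h => by rw [hM, hb a c h]
  have hL : ∫ x, D (Fin.cons w x : Fin (k + 1) → V) ^ 2 * ∏ j, f (x j) ∂(γk V k)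
      = ∑ l : Fin (k + 1) → Fin m, (if Function.Injective l then
        ⟪b (l 0), w⟫ * ⟪b (l 0), w⟫ * ∏ j : Fin k, M (l j.succ) (l j.succ) else 0) := by
    have h1 : ∀ x : Fin k → V, D (Fin.cons w x : Fin (k + 1) → V) ^ 2 * ∏ j, f (x j)
        = ∑ l : Fin (k + 1) → Fin m, ∑ σ : Equiv.Perm (Fin (k + 1)),
          ((Equiv.Perm.sign σ : ℤ) : ℝ) * (⟪b (l (σ 0)), w⟫ * ⟪b (l 0), w⟫ *
            ∏ j : Fin k, ⟪b (l (σ j.succ)), x j⟫ * ⟪b (l j.succ), x j⟫ * f (x j)) := by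
      intro x
      rw [moment_det_expand b, Finset.sum_mul]
      refine Finset.sum_congr rfl fun l _ => ?_
      rw [Finset.sum_mul]
      refine Finset.sum_congr rfl fun σ _ => ?_
      rw [Fin.prod_univ_succ, mul_assoc, mul_assoc, ← Finset.prod_mul_distrib]
      rfl
    have hi : ∀ (l : Fin (k + 1) → Fin m) (σ : Equiv.Perm (Fin (k + 1))),
        Integrable (fun x : Fin k → V => ((Equiv.Perm.sign σ : ℤ) : ℝ) *
          (⟪b (l (σ 0)), w⟫ * ⟪b (l 0), w⟫ *
            ∏ j : Fin k, ⟪b (l (σ j.succ)), x j⟫ * ⟪b (l j.succ), x j⟫ * f (x j))) (γk V k) :=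
      fun l σ => ((Integrable.fintype_prod
        (f := fun (j : Fin k) (x : V) => ⟪b (l (σ j.succ)), x⟫ * ⟪b (l j.succ), x⟫ * f x)
        fun j => moment_integrable_inner hf _ _).const_mul _).const_mul _
    simp only [h1]
    rw [integral_finsetSum _ fun l _ => integrable_finsetSum _ fun σ _ => hi l σ]
    refine Finset.sum_congr rfl fun l _ => ?_
    rw [integral_finsetSum _ fun σ _ => hi l σ,
      ← det_HiL1 (fun a c => ⟪b a, w⟫ * ⟪b c, w⟫) M hd l]
    refine Finset.sum_congr rfl fun σ _ => ?_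
    rw [integral_const_mul, integral_const_mul, integral_fintype_prod_eq_prod
      (f := fun (j : Fin k) (x : V) => ⟪b (l (σ j.succ)), x⟫ * ⟪b (l j.succ), x⟫ * f x)]
    simp only [hM]
  have hR : ∫ x, D x ^ 2 * ∏ j, f (x j) ∂(γk V (k + 1))
      = ∑ l : Fin (k + 1) → Fin m, (if Function.Injective l then
        M (l 0) (l 0) * ∏ j : Fin k, M (l j.succ) (l j.succ) else 0) := by
    have h1 : ∀ x : Fin (k + 1) → V, D x ^ 2 * ∏ j, f (x j) = ∑ l : Fin (k + 1) → Fin m,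
        ∑ σ : Equiv.Perm (Fin (k + 1)), ((Equiv.Perm.sign σ : ℤ) : ℝ) *
          ∏ j, ⟪b (l (σ j)), x j⟫ * ⟪b (l j), x j⟫ * f (x j) := by
      intro x
      rw [moment_det_expand b x, Finset.sum_mul]
      refine Finset.sum_congr rfl fun l _ => ?_
      rw [Finset.sum_mul]
      refine Finset.sum_congr rfl fun σ _ => ?_
      rw [mul_assoc, ← Finset.prod_mul_distrib]
    have hi : ∀ (l : Fin (k + 1) → Fin m) (σ : Equiv.Perm (Fin (k + 1))),
        Integrable (fun x : Fin (k + 1) → V => ((Equiv.Perm.sign σ : ℤ) : ℝ) *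
          ∏ j, ⟪b (l (σ j)), x j⟫ * ⟪b (l j), x j⟫ * f (x j)) (γk V (k + 1)) := fun l σ =>
      (Integrable.fintype_prod (f := fun j (x : V) => ⟪b (l (σ j)), x⟫ * ⟪b (l j), x⟫ * f x)
        fun j => moment_integrable_inner hf _ _).const_mul _
    simp only [h1]
    rw [integral_finsetSum _ fun l _ => integrable_finsetSum _ fun σ _ => hi l σ]
    refine Finset.sum_congr rfl fun l _ => ?_
    rw [integral_finsetSum _ fun σ _ => hi l σ, ← det_HiL1 M M hd l]
    refine Finset.sum_congr rfl fun σ _ => ?_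
    rw [integral_const_mul, integral_fintype_prod_eq_prod
      (f := fun j (x : V) => ⟪b (l (σ j)), x⟫ * ⟪b (l j), x⟫ * f x), Fin.prod_univ_succ]
    simp only [hM]
  have hρ : ∀ a, r ≤ M a a := fun a => by
    have := hl (b a) (b.orthonormal.norm_eq_one a)
    rw [hM]
    simpa only [sq] using this
  have h2 := comb_HiL1 (k := k) (fun a => M a a) (fun a => ⟪b a, w⟫ * ⟪b a, w⟫) hr hρ
    fun a => mul_self_nonneg _
  have h3 : ∑ a, ⟪b a, w⟫ * ⟪b a, w⟫ = ‖w‖ ^ 2 := by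
    simpa only [sq] using b.sum_sq_inner_right w
  rw [hL, hR, ← h3]
  exact h2

end Pool.Agent.P.MP_181257_gt
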