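import Pool.Agent.P.MP_181257_gt.HiP1

/-! Orthonormal families, diagonalisation, dual bases. -/

set_option autoImplicit false
set_option linter.unusedSectionVars false
set_option linter.unusedVariables false

open MeasureTheory ProbabilityTheory Module Set Filter Topology
open scoped RealInnerProductSpace ENNReal Pointwise Matrix

noncomputable section

namespace Pool.Agent.P.MP_181257_gt

variable {V : Type} [NormedAddCommGroup V] [InnerProductSpace ℝ V] [FiniteDimensional ℝ V]
  [MeasurableSpace V] [BorelSpace V]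

theorem exists_on (U : Submodule ℝ V) {r : ℕ} (hr : r ≤ finrank ℝ U) :
    ∃ e : Fin r → V, Orthonormal ℝ e ∧ ∀ l, e l ∈ U := by
  refine ⟨fun l => (stdOrthonormalBasis ℝ U (Fin.castLE hr l) : V), ?_, fun l => Subtype.prop _⟩
  exact ((stdOrthonormalBasis ℝ U).orthonormal.comp _ (Fin.castLE_injective hr)).comp_linearIsometry
    U.subtypeₗᵢ

theorem sum_inner_sq_le {U : Submodule ℝ V} {r : ℕ} {e : Fin r → V} (he : Orthonormal ℝ e)
    (hU : ∀ l, e l ∈ U) (w : V) : ∑ l, ⟪e l, w⟫ ^ 2 ≤ ‖pU U w‖ ^ 2 := by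
  have h := he.sum_inner_products_le (s := Finset.univ) (pU U w)
  refine le_of_eq_of_le (Finset.sum_congr rfl fun l _ => ?_) h
  rw [Real.norm_eq_abs, sq_abs, ← Submodule.inner_starProjection_left_eq_right,
    Submodule.starProjection_eq_self_iff.2 (hU l)]

theorem exists_onb (U : Submodule ℝ V) : ∃ e : Fin (finrank ℝ U) → V, Orthonormal ℝ e ∧
    (∀ l, e l ∈ U) ∧ ∀ w, ‖pU U w‖ ^ 2 = ∑ l, ⟪e l, w⟫ ^ 2 := by
  refine ⟨fun l => (stdOrthonormalBasis ℝ U l : V),
    (stdOrthonormalBasis ℝ U).orthonormal.comp_linearIsometry U.subtypeₗᵢ,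
    fun l => Subtype.prop _, fun w => ?_⟩
  have h := (stdOrthonormalBasis ℝ U).sum_sq_inner_right
    (⟨pU U w, U.starProjection_apply_mem w⟩ : U)
  rw [Submodule.coe_norm] at h
  refine h.symm.trans (Finset.sum_congr rfl fun l _ => ?_)
  rw [Submodule.coe_inner, ← Submodule.inner_starProjection_left_eq_right,
    Submodule.starProjection_eq_self_iff.2 (Subtype.prop _)]

theorem sum_norm_sq_pU {n : ℕ} (b : OrthonormalBasis (Fin n) ℝ V) (U : Submodule ℝ V) :
    ∑ l, ‖pU U (b l)‖ ^ 2 = (finrank ℝ U : ℝ) := by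
  obtain ⟨e, he, -, h⟩ := exists_onb U
  simp only [h]
  rw [Finset.sum_comm]
  have h1 : ∀ j, ∑ l, ⟪e j, b l⟫ ^ 2 = 1 := fun j => by
    rw [b.sum_sq_inner_left, he.1 j, one_pow]
  simp [h1]

theorem exists_diag (M : V → V → ℝ) (hs : ∀ a b, M a b = M b a)
    (hadd : ∀ a a' b, M (a + a') b = M a b + M a' b)
    (hsm : ∀ (t : ℝ) a b, M (t • a) b = t * M a b) :
    ∃ (b : OrthonormalBasis (Fin (finrank ℝ V)) ℝ V) (s : Fin (finrank ℝ V) → ℝ),
      ∀ l a, M (b l) a = s l * ⟪b l, a⟫ := by
  let c := stdOrthonormalBasis ℝ V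
  let A : V →ₗ[ℝ] V :=
    { toFun := fun v => ∑ l, M v (c l) • c l
      map_add' := fun v w => by
        simp only [hadd, add_smul, Finset.sum_add_distrib]
      map_smul' := fun t v => by
        simp only [hsm, RingHom.id_apply, Finset.smul_sum, smul_smul] }
  have hA : ∀ v w, ⟪A v, w⟫ = M v w := by
    intro v w
    let L : V →ₗ[ℝ] ℝ :=
      { toFun := fun u => M u v
        map_add' := fun u u' => hadd u u' v
        map_smul' := fun t u => hsm t u v }
    have h1 : M v w = L (∑ l, ⟪c l, w⟫ • c l) := by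
      rw [c.sum_repr' w, hs v w]
      rfl
    rw [h1, map_sum]
    change ⟪∑ l, M v (c l) • c l, w⟫ = _
    rw [sum_inner]
    refine Finset.sum_congr rfl fun l _ => ?_
    rw [real_inner_smul_left, map_smul, smul_eq_mul, mul_comm, hs v (c l)]
    rfl
  have hsy : A.IsSymmetric := by
    intro v w
    rw [hA, real_inner_comm, hA, hs]
  refine ⟨hsy.eigenvectorBasis rfl, hsy.eigenvalues rfl, fun l a => ?_⟩
  rw [← hA, hsy.apply_eigenvectorBasis, inner_smul_left]
  simp

theorem dual_basis {k : ℕ} (x : Fin (k + 1) → V) (a b : V) :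
    D x * (⟪a, b⟫ - ⟪Pj (k + 1) x a, b⟫)
      = ∑ j : Fin (k + 1), D (fun l => x (j.succAbove l)) *
          (⟪a, x j⟫ * (⟪Pj k (fun l => x (j.succAbove l)) (x j), b⟫
            / ‖Pj k (fun l => x (j.succAbove l)) (x j)‖)) := by
  have hsub : ∀ {m : ℕ} (y : Fin m → V) (v : V), v - Pj m y v ∈ Submodule.span ℝ (range y) := by
    intro m y v
    have h := Submodule.sub_starProjection_mem_orthogonal (K := nrm y) v
    rw [Pj_eq]
    rwa [nrm, Submodule.orthogonal_orthogonal] at h
  have hD : ∀ j : Fin (k + 1), D x = D (fun l => x (j.succAbove l))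
      * ‖Pj k (fun l => x (j.succAbove l)) (x j)‖ := by
    intro j
    rw [← D_cons_eq, ← D_perm x (Fin.cycleRange j).symm]
    congr 1
    funext i
    refine Fin.cases ?_ (fun i => ?_) i
    · simp
    · simp
  set A : V := D x • (a - Pj (k + 1) x a) with hA
  set B : V := ∑ j : Fin (k + 1), (D (fun l => x (j.succAbove l)) *
      (⟪a, x j⟫ / ‖Pj k (fun l => x (j.succAbove l)) (x j)‖))
        • Pj k (fun l => x (j.succAbove l)) (x j) with hB
  have hAm : A ∈ Submodule.span ℝ (range x) := Submodule.smul_mem _ _ (hsub x a)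
  have hBm : B ∈ Submodule.span ℝ (range x) := by
    refine Submodule.sum_mem _ fun j _ => Submodule.smul_mem _ _ ?_
    have h1 : x j ∈ Submodule.span ℝ (range x) := Submodule.subset_span (mem_range_self j)
    have h2 : x j - Pj k (fun l => x (j.succAbove l)) (x j) ∈ Submodule.span ℝ (range x) := by
      refine Submodule.span_mono ?_ (hsub (fun l => x (j.succAbove l)) (x j))
      rintro _ ⟨l, rfl⟩
      exact mem_range_self _
    simpa using Submodule.sub_mem _ h1 h2
  have hin : ∀ l, ⟪A - B, x l⟫ = 0 := by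
    intro l
    have h1 : ⟪A, x l⟫ = D x * ⟪a, x l⟫ := by
      rw [hA, real_inner_smul_left, inner_sub_left, inner_Pj_comm, Pj_row, inner_zero_right,
        sub_zero]
    have h2 : ⟪B, x l⟫ = D x * ⟪a, x l⟫ := by
      rw [hB, sum_inner, Finset.sum_eq_single l]
      · rw [real_inner_smul_left, inner_Pj_self, hD l]
        by_cases h0 : ‖Pj k (fun i => x (l.succAbove i)) (x l)‖ = 0
        · rw [h0]
          ring
        · field_simp
      · intro j _ hj
        obtain ⟨i, rfl⟩ := Fin.exists_succAbove_eq hj.symm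
        rw [real_inner_smul_left, inner_Pj_comm,
          Pj_row (fun l => x (j.succAbove l)) i, inner_zero_right, mul_zero]
      · intro h
        exact absurd (Finset.mem_univ l) h
    rw [inner_sub_left, h1, h2, sub_self]
  have hall : ∀ v ∈ Submodule.span ℝ (range x), ⟪A - B, v⟫ = 0 := by
    intro v hv
    induction hv using Submodule.span_induction with
    | mem v hv => obtain ⟨l, rfl⟩ := hv; exact hin l
    | zero => exact inner_zero_right _
    | add v w _ _ h1 h2 => rw [inner_add_right, h1, h2, add_zero]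
    | smul t v _ h1 => rw [real_inner_smul_right, h1, mul_zero]
  have hAB : A = B :=
    sub_eq_zero.1 (inner_self_eq_zero.1 (hall _ (Submodule.sub_mem _ hAm hBm)))
  have h3 : ⟪A, b⟫ = ⟪B, b⟫ := by rw [hAB]
  rw [hA, hB, real_inner_smul_left, inner_sub_left, sum_inner] at h3
  rw [h3]
  refine Finset.sum_congr rfl fun j _ => ?_
  rw [real_inner_smul_left]
  ring

end Pool.Agent.P.MP_181257_gt
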