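import Pool.Agent.P.MP_181257_gt.HiL1
import Pool.Agent.P.MP_181257_gt.HiF1
import Pool.Agent.P.MP_181257_gt.HiP2

/-! The squared-volume moment on hyperplanes. -/

set_option autoImplicit false
set_option linter.unusedSectionVars false
set_option linter.unusedVariables false

open MeasureTheory ProbabilityTheory Module Set Filter Topology
open scoped RealInnerProductSpace ENNReal Pointwise Matrix

noncomputable section

namespace Pool.Agent.P.MP_181257_gt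

variable {V : Type} [NormedAddCommGroup V] [InnerProductSpace ℝ V] [FiniteDimensional ℝ V]
  [MeasurableSpace V] [BorelSpace V]

theorem row_HiL2 {m k : ℕ} (hm : finrank ℝ V = m) {f : V → ℝ} (hf : Bd f)
    {r : ℝ} (hr : 0 ≤ r) (hl : ∀ v : V, ‖v‖ = 1 → r ≤ ∫ x, ⟪v, x⟫ ^ 2 * f x ∂(stdGaussian V))
    (x : Fin k → V) :
    ((m - k : ℕ) : ℝ) * r ≤ ∫ w, ‖Pj k x w‖ ^ 2 * f w ∂(stdGaussian V) := by
  obtain ⟨e, he, -, hw⟩ := exists_onb (nrm x)
  have h1 : ∀ w, ‖Pj k x w‖ ^ 2 * f w = ∑ l, ⟪e l, w⟫ ^ 2 * f w := by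
    intro w
    rw [Pj_eq, hw, Finset.sum_mul]
  simp only [h1]
  rw [integral_finsetSum _ fun l _ => moment_integrable_sq hf (e l)]
  have h2 : ((m - k : ℕ) : ℝ) ≤ (finrank ℝ (nrm x) : ℝ) := by
    have := finrank_nrm_ge x
    exact_mod_cast (by omega : m - k ≤ finrank ℝ (nrm x))
  calc ((m - k : ℕ) : ℝ) * r ≤ (finrank ℝ (nrm x) : ℝ) * r := mul_le_mul_of_nonneg_right h2 hr
    _ = ∑ _l : Fin (finrank ℝ (nrm x)), r := by simp
    _ ≤ _ := Finset.sum_le_sum fun l _ => hl _ (he.1 l)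

theorem vol_core {m : ℕ} (hm : finrank ℝ V = m) {f : V → ℝ} (hf : Bd f) (h0 : ∀ x, 0 ≤ f x)
    {r : ℝ} (hr : 0 ≤ r) (hl : ∀ v : V, ‖v‖ = 1 → r ≤ ∫ x, ⟪v, x⟫ ^ 2 * f x ∂(stdGaussian V)) :
    ∀ k : ℕ, (m.descFactorial k : ℝ) * r ^ k ≤ ∫ x, D x ^ 2 * ∏ j, f (x j) ∂(γk V k) := by
  intro k
  induction k with
  | zero => simp
  | succ k ih =>
    have hmp := mp_cons (k := k) (stdGaussian V)
    have hI := integrable_D_sq (k := k + 1) (g := fun _ => f) fun _ => hf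
    have hI' := integrable_D_sq (k := k) (g := fun _ => f) fun _ => hf
    have hpt : ∀ q : V × (Fin k → V),
        D (Fin.cons q.1 q.2 : Fin (k + 1) → V) ^ 2
            * ∏ j, f ((Fin.cons q.1 q.2 : Fin (k + 1) → V) j)
          = (D q.2 ^ 2 * ∏ j, f (q.2 j)) * (‖Pj k q.2 q.1‖ ^ 2 * f q.1) := by
      intro q
      rw [D_cons_eq, Fin.prod_univ_succ]
      simp only [Fin.cons_zero, Fin.cons_succ]
      ring
    have hP : Integrable (fun q : V × (Fin k → V) =>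
        (D q.2 ^ 2 * ∏ j, f (q.2 j)) * (‖Pj k q.2 q.1‖ ^ 2 * f q.1))
        ((stdGaussian V).prod (γk V k)) :=
      ((hmp.integrable_comp hI.aestronglyMeasurable).2 hI).congr (ae_of_all _ fun q => hpt q)
    have h1 : ∫ x, D x ^ 2 * ∏ j, f (x j) ∂(γk V (k + 1))
        = ∫ x, (D x ^ 2 * ∏ j, f (x j)) * ∫ w, ‖Pj k x w‖ ^ 2 * f w ∂(stdGaussian V)
          ∂(γk V k) := by
      rw [← af_mp_integral hmp hI.aestronglyMeasurable]
      simp only [hpt]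
      rw [integral_prod_symm _ hP]
      simp only [integral_const_mul]
    have h2 : Integrable (fun x : Fin k → V => (D x ^ 2 * ∏ j, f (x j))
        * ∫ w, ‖Pj k x w‖ ^ 2 * f w ∂(stdGaussian V)) (γk V k) := by
      refine hP.integral_prod_right.congr (ae_of_all _ fun x => ?_)
      simp only [integral_const_mul]
    rw [h1, Nat.descFactorial_succ, Nat.cast_mul]
    have hc : (0 : ℝ) ≤ ((m - k : ℕ) : ℝ) * r := mul_nonneg (Nat.cast_nonneg _) hr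
    calc ((m - k : ℕ) : ℝ) * (m.descFactorial k : ℝ) * r ^ (k + 1)
        = ((m.descFactorial k : ℝ) * r ^ k) * (((m - k : ℕ) : ℝ) * r) := by ring
      _ ≤ (∫ x, D x ^ 2 * ∏ j, f (x j) ∂(γk V k)) * (((m - k : ℕ) : ℝ) * r) :=
          mul_le_mul_of_nonneg_right ih hc
      _ = ∫ x, (D x ^ 2 * ∏ j, f (x j)) * (((m - k : ℕ) : ℝ) * r) ∂(γk V k) :=
          (integral_mul_const _ _).symm
      _ ≤ _ := by
          refine integral_mono (hI'.mul_const _) h2 fun x => ?_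
          exact mul_le_mul_of_nonneg_left (row_HiL2 hm hf hr hl x)
            (mul_nonneg (sq_nonneg _) (Finset.prod_nonneg fun j _ => h0 _))

theorem bd_coe_HiL2 {f : V → ℝ} (hf : Bd f) (W : Submodule ℝ V) : Bd fun z : W => f (z : V) := by
  obtain ⟨C, hC⟩ := hf.bdd
  exact ⟨hf.meas.comp measurable_subtype_coe, C, fun z => hC _⟩

theorem Vq_eq_HiL2 (k : ℕ) {f : V → ℝ} (hf : Measurable f) (y : V) :
    Vq k f y = ∫ z : Fin k → (ℝ ∙ y)ᗮ, D z ^ 2 * ∏ j, f (z j : V) ∂(γk (ℝ ∙ y)ᗮ k) := by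
  have hT : MeasurePreserving (fun (x : Fin k → V) j => prS y (x j)) (γk V k) (γk (ℝ ∙ y)ᗮ k) :=
    measurePreserving_pi _ _ fun _ => mp_prS y
  have hF : Measurable fun z : Fin k → (ℝ ∙ y)ᗮ => D z ^ 2 * ∏ j, f (z j : V) :=
    ((measurable_D measurable_id).pow_const 2).mul (Finset.measurable_prod _ fun j _ =>
      hf.comp (measurable_subtype_coe.comp (measurable_pi_apply j)))
  rw [← moment_integral_mp hT hF]
  unfold Vq
  refine integral_congr_ae (ae_of_all _ fun x => ?_)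
  have : D (fun j => pr y (x j)) = D (fun j => prS y (x j)) :=
    D_map (ℝ ∙ y)ᗮ.subtypeₗᵢ fun j => prS y (x j)
  simp only [this, coe_prS]

theorem low_HiL2 {f : V → ℝ} (hf : Measurable f) {y : V} {r : ℝ}
    (hl : ∀ v : V, ‖v‖ = 1 → ⟪y, v⟫ = 0 → r ≤ Mf f y v v) (v : (ℝ ∙ y)ᗮ) (hv : ‖v‖ = 1) :
    r ≤ ∫ z : (ℝ ∙ y)ᗮ, ⟪v, z⟫ ^ 2 * f (z : V) ∂(stdGaussian (ℝ ∙ y)ᗮ) := by
  have hF : Measurable fun z : (ℝ ∙ y)ᗮ => ⟪v, z⟫ ^ 2 * f (z : V) :=
    ((measurable_const.inner measurable_id).pow_const 2).mul (hf.comp measurable_subtype_coe)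
  rw [← moment_integral_mp (mp_prS y) hF]
  refine (hl v hv (Submodule.mem_orthogonal_singleton_iff_inner_right.1 v.2)).trans_eq ?_
  unfold Mf
  refine integral_congr_ae (ae_of_all _ fun g => ?_)
  simp only [Submodule.coe_inner, coe_prS, sq]

theorem kappa_le {m k : ℕ} (hm : finrank ℝ V = m + 1) {f : V → ℝ} (hf : Bd f)
    (h0 : ∀ x, 0 ≤ f x) {y : V} (hy : ‖y‖ = 1) {r : ℝ} (hr : 0 ≤ r)
    (hl : ∀ v : V, ‖v‖ = 1 → ⟪y, v⟫ = 0 → r ≤ Mf f y v v) (w : V) :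
    (m : ℝ) * r * ∫ x, D (Fin.cons (pr y w) fun j => pr y (x j) : Fin (k + 1) → V) ^ 2
        * ∏ j, f (pr y (x j)) ∂(γk V k)
      ≤ ‖pr y w‖ ^ 2 * Vq (k + 1) f y := by
  have hy0 : y ≠ 0 := by
    rintro rfl
    simp at hy
  have h := kappa_core (k := k) (moment_finrank hm hy0) (bd_coe_HiL2 hf (ℝ ∙ y)ᗮ)
    (fun z => h0 _) hr (low_HiL2 hf.meas hl) (prS y w)
  rw [← Vq_eq_HiL2 (k + 1) hf.meas y] at h
  have hT : MeasurePreserving (fun (x : Fin k → V) j => prS y (x j)) (γk V k) (γk (ℝ ∙ y)ᗮ k) :=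
    measurePreserving_pi _ _ fun _ => mp_prS y
  have hF : Measurable fun z : Fin k → (ℝ ∙ y)ᗮ =>
      D (Fin.cons (prS y w) z : Fin (k + 1) → (ℝ ∙ y)ᗮ) ^ 2 * ∏ j, f (z j : V) :=
    ((measurable_D (bp_measurable_cons measurable_const measurable_id)).pow_const 2).mul
      (Finset.measurable_prod _ fun j _ =>
        hf.meas.comp (measurable_subtype_coe.comp (measurable_pi_apply j)))
  rw [← moment_integral_mp hT hF] at h
  refine le_of_eq_of_le ?_ h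
  congr 1
  refine integral_congr_ae (ae_of_all _ fun x => ?_)
  have : D (Fin.cons (pr y w) fun j => pr y (x j) : Fin (k + 1) → V)
      = D (Fin.cons (prS y w) fun j => prS y (x j) : Fin (k + 1) → (ℝ ∙ y)ᗮ) := by
    rw [← D_map (ℝ ∙ y)ᗮ.subtypeₗᵢ]
    congr 1
    funext j
    refine Fin.cases ?_ (fun j => ?_) j <;> simp
  simp only [this, coe_prS]

theorem vol_lower {m : ℕ} (hm : finrank ℝ V = m + 1) {f : V → ℝ} (hf : Bd f)
    (h0 : ∀ x, 0 ≤ f x) {r R : ℝ} (hr : 0 ≤ r) (hP : Pin f r R) (k : ℕ) {y : V} (hy : y ≠ 0) :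
    (m.descFactorial k : ℝ) * r ^ k ≤ Vq k f y := by
  have hn : ‖y‖ ≠ 0 := norm_ne_zero_iff.2 hy
  have hu : ‖(‖y‖⁻¹ • y : V)‖ = 1 := by
    rw [norm_smul, norm_inv, norm_norm, inv_mul_cancel₀ hn]
  have hu0 : (‖y‖⁻¹ • y : V) ≠ 0 := smul_ne_zero (inv_ne_zero hn) hy
  rw [← Vq_hom k f (inv_ne_zero hn) y, Vq_eq_HiL2 k hf.meas]
  exact vol_core (moment_finrank hm hu0) (bd_coe_HiL2 hf _) (fun z => h0 _) hr
    (low_HiL2 hf.meas fun v hv hyv => (hP _ v hu hv hyv).1) k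

end Pool.Agent.P.MP_181257_gt
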