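import Pool.Agent.P.MP_181257_gt.HiP1

/-! Plane rotations. -/

set_option autoImplicit false
set_option linter.unusedSectionVars false
set_option linter.unusedVariables false

open MeasureTheory ProbabilityTheory Module Set Filter Topology
open scoped RealInnerProductSpace ENNReal Pointwise Matrix

noncomputable section

namespace Pool.Agent.P.MP_181257_gt

variable {V : Type} [NormedAddCommGroup V] [InnerProductSpace ℝ V] [FiniteDimensional ℝ V]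
  [MeasurableSpace V] [BorelSpace V]

theorem rot_zero (y v w : V) : rot y v 0 w = w := by
  simp [rot]

theorem rot_smul (y v : V) (t c : ℝ) (w : V) : rot y v t (c • w) = c • rot y v t w := by
  simp only [rot, real_inner_smul_right]
  module

theorem rot_add_HiL3 (y v : V) (t : ℝ) (w w' : V) :
    rot y v t (w + w') = rot y v t w + rot y v t w' := by
  simp only [rot, inner_add_right]
  module

theorem rot_sub_HiL3 (y v : V) (t : ℝ) (w w' : V) :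
    rot y v t (w - w') = rot y v t w - rot y v t w' := by
  simp only [rot, inner_sub_right]
  module

theorem continuous_rot (y v : V) (t : ℝ) : Continuous (rot y v t) := by
  unfold rot
  fun_prop

theorem hasDerivAt_rot (y v w : V) :
    HasDerivAt (fun t => rot y v t w) (⟪y, w⟫ • v - ⟪v, w⟫ • y) 0 := by
  have hc : HasDerivAt (fun t : ℝ => Real.cos t - 1) 0 0 := by
    simpa using (Real.hasDerivAt_cos 0).sub_const 1
  have hs : HasDerivAt Real.sin 1 0 := by simpa using Real.hasDerivAt_sin 0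
  have h1 := ((hc.smul_const y).add (hs.smul_const v)).const_smul ⟪y, w⟫
  have h2 := ((hc.smul_const v).sub (hs.smul_const y)).const_smul ⟪v, w⟫
  have h3 := (h1.const_add w).add h2
  have e : ⟪y, w⟫ • v - ⟪v, w⟫ • y
      = ⟪y, w⟫ • ((0 : ℝ) • y + (1 : ℝ) • v) + ⟪v, w⟫ • ((0 : ℝ) • v - (1 : ℝ) • y) := by
    module
  rw [e]
  exact h3

theorem inner_y_rot_HiL3 {y v : V} (hy : ‖y‖ = 1) (hv : ‖v‖ = 1) (h : ⟪y, v⟫ = 0) (t : ℝ)
    (w : V) : ⟪y, rot y v t w⟫ = Real.cos t * ⟪y, w⟫ - Real.sin t * ⟪v, w⟫ := by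
  have hyy : ⟪y, y⟫ = (1 : ℝ) := by rw [real_inner_self_eq_norm_sq, hy]; norm_num
  simp only [rot, inner_add_right, inner_sub_right, real_inner_smul_right, hyy, h]
  ring

theorem inner_v_rot_HiL3 {y v : V} (hy : ‖y‖ = 1) (hv : ‖v‖ = 1) (h : ⟪y, v⟫ = 0) (t : ℝ)
    (w : V) : ⟪v, rot y v t w⟫ = Real.sin t * ⟪y, w⟫ + Real.cos t * ⟪v, w⟫ := by
  have hvv : ⟪v, v⟫ = (1 : ℝ) := by rw [real_inner_self_eq_norm_sq, hv]; norm_num
  have h' : ⟪v, y⟫ = (0 : ℝ) := by rw [real_inner_comm]; exact h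
  simp only [rot, inner_add_right, inner_sub_right, real_inner_smul_right, hvv, h']
  ring

theorem rot_rot {y v : V} (hy : ‖y‖ = 1) (hv : ‖v‖ = 1) (h : ⟪y, v⟫ = 0) (s t : ℝ) (w : V) :
    rot y v s (rot y v t w) = rot y v (s + t) w := by
  have e : rot y v s (rot y v t w) = rot y v t w
      + ⟪y, rot y v t w⟫ • ((Real.cos s - 1) • y + Real.sin s • v)
      + ⟪v, rot y v t w⟫ • ((Real.cos s - 1) • v - Real.sin s • y) := rfl
  rw [e, inner_y_rot_HiL3 hy hv h, inner_v_rot_HiL3 hy hv h]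
  simp only [rot, Real.cos_add, Real.sin_add]
  module

theorem rot_adj_HiL3 (y v : V) (t : ℝ) (w w' : V) :
    ⟪rot y v t w, w'⟫ = ⟪w, rot y v (-t) w'⟫ := by
  simp only [rot, inner_add_left, inner_sub_left, real_inner_smul_left, inner_add_right,
    inner_sub_right, real_inner_smul_right, Real.cos_neg, Real.sin_neg, real_inner_comm y w,
    real_inner_comm v w]
  ring

theorem rot_inner {y v : V} (hy : ‖y‖ = 1) (hv : ‖v‖ = 1) (h : ⟪y, v⟫ = 0) (t : ℝ) (w w' : V) :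
    ⟪rot y v t w, rot y v t w'⟫ = ⟪w, w'⟫ := by
  rw [rot_adj_HiL3, rot_rot hy hv h, neg_add_cancel, rot_zero]

theorem norm_rot {y v : V} (hy : ‖y‖ = 1) (hv : ‖v‖ = 1) (h : ⟪y, v⟫ = 0) (t : ℝ) (w : V) :
    ‖rot y v t w‖ = ‖w‖ := by
  rw [norm_eq_sqrt_real_inner, rot_inner hy hv h, ← norm_eq_sqrt_real_inner]

theorem bessel_HiL3 {y v : V} (hy : ‖y‖ = 1) (hv : ‖v‖ = 1) (h : ⟪y, v⟫ = 0) (w : V) :
    ⟪y, w⟫ ^ 2 + ⟪v, w⟫ ^ 2 ≤ ‖w‖ ^ 2 := by
  have hyy : ⟪y, y⟫ = (1 : ℝ) := by rw [real_inner_self_eq_norm_sq, hy]; norm_num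
  have hvv : ⟪v, v⟫ = (1 : ℝ) := by rw [real_inner_self_eq_norm_sq, hv]; norm_num
  have h' : ⟪v, y⟫ = (0 : ℝ) := by rw [real_inner_comm]; exact h
  have h0 : 0 ≤ ⟪w - ⟪y, w⟫ • y - ⟪v, w⟫ • v, w - ⟪y, w⟫ • y - ⟪v, w⟫ • v⟫ :=
    real_inner_self_nonneg
  simp only [inner_sub_left, inner_sub_right, real_inner_smul_left, real_inner_smul_right, hyy,
    hvv, h, h', real_inner_comm y w, real_inner_comm v w, real_inner_self_eq_norm_sq w] at h0
  nlinarith [h0]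

theorem norm_rot_sub {y v : V} (hy : ‖y‖ = 1) (hv : ‖v‖ = 1) (h : ⟪y, v⟫ = 0) (t : ℝ) (w : V) :
    ‖rot y v t w - w‖ ≤ |t| * ‖w‖ := by
  have h1 : ⟪rot y v t w, w⟫ = ‖w‖ ^ 2 + (Real.cos t - 1) * (⟪y, w⟫ ^ 2 + ⟪v, w⟫ ^ 2) := by
    simp only [rot, inner_add_left, inner_sub_left, real_inner_smul_left,
      real_inner_self_eq_norm_sq w]
    ring
  have h2 : ‖rot y v t w - w‖ ^ 2 = 2 * (1 - Real.cos t) * (⟪y, w⟫ ^ 2 + ⟪v, w⟫ ^ 2) := by
    rw [norm_sub_sq_real, norm_rot hy hv h, h1]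
    ring
  have h3 := bessel_HiL3 hy hv h w
  have h4 : 2 * (1 - Real.cos t) ≤ t ^ 2 := by
    have := Real.one_sub_sq_div_two_le_cos (x := t)
    linarith
  have h5 : 0 ≤ ⟪y, w⟫ ^ 2 + ⟪v, w⟫ ^ 2 := by positivity
  have h6 : ‖rot y v t w - w‖ ^ 2 ≤ (|t| * ‖w‖) ^ 2 := by
    rw [h2, mul_pow, sq_abs]
    exact mul_le_mul h4 h3 h5 (sq_nonneg t)
  exact (pow_le_pow_iff_left₀ (norm_nonneg _) (by positivity) two_ne_zero).1 h6

theorem mp_rot {y v : V} (hy : ‖y‖ = 1) (hv : ‖v‖ = 1) (h : ⟪y, v⟫ = 0) (t : ℝ) :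
    MeasurePreserving (rot y v t) (stdGaussian V) (stdGaussian V) :=
  mp_coiso (rot y v t) (continuous_rot y v t).measurable (rot y v (-t))
    (rot_adj_HiL3 y v t) (norm_rot hy hv h (-t))

theorem pr_rot_HiL3 {y v : V} (hy : ‖y‖ = 1) (hv : ‖v‖ = 1) (h : ⟪y, v⟫ = 0) (t : ℝ)
    (a x : V) : pr (rot y v t a) (rot y v t x) = rot y v t (pr a x) := by
  unfold pr
  rw [rot_sub_HiL3, rot_smul, rot_inner hy hv h, norm_rot hy hv h]

theorem D_rot_HiL3 {y v : V} (hy : ‖y‖ = 1) (hv : ‖v‖ = 1) (h : ⟪y, v⟫ = 0) (t : ℝ) {k : ℕ}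
    (x : Fin k → V) : D (fun j => rot y v t (x j)) = D x := by
  unfold D
  congr 2
  ext a b
  simp only [Matrix.gram_apply, rot_inner hy hv h]

theorem Vq_rot {y v : V} (hy : ‖y‖ = 1) (hv : ‖v‖ = 1) (h : ⟪y, v⟫ = 0) (t : ℝ) (i : ℕ)
    {f : V → ℝ} (hf : Measurable f) (a : V) :
    Vq i f (rot y v t a) = ∫ x, D (fun j => pr a (x j)) ^ 2
      * ∏ j, f (rot y v t (pr a (x j))) ∂(γk V i) := by
  have h2 := measurePreserving_pi (fun _ : Fin i => stdGaussian V) (fun _ => stdGaussian V)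
    (f := fun _ => rot y v t) (fun _ => mp_rot hy hv h t)
  have hm : Measurable fun x : Fin i → V => D (fun j => pr (rot y v t a) (x j)) ^ 2
      * ∏ j, f (pr (rot y v t a) (x j)) := by
    refine Measurable.mul (by fun_prop) (Finset.measurable_prod _ fun j _ => hf.comp ?_)
    fun_prop
  unfold Vq
  have h3 := integral_map (μ := γk V i) h2.measurable.aemeasurable hm.aestronglyMeasurable
  rw [h2.map_eq] at h3
  refine h3.trans (integral_congr_ae (Eventually.of_forall fun x => ?_))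
  simp only [pr_rot_HiL3 hy hv h]
  rw [D_rot_HiL3 hy hv h t fun j => pr a (x j)]

theorem hz_rot {y v : V} (hy : ‖y‖ = 1) (hv : ‖v‖ = 1) (h : ⟪y, v⟫ = 0) (t : ℝ)
    {f : V → ℝ} (hf : Measurable f) (a : V) :
    hz f (rot y v t a) = ∫ x, |⟪a, x⟫| * f (rot y v t x) ∂(stdGaussian V) := by
  have h2 := mp_rot hy hv h t
  have hm : Measurable fun x : V => |⟪rot y v t a, x⟫| * f x := by
    refine Measurable.mul ?_ hf
    fun_prop
  unfold hz
  have h3 := integral_map (μ := stdGaussian V) h2.measurable.aemeasurable hm.aestronglyMeasurable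
  rw [h2.map_eq] at h3
  refine h3.trans (integral_congr_ae (Eventually.of_forall fun x => ?_))
  simp only [rot_inner hy hv h]

theorem Lf.rot_lip {f : V → ℝ} (hf : Lf f) : ∃ L : ℝ, 0 ≤ L ∧ ∀ y v : V, ‖y‖ = 1 → ‖v‖ = 1 →
    ⟪y, v⟫ = 0 → ∀ (s t : ℝ) (w : V), |f (rot y v s w) - f (rot y v t w)| ≤ L * |s - t| := by
  obtain ⟨L, hL, hlip⟩ := hf.lip
  refine ⟨L, hL, fun y v hy hv h s t w => ?_⟩
  by_cases hw : w = 0
  · have h0 : ∀ r : ℝ, rot y v r w = 0 := fun r => by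
      rw [← norm_eq_zero, norm_rot hy hv h, hw, norm_zero]
    rw [h0, h0, sub_self, abs_zero]
    positivity
  · have hn : 0 < ‖w‖ := norm_pos_iff.2 hw
    have hu : ‖(‖w‖⁻¹ • w : V)‖ = 1 := norm_smul_inv_norm (𝕜 := ℝ) hw
    have e : ∀ r : ℝ, f (rot y v r w) = f (rot y v r (‖w‖⁻¹ • w)) := fun r => by
      rw [rot_smul, hf.hom _ (inv_pos.2 hn)]
    rw [e s, e t]
    refine le_trans (hlip _ _ ((norm_rot hy hv h _ _).trans hu)
      ((norm_rot hy hv h _ _).trans hu)) (mul_le_mul_of_nonneg_left ?_ hL)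
    have h1 := norm_rot_sub hy hv h (s - t) (rot y v t (‖w‖⁻¹ • w))
    rw [rot_rot hy hv h, sub_add_cancel, norm_rot hy hv h, hu, mul_one] at h1
    exact h1

theorem exists_perp_HiL3 (hn : 2 ≤ finrank ℝ V) (u : V) : ∃ v : V, ‖v‖ = 1 ∧ ⟪u, v⟫ = 0 := by
  have h1 : finrank ℝ (ℝ ∙ u) + finrank ℝ (ℝ ∙ u)ᗮ = finrank ℝ V :=
    Submodule.finrank_add_finrank_orthogonal _
  have h2 : finrank ℝ (ℝ ∙ u) ≤ 1 := by
    have := finrank_span_le_card (R := ℝ) ({u} : Set V)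
    simpa using this
  have h3 : 0 < finrank ℝ (ℝ ∙ u)ᗮ := by omega
  obtain ⟨z, hz⟩ := Module.finrank_pos_iff_exists_ne_zero.1 h3
  have hz0 : (z : V) ≠ 0 := fun h => hz (Subtype.ext h)
  refine ⟨‖(z : V)‖⁻¹ • (z : V), norm_smul_inv_norm (𝕜 := ℝ) hz0, ?_⟩
  rw [real_inner_smul_right, Submodule.mem_orthogonal_singleton_iff_inner_right.1 z.2, mul_zero]

theorem exists_rot (hn : 2 ≤ finrank ℝ V) {u u' : V} (hu : ‖u‖ = 1) (hu' : ‖u'‖ = 1) :
    ∃ (v : V) (t : ℝ), ‖v‖ = 1 ∧ ⟪u, v⟫ = 0 ∧ rot u v t u = u' := by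
  have huu : ⟪u, u⟫ = (1 : ℝ) := by rw [real_inner_self_eq_norm_sq, hu]; norm_num
  have hab : |⟪u, u'⟫| ≤ 1 := by
    have := abs_real_inner_le_norm u u'
    rwa [hu, hu', mul_one] at this
  obtain ⟨ha, hb⟩ := abs_le.1 hab
  have hp : ‖u' - ⟪u, u'⟫ • u‖ = Real.sin (Real.arccos ⟪u, u'⟫) := by
    rw [Real.sin_arccos, norm_eq_sqrt_real_inner]
    congr 1
    simp only [inner_sub_left, inner_sub_right, real_inner_smul_left, real_inner_smul_right, huu,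
      real_inner_comm u u', real_inner_self_eq_norm_sq u', hu']
    ring
  have hperp : ⟪u, u' - ⟪u, u'⟫ • u⟫ = 0 := by
    rw [inner_sub_right, real_inner_smul_right, huu, mul_one, sub_self]
  obtain ⟨v, hv, huv, hvp⟩ : ∃ v : V, ‖v‖ = 1 ∧ ⟪u, v⟫ = 0 ∧
      ‖u' - ⟪u, u'⟫ • u‖ • v = u' - ⟪u, u'⟫ • u := by
    by_cases h0 : u' - ⟪u, u'⟫ • u = 0
    · obtain ⟨v, hv, huv⟩ := exists_perp_HiL3 hn u
      exact ⟨v, hv, huv, by rw [h0, norm_zero, zero_smul]⟩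
    · refine ⟨‖u' - ⟪u, u'⟫ • u‖⁻¹ • (u' - ⟪u, u'⟫ • u), norm_smul_inv_norm (𝕜 := ℝ) h0, ?_, ?_⟩
      · rw [real_inner_smul_right, hperp, mul_zero]
      · rw [smul_smul, mul_inv_cancel₀ (norm_ne_zero_iff.2 h0), one_smul]
  refine ⟨v, Real.arccos ⟪u, u'⟫, hv, huv, ?_⟩
  have hvu : ⟪v, u⟫ = (0 : ℝ) := by rw [real_inner_comm]; exact huv
  unfold rot
  rw [huu, hvu, Real.cos_arccos ha hb, ← hp, hvp]
  module

end Pool.Agent.P.MP_181257_gt
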