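import Pool.Agent.P.MP_181257_gt.HiP1

/-! Homogeneous Lipschitz functions. -/

set_option autoImplicit false
set_option linter.unusedSectionVars false
set_option linter.unusedVariables false

open MeasureTheory ProbabilityTheory Module Set Filter Topology
open scoped RealInnerProductSpace ENNReal Pointwise Matrix

noncomputable section

namespace Pool.Agent.P.MP_181257_gt

variable {V : Type} [NormedAddCommGroup V] [InnerProductSpace ℝ V] [FiniteDimensional ℝ V]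
  [MeasurableSpace V] [BorelSpace V]

theorem Lf.bd {f : V → ℝ} (hf : Lf f) : Bd f := by
  obtain ⟨C, hC⟩ := hf.bdd
  exact ⟨hf.meas, C, fun x => by rw [abs_of_nonneg (hf.nonneg x)]; exact hC x⟩

theorem Lf.lip' {f : V → ℝ} (hf : Lf f) : ∃ L : ℝ, 0 ≤ L ∧ ∀ x y : V, x ≠ 0 → y ≠ 0 →
    |f x - f y| ≤ L * (‖x - y‖ / ‖x‖) := by
  obtain ⟨L, hL, h⟩ := hf.lip
  refine ⟨2 * L, by positivity, fun x y hx hy => ?_⟩
  have hx' : 0 < ‖x‖ := norm_pos_iff.2 hx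
  have hy' : 0 < ‖y‖ := norm_pos_iff.2 hy
  have h1 := h (‖x‖⁻¹ • x) (‖y‖⁻¹ • y) (by rw [norm_smul, norm_inv, norm_norm]; field_simp)
    (by rw [norm_smul, norm_inv, norm_norm]; field_simp)
  rw [hf.hom _ (inv_pos.2 hx'), hf.hom _ (inv_pos.2 hy')] at h1
  have e : ‖x‖⁻¹ • x - ‖y‖⁻¹ • y = ‖x‖⁻¹ • (x - y) + (‖x‖⁻¹ - ‖y‖⁻¹) • y := by module
  have h2 : ‖(‖x‖⁻¹ - ‖y‖⁻¹) • y‖ ≤ ‖x - y‖ / ‖x‖ := by
    have e2 : ‖x‖⁻¹ - ‖y‖⁻¹ = (‖y‖ - ‖x‖) / (‖x‖ * ‖y‖) := by field_simp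
    have h3 : |‖y‖ - ‖x‖| ≤ ‖x - y‖ := by
      rw [abs_sub_comm]; exact abs_norm_sub_norm_le x y
    rw [norm_smul, e2, Real.norm_eq_abs, abs_div, abs_of_pos (mul_pos hx' hy')]
    calc |‖y‖ - ‖x‖| / (‖x‖ * ‖y‖) * ‖y‖ = |‖y‖ - ‖x‖| / ‖x‖ := by field_simp
      _ ≤ ‖x - y‖ / ‖x‖ := by gcongr
  have h4 : ‖‖x‖⁻¹ • (x - y)‖ = ‖x - y‖ / ‖x‖ := by
    rw [norm_smul, norm_inv, norm_norm, div_eq_inv_mul]
  have h5 : ‖‖x‖⁻¹ • x - ‖y‖⁻¹ • y‖ ≤ 2 * (‖x - y‖ / ‖x‖) := by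
    rw [e]
    have := norm_add_le (‖x‖⁻¹ • (x - y)) ((‖x‖⁻¹ - ‖y‖⁻¹) • y)
    linarith
  calc |f x - f y| ≤ L * ‖‖x‖⁻¹ • x - ‖y‖⁻¹ • y‖ := h1
    _ ≤ L * (2 * (‖x - y‖ / ‖x‖)) := by gcongr
    _ = 2 * L * (‖x - y‖ / ‖x‖) := by ring

theorem lipOn_HiL4 {f : V → ℝ} (hf : Lf f) {δ : ℝ} (hδ : 0 < δ) :
    ∃ C : NNReal, LipschitzOnWith C f {x | δ < ‖x‖} := by
  obtain ⟨L, hL, h⟩ := hf.lip'
  refine ⟨⟨L / δ, by positivity⟩, LipschitzOnWith.of_dist_le_mul fun x hx y hy => ?_⟩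
  have hx' : δ < ‖x‖ := hx
  have hy' : δ < ‖y‖ := hy
  rw [Real.dist_eq, dist_eq_norm]
  calc |f x - f y| ≤ L * (‖x - y‖ / ‖x‖) :=
        h x y (norm_pos_iff.1 (hδ.trans hx')) (norm_pos_iff.1 (hδ.trans hy'))
    _ ≤ L * (‖x - y‖ / δ) := by gcongr
    _ = L / δ * ‖x - y‖ := by ring

theorem open_HiL4 (δ : ℝ) : IsOpen {x : V | δ < ‖x‖} :=
  isOpen_lt continuous_const continuous_norm

theorem Lf.contOn {f : V → ℝ} (hf : Lf f) : ContinuousOn f {0}ᶜ := by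
  intro x hx
  have hx' : 0 < ‖x‖ := norm_pos_iff.2 hx
  obtain ⟨C, hC⟩ := lipOn_HiL4 hf (half_pos hx')
  exact (hC.continuousOn.continuousAt
    ((open_HiL4 _).mem_nhds (half_lt_self hx'))).continuousWithinAt

theorem Lf.ae_diff {f : V → ℝ} (hf : Lf f) (hn : 1 ≤ finrank ℝ V) :
    ∀ᵐ x ∂(stdGaussian V), DifferentiableAt ℝ f x := by
  have h1 : ∀ k : ℕ, ∀ᵐ x ∂(volume : Measure V), 1 / ((k : ℝ) + 1) < ‖x‖ →
      DifferentiableAt ℝ f x := by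
    intro k
    obtain ⟨C, hC⟩ := lipOn_HiL4 hf (δ := 1 / ((k : ℝ) + 1)) (by positivity)
    filter_upwards [hC.ae_differentiableWithinAt_of_mem (μ := volume)] with x hx hk
    exact (hx hk).differentiableAt ((open_HiL4 _).mem_nhds hk)
  have h2 : stdGaussian V ≪ (volume : Measure V) := by
    rw [stdGaussian_eq_withDensity]
    exact withDensity_absolutelyContinuous _ _
  filter_upwards [h2.ae_le (ae_all_iff.2 h1), ae_ne_zero hn] with x hx h0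
  obtain ⟨k, hk⟩ := exists_nat_one_div_lt (norm_pos_iff.2 h0)
  exact hx k hk

theorem Lf.diff_smul {f : V → ℝ} (hf : Lf f) {t : ℝ} (ht : 0 < t) (x : V) :
    DifferentiableAt ℝ f (t • x) ↔ DifferentiableAt ℝ f x := by
  have key : ∀ {s : ℝ}, 0 < s → ∀ y : V, DifferentiableAt ℝ f (s • y) →
      DifferentiableAt ℝ f y := by
    intro s hs y hy
    have e : f = f ∘ fun z : V => s • z := funext fun z => (hf.hom s hs z).symm
    rw [e]
    exact DifferentiableAt.comp y hy (differentiableAt_id.const_smul s)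
  refine ⟨key ht x, fun h => key (inv_pos.2 ht) _ ?_⟩
  rwa [smul_smul, inv_mul_cancel₀ ht.ne', one_smul]

theorem Lf.fderiv_smul {f : V → ℝ} (hf : Lf f) {t : ℝ} (ht : 0 < t) (x : V) :
    fderiv ℝ f (t • x) = t⁻¹ • fderiv ℝ f x := by
  have e : (fun z : V => f (t • z)) = f := funext fun z => hf.hom t ht z
  have h := fderiv_comp_smul (𝕜 := ℝ) (f := f) (x := x) t
  rw [e] at h
  rw [h, smul_smul, inv_mul_cancel₀ ht.ne', one_smul]

theorem Lf.fderiv_self {f : V → ℝ} (hf : Lf f) (x : V) : fderiv ℝ f x x = 0 := by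
  by_cases hd : DifferentiableAt ℝ f x
  · have h1 : HasDerivAt (fun s : ℝ => s • x) x 1 := by
      simpa using (hasDerivAt_id (1 : ℝ)).smul_const x
    have h2 : HasFDerivAt f (fderiv ℝ f x) ((fun s : ℝ => s • x) 1) := by
      simpa using hd.hasFDerivAt
    have h3 := h2.comp_hasDerivAt (1 : ℝ) h1
    have h4 : HasDerivAt (f ∘ fun s : ℝ => s • x) 0 1 := by
      refine (hasDerivAt_const (1 : ℝ) (f x)).congr_of_eventuallyEq ?_
      filter_upwards [lt_mem_nhds (zero_lt_one' ℝ)] with s hs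
      exact hf.hom s hs x
    exact h3.unique h4
  · rw [fderiv_zero_of_not_differentiableAt hd]
    rfl

theorem Lf.norm_fderiv {f : V → ℝ} (hf : Lf f) :
    ∃ L : ℝ, 0 ≤ L ∧ ∀ x : V, ‖x‖ * ‖fderiv ℝ f x‖ ≤ L := by
  obtain ⟨L, hL, h⟩ := hf.lip'
  refine ⟨L, hL, fun x => ?_⟩
  by_cases hx : x = 0
  · rw [hx, norm_zero, zero_mul]; exact hL
  have hx' : 0 < ‖x‖ := norm_pos_iff.2 hx
  have h1 : ‖fderiv ℝ f x‖ ≤ L / ‖x‖ := by
    refine norm_fderiv_le_of_lip' ℝ (by positivity) ?_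
    filter_upwards [isOpen_ne.mem_nhds hx] with y hy
    rw [Real.norm_eq_abs, abs_sub_comm, norm_sub_rev]
    exact (h x y hx hy).trans_eq (by ring)
  rw [le_div_iff₀ hx'] at h1
  linarith

theorem measurable_fderiv_pair (f : V → ℝ) :
    Measurable fun p : V × V => fderiv ℝ f p.1 p.2 := by
  exact ContinuousLinearMap.measurable_apply₂.comp
    (((measurable_fderiv ℝ f).comp measurable_fst).prodMk measurable_snd)

theorem Jf_ne_top {f : V → ℝ} (hf : Lf f) {δ : ℝ} (hδ : 0 < δ) (hpos : ∀ x, x ≠ 0 → δ ≤ f x) :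
    Jf f ≠ ∞ := by
  obtain ⟨L, hL, h⟩ := hf.norm_fderiv
  have h1 : Jf f ≤ ∫⁻ _ : V, ENNReal.ofReal (L ^ 2 / δ) ∂(stdGaussian V) := by
    refine lintegral_mono fun x => ENNReal.ofReal_le_ofReal ?_
    by_cases hx : x = 0
    · rw [hx, norm_zero]
      simp only [ne_eq, OfNat.ofNat_ne_zero, not_false_eq_true, zero_pow, zero_mul, zero_div]
      positivity
    · have h2 : ‖x‖ ^ 2 * ‖fderiv ℝ f x‖ ^ 2 ≤ L ^ 2 := by
        rw [← mul_pow]
        exact pow_le_pow_left₀ (by positivity) (h x) 2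
      exact div_le_div₀ (by positivity) h2 hδ (hpos x hx)
  rw [lintegral_const, measure_univ, mul_one] at h1
  exact ne_top_of_le_ne_top ENNReal.ofReal_ne_top h1

end Pool.Agent.P.MP_181257_gt
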