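import Pool.Agent.P.MP_181257_gt.HiL4

/-! Orthogonal pairs of directions. -/

set_option autoImplicit false
set_option linter.unusedSectionVars false
set_option linter.unusedVariables false

open MeasureTheory ProbabilityTheory Module Set Filter Topology
open scoped RealInnerProductSpace ENNReal Pointwise Matrix

noncomputable section

namespace Pool.Agent.P.MP_181257_gt

variable {V : Type} [NormedAddCommGroup V] [InnerProductSpace ℝ V] [FiniteDimensional ℝ V]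
  [MeasurableSpace V] [BorelSpace V]

/-- radial and angular parts of the projection on a hyperplane are independent -/
theorem radial_gen_HiL5 {y : V} (h1 : 1 ≤ finrank ℝ (ℝ ∙ y)ᗮ) {ρ : ℝ → ℝ≥0∞}
    (hρ : Measurable ρ) {ψ : V → ℝ≥0∞} (hψ : Measurable ψ)
    (hom : ∀ t : ℝ, 0 < t → ∀ x, ψ (t • x) = ψ x) :
    ∫⁻ G, ρ ‖pr y G‖ * ψ (pr y G) ∂(stdGaussian V)
      = (∫⁻ z, ρ ‖z‖ ∂(stdGaussian (ℝ ∙ y)ᗮ)) * ∫⁻ G, ψ (pr y G) ∂(stdGaussian V) := by
  have hψ' : Measurable fun z : (ℝ ∙ y)ᗮ => ψ (z : V) := hψ.comp measurable_subtype_coe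
  have e1 : ∫⁻ G, ρ ‖pr y G‖ * ψ (pr y G) ∂(stdGaussian V)
      = ∫⁻ z : (ℝ ∙ y)ᗮ, ρ ‖z‖ * ψ (z : V) ∂(stdGaussian (ℝ ∙ y)ᗮ) :=
    (mp_prS y).lintegral_comp (f := fun z : (ℝ ∙ y)ᗮ => ρ ‖z‖ * ψ (z : V))
      ((hρ.comp measurable_norm).mul hψ')
  have e2 : ∫⁻ G, ψ (pr y G) ∂(stdGaussian V)
      = ∫⁻ z : (ℝ ∙ y)ᗮ, ψ (z : V) ∂(stdGaussian (ℝ ∙ y)ᗮ) :=
    (mp_prS y).lintegral_comp (f := fun z : (ℝ ∙ y)ᗮ => ψ (z : V)) hψ'
  rw [e1, e2]
  exact radial_indep_lintegral h1 hρ hψ' fun t ht x => by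
    simpa using hom t ht (x : V)

theorem radial_pr {m : ℕ} (hm : finrank ℝ V = m + 1) (h1 : 1 ≤ m) {y : V} (hy : y ≠ 0)
    {ψ : V → ℝ≥0∞} (hψ : Measurable ψ) (hom : ∀ t : ℝ, 0 < t → ∀ x, ψ (t • x) = ψ x) :
    ∫⁻ G, ENNReal.ofReal (‖pr y G‖ ^ 2) * ψ (pr y G) ∂(stdGaussian V)
      = (m : ℝ≥0∞) * ∫⁻ G, ψ (pr y G) ∂(stdGaussian V) := by
  have hf : finrank ℝ (ℝ ∙ y)ᗮ = m := moment_finrank hm hy
  have h := radial_gen_HiL5 (y := y) (by omega) (ρ := fun r => ENNReal.ofReal (r ^ 2))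
    (by fun_prop) hψ hom
  rw [h]
  congr 1
  rw [← ofReal_integral_eq_lintegral_ofReal (integrable_norm_pow 2)
    (ae_of_all _ fun x => by positivity), integral_norm_sq, hf, ENNReal.ofReal_natCast]

theorem swap_inc (hn : 2 ≤ finrank ℝ V) {H : V × V → ℝ≥0∞} (hH : Measurable H)
    (h1 : ∀ x y (t : ℝ), 0 < t → H (t • x, y) = H (x, y))
    (h2 : ∀ x y (t : ℝ), 0 < t → H (x, t • y) = H (x, y)) :
    ∫⁻ a, ∫⁻ b, H (a, pr a b) ∂(stdGaussian V) ∂(stdGaussian V)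
      = ∫⁻ b, ∫⁻ a, H (pr b a, b) ∂(stdGaussian V) ∂(stdGaussian V) := by
  obtain ⟨m, hm⟩ : ∃ m, finrank ℝ V = m + 1 := ⟨finrank ℝ V - 1, by omega⟩
  obtain ⟨C, hC0, hCt, hC⟩ := bp_one (finrank ℝ V) 0 hn
  obtain ⟨μ, hμ0, hμt, hμ⟩ := bpg_mean m (by omega)
  have key : ∀ K : V × V → ℝ≥0∞, Measurable K →
      (∀ x y (t : ℝ), 0 < t → K (t • x, y) = K (x, y)) →
      (∀ x y (t : ℝ), 0 < t → K (x, t • y) = K (x, y)) →
      ∫⁻ a, ∫⁻ b, K (a, pr a b) ∂(stdGaussian V) ∂(stdGaussian V)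
        = C * μ * ∫⁻ b, ∫⁻ a, K (pr b a, b) ∂(stdGaussian V) ∂(stdGaussian V) := by
    intro K hK k1 k2
    rw [hC V rfl K hK fun x y t ht => by simp [k2 x y t ht], mul_assoc,
      ← lintegral_const_mul' μ _ hμt]
    congr 1
    refine lintegral_congr_ae ?_
    filter_upwards [ae_ne_zero (V := V) (by omega)] with b hb
    have hf : finrank ℝ (ℝ ∙ b)ᗮ = m := moment_finrank hm hb
    have h := radial_gen_HiL5 (y := b) (by omega) ENNReal.measurable_ofReal
      (ψ := fun x => K (x, b)) (hK.comp (measurable_id.prodMk measurable_const))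
      fun t ht x => k1 x b t ht
    rw [h, hμ _ hf]
  have one := key (fun _ => 1) measurable_const (fun _ _ _ _ => rfl) fun _ _ _ _ => rfl
  simp only [lintegral_const, measure_univ, mul_one] at one
  rw [key H hH h1 h2, ← one, one_mul]

theorem Lf.ae_ae_diff {f : V → ℝ} (hf : Lf f) (hn : 2 ≤ finrank ℝ V) :
    ∀ᵐ y ∂(stdGaussian V), ∀ᵐ G ∂(stdGaussian V), DifferentiableAt ℝ f (pr y G) := by
  set S : Set V := {x | DifferentiableAt ℝ f x}ᶜ with hS
  have hSm : MeasurableSet S := (measurableSet_of_differentiableAt ℝ f).compl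
  have hI : Measurable (S.indicator fun _ : V => (1 : ℝ≥0∞)) := measurable_const.indicator hSm
  have h := swap_inc hn (H := fun p => S.indicator (fun _ => 1) p.1) (hI.comp measurable_fst)
    (fun x y t ht => by
      have e : t • x ∈ S ↔ x ∈ S := not_congr (hf.diff_smul ht x)
      by_cases hx : x ∈ S
      · simp only [indicator_of_mem hx, indicator_of_mem (e.2 hx)]
      · simp only [indicator_of_notMem hx, indicator_of_notMem fun h => hx (e.1 h)])
    (fun _ _ _ _ => rfl)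
  have hl : ∫⁻ a, ∫⁻ b : V, S.indicator (fun _ => (1 : ℝ≥0∞)) a ∂(stdGaussian V)
      ∂(stdGaussian V) = 0 := by
    simp only [lintegral_const, measure_univ, mul_one]
    rw [lintegral_eq_zero_iff hI]
    filter_upwards [hf.ae_diff (by omega)] with x hx
    simp [hS, indicator, hx]
  have hm : Measurable fun p : V × V => S.indicator (fun _ => (1 : ℝ≥0∞)) (pr p.1 p.2) :=
    hI.comp (measurable_pr measurable_fst measurable_snd)
  have h0 : ∫⁻ b, ∫⁻ a, S.indicator (fun _ => (1 : ℝ≥0∞)) (pr b a) ∂(stdGaussian V)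
      ∂(stdGaussian V) = 0 := h.symm.trans hl
  rw [lintegral_eq_zero_iff hm.lintegral_prod_right'] at h0
  filter_upwards [h0] with y hy
  have hy' : ∫⁻ a, S.indicator (fun _ => (1 : ℝ≥0∞)) (pr y a) ∂(stdGaussian V) = 0 := hy
  have hm' : Measurable fun a : V => S.indicator (fun _ => (1 : ℝ≥0∞)) (pr y a) :=
    hI.comp (measurable_pr measurable_const measurable_id)
  rw [lintegral_eq_zero_iff hm'] at hy'
  filter_upwards [hy'] with G hG
  by_contra hd
  have : pr y G ∈ S := hd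
  simp [indicator, this] at hG

end Pool.Agent.P.MP_181257_gt
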