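import Pool.Agent.P.MP_181257_gt.HiL2
import Pool.Agent.P.MP_181257_gt.HiL3
import Pool.Agent.P.MP_181257_gt.HiL4

/-! The derivative of the squared-volume moment. -/

set_option autoImplicit false
set_option linter.unusedSectionVars false
set_option linter.unusedVariables false

open MeasureTheory ProbabilityTheory Module Set Filter Topology
open scoped RealInnerProductSpace ENNReal Pointwise Matrix

noncomputable section

namespace Pool.Agent.P.MP_181257_gt

variable {V : Type} [NormedAddCommGroup V] [InnerProductSpace ℝ V] [FiniteDimensional ℝ V]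
  [MeasurableSpace V] [BorelSpace V]

theorem prod_lip_HiL6 {ι : Type} (s : Finset ι) {a b : ι → ℝ} {C δ : ℝ} (hC : 1 ≤ C)
    (hδ : 0 ≤ δ) (ha : ∀ j, |a j| ≤ C) (hb : ∀ j, |b j| ≤ C) (h : ∀ j, |a j - b j| ≤ δ) :
    |∏ j ∈ s, a j - ∏ j ∈ s, b j| ≤ s.card * C ^ s.card * δ := by
  classical
  induction s using Finset.induction_on with
  | empty => simp
  | insert i s hi ih =>
    rw [Finset.prod_insert hi, Finset.prod_insert hi, Finset.card_insert_of_notMem hi]
    have hP : |∏ j ∈ s, b j| ≤ C ^ s.card := by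
      rw [Finset.abs_prod]
      calc ∏ j ∈ s, |b j| ≤ ∏ _j ∈ s, C :=
            Finset.prod_le_prod (fun j _ => abs_nonneg _) fun j _ => hb j
        _ = C ^ s.card := by simp
    have e : a i * ∏ j ∈ s, a j - b i * ∏ j ∈ s, b j
        = a i * (∏ j ∈ s, a j - ∏ j ∈ s, b j) + (a i - b i) * ∏ j ∈ s, b j := by ring
    have hC0 : 0 ≤ C := by linarith
    have hpw : 0 ≤ C ^ s.card := pow_nonneg hC0 _
    have h1 : |a i * (∏ j ∈ s, a j - ∏ j ∈ s, b j)| ≤ C * (s.card * C ^ s.card * δ) := by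
      rw [abs_mul]
      exact mul_le_mul (ha i) ih (abs_nonneg _) hC0
    have h2 : |(a i - b i) * ∏ j ∈ s, b j| ≤ δ * (C * C ^ s.card) := by
      rw [abs_mul]
      refine mul_le_mul (h i) (hP.trans ?_) (abs_nonneg _) hδ
      nlinarith
    rw [e]
    refine (abs_add_le _ _).trans ?_
    push_cast
    rw [pow_succ]
    nlinarith

theorem prod_erase_HiL6 {k : ℕ} (j : Fin (k + 1)) (φ : Fin (k + 1) → ℝ) :
    ∏ l ∈ Finset.univ.erase j, φ l = ∏ l : Fin k, φ (j.succAbove l) := by
  have e : (Finset.univ.erase j : Finset (Fin (k + 1))) = Finset.univ.image j.succAbove := by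
    rw [Fin.image_succAbove_univ]
    ext l
    simp
  rw [e, Finset.prod_image fun a _ b _ h => Fin.succAbove_right_injective h]

theorem bd_prod_HiL6 {X ι : Type} [MeasurableSpace X] (s : Finset ι) {φ : ι → X → ℝ}
    (h : ∀ j, Bd (φ j)) : Bd fun x => ∏ j ∈ s, φ j x := by
  classical
  induction s using Finset.induction_on with
  | empty => simpa using AFK.bd_const (X := X) 1
  | insert i s hi ih =>
    simp only [Finset.prod_insert hi]
    exact AFK.bd_mul (h i) ih

theorem bd_comp_HiL6 {X Y : Type} [MeasurableSpace X] [MeasurableSpace Y] {φ : Y → ℝ}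
    (h : Bd φ) {T : X → Y} (hT : Measurable T) : Bd fun x => φ (T x) := by
  obtain ⟨C, hC⟩ := h.bdd
  exact ⟨h.meas.comp hT, C, fun x => hC _⟩

theorem term_le_HiL6 {m k : ℕ} (hm : finrank ℝ V = m + 1) {f g : V → ℝ} (hf : Bd f)
    (h0 : ∀ x, 0 ≤ f x) (hg : Bd g) (hg0 : ∀ x, 0 ≤ g x) {y : V} (hy : ‖y‖ = 1) {r : ℝ}
    (hr : 0 ≤ r) (hl : ∀ z : V, ‖z‖ = 1 → ⟪y, z⟫ = 0 → r ≤ Mf f y z z) (j : Fin (k + 1)) :
    (m : ℝ) * r * ∫ x, D (fun l => pr y (x l)) ^ 2
        * ((∏ l ∈ Finset.univ.erase j, f (pr y (x l))) * g (pr y (x j))) ∂(γk V (k + 1))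
      ≤ Vq (k + 1) f y * ∫ G, ‖pr y G‖ ^ 2 * g (pr y G) ∂(stdGaussian V) := by
  have hA : Integrable (fun x : Fin (k + 1) → V => D (fun l => pr y (x l)) ^ 2)
      (γk V (k + 1)) := by
    simpa using integrable_Vq (k + 1) (bd_one (V := V)) y
  set H : (Fin (k + 1) → V) → ℝ := fun x => D (fun l => pr y (x l)) ^ 2
    * ((∏ l : Fin k, f (pr y (x l.succ))) * g (pr y (x 0))) with hH
  have hB : Bd fun x : Fin (k + 1) → V =>
      (∏ l : Fin k, f (pr y (x l.succ))) * g (pr y (x 0)) :=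
    AFK.bd_mul (bd_prod_HiL6 _ fun l => bd_comp_HiL6 hf (by fun_prop))
      (bd_comp_HiL6 hg (by fun_prop))
  have hHm : Measurable H := by
    refine Measurable.mul ?_ hB.meas
    fun_prop
  have hHi : Integrable H (γk V (k + 1)) := AFK.int_mul hA hB
  have e1 : ∫ x, D (fun l => pr y (x l)) ^ 2
        * ((∏ l ∈ Finset.univ.erase j, f (pr y (x l))) * g (pr y (x j))) ∂(γk V (k + 1))
      = ∫ x, H x ∂(γk V (k + 1)) := by
    rw [← moment_integral_mp (mp_perm (stdGaussian V) j.cycleRange.symm) hHm]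
    refine integral_congr_ae (Eventually.of_forall fun x => ?_)
    simp only [hH, Fin.cycleRange_symm_zero, Fin.cycleRange_symm_succ]
    rw [prod_erase_HiL6 j fun l => f (pr y (x l)),
      D_perm (fun l => pr y (x l)) j.cycleRange.symm]
  have hc := mp_cons (k := k) (stdGaussian V)
  have hHi' := (hc.integrable_comp hHm.aestronglyMeasurable).2 hHi
  have e2 : ∫ x, H x ∂(γk V (k + 1))
      = ∫ G, ∫ x, H (Fin.cons G x) ∂(γk V k) ∂(stdGaussian V) := by
    rw [← moment_integral_mp hc hHm]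
    exact integral_prod _ hHi'
  have e3 : ∀ G : V, ∫ x, H (Fin.cons G x) ∂(γk V k)
      = g (pr y G) * ∫ x, D (Fin.cons (pr y G) fun l => pr y (x l) : Fin (k + 1) → V) ^ 2
        * ∏ l, f (pr y (x l)) ∂(γk V k) := by
    intro G
    rw [← integral_const_mul]
    refine integral_congr_ae (Eventually.of_forall fun x => ?_)
    have e : (fun l => pr y ((Fin.cons G x : Fin (k + 1) → V) l))
        = (Fin.cons (pr y G) fun l => pr y (x l) : Fin (k + 1) → V) := by
      funext l
      refine Fin.cases ?_ (fun l => ?_) l <;> simp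
    simp only [hH, e, Fin.cons_succ, Fin.cons_zero]
    ring
  have hN : Integrable (fun G => ‖pr y G‖ ^ 2) (stdGaussian V) := by
    refine (integrable_norm_pow (V := V) 2).mono' (by fun_prop) (Eventually.of_forall fun G => ?_)
    rw [Real.norm_of_nonneg (by positivity)]
    exact pow_le_pow_left₀ (norm_nonneg _) (norm_pr_le y G) 2
  have hR : Integrable (fun G => ‖pr y G‖ ^ 2 * g (pr y G)) (stdGaussian V) :=
    AFK.int_mul hN (bd_comp_HiL6 hg (by fun_prop))
  rw [e1, e2, ← integral_const_mul, ← integral_const_mul]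
  refine integral_mono (hHi'.integral_prod_left.const_mul _) (hR.const_mul _) fun G => ?_
  have := mul_le_mul_of_nonneg_left (kappa_le (k := k) hm hf h0 hy hr hl G) (hg0 (pr y G))
  simp only [e3]
  nlinarith

theorem Vq_deriv {m k : ℕ} (hm : finrank ℝ V = m + 1) {f : V → ℝ} (hf : Lf f) {y v : V}
    (hy : ‖y‖ = 1) (hv : ‖v‖ = 1) (hyv : ⟪y, v⟫ = 0)
    (hd : ∀ᵐ G ∂(stdGaussian V), DifferentiableAt ℝ f (pr y G)) {r : ℝ} (hr : 0 ≤ r)
    (hl : ∀ z : V, ‖z‖ = 1 → ⟪y, z⟫ = 0 → r ≤ Mf f y z z) :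
    ∃ Λ : ℝ, HasDerivAt (fun t => Vq (k + 1) f (rot y v t y)) Λ 0 ∧
      (m : ℝ) * r * |Λ| ≤ (k + 1 : ℝ) * Vq (k + 1) f y *
        ∫ G, ‖pr y G‖ ^ 2 * (|⟪v, pr y G⟫| * |fderiv ℝ f (pr y G) y|) ∂(stdGaussian V) := by
  obtain ⟨L, hL0, hL⟩ := hf.rot_lip
  obtain ⟨L', hL0', hL'⟩ := hf.norm_fderiv
  obtain ⟨C₀, hC₀⟩ := hf.bd.bdd
  set C : ℝ := max C₀ 1 with hC
  have hC1 : 1 ≤ C := le_max_right _ _
  have hfC : ∀ x, |f x| ≤ C := fun x => (hC₀ x).trans (le_max_left _ _)
  set g : V → ℝ := fun w => -(⟪v, w⟫ * fderiv ℝ f w y) with hg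
  have hgm : Measurable g := by
    have h1 : Measurable fun w : V => fderiv ℝ f w y :=
      (measurable_fderiv_pair f).comp (f := fun w : V => (w, y)) (by fun_prop)
    exact (Measurable.mul (by fun_prop) h1).neg
  have hgb : ∀ w, |g w| ≤ L' := by
    intro w
    have h1 : |⟪v, w⟫| ≤ ‖w‖ := by simpa [hv] using abs_real_inner_le_norm v w
    have h2 : |fderiv ℝ f w y| ≤ ‖fderiv ℝ f w‖ := by
      simpa [hy] using (fderiv ℝ f w).le_opNorm y
    simp only [hg, abs_neg, abs_mul]
    exact (mul_le_mul h1 h2 (abs_nonneg _) (norm_nonneg _)).trans (hL' w)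
  have hgB : Bd g := ⟨hgm, L', hgb⟩
  have hgB' : Bd fun w => |g w| := ⟨hgm.abs, L', fun w => by rw [abs_abs]; exact hgb w⟩
  have hA : Integrable (fun x : Fin (k + 1) → V => D (fun l => pr y (x l)) ^ 2)
      (γk V (k + 1)) := by
    simpa using integrable_Vq (k + 1) (bd_one (V := V)) y
  have hT : ∀ {u : V → ℝ}, Bd u → ∀ j : Fin (k + 1), Bd fun x : Fin (k + 1) → V =>
      (∏ l ∈ Finset.univ.erase j, f (pr y (x l))) * u (pr y (x j)) := fun hu j =>
    AFK.bd_mul (bd_prod_HiL6 _ fun l => bd_comp_HiL6 hf.bd (by fun_prop))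
      (bd_comp_HiL6 hu (by fun_prop))
  have hae : ∀ᵐ x ∂(γk V (k + 1)), ∀ j, DifferentiableAt ℝ f (pr y (x j)) := by
    rw [ae_all_iff]
    intro j
    exact (measurePreserving_eval (fun _ : Fin (k + 1) => stdGaussian V)
      j).quasiMeasurePreserving.ae hd
  have key := hasDerivAt_integral_of_dominated_loc_of_lip (μ := γk V (k + 1)) (𝕜 := ℝ)
    (x₀ := (0 : ℝ)) (s := univ)
    (F := fun t x => D (fun l => pr y (x l)) ^ 2 * ∏ l, f (rot y v t (pr y (x l))))
    (F' := fun x => ∑ j, D (fun l => pr y (x l)) ^ 2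
      * ((∏ l ∈ Finset.univ.erase j, f (pr y (x l))) * g (pr y (x j))))
    (bound := fun x => D (fun l => pr y (x l)) ^ 2 * ((k + 1 : ℕ) * C ^ (k + 1) * L))
    univ_mem ?_ ?_ ?_ ?_ (hA.mul_const _) ?_
  · refine ⟨_, key.2.congr_of_eventuallyEq (Eventually.of_forall fun t =>
      Vq_rot hy hv hyv t (k + 1) hf.meas y), ?_⟩
    rw [integral_finsetSum _ fun j _ => AFK.int_mul hA (hT hgB j)]
    have hI : ∀ G : V, |⟪v, pr y G⟫| * |fderiv ℝ f (pr y G) y| = |g (pr y G)| := by
      intro G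
      simp only [hg, abs_neg, abs_mul]
    simp only [hI]
    have hmr : 0 ≤ (m : ℝ) * r := by positivity
    calc (m : ℝ) * r * |∑ j, ∫ x, D (fun l => pr y (x l)) ^ 2
          * ((∏ l ∈ Finset.univ.erase j, f (pr y (x l))) * g (pr y (x j))) ∂(γk V (k + 1))|
        ≤ (m : ℝ) * r * ∑ j, ∫ x, D (fun l => pr y (x l)) ^ 2
          * ((∏ l ∈ Finset.univ.erase j, f (pr y (x l))) * |g (pr y (x j))|)
            ∂(γk V (k + 1)) := by
          refine mul_le_mul_of_nonneg_left ((Finset.abs_sum_le_sum_abs _ _).trans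
            (Finset.sum_le_sum fun j _ => ?_)) hmr
          refine (abs_integral_le_integral_abs).trans (le_of_eq ?_)
          refine integral_congr_ae (Eventually.of_forall fun x => ?_)
          have h1 : 0 ≤ ∏ l ∈ Finset.univ.erase j, f (pr y (x l)) :=
            Finset.prod_nonneg fun l _ => hf.nonneg _
          simp only [abs_mul, abs_of_nonneg h1, abs_of_nonneg (sq_nonneg (D fun l => pr y (x l)))]
      _ ≤ ∑ _j : Fin (k + 1), Vq (k + 1) f y
          * ∫ G, ‖pr y G‖ ^ 2 * |g (pr y G)| ∂(stdGaussian V) := by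
          rw [Finset.mul_sum]
          exact Finset.sum_le_sum fun j _ =>
            term_le_HiL6 hm hf.bd hf.nonneg hgB' (fun w => abs_nonneg _) hy hr hl j
      _ = _ := by
          simp only [Finset.sum_const, Finset.card_univ, Fintype.card_fin, nsmul_eq_mul]
          push_cast
          ring
  · refine Eventually.of_forall fun t => Measurable.aestronglyMeasurable ?_
    refine Measurable.mul (by fun_prop) (Finset.measurable_prod _ fun l _ => ?_)
    exact hf.meas.comp ((continuous_rot y v t).measurable.comp (by fun_prop))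
  · simpa only [rot_zero] using integrable_Vq (k + 1) hf.bd y
  · exact (integrable_finsetSum _ fun j _ => AFK.int_mul hA (hT hgB j)).aestronglyMeasurable
  · refine Eventually.of_forall fun x => LipschitzWith.lipschitzOnWith ?_
    refine LipschitzWith.of_dist_le_mul fun s t => ?_
    have h1 := prod_lip_HiL6 (Finset.univ : Finset (Fin (k + 1)))
      (a := fun l => f (rot y v s (pr y (x l)))) (b := fun l => f (rot y v t (pr y (x l))))
      hC1 (mul_nonneg hL0 (abs_nonneg (s - t))) (fun l => hfC _) (fun l => hfC _)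
      fun l => hL y v hy hv hyv s t _
    simp only [Finset.card_univ, Fintype.card_fin] at h1
    have hD : 0 ≤ D (fun l => pr y (x l)) ^ 2 := sq_nonneg _
    have hb : 0 ≤ D (fun l => pr y (x l)) ^ 2 * (((k + 1 : ℕ) : ℝ) * C ^ (k + 1) * L) := by
      have : 0 ≤ C := by linarith
      positivity
    rw [Real.dist_eq, Real.dist_eq, Real.coe_nnabs, abs_of_nonneg hb, ← mul_sub, abs_mul,
      abs_of_nonneg hD, mul_assoc]
    refine mul_le_mul_of_nonneg_left (h1.trans (le_of_eq ?_)) hD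
    ring
  · filter_upwards [hae] with x hx
    rw [← Finset.mul_sum]
    refine HasDerivAt.const_mul _ ?_
    have h1 : ∀ j ∈ (Finset.univ : Finset (Fin (k + 1))),
        HasDerivAt (fun t => f (rot y v t (pr y (x j)))) (g (pr y (x j))) 0 := by
      intro j _
      have h2 : HasFDerivAt f (fderiv ℝ f (pr y (x j))) (rot y v 0 (pr y (x j))) := by
        rw [rot_zero]
        exact (hx j).hasFDerivAt
      have h3 := h2.comp_hasDerivAt (0 : ℝ) (hasDerivAt_rot y v (pr y (x j)))
      have e : fderiv ℝ f (pr y (x j)) (⟪y, pr y (x j)⟫ • v - ⟪v, pr y (x j)⟫ • y)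
          = g (pr y (x j)) := by
        simp [hg, inner_pr_self]
      rw [e] at h3
      exact h3
    simpa only [rot_zero, smul_eq_mul] using HasDerivAt.fun_finsetProd h1

end Pool.Agent.P.MP_181257_gt
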