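import Pool.Agent.P.MP_181257_gt.HiL5
import Pool.Agent.P.MP_181257_gt.HiL6

/-! The gradient bound. -/

set_option autoImplicit false
set_option linter.unusedSectionVars false
set_option linter.unusedVariables false

open MeasureTheory ProbabilityTheory Module Set Filter Topology
open scoped RealInnerProductSpace ENNReal Pointwise Matrix

noncomputable section

namespace Pool.Agent.P.MP_181257_gt

variable {V : Type} [NormedAddCommGroup V] [InnerProductSpace ℝ V] [FiniteDimensional ℝ V]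
  [MeasurableSpace V] [BorelSpace V]

/-- the Fisher integrand -/
def fi_HiL7 (f : V → ℝ) (z x : V) : ℝ := ‖x‖ ^ 2 * fderiv ℝ f x z ^ 2 / f x

theorem meas_fd_HiL7 (f : V → ℝ) (z : V) : Measurable fun x => fderiv ℝ f x z :=
  (measurable_fderiv_pair f).comp (measurable_id.prodMk measurable_const)

theorem meas_fi_HiL7 {f : V → ℝ} (hf : Lf f) (z : V) : Measurable (fi_HiL7 f z) :=
  ((measurable_norm.pow_const 2).mul ((meas_fd_HiL7 f z).pow_const 2)).div hf.meas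

theorem fi_nonneg_HiL7 {f : V → ℝ} (hf : Lf f) (z x : V) : 0 ≤ fi_HiL7 f z x :=
  div_nonneg (by positivity) (hf.nonneg x)

theorem fd_bound_HiL7 {f : V → ℝ} (hf : Lf f) (z : V) :
    ∃ L : ℝ, 0 ≤ L ∧ ∀ x, ‖x‖ * |fderiv ℝ f x z| ≤ L := by
  obtain ⟨L, hL, h⟩ := hf.norm_fderiv
  refine ⟨L * ‖z‖, by positivity, fun x => ?_⟩
  calc ‖x‖ * |fderiv ℝ f x z| ≤ ‖x‖ * (‖fderiv ℝ f x‖ * ‖z‖) :=
        mul_le_mul_of_nonneg_left ((fderiv ℝ f x).le_opNorm z) (norm_nonneg _)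
    _ = ‖x‖ * ‖fderiv ℝ f x‖ * ‖z‖ := by ring
    _ ≤ L * ‖z‖ := mul_le_mul_of_nonneg_right (h x) (norm_nonneg _)

theorem fi_bound_HiL7 {f : V → ℝ} (hf : Lf f) {δ : ℝ} (hδ : 0 < δ)
    (hpos : ∀ x, x ≠ 0 → δ ≤ f x) (z : V) : ∃ C : ℝ, 0 ≤ C ∧ ∀ x, fi_HiL7 f z x ≤ C := by
  obtain ⟨L, hL, h⟩ := fd_bound_HiL7 hf z
  refine ⟨L ^ 2 / δ, by positivity, fun x => ?_⟩
  unfold fi_HiL7
  by_cases hx : x = 0
  · subst hx
    simp only [norm_zero, ne_eq, OfNat.ofNat_ne_zero, not_false_eq_true, zero_pow, zero_mul,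
      zero_div]
    positivity
  · refine div_le_div₀ (sq_nonneg _) ?_ hδ (hpos x hx)
    have := pow_le_pow_left₀ (by positivity) (h x) 2
    rwa [mul_pow, sq_abs] at this

theorem fi_hom_HiL7 {f : V → ℝ} (hf : Lf f) (z : V) {t : ℝ} (ht : 0 < t) (x : V) :
    fi_HiL7 f z (t • x) = fi_HiL7 f z x := by
  unfold fi_HiL7
  rw [hf.fderiv_smul ht, hf.hom t ht, norm_smul, Real.norm_eq_abs, abs_of_pos ht,
    ContinuousLinearMap.smul_apply, smul_eq_mul]
  congr 1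
  field_simp

theorem integrable_fisher {m : ℕ} (hm : finrank ℝ V = m + 1) {f : V → ℝ} (hf : Lf f) {δ : ℝ}
    (hδ : 0 < δ) (hpos : ∀ x, x ≠ 0 → δ ≤ f x) (y z : V) :
    Integrable (fun G => ‖pr y G‖ ^ 2 * fderiv ℝ f (pr y G) z ^ 2 / f (pr y G))
      (stdGaussian V) := by
  obtain ⟨C, hC, h⟩ := fi_bound_HiL7 hf hδ hpos z
  have hm' : Measurable fun G => fi_HiL7 f z (pr y G) :=
    (meas_fi_HiL7 hf z).comp (measurable_pr measurable_const measurable_id)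
  refine Integrable.of_bound (f := fun G => fi_HiL7 f z (pr y G)) hm'.aestronglyMeasurable C
    (ae_of_all _ fun G => ?_)
  rw [Real.norm_eq_abs, abs_of_nonneg (fi_nonneg_HiL7 hf z _)]
  exact h _

theorem cs_HiL7 {X : Type} [MeasurableSpace X] {μ : Measure X} {a b c : X → ℝ}
    (ha : Integrable a μ) (hb : Integrable b μ) (hc : Integrable c μ) (ha0 : ∀ x, 0 ≤ a x)
    (hb0 : ∀ x, 0 ≤ b x) (h : ∀ x, c x ^ 2 ≤ a x * b x) :
    (∫ x, c x ∂μ) ^ 2 ≤ (∫ x, a x ∂μ) * ∫ x, b x ∂μ := by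
  have key : ∀ t : ℝ, 0 ≤ (∫ x, a x ∂μ) * (t * t) + (-2 * ∫ x, c x ∂μ) * t + ∫ x, b x ∂μ := by
    intro t
    have h1 : ∫ x, 2 * t * c x ∂μ ≤ ∫ x, (t ^ 2 * a x + b x) ∂μ := by
      refine integral_mono (hc.const_mul _) ((ha.const_mul _).add hb) fun x => ?_
      refine (le_abs_self _).trans (abs_le_of_sq_le_sq ?_ ?_)
      · have h2 : t ^ 2 * c x ^ 2 ≤ t ^ 2 * (a x * b x) :=
          mul_le_mul_of_nonneg_left (h x) (sq_nonneg t)
        nlinarith [sq_nonneg (t ^ 2 * a x - b x)]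
      · have := ha0 x
        have := hb0 x
        positivity
    rw [integral_add (ha.const_mul _) hb, integral_const_mul, integral_const_mul] at h1
    nlinarith
  have := discrim_le_zero key
  unfold discrim at this
  nlinarith

theorem integrable_sq_HiL7 {y : V} {F : V → ℝ} (hF : Measurable F) {C : ℝ} (hC : 0 ≤ C)
    (h : ∀ x, |F x| ≤ C * ‖x‖ ^ 2) : Integrable (fun G => F (pr y G)) (stdGaussian V) := by
  refine Integrable.mono' ((integrable_norm_pow (V := V) 2).const_mul C)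
    (hF.comp (measurable_pr measurable_const measurable_id)).aestronglyMeasurable
    (ae_of_all _ fun G => ?_)
  refine (h _).trans (mul_le_mul_of_nonneg_left ?_ hC)
  exact pow_le_pow_left₀ (norm_nonneg _) (norm_pr_le y G) 2

theorem psi_bound {m : ℕ} (hm : finrank ℝ V = m + 1) (h1 : 1 ≤ m) {f : V → ℝ} (hf : Lf f)
    {δ : ℝ} (hδ : 0 < δ) (hpos : ∀ x, x ≠ 0 → δ ≤ f x) {y : V} (hy : ‖y‖ = 1) (v : V) :
    (∫ G, ‖pr y G‖ ^ 2 * (|⟪v, pr y G⟫| * |fderiv ℝ f (pr y G) y|) ∂(stdGaussian V)) ^ 2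
      ≤ (m : ℝ) * Mf f y v v *
        ∫ G, ‖pr y G‖ ^ 2 * fderiv ℝ f (pr y G) y ^ 2 / f (pr y G) ∂(stdGaussian V) := by
  obtain ⟨C, hC, hCb⟩ := fi_bound_HiL7 hf hδ hpos y
  obtain ⟨L, hL, hLb⟩ := fd_bound_HiL7 hf y
  obtain ⟨B, hB⟩ := hf.bdd
  have hB0 : 0 ≤ B := (hf.nonneg 0).trans (hB 0)
  have hy0 : y ≠ 0 := by
    intro h
    rw [h, norm_zero] at hy
    exact zero_ne_one hy
  have hin : Measurable fun x : V => ⟪v, x⟫ := (continuous_const.inner continuous_id).measurable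
  have hcs : ∀ x : V, |⟪v, x⟫| ≤ ‖v‖ * ‖x‖ := fun x => abs_real_inner_le_norm v x
  have ia : Integrable (fun G => ⟪v, pr y G⟫ * ⟪v, pr y G⟫ * f (pr y G)) (stdGaussian V) := by
    refine integrable_sq_HiL7 (F := fun x => ⟪v, x⟫ * ⟪v, x⟫ * f x) ((hin.mul hin).mul hf.meas)
      (C := ‖v‖ ^ 2 * B) (by positivity) fun x => ?_
    rw [abs_mul, abs_mul, abs_of_nonneg (hf.nonneg x)]
    calc |⟪v, x⟫| * |⟪v, x⟫| * f x ≤ (‖v‖ * ‖x‖) * (‖v‖ * ‖x‖) * B :=
          mul_le_mul (mul_le_mul (hcs x) (hcs x) (abs_nonneg _) (by positivity)) (hB x)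
            (hf.nonneg x) (by positivity)
      _ = ‖v‖ ^ 2 * B * ‖x‖ ^ 2 := by ring
  have ib : Integrable (fun G => ‖pr y G‖ ^ 2 * fi_HiL7 f y (pr y G)) (stdGaussian V) := by
    refine integrable_sq_HiL7 (F := fun x => ‖x‖ ^ 2 * fi_HiL7 f y x)
      ((measurable_norm.pow_const 2).mul (meas_fi_HiL7 hf y)) hC fun x => ?_
    rw [abs_of_nonneg (mul_nonneg (sq_nonneg _) (fi_nonneg_HiL7 hf y x)), mul_comm]
    exact mul_le_mul_of_nonneg_right (hCb x) (sq_nonneg _)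
  have ic : Integrable (fun G => ‖pr y G‖ ^ 2 * (|⟪v, pr y G⟫| * |fderiv ℝ f (pr y G) y|))
      (stdGaussian V) := by
    refine integrable_sq_HiL7 (F := fun x => ‖x‖ ^ 2 * (|⟪v, x⟫| * |fderiv ℝ f x y|))
      ((measurable_norm.pow_const 2).mul (hin.abs.mul (meas_fd_HiL7 f y).abs))
      (C := ‖v‖ * L) (by positivity) fun x => ?_
    rw [abs_of_nonneg (by positivity)]
    calc ‖x‖ ^ 2 * (|⟪v, x⟫| * |fderiv ℝ f x y|)
        ≤ ‖x‖ ^ 2 * (‖v‖ * ‖x‖ * |fderiv ℝ f x y|) :=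
          mul_le_mul_of_nonneg_left (mul_le_mul_of_nonneg_right (hcs x) (abs_nonneg _))
            (sq_nonneg _)
      _ = ‖v‖ * (‖x‖ * |fderiv ℝ f x y|) * ‖x‖ ^ 2 := by ring
      _ ≤ ‖v‖ * L * ‖x‖ ^ 2 :=
          mul_le_mul_of_nonneg_right (mul_le_mul_of_nonneg_left (hLb x) (norm_nonneg _))
            (sq_nonneg _)
  have hcsi := cs_HiL7 ia ib ic
    (fun G => mul_nonneg (mul_self_nonneg _) (hf.nonneg _))
    (fun G => mul_nonneg (sq_nonneg _) (fi_nonneg_HiL7 hf y _)) (fun G => by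
      by_cases hx : pr y G = 0
      · simp [hx]
      · have hp : f (pr y G) ≠ 0 := (hδ.trans_le (hpos _ hx)).ne'
        unfold fi_HiL7
        rw [mul_pow, mul_pow, sq_abs, sq_abs]
        apply le_of_eq
        field_simp)
  have ifi : Integrable (fun G => fi_HiL7 f y (pr y G)) (stdGaussian V) :=
    integrable_fisher hm hf hδ hpos y y
  have hrad := radial_pr hm h1 hy0 (ψ := fun x => ENNReal.ofReal (fi_HiL7 f y x))
    (meas_fi_HiL7 hf y).ennreal_ofReal (fun t ht x => by rw [fi_hom_HiL7 hf y ht])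
  have hb : ∫ G, ‖pr y G‖ ^ 2 * fi_HiL7 f y (pr y G) ∂(stdGaussian V)
      = (m : ℝ) * ∫ G, fi_HiL7 f y (pr y G) ∂(stdGaussian V) := by
    rw [integral_eq_lintegral_of_nonneg_ae
        (ae_of_all _ fun G => mul_nonneg (sq_nonneg _) (fi_nonneg_HiL7 hf y _))
        ib.aestronglyMeasurable,
      integral_eq_lintegral_of_nonneg_ae (ae_of_all _ fun G => fi_nonneg_HiL7 hf y _)
        ifi.aestronglyMeasurable]
    simp_rw [ENNReal.ofReal_mul (sq_nonneg _)]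
    rw [hrad, ENNReal.toReal_mul, ENNReal.toReal_natCast]
  rw [hb] at hcsi
  refine hcsi.trans (le_of_eq ?_)
  unfold Mf fi_HiL7
  ring

theorem grad_bound {m k : ℕ} (hm : finrank ℝ V = m + 1) (h1 : 1 ≤ m) {f g : V → ℝ} (hf : Lf f)
    (hg : Lf g) {δ : ℝ} (hδ : 0 < δ) (hpos : ∀ x, x ≠ 0 → δ ≤ f x) {r R : ℝ} (hr : 0 < r)
    (hP : Pin f r R) {c : ℝ} (hc : 0 < c) (hgf : ∀ y, y ≠ 0 → g y = c * Vq (k + 1) f y) {y : V}
    (hy : ‖y‖ = 1) (hd : ∀ᵐ G ∂(stdGaussian V), DifferentiableAt ℝ f (pr y G)) :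
    ‖fderiv ℝ g y‖ ^ 2 ≤ g y ^ 2 * ((k + 1 : ℝ) ^ 2 * R / (m * r ^ 2)) *
      ∫ G, ‖pr y G‖ ^ 2 * fderiv ℝ f (pr y G) y ^ 2 / f (pr y G) ∂(stdGaussian V) := by
  set J : ℝ := ∫ G, ‖pr y G‖ ^ 2 * fderiv ℝ f (pr y G) y ^ 2 / f (pr y G) ∂(stdGaussian V)
    with hJ
  have hJ0 : 0 ≤ J := integral_nonneg fun G => fi_nonneg_HiL7 hf y _
  have hm0 : (0 : ℝ) < m := by exact_mod_cast h1
  have hR : 0 ≤ R := by
    obtain ⟨v, t, hv, hyv, -⟩ := exists_rot (V := V) (by omega) hy hy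
    have := hP y v hy hv hyv
    linarith [this.1, this.2]
  have hy0 : y ≠ 0 := by
    intro h
    rw [h, norm_zero] at hy
    exact zero_ne_one hy
  set S : ℝ := g y ^ 2 * ((k + 1 : ℝ) ^ 2 * R / (m * r ^ 2)) * J with hS
  have hS0 : 0 ≤ S := by positivity
  by_cases hdg : DifferentiableAt ℝ g y
  swap
  · rw [fderiv_zero_of_not_differentiableAt hdg]
    simpa using hS0
  have unit : ∀ v : V, ‖v‖ = 1 → ⟪y, v⟫ = 0 → |fderiv ℝ g y v| ≤ √S := by
    intro v hv hyv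
    obtain ⟨Λ, hΛ, hle⟩ := Vq_deriv (k := k) hm hf hy hv hyv hd hr.le
      fun z hz hyz => (hP y z hy hz hyz).1
    have d1 : HasDerivAt (fun t => g (rot y v t y)) (fderiv ℝ g y v) 0 := by
      have h2 := hasDerivAt_rot y v y
      rw [real_inner_self_eq_norm_sq, hy, real_inner_comm, hyv] at h2
      have h3 : HasFDerivAt g (fderiv ℝ g y) (rot y v 0 y) := by
        rw [rot_zero]
        exact hdg.hasFDerivAt
      have h4 := h3.comp_hasDerivAt (0 : ℝ) h2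
      simpa [Function.comp_def] using h4
    have d2 : HasDerivAt (fun t => g (rot y v t y)) (c * Λ) 0 := by
      have : (fun t => g (rot y v t y)) = fun t => c * Vq (k + 1) f (rot y v t y) := by
        funext t
        refine hgf _ fun h => ?_
        have h5 := norm_rot hy hv hyv t y
        rw [h, norm_zero, hy] at h5
        exact zero_ne_one h5
      rw [this]
      exact hΛ.const_mul c
    rw [d1.unique d2]
    refine Real.abs_le_sqrt ?_
    have hψ := psi_bound hm h1 hf hδ hpos hy v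
    rw [← hJ] at hψ
    set Ψ : ℝ := ∫ G, ‖pr y G‖ ^ 2 * (|⟪v, pr y G⟫| * |fderiv ℝ f (pr y G) y|) ∂(stdGaussian V)
    have hψ' : Ψ ^ 2 ≤ m * R * J :=
      hψ.trans (mul_le_mul_of_nonneg_right
        (mul_le_mul_of_nonneg_left (hP y v hy hv hyv).2 hm0.le) hJ0)
    have hsq := pow_le_pow_left₀ (by positivity) hle 2
    rw [mul_pow, mul_pow, sq_abs, mul_pow, mul_pow] at hsq
    have h6 : (m : ℝ) ^ 2 * r ^ 2 * Λ ^ 2 ≤ (k + 1 : ℝ) ^ 2 * Vq (k + 1) f y ^ 2 * (m * R * J) :=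
      hsq.trans (mul_le_mul_of_nonneg_left hψ' (by positivity))
    have h7 : S = c ^ 2 * ((k + 1 : ℝ) ^ 2 * Vq (k + 1) f y ^ 2 * (m * R * J)
        / ((m : ℝ) ^ 2 * r ^ 2)) := by
      rw [hS, hgf y hy0]
      field_simp
    rw [h7, mul_pow]
    refine mul_le_mul_of_nonneg_left ?_ (sq_nonneg c)
    rw [le_div_iff₀ (by positivity)]
    linarith
  have hop : ‖fderiv ℝ g y‖ ≤ √S := by
    refine ContinuousLinearMap.opNorm_le_bound _ (Real.sqrt_nonneg _) fun z => ?_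
    have e1 : fderiv ℝ g y z = fderiv ℝ g y (pr y z) := by
      unfold pr
      rw [map_sub, map_smul, hg.fderiv_self, smul_zero, sub_zero]
    rw [e1, Real.norm_eq_abs]
    by_cases hz : pr y z = 0
    · rw [hz, map_zero, abs_zero]
      positivity
    · have hn : 0 < ‖pr y z‖ := norm_pos_iff.2 hz
      have h2 := unit (‖pr y z‖⁻¹ • pr y z)
        (by rw [norm_smul, norm_inv, norm_norm, inv_mul_cancel₀ hn.ne'])
        (by rw [real_inner_smul_right, inner_pr_self, mul_zero])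
      rw [map_smul, smul_eq_mul, abs_mul, abs_of_pos (inv_pos.2 hn), inv_mul_le_iff₀ hn] at h2
      refine h2.trans ?_
      rw [mul_comm]
      exact mul_le_mul_of_nonneg_left (norm_pr_le y z) (Real.sqrt_nonneg _)
  have := pow_le_pow_left₀ (norm_nonneg _) hop 2
  rwa [Real.sq_sqrt hS0] at this

end Pool.Agent.P.MP_181257_gt
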