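import Pool.Agent.P.MP_181257_gt.HiL7

/-! Contraction of the Fisher information. -/

set_option autoImplicit false
set_option linter.unusedSectionVars false
set_option linter.unusedVariables false

open MeasureTheory ProbabilityTheory Module Set Filter Topology
open scoped RealInnerProductSpace ENNReal Pointwise Matrix

noncomputable section

namespace Pool.Agent.P.MP_181257_gt

variable {V : Type} [NormedAddCommGroup V] [InnerProductSpace ℝ V] [FiniteDimensional ℝ V]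
  [MeasurableSpace V] [BorelSpace V]

theorem fisher_inner {m : ℕ} (hm : finrank ℝ V = m + 1) (h1 : 1 ≤ m) {g : V → ℝ} (hg : Lf g)
    {r R : ℝ} (hR : 0 ≤ R) (hP : Pin g r R) {x : V} (hx : x ≠ 0) (ℓ : V →L[ℝ] ℝ)
    (hℓ : ℓ x = 0) :
    ∫⁻ b, ENNReal.ofReal (g (pr x b) * (ℓ (pr x b) ^ 2 / ‖pr x b‖ ^ 2)) ∂(stdGaussian V)
      ≤ ENNReal.ofReal (R * ‖ℓ‖ ^ 2 / m) := by
  set a : V := (InnerProductSpace.toDual ℝ V).symm ℓ with ha
  have hin : ∀ w, ⟪a, w⟫ = ℓ w := fun w => by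
    rw [ha]; exact InnerProductSpace.toDual_symm_apply
  have hna : ‖a‖ = ‖ℓ‖ := by rw [ha]; exact LinearIsometryEquiv.norm_map _ _
  have hM : Mf g x a a ≤ R * ‖ℓ‖ ^ 2 := by
    by_cases h0 : a = 0
    · have : Mf g x a a = 0 := by simp [Mf, h0]
      rw [this]; positivity
    · have hxn : ‖x‖ ≠ 0 := norm_ne_zero_iff.2 hx
      have han : ‖a‖ ≠ 0 := norm_ne_zero_iff.2 h0
      have h := (hP (‖x‖⁻¹ • x) (‖a‖⁻¹ • a) (norm_smul_inv_norm hx) (norm_smul_inv_norm h0)
        (by rw [inner_smul_left, inner_smul_right, real_inner_comm, hin, hℓ]; simp)).2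
      rw [Mf_hom _ (inv_ne_zero hxn), Mf_smul, Mf_symm, Mf_smul] at h
      rw [← hna]
      have h2 : Mf g x a a = ‖a‖ ^ 2 * (‖a‖⁻¹ * (‖a‖⁻¹ * Mf g x a a)) := by field_simp
      rw [h2, mul_comm R]
      exact mul_le_mul_of_nonneg_left h (by positivity)
  have hψ : Measurable fun w : V => ENNReal.ofReal (g w * (ℓ w ^ 2 / ‖w‖ ^ 2)) := by
    have := hg.meas
    have h2 : Measurable fun w : V => ℓ w := ℓ.continuous.measurable
    fun_prop
  have hrad := radial_pr hm h1 hx hψ (fun t ht w => by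
    rw [hg.hom t ht, map_smul, norm_smul, Real.norm_eq_abs, abs_of_pos ht, smul_eq_mul, mul_pow,
      mul_pow, mul_div_mul_left _ _ (by positivity)])
  have hL : ∫⁻ G, ENNReal.ofReal (‖pr x G‖ ^ 2)
      * ENNReal.ofReal (g (pr x G) * (ℓ (pr x G) ^ 2 / ‖pr x G‖ ^ 2)) ∂(stdGaussian V)
      = ENNReal.ofReal (Mf g x a a) := by
    rw [Mf, ofReal_integral_eq_lintegral_ofReal (integrable_Mf hg.bd x a a)
      (Eventually.of_forall fun G => mul_nonneg (mul_self_nonneg _) (hg.nonneg _))]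
    refine lintegral_congr fun G => ?_
    rw [← ENNReal.ofReal_mul (by positivity), hin]
    congr 1
    by_cases h0 : pr x G = 0
    · simp [h0]
    · have : ‖pr x G‖ ≠ 0 := norm_ne_zero_iff.2 h0
      field_simp
  rw [hL] at hrad
  have hm0 : (0 : ℝ) < m := by exact_mod_cast h1
  rw [ENNReal.ofReal_div_of_pos hm0, ENNReal.ofReal_natCast,
    ENNReal.le_div_iff_mul_le (Or.inl (by exact_mod_cast (by omega : m ≠ 0)))
      (Or.inl (ENNReal.natCast_ne_top m)), mul_comm, ← hrad]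
  exact ENNReal.ofReal_le_ofReal hM

theorem Jf_le {m k : ℕ} (hm : finrank ℝ V = m + 1) (h1 : 1 ≤ m) {f g : V → ℝ} (hf : Lf f)
    (hg : Lf g) {δ : ℝ} (hδ : 0 < δ) (hpos : ∀ x, x ≠ 0 → δ ≤ f x) {r R r' R' : ℝ} (hr : 0 < r)
    (hR : 0 ≤ R) (hR' : 0 ≤ R') (hP : Pin f r R) (hP' : Pin g r' R') {c : ℝ} (hc : 0 < c)
    (hgf : ∀ y, y ≠ 0 → g y = c * Vq (k + 1) f y) :
    Jf g ≤ ENNReal.ofReal (((k + 1 : ℝ) / m) ^ 2 * (R * R' / r ^ 2)) * Jf f := by
  have hm0 : (0 : ℝ) < m := by exact_mod_cast h1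
  set H : V × V → ℝ≥0∞ := fun p => ENNReal.ofReal
    (g p.2 * (fderiv ℝ f p.1 p.2 ^ 2 / ‖p.2‖ ^ 2) * (‖p.1‖ ^ 2 / f p.1)) with hH
  have hHm : Measurable H := by
    have h1 := hg.meas
    have h2 := hf.meas
    have h3 := measurable_fderiv_pair f
    rw [hH]
    fun_prop
  have hsw := swap_inc (by omega) hHm
    (fun x y t ht => by
      simp only [hH]
      rw [hf.fderiv_smul ht, hf.hom t ht, norm_smul, Real.norm_eq_abs, abs_of_pos ht,
        smul_apply, smul_eq_mul]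
      congr 1
      have := ht.ne'
      rw [mul_assoc, mul_assoc, div_mul_div_comm, div_mul_div_comm]
      congr 2
      field_simp)
    (fun x y t ht => by
      simp only [hH]
      rw [hg.hom t ht, map_smul, norm_smul, Real.norm_eq_abs, abs_of_pos ht, smul_eq_mul, mul_pow,
        mul_pow, mul_div_mul_left _ _ (by positivity)])
  set K : ℝ := (k + 1 : ℝ) ^ 2 * R / (m * r ^ 2) with hK
  have hK0 : 0 ≤ K := by positivity
  have hA : Jf g ≤ ENNReal.ofReal K
      * ∫⁻ b, ∫⁻ a, H (pr b a, b) ∂(stdGaussian V) ∂(stdGaussian V) := by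
    rw [← lintegral_const_mul' _ _ ENNReal.ofReal_ne_top, Jf]
    refine lintegral_mono_ae ?_
    filter_upwards [ae_ne_zero (V := V) (by omega), hf.ae_ae_diff (by omega)] with y hy hd
    have hyn : 0 < ‖y‖ := norm_pos_iff.2 hy
    have hpr : ∀ G, pr (‖y‖⁻¹ • y) G = pr y G := fun G => pr_smul_left (inv_ne_zero hyn.ne') y G
    have hy1 : ‖‖y‖⁻¹ • y‖ = 1 := by
      rw [norm_smul, norm_inv, norm_norm, inv_mul_cancel₀ hyn.ne']
    have hd' : ∀ᵐ G ∂(stdGaussian V), DifferentiableAt ℝ f (pr (‖y‖⁻¹ • y) G) :=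
      hd.mono fun G h => by rw [hpr]; exact h
    have hb := grad_bound hm h1 hf hg hδ hpos hr hP hc hgf hy1 hd'
    rw [hg.fderiv_smul (inv_pos.2 hyn), hg.hom _ (inv_pos.2 hyn), inv_inv, norm_smul,
      Real.norm_eq_abs, abs_of_pos hyn, mul_pow] at hb
    have hint := integrable_fisher hm hf hδ hpos (‖y‖⁻¹ • y) (‖y‖⁻¹ • y)
    simp only [hpr] at hb hint
    set I : ℝ := ∫ G, ‖pr y G‖ ^ 2 * fderiv ℝ f (pr y G) (‖y‖⁻¹ • y) ^ 2 / f (pr y G)
      ∂(stdGaussian V) with hI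
    have hnn : ∀ G, 0 ≤ ‖pr y G‖ ^ 2 * fderiv ℝ f (pr y G) (‖y‖⁻¹ • y) ^ 2 / f (pr y G) :=
      fun G => div_nonneg (by positivity) (hf.nonneg _)
    have hI0 : 0 ≤ I := integral_nonneg hnn
    have hg0 := hg.nonneg y
    have hE : ∫⁻ a, H (pr y a, y) ∂(stdGaussian V) = ENNReal.ofReal (g y * I) := by
      rw [ENNReal.ofReal_mul hg0, hI,
        ofReal_integral_eq_lintegral_ofReal hint (Eventually.of_forall hnn),
        ← lintegral_const_mul' _ _ ENNReal.ofReal_ne_top]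
      refine lintegral_congr fun G => ?_
      rw [← ENNReal.ofReal_mul hg0]
      simp only [hH]
      congr 1
      rw [map_smul, smul_eq_mul]
      simp only [div_eq_mul_inv, mul_pow, inv_pow]
      ring
    rw [hE, ← ENNReal.ofReal_mul hK0]
    refine ENNReal.ofReal_le_ofReal ?_
    rcases hg0.eq_or_lt with h0 | h0
    · rw [← h0]; simp
    · rw [div_le_iff₀ h0]
      calc _ ≤ _ := hb
        _ = _ := by ring
  have hB : ∫⁻ a, ∫⁻ b, H (a, pr a b) ∂(stdGaussian V) ∂(stdGaussian V)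
      ≤ ENNReal.ofReal (R' / m) * Jf f := by
    rw [Jf, ← lintegral_const_mul' _ _ ENNReal.ofReal_ne_top]
    refine lintegral_mono_ae ?_
    filter_upwards [ae_ne_zero (V := V) (by omega)] with x hx
    have hfi := fisher_inner hm h1 hg hR' hP' hx (fderiv ℝ f x) (hf.fderiv_self x)
    have hq : 0 ≤ ‖x‖ ^ 2 / f x := div_nonneg (by positivity) (hf.nonneg _)
    have hE : ∫⁻ b, H (x, pr x b) ∂(stdGaussian V) = (∫⁻ b, ENNReal.ofReal (g (pr x b)
        * (fderiv ℝ f x (pr x b) ^ 2 / ‖pr x b‖ ^ 2)) ∂(stdGaussian V))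
        * ENNReal.ofReal (‖x‖ ^ 2 / f x) := by
      rw [← lintegral_mul_const' _ _ ENNReal.ofReal_ne_top]
      refine lintegral_congr fun b => ?_
      simp only [hH]
      rw [ENNReal.ofReal_mul' hq]
    rw [hE]
    calc _ ≤ ENNReal.ofReal (R' * ‖fderiv ℝ f x‖ ^ 2 / m) * ENNReal.ofReal (‖x‖ ^ 2 / f x) :=
          mul_le_mul_left hfi _
      _ = _ := by
          rw [← ENNReal.ofReal_mul' hq, ← ENNReal.ofReal_mul (by positivity)]
          congr 1
          ring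
  calc Jf g ≤ _ := hA
    _ ≤ ENNReal.ofReal K * (ENNReal.ofReal (R' / m) * Jf f) := by
        rw [← hsw]; exact mul_le_mul_right hB _
    _ = _ := by
        rw [← mul_assoc, ← ENNReal.ofReal_mul hK0]
        congr 2
        rw [hK]
        field_simp

end Pool.Agent.P.MP_181257_gt
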