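import Pool.Agent.P.MP_181257_gt.HiL3
import Pool.Agent.P.MP_181257_gt.HiL4

/-! Vanishing Fisher information. -/

set_option autoImplicit false
set_option linter.unusedSectionVars false
set_option linter.unusedVariables false

open MeasureTheory ProbabilityTheory Module Set Filter Topology
open scoped RealInnerProductSpace ENNReal Pointwise Matrix

noncomputable section

namespace Pool.Agent.P.MP_181257_gt

variable {V : Type} [NormedAddCommGroup V] [InnerProductSpace ℝ V] [FiniteDimensional ℝ V]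
  [MeasurableSpace V] [BorelSpace V]

theorem ae_fderiv_HiL9 (hn : 2 ≤ finrank ℝ V) {f : V → ℝ} (hf : Lf f)
    (hpos : ∀ x, x ≠ 0 → 0 < f x) (h0 : Jf f = 0) :
    ∀ᵐ x ∂(stdGaussian V), fderiv ℝ f x = 0 := by
  have hm : Measurable fun x : V => ENNReal.ofReal (‖x‖ ^ 2 * ‖fderiv ℝ f x‖ ^ 2 / f x) := by
    refine ENNReal.measurable_ofReal.comp ?_
    refine Measurable.div ?_ hf.meas
    exact (measurable_norm.pow_const 2).mul ((measurable_fderiv ℝ f).norm.pow_const 2)
  have h1 := (lintegral_eq_zero_iff hm).mp h0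
  filter_upwards [h1, ae_ne_zero (V := V) (by omega)] with x hx hx0
  have h2 : ‖x‖ ^ 2 * ‖fderiv ℝ f x‖ ^ 2 / f x ≤ 0 := ENNReal.ofReal_eq_zero.mp hx
  have h3 := hpos x hx0
  have h4 : 0 < ‖x‖ := norm_pos_iff.mpr hx0
  have h5 : ‖x‖ ^ 2 * ‖fderiv ℝ f x‖ ^ 2 ≤ 0 := by
    by_contra hc
    exact absurd h2 (not_le.mpr (div_pos (not_le.mp hc) h3))
  have h6 : ‖fderiv ℝ f x‖ ^ 2 ≤ 0 := by
    by_contra hc
    exact absurd h5 (not_le.mpr (mul_pos (pow_pos h4 2) (not_le.mp hc)))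
  have h7 : ‖fderiv ℝ f x‖ = 0 := by
    have := pow_eq_zero_iff (n := 2) (a := ‖fderiv ℝ f x‖) (by norm_num)
    exact this.mp (le_antisymm h6 (sq_nonneg _))
  exact norm_eq_zero.mp h7

theorem deriv_zero_HiL9 (hn : 2 ≤ finrank ℝ V) {f : V → ℝ} (hf : Lf f)
    (hpos : ∀ x, x ≠ 0 → 0 < f x) (h0 : Jf f = 0) {y v : V} (hy : ‖y‖ = 1) (hv : ‖v‖ = 1)
    (h : ⟪y, v⟫ = 0) (a : V) :
    HasDerivAt (fun s => ∫ x, |⟪a, x⟫| * f (rot y v s x) ∂(stdGaussian V)) 0 0 := by
  obtain ⟨L, hL, hlip⟩ := hf.rot_lip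
  obtain ⟨C, hC⟩ := hf.bdd
  have hint : Integrable (fun x : V => |⟪a, x⟫|) (stdGaussian V) := integrable_abs_inner a
  have hmeas : ∀ s : ℝ, AEStronglyMeasurable (fun x : V => |⟪a, x⟫| * f (rot y v s x))
      (stdGaussian V) := fun s =>
    (hint.aestronglyMeasurable).mul
      (hf.meas.comp (continuous_rot y v s).measurable).aestronglyMeasurable
  have key := hasDerivAt_integral_of_dominated_loc_of_lip (μ := stdGaussian V)
    (F := fun (s : ℝ) (x : V) => |⟪a, x⟫| * f (rot y v s x)) (F' := fun _ => (0 : ℝ))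
    (x₀ := (0 : ℝ)) (s := univ) (bound := fun x => |⟪a, x⟫| * L) univ_mem
    (Eventually.of_forall hmeas)
    (by
      refine Integrable.mono' (hint.mul_const C) (hmeas 0) (ae_of_all _ fun x => ?_)
      rw [Real.norm_eq_abs, abs_mul, abs_abs, abs_of_nonneg (hf.nonneg _)]
      exact mul_le_mul_of_nonneg_left (hC _) (abs_nonneg _))
    aestronglyMeasurable_const
    (ae_of_all _ fun x => by
      refine LipschitzOnWith.of_dist_le_mul fun s _ t _ => ?_
      rw [Real.dist_eq, Real.dist_eq, ← mul_sub, abs_mul, abs_abs, Real.coe_nnabs,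
        abs_of_nonneg (mul_nonneg (abs_nonneg _) hL), mul_assoc]
      exact mul_le_mul_of_nonneg_left (hlip y v hy hv h s t x) (abs_nonneg _))
    (hint.mul_const L)
    (by
      filter_upwards [ae_fderiv_HiL9 hn hf hpos h0, hf.ae_diff (by omega)] with x hx hd
      have h1 : HasFDerivAt f (0 : V →L[ℝ] ℝ) (rot y v 0 x) := by
        rw [rot_zero, ← hx]
        exact hd.hasFDerivAt
      have h2 := h1.comp_hasDerivAt (0 : ℝ) (hasDerivAt_rot y v x)
      have h3 := h2.const_mul |⟪a, x⟫|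
      simpa [Function.comp_def] using h3)
  simpa using key.2

theorem hz_const (hn : 2 ≤ finrank ℝ V) {f : V → ℝ} (hf : Lf f) (hpos : ∀ x, x ≠ 0 → 0 < f x)
    (h0 : Jf f = 0) {u u' : V} (hu : ‖u‖ = 1) (hu' : ‖u'‖ = 1) : hz f u = hz f u' := by
  obtain ⟨v, t, hv, huv, ht⟩ := exists_rot hn hu hu'
  have hd : ∀ t0 : ℝ, HasDerivAt (fun s => hz f (rot u v s u)) 0 t0 := by
    intro t0
    have h1 := deriv_zero_HiL9 hn hf hpos h0 hu hv huv (rot u v t0 u)
    have h2 : (fun s => hz f (rot u v s u)) =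
        (fun s => ∫ x, |⟪rot u v t0 u, x⟫| * f (rot u v s x) ∂(stdGaussian V)) ∘
          fun s => s - t0 := by
      funext s
      simp only [Function.comp]
      rw [← hz_rot hu hv huv (s - t0) hf.meas, rot_rot hu hv huv, sub_add_cancel]
    rw [h2]
    have h3 : HasDerivAt (fun s : ℝ => s - t0) 1 t0 := (hasDerivAt_id t0).sub_const t0
    have h4 : HasDerivAt
        (fun s => ∫ x, |⟪rot u v t0 u, x⟫| * f (rot u v s x) ∂(stdGaussian V)) 0 (t0 - t0) := by
      rw [sub_self]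
      exact h1
    have h5 := HasDerivAt.comp (h := fun s : ℝ => s - t0) t0 h4 h3
    rwa [zero_mul] at h5
  have hc := is_const_of_deriv_eq_zero (f := fun s => hz f (rot u v s u))
    (fun s => (hd s).differentiableAt) (fun s => (hd s).deriv) 0 t
  simp only [rot_zero, ht] at hc
  exact hc

end Pool.Agent.P.MP_181257_gt
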