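import Pool.Agent.P.MP_181257_gt.HiFr1

/-! The projection body of the zonoid of a measure. -/

set_option autoImplicit false
set_option linter.unusedSectionVars false
set_option linter.unusedVariables false

open MeasureTheory ProbabilityTheory Module Set Filter Topology
open scoped RealInnerProductSpace ENNReal Pointwise Matrix

noncomputable section

namespace Pool.Agent.P.MP_181257_gt

variable {V : Type} [NormedAddCommGroup V] [InnerProductSpace ℝ V] [FiniteDimensional ℝ V]
  [MeasurableSpace V] [BorelSpace V]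

theorem vol_meas_HiR3 {i : ℕ} {α : Measure V} (hα : Mom α) (u : V) (g : Fin i → V) :
    (volume (lin g '' (pr u '' Zs fun w => ∫ x, |⟪w, x⟫| ∂α))).toReal
      = 2 ^ i / (i.factorial : ℝ) *
        ∫ x : Fin i → V, |(Matrix.of fun l j => ⟪g l, pr u (x j)⟫).det| ∂(mk α i) := by
  haveI := hα.prob
  have hid : Integrable (fun x : V => x) α :=
    (integrable_norm_iff measurable_id.aestronglyMeasurable).1 hα.int
  have hB : ∀ w : V, ‖w‖ = 1 → (fun w : V => ∫ x, |⟪w, x⟫| ∂α) w ≤ ∫ x, ‖x‖ ∂α := by
    intro w hw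
    refine integral_mono_of_nonneg (ae_of_all _ fun x => abs_nonneg _) hα.int
      (ae_of_all _ fun x => ?_)
    have := abs_real_inner_le_norm w x
    rwa [hw, one_mul] at this
  set L : V →L[ℝ] (Fin i → ℝ) := (lin g).comp (prL u) with hL
  have himg : lin g '' (pr u '' Zs fun w => ∫ x, |⟪w, x⟫| ∂α)
      = L '' Zs fun w => ∫ x, |⟪w, x⟫| ∂α := by
    rw [image_image]
    exact image_congr fun x _ => by simp [hL]
  have key := zon_vol α i (fun w => L w) L.continuous.measurable
    (L.integrable_comp hid) (L '' Zs fun w => ∫ x, |⟪w, x⟫| ∂α)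
    ((isCompact_Zs hB).image L.continuous)
    ((convex_Zs _).linear_image (L : V →ₗ[ℝ] (Fin i → ℝ))) (fun ℓ => by
      set w : V := (InnerProductSpace.toDual ℝ V).symm (ℓ.comp L) with hw
      have hw' : ∀ x, ℓ (L x) = ⟪w, x⟫ := fun x => by
        rw [hw, InnerProductSpace.toDual_symm_apply]; rfl
      have := isGreatest_Zs α (Y := fun x : V => x) measurable_id hid w
      rw [image_image]
      simp only [hw']
      simpa only [real_inner_comm w] using this)
  have hdet : ∀ x : Fin i → V, |(Matrix.of fun l j => L (x j) l).det|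
      = |(Matrix.of fun l j => ⟪g l, pr u (x j)⟫).det| := by
    intro x
    have e : (Matrix.of fun l j => L (x j) l)
        = Matrix.of fun l j => ⟪g l, pr u (x j)⟫ := by
      ext l j
      simp [hL]
    rw [e]
  simp only [hdet] at key
  have hfac : (i.factorial : ℝ) ≠ 0 := by positivity
  rw [himg, ← measureReal_def, div_mul_eq_mul_div, eq_div_iff hfac, key]

theorem PP_meas (i : ℕ) : ∃ c : ℝ, 0 < c ∧ ∀ α : Measure V, Mom α → ∀ u : V, ‖u‖ = 1 →
    PP i (fun w => ∫ x, |⟪w, x⟫| ∂α) u = c * ∫ x, D x * ‖Pj i x u‖ ∂(mk α i) := by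
  obtain ⟨c, hc, h⟩ := gauss_det (V := V) i
  refine ⟨2 ^ i / (i.factorial : ℝ) * c, by positivity, fun α hα u hu => ?_⟩
  haveI := hα.prob
  have hDeq : ∀ x : Fin i → V, D (fun j => pr u (x j)) = D x * ‖Pj i x u‖ := fun x => by
    rw [← D_cons_eq, D_cons, hu, one_mul]
  have hD : Integrable (fun x : Fin i → V => D fun j => pr u (x j)) (mk α i) := by
    refine (integrable_prod_norm_mk hα i).mono'
      (Measurable.aestronglyMeasurable (by fun_prop)) (ae_of_all _ fun x => ?_)
    rw [Real.norm_of_nonneg (D_nonneg _)]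
    exact (D_le_prod _).trans
      (Finset.prod_le_prod (fun j _ => norm_nonneg _) fun j _ => norm_pr_le u (x j))
  have hmeas : Measurable fun q : (Fin i → V) × (Fin i → V) =>
      |(Matrix.of fun l j => ⟪q.1 l, pr u (q.2 j)⟫).det| := by
    refine Continuous.measurable (Continuous.abs (Continuous.matrix_det ?_))
    refine continuous_matrix fun l j => ?_
    simp only [Matrix.of_apply, ← prL_apply]
    fun_prop
  have hint : Integrable (fun q : (Fin i → V) × (Fin i → V) =>
      |(Matrix.of fun l j => ⟪q.1 l, pr u (q.2 j)⟫).det|) ((γk V i).prod (mk α i)) := by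
    refine (integrable_prod_iff' hmeas.aestronglyMeasurable).2 ⟨ae_of_all _ fun x => ?_, ?_⟩
    · exact (h fun j => pr u (x j)).1
    refine (hD.const_mul c).congr (ae_of_all _ fun x => ?_)
    simp only
    rw [← (h fun j => pr u (x j)).2]
    refine integral_congr_ae (ae_of_all _ fun g => ?_)
    simp only
    rw [Real.norm_of_nonneg (abs_nonneg _)]
  have hin : ∀ x : Fin i → V,
      ∫ g, |(Matrix.of fun l j => ⟪g l, pr u (x j)⟫).det| ∂(γk V i)
        = c * (D x * ‖Pj i x u‖) := fun x => by
    rw [(h fun j => pr u (x j)).2, hDeq]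
  rw [PP, intrinsicVol_eq]
  simp only [vol_meas_HiR3 hα]
  rw [integral_const_mul, integral_integral_swap hint]
  simp only [hin]
  rw [integral_const_mul, mul_assoc]

end Pool.Agent.P.MP_181257_gt
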