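import Pool.Agent.P.MP_181257_gt.HiR2
import Pool.Agent.P.MP_181257_gt.HiR3

/-! Reduction to a fixed pair. -/

set_option autoImplicit false
set_option linter.unusedSectionVars false
set_option linter.unusedVariables false

open MeasureTheory ProbabilityTheory Module Set Filter Topology
open scoped RealInnerProductSpace ENNReal Pointwise Matrix

noncomputable section

namespace Pool.Agent.P.MP_181257_gt

variable {V : Type} [NormedAddCommGroup V] [InnerProductSpace ℝ V] [FiniteDimensional ℝ V]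
  [MeasurableSpace V] [BorelSpace V]

theorem hom_HiR4 {α β : Measure V} {c : ℝ}
    (h : ∀ u : V, ‖u‖ = 1 → ∫ x, |⟪u, x⟫| ∂α = c * ∫ x, |⟪u, x⟫| ∂β) (u : V) :
    ∫ x, |⟪u, x⟫| ∂α = c * ∫ x, |⟪u, x⟫| ∂β := by
  rcases eq_or_ne u 0 with rfl | hu
  · simp
  · have h1 := h _ (norm_smul_inv_norm (𝕜 := ℝ) hu)
    have hn : 0 < ‖u‖ := norm_pos_iff.2 hu
    simp only [real_inner_smul_left, abs_mul, integral_const_mul, RCLike.ofReal_real_eq_id,
      id_eq] at h1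
    have h2 : |‖u‖⁻¹| ≠ 0 := by positivity
    refine mul_left_cancel₀ h2 ?_
    rw [h1]
    ring

theorem normalise_HiR4 {h : V → ℝ} {δ : ℝ} (hn : 1 ≤ finrank ℝ V) (hZ : Zon h) (hδ : 0 < δ)
    (hpos : ∀ u, ‖u‖ = 1 → δ ≤ h u) :
    ∃ (μ : Measure V) (t : ℝ), Mom μ ∧ 0 < t ∧ ∀ u, ‖u‖ = 1 → h u = t * ∫ x, |⟪u, x⟫| ∂μ := by
  obtain ⟨m, hm, h1, hh⟩ := hZ.exists_measure
  have : Nontrivial V := finrank_pos_iff.1 hn
  obtain ⟨u, hu⟩ := exists_norm_eq V zero_le_one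
  have hm0 : m ≠ 0 := by
    rintro rfl
    have h2 := hpos u hu
    rw [hh u hu] at h2
    simp only [integral_zero_measure] at h2
    linarith
  have hu0 : m univ ≠ 0 := by simpa using hm0
  have hut : m univ ≠ ∞ := measure_ne_top _ _
  have hp : IsProbabilityMeasure ((m univ)⁻¹ • m) :=
    ⟨by simp [ENNReal.inv_mul_cancel hu0 hut]⟩
  have ht : 0 < (m univ).toReal := ENNReal.toReal_pos hu0 hut
  refine ⟨(m univ)⁻¹ • m, (m univ).toReal, ⟨hp, ?_⟩, ht, fun u hu => ?_⟩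
  · refine Integrable.smul_measure ?_ (ENNReal.inv_ne_top.2 hu0)
    exact (integrable_const (1 : ℝ)).congr (h1.mono fun x hx => hx.symm)
  · rw [integral_smul_measure, hh u hu, smul_eq_mul, ENNReal.toReal_inv, ← mul_assoc,
      mul_inv_cancel₀ ht.ne', one_mul]

theorem th_HiR4 {α : Measure V} {i : ℕ} (hW : 0 < Wr i α) (u : V) :
    ∫ x, D x * ‖Pj i x u‖ ∂(mk α i) = Wr i α * th i α u := by
  rw [th, integral_Fr hW, ← mul_assoc, mul_inv_cancel₀ hW.ne', one_mul]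

theorem reduce {i : ℕ} (hi : i + 1 ≤ finrank ℝ V) {h : V → ℝ} {δ lam : ℝ} (hZ : Zon h)
    (hδ : 0 < δ) (hpos : ∀ u, ‖u‖ = 1 → δ ≤ h u) (hlam : 0 < lam)
    (hfix : ∀ u, ‖u‖ = 1 → h u = lam * PP i (PP i h) u) :
    ∃ (μ ν : Measure V) (a : ℝ), FP i μ ν ∧ ∀ u, ‖u‖ = 1 → h u = a * th i ν u := by
  obtain ⟨μ0, t, hμ0, ht, hh⟩ := normalise_HiR4 (by omega) hZ hδ hpos
  obtain ⟨c, hc, hPP⟩ := PP_meas (V := V) i
  have : Nontrivial V := finrank_pos_iff.1 (show 0 < finrank ℝ V by omega)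
  obtain ⟨u0, hu0⟩ := exists_norm_eq V zero_le_one
  have hp0 : ∀ u : V, ‖u‖ = 1 → 0 < ∫ x, |⟪u, x⟫| ∂μ0 := fun u hu => by
    have h1 := hδ.trans_le (hpos u hu)
    rw [hh u hu] at h1
    exact (mul_pos_iff_of_pos_left ht).1 h1
  have hW0 : 0 < Wr i μ0 := Wr_pos hμ0 hp0 i (by omega)
  set ν := Tn i μ0 with hν
  have hνm : Mom ν := Tn_mom hμ0 hW0
  have hc0 := c0_pos
  set a1 : ℝ := t ^ i * (c * Wr i μ0) / c0 with ha1
  have ha1p : 0 < a1 := by positivity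
  have e1 : ∀ u : V, ‖u‖ = 1 → PP i h u = a1 * ∫ x, |⟪u, x⟫| ∂ν := fun u hu => by
    rw [PP_congr i hh, PP_smul i _ ht, hPP μ0 hμ0 u hu, th_HiR4 hW0, hν,
      abs_inner_Tn hμ0 hW0, ha1]
    field_simp
  have e2 : ∀ u : V, ‖u‖ = 1 →
      h u = lam * (a1 ^ i * (c * ∫ x, D x * ‖Pj i x u‖ ∂(mk ν i))) := fun u hu => by
    rw [hfix u hu, PP_congr i e1, PP_smul i _ ha1p, hPP ν hνm u hu]
  have hWν : 0 < Wr i ν := by
    have h1 := hδ.trans_le (hpos u0 hu0)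
    rw [e2 u0 hu0] at h1
    have h2 : 0 < ∫ x, D x * ‖Pj i x u0‖ ∂(mk ν i) :=
      (mul_pos_iff_of_pos_left hc).1 ((mul_pos_iff_of_pos_left (pow_pos ha1p i)).1
        ((mul_pos_iff_of_pos_left hlam).1 h1))
    refine h2.trans_le (integral_mono_of_nonneg
      (ae_of_all _ fun x => mul_nonneg (D_nonneg _) (norm_nonneg _)) (integrable_D_mk' hνm i)
      (ae_of_all _ fun x => ?_))
    exact mul_le_of_le_one_right (D_nonneg _) ((norm_Pj_le x u0).trans_eq hu0)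
  set a : ℝ := lam * (a1 ^ i * (c * Wr i ν)) with ha
  have hap : 0 < a := by positivity
  have e3 : ∀ u : V, ‖u‖ = 1 → h u = a * th i ν u := fun u hu => by
    rw [e2 u hu, th_HiR4 hWν, ha]
    ring
  set μ := Tn i ν with hμ
  have hμm : Mom μ := Tn_mom hνm hWν
  have e4 : ∀ u : V, ‖u‖ = 1 →
      ∫ x, |⟪u, x⟫| ∂μ = c0 * t / a * ∫ x, |⟪u, x⟫| ∂μ0 := fun u hu => by
    have h1 := (e3 u hu).symm.trans (hh u hu)
    rw [hμ, abs_inner_Tn hνm hWν]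
    field_simp
    linarith
  have hk : 0 < c0 * t / a := by positivity
  have er : ν = Tn i μ := (Tn_congr hμm hμ0 hk (hom_HiR4 e4) hW0).symm
  have hp : ∀ u : V, ‖u‖ = 1 → 0 < ∫ x, |⟪u, x⟫| ∂μ := fun u hu => by
    rw [e4 u hu]
    exact mul_pos hk (hp0 u hu)
  have hWμ : 0 < Wr (i + 1) μ := Wr_pos hμm hp (i + 1) hi
  have hz := Zq_symm hμm hνm (Wr_pos_of_succ hμm hWμ) hWν hμ er
  have hz2 : 0 < Wr (i + 1) ν / Wr i ν := (Zq_pos hμm hWμ).trans_eq hz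
  exact ⟨μ, ν, a, ⟨hμm, hνm, hWμ, (div_pos_iff_of_pos_right hWν).1 hz2, hμ, er⟩, e3⟩

end Pool.Agent.P.MP_181257_gt
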