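import Pool.Agent.P.MP_181257_gt.HiE6
import Pool.Agent.P.MP_181257_gt.HiF7
import Pool.Agent.P.MP_181257_gt.HiL8
import Pool.Agent.P.MP_181257_gt.HiL9
import Pool.Agent.P.MP_181257_gt.HiR4

/-! Rigidity for `i ≤ (1 - ε) n`. -/

set_option autoImplicit false
set_option linter.unusedSectionVars false
set_option linter.unusedVariables false

open MeasureTheory ProbabilityTheory Module Set Filter Topology
open scoped RealInnerProductSpace ENNReal Pointwise Matrix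

noncomputable section

namespace Pool.Agent.P.MP_181257_gt

variable {V : Type} [NormedAddCommGroup V] [InnerProductSpace ℝ V] [FiniteDimensional ℝ V]
  [MeasurableSpace V] [BorelSpace V]

theorem local_rigid {m k : ℕ} (hm : finrank ℝ V = m + 1) (hk : k + 1 ≤ m) {f g : V → ℝ}
    (hf : Lf f) (hg : Lf g) {r R r' R' c c' : ℝ} (hr : 0 < r) (hr' : 0 < r') (hR : 0 ≤ R)
    (hR' : 0 ≤ R') (hP : Pin f r R) (hP' : Pin g r' R') (hc : 0 < c) (hc' : 0 < c')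
    (hgf : ∀ y, y ≠ 0 → g y = c * Vq (k + 1) f y) (hfg : ∀ y, y ≠ 0 → f y = c' * Vq (k + 1) g y)
    (hlt : (((k + 1 : ℝ) / m) ^ 2 * (R' * R / r' ^ 2)) * (((k + 1 : ℝ) / m) ^ 2 * (R * R' / r ^ 2))
      < 1) {u u' : V} (hu : ‖u‖ = 1) (hu' : ‖u'‖ = 1) : hz f u = hz f u' := by
  have h1 : 1 ≤ m := by omega
  have hd : (0 : ℝ) < m.descFactorial (k + 1) := moment_desc_pos hk
  have hfl : ∀ x, x ≠ 0 → c' * ((m.descFactorial (k + 1) : ℝ) * r' ^ (k + 1)) ≤ f x := by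
    intro x hx
    rw [hfg x hx]
    exact mul_le_mul_of_nonneg_left (vol_lower hm hg.bd hg.nonneg hr'.le hP' _ hx) hc'.le
  have hgl : ∀ x, x ≠ 0 → c * ((m.descFactorial (k + 1) : ℝ) * r ^ (k + 1)) ≤ g x := by
    intro x hx
    rw [hgf x hx]
    exact mul_le_mul_of_nonneg_left (vol_lower hm hf.bd hf.nonneg hr.le hP _ hx) hc.le
  have hf0 : 0 < c' * ((m.descFactorial (k + 1) : ℝ) * r' ^ (k + 1)) := by positivity
  have hg0 : 0 < c * ((m.descFactorial (k + 1) : ℝ) * r ^ (k + 1)) := by positivity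
  have a1 := Jf_le hm h1 hf hg hf0 hfl hr hR hR' hP hP' hc hgf
  have a2 := Jf_le hm h1 hg hf hg0 hgl hr' hR' hR hP' hP hc' hfg
  have a3 := a2.trans (mul_le_mul_right a1 _)
  rw [← mul_assoc, ← ENNReal.ofReal_mul (by positivity)] at a3
  have hJ : Jf f = 0 := by
    by_contra hne
    have h2 := ENNReal.mul_lt_mul_left hne (Jf_ne_top hf hf0 hfl) (ENNReal.ofReal_lt_one.2 hlt)
    rw [one_mul] at h2
    exact absurd a3 (not_le.2 h2)
  exact hz_const (by omega) hf (fun x hx => hf0.trans_le (hfl x hx)) hJ hu hu'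

theorem dens_fix {i : ℕ} {μ ν : Measure V} (h : FP i μ ν) (hi : 1 ≤ i)
    (hin : i + 1 ≤ finrank ℝ V) {C C' : ℝ} (hC : 1 ≤ C) (hN : Neg4 i μ C) (hC' : 1 ≤ C')
    (hN' : Neg4 i ν C') :
    Lf (dens i μ) ∧ ∃ a c : ℝ, 0 < c ∧ (∀ u, th i ν u = a * hz (dens i μ) u) ∧
      (∀ u, ‖u‖ = 1 → ∀ v w, Mf (dens i μ) u v w = c⁻¹ * MK i ν u v w) ∧
      ∀ y, y ≠ 0 → dens i ν y = c ^ i * Vq i (dens i μ) y := by
  obtain ⟨h0, a, ha, hth⟩ := density h.symm hi hin hC hN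
  have hL : Lf (dens i μ) := Lf_dens h.ml h.wl hC hN h0
  haveI := Fr_prob h.mr h.wr
  have hM : ∀ u, ‖u‖ = 1 → ∀ v w, c2 * Mf (dens i μ) u v w = a⁻¹ * MK i ν u v w := by
    intro u hu v w
    refine Mf_eq_Phi (by omega) (Fr i ν) (fun y => Pj i y)
      (fun v => measurable_Pj i measurable_id measurable_const) (fun y v => norm_Pj_le y v)
      hL.bd hL.contOn (fun z => ?_) hu (hN'.lintegral_ne_top h.mr h.wr hu) v w
    have := hth z
    unfold th at this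
    rw [this]
    field_simp
  have hc2 := c2_pos
  refine ⟨hL, a, a * c2, by positivity, hth, fun u hu v w => ?_, fun y hy => ?_⟩
  · have := hM u hu v w
    field_simp at this ⊢
    linarith
  · have hy' : ‖y‖ ≠ 0 := norm_ne_zero_iff.2 hy
    have hu : ‖‖y‖⁻¹ • y‖ = 1 := by
      rw [norm_smul, norm_inv, norm_norm, inv_mul_cancel₀ hy']
    rw [dens_eq i ν hy, Vq_eq_Ei i hL.bd, ← Ei_smul]
    congr 1
    funext v w
    have := hM _ hu v w
    rw [Mf_hom _ (inv_ne_zero hy')] at this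
    field_simp at this ⊢
    linarith

theorem pin_of {i : ℕ} {ν : Measure V} {f : V → ℝ} {c η s : ℝ} (hc : 0 < c)
    (hM : ∀ u, ‖u‖ = 1 → ∀ v w, Mf f u v w = c⁻¹ * MK i ν u v w)
    (hp : ∀ u v : V, ‖u‖ = 1 → ‖v‖ = 1 → ⟪u, v⟫ = 0 →
      (1 - η) * s ≤ MK i ν u v v ∧ MK i ν u v v ≤ (1 + η) * s) :
    Pin f (c⁻¹ * ((1 - η) * s)) (c⁻¹ * ((1 + η) * s)) := by
  intro y v hy hv hyv
  rw [hM y hy]
  exact ⟨mul_le_mul_of_nonneg_left (hp y v hy hv hyv).1 (inv_nonneg.2 hc.le),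
    mul_le_mul_of_nonneg_left (hp y v hy hv hyv).2 (inv_nonneg.2 hc.le)⟩

theorem const_of_FP {ε : ℝ} (hε : 0 < ε) : ∃ n₀ : ℕ, ∀ n : ℕ, n₀ ≤ n →
    ∀ (i : ℕ) (μ ν : Measure (En n)), FP i μ ν → 1 ≤ i → (i : ℝ) ≤ (1 - ε) * n →
      ∀ u u' : En n, ‖u‖ = 1 → ‖u'‖ = 1 → th i ν u = th i ν u' := by
  obtain ⟨n₁, h₁⟩ := apriori hε (by positivity : 0 < ε / 4)
  obtain ⟨n₂, h₂⟩ := exists_nat_gt (2 / ε)
  refine ⟨max n₁ n₂, fun n hn i μ ν h hi hin u u' hu hu' => ?_⟩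
  have hn1 : n₁ ≤ n := (le_max_left _ _).trans hn
  have hn2 : (n₂ : ℝ) ≤ n := by exact_mod_cast (le_max_right _ _).trans hn
  have hεn : 2 < ε * n := by
    have := (div_lt_iff₀ hε).1 (h₂.trans_le hn2)
    linarith
  have hi1 : (1 : ℝ) ≤ i := by exact_mod_cast hi
  have hn0 : (0 : ℝ) ≤ n := Nat.cast_nonneg n
  have hε1 : ε < 1 := by
    by_contra hcon
    have : (1 - ε) * n ≤ 0 := mul_nonpos_of_nonpos_of_nonneg (by linarith) hn0
    linarith
  have hi2 : i + 2 ≤ n := by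
    have : (i : ℝ) + 2 ≤ n := by nlinarith
    exact_mod_cast this
  obtain ⟨C, s, hC, hs, hN, hp⟩ := h₁ n hn1 i μ ν h hi hin
  obtain ⟨C', s', hC', hs', hN', hp'⟩ := h₁ n hn1 i ν μ h.symm hi hin
  have hfr : finrank ℝ (En n) = n := by simp
  obtain ⟨hLf, a, c, hc, hth, hM, hV⟩ := dens_fix h hi (by omega) hC hN hC' hN'
  obtain ⟨hLg, a', c', hc', -, hM', hV'⟩ := dens_fix h.symm hi (by omega) hC' hN' hC hN
  obtain ⟨k, rfl⟩ : ∃ k, i = k + 1 := ⟨i - 1, by omega⟩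
  obtain ⟨m, rfl⟩ : ∃ m, n = m + 1 := ⟨n - 1, by omega⟩
  have hη : 0 < 1 - ε / 4 := by linarith
  have hm0 : (0 : ℝ) < m := by
    have : 0 < m := by omega
    exact_mod_cast this
  rw [hth u, hth u', local_rigid hfr (by omega) hLf hLg (by positivity) (by positivity)
    (by positivity) (by positivity) (pin_of hc hM hp') (pin_of hc' hM' hp) (pow_pos hc _)
    (pow_pos hc' _) hV hV' ?_ hu hu']
  have e : (((k + 1 : ℝ) / m) ^ 2 * (c'⁻¹ * ((1 + ε / 4) * s) * (c⁻¹ * ((1 + ε / 4) * s'))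
      / (c'⁻¹ * ((1 - ε / 4) * s)) ^ 2)) * (((k + 1 : ℝ) / m) ^ 2
        * (c⁻¹ * ((1 + ε / 4) * s') * (c'⁻¹ * ((1 + ε / 4) * s))
          / (c⁻¹ * ((1 - ε / 4) * s')) ^ 2))
      = (((k + 1 : ℝ) * (1 + ε / 4)) / (m * (1 - ε / 4))) ^ 4 := by
    field_simp
  rw [e]
  refine pow_lt_one₀ (by positivity) ((div_lt_one (by positivity)).2 ?_) (by norm_num)
  push_cast at hin hεn
  have h3 : (k + 1 : ℝ) * (1 + ε / 4) ≤ (1 - ε) * (m + 1) * (1 + ε / 4) :=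
    mul_le_mul_of_nonneg_right hin (by positivity)
  nlinarith [mul_pos hε hε, mul_pos (mul_pos hε hε) hm0]

theorem almost_all {ε : ℝ} (hε : 0 < ε) : ∃ n₀ : ℕ, ∀ n : ℕ, n₀ ≤ n → ∀ i : ℕ, 1 ≤ i →
    (i : ℝ) ≤ (1 - ε) * n → ∀ K : Set (En n), IsCompact K → Convex ℝ K → (interior K).Nonempty →
      ((∃ (x : En n) (lam : ℝ), 0 < lam ∧ K = x +ᵥ lam • projBodyS i (projBodyS i K)) ↔
        ∃ (x : En n) (r : ℝ), K = Metric.closedBall x r) := by
  obtain ⟨n₀, h₀⟩ := const_of_FP hε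
  refine ⟨n₀, fun n hn i hi hin K hK hc hint => ?_⟩
  have hi1 : (1 : ℝ) ≤ i := by exact_mod_cast hi
  have hn0 : (0 : ℝ) < n := by
    rcases Nat.eq_zero_or_pos n with rfl | hpos
    · simp at hin
      linarith
    · exact_mod_cast hpos
  have hlt : i < n := by
    have : (i : ℝ) < n := by nlinarith
    exact_mod_cast this
  have hfr : finrank ℝ (En n) = n := by simp
  rw [fixed_iff (by omega) hK hc (hint.mono interior_subset)]
  refine classification_of (m := n - 1) (by omega) hi (by omega) ?_ hK hint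
  intro h δ lam hZ hδ hpos hlam hfix u u' hu hu'
  obtain ⟨μ, ν, a, hFP, ha⟩ := reduce (by omega) hZ hδ hpos hlam hfix
  rw [ha u hu, ha u' hu', h₀ n hn i μ ν hFP hi hin u u' hu hu']

end Pool.Agent.P.MP_181257_gt
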