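import Pool.Agent.P.MP_181257_gt.HiDefs

/-! Projections on normal spaces. -/

set_option autoImplicit false
set_option linter.unusedSectionVars false
set_option linter.unusedVariables false

open MeasureTheory ProbabilityTheory Module Set Filter Topology
open scoped RealInnerProductSpace ENNReal Pointwise Matrix

noncomputable section

namespace Pool.Agent.P.MP_181257_gt

variable {V : Type} [NormedAddCommGroup V] [InnerProductSpace ℝ V] [FiniteDimensional ℝ V]
  [MeasurableSpace V] [BorelSpace V]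

theorem mem_nrm_HiP1 {k : ℕ} (x : Fin k → V) (v : V) : v ∈ nrm x ↔ ∀ j, ⟪x j, v⟫ = 0 := by
  rw [nrm, Submodule.mem_orthogonal]
  refine ⟨fun h j => h _ (Submodule.subset_span ⟨j, rfl⟩), fun h u hu => ?_⟩
  induction hu using Submodule.span_induction with
  | mem y hy => obtain ⟨j, rfl⟩ := hy; exact h j
  | zero => simp
  | add y z _ _ h1 h2 => rw [inner_add_left, h1, h2, add_zero]
  | smul c y _ h1 => rw [real_inner_smul_left, h1, mul_zero]

theorem row_HiP1 : ∀ {k : ℕ} (x : Fin k → V) (j : Fin k), Pj k x (x j) = 0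
  | 0, _, j => j.elim0
  | k + 1, x, j => by
    rw [Pj_succ]
    refine Fin.cases ?_ (fun i => ?_) j
    · rw [pr_self, map_zero]
    · exact row_HiP1 (fun j => pr (x 0) (x j.succ)) i

theorem mem_pU_HiP1 (U : Submodule ℝ V) (v : V) : pU U v ∈ U := U.starProjection_apply_mem v

theorem Pj_eq {k : ℕ} (x : Fin k → V) : Pj k x = pU (nrm x) := by
  ext v
  refine (Submodule.eq_starProjection_of_mem_of_inner_eq_zero ?_ fun w hw => ?_).symm
  · rw [mem_nrm_HiP1]
    intro j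
    rw [← inner_Pj_comm, row_HiP1, inner_zero_left]
  · rw [inner_sub_left, inner_Pj_comm, Pj_of_inner x w ((mem_nrm_HiP1 x w).1 hw), sub_self]

theorem finrank_nrm_ge {k : ℕ} (x : Fin k → V) : finrank ℝ V ≤ finrank ℝ (nrm x) + k := by
  have h1 := (Submodule.span ℝ (range x)).finrank_add_finrank_orthogonal
  have h2 : finrank ℝ (Submodule.span ℝ (range x)) ≤ k := by
    simpa [Set.finrank] using finrank_range_le_card (R := ℝ) x
  unfold nrm
  omega

theorem finrank_nrm_eq {k : ℕ} {x : Fin k → V} (hx : D x ≠ 0) :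
    finrank ℝ (nrm x) + k = finrank ℝ V := by
  have h1 := (Submodule.span ℝ (range x)).finrank_add_finrank_orthogonal
  have h0 : (Matrix.gram ℝ x).det ≠ 0 := fun h => hx (by rw [D, h, Real.sqrt_zero])
  have h2 : finrank ℝ (Submodule.span ℝ (range x)) = k := by
    simpa using finrank_span_eq_card (Matrix.linearIndependent_of_det_gram_ne_zero h0)
  unfold nrm
  omega

theorem D_pU_eq_zero {k : ℕ} {U : Submodule ℝ V} (hU : finrank ℝ U < k) (x : Fin k → V) :
    D (fun j => pU U (x j)) = 0 := by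
  by_contra hx
  have h0 : (Matrix.gram ℝ fun j => pU U (x j)).det ≠ 0 :=
    fun h => hx (by rw [D, h, Real.sqrt_zero])
  have h1 : LinearIndependent ℝ fun j => (⟨pU U (x j), mem_pU_HiP1 U _⟩ : U) :=
    LinearIndependent.of_comp U.subtype (Matrix.linearIndependent_of_det_gram_ne_zero h0)
  have h2 := h1.fintype_card_le_finrank
  rw [Fintype.card_fin] at h2
  omega

theorem norm_pU_le (U : Submodule ℝ V) (v : V) : ‖pU U v‖ ≤ ‖v‖ := by
  exact U.norm_starProjection_apply_le v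

theorem norm_pU_mono {U U' : Submodule ℝ V} (h : U ≤ U') (v : V) : ‖pU U v‖ ≤ ‖pU U' v‖ := by
  have h1 : pU U (pU U' v) = pU U v :=
    congrArg (fun T : V →L[ℝ] V => T v) (Submodule.starProjection_comp_starProjection_of_le h)
  rw [← h1]
  exact norm_pU_le _ _

theorem norm_Pj_le {k : ℕ} (x : Fin k → V) (v : V) : ‖Pj k x v‖ ≤ ‖v‖ := by
  rw [Pj_eq]
  exact norm_pU_le _ _

theorem Pj_Pj {k : ℕ} (x : Fin k → V) (v : V) : Pj k x (Pj k x v) = Pj k x v := by
  rw [Pj_eq]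
  exact Submodule.starProjection_eq_self_iff.2 (mem_pU_HiP1 _ _)

theorem Pj_row {k : ℕ} (x : Fin k → V) (j : Fin k) : Pj k x (x j) = 0 := by
  exact row_HiP1 x j

theorem inner_Pj_self {k : ℕ} (x : Fin k → V) (a : V) : ⟪Pj k x a, a⟫ = ‖Pj k x a‖ ^ 2 := by
  rw [← real_inner_self_eq_norm_sq, ← inner_Pj_comm, Pj_Pj]

theorem Pj_perm {k : ℕ} (x : Fin k → V) (σ : Equiv.Perm (Fin k)) :
    Pj k (fun j => x (σ j)) = Pj k x := by
  have h : nrm (fun j => x (σ j)) = nrm x := by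
    ext v
    simp only [mem_nrm_HiP1]
    exact ⟨fun h j => by simpa using h (σ.symm j), fun h j => h _⟩
  rw [Pj_eq, Pj_eq, h]

theorem Pj_smul {k : ℕ} (x : Fin k → V) {t : Fin k → ℝ} (ht : ∀ j, t j ≠ 0) :
    Pj k (fun j => t j • x j) = Pj k x := by
  have h : nrm (fun j => t j • x j) = nrm x := by
    ext v
    simp only [mem_nrm_HiP1, real_inner_smul_left, mul_eq_zero, ht, false_or]
  rw [Pj_eq, Pj_eq, h]

theorem pr_pU (U : Submodule ℝ V) (a v : V) :
    pr (pU U a) (pU U v) = pU (U ⊓ (ℝ ∙ pU U a)ᗮ) v := by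
  refine (Submodule.eq_starProjection_of_mem_of_inner_eq_zero
    (Submodule.mem_inf.2 ⟨?_, ?_⟩) fun w hw => ?_).symm
  · exact U.sub_mem (mem_pU_HiP1 U v) (U.smul_mem _ (mem_pU_HiP1 U a))
  · exact Submodule.mem_orthogonal_singleton_iff_inner_right.2 (inner_pr_self _ _)
  · have h1 := U.starProjection_inner_eq_zero v w hw.1
    have h2 : ⟪pU U a, w⟫ = 0 := Submodule.mem_orthogonal_singleton_iff_inner_right.1 hw.2
    rw [inner_sub_left] at h1 ⊢
    rw [inner_pr_comm, pr_of_inner_eq_zero h2]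
    exact h1

theorem finrank_link (U : Submodule ℝ V) (a : V) :
    finrank ℝ U ≤ finrank ℝ (U ⊓ (ℝ ∙ a)ᗮ : Submodule ℝ V) + 1 := by
  have h1 := Submodule.finrank_sup_add_finrank_inf_eq U (ℝ ∙ a)ᗮ
  have h2 := Submodule.finrank_le (U ⊔ (ℝ ∙ a)ᗮ)
  have h3 := (ℝ ∙ a).finrank_add_finrank_orthogonal
  have h4 : finrank ℝ (ℝ ∙ a) ≤ 1 := by
    simpa using finrank_span_le_card (R := ℝ) ({a} : Set V)
  omega

theorem Pj_pU (U : Submodule ℝ V) {k : ℕ} (x : Fin k → V) (v : V) :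
    Pj k (fun j => pU U (x j)) (pU U v) = pU (U ⊓ nrm fun j => pU U (x j)) v := by
  rw [Pj_eq]
  have hle : Submodule.span ℝ (range fun j => pU U (x j)) ≤ U :=
    Submodule.span_le.2 (by rintro _ ⟨j, rfl⟩; exact mem_pU_HiP1 U _)
  refine (Submodule.eq_starProjection_of_mem_of_inner_eq_zero
    (Submodule.mem_inf.2 ⟨?_, mem_pU_HiP1 _ _⟩) fun w hw => ?_).symm
  · have h1 : pU (nrm fun j => pU U (x j)) (pU U v) = pU U v -
        pU (Submodule.span ℝ (range fun j => pU U (x j))) (pU U v) :=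
      Submodule.starProjection_orthogonal_val _
    rw [h1]
    exact U.sub_mem (mem_pU_HiP1 U v) (hle (mem_pU_HiP1 _ _))
  · have h1 := U.starProjection_inner_eq_zero v w hw.1
    have h2 := (nrm fun j => pU U (x j)).starProjection_inner_eq_zero (pU U v) w hw.2
    rw [inner_sub_left] at h1 h2 ⊢
    linarith

theorem finrank_inf_nrm (U : Submodule ℝ V) {k : ℕ} (x : Fin k → V) :
    finrank ℝ U ≤ finrank ℝ (U ⊓ nrm x : Submodule ℝ V) + k := by
  have h1 := Submodule.finrank_sup_add_finrank_inf_eq U (nrm x)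
  have h2 := Submodule.finrank_le (U ⊔ nrm x)
  have h3 := finrank_nrm_ge x
  omega

theorem Pj_cons {k : ℕ} (a : V) (x : Fin k → V) (v : V) :
    Pj (k + 1) (Fin.cons a x : Fin (k + 1) → V) v = pr (Pj k x a) (Pj k x v) := by
  have h : nrm (Fin.cons a x : Fin (k + 1) → V) = nrm x ⊓ (ℝ ∙ pU (nrm x) a)ᗮ := by
    ext z
    rw [Submodule.mem_inf, Submodule.mem_orthogonal_singleton_iff_inner_right, mem_nrm_HiP1,
      Fin.forall_fin_succ]
    simp only [Fin.cons_zero, Fin.cons_succ]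
    rw [← mem_nrm_HiP1, and_comm]
    refine and_congr_right fun hz => ?_
    have h1 := (nrm x).starProjection_inner_eq_zero a z hz
    rw [inner_sub_left, sub_eq_zero] at h1
    rw [h1]
  rw [Pj_eq, Pj_eq, pr_pU, h]

theorem norm_sq_Pj_cons {k : ℕ} (a : V) (x : Fin k → V) (v : V) :
    ‖Pj (k + 1) (Fin.cons a x : Fin (k + 1) → V) v‖ ^ 2
      = ‖Pj k x v‖ ^ 2 - ⟪Pj k x a, v⟫ ^ 2 / ‖Pj k x a‖ ^ 2 := by
  rw [Pj_cons, norm_sq_pr, ← inner_Pj_comm, Pj_Pj]

theorem norm_Pj_swap {k : ℕ} (a u : V) (x : Fin k → V) :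
    ‖Pj (k + 1) (Fin.cons a x : Fin (k + 1) → V) u‖ * ‖Pj k x a‖
      = ‖Pj k x u‖ * ‖Pj (k + 1) (Fin.cons u x : Fin (k + 1) → V) a‖ := by
  by_cases ha : Pj k x a = 0
  · rw [Pj_cons u x a, ha]; simp
  by_cases hu : Pj k x u = 0
  · rw [Pj_cons a x u, hu]; simp
  have ha' : ‖Pj k x a‖ ≠ 0 := norm_ne_zero_iff.2 ha
  have hu' : ‖Pj k x u‖ ≠ 0 := norm_ne_zero_iff.2 hu
  have h1 : ⟪Pj k x u, a⟫ = ⟪Pj k x a, u⟫ := by rw [inner_Pj_comm, real_inner_comm]
  refine (pow_left_inj₀ (by positivity) (by positivity) two_ne_zero).1 ?_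
  rw [mul_pow, mul_pow, norm_sq_Pj_cons, norm_sq_Pj_cons, h1]
  field_simp

end Pool.Agent.P.MP_181257_gt
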