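import Pool.Agent.P.MP_181257_gt.HiG1

/-! Injectivity of the cosine transform. -/

set_option autoImplicit false
set_option linter.unusedSectionVars false
set_option linter.unusedVariables false

open MeasureTheory ProbabilityTheory Module Set Filter Topology
open scoped RealInnerProductSpace ENNReal Pointwise Matrix

noncomputable section

namespace Pool.Agent.P.MP_181257_gt

variable {V : Type} [NormedAddCommGroup V] [InnerProductSpace ℝ V] [FiniteDimensional ℝ V]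
  [MeasurableSpace V] [BorelSpace V]

theorem int_pow_exp_HiR1 (n : ℕ) :
    Integrable (fun t : ℝ => t ^ n * Real.exp (-(t ^ 2 / 2))) := by
  have h := integrable_rpow_mul_exp_neg_mul_sq (b := 1 / 2) (by norm_num) (s := (n : ℝ))
    (by have : (0 : ℝ) ≤ n := Nat.cast_nonneg n; linarith)
  refine h.congr (ae_of_all _ fun t => ?_)
  simp only [Real.rpow_natCast]
  congr 2
  ring

theorem deriv_exp_HiR1 (t : ℝ) :
    HasDerivAt (fun s : ℝ => Real.exp (-(s ^ 2 / 2))) (Real.exp (-(t ^ 2 / 2)) * (-t)) t := by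
  have h : HasDerivAt (fun s : ℝ => -(s ^ 2 / 2)) (-t) t := by
    have := ((hasDerivAt_pow 2 t).div_const 2).neg
    refine this.congr_deriv ?_
    simp
  exact h.exp

theorem pdf_eq_HiR1 (t : ℝ) :
    gaussianPDFReal 0 1 t = gaussianPDFReal 0 1 0 * Real.exp (-(t ^ 2 / 2)) := by
  simp only [gaussianPDFReal, NNReal.coe_one, mul_one, sub_zero]
  norm_num
  left
  ring

theorem stein_vol_HiR1 (a : ℝ) :
    ∫ t : ℝ, (t ^ 2 - 1) * |a + t| * Real.exp (-(t ^ 2 / 2)) = 2 * Real.exp (-(a ^ 2 / 2)) := by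
  set F : ℝ → ℝ := fun t => -((a + t) * t * Real.exp (-(t ^ 2 / 2))) - Real.exp (-(t ^ 2 / 2))
    with hF
  set f : ℝ → ℝ := fun t => (t ^ 2 - 1) * (a + t) * Real.exp (-(t ^ 2 / 2)) with hf
  have hd : ∀ t, HasDerivAt F (f t) t := by
    intro t
    have h1 : HasDerivAt (fun s : ℝ => (a + s) * s) (1 * t + (a + t) * 1) t :=
      ((hasDerivAt_id t).const_add a).mul (hasDerivAt_id t)
    have h2 := ((h1.mul (deriv_exp_HiR1 t)).neg).sub (deriv_exp_HiR1 t)
    refine h2.congr_deriv ?_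
    simp only [hf]
    ring
  have h0 := int_pow_exp_HiR1 0
  have h1 := int_pow_exp_HiR1 1
  have h2 := int_pow_exp_HiR1 2
  have h3 := int_pow_exp_HiR1 3
  have hFi : Integrable F := by
    refine (((h1.const_mul a).add h2).neg.sub h0).congr (ae_of_all _ fun t => ?_)
    simp only [hF, Pi.sub_apply, Pi.neg_apply, Pi.add_apply]
    ring
  have hfi : Integrable f := by
    refine ((((h2.const_mul a).add h3).sub (h0.const_mul a)).sub h1).congr
      (ae_of_all _ fun t => ?_)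
    simp only [hf, Pi.sub_apply, Pi.add_apply]
    ring
  have htop : Tendsto F atTop (𝓝 0) :=
    tendsto_zero_of_hasDerivAt_of_integrableOn_Ioi (a := -a) (fun t _ => hd t)
      hfi.integrableOn hFi.integrableOn
  have hbot : Tendsto F atBot (𝓝 0) :=
    tendsto_zero_of_hasDerivAt_of_integrableOn_Iic (a := -a) (fun t _ => hd t)
      hfi.integrableOn hFi.integrableOn
  have e1 : ∫ t in Ioi (-a), f t = 0 - F (-a) :=
    integral_Ioi_of_hasDerivAt_of_tendsto (hd (-a)).continuousAt.continuousWithinAt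
      (fun t _ => hd t) hfi.integrableOn htop
  have e2 : ∫ t in Iic (-a), f t = F (-a) - 0 :=
    integral_Iic_of_hasDerivAt_of_tendsto (hd (-a)).continuousAt.continuousWithinAt
      (fun t _ => hd t) hfi.integrableOn hbot
  have hFa : F (-a) = -Real.exp (-(a ^ 2 / 2)) := by
    simp [hF]
  set g : ℝ → ℝ := fun t => (t ^ 2 - 1) * |a + t| * Real.exp (-(t ^ 2 / 2)) with hg
  have g1 : EqOn g f (Ioi (-a)) := by
    intro t ht
    have : 0 ≤ a + t := by have := mem_Ioi.1 ht; linarith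
    simp only [hg, hf, abs_of_nonneg this]
  have g2 : EqOn g (fun t => -f t) (Iic (-a)) := by
    intro t ht
    have : a + t ≤ 0 := by have := mem_Iic.1 ht; linarith
    simp only [hg, hf, abs_of_nonpos this]
    ring
  have i1 : IntegrableOn g (Ioi (-a)) :=
    hfi.integrableOn.congr_fun g1.symm measurableSet_Ioi
  have i2 : IntegrableOn g (Iic (-a)) :=
    (hfi.neg.integrableOn (s := Iic (-a))).congr_fun g2.symm measurableSet_Iic
  rw [← intervalIntegral.integral_Iic_add_Ioi i2 i1, setIntegral_congr_fun measurableSet_Ioi g1,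
    setIntegral_congr_fun measurableSet_Iic g2, integral_neg, e1, e2, hFa]
  ring

theorem stein_abs (a : ℝ) :
    ∫ t, (t ^ 2 - 1) * |a + t| ∂(gaussianReal 0 1) = c2 * Real.exp (-(a ^ 2 / 2)) := by
  rw [integral_gaussianReal_eq_integral_smul (by norm_num)]
  have h : ∀ t : ℝ, gaussianPDFReal 0 1 t • ((t ^ 2 - 1) * |a + t|)
      = gaussianPDFReal 0 1 0 * ((t ^ 2 - 1) * |a + t| * Real.exp (-(t ^ 2 / 2))) := by
    intro t
    rw [pdf_eq_HiR1 t, smul_eq_mul]
    ring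
  simp_rw [h]
  rw [integral_const_mul, stein_vol_HiR1, c2]
  ring

theorem int_real_pow_HiR1 (p : ℕ) : Integrable (fun t : ℝ => ‖t‖ ^ p) (gaussianReal 0 1) := by
  have := integrable_norm_pow (V := ℝ) p
  rwa [stdGaussian_real] at this

theorem int_abs_HiR1 (a : ℝ) : Integrable (fun t : ℝ => |a + t|) (gaussianReal 0 1) := by
  refine ((integrable_const |a|).add (int_real_pow_HiR1 1)).mono' (by fun_prop)
    (ae_of_all _ fun t => ?_)
  simp only [Real.norm_eq_abs, abs_abs, Pi.add_apply, pow_one]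
  exact abs_add_le a t

theorem int_stein_HiR1 (a : ℝ) :
    Integrable (fun t : ℝ => (t ^ 2 - 1) * |a + t|) (gaussianReal 0 1) := by
  refine ((((int_real_pow_HiR1 2).const_mul |a|).add (int_real_pow_HiR1 3)).add
    ((integrable_const |a|).add (int_real_pow_HiR1 1))).mono' (by fun_prop)
    (ae_of_all _ fun t => ?_)
  simp only [Real.norm_eq_abs, abs_mul, abs_abs, Pi.add_apply, pow_one]
  have h1 : |t ^ 2 - 1| ≤ |t| ^ 2 + 1 := by
    rw [sq_abs]
    exact abs_le.2 ⟨by nlinarith [sq_nonneg t], by linarith⟩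
  have h2 := abs_add_le a t
  calc |t ^ 2 - 1| * |a + t| ≤ (|t| ^ 2 + 1) * (|a| + |t|) :=
        mul_le_mul h1 h2 (abs_nonneg _) (by positivity)
    _ = _ := by ring

theorem int_pr_HiR1 (e : V) : Integrable (fun g : V => ‖pr e g‖ ^ 2) (stdGaussian V) := by
  refine (integrable_norm_pow (V := V) 2).mono' (by fun_prop) (ae_of_all _ fun g => ?_)
  rw [Real.norm_eq_abs, abs_of_nonneg (by positivity)]
  exact pow_le_pow_left₀ (norm_nonneg _) (norm_pr_le e g) 2

theorem mean_pr_HiR1 {e : V} (he : ‖e‖ = 1) :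
    ∫ g, ‖pr e g‖ ^ 2 ∂(stdGaussian V) = (finrank ℝ V : ℝ) - 1 := by
  have h : ∀ g : V, ‖pr e g‖ ^ 2 = ‖g‖ ^ 2 - ⟪e, g⟫ ^ 2 := by
    intro g
    rw [norm_sq_pr, he]
    simp
  simp_rw [h]
  rw [integral_sub (integrable_norm_pow 2) (integrable_inner_pow e 2), integral_norm_sq]
  have h2 := integral_inner_pow e 1
  rw [Km_one, he] at h2
  simp only [mul_one, one_pow] at h2
  rw [h2]

theorem stein_inner (u x : V) :
    ∫ G, (‖G‖ ^ 2 - finrank ℝ V) * |⟪u + G, x⟫| ∂(stdGaussian V)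
      = c2 * (‖x‖ * Real.exp (-(⟪u, ‖x‖⁻¹ • x⟫ ^ 2 / 2))) := by
  by_cases hx : x = 0
  · simp [hx]
  have hn : ‖x‖ ≠ 0 := norm_ne_zero_iff.2 hx
  set e : V := ‖x‖⁻¹ • x with he
  have he1 : ‖e‖ = 1 := by simp [he, norm_smul, hn]
  have hxe : x = ‖x‖ • e := by rw [he, smul_smul, mul_inv_cancel₀ hn, one_smul]
  set a : ℝ := ⟪u, e⟫ with ha
  rw [← moment_integral_mp (mp_pr_split he1)
    (F := fun G : V => (‖G‖ ^ 2 - finrank ℝ V) * |⟪u + G, x⟫|) (by fun_prop)]
  have key : ∀ q : V × ℝ, (‖pr e q.1 + q.2 • e‖ ^ 2 - finrank ℝ V) * |⟪u + (pr e q.1 + q.2 • e), x⟫|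
      = ‖x‖ * ((‖pr e q.1‖ ^ 2 - ((finrank ℝ V : ℝ) - 1)) * |a + q.2|
        + (1 : ℝ) * ((q.2 ^ 2 - 1) * |a + q.2|)) := by
    intro q
    have h0 : ⟪pr e q.1, e⟫ = 0 := by rw [real_inner_comm]; exact inner_pr_self e q.1
    have hee : ⟪e, e⟫ = 1 := by rw [real_inner_self_eq_norm_sq, he1]; norm_num
    have h1 : ‖pr e q.1 + q.2 • e‖ ^ 2 = ‖pr e q.1‖ ^ 2 + q.2 ^ 2 := by
      rw [norm_add_sq_real, real_inner_smul_right, h0, norm_smul, he1]
      simp
    have h2 : ⟪u + (pr e q.1 + q.2 • e), x⟫ = ‖x‖ * (a + q.2) := by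
      have : ⟪u + (pr e q.1 + q.2 • e), x⟫ = ⟪u + (pr e q.1 + q.2 • e), ‖x‖ • e⟫ := by
        rw [← hxe]
      rw [this, real_inner_smul_right, inner_add_left, inner_add_left, h0, real_inner_smul_left,
        hee]
      simp [ha]
    rw [h1, h2, abs_mul, abs_norm]
    ring
  simp_rw [key]
  have i1 : Integrable (fun q : V × ℝ => (‖pr e q.1‖ ^ 2 - ((finrank ℝ V : ℝ) - 1)) * |a + q.2|)
      ((stdGaussian V).prod (gaussianReal 0 1)) :=
    ((int_pr_HiR1 e).sub (integrable_const _)).mul_prod (int_abs_HiR1 a)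
  have i2 : Integrable (fun q : V × ℝ => (1 : ℝ) * ((q.2 ^ 2 - 1) * |a + q.2|))
      ((stdGaussian V).prod (gaussianReal 0 1)) :=
    (integrable_const (1 : ℝ)).mul_prod (int_stein_HiR1 a)
  rw [integral_const_mul, integral_add i1 i2,
    integral_prod_mul (fun g : V => ‖pr e g‖ ^ 2 - ((finrank ℝ V : ℝ) - 1)) (fun t : ℝ => |a + t|),
    integral_prod_mul (fun g : V => (1 : ℝ)) (fun t : ℝ => (t ^ 2 - 1) * |a + t|),
    integral_sub (int_pr_HiR1 e) (integrable_const _), mean_pr_HiR1 he1, stein_abs]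
  simp
  ring

theorem stein_meas_HiR1 {α : Measure V} (hα : Mom α) (u : V) :
    ∫ G, (‖G‖ ^ 2 - finrank ℝ V) * (∫ x, |⟪u + G, x⟫| ∂α) ∂(stdGaussian V)
      = c2 * ∫ x, ‖x‖ * Real.exp (-(⟪u, ‖x‖⁻¹ • x⟫ ^ 2 / 2)) ∂α := by
  have := hα.prob
  have hb : Integrable (fun G : V => (‖G‖ ^ 2 + finrank ℝ V) * (‖u‖ + ‖G‖)) (stdGaussian V) := by
    refine (((((integrable_norm_pow (V := V) 2).const_mul ‖u‖).add (integrable_norm_pow 3)).add
      (integrable_const ((finrank ℝ V : ℝ) * ‖u‖))).add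
      ((integrable_norm_pow 1).const_mul (finrank ℝ V : ℝ))).congr (ae_of_all _ fun G => ?_)
    simp only [Pi.add_apply]
    ring
  have hi : Integrable (Function.uncurry fun (G : V) (x : V) =>
      (‖G‖ ^ 2 - finrank ℝ V) * |⟪u + G, x⟫|) ((stdGaussian V).prod α) := by
    refine (hb.mul_prod hα.int).mono' ?_ (ae_of_all _ fun p => ?_)
    · apply Measurable.aestronglyMeasurable
      unfold Function.uncurry
      fun_prop
    · simp only [Function.uncurry, Real.norm_eq_abs, abs_mul, abs_abs]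
      have h1 : |‖p.1‖ ^ 2 - (finrank ℝ V : ℝ)| ≤ ‖p.1‖ ^ 2 + finrank ℝ V := by
        have : (0 : ℝ) ≤ finrank ℝ V := Nat.cast_nonneg _
        exact abs_le.2 ⟨by nlinarith [sq_nonneg ‖p.1‖], by linarith⟩
      have h2 : |⟪u + p.1, p.2⟫| ≤ (‖u‖ + ‖p.1‖) * ‖p.2‖ :=
        (abs_real_inner_le_norm _ _).trans
          (mul_le_mul_of_nonneg_right (norm_add_le _ _) (norm_nonneg _))
      calc _ ≤ (‖p.1‖ ^ 2 + finrank ℝ V) * ((‖u‖ + ‖p.1‖) * ‖p.2‖) :=
            mul_le_mul h1 h2 (abs_nonneg _) (by positivity)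
        _ = _ := by ring
  simp_rw [← integral_const_mul]
  rw [integral_integral_swap hi]
  refine integral_congr_ae (ae_of_all _ fun x => ?_)
  exact stein_inner u x

/-- the auxiliary measure -/
def Am_HiR1 (α : Measure V) : Measure V :=
  ((α.withDensity fun x => ENNReal.ofReal ‖x‖).prod (gaussianReal 0 1)).map
    fun p : V × ℝ => p.2 • ‖p.1‖⁻¹ • p.1

theorem fin_wd_HiR1 {α : Measure V} (hα : Mom α) :
    IsFiniteMeasure (α.withDensity fun x => ENNReal.ofReal ‖x‖) :=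
  isFiniteMeasure_withDensity_ofReal hα.int.hasFiniteIntegral

theorem fin_Am_HiR1 {α : Measure V} (hα : Mom α) : IsFiniteMeasure (Am_HiR1 α) := by
  have := fin_wd_HiR1 hα
  unfold Am_HiR1
  infer_instance

theorem char_Am_HiR1 {α : Measure V} (hα : Mom α) (u : V) :
    charFun (Am_HiR1 α) u
      = ((∫ x, ‖x‖ * Real.exp (-(⟪u, ‖x‖⁻¹ • x⟫ ^ 2 / 2)) ∂α : ℝ) : ℂ) := by
  have := fin_wd_HiR1 hα
  have hm : Measurable fun p : V × ℝ => p.2 • ‖p.1‖⁻¹ • p.1 := by fun_prop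
  rw [charFun_apply, Am_HiR1, integral_map hm.aemeasurable (by fun_prop), integral_prod]
  · have h1 : ∀ x : V, ∫ t : ℝ, Complex.exp ((⟪t • ‖x‖⁻¹ • x, u⟫ : ℝ) * Complex.I)
        ∂(gaussianReal 0 1) = ((Real.exp (-(⟪u, ‖x‖⁻¹ • x⟫ ^ 2 / 2)) : ℝ) : ℂ) := by
      intro x
      have h2 := charFun_gaussianReal (μ := 0) (v := 1) ⟪u, ‖x‖⁻¹ • x⟫
      rw [charFun_apply_real] at h2
      have h3 : ∀ t : ℝ, Complex.exp ((⟪t • ‖x‖⁻¹ • x, u⟫ : ℝ) * Complex.I)
          = Complex.exp ((⟪u, ‖x‖⁻¹ • x⟫ : ℝ) * (t : ℂ) * Complex.I) := by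
        intro t
        rw [real_inner_smul_left, real_inner_comm u]
        push_cast
        ring_nf
      simp_rw [h3]
      rw [h2]
      push_cast
      congr 1
      simp
    simp_rw [h1]
    rw [integral_complex_ofReal, integral_withDensity_eq_integral_toReal_smul (by fun_prop)
      (ae_of_all _ fun x => ENNReal.ofReal_lt_top)]
    congr 1
    refine integral_congr_ae (ae_of_all _ fun x => ?_)
    simp
  · refine (integrable_const (1 : ℝ)).mono' (by fun_prop) (ae_of_all _ fun p => ?_)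
    rw [Complex.norm_exp_ofReal_mul_I]

theorem lint_Am_HiR1 {α : Measure V} (hα : Mom α) {φ : V → ℝ≥0∞} (hφ : Measurable φ)
    (hom : ∀ (t : ℝ) (x : V), φ (t • x) = ENNReal.ofReal |t| * φ x) :
    ∫⁻ x, φ x ∂(Am_HiR1 α) = ENNReal.ofReal c0 * ∫⁻ x, φ x ∂α := by
  have := fin_wd_HiR1 hα
  have hm : Measurable fun p : V × ℝ => p.2 • ‖p.1‖⁻¹ • p.1 := by fun_prop
  have hc : ∫⁻ t : ℝ, ENNReal.ofReal |t| ∂(gaussianReal 0 1) = ENNReal.ofReal c0 := by
    rw [c0, ofReal_integral_eq_lintegral_ofReal _ (ae_of_all _ fun t => abs_nonneg t)]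
    simpa using int_abs_HiR1 0
  rw [Am_HiR1, lintegral_map hφ hm, lintegral_prod (fun p : V × ℝ => φ (p.2 • ‖p.1‖⁻¹ • p.1))
    (hφ.comp hm).aemeasurable]
  have h1 : ∀ x : V, ∫⁻ t : ℝ, φ (t • ‖x‖⁻¹ • x) ∂(gaussianReal 0 1)
      = ENNReal.ofReal c0 * φ (‖x‖⁻¹ • x) := by
    intro x
    simp_rw [fun t => hom t (‖x‖⁻¹ • x)]
    rw [lintegral_mul_const _ (by fun_prop), hc]
  simp_rw [h1]
  rw [lintegral_withDensity_eq_lintegral_mul _ (by fun_prop) (by fun_prop),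
    ← lintegral_const_mul _ hφ]
  refine lintegral_congr fun x => ?_
  have h2 : ‖x‖ • ‖x‖⁻¹ • x = x := by
    by_cases hx : x = 0
    · simp [hx]
    · rw [smul_smul, mul_inv_cancel₀ (norm_ne_zero_iff.2 hx), one_smul]
  have h3 := hom ‖x‖ (‖x‖⁻¹ • x)
  rw [h2, abs_norm] at h3
  simp only [Pi.mul_apply]
  rw [mul_left_comm, ← h3]

theorem cos_inj {α β : Measure V} (hα : Mom α) (hβ : Mom β) {c : ℝ} (hc : 0 < c)
    (h : ∀ u : V, ∫ x, |⟪u, x⟫| ∂α = c * ∫ x, |⟪u, x⟫| ∂β) {φ : V → ℝ≥0∞} (hφ : Measurable φ)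
    (hom : ∀ (t : ℝ) (x : V), φ (t • x) = ENNReal.ofReal |t| * φ x) :
    ∫⁻ x, φ x ∂α = ENNReal.ofReal c * ∫⁻ x, φ x ∂β := by
  have h1 : ∀ u : V, ∫ x, ‖x‖ * Real.exp (-(⟪u, ‖x‖⁻¹ • x⟫ ^ 2 / 2)) ∂α
      = c * ∫ x, ‖x‖ * Real.exp (-(⟪u, ‖x‖⁻¹ • x⟫ ^ 2 / 2)) ∂β := by
    intro u
    have e1 := stein_meas_HiR1 hα u
    have e2 := stein_meas_HiR1 hβ u
    simp_rw [h, mul_left_comm _ c] at e1
    rw [integral_const_mul, e2] at e1
    apply mul_left_cancel₀ c2_pos.ne'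
    rw [← e1]
    ring
  have := fin_Am_HiR1 hα
  have := fin_Am_HiR1 hβ
  have : IsFiniteMeasure (ENNReal.ofReal c • Am_HiR1 β) :=
    ⟨by rw [Measure.smul_apply, smul_eq_mul]
        exact ENNReal.mul_lt_top ENNReal.ofReal_lt_top (measure_lt_top _ _)⟩
  have hAB : Am_HiR1 α = ENNReal.ofReal c • Am_HiR1 β := by
    apply Measure.ext_of_charFun
    funext u
    rw [char_Am_HiR1 hα, h1, charFun_apply, integral_smul_measure, ← charFun_apply,
      char_Am_HiR1 hβ, ENNReal.toReal_ofReal hc.le]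
    simp
  have h2 := lint_Am_HiR1 hα hφ hom
  rw [hAB, lintegral_smul_measure, lint_Am_HiR1 hβ hφ hom, smul_eq_mul, mul_left_comm] at h2
  exact ((ENNReal.mul_right_inj (by simpa using c0_pos) ENNReal.ofReal_ne_top).1 h2).symm

end Pool.Agent.P.MP_181257_gt
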