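import Pool.Agent.P.MP_181257_gt.HiR1
import Pool.Agent.P.MP_181257_gt.HiFr2

/-! The normal law depends on the support function only. -/

set_option autoImplicit false
set_option linter.unusedSectionVars false
set_option linter.unusedVariables false

open MeasureTheory ProbabilityTheory Module Set Filter Topology
open scoped RealInnerProductSpace ENNReal Pointwise Matrix

noncomputable section

namespace Pool.Agent.P.MP_181257_gt

variable {V : Type} [NormedAddCommGroup V] [InnerProductSpace ℝ V] [FiniteDimensional ℝ V]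
  [MeasurableSpace V] [BorelSpace V]

theorem cos_inj_pi {α β : Measure V} (hα : Mom α) (hβ : Mom β) {c : ℝ} (hc : 0 < c)
    (h : ∀ u : V, ∫ x, |⟪u, x⟫| ∂α = c * ∫ x, |⟪u, x⟫| ∂β) : ∀ (k : ℕ)
    {G : (Fin k → V) → ℝ≥0∞}, Measurable G →
    (∀ (t : Fin k → ℝ) (x : Fin k → V),
      G (fun j => t j • x j) = (∏ j, ENNReal.ofReal |t j|) * G x) →
    ∫⁻ x, G x ∂(mk α k) = ENNReal.ofReal c ^ k * ∫⁻ x, G x ∂(mk β k) := by
  intro k
  induction k with
  | zero =>
    intro G hG _
    rw [pow_zero, one_mul]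
    have e1 : mk α 0 = Measure.dirac (fun j : Fin 0 => (Fin.elim0 j : V)) :=
      Measure.pi_of_empty _ _
    have e2 : mk β 0 = Measure.dirac (fun j : Fin 0 => (Fin.elim0 j : V)) :=
      Measure.pi_of_empty _ _
    rw [e1, e2]
  | succ k ih =>
    intro G hG hom
    have := hβ.prob
    have hm1 : ∀ x : Fin k → V, Measurable fun a : V => G (Fin.cons a x) := fun x =>
      hG.comp (bp_measurable_cons measurable_id measurable_const)
    have hm2 : Measurable fun p : (Fin k → V) × V => G (Fin.cons p.2 p.1) :=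
      hG.comp (bp_measurable_cons measurable_snd measurable_fst)
    have hH : Measurable fun x : Fin k → V => ∫⁻ a, G (Fin.cons a x) ∂β :=
      hm2.lintegral_prod_right'
    have h1 : ∀ x : Fin k → V, ∫⁻ a, G (Fin.cons a x) ∂α
        = ENNReal.ofReal c * ∫⁻ a, G (Fin.cons a x) ∂β := by
      intro x
      refine cos_inj hα hβ hc h (hm1 x) ?_
      intro t a
      have := hom (Fin.cons t (fun _ => 1)) (Fin.cons a x)
      rw [Fin.prod_univ_succ] at this
      simp only [Fin.cons_zero, Fin.cons_succ, abs_one, ENNReal.ofReal_one,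
        Finset.prod_const_one, mul_one] at this
      rw [← this]
      congr 1
      funext j
      refine Fin.cases ?_ (fun j => ?_) j
      · simp
      · simp
    have h2 : ∀ (t : Fin k → ℝ) (x : Fin k → V),
        ∫⁻ a, G (Fin.cons a (fun j => t j • x j)) ∂β
          = (∏ j, ENNReal.ofReal |t j|) * ∫⁻ a, G (Fin.cons a x) ∂β := by
      intro t x
      rw [← lintegral_const_mul _ (hm1 x)]
      refine lintegral_congr fun a => ?_
      have := hom (Fin.cons 1 t) (Fin.cons a x)
      rw [Fin.prod_univ_succ] at this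
      simp only [Fin.cons_zero, Fin.cons_succ, abs_one, ENNReal.ofReal_one, one_mul] at this
      rw [← this]
      congr 1
      funext j
      refine Fin.cases ?_ (fun j => ?_) j
      · simp
      · simp
    rw [lintegral_mk_cons hα hG, lintegral_mk_cons hβ hG, lintegral_congr h1,
      lintegral_const_mul _ hH, ih hH h2, pow_succ', mul_assoc]

theorem ofReal_D_smul_HiR2 {k : ℕ} (t : Fin k → ℝ) (x : Fin k → V) :
    ENNReal.ofReal (D fun j => t j • x j)
      = (∏ j, ENNReal.ofReal |t j|) * ENNReal.ofReal (D x) := by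
  rw [D_smul, ENNReal.ofReal_mul (Finset.prod_nonneg fun j _ => abs_nonneg _),
    ENNReal.ofReal_prod_of_nonneg fun j _ => abs_nonneg _]

theorem Tn_congr {α β : Measure V} (hα : Mom α) (hβ : Mom β) {c : ℝ} (hc : 0 < c)
    (h : ∀ u : V, ∫ x, |⟪u, x⟫| ∂α = c * ∫ x, |⟪u, x⟫| ∂β) {k : ℕ} (hW : 0 < Wr k β) :
    Tn k α = Tn k β := by
  have hD : Measurable fun x : Fin k → V => ENNReal.ofReal (D x) :=
    (measurable_D measurable_id).ennreal_ofReal
  have hWe : ENNReal.ofReal (Wr k α) = ENNReal.ofReal c ^ k * ENNReal.ofReal (Wr k β) := by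
    rw [ofReal_Wr hα, ofReal_Wr hβ]
    exact cos_inj_pi hα hβ hc h k hD fun t x => ofReal_D_smul_HiR2 t x
  have hc0 : ENNReal.ofReal c ^ k ≠ 0 := pow_ne_zero _ (ENNReal.ofReal_pos.mpr hc).ne'
  have hct : ENNReal.ofReal c ^ k ≠ ∞ := ENNReal.pow_ne_top ENNReal.ofReal_ne_top
  have hW' : 0 < Wr k α := by
    rw [← ENNReal.ofReal_pos, hWe]
    exact ENNReal.mul_pos hc0 (ENNReal.ofReal_pos.mpr hW).ne'
  have key : ∀ {φ : V → ℝ≥0∞}, Measurable φ →
      ∫⁻ w, φ w ∂(Tn k α) = ∫⁻ w, φ w ∂(Tn k β) := by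
    intro φ hφ
    have hm : Measurable fun p : (Fin k → V) × V => φ (Pj k p.1 p.2) :=
      hφ.comp (measurable_Pj k measurable_fst measurable_snd)
    have hF : Measurable fun x : Fin k → V => ∫⁻ g, φ (Pj k x g) ∂(stdGaussian V) :=
      hm.lintegral_prod_right'
    have hG : Measurable fun x : Fin k → V =>
        ENNReal.ofReal (D x) * ∫⁻ g, φ (Pj k x g) ∂(stdGaussian V) := hD.mul hF
    rw [lintegral_Tn hα hW' hφ, lintegral_Tn hβ hW hφ, lintegral_Fr α k hF, lintegral_Fr β k hF,
      cos_inj_pi hα hβ hc h k hG ?_, hWe,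
      ENNReal.mul_inv (Or.inl hc0) (Or.inl hct), mul_comm (ENNReal.ofReal c ^ k)⁻¹, mul_assoc,
      ← mul_assoc (ENNReal.ofReal c ^ k)⁻¹, ENNReal.inv_mul_cancel hc0 hct, one_mul]
    intro t x
    rw [ofReal_D_smul_HiR2, mul_assoc]
    by_cases ht : ∀ j, t j ≠ 0
    · rw [Pj_smul x ht]
    · push Not at ht
      obtain ⟨j, hj⟩ := ht
      have : (∏ j, ENNReal.ofReal |t j|) = 0 :=
        Finset.prod_eq_zero (Finset.mem_univ j) (by simp [hj])
      rw [this, zero_mul, zero_mul]
  refine Measure.ext fun s hs => ?_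
  rw [← lintegral_indicator_one hs, ← lintegral_indicator_one hs]
  exact key (measurable_one.indicator hs)

end Pool.Agent.P.MP_181257_gt
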