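import Pool.Agent.P.MP_181257_gt.Proj

/-! The contraction of the logarithmic ratio of two Lp norms. -/

set_option autoImplicit false
set_option linter.unusedSectionVars false

open MeasureTheory ProbabilityTheory Module Set Filter Topology
open scoped RealInnerProductSpace ENNReal Pointwise Matrix

noncomputable section

namespace Pool.Agent.P.MP_181257_gt

variable {V : Type} [NormedAddCommGroup V] [InnerProductSpace ℝ V] [FiniteDimensional ℝ V]
  [MeasurableSpace V] [BorelSpace V]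

/-- logarithm of the `r`-th moment -/
def Lm (f : V → ℝ) (r : ℝ) : ℝ := Real.log (∫ x, f x ^ r ∂(stdGaussian V))

/-- `log (‖f‖_P / ‖f‖_{1/P})` with `P = (m + 2) / m` -/
def Δ (m : ℕ) (f : V → ℝ) : ℝ :=
  Lm f (((m : ℝ) + 2) / m) / (((m : ℝ) + 2) / m) - (((m : ℝ) + 2) / m) * Lm f ((m : ℝ) / (m + 2))

theorem holder_int {f : V → ℝ} (hf : Pos f) {r : ℝ} (hr : 0 ≤ r) :
    Integrable (fun x => f x ^ r) (stdGaussian V) :=
  (hf.rpow hr).bd.integrable _

theorem holder_pos {f : V → ℝ} (hf : Pos f) : 0 < ∫ x, f x ∂(stdGaussian V) := by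
  obtain ⟨c, C, hc, h⟩ := hf.bdd
  have h1 : ∫ _x, c ∂(stdGaussian V) ≤ ∫ x, f x ∂(stdGaussian V) :=
    integral_mono (integrable_const c) (hf.bd.integrable _) fun x => (h x).1
  simp only [integral_const, probReal_univ, one_smul] at h1
  exact hc.trans_le h1

theorem holder_zero (f : V → ℝ) : Lm f 0 = 0 := by
  simp [Lm]

theorem Lm_convex {f : V → ℝ} (hf : Pos f) {r₀ r₁ a : ℝ} (h₀ : 0 ≤ r₀) (h₁ : 0 ≤ r₁) (ha : 0 ≤ a)
    (ha' : a ≤ 1) : Lm f (a * r₀ + (1 - a) * r₁) ≤ a * Lm f r₀ + (1 - a) * Lm f r₁ := by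
  have hb : 0 ≤ 1 - a := by linarith
  have hA := holder_pos (hf.rpow h₀)
  have hB := holder_pos (hf.rpow h₁)
  have hr : 0 ≤ a * r₀ + (1 - a) * r₁ := by positivity
  have hC := holder_pos (hf.rpow hr)
  unfold Lm
  generalize hAe : ∫ x, f x ^ r₀ ∂(stdGaussian V) = A at hA ⊢
  generalize hBe : ∫ x, f x ^ r₁ ∂(stdGaussian V) = B at hB ⊢
  have hK : 0 < A ^ a * B ^ (1 - a) := by positivity
  have hp : ∀ x, f x ^ (a * r₀ + (1 - a) * r₁)
      ≤ A ^ a * B ^ (1 - a) * (a / A * f x ^ r₀ + (1 - a) / B * f x ^ r₁) := by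
    intro x
    have hx := hf.pos x
    have h2 := Real.geom_mean_le_arith_mean2_weighted (p₁ := f x ^ r₀ / A) (p₂ := f x ^ r₁ / B)
      ha hb (by positivity) (by positivity) (by ring)
    have e : f x ^ (a * r₀ + (1 - a) * r₁)
        = A ^ a * B ^ (1 - a) * ((f x ^ r₀ / A) ^ a * (f x ^ r₁ / B) ^ (1 - a)) := by
      rw [Real.div_rpow (by positivity) hA.le, Real.div_rpow (by positivity) hB.le,
        ← Real.rpow_mul hx.le, ← Real.rpow_mul hx.le, Real.rpow_add hx, mul_comm r₀, mul_comm r₁]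
      field_simp
    rw [e]
    refine mul_le_mul_of_nonneg_left (h2.trans_eq ?_) hK.le
    ring
  have i0 := (holder_int hf h₀).const_mul (a / A)
  have i1 := (holder_int hf h₁).const_mul ((1 - a) / B)
  have h3 := integral_mono (holder_int hf hr) ((i0.add i1).const_mul (A ^ a * B ^ (1 - a))) hp
  simp only [Pi.add_apply] at h3
  rw [integral_const_mul, integral_add i0 i1, integral_const_mul, integral_const_mul, hAe, hBe,
    div_mul_cancel₀ _ hA.ne', div_mul_cancel₀ _ hB.ne', add_sub_cancel, mul_one] at h3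
  refine (Real.log_le_log hC h3).trans_eq ?_
  rw [Real.log_mul (by positivity) (by positivity), Real.log_rpow hA, Real.log_rpow hB]

theorem holder_scale {f : V → ℝ} (hf : Pos f) {r s : ℝ} (hr : 0 ≤ r) (h0 : 0 ≤ s) (h1 : s ≤ 1) :
    Lm f (s * r) ≤ s * Lm f r := by
  have h := Lm_convex hf hr le_rfl h0 h1
  rwa [holder_zero, mul_zero, add_zero, add_zero] at h

theorem Δ_nonneg {m : ℕ} (h1 : 1 ≤ m) {f : V → ℝ} (hf : Pos f) : 0 ≤ Δ m f := by
  have hm : (1 : ℝ) ≤ m := by exact_mod_cast h1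
  have hp : (m : ℝ) / (m + 2) ≤ 1 := by
    rw [div_le_one (by linarith)]
    linarith
  have h := holder_scale hf (r := ((m : ℝ) + 2) / m) (s := (m / (m + 2)) ^ 2) (by positivity)
    (by positivity) (pow_le_one₀ (by positivity) hp)
  rw [show ((m : ℝ) / (m + 2)) ^ 2 * ((m + 2) / m) = m / (m + 2) by field_simp] at h
  have h2 := mul_le_mul_of_nonneg_left h (by positivity : 0 ≤ ((m : ℝ) + 2) / m)
  unfold Δ
  refine sub_nonneg.2 (h2.trans_eq ?_)
  field_simp

theorem Δ_le {m : ℕ} (h1 : 1 ≤ m) {f : V → ℝ} (hf : Pos f) {c C : ℝ} (hc : 0 < c)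
    (h : ∀ x, c ≤ f x ∧ f x ≤ C) : Δ m f ≤ Real.log (C / c) := by
  have hm : (1 : ℝ) ≤ m := by exact_mod_cast h1
  have hC : 0 < C := hc.trans_le ((h 0).1.trans (h 0).2)
  have hu : ∀ r : ℝ, 0 ≤ r → Lm f r ≤ r * Real.log C := by
    intro r hr
    have h2 : ∫ x, f x ^ r ∂(stdGaussian V) ≤ ∫ _x, C ^ r ∂(stdGaussian V) :=
      integral_mono (holder_int hf hr) (integrable_const _) fun x =>
        Real.rpow_le_rpow (hf.pos x).le (h x).2 hr
    simp only [integral_const, probReal_univ, one_smul] at h2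
    rw [← Real.log_rpow hC]
    exact Real.log_le_log (holder_pos (hf.rpow hr)) h2
  have hl : ∀ r : ℝ, 0 ≤ r → r * Real.log c ≤ Lm f r := by
    intro r hr
    have h2 : ∫ _x, c ^ r ∂(stdGaussian V) ≤ ∫ x, f x ^ r ∂(stdGaussian V) :=
      integral_mono (integrable_const _) (holder_int hf hr) fun x =>
        Real.rpow_le_rpow hc.le (h x).1 hr
    simp only [integral_const, probReal_univ, one_smul] at h2
    rw [← Real.log_rpow hc]
    exact Real.log_le_log (by positivity) h2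
  have hP : 0 < ((m : ℝ) + 2) / m := by positivity
  have h2 : Lm f (((m : ℝ) + 2) / m) / (((m : ℝ) + 2) / m) ≤ Real.log C := by
    rw [div_le_iff₀ hP, mul_comm]
    exact hu _ hP.le
  have h3 := mul_le_mul_of_nonneg_left (hl ((m : ℝ) / (m + 2)) (by positivity)) hP.le
  have h4 : ((m : ℝ) + 2) / m * (m / (m + 2) * Real.log c) = Real.log c := by field_simp
  rw [Real.log_div hC.ne' hc.ne']
  unfold Δ
  linarith only [h2, h3, h4]

theorem holder_up {m i : ℕ} (hm : finrank ℝ V = m + 1) (hi : 1 ≤ i) (him : i ≤ m) {f : V → ℝ}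
    (hf : Den f) : Lm (sk i f) (((m : ℝ) + 2) / i) ≤ m * Lm f (((m : ℝ) + 2) / m) := by
  have h1 : 1 ≤ m := hi.trans him
  have hm' : (1 : ℝ) ≤ m := by exact_mod_cast h1
  have hi' : (1 : ℝ) ≤ i := by exact_mod_cast hi
  have hP : 0 ≤ ((m : ℝ) + 2) / m := by positivity
  have hQ : 0 ≤ ((m : ℝ) + 2) / i := by positivity
  have hg := den_sk hm h1 him hf
  have hF := hf.rpow hP
  have h2 : ∫ y, sk i f y ^ (((m : ℝ) + 2) / i) ∂(stdGaussian V)
      ≤ ∫ y, sk m (fun x => f x ^ (((m : ℝ) + 2) / m)) y ∂(stdGaussian V) := by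
    refine integral_mono_ae (holder_int hg.toPos hQ)
      ((den_sk hm h1 le_rfl hF).toPos.bd.integrable _) ?_
    filter_upwards [ae_ne_zero (V := V) (by omega)] with y hy
    have h3 := le_sk hm h1 le_rfl hF hy
    have e : (fun x => (f x ^ (((m : ℝ) + 2) / m)) ^ ((m : ℝ) / (m + 2))) = f := by
      funext x
      rw [← Real.rpow_mul (hf.toPos.pos x).le,
        show ((m : ℝ) + 2) / m * (m / (m + 2)) = 1 by field_simp, Real.rpow_one]
    rw [e] at h3
    refine le_trans ?_ h3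
    refine (Real.rpow_le_rpow (hg.toPos.pos y).le (sk_le hm h1 him hf hy) hQ).trans_eq ?_
    rw [← Real.rpow_natCast, ← Real.rpow_mul ((pos_Rd hf.toPos).pos y).le]
    congr 1
    field_simp
  have h4 := Real.log_le_log (holder_pos (hg.toPos.rpow hQ))
    (h2.trans (integral_sk_le hm h1 le_rfl hF))
  rwa [Real.log_pow] at h4

theorem holder_low {m i : ℕ} (hm : finrank ℝ V = m + 1) (hi : 1 ≤ i) (him : i ≤ m) {f : V → ℝ}
    (hf : Den f) : i * Lm f ((m : ℝ) / (m + 2)) ≤ Lm (sk i f) ((m : ℝ) / (m + 2)) := by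
  have h1 : 1 ≤ m := hi.trans him
  have hm' : (1 : ℝ) ≤ m := by exact_mod_cast h1
  have hi' : (1 : ℝ) ≤ i := by exact_mod_cast hi
  have hp : 0 ≤ (m : ℝ) / (m + 2) := by positivity
  have hq : 0 ≤ (i : ℝ)⁻¹ * ((m : ℝ) / (m + 2)) := by positivity
  have hg := den_sk hm h1 him hf
  have hF := hf.rpow hp
  have hR := pos_Rd hF.toPos
  have h2 : ∫ y, Rd (fun x => f x ^ ((m : ℝ) / (m + 2))) y ∂(stdGaussian V)
      ≤ ∫ y, sk i f y ^ ((i : ℝ)⁻¹ * ((m : ℝ) / (m + 2))) ∂(stdGaussian V) := by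
    refine integral_mono_ae (hR.bd.integrable _) (holder_int hg.toPos hq) ?_
    filter_upwards [ae_ne_zero (V := V) (by omega)] with y hy
    have h3 := Real.rpow_le_rpow (Real.rpow_nonneg (hR.pos y).le _) (le_sk hm h1 him hf hy) hq
    rw [← Real.rpow_mul (hR.pos y).le,
      show (i : ℝ) * (m + 2) / m * ((i : ℝ)⁻¹ * (m / (m + 2))) = 1 by field_simp,
      Real.rpow_one] at h3
    exact h3
  have h4 := Real.log_le_log (holder_pos hF.toPos) ((le_integral_Rd hm h1 hF).trans h2)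
  have h5 := holder_scale hg.toPos hp (s := (i : ℝ)⁻¹) (by positivity) (inv_le_one_of_one_le₀ hi')
  have h6 := mul_le_mul_of_nonneg_left (h4.trans h5) (by positivity : (0 : ℝ) ≤ i)
  rwa [← mul_assoc, mul_inv_cancel₀ (by positivity), one_mul] at h6

theorem Δ_sk_le {m i : ℕ} (hm : finrank ℝ V = m + 1) (hi : 1 ≤ i) (hn : 5 * i ≤ m + 3) :
    ∃ κ : ℝ, 0 ≤ κ ∧ κ < 1 ∧ ∀ f : V → ℝ, Den f → Δ m (sk i f) ≤ κ * Δ m f := by
  have him : i ≤ m := by omega
  have h1 : 1 ≤ m := hi.trans him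
  have hm' : (1 : ℝ) ≤ m := by exact_mod_cast h1
  have hi' : (1 : ℝ) ≤ i := by exact_mod_cast hi
  have hn' : 5 * (i : ℝ) ≤ m + 3 := by exact_mod_cast hn
  have hk : 4 * ((m : ℝ) + 1) * i < (m + 2) ^ 2 - i * m := by
    have := mul_le_mul_of_nonneg_right hn' (by positivity : (0 : ℝ) ≤ 5 * m + 4)
    linarith only [this, hm', show ((m : ℝ) + 2) ^ 2 = m * m + 4 * m + 4 by ring]
  have hD : 0 < ((m : ℝ) + 2) ^ 2 - i * m := lt_trans (by positivity) hk
  obtain ⟨κ, hκ⟩ : ∃ κ : ℝ, κ = 4 * ((m : ℝ) + 1) * i / ((m + 2) ^ 2 - i * m) := ⟨_, rfl⟩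
  have k0 : 0 ≤ κ := by rw [hκ]; positivity
  have k1 : κ < 1 := by rw [hκ]; exact (div_lt_one hD).2 hk
  refine ⟨κ, k0, k1, fun f hf => ?_⟩
  have hg := den_sk hm h1 him hf
  have b0 : 0 ≤ κ / m := by positivity
  have b1 : κ / m ≤ 1 := by
    rw [div_le_one (by linarith)]
    linarith
  have e : κ / m * (((m : ℝ) + 2) / i) + (1 - κ / m) * ((m : ℝ) / (m + 2)) = (m + 2) / m := by
    have e0 : κ * (((m : ℝ) + 2) ^ 2 - i * m) = 4 * ((m : ℝ) + 1) * i := by
      rw [hκ, div_mul_cancel₀ _ hD.ne']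
    field_simp
    linear_combination e0
  have h2 := Lm_convex hg.toPos (r₀ := ((m : ℝ) + 2) / i) (r₁ := (m : ℝ) / (m + 2))
    (by positivity) (by positivity) b0 b1
  rw [e] at h2
  have h3 := holder_up hm hi him hf
  have h4 := holder_low hm hi him hf
  unfold Δ
  generalize Lm (sk i f) (((m : ℝ) + 2) / i) = gQ at *
  generalize Lm (sk i f) (((m : ℝ) + 2) / m) = gP at *
  generalize Lm (sk i f) ((m : ℝ) / (m + 2)) = gp at *
  generalize Lm f (((m : ℝ) + 2) / m) = fP at *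
  generalize Lm f ((m : ℝ) / (m + 2)) = fp at *
  have hp : 0 ≤ (m : ℝ) / (m + 2) := by positivity
  have e1 : ∀ t : ℝ, t / (((m : ℝ) + 2) / m) = m / (m + 2) * t := fun t => by field_simp
  have e2 : ((m : ℝ) + 2) / m = κ / m * ((m + 2) / i) + (1 - κ / m) * (m / (m + 2)) := e.symm
  have a1 := mul_le_mul_of_nonneg_left h2 hp
  have a2 := mul_le_mul_of_nonneg_left h3 (mul_nonneg hp b0)
  have a3 := mul_le_mul_of_nonneg_left h4
    (by positivity : 0 ≤ κ / m * (((m : ℝ) + 2) / i))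
  have e3 : (m : ℝ) / (m + 2) * (κ / m) * (m * fP) = κ * (m / (m + 2) * fP) := by field_simp
  have e4 : κ / m * (((m : ℝ) + 2) / i) * (i * fp) = κ * ((m + 2) / m * fp) := by field_simp
  have e5 : ((m : ℝ) + 2) / m * gp
      = κ / m * ((m + 2) / i) * gp + (1 - κ / m) * (m / (m + 2)) * gp := by
    rw [← add_mul, e]
  rw [e1, e1]
  linarith only [a1, a2, a3, e3, e4, e5]

/-- a quantitative form of the Bernoulli inequality -/
theorem holder_bern {P d t : ℝ} (hP : 1 < P) (hd : 0 < d) (ht : 0 < t) :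
    |t - 1| ≤ (t ^ P - 1 - P * (t - 1)) / (2 * d * (P - 1)) + d * (t + 1) := by
  obtain ⟨s, hs, rfl⟩ : ∃ s : ℝ, 0 < s ∧ t = s ^ 2 :=
    ⟨√t, Real.sqrt_pos.2 ht, (Real.sq_sqrt ht.le).symm⟩
  have h1 := one_add_mul_self_le_rpow_one_add (s := s - 1) (by linarith) (p := 2 * P - 1)
    (by linarith)
  have e : (s ^ 2) ^ P = s * s ^ (2 * P - 1) := by
    rw [← Real.rpow_natCast, ← Real.rpow_mul hs.le, Real.rpow_sub hs, Real.rpow_one]
    push_cast
    field_simp
  rw [add_sub_cancel] at h1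
  have h2 := mul_le_mul_of_nonneg_left h1 hs.le
  have h3 : (s - 1) ^ 2 / (2 * d) ≤ ((s ^ 2) ^ P - 1 - P * (s ^ 2 - 1)) / (2 * d * (P - 1)) := by
    have hP' : 0 < P - 1 := by linarith
    rw [← mul_div_mul_right _ _ hP'.ne']
    refine div_le_div_of_nonneg_right ?_ (by positivity)
    rw [e]
    linarith only [h2]
  refine le_trans ?_ (add_le_add_left h3 _)
  have h4 : |s ^ 2 - 1| = |s - 1| * (s + 1) := by
    rw [show s ^ 2 - 1 = (s - 1) * (s + 1) by ring, abs_mul, abs_of_pos (by linarith : 0 < s + 1)]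
  rw [h4, ← sq_abs (s - 1)]
  generalize |s - 1| = w
  have h5 : w ^ 2 / (2 * d) + d * (s ^ 2 + 1) - w * (s + 1)
      = (w - d * (s + 1)) ^ 2 / (2 * d) + d * (s - 1) ^ 2 / 2 := by
    field_simp
    ring
  have h6 : 0 ≤ (w - d * (s + 1)) ^ 2 / (2 * d) + d * (s - 1) ^ 2 / 2 := by positivity
  linarith only [h5, h6]

/-- closeness in mean -/
theorem holder_mean {m : ℕ} (h1 : 1 ≤ m) {η : ℝ} (hη : 0 < η) :
    ∃ δ : ℝ, 0 < δ ∧ ∀ f : V → ℝ, Pos f → Δ m f ≤ δ →
      ∫ x, |f x - ∫ y, f y ∂(stdGaussian V)| ∂(stdGaussian V) ≤ η * ∫ y, f y ∂(stdGaussian V) := by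
  have hm : (1 : ℝ) ≤ m := by exact_mod_cast h1
  obtain ⟨P, hPe⟩ : ∃ P : ℝ, P = ((m : ℝ) + 2) / m := ⟨_, rfl⟩
  have hP : 1 < P := by
    rw [hPe, lt_div_iff₀ (by linarith)]
    linarith
  have hP1 : 0 < P - 1 := by linarith
  have hP0 : 0 < P := by linarith
  have hK : 0 < η * (η / 4) * (P - 1) := by positivity
  refine ⟨Real.log (1 + η * (η / 4) * (P - 1)) / P,
    div_pos (Real.log_pos (by linarith)) hP0, fun f hf hΔ => ?_⟩
  have hM := holder_pos hf
  have hL : Lm f 1 = Real.log (∫ y, f y ∂(stdGaussian V)) := by simp [Lm]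
  have h2 := holder_scale hf zero_le_one (s := (m : ℝ) / (m + 2)) (by positivity) (by
    rw [div_le_one (by linarith)]
    linarith)
  rw [mul_one, hL] at h2
  have h3 := mul_le_mul_of_nonneg_left h2 hP0.le
  have hi := hf.bd.integrable (stdGaussian V)
  have hiP := holder_int hf hP0.le
  have hI := holder_pos (hf.rpow hP0.le)
  unfold Δ at hΔ
  rw [← hPe] at hΔ
  generalize hMe : ∫ y, f y ∂(stdGaussian V) = M at hM h3 ⊢
  have e : P * ((m : ℝ) / (m + 2) * Real.log M) = Real.log M := by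
    rw [hPe]
    field_simp
  have h4 : Lm f P ≤ Real.log (1 + η * (η / 4) * (P - 1)) + P * Real.log M := by
    have h5 : Lm f P / P ≤ Real.log (1 + η * (η / 4) * (P - 1)) / P + Real.log M := by
      linarith only [hΔ, h3, e]
    rw [div_le_iff₀ hP0, add_mul, div_mul_cancel₀ _ hP0.ne'] at h5
    linarith only [h5]
  have hMP : 0 < M ^ P := by positivity
  rw [← Real.log_rpow hM, ← Real.log_mul (by positivity) hMP.ne', Lm,
    Real.log_le_log_iff hI (by positivity)] at h4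
  have hp : ∀ x, |f x - M| ≤ M / (2 * (η / 4) * (P - 1) * M ^ P) * f x ^ P
      + ((η / 4 - P / (2 * (η / 4) * (P - 1))) * f x
        + M * ((P - 1) / (2 * (η / 4) * (P - 1)) + η / 4)) := by
    intro x
    have hx := hf.pos x
    have h5 := mul_le_mul_of_nonneg_left
      (holder_bern hP (d := η / 4) (t := f x / M) (by positivity) (by positivity)) hM.le
    have e1 : |f x - M| = M * |f x / M - 1| := by
      rw [← abs_of_pos hM, ← abs_mul, abs_of_pos hM]
      congr 1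
      field_simp
    rw [e1]
    refine h5.trans_eq ?_
    rw [Real.div_rpow hx.le hM.le]
    field_simp
    ring
  have i1 := hiP.const_mul (M / (2 * (η / 4) * (P - 1) * M ^ P))
  have i2 := hi.const_mul (η / 4 - P / (2 * (η / 4) * (P - 1)))
  have i3 : Integrable (fun _ : V => M * ((P - 1) / (2 * (η / 4) * (P - 1)) + η / 4))
      (stdGaussian V) := integrable_const _
  have h6 := integral_mono (hi.sub (integrable_const M)).abs (i1.add (i2.add i3)) hp
  simp only [Pi.add_apply, Pi.sub_apply] at h6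
  have i4 := integral_add i1 (i2.add i3)
  simp only [Pi.add_apply] at i4
  rw [i4, integral_add i2 i3, integral_const_mul, integral_const_mul,
    integral_const, probReal_univ, one_smul, hMe] at h6
  refine h6.trans ?_
  have h7 := mul_le_mul_of_nonneg_left h4
    (by positivity : 0 ≤ M / (2 * (η / 4) * (P - 1) * M ^ P))
  refine (add_le_add_left h7 _).trans_eq ?_
  field_simp
  ring

theorem hz_close {m : ℕ} (hm : finrank ℝ V = m + 1) (h1 : 1 ≤ m) {ε : ℝ} (hε : 0 < ε) :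
    ∃ δ : ℝ, 0 < δ ∧ ∀ f : V → ℝ, Den f → Δ m f ≤ δ → ∀ u u' : V, ‖u‖ = 1 → ‖u'‖ = 1 →
      hz f u ≤ (1 + ε) * hz f u' := by
  have hc := c0_pos
  obtain ⟨N, hN⟩ : ∃ N : ℝ, N = ∫ x, ‖x‖ ^ 1 ∂(stdGaussian V) := ⟨_, rfl⟩
  have hN0 : 0 ≤ N := by
    rw [hN]
    exact integral_nonneg fun x => by positivity
  obtain ⟨δ, hδ, h⟩ := holder_mean (V := V) h1 (η := ε * c0 / ((2 + ε) * (N + 1)))
    (by positivity)
  refine ⟨δ, hδ, fun f hf hΔ u u' hu hu' => ?_⟩
  have h2 := h f hf.toPos hΔ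
  have hM := holder_pos hf.toPos
  generalize ∫ y, f y ∂(stdGaussian V) = M at h2 hM
  obtain ⟨C, hC⟩ := hf.toPos.bd.bdd
  have hb : Bd fun x => |f x - M| := by
    refine ⟨(hf.meas.sub_const M).abs, C + |M|, fun x => ?_⟩
    rw [abs_abs]
    exact (abs_sub _ _).trans (add_le_add_left (hC x) _)
  have h3 := radial_indep (V := V) (by omega) 1 hb (fun x => abs_nonneg _)
    fun t ht x => by rw [hf.hom t ht]
  rw [← hN] at h3
  have key : ∀ w : V, ‖w‖ = 1 → |hz f w - c0 * M| ≤ N * (ε * c0 / ((2 + ε) * (N + 1)) * M) := by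
    intro w hw
    have i1 : Integrable (fun y => |⟪w, y⟫| * f y) (stdGaussian V) :=
      (integrable_abs_inner w).mul_bdd hf.meas.aestronglyMeasurable (c := C) (ae_of_all _ hC)
    have i2 := (integrable_abs_inner w).mul_const M
    have i3 : Integrable (fun x : V => ‖x‖ ^ 1 * |f x - M|) (stdGaussian V) := by
      obtain ⟨C', hC'⟩ := hb.bdd
      exact (integrable_norm_pow 1).mul_bdd hb.meas.aestronglyMeasurable (c := C')
        (ae_of_all _ hC')
    have e : hz f w - c0 * M = ∫ y, (|⟪w, y⟫| * f y - |⟪w, y⟫| * M) ∂(stdGaussian V) := by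
      rw [integral_sub i1 i2, integral_mul_const, integral_abs_inner, hw, mul_one, hz]
    rw [e]
    refine abs_integral_le_integral_abs.trans ?_
    refine le_trans (integral_mono (i1.sub i2).abs i3 fun y => ?_) ?_
    · beta_reduce
      rw [← mul_sub, abs_mul, abs_abs, pow_one]
      refine mul_le_mul_of_nonneg_right ?_ (abs_nonneg _)
      simpa [hw] using abs_real_inner_le_norm w y
    · rw [h3]
      exact mul_le_mul_of_nonneg_left h2 hN0
  have k1 := (abs_le.1 (key u hu)).2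
  have k2 := mul_le_mul_of_nonneg_left (abs_le.1 (key u' hu')).1 (by linarith : 0 ≤ 1 + ε)
  have k3 : (2 + ε) * (N * (ε * c0 / ((2 + ε) * (N + 1)) * M)) ≤ ε * c0 * M := by
    have e : (2 + ε) * (N * (ε * c0 / ((2 + ε) * (N + 1)) * M)) = N / (N + 1) * (ε * c0 * M) := by
      field_simp
    rw [e]
    refine mul_le_of_le_one_left (by positivity) ?_
    rw [div_le_one (by linarith)]
    linarith
  linarith only [k1, k2, k3]

end Pool.Agent.P.MP_181257_gt
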