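import Pool.Agent.P.MP_181257_gt.Haar

/-! The inertia inequality: determinant of second moments against an Lp norm. -/

set_option autoImplicit false
set_option linter.unusedSectionVars false

open MeasureTheory ProbabilityTheory Module Set Filter Topology
open scoped RealInnerProductSpace ENNReal Pointwise Matrix

noncomputable section

namespace Pool.Agent.P.MP_181257_gt

variable {V : Type} [NormedAddCommGroup V] [InnerProductSpace ℝ V] [FiniteDimensional ℝ V]
  [MeasurableSpace V] [BorelSpace V]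

theorem inertia_ne (B : V →ₗ[ℝ] V) (hB : LinearMap.det B = 1) {x : V} (hx : x ≠ 0) :
    B x ≠ 0 := by
  intro h
  have : LinearMap.ker B ≠ ⊥ := by
    intro hk
    exact hx (by simpa [hk] using (LinearMap.mem_ker.2 h : x ∈ LinearMap.ker B))
  rw [← LinearMap.det_eq_zero_iff_ker_ne_bot, hB] at this
  exact one_ne_zero this

theorem inertia_haar (B : V →ₗ[ℝ] V) (hB : LinearMap.det B = 1) {e : V} (he : ‖e‖ = 1) :
    ∫⁻ g, ENNReal.ofReal (‖B (ap g e)‖⁻¹ ^ finrank ℝ V) ∂(haar V) = 1 := by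
  have hBc : Continuous B := B.continuous_of_finiteDimensional
  have hS : MeasurableSet (B ⁻¹' Metric.closedBall (0 : V) 1) :=
    hBc.measurable Metric.isClosed_closedBall.measurableSet
  have h1 := polar (volume : Measure V) mp_ap_volume he
    (F := (B ⁻¹' Metric.closedBall (0 : V) 1).indicator 1) (measurable_one.indicator hS)
  rw [lintegral_indicator_one hS, Measure.addHaar_preimage_linearMap _ (by rw [hB]; simp), hB]
    at h1
  have h2 : ∀ g : OG V, ∫⁻ x : V, (B ⁻¹' Metric.closedBall (0 : V) 1).indicator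
      (1 : V → ℝ≥0∞) (‖x‖ • ap g e)
      = ENNReal.ofReal (‖B (ap g e)‖⁻¹ ^ finrank ℝ V) * volume (Metric.closedBall (0 : V) 1) := by
    intro g
    have hne : ap g e ≠ 0 := by
      intro h
      have := norm_ap g e
      rw [h, norm_zero, he] at this
      exact zero_ne_one this
    have hp : 0 < ‖B (ap g e)‖ := norm_pos_iff.2 (inertia_ne B hB hne)
    rw [← Measure.addHaar_closedBall' _ (0 : V) (inv_nonneg.2 hp.le),
      ← lintegral_indicator_one Metric.isClosed_closedBall.measurableSet]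
    refine lintegral_congr fun x => ?_
    have : ‖x‖ • ap g e ∈ B ⁻¹' Metric.closedBall (0 : V) 1
        ↔ x ∈ Metric.closedBall (0 : V) ‖B (ap g e)‖⁻¹ := by
      simp only [mem_preimage, mem_closedBall_zero_iff, map_smul, norm_smul, norm_norm]
      rw [← one_div, le_div_iff₀ hp]
    by_cases hx : x ∈ Metric.closedBall (0 : V) ‖B (ap g e)‖⁻¹
    · rw [indicator_of_mem hx, indicator_of_mem (this.2 hx)]
      rfl
    · rw [indicator_of_notMem hx, indicator_of_notMem (fun h => hx (this.1 h))]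
  simp only [h2] at h1
  have hm : Measurable fun g : OG V => ENNReal.ofReal (‖B (ap g e)‖⁻¹ ^ finrank ℝ V) := by
    have : Measurable fun g : OG V => B (ap g e) :=
      hBc.measurable.comp (measurable_ap measurable_id measurable_const)
    fun_prop
  rw [lintegral_mul_const _ hm] at h1
  have h0 : volume (Metric.closedBall (0 : V) 1) ≠ 0 :=
    (Metric.measure_closedBall_pos _ _ one_pos).ne'
  have ht : volume (Metric.closedBall (0 : V) 1) ≠ ∞ := measure_closedBall_lt_top.ne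
  simp only [inv_one, abs_one, ENNReal.ofReal_one] at h1
  exact ((ENNReal.mul_left_inj h0 ht).1 h1).symm

theorem inertia_gauss (hn : 1 ≤ finrank ℝ V) (B : V →ₗ[ℝ] V) (hB : LinearMap.det B = 1) {e : V}
    (he : ‖e‖ = 1) :
    ∫⁻ x, ENNReal.ofReal ((‖x‖ / ‖B x‖) ^ finrank ℝ V) ∂(stdGaussian V) = 1 := by
  have hBc : Continuous B := B.continuous_of_finiteDimensional
  have hm : Measurable fun x : V => ENNReal.ofReal ((‖x‖ / ‖B x‖) ^ finrank ℝ V) := by
    have := hBc.measurable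
    fun_prop
  rw [polar (stdGaussian V) mp_ap he hm, ← inertia_haar B hB he]
  refine lintegral_congr fun g => ?_
  rw [← mul_one (ENNReal.ofReal (‖B (ap g e)‖⁻¹ ^ finrank ℝ V)),
    ← measure_univ (μ := stdGaussian V), ← lintegral_const]
  refine lintegral_congr_ae ?_
  filter_upwards [ae_ne_zero hn] with x hx
  have : ‖x‖ ≠ 0 := norm_ne_zero_iff.2 hx
  congr 2
  rw [map_smul, norm_smul, norm_smul, norm_norm, norm_ap, he, mul_one, div_mul_eq_div_div,
    div_self this, one_div]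

theorem inertia_exists {m : ℕ} (b : OrthonormalBasis (Fin m) ℝ V) (β : Fin m → ℝ)
    (hβ : ∏ l, β l = 1) :
    ∃ B : V →ₗ[ℝ] V, LinearMap.det B = 1 ∧ ∀ x, ‖B x‖ ^ 2 = ∑ l, β l ^ 2 * ⟪b l, x⟫ ^ 2 := by
  refine ⟨Matrix.toLin b.toBasis b.toBasis (Matrix.diagonal β), ?_, fun x => ?_⟩
  · rw [LinearMap.det_toLin, Matrix.det_diagonal, hβ]
  · rw [← b.sum_sq_inner_right]
    refine Finset.sum_congr rfl fun l _ => ?_
    rw [Matrix.toLin_apply]
    simp only [OrthonormalBasis.coe_toBasis]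
    rw [b.orthonormal.inner_right_fintype, Matrix.mulVec_diagonal,
      OrthonormalBasis.coe_toBasis_repr_apply, OrthonormalBasis.repr_apply_apply, mul_pow]

theorem inertia_int {f : V → ℝ} (hf : Den f) (a : V) :
    Integrable (fun x => ⟪a, x⟫ ^ 2 * f x) (stdGaussian V) := by
  obtain ⟨C, hC⟩ := hf.toPos.bd.bdd
  have hm := hf.meas
  refine ((integrable_norm_pow (V := V) 2).const_mul (‖a‖ ^ 2 * C)).mono'
    (by fun_prop : Measurable fun x => ⟪a, x⟫ ^ 2 * f x).aestronglyMeasurable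
    (ae_of_all _ fun x => ?_)
  rw [Real.norm_eq_abs, abs_mul, abs_pow]
  have h1 : |⟪a, x⟫| ^ 2 ≤ (‖a‖ * ‖x‖) ^ 2 :=
    pow_le_pow_left₀ (abs_nonneg _) (abs_real_inner_le_norm a x) 2
  calc |⟪a, x⟫| ^ 2 * |f x| ≤ (‖a‖ * ‖x‖) ^ 2 * C :=
        mul_le_mul h1 (hC x) (abs_nonneg _) (by positivity)
    _ = ‖a‖ ^ 2 * C * ‖x‖ ^ 2 := by ring

theorem inertia_pos {f : V → ℝ} (hf : Den f) {a : V} (ha : a ≠ 0) :
    0 < ∫ x, ⟪a, x⟫ ^ 2 * f x ∂(stdGaussian V) := by
  have h0 : 0 ≤ fun x => ⟪a, x⟫ ^ 2 * f x := fun x =>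
    mul_nonneg (sq_nonneg _) (hf.toPos.pos x).le
  refine lt_of_le_of_ne (integral_nonneg h0) fun h => ?_
  have h1 := (integral_eq_zero_iff_of_nonneg h0 (inertia_int hf a)).1 h.symm
  have h2 : ∀ᵐ x ∂(stdGaussian V), False := by
    filter_upwards [h1, ae_inner_ne_zero ha] with x hx hx'
    exact mul_ne_zero (pow_ne_zero 2 hx') (hf.toPos.pos x).ne' hx
  obtain ⟨_, h3⟩ := h2.exists
  exact h3

theorem inertia_amgm {m : ℕ} {y s lam : ℝ} (hy : 0 < y) (hs : 0 < s) (hl : 0 < lam) :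
    y ^ ((m : ℝ) / (m + 2)) ≤ lam ^ ((m : ℝ) / (m + 2)) *
      ((m : ℝ) / (m + 2) * (lam⁻¹ * (y * s⁻¹ ^ 2)) + 2 / (m + 2) * s ^ m) := by
  have hm : (0 : ℝ) < m + 2 := by positivity
  refine le_trans (le_of_eq ?_) (mul_le_mul_of_nonneg_left
    (Real.geom_mean_le_arith_mean2_weighted (by positivity) (by positivity) (by positivity)
      (by positivity) (by field_simp)) (by positivity))
  have e1 : (s⁻¹ ^ 2) ^ ((m : ℝ) / (m + 2)) * (s ^ m) ^ (2 / ((m : ℝ) + 2)) = 1 := by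
    rw [← Real.rpow_natCast s⁻¹, ← Real.rpow_natCast s, ← Real.rpow_mul (inv_nonneg.2 hs.le),
      ← Real.rpow_mul hs.le, Real.inv_rpow hs.le]
    have : ((2 : ℕ) : ℝ) * ((m : ℝ) / (m + 2)) = m * (2 / ((m : ℝ) + 2)) := by
      push_cast
      ring
    rw [this, inv_mul_cancel₀ (Real.rpow_pos_of_pos hs _).ne']
  have e2 : lam ^ ((m : ℝ) / (m + 2)) * lam⁻¹ ^ ((m : ℝ) / (m + 2)) = 1 := by
    rw [Real.inv_rpow hl.le, mul_inv_cancel₀ (Real.rpow_pos_of_pos hl _).ne']
  rw [Real.mul_rpow (by positivity) (by positivity), Real.mul_rpow hy.le (by positivity)]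
  calc y ^ ((m : ℝ) / (m + 2)) = (lam ^ ((m : ℝ) / (m + 2)) * lam⁻¹ ^ ((m : ℝ) / (m + 2))) *
        y ^ ((m : ℝ) / (m + 2)) *
        ((s⁻¹ ^ 2) ^ ((m : ℝ) / (m + 2)) * (s ^ m) ^ (2 / ((m : ℝ) + 2))) := by
        rw [e1, e2]; ring
    _ = _ := by ring

theorem inertia {m : ℕ} (hm : finrank ℝ V = m) (h1 : 1 ≤ m) (b : OrthonormalBasis (Fin m) ℝ V)
    {f : V → ℝ} (hf : Den f) :
    (∫ x, f x ^ ((m : ℝ) / (m + 2)) ∂(stdGaussian V)) ^ (m + 2)
      ≤ ∏ l, ∫ x, ⟪b l, x⟫ ^ 2 * f x ∂(stdGaussian V) := by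
  have hn : 1 ≤ finrank ℝ V := hm ▸ h1
  have hm0 : (0 : ℝ) < m := by exact_mod_cast h1
  set r : Fin m → ℝ := fun l => ∫ x, ⟪b l, x⟫ ^ 2 * f x ∂(stdGaussian V) with hr
  have hrp : ∀ l, 0 < r l := fun l => inertia_pos hf (b.orthonormal.ne_zero l)
  set P : ℝ := ∏ l, r l with hP
  have hPp : 0 < P := Finset.prod_pos fun l _ => hrp l
  set lam : ℝ := P ^ ((m : ℝ)⁻¹) with hlam
  have hl : 0 < lam := Real.rpow_pos_of_pos hPp _
  have hlm : lam ^ m = P := Real.rpow_inv_natCast_pow hPp.le (by omega)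
  obtain ⟨B, hB, hBn⟩ := inertia_exists b (fun l => √(lam / r l)) (by
    rw [← Real.sqrt_prod _ (fun l _ => (div_pos hl (hrp l)).le), Finset.prod_div_distrib,
      Finset.prod_const, Finset.card_univ, Fintype.card_fin, hlm, ← hP, div_self hPp.ne',
      Real.sqrt_one])
  have hBn' : ∀ x, ‖B x‖ ^ 2 = ∑ l, lam / r l * ⟪b l, x⟫ ^ 2 := fun x => by
    rw [hBn]
    exact Finset.sum_congr rfl fun l _ => by rw [Real.sq_sqrt (div_pos hl (hrp l)).le]
  have hBc : Continuous B := B.continuous_of_finiteDimensional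
  have hBm := hBc.measurable
  have hfm := hf.meas
  -- the function `ψ = f t ^ 2`
  set ψ : V → ℝ := fun x => f x * (‖x‖ / ‖B x‖)⁻¹ ^ 2 with hψ
  have hψ0 : ∀ x, 0 ≤ ψ x := fun x => mul_nonneg (hf.toPos.pos x).le (sq_nonneg _)
  have hψb : Bd ψ := by
    obtain ⟨C, hC⟩ := hf.toPos.bd.bdd
    refine ⟨by fun_prop, C * ‖LinearMap.toContinuousLinearMap B‖ ^ 2, fun x => ?_⟩
    rw [abs_of_nonneg (hψ0 x)]
    have hC0 : 0 ≤ C := (abs_nonneg _).trans (hC 0)
    refine mul_le_mul ((le_abs_self _).trans (hC x)) ?_ (sq_nonneg _) hC0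
    refine pow_le_pow_left₀ (by positivity) ?_ 2
    rw [inv_div]
    exact (LinearMap.toContinuousLinearMap B).ratio_le_opNorm x
  have hψh : ∀ t : ℝ, 0 < t → ∀ x, ψ (t • x) = ψ x := fun t ht x => by
    simp only [hψ, hf.hom t ht, map_smul, norm_smul]
    rw [mul_div_mul_left _ _ (norm_ne_zero_iff.2 ht.ne')]
  have hψi : ∫ x, ψ x ∂(stdGaussian V) = lam := by
    have h := radial_indep hn 2 hψb hψ0 hψh
    rw [integral_norm_sq, hm] at h
    have h2 : ∫ x, ‖x‖ ^ 2 * ψ x ∂(stdGaussian V) = m * lam := by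
      have : ∀ x, ‖x‖ ^ 2 * ψ x = ∑ l, lam / r l * (⟪b l, x⟫ ^ 2 * f x) := by
        intro x
        have e : ‖x‖ ^ 2 * ψ x = ‖B x‖ ^ 2 * f x := by
          by_cases hx : x = 0
          · simp [hx]
          · have : ‖x‖ ≠ 0 := norm_ne_zero_iff.2 hx
            simp only [hψ, inv_div]
            field_simp
        rw [e, hBn', Finset.sum_mul]
        exact Finset.sum_congr rfl fun l _ => mul_assoc _ _ _
      simp only [this]
      rw [integral_finsetSum _ fun l _ => (inertia_int hf (b l)).const_mul _]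
      simp only [integral_const_mul]
      rw [Finset.sum_congr rfl fun l _ => div_mul_cancel₀ lam (hrp l).ne']
      simp
    rw [h2] at h
    exact (mul_left_cancel₀ hm0.ne' h).symm
  -- the function `φ = t ^ (-m)`
  set φ : V → ℝ := fun x => (‖x‖ / ‖B x‖) ^ m with hφ
  have hφ0 : ∀ x, 0 ≤ φ x := fun x => by positivity
  have hφm : Measurable φ := by fun_prop
  have hφl : ∫⁻ x, ENNReal.ofReal (φ x) ∂(stdGaussian V) = 1 := by
    have := inertia_gauss hn B hB (b.orthonormal.norm_eq_one ⟨0, h1⟩)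
    rwa [hm] at this
  have hφi : Integrable φ (stdGaussian V) :=
    ⟨hφm.aestronglyMeasurable, (hasFiniteIntegral_iff_ofReal (ae_of_all _ hφ0)).2
      (by rw [hφl]; exact ENNReal.one_lt_top)⟩
  have hφ1 : ∫ x, φ x ∂(stdGaussian V) = 1 := by
    rw [integral_eq_lintegral_of_nonneg_ae (ae_of_all _ hφ0) hφm.aestronglyMeasurable, hφl]
    simp
  have hp0 : (0 : ℝ) ≤ (m : ℝ) / (m + 2) := by positivity
  have hψint : Integrable ψ (stdGaussian V) := hψb.integrable _
  have key : ∫ x, f x ^ ((m : ℝ) / (m + 2)) ∂(stdGaussian V) ≤ lam ^ ((m : ℝ) / (m + 2)) := by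
    calc ∫ x, f x ^ ((m : ℝ) / (m + 2)) ∂(stdGaussian V)
        ≤ ∫ x, lam ^ ((m : ℝ) / (m + 2)) *
          ((m : ℝ) / (m + 2) * (lam⁻¹ * ψ x) + 2 / (m + 2) * φ x) ∂(stdGaussian V) := by
          refine integral_mono_ae ((hf.toPos.rpow hp0).bd.integrable _)
            ((((hψint.const_mul _).const_mul _).add (hφi.const_mul _)).const_mul _) ?_
          filter_upwards [ae_ne_zero hn] with x hx
          exact inertia_amgm (hf.toPos.pos x)
            (div_pos (norm_pos_iff.2 hx) (norm_pos_iff.2 (inertia_ne B hB hx))) hl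
      _ = lam ^ ((m : ℝ) / (m + 2)) := by
          rw [integral_const_mul, integral_add ((hψint.const_mul _).const_mul _) (hφi.const_mul _),
            integral_const_mul, integral_const_mul, integral_const_mul, hψi, hφ1,
            inv_mul_cancel₀ hl.ne']
          field_simp
  calc (∫ x, f x ^ ((m : ℝ) / (m + 2)) ∂(stdGaussian V)) ^ (m + 2)
      ≤ (lam ^ ((m : ℝ) / (m + 2))) ^ (m + 2) :=
        pow_le_pow_left₀ (integral_nonneg fun x => Real.rpow_nonneg (hf.toPos.pos x).le _) key _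
    _ = P := by
        rw [← Real.rpow_natCast, ← Real.rpow_mul hl.le, ← hlm, ← Real.rpow_natCast]
        congr 1
        push_cast
        field_simp

end Pool.Agent.P.MP_181257_gt
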