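import Pool.Agent.P.MP_181257_gt.Shadow
import Pool.Agent.P.MP_181257_gt.Haar

/-! Elementary properties of the intrinsic volumes, the positivity property. -/

set_option autoImplicit false
set_option linter.unusedSectionVars false

open MeasureTheory ProbabilityTheory Module Set Filter Topology
open scoped RealInnerProductSpace ENNReal Pointwise Matrix

noncomputable section

namespace Pool.Agent.P.MP_181257_gt

variable {V : Type} [NormedAddCommGroup V] [InnerProductSpace ℝ V] [FiniteDimensional ℝ V]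
  [MeasurableSpace V] [BorelSpace V]

theorem measurable_vol {k : ℕ} {M : Set V} (hM : IsCompact M) :
    Measurable fun g : Fin k → V => volume (lin g '' M) := by
  have : CompactSpace M := isCompact_iff_compactSpace.1 hM
  have hT : IsClosed {q : ((Fin k → V) × (Fin k → ℝ)) × M | lin q.1.1 (q.2 : V) = q.1.2} := by
    refine isClosed_eq ?_ (by fun_prop)
    refine continuous_pi fun j => ?_
    simp only [lin_apply]
    fun_prop
  have hS : IsClosed {p : (Fin k → V) × (Fin k → ℝ) | p.2 ∈ lin p.1 '' M} := by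
    convert isClosedMap_fst_of_compactSpace _ hT using 1
    ext p
    constructor
    · rintro ⟨x, hx, e⟩
      exact ⟨(p, ⟨x, hx⟩), e, rfl⟩
    · rintro ⟨⟨p', x, hx⟩, e, rfl⟩
      exact ⟨x, hx, e⟩
  exact measurable_measure_prodMk_left (ν := volume) hS.measurableSet

theorem integrable_vol {k : ℕ} {M : Set V} (hM : IsCompact M) :
    Integrable (fun g : Fin k → V => (volume (lin g '' M)).toReal) (γk V k) := by
  obtain ⟨R, hR0, hR⟩ := hM.isBounded.exists_pos_norm_le
  have hI : Integrable (fun g : Fin k → V => (2 * R) ^ k * ∏ j, ‖g j‖ ^ 1) (γk V k) :=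
    (integrable_prod_norm_pow k 1).const_mul _
  refine hI.mono' (measurable_vol hM).ennreal_toReal.aestronglyMeasurable (ae_of_all _ fun g => ?_)
  rw [Real.norm_of_nonneg ENNReal.toReal_nonneg]
  have hsub : lin g '' M ⊆ Icc (fun j => -(R * ‖g j‖)) (fun j => R * ‖g j‖) := by
    rintro _ ⟨x, hx, rfl⟩
    have key : ∀ j, |⟪g j, x⟫| ≤ R * ‖g j‖ := fun j =>
      (abs_real_inner_le_norm _ _).trans (by
        rw [mul_comm]
        exact mul_le_mul_of_nonneg_right (hR x hx) (norm_nonneg _))
    exact ⟨fun j => by simpa using (abs_le.1 (key j)).1, fun j => by simpa using (abs_le.1 (key j)).2⟩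
  have hle : (fun j => -(R * ‖g j‖)) ≤ fun j => R * ‖g j‖ := fun j => by
    have : 0 ≤ R * ‖g j‖ := by positivity
    simp only
    linarith
  calc (volume (lin g '' M)).toReal
      ≤ (volume (Icc (fun j => -(R * ‖g j‖)) (fun j => R * ‖g j‖))).toReal :=
        ENNReal.toReal_mono isCompact_Icc.measure_lt_top.ne (measure_mono hsub)
    _ = ∏ j, (R * ‖g j‖ - -(R * ‖g j‖)) := Real.volume_Icc_pi_toReal hle
    _ = ∏ j : Fin k, (2 * R) * ‖g j‖ ^ 1 := Finset.prod_congr rfl fun j _ => by ring
    _ = (2 * R) ^ k * ∏ j, ‖g j‖ ^ 1 := by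
        rw [Finset.prod_mul_distrib]
        simp

theorem intrinsicVol_nonneg (i : ℕ) (M : Set V) : 0 ≤ intrinsicVol i M := by
  rw [intrinsicVol_eq]
  exact integral_nonneg fun g => ENNReal.toReal_nonneg

theorem intrinsicVol_mono (i : ℕ) {M N : Set V} (hM : IsCompact M) (hN : IsCompact N)
    (h : M ⊆ N) : intrinsicVol i M ≤ intrinsicVol i N := by
  rw [intrinsicVol_eq, intrinsicVol_eq]
  refine integral_mono (integrable_vol hM) (integrable_vol hN) fun g => ?_
  exact ENNReal.toReal_mono (hN.image (lin g).continuous).measure_lt_top.ne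
    (measure_mono (image_mono h))

theorem intrinsicVol_smul (i : ℕ) (M : Set V) {t : ℝ} (ht : 0 ≤ t) :
    intrinsicVol i (t • M) = t ^ i * intrinsicVol i M := by
  rw [intrinsicVol_eq, intrinsicVol_eq, ← integral_const_mul]
  refine integral_congr_ae (ae_of_all _ fun g => ?_)
  have e : lin g '' (t • M) = t • (lin g '' M) := by
    ext y
    constructor
    · rintro ⟨_, ⟨x, hx, rfl⟩, rfl⟩
      exact ⟨lin g x, ⟨x, hx, rfl⟩, (map_smul _ _ _).symm⟩
    · rintro ⟨_, ⟨x, hx, rfl⟩, rfl⟩
      exact ⟨t • x, ⟨x, hx, rfl⟩, map_smul _ _ _⟩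
  simp only
  rw [e, Measure.addHaar_smul_of_nonneg _ ht, ENNReal.toReal_mul,
    ENNReal.toReal_ofReal (by positivity)]
  simp

theorem intrinsicVol_vadd (i : ℕ) (M : Set V) (x : V) :
    intrinsicVol i (x +ᵥ M) = intrinsicVol i M := by
  rw [intrinsicVol_eq, intrinsicVol_eq]
  refine integral_congr_ae (ae_of_all _ fun g => ?_)
  have e : lin g '' (x +ᵥ M) = (fun y => -lin g x + y) ⁻¹' (lin g '' M) := by
    ext y
    constructor
    · rintro ⟨_, ⟨z, hz, rfl⟩, rfl⟩
      exact ⟨z, hz, by simp⟩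
    · rintro ⟨z, hz, e⟩
      refine ⟨x + z, ⟨z, hz, rfl⟩, ?_⟩
      rw [map_add, e]
      simp
  simp only
  rw [e, measure_preimage_add]

theorem convex_Zs (h : V → ℝ) : Convex ℝ (Zs h) := by
  intro x hx y hy a b ha hb hab u hu
  rw [inner_add_left, real_inner_smul_left, real_inner_smul_left]
  have h1 := mul_le_mul_of_nonneg_left (hx u hu) ha
  have h2 := mul_le_mul_of_nonneg_left (hy u hu) hb
  have h3 : a * h u + b * h u = h u := by rw [← add_mul, hab, one_mul]
  linarith

theorem kub_norm_le_of_mem_Zs {h : V → ℝ} {B : ℝ} (hB : ∀ u, ‖u‖ = 1 → h u ≤ B) (h0 : 0 ≤ B) {x : V}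
    (hx : x ∈ Zs h) : ‖x‖ ≤ B := by
  by_cases hx0 : x = 0
  · simpa [hx0] using h0
  · have hn : ‖x‖ ≠ 0 := norm_ne_zero_iff.2 hx0
    have hu : ‖‖x‖⁻¹ • x‖ = 1 := norm_smul_inv_norm hx0
    have h1 := (hx _ hu).trans (hB _ hu)
    rw [real_inner_smul_right, real_inner_self_eq_norm_sq] at h1
    have e : ‖x‖⁻¹ * ‖x‖ ^ 2 = ‖x‖ := by field_simp
    rwa [e] at h1

theorem kub_continuous_pr (u : V) : Continuous (pr u) := by
  have : pr u = prL u := funext fun v => (prL_apply u v).symm
  rw [this]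
  exact (prL u).continuous

theorem isCompact_Zs {h : V → ℝ} {B : ℝ} (hB : ∀ u, ‖u‖ = 1 → h u ≤ B) : IsCompact (Zs h) := by
  refine Metric.isCompact_of_isClosed_isBounded ?_ ?_
  · have e : Zs h = ⋂ u : V, ⋂ _ : ‖u‖ = 1, {x : V | ⟪x, u⟫ ≤ h u} := by
      ext x
      simp [Zs]
    rw [e]
    exact isClosed_iInter fun u => isClosed_iInter fun _ =>
      isClosed_le (by fun_prop) continuous_const
  · refine (Metric.isBounded_closedBall (x := (0 : V)) (r := max B 0)).subset fun x hx => ?_
    rw [mem_closedBall_zero_iff]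
    exact kub_norm_le_of_mem_Zs (fun u hu => (hB u hu).trans (le_max_left _ _)) (le_max_right _ _) hx

theorem Zs_smul (h : V → ℝ) {t : ℝ} (ht : 0 < t) : Zs (fun u => t * h u) = t • Zs h := by
  ext x
  rw [mem_smul_set_iff_inv_smul_mem₀ ht.ne']
  simp only [Zs, mem_ofPred_eq, real_inner_smul_left]
  refine forall_congr' fun u => forall_congr' fun _ => ?_
  rw [inv_mul_le_iff₀ ht]

theorem Zs_congr {h h' : V → ℝ} (e : ∀ u, ‖u‖ = 1 → h u = h' u) : Zs h = Zs h' := by
  ext x
  simp only [Zs, mem_ofPred_eq]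
  refine forall_congr' fun u => forall_congr' fun hu => ?_
  rw [e u hu]

theorem Zs_const {r : ℝ} (hr : 0 ≤ r) : Zs (fun _ : V => r) = Metric.closedBall 0 r := by
  ext x
  rw [mem_closedBall_zero_iff]
  refine ⟨kub_norm_le_of_mem_Zs (fun _ _ => le_rfl) hr, fun hx u hu => ?_⟩
  refine (real_inner_le_norm _ _).trans ?_
  rwa [hu, mul_one]

theorem PP_congr (i : ℕ) {h h' : V → ℝ} (e : ∀ u, ‖u‖ = 1 → h u = h' u) : PP i h = PP i h' := by
  funext u
  simp only [PP, Zs_congr e]

theorem PP_smul (i : ℕ) (h : V → ℝ) {t : ℝ} (ht : 0 < t) (u : V) :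
    PP i (fun u => t * h u) u = t ^ i * PP i h u := by
  simp only [PP]
  rw [Zs_smul h ht, ← intrinsicVol_smul i _ ht.le]
  congr 1
  ext y
  constructor
  · rintro ⟨_, ⟨x, hx, rfl⟩, rfl⟩
    exact ⟨pr u x, ⟨x, hx, rfl⟩, (pr_smul _ _ _).symm⟩
  · rintro ⟨_, ⟨x, hx, rfl⟩, rfl⟩
    exact ⟨t • x, ⟨x, hx, rfl⟩, pr_smul _ _ _⟩

theorem PP_mono (i : ℕ) {h h' : V → ℝ} {B : ℝ} (hB : ∀ u, ‖u‖ = 1 → h' u ≤ B)
    (e : ∀ u, ‖u‖ = 1 → h u ≤ h' u) (u : V) : PP i h u ≤ PP i h' u := by
  refine intrinsicVol_mono i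
    ((isCompact_Zs fun v hv => (e v hv).trans (hB v hv)).image (kub_continuous_pr u))
    ((isCompact_Zs hB).image (kub_continuous_pr u)) (image_mono fun x hx v hv => ?_)
  exact (hx v hv).trans (e v hv)

theorem exists_bound_proj (i : ℕ) {K : Set V} (hK : IsCompact K) :
    ∃ B : ℝ, ∀ u : V, intrinsicVol i (pr u '' K) ≤ B := by
  obtain ⟨R, -, hR⟩ := hK.isBounded.exists_pos_norm_le
  refine ⟨intrinsicVol i (Metric.closedBall (0 : V) R), fun u => ?_⟩
  refine intrinsicVol_mono i (hK.image (kub_continuous_pr u)) (isCompact_closedBall _ _) ?_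
  rintro _ ⟨x, hx, rfl⟩
  rw [mem_closedBall_zero_iff]
  exact (norm_pr_le u x).trans (hR x hx)

/-- the positivity property of zonoid support functions -/
def Zon (h : V → ℝ) : Prop :=
  ∀ (ι : Type) (s : Finset ι) (c : ι → ℝ) (u : ι → V), (∀ j, ‖u j‖ = 1) →
    (∀ y : V, 0 ≤ ∑ j ∈ s, c j * |⟪u j, y⟫|) → 0 ≤ ∑ j ∈ s, c j * h (u j)

theorem integral_shad (i : ℕ) {L : Set V} (hL : IsCompact L) (hc : Convex ℝ L) {u : V}
    (hu : ‖u‖ = 1) :
    Integrable (fun g : Fin (i + 1) → V => shad (lin g '' L) (lin g u)) (γk V (i + 1)) ∧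
    ∫ g, shad (lin g '' L) (lin g u) ∂(γk V (i + 1))
      = (aN (i + 1)).toReal * intrinsicVol i (pr u '' L) := by
  have hseg : IsCompact (segment ℝ (-u) u) := by
    rw [segment_eq_image]
    exact isCompact_Icc.image (by fun_prop)
  have hLs : IsCompact (L + segment ℝ (-u) u) := hL.add hseg
  have hP : IsCompact (pr u '' L) := hL.image (kub_continuous_pr u)
  have e : ∀ g : Fin (i + 1) → V, shad (lin g '' L) (lin g u)
      = ((volume (lin g '' (L + segment ℝ (-u) u))).toReal - (volume (lin g '' L)).toReal) / 2 := by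
    intro g
    have h1 : lin g '' segment ℝ (-u) u = segment ℝ (-lin g u) (lin g u) := by
      have := image_segment ℝ (lin g).toLinearMap.toAffineMap (-u) u
      simpa using this
    rw [image_add, h1]
    rfl
  have hint : Integrable (fun g : Fin (i + 1) → V => shad (lin g '' L) (lin g u))
      (γk V (i + 1)) := by
    simp only [e]
    exact ((integrable_vol hLs).sub (integrable_vol hL)).div_const 2
  have hmeas : Measurable fun g : Fin (i + 1) → V => shad (lin g '' L) (lin g u) := by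
    simp only [e]
    exact ((measurable_vol hLs).ennreal_toReal.sub (measurable_vol hL).ennreal_toReal).div_const 2
  have hnn : ∀ g : Fin (i + 1) → V, 0 ≤ shad (lin g '' L) (lin g u) := by
    intro g
    rw [e]
    refine div_nonneg (sub_nonneg.2 ?_) zero_le_two
    refine ENNReal.toReal_mono (hLs.image (lin g).continuous).measure_lt_top.ne
      (measure_mono (image_mono fun x hx => ?_))
    refine ⟨x, hx, 0, ?_, add_zero x⟩
    exact ⟨1 / 2, 1 / 2, by norm_num, by norm_num, by norm_num, by simp⟩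
  refine ⟨hint, ?_⟩
  rw [integral_eq_lintegral_of_nonneg_ae (ae_of_all _ hnn) hint.aestronglyMeasurable,
    intrinsicVol_eq, integral_toReal (measurable_vol hP).aemeasurable
      (ae_of_all _ fun g => (hP.image (lin g).continuous).measure_lt_top), ← ENNReal.toReal_mul]
  congr 1
  refine core hu hmeas.ennreal_ofReal (measurable_vol hP) fun t g Q r hQ hr hQt => ?_
  set g' : Fin (i + 1) → V := fun l => pr u (g l) + t l • u with hg'
  have h1 : lin g' u = t := by
    funext l
    rw [lin_apply, hg']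
    simp only
    rw [inner_add_left, real_inner_smul_left, real_inner_self_eq_norm_sq, hu, real_inner_comm,
      inner_pr_self]
    simp
  have hdet : |Q.det| = 1 := by
    have h2 := congrArg Matrix.det hQ
    rw [Matrix.det_mul, Matrix.det_transpose, Matrix.det_one] at h2
    rcases mul_self_eq_one_iff.1 h2 with h | h <;> simp [h]
  have hdet0 : Q.det ≠ 0 := by
    intro h
    simp [h] at hdet
  have hC : IsCompact (lin g' '' L) := hL.image (lin g').continuous
  have h3 : (fun x => Fin.tail (Q *ᵥ x)) '' (lin g' '' L)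
      = lin (fun a : Fin i => ∑ l, Q a.succ l • g l) '' (pr u '' L) := by
    rw [image_image, image_image]
    refine image_congr fun x _ => ?_
    funext a
    have h4 : ∑ l, Q a.succ l * t l = 0 := by
      have := congrFun hQt a.succ
      simpa [Matrix.mulVec, dotProduct] using this
    simp only [Fin.tail, Matrix.mulVec, dotProduct, lin_apply, hg', inner_add_left,
      real_inner_smul_left, sum_inner, inner_pr_comm, mul_add, Finset.sum_add_distrib,
      ← mul_assoc, ← Finset.sum_mul, h4, zero_mul, add_zero]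
  have hcv : Convex ℝ (lin g' '' L) := hc.is_linear_image (lin g').toLinearMap.isLinear
  rw [h1, shad_eq hcv hC.isBounded (Or.inr hC)
    hdet0 hr hQt, hdet, div_one, h3, ENNReal.ofReal_mul hr,
    ofReal_measureReal (hP.image (lin _).continuous).measure_lt_top.ne]

theorem zon_proj (i : ℕ) {L : Set V} (hL : IsCompact L) (hc : Convex ℝ L) (hne : L.Nonempty) :
    Zon fun u => intrinsicVol i (pr u '' L) := by
  intro ι s c u hu h
  have := FiniteDimensional.complete ℝ V
  have h1 : ∀ g : Fin (i + 1) → V, 0 ≤ ∑ j ∈ s, c j * shad (lin g '' L) (lin g (u j)) := by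
    intro g
    refine shad_comb_nonneg (hL.image (lin g).continuous)
      (hc.is_linear_image (lin g).toLinearMap.isLinear) (hne.image _) s c _ fun ℓ => ?_
    have h2 := h ((InnerProductSpace.toDual ℝ V).symm (ℓ.comp (lin g)))
    refine h2.trans_eq (Finset.sum_congr rfl fun j _ => ?_)
    rw [real_inner_comm, InnerProductSpace.toDual_symm_apply]
    rfl
  have h3 : 0 ≤ ∫ g, ∑ j ∈ s, c j * shad (lin g '' L) (lin g (u j)) ∂(γk V (i + 1)) :=
    integral_nonneg h1
  rw [integral_finsetSum _ fun j _ => (integral_shad i hL hc (hu j)).1.const_mul _] at h3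
  have h4 : ∀ j ∈ s, ∫ g, c j * shad (lin g '' L) (lin g (u j)) ∂(γk V (i + 1))
      = (aN (i + 1)).toReal * (c j * intrinsicVol i (pr (u j) '' L)) := fun j _ => by
    rw [integral_const_mul, (integral_shad i hL hc (hu j)).2]
    ring
  rw [Finset.sum_congr rfl h4, ← Finset.mul_sum] at h3
  exact nonneg_of_mul_nonneg_right h3 (ENNReal.toReal_pos (aN_ne_zero i) (aN_ne_top _))

end Pool.Agent.P.MP_181257_gt
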