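import Pool.Agent.P.MP_181257_gt.Sym
import Pool.Agent.P.MP_181257_gt.Inertia

/-! Second moments of parallelepiped volumes, the bounds for sk. -/

set_option autoImplicit false
set_option linter.unusedSectionVars false

open MeasureTheory ProbabilityTheory Module Set Filter Topology
open scoped RealInnerProductSpace ENNReal Pointwise Matrix

noncomputable section

namespace Pool.Agent.P.MP_181257_gt

variable {V : Type} [NormedAddCommGroup V] [InnerProductSpace ℝ V] [FiniteDimensional ℝ V]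
  [MeasurableSpace V] [BorelSpace V]

theorem integrable_D_sq {k : ℕ} {g : Fin k → V → ℝ} (hg : ∀ j, Bd (g j)) :
    Integrable (fun x : Fin k → V => D x ^ 2 * ∏ j, g j (x j)) (γk V k) := by
  choose C hC using fun j => (hg j).bdd
  have hm : ∀ j, Measurable (g j) := fun j => (hg j).meas
  have h1 : Integrable (fun x : Fin k → V => D x ^ 2) (γk V k) := by
    refine (integrable_prod_norm_pow k 2).mono' (Measurable.aestronglyMeasurable (by fun_prop))
      (ae_of_all _ fun x => ?_)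
    rw [Real.norm_eq_abs, abs_of_nonneg (sq_nonneg _), Finset.prod_pow]
    exact pow_le_pow_left₀ (D_nonneg x) (D_le_prod x) 2
  refine h1.mul_bdd (c := ∏ j, C j) (Measurable.aestronglyMeasurable ?_) (ae_of_all _ fun x => ?_)
  · exact Finset.measurable_prod _ fun j _ => (hm j).comp (measurable_pi_apply j)
  · rw [Real.norm_eq_abs, Finset.abs_prod]
    exact Finset.prod_le_prod (fun _ _ => abs_nonneg _) fun j _ => hC j (x j)

theorem moment_integrable_inner {f : V → ℝ} (hf : Bd f) (v w : V) :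
    Integrable (fun x => ⟪v, x⟫ * ⟪w, x⟫ * f x) (stdGaussian V) := by
  obtain ⟨C, hC⟩ := hf.bdd
  have hm := hf.meas
  have h1 : Integrable (fun x : V => ⟪v, x⟫ * ⟪w, x⟫) (stdGaussian V) := by
    refine ((integrable_norm_pow (V := V) 2).const_mul (‖v‖ * ‖w‖)).mono'
      (Measurable.aestronglyMeasurable (by fun_prop)) (ae_of_all _ fun x => ?_)
    rw [Real.norm_eq_abs, abs_mul]
    calc |⟪v, x⟫| * |⟪w, x⟫| ≤ (‖v‖ * ‖x‖) * (‖w‖ * ‖x‖) :=
          mul_le_mul (abs_real_inner_le_norm v x) (abs_real_inner_le_norm w x) (abs_nonneg _)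
            (by positivity)
      _ = ‖v‖ * ‖w‖ * ‖x‖ ^ 2 := by ring
  exact h1.mul_bdd (c := C) hm.aestronglyMeasurable (ae_of_all _ fun x => hC x)

theorem moment_integrable_smul {f : V → ℝ} (hf : Bd f) (v : V) :
    Integrable (fun x => (⟪v, x⟫ * f x) • x) (stdGaussian V) := by
  obtain ⟨C, hC⟩ := hf.bdd
  have hm := hf.meas
  refine ((integrable_norm_pow (V := V) 2).const_mul (‖v‖ * C)).mono'
    (Measurable.aestronglyMeasurable (by fun_prop)) (ae_of_all _ fun x => ?_)
  rw [norm_smul, Real.norm_eq_abs, abs_mul]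
  have h0 : 0 ≤ C := (abs_nonneg _).trans (hC x)
  calc |⟪v, x⟫| * |f x| * ‖x‖ ≤ (‖v‖ * ‖x‖) * C * ‖x‖ :=
        mul_le_mul_of_nonneg_right
          (mul_le_mul (abs_real_inner_le_norm v x) (hC x) (abs_nonneg _) (by positivity))
          (norm_nonneg _)
    _ = ‖v‖ * C * ‖x‖ ^ 2 := by ring

/-- an orthonormal basis diagonalising the second moment form -/
theorem moment_exists_diag {m : ℕ} (hm : finrank ℝ V = m) {f : V → ℝ} (hf : Bd f) :
    ∃ b : OrthonormalBasis (Fin m) ℝ V, ∀ l l', l ≠ l' →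
      ∫ x, ⟪b l, x⟫ * ⟪b l', x⟫ * f x ∂(stdGaussian V) = 0 := by
  let A : V →ₗ[ℝ] V :=
    { toFun := fun v => ∫ x, (⟪v, x⟫ * f x) • x ∂(stdGaussian V)
      map_add' := fun v w => by
        rw [← integral_add (moment_integrable_smul hf v) (moment_integrable_smul hf w)]
        congr 1
        ext x
        rw [inner_add_left, add_mul, add_smul]
      map_smul' := fun c v => by
        rw [RingHom.id_apply, ← integral_smul]
        congr 1
        ext x
        rw [real_inner_smul_left, smul_smul, mul_assoc] }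
  have hA : ∀ v w, ⟪w, A v⟫ = ∫ x, ⟪v, x⟫ * ⟪w, x⟫ * f x ∂(stdGaussian V) := by
    intro v w
    change ⟪w, ∫ x, (⟪v, x⟫ * f x) • x ∂(stdGaussian V)⟫ = _
    rw [← integral_inner (moment_integrable_smul hf v)]
    congr 1
    ext x
    rw [real_inner_smul_right]
    ring
  have hs : A.IsSymmetric := by
    intro v w
    rw [real_inner_comm, hA, hA]
    congr 1
    ext x
    ring
  refine ⟨hs.eigenvectorBasis hm, fun l l' h => ?_⟩
  rw [← hA, hs.apply_eigenvectorBasis, inner_smul_right,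
    (hs.eigenvectorBasis hm).orthonormal.inner_eq_zero h.symm, mul_zero]

theorem moment_det_expand {m k : ℕ} (b : OrthonormalBasis (Fin m) ℝ V) (x : Fin k → V) :
    D x ^ 2 = ∑ l : Fin k → Fin m, ∑ σ : Equiv.Perm (Fin k),
      (Equiv.Perm.sign σ : ℤ) * ∏ j, ⟪b (l (σ j)), x j⟫ * ⟪b (l j), x j⟫ := by
  have h1 : ∀ i j, Matrix.gram ℝ x i j = ∑ l, ⟪b l, x i⟫ * ⟪b l, x j⟫ := by
    intro i j
    rw [Matrix.gram_apply, ← b.sum_inner_mul_inner]
    simp only [real_inner_comm (x i)]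
  rw [D_sq, Matrix.det_apply']
  simp only [h1, Finset.prod_univ_sum, Fintype.piFinset_univ, Finset.mul_sum]
  rw [Finset.sum_comm]
  refine Finset.sum_congr rfl fun l _ => ?_
  simp only [Finset.prod_mul_distrib, ← mul_assoc, ← Finset.sum_mul]
  congr 1
  have h2 := Matrix.det_transpose (Matrix.of fun i j : Fin k => ⟪b (l j), x i⟫)
  rw [Matrix.det_apply', Matrix.det_apply'] at h2
  exact h2.symm

theorem exists_moment_eq {m : ℕ} (hm : finrank ℝ V = m) {f : V → ℝ} (hf : Pos f) :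
    ∃ b : OrthonormalBasis (Fin m) ℝ V, ∀ k : ℕ,
      ∫ x, D x ^ 2 * ∏ j, f (x j) ∂(γk V k)
        = inj k fun l => ∫ x, ⟪b l, x⟫ ^ 2 * f x ∂(stdGaussian V) := by
  classical
  obtain ⟨b, hb⟩ := moment_exists_diag hm hf.bd
  refine ⟨b, fun k => ?_⟩
  set M : Fin m → Fin m → ℝ := fun l l' => ∫ x, ⟪b l, x⟫ * ⟪b l', x⟫ * f x ∂(stdGaussian V)
    with hM
  have h1 : ∀ x : Fin k → V, D x ^ 2 * ∏ j, f (x j) = ∑ l : Fin k → Fin m,
      ∑ σ : Equiv.Perm (Fin k), (Equiv.Perm.sign σ : ℤ) *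
        ∏ j, ⟪b (l (σ j)), x j⟫ * ⟪b (l j), x j⟫ * f (x j) := by
    intro x
    rw [moment_det_expand b x, Finset.sum_mul]
    refine Finset.sum_congr rfl fun l _ => ?_
    rw [Finset.sum_mul]
    refine Finset.sum_congr rfl fun σ _ => ?_
    rw [mul_assoc, ← Finset.prod_mul_distrib]
  have hi : ∀ (l : Fin k → Fin m) (σ : Equiv.Perm (Fin k)), Integrable (fun x : Fin k → V =>
      ((Equiv.Perm.sign σ : ℤ) : ℝ) * ∏ j, ⟪b (l (σ j)), x j⟫ * ⟪b (l j), x j⟫ * f (x j))
      (γk V k) := fun l σ =>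
    (Integrable.fintype_prod (f := fun j (x : V) => ⟪b (l (σ j)), x⟫ * ⟪b (l j), x⟫ * f x)
      fun j => moment_integrable_inner hf.bd _ _).const_mul _
  simp only [h1]
  rw [integral_finsetSum _ fun l _ => integrable_finsetSum _ fun σ _ => hi l σ]
  have h2 : ∀ l : Fin k → Fin m, ∫ x, ∑ σ : Equiv.Perm (Fin k), ((Equiv.Perm.sign σ : ℤ) : ℝ) *
      ∏ j, ⟪b (l (σ j)), x j⟫ * ⟪b (l j), x j⟫ * f (x j) ∂(γk V k)
      = (Matrix.of fun i j : Fin k => M (l i) (l j)).det := by
    intro l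
    rw [integral_finsetSum _ fun σ _ => hi l σ, Matrix.det_apply']
    refine Finset.sum_congr rfl fun σ _ => ?_
    rw [integral_const_mul, integral_fintype_prod_eq_prod
      (f := fun j (x : V) => ⟪b (l (σ j)), x⟫ * ⟪b (l j), x⟫ * f x)]
    rfl
  simp only [h2]
  unfold inj
  rw [Finset.sum_filter]
  refine Finset.sum_congr rfl fun l _ => ?_
  split_ifs with hl
  · have : (Matrix.of fun i j : Fin k => M (l i) (l j)) = Matrix.diagonal fun j => M (l j) (l j) := by
      ext i j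
      by_cases hij : i = j
      · subst hij
        simp
      · rw [Matrix.diagonal_apply_ne _ hij, Matrix.of_apply]
        exact hb _ _ fun h => hij (hl h)
    rw [this, Matrix.det_diagonal]
    simp only [hM, sq]
  · obtain ⟨i, j, hij, hne⟩ := Function.not_injective_iff.1 hl
    refine Matrix.det_zero_of_row_eq hne ?_
    ext t
    simp only [Matrix.of_apply, hij]

theorem moment_integrable_sq {f : V → ℝ} (hf : Bd f) (v : V) :
    Integrable (fun x => ⟪v, x⟫ ^ 2 * f x) (stdGaussian V) := by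
  simpa only [sq] using moment_integrable_inner hf v v

theorem moment_le {m k : ℕ} (hm : finrank ℝ V = m) (h1 : 1 ≤ m) (hk : k ≤ m) {f : V → ℝ}
    (hf : Den f) :
    ∫ x, D x ^ 2 * ∏ j, f (x j) ∂(γk V k)
      ≤ (m.descFactorial k : ℝ) * (∫ x, f x ∂(stdGaussian V)) ^ k := by
  obtain ⟨b, hb⟩ := exists_moment_eq hm hf.toPos
  rw [hb k]
  refine (inj_le hk fun l => integral_nonneg fun x =>
    mul_nonneg (sq_nonneg _) (hf.toPos.pos x).le).trans_eq ?_
  congr 2
  rw [← integral_finsetSum _ fun l _ => moment_integrable_sq hf.toPos.bd (b l)]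
  simp only [← Finset.sum_mul, b.sum_sq_inner_right]
  rw [radial_indep (hm ▸ h1) 2 hf.toPos.bd (fun x => (hf.toPos.pos x).le) hf.hom,
    integral_norm_sq, hm]
  have : (m : ℝ) ≠ 0 := by positivity
  field_simp

theorem moment_integral_pos {X : Type} [MeasurableSpace X] {f : X → ℝ} (hf : Pos f)
    (μ : Measure X) [IsProbabilityMeasure μ] : 0 < ∫ x, f x ∂μ := by
  obtain ⟨c, C, hc, h⟩ := hf.bdd
  refine hc.trans_le ?_
  have := integral_mono (integrable_const (μ := μ) c) (hf.bd.integrable μ) fun x => (h x).1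
  simpa using this

theorem le_moment {m k : ℕ} (hm : finrank ℝ V = m) (h1 : 1 ≤ m) (hk : k ≤ m) {f : V → ℝ}
    (hf : Den f) :
    (m.descFactorial k : ℝ)
        * (∫ x, f x ^ ((m : ℝ) / (m + 2)) ∂(stdGaussian V)) ^ ((k : ℝ) * (m + 2) / m)
      ≤ ∫ x, D x ^ 2 * ∏ j, f (x j) ∂(γk V k) := by
  obtain ⟨b, hb⟩ := exists_moment_eq hm hf.toPos
  rw [hb k]
  have hI := inertia hm h1 b hf
  have hp : 0 < ∫ x, f x ^ ((m : ℝ) / (m + 2)) ∂(stdGaussian V) :=
    moment_integral_pos (hf.toPos.rpow (by positivity)) _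
  have hr : ∀ l, 0 < ∫ x, ⟪b l, x⟫ ^ 2 * f x ∂(stdGaussian V) := by
    intro l
    refine lt_of_le_of_ne (integral_nonneg fun x =>
      mul_nonneg (sq_nonneg _) (hf.toPos.pos x).le) fun h0 => ?_
    rw [Finset.prod_eq_zero (Finset.mem_univ l) h0.symm] at hI
    exact absurd hI (not_le.2 (pow_pos hp _))
  refine le_trans (mul_le_mul_of_nonneg_left ?_ (Nat.cast_nonneg _)) (le_inj hk hr)
  refine le_trans (le_of_eq ?_) (Real.rpow_le_rpow (pow_pos hp _).le hI (by positivity))
  rw [← Real.rpow_natCast, ← Real.rpow_mul hp.le]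
  congr 1
  push_cast
  ring

theorem pos_Rd {f : V → ℝ} (hf : Pos f) : Pos (Rd f) := by
  have hm := hf.meas
  obtain ⟨c, C, hc, h⟩ := hf.bdd
  have hi : ∀ y : V, Integrable (fun x => f (pr y x)) (stdGaussian V) := fun y =>
    Pos.bd (f := fun x => f (pr y x)) ⟨by fun_prop, c, C, hc, fun x => h _⟩ |>.integrable _
  refine ⟨?_, c, C, hc, fun y => ⟨?_, ?_⟩⟩
  · have : Measurable fun q : V × V => f (pr q.1 q.2) := by fun_prop
    exact (this.stronglyMeasurable.integral_prod_right' (ν := stdGaussian V)).measurable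
  · have := integral_mono (integrable_const (μ := stdGaussian V) c) (hi y) fun x => (h _).1
    simpa [Rd] using this
  · have := integral_mono (hi y) (integrable_const (μ := stdGaussian V) C) fun x => (h _).2
    simpa [Rd] using this

theorem moment_integral_mp {X Y : Type} [MeasurableSpace X] [MeasurableSpace Y] {μ : Measure X}
    {ν : Measure Y} {T : X → Y} (hT : MeasurePreserving T μ ν) {F : Y → ℝ} (hF : Measurable F) :
    ∫ x, F (T x) ∂μ = ∫ y, F y ∂ν := by
  rw [← hT.map_eq, integral_map hT.measurable.aemeasurable hF.aestronglyMeasurable]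

theorem moment_den_coe {f : V → ℝ} (hf : Den f) (W : Submodule ℝ V) :
    Den fun z : W => f (z : V) := by
  obtain ⟨c, C, hc, h⟩ := hf.bdd
  exact ⟨⟨hf.meas.comp measurable_subtype_coe, c, C, hc, fun z => h _⟩,
    fun t ht z => hf.hom t ht _⟩

theorem moment_Rd_eq {f : V → ℝ} (hf : Measurable f) (y : V) :
    Rd f y = ∫ z : (ℝ ∙ y)ᗮ, f (z : V) ∂(stdGaussian (ℝ ∙ y)ᗮ) :=
  moment_integral_mp (mp_prS y) (F := fun z : (ℝ ∙ y)ᗮ => f (z : V))
    (hf.comp measurable_subtype_coe)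

theorem moment_sk_eq {m k : ℕ} (hm : finrank ℝ V = m + 1) {f : V → ℝ} (hf : Measurable f)
    {y : V} (hy : y ≠ 0) :
    sk k f y = (∫ z : Fin k → (ℝ ∙ y)ᗮ, D z ^ 2 * ∏ j, f (z j : V) ∂(γk (ℝ ∙ y)ᗮ k))
      / (m.descFactorial k : ℝ) := by
  have hT : MeasurePreserving (fun (x : Fin k → V) j => prS y (x j)) (γk V k) (γk (ℝ ∙ y)ᗮ k) :=
    measurePreserving_pi _ _ fun _ => mp_prS y
  have hF : Measurable fun z : Fin k → (ℝ ∙ y)ᗮ => D z ^ 2 * ∏ j, f (z j : V) :=
    ((measurable_D measurable_id).pow_const 2).mul (Finset.measurable_prod _ fun j _ =>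
      hf.comp (measurable_subtype_coe.comp (measurable_pi_apply j)))
  rw [← moment_integral_mp hT hF]
  unfold sk
  rw [if_neg hy, hm, Nat.add_sub_cancel]
  refine congrArg (· / (m.descFactorial k : ℝ)) (integral_congr_ae (ae_of_all _ fun x => ?_))
  have : D (fun j => pr y (x j)) = D (fun j => prS y (x j)) :=
    D_map (ℝ ∙ y)ᗮ.subtypeₗᵢ fun j => prS y (x j)
  simp only [this, coe_prS]

theorem moment_finrank {m : ℕ} (hm : finrank ℝ V = m + 1) {y : V} (hy : y ≠ 0) :
    finrank ℝ (ℝ ∙ y)ᗮ = m := by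
  have := finrank_orth hy
  omega

theorem moment_desc_pos {m k : ℕ} (hk : k ≤ m) : (0 : ℝ) < m.descFactorial k := by
  exact_mod_cast Nat.descFactorial_pos.2 hk

theorem sk_le {m k : ℕ} (hm : finrank ℝ V = m + 1) (h1 : 1 ≤ m) (hk : k ≤ m) {f : V → ℝ}
    (hf : Den f) {y : V} (hy : y ≠ 0) : sk k f y ≤ Rd f y ^ k := by
  rw [moment_sk_eq hm hf.meas hy, moment_Rd_eq hf.meas, div_le_iff₀' (moment_desc_pos hk)]
  exact moment_le (moment_finrank hm hy) h1 hk (moment_den_coe hf _)

theorem le_sk {m k : ℕ} (hm : finrank ℝ V = m + 1) (h1 : 1 ≤ m) (hk : k ≤ m) {f : V → ℝ}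
    (hf : Den f) {y : V} (hy : y ≠ 0) :
    Rd (fun x => f x ^ ((m : ℝ) / (m + 2))) y ^ ((k : ℝ) * (m + 2) / m) ≤ sk k f y := by
  rw [moment_sk_eq hm hf.meas hy, moment_Rd_eq (hf.meas.pow_const _),
    le_div_iff₀' (moment_desc_pos hk)]
  exact le_moment (moment_finrank hm hy) h1 hk (moment_den_coe hf _)

theorem moment_measurable_sk {k : ℕ} {f : V → ℝ} (hf : Measurable f) : Measurable (sk k f) := by
  classical
  have h : Measurable fun q : V × (Fin k → V) =>
      D (fun j => pr q.1 (q.2 j)) ^ 2 * ∏ j, f (pr q.1 (q.2 j)) :=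
    ((measurable_D (by fun_prop)).pow_const 2).mul
      (Finset.measurable_prod _ fun j _ => by fun_prop)
  have h2 := (h.stronglyMeasurable.integral_prod_right' (ν := γk V k)).measurable
  unfold sk
  exact Measurable.ite (measurableSet_singleton 0) measurable_const (h2.div_const _)

theorem den_sk {m k : ℕ} (hm : finrank ℝ V = m + 1) (h1 : 1 ≤ m) (hk : k ≤ m) {f : V → ℝ}
    (hf : Den f) : Den (sk k f) := by
  obtain ⟨c, C', hc, h⟩ := (pos_Rd (hf.toPos.rpow (r := (m : ℝ) / (m + 2)) (by positivity))).bdd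
  have hR := pos_Rd hf.toPos
  obtain ⟨c', C, -, h'⟩ := hR.bdd
  refine ⟨⟨moment_measurable_sk hf.meas, min 1 (c ^ ((k : ℝ) * (m + 2) / m)), max 1 (C ^ k),
    lt_min one_pos (Real.rpow_pos_of_pos hc _), fun y => ?_⟩, fun t ht y => ?_⟩
  · by_cases hy : y = 0
    · have : sk k f y = 1 := by
        unfold sk
        rw [if_pos hy]
      rw [this]
      exact ⟨min_le_left _ _, le_max_left _ _⟩
    · refine ⟨(min_le_right _ _).trans (le_trans ?_ (le_sk hm h1 hk hf hy)),
        (sk_le hm h1 hk hf hy).trans (le_trans ?_ (le_max_right _ _))⟩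
      · exact Real.rpow_le_rpow hc.le (h y).1 (by positivity)
      · exact pow_le_pow_left₀ (hR.pos y).le (h' y).2 k
  · have : t • y = 0 ↔ y = 0 := by simp [ht.ne']
    unfold sk
    by_cases hy : y = 0
    · rw [if_pos hy, if_pos (this.2 hy)]
    · rw [if_neg hy, if_neg fun h0 => hy (this.1 h0)]
      simp only [pr_smul_left ht.ne']

theorem sk_one {m k : ℕ} (hm : finrank ℝ V = m + 1) (h1 : 1 ≤ m) (hk : k ≤ m) (y : V) :
    sk k (fun _ : V => (1 : ℝ)) y = 1 := by
  by_cases hy : y = 0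
  · unfold sk
    rw [if_pos hy]
  · refine le_antisymm ?_ ?_
    · simpa [Rd] using sk_le hm h1 hk Den.one hy
    · simpa [Rd] using le_sk hm h1 hk Den.one hy

end Pool.Agent.P.MP_181257_gt
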