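import Pool.Agent.P.MP_181257_gt.PdDefs

set_option autoImplicit false
set_option linter.unusedSectionVars false
set_option linter.unusedVariables false

open MeasureTheory ProbabilityTheory Module Set Filter Topology Function
open scoped RealInnerProductSpace ENNReal Pointwise LinearAlgebra.Projectivization

noncomputable section

namespace Pool.Agent.P.MP_181257_gt

variable {V : Type} [NormedAddCommGroup V] [InnerProductSpace ℝ V] [FiniteDimensional ℝ V]
  [MeasurableSpace V] [BorelSpace V] {ι : Type} [Fintype ι] [DecidableEq ι]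

theorem inner_Nv (b : Basis ι ℝ V) (j : ι) (x : ι → V) (u : V) :
    ⟪u, Nv b j x⟫ = b.det (update x j u) := by
  have h : ∀ v, b.det (update x j v) = b.det.toMultilinearMap.toLinearMap x j v := fun v => rfl
  unfold Nv
  rw [inner_sum]
  conv_rhs => rw [h, ← (stdOrthonormalBasis ℝ V).sum_repr' u, map_sum]
  refine Finset.sum_congr rfl fun k _ => ?_
  rw [map_smul, real_inner_smul_right, h, smul_eq_mul, mul_comm, real_inner_comm]

theorem Nv_update (b : Basis ι ℝ V) (j : ι) (x : ι → V) (y : V) :
    Nv b j (update x j y) = Nv b j x := by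
  unfold Nv
  simp only [update_idem]

theorem continuous_bdet (b : Basis ι ℝ V) : Continuous fun x : ι → V => b.det x := by
  simp only [b.det_apply]
  refine Continuous.matrix_det (continuous_matrix fun i j => ?_)
  simp only [b.toMatrix_apply]
  exact (b.coord i).continuous_of_finiteDimensional.comp (continuous_apply j)

theorem continuous_Nv (b : Basis ι ℝ V) (j : ι) : Continuous (Nv b j) := by
  unfold Nv
  refine continuous_finsetSum _ fun k _ => Continuous.smul ?_ continuous_const
  exact (continuous_bdet b).comp (continuous_id.update j continuous_const)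

theorem bdet_bound (b : Basis ι ℝ V) :
    ∃ C : ℝ, 0 ≤ C ∧ ∀ x : ι → V, |b.det x| ≤ C * ∏ i, ‖x i‖ := by
  obtain ⟨C, hC, h⟩ := b.det.exists_bound_of_continuous (continuous_bdet b)
  exact ⟨C, hC.le, fun x => by simpa using h x⟩

theorem bdet_ne_zero_iff (b : Basis ι ℝ V) (x : ι → V) :
    b.det x ≠ 0 ↔ LinearIndependent ℝ x := by
  rw [← isUnit_iff_ne_zero, ← b.is_basis_iff_det]
  exact ⟨fun h => h.1, fun h => ⟨h, h.span_eq_top_of_card_eq_finrank'
    (Module.finrank_eq_card_basis b).symm⟩⟩

theorem inner_Nv_self (b : Basis ι ℝ V) (x : ι → V) (i j : ι) :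
    ⟪x i, Nv b j x⟫ = if i = j then b.det x else 0 := by
  rw [inner_Nv]
  split_ifs with h
  · rw [h, update_eq_self]
  · exact b.det.map_update_self x (Ne.symm h)

/-- Cramer's rule -/
theorem cramer_vec (b : Basis ι ℝ V) (x : ι → V) (u : V) :
    b.det x • u = ∑ j, b.det (update x j u) • x j := by
  refine b.ext_elem fun i => ?_
  have h := congrFun (Matrix.mulVec_cramer (b.toMatrix x) (b.repr u)) i
  rw [map_smul, map_sum, Finsupp.smul_apply, Finsupp.finsetSum_apply, b.det_apply]
  rw [Pi.smul_apply] at h
  rw [← h, Matrix.mulVec, dotProduct]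
  refine Finset.sum_congr rfl fun j _ => ?_
  rw [map_smul, Finsupp.smul_apply, b.det_apply, b.toMatrix_update, Matrix.cramer_apply,
    b.toMatrix_apply, smul_eq_mul, mul_comm]

theorem cramer_dual (b : Basis ι ℝ V) (x : ι → V) (w : V) :
    b.det x • w = ∑ j, ⟪x j, w⟫ • Nv b j x := by
  refine ext_inner_left ℝ fun u => ?_
  rw [real_inner_smul_right, ← real_inner_smul_left, cramer_vec, sum_inner, inner_sum]
  refine Finset.sum_congr rfl fun j _ => ?_
  rw [real_inner_smul_left, real_inner_smul_right, inner_Nv, mul_comm]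

theorem linearIndependent_Nv (b : Basis ι ℝ V) {x : ι → V} (hx : b.det x ≠ 0) :
    LinearIndependent ℝ fun j => Nv b j x := by
  rw [Fintype.linearIndependent_iff]
  intro g hg i
  have h := congrArg (fun w => ⟪x i, w⟫) hg
  simp only [inner_sum, real_inner_smul_right, inner_Nv_self, inner_zero_right, mul_ite, mul_zero,
    Finset.sum_ite_eq, Finset.mem_univ, if_true] at h
  exact (mul_eq_zero.1 h).resolve_right hx

theorem bdet_zero_of_card (b : Basis ι ℝ V) {x : ι → V} {U : Submodule ℝ V} {S : Finset ι}
    (hS : ∀ i ∈ S, x i ∈ U) (hc : finrank ℝ U < S.card) : b.det x = 0 := by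
  by_contra h
  have h1 : LinearIndependent ℝ x := (bdet_ne_zero_iff b x).1 h
  have h2 : LinearIndependent ℝ fun i : S => x i := h1.comp _ Subtype.val_injective
  have h3 : LinearIndependent ℝ fun i : S => (⟨x i, hS i i.2⟩ : U) :=
    LinearIndependent.of_comp U.subtype h2
  have h4 := h3.fintype_card_le_finrank
  rw [Fintype.card_coe] at h4
  omega

theorem Nv_smul (b : Basis ι ℝ V) (j : ι) (x : ι → V) (t : ι → ℝ) :
    Nv b j (fun i => t i • x i) = (∏ i ∈ Finset.univ.erase j, t i) • Nv b j x := by
  refine ext_inner_left ℝ fun u => ?_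
  rw [real_inner_smul_right, inner_Nv, inner_Nv]
  have e : update (fun i => t i • x i) j u = fun i => update t j 1 i • update x j u i := by
    funext i
    by_cases h : i = j
    · subst h; simp
    · simp [update_of_ne h]
  rw [e, b.det.map_smul_univ, Finset.prod_update_of_mem (Finset.mem_univ j), one_mul,
    Finset.sdiff_singleton_eq_erase, smul_eq_mul]

theorem abs_bdet_perm (b : Basis ι ℝ V) (x : ι → V) (σ : Equiv.Perm ι) :
    |b.det (x ∘ σ)| = |b.det x| := by
  rw [b.det.map_perm]
  rcases Int.units_eq_one_or (Equiv.Perm.sign σ) with h | h <;> simp [h]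

/-- `y ↦ Nv b j (update x k y)` is linear for `k ≠ j` -/
theorem exists_linear_Nv (b : Basis ι ℝ V) {j k : ι} (hjk : j ≠ k) (x : ι → V) :
    ∃ T : V →ₗ[ℝ] V, ∀ y, T y = Nv b j (update x k y) := by
  refine ⟨⟨⟨fun y => Nv b j (update x k y), fun y y' => ?_⟩, fun c y => ?_⟩, fun y => rfl⟩
  · refine ext_inner_left ℝ fun u => ?_
    rw [inner_add_right, inner_Nv, inner_Nv, inner_Nv, update_comm hjk.symm, update_comm hjk.symm,
      update_comm hjk.symm, b.det.map_update_add]
  · refine ext_inner_left ℝ fun u => ?_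
    show ⟪u, Nv b j (update x k (c • y))⟫ = ⟪u, c • Nv b j (update x k y)⟫
    rw [real_inner_smul_right, inner_Nv, inner_Nv, update_comm hjk.symm, update_comm hjk.symm,
      b.det.map_update_smul, smul_eq_mul]

end Pool.Agent.P.MP_181257_gt
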