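import Pool.Agent.P.MP_181257_gt.PdA1

set_option autoImplicit false
set_option linter.unusedSectionVars false
set_option linter.unusedVariables false

open MeasureTheory ProbabilityTheory Module Set Filter Topology Function
open scoped RealInnerProductSpace ENNReal Pointwise LinearAlgebra.Projectivization

noncomputable section

namespace Pool.Agent.P.MP_181257_gt

variable {V : Type} [NormedAddCommGroup V] [InnerProductSpace ℝ V] [FiniteDimensional ℝ V]
  [MeasurableSpace V] [BorelSpace V] {ι : Type} [Fintype ι] [DecidableEq ι]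

theorem aux_PdA2 {A : Set V} {U : Submodule ℝ V} (hU : Sp A U) {J₀ : Finset ι} {x : ι → V}
    (hx : LinearIndepOn ℝ x (J₀ : Set ι)) (K : Finset ι) (hK : Disjoint K J₀)
    (hc : K.card + J₀.card ≤ finrank ℝ U) :
    ∃ y : ι → V, (∀ i ∈ J₀, y i = x i) ∧ (∀ i ∈ K, y i ∈ A ∧ y i ∈ U) ∧
      LinearIndepOn ℝ y ((K ∪ J₀ : Finset ι) : Set ι) := by
  induction K using Finset.induction_on with
  | empty => exact ⟨x, fun _ _ => rfl, by simp, by simpa using hx⟩
  | insert a K ha ih =>
    rw [Finset.disjoint_insert_left] at hK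
    rw [Finset.card_insert_of_notMem ha] at hc
    obtain ⟨y, hy1, hy2, hy3⟩ := ih hK.2 (by omega)
    have haK : a ∉ K ∪ J₀ := by
      rw [Finset.mem_union, not_or]
      exact ⟨ha, hK.1⟩
    obtain ⟨p, hp, hp'⟩ : ∃ p ∈ A ∩ (U : Set V),
        p ∉ Submodule.span ℝ (y '' ((K ∪ J₀ : Finset ι) : Set ι)) := by
      by_contra hn
      push Not at hn
      have h1 : U ≤ Submodule.span ℝ (y '' ((K ∪ J₀ : Finset ι) : Set ι)) :=
        hU.trans (Submodule.span_le.2 hn)
      have h2 := Submodule.finrank_mono h1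
      classical
      rw [← Finset.coe_image] at h2
      have h3 := finrank_span_finset_le_card (R := ℝ) ((K ∪ J₀).image y)
      have h4 : ((K ∪ J₀).image y).card ≤ K.card + J₀.card :=
        Finset.card_image_le.trans (Finset.card_union_le _ _)
      unfold Set.finrank at h3
      omega
    have hne : ∀ i ∈ K ∪ J₀, update y a p i = y i := fun i hi =>
      update_of_ne (fun (h : i = a) => haK (h ▸ hi)) _ _
    refine ⟨update y a p, ?_, ?_, ?_⟩
    · intro i hi
      rw [hne i (Finset.mem_union_right _ hi), hy1 i hi]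
    · intro i hi
      rcases Finset.mem_insert.1 hi with rfl | hi
      · rw [update_self]
        exact hp
      · rw [hne i (Finset.mem_union_left _ hi)]
        exact hy2 i hi
    · rw [Finset.insert_union, Finset.coe_insert,
        linearIndepOn_insert (by exact_mod_cast haK), update_self]
      have he : EqOn y (update y a p) ((K ∪ J₀ : Finset ι) : Set ι) := fun i hi =>
        (hne i hi).symm
      exact ⟨hy3.congr he, by rwa [← he.image_eq]⟩

/-- extension of an independent part of a family by points of `A` inside `U` -/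
theorem ext_indep {A : Set V} {U : Submodule ℝ V} (hU : Sp A U) {J₀ J : Finset ι} (hJ : J₀ ⊆ J)
    (hc : J.card ≤ finrank ℝ U) {x : ι → V} (hx : LinearIndepOn ℝ x (J₀ : Set ι))
    (hxU : ∀ i ∈ J₀, x i ∈ U) :
    ∃ y : ι → V, (∀ i ∈ J₀, y i = x i) ∧ (∀ i ∈ J, i ∉ J₀ → y i ∈ A ∧ y i ∈ U) ∧
      LinearIndepOn ℝ y (J : Set ι) := by
  obtain ⟨y, h1, h2, h3⟩ := aux_PdA2 hU hx (J \ J₀) Finset.sdiff_disjoint
    (by rw [Finset.card_sdiff_add_card_eq_card hJ]; exact hc)
  rw [Finset.sdiff_union_of_subset hJ] at h3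
  exact ⟨y, h1, fun i hi hi' => h2 i (Finset.mem_sdiff.2 ⟨hi, hi'⟩), h3⟩

theorem ext_basis (b : Basis ι ℝ V) {A : Set V} (hA : Submodule.span ℝ A = ⊤) {J₀ : Finset ι}
    {x : ι → V} (hx : LinearIndepOn ℝ x (J₀ : Set ι)) :
    ∃ y : ι → V, (∀ i ∈ J₀, y i = x i) ∧ (∀ i, i ∉ J₀ → y i ∈ A) ∧ b.det y ≠ 0 := by
  have hU : Sp A ⊤ := by
    unfold Sp
    rw [Submodule.top_coe, inter_univ, hA]
  obtain ⟨y, h1, h2, h3⟩ := ext_indep hU (J := Finset.univ) (Finset.subset_univ J₀)
    (by rw [finrank_top, Finset.card_univ, finrank_eq_card_basis b]) hx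
    (fun _ _ => Submodule.mem_top)
  refine ⟨y, h1, fun i hi => (h2 i (Finset.mem_univ i) hi).1, (bdet_ne_zero_iff b y).2 ?_⟩
  rw [Finset.coe_univ] at h3
  exact linearIndepOn_univ_iff.1 h3

end Pool.Agent.P.MP_181257_gt
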