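import Pool.Agent.P.MP_181257_gt.PdA1

set_option autoImplicit false
set_option linter.unusedSectionVars false
set_option linter.unusedVariables false

open MeasureTheory ProbabilityTheory Module Set Filter Topology Function
open scoped RealInnerProductSpace ENNReal Pointwise LinearAlgebra.Projectivization

noncomputable section

namespace Pool.Agent.P.MP_181257_gt

variable {V : Type} [NormedAddCommGroup V] [InnerProductSpace ℝ V] [FiniteDimensional ℝ V]
  [MeasurableSpace V] [BorelSpace V] {ι : Type} [Fintype ι] [DecidableEq ι]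

theorem Pl.pp_PdA3 (π : Pl V) : ⟪π.p, π.p⟫ = 1 := by
  rw [real_inner_self_eq_norm_sq, π.hp, one_pow]

theorem Pl.qq_PdA3 (π : Pl V) : ⟪π.q, π.q⟫ = 1 := by
  rw [real_inner_self_eq_norm_sq, π.hq, one_pow]

theorem Pl.qp_PdA3 (π : Pl V) : ⟪π.q, π.p⟫ = 0 := by
  rw [real_inner_comm, π.hpq]

theorem Pl.ind_PdA3 (π : Pl V) {a b : ℝ} (h : a • π.p + b • π.q = 0) : a = 0 ∧ b = 0 := by
  have h1 := congrArg (fun z => ⟪z, π.p⟫) h
  have h2 := congrArg (fun z => ⟪z, π.q⟫) h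
  simp only [inner_add_left, real_inner_smul_left, π.pp_PdA3, π.qq_PdA3, π.qp_PdA3, π.hpq,
    inner_zero_left] at h1 h2
  exact ⟨by linarith, by linarith⟩

theorem Pl.mem_PdA3 (π : Pl V) (a b : ℝ) : a • π.p + b • π.q ∈ π.sp :=
  Submodule.mem_span_pair.mpr ⟨a, b, rfl⟩

theorem Pl.orth_PdA3 (π : Pl V) (x : V) : x ∈ π.spᗮ ↔ ⟪x, π.p⟫ = 0 ∧ ⟪x, π.q⟫ = 0 := by
  rw [Submodule.mem_orthogonal']
  constructor
  · intro h
    exact ⟨h _ (Submodule.subset_span (Or.inl rfl)), h _ (Submodule.subset_span (Or.inr rfl))⟩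
  · rintro ⟨h1, h2⟩ u hu
    obtain ⟨a, b, rfl⟩ := Submodule.mem_span_pair.mp hu
    rw [inner_add_right, real_inner_smul_right, real_inner_smul_right, h1, h2]
    ring

theorem Pl.J_PdA3 (π : Pl V) (x : V) : π.J x = ⟪x, π.q⟫ • π.p + (-⟪x, π.p⟫) • π.q := by
  rw [Pl.J, neg_smul, sub_eq_add_neg]

theorem Pl.finrank_sp (π : Pl V) : finrank ℝ π.sp = 2 := by
  have h1 : LinearIndependent ℝ ![π.p, π.q] :=
    LinearIndependent.pair_iff.mpr fun a b h => π.ind_PdA3 h
  have h2 : range ![π.p, π.q] = {π.p, π.q} := Matrix.range_cons_cons_empty _ _ _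
  rw [Pl.sp, ← h2, finrank_span_eq_card h1, Fintype.card_fin]

theorem exists_Pl {U : Submodule ℝ V} (hU : finrank ℝ U = 2) : ∃ π : Pl V, π.sp = U := by
  obtain ⟨b⟩ : Nonempty (OrthonormalBasis (Fin 2) ℝ U) :=
    ⟨(stdOrthonormalBasis ℝ U).reindex (finCongr hU)⟩
  refine ⟨⟨b 0, b 1, b.orthonormal.1 0, b.orthonormal.1 1, b.orthonormal.2 (by decide)⟩, ?_⟩
  refine Submodule.eq_of_le_of_finrank_eq ?_ ((Pl.finrank_sp _).trans hU.symm)
  rw [Pl.sp, Submodule.span_le]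
  rintro z (rfl | rfl)
  · exact (b 0).2
  · exact (b 1).2

theorem Pl.J_mem (π : Pl V) (x : V) : π.J x ∈ π.sp := by
  rw [π.J_PdA3]
  exact π.mem_PdA3 _ _

theorem Pl.inner_J (π : Pl V) (x : V) : ⟪x, π.J x⟫ = 0 := by
  rw [Pl.J, inner_sub_right, real_inner_smul_right, real_inner_smul_right]
  ring

theorem Pl.J_smul (π : Pl V) (t : ℝ) (x : V) : π.J (t • x) = t • π.J x := by
  simp only [Pl.J, real_inner_smul_left]
  module

theorem Pl.J_eq_zero_iff (π : Pl V) (x : V) : π.J x = 0 ↔ x ∈ π.spᗮ := by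
  rw [π.orth_PdA3, π.J_PdA3]
  constructor
  · intro h
    have := π.ind_PdA3 h
    exact ⟨neg_eq_zero.mp this.2, this.1⟩
  · rintro ⟨h1, h2⟩
    rw [h1, h2, neg_zero, zero_smul, zero_smul, add_zero]

theorem Pl.continuous_J (π : Pl V) : Continuous π.J := by
  unfold Pl.J
  fun_prop

theorem gp_comm (l π : Pl V) : gp l π = gp π l := by
  unfold gp
  rw [real_inner_comm l.p π.p, real_inner_comm l.q π.q, real_inner_comm l.q π.p,
    real_inner_comm l.p π.q]
  congr 1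
  ring

/-- the two perspectivities are inverse to each other up to the scalar -/
theorem Pl.J_J (l π : Pl V) {v : V} (hv : v ∈ π.sp) :
    π.J (l.J v) = -(⟪l.p, π.p⟫ * ⟪l.q, π.q⟫ - ⟪l.p, π.q⟫ * ⟪l.q, π.p⟫) • v := by
  obtain ⟨a, c, rfl⟩ := Submodule.mem_span_pair.mp hv
  simp only [Pl.J, inner_sub_left, inner_add_left, real_inner_smul_left]
  rw [real_inner_comm l.p π.p, real_inner_comm l.q π.q, real_inner_comm l.q π.p,
    real_inner_comm l.p π.q]
  module

theorem gp_ne_zero_iff (l π : Pl V) : gp l π ≠ 0 ↔ Disjoint l.sp π.spᗮ := by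
  rw [gp, abs_ne_zero, Submodule.disjoint_def]
  constructor
  · intro h x hx hx'
    obtain ⟨a, c, rfl⟩ := Submodule.mem_span_pair.mp hx
    rw [π.orth_PdA3] at hx'
    simp only [inner_add_left, real_inner_smul_left] at hx'
    have ha : a = 0 := by
      refine (mul_eq_zero.mp ?_).resolve_right h
      linear_combination ⟪l.q, π.q⟫ * hx'.1 - ⟪l.q, π.p⟫ * hx'.2
    have hc : c = 0 := by
      refine (mul_eq_zero.mp ?_).resolve_right h
      linear_combination ⟪l.p, π.p⟫ * hx'.2 - ⟪l.p, π.q⟫ * hx'.1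
    rw [ha, hc, zero_smul, zero_smul, add_zero]
  · intro h h0
    have h1 := l.ind_PdA3 (h _ (l.mem_PdA3 ⟪l.q, π.q⟫ (-⟪l.p, π.q⟫)) (by
      rw [π.orth_PdA3]
      simp only [inner_add_left, real_inner_smul_left]
      exact ⟨by linear_combination h0, by ring⟩))
    have h2 := l.ind_PdA3 (h _ (l.mem_PdA3 ⟪l.q, π.p⟫ (-⟪l.p, π.p⟫)) (by
      rw [π.orth_PdA3]
      simp only [inner_add_left, real_inner_smul_left]
      exact ⟨by ring, by linear_combination -h0⟩))
    have h3 := h l.p (Submodule.subset_span (Or.inl rfl))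
      ((π.orth_PdA3 _).mpr ⟨neg_eq_zero.mp h2.2, neg_eq_zero.mp h1.2⟩)
    have h4 := l.hp
    rw [h3, norm_zero] at h4
    exact zero_ne_one h4

/-- a vector of the plane orthogonal to `v` is a multiple of `J v` -/
theorem Pl.mem_span_J (l : Pl V) {v x : V} (hv : l.J v ≠ 0) (hx : x ∈ l.sp) (hxv : ⟪x, v⟫ = 0) :
    x ∈ ℝ ∙ l.J v := by
  obtain ⟨a, c, rfl⟩ := Submodule.mem_span_pair.mp hx
  simp only [inner_add_left, real_inner_smul_left] at hxv
  rw [real_inner_comm v l.p, real_inner_comm v l.q] at hxv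
  unfold Pl.J at hv ⊢
  generalize ⟪v, l.p⟫ = P at hv hxv ⊢
  generalize ⟪v, l.q⟫ = Q at hv hxv ⊢
  have h0 : P ^ 2 + Q ^ 2 ≠ 0 := by
    intro h
    have hP : P = 0 := by nlinarith [sq_nonneg P, sq_nonneg Q]
    have hQ : Q = 0 := by nlinarith [sq_nonneg P, sq_nonneg Q]
    exact hv (by rw [hP, hQ, zero_smul, zero_smul, sub_zero])
  refine Submodule.mem_span_singleton.mpr ⟨(a * Q - c * P) / (P ^ 2 + Q ^ 2), ?_⟩
  have h1 : (a * Q - c * P) / (P ^ 2 + Q ^ 2) * Q = a := by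
    field_simp
    linear_combination (-P) * hxv
  have h2 : (a * Q - c * P) / (P ^ 2 + Q ^ 2) * P = -c := by
    field_simp
    linear_combination Q * hxv
  rw [smul_sub, smul_smul, smul_smul, h1, h2, neg_smul, sub_neg_eq_add]

end Pool.Agent.P.MP_181257_gt
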