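import Pool.Agent.P.MP_181257_gt.PdA3

set_option autoImplicit false
set_option linter.unusedSectionVars false
set_option linter.unusedVariables false

open MeasureTheory ProbabilityTheory Module Set Filter Topology Function
open scoped RealInnerProductSpace ENNReal Pointwise LinearAlgebra.Projectivization

noncomputable section

namespace Pool.Agent.P.MP_181257_gt

variable {V : Type} [NormedAddCommGroup V] [InnerProductSpace ℝ V] [FiniteDimensional ℝ V]
  [MeasurableSpace V] [BorelSpace V] {ι : Type} [Fintype ι] [DecidableEq ι]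

theorem J_ne_PdA4 {l π : Pl V} (h : gp l π ≠ 0) {v : V} (hv : v ∈ π.sp) (h0 : v ≠ 0) :
    l.J v ≠ 0 := by
  intro h1
  have h2 := Pl.J_J l π hv
  have h3 : π.J 0 = 0 := by simp [Pl.J]
  rw [h1, h3] at h2
  rcases smul_eq_zero.1 h2.symm with h4 | h4
  · exact h (abs_eq_zero.2 (neg_eq_zero.1 h4))
  · exact h0 h4

theorem persp_eq_PdA4 (l : Pl V) {x : ℙ ℝ V} (h : l.J x.rep ≠ 0) :
    persp l x = Projectivization.mk ℝ (l.J x.rep) h := by
  unfold persp
  exact dif_neg h

theorem maps_PdA4 {l π : Pl V} (h : gp l π ≠ 0) :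
    MapsTo (persp l) {v : ℙ ℝ V | v.rep ∈ π.sp} {x : ℙ ℝ V | x.rep ∈ l.sp} := by
  intro v hv
  have h1 := J_ne_PdA4 h hv v.rep_nonzero
  obtain ⟨a, ha⟩ := Projectivization.exists_smul_eq_mk_rep ℝ _ h1
  change (persp l v).rep ∈ l.sp
  rw [persp_eq_PdA4 l h1, ← ha]
  exact l.sp.smul_mem (a : ℝ) (l.J_mem _)

theorem inv_PdA4 {l π : Pl V} (h : gp l π ≠ 0) :
    LeftInvOn (persp π) (persp l) {v : ℙ ℝ V | v.rep ∈ π.sp} := by
  intro v hv
  have h1 := J_ne_PdA4 h hv v.rep_nonzero
  obtain ⟨a, ha⟩ := Projectivization.exists_smul_eq_mk_rep ℝ _ h1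
  have h2 : π.J (persp l v).rep ≠ 0 :=
    J_ne_PdA4 (by rwa [gp_comm]) (maps_PdA4 h hv) (persp l v).rep_nonzero
  rw [persp_eq_PdA4 π h2]
  conv_rhs => rw [← v.mk_rep]
  rw [Projectivization.mk_eq_mk_iff']
  refine ⟨(a : ℝ) * -(⟪l.p, π.p⟫ * ⟪l.q, π.q⟫ - ⟪l.p, π.q⟫ * ⟪l.q, π.p⟫), ?_⟩
  rw [persp_eq_PdA4 l h1, ← ha, Units.smul_def, Pl.J_smul, Pl.J_J l π hv, smul_smul]

theorem persp_bij {l π : Pl V} (h : gp l π ≠ 0) :
    BijOn (persp l) {v : ℙ ℝ V | v.rep ∈ π.sp} {x : ℙ ℝ V | x.rep ∈ l.sp} := by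
  have h' : gp π l ≠ 0 := by rwa [gp_comm]
  exact InvOn.bijOn ⟨inv_PdA4 h, inv_PdA4 h'⟩ (maps_PdA4 h) (maps_PdA4 h')

theorem addr_PdA4 (b : Basis ι ℝ V) (j k : ι) (y : ι → V) (u v v' : V) :
    b.det (update (update y j u) k (v + v')) =
      b.det (update (update y j u) k v) + b.det (update (update y j u) k v') :=
  b.det.map_update_add _ _ _ _

theorem smulr_PdA4 (b : Basis ι ℝ V) (j k : ι) (y : ι → V) (u v : V) (t : ℝ) :
    b.det (update (update y j u) k (t • v)) = t * b.det (update (update y j u) k v) :=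
  b.det.map_update_smul _ _ _ _

theorem addl_PdA4 (b : Basis ι ℝ V) {j k : ι} (hjk : j ≠ k) (y : ι → V) (u u' v : V) :
    b.det (update (update y j (u + u')) k v) =
      b.det (update (update y j u) k v) + b.det (update (update y j u') k v) := by
  simp only [update_comm hjk]
  exact b.det.map_update_add _ _ _ _

theorem smull_PdA4 (b : Basis ι ℝ V) {j k : ι} (hjk : j ≠ k) (y : ι → V) (u v : V) (t : ℝ) :
    b.det (update (update y j (t • u)) k v) = t * b.det (update (update y j u) k v) := by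
  simp only [update_comm hjk]
  exact b.det.map_update_smul _ _ _ _

theorem self_PdA4 (b : Basis ι ℝ V) {j k : ι} (hjk : j ≠ k) (y : ι → V) (u : V) :
    b.det (update (update y j u) k u) = 0 :=
  b.det.map_eq_zero_of_eq _ (by rw [update_of_ne hjk, update_self, update_self]) hjk

theorem two_PdA4 (b : Basis ι ℝ V) {j k : ι} (hjk : j ≠ k) (l : Pl V) (y : ι → V) {u v : V}
    (hu : u ∈ l.sp) (hv : v ∈ l.sp) :
    b.det (update (update y j u) k v) = b.det (update (update y j l.p) k l.q)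
      * (⟪u, l.p⟫ * ⟪v, l.q⟫ - ⟪u, l.q⟫ * ⟪v, l.p⟫) := by
  obtain ⟨a, c, rfl⟩ := Submodule.mem_span_pair.1 hu
  obtain ⟨a', c', rfl⟩ := Submodule.mem_span_pair.1 hv
  have h1 : ⟪l.p, l.p⟫ = 1 := by rw [real_inner_self_eq_norm_sq, l.hp, one_pow]
  have h2 : ⟪l.q, l.q⟫ = 1 := by rw [real_inner_self_eq_norm_sq, l.hq, one_pow]
  have h3 : ⟪l.q, l.p⟫ = 0 := by rw [real_inner_comm, l.hpq]
  have h4 := self_PdA4 b hjk y (l.p + l.q)
  simp only [addl_PdA4 b hjk, addr_PdA4, self_PdA4 b hjk] at h4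
  have h5 : b.det (update (update y j l.q) k l.p) = -b.det (update (update y j l.p) k l.q) := by
    linarith
  simp only [addl_PdA4 b hjk, addr_PdA4, smull_PdA4 b hjk, smulr_PdA4, self_PdA4 b hjk,
    inner_add_left, real_inner_smul_left, h1, h2, h3, l.hpq, h5]
  ring

/-- the determinant on families orthogonal to a plane -/
theorem bdet_plane (b : Basis ι ℝ V) {j k : ι} (hjk : j ≠ k) (π : Pl V) {y : ι → V}
    (hy : ∀ i, i ≠ j → i ≠ k → y i ∈ π.spᗮ) (u v : V) :
    b.det (update (update y j u) k v) = b.det (update (update y j π.p) k π.q)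
      * (⟪u, π.p⟫ * ⟪v, π.q⟫ - ⟪u, π.q⟫ * ⟪v, π.p⟫) := by
  obtain ⟨u0, hu0, u', hu', rfl⟩ := π.sp.exists_add_mem_mem_orthogonal u
  obtain ⟨v0, hv0, v', hv', rfl⟩ := π.sp.exists_add_mem_mem_orthogonal v
  have hn : finrank ℝ π.spᗮ + 2 = Fintype.card ι := by
    have h1 := Submodule.finrank_add_finrank_orthogonal π.sp
    rw [π.finrank_sp, Module.finrank_eq_card_basis b] at h1
    omega
  have h1 : ∀ w, b.det (update (update y j u') k w) = 0 := by
    intro w
    refine bdet_zero_of_card b (U := π.spᗮ) (S := Finset.univ.erase k) (fun i hi => ?_) ?_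
    · have hik := Finset.ne_of_mem_erase hi
      rw [update_of_ne hik]
      by_cases hij : i = j
      · rw [hij, update_self]
        exact hu'
      · rw [update_of_ne hij]
        exact hy i hij hik
    · rw [Finset.card_erase_of_mem (Finset.mem_univ k), Finset.card_univ]
      omega
  have h2 : ∀ w, b.det (update (update y j w) k v') = 0 := by
    intro w
    refine bdet_zero_of_card b (U := π.spᗮ) (S := Finset.univ.erase j) (fun i hi => ?_) ?_
    · have hij := Finset.ne_of_mem_erase hi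
      by_cases hik : i = k
      · rw [hik, update_self]
        exact hv'
      · rw [update_of_ne hik, update_of_ne hij]
        exact hy i hij hik
    · rw [Finset.card_erase_of_mem (Finset.mem_univ j), Finset.card_univ]
      omega
  have hp : π.p ∈ π.sp := Submodule.subset_span (by simp)
  have hq : π.q ∈ π.sp := Submodule.subset_span (by simp)
  rw [addl_PdA4 b hjk, h1, addr_PdA4, h2, add_zero, add_zero, two_PdA4 b hjk π y hu0 hv0]
  simp only [inner_add_left, Submodule.inner_left_of_mem_orthogonal hp hu',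
    Submodule.inner_left_of_mem_orthogonal hq hu', Submodule.inner_left_of_mem_orthogonal hp hv',
    Submodule.inner_left_of_mem_orthogonal hq hv', add_zero]

/-- the determinant with two vectors of a plane -/
theorem bdet_two (b : Basis ι ℝ V) {j k : ι} (hjk : j ≠ k) (l : Pl V) (y : ι → V) {u v : V}
    (hu : u ∈ l.sp) (hv : v ∈ l.sp) :
    b.det (update (update y j u) k v) = b.det (update (update y j l.p) k l.q)
      * (⟪u, l.p⟫ * ⟪v, l.q⟫ - ⟪u, l.q⟫ * ⟪v, l.p⟫) := by
  exact two_PdA4 b hjk l y hu hv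

end Pool.Agent.P.MP_181257_gt
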