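import Pool.Agent.P.MP_181257_gt.PdA1

set_option autoImplicit false
set_option linter.unusedSectionVars false
set_option linter.unusedVariables false

open MeasureTheory ProbabilityTheory Module Set Filter Topology Function
open scoped RealInnerProductSpace ENNReal Pointwise LinearAlgebra.Projectivization

noncomputable section

namespace Pool.Agent.P.MP_181257_gt

variable {V : Type} [NormedAddCommGroup V] [InnerProductSpace ℝ V] [FiniteDimensional ℝ V]
  [MeasurableSpace V] [BorelSpace V] {ι : Type} [Fintype ι] [DecidableEq ι]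

theorem mp_update (μ : Measure V) [IsProbabilityMeasure μ] (j : ι) :
    MeasurePreserving (fun p : (ι → V) × V => update p.1 j p.2) ((pw μ ι).prod μ) (pw μ ι) := by
  have hm : Measurable fun p : (ι → V) × V => update p.1 j p.2 := measurable_update'
  refine ⟨hm, (Measure.pi_eq fun s hs => ?_).symm⟩
  rw [Measure.map_apply hm (MeasurableSet.univ_pi hs)]
  have e : (fun p : (ι → V) × V => update p.1 j p.2) ⁻¹' univ.pi s =
      (univ.pi (update s j univ)) ×ˢ s j := by
    ext ⟨x, y⟩
    simp only [mem_preimage, mem_univ_pi, mem_prod]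
    constructor
    · intro h
      refine ⟨fun i => ?_, by simpa using h j⟩
      by_cases hi : i = j
      · rw [hi, update_self]
        exact mem_univ _
      · have := h i
        rw [update_of_ne hi] at this ⊢
        exact this
    · rintro ⟨h1, h2⟩ i
      by_cases hi : i = j
      · rw [hi, update_self]
        exact h2
      · have := h1 i
        rw [update_of_ne hi] at this ⊢
        exact this
  rw [e, Measure.prod_prod, Measure.pi_pi,
    ← Finset.prod_erase_mul _ _ (Finset.mem_univ j),
    ← Finset.prod_erase_mul _ (fun i => μ (s i)) (Finset.mem_univ j), update_self, measure_univ,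
    mul_one]
  congr 1
  exact Finset.prod_congr rfl fun i hi => by rw [update_of_ne (Finset.ne_of_mem_erase hi)]

theorem mp_permP (μ : Measure V) [IsProbabilityMeasure μ] (σ : Equiv.Perm ι) :
    MeasurePreserving (fun x : ι → V => x ∘ σ) (pw μ ι) (pw μ ι) := by
  have hm : Measurable fun x : ι → V => x ∘ σ :=
    measurable_pi_lambda _ fun i => measurable_pi_apply (σ i)
  refine ⟨hm, (Measure.pi_eq fun s hs => ?_).symm⟩
  rw [Measure.map_apply hm (MeasurableSet.univ_pi hs)]
  have e : (fun x : ι → V => x ∘ σ) ⁻¹' univ.pi s = univ.pi fun i => s (σ.symm i) := by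
    ext x
    simp only [mem_preimage, mem_univ_pi, comp_apply]
    constructor
    · intro h i
      simpa using h (σ.symm i)
    · intro h i
      simpa using h (σ i)
  rw [e, Measure.pi_pi]
  exact Equiv.prod_comp σ.symm fun i => μ (s i)

theorem ae_ae_update {μ : Measure V} [IsProbabilityMeasure μ] (j : ι) {P : (ι → V) → Prop}
    (h : ∀ᵐ x ∂(pw μ ι), P x) : ∀ᵐ x ∂(pw μ ι), ∀ᵐ y ∂μ, P (update x j y) := by
  exact Measure.ae_ae_of_ae_prod ((mp_update μ j).quasiMeasurePreserving.ae h)

theorem null_of_update {μ : Measure V} [IsProbabilityMeasure μ] (j : ι) {S : Set (ι → V)}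
    (hS : MeasurableSet S) (h : ∀ x, μ {y | update x j y ∈ S} = 0) : pw μ ι S = 0 := by
  rw [← (mp_update μ j).measure_preimage hS.nullMeasurableSet,
    Measure.measure_prod_null ((mp_update μ j).measurable hS)]
  exact Eventually.of_forall h

theorem ae_pw {μ : Measure V} [IsProbabilityMeasure μ] {P : V → Prop} (h : ∀ᵐ y ∂μ, P y) :
    ∀ᵐ x ∂(pw μ ι), ∀ i, P (x i) := by
  rw [ae_all_iff]
  intro i
  exact (measurePreserving_eval (fun _ : ι => μ) i).quasiMeasurePreserving.ae h

theorem lintegral_update (μ : Measure V) [IsProbabilityMeasure μ] (j : ι) {F : (ι → V) → ℝ≥0∞}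
    (hF : Measurable F) :
    ∫⁻ x, F x ∂(pw μ ι) = ∫⁻ x, ∫⁻ y, F (update x j y) ∂μ ∂(pw μ ι) := by
  rw [← (mp_update μ j).lintegral_comp hF]
  exact lintegral_prod _ (hF.comp (mp_update μ j).measurable).aemeasurable

theorem lintegral_update' (μ : Measure V) [IsProbabilityMeasure μ] (j : ι) {F : (ι → V) → ℝ≥0∞}
    (hF : Measurable F) :
    ∫⁻ x, F x ∂(pw μ ι) = ∫⁻ y, ∫⁻ x, F (update x j y) ∂(pw μ ι) ∂μ := by
  rw [← (mp_update μ j).lintegral_comp hF]
  exact lintegral_prod_symm _ (hF.comp (mp_update μ j).measurable).aemeasurable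

end Pool.Agent.P.MP_181257_gt
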