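import Pool.Agent.P.MP_181257_gt.PdB0

set_option autoImplicit false
set_option linter.unusedSectionVars false
set_option linter.unusedVariables false

open MeasureTheory ProbabilityTheory Module Set Filter Topology Function
open scoped RealInnerProductSpace ENNReal Pointwise LinearAlgebra.Projectivization

noncomputable section

namespace Pool.Agent.P.MP_181257_gt

variable {V : Type} [NormedAddCommGroup V] [InnerProductSpace ℝ V] [FiniteDimensional ℝ V]
  [MeasurableSpace V] [BorelSpace V] {ι : Type} [Fintype ι] [DecidableEq ι]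

theorem integrable_Hm {μ : Measure V} (hμ : Mom μ) (u : V) :
    Integrable (fun x => |⟪u, x⟫|) μ := by
  refine (hμ.int.const_mul ‖u‖).mono' ?_ (ae_of_all _ fun x => ?_)
  · exact (continuous_const.inner continuous_id).abs.aestronglyMeasurable
  · rw [Real.norm_eq_abs, abs_abs]
    exact abs_real_inner_le_norm u x

theorem integrable_pw_PdB1 (b : Basis ι ℝ V) {μ : Measure V} (hμ : Mom μ) (S : Finset ι)
    (w : ι → V) :
    Integrable (fun x : ι → V => |b.det (fun i => if i ∈ S then w i else x i)|) (pw μ ι) := by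
  have := hμ.prob
  obtain ⟨C, hC, h⟩ := bdet_bound b
  have h1 : Integrable (fun x : ι → V => ∏ i, (fun y : V => ‖if i ∈ S then w i else y‖) (x i))
      (pw μ ι) := by
    refine Integrable.fintype_prod (f := fun i (y : V) => ‖if i ∈ S then w i else y‖) fun i => ?_
    by_cases hi : i ∈ S
    · simp only [if_pos hi]
      exact integrable_const _
    · simp only [if_neg hi]
      exact hμ.int
  refine (h1.const_mul C).mono' ?_ (ae_of_all _ fun x => ?_)
  · refine ((continuous_bdet b).comp (continuous_pi fun i => ?_)).abs.aestronglyMeasurable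
    by_cases hi : i ∈ S
    · simp only [if_pos hi]
      exact continuous_const
    · simp only [if_neg hi]
      exact continuous_apply i
  · rw [Real.norm_eq_abs, abs_abs]
    exact h _

theorem integrable_bdet (b : Basis ι ℝ V) {μ : Measure V} (hμ : Mom μ) :
    Integrable (fun x : ι → V => |b.det x|) (pw μ ι) := by
  simpa using integrable_pw_PdB1 b hμ ∅ 0

theorem integrable_Qm (b : Basis ι ℝ V) (j : ι) {μ : Measure V} (hμ : Mom μ) (u : V) :
    Integrable (fun x : ι → V => |b.det (update x j u)|) (pw μ ι) := by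
  have e : ∀ x : ι → V, update x j u = fun i => if i ∈ ({j} : Finset ι) then u else x i := by
    intro x
    funext i
    simp [update_apply]
  simp only [e]
  exact integrable_pw_PdB1 b hμ {j} fun _ => u

theorem integrable_Gm (b : Basis ι ℝ V) (j k : ι) {μ : Measure V} (hμ : Mom μ) (u v : V) :
    Integrable (fun x : ι → V => |b.det (update (update x j u) k v)|) (pw μ ι) := by
  have e : ∀ x : ι → V, update (update x j u) k v =
      fun i => if i ∈ ({j, k} : Finset ι) then (if i = k then v else u) else x i := by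
    intro x
    funext i
    by_cases h1 : i = k <;> by_cases h2 : i = j <;> simp [update_apply, h1, h2]
  simp only [e]
  exact integrable_pw_PdB1 b hμ {j, k} fun i => if i = k then v else u

theorem integrable_norm_Nv (b : Basis ι ℝ V) (j : ι) {μ : Measure V} (hμ : Mom μ) :
    Integrable (fun x : ι → V => ‖Nv b j x‖) (pw μ ι) := by
  have h1 : Integrable (fun x : ι → V =>
      ∑ k, |b.det (update x j (stdOrthonormalBasis ℝ V k))|) (pw μ ι) :=
    integrable_finsetSum _ fun k _ => integrable_Qm b j hμ _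
  refine h1.mono' (continuous_Nv b j).norm.aestronglyMeasurable (ae_of_all _ fun x => ?_)
  rw [norm_norm]
  unfold Nv
  refine (norm_sum_le _ _).trans (Finset.sum_le_sum fun k _ => ?_)
  rw [norm_smul, (stdOrthonormalBasis ℝ V).orthonormal.1 k, mul_one, Real.norm_eq_abs]

theorem Hm_nonneg (μ : Measure V) (u : V) : 0 ≤ Hm μ u :=
  integral_nonneg fun _ => abs_nonneg _

theorem Hm_smul (μ : Measure V) (t : ℝ) (u : V) : Hm μ (t • u) = |t| * Hm μ u := by
  unfold Hm
  rw [← integral_const_mul]
  simp only [real_inner_smul_left, abs_mul]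

theorem Hm_le {μ : Measure V} (hμ : Mom μ) (u : V) : Hm μ u ≤ (∫ x, ‖x‖ ∂μ) * ‖u‖ := by
  unfold Hm
  rw [← integral_mul_const]
  refine integral_mono (integrable_Hm hμ u) (hμ.int.mul_const _) fun x => ?_
  have := abs_real_inner_le_norm u x
  simpa [mul_comm] using this

theorem Hm_add_le {μ : Measure V} (hμ : Mom μ) (u v : V) : Hm μ (u + v) ≤ Hm μ u + Hm μ v := by
  unfold Hm
  rw [← integral_add (integrable_Hm hμ u) (integrable_Hm hμ v)]
  refine integral_mono (integrable_Hm hμ _) ((integrable_Hm hμ u).add (integrable_Hm hμ v))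
    fun x => ?_
  show |⟪u + v, x⟫| ≤ |⟪u, x⟫| + |⟪v, x⟫|
  rw [inner_add_left]
  exact abs_add_le _ _

theorem continuous_Hm {μ : Measure V} (hμ : Mom μ) : Continuous (Hm μ) := by
  have h0 : 0 ≤ ∫ x, ‖x‖ ∂μ := integral_nonneg fun _ => norm_nonneg _
  refine (LipschitzWith.of_le_add_mul (Real.toNNReal (∫ x, ‖x‖ ∂μ)) fun u v => ?_).continuous
  have h1 := Hm_add_le hμ v (u - v)
  have h2 := Hm_le hμ (u - v)
  rw [add_sub_cancel] at h1
  rw [Real.coe_toNNReal _ h0, dist_eq_norm]
  linarith

theorem ofReal_Hm {μ : Measure V} (hμ : Mom μ) (u : V) :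
    ENNReal.ofReal (Hm μ u) = ∫⁻ x, ENNReal.ofReal |⟪u, x⟫| ∂μ :=
  ofReal_integral_eq_lintegral_ofReal (integrable_Hm hμ u) (ae_of_all _ fun _ => abs_nonneg _)

theorem integrable_Hm_comp {μ ν : Measure V} (hμ : Mom μ) (hν : Mom ν) :
    Integrable (Hm ν) μ := by
  refine (hμ.int.const_mul (∫ x, ‖x‖ ∂ν)).mono' (continuous_Hm hν).aestronglyMeasurable
    (ae_of_all _ fun x => ?_)
  rw [Real.norm_eq_abs, abs_of_nonneg (Hm_nonneg ν x)]
  exact Hm_le hν x

theorem Good.lower {μ : Measure V} (hμ : Good μ) : ∃ δ : ℝ, 0 < δ ∧ ∀ u, δ * ‖u‖ ≤ Hm μ u := by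
  have key : ∃ δ : ℝ, 0 < δ ∧ ∀ u : V, ‖u‖ = 1 → δ ≤ Hm μ u := by
    rcases (Metric.sphere (0 : V) 1).eq_empty_or_nonempty with h | h
    · refine ⟨1, one_pos, fun u hu => ?_⟩
      have : u ∈ Metric.sphere (0 : V) 1 := by simpa using hu
      rw [h] at this
      exact this.elim
    · obtain ⟨u0, hu0, hmin⟩ := (isCompact_sphere (0 : V) 1).exists_isMinOn h
        (continuous_Hm hμ.mom).continuousOn
      have h1 : ‖u0‖ = 1 := by simpa using hu0
      refine ⟨Hm μ u0, hμ.pos u0 ?_, fun u hu => hmin (by simpa using hu)⟩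
      rintro rfl
      simp at h1
  obtain ⟨δ, hδ, h⟩ := key
  refine ⟨δ, hδ, fun u => ?_⟩
  by_cases hu : u = 0
  · rw [hu, norm_zero, mul_zero]
    exact Hm_nonneg μ 0
  · have hn : 0 < ‖u‖ := norm_pos_iff.2 hu
    have h1 := h (‖u‖⁻¹ • u) (by rw [norm_smul, norm_inv, norm_norm, inv_mul_cancel₀ hn.ne'])
    rw [Hm_smul, abs_of_pos (inv_pos.2 hn), le_inv_mul_iff₀ hn, mul_comm] at h1
    exact h1

end Pool.Agent.P.MP_181257_gt
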