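import Pool.Agent.P.MP_181257_gt.PdB1

set_option autoImplicit false
set_option linter.unusedSectionVars false
set_option linter.unusedVariables false

open MeasureTheory ProbabilityTheory Module Set Filter Topology Function
open scoped RealInnerProductSpace ENNReal Pointwise LinearAlgebra.Projectivization

noncomputable section

namespace Pool.Agent.P.MP_181257_gt

variable {V : Type} [NormedAddCommGroup V] [InnerProductSpace ℝ V] [FiniteDimensional ℝ V]
  [MeasurableSpace V] [BorelSpace V] {ι : Type} [Fintype ι] [DecidableEq ι]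

theorem perm_PdB1b (μ : Measure V) [IsProbabilityMeasure μ] (σ : Equiv.Perm ι) {g : (ι → V) → ℝ}
    (hg : Measurable g) : ∫ x, g (x ∘ σ) ∂(pw μ ι) = ∫ x, g x ∂(pw μ ι) := by
  have h := mp_permP μ σ
  rw [← integral_map h.measurable.aemeasurable hg.aestronglyMeasurable, h.map_eq]

theorem cont_PdB1b (b : Basis ι ℝ V) (j k : ι) (u v : V) :
    Continuous fun x : ι → V => |b.det (update (update x j u) k v)| :=
  ((continuous_bdet b).comp
    ((continuous_id.update j continuous_const).update k continuous_const)).abs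

theorem bound_PdB1b (b : Basis ι ℝ V) (k : ι) (y : ι → V) (v : V) {R : ℝ} (hv : ‖v‖ ≤ R) :
    |b.det (update y k v)| ≤ R * ∑ c, |b.det (update y k (stdOrthonormalBasis ℝ V c))| := by
  rw [← inner_Nv, ← (stdOrthonormalBasis ℝ V).sum_inner_mul_inner, Finset.mul_sum]
  refine (Finset.abs_sum_le_sum_abs _ _).trans (Finset.sum_le_sum fun c _ => ?_)
  rw [abs_mul, inner_Nv]
  refine mul_le_mul_of_nonneg_right ((abs_real_inner_le_norm _ _).trans ?_) (abs_nonneg _)
  rwa [(stdOrthonormalBasis ℝ V).norm_eq_one, mul_one]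

theorem Qm_smul (b : Basis ι ℝ V) (j : ι) (μ : Measure V) (t : ℝ) (u : V) :
    Qm b j μ (t • u) = |t| * Qm b j μ u := by
  simp only [Qm, AlternatingMap.map_update_smul, smul_eq_mul, abs_mul]
  exact integral_const_mul _ _

theorem Qm_perm (b : Basis ι ℝ V) (j k : ι) (μ : Measure V) [IsProbabilityMeasure μ] (u : V) :
    Qm b j μ u = Qm b k μ u := by
  rw [Qm, Qm, ← perm_PdB1b μ (Equiv.swap j k) (g := fun x => |b.det (update x j u)|)
    ((continuous_bdet b).comp (continuous_id.update j continuous_const)).abs.measurable]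
  refine integral_congr_ae (ae_of_all _ fun x => ?_)
  dsimp only
  rw [← abs_bdet_perm b (update x k u) (Equiv.swap j k), update_comp_equiv, Equiv.symm_swap,
    Equiv.swap_apply_right]

theorem Gm_perm (b : Basis ι ℝ V) {j k k' : ι} (hjk : j ≠ k) (hjk' : j ≠ k') (μ : Measure V)
    [IsProbabilityMeasure μ] (u v : V) : Gm b j k μ u v = Gm b j k' μ u v := by
  rw [Gm, Gm, ← perm_PdB1b μ (Equiv.swap k k') (g := fun x => |b.det (update (update x j u) k v)|)
    (cont_PdB1b b j k u v).measurable]
  refine integral_congr_ae (ae_of_all _ fun x => ?_)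
  dsimp only
  rw [← abs_bdet_perm b (update (update x j u) k' v) (Equiv.swap k k'), update_comp_equiv,
    update_comp_equiv, Equiv.symm_swap, Equiv.swap_apply_right,
    Equiv.swap_apply_of_ne_of_ne hjk hjk']

theorem Mp_perm (b : Basis ι ℝ V) {j j' k : ι} (hjk : j ≠ k) (hjk' : j' ≠ k) (μ : Measure V)
    [IsProbabilityMeasure μ] (π : Pl V) : Mp b j k μ π = Mp b j' k μ π := by
  have mM : ∀ j : ι, MeasurableSet {y : ι → V | ∀ i, i ≠ j → i ≠ k → y i ∈ π.spᗮ} := fun j => by
    simp only [Set.ofPred_forall]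
    exact MeasurableSet.iInter fun m => MeasurableSet.iInter fun _ => MeasurableSet.iInter fun _ =>
      measurable_pi_apply m π.spᗮ.closed_of_finiteDimensional.measurableSet
  have hk : Equiv.swap j j' k = k := Equiv.swap_apply_of_ne_of_ne hjk.symm hjk'.symm
  rw [Mp, Mp, ← integral_indicator (mM j), ← integral_indicator (mM j'),
    ← perm_PdB1b μ (Equiv.swap j j') ((cont_PdB1b b j k π.p π.q).measurable.indicator (mM j))]
  refine integral_congr_ae (ae_of_all _ fun x => ?_)
  have e : x ∘ Equiv.swap j j' ∈ {y : ι → V | ∀ i, i ≠ j → i ≠ k → y i ∈ π.spᗮ} ↔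
      x ∈ {y : ι → V | ∀ i, i ≠ j' → i ≠ k → y i ∈ π.spᗮ} := by
    refine (Equiv.swap j j').forall_congr fun i => imp_congr ?_ (imp_congr ?_ Iff.rfl)
    · rw [← (Equiv.swap j j').injective.ne_iff, Equiv.swap_apply_left]
    · rw [← (Equiv.swap j j').injective.ne_iff, hk]
  dsimp only
  by_cases hx : x ∈ {y : ι → V | ∀ i, i ≠ j' → i ≠ k → y i ∈ π.spᗮ}
  · rw [indicator_of_mem hx, indicator_of_mem (e.2 hx),
      ← abs_bdet_perm b (update (update x j' π.p) k π.q) (Equiv.swap j j'), update_comp_equiv,
      update_comp_equiv, Equiv.symm_swap, Equiv.swap_apply_right, hk]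
  · rw [indicator_of_notMem hx, indicator_of_notMem fun h => hx (e.1 h)]

theorem continuous_Qm (b : Basis ι ℝ V) (j : ι) {μ : Measure V} (hμ : Mom μ) :
    Continuous (Qm b j μ) := by
  have := hμ.prob
  have hm := (continuous_Nv b j).measurable.aemeasurable (μ := pw μ ι)
  have h : Mom ((pw μ ι).map (Nv b j)) := ⟨Measure.isProbabilityMeasure_map hm,
    (integrable_map_measure continuous_norm.aestronglyMeasurable hm).2 (integrable_norm_Nv b j hμ)⟩
  refine (continuous_Hm h).congr fun u => ?_
  rw [Hm, integral_map hm (continuous_const.inner continuous_id).abs.aestronglyMeasurable]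
  simp only [inner_Nv, Qm]

theorem continuous_Gm (b : Basis ι ℝ V) {j k : ι} (hjk : j ≠ k) {μ : Measure V} (hμ : Mom μ) :
    Continuous fun p : V × V => Gm b j k μ p.1 p.2 := by
  refine continuous_iff_continuousAt.2 fun p₀ => continuousAt_of_dominated
    (bound := fun x => (‖p₀‖ + 1) * ∑ c, (‖p₀‖ + 1) * ∑ a, |b.det (update (update x j
      (stdOrthonormalBasis ℝ V a)) k (stdOrthonormalBasis ℝ V c))|)
    (Eventually.of_forall fun p => (cont_PdB1b b j k p.1 p.2).aestronglyMeasurable) ?_ ?_
    (ae_of_all _ fun x => ?_)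
  · filter_upwards [continuous_norm.continuousAt.eventually (gt_mem_nhds (lt_add_one ‖p₀‖))]
      with p hp
    refine ae_of_all _ fun x => ?_
    rw [Real.norm_eq_abs, abs_abs]
    refine (bound_PdB1b b k _ _ ((norm_snd_le p).trans hp.le)).trans
      (mul_le_mul_of_nonneg_left (Finset.sum_le_sum fun c _ => ?_) (by positivity))
    simp only [update_comm hjk]
    exact bound_PdB1b b j _ _ ((norm_fst_le p).trans hp.le)
  · exact (integrable_finsetSum _ fun c _ => (integrable_finsetSum _ fun a _ =>
      integrable_Gm b j k hμ _ _).const_mul _).const_mul _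
  · exact ((continuous_bdet b).comp
      ((continuous_const.update j continuous_fst).update k continuous_snd)).abs.continuousAt

end Pool.Agent.P.MP_181257_gt
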