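import Pool.Agent.P.MP_181257_gt.PdB1b
import Pool.Agent.P.MP_181257_gt.PdA2
import Pool.Agent.P.MP_181257_gt.PdA4

set_option autoImplicit false
set_option linter.unusedSectionVars false
set_option linter.unusedVariables false

open MeasureTheory ProbabilityTheory Module Set Filter Topology Function
open scoped RealInnerProductSpace ENNReal Pointwise LinearAlgebra.Projectivization

noncomputable section

namespace Pool.Agent.P.MP_181257_gt

variable {V : Type} [NormedAddCommGroup V] [InnerProductSpace ℝ V] [FiniteDimensional ℝ V]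
  [MeasurableSpace V] [BorelSpace V] {ι : Type} [Fintype ι] [DecidableEq ι]

theorem isClosed_csupp (μ : Measure V) : IsClosed (csupp μ) := by
  rw [← isOpen_compl_iff, isOpen_iff_forall_mem_open]
  intro z hz
  simp only [csupp, mem_compl_iff, mem_ofPred_eq, not_forall, not_not] at hz
  obtain ⟨O, h1, h2, h3⟩ := hz
  exact ⟨O, fun w hw h => h O h1 hw h3, h1, h2⟩

theorem zero_mem_PdB2 {μ : Measure V} (h0 : μ ≠ 0) : (0 : V) ∈ csupp μ := by
  intro O hO hz h
  refine h0 (Measure.measure_univ_eq_zero.1 (measure_mono_null (fun x _ => ?_) h))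
  have h1 : ∀ᶠ t in 𝓝 (0 : ℝ), t • x ∈ O :=
    (continuous_id.smul continuous_const).continuousAt.eventually_mem
      (hO.mem_nhds (by simpa using hz))
  exact ((eventually_mem_nhdsWithin (s := {0}ᶜ)).and (h1.filter_mono nhdsWithin_le_nhds)).exists

theorem csupp_smul {μ : Measure V} (h0 : μ ≠ 0) (t : ℝ) {z : V} (hz : z ∈ csupp μ) :
    t • z ∈ csupp μ := by
  by_cases ht : t = 0
  · rw [ht, zero_smul]
    exact zero_mem_PdB2 h0
  · intro O hO hzO h
    refine hz ((fun x => t • x) ⁻¹' O) (hO.preimage (continuous_const_smul t)) hzO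
      (measure_mono_null ?_ h)
    rintro x ⟨s, hs, hx⟩
    exact ⟨t * s, mul_ne_zero ht hs, by rwa [mul_smul]⟩

theorem null_compl_csupp (μ : Measure V) : μ (csupp μ)ᶜ = 0 := by
  refine measure_null_of_locally_null _ fun z hz => ?_
  simp only [csupp, mem_compl_iff, mem_ofPred_eq, not_forall, not_not] at hz
  obtain ⟨O, h1, h2, h3⟩ := hz
  exact ⟨O, mem_nhdsWithin_of_mem_nhds (h1.mem_nhds h2),
    measure_mono_null (t := cone O) (fun x hx => ⟨1, one_ne_zero, by rwa [one_smul]⟩) h3⟩

theorem span_of_null {μ : Measure V} (hμ : Good μ) {A : Set V} (hA : μ Aᶜ = 0) :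
    Submodule.span ℝ A = ⊤ := by
  by_contra hn
  obtain ⟨u, hu, h0⟩ := Submodule.exists_mem_ne_zero_of_ne_bot
    (mt Submodule.orthogonal_eq_bot_iff.1 hn)
  refine (hμ.pos u h0).ne' (integral_eq_zero_of_ae ?_)
  filter_upwards [show ∀ᵐ x ∂μ, x ∈ A from hA] with x hx
  rw [Submodule.inner_left_of_mem_orthogonal (Submodule.subset_span hx) hu, abs_zero, Pi.zero_apply]

theorem Good.ne_top {μ : Measure V} (hμ : Good μ) {U : Submodule ℝ V} (hU : U ≠ ⊤) :
    μ (U : Set V)ᶜ ≠ 0 := fun h =>
  hU (by rw [← span_of_null hμ h, Submodule.span_eq])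

/-- open sets that are cones in every variable and meet the product of the supports -/
theorem pos_of_csupp {μ : Measure V} [IsFiniteMeasure μ] {S : ι → Set V}
    (hS : ∀ i, MeasurableSet (S i)) {z : ι → V} (hz : ∀ i, z i ∈ csupp (μ.restrict (S i)))
    {U : Set (ι → V)} (hU : IsOpen U) (hzU : z ∈ U)
    (hcone : ∀ (t : ι → ℝ) (x : ι → V), (∀ i, t i ≠ 0) → (fun i => t i • x i) ∈ U → x ∈ U) :
    pw μ ι (U ∩ univ.pi S) ≠ 0 := by
  obtain ⟨O, h1, h2⟩ := isOpen_pi_iff'.1 hU z hzU
  intro h
  have h3 : univ.pi (fun i => cone (O i) ∩ S i) ⊆ U ∩ univ.pi S := fun x hx => by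
    choose t ht ht' using fun i => (hx i (mem_univ i)).1
    exact ⟨hcone t x ht (h2 fun i _ => ht' i), fun i hi => (hx i hi).2⟩
  have h4 := measure_mono_null h3 h
  rw [Measure.pi_pi, Finset.prod_eq_zero_iff] at h4
  obtain ⟨i, -, hi⟩ := h4
  exact hz i (O i) (h1 i).1 (h1 i).2 (by rwa [Measure.restrict_apply' (hS i)])

theorem ne_zero_PdB2 {μ : Measure V} (hμ : Good μ) : μ ≠ 0 :=
  have := hμ.mom.prob
  IsProbabilityMeasure.ne_zero μ

theorem pos_PdB2 (b : Basis ι ℝ V) {μ : Measure V} (hμ : Good μ) {F : (ι → V) → ι → V}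
    (hF : Continuous F) (hi : Integrable (fun x => |b.det (F x)|) (pw μ ι)) {z : ι → V}
    (hz : ∀ i, z i ∈ csupp μ) (hz' : b.det (F z) ≠ 0)
    (hc : ∀ (t : ι → ℝ) x, ∃ s : ι → ℝ, F (fun i => t i • x i) = fun i => s i • F x i) :
    0 < ∫ x, |b.det (F x)| ∂(pw μ ι) := by
  have := hμ.mom.prob
  rw [integral_pos_iff_support_of_nonneg (fun x => abs_nonneg _) hi, pos_iff_ne_zero]
  have h := pos_of_csupp (μ := μ) (S := fun _ : ι => univ) (fun _ => MeasurableSet.univ) (z := z)
    (fun i => by rw [Measure.restrict_univ]; exact hz i) (U := {x | b.det (F x) ≠ 0})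
    (isOpen_ne_fun ((continuous_bdet b).comp hF) continuous_const) hz' fun t x _ h h0 => by
      obtain ⟨s, hs⟩ := hc t x
      exact h (by rw [hs, AlternatingMap.map_smul_univ, h0, smul_zero])
  exact fun h' => h (measure_mono_null (fun x hx => abs_ne_zero.2 hx.1) h')

theorem Qm_pos (b : Basis ι ℝ V) (j : ι) {μ : Measure V} (hμ : Good μ) {u : V} (hu : u ≠ 0) :
    0 < Qm b j μ u := by
  obtain ⟨y, h1, h2, h3⟩ := ext_basis b (span_of_null hμ (null_compl_csupp μ)) (J₀ := {j})
    (x := fun _ => u) (by rw [Finset.coe_singleton]; exact LinearIndepOn.singleton hu)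
  refine pos_PdB2 b hμ (F := fun x => update x j u) (continuous_id.update j continuous_const)
    (integrable_Qm b j hμ.mom u) (z := update y j 0) (fun i => ?_) ?_
    fun t x => ⟨update t j 1, funext fun i => ?_⟩
  · by_cases hi : i = j
    · rw [hi, update_self]; exact zero_mem_PdB2 (ne_zero_PdB2 hμ)
    · rw [update_of_ne hi]; exact h2 i (by simpa using hi)
  · rwa [update_idem, ← show y j = u from h1 j (by simp), update_eq_self]
  · by_cases hi : i = j
    · simp [hi]
    · simp [hi]

theorem Gm_pos (b : Basis ι ℝ V) {j k : ι} (hjk : j ≠ k) {μ : Measure V} (hμ : Good μ) {u v : V}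
    (huv : LinearIndependent ℝ ![u, v]) : 0 < Gm b j k μ u v := by
  obtain ⟨y, h1, h2, h3⟩ := ext_basis b (span_of_null hμ (null_compl_csupp μ)) (J₀ := {j, k})
    (x := update (fun _ => u) k v) (by
      rw [Finset.coe_pair, LinearIndepOn.pair_iff _ hjk, update_self, update_of_ne hjk]
      exact LinearIndependent.pair_iff.1 huv)
  have e1 := h1 j (by simp)
  have e2 := h1 k (by simp)
  rw [update_of_ne hjk] at e1
  rw [update_self] at e2
  refine pos_PdB2 b hμ (F := fun x => update (update x j u) k v)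
    ((continuous_id.update j continuous_const).update k continuous_const)
    (integrable_Gm b j k hμ.mom u v) (z := update (update y k 0) j 0) (fun i => ?_) ?_
    fun t x => ⟨update (update t j 1) k 1, funext fun i => ?_⟩
  · by_cases hi : i = j
    · rw [hi, update_self]; exact zero_mem_PdB2 (ne_zero_PdB2 hμ)
    · rw [update_of_ne hi]
      by_cases hk : i = k
      · rw [hk, update_self]; exact zero_mem_PdB2 (ne_zero_PdB2 hμ)
      · rw [update_of_ne hk]; exact h2 i (by simp [hi, hk])
  · rwa [update_idem, update_comm hjk.symm, update_idem, ← e1, ← e2, update_eq_self,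
      update_eq_self]
  · by_cases hk : i = k
    · simp [hk]
    · by_cases hi : i = j
      · simp [hi, hjk]
      · simp [hi, hk]

end Pool.Agent.P.MP_181257_gt
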