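import Pool.Agent.P.MP_181257_gt.PdB2

set_option autoImplicit false
set_option linter.unusedSectionVars false
set_option linter.unusedVariables false

open MeasureTheory ProbabilityTheory Module Set Filter Topology Function
open scoped RealInnerProductSpace ENNReal Pointwise LinearAlgebra.Projectivization

noncomputable section

namespace Pool.Agent.P.MP_181257_gt

variable {V : Type} [NormedAddCommGroup V] [InnerProductSpace ℝ V] [FiniteDimensional ℝ V]
  [MeasurableSpace V] [BorelSpace V] {ι : Type} [Fintype ι] [DecidableEq ι]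

theorem D_eq_abs_det_PdB2b {k : ℕ} (o : OrthonormalBasis (Fin k) ℝ V) (v : Fin k → V) :
    D v = |o.toBasis.det v| := by
  have h : Matrix.gram ℝ v = (o.toBasis.toMatrix v).transpose * o.toBasis.toMatrix v := by
    ext a c
    rw [Matrix.gram_apply, Matrix.mul_apply, ← o.sum_inner_mul_inner (v a) (v c)]
    refine Finset.sum_congr rfl fun i _ => ?_
    rw [Matrix.transpose_apply, Basis.toMatrix_apply, Basis.toMatrix_apply,
      OrthonormalBasis.coe_toBasis_repr_apply, OrthonormalBasis.coe_toBasis_repr_apply,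
      OrthonormalBasis.repr_apply_apply, OrthonormalBasis.repr_apply_apply,
      real_inner_comm (v a) (o i)]
  unfold D
  rw [h, Matrix.det_mul, Matrix.det_transpose, Basis.det_apply, Real.sqrt_mul_self_eq_abs]

theorem mp_tail_PdB2b {m : ℕ} (e : Fin (m + 1) ≃ ι) (μ : Measure V) [IsProbabilityMeasure μ] :
    MeasurePreserving (fun (x : ι → V) (i : Fin m) => x (e i.succ)) (pw μ ι) (mk μ m) := by
  have hm : Measurable fun (x : ι → V) (i : Fin m) => x (e i.succ) :=
    measurable_pi_iff.2 fun i => measurable_pi_apply _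
  refine ⟨hm, (Measure.pi_eq fun s hs => ?_).symm⟩
  rw [Measure.map_apply hm (MeasurableSet.univ_pi hs)]
  have h : (fun (x : ι → V) (i : Fin m) => x (e i.succ)) ⁻¹' univ.pi s
      = univ.pi fun i => (Fin.cons univ s : Fin (m + 1) → Set V) (e.symm i) := by
    ext x
    simp only [mem_preimage, mem_univ_pi]
    constructor
    · intro hx i
      obtain ⟨l, rfl⟩ := e.surjective i
      rw [e.symm_apply_apply]
      refine Fin.cases ?_ (fun l => ?_) l
      · exact mem_univ _
      · exact hx l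
    · intro hx l
      have := hx (e l.succ)
      rw [e.symm_apply_apply] at this
      exact this
  rw [h, Measure.pi_pi,
    e.symm.prod_comp fun l => μ ((Fin.cons univ s : Fin (m + 1) → Set V) l), Fin.prod_univ_succ]
  simp

theorem continuous_D_cons_PdB2b {m : ℕ} (u : V) :
    Continuous fun x : Fin m → V => D (Fin.cons u x : Fin (m + 1) → V) := by
  refine continuous_D.comp (continuous_pi fun l => ?_)
  refine Fin.cases ?_ (fun l => ?_) l
  · exact continuous_const
  · exact continuous_apply l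

theorem Qm_aux_PdB2b {m : ℕ} (hm : finrank ℝ V = m + 1) (b : Basis ι ℝ V) (j : ι) :
    ∃ c : ℝ, 0 < c ∧ ∀ (μ : Measure V) [IsProbabilityMeasure μ] (u : V),
      Qm b j μ u = c * ∫ x, D (Fin.cons u x : Fin (m + 1) → V) ∂(mk μ m) := by
  have hc : Fintype.card ι = m + 1 := by rw [← hm, finrank_eq_card_basis b]
  obtain ⟨e, he⟩ : ∃ e : Fin (m + 1) ≃ ι, e 0 = j :=
    ⟨(Equiv.swap 0 (Fintype.equivFinOfCardEq hc j)).trans (Fintype.equivFinOfCardEq hc).symm,
      by simp⟩
  let o : OrthonormalBasis (Fin (m + 1)) ℝ V := (stdOrthonormalBasis ℝ V).reindex (finCongr hm)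
  let b' : Basis (Fin (m + 1)) ℝ V := b.reindex e.symm
  have hb : ∀ y : ι → V, |b.det y| = |b'.det o.toBasis| * D (fun l => y (e l)) := by
    intro y
    have h1 : b'.det (fun l => y (e l)) = b.det y := by
      rw [Basis.det_reindex]
      congr 1
      funext i
      simp
    have h2 := congrArg (fun f : V [⋀^Fin (m + 1)]→ₗ[ℝ] ℝ => f fun l => y (e l))
      (AlternatingMap.eq_smul_basis_det o.toBasis b'.det)
    simp only [AlternatingMap.smul_apply, smul_eq_mul] at h2
    rw [D_eq_abs_det_PdB2b o, ← abs_mul, ← h1, h2]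
  refine ⟨|b'.det o.toBasis|, abs_pos.2 (b'.isUnit_det o.toBasis).ne_zero, fun μ _ u => ?_⟩
  have hmp := mp_tail_PdB2b e μ
  rw [← hmp.map_eq, integral_map hmp.measurable.aemeasurable
    (continuous_D_cons_PdB2b u).aestronglyMeasurable, ← integral_const_mul]
  unfold Qm
  refine integral_congr_ae (Eventually.of_forall fun x => ?_)
  simp only
  rw [hb]
  congr 2
  funext l
  refine Fin.cases ?_ (fun l => ?_) l
  · rw [he, update_self, Fin.cons_zero]
  · rw [Fin.cons_succ, update_of_ne]
    rw [← he]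
    exact fun h => Fin.succ_ne_zero l (e.injective h)

theorem Qm_eq_Qd (b : Basis ι ℝ V) (j : ι) : ∃ c : ℝ, 0 < c ∧
    ∀ (μ : Measure V) [IsProbabilityMeasure μ] (u : V), Qm b j μ u = c * Qd μ u := by
  have h1 : 0 < finrank ℝ V := by
    rw [finrank_eq_card_basis b]
    exact Fintype.card_pos_iff.2 ⟨j⟩
  exact Qm_aux_PdB2b (m := finrank ℝ V - 1) (by omega) b j

theorem Qd_pos {μ : Measure V} (hμ : Good μ) {u : V} (hu : u ≠ 0) : 0 < Qd μ u := by
  haveI := hμ.mom.prob
  haveI : Nontrivial V := ⟨⟨u, 0, hu⟩⟩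
  have h1 : 0 < finrank ℝ V := finrank_pos
  obtain ⟨c, hc, h⟩ := Qm_eq_Qd (finBasis ℝ V) ⟨0, h1⟩
  have h2 := Qm_pos (finBasis ℝ V) ⟨0, h1⟩ hμ hu
  rw [h] at h2
  exact (mul_pos_iff_of_pos_left hc).1 h2

theorem Qd_smul (hn : 1 ≤ finrank ℝ V) (μ : Measure V) [IsProbabilityMeasure μ] (t : ℝ) (u : V) :
    Qd μ (t • u) = |t| * Qd μ u := by
  unfold Qd
  rw [← integral_const_mul]
  refine integral_congr_ae (Eventually.of_forall fun x => ?_)
  simp only
  rw [D_cons_eq, D_cons_eq, map_smul, norm_smul, Real.norm_eq_abs]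
  ring

end Pool.Agent.P.MP_181257_gt
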