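import Pool.Agent.P.MP_181257_gt.PdB2b

set_option autoImplicit false
set_option linter.unusedSectionVars false
set_option linter.unusedVariables false

open MeasureTheory ProbabilityTheory Module Set Filter Topology Function
open scoped RealInnerProductSpace ENNReal Pointwise LinearAlgebra.Projectivization

noncomputable section

namespace Pool.Agent.P.MP_181257_gt

variable {V : Type} [NormedAddCommGroup V] [InnerProductSpace ℝ V] [FiniteDimensional ℝ V]
  [MeasurableSpace V] [BorelSpace V] {ι : Type} [Fintype ι] [DecidableEq ι]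

/-- the transfer identity -/
theorem Half.transfer (b : Basis ι ℝ V) {μ ν : Measure V} (hμ : Mom μ) (hν : Mom ν)
    (h : Half μ ν) : ∃ a : ℝ, 0 < a ∧ (∀ j u, Hm ν u = a * Qm b j μ u) ∧
      ∀ (j : ι) (φ : V → ℝ≥0∞), Measurable φ →
        (∀ (t : ℝ) (x : V), φ (t • x) = ENNReal.ofReal |t| * φ x) →
        ∫⁻ w, φ w ∂ν = ENNReal.ofReal a * ∫⁻ x, φ (Nv b j x) ∂(pw μ ι) := by
  have := hμ.prob
  obtain ⟨a, ha, hau⟩ := h
  rcases isEmpty_or_nonempty ι with hι | ⟨⟨j0⟩⟩
  · exact ⟨1, one_pos, fun j => hι.elim j, fun j => hι.elim j⟩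
  obtain ⟨c, hc, hcu⟩ := Qm_eq_Qd b j0
  have h1 : ∀ j u, Hm ν u = a / c * Qm b j μ u := by
    intro j u
    rw [Qm_perm b j j0, hcu μ u, hau u]
    field_simp
  refine ⟨a / c, div_pos ha hc, h1, fun j φ hφ hom => ?_⟩
  have hm : Measurable (Nv b j) := (continuous_Nv b j).measurable
  have hβ : Mom ((pw μ ι).map (Nv b j)) := by
    refine ⟨Measure.isProbabilityMeasure_map hm.aemeasurable, ?_⟩
    rw [integrable_map_measure continuous_norm.aestronglyMeasurable hm.aemeasurable]
    exact integrable_norm_Nv b j hμ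
  have h2 : ∀ u : V, ∫ x, |⟪u, x⟫| ∂ν = a / c * ∫ x, |⟪u, x⟫| ∂((pw μ ι).map (Nv b j)) := by
    intro u
    have hcu : Continuous fun x : V => |⟪u, x⟫| := (continuous_const.inner continuous_id).abs
    rw [integral_map hm.aemeasurable hcu.aestronglyMeasurable]
    simp only [inner_Nv]
    exact h1 j u
  rw [cos_inj hν hβ (div_pos ha hc) h2 hφ hom, lintegral_map hφ hm]

theorem marginal_pt (b : Basis ι ℝ V) (j : ι) {μ : Measure V} (hμ : Mom μ) {ψ : V → ℝ≥0∞}
    (hψ : Measurable ψ) :
    ∫⁻ x, ψ (x j) * ENNReal.ofReal |b.det x| ∂(pw μ ι)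
      = ∫⁻ y, ψ y * ENNReal.ofReal (Qm b j μ y) ∂μ := by
  have := hμ.prob
  have hd : Measurable fun x : ι → V => ENNReal.ofReal |b.det x| :=
    (continuous_bdet b).abs.measurable.ennreal_ofReal
  have hF : Measurable fun x : ι → V => ψ (x j) * ENNReal.ofReal |b.det x| :=
    (hψ.comp (measurable_pi_apply j)).mul hd
  rw [lintegral_update' μ j hF]
  refine lintegral_congr fun y => ?_
  simp only [update_self]
  have hu : Measurable fun x : ι → V => update x j y := measurable_update_left
  have hd' : Measurable fun x : ι → V => ENNReal.ofReal |b.det (update x j y)| := hd.comp hu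
  rw [lintegral_const_mul _ hd', Qm,
    ofReal_integral_eq_lintegral_ofReal (integrable_Qm b j hμ y)
      (ae_of_all _ fun x => abs_nonneg _)]

theorem marginal_nv (b : Basis ι ℝ V) (j : ι) {μ : Measure V} (hμ : Mom μ) {ψ : V → ℝ≥0∞}
    (hψ : Measurable ψ) :
    ∫⁻ x, ψ (Nv b j x) * ENNReal.ofReal |b.det x| ∂(pw μ ι)
      = ∫⁻ x, ψ (Nv b j x) * ENNReal.ofReal (Hm μ (Nv b j x)) ∂(pw μ ι) := by
  have := hμ.prob
  have hd : Measurable fun x : ι → V => ENNReal.ofReal |b.det x| :=
    (continuous_bdet b).abs.measurable.ennreal_ofReal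
  have hm : Measurable (Nv b j) := (continuous_Nv b j).measurable
  have hF : Measurable fun x : ι → V => ψ (Nv b j x) * ENNReal.ofReal |b.det x| :=
    (hψ.comp hm).mul hd
  rw [lintegral_update μ j hF]
  refine lintegral_congr fun x => ?_
  simp only [Nv_update]
  have hu : Measurable fun y : V => update x j y := measurable_update x
  have hd' : Measurable fun y : V => ENNReal.ofReal |b.det (update x j y)| := hd.comp hu
  rw [lintegral_const_mul _ hd', ofReal_Hm hμ]
  congr 1
  refine lintegral_congr fun y => ?_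
  rw [real_inner_comm, inner_Nv]

end Pool.Agent.P.MP_181257_gt
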