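import Pool.Agent.P.MP_181257_gt.PdB3

set_option autoImplicit false
set_option linter.unusedSectionVars false
set_option linter.unusedVariables false

open MeasureTheory ProbabilityTheory Module Set Filter Topology Function
open scoped RealInnerProductSpace ENNReal Pointwise LinearAlgebra.Projectivization

noncomputable section

namespace Pool.Agent.P.MP_181257_gt

variable {V : Type} [NormedAddCommGroup V] [InnerProductSpace ℝ V] [FiniteDimensional ℝ V]
  [MeasurableSpace V] [BorelSpace V] {ι : Type} [Fintype ι] [DecidableEq ι]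

theorem lint_zero_PdB4 {X : Type} [MeasurableSpace X] (m : Measure X) {f : X → V}
    (hf : Measurable f) {S : Set V} (hS : MeasurableSet S) :
    ∫⁻ x, S.indicator (fun w => ENNReal.ofReal ‖w‖) (f x) ∂m = 0 ↔
      m {x | f x ∈ S ∧ f x ≠ 0} = 0 := by
  have hφ : Measurable (S.indicator fun w : V => ENNReal.ofReal ‖w‖) :=
    (measurable_norm.ennreal_ofReal).indicator hS
  have hm : Measurable fun x => S.indicator (fun w : V => ENNReal.ofReal ‖w‖) (f x) := hφ.comp hf
  rw [lintegral_eq_zero_iff hm, Filter.EventuallyEq, ae_iff]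
  have : {x | ¬ S.indicator (fun w : V => ENNReal.ofReal ‖w‖) (f x) = (0 : X → ℝ≥0∞) x}
      = {x | f x ∈ S ∧ f x ≠ 0} := by
    ext x
    by_cases hx : f x ∈ S
    · simp [hx]
    · simp [hx]
  rw [this]

/-- null cones correspond -/
theorem Half.null_iff (b : Basis ι ℝ V) (j : ι) {μ ν : Measure V} (hμ : Mom μ) (hν : Good ν)
    (h : Half μ ν) {S : Set V} (hS : MeasurableSet S)
    (hc : ∀ (t : ℝ) (x : V), t ≠ 0 → (t • x ∈ S ↔ x ∈ S)) :
    ν S = 0 ↔ pw μ ι {x | Nv b j x ∈ S ∧ Nv b j x ≠ 0} = 0 := by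
  obtain ⟨a, ha, -, ht⟩ := Half.transfer b hμ hν.mom h
  have hφ : Measurable (S.indicator fun w : V => ENNReal.ofReal ‖w‖) :=
    (measurable_norm.ennreal_ofReal).indicator hS
  have hom : ∀ (t : ℝ) (x : V), S.indicator (fun w : V => ENNReal.ofReal ‖w‖) (t • x)
      = ENNReal.ofReal |t| * S.indicator (fun w : V => ENNReal.ofReal ‖w‖) x := by
    intro t x
    by_cases h0 : t = 0
    · subst h0
      by_cases hz : (0 : V) ∈ S <;> simp [hz]
    · by_cases hx : x ∈ S
      · rw [indicator_of_mem hx, indicator_of_mem ((hc t x h0).2 hx), norm_smul,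
          ENNReal.ofReal_mul (norm_nonneg _), Real.norm_eq_abs]
      · rw [indicator_of_notMem hx, indicator_of_notMem (fun h' => hx ((hc t x h0).1 h')), mul_zero]
  have e := ht j _ hφ hom
  rw [← lint_zero_PdB4 (pw μ ι) (continuous_Nv b j).measurable hS]
  have e1 := lint_zero_PdB4 ν (f := id) measurable_id hS
  simp only [id] at e1
  have e2 : ν S = 0 ↔ ν {x | x ∈ S ∧ x ≠ 0} = 0 := by
    constructor
    · intro h1
      exact measure_mono_null (fun x hx => hx.1) h1
    · intro h1
      refine measure_mono_null (t := {x | x ∈ S ∧ x ≠ 0} ∪ {0}) ?_ (measure_union_null h1 hν.zero)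
      intro x hx
      by_cases hx0 : x = 0
      · exact Or.inr hx0
      · exact Or.inl ⟨hx, hx0⟩
  rw [e2, ← e1, e, mul_eq_zero, or_iff_right]
  exact (ENNReal.ofReal_pos.2 ha).ne'

theorem exists_Half (hn : 1 ≤ finrank ℝ V) {μ : Measure V} (hμ : Good μ) :
    ∃ ν : Measure V, Good ν ∧ Half μ ν := by
  have := hμ.mom.prob
  set b := Module.finBasis ℝ V with hb
  set j : Fin (finrank ℝ V) := ⟨0, hn⟩ with hj
  have hN : Measurable (Nv b j) := (continuous_Nv b j).measurable
  set β : Measure V := (pw μ (Fin (finrank ℝ V))).map (Nv b j) with hβ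
  have : IsProbabilityMeasure β := Measure.isProbabilityMeasure_map hN.aemeasurable
  have hT : MeasurableSet ({0}ᶜ : Set V) := (measurableSet_singleton 0).compl
  have hcont : ∀ u : V, Continuous fun x : V => |⟪u, x⟫| := fun u => by fun_prop
  have hQ : ∀ u, ∫ x in ({0}ᶜ : Set V), |⟪u, x⟫| ∂β = Qm b j μ u := by
    intro u
    rw [setIntegral_eq_integral_of_forall_compl_eq_zero (fun x hx => by
      have : x = 0 := by simpa using hx
      simp [this]), hβ, integral_map hN.aemeasurable (hcont u).aestronglyMeasurable]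
    simp only [inner_Nv]
    rfl
  have hne : β ({0}ᶜ : Set V) ≠ 0 := by
    intro h0
    have h1 := Qm_pos b j hμ (b.ne_zero j)
    rw [← hQ, Measure.restrict_eq_zero.2 h0, integral_zero_measure] at h1
    exact lt_irrefl _ h1
  have hpos : 0 < (β ({0}ᶜ : Set V))⁻¹.toReal :=
    ENNReal.toReal_pos (ENNReal.inv_ne_zero.2 (measure_ne_top _ _)) (ENNReal.inv_ne_top.2 hne)
  have hH : ∀ u, Hm (β[|({0}ᶜ : Set V)]) u = (β ({0}ᶜ : Set V))⁻¹.toReal * Qm b j μ u := by
    intro u
    rw [Hm, ProbabilityTheory.cond, integral_smul_measure, hQ, smul_eq_mul]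
  obtain ⟨c, hc, hcQ⟩ := Qm_eq_Qd b j
  refine ⟨β[|({0}ᶜ : Set V)], ⟨⟨cond_isProbabilityMeasure hne, ?_⟩, ?_, fun u hu => ?_⟩,
    (β ({0}ᶜ : Set V))⁻¹.toReal * c, mul_pos hpos hc, fun u => ?_⟩
  · have hi : Integrable (fun x : V => ‖x‖) β :=
      (integrable_map_measure continuous_norm.aestronglyMeasurable hN.aemeasurable).2
        (integrable_norm_Nv b j hμ.mom)
    exact hi.restrict.smul_measure (ENNReal.inv_ne_top.2 hne)
  · rw [cond_apply hT]
    simp
  · rw [hH]
    exact mul_pos hpos (Qm_pos b j hμ hu)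
  · rw [hH, hcQ, mul_assoc]

theorem Qd_congr {α β : Measure V} (hα : Mom α) (hβ : Mom β) {c : ℝ} (hc : 0 < c)
    (h : ∀ u, Hm α u = c * Hm β u) (u : V) : Qd α u = c ^ (finrank ℝ V - 1) * Qd β u := by
  have hm : Measurable fun x : Fin (finrank ℝ V - 1) → V =>
      D (Fin.cons u x : Fin (finrank ℝ V - 1 + 1) → V) := by
    refine measurable_D (measurable_pi_lambda _ fun j => ?_)
    refine Fin.cases ?_ (fun j => ?_) j <;> simp only [Fin.cons_zero, Fin.cons_succ] <;> fun_prop
  have e := cos_inj_pi hα hβ hc h (finrank ℝ V - 1) hm.ennreal_ofReal (fun t x => by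
    have e1 : (Fin.cons u (fun j => t j • x j) : Fin (finrank ℝ V - 1 + 1) → V)
        = fun l => (Fin.cons 1 t : Fin (finrank ℝ V - 1 + 1) → ℝ) l •
          (Fin.cons u x : Fin (finrank ℝ V - 1 + 1) → V) l := by
      funext l
      refine Fin.cases ?_ (fun l => ?_) l <;> simp
    rw [e1, D_smul, Fin.prod_univ_succ, ENNReal.ofReal_mul (by positivity)]
    simp only [Fin.cons_zero, Fin.cons_succ, abs_one, one_mul]
    rw [ENNReal.ofReal_prod_of_nonneg (fun _ _ => abs_nonneg _)])
  unfold Qd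
  rw [integral_eq_lintegral_of_nonneg_ae (ae_of_all _ fun _ => D_nonneg _) hm.aestronglyMeasurable,
    integral_eq_lintegral_of_nonneg_ae (ae_of_all _ fun _ => D_nonneg _) hm.aestronglyMeasurable,
    e, ENNReal.toReal_mul, ENNReal.toReal_pow, ENNReal.toReal_ofReal hc.le]

end Pool.Agent.P.MP_181257_gt
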