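import Pool.Agent.P.MP_181257_gt.PdB4

set_option autoImplicit false
set_option linter.unusedSectionVars false
set_option linter.unusedVariables false

open MeasureTheory ProbabilityTheory Module Set Filter Topology Function
open scoped RealInnerProductSpace ENNReal Pointwise LinearAlgebra.Projectivization

noncomputable section

namespace Pool.Agent.P.MP_181257_gt

variable {V : Type} [NormedAddCommGroup V] [InnerProductSpace ℝ V] [FiniteDimensional ℝ V]
  [MeasurableSpace V] [BorelSpace V] {ι : Type} [Fintype ι] [DecidableEq ι]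

theorem unit_PdC1 {u : V} (hu : u ≠ 0) : ∃ v : V, ‖v‖ = 1 ∧ u = ‖u‖ • v := by
  have hn : ‖u‖ ≠ 0 := norm_ne_zero_iff.2 hu
  refine ⟨‖u‖⁻¹ • u, ?_, ?_⟩
  · rw [norm_smul, norm_inv, norm_norm, inv_mul_cancel₀ hn]
  · rw [smul_smul, mul_inv_cancel₀ hn, one_smul]

theorem exists_Good (hn : 1 ≤ finrank ℝ V) {h : V → ℝ} {δ : ℝ} (hZ : Zon h) (hδ : 0 < δ)
    (hpos : ∀ u, ‖u‖ = 1 → δ ≤ h u) :
    ∃ (μ : Measure V) (t : ℝ), Good μ ∧ 0 < t ∧ ∀ u, ‖u‖ = 1 → h u = t * Hm μ u := by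
  obtain ⟨m, hm, h1, hh⟩ := hZ.exists_measure
  have : Nontrivial V := finrank_pos_iff.1 hn
  obtain ⟨u, hu⟩ := exists_norm_eq V zero_le_one
  have hm0 : m ≠ 0 := by
    rintro rfl
    have h2 := hpos u hu
    rw [hh u hu] at h2
    simp only [integral_zero_measure] at h2
    linarith
  have hu0 : m univ ≠ 0 := by simpa using hm0
  have hut : m univ ≠ ∞ := measure_ne_top _ _
  have hp : IsProbabilityMeasure ((m univ)⁻¹ • m) :=
    ⟨by simp [ENNReal.inv_mul_cancel hu0 hut]⟩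
  have ht : 0 < (m univ).toReal := ENNReal.toReal_pos hu0 hut
  have key : ∀ u, ‖u‖ = 1 → h u = (m univ).toReal * Hm ((m univ)⁻¹ • m) u := fun u hu => by
    rw [Hm, integral_smul_measure, hh u hu, smul_eq_mul, ENNReal.toReal_inv, ← mul_assoc,
      mul_inv_cancel₀ ht.ne', one_mul]
  refine ⟨(m univ)⁻¹ • m, (m univ).toReal, ⟨⟨hp, ?_⟩, ?_, fun u hu => ?_⟩, ht, key⟩
  · refine Integrable.smul_measure ?_ (ENNReal.inv_ne_top.2 hu0)
    exact (integrable_const (1 : ℝ)).congr (h1.mono fun x hx => hx.symm)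
  · have h0 : m {0} = 0 := by
      refine measure_mono_null ?_ (ae_iff.1 h1)
      rintro x rfl
      simp
    rw [Measure.smul_apply, h0, smul_zero]
  · obtain ⟨v, hv, e⟩ := unit_PdC1 hu
    have h2 := hδ.trans_le (hpos v hv)
    rw [key v hv] at h2
    rw [e, Hm_smul]
    exact mul_pos (abs_pos.2 (norm_ne_zero_iff.2 hu)) ((mul_pos_iff_of_pos_left ht).1 h2)

theorem PP_Hm : ∃ c : ℝ, 0 < c ∧ ∀ μ : Measure V, Mom μ → ∀ u : V, ‖u‖ = 1 →
    PP (finrank ℝ V - 1) (Hm μ) u = c * Qd μ u := by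
  obtain ⟨c, hc, h⟩ := PP_meas (V := V) (finrank ℝ V - 1)
  refine ⟨c, hc, fun μ hμ u hu => ?_⟩
  have := h μ hμ u hu
  simp only [← D_cons_eq] at this
  exact this

theorem step_PdC1 {c₀ : ℝ} (h₀ : ∀ μ : Measure V, Mom μ → ∀ u : V, ‖u‖ = 1 →
    PP (finrank ℝ V - 1) (Hm μ) u = c₀ * Qd μ u) {μ : Measure V} (hμ : Mom μ) {h : V → ℝ} {t : ℝ}
    (ht : 0 < t) (e : ∀ u, ‖u‖ = 1 → h u = t * Hm μ u) (u : V) (hu : ‖u‖ = 1) :
    PP (finrank ℝ V - 1) h u = t ^ (finrank ℝ V - 1) * c₀ * Qd μ u := by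
  rw [PP_congr _ e, PP_smul _ _ ht, h₀ μ hμ u hu, mul_assoc]

theorem pair_of_selfProj (hn : 1 ≤ finrank ℝ V) {K : Set V} (hK : IsCompact K) (hc : Convex ℝ K)
    (hint : (interior K).Nonempty) (h : SelfProj K) :
    ∃ (μ ν : Measure V) (c : ℝ) (x : V), Pair μ ν ∧ 0 < c ∧
      K = x +ᵥ Zs fun u => c * Hm μ u := by
  obtain ⟨c₀, hc₀, h₀⟩ := PP_Hm (V := V)
  obtain ⟨x, lam, hlam, hKe⟩ :=
    (fixed_iff (Nat.sub_le _ 1) hK hc (hint.mono interior_subset)).1 h
  set i := finrank ℝ V - 1 with hi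
  set h₁ : V → ℝ := fun u => intrinsicVol i (pr u '' K) with hh₁
  have e1 : projBody i K = Zs h₁ := projBody_eq i K
  have e2 : projBody i (projBody i K) = Zs (PP i h₁) := by rw [projBody_eq, e1]; rfl
  rw [e2] at hKe
  set h₂ := PP i h₁ with hh₂
  obtain ⟨B, hB⟩ := exists_bound_proj i hK
  have hZ : Zon h₂ := zon_proj i (isCompact_Zs (B := B) fun u _ => hB u) (convex_Zs h₁)
    ⟨0, fun u _ => by simpa using intrinsicVol_nonneg i _⟩
  have e3 : h₁ = fun u => lam ^ i * PP i h₂ u := by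
    ext u
    show intrinsicVol i (pr u '' K) = _
    conv_lhs => rw [hKe]
    exact vol_proj_affine i u x hlam.le _
  have hfix : ∀ u, ‖u‖ = 1 → h₂ u = (lam ^ i) ^ i * PP i (PP i h₂) u := fun u _ => by
    rw [← PP_smul i _ (pow_pos hlam i), ← e3]
  have hev : ∀ u, h₂ (-u) = h₂ u := fun u => by
    have : pr (-u) = pr u := funext fun v => by
      simpa using pr_smul_left (t := -1) (by norm_num) u v
    simp only [hh₂, PP, this]
  obtain ⟨y, hy⟩ := hint
  obtain ⟨r, hr, hball⟩ := Metric.mem_nhds_iff.1 (mem_interior_iff_mem_nhds.1 hy)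
  have hs : ∀ u, ‖u‖ = 1 → ⟪y - x, u⟫ + r / 2 ≤ lam * h₂ u := fun u hu => by
    have : y + (r / 2) • u ∈ K := hball (by
      rw [mem_ball_iff_norm, add_sub_cancel_left, norm_smul, hu, Real.norm_of_nonneg
        (by positivity)]
      linarith)
    rw [hKe] at this
    obtain ⟨_, ⟨z, hz, rfl⟩, hz'⟩ := this
    have h3 := mul_le_mul_of_nonneg_left (hz u hu) hlam.le
    have h4 : lam • z = y - x + (r / 2) • u := by
      simp only [vadd_eq_add] at hz'
      rw [← sub_eq_zero] at hz' ⊢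
      rw [← hz']
      abel
    rw [← real_inner_smul_left, h4, inner_add_left, real_inner_smul_left,
      real_inner_self_eq_norm_sq, hu] at h3
    linarith
  have hpos : ∀ u, ‖u‖ = 1 → r / (2 * lam) ≤ h₂ u := fun u hu => by
    have a1 := hs u hu
    have a2 := hs (-u) (by rw [norm_neg, hu])
    rw [hev, inner_neg_right] at a2
    rw [div_le_iff₀ (by positivity)]
    linarith
  obtain ⟨μ, t, hμ, ht, hh⟩ := exists_Good hn hZ (by positivity) hpos
  obtain ⟨ν, hν, a, ha, hl⟩ := exists_Half hn hμ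
  have f1 : ∀ u, ‖u‖ = 1 → PP i h₂ u = t ^ i * c₀ / a * Hm ν u := fun u hu => by
    rw [step_PdC1 h₀ hμ.mom ht hh u hu, hl u, ← hi]
    field_simp
  have hs1 : 0 < t ^ i * c₀ / a := by positivity
  have f2 : ∀ u, ‖u‖ = 1 →
      Hm μ u = (lam ^ i) ^ i * ((t ^ i * c₀ / a) ^ i * c₀) / t * Qd ν u := fun u hu => by
    have e := hfix u hu
    rw [step_PdC1 h₀ hν.mom hs1 f1 u hu, hh u hu] at e
    rw [div_mul_eq_mul_div, eq_div_iff ht.ne', mul_comm _ t, e]
    ring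
  have := hν.mom.prob
  refine ⟨μ, ν, lam * t, x, ⟨hμ, hν, ⟨a, ha, hl⟩,
    ⟨(lam ^ i) ^ i * ((t ^ i * c₀ / a) ^ i * c₀) / t, by positivity, fun u => ?_⟩⟩,
    by positivity, ?_⟩
  · rcases eq_or_ne u 0 with rfl | hu
    · have e4 := Hm_smul μ 0 (0 : V)
      have e5 := Qd_smul hn ν 0 (0 : V)
      rw [smul_zero, abs_zero, zero_mul] at e4 e5
      rw [e4, e5, mul_zero]
    · obtain ⟨v, hv, e⟩ := unit_PdC1 hu
      rw [e, Hm_smul, Qd_smul hn, f2 v hv]
      ring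
  · rw [hKe, ← Zs_smul _ hlam]
    congr 1
    exact Zs_congr fun u hu => by rw [hh u hu, mul_assoc]

theorem selfProj_of_pair (hn : 1 ≤ finrank ℝ V) {μ ν : Measure V} (h : Pair μ ν) {c : ℝ}
    (hc : 0 < c) (x : V) : SelfProj (x +ᵥ Zs fun u => c * Hm μ u) := by
  obtain ⟨c₀, hc₀, h₀⟩ := PP_Hm (V := V)
  obtain ⟨a, ha, hl⟩ := h.hl
  obtain ⟨a', ha', hr⟩ := h.hr
  have hC : IsCompact (Zs fun u => c * Hm μ u) :=
    isCompact_Zs (B := c * ∫ x, ‖x‖ ∂μ) fun u hu => by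
      have := Hm_le h.gl.mom u
      rw [hu, mul_one] at this
      exact mul_le_mul_of_nonneg_left this hc.le
  have hne : (Zs fun u => c * Hm μ u).Nonempty :=
    ⟨0, fun u _ => by simpa using mul_nonneg hc.le (Hm_nonneg μ u)⟩
  refine (fixed_iff (Nat.sub_le _ 1) (hC.vadd x) ((convex_Zs _).vadd x) hne.vadd_set).2 ?_
  set i := finrank ℝ V - 1 with hi
  have hs1 : 0 < c ^ i * c₀ / a := by positivity
  have hs2 : 0 < (c ^ i * c₀ / a) ^ i * c₀ / a' := by positivity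
  have e1 : projBody i (x +ᵥ Zs fun u => c * Hm μ u) = Zs fun u => c ^ i * c₀ / a * Hm ν u := by
    rw [projBody_eq]
    refine Zs_congr fun u hu => ?_
    have e := vol_proj_affine i u x zero_le_one (Zs fun u => c * Hm μ u)
    rw [one_smul, one_pow, one_mul] at e
    rw [e]
    refine (step_PdC1 h₀ h.gl.mom hc (fun _ _ => rfl) u hu).trans ?_
    rw [hl u, ← hi]
    field_simp
  have e2 : projBody i (Zs fun u => c ^ i * c₀ / a * Hm ν u) =
      Zs fun u => (c ^ i * c₀ / a) ^ i * c₀ / a' * Hm μ u := by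
    rw [projBody_eq]
    refine Zs_congr fun u hu => ?_
    refine (step_PdC1 h₀ h.gr.mom hs1 (fun _ _ => rfl) u hu).trans ?_
    rw [hr u, div_mul_eq_mul_div, eq_div_iff ha'.ne']
    ring
  refine ⟨x, c / ((c ^ i * c₀ / a) ^ i * c₀ / a'), by positivity, ?_⟩
  rw [e1, e2, ← Zs_smul _ (by positivity)]
  congr 2
  funext u
  rw [← mul_assoc, div_mul_cancel₀ _ hs2.ne']

end Pool.Agent.P.MP_181257_gt
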