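import Pool.Agent.P.MP_181257_gt.PdB2

set_option autoImplicit false
set_option linter.unusedSectionVars false
set_option linter.unusedVariables false

open MeasureTheory ProbabilityTheory Module Set Filter Topology Function
open scoped RealInnerProductSpace ENNReal Pointwise LinearAlgebra.Projectivization

noncomputable section

namespace Pool.Agent.P.MP_181257_gt

variable {V : Type} [NormedAddCommGroup V] [InnerProductSpace ℝ V] [FiniteDimensional ℝ V]
  [MeasurableSpace V] [BorelSpace V] {ι : Type} [Fintype ι] [DecidableEq ι]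

theorem mem_Zs_iff {μ : Measure V} (c : ℝ) (z : V) :
    z ∈ (Zs fun u => c * Hm μ u) ↔ ∀ u, ⟪z, u⟫ ≤ c * Hm μ u := by
  refine ⟨fun h u => ?_, fun h u _ => h u⟩
  by_cases hu : u = 0
  · simp [hu, Hm]
  have hn : 0 < ‖u‖ := norm_pos_iff.2 hu
  have h1 := mul_le_mul_of_nonneg_left (h _ (norm_smul_inv_norm (𝕜 := ℝ) hu)) hn.le
  simp only [RCLike.ofReal_real_eq_id, id] at h1
  rw [real_inner_smul_right, Hm_smul, abs_of_pos (inv_pos.2 hn), mul_left_comm c,
    mul_inv_cancel_left₀ hn.ne', mul_inv_cancel_left₀ hn.ne'] at h1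
  exact h1

theorem exists_support_point {μ : Measure V} (hμ : Mom μ) {c : ℝ} (hc : 0 ≤ c) (u : V) :
    ∃ z ∈ (Zs fun u => c * Hm μ u), ⟪z, u⟫ = c * Hm μ u := by
  have : CompleteSpace V := FiniteDimensional.complete ℝ V
  let f : V → V := fun x => if 0 ≤ ⟪u, x⟫ then x else -x
  have hm : Measurable f :=
    Measurable.ite (measurableSet_le measurable_const (by fun_prop)) measurable_id measurable_neg
  have hf : Integrable f μ := by
    refine hμ.int.mono' hm.aestronglyMeasurable (Eventually.of_forall fun x => ?_)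
    simp only [f]
    split_ifs <;> simp
  have key : ∀ w, ⟪c • ∫ x, f x ∂μ, w⟫ = c * ∫ x, ⟪w, f x⟫ ∂μ := fun w => by
    rw [real_inner_smul_left, real_inner_comm, integral_inner hf]
  refine ⟨c • ∫ x, f x ∂μ, (mem_Zs_iff c _).2 fun w => ?_, ?_⟩
  · rw [key]
    refine mul_le_mul_of_nonneg_left (integral_mono (hf.const_inner w) (integrable_Hm hμ w)
      fun x => ?_) hc
    simp only [f]
    split_ifs
    · exact le_abs_self _
    · rw [inner_neg_right]
      exact neg_le_abs _
  · rw [key]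
    refine congrArg (c * ·) (integral_congr_ae (Eventually.of_forall fun x => ?_))
    simp only [f]
    split_ifs with h
    · exact (abs_of_nonneg h).symm
    · rw [inner_neg_right, abs_of_neg (not_le.1 h)]

theorem body_Zs {μ : Measure V} (hμ : Good μ) {c : ℝ} (hc : 0 < c) :
    IsCompact (Zs fun u => c * Hm μ u) ∧ Convex ℝ (Zs fun u => c * Hm μ u) ∧
      (interior (Zs fun u => c * Hm μ u)).Nonempty ∧
      -(Zs fun u => c * Hm μ u) = Zs fun u => c * Hm μ u := by
  obtain ⟨δ, hδ, hl⟩ := hμ.lower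
  have hneg : ∀ z, z ∈ (Zs fun u => c * Hm μ u) → -z ∈ Zs fun u => c * Hm μ u := fun z hz => by
    rw [mem_Zs_iff] at hz ⊢
    intro u
    have h1 := hz ((-1 : ℝ) • u)
    rw [Hm_smul, real_inner_smul_right] at h1
    rw [inner_neg_left]
    simpa using h1
  refine ⟨isCompact_Zs (B := c * ∫ x, ‖x‖ ∂μ) fun u hu => ?_, convex_Zs _,
    ⟨0, mem_interior.2 ⟨Metric.ball 0 (c * δ), fun z hz u hu => ?_, Metric.isOpen_ball,
      Metric.mem_ball_self (mul_pos hc hδ)⟩⟩, ?_⟩
  · have h1 := Hm_le hμ.mom u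
    rw [hu, mul_one] at h1
    exact mul_le_mul_of_nonneg_left h1 hc.le
  · have h1 := hl u
    have h2 := real_inner_le_norm z u
    rw [hu, mul_one] at h1 h2
    exact h2.trans ((mem_ball_zero_iff.1 hz).le.trans (mul_le_mul_of_nonneg_left h1 hc.le))
  · ext z
    rw [Set.mem_neg]
    exact ⟨fun h => neg_neg z ▸ hneg _ h, hneg z⟩

theorem smooth_Zs {μ : Measure V} (hμ : Good μ) {c : ℝ} (hc : 0 < c) (hs : csupp μ = univ) :
    SmoothBody (Zs fun u => c * Hm μ u) := by
  intro z hz u u' hu hu' h1 h2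
  by_contra hne
  have hz' := (mem_Zs_iff c z).1 hz
  obtain ⟨y, hy, ey⟩ := exists_support_point hμ.mom hc.le u
  obtain ⟨y', hy', ey'⟩ := exists_support_point hμ.mom hc.le u'
  have h3 : Hm μ u + Hm μ u' ≤ Hm μ (u + u') := by
    refine le_of_mul_le_mul_left ?_ hc
    have h4 := hz' (u + u')
    rw [inner_add_right] at h4
    linarith [h1 y hy, h2 y' hy']
  have hi := ((integrable_Hm hμ.mom u).add (integrable_Hm hμ.mom u')).sub
    (integrable_Hm hμ.mom (u + u'))
  have hn : 0 ≤ ((fun x => |⟪u, x⟫|) + fun x => |⟪u', x⟫|) - fun x => |⟪u + u', x⟫| := fun x => by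
    simp only [Pi.zero_apply, Pi.sub_apply, Pi.add_apply, inner_add_left]
    linarith [abs_add_le ⟪u, x⟫ ⟪u', x⟫]
  have h0 := (integral_eq_zero_iff_of_nonneg hn hi).1 (le_antisymm (by
    rw [integral_sub' ((integrable_Hm hμ.mom u).add (integrable_Hm hμ.mom u'))
      (integrable_Hm hμ.mom (u + u')), integral_add' (integrable_Hm hμ.mom u)
      (integrable_Hm hμ.mom u')]
    exact sub_nonpos.2 h3) (integral_nonneg hn))
  have hlt : ⟪u, u'⟫ < 1 := (inner_lt_one_iff_real_of_norm_eq_one hu hu').2 hne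
  have hm : u - u' ∈ csupp μ := hs ▸ mem_univ _
  refine hm {x | ⟪u, x⟫ * ⟪u', x⟫ < 0} (isOpen_lt (by fun_prop) continuous_const) ?_ ?_
  · change ⟪u, u - u'⟫ * ⟪u', u - u'⟫ < 0
    rw [inner_sub_right, inner_sub_right, real_inner_self_eq_norm_sq, real_inner_self_eq_norm_sq,
      hu, hu', real_inner_comm u u']
    exact mul_neg_of_pos_of_neg (by linarith) (by linarith)
  · refine measure_mono_null ?_ (ae_iff.1 h0)
    rintro x ⟨t, ht, hx⟩ e
    have hx' : ⟪u, t • x⟫ * ⟪u', t • x⟫ < 0 := hx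
    rw [real_inner_smul_right, real_inner_smul_right] at hx'
    simp only [Pi.zero_apply, Pi.sub_apply, Pi.add_apply, inner_add_left] at e
    have h5 : 0 ≤ ⟪u, x⟫ * ⟪u', x⟫ := by
      rcases (abs_add_eq_add_abs_iff ⟪u, x⟫ ⟪u', x⟫).1 (by linarith) with h | h
      · exact mul_nonneg h.1 h.2
      · exact mul_nonneg_of_nonpos_of_nonpos h.1 h.2
    nlinarith [mul_nonneg (mul_self_nonneg t) h5]

end Pool.Agent.P.MP_181257_gt
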