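import Pool.Agent.P.MP_181257_gt.PdC2

set_option autoImplicit false
set_option linter.unusedSectionVars false
set_option linter.unusedVariables false

open MeasureTheory ProbabilityTheory Module Set Filter Topology Function
open scoped RealInnerProductSpace ENNReal Pointwise LinearAlgebra.Projectivization

noncomputable section

namespace Pool.Agent.P.MP_181257_gt

variable {V : Type} [NormedAddCommGroup V] [InnerProductSpace ℝ V] [FiniteDimensional ℝ V]
  [MeasurableSpace V] [BorelSpace V] {ι : Type} [Fintype ι] [DecidableEq ι]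

theorem support_dir_PdC3 {μ : Measure V} (hμ : Mom μ) (c : ℝ) (m : V)
    (hm : m ∉ interior (Zs fun u => c * Hm μ u)) :
    ∃ u : V, ‖u‖ = 1 ∧ c * Hm μ u ≤ ⟪m, u⟫ := by
  by_contra hcon
  push Not at hcon
  apply hm
  have hφ : Continuous fun u : V => c * Hm μ u - ⟪m, u⟫ :=
    (continuous_const.mul (continuous_Hm hμ)).sub (continuous_const.inner continuous_id)
  obtain ⟨ε, hε, hle⟩ : ∃ ε : ℝ, 0 < ε ∧ ∀ u : V, ‖u‖ = 1 → ε ≤ c * Hm μ u - ⟪m, u⟫ := by
    rcases (Metric.sphere (0 : V) 1).eq_empty_or_nonempty with h | h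
    · refine ⟨1, one_pos, fun u hu => ?_⟩
      have : u ∈ Metric.sphere (0 : V) 1 := by simpa using hu
      rw [h] at this
      exact absurd this (Set.notMem_empty _)
    · obtain ⟨u0, hu0, hmin⟩ := (isCompact_sphere (0 : V) 1).exists_isMinOn h hφ.continuousOn
      have h1 : ‖u0‖ = 1 := by simpa using hu0
      refine ⟨c * Hm μ u0 - ⟪m, u0⟫, sub_pos.2 (hcon u0 h1), fun u hu => ?_⟩
      exact hmin (show u ∈ Metric.sphere (0 : V) 1 by simpa using hu)
  refine mem_interior.2 ⟨Metric.ball m ε, ?_, Metric.isOpen_ball, Metric.mem_ball_self hε⟩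
  intro w hw u hu
  have h1 : ‖w - m‖ < ε := by simpa [dist_eq_norm] using hw
  have h2 : ⟪w - m, u⟫ ≤ ‖w - m‖ * ‖u‖ := real_inner_le_norm _ _
  rw [hu, mul_one, inner_sub_left] at h2
  have h3 := hle u hu
  show ⟪w, u⟫ ≤ c * Hm μ u
  linarith

theorem abs_aux_PdC3 (a b : ℝ) : |a + b| + |a - b| - 2 * |a| ≤ 2 * |b| := by
  have h1 := abs_add_le a b
  have h2 := abs_sub a b
  linarith

theorem abs_aux2_PdC3 (a b : ℝ) : 0 ≤ |a + b| + |a - b| - 2 * |a| := by
  have h1 := abs_add_le (a + b) (a - b)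
  have h2 : a + b + (a - b) = 2 * a := by ring
  rw [h2, abs_mul, abs_two] at h1
  linarith

theorem abs_aux3_PdC3 (a b : ℝ) (h : |b| ≤ |a|) : |a + b| + |a - b| - 2 * |a| = 0 := by
  have hb := abs_le.1 h
  rcases le_total 0 a with ha | ha
  · rw [abs_of_nonneg ha] at hb ⊢
    rw [abs_of_nonneg (by linarith [hb.1]), abs_of_nonneg (by linarith [hb.2])]
    ring
  · rw [abs_of_nonpos ha] at hb ⊢
    rw [abs_of_nonpos (by linarith [hb.2]), abs_of_nonpos (by linarith [hb.1])]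
    ring

theorem tendsto_PdC3 {μ : Measure V} (hμ : Mom μ) (u v : V) (hu : μ {x | ⟪u, x⟫ = 0} = 0) :
    Tendsto (fun n : ℕ => ((n : ℝ) + 1) *
      (Hm μ (u + (1 / ((n : ℝ) + 1)) • v) + Hm μ (u - (1 / ((n : ℝ) + 1)) • v) - 2 * Hm μ u))
      atTop (𝓝 0) := by
  set F : ℕ → V → ℝ := fun n x => ((n : ℝ) + 1) *
    (|⟪u + (1 / ((n : ℝ) + 1)) • v, x⟫| + |⟪u - (1 / ((n : ℝ) + 1)) • v, x⟫| - 2 * |⟪u, x⟫|)
    with hF
  have hint : ∀ n, Integrable (F n) μ := fun n =>
    (((integrable_Hm hμ _).add (integrable_Hm hμ _)).sub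
      ((integrable_Hm hμ u).const_mul 2)).const_mul _
  have hval : ∀ n : ℕ, ∫ x, F n x ∂μ = ((n : ℝ) + 1) *
      (Hm μ (u + (1 / ((n : ℝ) + 1)) • v) + Hm μ (u - (1 / ((n : ℝ) + 1)) • v)
        - 2 * Hm μ u) := by
    intro n
    have hi : Integrable (fun x => |⟪u + (1 / ((n : ℝ) + 1)) • v, x⟫| +
        |⟪u - (1 / ((n : ℝ) + 1)) • v, x⟫|) μ := (integrable_Hm hμ _).add (integrable_Hm hμ _)
    simp only [hF, Hm]
    rw [integral_const_mul, integral_sub hi
      ((integrable_Hm hμ u).const_mul 2), integral_add (integrable_Hm hμ _) (integrable_Hm hμ _),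
      integral_const_mul]
  have hform : ∀ (n : ℕ) x, F n x = ((n : ℝ) + 1) *
      (|⟪u, x⟫ + (1 / ((n : ℝ) + 1)) * ⟪v, x⟫| + |⟪u, x⟫ - (1 / ((n : ℝ) + 1)) * ⟪v, x⟫|
        - 2 * |⟪u, x⟫|) := by
    intro n x
    simp only [hF, inner_add_left, inner_sub_left, real_inner_smul_left]
  have key : Tendsto (fun n : ℕ => ∫ x, F n x ∂μ) atTop (𝓝 (∫ x, (0 : ℝ) ∂μ)) := by
    refine tendsto_integral_of_dominated_convergence (fun x => 2 * |⟪v, x⟫|)
      (fun n => (hint n).aestronglyMeasurable) ((integrable_Hm hμ v).const_mul 2)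
      (fun n => Eventually.of_forall fun x => ?_) ?_
    · have hn : (0 : ℝ) < (n : ℝ) + 1 := by positivity
      rw [hform, Real.norm_eq_abs, abs_of_nonneg (mul_nonneg hn.le (abs_aux2_PdC3 _ _))]
      have h1 := abs_aux_PdC3 ⟪u, x⟫ ((1 / ((n : ℝ) + 1)) * ⟪v, x⟫)
      have h2 : |(1 / ((n : ℝ) + 1)) * ⟪v, x⟫| = (1 / ((n : ℝ) + 1)) * |⟪v, x⟫| := by
        rw [abs_mul, abs_of_pos (by positivity)]
      rw [h2] at h1
      calc _ ≤ ((n : ℝ) + 1) * (2 * ((1 / ((n : ℝ) + 1)) * |⟪v, x⟫|)) :=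
            mul_le_mul_of_nonneg_left h1 hn.le
        _ = 2 * |⟪v, x⟫| := by field_simp
    · have hae : ∀ᵐ x ∂μ, ⟪u, x⟫ ≠ 0 := by
        rw [ae_iff]
        simpa using hu
      filter_upwards [hae] with x hx
      have hpos : 0 < |⟪u, x⟫| := abs_pos.2 hx
      obtain ⟨N, hN⟩ := exists_nat_ge (|⟪v, x⟫| / |⟪u, x⟫|)
      refine tendsto_const_nhds.congr' ?_
      filter_upwards [eventually_ge_atTop N] with n hn
      have hn0 : (0 : ℝ) < (n : ℝ) + 1 := by positivity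
      have hn1 : (N : ℝ) ≤ n := by exact_mod_cast hn
      rw [hform, abs_aux3_PdC3, mul_zero]
      rw [abs_mul, abs_of_pos (by positivity : (0 : ℝ) < 1 / ((n : ℝ) + 1)), one_div,
        inv_mul_le_iff₀ hn0]
      rw [div_le_iff₀ hpos] at hN
      nlinarith
  rw [integral_zero] at key
  exact key.congr hval

theorem strict_Zs {μ : Measure V} (hμ : Good μ) {c : ℝ} (hc : 0 < c)
    (hg : ∀ u : V, u ≠ 0 → μ {x | ⟪u, x⟫ = 0} = 0) :
    StrictConvex ℝ (Zs fun u => c * Hm μ u) := by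
  intro z hz z' hz' hne a b ha hb hab
  by_contra hm
  obtain ⟨u, hu, hle⟩ := support_dir_PdC3 hμ.mom c _ hm
  have hzz := (mem_Zs_iff c z).1 hz
  have hzz' := (mem_Zs_iff c z').1 hz'
  have hu0 : u ≠ 0 := by
    intro h
    rw [h, norm_zero] at hu
    exact zero_ne_one hu
  rw [inner_add_left, real_inner_smul_left, real_inner_smul_left] at hle
  have h1 := hzz u
  have h2 := hzz' u
  have hsum : c * Hm μ u = a * (c * Hm μ u) + b * (c * Hm μ u) := by
    rw [← add_mul, hab, one_mul]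
  have e1 : ⟪z, u⟫ = c * Hm μ u := by
    by_contra h
    have h3 : ⟪z, u⟫ < c * Hm μ u := lt_of_le_of_ne h1 h
    have h4 := mul_lt_mul_of_pos_left h3 ha
    have h5 := mul_le_mul_of_nonneg_left h2 hb.le
    linarith
  have e2 : ⟪z', u⟫ = c * Hm μ u := by
    by_contra h
    have h3 : ⟪z', u⟫ < c * Hm μ u := lt_of_le_of_ne h2 h
    have h4 := mul_lt_mul_of_pos_left h3 hb
    have h5 := mul_le_mul_of_nonneg_left h1 ha.le
    linarith
  have hlim := (tendsto_PdC3 hμ.mom u (z - z') (hg u hu0)).const_mul c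
  rw [mul_zero] at hlim
  have hge : ⟪z - z', z - z'⟫ ≤ (0 : ℝ) := by
    refine ge_of_tendsto' hlim fun n => ?_
    have hn : (0 : ℝ) < (n : ℝ) + 1 := by positivity
    have k1 := hzz (u + (1 / ((n : ℝ) + 1)) • (z - z'))
    have k2 := hzz' (u - (1 / ((n : ℝ) + 1)) • (z - z'))
    rw [inner_add_right, real_inner_smul_right, e1] at k1
    rw [inner_sub_right, real_inner_smul_right, e2] at k2
    have k3 : ⟪z - z', z - z'⟫ = ⟪z, z - z'⟫ - ⟪z', z - z'⟫ := inner_sub_left _ _ _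
    have k4 : (1 / ((n : ℝ) + 1)) * ⟪z - z', z - z'⟫ ≤
        c * (Hm μ (u + (1 / ((n : ℝ) + 1)) • (z - z')) +
          Hm μ (u - (1 / ((n : ℝ) + 1)) • (z - z')) - 2 * Hm μ u) := by
      rw [k3]
      linarith
    have k5 := mul_le_mul_of_nonneg_left k4 hn.le
    have k6 : ((n : ℝ) + 1) * ((1 / ((n : ℝ) + 1)) * ⟪z - z', z - z'⟫) = ⟪z - z', z - z'⟫ := by
      field_simp
    rw [k6] at k5
    linarith
  have : z - z' = 0 := real_inner_self_nonpos.1 hge
  exact hne (sub_eq_zero.1 this)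

end Pool.Agent.P.MP_181257_gt
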