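import Pool.Agent.P.MP_181257_gt.PdB4

set_option autoImplicit false
set_option linter.unusedSectionVars false
set_option linter.unusedVariables false

open MeasureTheory ProbabilityTheory Module Set Filter Topology Function
open scoped RealInnerProductSpace ENNReal Pointwise LinearAlgebra.Projectivization

noncomputable section

namespace Pool.Agent.P.MP_181257_gt

variable {V : Type} [NormedAddCommGroup V] [InnerProductSpace ℝ V] [FiniteDimensional ℝ V]
  [MeasurableSpace V] [BorelSpace V] {ι : Type} [Fintype ι] [DecidableEq ι]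

theorem meas_PdD1 (E : Submodule ℝ V) : MeasurableSet (E : Set V) :=
  E.closed_of_finiteDimensional.measurableSet

theorem res_apply (μ : Measure V) (E : Submodule ℝ V) {s : Set E} (hs : MeasurableSet s) :
    res μ E s = (μ E)⁻¹ * μ (Subtype.val '' s) := by
  have hm : MeasurableEmbedding (Subtype.val : E → V) :=
    MeasurableEmbedding.subtype_coe (meas_PdD1 E)
  rw [res, Measure.smul_apply, hm.comap_apply, smul_eq_mul]

theorem lintegral_res (μ : Measure V) [IsFiniteMeasure μ] {E : Submodule ℝ V} (hE : μ E ≠ 0)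
    {f : V → ℝ≥0∞} (hf : Measurable f) :
    ∫⁻ x in (E : Set V), f x ∂μ = μ E * ∫⁻ y : E, f y ∂(res μ E) := by
  have h1 : ∫⁻ y : E, f y ∂(μ.comap Subtype.val) = ∫⁻ x in (E : Set V), f x ∂μ :=
    lintegral_subtype_comap (meas_PdD1 E) f
  rw [res, lintegral_smul_measure, h1, smul_eq_mul, ← mul_assoc,
    ENNReal.mul_inv_cancel hE (measure_ne_top _ _), one_mul]

theorem meas_ne_zero {μ : Measure V} (hμ : Good μ) {E F : Submodule ℝ V} (hEF : IsCompl E F)
    (hE : E ≠ ⊥) (h : μ ((E : Set V) ∪ (F : Set V))ᶜ = 0) : μ E ≠ 0 := by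
  intro h0
  have hF : F ≠ ⊤ := fun h1 => hE (by
    have h2 := hEF.inf_eq_bot
    rwa [h1, inf_top_eq] at h2)
  refine hμ.ne_top hF (measure_mono_null (fun x hx => ?_) (measure_union_null h h0))
  by_cases h1 : x ∈ (E : Set V)
  · exact Or.inr h1
  · exact Or.inl fun h2 => h2.elim h1 hx

theorem setIntegral_res {μ : Measure V} (hμ : Mom μ) {E : Submodule ℝ V} (hE : μ E ≠ 0) (u : V) :
    ∫ x in (E : Set V), |⟪u, x⟫| ∂μ
      = (μ E).toReal * Hm (res μ E) (E.orthogonalProjectionOnto u) := by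
  have := hμ.prob
  have h1 : ∫ y : E, |⟪u, (y : V)⟫| ∂(μ.comap Subtype.val) = ∫ x in (E : Set V), |⟪u, x⟫| ∂μ :=
    integral_subtype_comap (meas_PdD1 E) fun x => |⟪u, x⟫|
  unfold Hm res
  simp only [Submodule.inner_orthogonalProjectionOnto_eq_of_mem_right]
  rw [integral_smul_measure, h1, smul_eq_mul, ← mul_assoc, ← ENNReal.toReal_mul,
    ENNReal.mul_inv_cancel hE (measure_ne_top _ _), ENNReal.toReal_one, one_mul]

/-- on the annihilator of `F` only the part on `E` is seen -/
theorem Hm_res {μ : Measure V} (hμ : Good μ) {E F : Submodule ℝ V} (hEF : IsCompl E F)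
    (hE : E ≠ ⊥) (h : μ ((E : Set V) ∪ (F : Set V))ᶜ = 0) {w : V} (hw : w ∈ Fᗮ) :
    Hm μ w = (μ E).toReal * Hm (res μ E) (E.orthogonalProjectionOnto w) := by
  rw [← setIntegral_res hμ.mom (meas_ne_zero hμ hEF hE h) w]
  refine (setIntegral_eq_integral_of_ae_compl_eq_zero ?_).symm
  have h1 : ∀ᵐ x ∂μ, x ∈ (E : Set V) ∪ (F : Set V) := h
  filter_upwards [h1] with x hx hxE
  rw [Submodule.inner_left_of_mem_orthogonal (hx.resolve_left hxE) hw, abs_zero]

theorem exists_lift {E F : Submodule ℝ V} (hEF : IsCompl E F) (u : E) :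
    ∃ w ∈ Fᗮ, E.orthogonalProjectionOnto w = u := by
  let T : Fᗮ →ₗ[ℝ] E := E.orthogonalProjectionOnto.toLinearMap.comp Fᗮ.subtype
  have hi : Injective T := by
    refine (injective_iff_map_eq_zero T).2 fun w hw => Subtype.ext ?_
    have h1 : (w : V) ∈ Eᗮ := Submodule.orthogonalProjectionOnto_eq_zero_iff.1 hw
    have h2 : (w : V) ∈ Eᗮ ⊓ Fᗮ := ⟨h1, w.2⟩
    rwa [Submodule.inf_orthogonal, hEF.sup_eq_top, Submodule.top_orthogonal_eq_bot,
      Submodule.mem_bot] at h2
  have hd : finrank ℝ Fᗮ = finrank ℝ E := by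
    have h1 := F.finrank_add_finrank_orthogonal
    have h2 := Submodule.finrank_add_eq_of_isCompl hEF
    omega
  obtain ⟨w, hw⟩ := (LinearMap.injective_iff_surjective_of_finrank_eq_finrank hd).1 hi u
  exact ⟨w, w.2, hw⟩

theorem Good.res {μ : Measure V} (hμ : Good μ) {E F : Submodule ℝ V} (hEF : IsCompl E F)
    (hE : E ≠ ⊥) (h : μ ((E : Set V) ∪ (F : Set V))ᶜ = 0) : Good (res μ E) := by
  have := hμ.mom.prob
  have h0 := meas_ne_zero hμ hEF hE h
  have hm : MeasurableEmbedding (Subtype.val : E → V) :=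
    MeasurableEmbedding.subtype_coe (meas_PdD1 E)
  refine ⟨⟨⟨?_⟩, ?_⟩, ?_, fun u hu => ?_⟩
  · rw [res_apply μ E MeasurableSet.univ, image_univ, Subtype.range_coe_subtype]
    exact ENNReal.inv_mul_cancel h0 (measure_ne_top _ _)
  · refine Integrable.smul_measure ?_ (ENNReal.inv_ne_top.2 h0)
    have h1 : Integrable (fun x : V => ‖x‖) ((μ.comap (Subtype.val : E → V)).map Subtype.val) := by
      rw [hm.map_comap]
      exact hμ.mom.int.restrict
    exact hm.integrable_map_iff.1 h1
  · rw [res_apply μ E (measurableSet_singleton 0), image_singleton]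
    exact mul_eq_zero_of_right _ hμ.zero
  · obtain ⟨w, hw, rfl⟩ := exists_lift hEF u
    have h1 := hμ.pos w fun h2 => hu (by rw [h2, map_zero])
    rw [Hm_res hμ hEF hE h hw] at h1
    exact (pos_iff_pos_of_mul_pos h1).1 (ENNReal.toReal_pos h0 (measure_ne_top _ _))

end Pool.Agent.P.MP_181257_gt
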