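import Pool.Agent.P.MP_181257_gt.PdD1

set_option autoImplicit false
set_option linter.unusedSectionVars false
set_option linter.unusedVariables false

open MeasureTheory ProbabilityTheory Module Set Filter Topology Function
open scoped RealInnerProductSpace ENNReal Pointwise LinearAlgebra.Projectivization

noncomputable section

namespace Pool.Agent.P.MP_181257_gt

variable {V : Type} [NormedAddCommGroup V] [InnerProductSpace ℝ V] [FiniteDimensional ℝ V]
  [MeasurableSpace V] [BorelSpace V] {ι : Type} [Fintype ι] [DecidableEq ι]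

theorem isCompl_orth {E F : Submodule ℝ V} (hEF : IsCompl E F) : IsCompl Fᗮ Eᗮ := by
  refine ⟨disjoint_iff.2 ?_, codisjoint_iff.2 ?_⟩
  · rw [Submodule.inf_orthogonal, hEF.symm.sup_eq_top, Submodule.top_orthogonal_eq_bot]
  · rw [← Submodule.orthogonal_eq_bot_iff, ← Submodule.inf_orthogonal,
      Submodule.orthogonal_orthogonal, Submodule.orthogonal_orthogonal, hEF.symm.inf_eq_bot]

theorem nv_mem_PdD1b (b : Basis ι ℝ V) (j : ι) {E F : Submodule ℝ V} (hEF : IsCompl E F)
    {x : ι → V} (hx : ∀ i, x i ∈ (E : Set V) ∪ (F : Set V)) :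
    Nv b j x ∈ (Fᗮ : Set V) ∪ (Eᗮ : Set V) := by
  classical
  by_contra hn
  simp only [mem_union, SetLike.mem_coe, Submodule.mem_orthogonal, not_or, not_forall] at hn
  obtain ⟨⟨f, hf, hf0⟩, ⟨e, he, he0⟩⟩ := hn
  rw [inner_Nv] at hf0 he0
  have key : ∀ (U : Submodule ℝ V) (u : V) (S : Finset ι), u ∈ U → j ∉ S → (∀ i ∈ S, x i ∈ U) →
      b.det (update x j u) ≠ 0 → S.card + 1 ≤ finrank ℝ U := by
    intro U u S hu hj hS hd
    by_contra hc
    refine hd (bdet_zero_of_card b (U := U) (S := insert j S) (fun i hi => ?_) ?_)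
    · rcases Finset.mem_insert.1 hi with rfl | hi
      · rwa [update_self]
      · rw [update_of_ne (fun h => hj (by rwa [← h]))]
        exact hS i hi
    · rw [Finset.card_insert_of_notMem hj]
      omega
  have h1 := key E e ((Finset.univ.erase j).filter fun i => x i ∈ E) he (by simp)
    (fun i hi => (Finset.mem_filter.1 hi).2) he0
  have h2 := key F f ((Finset.univ.erase j).filter fun i => ¬ x i ∈ E) hf (by simp)
    (fun i hi => (hx i).resolve_left (Finset.mem_filter.1 hi).2) hf0
  have h3 := Finset.card_filter_add_card_filter_not (s := Finset.univ.erase j) fun i => x i ∈ E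
  have h4 := Submodule.finrank_add_eq_of_isCompl hEF
  have h5 := Module.finrank_eq_card_basis b
  rw [Finset.card_erase_of_mem (Finset.mem_univ j), Finset.card_univ] at h3
  have h6 : 0 < Fintype.card ι := Fintype.card_pos_iff.2 ⟨j⟩
  omega

theorem Half.split {μ ν : Measure V} (hμ : Good μ) (hν : Good ν) (h : Half μ ν)
    {E F : Submodule ℝ V} (hEF : IsCompl E F) (hs : μ ((E : Set V) ∪ (F : Set V))ᶜ = 0) :
    ν ((Fᗮ : Set V) ∪ (Eᗮ : Set V))ᶜ = 0 := by
  rcases Nat.eq_zero_or_pos (finrank ℝ V) with h0 | h0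
  · have : Subsingleton V := Module.finrank_zero_iff.1 h0
    have e : ((Fᗮ : Set V) ∪ (Eᗮ : Set V))ᶜ = ∅ := by
      rw [compl_empty_iff]
      refine eq_univ_of_forall fun x => Or.inl ?_
      rw [Subsingleton.elim x 0]
      exact Submodule.zero_mem _
    rw [e, measure_empty]
  have := hμ.mom.1
  have hm : ∀ U : Submodule ℝ V, MeasurableSet (U : Set V) := fun U =>
    (Submodule.closed_of_finiteDimensional U).measurableSet
  refine (h.null_iff (Module.finBasis ℝ V) ⟨0, h0⟩ hμ.mom hν ((hm _).union (hm _)).compl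
    fun t x ht => ?_).2 ?_
  · simp only [mem_compl_iff, mem_union, SetLike.mem_coe, Submodule.smul_mem_iff _ ht]
  · have ha : ∀ᵐ y ∂μ, y ∈ (E : Set V) ∪ (F : Set V) := hs
    refine measure_mono_null (fun x hx => ?_) (ae_pw (ι := Fin (finrank ℝ V)) ha)
    exact fun hx' => hx.1 (nv_mem_PdD1b _ _ hEF hx')

theorem Pair.splits {μ ν : Measure V} (h : Pair μ ν) (hs : Splits μ) : Splits ν := by
  obtain ⟨E, F, hEF, hE, hF, hs⟩ := hs
  refine ⟨Fᗮ, Eᗮ, isCompl_orth hEF, fun h0 => hE ?_, fun h0 => hF ?_, h.hl.split h.gl h.gr hEF hs⟩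
  · rw [Submodule.orthogonal_eq_bot_iff] at h0
    rw [← hEF.inf_eq_bot, h0, inf_top_eq]
  · rw [Submodule.orthogonal_eq_bot_iff] at h0
    rw [← hEF.inf_eq_bot, h0, top_inf_eq]

end Pool.Agent.P.MP_181257_gt
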