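import Pool.Agent.P.MP_181257_gt.PdD1b

set_option autoImplicit false
set_option linter.unusedSectionVars false
set_option linter.unusedVariables false

open MeasureTheory ProbabilityTheory Module Set Filter Topology Function
open scoped RealInnerProductSpace ENNReal Pointwise LinearAlgebra.Projectivization

noncomputable section

namespace Pool.Agent.P.MP_181257_gt

variable {V : Type} [NormedAddCommGroup V] [InnerProductSpace ℝ V] [FiniteDimensional ℝ V]
  [MeasurableSpace V] [BorelSpace V] {ι : Type} [Fintype ι] [DecidableEq ι]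

/-- a family glued from vectors of `E` on `S` and arbitrary vectors off `S` -/
def glue_PdD2 (E : Submodule ℝ V) (S : Finset ι) (y : {i // i ∈ S} → E)
    (z : {i // ¬ i ∈ S} → V) : ι → V :=
  fun i => if h : i ∈ S then (y ⟨i, h⟩ : V) else z ⟨i, h⟩

theorem glue_update_PdD2 (E : Submodule ℝ V) (S : Finset ι) (y : {i // i ∈ S} → E)
    (z : {i // ¬ i ∈ S} → V) {j : ι} (hj : j ∈ S) (u : E) :
    update (glue_PdD2 E S y z) j (u : V) = glue_PdD2 E S (update y ⟨j, hj⟩ u) z := by
  funext i
  by_cases hi : i = j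
  · subst hi
    rw [update_self]
    unfold glue_PdD2
    rw [dif_pos hj, update_self]
  · rw [update_of_ne hi]
    unfold glue_PdD2
    by_cases h : i ∈ S
    · rw [dif_pos h, dif_pos h, update_of_ne (fun e => hi (congrArg Subtype.val e))]
    · rw [dif_neg h, dif_neg h]

theorem det_glue_PdD2 (b : Basis ι ℝ V) {E : Submodule ℝ V} {S : Finset ι}
    (c : Basis {i // i ∈ S} ℝ E) (y : {i // i ∈ S} → E) (z : {i // ¬ i ∈ S} → V) :
    b.det (glue_PdD2 E S y z) = c.det y * b.det (glue_PdD2 E S c z) := by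
  let ω : E [⋀^{i // i ∈ S}]→ₗ[ℝ] ℝ :=
    { toMultilinearMap := (b.det.toMultilinearMap.domDomRestrict (fun i => i ∈ S) z).compLinearMap
        fun _ => E.subtype
      map_eq_zero_of_eq' := by
        intro v i k hv hik
        show b.det (glue_PdD2 E S v z) = 0
        refine b.det.map_eq_zero_of_eq _ (i := i.1) (j := k.1) ?_ fun e => hik (Subtype.ext e)
        unfold glue_PdD2
        rw [dif_pos i.2, dif_pos k.2]
        exact congrArg Subtype.val hv }
  have h := congrArg (fun f : E [⋀^{i // i ∈ S}]→ₗ[ℝ] ℝ => f y) (ω.eq_smul_basis_det c)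
  rw [mul_comm]
  exact h

theorem continuous_glue_PdD2 (E : Submodule ℝ V) (S : Finset ι) (y : {i // i ∈ S} → E) :
    Continuous (glue_PdD2 E S y) := by
  refine continuous_pi fun i => ?_
  unfold glue_PdD2
  by_cases h : i ∈ S
  · simp only [dif_pos h]
    exact continuous_const
  · simp only [dif_neg h]
    exact continuous_apply _

theorem pi_smul_PdD2 {α κ : Type} [MeasurableSpace α] [Fintype κ] (ρ : Measure α)
    [IsFiniteMeasure ρ] {c : ℝ≥0∞} (hc : c ≠ ∞) :
    (Measure.pi fun _ : κ => c • ρ) = c ^ Fintype.card κ • Measure.pi fun _ : κ => ρ := by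
  have : IsFiniteMeasure (c • ρ) := ρ.smul_finite hc
  refine Measure.pi_eq fun s _ => ?_
  rw [Measure.smul_apply, Measure.pi_pi, smul_eq_mul]
  simp only [Measure.smul_apply, smul_eq_mul]
  rw [Finset.prod_mul_distrib, Finset.prod_const, Finset.card_univ]

/-- the boxes -/
def box_PdD2 (E : Submodule ℝ V) (S : Finset ι) : ι → Set V :=
  fun i => if i ∈ S then (E : Set V) else (E : Set V)ᶜ

theorem mp_glue_PdD2 (μ : Measure V) [IsProbabilityMeasure μ] {E : Submodule ℝ V} (hE : μ E ≠ 0)
    (S : Finset ι) :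
    MeasurePreserving (fun p : ({i // i ∈ S} → E) × ({i // ¬ i ∈ S} → V) => glue_PdD2 E S p.1 p.2)
      ((Measure.pi fun _ : {i // i ∈ S} => μ E • res μ E).prod
        (Measure.pi fun _ : {i // ¬ i ∈ S} => μ.restrict (E : Set V)ᶜ))
      ((pw μ ι).restrict (univ.pi (box_PdD2 E S))) := by
  have hm : MeasurableSet (E : Set V) := E.closed_of_finiteDimensional.measurableSet
  have h1 : MeasurePreserving (Subtype.val : E → V) (μ E • res μ E) (μ.restrict E) := by
    refine ⟨measurable_subtype_coe, ?_⟩
    unfold res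
    rw [smul_smul, ENNReal.mul_inv_cancel hE (measure_ne_top _ _), one_smul]
    exact map_comap_subtype_coe hm μ
  have : IsFiniteMeasure (μ E • res μ E) := ⟨by
    rw [← preimage_univ (f := (Subtype.val : E → V)),
      h1.measure_preimage MeasurableSet.univ.nullMeasurableSet]
    exact measure_lt_top _ _⟩
  have h2 := (measurePreserving_pi (fun _ : {i // i ∈ S} => μ E • res μ E)
    (fun _ : {i // i ∈ S} => μ.restrict E) fun _ => h1).prod
    (MeasurePreserving.id (Measure.pi fun _ : {i // ¬ i ∈ S} => μ.restrict (E : Set V)ᶜ))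
  have h3 := (measurePreserving_piEquivPiSubtypeProd (fun i => μ.restrict (box_PdD2 E S i))
    (fun i => i ∈ S)).symm
  have e1 : (fun i : {i // i ∈ S} => μ.restrict (box_PdD2 E S i)) = fun _ => μ.restrict E := by
    funext i
    unfold box_PdD2
    rw [if_pos i.2]
  have e2 : (fun i : {i // ¬ i ∈ S} => μ.restrict (box_PdD2 E S i)) =
      fun _ => μ.restrict (E : Set V)ᶜ := by
    funext i
    unfold box_PdD2
    rw [if_neg i.2]
  rw [e1, e2, Subsingleton.elim (Subtype.fintype fun i => i ∈ S) (Finset.Subtype.fintype S)] at h3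
  rw [Measure.restrict_pi_pi]
  exact h3.comp h2

theorem term_PdD2 (b : Basis ι ℝ V) (j : ι) {μ : Measure V} (hμ : Good μ) {E F : Submodule ℝ V}
    (hEF : IsCompl E F) (hE : E ≠ ⊥) (h : μ ((E : Set V) ∪ (F : Set V))ᶜ = 0) (S : Finset ι)
    (hj : j ∈ S) : ∃ C : ℝ≥0∞, ∀ u : E,
      ∫⁻ x in univ.pi (box_PdD2 E S), ENNReal.ofReal |b.det (update x j (u : V))| ∂(pw μ ι)
        = C * ENNReal.ofReal (Qd (res μ E) u) := by
  have := hμ.mom.prob
  have hm : MeasurableSet (E : Set V) := E.closed_of_finiteDimensional.measurableSet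
  have hbox : MeasurableSet (univ.pi (box_PdD2 E S)) := MeasurableSet.univ_pi fun i => by
    unfold box_PdD2
    split_ifs
    · exact hm
    · exact hm.compl
  by_cases hc : S.card = finrank ℝ E
  · have hG := hμ.res hEF hE h
    have := hG.mom.prob
    have hE0 := meas_ne_zero hμ hEF hE h
    let c : Basis {i // i ∈ S} ℝ E := (Module.finBasis ℝ E).reindex
      (Fintype.equivFinOfCardEq (by rw [Fintype.card_coe, hc])).symm
    obtain ⟨a, ha, hQ⟩ := Qm_eq_Qd c ⟨j, hj⟩
    refine ⟨μ E ^ Fintype.card {i // i ∈ S} * ENNReal.ofReal a *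
      ∫⁻ z, ENNReal.ofReal |b.det (glue_PdD2 E S c z)|
        ∂(Measure.pi fun _ : {i // ¬ i ∈ S} => μ.restrict (E : Set V)ᶜ), fun u => ?_⟩
    have hf : Measurable fun x : ι → V => ENNReal.ofReal |b.det (update x j (u : V))| :=
      (((continuous_bdet b).comp (continuous_id.update j continuous_const)).abs.measurable
        ).ennreal_ofReal
    have hf1 : Measurable fun y : {i // i ∈ S} → E =>
        ENNReal.ofReal |c.det (update y ⟨j, hj⟩ u)| :=
      (((continuous_bdet c).comp (continuous_id.update _ continuous_const)).abs.measurable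
        ).ennreal_ofReal
    have hf2 : Measurable fun z : {i // ¬ i ∈ S} → V =>
        ENNReal.ofReal |b.det (glue_PdD2 E S c z)| :=
      (((continuous_bdet b).comp (continuous_glue_PdD2 E S c)).abs.measurable).ennreal_ofReal
    rw [← (mp_glue_PdD2 μ hE0 S).lintegral_comp hf]
    have e : ∀ p : ({i // i ∈ S} → E) × ({i // ¬ i ∈ S} → V),
        ENNReal.ofReal |b.det (update (glue_PdD2 E S p.1 p.2) j (u : V))| =
          ENNReal.ofReal |c.det (update p.1 ⟨j, hj⟩ u)| *
            ENNReal.ofReal |b.det (glue_PdD2 E S c p.2)| := by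
      intro p
      rw [glue_update_PdD2 E S _ _ hj, det_glue_PdD2 b c, abs_mul,
        ENNReal.ofReal_mul (abs_nonneg _)]
    simp only [e]
    rw [lintegral_prod_mul hf1.aemeasurable hf2.aemeasurable,
      pi_smul_PdD2 _ (measure_ne_top _ _), lintegral_smul_measure, smul_eq_mul,
      ← ofReal_integral_eq_lintegral_ofReal (integrable_Qm c ⟨j, hj⟩ hG.mom u)
        (Eventually.of_forall fun _ => abs_nonneg _)]
    have e2 : ∫ y, |c.det (update y ⟨j, hj⟩ u)| ∂(pw (res μ E) {i // i ∈ S}) =
        a * Qd (res μ E) u := hQ _ u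
    rw [e2, ENNReal.ofReal_mul ha.le]
    ring
  · refine ⟨0, fun u => ?_⟩
    rw [zero_mul]
    have hae : ∀ᵐ x ∂(pw μ ι), ∀ i, x i ∈ (E : Set V) ∪ (F : Set V) :=
      ae_pw (P := fun y => y ∈ (E : Set V) ∪ (F : Set V)) h
    refine (lintegral_congr_ae (g := fun _ => 0) ?_).trans lintegral_zero
    filter_upwards [ae_restrict_of_ae hae, ae_restrict_mem hbox] with x h1 h2
    have h3 : b.det (update x j (u : V)) = 0 := by
      rcases lt_or_gt_of_ne hc with hc | hc
      · refine bdet_zero_of_card b (U := F) (S := Sᶜ) (fun i hi => ?_) ?_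
        · have hi' : i ∉ S := Finset.mem_compl.mp hi
          have hij : i ≠ j := fun e => hi' (e ▸ hj)
          rw [update_of_ne hij]
          have h4 := h2 i (mem_univ i)
          unfold box_PdD2 at h4
          rw [if_neg hi'] at h4
          exact (h1 i).resolve_left h4
        · have e1 := Submodule.finrank_add_eq_of_isCompl hEF
          have e2 := Module.finrank_eq_card_basis b
          have e3 := Finset.card_add_card_compl S
          omega
      · refine bdet_zero_of_card b (U := E) (S := S) (fun i hi => ?_) hc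
        by_cases hij : i = j
        · rw [hij, update_self]
          exact u.2
        · rw [update_of_ne hij]
          have h4 := h2 i (mem_univ i)
          unfold box_PdD2 at h4
          rw [if_pos hi] at h4
          exact h4
    rw [h3, abs_zero, ENNReal.ofReal_zero]

theorem split_PdD2 (j : ι) (μ : Measure V) [IsProbabilityMeasure μ] (E : Submodule ℝ V)
    {f : (ι → V) → ℝ≥0∞} (hf : Measurable f) (hj : ∀ x y, f (update x j y) = f x) :
    μ E * ∫⁻ x, f x ∂(pw μ ι) = ∑ S ∈ Finset.univ.filter (fun S : Finset ι => j ∈ S),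
      ∫⁻ x in univ.pi (box_PdD2 E S), f x ∂(pw μ ι) := by
  classical
  have hm : MeasurableSet (E : Set V) := E.closed_of_finiteDimensional.measurableSet
  have hbox : ∀ S : Finset ι, MeasurableSet (univ.pi (box_PdD2 E S)) := fun S =>
    MeasurableSet.univ_pi fun i => by
      unfold box_PdD2
      split_ifs
      · exact hm
      · exact hm.compl
  have hi : Measurable fun y : V => (E : Set V).indicator (1 : V → ℝ≥0∞) y :=
    measurable_one.indicator hm
  have h1 := lintegral_update' μ j
    (F := fun x => (E : Set V).indicator (1 : V → ℝ≥0∞) (x j) * f x)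
    ((hi.comp (measurable_pi_apply j)).mul hf)
  simp only [update_self, hj] at h1
  have h2 : ∀ y : V, ∫⁻ x, (E : Set V).indicator (1 : V → ℝ≥0∞) y * f x ∂(pw μ ι) =
      (E : Set V).indicator (1 : V → ℝ≥0∞) y * ∫⁻ x, f x ∂(pw μ ι) := fun y =>
    lintegral_const_mul _ hf
  simp only [h2] at h1
  rw [lintegral_mul_const _ hi, lintegral_indicator_one hm] at h1
  rw [← h1]
  simp only [← lintegral_indicator (hbox _)]
  rw [← lintegral_finsetSum _ fun S _ => hf.indicator (hbox S)]
  refine lintegral_congr fun x => ?_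
  have hmem : ∀ i, i ∈ (Finset.univ.filter fun i => x i ∈ E) ↔ x i ∈ E := fun i => by simp
  have hx : ∀ S : Finset ι, x ∈ univ.pi (box_PdD2 E S) ↔
      S = Finset.univ.filter fun i => x i ∈ E := by
    intro S
    constructor
    · intro hS
      ext i
      have h4 := hS i (mem_univ i)
      unfold box_PdD2 at h4
      rw [Finset.mem_filter]
      by_cases hi : i ∈ S
      · rw [if_pos hi] at h4
        exact ⟨fun _ => ⟨Finset.mem_univ i, h4⟩, fun _ => hi⟩
      · rw [if_neg hi] at h4
        exact ⟨fun e => absurd e hi, fun e => absurd e.2 h4⟩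
    · rintro rfl i _
      unfold box_PdD2
      by_cases hi : x i ∈ E
      · rw [if_pos ((hmem i).mpr hi)]
        exact hi
      · rw [if_neg fun e => hi ((hmem i).mp e)]
        exact hi
  by_cases hxj : x j ∈ E
  · rw [indicator_of_mem (show x j ∈ (E : Set V) from hxj), Pi.one_apply, one_mul,
      Finset.sum_eq_single (Finset.univ.filter fun i => x i ∈ E)]
    · rw [indicator_of_mem ((hx _).mpr rfl)]
    · intro S _ hS
      exact indicator_of_notMem (fun e => hS ((hx S).mp e)) _
    · intro hS
      refine absurd (Finset.mem_filter.mpr ⟨Finset.mem_univ _, ?_⟩) hS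
      exact (hmem j).mpr hxj
  · rw [indicator_of_notMem (show x j ∉ (E : Set V) from hxj), zero_mul]
    refine (Finset.sum_eq_zero fun S hS => indicator_of_notMem (fun e => hxj ?_) _).symm
    have h5 := (Finset.mem_filter.mp hS).2
    rw [(hx S).mp e] at h5
    exact (Finset.mem_filter.mp h5).2

/-- the product formula -/
theorem Qd_res {μ : Measure V} (hμ : Good μ) {E F : Submodule ℝ V} (hEF : IsCompl E F)
    (hE : E ≠ ⊥) (h : μ ((E : Set V) ∪ (F : Set V))ᶜ = 0) :
    ∃ C : ℝ, 0 < C ∧ ∀ u : E, Qd μ u = C * Qd (res μ E) u := by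
  have := hμ.mom.prob
  obtain ⟨v, hvE, hv⟩ := Submodule.exists_mem_ne_zero_of_ne_bot hE
  have : Nontrivial V := nontrivial_of_ne v 0 hv
  let b := Module.finBasis ℝ V
  let j : Fin (finrank ℝ V) := ⟨0, Module.finrank_pos⟩
  have hG := hμ.res hEF hE h
  have hE0 := meas_ne_zero hμ hEF hE h
  obtain ⟨a, ha, hQ⟩ := Qm_eq_Qd b j
  have h1 : ∀ S : Finset (Fin (finrank ℝ V)), ∃ C : ℝ≥0∞, j ∈ S → ∀ u : E,
      ∫⁻ x in univ.pi (box_PdD2 E S), ENNReal.ofReal |b.det (update x j (u : V))| ∂(pw μ _)
        = C * ENNReal.ofReal (Qd (res μ E) u) := by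
    intro S
    by_cases hj : j ∈ S
    · obtain ⟨C, hC⟩ := term_PdD2 b j hμ hEF hE h S hj
      exact ⟨C, fun _ => hC⟩
    · exact ⟨0, fun e => absurd e hj⟩
  choose C hC using h1
  obtain ⟨T, hT⟩ : ∃ T : ℝ≥0∞, ∀ u : E, μ E * ENNReal.ofReal (a * Qd μ u) =
      T * ENNReal.ofReal (Qd (res μ E) u) := by
    refine ⟨∑ S ∈ Finset.univ.filter (fun S => j ∈ S), C S, fun u => ?_⟩
    have hf : Measurable fun x : Fin (finrank ℝ V) → V =>
        ENNReal.ofReal |b.det (update x j (u : V))| :=
      (((continuous_bdet b).comp (continuous_id.update j continuous_const)).abs.measurable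
        ).ennreal_ofReal
    have h2 := split_PdD2 j μ E hf fun x y => by rw [update_idem]
    rw [← ofReal_integral_eq_lintegral_ofReal (integrable_Qm b j hμ.mom u)
      (Eventually.of_forall fun _ => abs_nonneg _)] at h2
    rw [← hQ μ u, Finset.sum_mul]
    refine h2.trans (Finset.sum_congr rfl fun S hS => hC S (Finset.mem_filter.mp hS).2 u)
  have hn : ∀ u : V, 0 ≤ Qd μ u := fun u => integral_nonneg fun _ => D_nonneg _
  have hn' : ∀ u : E, 0 ≤ Qd (res μ E) u := fun u => integral_nonneg fun _ => D_nonneg _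
  have hR : ∀ u : E, (μ E).toReal * (a * Qd μ u) = T.toReal * Qd (res μ E) u := by
    intro u
    have h2 := congrArg ENNReal.toReal (hT u)
    rwa [ENNReal.toReal_mul, ENNReal.toReal_mul, ENNReal.toReal_ofReal (mul_nonneg ha.le (hn u)),
      ENNReal.toReal_ofReal (hn' u)] at h2
  have hp : 0 < (μ E).toReal := ENNReal.toReal_pos hE0 (measure_ne_top _ _)
  have hv1 : 0 < Qd μ v := Qd_pos hμ hv
  have hT0 : 0 < T.toReal := by
    rcases (ENNReal.toReal_nonneg (a := T)).lt_or_eq with e | e
    · exact e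
    · have h2 := hR ⟨v, hvE⟩
      rw [← e, zero_mul] at h2
      exact absurd h2 (mul_pos hp (mul_pos ha hv1)).ne'
  refine ⟨T.toReal / ((μ E).toReal * a), div_pos hT0 (mul_pos hp ha), fun u => ?_⟩
  rw [div_mul_eq_mul_div, eq_div_iff (mul_pos hp ha).ne', ← hR u]
  ring

end Pool.Agent.P.MP_181257_gt
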