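import Pool.Agent.P.MP_181257_gt.PdD2

set_option autoImplicit false
set_option linter.unusedSectionVars false
set_option linter.unusedVariables false

open MeasureTheory ProbabilityTheory Module Set Filter Topology Function
open scoped RealInnerProductSpace ENNReal Pointwise LinearAlgebra.Projectivization

noncomputable section

namespace Pool.Agent.P.MP_181257_gt

variable {V : Type} [NormedAddCommGroup V] [InnerProductSpace ℝ V] [FiniteDimensional ℝ V]
  [MeasurableSpace V] [BorelSpace V] {ι : Type} [Fintype ι] [DecidableEq ι]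

theorem Qd_map {W : Type} [NormedAddCommGroup W] [InnerProductSpace ℝ W] [FiniteDimensional ℝ W]
    [MeasurableSpace W] [BorelSpace W] (hn : 1 ≤ finrank ℝ V) (T : V ≃ₗ[ℝ] W) :
    ∃ c : ℝ, 0 < c ∧ ∀ (ρ : Measure V) [IsProbabilityMeasure ρ] (u : V),
      Qd (ρ.map T) (T u) = c * Qd ρ u := by
  let b := Module.finBasis ℝ V
  let j : Fin (finrank ℝ V) := ⟨0, by omega⟩
  obtain ⟨c1, hc1, h1⟩ := Qm_eq_Qd b j
  obtain ⟨c2, hc2, h2⟩ := Qm_eq_Qd (b.map T) j
  have hT : Measurable T := T.toContinuousLinearEquiv.continuous.measurable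
  refine ⟨c1 / c2, by positivity, fun ρ _ u => ?_⟩
  have : IsProbabilityMeasure (ρ.map T) := Measure.isProbabilityMeasure_map hT.aemeasurable
  have hmp : MeasurePreserving (fun (x : Fin (finrank ℝ V) → V) i => T (x i))
      (pw ρ (Fin (finrank ℝ V))) (pw (ρ.map T) (Fin (finrank ℝ V))) :=
    measurePreserving_pi _ _ fun _ => ⟨hT, rfl⟩
  have h3 : Qm (b.map T) j (ρ.map T) (T u) = Qm b j ρ u := by
    unfold Qm
    rw [← hmp.map_eq, integral_map hmp.measurable.aemeasurable]
    · refine integral_congr_ae (Eventually.of_forall fun x => ?_)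
      simp only
      rw [Basis.det_map]
      congr 2
      funext i
      by_cases hi : i = j
      · subst hi
        simp
      · simp [update_of_ne hi]
    · exact (((continuous_bdet (b.map T)).comp
        (continuous_id.update j continuous_const)).abs).aestronglyMeasurable
  rw [h1, h2] at h3
  field_simp
  linarith

/-- the part of `ν` on the annihilator of `F`, projected to `E` -/
theorem exists_part {ν : Measure V} (hν : Good ν) {E F : Submodule ℝ V} (hEF : IsCompl E F)
    (hE : E ≠ ⊥) (h : ν ((Fᗮ : Set V) ∪ (Eᗮ : Set V))ᶜ = 0) :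
    ∃ (ρ : Measure E) (c c' : ℝ), Good ρ ∧ 0 < c ∧ 0 < c' ∧ (∀ u : E, Hm ν u = c * Hm ρ u) ∧
      ∀ w ∈ Fᗮ, Qd ν w = c' * Qd ρ (E.orthogonalProjectionOnto w) := by
  have hO := isCompl_orth hEF
  have hF : Fᗮ ≠ ⊥ := by
    intro h0
    rw [Submodule.orthogonal_eq_bot_iff] at h0
    subst h0
    exact hE (by simpa using hEF.disjoint)
  let P : Fᗮ →ₗ[ℝ] E := (E.orthogonalProjectionOnto : V →ₗ[ℝ] E) ∘ₗ Fᗮ.subtype
  have hP : Function.Bijective P := by
    constructor
    · rw [← LinearMap.ker_eq_bot, LinearMap.ker_eq_bot']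
      intro y hy
      have h1 : (y : V) ∈ Eᗮ := Submodule.orthogonalProjectionOnto_eq_zero_iff.1 hy
      have h2 : (y : V) = 0 := Submodule.disjoint_def.1 hO.disjoint _ y.2 h1
      exact Subtype.ext h2
    · intro u
      obtain ⟨w, hw, hu⟩ := exists_lift hEF u
      exact ⟨⟨w, hw⟩, hu⟩
  let T : Fᗮ ≃ₗ[ℝ] E := LinearEquiv.ofBijective P hP
  have hTa : ∀ y : Fᗮ, T y = E.orthogonalProjectionOnto (y : V) := fun y => rfl
  have hT : Measurable T := T.toContinuousLinearEquiv.continuous.measurable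
  have hg := hν.res hO hF h
  have := hg.mom.prob
  have := hν.mom.prob
  have hm := meas_ne_zero hν hO hF h
  have hc : 0 < (ν Fᗮ).toReal := ENNReal.toReal_pos hm (measure_ne_top _ _)
  have hH : ∀ u : E, Hm ν u = (ν Fᗮ).toReal * Hm ((res ν Fᗮ).map T) u := by
    intro u
    rw [Hm_res hν hO hF h (E.le_orthogonal_orthogonal u.2)]
    congr 1
    unfold Hm
    rw [integral_map hT.aemeasurable
      ((continuous_const.inner continuous_id).abs).aestronglyMeasurable]
    refine integral_congr_ae (Eventually.of_forall fun y => ?_)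
    simp only [id]
    rw [hTa, Submodule.inner_orthogonalProjectionOnto_eq_of_mem_left,
      Submodule.inner_orthogonalProjectionOnto_eq_of_mem_right]
  have hn : 1 ≤ finrank ℝ Fᗮ := by
    rw [Nat.one_le_iff_ne_zero]
    intro h0
    exact hF (Submodule.finrank_eq_zero.1 h0)
  obtain ⟨C, hC, hC1⟩ := Qd_res hν hO hF h
  obtain ⟨c2, hc2, hc3⟩ := Qd_map hn T
  refine ⟨(res ν Fᗮ).map T, (ν Fᗮ).toReal, C / c2, ⟨⟨?_, ?_⟩, ?_, ?_⟩, hc, by positivity, hH, ?_⟩
  · exact Measure.isProbabilityMeasure_map hT.aemeasurable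
  · rw [integrable_map_measure continuous_norm.aestronglyMeasurable hT.aemeasurable]
    refine hg.mom.int.mono'
      (continuous_norm.comp T.toContinuousLinearEquiv.continuous).aestronglyMeasurable
      (Eventually.of_forall fun y => ?_)
    simp only [Function.comp, norm_norm]
    rw [hTa]
    exact Submodule.norm_orthogonalProjectionOnto_apply_le E (y : V)
  · rw [Measure.map_apply hT (measurableSet_singleton 0)]
    have h1 : T ⁻¹' {0} = {0} := by
      ext y
      simp
    rw [h1]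
    exact hg.zero
  · intro u hu
    have h1 := hν.pos (u : V) fun h2 => hu (Subtype.ext h2)
    rw [hH] at h1
    exact (mul_pos_iff_of_pos_left hc).1 h1
  · intro w hw
    have h1 := hC1 ⟨w, hw⟩
    have h2 := hc3 (res ν Fᗮ) ⟨w, hw⟩
    rw [hTa] at h2
    simp only at h1 h2
    rw [h1, h2]
    field_simp

theorem Pair.res {μ ν : Measure V} (h : Pair μ ν) {E F : Submodule ℝ V} (hEF : IsCompl E F)
    (hE : E ≠ ⊥) (hs : μ ((E : Set V) ∪ (F : Set V))ᶜ = 0) :
    ∃ ρ : Measure E, Pair (res μ E) ρ := by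
  have := h.gl.mom.prob
  obtain ⟨ρ, c, c', hρ, hc, hc', h1, h2⟩ :=
    exists_part h.gr hEF hE (h.hl.split h.gl h.gr hEF hs)
  obtain ⟨a0, ha0, h3⟩ := h.hl
  obtain ⟨a1, ha1, h4⟩ := h.hr
  obtain ⟨C, hC, h5⟩ := Qd_res h.gl hEF hE hs
  have hm : 0 < (μ E).toReal :=
    ENNReal.toReal_pos (meas_ne_zero h.gl hEF hE hs) (measure_ne_top _ _)
  refine ⟨ρ, h.gl.res hEF hE hs, hρ, ⟨a0 * C / c, by positivity, fun u => ?_⟩,
    ⟨a1 * c' / (μ E).toReal, by positivity, fun u => ?_⟩⟩
  · have h6 := h1 u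
    rw [h3, h5] at h6
    field_simp
    linarith
  · obtain ⟨w, hw, hu⟩ := exists_lift hEF u
    have h6 := Hm_res h.gl hEF hE hs hw
    rw [h4, h2 w hw, hu] at h6
    field_simp
    linarith

end Pool.Agent.P.MP_181257_gt
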