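import Pool.Agent.P.MP_181257_gt.PdD1b
import Pool.Agent.P.MP_181257_gt.PdC2

set_option autoImplicit false
set_option linter.unusedSectionVars false
set_option linter.unusedVariables false

open MeasureTheory ProbabilityTheory Module Set Filter Topology Function
open scoped RealInnerProductSpace ENNReal Pointwise LinearAlgebra.Projectivization

noncomputable section

namespace Pool.Agent.P.MP_181257_gt

variable {V : Type} [NormedAddCommGroup V] [InnerProductSpace ℝ V] [FiniteDimensional ℝ V]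
  [MeasurableSpace V] [BorelSpace V] {ι : Type} [Fintype ι] [DecidableEq ι]

theorem isCompl_family {r : ℕ} {E : Fin r → Submodule ℝ V} (hi : iSupIndep E)
    (ht : ⨆ j, E j = ⊤) (j : Fin r) : IsCompl (E j) (⨆ (i : Fin r) (_ : i ≠ j), E i) := by
  refine ⟨hi j, codisjoint_iff.2 (top_le_iff.1 ?_)⟩
  rw [← ht]
  refine iSup_le fun i => ?_
  by_cases h : i = j
  · rw [h]; exact le_sup_left
  · exact le_sup_of_le_right (le_iSup₂_of_le i h le_rfl)

theorem null_family {μ : Measure V} {r : ℕ} {E : Fin r → Submodule ℝ V}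
    (h : μ (⋃ j, (E j : Set V))ᶜ = 0) (j : Fin r) :
    μ ((E j : Set V) ∪ ((⨆ (i : Fin r) (_ : i ≠ j), E i : Submodule ℝ V) : Set V))ᶜ = 0 := by
  refine measure_mono_null (compl_subset_compl.2 (iUnion_subset fun i x hx => ?_)) h
  by_cases e : i = j
  · exact Or.inl (e ▸ hx)
  · exact Or.inr ((le_iSup₂_of_le i e le_rfl : E i ≤ ⨆ (i : Fin r) (_ : i ≠ j), E i) hx)

theorem indep_iff_PdD4 {r : ℕ} {E : Fin r → Submodule ℝ V} : iSupIndep E ↔
    ∀ v : Fin r → V, (∀ i, v i ∈ E i) → ∑ i, v i = 0 → ∀ i, v i = 0 := by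
  rw [iSupIndep_iff_finsetSum_eq_zero_imp_eq_zero]
  constructor
  · exact fun h v hv h0 i => h Finset.univ v (fun i _ => hv i) h0 i (Finset.mem_univ i)
  · intro h s v hv h0 i hi
    have := h (fun i => if i ∈ s then v i else 0) (fun i => by
      split_ifs with c
      · exact hv i c
      · exact zero_mem _) (by rw [Finset.sum_ite_mem, Finset.univ_inter, h0]) i
    simpa [hi] using this

theorem refine_PdD4 {μ : Measure V} [IsFiniteMeasure μ] {r : ℕ} {E : Fin r → Submodule ℝ V}
    (hi : iSupIndep E) (ht : ⨆ j, E j = ⊤) (hb : ∀ j, E j ≠ ⊥)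
    (h0 : μ (⋃ j, (E j : Set V))ᶜ = 0) {j : Fin r} (hs : Splits (res μ (E j))) :
    ∃ G : Fin (r + 1) → Submodule ℝ V, iSupIndep G ∧ ⨆ j, G j = ⊤ ∧ (∀ j, G j ≠ ⊥) ∧
      μ (⋃ j, (G j : Set V))ᶜ = 0 := by
  obtain ⟨A, B, hAB, hA, hB, hn⟩ := hs
  have hinj := (E j).injective_subtype
  have hd : Disjoint (A.map (E j).subtype) (B.map (E j).subtype) := by
    rw [disjoint_iff, ← Submodule.map_inf _ hinj, hAB.inf_eq_bot, Submodule.map_bot]
  have hsup : A.map (E j).subtype ⊔ B.map (E j).subtype = E j := by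
    rw [← Submodule.map_sup, hAB.sup_eq_top, Submodule.map_subtype_top]
  have hne : ∀ C : Submodule ℝ (E j), C ≠ ⊥ → C.map (E j).subtype ≠ ⊥ := fun C hC h =>
    hC (Submodule.map_injective_of_injective hinj (h.trans (Submodule.map_bot _).symm))
  refine ⟨Fin.cons (A.map (E j).subtype) (update E j (B.map (E j).subtype)), ?_, ?_, ?_, ?_⟩
  · rw [indep_iff_PdD4] at hi ⊢
    intro v hv hs
    have v0 : v 0 ∈ A.map (E j).subtype := by simpa using hv 0
    have vj : v j.succ ∈ B.map (E j).subtype := by simpa using hv j.succ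
    have hw := hi (fun i => v i.succ + if i = j then v 0 else 0) (fun i => by
      by_cases c : i = j
      · subst c
        rw [if_pos rfl]
        exact add_mem (Submodule.map_subtype_le _ _ vj) (Submodule.map_subtype_le _ _ v0)
      · simpa [c] using hv i.succ) (by
      rw [Fin.sum_univ_succ] at hs
      rw [Finset.sum_add_distrib, add_comm]
      simpa using hs)
    have e := hw j
    rw [if_pos rfl] at e
    have z0 : v 0 = 0 := by
      refine Submodule.disjoint_def.1 hd _ v0 ?_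
      rw [eq_neg_of_add_eq_zero_right e]
      exact neg_mem vj
    intro i
    refine Fin.cases z0 (fun i => ?_) i
    simpa [z0] using hw i
  · refine top_le_iff.1 (ht.ge.trans (iSup_le fun i => ?_))
    by_cases c : i = j
    · subst c
      refine hsup.ge.trans (sup_le (le_iSup_of_le 0 (by simp)) (le_iSup_of_le i.succ (by simp)))
    · exact le_iSup_of_le i.succ (by simp [c])
  · intro i
    refine Fin.cases (by simpa using hne A hA) (fun i => ?_) i
    by_cases c : i = j
    · subst c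
      simpa using hne B hB
    · simpa [c] using hb i
  · have hm : MeasurableSet ((A : Set (E j)) ∪ (B : Set (E j)))ᶜ :=
      (A.closed_of_finiteDimensional.measurableSet.union
        B.closed_of_finiteDimensional.measurableSet).compl
    rw [res_apply _ _ hm, mul_eq_zero] at hn
    have h1 := hn.resolve_left (ENNReal.inv_ne_zero.2 (measure_ne_top _ _))
    refine measure_mono_null (fun x hx => ?_) (measure_union_null h0 h1)
    by_contra hc
    rw [mem_union, not_or, notMem_compl_iff, mem_iUnion] at hc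
    obtain ⟨⟨i, hxi⟩, h2⟩ := hc
    refine hx (mem_iUnion.2 ?_)
    by_cases c : i = j
    · subst c
      by_cases a : (⟨x, hxi⟩ : E i) ∈ A
      · exact ⟨0, by simpa using ⟨hxi, a⟩⟩
      by_cases b : (⟨x, hxi⟩ : E i) ∈ B
      · exact ⟨i.succ, by simpa using ⟨hxi, b⟩⟩
      exact absurd ⟨⟨x, hxi⟩, fun h => h.elim a b, rfl⟩ h2
    · exact ⟨i.succ, by simpa [c] using hxi⟩

theorem exists_family (hn : 1 ≤ finrank ℝ V) {μ : Measure V} (hμ : Good μ) :
    ∃ (r : ℕ) (E : Fin r → Submodule ℝ V), iSupIndep E ∧ ⨆ j, E j = ⊤ ∧ (∀ j, E j ≠ ⊥) ∧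
      μ (⋃ j, (E j : Set V))ᶜ = 0 ∧ ∀ j, ¬ Splits (res μ (E j)) := by
  classical
  have := hμ.mom.prob
  let P : ℕ → Prop := fun r => ∃ E : Fin r → Submodule ℝ V, iSupIndep E ∧ ⨆ j, E j = ⊤ ∧
    (∀ j, E j ≠ ⊥) ∧ μ (⋃ j, (E j : Set V))ᶜ = 0
  have h1 : P 1 := by
    have : Nontrivial V := Module.finrank_pos_iff.1 hn
    exact ⟨fun _ => ⊤, iSupIndep_subsingleton _, by simp, fun _ => top_ne_bot,
      by simp [iInter_const]⟩
  have h2 : ∀ r, P r → r ≤ finrank ℝ V := by
    rintro r ⟨E, hi, -, hb, -⟩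
    have := hi.subtype_ne_bot_le_finrank
    rwa [Fintype.card_congr (Equiv.subtypeUnivEquiv hb), Fintype.card_fin] at this
  obtain ⟨E, hi, ht, hb, h0⟩ := Nat.findGreatest_spec (P := P) hn h1
  refine ⟨_, E, hi, ht, hb, h0, fun j hs => ?_⟩
  have h3 : P (Nat.findGreatest P (finrank ℝ V) + 1) := refine_PdD4 hi ht hb h0 hs
  exact Nat.findGreatest_is_greatest (Nat.lt_succ_self _) (h2 _ h3) h3

end Pool.Agent.P.MP_181257_gt
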