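import Pool.Agent.P.MP_181257_gt.PdD4

set_option autoImplicit false
set_option linter.unusedSectionVars false
set_option linter.unusedVariables false

open MeasureTheory ProbabilityTheory Module Set Filter Topology Function
open scoped RealInnerProductSpace ENNReal Pointwise LinearAlgebra.Projectivization

noncomputable section

namespace Pool.Agent.P.MP_181257_gt

variable {V : Type} [NormedAddCommGroup V] [InnerProductSpace ℝ V] [FiniteDimensional ℝ V]
  [MeasurableSpace V] [BorelSpace V] {ι : Type} [Fintype ι] [DecidableEq ι]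

theorem Hm_family {μ : Measure V} (hμ : Good μ) {r : ℕ} {E : Fin r → Submodule ℝ V}
    (hi : iSupIndep E) (ht : ⨆ j, E j = ⊤) (hb : ∀ j, E j ≠ ⊥)
    (h : μ (⋃ j, (E j : Set V))ᶜ = 0) (u : V) :
    Hm μ u = ∑ j, (μ (E j)).toReal * Hm (res μ (E j)) ((E j).orthogonalProjectionOnto u) := by
  have hm : ∀ j, MeasurableSet (E j : Set V) := fun j =>
    (E j).closed_of_finiteDimensional.measurableSet
  have h1 : ∀ᵐ x ∂μ, |⟪u, x⟫| = ∑ j, (E j : Set V).indicator (fun x => |⟪u, x⟫|) x := by
    have h2 : ∀ᵐ x ∂μ, x ∈ ⋃ j, (E j : Set V) := h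
    filter_upwards [h2] with x hx
    obtain ⟨j, hj⟩ := mem_iUnion.mp hx
    rw [Finset.sum_eq_single j (fun i _ hij => ?_) (fun hn => absurd (Finset.mem_univ j) hn),
      indicator_of_mem hj]
    by_cases hx : x ∈ (E i : Set V)
    · have h0 : x = 0 := (Submodule.disjoint_def.mp (hi.pairwiseDisjoint hij)) x hx hj
      rw [indicator_of_mem hx, h0, inner_zero_right, abs_zero]
    · exact indicator_of_notMem hx _
  unfold Hm
  rw [integral_congr_ae h1,
    integral_finsetSum _ fun j _ => (integrable_Hm hμ.mom u).indicator (hm j)]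
  refine Finset.sum_congr rfl fun j _ => ?_
  rw [integral_indicator (hm j)]
  exact setIntegral_res hμ.mom
    (meas_ne_zero hμ (isCompl_family hi ht j) (hb j) (null_family h j)) u

theorem Zs_family {μ : Measure V} (hμ : Good μ) {r : ℕ} {E : Fin r → Submodule ℝ V}
    (hi : iSupIndep E) (ht : ⨆ j, E j = ⊤) (hb : ∀ j, E j ≠ ⊥)
    (h : μ (⋃ j, (E j : Set V))ᶜ = 0) {c : ℝ} (hc : 0 < c) :
    (Zs fun u => c * Hm μ u) = ∑ j, (Subtype.val : E j → V) ''
      Zs fun u : E j => (c * (μ (E j)).toReal) * Hm (res μ (E j)) u := by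
  ext z
  rw [mem_Zs_iff, Set.mem_fintype_sum]
  constructor
  · intro hz
    have h1 : z ∈ ⨆ j ∈ (Finset.univ : Finset (Fin r)), E j := by
      simp [ht]
    obtain ⟨y, rfl⟩ := (Submodule.mem_iSup_finset_iff_exists_sum _ _).mp h1
    refine ⟨fun j => (y j : V), fun j => ⟨y j, ?_, rfl⟩, rfl⟩
    rw [mem_Zs_iff]
    intro u
    obtain ⟨w, hw, rfl⟩ := exists_lift (isCompl_family hi ht j) u
    have h2 := hz w
    rw [Hm_res hμ (isCompl_family hi ht j) (hb j) (null_family h j) hw, sum_inner,
      Finset.sum_eq_single j (fun i _ hij => ?_) (fun hn => absurd (Finset.mem_univ j) hn)] at h2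
    · rw [Submodule.inner_orthogonalProjectionOnto_eq_of_mem_left, mul_assoc]
      exact h2
    · exact Submodule.inner_right_of_mem_orthogonal
        (Submodule.mem_iSup_of_mem i (Submodule.mem_iSup_of_mem hij (y i).2)) hw
  · rintro ⟨g, hg, rfl⟩ u
    rw [Hm_family hμ hi ht hb h u, sum_inner, Finset.mul_sum]
    refine Finset.sum_le_sum fun j _ => ?_
    obtain ⟨y, hy, e⟩ := hg j
    rw [mem_Zs_iff] at hy
    have h2 := hy ((E j).orthogonalProjectionOnto u)
    rw [Submodule.inner_orthogonalProjectionOnto_eq_of_mem_left, mul_assoc, e] at h2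
    exact h2

end Pool.Agent.P.MP_181257_gt
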