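import Pool.Agent.P.MP_181257_gt.HiR4
import Pool.Agent.P.MP_181257_gt.DefsP

/-! Definitions for the case `i = n - 1`. -/

set_option autoImplicit false
set_option linter.unusedSectionVars false
set_option linter.unusedVariables false

open MeasureTheory ProbabilityTheory Module Set Filter Topology Function
open scoped RealInnerProductSpace ENNReal Pointwise LinearAlgebra.Projectivization

noncomputable section

namespace Pool.Agent.P.MP_181257_gt

variable {V : Type} [NormedAddCommGroup V] [InnerProductSpace ℝ V] [FiniteDimensional ℝ V]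
  [MeasurableSpace V] [BorelSpace V] {ι : Type} [Fintype ι] [DecidableEq ι]

/-- support function of the zonoid of a measure -/
def Hm (μ : Measure V) (u : V) : ℝ := ∫ x, |⟪u, x⟫| ∂μ

/-- product of copies of a measure -/
abbrev pw (μ : Measure V) (ι : Type) [Fintype ι] : Measure (ι → V) := Measure.pi fun _ : ι => μ

/-- the vector representing `u ↦ det (x with x j := u)` -/
def Nv (b : Basis ι ℝ V) (j : ι) (x : ι → V) : V :=
  ∑ k, b.det (update x j (stdOrthonormalBasis ℝ V k)) • stdOrthonormalBasis ℝ V k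

/-- mean volume with one fixed vector -/
def Qm (b : Basis ι ℝ V) (j : ι) (μ : Measure V) (u : V) : ℝ :=
  ∫ x, |b.det (update x j u)| ∂(pw μ ι)

/-- mean volume with two fixed vectors -/
def Gm (b : Basis ι ℝ V) (j k : ι) (μ : Measure V) (u v : V) : ℝ :=
  ∫ x, |b.det (update (update x j u) k v)| ∂(pw μ ι)

/-- mean volume with one fixed vector, basis free -/
def Qd (μ : Measure V) (u : V) : ℝ :=
  ∫ x, D (Fin.cons u x : Fin (finrank ℝ V - 1 + 1) → V) ∂(mk μ (finrank ℝ V - 1))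

/-- spanning probability measures with a first moment -/
structure Good (μ : Measure V) : Prop where
  mom : Mom μ
  zero : μ {0} = 0
  pos : ∀ u, u ≠ 0 → 0 < Hm μ u

/-- `ν` generates the projection body of the zonoid of `μ` -/
def Half (μ ν : Measure V) : Prop := ∃ a : ℝ, 0 < a ∧ ∀ u, Hm ν u = a * Qd μ u

/-- a fixed pair -/
structure Pair (μ ν : Measure V) : Prop where
  gl : Good μ
  gr : Good ν
  hl : Half μ ν
  hr : Half ν μ

theorem Pair.symm {μ ν : Measure V} (h : Pair μ ν) : Pair ν μ := ⟨h.gr, h.gl, h.hr, h.hl⟩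

/-- normalised restriction to a subspace -/
def res (μ : Measure V) (E : Submodule ℝ V) : Measure E :=
  (μ E)⁻¹ • μ.comap (Subtype.val : E → V)

/-- the measure lives on two complementary subspaces -/
def Splits (μ : Measure V) : Prop :=
  ∃ E F : Submodule ℝ V, IsCompl E F ∧ E ≠ ⊥ ∧ F ≠ ⊥ ∧ μ ((E : Set V) ∪ (F : Set V))ᶜ = 0

/-- the set lies in two complementary subspaces -/
def SplitsS (A : Set V) : Prop :=
  ∃ E F : Submodule ℝ V, IsCompl E F ∧ E ≠ ⊥ ∧ F ≠ ⊥ ∧ A ⊆ (E : Set V) ∪ (F : Set V)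

/-- the cone over a set -/
def cone (O : Set V) : Set V := {x | ∃ t : ℝ, t ≠ 0 ∧ t • x ∈ O}

/-- the projective support -/
def csupp (μ : Measure V) : Set V := {z | ∀ O : Set V, IsOpen O → z ∈ O → μ (cone O) ≠ 0}

/-- the lines of positive mass -/
def atoms (μ : Measure V) : Set V := {z | z = 0 ∨ μ ((ℝ ∙ z : Submodule ℝ V) : Set V) ≠ 0}

/-- the measure lives on countably many lines -/
def Atomic (μ : Measure V) : Prop :=
  ∃ S : Set V, S.Countable ∧ μ (⋃ z ∈ S, ((ℝ ∙ z : Submodule ℝ V) : Set V))ᶜ = 0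

/-- the subspace is spanned by its points in `A` -/
def Sp (A : Set V) (U : Submodule ℝ V) : Prop := U ≤ Submodule.span ℝ (A ∩ (U : Set V))

/-- closed pairs of cones -/
structure Cl (A A' : Set V) : Prop where
  sl : ∀ (t : ℝ) z, z ∈ A → t • z ∈ A
  sr : ∀ (t : ℝ) z, z ∈ A' → t • z ∈ A'
  tl : Submodule.span ℝ A = ⊤
  tr : Submodule.span ℝ A' = ⊤
  dl : ∀ w, w ≠ 0 → Sp A (ℝ ∙ w)ᗮ → w ∈ A'
  dr : ∀ w, w ≠ 0 → Sp A' (ℝ ∙ w)ᗮ → w ∈ A

theorem Cl.symm {A A' : Set V} (h : Cl A A') : Cl A' A := ⟨h.sr, h.sl, h.tr, h.tl, h.dr, h.dl⟩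

/-- essential flats -/
structure Flat (μ : Measure V) (e : V → Submodule ℝ V) : Prop where
  count : (range e).Countable
  meas : ∀ E, MeasurableSet {x | e x = E}
  mem : ∀ x, x ∈ e x
  smul : ∀ (t : ℝ) x, t ≠ 0 → e (t • x) = e x
  gen : ∀ F : Submodule ℝ V, μ {x | x ∈ F ∧ ¬ e x ≤ F} = 0

/-- a plane with an orthonormal basis -/
structure Pl (V : Type) [NormedAddCommGroup V] [InnerProductSpace ℝ V] where
  p : V
  q : V
  hp : ‖p‖ = 1
  hq : ‖q‖ = 1
  hpq : ⟪p, q⟫ = 0

/-- the plane as a subspace -/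
def Pl.sp (π : Pl V) : Submodule ℝ V := Submodule.span ℝ {π.p, π.q}

/-- projection on the plane followed by a quarter turn -/
def Pl.J (π : Pl V) (x : V) : V := ⟪x, π.q⟫ • π.p - ⟪x, π.p⟫ • π.q

/-- the product of the cosines of the angles between two planes -/
def gp (l π : Pl V) : ℝ := |⟪l.p, π.p⟫ * ⟪l.q, π.q⟫ - ⟪l.p, π.q⟫ * ⟪l.q, π.p⟫|

/-- weight of the families spanning the orthogonal complement of a plane -/
def Mp (b : Basis ι ℝ V) (j k : ι) (μ : Measure V) (π : Pl V) : ℝ :=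
  ∫ y in {y : ι → V | ∀ i, i ≠ j → i ≠ k → y i ∈ π.spᗮ},
    |b.det (update (update y j π.p) k π.q)| ∂(pw μ ι)

/-- weight of a line -/
def aL (μ ν : Measure V) (x : ℙ ℝ V) : ℝ := ∫ z in (x.submodule : Set V), Hm ν z ∂μ

/-- mass sent from a line to the pencil of a plane -/
def Rp (b : Basis ι ℝ V) (j k : ι) (μ : Measure V) (π : Pl V) (x : V) : ℝ :=
  ((Fintype.card ι : ℝ) - 1) * Mp b j k μ π * Hm μ (π.J x) / Qm b j μ x

/-- transition weight between planes -/
def tp (b : Basis ι ℝ V) (j k : ι) (μ : Measure V) (l π : Pl V) : ℝ :=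
  gp l π * Mp b j k μ π / Gm b j k μ l.p l.q

/-- the perspectivity -/
def persp (π : Pl V) (x : ℙ ℝ V) : ℙ ℝ V := by
  classical
  exact if h : π.J x.rep = 0 then x else Projectivization.mk ℝ (π.J x.rep) h

/-- the truncated power -/
def Psi (L s r : ℝ) : ℝ := min (L * r) (r ^ s)

end Pool.Agent.P.MP_181257_gt
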