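import Pool.Agent.P.MP_181257_gt.PdA2

set_option autoImplicit false
set_option linter.unusedSectionVars false
set_option linter.unusedVariables false

open MeasureTheory ProbabilityTheory Module Set Filter Topology Function
open scoped RealInnerProductSpace ENNReal Pointwise LinearAlgebra.Projectivization

noncomputable section

namespace Pool.Agent.P.MP_181257_gt

variable {V : Type} [NormedAddCommGroup V] [InnerProductSpace ℝ V] [FiniteDimensional ℝ V]
  [MeasurableSpace V] [BorelSpace V] {ι : Type} [Fintype ι] [DecidableEq ι]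

theorem Sp.sup {A : Set V} {U W : Submodule ℝ V} (hU : Sp A U) (hW : Sp A W) : Sp A (U ⊔ W) := by
  refine sup_le (le_trans hU (Submodule.span_mono ?_)) (le_trans hW (Submodule.span_mono ?_))
  · exact fun x hx => ⟨hx.1, Submodule.mem_sup_left hx.2⟩
  · exact fun x hx => ⟨hx.1, Submodule.mem_sup_right hx.2⟩

theorem Sp.span {A B : Set V} (h : B ⊆ A) : Sp A (Submodule.span ℝ B) := by
  exact Submodule.span_mono fun x hx => ⟨h hx, Submodule.subset_span hx⟩

theorem of_smul_mem_PdE1 {U : Submodule ℝ V} {d : ℝ} (hd : d ≠ 0) {w : V} (h : d • w ∈ U) :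
    w ∈ U := (U.smul_mem_iff hd).1 h

theorem Cl.orth {A A' : Set V} (h : Cl A A') {U : Submodule ℝ V} (hU : Sp A U) : Sp A' Uᗮ := by
  classical
  set b := Module.finBasis ℝ V with hb
  obtain ⟨J, -, hJ⟩ := Finset.exists_subset_card_eq (s := (Finset.univ : Finset (Fin (finrank ℝ V))))
    (n := finrank ℝ U) (by simpa using U.finrank_le)
  obtain ⟨y, -, hy, hyi⟩ := ext_indep hU (J₀ := ∅) (J := J) (Finset.empty_subset _) hJ.le
    (x := fun _ => 0) (by simp) (by simp)
  obtain ⟨x, hxy, hxA, hd⟩ := ext_basis b h.tl hyi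
  have hA : ∀ i, x i ∈ A := fun i => by
    by_cases hi : i ∈ J
    · rw [hxy i hi]; exact (hy i hi (by simp)).1
    · exact hxA i hi
  have hxU : ∀ i ∈ J, x i ∈ U := fun i hi => by rw [hxy i hi]; exact (hy i hi (by simp)).2
  have hN : ∀ j, Nv b j x ∈ A' := fun j => by
    refine h.dl _ (fun h0 => hd ?_) fun w hw => ?_
    · have h1 := inner_Nv_self b x j j
      rw [h0, inner_zero_right, if_pos rfl] at h1
      exact h1.symm
    · refine of_smul_mem_PdE1 hd ?_
      rw [cramer_vec]
      refine Submodule.sum_mem _ fun i _ => ?_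
      by_cases hi : i = j
      · rw [hi, ← inner_Nv, Submodule.mem_orthogonal_singleton_iff_inner_left.1 hw, zero_smul]
        exact Submodule.zero_mem _
      · refine Submodule.smul_mem _ _ (Submodule.subset_span ⟨hA i, ?_⟩)
        refine Submodule.mem_orthogonal_singleton_iff_inner_left.2 ?_
        rw [inner_Nv_self, if_neg hi]
  have hNU : ∀ j, j ∉ J → Nv b j x ∈ Uᗮ := fun j hj u hu => by
    rw [inner_Nv]
    refine bdet_zero_of_card b (U := U) (S := insert j J) (fun i hi => ?_) ?_
    · rcases Finset.mem_insert.1 hi with rfl | hi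
      · rwa [update_self]
      · rw [update_of_ne (fun he : i = j => hj (he ▸ hi))]
        exact hxU i hi
    · rw [Finset.card_insert_of_notMem hj, hJ]
      omega
  intro w hw
  refine of_smul_mem_PdE1 hd ?_
  rw [cramer_dual]
  refine Submodule.sum_mem _ fun j _ => ?_
  by_cases hj : j ∈ J
  · rw [hw _ (hxU j hj), zero_smul]
    exact Submodule.zero_mem _
  · exact Submodule.smul_mem _ _ (Submodule.subset_span ⟨hN j, hNU j hj⟩)

theorem Cl.inf {A A' : Set V} (h : Cl A A') {U W : Submodule ℝ V} (hU : Sp A U) (hW : Sp A W) :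
    Sp A (U ⊓ W) := by
  have h1 := h.symm.orth ((h.orth hU).sup (h.orth hW))
  rwa [← Submodule.inf_orthogonal, Submodule.orthogonal_orthogonal,
    Submodule.orthogonal_orthogonal] at h1

theorem Cl.mem_of_sp {A A' : Set V} (h : Cl A A') {z : V} (hz0 : z ≠ 0) (hz : Sp A (ℝ ∙ z)) :
    z ∈ A := by
  exact h.dr z hz0 (h.orth hz)

/-- a line through two points meets a subspace in a point -/
theorem Cl.meet {A A' : Set V} (h : Cl A A') {x y z : V} (hx : x ∈ A) (hy : y ∈ A)
    {U : Submodule ℝ V} (hU : Sp A U) (hz0 : z ≠ 0) (hz : z ∈ Submodule.span ℝ {x, y})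
    (hzU : z ∈ U) (hyU : y ∉ U) : z ∈ A := by
  have h1 : Sp A (Submodule.span ℝ {x, y} ⊓ U) :=
    h.inf (Sp.span (by rintro w (rfl | rfl) <;> assumption)) hU
  have h2 : Submodule.span ℝ {x, y} ⊓ U = ℝ ∙ z := by
    refine le_antisymm (fun w hw => ?_)
      ((Submodule.span_singleton_le_iff_mem _ _).2 ⟨hz, hzU⟩)
    obtain ⟨a, c, hac⟩ := Submodule.mem_span_pair.1 hz
    obtain ⟨a', c', hac'⟩ := Submodule.mem_span_pair.1 hw.1
    have ha : a ≠ 0 := by
      rintro rfl
      rw [zero_smul, zero_add] at hac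
      have hc : c ≠ 0 := by
        rintro rfl
        exact hz0 (by rw [← hac, zero_smul])
      exact hyU (of_smul_mem_PdE1 hc (hac ▸ hzU))
    have h3 : (a * c' - a' * c) • y = a • w - a' • z := by
      rw [← hac, ← hac']
      module
    have h4 : a * c' - a' * c = 0 := by
      by_contra h5
      exact hyU (of_smul_mem_PdE1 h5
        (h3 ▸ U.sub_mem (U.smul_mem _ hw.2) (U.smul_mem _ hzU)))
    rw [h4, zero_smul, eq_comm, sub_eq_zero] at h3
    exact of_smul_mem_PdE1 ha (h3 ▸ Submodule.smul_mem _ _ (Submodule.mem_span_singleton_self z))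
  exact h.mem_of_sp hz0 (h2 ▸ h1)

end Pool.Agent.P.MP_181257_gt
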