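import Pool.Agent.P.MP_181257_gt.PdE1

set_option autoImplicit false
set_option linter.unusedSectionVars false
set_option linter.unusedVariables false

open MeasureTheory ProbabilityTheory Module Set Filter Topology Function
open scoped RealInnerProductSpace ENNReal Pointwise LinearAlgebra.Projectivization

noncomputable section

namespace Pool.Agent.P.MP_181257_gt

variable {V : Type} [NormedAddCommGroup V] [InnerProductSpace ℝ V] [FiniteDimensional ℝ V]
  [MeasurableSpace V] [BorelSpace V] {ι : Type} [Fintype ι] [DecidableEq ι]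

/-- a third point on a line leaving `U` -/
theorem Cl.third {A A' : Set V} (h : Cl A A') (hs : ¬ SplitsS A) {U : Submodule ℝ V}
    (hU : Sp A U) (hb : U ≠ ⊥) (ht : U ≠ ⊤) :
    ∃ z r : V, z ∈ A ∧ z ∈ U ∧ z ≠ 0 ∧ r ∈ A ∧ r ∉ U ∧ z + r ∈ A := by
  classical
  have hsub : A ⊆ (U : Set V) ∪ (Submodule.span ℝ (A \ (U : Set V)) : Set V) := by
    intro a ha
    by_cases hu : a ∈ U
    · exact Or.inl hu
    · exact Or.inr (Submodule.subset_span ⟨ha, hu⟩)
  have hsup : U ⊔ Submodule.span ℝ (A \ (U : Set V)) = ⊤ := by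
    rw [eq_top_iff, ← h.tl, Submodule.span_le]
    intro a ha
    rcases hsub ha with h1 | h1
    · exact Submodule.mem_sup_left h1
    · exact Submodule.mem_sup_right h1
  have hF : Submodule.span ℝ (A \ (U : Set V)) ≠ ⊥ := by
    intro e
    rw [e, sup_bot_eq] at hsup
    exact ht hsup
  have hnd : ¬ Disjoint U (Submodule.span ℝ (A \ (U : Set V))) := fun hd =>
    hs ⟨U, _, ⟨hd, codisjoint_iff.2 hsup⟩, hb, hF, hsub⟩
  have hex : ∃ n : ℕ, ∃ s : Finset V, s.card = n ∧ (s : Set V) ⊆ A \ (U : Set V) ∧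
      ∃ z : V, z ≠ 0 ∧ z ∈ U ∧ z ∈ Submodule.span ℝ (s : Set V) := by
    rw [Submodule.disjoint_def] at hnd
    push Not at hnd
    obtain ⟨z, hzU, hzF, hz0⟩ := hnd
    obtain ⟨s, hs1, hs2⟩ := Submodule.mem_span_finite_of_mem_span hzF
    exact ⟨_, s, rfl, hs1, z, hz0, hzU, hs2⟩
  obtain ⟨s, hsc, hsA, z, hz0, hzU, hzs⟩ := Nat.find_spec hex
  have hne : s.Nonempty := by
    rw [Finset.nonempty_iff_ne_empty]
    rintro rfl
    simp only [Finset.coe_empty, Submodule.span_empty, Submodule.mem_bot] at hzs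
    exact hz0 hzs
  obtain ⟨r, hr⟩ := hne
  have hins : (s : Set V) = insert r ((s.erase r : Finset V) : Set V) := by
    rw [← Finset.coe_insert, Finset.insert_erase hr]
  have hsA' : ((s.erase r : Finset V) : Set V) ⊆ A \ (U : Set V) :=
    fun a ha => hsA (Finset.mem_coe.2 (Finset.mem_of_mem_erase (Finset.mem_coe.1 ha)))
  have hmin : ∀ w : V, w ∈ U → w ∈ Submodule.span ℝ ((s.erase r : Finset V) : Set V) → w = 0 := by
    intro w hwU hws
    by_contra hw0
    refine Nat.find_min hex (m := (s.erase r).card) ?_ ⟨_, rfl, hsA', w, hw0, hwU, hws⟩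
    rw [← hsc]
    exact Finset.card_erase_lt_of_mem hr
  have hrA : r ∈ A := (hsA (Finset.mem_coe.2 hr)).1
  have hrU : r ∉ U := (hsA (Finset.mem_coe.2 hr)).2
  have hzs' := hzs
  rw [hins, Submodule.mem_span_insert] at hzs'
  obtain ⟨c, y, hy, hz⟩ := hzs'
  have hc : c ≠ 0 := by
    rintro rfl
    rw [zero_smul, zero_add] at hz
    exact hz0 (hmin z hzU (hz ▸ hy))
  have hline : Submodule.span ℝ (s : Set V) ⊓ U = ℝ ∙ z := by
    apply le_antisymm
    · rintro w ⟨hws, hwU⟩
      have hws' : w ∈ Submodule.span ℝ (s : Set V) := hws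
      rw [hins, Submodule.mem_span_insert] at hws'
      obtain ⟨c', y', hy', hw⟩ := hws'
      have h0 : c • w - c' • z = 0 := by
        refine hmin _ (U.sub_mem (U.smul_mem _ hwU) (U.smul_mem _ hzU)) ?_
        have e : c • w - c' • z = c • y' - c' • y := by
          rw [hw, hz]; module
        rw [e]
        exact Submodule.sub_mem _ (Submodule.smul_mem _ _ hy') (Submodule.smul_mem _ _ hy)
      rw [Submodule.mem_span_singleton]
      refine ⟨c⁻¹ * c', ?_⟩
      rw [mul_smul, ← sub_eq_zero.1 h0, smul_smul, inv_mul_cancel₀ hc, one_smul]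
    · rw [Submodule.span_singleton_le_iff_mem]
      exact ⟨hzs, hzU⟩
  have hzA : z ∈ A := by
    refine h.mem_of_sp hz0 ?_
    rw [← hline]
    exact h.inf (Sp.span fun a ha => (hsA ha).1) hU
  have hcr : c • r ∉ U := fun hm => hrU ((U.smul_mem_iff hc).1 hm)
  have hy0 : y ≠ 0 := by
    rintro rfl
    rw [add_zero] at hz
    exact hcr (hz ▸ hzU)
  have hrs : r ∉ Submodule.span ℝ ((s.erase r : Finset V) : Set V) := fun hm =>
    hz0 (hmin z hzU (hz ▸ Submodule.add_mem _ (Submodule.smul_mem _ _ hm) hy))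
  have hyz : y = z + (-c) • r := by rw [hz]; module
  have hyA : y ∈ A := by
    refine h.meet hzA hrA (Sp.span fun a ha => (hsA' ha).1) hy0 ?_ hy hrs
    rw [Submodule.mem_span_pair]
    exact ⟨1, -c, by rw [one_smul, hyz]⟩
  refine ⟨z, (-c) • r, hzA, hzU, hz0, h.sl _ _ hrA, ?_, hyz ▸ hyA⟩
  exact fun hm => hrU ((U.smul_mem_iff (neg_ne_zero.2 hc)).1 hm)

theorem exists_compl_sp {A : Set V} (hA : Submodule.span ℝ A = ⊤) (U : Submodule ℝ V) :
    ∃ W : Submodule ℝ V, Sp A W ∧ IsCompl U W := by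
  obtain ⟨W, ⟨hW, hd⟩, hmax⟩ := (wellFounded_gt (α := Submodule ℝ V)).has_min
    {W | Sp A W ∧ Disjoint U W} ⟨⊥, bot_le, disjoint_bot_right⟩
  refine ⟨W, hW, hd, codisjoint_iff.2 ?_⟩
  rw [eq_top_iff, ← hA, Submodule.span_le]
  intro a ha
  by_contra hn
  have hn' : a ∉ U ⊔ W := hn
  refine hmax (W ⊔ Submodule.span ℝ {a})
    ⟨hW.sup (Sp.span (Set.singleton_subset_iff.2 ha)), ?_⟩ ?_
  · rw [Submodule.disjoint_def]
    intro u hu hu'
    obtain ⟨w, hw, v, hv, e⟩ := Submodule.mem_sup.1 hu'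
    obtain ⟨c, rfl⟩ := Submodule.mem_span_singleton.1 hv
    by_cases hc : c = 0
    · rw [hc, zero_smul, add_zero] at e
      exact Submodule.disjoint_def.1 hd u hu (e ▸ hw)
    · exfalso
      refine hn' (((U ⊔ W).smul_mem_iff hc).1 ?_)
      rw [eq_sub_of_add_eq' e]
      exact Submodule.sub_mem _ (Submodule.mem_sup_left hu) (Submodule.mem_sup_right hw)
  · refine lt_of_le_of_ne le_sup_left fun e => hn' (Submodule.mem_sup_right ?_)
    rw [e]
    exact Submodule.mem_sup_right (Submodule.mem_span_singleton_self a)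

end Pool.Agent.P.MP_181257_gt
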