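import Pool.Agent.P.MP_181257_gt.PdE1b

set_option autoImplicit false
set_option linter.unusedSectionVars false
set_option linter.unusedVariables false

open MeasureTheory ProbabilityTheory Module Set Filter Topology Function
open scoped RealInnerProductSpace ENNReal Pointwise LinearAlgebra.Projectivization

noncomputable section

namespace Pool.Agent.P.MP_181257_gt

variable {V : Type} [NormedAddCommGroup V] [InnerProductSpace ℝ V] [FiniteDimensional ℝ V]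
  [MeasurableSpace V] [BorelSpace V] {ι : Type} [Fintype ι] [DecidableEq ι]

/-- the meeting lemma in coordinates -/
theorem meet_PdE2 {A A' : Set V} (h : Cl A A') {e₁ e₂ e₃ : V}
    (hI : ∀ a b c : ℝ, a • e₁ + b • e₂ + c • e₃ = 0 → a = 0 ∧ b = 0 ∧ c = 0)
    {x₁ x₂ x₃ y₁ y₂ y₃ u₁ u₂ u₃ w₁ w₂ w₃ z₁ z₂ z₃ : ℝ}
    (hx : x₁ • e₁ + x₂ • e₂ + x₃ • e₃ ∈ A) (hy : y₁ • e₁ + y₂ • e₂ + y₃ • e₃ ∈ A)
    (hu : u₁ • e₁ + u₂ • e₂ + u₃ • e₃ ∈ A) (hw : w₁ • e₁ + w₂ • e₂ + w₃ • e₃ ∈ A) (β γ δ : ℝ)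
    (h1 : z₁ = x₁ + β * y₁) (h2 : z₂ = x₂ + β * y₂) (h3 : z₃ = x₃ + β * y₃)
    (k1 : z₁ = γ * u₁ + δ * w₁) (k2 : z₂ = γ * u₂ + δ * w₂) (k3 : z₃ = γ * u₃ + δ * w₃)
    (hz : z₂ ≠ 0 ∨ z₃ ≠ 0)
    (hn : ∀ s t : ℝ, s * u₁ + t * w₁ = y₁ → s * u₂ + t * w₂ = y₂ → s * u₃ + t * w₃ = y₃ → False) :
    z₁ • e₁ + z₂ • e₂ + z₃ • e₃ ∈ A := by
  refine h.meet hx hy (U := Submodule.span ℝ
    {u₁ • e₁ + u₂ • e₂ + u₃ • e₃, w₁ • e₁ + w₂ • e₂ + w₃ • e₃}) (Sp.span ?_) ?_ ?_ ?_ ?_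
  · rintro v (rfl | rfl)
    exacts [hu, hw]
  · intro h0
    obtain ⟨-, a2, a3⟩ := hI _ _ _ h0
    exact hz.elim (fun a => a a2) fun a => a a3
  · exact Submodule.mem_span_pair.2 ⟨1, β, by rw [h1, h2, h3]; module⟩
  · exact Submodule.mem_span_pair.2 ⟨γ, δ, by rw [k1, k2, k3]; module⟩
  · intro h0
    obtain ⟨s, t, e⟩ := Submodule.mem_span_pair.1 h0
    obtain ⟨a1, a2, a3⟩ := hI (s * u₁ + t * w₁ - y₁) (s * u₂ + t * w₂ - y₂)
      (s * u₃ + t * w₃ - y₃) (by rw [← sub_eq_zero.2 e]; module)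
    exact hn s t (by linarith) (by linarith) (by linarith)

theorem frame_PdE2 {A A' : Set V} (h : Cl A A') {e₁ e₂ e₃ : V}
    (hI : ∀ a b c : ℝ, a • e₁ + b • e₂ + c • e₃ = 0 → a = 0 ∧ b = 0 ∧ c = 0)
    (h1 : e₁ ∈ A) (h2 : e₂ ∈ A) (h3 : e₃ ∈ A) (h12 : e₁ + e₂ ∈ A) (h123 : e₁ + e₂ + e₃ ∈ A) :
    LinearIndependent ℝ ![e₁, e₂, e₃] ∧ e₁ ∈ A ∧ e₂ ∈ A ∧ e₃ ∈ A ∧
      e₂ + e₃ ∈ A ∧ e₁ + e₃ ∈ A ∧ e₃ - e₁ ∈ A := by
  have a1 : (1 : ℝ) • e₁ + (0 : ℝ) • e₂ + (0 : ℝ) • e₃ ∈ A := by simpa using h1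
  have a2 : (0 : ℝ) • e₁ + (1 : ℝ) • e₂ + (0 : ℝ) • e₃ ∈ A := by simpa using h2
  have a3 : (0 : ℝ) • e₁ + (0 : ℝ) • e₂ + (1 : ℝ) • e₃ ∈ A := by simpa using h3
  have a12 : (1 : ℝ) • e₁ + (1 : ℝ) • e₂ + (0 : ℝ) • e₃ ∈ A := by simpa using h12
  have a123 : (1 : ℝ) • e₁ + (1 : ℝ) • e₂ + (1 : ℝ) • e₃ ∈ A := by simpa using h123
  have a23 : (0 : ℝ) • e₁ + (1 : ℝ) • e₂ + (1 : ℝ) • e₃ ∈ A :=
    meet_PdE2 h hI a123 a1 a2 a3 (-1) 1 1 (by ring) (by ring) (by ring) (by ring) (by ring)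
      (by ring) (Or.inl one_ne_zero) fun s t _ _ _ => by linarith
  have a13 : (1 : ℝ) • e₁ + (0 : ℝ) • e₂ + (1 : ℝ) • e₃ ∈ A :=
    meet_PdE2 h hI a123 a2 a1 a3 (-1) 1 1 (by ring) (by ring) (by ring) (by ring) (by ring)
      (by ring) (Or.inr one_ne_zero) fun s t _ _ _ => by linarith
  have a31 : (-1 : ℝ) • e₁ + (0 : ℝ) • e₂ + (1 : ℝ) • e₃ ∈ A :=
    meet_PdE2 h hI a23 a12 a1 a3 (-1) (-1) 1 (by ring) (by ring) (by ring) (by ring) (by ring)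
      (by ring) (Or.inr one_ne_zero) fun s t _ _ _ => by linarith
  refine ⟨?_, h1, h2, h3, by simpa using a23, by simpa using a13, ?_⟩
  · rw [Fintype.linearIndependent_iff]
    intro g hg
    rw [Fin.sum_univ_three] at hg
    obtain ⟨b1, b2, b3⟩ := hI _ _ _ hg
    intro i
    fin_cases i
    exacts [b1, b2, b3]
  · have e : e₃ - e₁ = (-1 : ℝ) • e₁ + (0 : ℝ) • e₂ + (1 : ℝ) • e₃ := by module
    rw [e]
    exact a31

theorem ne_top_PdE2 (hn : 3 ≤ finrank ℝ V) (x y : V) : Submodule.span ℝ {x, y} ≠ (⊤ : Submodule ℝ V) := by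
  classical
  intro h
  have h1 := finrank_span_finset_le_card (R := ℝ) ({x, y} : Finset V)
  have h2 : ({x, y} : Finset V).card ≤ 2 := Finset.card_le_two
  rw [Set.finrank, Finset.coe_pair, h, finrank_top] at h1
  omega

theorem Cl.frame {A A' : Set V} (h : Cl A A') (hs : ¬ SplitsS A) (hn : 3 ≤ finrank ℝ V) :
    ∃ e₁ e₂ e₃ : V, LinearIndependent ℝ ![e₁, e₂, e₃] ∧ e₁ ∈ A ∧ e₂ ∈ A ∧ e₃ ∈ A ∧
      e₂ + e₃ ∈ A ∧ e₁ + e₃ ∈ A ∧ e₃ - e₁ ∈ A := by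
  obtain ⟨p, hp, hp0⟩ : ∃ p ∈ A, p ≠ 0 := by
    by_contra hc
    push Not at hc
    have h0 : Submodule.span ℝ A = ⊥ := Submodule.span_eq_bot.2 hc
    refine ne_top_PdE2 hn (0 : V) 0 (top_le_iff.1 ?_)
    rw [← h.tl, h0]
    exact bot_le
  have hb : ∀ {x y : V}, x ≠ 0 → Submodule.span ℝ {x, y} ≠ (⊥ : Submodule ℝ V) := fun hx h0 =>
    hx (Submodule.span_eq_bot.1 h0 _ (Or.inl rfl))
  obtain ⟨z, r, hz, hzU, hz0, hr, hrU, hzr⟩ := h.third hs (U := Submodule.span ℝ {p, p})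
    (Sp.span (by rintro v (rfl | rfl) <;> exact hp)) (hb hp0) (ne_top_PdE2 hn p p)
  obtain ⟨z', r', hz', hzU', hz0', hr', hrU', hzr'⟩ := h.third hs (U := Submodule.span ℝ {z, r})
    (Sp.span (by rintro v (rfl | rfl); exacts [hz, hr])) (hb hz0) (ne_top_PdE2 hn z r)
  have hI : ∀ a b c : ℝ, a • z + b • r + c • r' = 0 → a = 0 ∧ b = 0 ∧ c = 0 := by
    intro a b c e
    have hc : c = 0 := by
      by_contra hc
      refine hrU' (Submodule.mem_span_pair.2 ⟨-(c⁻¹ * a), -(c⁻¹ * b), ?_⟩)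
      have e2 : r' = c⁻¹ • (c • r') := by rw [smul_smul, inv_mul_cancel₀ hc, one_smul]
      rw [e2, eq_neg_of_add_eq_zero_right e]
      module
    rw [hc, zero_smul, add_zero] at e
    have hb : b = 0 := by
      by_contra hb
      apply hrU
      have e2 : r = b⁻¹ • (b • r) := by rw [smul_smul, inv_mul_cancel₀ hb, one_smul]
      rw [e2, eq_neg_of_add_eq_zero_right e]
      exact Submodule.smul_mem _ _ (Submodule.neg_mem _ (Submodule.smul_mem _ _ hzU))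
    rw [hb, zero_smul, add_zero] at e
    exact ⟨(smul_eq_zero.1 e).resolve_right hz0, hb, hc⟩
  obtain ⟨a, c, rfl⟩ := Submodule.mem_span_pair.1 hzU'
  by_cases ha : a = 0
  · have hc : c ≠ 0 := fun hc => hz0' (by simp [ha, hc])
    have e : a • z + c • r = c • (z + r) + (-c) • z := by rw [ha]; module
    rw [e] at hz' hzr'
    refine ⟨_, _, _, frame_PdE2 h (fun s t u e => ?_) (h.sl c _ hzr) (h.sl (-c) _ hz) hr' hz' hzr'⟩
    obtain ⟨b1, b2, b3⟩ := hI ((s - t) * c) (s * c) u (by rw [← e]; module)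
    have b4 := (mul_eq_zero.1 b1).resolve_right hc
    have b5 := (mul_eq_zero.1 b2).resolve_right hc
    exact ⟨b5, by linarith, b3⟩
  by_cases hc : c = 0
  · have e : a • z + c • r = a • (z + r) + (-a) • r := by rw [hc]; module
    rw [e] at hz' hzr'
    refine ⟨_, _, _, frame_PdE2 h (fun s t u e => ?_) (h.sl a _ hzr) (h.sl (-a) _ hr) hr' hz' hzr'⟩
    obtain ⟨b1, b2, b3⟩ := hI (s * a) ((s - t) * a) u (by rw [← e]; module)
    have b4 := (mul_eq_zero.1 b1).resolve_right ha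
    have b5 := (mul_eq_zero.1 b2).resolve_right ha
    exact ⟨b4, by linarith, b3⟩
  · refine ⟨_, _, _, frame_PdE2 h (fun s t u e => ?_) (h.sl a _ hz) (h.sl c _ hr) hr' hz' hzr'⟩
    obtain ⟨b1, b2, b3⟩ := hI (s * a) (t * c) u (by rw [← e]; module)
    exact ⟨(mul_eq_zero.1 b1).resolve_right ha, (mul_eq_zero.1 b2).resolve_right hc, b3⟩

theorem Cl.plane {A A' : Set V} (h : Cl A A') (hcl : IsClosed A) {e₁ e₂ e₃ : V}
    (hi : LinearIndependent ℝ ![e₁, e₂, e₃]) (h1 : e₁ ∈ A) (h2 : e₂ ∈ A) (h3 : e₃ ∈ A)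
    (h23 : e₂ + e₃ ∈ A) (h13 : e₁ + e₃ ∈ A) (h31 : e₃ - e₁ ∈ A) :
    ((Submodule.span ℝ {e₁, e₂} : Submodule ℝ V) : Set V) ⊆ A := by
  have hI : ∀ a b c : ℝ, a • e₁ + b • e₂ + c • e₃ = 0 → a = 0 ∧ b = 0 ∧ c = 0 := by
    intro a b c e
    have := Fintype.linearIndependent_iff.1 hi ![a, b, c] (by rw [Fin.sum_univ_three]; exact e)
    exact ⟨this 0, this 1, this 2⟩
  have a1 : (1 : ℝ) • e₁ + (0 : ℝ) • e₂ + (0 : ℝ) • e₃ ∈ A := by simpa using h1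
  have a2 : (0 : ℝ) • e₁ + (1 : ℝ) • e₂ + (0 : ℝ) • e₃ ∈ A := by simpa using h2
  have a3 : (0 : ℝ) • e₁ + (0 : ℝ) • e₂ + (1 : ℝ) • e₃ ∈ A := by simpa using h3
  have a23 : (0 : ℝ) • e₁ + (1 : ℝ) • e₂ + (1 : ℝ) • e₃ ∈ A := by simpa using h23
  have a13 : (1 : ℝ) • e₁ + (0 : ℝ) • e₂ + (1 : ℝ) • e₃ ∈ A := by simpa using h13
  have a31 : (-1 : ℝ) • e₁ + (0 : ℝ) • e₂ + (1 : ℝ) • e₃ ∈ A := by
    have e : e₃ - e₁ = (-1 : ℝ) • e₁ + (0 : ℝ) • e₂ + (1 : ℝ) • e₃ := by module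
    rw [← e]
    exact h31
  set S : Set ℝ := {t | t • e₁ + (1 : ℝ) • e₂ + (0 : ℝ) • e₃ ∈ A} with hS
  have up : ∀ t, t ∈ S → t + 1 ∈ S := fun t ht => by
    have b : t • e₁ + (1 : ℝ) • e₂ + (1 : ℝ) • e₃ ∈ A :=
      meet_PdE2 h hI ht a3 a1 a23 1 t 1 (by ring) (by ring) (by ring) (by ring) (by ring)
        (by ring) (Or.inl one_ne_zero) fun s t _ _ _ => by linarith
    exact meet_PdE2 h hI b a31 a1 a2 (-1) (t + 1) 1 (by ring) (by ring) (by ring) (by ring)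
      (by ring) (by ring) (Or.inl one_ne_zero) fun s t _ _ _ => by linarith
  have down : ∀ t, t ∈ S → t - 1 ∈ S := fun t ht => by
    have b : (t - 1) • e₁ + (1 : ℝ) • e₂ + (1 : ℝ) • e₃ ∈ A :=
      meet_PdE2 h hI ht a31 a1 a23 1 (t - 1) 1 (by ring) (by ring) (by ring) (by ring) (by ring)
        (by ring) (Or.inl one_ne_zero) fun s t _ _ _ => by linarith
    exact meet_PdE2 h hI b a3 a1 a2 (-1) (t - 1) 1 (by ring) (by ring) (by ring) (by ring)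
      (by ring) (by ring) (Or.inl one_ne_zero) fun s t _ _ _ => by linarith
  have half : ∀ t, t ∈ S → t / 2 ∈ S := fun t ht => by
    have b : (t / 2) • e₁ + (1 : ℝ) • e₂ + (t / 2) • e₃ ∈ A :=
      meet_PdE2 h hI ht a31 a2 a13 (t / 2) 1 (t / 2) (by ring) (by ring) (by ring) (by ring)
        (by ring) (by ring) (Or.inl one_ne_zero) fun s t _ _ _ => by linarith
    exact meet_PdE2 h hI b a3 a1 a2 (-(t / 2)) (t / 2) 1 (by ring) (by ring) (by ring) (by ring)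
      (by ring) (by ring) (Or.inl one_ne_zero) fun s t _ _ _ => by linarith
  have dy : ∀ (r : ℕ) (m : ℤ), (m : ℝ) / 2 ^ r ∈ S := by
    intro r
    induction r with
    | zero =>
      intro m
      rw [pow_zero, div_one]
      induction m using Int.induction_on with
      | zero => rw [Int.cast_zero]; exact a2
      | succ k ih => rw [Int.cast_add, Int.cast_one]; exact up _ ih
      | pred k ih => rw [Int.cast_sub, Int.cast_one]; exact down _ ih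
    | succ r ih =>
      intro m
      rw [pow_succ, ← div_div]
      exact half _ (ih m)
  have hSc : IsClosed S := hcl.preimage (f := fun t : ℝ => t • e₁ + (1 : ℝ) • e₂ + (0 : ℝ) • e₃)
    (by fun_prop)
  have all : ∀ t, t ∈ S := fun t => by
    rw [← hSc.closure_eq, Metric.mem_closure_iff]
    intro ε hε
    obtain ⟨r, hr⟩ := exists_pow_lt_of_lt_one hε (by norm_num : (1 / 2 : ℝ) < 1)
    refine ⟨_, dy r ⌊t * 2 ^ r⌋, lt_of_le_of_lt ?_ hr⟩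
    have hp : (0 : ℝ) < 2 ^ r := by positivity
    have b1 := Int.floor_le (t * 2 ^ r)
    have b2 := Int.lt_floor_add_one (t * 2 ^ r)
    have e : t - (⌊t * 2 ^ r⌋ : ℝ) / 2 ^ r = (t * 2 ^ r - ⌊t * 2 ^ r⌋) / 2 ^ r := by
      field_simp
    rw [Real.dist_eq, e, abs_of_nonneg (div_nonneg (by linarith) hp.le), one_div, inv_pow,
      ← one_div]
    exact div_le_div_of_nonneg_right (by linarith) hp.le
  intro v hv
  obtain ⟨a, b, rfl⟩ := Submodule.mem_span_pair.1 hv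
  by_cases hb : b = 0
  · rw [hb, zero_smul, add_zero]
    exact h.sl a _ h1
  · have e : a • e₁ + b • e₂ = b • ((a / b) • e₁ + (1 : ℝ) • e₂ + (0 : ℝ) • e₃) := by
      rw [smul_add, smul_add, smul_smul, mul_div_cancel₀ a hb]
      module
    rw [e]
    exact h.sl b _ (all _)

end Pool.Agent.P.MP_181257_gt
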