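import Pool.Agent.P.MP_181257_gt.PdE2

set_option autoImplicit false
set_option linter.unusedSectionVars false
set_option linter.unusedVariables false

open MeasureTheory ProbabilityTheory Module Set Filter Topology Function
open scoped RealInnerProductSpace ENNReal Pointwise LinearAlgebra.Projectivization

noncomputable section

namespace Pool.Agent.P.MP_181257_gt

variable {V : Type} [NormedAddCommGroup V] [InnerProductSpace ℝ V] [FiniteDimensional ℝ V]
  [MeasurableSpace V] [BorelSpace V] {ι : Type} [Fintype ι] [DecidableEq ι]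

theorem step_PdE2b {A A' : Set V} (h : Cl A A') (hcl : IsClosed A) (hs : ¬ SplitsS A)
    {U : Submodule ℝ V} (hU : (U : Set V) ⊆ A) (h2 : 2 ≤ finrank ℝ U) (ht : U ≠ ⊤) :
    ∃ W : Submodule ℝ V, U < W ∧ (W : Set V) ⊆ A := by
  have hsp : Sp A U := fun u hu => Submodule.subset_span ⟨hU hu, hu⟩
  have hb : U ≠ ⊥ := fun e => by
    rw [e, finrank_bot] at h2
    omega
  obtain ⟨z, r, hz, hzU, hz0, hr, hrU, hzr⟩ := h.third hs hsp hb ht
  have k1 : ∀ u ∈ U, u ∉ (ℝ ∙ z) → u + r ∈ A := by
    intro u hu hn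
    refine h.meet (x := u - z) (y := z + r) (U := Submodule.span ℝ {u, r})
      (hU (U.sub_mem hu hzU)) hzr (Sp.span ?_) (fun e => hrU ?_)
      (Submodule.mem_span_pair.2 ⟨1, 1, by module⟩)
      (Submodule.mem_span_pair.2 ⟨1, 1, by module⟩) fun hm => ?_
    · exact insert_subset (hU hu) (singleton_subset_iff.2 hr)
    · rw [eq_neg_of_add_eq_zero_right e]
      exact U.neg_mem hu
    · obtain ⟨a, c, e⟩ := Submodule.mem_span_pair.1 hm
      have e1 : (c - 1) • r = z - a • u := by linear_combination (norm := module) e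
      have hc : c - 1 = 0 := by
        by_contra hc
        exact hrU ((U.smul_mem_iff hc).1 (e1 ▸ U.sub_mem hzU (U.smul_mem a hu)))
      rw [hc, zero_smul, eq_comm, sub_eq_zero] at e1
      have ha : a ≠ 0 := fun e2 => hz0 (by rw [e1, e2, zero_smul])
      exact hn (((ℝ ∙ z).smul_mem_iff ha).1 (e1 ▸ Submodule.mem_span_singleton_self z))
  obtain ⟨u', hu', hn'⟩ : ∃ u' ∈ U, u' ∉ (ℝ ∙ z) := by
    by_contra hc
    push Not at hc
    have h3 := Submodule.finrank_mono (show U ≤ ℝ ∙ z from hc)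
    rw [finrank_span_singleton hz0] at h3
    omega
  have k2 : ∀ u ∈ U, u + r ∈ A := by
    intro u hu
    by_cases hn : u ∈ (ℝ ∙ z)
    · have h3 : Tendsto (fun t : ℝ => u + t • u' + r) (𝓝[≠] 0) (𝓝 (u + (0 : ℝ) • u' + r)) :=
        (Continuous.tendsto (by fun_prop) _).mono_left nhdsWithin_le_nhds
      rw [zero_smul, add_zero] at h3
      refine hcl.mem_of_tendsto h3 (eventually_nhdsWithin_of_forall fun t ht0 => ?_)
      refine k1 _ (U.add_mem hu (U.smul_mem t hu')) fun hm => hn' ?_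
      exact ((ℝ ∙ z).smul_mem_iff ht0).1 (((ℝ ∙ z).add_mem_iff_right hn).1 hm)
    · exact k1 u hu hn
  refine ⟨U ⊔ ℝ ∙ r, lt_of_le_of_ne le_sup_left fun e => hrU ?_, fun w hw => ?_⟩
  · rw [e]
    exact Submodule.mem_sup_right (Submodule.mem_span_singleton_self r)
  · obtain ⟨u, hu, v, hv, rfl⟩ := Submodule.mem_sup.1 hw
    obtain ⟨c, rfl⟩ := Submodule.mem_span_singleton.1 hv
    by_cases hc : c = 0
    · rw [hc, zero_smul, add_zero]
      exact hU hu
    · have h3 := h.sl c _ (k2 _ (U.smul_mem c⁻¹ hu))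
      rwa [smul_add, smul_inv_smul₀ hc] at h3

theorem Cl.full {A A' : Set V} (h : Cl A A') (hcl : IsClosed A) (hs : ¬ SplitsS A)
    (hn : 3 ≤ finrank ℝ V) : A = univ := by
  have key : ∀ (n : ℕ) (U : Submodule ℝ V), (U : Set V) ⊆ A → 2 ≤ finrank ℝ U →
      finrank ℝ V ≤ finrank ℝ U + n → A = univ := by
    intro n
    induction n with
    | zero =>
      intro U hU _ h3
      rw [Submodule.eq_top_of_finrank_eq (le_antisymm U.finrank_le h3)] at hU
      exact univ_subset_iff.1 hU
    | succ n ih =>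
      intro U hU h2 h3
      by_cases ht : U = ⊤
      · rw [ht] at hU
        exact univ_subset_iff.1 hU
      · obtain ⟨W, h4, h5⟩ := step_PdE2b h hcl hs hU h2 ht
        have h6 := Submodule.finrank_lt_finrank_of_lt h4
        exact ih W h5 (by omega) (by omega)
  obtain ⟨e₁, e₂, e₃, hi, h1, h2, h3, h23, h13, h31⟩ := h.frame hs hn
  refine key (finrank ℝ V) _ (h.plane hcl hi h1 h2 h3 h23 h13 h31) ?_ (Nat.le_add_left _ _)
  have h4 : LinearIndependent ℝ ![e₁, e₂] := by
    refine LinearIndependent.pair_iff.2 fun a c e => ?_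
    have h5 := Fintype.linearIndependent_iff.1 hi ![a, c, 0] (by simpa [Fin.sum_univ_three] using e)
    exact ⟨h5 0, h5 1⟩
  have h5 := finrank_span_eq_card h4
  rw [Matrix.range_cons_cons_empty] at h5
  rw [h5]
  simp

end Pool.Agent.P.MP_181257_gt
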