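import Pool.Agent.P.MP_181257_gt.PdE2b
import Pool.Agent.P.MP_181257_gt.PdB4

set_option autoImplicit false
set_option linter.unusedSectionVars false
set_option linter.unusedVariables false

open MeasureTheory ProbabilityTheory Module Set Filter Topology Function
open scoped RealInnerProductSpace ENNReal Pointwise LinearAlgebra.Projectivization

noncomputable section

namespace Pool.Agent.P.MP_181257_gt

variable {V : Type} [NormedAddCommGroup V] [InnerProductSpace ℝ V] [FiniteDimensional ℝ V]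
  [MeasurableSpace V] [BorelSpace V] {ι : Type} [Fintype ι] [DecidableEq ι]

theorem not_splitsS {μ : Measure V} (hs : ¬ Splits μ) {A : Set V} (hA : μ Aᶜ = 0) :
    ¬ SplitsS A := by
  rintro ⟨E, F, h1, h2, h3, h4⟩
  exact hs ⟨E, F, h1, h2, h3, measure_mono_null (compl_subset_compl.2 h4) hA⟩

/-- a vector orthogonal to a hyperplane spanned by points of `A` is a generalised cross product -/
theorem exists_Nv (b : Basis ι ℝ V) (j : ι) {A : Set V} {w : V} (hw : w ≠ 0)
    (h : Sp A (ℝ ∙ w)ᗮ) :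
    ∃ (x : ι → V) (t : ℝ), (∀ i, i ≠ j → x i ∈ A ∧ x i ≠ 0) ∧ t ≠ 0 ∧ Nv b j x = t • w := by
  have hcard : (Finset.univ.erase j).card ≤ finrank ℝ (ℝ ∙ w)ᗮ := by
    have h1 := Submodule.finrank_add_finrank_orthogonal (ℝ ∙ w)
    rw [finrank_span_singleton hw, Module.finrank_eq_card_basis b] at h1
    rw [Finset.card_erase_of_mem (Finset.mem_univ j), Finset.card_univ]
    omega
  obtain ⟨y, -, hy, hind⟩ := ext_indep h (J₀ := ∅) (J := Finset.univ.erase j)
    (Finset.empty_subset _) hcard (x := fun _ => 0) (by simp) (by simp)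
  have hmem : ∀ i, i ≠ j → i ∈ Finset.univ.erase j := fun i hi => by simp [hi]
  have horth : ∀ i, i ≠ j → ⟪y i, w⟫ = 0 := fun i hi =>
    (Submodule.mem_orthogonal_singleton_iff_inner_left).1 (hy i (hmem i hi) (by simp)).2
  have hww : ⟪w, w⟫ ≠ 0 := fun h0 => hw (inner_self_eq_zero.1 h0)
  have hsum : ∀ g : ι → ℝ, ∑ i, g i * ⟪update y j w i, w⟫ = g j * ⟪w, w⟫ := by
    intro g
    rw [Finset.sum_eq_single j]
    · simp
    · intro i _ hi
      rw [update_of_ne hi, horth i hi, mul_zero]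
    · simp
  have hdet : b.det (update y j w) ≠ 0 := by
    rw [bdet_ne_zero_iff, Fintype.linearIndependent_iff]
    intro g hg
    have hj : g j = 0 := by
      have h1 : ⟪∑ i, g i • update y j w i, w⟫ = 0 := by rw [hg, inner_zero_left]
      simp_rw [sum_inner, real_inner_smul_left] at h1
      rw [hsum] at h1
      exact (mul_eq_zero.1 h1).resolve_right hww
    have h2 : ∑ i ∈ Finset.univ.erase j, g i • y i = 0 := by
      rw [← Finset.add_sum_erase _ _ (Finset.mem_univ j), hj, zero_smul, zero_add] at hg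
      rw [← hg]
      exact Finset.sum_congr rfl fun i hi => by rw [update_of_ne (Finset.ne_of_mem_erase hi)]
    intro i
    by_cases hi : i = j
    · rw [hi, hj]
    · exact linearIndepOn_finset_iff.1 hind g h2 i (hmem i hi)
  have hcr := cramer_dual b (update y j w) w
  rw [Finset.sum_eq_single j, update_self, Nv_update] at hcr
  · refine ⟨y, b.det (update y j w) / ⟪w, w⟫, fun i hi => ⟨(hy i (hmem i hi) (by simp)).1,
      hind.ne_zero (by simpa using hi)⟩, div_ne_zero hdet hww, ?_⟩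
    rw [div_eq_inv_mul, mul_smul, hcr, smul_smul, inv_mul_cancel₀ hww, one_smul]
  · intro i _ hi
    rw [update_of_ne hi, horth i hi, zero_smul]
  · simp

theorem cone_smul_PdE3 (O : Set V) (t : ℝ) (x : V) (ht : t ≠ 0) :
    t • x ∈ cone O ↔ x ∈ cone O := by
  constructor
  · rintro ⟨s, hs, h⟩
    exact ⟨s * t, mul_ne_zero hs ht, by rwa [mul_smul]⟩
  · rintro ⟨s, hs, h⟩
    refine ⟨s * t⁻¹, mul_ne_zero hs (inv_ne_zero ht), ?_⟩
    rwa [smul_smul, mul_assoc, inv_mul_cancel₀ ht, mul_one]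

theorem isOpen_cone_PdE3 {O : Set V} (hO : IsOpen O) : IsOpen (cone O) := by
  have : cone O = ⋃ t : ℝ, ⋃ _ : t ≠ 0, (fun x : V => t • x) ⁻¹' O := by
    ext x
    simp [cone]
  rw [this]
  exact isOpen_iUnion fun t => isOpen_iUnion fun _ => hO.preimage (continuous_const_smul t)

theorem dual_PdE3 {μ ν : Measure V} (hμ : Good μ) (hν : Good ν) (h : Half μ ν) (w : V)
    (hw : w ≠ 0) (hsp : Sp (csupp μ) (ℝ ∙ w)ᗮ) : w ∈ csupp ν := by
  intro O hO hwO
  haveI := hμ.mom.prob
  haveI : Nontrivial V := ⟨⟨w, 0, hw⟩⟩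
  let b := Module.finBasis ℝ V
  let j : Fin (finrank ℝ V) := ⟨0, Module.finrank_pos⟩
  obtain ⟨x, t, hx, ht, hxt⟩ := exists_Nv b j hw hsp
  obtain ⟨z, hz⟩ : (csupp μ).Nonempty := by
    by_contra hne
    have h0 := null_compl_csupp μ
    rw [not_nonempty_iff_eq_empty.1 hne, compl_empty, measure_univ] at h0
    exact one_ne_zero h0
  rw [Ne, h.null_iff b j hμ.mom hν (isOpen_cone_PdE3 hO).measurableSet (cone_smul_PdE3 O)]
  have key := pos_of_csupp (μ := μ) (S := fun _ : Fin (finrank ℝ V) => univ)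
    (fun _ => MeasurableSet.univ) (z := update x j z)
    (U := {x | Nv b j x ∈ cone O ∧ Nv b j x ≠ 0}) ?_ ?_ ?_ ?_
  · simpa using key
  · intro i
    rw [Measure.restrict_univ]
    by_cases hi : i = j
    · rw [hi, update_self]
      exact hz
    · rw [update_of_ne hi]
      exact (hx i hi).1
  · exact ((isOpen_cone_PdE3 hO).preimage (continuous_Nv b j)).inter
      (isOpen_compl_singleton.preimage (continuous_Nv b j))
  · simp only [mem_setOf_eq, Nv_update, hxt]
    exact ⟨(cone_smul_PdE3 O t w ht).2 ⟨1, one_ne_zero, by simpa using hwO⟩, smul_ne_zero ht hw⟩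
  · intro s y hs hy
    simp only [mem_setOf_eq, Nv_smul] at hy ⊢
    exact ⟨(cone_smul_PdE3 O _ _ (Finset.prod_ne_zero_iff.2 fun i _ => hs i)).1 hy.1,
      fun h0 => hy.2 (by rw [h0, smul_zero])⟩

theorem Pair.cl_csupp {μ ν : Measure V} (h : Pair μ ν) : Cl (csupp μ) (csupp ν) := by
  haveI := h.gl.mom.prob
  haveI := h.gr.mom.prob
  exact ⟨fun t z hz => csupp_smul (IsProbabilityMeasure.ne_zero μ) t hz,
    fun t z hz => csupp_smul (IsProbabilityMeasure.ne_zero ν) t hz,
    span_of_null h.gl (null_compl_csupp μ), span_of_null h.gr (null_compl_csupp ν),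
    dual_PdE3 h.gl h.gr h.hl, dual_PdE3 h.gr h.gl h.hr⟩

theorem Pair.csupp_eq {μ ν : Measure V} (h : Pair μ ν) (hs : ¬ Splits μ)
    (hn : 3 ≤ finrank ℝ V) : csupp μ = univ := by
  exact h.cl_csupp.full (isClosed_csupp μ) (not_splitsS hs (null_compl_csupp μ)) hn

end Pool.Agent.P.MP_181257_gt
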