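import Pool.Agent.P.MP_181257_gt.PdE3

set_option autoImplicit false
set_option linter.unusedSectionVars false
set_option linter.unusedVariables false

open MeasureTheory ProbabilityTheory Module Set Filter Topology Function
open scoped RealInnerProductSpace ENNReal Pointwise LinearAlgebra.Projectivization

noncomputable section

namespace Pool.Agent.P.MP_181257_gt

variable {V : Type} [NormedAddCommGroup V] [InnerProductSpace ℝ V] [FiniteDimensional ℝ V]
  [MeasurableSpace V] [BorelSpace V] {ι : Type} [Fintype ι] [DecidableEq ι]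

theorem Atomic.null {μ : Measure V} (h : Atomic μ) : μ (atoms μ)ᶜ = 0 := by
  obtain ⟨S, hS, h0⟩ := h
  have h1 : μ (⋃ z ∈ {z ∈ S | μ ((ℝ ∙ z : Submodule ℝ V) : Set V) = 0},
      ((ℝ ∙ z : Submodule ℝ V) : Set V)) = 0 :=
    (measure_biUnion_null_iff (hS.mono fun z hz => hz.1)).2 fun z hz => hz.2
  refine measure_mono_null (fun x hx => ?_) (measure_union_null h0 h1)
  simp only [atoms, mem_compl_iff, mem_ofPred_eq, not_or, not_not] at hx
  by_cases h2 : x ∈ ⋃ z ∈ S, ((ℝ ∙ z : Submodule ℝ V) : Set V)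
  · obtain ⟨z, hz, hxz⟩ := mem_iUnion₂.1 h2
    refine Or.inr (mem_iUnion₂.2 ⟨z, ⟨hz, ?_⟩, hxz⟩)
    obtain ⟨t, rfl⟩ := Submodule.mem_span_singleton.1 hxz
    have ht : t ≠ 0 := fun ht => hx.1 (by rw [ht, zero_smul])
    rw [← Submodule.span_singleton_smul_eq (IsUnit.mk0 t ht) z]
    exact hx.2
  · exact Or.inl h2

theorem Pair.atomic (hn : 1 ≤ finrank ℝ V) {μ ν : Measure V} (h : Pair μ ν) (ha : Atomic μ) :
    Atomic ν := by
  obtain ⟨S, hS, h0⟩ := ha
  have := h.gl.mom.prob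
  let b := Module.finBasis ℝ V
  let j : Fin (finrank ℝ V) := ⟨0, hn⟩
  have hS' : (Nv b j '' {x | ∀ i, x i ∈ S}).Countable := (countable_pi fun _ => hS).image _
  refine ⟨_, hS', (h.hl.null_iff b j h.gl.mom h.gr ?_ fun t x ht => ?_).2 ?_⟩
  · exact (MeasurableSet.biUnion hS' fun z _ =>
      (Submodule.closed_of_finiteDimensional _).measurableSet).compl
  · simp only [mem_compl_iff, mem_iUnion, SetLike.mem_coe, Submodule.smul_mem_iff _ ht]
  · have h1 : ∀ᵐ y ∂μ, y ∈ ⋃ z ∈ S, ((ℝ ∙ z : Submodule ℝ V) : Set V) := h0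
    have h3 := ae_pw (ι := Fin (finrank ℝ V)) h1
    rw [ae_iff] at h3
    refine measure_mono_null ?_ h3
    intro x hx hall
    refine hx.1 ?_
    have h2 : ∀ i, ∃ z ∈ S, ∃ t : ℝ, t • z = x i := by
      intro i
      obtain ⟨z, hz, hxz⟩ := mem_iUnion₂.1 (hall i)
      exact ⟨z, hz, Submodule.mem_span_singleton.1 hxz⟩
    choose z hz t ht using h2
    obtain rfl : x = fun i => t i • z i := funext fun i => (ht i).symm
    refine mem_iUnion₂.2 ⟨Nv b j z, ⟨z, hz, rfl⟩, ?_⟩
    rw [Nv_smul]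
    exact Submodule.smul_mem _ _ (Submodule.mem_span_singleton_self _)

theorem smul_PdE4 (μ : Measure V) (t : ℝ) (z : V) (hz : z ∈ atoms μ) : t • z ∈ atoms μ := by
  by_cases ht : t = 0
  · exact Or.inl (by rw [ht, zero_smul])
  rcases hz with hz | hz
  · exact Or.inl (by rw [hz, smul_zero])
  · refine Or.inr ?_
    rwa [Submodule.span_singleton_smul_eq (IsUnit.mk0 t ht) z]

theorem dual_PdE4 {μ ν : Measure V} (h : Pair μ ν) (w : V) (hw : w ≠ 0)
    (hs : Sp (atoms μ) (ℝ ∙ w)ᗮ) : w ∈ atoms ν := by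
  have := h.gl.mom.prob
  have : Nontrivial V := ⟨w, 0, hw⟩
  let b := Module.finBasis ℝ V
  let j : Fin (finrank ℝ V) := ⟨0, Module.finrank_pos⟩
  obtain ⟨x, t, hx, ht, hN⟩ := exists_Nv b j hw hs
  refine Or.inr fun h0 => ?_
  have h1 := (h.hl.null_iff b j h.gl.mom h.gr
    (Submodule.closed_of_finiteDimensional (ℝ ∙ w)).measurableSet
    (fun t x ht => Submodule.smul_mem_iff _ ht)).1 h0
  let B : Fin (finrank ℝ V) → Set V := fun i =>
    if i = j then univ else ((ℝ ∙ x i : Submodule ℝ V) : Set V) \ {0}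
  have h2 : pw μ _ (univ.pi B) = 0 := by
    refine measure_mono_null (fun y hy => ?_) h1
    have h3 : ∀ i, ∃ s : ℝ, s ≠ 0 ∧ s • update x j (y j) i = y i := by
      intro i
      by_cases hi : i = j
      · exact ⟨1, one_ne_zero, by rw [hi, update_self, one_smul]⟩
      · have h4 := hy i (mem_univ i)
        simp only [B, if_neg hi] at h4
        obtain ⟨s, hs⟩ := Submodule.mem_span_singleton.1 h4.1
        refine ⟨s, fun h5 => h4.2 ?_, by rwa [update_of_ne hi]⟩
        rw [← hs, h5, zero_smul]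
        rfl
    choose s hs0 hs using h3
    have h4 : Nv b j y = ((∏ i ∈ Finset.univ.erase j, s i) * t) • w := by
      rw [mul_smul, ← hN, ← Nv_update b j x (y j), ← Nv_smul]
      exact congrArg _ (funext fun i => (hs i).symm)
    refine ⟨?_, ?_⟩
    · rw [h4]
      exact Submodule.smul_mem _ _ (Submodule.mem_span_singleton_self _)
    · rw [h4]
      exact smul_ne_zero (mul_ne_zero (Finset.prod_ne_zero_iff.2 fun i _ => hs0 i) ht) hw
  rw [Measure.pi_pi, Finset.prod_eq_zero_iff] at h2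
  obtain ⟨i, -, h3⟩ := h2
  by_cases hi : i = j
  · simp only [B, if_pos hi, measure_univ] at h3
    exact one_ne_zero h3
  · simp only [B, if_neg hi] at h3
    rw [measure_sdiff_null h.gl.zero] at h3
    exact ((hx i hi).1.resolve_left (hx i hi).2) h3

theorem Pair.cl_atoms {μ ν : Measure V} (h : Pair μ ν) (ha : Atomic μ) (ha' : Atomic ν) :
    Cl (atoms μ) (atoms ν) := by
  exact ⟨smul_PdE4 μ, smul_PdE4 ν, span_of_null h.gl ha.null, span_of_null h.gr ha'.null,
    dual_PdE4 h, dual_PdE4 h.symm⟩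

theorem exists_atom {μ : Measure V} (ha : Atomic μ) (hs : csupp μ = univ)
    {U W : Submodule ℝ V} (hU : U ≠ ⊤) (hW : W ≠ ⊤) : ∃ y ∈ atoms μ, y ∉ U ∧ y ∉ W := by
  by_contra hc
  push Not at hc
  obtain ⟨z, hzU, hzW⟩ : ∃ z, z ∉ U ∧ z ∉ W := by
    obtain ⟨x, -, hx⟩ := SetLike.exists_of_lt (lt_top_iff_ne_top.2 hU)
    obtain ⟨y, -, hy⟩ := SetLike.exists_of_lt (lt_top_iff_ne_top.2 hW)
    by_cases h1 : x ∈ W
    · by_cases h2 : y ∈ U
      · exact ⟨x + y, fun h => hx ((U.add_mem_iff_left h2).1 h),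
          fun h => hy ((W.add_mem_iff_right h1).1 h)⟩
      · exact ⟨y, h2, hy⟩
    · exact ⟨x, hx, h1⟩
  have hz : z ∈ csupp μ := hs ▸ mem_univ z
  refine hz ((U : Set V) ∪ (W : Set V))ᶜ ((Submodule.closed_of_finiteDimensional U).union
    (Submodule.closed_of_finiteDimensional W)).isOpen_compl (fun h => h.elim hzU hzW) ?_
  refine measure_mono_null ?_ ha.null
  rintro x ⟨t, -, hx⟩ hxa
  by_cases h1 : x ∈ U
  · exact hx (Or.inl (U.smul_mem t h1))
  · exact hx (Or.inr (W.smul_mem t (hc x hxa h1)))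

end Pool.Agent.P.MP_181257_gt
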