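import Pool.Agent.P.MP_181257_gt.PdDefs

set_option autoImplicit false
set_option linter.unusedSectionVars false
set_option linter.unusedVariables false

open MeasureTheory ProbabilityTheory Module Set Filter Topology Function
open scoped RealInnerProductSpace ENNReal Pointwise LinearAlgebra.Projectivization

noncomputable section

namespace Pool.Agent.P.MP_181257_gt

variable {V : Type} [NormedAddCommGroup V] [InnerProductSpace ℝ V] [FiniteDimensional ℝ V]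
  [MeasurableSpace V] [BorelSpace V] {ι : Type} [Fintype ι] [DecidableEq ι]

theorem meas_sub_PdF1 (F : Submodule ℝ V) : MeasurableSet (F : Set V) :=
  F.closed_of_finiteDimensional.measurableSet

theorem meas_cov_PdF1 {C : Set (Submodule ℝ V)} (hC : C.Countable) (p : Submodule ℝ V → Prop) :
    MeasurableSet {x : V | ∃ G ∈ C, p G ∧ x ∈ G} := by
  have : {x : V | ∃ G ∈ C, p G ∧ x ∈ G} = ⋃ G ∈ {G ∈ C | p G}, (G : Set V) := by
    ext x
    simp only [mem_ofPred_eq, mem_iUnion, SetLike.mem_coe, exists_prop, and_assoc]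
  rw [this]
  exact MeasurableSet.biUnion (hC.mono fun G hG => hG.1) fun G _ => meas_sub_PdF1 G

theorem step_PdF1 (μ : Measure V) [IsFiniteMeasure μ] (d : ℕ) :
    ∃ C : Set (Submodule ℝ V), C.Countable ∧ ∀ F : Submodule ℝ V, finrank ℝ F < d →
      μ {x | x ∈ F ∧ ¬ ∃ G ∈ C, G ≤ F ∧ x ∈ G} = 0 := by
  induction d with
  | zero => exact ⟨∅, countable_empty, fun F h => absurd h (Nat.not_lt_zero _)⟩
  | succ d ih =>
    obtain ⟨C, hC, h⟩ := ih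
    have hc := Measure.countable_meas_pos_of_disjoint_iUnion₀ (μ := μ)
      (As := fun F : {F : Submodule ℝ V // finrank ℝ F = d} =>
        {x | x ∈ F.1 ∧ ¬ ∃ G ∈ C, G ≤ F.1 ∧ x ∈ G})
      (fun F => ((meas_sub_PdF1 F.1).inter
        (meas_cov_PdF1 hC fun G => G ≤ F.1).compl).nullMeasurableSet) (by
        intro F F' hne
        have hlt : finrank ℝ (F.1 ⊓ F'.1 : Submodule ℝ V) < d := by
          refine (Submodule.finrank_lt_finrank_of_lt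
            (lt_of_le_of_ne inf_le_left fun he => hne ?_)).trans_eq F.2
          exact Subtype.ext (Submodule.eq_of_le_of_finrank_eq (inf_eq_left.1 he)
            (F.2.trans F'.2.symm))
        refine measure_mono_null ?_ (h _ hlt)
        rintro x ⟨⟨h1, h2⟩, h3, -⟩
        exact ⟨⟨h1, h3⟩, fun ⟨G, k1, k2, k3⟩ => h2 ⟨G, k1, k2.trans inf_le_left, k3⟩⟩)
    refine ⟨_, hC.union (hc.image Subtype.val), fun F hF => ?_⟩
    have hsub : μ {x | x ∈ F ∧ ¬ ∃ G ∈ C, G ≤ F ∧ x ∈ G} = 0 → ∀ C' : Set (Submodule ℝ V),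
        μ {x | x ∈ F ∧ ¬ ∃ G ∈ C ∪ C', G ≤ F ∧ x ∈ G} = 0 := fun h0 C' =>
      measure_mono_null (by
        rintro x ⟨k0, k3⟩
        exact ⟨k0, fun ⟨G, k1, k2⟩ => k3 ⟨G, Or.inl k1, k2⟩⟩) h0
    rcases (Nat.lt_succ_iff.1 hF).lt_or_eq with h1 | h1
    · exact hsub (h F h1) _
    · by_cases h0 : μ {x | x ∈ F ∧ ¬ ∃ G ∈ C, G ≤ F ∧ x ∈ G} = 0
      · exact hsub h0 _
      · refine measure_mono_null (fun x hx => ?_) (measure_empty (μ := μ))
        exact hx.2 ⟨F, Or.inr ⟨⟨F, h1⟩, pos_iff_ne_zero.2 h0, rfl⟩, le_rfl, hx.1⟩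

theorem least_PdF1 {C : Set (Submodule ℝ V)} (ht : ⊤ ∈ C)
    (hi : ∀ F ∈ C, ∀ G ∈ C, F ⊓ G ∈ C) (x : V) : sInf {G | G ∈ C ∧ x ∈ G} ∈ C := by
  obtain ⟨m, hm, hmin⟩ := (wellFounded_lt (α := Submodule ℝ V)).has_min {G | G ∈ C ∧ x ∈ G}
    ⟨⊤, ht, Submodule.mem_top⟩
  have : sInf {G | G ∈ C ∧ x ∈ G} = m := by
    refine le_antisymm (sInf_le hm) (le_sInf fun G hG => ?_)
    by_contra hn
    exact hmin (m ⊓ G) ⟨hi m hm.1 G hG.1, hm.2, hG.2⟩
      (lt_of_le_of_ne inf_le_left fun he => hn (inf_eq_left.1 he))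
  rw [this]
  exact hm.1

theorem exists_flat (μ : Measure V) [IsFiniteMeasure μ] : ∃ e : V → Submodule ℝ V, Flat μ e := by
  obtain ⟨C0, hC0, h0⟩ := step_PdF1 μ (finrank ℝ V + 1)
  obtain ⟨C, hC, hsub, ht, hi⟩ : ∃ C : Set (Submodule ℝ V), C.Countable ∧ C0 ⊆ C ∧ ⊤ ∈ C ∧
      ∀ F ∈ C, ∀ G ∈ C, F ⊓ G ∈ C := by
    refine ⟨sInf '' {t | t.Finite ∧ t ⊆ C0}, (countable_ofPred_finite_subset hC0).image _,
      fun G hG => ⟨{G}, ⟨finite_singleton G, singleton_subset_iff.2 hG⟩, sInf_singleton⟩,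
      ⟨∅, ⟨finite_empty, empty_subset _⟩, sInf_empty⟩, ?_⟩
    rintro _ ⟨s, hs, rfl⟩ _ ⟨t, ht, rfl⟩
    exact ⟨s ∪ t, ⟨hs.1.union ht.1, union_subset hs.2 ht.2⟩, sInf_union⟩
  have hm : ∀ x : V, x ∈ sInf {G | G ∈ C ∧ x ∈ G} := fun x =>
    Submodule.mem_sInf.2 fun G hG => hG.2
  have hle : ∀ (x : V) G, G ∈ C → x ∈ G → sInf {G | G ∈ C ∧ x ∈ G} ≤ G := fun x G k1 k2 =>
    sInf_le ⟨k1, k2⟩
  refine ⟨fun x => sInf {G | G ∈ C ∧ x ∈ G}, hC.mono ?_, fun E => ?_, hm, fun t x ht0 => ?_,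
    fun F => ?_⟩
  · rintro _ ⟨x, rfl⟩
    exact least_PdF1 ht hi x
  · have : {x : V | sInf {G | G ∈ C ∧ x ∈ G} = E} =
        {x : V | ∃ G ∈ C, G ≤ E ∧ x ∈ G} ∩ {x : V | ∃ G ∈ C, (¬ E ≤ G) ∧ x ∈ G}ᶜ := by
      ext x
      constructor
      · intro hx
        have hx' : sInf {G | G ∈ C ∧ x ∈ G} = E := hx
        refine ⟨⟨_, least_PdF1 ht hi x, hx'.le, hm x⟩, fun ⟨G, k1, k2, k3⟩ => k2 ?_⟩
        exact hx'.ge.trans (hle x G k1 k3)
      · rintro ⟨⟨G, k1, k2, k3⟩, h2⟩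
        refine le_antisymm ((hle x G k1 k3).trans k2) (le_sInf fun G' hG' => ?_)
        by_contra hn
        exact h2 ⟨G', hG'.1, hn, hG'.2⟩
    rw [this]
    exact (meas_cov_PdF1 hC _).inter (meas_cov_PdF1 hC _).compl
  · simp only [Submodule.smul_mem_iff _ ht0]
  · refine measure_mono_null ?_ (h0 F (Nat.lt_succ_of_le F.finrank_le))
    rintro x ⟨h1, h2⟩
    exact ⟨h1, fun ⟨G, k1, k2, k3⟩ => h2 ((hle x G (hsub k1) k3).trans k2)⟩

end Pool.Agent.P.MP_181257_gt
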