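import Pool.Agent.P.MP_181257_gt.PdA1

set_option autoImplicit false
set_option linter.unusedSectionVars false
set_option linter.unusedVariables false

open MeasureTheory ProbabilityTheory Module Set Filter Topology Function
open scoped RealInnerProductSpace ENNReal Pointwise LinearAlgebra.Projectivization

noncomputable section

namespace Pool.Agent.P.MP_181257_gt

variable {V : Type} [NormedAddCommGroup V] [InnerProductSpace ℝ V] [FiniteDimensional ℝ V]
  [MeasurableSpace V] [BorelSpace V] {ι : Type} [Fintype ι] [DecidableEq ι]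

theorem arrow_mem (b : Basis ι ℝ V) {x : ι → V} (hx : b.det x ≠ 0) {j k : ι} (hjk : j ≠ k)
    {G : Submodule ℝ V} (hj : Nv b j x ∈ G) {y : V} (hy : Nv b j (update x k y) ∈ G)
    (hyj : ⟪y, Nv b j x⟫ ≠ 0) : Nv b k x ∈ G := by
  set z := Nv b j (update x k y) with hz
  have h1 : ∀ i, i ≠ j → i ≠ k → ⟪x i, z⟫ = 0 := by
    intro i hi hk
    have h2 := inner_Nv_self b (update x k y) i j
    rw [update_of_ne hk, if_neg hi] at h2
    exact h2
  have h2 : ⟪x k, z⟫ = -⟪y, Nv b j x⟫ := by
    rw [hz, inner_Nv, inner_Nv, ← b.det.map_swap (update x j y) hjk]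
    congr 1
    funext i
    by_cases hi : i = j
    · subst hi
      simp [update_of_ne hjk.symm]
    · by_cases hk : i = k
      · subst hk
        simp [update_of_ne hi]
      · simp [update_of_ne hi, update_of_ne hk, Equiv.swap_apply_of_ne_of_ne hi hk]
  have h3 : b.det x • z = ⟪x j, z⟫ • Nv b j x + ⟪x k, z⟫ • Nv b k x := by
    rw [cramer_dual b x z]
    refine Finset.sum_eq_add_of_mem j k (Finset.mem_univ _) (Finset.mem_univ _) hjk ?_
    intro i _ hi
    rw [h1 i hi.1 hi.2, zero_smul]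
  have h4 : ⟪x k, z⟫ • Nv b k x ∈ G := by
    rw [← sub_eq_iff_eq_add'] at h3
    rw [← h3]
    exact G.sub_mem (G.smul_mem _ hy) (G.smul_mem _ hj)
  have h5 : ⟪x k, z⟫ ≠ 0 := by
    rw [h2]
    exact neg_ne_zero.2 hyj
  exact (G.smul_mem_iff h5).1 h4

theorem flat_count (b : Basis ι ℝ V) {x : ι → V} (hx : b.det x ≠ 0) {E G : ι → Submodule ℝ V}
    (hE : ∀ k, x k ∈ E k) (hG : ∀ j, Nv b j x ∈ G j)
    (h : ∀ j k, j ≠ k → ∀ y ∈ E k, Nv b j (update x k y) ∈ G j) :
    ∑ k, finrank ℝ (E k) ≤ ∑ j, finrank ℝ (G j) ∧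
      (∑ j, finrank ℝ (G j) ≤ ∑ k, finrank ℝ (E k) →
        ∀ k, E k ≤ Submodule.span ℝ (x '' {j | x j ∈ E k})) := by
  classical
  let A : ι → ι → Prop := fun k j => ∃ y ∈ E k, ⟪y, Nv b j x⟫ ≠ 0
  have h1 : ∀ j, (Finset.univ.filter fun k => A k j).card ≤ finrank ℝ (G j) := by
    intro j
    have h2 : ∀ k : {k // k ∈ Finset.univ.filter fun k => A k j}, Nv b k.1 x ∈ G j := by
      rintro ⟨k, hk⟩
      obtain ⟨y, hy, hy'⟩ := (Finset.mem_filter.1 hk).2
      by_cases hjk : j = k
      · subst hjk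
        exact hG j
      · exact arrow_mem b hx hjk (hG j) (h j k hjk y hy) hy'
    have h3 : LinearIndependent ℝ
        fun k : {k // k ∈ Finset.univ.filter fun k => A k j} => (⟨Nv b k.1 x, h2 k⟩ : G j) :=
      LinearIndependent.of_comp (G j).subtype
        ((linearIndependent_Nv b hx).comp Subtype.val Subtype.val_injective)
    have h4 := h3.fintype_card_le_finrank
    rwa [Fintype.card_coe] at h4
  have h2 : ∀ k, E k ≤
      Submodule.span ℝ (((Finset.univ.filter fun j => A k j).image x : Finset V) : Set V) := by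
    intro k y hy
    rw [← Submodule.smul_mem_iff _ hx, cramer_vec b x y]
    refine Submodule.sum_mem _ fun j _ => ?_
    by_cases hj : ⟪y, Nv b j x⟫ = 0
    · rw [← inner_Nv, hj, zero_smul]
      exact Submodule.zero_mem _
    · refine Submodule.smul_mem _ _ (Submodule.subset_span ?_)
      exact Finset.mem_coe.2
        (Finset.mem_image_of_mem x (Finset.mem_filter.2 ⟨Finset.mem_univ _, y, hy, hj⟩))
  have h3 : ∀ k, finrank ℝ (Submodule.span ℝ
      (((Finset.univ.filter fun j => A k j).image x : Finset V) : Set V)) ≤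
      (Finset.univ.filter fun j => A k j).card :=
    fun k => (finrank_span_finset_le_card _).trans Finset.card_image_le
  have h4 : ∀ k, finrank ℝ (E k) ≤ (Finset.univ.filter fun j => A k j).card :=
    fun k => (Submodule.finrank_mono (h2 k)).trans (h3 k)
  have h5 : ∑ k, (Finset.univ.filter fun j => A k j).card =
      ∑ j, (Finset.univ.filter fun k => A k j).card := by
    simp only [Finset.card_filter]
    exact Finset.sum_comm
  have h6 : ∑ k, finrank ℝ (E k) ≤ ∑ k, (Finset.univ.filter fun j => A k j).card :=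
    Finset.sum_le_sum fun k _ => h4 k
  have h7 : ∑ j, (Finset.univ.filter fun k => A k j).card ≤ ∑ j, finrank ℝ (G j) :=
    Finset.sum_le_sum fun j _ => h1 j
  refine ⟨by omega, fun h8 k => ?_⟩
  have h9 : ∑ k, finrank ℝ (E k) = ∑ k, (Finset.univ.filter fun j => A k j).card := by omega
  have h10 := (Finset.sum_eq_sum_iff_of_le fun k _ => h4 k).1 h9 k (Finset.mem_univ _)
  have h11 := Submodule.eq_of_le_of_finrank_le (h2 k) ((h3 k).trans h10.ge)
  refine (h2 k).trans (Submodule.span_mono fun v hv => ?_)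
  have h12 : v ∈ E k := by
    rw [h11]
    exact Submodule.subset_span hv
  obtain ⟨j, -, rfl⟩ := Finset.mem_image.1 (Finset.mem_coe.1 hv)
  exact ⟨j, h12, rfl⟩

theorem flat_big (b : Basis ι ℝ V) {x : ι → V} (hx : b.det x ≠ 0) {i j : ι} (hij : i ≠ j)
    {G : Submodule ℝ V} (hG : Nv b j x ∈ G)
    (h : ∀ k, k ≠ i → j ≠ k → ∀ y, Nv b j (update x k y) ∈ G) : (ℝ ∙ x i)ᗮ ≤ G := by
  intro w hw
  rw [Submodule.mem_orthogonal_singleton_iff_inner_right] at hw
  rw [← Submodule.smul_mem_iff _ hx, cramer_dual b x w]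
  refine Submodule.sum_mem _ fun k _ => ?_
  by_cases hk : k = i
  · rw [hk, hw, zero_smul]
    exact G.zero_mem
  · refine G.smul_mem _ ?_
    by_cases hjk : j = k
    · rw [← hjk]
      exact hG
    · refine arrow_mem b hx hjk hG (h k hk hjk (x j)) ?_
      rw [inner_Nv_self, if_pos rfl]
      exact hx

end Pool.Agent.P.MP_181257_gt
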