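import Pool.Agent.P.MP_181257_gt.PdF2
import Pool.Agent.P.MP_181257_gt.PdF1
import Pool.Agent.P.MP_181257_gt.PdB4

set_option autoImplicit false
set_option linter.unusedSectionVars false
set_option linter.unusedVariables false

open MeasureTheory ProbabilityTheory Module Set Filter Topology Function
open scoped RealInnerProductSpace ENNReal Pointwise LinearAlgebra.Projectivization

noncomputable section

namespace Pool.Agent.P.MP_181257_gt

variable {V : Type} [NormedAddCommGroup V] [InnerProductSpace ℝ V] [FiniteDimensional ℝ V]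
  [MeasurableSpace V] [BorelSpace V] {ι : Type} [Fintype ι] [DecidableEq ι]

theorem null_PdF3 (b : Basis ι ℝ V) {μ : Measure V} [IsProbabilityMeasure μ]
    {e : V → Submodule ℝ V} (he : Flat μ e) {j k : ι} (hjk : j ≠ k) (E G : Submodule ℝ V) :
    pw μ ι {x | e (x k) = E ∧ Nv b j x ∈ G ∧ ∃ y ∈ E, Nv b j (update x k y) ∉ G} = 0 := by
  have hG : IsClosed (G : Set V) := G.closed_of_finiteDimensional
  refine null_of_update k ?_ fun x => ?_
  · refine ((he.meas E).preimage (measurable_pi_apply k)).inter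
      ((hG.preimage (continuous_Nv b j)).measurableSet.inter (IsOpen.measurableSet ?_))
    have : {x : ι → V | ∃ y ∈ E, Nv b j (update x k y) ∉ G} =
        ⋃ y ∈ E, (fun x : ι → V => Nv b j (update x k y)) ⁻¹' (G : Set V)ᶜ := by
      ext x; simp
    change IsOpen {x : ι → V | ∃ y ∈ E, Nv b j (update x k y) ∉ G}
    rw [this]
    exact isOpen_biUnion fun y _ => hG.isOpen_compl.preimage
      ((continuous_Nv b j).comp (continuous_id.update k continuous_const))
  · obtain ⟨T, hT⟩ := exists_linear_Nv b hjk x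
    refine measure_mono_null ?_ (he.gen (G.comap T))
    rintro y ⟨h1, h2, z, hz, h3⟩
    rw [update_self] at h1
    rw [update_idem] at h3
    exact ⟨by rwa [Submodule.mem_comap, hT], fun h => h3 (hT z ▸ h (h1 ▸ hz))⟩

theorem ae_generic (b : Basis ι ℝ V) {μ ν : Measure V} [IsProbabilityMeasure μ]
    {e e' : V → Submodule ℝ V} (he : Flat μ e) (he' : Flat ν e') :
    ∀ᵐ x ∂(pw μ ι), ∀ j k, j ≠ k → ∀ y ∈ e (x k), Nv b j (update x k y) ∈ e' (Nv b j x) := by
  refine ae_all_iff.mpr fun j => ae_all_iff.mpr fun k => ?_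
  by_cases hjk : j = k
  · exact ae_of_all _ fun x h => absurd hjk h
  have key : ∀ᵐ x ∂(pw μ ι), ∀ E ∈ range e, ∀ G ∈ range e',
      ¬ (e (x k) = E ∧ Nv b j x ∈ G ∧ ∃ y ∈ E, Nv b j (update x k y) ∉ G) :=
    (ae_ball_iff he.count).mpr fun E _ => (ae_ball_iff he'.count).mpr fun G _ =>
      measure_eq_zero_iff_ae_notMem.mp (null_PdF3 b he hjk E G)
  filter_upwards [key] with x hx _ y hy
  by_contra h
  exact hx _ ⟨_, rfl⟩ _ ⟨_, rfl⟩ ⟨rfl, he'.mem _, y, hy, h⟩

end Pool.Agent.P.MP_181257_gt
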