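import Pool.Agent.P.MP_181257_gt.PdF3

set_option autoImplicit false
set_option linter.unusedSectionVars false
set_option linter.unusedVariables false

open MeasureTheory ProbabilityTheory Module Set Filter Topology Function
open scoped RealInnerProductSpace ENNReal Pointwise LinearAlgebra.Projectivization

noncomputable section

namespace Pool.Agent.P.MP_181257_gt

variable {V : Type} [NormedAddCommGroup V] [InnerProductSpace ℝ V] [FiniteDimensional ℝ V]
  [MeasurableSpace V] [BorelSpace V] {ι : Type} [Fintype ι] [DecidableEq ι]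

theorem meas_PdF3b {μ : Measure V} {e : V → Submodule ℝ V} (he : Flat μ e) :
    Measurable fun x => ((finrank ℝ (e x) : ℕ) : ℝ≥0∞) := by
  intro S _
  have : (fun x => ((finrank ℝ (e x) : ℕ) : ℝ≥0∞)) ⁻¹' S =
      ⋃ E ∈ {E ∈ range e | ((finrank ℝ E : ℕ) : ℝ≥0∞) ∈ S}, {x | e x = E} := by
    ext x
    simp only [mem_preimage, mem_iUnion, mem_ofPred_eq, exists_prop]
    constructor
    · intro hx
      exact ⟨e x, ⟨⟨x, rfl⟩, hx⟩, rfl⟩
    · rintro ⟨E, ⟨-, hE⟩, rfl⟩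
      exact hE
  rw [this]
  exact MeasurableSet.biUnion (he.count.mono fun _ h => h.1) fun E _ => he.meas E

theorem mdet_PdF3b (b : Basis ι ℝ V) :
    Measurable fun x : ι → V => ENNReal.ofReal |b.det x| :=
  ENNReal.measurable_ofReal.comp (continuous_bdet b).abs.measurable

theorem sums_PdF3b (b : Basis ι ℝ V) {μ ν : Measure V} (hμ : Mom μ) (hν : Mom ν) (h : Half μ ν)
    {e e' : V → Submodule ℝ V} (he : Flat μ e) (he' : Flat ν e') :
    ∃ a : ℝ, 0 < a ∧
      ENNReal.ofReal a * ∫⁻ x, (∑ k, ((finrank ℝ (e (x k)) : ℕ) : ℝ≥0∞)) *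
          ENNReal.ofReal |b.det x| ∂(pw μ ι) =
        (Fintype.card ι : ℝ≥0∞) *
          ∫⁻ y, ((finrank ℝ (e y) : ℕ) : ℝ≥0∞) * ENNReal.ofReal (Hm ν y) ∂μ ∧
      ENNReal.ofReal a * ∫⁻ x, (∑ j, ((finrank ℝ (e' (Nv b j x)) : ℕ) : ℝ≥0∞)) *
          ENNReal.ofReal |b.det x| ∂(pw μ ι) =
        (Fintype.card ι : ℝ≥0∞) *
          ∫⁻ w, ((finrank ℝ (e' w) : ℕ) : ℝ≥0∞) * ENNReal.ofReal (Hm μ w) ∂ν := by
  obtain ⟨a, ha, h1, h2⟩ := h.transfer b hμ hν
  refine ⟨a, ha, ?_, ?_⟩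
  · simp only [Finset.sum_mul]
    have m : ∀ k ∈ (Finset.univ : Finset ι), Measurable fun x : ι → V =>
        ((finrank ℝ (e (x k)) : ℕ) : ℝ≥0∞) * ENNReal.ofReal |b.det x| := fun k _ =>
      ((meas_PdF3b he).comp (measurable_pi_apply k)).mul (mdet_PdF3b b)
    rw [lintegral_finsetSum _ m, Finset.mul_sum]
    rw [Finset.sum_congr rfl (g := fun _ =>
      ∫⁻ y, ((finrank ℝ (e y) : ℕ) : ℝ≥0∞) * ENNReal.ofReal (Hm ν y) ∂μ)]
    · simp
    · intro k _
      have := marginal_pt b k hμ (meas_PdF3b he)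
      rw [this, ← lintegral_const_mul' _ _ ENNReal.ofReal_ne_top]
      refine lintegral_congr fun y => ?_
      rw [h1 k y, ENNReal.ofReal_mul ha.le]
      ring
  · simp only [Finset.sum_mul]
    have m : ∀ j ∈ (Finset.univ : Finset ι), Measurable fun x : ι → V =>
        ((finrank ℝ (e' (Nv b j x)) : ℕ) : ℝ≥0∞) * ENNReal.ofReal |b.det x| := fun j _ =>
      ((meas_PdF3b he').comp (continuous_Nv b j).measurable).mul (mdet_PdF3b b)
    rw [lintegral_finsetSum _ m, Finset.mul_sum]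
    rw [Finset.sum_congr rfl (g := fun _ =>
      ∫⁻ w, ((finrank ℝ (e' w) : ℕ) : ℝ≥0∞) * ENNReal.ofReal (Hm μ w) ∂ν)]
    · simp
    · intro j _
      have := marginal_nv b j hμ (meas_PdF3b he')
      rw [this]
      refine (h2 j (fun w => ((finrank ℝ (e' w) : ℕ) : ℝ≥0∞) * ENNReal.ofReal (Hm μ w))
        ((meas_PdF3b he').mul (ENNReal.measurable_ofReal.comp (continuous_Hm hμ).measurable))
        fun t x => ?_).symm
      rw [Hm_smul, ENNReal.ofReal_mul (abs_nonneg t)]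
      by_cases ht : t = 0
      · simp [ht]
      · rw [he'.smul t x ht]
        ring

theorem le_PdF3b (b : Basis ι ℝ V) {μ ν : Measure V} [IsProbabilityMeasure μ]
    {e e' : V → Submodule ℝ V} (he : Flat μ e) (he' : Flat ν e') :
    (fun x : ι → V => (∑ k, ((finrank ℝ (e (x k)) : ℕ) : ℝ≥0∞)) * ENNReal.ofReal |b.det x|)
      ≤ᵐ[pw μ ι] fun x => (∑ j, ((finrank ℝ (e' (Nv b j x)) : ℕ) : ℝ≥0∞)) *
        ENNReal.ofReal |b.det x| := by
  filter_upwards [ae_generic b he he'] with x hx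
  by_cases h0 : b.det x = 0
  · simp [h0]
  · have := (flat_count b h0 (E := fun k => e (x k)) (G := fun j => e' (Nv b j x))
      (fun k => he.mem _) (fun j => he'.mem _) hx).1
    exact mul_le_mul_left (by exact_mod_cast this) _

theorem Pair.ae_span (b : Basis ι ℝ V) {μ ν : Measure V} (h : Pair μ ν)
    {e : V → Submodule ℝ V} (he : Flat μ e) :
    ∀ᵐ x ∂(pw μ ι), b.det x ≠ 0 →
      ∀ k, e (x k) ≤ Submodule.span ℝ (x '' {j | x j ∈ e (x k)}) := by
  have := h.gl.mom.prob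
  have := h.gr.mom.prob
  obtain ⟨e', he'⟩ := exists_flat ν
  obtain ⟨a, ha, h1, h2⟩ := sums_PdF3b b h.gl.mom h.gr.mom h.hl he he'
  obtain ⟨a', ha', h3, h4⟩ := sums_PdF3b b h.gr.mom h.gl.mom h.hr he' he
  have l1 := le_PdF3b b he he'
  have l2 := lintegral_mono_ae (le_PdF3b b he' he)
  have l3 : ∫⁻ x, (∑ j, ((finrank ℝ (e' (Nv b j x)) : ℕ) : ℝ≥0∞)) *
      ENNReal.ofReal |b.det x| ∂(pw μ ι) ≤
      ∫⁻ x, (∑ k, ((finrank ℝ (e (x k)) : ℕ) : ℝ≥0∞)) * ENNReal.ofReal |b.det x| ∂(pw μ ι) := by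
    rw [← ENNReal.mul_le_mul_iff_right (ENNReal.ofReal_pos.2 ha).ne' ENNReal.ofReal_ne_top,
      h1, h2, ← h3, ← h4]
    gcongr
  have fin : ∫⁻ x, (∑ k, ((finrank ℝ (e (x k)) : ℕ) : ℝ≥0∞)) * ENNReal.ofReal |b.det x|
      ∂(pw μ ι) ≠ ∞ := by
    have b1 : ∫⁻ x, (∑ k, ((finrank ℝ (e (x k)) : ℕ) : ℝ≥0∞)) * ENNReal.ofReal |b.det x|
        ∂(pw μ ι) ≤ ∫⁻ x, (∑ _k : ι, ((finrank ℝ V : ℕ) : ℝ≥0∞)) * ENNReal.ofReal |b.det x|
        ∂(pw μ ι) := by
      refine lintegral_mono fun x => ?_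
      simp only
      gcongr with k
      exact Submodule.finrank_le _
    refine ne_top_of_le_ne_top ?_ b1
    rw [lintegral_const_mul _ (mdet_PdF3b b)]
    refine ENNReal.mul_ne_top (ENNReal.sum_ne_top.2 fun _ _ => ENNReal.natCast_ne_top _) ?_
    exact (integrable_bdet b h.gl.mom).lintegral_lt_top.ne
  have mg : Measurable fun x : ι → V => (∑ j, ((finrank ℝ (e' (Nv b j x)) : ℕ) : ℝ≥0∞)) *
      ENNReal.ofReal |b.det x| :=
    (Finset.measurable_sum _ fun j _ =>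
      (meas_PdF3b he').comp (continuous_Nv b j).measurable).mul (mdet_PdF3b b)
  filter_upwards [ae_eq_of_ae_le_of_lintegral_le l1 fin mg.aemeasurable l3,
    ae_generic b he he'] with x hx hg h0
  refine (flat_count b h0 (E := fun k => e (x k)) (G := fun j => e' (Nv b j x))
    (fun k => he.mem _) (fun j => he'.mem _) hg).2 ?_
  have hp : ENNReal.ofReal |b.det x| ≠ 0 := (ENNReal.ofReal_pos.2 (abs_pos.2 h0)).ne'
  have := (ENNReal.mul_left_inj hp ENNReal.ofReal_ne_top).1 hx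
  exact le_of_eq (by exact_mod_cast this.symm)

end Pool.Agent.P.MP_181257_gt
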