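import Pool.Agent.P.MP_181257_gt.PdF3b
import Pool.Agent.P.MP_181257_gt.PdD1b

set_option autoImplicit false
set_option linter.unusedSectionVars false
set_option linter.unusedVariables false

open MeasureTheory ProbabilityTheory Module Set Filter Topology Function
open scoped RealInnerProductSpace ENNReal Pointwise LinearAlgebra.Projectivization

noncomputable section

namespace Pool.Agent.P.MP_181257_gt

variable {V : Type} [NormedAddCommGroup V] [InnerProductSpace ℝ V] [FiniteDimensional ℝ V]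
  [MeasurableSpace V] [BorelSpace V] {ι : Type} [Fintype ι] [DecidableEq ι]

theorem two_points_PdF4 {μ : Measure V} {e : V → Submodule ℝ V}
    (he : Flat μ e) {E : Submodule ℝ V} (hE : μ {x | e x = E} ≠ 0) (h2 : 2 ≤ finrank ℝ E)
    (p : V) : ∃ q ∈ csupp (μ.restrict {x | e x = E}), q ∉ (ℝ ∙ p : Submodule ℝ V) := by
  by_contra hn
  push Not at hn
  apply hE
  have h1 : ¬ E ≤ (ℝ ∙ p : Submodule ℝ V) := fun hle => by
    have h3 := Submodule.finrank_mono hle
    have h4 : finrank ℝ (ℝ ∙ p : Submodule ℝ V) ≤ 1 := by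
      have := finrank_span_le_card (R := ℝ) ({p} : Set V)
      simpa using this
    omega
  have h5 := null_compl_csupp (μ.restrict {x | e x = E})
  rw [Measure.restrict_apply' (he.meas E)] at h5
  refine measure_mono_null (fun x hx => ?_) (measure_union_null h5 (he.gen (ℝ ∙ p)))
  by_cases hc : x ∈ csupp (μ.restrict {x | e x = E})
  · refine Or.inr ⟨hn x hc, ?_⟩
    have hx' : e x = E := hx
    rw [hx']
    exact h1
  · exact Or.inl ⟨hc, hx⟩

theorem good_family_PdF4 (b : Basis ι ℝ V) {μ : Measure V} (hμ : Good μ)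
    {e : V → Submodule ℝ V} (he : Flat μ e) {E : Submodule ℝ V} (hE : μ {x | e x = E} ≠ 0)
    (h2 : 2 ≤ finrank ℝ E) {i0 i1 : ι} (hi : i1 ≠ i0) {P : (ι → V) → Prop}
    (hP : ∀ᵐ x ∂(pw μ ι), P x) :
    ∃ x : ι → V, b.det x ≠ 0 ∧ e (x i0) = E ∧ e (x i1) = E ∧ P x := by
  classical
  have := hμ.mom.prob
  obtain ⟨p, hp, hp0⟩ := two_points_PdF4 he hE h2 0
  obtain ⟨q, hq, hqp⟩ := two_points_PdF4 he hE h2 p
  have hp0' : p ≠ 0 := fun h => hp0 (by rw [h]; exact Submodule.zero_mem _)
  have hind : LinearIndepOn ℝ (fun i => if i = i0 then p else q)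
      ((({i1, i0} : Finset ι)) : Set ι) := by
    rw [Finset.coe_insert, Finset.coe_singleton]
    refine LinearIndepOn.insert (LinearIndepOn.singleton (by simpa using hp0')) ?_
    simpa [hi] using hqp
  obtain ⟨y, hy0, hy1, hy⟩ := ext_basis b (span_of_null hμ (null_compl_csupp μ)) hind
  have hpos := pos_of_csupp (μ := μ)
    (S := fun i => if i ∈ ({i1, i0} : Finset ι) then {x | e x = E} else univ) (z := y)
    (U := {x | b.det x ≠ 0}) (fun i => by
      split_ifs
      · exact he.meas E
      · exact MeasurableSet.univ) (fun i => by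
      by_cases hm : i ∈ ({i1, i0} : Finset ι)
      · rw [if_pos hm, hy0 i hm]
        split_ifs
        · exact hp
        · exact hq
      · rw [if_neg hm, Measure.restrict_univ]
        exact hy1 i hm) (isOpen_ne_fun (continuous_bdet b) continuous_const) hy
    (fun t x _ hx h0 => hx (by
      show b.det (fun i => t i • x i) = 0
      rw [AlternatingMap.map_smul_univ, h0, smul_zero]))
  obtain ⟨x, ⟨hx1, hx2⟩, hx3⟩ :=
    Measure.exists_mem_of_measure_ne_zero_of_ae hpos (ae_restrict_of_ae hP)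
  refine ⟨x, hx1, ?_, ?_, hx3⟩
  · simpa using hx2 i0 (mem_univ _)
  · simpa using hx2 i1 (mem_univ _)

theorem Pair.splits_of_flat {μ ν : Measure V} (h : Pair μ ν) {e : V → Submodule ℝ V}
    (he : Flat μ e) {E : Submodule ℝ V} (hE : μ {x | e x = E} ≠ 0) (h2 : 2 ≤ finrank ℝ E)
    (ht : E ≠ ⊤) : Splits μ := by
  classical
  have := h.gl.mom.prob
  have hn : 2 ≤ finrank ℝ V := h2.trans (Submodule.finrank_le E)
  let b := Module.finBasis ℝ V
  have hi : (⟨1, by omega⟩ : Fin (finrank ℝ V)) ≠ ⟨0, by omega⟩ := by simp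
  have hsp := h.ae_span b he
  obtain ⟨x, hx, h0, h1, hP1, hP2⟩ := good_family_PdF4 b h.gl he hE h2 hi
    (hsp.and (ae_all_iff.2 fun j => ae_ae_update j hsp))
  have hli := (bdet_ne_zero_iff b x).1 hx
  have hEJ : E = Submodule.span ℝ (x '' {j | x j ∈ E}) := by
    refine le_antisymm ?_ (Submodule.span_le.2 ?_)
    · have h3 := hP1 hx ⟨0, by omega⟩
      rwa [h0] at h3
    · rintro _ ⟨j, hj, rfl⟩
      exact hj
  have hmem : ∀ (y : V) (G : Submodule ℝ V),
      (∀ j, b.det (update x j y) = 0 ∨ x j ∈ G) → y ∈ G := fun y G hG => by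
    have h3 : b.det x • y ∈ G := by
      rw [cramer_vec]
      refine Submodule.sum_mem _ fun j _ => ?_
      rcases hG j with h4 | h4
      · rw [h4, zero_smul]
        exact G.zero_mem
      · exact G.smul_mem _ h4
    exact (G.smul_mem_iff hx).1 h3
  have hF : ∀ j, x j ∉ E → x j ∈ Submodule.span ℝ (x '' {j | x j ∈ E}ᶜ) := fun j hj =>
    Submodule.subset_span ⟨j, hj, rfl⟩
  have hc : IsCompl E (Submodule.span ℝ (x '' {j | x j ∈ E}ᶜ)) := by
    constructor
    · have h3 := hli.disjoint_span_image (disjoint_compl_right (a := {j | x j ∈ E}))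
      rwa [← hEJ] at h3
    · rw [codisjoint_iff, eq_top_iff]
      intro y _
      refine hmem y _ fun j => Or.inr ?_
      by_cases hj : x j ∈ E
      · exact Submodule.mem_sup_left hj
      · exact Submodule.mem_sup_right (hF j hj)
  refine ⟨E, _, hc, fun hb => ?_, fun hb => ?_, ?_⟩
  · rw [hb, finrank_bot] at h2
    omega
  · rw [hb] at hc
    exact ht (eq_top_of_isCompl_bot hc)
  · have h3 : ∀ᵐ y ∂μ, y ∈ (E : Set V) ∪
        (Submodule.span ℝ (x '' {j | x j ∈ E}ᶜ) : Submodule ℝ V) := by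
      filter_upwards [ae_all_iff.2 hP2] with y hy
      by_cases hyE : y ∈ E
      · exact Or.inl hyE
      refine Or.inr (hmem y _ fun j => ?_)
      by_cases hj : x j ∈ E
      · left
        by_contra hd
        obtain ⟨i, hij, hie⟩ : ∃ i, i ≠ j ∧ e (x i) = E := by
          by_cases hj0 : (⟨0, by omega⟩ : Fin (finrank ℝ V)) = j
          · exact ⟨_, hj0 ▸ hi, h1⟩
          · exact ⟨_, hj0, h0⟩
        have h4 := hy j hd i
        rw [update_of_ne hij, hie] at h4
        refine hli.notMem_span_image (s := {j}ᶜ) (x := j) (by simp) ?_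
        refine Submodule.span_mono ?_ (h4 hj)
        rintro _ ⟨k, hk, rfl⟩
        have hkj : k ≠ j := fun hkj => hyE (by simpa [hkj] using hk)
        exact ⟨k, hkj, (update_of_ne hkj _ _).symm⟩
      · exact Or.inr (hF j hj)
    exact h3

end Pool.Agent.P.MP_181257_gt
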