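import Pool.Agent.P.MP_181257_gt.PdF4

set_option autoImplicit false
set_option linter.unusedSectionVars false
set_option linter.unusedVariables false

open MeasureTheory ProbabilityTheory Module Set Filter Topology Function
open scoped RealInnerProductSpace ENNReal Pointwise LinearAlgebra.Projectivization

noncomputable section

namespace Pool.Agent.P.MP_181257_gt

variable {V : Type} [NormedAddCommGroup V] [InnerProductSpace ℝ V] [FiniteDimensional ℝ V]
  [MeasurableSpace V] [BorelSpace V] {ι : Type} [Fintype ι] [DecidableEq ι]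

theorem mass_PdF5 {μ : Measure V} {e : V → Submodule ℝ V} (he : Flat μ e) {S : Set V}
    (hS : μ S ≠ 0) : ∃ E, μ (S ∩ {x | e x = E}) ≠ 0 := by
  by_contra hn
  push Not at hn
  apply hS
  have h1 : S ⊆ ⋃ E ∈ range e, (S ∩ {x | e x = E}) := by
    intro x hx
    simp only [mem_iUnion]
    exact ⟨e x, ⟨x, rfl⟩, hx, rfl⟩
  exact measure_mono_null h1 ((measure_biUnion_null_iff he.count).2 fun E _ => hn E)

theorem meas_PdF5 {μ : Measure V} {e : V → Submodule ℝ V} (he : Flat μ e) (F : Submodule ℝ V) :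
    MeasurableSet {x | F ≤ e x} := by
  have h1 : {x | F ≤ e x} = ⋃ E ∈ range e ∩ {E | F ≤ E}, {x | e x = E} := by
    ext x
    simp only [mem_iUnion, mem_ofPred_eq]
    constructor
    · intro hx
      exact ⟨e x, ⟨⟨x, rfl⟩, hx⟩, rfl⟩
    · rintro ⟨E, hE, rfl⟩
      exact hE.2
  rw [h1]
  exact MeasurableSet.biUnion (he.count.mono inter_subset_left) fun E _ => he.meas E

theorem line_PdF5 {E : Submodule ℝ V} (hE : finrank ℝ E ≤ 1) : ∃ z : V, E ≤ ℝ ∙ z := by
  obtain ⟨v, hv⟩ := finrank_le_one_iff.1 hE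
  refine ⟨v, fun w hw => ?_⟩
  obtain ⟨c, hc⟩ := hv ⟨w, hw⟩
  exact Submodule.mem_span_singleton.2 ⟨c, by simpa using congrArg Subtype.val hc⟩

theorem atomic_PdF5 {μ ν : Measure V} (h : Pair μ ν) (hs : ¬ Splits μ) {e : V → Submodule ℝ V}
    (he : Flat μ e) (ht : μ {x | e x = ⊤} = 0) : Atomic μ := by
  have h1 : ∀ E : Submodule ℝ V, ∃ z : V, μ {x | e x = E} ≠ 0 → E ≤ ℝ ∙ z := by
    intro E
    by_cases h0 : μ {x | e x = E} = 0
    · exact ⟨0, fun h2 => absurd h0 h2⟩
    · have h2 : E ≠ ⊤ := by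
        rintro rfl
        exact h0 ht
      have h3 : finrank ℝ E ≤ 1 := by
        by_contra h4
        exact hs (h.splits_of_flat he h0 (by omega) h2)
      obtain ⟨z, hz⟩ := line_PdF5 h3
      exact ⟨z, fun _ => hz⟩
  choose z hz using h1
  refine ⟨z '' range e, he.count.image z, ?_⟩
  by_contra hn
  obtain ⟨E, hE⟩ := mass_PdF5 he hn
  have h2 : μ {x | e x = E} ≠ 0 := fun h3 => hE (measure_mono_null inter_subset_right h3)
  obtain ⟨x, hx1, hx2⟩ := nonempty_of_measure_ne_zero hE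
  apply hx1
  simp only [mem_iUnion]
  have h4 : e x = E := hx2
  exact ⟨z E, ⟨E, ⟨x, h4⟩, rfl⟩, hz E h2 (h4 ▸ he.mem x)⟩

theorem point_PdF5 {μ : Measure V} (h0 : μ {0} = 0) {S : Set V} (hS : μ S ≠ 0) :
    ∃ z ∈ csupp (μ.restrict S), z ≠ 0 := by
  by_contra hn
  push Not at hn
  apply hS
  have h1 := null_compl_csupp (μ.restrict S)
  have h2 : μ.restrict S {0} = 0 := le_antisymm ((Measure.restrict_le_self _).trans h0.le) bot_le
  have h3 : (univ : Set V) ⊆ (csupp (μ.restrict S))ᶜ ∪ {0} := by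
    intro x _
    by_cases hx : x ∈ csupp (μ.restrict S)
    · exact Or.inr (hn x hx)
    · exact Or.inl hx
  have h4 := measure_mono_null h3 (measure_union_null h1 h2)
  rwa [Measure.restrict_apply_univ] at h4

theorem span_PdF5 {μ : Measure V} {e : V → Submodule ℝ V} (he : Flat μ e)
    (ht : μ {x | e x = ⊤} ≠ 0) :
    Submodule.span ℝ (csupp (μ.restrict {x | e x = ⊤})) = ⊤ := by
  by_contra hn
  apply ht
  have h1 := null_compl_csupp (μ.restrict {x | e x = ⊤})
  rw [Measure.restrict_apply' (he.meas ⊤)] at h1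
  refine measure_mono_null ?_ (measure_union_null h1
    (he.gen (Submodule.span ℝ (csupp (μ.restrict {x | e x = ⊤})))))
  intro x hx
  by_cases h2 : x ∈ csupp (μ.restrict {x | e x = ⊤})
  · refine Or.inr ⟨Submodule.subset_span h2, fun h3 => hn ?_⟩
    have h4 : e x = ⊤ := hx
    rw [h4] at h3
    exact top_le_iff.1 h3
  · exact Or.inl ⟨h2, hx⟩

theorem Pair.dichotomy {μ ν : Measure V} (h : Pair μ ν) (hs : ¬ Splits μ)
    (hn : 3 ≤ finrank ℝ V) :
    (∀ u : V, u ≠ 0 → μ {x | ⟪u, x⟫ = 0} = 0) ∨ Atomic μ := by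
  have := h.gl.mom.prob
  have := h.gr.mom.prob
  obtain ⟨e, he⟩ := exists_flat μ
  obtain ⟨e', he'⟩ := exists_flat ν
  by_cases ht : μ {x | e x = ⊤} = 0
  · exact Or.inr (atomic_PdF5 h hs he ht)
  refine Or.inl fun u hu => ?_
  by_contra hm
  have hF : μ {x | x ≠ 0 ∧ e x ≤ (ℝ ∙ u)ᗮ} ≠ 0 := by
    intro h0
    apply hm
    refine measure_mono_null ?_ (measure_union_null h0
      (measure_union_null h.gl.zero (he.gen (ℝ ∙ u)ᗮ)))
    intro x hx
    by_cases h1 : x = 0
    · exact Or.inr (Or.inl h1)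
    · by_cases h2 : e x ≤ (ℝ ∙ u)ᗮ
      · exact Or.inl ⟨h1, h2⟩
      · exact Or.inr (Or.inr ⟨Submodule.mem_orthogonal_singleton_iff_inner_right.2 hx, h2⟩)
  obtain ⟨E, hE⟩ := mass_PdF5 he hF
  have hE0 : μ {x | e x = E} ≠ 0 := fun h3 => hE (measure_mono_null inter_subset_right h3)
  obtain ⟨x0, ⟨hx0, hx1⟩, hx2⟩ := nonempty_of_measure_ne_zero hE
  have hx3 : e x0 = E := hx2
  have hx4 : x0 ∈ E := hx3 ▸ he.mem x0
  have hEt : E ≠ ⊤ := by
    intro h1
    rw [hx3, h1] at hx1
    have h2 : u ∈ (ℝ ∙ u)ᗮ := hx1 Submodule.mem_top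
    rw [Submodule.mem_orthogonal_singleton_iff_inner_right] at h2
    exact hu (inner_self_eq_zero.1 h2)
  have hE1 : finrank ℝ E ≤ 1 := by
    by_contra h4
    exact hs (h.splits_of_flat he hE0 (by omega) hEt)
  have hline : ∀ y ∈ E, y ≠ 0 → (ℝ ∙ y) = E := by
    intro y hy hy0
    apply Submodule.eq_of_le_of_finrank_le ((Submodule.span_singleton_le_iff_mem _ _).2 hy)
    rw [finrank_span_singleton hy0]
    exact hE1
  let b := Module.finBasis ℝ V
  let i : Fin (finrank ℝ V) := ⟨0, by omega⟩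
  let j : Fin (finrank ℝ V) := ⟨1, by omega⟩
  have hij : i ≠ j := by
    intro h1
    have := congrArg Fin.val h1
    simp [i, j] at this
  obtain ⟨z0, hz0, hz1⟩ := point_PdF5 h.gl.zero hE0
  obtain ⟨z, hz2, hz3, hz4⟩ := ext_basis b (span_PdF5 he ht) (J₀ := {i}) (x := fun _ => z0)
    (by
      rw [Finset.coe_singleton]
      exact LinearIndepOn.singleton hz1)
  let S : Fin (finrank ℝ V) → Set V := fun k => if k = i then {x | e x = E} else {x | e x = ⊤}
  have hpos := pos_of_csupp (μ := μ) (S := S) (z := z) (U := {x | b.det x ≠ 0})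
    (fun k => by
      simp only [S]
      split_ifs
      · exact he.meas _
      · exact he.meas _)
    (fun k => by
      simp only [S]
      split_ifs with hk
      · rw [hz2 k (Finset.mem_singleton.2 hk)]
        exact hz0
      · exact hz3 k fun h1 => hk (Finset.mem_singleton.1 h1))
    (isOpen_ne_fun (continuous_bdet b) continuous_const) hz4
    (fun t x _ hx h0 => hx (by
      have h1 := b.det.map_smul_univ t x
      rw [h1, h0, smul_zero]))
  have hT : ν {w | w ∈ Eᗮ ∧ Eᗮ ≤ e' w} ≠ 0 := by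
    intro h0
    have hmeas : MeasurableSet {w | w ∈ Eᗮ ∧ Eᗮ ≤ e' w} :=
      (Submodule.closed_of_finiteDimensional Eᗮ).measurableSet.inter (meas_PdF5 he' Eᗮ)
    have h1 := (h.hl.null_iff b j h.gl.mom h.gr hmeas (fun t x ht => by
      simp only [mem_ofPred_eq, he'.smul t x ht, Submodule.smul_mem_iff _ ht])).1 h0
    apply hpos
    have h2 := ae_generic b he he'
    rw [ae_iff] at h2
    refine measure_mono_null ?_ (measure_union_null h1 h2)
    rintro x ⟨hx, hxS⟩
    by_contra hn'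
    simp only [mem_union, mem_ofPred_eq, not_or, not_not] at hn'
    obtain ⟨h3, h4⟩ := hn'
    have hd : b.det x ≠ 0 := hx
    have h5 : e (x i) = E := by
      have := hxS i (mem_univ _)
      simpa [S] using this
    have h6 : ∀ k, k ≠ i → e (x k) = ⊤ := by
      intro k hk
      have := hxS k (mem_univ _)
      simpa [S, hk] using this
    have h7 : x i ≠ 0 := ((bdet_ne_zero_iff b x).1 hd).ne_zero i
    have h8 : (ℝ ∙ x i) = E := hline _ (h5 ▸ he.mem (x i)) h7
    apply h3
    refine ⟨⟨?_, ?_⟩, ?_⟩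
    · rw [← h8, Submodule.mem_orthogonal_singleton_iff_inner_right, inner_Nv_self, if_neg hij]
    · rw [← h8]
      exact flat_big b hd hij (he'.mem _) fun k hk hjk y =>
        h4 j k hjk y (by rw [h6 k hk]; exact Submodule.mem_top)
    · intro h9
      have h10 := inner_Nv_self b x j j
      rw [h9, inner_zero_right, if_pos rfl] at h10
      exact hd h10.symm
  have hT2 : ν {w | e' w = Eᗮ} ≠ 0 := by
    intro h0
    apply hT
    refine measure_mono_null ?_ (measure_union_null h0 (he'.gen Eᗮ))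
    rintro w ⟨h1, h2⟩
    by_cases h3 : e' w ≤ Eᗮ
    · exact Or.inl (le_antisymm h3 h2)
    · exact Or.inr ⟨h1, h3⟩
  have hdim := Submodule.finrank_add_finrank_orthogonal E
  refine hs (h.symm.splits (h.symm.splits_of_flat he' hT2 (by omega) fun h1 => ?_))
  rw [Submodule.orthogonal_eq_top_iff] at h1
  rw [h1] at hx4
  exact hx0 ((Submodule.mem_bot ℝ).1 hx4)

end Pool.Agent.P.MP_181257_gt
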