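import Pool.Agent.P.MP_181257_gt.PdB4

set_option autoImplicit false
set_option linter.unusedSectionVars false
set_option linter.unusedVariables false

open MeasureTheory ProbabilityTheory Module Set Filter Topology Function
open scoped RealInnerProductSpace ENNReal Pointwise LinearAlgebra.Projectivization

noncomputable section

namespace Pool.Agent.P.MP_181257_gt

variable {V : Type} [NormedAddCommGroup V] [InnerProductSpace ℝ V] [FiniteDimensional ℝ V]
  [MeasurableSpace V] [BorelSpace V] {ι : Type} [Fintype ι] [DecidableEq ι]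

theorem meas_PdG1 (U : Submodule ℝ V) : MeasurableSet (U : Set V) :=
  (Submodule.closed_of_finiteDimensional U).measurableSet

theorem meet_PdG1 {x y : ℙ ℝ V} (h : x ≠ y) {z : V} (hx : z ∈ x.submodule) (hy : z ∈ y.submodule) :
    z = 0 := by
  by_contra hz
  have key : ∀ w : ℙ ℝ V, z ∈ w.submodule → w.submodule = ℝ ∙ z := fun w hw =>
    (Submodule.eq_of_le_of_finrank_eq ((Submodule.span_singleton_le_iff_mem _ _).2 hw)
      (by rw [finrank_span_singleton hz, w.finrank_submodule])).symm
  exact h (Projectivization.submodule_injective ((key x hx).trans (key y hy).symm))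

theorem Mp_nonneg (b : Basis ι ℝ V) (j k : ι) (μ : Measure V) (π : Pl V) : 0 ≤ Mp b j k μ π := by
  exact integral_nonneg fun _ => abs_nonneg _

theorem aL_nonneg (μ ν : Measure V) (x : ℙ ℝ V) : 0 ≤ aL μ ν x := by
  exact integral_nonneg fun z => Hm_nonneg ν z

theorem aL_le {μ ν : Measure V} (hμ : Mom μ) (hν : Mom ν) (x : ℙ ℝ V) :
    aL μ ν x ≤ ∫ z, Hm ν z ∂μ := by
  exact setIntegral_le_integral (integrable_Hm_comp hμ hν)
    (Eventually.of_forall fun z => Hm_nonneg ν z)

theorem sum_aL_le {μ ν : Measure V} (hμ : Good μ) (hν : Mom ν) (S : Finset (ℙ ℝ V)) :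
    ∑ x ∈ S, aL μ ν x ≤ ∫ z, Hm ν z ∂μ := by
  have hi := integrable_Hm_comp hμ.mom hν
  have e : ∀ x : ℙ ℝ V, aL μ ν x = ∫ z in (x.submodule : Set V) \ {0}, Hm ν z ∂μ := fun x =>
    (setIntegral_congr_set (sdiff_null_ae_eq_self hμ.zero)).symm
  simp only [e]
  rw [← integral_biUnion_finset S (fun x _ => (meas_PdG1 _).diff (measurableSet_singleton 0))
    (fun x _ y _ hxy => Set.disjoint_left.2 fun z hx hy => hx.2 (meet_PdG1 hxy hx.1 hy.1))
    fun x _ => hi.integrableOn]
  exact setIntegral_le_integral hi (Eventually.of_forall fun z => Hm_nonneg ν z)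

theorem aL_pos {μ ν : Measure V} (hμ : Good μ) (hν : Good ν) {x : ℙ ℝ V}
    (hx : x.rep ∈ atoms μ) : 0 < aL μ ν x := by
  have hi := integrable_Hm_comp hμ.mom hν.mom
  have h0 : μ ((x.submodule : Set V)) ≠ 0 := by
    rw [Projectivization.submodule_eq]
    exact hx.resolve_left x.rep_nonzero
  refine (setIntegral_pos_iff_support_of_nonneg_ae
    (Eventually.of_forall fun z => Hm_nonneg ν z) hi.integrableOn).2 ?_
  rw [pos_iff_ne_zero]
  intro h
  refine h0 (measure_mono_null (t := (support (Hm ν) ∩ (x.submodule : Set V)) ∪ {0})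
    (fun z hz => ?_) (measure_union_null h hμ.zero))
  by_cases hz0 : z = 0
  · exact Or.inr hz0
  · exact Or.inl ⟨(hν.pos z hz0).ne', hz⟩

end Pool.Agent.P.MP_181257_gt
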