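import Pool.Agent.P.MP_181257_gt.PdG1

set_option autoImplicit false
set_option linter.unusedSectionVars false
set_option linter.unusedVariables false

open MeasureTheory ProbabilityTheory Module Set Filter Topology Function
open scoped RealInnerProductSpace ENNReal Pointwise LinearAlgebra.Projectivization

noncomputable section

namespace Pool.Agent.P.MP_181257_gt

variable {V : Type} [NormedAddCommGroup V] [InnerProductSpace ℝ V] [FiniteDimensional ℝ V]
  [MeasurableSpace V] [BorelSpace V] {ι : Type} [Fintype ι] [DecidableEq ι]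

theorem meas_sub_PdG1b (U : Submodule ℝ V) : MeasurableSet (U : Set V) :=
  U.closed_of_finiteDimensional.measurableSet

theorem lint_aL_PdG1b {μ ν : Measure V} (hμ : Mom μ) (hν : Mom ν) (x : ℙ ℝ V) :
    ∫⁻ z, (x.submodule : Set V).indicator (fun z => ENNReal.ofReal (Hm ν z)) z ∂μ =
      ENNReal.ofReal (aL μ ν x) := by
  rw [lintegral_indicator (meas_sub_PdG1b _), aL, ofReal_integral_eq_lintegral_ofReal
    (integrable_Hm_comp hμ hν).integrableOn (ae_of_all _ fun z => Hm_nonneg ν z)]

theorem Nv_plane_PdG1b (b : Basis ι ℝ V) {i k : ι} (hik : i ≠ k) (π : Pl V) {y : ι → V}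
    (hy : ∀ m, m ≠ i → m ≠ k → y m ∈ π.spᗮ) :
    Nv b k y = (-b.det (update (update y i π.p) k π.q)) • π.J (y i) := by
  refine ext_inner_left ℝ fun u => ?_
  have h := bdet_plane b hik π hy (y i) u
  rw [update_eq_self] at h
  rw [inner_Nv, h, inner_smul_right, Pl.J, inner_sub_right, inner_smul_right, inner_smul_right]
  ring

theorem exists_smul_PdG1b {x : ℙ ℝ V} {z : V} (hz : z ∈ x.submodule) : ∃ t : ℝ, t • x.rep = z := by
  rwa [Projectivization.submodule_eq, Submodule.mem_span_singleton] at hz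

/-- item (i): the mass received by a line of a pencil -/
theorem sum_Rp_le (b : Basis ι ℝ V) {j k : ι} (hjk : j ≠ k) {μ ν : Measure V} (h : Pair μ ν)
    (π : Pl V) (v : ℙ ℝ V) (S : Finset (ℙ ℝ V))
    (hS : ∀ x ∈ S, π.J x.rep ≠ 0 ∧ π.J x.rep ∈ v.submodule) :
    ∑ x ∈ S, Rp b j k μ π x.rep * aL μ ν x ≤ aL ν μ v := by
  classical
  have := h.gl.mom.prob
  obtain ⟨a, ha, hQ, htr⟩ := Half.transfer b h.gl.mom h.gr.mom h.hl
  have H0 : Hm μ 0 = 0 := by simpa using Hm_smul μ 0 0
  have cH := continuous_Hm h.gl.mom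
  let φ : V → ℝ≥0∞ := (v.submodule : Set V).indicator fun w => ENNReal.ofReal (Hm μ w)
  let M : ι → Set (ι → V) := fun i => {y | ∀ m, m ≠ i → m ≠ k → y m ∈ π.spᗮ}
  let f : ι → (ι → V) → ℝ≥0∞ := fun i => (M i).indicator fun y =>
    ENNReal.ofReal |b.det (update (update y i π.p) k π.q)|
  let g : ℙ ℝ V → V → ℝ≥0∞ := fun x => (x.submodule : Set V).indicator fun z =>
    ENNReal.ofReal (Hm μ (π.J z))
  have mφ : Measurable φ := cH.measurable.ennreal_ofReal.indicator (meas_sub_PdG1b _)
  have hφ : ∀ (t : ℝ) (x : V), φ (t • x) = ENNReal.ofReal |t| * φ x := by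
    intro t x
    by_cases hx : x ∈ v.submodule
    · simp only [φ]
      rw [indicator_of_mem (v.submodule.smul_mem t hx), indicator_of_mem hx, Hm_smul,
        ENNReal.ofReal_mul (abs_nonneg t)]
    · by_cases ht : t = 0
      · simp [φ, ht, H0]
      · simp only [φ]
        rw [indicator_of_notMem hx, mul_zero,
          indicator_of_notMem fun h' => hx ((v.submodule.smul_mem_iff ht).1 h')]
  have mM : ∀ i, MeasurableSet (M i) := fun i => by
    simp only [M, Set.ofPred_forall]
    exact MeasurableSet.iInter fun m => MeasurableSet.iInter fun _ => MeasurableSet.iInter fun _ =>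
      measurable_pi_apply m (meas_sub_PdG1b _)
  have mf : ∀ i, Measurable (f i) := fun i => by
    refine Measurable.indicator (Measurable.ennreal_ofReal (Continuous.measurable ?_)) (mM i)
    exact ((continuous_bdet b).comp
      ((continuous_id.update i continuous_const).update k continuous_const)).abs
  have mg : ∀ x, Measurable (g x) := fun x =>
    (cH.comp π.continuous_J).measurable.ennreal_ofReal.indicator (meas_sub_PdG1b _)
  have mF : ∀ i x, Measurable fun y : ι → V => f i y * g x (y i) := fun i x =>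
    (mf i).mul ((mg x).comp (measurable_pi_apply i))
  have hf : ∀ i, i ≠ k → ∫⁻ y, f i y ∂(pw μ ι) = ENNReal.ofReal (Mp b j k μ π) := fun i hi => by
    rw [Mp_perm b hjk hi, lintegral_indicator (mM i), Mp, ofReal_integral_eq_lintegral_ofReal
      (integrable_Gm b i k h.gl.mom _ _).integrableOn (ae_of_all _ fun y => abs_nonneg _)]
  have hfu : ∀ i y z, f i (update y i z) = f i y := fun i y z => by
    have e : update y i z ∈ M i ↔ y ∈ M i :=
      forall_congr' fun m => forall_congr' fun hm => by rw [update_of_ne hm]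
    by_cases hy : y ∈ M i
    · simp only [f]
      rw [indicator_of_mem hy, indicator_of_mem (e.2 hy), update_idem]
    · simp only [f]
      rw [indicator_of_notMem hy, indicator_of_notMem fun h' => hy (e.1 h')]
  have hF : ∀ i, i ≠ k → ∀ x, ∫⁻ y, f i y * g x (y i) ∂(pw μ ι) =
      ENNReal.ofReal (Mp b j k μ π) * ∫⁻ z, g x z ∂μ := fun i hi x => by
    rw [lintegral_update' μ i (mF i x), ← lintegral_const_mul _ (mg x)]
    refine lintegral_congr fun z => ?_
    simp only [hfu, update_self]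
    rw [lintegral_mul_const _ (mf i), hf i hi]
  have hg : ∀ x : ℙ ℝ V, ENNReal.ofReal a * ∫⁻ z, g x z ∂μ =
      ENNReal.ofReal (Hm μ (π.J x.rep) / Qm b j μ x.rep) * ENNReal.ofReal (aL μ ν x) := by
    intro x
    have hq := Qm_pos b j h.gl x.rep_nonzero
    rw [← lint_aL_PdG1b h.gl.mom h.gr.mom, ← lintegral_const_mul _ (mg x),
      ← lintegral_const_mul' _ _ ENNReal.ofReal_ne_top]
    refine lintegral_congr fun z => ?_
    by_cases hz : z ∈ x.submodule
    · simp only [g]
      rw [indicator_of_mem hz, indicator_of_mem hz, ← ENNReal.ofReal_mul ha.le,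
        ← ENNReal.ofReal_mul (div_nonneg (Hm_nonneg _ _) hq.le)]
      obtain ⟨t, rfl⟩ := exists_smul_PdG1b hz
      rw [hQ j, Qm_smul, Pl.J_smul, Hm_smul]
      congr 1
      field_simp
    · simp only [g]
      rw [indicator_of_notMem hz, indicator_of_notMem hz, mul_zero, mul_zero]
  have hsupp : ∀ i x y, f i y * g x (y i) ≠ 0 → y ∈ M i ∧ y i ∈ x.submodule ∧ y i ∉ π.spᗮ := by
    intro i x y hy
    obtain ⟨h1, h2⟩ := mul_ne_zero_iff.1 hy
    have h3 : y i ∈ x.submodule := mem_of_indicator_ne_zero h2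
    refine ⟨mem_of_indicator_ne_zero h1, h3, fun h4 => h2 ?_⟩
    simp only [g]
    rw [indicator_of_mem h3, (π.J_eq_zero_iff _).2 h4, H0, ENNReal.ofReal_zero]
  have hpt : ∀ y, ∑ p ∈ Finset.univ.erase k ×ˢ S, f p.1 y * g p.2 (y p.1) ≤ φ (Nv b k y) := by
    intro y
    by_cases hn : ∃ p ∈ Finset.univ.erase k ×ˢ S, f p.1 y * g p.2 (y p.1) ≠ 0
    · obtain ⟨⟨i, x⟩, hp, hp'⟩ := hn
      obtain ⟨h1, h2, h3⟩ := hsupp i x y hp'
      obtain ⟨hi, hx⟩ := Finset.mem_product.1 hp
      have hi' := Finset.ne_of_mem_erase hi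
      rw [Finset.sum_eq_single_of_mem _ hp]
      · rw [Nv_plane_PdG1b b hi' π h1, hφ, abs_neg]
        have h4 : π.J (y i) ∈ v.submodule := by
          obtain ⟨t, ht⟩ := exists_smul_PdG1b h2
          rw [← ht, Pl.J_smul]
          exact v.submodule.smul_mem t (hS x hx).2
        simp only [f, g, φ]
        rw [indicator_of_mem h1, indicator_of_mem h2, indicator_of_mem h4]
      · rintro ⟨i', x'⟩ hq hne
        by_contra hq'
        obtain ⟨-, g2, g3⟩ := hsupp i' x' y hq'
        have e : i' = i := by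
          by_contra hi2
          exact g3 (h1 i' hi2 (Finset.ne_of_mem_erase (Finset.mem_product.1 hq).1))
        subst e
        have h0 : y i' ≠ 0 := fun h0 => h3 (h0 ▸ Submodule.zero_mem _)
        have e2 : ∀ w : ℙ ℝ V, y i' ∈ w.submodule → Projectivization.mk ℝ (y i') h0 = w := by
          intro w hw
          obtain ⟨t, ht⟩ := exists_smul_PdG1b hw
          rw [← w.mk_rep]
          exact (Projectivization.mk_eq_mk_iff' ℝ _ _ _ _).2 ⟨t, ht⟩
        exact hne (by rw [← e2 x h2, ← e2 x' g2])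
    · push Not at hn
      rw [Finset.sum_eq_zero hn]
      exact bot_le
  have hc : (0 : ℝ) ≤ (Fintype.card ι : ℝ) - 1 := by
    have : 1 ≤ Fintype.card ι := Fintype.card_pos_iff.2 ⟨k⟩
    rw [sub_nonneg]
    exact_mod_cast this
  have hM := Mp_nonneg b j k μ π
  have hd : ∀ x : ℙ ℝ V, 0 ≤ Hm μ (π.J x.rep) / Qm b j μ x.rep := fun x =>
    div_nonneg (Hm_nonneg _ _) (Qm_pos b j h.gl x.rep_nonzero).le
  have hR : ∀ x : ℙ ℝ V, Rp b j k μ π x.rep =
      ((Fintype.card ι : ℝ) - 1) * Mp b j k μ π * (Hm μ (π.J x.rep) / Qm b j μ x.rep) :=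
    fun x => mul_div_assoc _ _ _
  rw [← ENNReal.ofReal_le_ofReal_iff (aL_nonneg ν μ v), ← lint_aL_PdG1b h.gr.mom h.gl.mom,
    htr k φ mφ hφ]
  refine le_trans (le_of_eq ?_) (mul_le_mul_right (lintegral_mono hpt) _)
  rw [lintegral_finsetSum _ fun p _ => mF p.1 p.2, Finset.sum_product_right, Finset.mul_sum,
    ENNReal.ofReal_sum_of_nonneg fun x _ =>
      mul_nonneg (by rw [hR]; exact mul_nonneg (mul_nonneg hc hM) (hd x)) (aL_nonneg _ _ _)]
  refine Finset.sum_congr rfl fun x _ => ?_
  have e : ENNReal.ofReal ((Fintype.card ι : ℝ) - 1) = ((Finset.univ.erase k).card : ℝ≥0∞) := by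
    rw [Finset.card_erase_of_mem (Finset.mem_univ k), Finset.card_univ, ← ENNReal.ofReal_natCast,
      Nat.cast_pred (Fintype.card_pos_iff.2 ⟨k⟩)]
  rw [Finset.sum_congr rfl fun i hi => hF i (Finset.ne_of_mem_erase hi) x, Finset.sum_const,
    nsmul_eq_mul, hR, mul_assoc, mul_assoc, ENNReal.ofReal_mul hc, ENNReal.ofReal_mul hM,
    ENNReal.ofReal_mul (hd x), ← hg, e]
  ring

end Pool.Agent.P.MP_181257_gt
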