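import Pool.Agent.P.MP_181257_gt.PdG1

set_option autoImplicit false
set_option linter.unusedSectionVars false
set_option linter.unusedVariables false

open MeasureTheory ProbabilityTheory Module Set Filter Topology Function
open scoped RealInnerProductSpace ENNReal Pointwise LinearAlgebra.Projectivization

noncomputable section

namespace Pool.Agent.P.MP_181257_gt

variable {V : Type} [NormedAddCommGroup V] [InnerProductSpace ℝ V] [FiniteDimensional ℝ V]
  [MeasurableSpace V] [BorelSpace V] {ι : Type} [Fintype ι] [DecidableEq ι]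

theorem det_ne_PdG2 (b : Basis ι ℝ V) {j k : ι} (hjk : j ≠ k) (π : Pl V) {z y : ι → V}
    (hz : LinearIndepOn ℝ z (((Finset.univ.erase j).erase k : Finset ι) : Set ι))
    (hU : ∀ i, i ≠ j → i ≠ k → y i ∈ π.spᗮ)
    (hy : ∀ i, i ≠ j → i ≠ k → ∃ t : ℝ, t ≠ 0 ∧ t • z i = y i) :
    b.det (update (update y j π.p) k π.q) ≠ 0 := by
  rw [bdet_ne_zero_iff, Fintype.linearIndependent_iff]
  intro g hg
  have hp : π.p ∈ π.sp := Submodule.subset_span (by simp)
  have hq : π.q ∈ π.sp := Submodule.subset_span (by simp)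
  have hj : g j = 0 := by
    have e := congrArg (fun w => ⟪π.p, w⟫) hg
    simp only [inner_sum, inner_smul_right, inner_zero_right] at e
    rw [Finset.sum_eq_single j] at e
    · rwa [update_of_ne hjk, update_self, real_inner_self_eq_norm_sq, π.hp, one_pow, mul_one] at e
    · intro i _ hij
      by_cases hik : i = k
      · rw [hik, update_self, π.hpq, mul_zero]
      · rw [update_of_ne hik, update_of_ne hij, (hU i hij hik) _ hp, mul_zero]
    · simp
  have hk : g k = 0 := by
    have e := congrArg (fun w => ⟪π.q, w⟫) hg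
    simp only [inner_sum, inner_smul_right, inner_zero_right] at e
    rw [Finset.sum_eq_single k] at e
    · rwa [update_self, real_inner_self_eq_norm_sq, π.hq, one_pow, mul_one] at e
    · intro i _ hik
      by_cases hij : i = j
      · rw [hij, hj, zero_mul]
      · rw [update_of_ne hik, update_of_ne hij, (hU i hij hik) _ hq, mul_zero]
    · simp
  choose! t ht using hy
  have hs : ∑ i ∈ (Finset.univ.erase j).erase k, (g i * t i) • z i = 0 := by
    rw [← hg]
    refine (Finset.sum_congr rfl fun i hi => ?_).trans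
      (Finset.sum_subset (Finset.subset_univ _) fun i _ hi => ?_)
    · simp only [Finset.mem_erase, Finset.mem_univ, and_true] at hi
      rw [update_of_ne hi.1, update_of_ne hi.2, ← (ht i hi.2 hi.1).2, smul_smul]
    · by_cases hik : i = k
      · rw [hik, hk, zero_smul]
      · have hij : i = j := by
          by_contra hij
          exact hi (by simp [hij, hik])
        rw [hij, hj, zero_smul]
  intro i
  by_cases hij : i = j
  · rw [hij, hj]
  by_cases hik : i = k
  · rw [hik, hk]
  have h0 := linearIndepOn_finset_iff.1 hz _ hs i (by simp [hij, hik])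
  exact (mul_eq_zero.1 h0).resolve_right (ht i hij hik).1

theorem Mp_pos (b : Basis ι ℝ V) {j k : ι} (hjk : j ≠ k) {μ : Measure V} (hμ : Good μ)
    {π : Pl V} (h : Sp (atoms μ) π.spᗮ) : 0 < Mp b j k μ π := by
  have := hμ.mom.prob
  have hc : ((Finset.univ.erase j).erase k : Finset ι).card ≤ finrank ℝ π.spᗮ := by
    have h1 := π.sp.finrank_add_finrank_orthogonal
    rw [π.finrank_sp, finrank_eq_card_basis b] at h1
    rw [Finset.card_erase_of_mem (by simp [hjk.symm]), Finset.card_erase_of_mem (by simp),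
      Finset.card_univ]
    omega
  obtain ⟨z, -, hz, hi⟩ := ext_indep (J₀ := ∅) (x := fun _ : ι => (0 : V)) h (Finset.empty_subset _)
    hc (by simp) (by simp)
  let B : ι → Set V := fun i =>
    if i = j ∨ i = k then univ else ((ℝ ∙ z i : Submodule ℝ V) : Set V) \ {0}
  have hB : pw μ ι (univ.pi B) ≠ 0 := by
    rw [Measure.pi_pi]
    refine Finset.prod_ne_zero_iff.2 fun i _ => ?_
    by_cases h1 : i = j ∨ i = k
    · simp [B, h1]
    · simp only [B, if_neg h1]
      rw [measure_sdiff_null hμ.zero]
      have hm : i ∈ (Finset.univ.erase j).erase k := by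
        rw [not_or] at h1
        simp [h1.1, h1.2]
      exact (hz i hm (by simp)).1.resolve_left (hi.ne_zero (Finset.mem_coe.2 hm))
  rw [Mp, setIntegral_pos_iff_support_of_nonneg_ae (Eventually.of_forall fun y => abs_nonneg _)
    (integrable_Gm b j k hμ.mom _ _).integrableOn]
  refine lt_of_lt_of_le (pos_iff_ne_zero.2 hB) (measure_mono fun y hy => ?_)
  have hy' : ∀ i, i ≠ j → i ≠ k → ∃ t : ℝ, t ≠ 0 ∧ t • z i = y i := fun i hij hik => by
    have h1 := hy i (mem_univ i)
    simp only [B, if_neg (not_or.2 ⟨hij, hik⟩)] at h1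
    obtain ⟨t, ht⟩ := Submodule.mem_span_singleton.1 h1.1
    refine ⟨t, ?_, ht⟩
    rintro rfl
    exact h1.2 (by rw [← ht, zero_smul]; rfl)
  have hU : ∀ i, i ≠ j → i ≠ k → y i ∈ π.spᗮ := fun i hij hik => by
    obtain ⟨t, -, ht⟩ := hy' i hij hik
    rw [← ht]
    exact Submodule.smul_mem _ _ (hz i (by simp [hij, hik]) (by simp)).2
  exact ⟨abs_ne_zero.2 (det_ne_PdG2 b hjk π hi hU hy'), hU⟩

/-- the pointwise inequality -/
theorem point_PdG2 (b : Basis ι ℝ V) (j : ι) {x ξ v : V} (hv : ⟪x, v⟫ = 0) (y : ι → V) :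
    |⟪ξ, v⟫| * |b.det (update y j x)| ≤
      ∑ i ∈ Finset.univ.erase j, |b.det (update (update y j x) i ξ)| * |⟪v, y i⟫| := by
  have e := congrArg (fun w => ⟪v, w⟫) (cramer_vec b (update y j x) ξ)
  simp only [inner_sum, inner_smul_right] at e
  rw [← Finset.add_sum_erase _ _ (Finset.mem_univ j), update_self, real_inner_comm x v, hv,
    mul_zero, zero_add] at e
  rw [← abs_mul, mul_comm, real_inner_comm v ξ, e]
  refine (Finset.abs_sum_le_sum_abs _ _).trans (Finset.sum_le_sum fun i hi => ?_)
  rw [abs_mul, update_of_ne (Finset.ne_of_mem_erase hi)]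

/-- one term of the expansion -/
theorem term_PdG2 (b : Basis ι ℝ V) {j i : ι} (hij : j ≠ i) {μ : Measure V} (hμ : Mom μ)
    (x ξ v : V) :
    Integrable (fun y : ι → V => |b.det (update (update y j x) i ξ)| * |⟪v, y i⟫|) (pw μ ι) ∧
      ∫ y, |b.det (update (update y j x) i ξ)| * |⟪v, y i⟫| ∂(pw μ ι)
        = Hm μ v * Gm b j i μ x ξ := by
  have := hμ.prob
  have hmp := mp_update (ι := ι) μ i
  have hc : Continuous fun y : ι → V => |b.det (update (update y j x) i ξ)| * |⟪v, y i⟫| := by
    refine Continuous.mul (Continuous.abs ((continuous_bdet b).comp ?_)) (by fun_prop)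
    exact (continuous_id.update j continuous_const).update i continuous_const
  have e : (fun y : ι → V => |b.det (update (update y j x) i ξ)| * |⟪v, y i⟫|) ∘
      (fun p : (ι → V) × V => update p.1 i p.2) =
      fun p => |b.det (update (update p.1 j x) i ξ)| * |⟪v, p.2⟫| := by
    funext p
    simp only [comp_apply, update_self]
    rw [update_comm hij.symm, update_idem]
  refine ⟨(hmp.integrable_comp hc.aestronglyMeasurable).1 ?_, ?_⟩
  · rw [e]
    exact (integrable_Gm b j i hμ x ξ).mul_prod (integrable_Hm hμ v)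
  · have h1 := integral_map (μ := (pw μ ι).prod μ) hmp.measurable.aemeasurable
      hc.aestronglyMeasurable
    rw [hmp.map_eq] at h1
    rw [h1, mul_comm]
    refine Eq.trans (integral_congr_ae (Eventually.of_forall fun p => congrFun e p)) ?_
    exact integral_prod_mul (fun y : ι → V => |b.det (update (update y j x) i ξ)|)
      fun w : V => |⟪v, w⟫|

/-- the Laplace inequality -/
theorem laplace_le (b : Basis ι ℝ V) {j k : ι} (hjk : j ≠ k) {μ : Measure V} (hμ : Mom μ)
    {x ξ v : V} (hv : ⟪x, v⟫ = 0) :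
    |⟪ξ, v⟫| * Qm b j μ x ≤ ((Fintype.card ι : ℝ) - 1) * (Hm μ v * Gm b j k μ x ξ) := by
  have := hμ.prob
  have hI := fun i (hi : i ∈ Finset.univ.erase j) =>
    term_PdG2 b (Finset.ne_of_mem_erase hi).symm hμ x ξ v
  rw [Qm, ← integral_const_mul]
  refine (integral_mono ((integrable_Qm b j hμ x).const_mul _)
    (integrable_finsetSum _ fun i hi => (hI i hi).1) (point_PdG2 b j hv)).trans (le_of_eq ?_)
  rw [integral_finsetSum _ fun i hi => (hI i hi).1,
    Finset.sum_congr rfl fun i hi => (hI i hi).2.trans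
      (by rw [Gm_perm b (Finset.ne_of_mem_erase hi).symm hjk]),
    Finset.sum_const, Finset.card_erase_of_mem (Finset.mem_univ j), Finset.card_univ, nsmul_eq_mul,
    Nat.cast_sub (Fintype.card_pos_iff.2 ⟨j⟩), Nat.cast_one]

end Pool.Agent.P.MP_181257_gt
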