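import Pool.Agent.P.MP_181257_gt.PdG2

set_option autoImplicit false
set_option linter.unusedSectionVars false
set_option linter.unusedVariables false

open MeasureTheory ProbabilityTheory Module Set Filter Topology Function
open scoped RealInnerProductSpace ENNReal Pointwise LinearAlgebra.Projectivization

noncomputable section

namespace Pool.Agent.P.MP_181257_gt

variable {V : Type} [NormedAddCommGroup V] [InnerProductSpace ℝ V] [FiniteDimensional ℝ V]
  [MeasurableSpace V] [BorelSpace V] {ι : Type} [Fintype ι] [DecidableEq ι]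

theorem point_PdG2b (b : Basis ι ℝ V) (j : ι) {x ξ v : V} (hv : ⟪x, v⟫ = 0) (w : ι → V) :
    |⟪ξ, v⟫| * |b.det (update w j x)| ≤
      ∑ i ∈ Finset.univ.erase j, |b.det (update (update w j x) i ξ)| * |⟪v, w i⟫| := by
  have h := congrArg (fun u => ⟪u, v⟫) (cramer_vec b (update w j x) ξ)
  simp only [sum_inner, real_inner_smul_left] at h
  rw [← Finset.add_sum_erase _ _ (Finset.mem_univ j), update_self, hv, mul_zero, zero_add] at h
  rw [← abs_mul, mul_comm, h]
  refine (Finset.abs_sum_le_sum_abs _ _).trans (le_of_eq ?_)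
  refine Finset.sum_congr rfl fun i hi => ?_
  rw [abs_mul, update_of_ne (Finset.ne_of_mem_erase hi), real_inner_comm]

theorem term_PdG2b (b : Basis ι ℝ V) {j i : ι} (hij : i ≠ j) {μ : Measure V} (hμ : Mom μ)
    (x ξ v : V) :
    Integrable (fun w : ι → V => |b.det (update (update w j x) i ξ)| * |⟪v, w i⟫|) (pw μ ι) ∧
      ∫ w, |b.det (update (update w j x) i ξ)| * |⟪v, w i⟫| ∂(pw μ ι) =
        Gm b j i μ x ξ * Hm μ v := by
  have := hμ.1
  have hc : Continuous fun w : ι → V => |b.det (update (update w j x) i ξ)| * |⟪v, w i⟫| := by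
    refine Continuous.mul (Continuous.abs ?_) (Continuous.abs ?_)
    · exact (continuous_bdet b).comp
        ((continuous_id.update j continuous_const).update i continuous_const)
    · exact continuous_const.inner (continuous_apply i)
  have hmp := mp_update (ι := ι) μ i
  have he : ((fun w : ι → V => |b.det (update (update w j x) i ξ)| * |⟪v, w i⟫|) ∘
      fun p : (ι → V) × V => update p.1 i p.2) =
      fun p : (ι → V) × V => |b.det (update (update p.1 j x) i ξ)| * |⟪v, p.2⟫| := by
    funext p
    simp only [Function.comp, update_self]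
    rw [update_comm hij, update_idem]
  constructor
  · rw [← hmp.integrable_comp hc.aestronglyMeasurable, he]
    exact (integrable_Gm b j i hμ x ξ).mul_prod (integrable_Hm hμ v)
  · rw [← hmp.map_eq, integral_map hmp.measurable.aemeasurable hc.aestronglyMeasurable]
    have := congrArg (fun F => ∫ p, F p ∂((pw μ ι).prod μ)) he
    simp only [Function.comp] at this
    rw [this]
    exact integral_prod_mul (fun w : ι → V => |b.det (update (update w j x) i ξ)|)
      (fun z : V => |⟪v, z⟫|)

theorem laplace_lt (b : Basis ι ℝ V) {j k : ι} (hjk : j ≠ k) {μ : Measure V} (hμ : Good μ)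
    (ha : Submodule.span ℝ (atoms μ) = ⊤) (hn : 3 ≤ Fintype.card ι) {x ξ v y : V}
    (hv : ⟪x, v⟫ = 0) (hy : y ∈ atoms μ) (hyv : ⟪y, v⟫ ≠ 0)
    (hi : LinearIndependent ℝ ![x, ξ, y]) :
    |⟪ξ, v⟫| * Qm b j μ x < ((Fintype.card ι : ℝ) - 1) * (Hm μ v * Gm b j k μ x ξ) := by
  have := hμ.mom.1
  obtain ⟨i0, -, hi0⟩ : ∃ i0 : ι, i0 ∈ Finset.univ ∧ i0 ∉ ({j, k} : Finset ι) := by
    apply Finset.exists_mem_notMem_of_card_lt_card
    rw [Finset.card_univ]
    exact lt_of_le_of_lt Finset.card_le_two (by omega)
  simp only [Finset.mem_insert, Finset.mem_singleton, not_or] at hi0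
  obtain ⟨hij, hik⟩ := hi0
  -- a basis through `x`, `ξ`, `y` and atoms
  obtain ⟨z, hzj, hzk, hzi, hza, hz⟩ : ∃ z : ι → V, z j = x ∧ z k = ξ ∧ z i0 = y ∧
      (∀ m, m ≠ j → m ≠ k → z m ∈ atoms μ) ∧ b.det z ≠ 0 := by
    let e : Fin 3 → ι := ![j, k, i0]
    have he : Injective e := by
      intro a c hac
      fin_cases a <;> fin_cases c <;> simp_all [e, eq_comm]
    let x0 : ι → V := update (update (update 0 j x) k ξ) i0 y
    have h0 : x0 j = x := by
      simp only [x0]
      rw [update_of_ne (Ne.symm hij), update_of_ne hjk, update_self]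
    have h1 : x0 k = ξ := by
      simp only [x0]
      rw [update_of_ne (Ne.symm hik), update_self]
    have h2 : x0 i0 = y := by simp only [x0, update_self]
    have hcomp : x0 ∘ e = ![x, ξ, y] := by
      funext a
      fin_cases a
      · exact h0
      · exact h1
      · exact h2
    have hli : LinearIndepOn ℝ x0 ((Finset.univ.image e : Finset ι) : Set ι) := by
      rw [Finset.coe_image, Finset.coe_univ, image_univ, linearIndepOn_range_iff he, hcomp]
      exact hi
    obtain ⟨z, hz1, hz2, hz3⟩ := ext_basis b ha hli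
    have hm : ∀ a, e a ∈ Finset.univ.image e := fun a => Finset.mem_image_of_mem e (by simp)
    have hzi : z i0 = y := (hz1 _ (hm 2)).trans h2
    refine ⟨z, (hz1 _ (hm 0)).trans h0, (hz1 _ (hm 1)).trans h1, hzi, ?_, hz3⟩
    intro m hmj hmk
    by_cases hmi : m = i0
    · rw [hmi, hzi]
      exact hy
    · apply hz2
      intro hmem
      obtain ⟨a, -, rfl⟩ := Finset.mem_image.1 hmem
      fin_cases a
      · exact hmj rfl
      · exact hmk rfl
      · exact hmi rfl
  have hzne : ∀ m, z m ≠ 0 := fun m => ((bdet_ne_zero_iff b z).1 hz).ne_zero m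
  have hy0 : y ≠ 0 := hzi ▸ hzne i0
  -- the box
  let L : ι → V := update z k y
  have hL0 : ∀ m, L m ≠ 0 := by
    intro m
    by_cases hm : m = k
    · simp only [L, hm, update_self]
      exact hy0
    · simp only [L, update_of_ne hm]
      exact hzne m
  have hLa : ∀ m, m ≠ j → L m ∈ atoms μ := by
    intro m hmj
    by_cases hm : m = k
    · simp only [L, hm, update_self]
      exact hy
    · simp only [L, update_of_ne hm]
      exact hza m hmj hm
  let S : ι → Set V := fun m =>
    if m = j then univ else ((ℝ ∙ L m : Submodule ℝ V) : Set V) \ {0}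
  have hS : pw μ ι (univ.pi S) ≠ 0 := by
    rw [Measure.pi_pi, Finset.prod_ne_zero_iff]
    intro m _
    by_cases hm : m = j
    · simp [S, hm]
    · simp only [S, if_neg hm]
      rw [measure_sdiff_null hμ.zero]
      exact (hLa m hm).resolve_left (hL0 m)
  -- the difference
  let T : ι → (ι → V) → ℝ := fun i w => |b.det (update (update w j x) i ξ)| * |⟪v, w i⟫|
  have hTi : ∀ i ∈ Finset.univ.erase j, Integrable (T i) (pw μ ι) := fun i hi =>
    (term_PdG2b b (Finset.ne_of_mem_erase hi) hμ.mom x ξ v).1
  have hI1 : Integrable (fun w => ∑ i ∈ Finset.univ.erase j, T i w) (pw μ ι) :=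
    integrable_finsetSum _ hTi
  have hI2 : Integrable (fun w : ι → V => |⟪ξ, v⟫| * |b.det (update w j x)|) (pw μ ι) :=
    (integrable_Qm b j hμ.mom x).const_mul _
  have hpos : 0 < ∫ w, (∑ i ∈ Finset.univ.erase j, T i w - |⟪ξ, v⟫| * |b.det (update w j x)|)
      ∂(pw μ ι) := by
    rw [integral_pos_iff_support_of_nonneg
      (fun w => sub_nonneg.2 (point_PdG2b b j hv w)) (hI1.sub hI2)]
    refine pos_iff_ne_zero.2 fun h0 => hS (measure_mono_null ?_ h0)
    intro w hw
    have hw' : ∀ m, m ≠ j → ∃ t : ℝ, t ≠ 0 ∧ w m = t • L m := by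
      intro m hm
      have := hw m (mem_univ m)
      simp only [S, if_neg hm] at this
      obtain ⟨h1, h2⟩ := this
      obtain ⟨t, ht⟩ := Submodule.mem_span_singleton.1 h1
      refine ⟨t, ?_, ht.symm⟩
      rintro rfl
      apply h2
      rw [← ht, zero_smul]
      rfl
    choose! t ht0 ht using hw'
    have hkj : k ≠ j := Ne.symm hjk
    have hwk : w k = t k • y := by rw [ht k hkj]; simp only [L, update_self]
    have hwi : w i0 = t i0 • y := by
      rw [ht i0 hij]
      simp only [L, update_of_ne hik, hzi]
    have hd0 : b.det (update w j x) = 0 := by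
      refine bdet_zero_of_card b (U := ℝ ∙ y) (S := {k, i0}) ?_ ?_
      · intro m hm
        simp only [Finset.mem_insert, Finset.mem_singleton] at hm
        rcases hm with rfl | rfl
        · rw [update_of_ne hkj, hwk]
          exact Submodule.smul_mem _ _ (Submodule.mem_span_singleton_self y)
        · rw [update_of_ne hij, hwi]
          exact Submodule.smul_mem _ _ (Submodule.mem_span_singleton_self y)
      · rw [finrank_span_singleton hy0, Finset.card_pair (Ne.symm hik)]
        norm_num
    have hd1 : b.det (update (update w j x) k ξ) ≠ 0 := by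
      have he : update (update w j x) k ξ =
          fun m => (update (update t j 1) k 1 : ι → ℝ) m • z m := by
        funext m
        by_cases hmk : m = k
        · rw [hmk, update_self, update_self, one_smul, hzk]
        · rw [update_of_ne hmk, update_of_ne hmk]
          by_cases hmj : m = j
          · rw [hmj, update_self, update_self, one_smul, hzj]
          · rw [update_of_ne hmj, update_of_ne hmj, ht m hmj]
            simp only [L, update_of_ne hmk]
      rw [he, AlternatingMap.map_smul_univ, smul_eq_mul]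
      refine mul_ne_zero (Finset.prod_ne_zero_iff.2 fun m _ => ?_) hz
      by_cases hmk : m = k
      · rw [hmk, update_self]
        exact one_ne_zero
      · rw [update_of_ne hmk]
        by_cases hmj : m = j
        · rw [hmj, update_self]
          exact one_ne_zero
        · rw [update_of_ne hmj]
          exact ht0 m hmj
    have hTk : 0 < T k w := by
      refine mul_pos (abs_pos.2 hd1) (abs_pos.2 ?_)
      rw [hwk, real_inner_smul_right, real_inner_comm]
      exact mul_ne_zero (ht0 k hkj) hyv
    have hsum : T k w ≤ ∑ i ∈ Finset.univ.erase j, T i w :=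
      Finset.single_le_sum (f := fun i => T i w)
        (fun i _ => mul_nonneg (abs_nonneg _) (abs_nonneg _))
        (Finset.mem_erase.2 ⟨hkj, Finset.mem_univ k⟩)
    rw [mem_support, hd0, abs_zero, mul_zero, sub_zero]
    exact (lt_of_lt_of_le hTk hsum).ne'
  rw [integral_sub hI1 hI2, integral_finsetSum _ hTi, integral_const_mul] at hpos
  have hs : ∑ i ∈ Finset.univ.erase j, ∫ w, T i w ∂(pw μ ι) =
      ((Fintype.card ι : ℝ) - 1) * (Hm μ v * Gm b j k μ x ξ) := by
    rw [Finset.sum_congr rfl (g := fun _ => Hm μ v * Gm b j k μ x ξ)]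
    · rw [Finset.sum_const, Finset.card_erase_of_mem (Finset.mem_univ j), Finset.card_univ,
        nsmul_eq_mul, Nat.cast_sub (by omega), Nat.cast_one]
    · intro i hi
      have hi' := Finset.ne_of_mem_erase hi
      rw [(term_PdG2b b hi' hμ.mom x ξ v).2, mul_comm, Gm_perm b (Ne.symm hi') hjk]
  rw [hs] at hpos
  exact sub_pos.1 hpos

end Pool.Agent.P.MP_181257_gt
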