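import Pool.Agent.P.MP_181257_gt.PdG1

set_option autoImplicit false
set_option linter.unusedSectionVars false
set_option linter.unusedVariables false

open MeasureTheory ProbabilityTheory Module Set Filter Topology Function
open scoped RealInnerProductSpace ENNReal Pointwise LinearAlgebra.Projectivization

noncomputable section

namespace Pool.Agent.P.MP_181257_gt

variable {V : Type} [NormedAddCommGroup V] [InnerProductSpace ℝ V] [FiniteDimensional ℝ V]
  [MeasurableSpace V] [BorelSpace V] {ι : Type} [Fintype ι] [DecidableEq ι]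

theorem sp_eq_PdG3 (b : Basis ι ℝ V) {j k : ι} (hjk : j ≠ k) {π π' : Pl V} {y : ι → V} {u v : V}
    (h0 : b.det (update (update y j u) k v) ≠ 0) (h : ∀ i, i ≠ j → i ≠ k → y i ∈ π.spᗮ)
    (h' : ∀ i, i ≠ j → i ≠ k → y i ∈ π'.spᗮ) : π.sp = π'.sp := by
  have hc : ((Finset.univ.erase j).erase k).card + 2 = finrank ℝ V := by
    have e1 := Finset.card_erase_add_one (Finset.mem_univ j)
    have e2 := Finset.card_erase_add_one
      (Finset.mem_erase.mpr ⟨hjk.symm, Finset.mem_univ k⟩ : k ∈ Finset.univ.erase j)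
    rw [Module.finrank_eq_card_basis b, ← Finset.card_univ]
    omega
  have hle : ((Finset.univ.erase j).erase k).card ≤ finrank ℝ (π.spᗮ ⊓ π'.spᗮ : Submodule ℝ V) := by
    by_contra hn
    refine h0 (bdet_zero_of_card b (fun i hi => ?_) (not_le.mp hn))
    have hk := (Finset.mem_erase.mp hi).1
    have hj := (Finset.mem_erase.mp (Finset.mem_erase.mp hi).2).1
    rw [update_of_ne hk, update_of_ne hj]
    exact ⟨h i hj hk, h' i hj hk⟩
  have e1 := π.sp.finrank_add_finrank_orthogonal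
  have e2 := π'.sp.finrank_add_finrank_orthogonal
  rw [Pl.finrank_sp] at e1 e2
  have e3 : π.spᗮ ⊓ π'.spᗮ = π.spᗮ := Submodule.eq_of_le_of_finrank_le inf_le_left (by omega)
  have e4 : π.spᗮ ⊓ π'.spᗮ = π'.spᗮ := Submodule.eq_of_le_of_finrank_le inf_le_right (by omega)
  rw [← π.sp.orthogonal_orthogonal, ← e3, e4, Submodule.orthogonal_orthogonal]

theorem meas_PdG3 (j k : ι) (π : Pl V) :
    MeasurableSet {y : ι → V | ∀ i, i ≠ j → i ≠ k → y i ∈ π.spᗮ} := by
  refine IsClosed.measurableSet ?_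
  simp only [ofPred_forall]
  exact isClosed_iInter fun i => isClosed_iInter fun _ => isClosed_iInter fun _ =>
    π.sp.isClosed_orthogonal.preimage (continuous_apply i)

theorem sum_Mp_le (b : Basis ι ℝ V) {j k : ι} (hjk : j ≠ k) {μ : Measure V} (hμ : Mom μ)
    (J : Finset (Pl V)) (hJ : InjOn Pl.sp (J : Set (Pl V))) (u v : V) :
    ∑ π ∈ J, |⟪u, π.p⟫ * ⟪v, π.q⟫ - ⟪u, π.q⟫ * ⟪v, π.p⟫| * Mp b j k μ π ≤ Gm b j k μ u v := by
  have hi := integrable_Gm b j k hμ u v
  have h1 : ∀ π ∈ J, |⟪u, π.p⟫ * ⟪v, π.q⟫ - ⟪u, π.q⟫ * ⟪v, π.p⟫| * Mp b j k μ π =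
      ∫ y, {y : ι → V | ∀ i, i ≠ j → i ≠ k → y i ∈ π.spᗮ}.indicator
        (fun y => |b.det (update (update y j u) k v)|) y ∂(pw μ ι) := by
    intro π _
    unfold Mp
    rw [integral_indicator (meas_PdG3 j k π), ← integral_const_mul]
    refine setIntegral_congr_fun (meas_PdG3 j k π) fun y hy => ?_
    show _ = |b.det (update (update y j u) k v)|
    rw [bdet_plane b hjk π hy u v, abs_mul, mul_comm]
  rw [Finset.sum_congr rfl h1, ← integral_finsetSum _ fun π _ => hi.indicator (meas_PdG3 j k π)]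
  refine integral_mono (integrable_finsetSum _ fun π _ => hi.indicator (meas_PdG3 j k π)) hi
    fun y => ?_
  show ∑ π ∈ J, _ ≤ |b.det (update (update y j u) k v)|
  by_cases h0 : b.det (update (update y j u) k v) = 0
  · refine le_trans (le_of_eq (Finset.sum_eq_zero fun π _ => ?_)) (abs_nonneg _)
    rw [indicator_apply_eq_zero]
    intro _
    rw [h0, abs_zero]
  · by_cases hex : ∃ π ∈ J, ∀ i, i ≠ j → i ≠ k → y i ∈ π.spᗮ
    · obtain ⟨π, hπ, hy⟩ := hex
      rw [Finset.sum_eq_single_of_mem π hπ fun π' hπ' hne =>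
        indicator_of_notMem (s := {y : ι → V | ∀ i, i ≠ j → i ≠ k → y i ∈ π'.spᗮ})
          (fun e => hne (hJ hπ' hπ (sp_eq_PdG3 b hjk h0 e hy))) _]
      exact le_of_eq (indicator_of_mem (s := {y : ι → V | ∀ i, i ≠ j → i ≠ k → y i ∈ π.spᗮ}) hy _)
    · refine le_trans (le_of_eq (Finset.sum_eq_zero fun π hπ => ?_)) (abs_nonneg _)
      exact indicator_of_notMem (s := {y : ι → V | ∀ i, i ≠ j → i ≠ k → y i ∈ π.spᗮ})
        (fun e => hex ⟨π, hπ, e⟩) _

end Pool.Agent.P.MP_181257_gt
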