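import Pool.Agent.P.MP_181257_gt.PdG3

set_option autoImplicit false
set_option linter.unusedSectionVars false
set_option linter.unusedVariables false

open MeasureTheory ProbabilityTheory Module Set Filter Topology Function
open scoped RealInnerProductSpace ENNReal Pointwise LinearAlgebra.Projectivization

noncomputable section

namespace Pool.Agent.P.MP_181257_gt

variable {V : Type} [NormedAddCommGroup V] [InnerProductSpace ℝ V] [FiniteDimensional ℝ V]
  [MeasurableSpace V] [BorelSpace V] {ι : Type} [Fintype ι] [DecidableEq ι]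

theorem measB_PdG3b (j k : ι) (π : Pl V) :
    MeasurableSet {y : ι → V | ∀ i, i ≠ j → i ≠ k → y i ∈ π.spᗮ} := by
  simp only [ofPred_forall]
  exact MeasurableSet.iInter fun i => MeasurableSet.iInter fun _ => MeasurableSet.iInter fun _ =>
    measurable_pi_apply i (Submodule.closed_of_finiteDimensional π.spᗮ).measurableSet

theorem setInt_PdG3b (b : Basis ι ℝ V) {j k : ι} (hjk : j ≠ k) (μ : Measure V) (π : Pl V)
    (u v : V) : ∫ y in {y : ι → V | ∀ i, i ≠ j → i ≠ k → y i ∈ π.spᗮ},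
      |b.det (update (update y j u) k v)| ∂(pw μ ι)
      = |⟪u, π.p⟫ * ⟪v, π.q⟫ - ⟪u, π.q⟫ * ⟪v, π.p⟫| * Mp b j k μ π := by
  rw [Mp, ← integral_const_mul]
  refine setIntegral_congr_fun (measB_PdG3b j k π) fun y hy => ?_
  show |b.det (update (update y j u) k v)| = _ * |b.det (update (update y j π.p) k π.q)|
  rw [bdet_plane b hjk π hy u v, abs_mul, mul_comm]

theorem atoms_PdG3b {μ : Measure V} (ha : Atomic μ) : ∃ S : Set V, S.Countable ∧ S ⊆ atoms μ ∧
    ∀ᵐ y ∂μ, ∃ z ∈ S, y ∈ (ℝ ∙ z : Submodule ℝ V) := by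
  obtain ⟨S, hS, h0⟩ := ha
  refine ⟨S ∩ atoms μ, hS.mono inter_subset_left, inter_subset_right, ?_⟩
  have h1 : μ (⋃ z ∈ S \ atoms μ, ((ℝ ∙ z : Submodule ℝ V) : Set V)) = 0 := by
    refine (measure_biUnion_null_iff (hS.mono sdiff_subset)).2 fun z hz => ?_
    by_contra h
    exact hz.2 (Or.inr h)
  refine measure_mono_null ?_ (measure_union_null h0 h1)
  intro y hy
  by_cases h2 : y ∈ ⋃ z ∈ S, ((ℝ ∙ z : Submodule ℝ V) : Set V)
  · obtain ⟨z, hz, hyz⟩ := mem_iUnion₂.1 h2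
    exact Or.inr (mem_iUnion₂.2 ⟨z, ⟨hz, fun h3 => hy ⟨z, ⟨hz, h3⟩, hyz⟩⟩, hyz⟩)
  · exact Or.inl h2

theorem rank_PdG3b (b : Basis ι ℝ V) {j k : ι} (hjk : j ≠ k) {y z : ι → V}
    (hyz : ∀ i, y i ∈ (ℝ ∙ z i : Submodule ℝ V)) {u v : V}
    (hd : b.det (update (update y j u) k v) ≠ 0) :
    finrank ℝ (Submodule.span ℝ (z '' ((Finset.univ.erase j).erase k : Finset ι)))ᗮ = 2 := by
  classical
  set I : Finset ι := (Finset.univ.erase j).erase k with hI
  have hc : I.card + 2 = finrank ℝ V := by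
    have h1 : k ∈ Finset.univ.erase j := by simp [hjk.symm]
    have h2 := Finset.card_erase_add_one h1
    have h3 := Finset.card_erase_add_one (Finset.mem_univ j)
    rw [Module.finrank_eq_card_basis b, hI, ← Finset.card_univ]
    omega
  have h1 : finrank ℝ (Submodule.span ℝ (z '' (I : Set ι))) ≤ I.card := by
    rw [← Finset.coe_image]
    exact (finrank_span_finset_le_card _).trans Finset.card_image_le
  have h2 : I.card ≤ finrank ℝ (Submodule.span ℝ (z '' (I : Set ι))) := by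
    by_contra h
    refine hd (bdet_zero_of_card b (S := I) (fun i hi => ?_) (not_le.1 h))
    have h3 : i ≠ k ∧ i ≠ j := by simpa [hI] using hi
    rw [update_of_ne h3.1, update_of_ne h3.2]
    exact Submodule.span_mono (singleton_subset_iff.2 (mem_image_of_mem z hi)) (hyz i)
  have h3 := Submodule.finrank_add_finrank_orthogonal (Submodule.span ℝ (z '' (I : Set ι)))
  omega

/-- in the atomic case countably many planes exhaust the weight -/
theorem exists_planes (b : Basis ι ℝ V) {j k : ι} (hjk : j ≠ k) {μ : Measure V} (hμ : Good μ)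
    (ha : Atomic μ) : ∃ T : Set (Pl V), InjOn Pl.sp T ∧ (∀ π ∈ T, Sp (atoms μ) π.spᗮ) ∧
      (∀ U : Submodule ℝ V, finrank ℝ U = 2 → Sp (atoms μ) Uᗮ → ∃ π ∈ T, π.sp = U) ∧
      ∀ (u v : V) (ε : ℝ), 0 < ε → ∃ J : Finset (Pl V), (J : Set (Pl V)) ⊆ T ∧
        Gm b j k μ u v - ε
          ≤ ∑ π ∈ J, |⟪u, π.p⟫ * ⟪v, π.q⟫ - ⟪u, π.q⟫ * ⟪v, π.p⟫| * Mp b j k μ π := by
  classical
  have := hμ.mom.prob
  choose pl hpl using fun (U : Submodule ℝ V) (hU : finrank ℝ U = 2) => exists_Pl hU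
  set T : Set (Pl V) := {π | ∃ U hU, Sp (atoms μ) Uᗮ ∧ π = pl U hU} with hT
  have hinj : InjOn Pl.sp T := by
    rintro _ ⟨U, hU, -, rfl⟩ _ ⟨W, hW, -, rfl⟩ h
    rw [hpl, hpl] at h
    subst h
    rfl
  have hall : ∀ U : Submodule ℝ V, finrank ℝ U = 2 → Sp (atoms μ) Uᗮ → ∃ π ∈ T, π.sp = U :=
    fun U hU h => ⟨pl U hU, ⟨U, hU, h, rfl⟩, hpl U hU⟩
  refine ⟨T, hinj, ?_, hall, fun u v ε hε => ?_⟩
  · rintro _ ⟨U, hU, h, rfl⟩
    rw [hpl]
    exact h
  obtain ⟨S, hS, hSa, hae⟩ := atoms_PdG3b ha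
  set I : Finset ι := (Finset.univ.erase j).erase k with hI
  set C : Set (Submodule ℝ V) :=
    (fun z : ι → V => (Submodule.span ℝ (z '' (I : Set ι)))ᗮ) '' (univ.pi fun _ => S) with hC
  have hCc : C.Countable := (countable_univ_pi fun _ => hS).image _
  set T₀ : Set (Pl V) := T ∩ Pl.sp ⁻¹' C with hT₀
  have hT₀c : T₀.Countable := countable_of_injective_of_countable_image
    (hinj.mono inter_subset_left) (hCc.mono (by rintro _ ⟨π, h, rfl⟩; exact h.2))
  have := hT₀c.to_subtype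
  set B : Pl V → Set (ι → V) := fun π => {y | ∀ i, i ≠ j → i ≠ k → y i ∈ π.spᗮ} with hB
  set f : (ι → V) → ℝ := fun y => |b.det (update (update y j u) k v)| with hf
  have hfi : Integrable f (pw μ ι) := integrable_Gm b j k hμ.mom u v
  have hf0 : ∀ y, 0 ≤ f y := fun y => abs_nonneg _
  have key : ENNReal.ofReal (Gm b j k μ u v)
      ≤ ∑' π : T₀, ∫⁻ y in B π, ENNReal.ofReal (f y) ∂(pw μ ι) := by
    refine le_trans ?_ (lintegral_iUnion_le _ _)
    refine le_trans ?_ (lintegral_indicator_le _ _)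
    rw [Gm, ofReal_integral_eq_lintegral_ofReal hfi (Eventually.of_forall hf0)]
    refine lintegral_mono_ae ((ae_pw (ι := ι) hae).mono fun y hy => ?_)
    choose z hzS hyz using hy
    by_cases hd : b.det (update (update y j u) k v) = 0
    · simp [hf, hd]
    · obtain ⟨π, hπ, hsp⟩ := hall _ (rank_PdG3b b hjk hyz hd) (by
        rw [Submodule.orthogonal_orthogonal]
        refine Submodule.span_mono ?_
        rintro _ ⟨i, hi, rfl⟩
        exact ⟨hSa (hzS i), Submodule.subset_span ⟨i, hi, rfl⟩⟩)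
      have hy : y ∈ ⋃ π : T₀, B π := by
        refine mem_iUnion.2 ⟨⟨π, hπ, z, fun i _ => hzS i, hsp.symm⟩, fun i h1 h2 => ?_⟩
        show y i ∈ π.spᗮ
        rw [hsp, Submodule.orthogonal_orthogonal]
        have hi : i ∈ (I : Set ι) := by simp [hI, h1, h2]
        exact Submodule.span_mono (singleton_subset_iff.2 (mem_image_of_mem z hi)) (hyz i)
      rw [indicator_of_mem hy]
  by_cases h0 : Gm b j k μ u v - ε ≤ 0
  · exact ⟨∅, by simp, by simpa using h0⟩
  have hlt : ENNReal.ofReal (Gm b j k μ u v - ε) < ENNReal.ofReal (Gm b j k μ u v) :=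
    (ENNReal.ofReal_lt_ofReal_iff (by linarith)).2 (by linarith)
  have h1 := hlt.trans_le key
  rw [ENNReal.tsum_eq_iSup_sum, lt_iSup_iff] at h1
  obtain ⟨s, hs⟩ := h1
  have hnn : ∀ π : Pl V,
      0 ≤ |⟪u, π.p⟫ * ⟪v, π.q⟫ - ⟪u, π.q⟫ * ⟪v, π.p⟫| * Mp b j k μ π :=
    fun π => mul_nonneg (abs_nonneg _) (Mp_nonneg b j k μ π)
  have h2 : ∀ π : T₀, ∫⁻ y in B π, ENNReal.ofReal (f y) ∂(pw μ ι) = ENNReal.ofReal
      (|⟪u, π.1.p⟫ * ⟪v, π.1.q⟫ - ⟪u, π.1.q⟫ * ⟪v, π.1.p⟫| * Mp b j k μ π.1) := fun π => by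
    rw [← setInt_PdG3b b hjk μ π.1 u v,
      ofReal_integral_eq_lintegral_ofReal hfi.integrableOn (Eventually.of_forall hf0)]
  simp only [h2] at hs
  rw [← ENNReal.ofReal_sum_of_nonneg fun π _ => hnn π.1] at hs
  refine ⟨s.map (Embedding.subtype _), ?_, ?_⟩
  · intro π hπ
    obtain ⟨π', -, rfl⟩ := Finset.mem_map.1 hπ
    exact π'.2.1
  · rw [Finset.sum_map]
    exact ((ENNReal.ofReal_lt_ofReal_iff_of_nonneg (not_le.1 h0).le).1 hs).le

end Pool.Agent.P.MP_181257_gt
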