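import Pool.Agent.P.MP_181257_gt.PdG2b
import Pool.Agent.P.MP_181257_gt.PdG3b
import Pool.Agent.P.MP_181257_gt.PdG1b
import Pool.Agent.P.MP_181257_gt.PdE4

set_option autoImplicit false
set_option linter.unusedSectionVars false
set_option linter.unusedVariables false

open MeasureTheory ProbabilityTheory Module Set Filter Topology Function
open scoped RealInnerProductSpace ENNReal Pointwise LinearAlgebra.Projectivization

noncomputable section

namespace Pool.Agent.P.MP_181257_gt

variable {V : Type} [NormedAddCommGroup V] [InnerProductSpace ℝ V] [FiniteDimensional ℝ V]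
  [MeasurableSpace V] [BorelSpace V] {ι : Type} [Fintype ι] [DecidableEq ι]

theorem tp_le_Rp (b : Basis ι ℝ V) {j k : ι} (hjk : j ≠ k) {μ : Measure V} (hμ : Good μ)
    (l π : Pl V) {x : V} (hx : x ∈ l.sp) (hx0 : x ≠ 0) : tp b j k μ l π ≤ Rp b j k μ π x := by
  obtain ⟨a, c, rfl⟩ := Submodule.mem_span_pair.1 hx
  have pp : ⟪l.p, l.p⟫ = (1 : ℝ) := by rw [real_inner_self_eq_norm_sq, l.hp, one_pow]
  have qq : ⟪l.q, l.q⟫ = (1 : ℝ) := by rw [real_inner_self_eq_norm_sq, l.hq, one_pow]
  have pq := l.hpq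
  have qp : ⟪l.q, l.p⟫ = (0 : ℝ) := by rw [real_inner_comm, pq]
  have hJ : l.J (a • l.p + c • l.q) = c • l.p - a • l.q := by
    simp only [Pl.J, inner_add_left, real_inner_smul_left, pp, qq, pq, qp]
    simp
  have hs : 0 < a ^ 2 + c ^ 2 := by
    by_contra h
    have ha : a = 0 := by nlinarith [sq_nonneg a, sq_nonneg c]
    have hc : c = 0 := by nlinarith [sq_nonneg a, sq_nonneg c]
    exact hx0 (by simp [ha, hc])
  have hG : Gm b j k μ (a • l.p + c • l.q) (c • l.p - a • l.q) =
      (a ^ 2 + c ^ 2) * Gm b j k μ l.p l.q := by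
    rw [Gm, Gm, ← integral_const_mul]
    refine integral_congr_ae (Eventually.of_forall fun y => ?_)
    beta_reduce
    rw [bdet_two b hjk l y hx (hJ ▸ l.J_mem _), abs_mul, mul_comm]
    congr 1
    simp only [inner_add_left, inner_sub_left, real_inner_smul_left, pp, qq, pq, qp]
    rw [← abs_neg, ← abs_of_pos hs]
    congr 1
    ring
  have hv : |⟪c • l.p - a • l.q, π.J (a • l.p + c • l.q)⟫| = (a ^ 2 + c ^ 2) * gp l π := by
    rw [gp, ← abs_of_pos hs, ← abs_mul]
    congr 1
    simp only [Pl.J, inner_add_left, inner_sub_left, inner_sub_right, real_inner_smul_left,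
      real_inner_smul_right]
    ring
  have hL := laplace_le b hjk hμ.mom (ξ := c • l.p - a • l.q) (π.inner_J (a • l.p + c • l.q))
  rw [hG, hv] at hL
  have hQ := Qm_pos b j hμ hx0
  have hP : 0 < Gm b j k μ l.p l.q := by
    refine Gm_pos b hjk hμ (LinearIndependent.pair_iff.2 fun s t h => ?_)
    have h1 := congrArg (fun z => ⟪z, l.p⟫) h
    have h2 := congrArg (fun z => ⟪z, l.q⟫) h
    simp only [inner_add_left, real_inner_smul_left, pp, qq, pq, qp, inner_zero_left] at h1 h2
    exact ⟨by linarith, by linarith⟩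
  have hM : 0 ≤ Mp b j k μ π := integral_nonneg fun _ => abs_nonneg _
  have h3 : gp l π * Qm b j μ (a • l.p + c • l.q) ≤
      ((Fintype.card ι : ℝ) - 1) * Hm μ (π.J (a • l.p + c • l.q)) * Gm b j k μ l.p l.q :=
    le_of_mul_le_mul_left (by linarith) hs
  rw [tp, Rp, div_le_div_iff₀ hP hQ]
  nlinarith [mul_le_mul_of_nonneg_left h3 hM]

end Pool.Agent.P.MP_181257_gt
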