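import Pool.Agent.P.MP_181257_gt.PdG4

set_option autoImplicit false
set_option linter.unusedSectionVars false
set_option linter.unusedVariables false

open MeasureTheory ProbabilityTheory Module Set Filter Topology Function
open scoped RealInnerProductSpace ENNReal Pointwise LinearAlgebra.Projectivization

noncomputable section

namespace Pool.Agent.P.MP_181257_gt

variable {V : Type} [NormedAddCommGroup V] [InnerProductSpace ℝ V] [FiniteDimensional ℝ V]
  [MeasurableSpace V] [BorelSpace V] {ι : Type} [Fintype ι] [DecidableEq ι]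

/-- the transition weight as a function of two vectors -/
def tz_PdG4b (b : Basis ι ℝ V) (j k : ι) (μ : Measure V) (π : Pl V) (z : V × V) : ℝ :=
  |⟪z.1, π.p⟫ * ⟪z.2, π.q⟫ - ⟪z.1, π.q⟫ * ⟪z.2, π.p⟫| * Mp b j k μ π / Gm b j k μ z.1 z.2

/-- one term of the sum -/
def tm_PdG4b (b : Basis ι ℝ V) (j k : ι) (μ : Measure V) (s : ℝ) (π : Pl V) (z : V × V) : ℝ :=
  tz_PdG4b b j k μ π z
    + s * min (Rp b j k μ π z.1 - tz_PdG4b b j k μ π z) (tz_PdG4b b j k μ π z)

/-- orthonormal pairs -/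
def fl_PdG4b (V : Type) [NormedAddCommGroup V] [InnerProductSpace ℝ V] : Set (V × V) :=
  {z | ‖z.1‖ = 1 ∧ ‖z.2‖ = 1 ∧ ⟪z.1, z.2⟫ = 0}

theorem compact_PdG4b : IsCompact (fl_PdG4b V) := by
  refine ((isCompact_sphere (0 : V) 1).prod (isCompact_sphere (0 : V) 1)).of_isClosed_subset ?_
    fun z hz => ⟨by simpa using hz.1, by simpa using hz.2.1⟩
  exact (isClosed_eq (by fun_prop) continuous_const).inter
    ((isClosed_eq (by fun_prop) continuous_const).inter
      (isClosed_eq (by fun_prop) continuous_const))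

theorem ne_PdG4b {z : V × V} (hz : z ∈ fl_PdG4b V) : z.1 ≠ 0 := fun h => by
  have h1 := hz.1
  rw [h, norm_zero] at h1
  exact zero_ne_one h1

theorem li_PdG4b {z : V × V} (hz : z ∈ fl_PdG4b V) : LinearIndependent ℝ ![z.1, z.2] := by
  obtain ⟨h1, h2, h3⟩ := hz
  refine LinearIndependent.pair_iff.2 fun a c h => ?_
  have e1 := congrArg (fun w => ⟪z.1, w⟫) h
  have e2 := congrArg (fun w => ⟪w, z.2⟫) h
  simp only [inner_add_right, inner_add_left, real_inner_smul_right, real_inner_smul_left,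
    real_inner_self_eq_norm_sq, h1, h2, h3, inner_zero_right, inner_zero_left] at e1 e2
  constructor <;> linarith

theorem min_nonneg_PdG4b (b : Basis ι ℝ V) {j k : ι} (hjk : j ≠ k) {μ : Measure V} (hμ : Good μ)
    (π : Pl V) {z : V × V} (hz : z ∈ fl_PdG4b V) : 0 ≤ tz_PdG4b b j k μ π z ∧
      0 ≤ min (Rp b j k μ π z.1 - tz_PdG4b b j k μ π z) (tz_PdG4b b j k μ π z) := by
  have h1 : 0 ≤ tz_PdG4b b j k μ π z :=
    div_nonneg (mul_nonneg (abs_nonneg _) (Mp_nonneg b j k μ π))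
      (Gm_pos b hjk hμ (li_PdG4b hz)).le
  have h2 := tp_le_Rp b hjk hμ ⟨z.1, z.2, hz.1, hz.2.1, hz.2.2⟩ π (x := z.1)
    (Submodule.subset_span (by simp)) (ne_PdG4b hz)
  exact ⟨h1, le_min (sub_nonneg.2 h2) h1⟩

theorem cont_PdG4b (b : Basis ι ℝ V) {j k : ι} (hjk : j ≠ k) {μ : Measure V} (hμ : Good μ)
    (s : ℝ) (π : Pl V) : ContinuousOn (tm_PdG4b b j k μ s π) (fl_PdG4b V) := by
  have h1 : ContinuousOn (tz_PdG4b b j k μ π) (fl_PdG4b V) :=
    ContinuousOn.div (Continuous.continuousOn (by fun_prop))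
      (continuous_Gm b hjk hμ.mom).continuousOn fun z hz => (Gm_pos b hjk hμ (li_PdG4b hz)).ne'
  have h2 : ContinuousOn (fun z : V × V => Rp b j k μ π z.1) (fl_PdG4b V) :=
    ContinuousOn.div (continuous_const.mul ((continuous_Hm hμ.mom).comp
      (π.continuous_J.comp continuous_fst))).continuousOn
      ((continuous_Qm b j hμ.mom).comp continuous_fst).continuousOn
      fun z hz => (Qm_pos b j hμ (ne_PdG4b hz)).ne'
  exact h1.add (continuousOn_const.mul
    (continuous_min.comp_continuousOn ((h2.sub h1).prodMk h1)))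

/-- a plane with a strict gain -/
theorem strict_PdG4b (b : Basis ι ℝ V) {j k : ι} (hjk : j ≠ k) {μ : Measure V} (hμ : Good μ)
    (ha : Atomic μ) (hs : csupp μ = univ) (hn : 3 ≤ Fintype.card ι) {T : Set (Pl V)}
    (hT : ∀ U : Submodule ℝ V, finrank ℝ U = 2 → Sp (atoms μ) Uᗮ → ∃ π ∈ T, π.sp = U)
    {z : V × V} (hz : z ∈ fl_PdG4b V) : ∃ π ∈ T,
      0 < min (Rp b j k μ π z.1 - tz_PdG4b b j k μ π z) (tz_PdG4b b j k μ π z) := by
  have hA := span_of_null hμ ha.null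
  let l : Pl V := ⟨z.1, z.2, hz.1, hz.2.1, hz.2.2⟩
  obtain ⟨W, hW, hc⟩ := exists_compl_sp hA l.sp
  have hW2 : finrank ℝ Wᗮ = 2 := by
    have h1 := Submodule.finrank_add_eq_of_isCompl hc
    have h2 := W.finrank_add_finrank_orthogonal
    have h3 := l.finrank_sp
    omega
  obtain ⟨π, hπ, hsp⟩ := hT Wᗮ hW2 (by rwa [Submodule.orthogonal_orthogonal])
  have ho : π.spᗮ = W := by rw [hsp, Submodule.orthogonal_orthogonal]
  have hg : gp l π ≠ 0 := (gp_ne_zero_iff l π).2 (by rw [ho]; exact hc.disjoint)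
  have hM : 0 < Mp b j k μ π := Mp_pos b hjk hμ (by rwa [ho])
  have hG := Gm_pos b hjk hμ (li_PdG4b hz)
  have hQ := Qm_pos b j hμ (ne_PdG4b hz)
  have he : |⟪z.2, π.J z.1⟫| = gp l π := by
    rw [Pl.J, inner_sub_right, real_inner_smul_right, real_inner_smul_right, abs_sub_comm]
    rfl
  have hv : π.J z.1 ≠ 0 := fun h => hg (by rw [← he, h, inner_zero_right, abs_zero])
  have hU : l.sp ≠ ⊤ := fun h => by
    have h3 := l.finrank_sp
    rw [h, finrank_top, finrank_eq_card_basis b] at h3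
    omega
  have hU' : (ℝ ∙ π.J z.1)ᗮ ≠ ⊤ := fun h =>
    hv (Submodule.span_singleton_eq_bot.1 (Submodule.orthogonal_eq_top_iff _ |>.1 h))
  obtain ⟨y, hy, hy1, hy2⟩ := exists_atom ha hs hU hU'
  have hi : LinearIndependent ℝ ![z.1, z.2, y] := by
    refine Fintype.linearIndependent_iff.2 fun g hg' => ?_
    simp only [Fin.sum_univ_three, Matrix.cons_val_zero, Matrix.cons_val_one,
      Matrix.cons_val_two, Matrix.head_cons, Matrix.tail_cons] at hg'
    have h2 : g 2 = 0 := by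
      by_contra h2
      refine hy1 ((l.sp.smul_mem_iff h2).1 ?_)
      rw [eq_neg_of_add_eq_zero_right hg']
      exact l.sp.neg_mem (Submodule.mem_span_pair.2 ⟨g 0, g 1, rfl⟩)
    rw [h2, zero_smul, add_zero] at hg'
    have h3 := LinearIndependent.pair_iff.1 (li_PdG4b hz) _ _ hg'
    intro i
    fin_cases i
    exacts [h3.1, h3.2, h2]
  have hl := laplace_lt b hjk hμ hA hn (π.inner_J z.1) hy
    (fun h => hy2 (Submodule.mem_orthogonal_singleton_iff_inner_left.2 h)) hi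
  rw [he] at hl
  have hg0 : 0 < gp l π := lt_of_le_of_ne (abs_nonneg _) hg.symm
  refine ⟨π, hπ, lt_min (sub_pos.2 ?_) (div_pos (mul_pos hg0 hM) hG)⟩
  change gp l π * Mp b j k μ π / Gm b j k μ z.1 z.2 < _
  rw [Rp, div_lt_div_iff₀ hG hQ]
  nlinarith [mul_lt_mul_of_pos_left hl hM]

theorem mono_PdG4b (b : Basis ι ℝ V) {j k : ι} (hjk : j ≠ k) {μ : Measure V} (hμ : Good μ)
    {s : ℝ} (hs0 : 0 < s) {J J' : Finset (Pl V)} (h : J ⊆ J') {z : V × V}
    (hz : z ∈ fl_PdG4b V) :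
    ∑ π ∈ J, tm_PdG4b b j k μ s π z ≤ ∑ π ∈ J', tm_PdG4b b j k μ s π z :=
  Finset.sum_le_sum_of_subset_of_nonneg h fun π _ _ =>
    add_nonneg (min_nonneg_PdG4b b hjk hμ π hz).1
      (mul_nonneg hs0.le (min_nonneg_PdG4b b hjk hμ π hz).2)

theorem Rp_smul_PdG4b (b : Basis ι ℝ V) (j k : ι) (μ : Measure V) (π : Pl V) {t : ℝ} (ht : t ≠ 0)
    (x : V) : Rp b j k μ π (t • x) = Rp b j k μ π x := by
  rw [Rp, Rp, Pl.J_smul, Hm_smul, Qm_smul, mul_left_comm _ |t|,
    mul_div_mul_left _ _ (abs_ne_zero.2 ht)]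

theorem rot_PdG4b (b : Basis ι ℝ V) {j k : ι} (hjk : j ≠ k) (μ : Measure V) (l : Pl V) {x : V}
    (hx : x ∈ l.sp) (h1 : ‖x‖ = 1) : ∃ ξ : V, (x, ξ) ∈ fl_PdG4b V ∧
      ∀ π : Pl V, tz_PdG4b b j k μ π (x, ξ) = tp b j k μ l π := by
  obtain ⟨a, c, rfl⟩ := Submodule.mem_span_pair.1 hx
  have hpq := l.hpq
  have hqp : ⟪l.q, l.p⟫ = 0 := by rw [real_inner_comm, hpq]
  have hp : ⟪l.p, l.p⟫ = 1 := by rw [real_inner_self_eq_norm_sq, l.hp, one_pow]
  have hq : ⟪l.q, l.q⟫ = 1 := by rw [real_inner_self_eq_norm_sq, l.hq, one_pow]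
  have hac : a ^ 2 + c ^ 2 = 1 := by
    have h2 := real_inner_self_eq_norm_sq (a • l.p + c • l.q)
    simp only [inner_add_right, inner_add_left, real_inner_smul_right, real_inner_smul_left,
      hpq, hqp, hp, hq, h1] at h2
    linarith
  have hξ : (-c) • l.p + a • l.q ∈ l.sp := Submodule.mem_span_pair.2 ⟨_, _, rfl⟩
  refine ⟨(-c) • l.p + a • l.q, ⟨h1, ?_, ?_⟩, fun π => ?_⟩
  · have h2 := real_inner_self_eq_norm_sq ((-c) • l.p + a • l.q)
    simp only [inner_add_right, inner_add_left, real_inner_smul_right, real_inner_smul_left,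
      hpq, hqp, hp, hq] at h2
    exact (pow_eq_one_iff_of_nonneg (norm_nonneg _) two_ne_zero).1 (by linarith)
  · simp only [inner_add_right, inner_add_left, real_inner_smul_right, real_inner_smul_left,
      hpq, hqp, hp, hq]
    ring
  · have hG : Gm b j k μ (a • l.p + c • l.q) ((-c) • l.p + a • l.q) = Gm b j k μ l.p l.q := by
      refine congrArg _ (funext fun y => ?_)
      rw [bdet_two b hjk l y hx hξ]
      simp only [inner_add_left, real_inner_smul_left, hpq, hqp, hp, hq]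
      refine congrArg _ ?_
      linear_combination (b.det (update (update y j l.p) k l.q)) * hac
    rw [tz_PdG4b, tp, gp, hG]
    simp only [inner_add_left, real_inner_smul_left]
    refine congrArg (fun r => |r| * _ / _) ?_
    linear_combination (⟪l.p, π.p⟫ * ⟪l.q, π.q⟫ - ⟪l.p, π.q⟫ * ⟪l.q, π.p⟫) * hac

/-- item (iii): a uniform gain on finitely many planes -/
theorem exists_gainP (b : Basis ι ℝ V) {j k : ι} (hjk : j ≠ k) {μ : Measure V} (hμ : Good μ)
    (ha : Atomic μ) (hs : csupp μ = univ) (hn : 3 ≤ Fintype.card ι) {s : ℝ} (hs0 : 0 < s)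
    (l₀ : Pl V) (h₀ : Sp (atoms μ) l₀.spᗮ) :
    ∃ (J : Finset (Pl V)) (δ : ℝ), 0 < δ ∧ InjOn Pl.sp (J : Set (Pl V)) ∧
      (∀ π ∈ J, Sp (atoms μ) π.spᗮ) ∧ (∃ π ∈ J, π.sp = l₀.sp) ∧
      ∀ (l : Pl V) (x : V), x ∈ l.sp → x ≠ 0 →
        1 + δ ≤ ∑ π ∈ J, (tp b j k μ l π
          + s * min (Rp b j k μ π x - tp b j k μ l π) (tp b j k μ l π)) := by
  classical
  obtain ⟨T, hT1, hT2, hT3, hT4⟩ := exists_planes b hjk hμ ha
  have key : ∃ J : Finset (Pl V), (J : Set (Pl V)) ⊆ T ∧ ∃ δ : ℝ, 0 < δ ∧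
      ∀ z ∈ fl_PdG4b V, z ∈ fl_PdG4b V → 1 + δ ≤ ∑ π ∈ J, tm_PdG4b b j k μ s π z := by
    refine compact_PdG4b.induction_on (p := fun S => ∃ J : Finset (Pl V), (J : Set (Pl V)) ⊆ T ∧
      ∃ δ : ℝ, 0 < δ ∧ ∀ z ∈ S, z ∈ fl_PdG4b V → 1 + δ ≤ ∑ π ∈ J, tm_PdG4b b j k μ s π z)
      ⟨∅, by simp, 1, one_pos, fun z hz => hz.elim⟩ ?_ ?_ ?_
    · rintro S S' hS ⟨J, h1, δ, h2, h3⟩
      exact ⟨J, h1, δ, h2, fun z hz => h3 z (hS hz)⟩
    · rintro S S' ⟨J, h1, δ, h2, h3⟩ ⟨J', h1', δ', h2', h3'⟩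
      refine ⟨J ∪ J', by rw [Finset.coe_union]; exact union_subset h1 h1', min δ δ',
        lt_min h2 h2', fun z hz hz' => ?_⟩
      rcases hz with hz | hz
      · exact (add_le_add le_rfl (min_le_left _ _)).trans ((h3 z hz hz').trans
          (mono_PdG4b b hjk hμ hs0 Finset.subset_union_left hz'))
      · exact (add_le_add le_rfl (min_le_right _ _)).trans ((h3' z hz hz').trans
          (mono_PdG4b b hjk hμ hs0 Finset.subset_union_right hz'))
    · intro z hz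
      obtain ⟨π₀, hπ₀, h0⟩ := strict_PdG4b b hjk hμ ha hs hn hT3 hz
      have hG := Gm_pos b hjk hμ (li_PdG4b hz)
      have hη := mul_pos hs0 h0
      set η := s * min (Rp b j k μ π₀ z.1 - tz_PdG4b b j k μ π₀ z) (tz_PdG4b b j k μ π₀ z)
        with hηd
      obtain ⟨J, hJ, h1⟩ := hT4 z.1 z.2 (η / 3 * Gm b j k μ z.1 z.2) (by positivity)
      have h2 : 1 - η / 3 ≤ ∑ π ∈ J, tz_PdG4b b j k μ π z := by
        simp only [tz_PdG4b]
        rw [← Finset.sum_div, le_div_iff₀ hG]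
        linarith
      have h3 : ∑ π ∈ J, tz_PdG4b b j k μ π z ≤ ∑ π ∈ insert π₀ J, tz_PdG4b b j k μ π z :=
        Finset.sum_le_sum_of_subset_of_nonneg (Finset.subset_insert _ _) fun π _ _ =>
          (min_nonneg_PdG4b b hjk hμ π hz).1
      have h4 : η ≤ ∑ π ∈ insert π₀ J,
          s * min (Rp b j k μ π z.1 - tz_PdG4b b j k μ π z) (tz_PdG4b b j k μ π z) :=
        Finset.single_le_sum (f := fun π => s * min (Rp b j k μ π z.1 - tz_PdG4b b j k μ π z)
          (tz_PdG4b b j k μ π z)) (fun π _ => mul_nonneg hs0.le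
            (min_nonneg_PdG4b b hjk hμ π hz).2) (Finset.mem_insert_self _ _)
      have h5 : 1 + η / 3 < ∑ π ∈ insert π₀ J, tm_PdG4b b j k μ s π z := by
        simp only [tm_PdG4b]
        rw [Finset.sum_add_distrib]
        linarith
      have h6 : ContinuousOn (fun z => ∑ π ∈ insert π₀ J, tm_PdG4b b j k μ s π z)
          (fl_PdG4b V) := continuousOn_finsetSum _ fun π _ => cont_PdG4b b hjk hμ s π
      refine ⟨_, (h6 z hz).eventually (lt_mem_nhds h5), insert π₀ J, ?_, η / 3, by positivity,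
        fun w hw _ => le_of_lt hw⟩
      rw [Finset.coe_insert]
      exact insert_subset hπ₀ hJ
  obtain ⟨J, hJ, δ, hδ, h⟩ := key
  obtain ⟨π₀, hπ₀, h0⟩ := hT3 l₀.sp l₀.finrank_sp h₀
  have hJ' : ((insert π₀ J : Finset (Pl V)) : Set (Pl V)) ⊆ T := by
    rw [Finset.coe_insert]
    exact insert_subset hπ₀ hJ
  refine ⟨insert π₀ J, δ, hδ, hT1.mono hJ', fun π hπ => hT2 π (hJ' hπ),
    ⟨π₀, Finset.mem_insert_self _ _, h0⟩, fun l x hx hx0 => ?_⟩
  have hn0 : ‖x‖⁻¹ ≠ 0 := inv_ne_zero (norm_ne_zero_iff.2 hx0)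
  obtain ⟨ξ, h1, h2⟩ := rot_PdG4b b hjk μ l (l.sp.smul_mem ‖x‖⁻¹ hx) (norm_smul_inv_norm hx0)
  refine ((h _ h1 h1).trans (mono_PdG4b b hjk hμ hs0 (Finset.subset_insert π₀ J) h1)).trans
    (Finset.sum_congr rfl fun π _ => ?_).le
  rw [tm_PdG4b, h2, Rp_smul_PdG4b b j k μ π hn0]

end Pool.Agent.P.MP_181257_gt
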