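import Pool.Agent.P.MP_181257_gt.PdDefs

set_option autoImplicit false
set_option linter.unusedSectionVars false
set_option linter.unusedVariables false

open MeasureTheory ProbabilityTheory Module Set Filter Topology Function
open scoped RealInnerProductSpace ENNReal Pointwise LinearAlgebra.Projectivization

noncomputable section

namespace Pool.Agent.P.MP_181257_gt

variable {V : Type} [NormedAddCommGroup V] [InnerProductSpace ℝ V] [FiniteDimensional ℝ V]
  [MeasurableSpace V] [BorelSpace V] {ι : Type} [Fintype ι] [DecidableEq ι]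

theorem Psi_nonneg {L s r : ℝ} (hL : 0 ≤ L) (hr : 0 ≤ r) : 0 ≤ Psi L s r :=
  le_min (mul_nonneg hL hr) (Real.rpow_nonneg hr s)

theorem Psi_mono {L s r r' : ℝ} (hL : 0 ≤ L) (hs : 0 ≤ s) (hr : 0 ≤ r) (h : r ≤ r') :
    Psi L s r ≤ Psi L s r' :=
  min_le_min (mul_le_mul_of_nonneg_left h hL) (Real.rpow_le_rpow hr h hs)

theorem Psi_scale {L s r ρ : ℝ} (hL : 0 ≤ L) (hs1 : s ≤ 1) (hr : 0 ≤ r) (hρ : 1 ≤ ρ) :
    ρ ^ s * Psi L s r ≤ Psi L s (ρ * r) := by
  have h0 : 0 ≤ ρ := zero_le_one.trans hρ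
  have h1 : ρ ^ s ≤ ρ := by
    have := Real.rpow_le_rpow_of_exponent_le hρ hs1
    rwa [Real.rpow_one] at this
  refine le_min ?_ ?_
  · calc ρ ^ s * Psi L s r ≤ ρ * (L * r) :=
          mul_le_mul h1 (min_le_left _ _) (Psi_nonneg hL hr) h0
      _ = L * (ρ * r) := by ring
  · rw [Real.mul_rpow h0 hr]
    exact mul_le_mul_of_nonneg_left (min_le_right _ _) (Real.rpow_nonneg h0 s)

theorem rpow_tangent_PdG5 {s r m : ℝ} (hs0 : 0 ≤ s) (hs1 : s ≤ 1) (hr : 0 ≤ r) (hm : 0 < m) :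
    r ^ s ≤ m ^ s * (1 - s) + s * (m ^ s / m) * r := by
  have h := rpow_one_add_le_one_add_mul_self (s := r / m - 1)
    (by have := div_nonneg hr hm.le; linarith) hs0 hs1
  have e : 1 + (r / m - 1) = r / m := by ring
  rw [e, Real.div_rpow hr hm.le, div_le_iff₀ (Real.rpow_pos_of_pos hm s)] at h
  refine h.trans_eq ?_
  field_simp
  ring

theorem Psi_jensen {I : Type} (T : Finset I) {w r : I → ℝ} {L s : ℝ} (hs0 : 0 < s) (hs1 : s ≤ 1)
    (hw : ∀ i ∈ T, 0 ≤ w i) (hr : ∀ i ∈ T, 0 ≤ r i) (hW : ∑ i ∈ T, w i ≤ 1) :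
    ∑ i ∈ T, w i * Psi L s (r i) ≤ Psi L s (∑ i ∈ T, w i * r i) := by
  refine le_min ?_ ?_
  · rw [Finset.mul_sum]
    refine Finset.sum_le_sum fun i hi => ?_
    calc w i * Psi L s (r i) ≤ w i * (L * r i) :=
          mul_le_mul_of_nonneg_left (min_le_left _ _) (hw i hi)
      _ = L * (w i * r i) := by ring
  · have h1 : ∑ i ∈ T, w i * Psi L s (r i) ≤ ∑ i ∈ T, w i * r i ^ s :=
      Finset.sum_le_sum fun i hi => mul_le_mul_of_nonneg_left (min_le_right _ _) (hw i hi)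
    refine h1.trans ?_
    set m := ∑ i ∈ T, w i * r i with hm
    have hm0 : 0 ≤ m := Finset.sum_nonneg fun i hi => mul_nonneg (hw i hi) (hr i hi)
    rcases hm0.eq_or_lt with h0 | h0
    · have h2 := (Finset.sum_eq_zero_iff_of_nonneg
        fun i hi => mul_nonneg (hw i hi) (hr i hi)).1 (hm.symm.trans h0.symm)
      refine le_trans (le_of_eq (Finset.sum_eq_zero fun i hi => ?_)) (Real.rpow_nonneg hm0 s)
      rcases mul_eq_zero.1 (h2 i hi) with e | e
      · rw [e, zero_mul]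
      · rw [e, Real.zero_rpow hs0.ne', mul_zero]
    · have hp := Real.rpow_pos_of_pos h0 s
      calc ∑ i ∈ T, w i * r i ^ s
          ≤ ∑ i ∈ T, (m ^ s * (1 - s) * w i + s * (m ^ s / m) * (w i * r i)) := by
            refine Finset.sum_le_sum fun i hi => ?_
            refine (mul_le_mul_of_nonneg_left (rpow_tangent_PdG5 hs0.le hs1 (hr i hi) h0)
              (hw i hi)).trans_eq ?_
            ring
        _ = m ^ s * (1 - s) * ∑ i ∈ T, w i + s * (m ^ s / m) * m := by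
            rw [Finset.sum_add_distrib, ← Finset.mul_sum, ← Finset.mul_sum]
        _ ≤ m ^ s * (1 - s) * 1 + s * (m ^ s / m) * m := by
            gcongr
        _ = m ^ s := by
            field_simp
            ring

theorem gain_PdG5 {s t R : ℝ} (hs0 : 0 ≤ s) (ht : 0 < t) (hR : t ≤ R) :
    t + s / 2 * min (R - t) t ≤ t * (R / t) ^ s := by
  set x := min (R / t) 2 with hx
  have h1 : 1 ≤ R / t := (one_le_div ht).2 hR
  have hx1 : 1 ≤ x := le_min h1 (by norm_num)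
  have hx2 : x ≤ 2 := min_le_right _ _
  have hx0 : 0 < x := by linarith
  have e : min (R - t) t = t * (x - 1) := by
    rcases le_total (R / t) 2 with h | h
    · rw [hx, min_eq_left h, min_eq_left]
      · field_simp
      · rw [div_le_iff₀ ht] at h
        linarith
    · rw [hx, min_eq_right h, min_eq_right]
      · ring
      · rw [le_div_iff₀ ht] at h
        linarith
  have h2 : x ^ s ≤ (R / t) ^ s := Real.rpow_le_rpow hx0.le (min_le_left _ _) hs0
  have h3 : 1 + s * Real.log x ≤ x ^ s := by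
    rw [Real.rpow_def_of_pos hx0]
    have := Real.add_one_le_exp (Real.log x * s)
    linarith
  have h4 : (x - 1) / 2 ≤ Real.log x := by
    refine le_trans ?_ (Real.one_sub_inv_le_log_of_pos hx0)
    have : 1 - x⁻¹ = (x - 1) / x := by field_simp
    rw [this]
    exact div_le_div_of_nonneg_left (by linarith) hx0 hx2
  have h5 := mul_le_mul_of_nonneg_left h4 hs0
  rw [e]
  have h6 : 1 + s / 2 * (x - 1) ≤ (R / t) ^ s := by linarith
  have := mul_le_mul_of_nonneg_left h6 ht.le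
  linarith

/-- item (iv): the abstract double counting -/
theorem core_half {P I J : Type} (I₀ : Finset I) (J₀ : Finset J) (X : I → Set P) (Y : J → Set P)
    (a b : P → ℝ) (β : I → ℝ) (α : J → ℝ) (τ : I → J → ℝ) (σ : I → P → P) (R : J → P → ℝ)
    (Ex : Finset P) {Z s δ L : ℝ} (hs0 : 0 < s) (hs1 : s ≤ 1) (hδ : 0 ≤ δ) (hL : 0 ≤ L)
    (ha : ∀ x, 0 ≤ a x ∧ a x ≤ Z) (hβ : ∀ i ∈ I₀, 0 < β i) (hα : ∀ j ∈ J₀, 0 < α j)
    (hτ : ∀ i j, 0 ≤ τ i j) (hsum : ∀ j ∈ J₀, ∑ i ∈ I₀, τ i j ≤ α j)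
    (hσ : ∀ i ∈ I₀, ∀ j ∈ J₀, τ i j ≠ 0 → BijOn (σ i) (Y j) (X i))
    (hEx : ∀ i ∈ I₀, ∀ i' ∈ I₀, i ≠ i' → ∀ x, x ∈ X i → x ∈ X i' → x ∈ Ex)
    (hb : ∀ j ∈ J₀, ∀ v ∈ Y j, ∀ S : Finset P,
      (∀ x ∈ S, ∃ i ∈ I₀, τ i j ≠ 0 ∧ x = σ i v) → ∑ x ∈ S, R j x * a x ≤ b v)
    (hR : ∀ i ∈ I₀, ∀ j ∈ J₀, ∀ x ∈ X i, τ i j / β i ≤ R j x)
    (hg : ∀ i ∈ I₀, ∀ x ∈ X i,
      1 + δ ≤ ∑ j ∈ J₀, (τ i j / β i + s / 2 * min (R j x - τ i j / β i) (τ i j / β i))) :
    ENNReal.ofReal (1 + δ) *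
        ∑ i ∈ I₀, ENNReal.ofReal (β i) * ∑' x : X i, ENNReal.ofReal (Psi L s (a x / β i))
      ≤ ∑ j ∈ J₀, ENNReal.ofReal (α j) * ∑' v : Y j, ENNReal.ofReal (Psi L s (b v / α j))
        + ENNReal.ofReal ((1 + δ) * ∑ i ∈ I₀, β i * (Ex.card * (Z / β i) ^ s)) := by
  classical
  set c : I → J → P → ℝ := fun i j x => if τ i j ≠ 0 ∧ x ∉ Ex then
    τ i j * ((R j x / (τ i j / β i)) ^ s * Psi L s (a x / β i)) else 0 with hc
  have hP : ∀ i ∈ I₀, ∀ x, 0 ≤ Psi L s (a x / β i) := fun i hi x =>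
    Psi_nonneg hL (div_nonneg (ha x).1 (hβ i hi).le)
  have hρ : ∀ i ∈ I₀, ∀ j ∈ J₀, τ i j ≠ 0 → ∀ x ∈ X i, 1 ≤ R j x / (τ i j / β i) :=
    fun i hi j hj h x hx =>
      (one_le_div (div_pos ((hτ i j).lt_of_ne' h) (hβ i hi))).2 (hR i hi j hj x hx)
  have hc0 : ∀ i ∈ I₀, ∀ j ∈ J₀, ∀ x, (τ i j ≠ 0 → x ∈ X i) → 0 ≤ c i j x := by
    intro i hi j hj x hx
    simp only [hc]
    split_ifs with h
    · exact mul_nonneg (hτ i j) (mul_nonneg (Real.rpow_nonneg
        (zero_le_one.trans (hρ i hi j hj h.1 x (hx h.1))) s) (hP i hi x))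
    · exact le_rfl
  have hA : ∀ j ∈ J₀, ∀ v ∈ Y j, ∑ i ∈ I₀, c i j (σ i v) ≤ α j * Psi L s (b v / α j) := by
    intro j hj v hv
    set T := I₀.filter fun i => τ i j ≠ 0 ∧ σ i v ∉ Ex with hT
    have hTm : ∀ i ∈ T, i ∈ I₀ ∧ τ i j ≠ 0 ∧ σ i v ∉ Ex := fun i hi => Finset.mem_filter.1 hi
    have hX : ∀ i ∈ T, σ i v ∈ X i := fun i hi =>
      (hσ i (hTm i hi).1 j hj (hTm i hi).2.1).mapsTo hv
    have hα0 := hα j hj
    have hinj : ∀ i ∈ T, ∀ i' ∈ T, σ i v = σ i' v → i = i' := fun i hi i' hi' e => by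
      by_contra hne
      exact (hTm i hi).2.2 (hEx i (hTm i hi).1 i' (hTm i' hi').1 hne _ (hX i hi) (e ▸ hX i' hi'))
    have h1 := hb j hj v hv (T.image fun i => σ i v) fun x hx => by
      obtain ⟨i, hi, rfl⟩ := Finset.mem_image.1 hx
      exact ⟨i, (hTm i hi).1, (hTm i hi).2.1, rfl⟩
    rw [Finset.sum_image hinj] at h1
    have hr : ∀ i ∈ T, 0 ≤ R j (σ i v) / (τ i j / β i) * (a (σ i v) / β i) := fun i hi =>
      mul_nonneg (zero_le_one.trans (hρ i (hTm i hi).1 j hj (hTm i hi).2.1 _ (hX i hi)))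
        (div_nonneg (ha _).1 (hβ i (hTm i hi).1).le)
    have h2 := Psi_jensen T (w := fun i => τ i j / α j)
      (r := fun i => R j (σ i v) / (τ i j / β i) * (a (σ i v) / β i)) (L := L) hs0 hs1
      (fun i _ => div_nonneg (hτ i j) hα0.le) hr (by
        rw [← Finset.sum_div, div_le_one hα0]
        exact (Finset.sum_le_sum_of_subset_of_nonneg (Finset.filter_subset _ _)
          fun i _ _ => hτ i j).trans (hsum j hj))
    have h3 : ∑ i ∈ T, τ i j / α j * (R j (σ i v) / (τ i j / β i) * (a (σ i v) / β i))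
        = (∑ i ∈ T, R j (σ i v) * a (σ i v)) / α j := by
      rw [Finset.sum_div]
      refine Finset.sum_congr rfl fun i hi => ?_
      have := (hTm i hi).2.1
      have := (hβ i (hTm i hi).1).ne'
      field_simp
    have h4 : Psi L s (∑ i ∈ T, τ i j / α j * (R j (σ i v) / (τ i j / β i) * (a (σ i v) / β i)))
        ≤ Psi L s (b v / α j) := by
      refine Psi_mono hL hs0.le (Finset.sum_nonneg fun i hi =>
        mul_nonneg (div_nonneg (hτ i j) hα0.le) (hr i hi)) ?_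
      rw [h3]
      exact div_le_div_of_nonneg_right h1 hα0.le
    refine le_trans ?_ (mul_le_mul_of_nonneg_left (h2.trans h4) hα0.le)
    simp only [hc]
    rw [← Finset.sum_filter, Finset.mul_sum]
    refine Finset.sum_le_sum fun i hi => ?_
    have h5 := Psi_scale (s := s) hL hs1 (div_nonneg (ha (σ i v)).1 (hβ i (hTm i hi).1).le)
      (hρ i (hTm i hi).1 j hj (hTm i hi).2.1 _ (hX i hi))
    refine (mul_le_mul_of_nonneg_left h5 (hτ i j)).trans_eq ?_
    field_simp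
  have hB : ∀ i ∈ I₀, ∀ j ∈ J₀, ∑' x : X i, ENNReal.ofReal (c i j x)
      = ∑' v : Y j, ENNReal.ofReal (c i j (σ i v)) := by
    intro i hi j hj
    by_cases h : τ i j = 0
    · simp [hc, h]
    · exact ((hσ i hi j hj h).equiv.tsum_eq fun x : X i => ENNReal.ofReal (c i j x)).symm
  have hC : ∀ i ∈ I₀, ∀ x ∈ X i, (1 + δ) * (β i * Psi L s (a x / β i))
      ≤ ∑ j ∈ J₀, c i j x + if x ∈ Ex then (1 + δ) * (β i * (Z / β i) ^ s) else 0 := by
    intro i hi x hx
    have hβ0 := hβ i hi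
    split_ifs with h
    · have h1 : 0 ≤ ∑ j ∈ J₀, c i j x := Finset.sum_nonneg fun j hj => hc0 i hi j hj x fun _ => hx
      have h2 : Psi L s (a x / β i) ≤ (Z / β i) ^ s := (min_le_right _ _).trans
        (Real.rpow_le_rpow (div_nonneg (ha x).1 hβ0.le)
          (div_le_div_of_nonneg_right (ha x).2 hβ0.le) hs0.le)
      have h3 : (1 + δ) * (β i * Psi L s (a x / β i)) ≤ (1 + δ) * (β i * (Z / β i) ^ s) := by
        gcongr
      linarith
    · rw [add_zero]
      refine (mul_le_mul_of_nonneg_right (hg i hi x hx) (mul_nonneg hβ0.le (hP i hi x))).trans ?_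
      rw [Finset.sum_mul]
      refine Finset.sum_le_sum fun j hj => ?_
      by_cases h0 : τ i j = 0
      · have h1 := hR i hi j hj x hx
        simp only [hc, h0, zero_div, sub_zero] at h1 ⊢
        rw [min_eq_right h1]
        simp
      · have h1 := gain_PdG5 hs0.le (div_pos ((hτ i j).lt_of_ne' h0) hβ0) (hR i hi j hj x hx)
        refine (mul_le_mul_of_nonneg_right h1 (mul_nonneg hβ0.le (hP i hi x))).trans_eq ?_
        simp only [hc]
        rw [if_pos ⟨h0, h⟩]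
        field_simp
  have hZ : ∀ i ∈ I₀, 0 ≤ β i * (Ex.card * (Z / β i) ^ s) := by
    intro i hi
    rcases Ex.eq_empty_or_nonempty with e | ⟨x, -⟩
    · simp [e]
    · have := hβ i hi
      have := Real.rpow_nonneg (div_nonneg ((ha x).1.trans (ha x).2) (hβ i hi).le) s
      positivity
  have hD : ∀ i ∈ I₀, ENNReal.ofReal (1 + δ) *
      (ENNReal.ofReal (β i) * ∑' x : X i, ENNReal.ofReal (Psi L s (a x / β i)))
      ≤ ∑ j ∈ J₀, ∑' x : X i, ENNReal.ofReal (c i j x)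
        + ENNReal.ofReal ((1 + δ) * (β i * (Ex.card * (Z / β i) ^ s))) := by
    intro i hi
    have hβ0 := hβ i hi
    rw [← ENNReal.tsum_mul_left, ← ENNReal.tsum_mul_left,
      ← Summable.tsum_finsetSum fun _ _ => ENNReal.summable]
    have h1 : ∑' x : X i, ENNReal.ofReal (if (x : P) ∈ Ex then (1 + δ) * (β i * (Z / β i) ^ s)
        else 0) ≤ ENNReal.ofReal ((1 + δ) * (β i * (Ex.card * (Z / β i) ^ s))) := by
      refine (ENNReal.tsum_comp_le_tsum_of_injective Subtype.val_injective fun x : P =>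
        ENNReal.ofReal (if x ∈ Ex then (1 + δ) * (β i * (Z / β i) ^ s) else 0)).trans ?_
      rw [tsum_eq_sum (s := Ex) fun x hx => by simp [hx],
        Finset.sum_congr rfl fun x hx => by rw [if_pos hx], Finset.sum_const, nsmul_eq_mul,
        ← ENNReal.ofReal_natCast, ← ENNReal.ofReal_mul (Nat.cast_nonneg _)]
      exact ENNReal.ofReal_le_ofReal (le_of_eq (by ring))
    refine le_trans ?_ (add_le_add le_rfl h1)
    rw [← ENNReal.tsum_add]
    refine ENNReal.tsum_le_tsum fun x => ?_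
    rw [← ENNReal.ofReal_mul hβ0.le, ← ENNReal.ofReal_mul (by linarith),
      ← ENNReal.ofReal_sum_of_nonneg fun j hj => hc0 i hi j hj x fun _ => x.2]
    exact (ENNReal.ofReal_le_ofReal (hC i hi x x.2)).trans ENNReal.ofReal_add_le
  rw [Finset.mul_sum]
  refine (Finset.sum_le_sum hD).trans ?_
  rw [Finset.sum_add_distrib, Finset.sum_comm, Finset.mul_sum,
    ENNReal.ofReal_sum_of_nonneg fun i hi => mul_nonneg (by linarith) (hZ i hi)]
  refine add_le_add (Finset.sum_le_sum fun j hj => ?_) le_rfl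
  rw [Finset.sum_congr rfl fun i hi => hB i hi j hj,
    ← Summable.tsum_finsetSum fun _ _ => ENNReal.summable, ← ENNReal.tsum_mul_left]
  refine ENNReal.tsum_le_tsum fun v => ?_
  rw [← ENNReal.ofReal_mul (hα j hj).le, ← ENNReal.ofReal_sum_of_nonneg fun i hi =>
    hc0 i hi j hj _ fun h => (hσ i hi j hj h).mapsTo v.2]
  exact ENNReal.ofReal_le_ofReal (hA j hj v v.2)

end Pool.Agent.P.MP_181257_gt
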