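import Pool.Agent.P.MP_181257_gt.PdG5

set_option autoImplicit false
set_option linter.unusedSectionVars false
set_option linter.unusedVariables false

open MeasureTheory ProbabilityTheory Module Set Filter Topology Function
open scoped RealInnerProductSpace ENNReal Pointwise LinearAlgebra.Projectivization

noncomputable section

namespace Pool.Agent.P.MP_181257_gt

variable {V : Type} [NormedAddCommGroup V] [InnerProductSpace ℝ V] [FiniteDimensional ℝ V]
  [MeasurableSpace V] [BorelSpace V] {ι : Type} [Fintype ι] [DecidableEq ι]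

/-- from the two inequalities to a bound on finite sums of powers -/
theorem core_end {P : Type} (X : Set P) (a : P → ℝ) (ha : ∀ x, 0 ≤ a x) {β s δ δ' C C' : ℝ}
    (hβ : 0 < β) (hs0 : 0 < s) (hs1 : s ≤ 1) (hδ : 0 < δ) (hδ' : 0 ≤ δ') (F G : ℝ → ℝ≥0∞)
    (hF : ∀ L, 0 ≤ L → F L ≠ ∞)
    (h1 : ∀ L, 0 ≤ L → ENNReal.ofReal (1 + δ) * F L ≤ G L + ENNReal.ofReal C)
    (h2 : ∀ L, 0 ≤ L → ENNReal.ofReal (1 + δ') * G L ≤ F L + ENNReal.ofReal C')
    (h3 : ∀ L, 0 ≤ L →
      ENNReal.ofReal β * ∑' x : X, ENNReal.ofReal (Psi L s (a x / β)) ≤ F L) :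
    ∃ B : ℝ, ∀ S : Finset P, (S : Set P) ⊆ X → ∑ x ∈ S, a x ^ s ≤ B := by
  have key : ∀ L, 0 ≤ L → F L ≤ ENNReal.ofReal ((max C 0 + max C' 0) / δ) := by
    intro L hL
    have g1 : G L ≤ F L + ENNReal.ofReal C' := by
      refine le_trans ?_ (h2 L hL)
      refine le_mul_of_one_le_left' ?_
      rw [← ENNReal.ofReal_one]
      exact ENNReal.ofReal_le_ofReal (by linarith)
    have g2 : ENNReal.ofReal (1 + δ) * F L ≤
        F L + ENNReal.ofReal (max C' 0) + ENNReal.ofReal (max C 0) := by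
      refine (h1 L hL).trans (add_le_add (g1.trans (add_le_add le_rfl ?_)) ?_)
      · exact ENNReal.ofReal_le_ofReal (le_max_left _ _)
      · exact ENNReal.ofReal_le_ofReal (le_max_left _ _)
    rw [← ENNReal.ofReal_toReal (hF L hL)] at g2 ⊢
    have f0 : 0 ≤ (F L).toReal := ENNReal.toReal_nonneg
    have m1 : 0 ≤ max C 0 := le_max_right _ _
    have m2 : 0 ≤ max C' 0 := le_max_right _ _
    rw [← ENNReal.ofReal_mul (by linarith), ← ENNReal.ofReal_add f0 m2,
      ← ENNReal.ofReal_add (by linarith) m1, ENNReal.ofReal_le_ofReal_iff (by linarith)] at g2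
    refine ENNReal.ofReal_le_ofReal ?_
    rw [le_div_iff₀ hδ]
    linarith
  refine ⟨β ^ s * ((max C 0 + max C' 0) / δ / β), fun S hS => ?_⟩
  have r0 : ∀ x, 0 ≤ a x / β := fun x => div_nonneg (ha x) hβ.le
  set L : ℝ := ∑ x ∈ S, (a x / β) ^ (s - 1) with hLdef
  have hL : 0 ≤ L := Finset.sum_nonneg fun x _ => Real.rpow_nonneg (r0 x) _
  have hP : ∀ x ∈ S, Psi L s (a x / β) = (a x / β) ^ s := by
    intro x hx
    refine min_eq_right ?_
    rcases (r0 x).eq_or_lt with h0 | h0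
    · rw [← h0, Real.zero_rpow hs0.ne', mul_zero]
    · have e1 : (a x / β) ^ s = (a x / β) ^ (s - 1) * (a x / β) := by
        rw [← Real.rpow_add_one h0.ne', sub_add_cancel]
      rw [e1]
      exact mul_le_mul_of_nonneg_right (Finset.single_le_sum
        (f := fun x => (a x / β) ^ (s - 1)) (fun x _ => Real.rpow_nonneg (r0 x) _) hx) h0.le
  have b1 : ∑ x ∈ S, ENNReal.ofReal (Psi L s (a x / β)) ≤
      ∑' x : X, ENNReal.ofReal (Psi L s (a x / β)) := by
    rw [← Finset.tsum_subtype' S fun x => ENNReal.ofReal (Psi L s (a x / β))]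
    exact ENNReal.tsum_mono_subtype (fun x => ENNReal.ofReal (Psi L s (a x / β))) hS
  have b2 : ENNReal.ofReal (β * ∑ x ∈ S, (a x / β) ^ s) ≤
      ENNReal.ofReal ((max C 0 + max C' 0) / δ) := by
    refine le_trans ?_ ((h3 L hL).trans (key L hL))
    rw [ENNReal.ofReal_mul hβ.le,
      ENNReal.ofReal_sum_of_nonneg fun x _ => Real.rpow_nonneg (r0 x) _]
    refine mul_le_mul_right (le_trans (le_of_eq ?_) b1) _
    exact Finset.sum_congr rfl fun x hx => by rw [hP x hx]
  have m0 : 0 ≤ (max C 0 + max C' 0) / δ :=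
    div_nonneg (add_nonneg (le_max_right _ _) (le_max_right _ _)) hδ.le
  rw [ENNReal.ofReal_le_ofReal_iff m0] at b2
  have e2 : ∑ x ∈ S, a x ^ s = β ^ s * ∑ x ∈ S, (a x / β) ^ s := by
    rw [Finset.mul_sum]
    refine Finset.sum_congr rfl fun x _ => ?_
    rw [← Real.mul_rpow hβ.le (r0 x), mul_div_cancel₀ _ hβ.ne']
  rw [e2]
  refine mul_le_mul_of_nonneg_left ?_ (Real.rpow_nonneg hβ.le _)
  rw [le_div_iff₀ hβ]
  linarith

end Pool.Agent.P.MP_181257_gt
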