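import Pool.Agent.P.MP_181257_gt.PdG4

set_option autoImplicit false
set_option linter.unusedSectionVars false
set_option linter.unusedVariables false

open MeasureTheory ProbabilityTheory Module Set Filter Topology Function
open scoped RealInnerProductSpace ENNReal Pointwise LinearAlgebra.Projectivization

noncomputable section

namespace Pool.Agent.P.MP_181257_gt

variable {V : Type} [NormedAddCommGroup V] [InnerProductSpace ℝ V] [FiniteDimensional ℝ V]
  [MeasurableSpace V] [BorelSpace V] {ι : Type} [Fintype ι] [DecidableEq ι]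

theorem tp_pos_PdG6 (b : Basis ι ℝ V) {j k : ι} (hjk : j ≠ k) {μ : Measure V} (hμ : Good μ)
    {l π : Pl V} (hg : gp l π ≠ 0) (hs : Sp (atoms μ) π.spᗮ) : 0 < tp b j k μ l π := by
  have h1 : 0 < gp l π := lt_of_le_of_ne (abs_nonneg _) hg.symm
  have h2 := Mp_pos b hjk hμ hs
  have h3 : LinearIndependent ℝ ![l.p, l.q] := by
    refine LinearIndependent.pair_iff.2 fun s t hst => ?_
    have e1 := congrArg (fun z => ⟪l.p, z⟫) hst
    have e2 := congrArg (fun z => ⟪z, l.q⟫) hst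
    simp only [inner_add_right, inner_add_left, real_inner_smul_right, real_inner_smul_left,
      real_inner_self_eq_norm_sq, l.hp, l.hq, l.hpq, inner_zero_right, inner_zero_left] at e1 e2
    constructor <;> linarith
  exact div_pos (mul_pos h1 h2) (Gm_pos b hjk hμ h3)

theorem one_PdG6 (b : Basis ι ℝ V) {j k : ι} (hjk : j ≠ k) {μ ν : Measure V} (h : Pair μ ν)
    (l π : Pl V) {x v : ℙ ℝ V} (hx : x.rep ∈ l.sp) (h0 : π.J x.rep ≠ 0)
    (hv : π.J x.rep ∈ v.submodule) : tp b j k μ l π * aL μ ν x ≤ aL ν μ v := by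
  have h1 := sum_Rp_le b hjk h π v {x} (fun y hy => by
    rw [Finset.mem_singleton.1 hy]; exact ⟨h0, hv⟩)
  rw [Finset.sum_singleton] at h1
  exact (mul_le_mul_of_nonneg_right (tp_le_Rp b hjk h.gl l π hx x.rep_nonzero)
    (aL_nonneg μ ν x)).trans h1

theorem step_aL {μ ν : Measure V} (h : Pair μ ν) (hn : 2 ≤ finrank ℝ V)
    (hcl : Cl (atoms μ) (atoms ν))
    {l l' W : Submodule ℝ V} (hl : finrank ℝ l = 2) (hl' : finrank ℝ l' = 2)
    (hsl' : Sp (atoms μ) l') (hW : Sp (atoms μ) W) (hc : IsCompl l W) (hc' : IsCompl l' W) :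
    ∃ c : ℝ, 0 < c ∧ ∀ x x' : ℙ ℝ V, x.rep ∈ l → x'.rep ∈ l' → x'.rep ∈ x.submodule ⊔ W →
      c * aL μ ν x ≤ aL μ ν x' := by
  let b := Module.finBasis ℝ V
  let j : Fin (finrank ℝ V) := ⟨0, by omega⟩
  let k : Fin (finrank ℝ V) := ⟨1, by omega⟩
  have hjk : j ≠ k := by simp [j, k]
  have hWo : finrank ℝ Wᗮ = 2 := by
    have e1 := Submodule.finrank_add_finrank_orthogonal W
    have e2 := Submodule.finrank_add_eq_of_isCompl hc
    omega
  obtain ⟨P, rfl⟩ := exists_Pl hl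
  obtain ⟨P', rfl⟩ := exists_Pl hl'
  obtain ⟨π, hπ⟩ := exists_Pl hWo
  have hπ' : π.spᗮ = W := by rw [hπ, Submodule.orthogonal_orthogonal]
  have g1 : gp P π ≠ 0 := (gp_ne_zero_iff P π).2 (hπ' ▸ hc.disjoint)
  have g2 : gp π P' ≠ 0 := gp_comm P' π ▸ (gp_ne_zero_iff P' π).2 (hπ' ▸ hc'.disjoint)
  have t1 := tp_pos_PdG6 b hjk h.gl g1 (hπ' ▸ hW)
  have t2 := tp_pos_PdG6 b hjk h.gr g2 (hcl.orth hsl')
  refine ⟨_, mul_pos t2 t1, fun x x' hx hx' hxx => ?_⟩
  have n1 : π.J x.rep ≠ 0 := fun h0 => x.rep_nonzero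
    ((Submodule.disjoint_def.1 hc.disjoint) _ hx (hπ' ▸ (π.J_eq_zero_iff _).1 h0))
  obtain ⟨a, ha⟩ := Projectivization.exists_smul_eq_mk_rep ℝ (π.J x.rep) n1
  set v := Projectivization.mk ℝ (π.J x.rep) n1 with hv
  have m1 : v.rep ∈ π.sp := ha ▸ π.sp.smul_mem (a : ℝ) (π.J_mem _)
  have s1 := one_PdG6 b hjk h P π (v := v) hx n1 (by
    rw [hv, Projectivization.submodule_mk]; exact Submodule.mem_span_singleton_self _)
  have n2 : P'.J v.rep ≠ 0 := fun h0 => v.rep_nonzero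
    ((Submodule.disjoint_def.1 ((gp_ne_zero_iff π P').1 g2)) _ m1 ((P'.J_eq_zero_iff _).1 h0))
  have o1 : ⟪x'.rep, v.rep⟫ = 0 := by
    obtain ⟨y, hy, w, hw, he⟩ := Submodule.mem_sup.1 hxx
    rw [Projectivization.submodule_eq] at hy
    obtain ⟨s, rfl⟩ := Submodule.mem_span_singleton.1 hy
    have o2 : ⟪w, v.rep⟫ = 0 := Submodule.inner_right_of_mem_orthogonal hw (hπ ▸ m1)
    have o3 : ⟪x.rep, v.rep⟫ = 0 := by
      rw [← ha, Units.smul_def, real_inner_smul_right, π.inner_J, mul_zero]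
    rw [← he, inner_add_left, real_inner_smul_left, o2, o3, mul_zero, add_zero]
  obtain ⟨s, hs⟩ := Submodule.mem_span_singleton.1 (P'.mem_span_J n2 hx' o1)
  have hs0 : s ≠ 0 := fun h0 => x'.rep_nonzero (by rw [← hs, h0, zero_smul])
  have s2 := one_PdG6 b hjk h.symm π P' (v := x') m1 n2 (by
    rw [Projectivization.submodule_eq]
    exact Submodule.mem_span_singleton.2 ⟨s⁻¹, by rw [← hs, inv_smul_smul₀ hs0]⟩)
  rw [mul_assoc]
  exact (mul_le_mul_of_nonneg_left s1 t2.le).trans s2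

end Pool.Agent.P.MP_181257_gt
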