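import Pool.Agent.P.MP_181257_gt.PdG6

set_option autoImplicit false
set_option linter.unusedSectionVars false
set_option linter.unusedVariables false

open MeasureTheory ProbabilityTheory Module Set Filter Topology Function
open scoped RealInnerProductSpace ENNReal Pointwise LinearAlgebra.Projectivization

noncomputable section

namespace Pool.Agent.P.MP_181257_gt

variable {V : Type} [NormedAddCommGroup V] [InnerProductSpace ℝ V] [FiniteDimensional ℝ V]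
  [MeasurableSpace V] [BorelSpace V] {ι : Type} [Fintype ι] [DecidableEq ι]

theorem one_PdG6b (y : V) : finrank ℝ (ℝ ∙ y : Submodule ℝ V) ≤ 1 := by
  simpa using finrank_span_le_card (R := ℝ) ({y} : Set V)

theorem compl_PdG6b {U W₀ : Submodule ℝ V} (hU : finrank ℝ U = 3) (hc : IsCompl U W₀) {u v y : V}
    (h : U ≤ Submodule.span ℝ {u, v} ⊔ ℝ ∙ y) :
    finrank ℝ (Submodule.span ℝ {u, v} : Submodule ℝ V) = 2 ∧
      IsCompl (Submodule.span ℝ {u, v}) ((ℝ ∙ y) ⊔ W₀) := by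
  have h1 : finrank ℝ (Submodule.span ℝ {u, v} : Submodule ℝ V) ≤ 2 := by
    rw [Submodule.span_insert]
    have := Submodule.finrank_add_le_finrank_add_finrank (ℝ ∙ u) (ℝ ∙ v)
    have := one_PdG6b u
    have := one_PdG6b v
    omega
  have h2 : finrank ℝ ((ℝ ∙ y) ⊔ W₀ : Submodule ℝ V) ≤ 1 + finrank ℝ W₀ := by
    have := Submodule.finrank_add_le_finrank_add_finrank (ℝ ∙ y) W₀
    have := one_PdG6b y
    omega
  have h3 : Submodule.span ℝ {u, v} ⊔ ((ℝ ∙ y) ⊔ W₀) = ⊤ := by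
    rw [← sup_assoc, eq_top_iff, ← hc.sup_eq_top]
    exact sup_le_sup_right h _
  have h4 := Submodule.finrank_add_eq_of_isCompl hc
  have h5 := Submodule.finrank_sup_add_finrank_inf_eq (Submodule.span ℝ {u, v}) ((ℝ ∙ y) ⊔ W₀)
  rw [h3, finrank_top] at h5
  refine ⟨by omega, ?_, codisjoint_iff.mpr h3⟩
  rw [disjoint_iff, ← Submodule.finrank_eq_zero]
  omega

theorem pair_PdG6b {u v e : V} (a b : ℝ) (h : e = a • u + b • v) :
    e ∈ Submodule.span ℝ ({u, v} : Set V) := Submodule.mem_span_pair.mpr ⟨a, b, h.symm⟩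

theorem mem_PdG6b {u v y e : V} (a b c : ℝ) (h : e = a • u + b • v + c • y) :
    e ∈ Submodule.span ℝ ({u, v} : Set V) ⊔ ℝ ∙ y := by
  rw [h]
  exact Submodule.add_mem_sup (pair_PdG6b a b rfl)
    (Submodule.smul_mem _ _ (Submodule.mem_span_singleton_self y))

theorem le_PdG6b {e₁ e₂ e₃ : V} {T : Submodule ℝ V} (h1 : e₁ ∈ T) (h2 : e₂ ∈ T) (h3 : e₃ ∈ T) :
    Submodule.span ℝ (range ![e₁, e₂, e₃]) ≤ T := by
  rw [Submodule.span_le]
  rintro _ ⟨i, rfl⟩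
  fin_cases i
  · exact h1
  · exact h2
  · exact h3

theorem sp_pair_PdG6b {A : Set V} {u v : V} (hu : u ∈ A) (hv : v ∈ A) :
    Sp A (Submodule.span ℝ {u, v}) := by
  refine Submodule.span_mono ?_
  rintro z (rfl | rfl)
  · exact ⟨hu, Submodule.subset_span (Or.inl rfl)⟩
  · exact ⟨hv, Submodule.subset_span (Or.inr rfl)⟩

theorem sp_sup_PdG6b {A : Set V} {y : V} {W₀ : Submodule ℝ V} (hy : y ∈ A) (hW : Sp A W₀) :
    Sp A ((ℝ ∙ y) ⊔ W₀) := by
  refine sup_le ?_ (hW.trans (Submodule.span_mono ?_))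
  · rw [Submodule.span_singleton_le_iff_mem]
    exact Submodule.subset_span
      ⟨hy, Submodule.mem_sup_left (Submodule.mem_span_singleton_self y)⟩
  · exact fun z hz => ⟨hz.1, Submodule.mem_sup_right hz.2⟩

theorem rep_PdG6b {T : Submodule ℝ V} {a : V} (ha : a ≠ 0) (h : a ∈ T) :
    (Projectivization.mk ℝ a ha).rep ∈ T := by
  obtain ⟨t, ht⟩ := Projectivization.exists_smul_eq_mk_rep ℝ a ha
  rw [← ht]
  exact T.smul_mem (t : ℝ) h

theorem step_PdG6b {μ ν : Measure V} (h : Pair μ ν) (hcl : Cl (atoms μ) (atoms ν))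
    (hn : 3 ≤ finrank ℝ V) {U W₀ : Submodule ℝ V} (hU : finrank ℝ U = 3) (hc : IsCompl U W₀)
    (hW : Sp (atoms μ) W₀) {u v u' v' y : V} (hu' : u' ∈ atoms μ) (hv' : v' ∈ atoms μ)
    (hy : y ∈ atoms μ) (h1 : U ≤ Submodule.span ℝ {u, v} ⊔ ℝ ∙ y)
    (h2 : U ≤ Submodule.span ℝ {u', v'} ⊔ ℝ ∙ y) :
    ∃ c : ℝ, 0 < c ∧ ∀ (a a' : V) (ha : a ≠ 0) (ha' : a' ≠ 0) (t : ℝ),
      a ∈ Submodule.span ℝ ({u, v} : Set V) → a' ∈ Submodule.span ℝ ({u', v'} : Set V) →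
      a' = a + t • y →
      c * aL μ ν (Projectivization.mk ℝ a ha) ≤ aL μ ν (Projectivization.mk ℝ a' ha') := by
  obtain ⟨d1, c1⟩ := compl_PdG6b hU hc h1
  obtain ⟨d2, c2⟩ := compl_PdG6b hU hc h2
  obtain ⟨c, hc0, hc⟩ := step_aL h (by omega) hcl d1 d2 (sp_pair_PdG6b hu' hv')
    (sp_sup_PdG6b hy hW) c1 c2
  refine ⟨c, hc0, fun a a' ha ha' t m1 m2 e => hc _ _ (rep_PdG6b ha m1) (rep_PdG6b ha' m2) ?_⟩
  refine rep_PdG6b ha' ?_
  rw [Projectivization.submodule_mk, e]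
  exact Submodule.add_mem_sup (Submodule.mem_span_singleton_self a)
    (Submodule.mem_sup_left (Submodule.smul_mem _ _ (Submodule.mem_span_singleton_self y)))

theorem ind_PdG6b {e₁ e₂ e₃ : V} (hi : LinearIndependent ℝ ![e₁, e₂, e₃]) {a b c : ℝ}
    (h : a • e₁ + b • e₂ + c • e₃ = 0) : a = 0 ∧ b = 0 := by
  have := Fintype.linearIndependent_iff.mp hi ![a, b, c] (by simpa [Fin.sum_univ_three] using h)
  exact ⟨this 0, this 1⟩

/-- item (v): exponentially many lines of exponentially small weight in one plane -/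
theorem growth {μ ν : Measure V} (h : Pair μ ν) (hcl : Cl (atoms μ) (atoms ν))
    (hs : ¬ SplitsS (atoms μ)) (hn : 3 ≤ finrank ℝ V) :
    ∃ (l : Submodule ℝ V) (c : ℝ), finrank ℝ l = 2 ∧ Sp (atoms μ) l ∧ 0 < c ∧ c ≤ 1 ∧
      ∀ r : ℕ, ∃ S : Finset (ℙ ℝ V), S.card = 2 ^ r ∧
        ∀ x ∈ S, x.rep ∈ l ∧ c ^ (r + 1) ≤ aL μ ν x := by
  classical
  obtain ⟨e₁, e₂, e₃, hi, m1, m2, m3, m23, m13, m31⟩ := hcl.frame hs hn
  obtain ⟨W₀, hW, hc⟩ := exists_compl_sp hcl.tl (Submodule.span ℝ (range ![e₁, e₂, e₃]))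
  have hU : finrank ℝ (Submodule.span ℝ (range ![e₁, e₂, e₃])) = 3 := by
    rw [finrank_span_eq_card hi, Fintype.card_fin]
  have a0 : Submodule.span ℝ (range ![e₁, e₂, e₃]) ≤ Submodule.span ℝ {e₁, e₂} ⊔ ℝ ∙ e₃ :=
    le_PdG6b (mem_PdG6b 1 0 0 (by module)) (mem_PdG6b 0 1 0 (by module))
      (mem_PdG6b 0 0 1 (by module))
  have b0 : Submodule.span ℝ (range ![e₁, e₂, e₃]) ≤ Submodule.span ℝ {e₁, e₂} ⊔ ℝ ∙ (e₃ - e₁) :=
    le_PdG6b (mem_PdG6b 1 0 0 (by module)) (mem_PdG6b 0 1 0 (by module))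
      (mem_PdG6b 1 0 1 (by module))
  have a1 : Submodule.span ℝ (range ![e₁, e₂, e₃]) ≤ Submodule.span ℝ {e₁, e₂ + e₃} ⊔ ℝ ∙ e₃ :=
    le_PdG6b (mem_PdG6b 1 0 0 (by module)) (mem_PdG6b 0 1 (-1) (by module))
      (mem_PdG6b 0 0 1 (by module))
  have b1 : Submodule.span ℝ (range ![e₁, e₂, e₃]) ≤
      Submodule.span ℝ {e₁, e₂ + e₃} ⊔ ℝ ∙ (e₃ - e₁) :=
    le_PdG6b (mem_PdG6b 1 0 0 (by module)) (mem_PdG6b (-1) 1 (-1) (by module))
      (mem_PdG6b 1 0 1 (by module))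
  have a2 : Submodule.span ℝ (range ![e₁, e₂, e₃]) ≤ Submodule.span ℝ {e₂, e₁ + e₃} ⊔ ℝ ∙ e₃ :=
    le_PdG6b (mem_PdG6b 0 1 (-1) (by module)) (mem_PdG6b 1 0 0 (by module))
      (mem_PdG6b 0 0 1 (by module))
  have b2 : Submodule.span ℝ (range ![e₁, e₂, e₃]) ≤
      Submodule.span ℝ {e₂, e₁ + e₃} ⊔ ℝ ∙ (e₃ - e₁) :=
    le_PdG6b (mem_PdG6b 0 (1 / 2) (-1 / 2) (by module)) (mem_PdG6b 1 0 0 (by module))
      (mem_PdG6b 0 (1 / 2) (1 / 2) (by module))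
  obtain ⟨c1, p1, s1⟩ := step_PdG6b h hcl hn hU hc hW m1 m23 m3 a0 a1
  obtain ⟨c2, p2, s2⟩ := step_PdG6b h hcl hn hU hc hW m1 m2 m31 b1 b0
  obtain ⟨c3, p3, s3⟩ := step_PdG6b h hcl hn hU hc hW m2 m13 m3 a0 a2
  obtain ⟨c4, p4, s4⟩ := step_PdG6b h hcl hn hU hc hW m1 m2 m31 b2 b0
  have hne : ∀ t s : ℝ, t • e₁ + (1 : ℝ) • e₂ + s • e₃ ≠ 0 := fun t s h0 =>
    one_ne_zero (ind_PdG6b hi h0).2
  obtain ⟨X, hX⟩ : ∃ X : ℕ → ℙ ℝ V, ∀ m : ℕ,
      X m = Projectivization.mk ℝ ((m : ℝ) • e₁ + (1 : ℝ) • e₂ + (0 : ℝ) • e₃) (hne _ _) :=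
    ⟨_, fun _ => rfl⟩
  have hl : ∀ t : ℝ, t • e₁ + (1 : ℝ) • e₂ + (0 : ℝ) • e₃ ∈ Submodule.span ℝ ({e₁, e₂} : Set V) :=
    fun t => pair_PdG6b t 1 (by module)
  have hsucc : ∀ m, c2 * c1 * aL μ ν (X m) ≤ aL μ ν (X (m + 1)) := by
    intro m
    have q1 := s1 _ _ (hne m 0) (hne m 1) 1 (hl m) (pair_PdG6b m 1 (by module)) (by module)
    have q2 := s2 _ _ (hne m 1) (hne ((m + 1 : ℕ) : ℝ) 0) (-1) (pair_PdG6b m 1 (by module))
      (hl _) (by push_cast; module)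
    rw [hX, hX, mul_assoc]
    exact (mul_le_mul_of_nonneg_left q1 p2.le).trans q2
  have hdbl : ∀ m, c4 * c3 * aL μ ν (X m) ≤ aL μ ν (X (2 * m)) := by
    intro m
    have q1 := s3 _ _ (hne m 0) (hne m m) m (hl m) (pair_PdG6b 1 m (by module)) (by module)
    have q2 := s4 _ _ (hne m m) (hne ((2 * m : ℕ) : ℝ) 0) (-(m : ℝ)) (pair_PdG6b 1 m (by module))
      (hl _) (by push_cast; module)
    rw [hX, hX, mul_assoc]
    exact (mul_le_mul_of_nonneg_left q1 p4.le).trans q2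
  have hinj : Injective X := by
    intro m m' e
    rw [hX, hX, Projectivization.mk_eq_mk_iff'] at e
    obtain ⟨a, ha⟩ := e
    have := ind_PdG6b hi (a := a * m' - m) (b := a - 1) (c := 0) (by
      rw [← sub_eq_zero.mpr ha]
      module)
    have h1 : a = 1 := by linarith [this.2]
    have h2 : (m : ℝ) = m' := by
      have := this.1
      rw [h1] at this
      linarith
    exact_mod_cast h2
  have h0 : 0 < aL μ ν (X 0) := by
    refine aL_pos h.gl h.gr ?_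
    have : (X 0).rep ∈ (ℝ ∙ e₂ : Submodule ℝ V) := by
      rw [hX]
      exact rep_PdG6b _ (Submodule.mem_span_singleton.mpr ⟨1, by push_cast; module⟩)
    obtain ⟨t, ht⟩ := Submodule.mem_span_singleton.mp this
    rw [← ht]
    exact hcl.sl t _ m2
  have pA : 0 < c2 * c1 := mul_pos p2 p1
  have pB : 0 < c4 * c3 := mul_pos p4 p3
  generalize c2 * c1 = α at hsucc pA
  generalize c4 * c3 = β at hdbl pB
  obtain ⟨c, c0, k1, k2, k3, k4⟩ : ∃ c : ℝ, 0 < c ∧ c ≤ 1 ∧ c ≤ aL μ ν (X 0) ∧ c ≤ β ∧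
      c ≤ α * β :=
    ⟨min (min 1 (aL μ ν (X 0))) (min β (α * β)),
      lt_min (lt_min one_pos h0) (lt_min pB (mul_pos pA pB)),
      (min_le_left _ _).trans (min_le_left _ _), (min_le_left _ _).trans (min_le_right _ _),
      (min_le_right _ _).trans (min_le_left _ _), (min_le_right _ _).trans (min_le_right _ _)⟩
  have key : ∀ r m : ℕ, m < 2 ^ r → c ^ (r + 1) ≤ aL μ ν (X m) := by
    intro r
    induction r with
    | zero =>
      intro m hm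
      obtain rfl : m = 0 := by omega
      simpa using k2
    | succ r ih =>
      intro m hm
      have hp : 0 ≤ c ^ (r + 1) := by positivity
      rw [pow_succ 2] at hm
      rw [pow_succ' c]
      obtain ⟨m', rfl | rfl⟩ := Nat.even_or_odd' m
      · exact (mul_le_mul k3 (ih m' (by omega)) hp pB.le).trans (hdbl m')
      · refine (mul_le_mul k4 (ih m' (by omega)) hp (mul_pos pA pB).le).trans ?_
        rw [mul_assoc]
        exact (mul_le_mul_of_nonneg_left (hdbl m') pA.le).trans (hsucc _)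
  refine ⟨Submodule.span ℝ {e₁, e₂}, c, (compl_PdG6b hU hc a0).1, sp_pair_PdG6b m1 m2, c0, k1,
    fun r => ⟨(Finset.range (2 ^ r)).image X, ?_, fun x hx => ?_⟩⟩
  · rw [Finset.card_image_of_injective _ hinj, Finset.card_range]
  · obtain ⟨m, hm, rfl⟩ := Finset.mem_image.mp hx
    refine ⟨?_, key r m (Finset.mem_range.mp hm)⟩
    rw [hX]
    exact rep_PdG6b _ (hl _)

end Pool.Agent.P.MP_181257_gt
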