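import Pool.Agent.P.MP_181257_gt.PdG5b
import Pool.Agent.P.MP_181257_gt.PdG6b
import Pool.Agent.P.MP_181257_gt.PdG4b
import Pool.Agent.P.MP_181257_gt.PdD1b

set_option autoImplicit false
set_option linter.unusedSectionVars false
set_option linter.unusedVariables false

open MeasureTheory ProbabilityTheory Module Set Filter Topology Function
open scoped RealInnerProductSpace ENNReal Pointwise LinearAlgebra.Projectivization

noncomputable section

namespace Pool.Agent.P.MP_181257_gt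

variable {V : Type} [NormedAddCommGroup V] [InnerProductSpace ℝ V] [FiniteDimensional ℝ V]
  [MeasurableSpace V] [BorelSpace V] {ι : Type} [Fintype ι] [DecidableEq ι]

theorem persp_rep_PdG7 (l : Pl V) (v : ℙ ℝ V) (h : l.J v.rep ≠ 0) :
    ∃ t : ℝ, t ≠ 0 ∧ (persp l v).rep = t • l.J v.rep := by
  have e : persp l v = Projectivization.mk ℝ (l.J v.rep) h := by
    unfold persp
    exact dif_neg h
  obtain ⟨a, ha⟩ := Projectivization.exists_smul_eq_mk_rep ℝ (l.J v.rep) h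
  exact ⟨a, a.ne_zero, by rw [e, ← ha]; rfl⟩

theorem subsingleton_PdG7 {U : Submodule ℝ V} (hU : finrank ℝ U ≤ 1) :
    {x : ℙ ℝ V | x.rep ∈ U}.Subsingleton := by
  intro x hx y hy
  have h1 : x.submodule = U := Submodule.eq_of_le_of_finrank_le
    (by rw [Projectivization.submodule_eq, Submodule.span_singleton_le_iff_mem]; exact hx)
    (by rw [Projectivization.finrank_submodule]; exact hU)
  have h2 : y.submodule = U := Submodule.eq_of_le_of_finrank_le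
    (by rw [Projectivization.submodule_eq, Submodule.span_singleton_le_iff_mem]; exact hy)
    (by rw [Projectivization.finrank_submodule]; exact hU)
  exact Projectivization.submodule_injective (h1.trans h2.symm)

theorem exists_Ex_PdG7 (I₀ : Finset (Pl V)) (hI : InjOn Pl.sp (I₀ : Set (Pl V))) :
    ∃ Ex : Finset (ℙ ℝ V), ∀ i ∈ I₀, ∀ i' ∈ I₀, i ≠ i' → ∀ x : ℙ ℝ V, x.rep ∈ i.sp →
      x.rep ∈ i'.sp → x ∈ Ex := by
  have hfin : (⋃ i ∈ (I₀ : Set (Pl V)), ⋃ i' ∈ (I₀ : Set (Pl V)),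
      {x : ℙ ℝ V | i ≠ i' ∧ x.rep ∈ i.sp ⊓ i'.sp}).Finite := by
    refine I₀.finite_toSet.biUnion fun i hi => I₀.finite_toSet.biUnion fun i' hi' => ?_
    by_cases hii : i = i'
    · simp [hii]
    · have hlt : i.sp ⊓ i'.sp < i.sp := by
        refine lt_of_le_of_ne inf_le_left fun e => hii (hI hi hi' ?_)
        exact Submodule.eq_of_le_of_finrank_le (inf_eq_left.1 e)
          (by rw [i.finrank_sp, i'.finrank_sp])
      have h1 := Submodule.finrank_lt_finrank_of_lt hlt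
      rw [i.finrank_sp] at h1
      exact (subsingleton_PdG7 (U := i.sp ⊓ i'.sp) (by omega)).finite.subset fun x hx => hx.2
  refine ⟨hfin.toFinset, fun i hi i' hi' hii x h1 h2 => ?_⟩
  rw [Finite.mem_toFinset]
  exact mem_biUnion hi (mem_biUnion hi' ⟨hii, h1, h2⟩)

theorem indep_PdG7 (l : Pl V) : LinearIndependent ℝ ![l.p, l.q] := by
  rw [LinearIndependent.pair_iff]
  intro s t h
  have h1 : ⟪l.p, s • l.p + t • l.q⟫ = 0 := by rw [h, inner_zero_right]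
  have h2 : ⟪s • l.p + t • l.q, l.q⟫ = 0 := by rw [h, inner_zero_left]
  rw [inner_add_right, real_inner_smul_right, real_inner_smul_right, l.hpq,
    real_inner_self_eq_norm_sq, l.hp] at h1
  rw [inner_add_left, real_inner_smul_left, real_inner_smul_left, l.hpq,
    real_inner_self_eq_norm_sq, l.hq] at h2
  constructor <;> linarith

/-- the truncated power sums -/
def FF (b : Basis ι ℝ V) (j k : ι) (μ ν : Measure V) (I₀ : Finset (Pl V)) (s L : ℝ) : ℝ≥0∞ :=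
  ∑ l ∈ I₀, ENNReal.ofReal (Mp b j k ν l * Gm b j k μ l.p l.q) *
    ∑' x : {x : ℙ ℝ V | x.rep ∈ l.sp},
      ENNReal.ofReal (Psi L s (aL μ ν x / (Mp b j k ν l * Gm b j k μ l.p l.q)))

theorem FF_ne_top (b : Basis ι ℝ V) {j k : ι} (hjk : j ≠ k) {μ ν : Measure V} (h : Pair μ ν)
    {I₀ : Finset (Pl V)} (hI : ∀ l ∈ I₀, Sp (atoms ν) l.spᗮ) (s : ℝ) {L : ℝ} (hL : 0 ≤ L) :
    FF b j k μ ν I₀ s L ≠ ∞ := by
  classical
  refine ENNReal.sum_ne_top.2 fun l hl => ENNReal.mul_ne_top ENNReal.ofReal_ne_top ?_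
  set β := Mp b j k ν l * Gm b j k μ l.p l.q with hβ
  have hβ0 : 0 < β := mul_pos (Mp_pos b hjk h.gr (hI l hl)) (Gm_pos b hjk h.gl (indep_PdG7 l))
  refine ne_top_of_le_ne_top (b := ENNReal.ofReal (L / β * ∫ z, Hm ν z ∂μ))
    ENNReal.ofReal_ne_top ?_
  rw [ENNReal.tsum_eq_iSup_sum]
  refine iSup_le fun S => ?_
  have hn : ∀ x : ℙ ℝ V, 0 ≤ L / β * aL μ ν x := fun x =>
    mul_nonneg (div_nonneg hL hβ0.le) (aL_nonneg μ ν x)
  calc ∑ x ∈ S, ENNReal.ofReal (Psi L s (aL μ ν x / β))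
      ≤ ∑ x ∈ S, ENNReal.ofReal (L / β * aL μ ν x) := by
        refine Finset.sum_le_sum fun x _ => ENNReal.ofReal_le_ofReal ?_
        refine (min_le_left _ _).trans_eq ?_
        ring
    _ = ENNReal.ofReal (L / β * ∑ x ∈ S.image Subtype.val, aL μ ν x) := by
        rw [Finset.sum_image fun x _ y _ e => Subtype.ext e, Finset.mul_sum,
          ENNReal.ofReal_sum_of_nonneg fun (x : {x : ℙ ℝ V | x.rep ∈ l.sp}) _ => hn x.1]
    _ ≤ _ := ENNReal.ofReal_le_ofReal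
        (mul_le_mul_of_nonneg_left (sum_aL_le h.gl h.gr.mom _) (div_nonneg hL hβ0.le))

theorem FF_half (b : Basis ι ℝ V) {j k : ι} (hjk : j ≠ k) {μ ν : Measure V} (h : Pair μ ν)
    {I₀ J₀ : Finset (Pl V)} (hI : ∀ l ∈ I₀, Sp (atoms ν) l.spᗮ)
    (hJ : ∀ π ∈ J₀, Sp (atoms μ) π.spᗮ) (hIi : InjOn Pl.sp (I₀ : Set (Pl V))) {s δ : ℝ}
    (hs0 : 0 < s) (hs1 : s ≤ 1) (hδ : 0 ≤ δ)
    (hg : ∀ (l : Pl V) (x : V), x ∈ l.sp → x ≠ 0 →
      1 + δ ≤ ∑ π ∈ J₀, (tp b j k μ l π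
        + s / 2 * min (Rp b j k μ π x - tp b j k μ l π) (tp b j k μ l π))) :
    ∃ C : ℝ, ∀ L, 0 ≤ L →
      ENNReal.ofReal (1 + δ) * FF b j k μ ν I₀ s L ≤ FF b j k ν μ J₀ s L + ENNReal.ofReal C := by
  obtain ⟨Ex, hEx⟩ := exists_Ex_PdG7 I₀ hIi
  have ht : ∀ l ∈ I₀, ∀ π : Pl V, gp l π * Mp b j k μ π * Mp b j k ν l
      / (Mp b j k ν l * Gm b j k μ l.p l.q) = tp b j k μ l π := fun l hl π => by
    have h1 := (Mp_pos b hjk h.gr (hI l hl)).ne'
    have h2 := (Gm_pos b hjk h.gl (indep_PdG7 l)).ne'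
    unfold tp
    field_simp
  refine ⟨_, fun L hL => core_half I₀ J₀ (fun l => {x : ℙ ℝ V | x.rep ∈ l.sp})
    (fun l => {x : ℙ ℝ V | x.rep ∈ l.sp}) (aL μ ν) (aL ν μ)
    (fun l => Mp b j k ν l * Gm b j k μ l.p l.q) (fun π => Mp b j k μ π * Gm b j k ν π.p π.q)
    (fun l π => gp l π * Mp b j k μ π * Mp b j k ν l) persp (fun π x => Rp b j k μ π x.rep) Ex
    (Z := ∫ z, Hm ν z ∂μ) hs0 hs1 hδ hL
    (fun x => ⟨aL_nonneg μ ν x, aL_le h.gl.mom h.gr.mom x⟩)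
    (fun l hl => mul_pos (Mp_pos b hjk h.gr (hI l hl)) (Gm_pos b hjk h.gl (indep_PdG7 l)))
    (fun π hπ => mul_pos (Mp_pos b hjk h.gl (hJ π hπ)) (Gm_pos b hjk h.gr (indep_PdG7 π)))
    (fun l π => mul_nonneg (mul_nonneg (abs_nonneg _) (Mp_nonneg b j k μ π)) (Mp_nonneg b j k ν l))
    (fun π hπ => ?_) (fun l hl π hπ hτ => ?_) hEx (fun π hπ v hv S hS => ?_)
    (fun l hl π hπ x hx => ?_) (fun l hl x hx => ?_)⟩
  · have h1 := sum_Mp_le b hjk h.gr.mom I₀ hIi π.p π.q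
    refine le_trans (le_of_eq ?_) (mul_le_mul_of_nonneg_left h1 (Mp_nonneg b j k μ π))
    rw [Finset.mul_sum]
    refine Finset.sum_congr rfl fun l _ => ?_
    rw [gp_comm l π, gp]
    ring
  · exact persp_bij fun e => hτ (by rw [e]; ring)
  · refine sum_Rp_le b hjk h π v S fun x hx => ?_
    obtain ⟨l, hl, hτ, rfl⟩ := hS x hx
    have hg0 : ⟪l.p, π.p⟫ * ⟪l.q, π.q⟫ - ⟪l.p, π.q⟫ * ⟪l.q, π.p⟫ ≠ 0 := fun e =>
      hτ (by rw [gp, e]; simp)
    have hJJ := Pl.J_J l π hv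
    have hne : π.J (l.J v.rep) ≠ 0 := by
      rw [hJJ]
      exact smul_ne_zero (neg_ne_zero.2 hg0) v.rep_nonzero
    have hl0 : l.J v.rep ≠ 0 := fun e => hne (by rw [e]; simp [Pl.J])
    obtain ⟨t, ht0, hte⟩ := persp_rep_PdG7 l v hl0
    rw [hte, Pl.J_smul]
    refine ⟨smul_ne_zero ht0 hne, Submodule.smul_mem _ _ ?_⟩
    rw [hJJ, Projectivization.submodule_eq]
    exact Submodule.smul_mem _ _ (Submodule.mem_span_singleton_self _)
  · rw [ht l hl π]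
    exact tp_le_Rp b hjk h.gl l π hx x.rep_nonzero
  · simp only [ht l hl]
    exact hg l x.rep hx x.rep_nonzero

theorem Pair.not_atomic {μ ν : Measure V} (h : Pair μ ν) (hs : ¬ Splits μ)
    (hn : 3 ≤ finrank ℝ V) : ¬ Atomic μ := by
  intro ha
  have ha' := h.atomic (by omega) ha
  have hs' : ¬ Splits ν := fun s => hs (h.symm.splits s)
  have hcl := h.cl_atoms ha ha'
  obtain ⟨l, c, hl2, hlsp, hc0, hc1, hgrow⟩ := growth h hcl (not_splitsS hs ha.null) hn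
  set A := -Real.log c with hA
  have hA0 : 0 ≤ A := by
    have := Real.log_nonpos hc0.le hc1
    linarith
  set s := 1 / (4 * (A + 1)) with hsd
  have hs0 : 0 < s := by positivity
  have hs1 : s ≤ 1 := by
    rw [hsd, div_le_one (by positivity)]
    linarith
  have hcs : 3 / 4 ≤ c ^ s := by
    rw [Real.rpow_def_of_pos hc0]
    have h1 : Real.log c * s = -(A * s) := by rw [hA]; ring
    have h2 : A * s ≤ 1 / 4 := by
      rw [hsd, mul_one_div, div_le_div_iff₀ (by positivity) (by norm_num)]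
      linarith
    have := Real.add_one_le_exp (Real.log c * s)
    linarith
  let b := Module.finBasis ℝ V
  let j : Fin (finrank ℝ V) := ⟨0, by omega⟩
  let k : Fin (finrank ℝ V) := ⟨1, by omega⟩
  have hjk : j ≠ k := by simp [j, k]
  have hcard : 3 ≤ Fintype.card (Fin (finrank ℝ V)) := by simpa using hn
  obtain ⟨l₀, hl₀⟩ := exists_Pl hl2
  obtain ⟨W, hW, hWc⟩ := exists_compl_sp hcl.tl l
  have hW2 : finrank ℝ (Wᗮ : Submodule ℝ V) = 2 := by
    have h1 := Submodule.finrank_add_finrank_orthogonal W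
    have h2 := Submodule.finrank_add_eq_of_isCompl hWc
    omega
  obtain ⟨π₀, hπ₀⟩ := exists_Pl hW2
  obtain ⟨I₀, δ', hδ', hIi, hI, ⟨l₁, hl₁, hl₁e⟩, hgI⟩ := exists_gainP b hjk h.gr ha'
    (h.symm.csupp_eq hs' hn) hcard (half_pos hs0) l₀ (by rw [hl₀]; exact hcl.orth hlsp)
  obtain ⟨J₀, δ, hδ, hJi, hJ, -, hgJ⟩ := exists_gainP b hjk h.gl ha (h.csupp_eq hs hn) hcard
    (half_pos hs0) π₀ (by rw [hπ₀, Submodule.orthogonal_orthogonal]; exact hW)
  obtain ⟨C, hC⟩ := FF_half b hjk h hI hJ hIi hs0 hs1 hδ.le hgJ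
  obtain ⟨C', hC'⟩ := FF_half b hjk h.symm hJ hI hJi hs0 hs1 hδ'.le hgI
  obtain ⟨B, hB⟩ := core_end {x : ℙ ℝ V | x.rep ∈ l₁.sp} (aL μ ν) (aL_nonneg μ ν)
    (mul_pos (Mp_pos b hjk h.gr (hI l₁ hl₁)) (Gm_pos b hjk h.gl (indep_PdG7 l₁))) hs0 hs1 hδ
    hδ'.le (FF b j k μ ν I₀ s) (FF b j k ν μ J₀ s) (fun L hL => FF_ne_top b hjk h hI s hL) hC hC'
    (fun L hL => Finset.single_le_sum (f := fun l : Pl V =>
      ENNReal.ofReal (Mp b j k ν l * Gm b j k μ l.p l.q) *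
        ∑' x : {x : ℙ ℝ V | x.rep ∈ l.sp},
          ENNReal.ofReal (Psi L s (aL μ ν x / (Mp b j k ν l * Gm b j k μ l.p l.q))))
      (fun _ _ => zero_le) hl₁)
  obtain ⟨r, hr⟩ := pow_unbounded_of_one_lt (B / (3 / 4)) (by norm_num : (1 : ℝ) < 3 / 2)
  obtain ⟨S, hSc, hS⟩ := hgrow r
  have h1 := hB S fun x hx => by
    have := (hS x hx).1
    rwa [← hl₀, ← hl₁e] at this
  have h2 : ∀ x ∈ S, (3 / 4 : ℝ) ^ (r + 1) ≤ aL μ ν x ^ s := fun x hx => by
    refine le_trans ?_ (Real.rpow_le_rpow (by positivity) (hS x hx).2 hs0.le)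
    rw [← Real.rpow_natCast c, ← Real.rpow_mul hc0.le, mul_comm, Real.rpow_mul hc0.le,
      Real.rpow_natCast]
    exact pow_le_pow_left₀ (by norm_num) hcs _
  have h3 := Finset.card_nsmul_le_sum S _ _ h2
  rw [hSc, nsmul_eq_mul] at h3
  have h4 : ((2 ^ r : ℕ) : ℝ) * (3 / 4 : ℝ) ^ (r + 1) = (3 / 2) ^ r * (3 / 4) := by
    push_cast
    rw [pow_succ, ← mul_assoc, ← mul_pow]
    norm_num
  rw [div_lt_iff₀ (by norm_num)] at hr
  linarith

end Pool.Agent.P.MP_181257_gt
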