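import Pool.Agent.P.MP_181257_gt.PdC1
import Pool.Agent.P.MP_181257_gt.PdC2

set_option autoImplicit false
set_option linter.unusedSectionVars false
set_option linter.unusedVariables false

open MeasureTheory ProbabilityTheory Module Set Filter Topology Function
open scoped RealInnerProductSpace ENNReal Pointwise LinearAlgebra.Projectivization

noncomputable section

namespace Pool.Agent.P.MP_181257_gt

variable {V : Type} [NormedAddCommGroup V] [InnerProductSpace ℝ V] [FiniteDimensional ℝ V]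
  [MeasurableSpace V] [BorelSpace V] {ι : Type} [Fintype ι] [DecidableEq ι]

theorem Qm_two_PdH1 (b : OrthonormalBasis (Fin 2) ℝ V) (μ : Measure V) [IsProbabilityMeasure μ]
    (u : V) : Qm b.toBasis 0 μ u = Hm μ (⟪b 1, u⟫ • b 0 - ⟪b 0, u⟫ • b 1) := by
  have h1 : ∀ x : Fin 2 → V, |b.toBasis.det (update x 0 u)| =
      |⟪⟪b 1, u⟫ • b 0 - ⟪b 0, u⟫ • b 1, x 1⟫| := by
    intro x
    rw [Basis.det_apply, Matrix.det_fin_two, ← abs_neg]
    simp only [Basis.toMatrix_apply, OrthonormalBasis.coe_toBasis_repr_apply,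
      OrthonormalBasis.repr_apply_apply, update_self, inner_sub_left, real_inner_smul_left]
    rw [update_of_ne (by decide)]
    congr 1
    ring
  have h2 := measurePreserving_eval (fun _ : Fin 2 => μ) 1
  unfold Qm Hm
  simp only [h1]
  conv_rhs => rw [← h2.map_eq]
  rw [integral_map h2.measurable.aemeasurable (Continuous.aestronglyMeasurable (by fun_prop))]

/-- in dimension at most two every measure is part of a pair -/
theorem pair_low (h1 : 1 ≤ finrank ℝ V) (h2 : finrank ℝ V ≤ 2) {μ : Measure V} (hμ : Good μ) :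
    ∃ ν : Measure V, Pair μ ν := by
  obtain ⟨ν, hν, a, ha, h⟩ := exists_Half h1 hμ
  refine ⟨ν, hμ, hν, ⟨a, ha, h⟩, ?_⟩
  have i1 := hμ.mom.prob
  have i2 := hν.mom.prob
  rcases h1.lt_or_eq with h3 | h3
  · have h4 : finrank ℝ V = 2 := by omega
    let b : OrthonormalBasis (Fin 2) ℝ V := (stdOrthonormalBasis ℝ V).reindex (finCongr h4)
    obtain ⟨c, hc, hq⟩ := Qm_eq_Qd b.toBasis 0
    refine ⟨c * c / a, by positivity, fun u => ?_⟩
    have e1 := (hq ν u).symm.trans (Qm_two_PdH1 b ν u)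
    have e2 := (hq μ (⟪b 1, u⟫ • b 0 - ⟪b 0, u⟫ • b 1)).symm.trans (Qm_two_PdH1 b μ _)
    have e3 : ⟪b 1, ⟪b 1, u⟫ • b 0 - ⟪b 0, u⟫ • b 1⟫ • b 0 -
        ⟪b 0, ⟪b 1, u⟫ • b 0 - ⟪b 0, u⟫ • b 1⟫ • b 1 = (-1 : ℝ) • u := by
      have o := orthonormal_iff_ite.1 b.orthonormal
      have s := b.sum_repr' u
      rw [Fin.sum_univ_two] at s
      simp only [inner_sub_right, real_inner_smul_right, o]
      simp only [Fin.isValue, one_ne_zero, zero_ne_one, if_false, if_true, mul_zero, mul_one,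
        zero_sub, sub_zero]
      conv_rhs => rw [← s]
      module
    rw [e3, Hm_smul, abs_neg, abs_one, one_mul] at e2
    rw [h] at e1
    rw [← e2, div_mul_eq_mul_div, mul_assoc, e1, eq_div_iff ha.ne']
    ring
  · obtain ⟨v, hv, hs⟩ := finrank_eq_one_iff'.1 h3.symm
    have p1 := hμ.pos v hv
    have p2 := Qd_pos hν hv
    refine ⟨Hm μ v / Qd ν v, by positivity, fun u => ?_⟩
    obtain ⟨t, rfl⟩ := hs u
    rw [Hm_smul, Qd_smul h1]
    field_simp

end Pool.Agent.P.MP_181257_gt
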