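import Pool.Agent.P.MP_181257_gt.PdH1

set_option autoImplicit false
set_option linter.unusedSectionVars false
set_option linter.unusedVariables false

open MeasureTheory ProbabilityTheory Module Set Filter Topology Function
open scoped RealInnerProductSpace ENNReal Pointwise LinearAlgebra.Projectivization

noncomputable section

namespace Pool.Agent.P.MP_181257_gt

variable {V : Type} [NormedAddCommGroup V] [InnerProductSpace ℝ V] [FiniteDimensional ℝ V]
  [MeasurableSpace V] [BorelSpace V] {ι : Type} [Fintype ι] [DecidableEq ι]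

theorem eq_Zs_PdH1b {C : Set V} (hC : IsCompact C) (hc : Convex ℝ C) (hne : C.Nonempty)
    {h : V → ℝ} (hle : ∀ u, ∀ y ∈ C, ⟪y, u⟫ ≤ h u) (hat : ∀ u, ∃ y ∈ C, ⟪y, u⟫ = h u) :
    C = Zs h := by
  have := FiniteDimensional.complete ℝ V
  refine Subset.antisymm (fun y hy u _ => hle u y hy) fun x hx => ?_
  by_contra hxC
  obtain ⟨f, r, h1, h2⟩ := geometric_hahn_banach_closed_point hc hC.isClosed hxC
  set w : V := (InnerProductSpace.toDual ℝ V).symm f with hw
  have hf : ∀ y, ⟪y, w⟫ = f y := fun y => by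
    rw [real_inner_comm, hw, InnerProductSpace.toDual_symm_apply]
  have hw0 : w ≠ 0 := by
    intro e
    obtain ⟨y, hy⟩ := hne
    have a1 := h1 y hy
    rw [← hf, e, inner_zero_right] at a1
    rw [← hf, e, inner_zero_right] at h2
    linarith
  have hn : 0 < ‖w‖⁻¹ := inv_pos.2 (norm_pos_iff.2 hw0)
  have h3 := hx (‖w‖⁻¹ • w) (norm_smul_inv_norm hw0)
  obtain ⟨y, hy, e⟩ := hat (‖w‖⁻¹ • w)
  rw [← e, real_inner_smul_right, real_inner_smul_right, hf, hf] at h3
  have h4 := le_of_mul_le_mul_left h3 hn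
  have h5 := h1 y hy
  linarith

theorem vol_seg_PdH1b {C : Set V} (hc : Convex ℝ C) (hs : ∀ y ∈ C, -y ∈ C) {u : V} (hu : ‖u‖ = 1)
    {r : ℝ} (hr : 0 < r) (hle : ∀ y ∈ C, ⟪y, u⟫ ≤ r) (hat : ∃ y ∈ C, ⟪y, u⟫ = r) :
    intrinsicVol 1 ((fun v => ⟪v, u⟫ • u) '' C) = 2 * c0 * r := by
  obtain ⟨m, hm, em⟩ := hat
  have hseg : ∀ t : ℝ, |t| ≤ r → ∃ v ∈ C, ⟪v, u⟫ = t := by
    intro t ht
    obtain ⟨t1, t2⟩ := abs_le.1 ht
    refine ⟨((r + t) / (2 * r)) • m + ((r - t) / (2 * r)) • (-m),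
      hc hm (hs m hm) (div_nonneg (by linarith) (by linarith))
        (div_nonneg (by linarith) (by linarith)) (by field_simp; ring), ?_⟩
    rw [inner_add_left, real_inner_smul_left, real_inner_smul_left, inner_neg_left, em]
    field_simp
    ring
  have habs : ∀ y ∈ C, |⟪y, u⟫| ≤ r := by
    intro y hy
    have a1 := hle y hy
    have a2 := hle _ (hs y hy)
    rw [inner_neg_left] at a2
    exact abs_le.2 ⟨by linarith, a1⟩
  have key : ∀ g : Fin 1 → V, (volume (lin g '' ((fun v => ⟪v, u⟫ • u) '' C))).toReal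
      = 2 * r * |⟪u, g 0⟫| := by
    intro g
    have e : lin g '' ((fun v => ⟪v, u⟫ • u) '' C)
        = Icc (fun _ => -(r * |⟪u, g 0⟫|)) (fun _ => r * |⟪u, g 0⟫|) := by
      ext z
      constructor
      · rintro ⟨_, ⟨v, hv, rfl⟩, rfl⟩
        have a1 : |⟪v, u⟫ * ⟪u, g 0⟫| ≤ r * |⟪u, g 0⟫| := by
          rw [abs_mul]
          exact mul_le_mul_of_nonneg_right (habs v hv) (abs_nonneg _)
        obtain ⟨a2, a3⟩ := abs_le.1 a1
        constructor
        · intro j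
          rw [Subsingleton.elim j 0, lin_apply, real_inner_smul_right, real_inner_comm u (g 0)]
          exact a2
        · intro j
          rw [Subsingleton.elim j 0, lin_apply, real_inner_smul_right, real_inner_comm u (g 0)]
          exact a3
      · rintro ⟨a2, a3⟩
        have a1 : |z 0| ≤ r * |⟪u, g 0⟫| := abs_le.2 ⟨a2 0, a3 0⟩
        have : ∃ t : ℝ, |t| ≤ r ∧ t * ⟪u, g 0⟫ = z 0 := by
          by_cases hk : ⟪u, g 0⟫ = (0 : ℝ)
          · rw [hk, abs_zero, mul_zero] at a1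
            refine ⟨0, by simpa using hr.le, ?_⟩
            rw [zero_mul]
            exact (abs_nonpos_iff.1 a1).symm
          · refine ⟨z 0 / ⟪u, g 0⟫, ?_, by field_simp⟩
            rw [abs_div, div_le_iff₀ (abs_pos.2 hk)]
            exact a1
        obtain ⟨t, ht, et⟩ := this
        obtain ⟨v, hv, ev⟩ := hseg t ht
        refine ⟨_, ⟨v, hv, rfl⟩, ?_⟩
        funext j
        rw [Subsingleton.elim j 0, lin_apply, real_inner_smul_right, real_inner_comm u (g 0), ev,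
          et]
    have hp : 0 ≤ r * |⟪u, g 0⟫| := mul_nonneg hr.le (abs_nonneg _)
    rw [e, Real.volume_Icc_pi_toReal (fun _ => by linarith)]
    simp only [Finset.univ_unique, Finset.prod_singleton]
    ring
  rw [intrinsicVol_eq]
  simp only [key]
  rw [integral_const_mul]
  have e2 : ∫ g : Fin 1 → V, |⟪u, g 0⟫| ∂(γk V 1) = ∫ x, |⟪u, x⟫| ∂(stdGaussian V) :=
    (measurePreserving_funUnique (stdGaussian V) (Fin 1)).integral_comp' fun x => |⟪u, x⟫|
  rw [e2, integral_abs_inner, hu]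
  ring

theorem zon_one_PdH1b (h1 : finrank ℝ V = 1) {C : Set V} (hs : ∀ y ∈ C, -y ∈ C)
    {h : V → ℝ} (hle : ∀ u, ∀ y ∈ C, ⟪y, u⟫ ≤ h u) (hat : ∀ u, ∃ y ∈ C, ⟪y, u⟫ = h u) :
    Zon h := by
  intro κ s c u hu H
  let b : OrthonormalBasis (Fin 1) ℝ V := (stdOrthonormalBasis ℝ V).reindex (finCongr h1)
  have hin : ∀ x y : V, ⟪x, y⟫ = ⟪x, b 0⟫ * ⟪b 0, y⟫ := fun x y => by
    rw [← b.sum_inner_mul_inner x y]
    simp
  obtain ⟨m, hm, em⟩ := hat (b 0)
  have habs : ∀ y ∈ C, |⟪y, b 0⟫| ≤ |⟪m, b 0⟫| := by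
    intro y hy
    have a1 := hle (b 0) y hy
    have a2 := hle (b 0) _ (hs y hy)
    rw [inner_neg_left] at a2
    rw [em]
    exact (abs_le.2 ⟨by linarith, a1⟩).trans (le_abs_self _)
  have e : ∀ j, h (u j) = |⟪u j, m⟫| := by
    intro j
    rw [real_inner_comm]
    apply le_antisymm
    · obtain ⟨y, hy, ey⟩ := hat (u j)
      rw [← ey]
      refine (le_abs_self _).trans ?_
      rw [hin y, hin m, abs_mul, abs_mul]
      exact mul_le_mul_of_nonneg_right (habs y hy) (abs_nonneg _)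
    · have a1 := hle (u j) m hm
      have a2 := hle (u j) _ (hs m hm)
      rw [inner_neg_left] at a2
      exact abs_le.2 ⟨by linarith, a1⟩
  simp only [e]
  exact H m

theorem zon_two_PdH1b (h2 : finrank ℝ V = 2) {C : Set V} (hC : IsCompact C) (hc : Convex ℝ C)
    (hne : C.Nonempty) (hs : ∀ y ∈ C, -y ∈ C) {h : V → ℝ} (hpos : ∀ u, ‖u‖ = 1 → 0 < h u)
    (hle : ∀ u, ∀ y ∈ C, ⟪y, u⟫ ≤ h u) (hat : ∀ u, ∃ y ∈ C, ⟪y, u⟫ = h u) :
    Zon h := by
  intro κ s c u hu H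
  let b : OrthonormalBasis (Fin 2) ℝ V := (stdOrthonormalBasis ℝ V).reindex (finCongr h2)
  have hin : ∀ x y : V, ⟪x, y⟫ = ⟪b 0, x⟫ * ⟪b 0, y⟫ + ⟪b 1, x⟫ * ⟪b 1, y⟫ := fun x y => by
    rw [← b.sum_inner_mul_inner x y, Fin.sum_univ_two, real_inner_comm (b 0) x,
      real_inner_comm (b 1) x]
  have hext : ∀ x y : V, ⟪b 0, x⟫ = ⟪b 0, y⟫ → ⟪b 1, x⟫ = ⟪b 1, y⟫ → x = y := by
    intro x y e0 e1
    rw [← b.sum_repr' x, ← b.sum_repr' y, Fin.sum_univ_two, Fin.sum_univ_two, e0, e1]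
  have b00 : ⟪b 0, b 0⟫ = (1 : ℝ) := by simp
  have b11 : ⟪b 1, b 1⟫ = (1 : ℝ) := by simp
  have b01 : ⟪b 0, b 1⟫ = (0 : ℝ) := b.orthonormal.2 (by decide)
  have b10 : ⟪b 1, b 0⟫ = (0 : ℝ) := b.orthonormal.2 (by decide)
  let J : V → V := fun x => ⟪b 1, x⟫ • b 0 - ⟪b 0, x⟫ • b 1
  have J0 : ∀ x, ⟪b 0, J x⟫ = ⟪b 1, x⟫ := fun x => by
    simp only [J, inner_sub_right, real_inner_smul_right, b00, b01]
    ring
  have J1 : ∀ x, ⟪b 1, J x⟫ = -⟪b 0, x⟫ := fun x => by
    simp only [J, inner_sub_right, real_inner_smul_right, b11, b10]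
    ring
  have hsq : ∀ x : V, ‖x‖ = 1 → ⟪b 0, x⟫ * ⟪b 0, x⟫ + ⟪b 1, x⟫ * ⟪b 1, x⟫ = (1 : ℝ) := by
    intro x hx
    rw [← hin, real_inner_self_eq_norm_sq, hx]
    norm_num
  have hJn : ∀ x : V, ‖x‖ = 1 → ‖J x‖ = 1 := by
    intro x hx
    have a1 : ‖J x‖ ^ 2 = 1 := by
      rw [← real_inner_self_eq_norm_sq, hin, J0, J1]
      have := hsq x hx
      linarith
    have a2 := norm_nonneg (J x)
    nlinarith
  have hpr : ∀ x : V, ‖x‖ = 1 → pr (J x) = fun v => ⟪v, x⟫ • x := by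
    intro x hx
    funext v
    have a1 := hsq x hx
    apply hext
    · rw [pr, hJn x hx, inner_sub_right, real_inner_smul_right, real_inner_smul_right, J0,
        hin (J x) v, hin v x, J0, J1]
      linear_combination (-⟪b 0, v⟫) * a1
    · rw [pr, hJn x hx, inner_sub_right, real_inner_smul_right, real_inner_smul_right, J1,
        hin (J x) v, hin v x, J0, J1]
      linear_combination (-⟪b 1, v⟫) * a1
  have Z := zon_proj 1 hC hc hne κ s c (fun j => J (u j)) (fun j => hJn _ (hu j)) (by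
    intro y
    have a1 : ∀ j, |⟪J (u j), y⟫| = |⟪u j, J y⟫| := by
      intro j
      rw [← abs_neg, hin (J (u j)) y, hin (u j) (J y), J0, J1, J0, J1]
      congr 1
      ring
    simp only [a1]
    exact H (J y))
  have e : ∀ j, intrinsicVol 1 (pr (J (u j)) '' C) = 2 * c0 * h (u j) := by
    intro j
    rw [hpr _ (hu j)]
    exact vol_seg_PdH1b hc hs (hu j) (hpos _ (hu j)) (hle _) (hat _)
  simp only [e] at Z
  have e2 : ∑ j ∈ s, c j * (2 * c0 * h (u j)) = 2 * c0 * ∑ j ∈ s, c j * h (u j) := by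
    rw [Finset.mul_sum]
    exact Finset.sum_congr rfl fun j _ => by ring
  rw [e2] at Z
  have := c0_pos
  exact nonneg_of_mul_nonneg_right Z (by linarith) |> fun a => a

/-- symmetric bodies of dimension at most two are zonoids -/
theorem zonoid_low (h1 : 1 ≤ finrank ℝ V) (h2 : finrank ℝ V ≤ 2) {C : Set V} (hC : IsCompact C)
    (hc : Convex ℝ C) (hint : (interior C).Nonempty) (hs : -C = C) :
    ∃ (μ : Measure V) (c : ℝ), Good μ ∧ 0 < c ∧ C = Zs fun u => c * Hm μ u := by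
  have hs' : ∀ y ∈ C, -y ∈ C := by
    intro y hy
    rw [← hs]
    simpa using hy
  have hne : C.Nonempty := hint.mono interior_subset
  have hmax : ∀ u : V, ∃ m ∈ C, ∀ y ∈ C, ⟪y, u⟫ ≤ ⟪m, u⟫ := by
    intro u
    obtain ⟨m, hm, h⟩ := hC.exists_isMaxOn hne (f := fun y => ⟪y, u⟫) (by fun_prop)
    exact ⟨m, hm, fun y hy => h hy⟩
  choose m hm hle using hmax
  have h0 : (0 : V) ∈ interior C := by
    obtain ⟨z, hz⟩ := hint
    have hz' : -z ∈ C := hs' z (interior_subset hz)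
    have := hc.combo_interior_self_mem_interior hz hz' (a := 1 / 2) (b := 1 / 2) (by norm_num)
      (by norm_num) (by norm_num)
    simpa using this
  obtain ⟨ε, hε, hb⟩ := Metric.mem_nhds_iff.1 (mem_interior_iff_mem_nhds.1 h0)
  have hlow : ∀ u : V, ‖u‖ = 1 → ε / 2 ≤ ⟪m u, u⟫ := by
    intro u hu
    have a1 : (ε / 2) • u ∈ C := by
      apply hb
      rw [mem_ball_zero_iff, norm_smul, hu, Real.norm_of_nonneg (by linarith)]
      linarith
    have a2 := hle u _ a1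
    rw [real_inner_smul_left, real_inner_self_eq_norm_sq, hu] at a2
    linarith
  have hat : ∀ u : V, ∃ y ∈ C, ⟪y, u⟫ = (fun u => ⟪m u, u⟫) u := fun u => ⟨m u, hm u, rfl⟩
  have hZ : Zon fun u : V => ⟪m u, u⟫ := by
    rcases (by omega : finrank ℝ V = 1 ∨ finrank ℝ V = 2) with e | e
    · exact zon_one_PdH1b e hs' hle hat
    · exact zon_two_PdH1b e hC hc hne hs' (fun u hu => by have := hlow u hu; linarith) hle hat
  obtain ⟨μ, t, hμ, ht, e⟩ := exists_Good h1 hZ (half_pos hε) hlow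
  refine ⟨μ, t, hμ, ht, ?_⟩
  rw [← Zs_congr e]
  exact eq_Zs_PdH1b hC hc hne hle hat

end Pool.Agent.P.MP_181257_gt
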