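import Pool.Agent.P.MP_181257_gt.PdD3
import Pool.Agent.P.MP_181257_gt.PdD5

set_option autoImplicit false
set_option linter.unusedSectionVars false
set_option linter.unusedVariables false

open MeasureTheory ProbabilityTheory Module Set Filter Topology Function
open scoped RealInnerProductSpace ENNReal Pointwise LinearAlgebra.Projectivization

noncomputable section

namespace Pool.Agent.P.MP_181257_gt

variable {V : Type} [NormedAddCommGroup V] [InnerProductSpace ℝ V] [FiniteDimensional ℝ V]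
  [MeasurableSpace V] [BorelSpace V] {ι : Type} [Fintype ι] [DecidableEq ι]

theorem cards_PdH2 (b : Basis ι ℝ V) {E F : Submodule ℝ V} [DecidablePred (· ∈ E)]
    (hEF : IsCompl E F) {x : ι → V} (hx : b.det x ≠ 0) (hm : ∀ i, x i ∈ E ∨ x i ∈ F) :
    (Finset.univ.filter fun j => x j ∈ E).card = finrank ℝ E ∧
      (Finset.univ.filter fun j => ¬ x j ∈ E).card = finrank ℝ F := by
  have h1 : (Finset.univ.filter fun j => x j ∈ E).card ≤ finrank ℝ E := by
    by_contra hn
    exact hx (bdet_zero_of_card b (U := E) (fun i hi => (Finset.mem_filter.1 hi).2) (not_le.1 hn))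
  have h2 : (Finset.univ.filter fun j => ¬ x j ∈ E).card ≤ finrank ℝ F := by
    by_contra hn
    exact hx (bdet_zero_of_card b (U := F)
      (fun i hi => (hm i).resolve_left (Finset.mem_filter.1 hi).2) (not_le.1 hn))
  have h3 := Finset.card_filter_add_card_filter_not (s := (Finset.univ : Finset ι))
    fun j => x j ∈ E
  have h4 := Submodule.finrank_add_eq_of_isCompl hEF
  have h5 := Module.finrank_eq_card_basis b
  rw [Finset.card_univ] at h3
  omega

theorem nv_iff_PdH2 (b : Basis ι ℝ V) {E F : Submodule ℝ V}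
    (hEF : IsCompl E F) {x : ι → V} (hx : b.det x ≠ 0) (hm : ∀ i, x i ∈ E ∨ x i ∈ F) (j : ι) :
    Nv b j x ∈ Fᗮ ↔ x j ∈ E := by
  classical
  constructor
  · intro h
    by_contra hn
    have h1 := (Submodule.mem_orthogonal F _).1 h _ ((hm j).resolve_left hn)
    rw [inner_Nv_self, if_pos rfl] at h1
    exact hx h1
  · intro h
    rw [Submodule.mem_orthogonal]
    intro y hy
    rw [inner_Nv]
    refine bdet_zero_of_card b (U := F) (S := insert j (Finset.univ.filter fun j => ¬ x j ∈ E))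
      (fun i hi => ?_) ?_
    · by_cases hij : i = j
      · rw [hij, update_self]
        exact hy
      · rw [update_of_ne hij]
        exact (hm i).resolve_left
          (Finset.mem_filter.1 ((Finset.mem_insert.1 hi).resolve_left hij)).2
    · rw [Finset.card_insert_of_notMem (by simp [h]), (cards_PdH2 b hEF hx hm).2]
      omega

theorem lsum_PdH2 (b : Basis ι ℝ V) {μ : Measure V} [IsProbabilityMeasure μ]
    {E F : Submodule ℝ V} (hEF : IsCompl E F) (hs : μ ((E : Set V) ∪ (F : Set V))ᶜ = 0)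
    {g : ι → (ι → V) → ℝ≥0∞} (hg : ∀ j, Measurable (g j))
    (hgj : ∀ x, b.det x ≠ 0 → (∀ i, x i ∈ E ∨ x i ∈ F) → ∀ j,
      g j x = (E : Set V).indicator 1 (x j)) :
    ∑ j, ∫⁻ x, g j x * ENNReal.ofReal |b.det x| ∂(pw μ ι)
      = finrank ℝ E * ∫⁻ x, ENNReal.ofReal |b.det x| ∂(pw μ ι) := by
  classical
  have hd : Measurable fun x : ι → V => ENNReal.ofReal |b.det x| :=
    (continuous_bdet b).abs.measurable.ennreal_ofReal
  rw [← lintegral_finsetSum _ fun j _ => (hg j).fun_mul hd, ← lintegral_const_mul _ hd]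
  refine lintegral_congr_ae ?_
  have h1 : ∀ᵐ y ∂μ, y ∈ E ∨ y ∈ F := hs
  filter_upwards [ae_pw (ι := ι) h1] with x hm
  by_cases hx : b.det x = 0
  · simp [hx]
  · rw [← Finset.sum_mul, ← (cards_PdH2 b hEF hx hm).1]
    congr 1
    rw [Finset.sum_congr rfl fun j _ => hgj x hx hm j]
    simp [Set.indicator_apply]

theorem real_PdH2 {ν : Measure V} {f : V → ℝ} (hf : Continuous f) (h0 : ∀ w, 0 ≤ f w)
    {S : Set V} (hS : MeasurableSet S) {n m : ℕ}
    (h : (n : ℝ≥0∞) * ∫⁻ w, S.indicator 1 w * ENNReal.ofReal (f w) ∂ν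
      = m * ∫⁻ w, ENNReal.ofReal (f w) ∂ν) :
    (n : ℝ) * ∫ w in S, f w ∂ν = m * ∫ w, f w ∂ν := by
  have h1 : ∫⁻ w, S.indicator 1 w * ENNReal.ofReal (f w) ∂ν
      = ∫⁻ w in S, ENNReal.ofReal (f w) ∂ν := by
    rw [← lintegral_indicator hS]
    refine lintegral_congr fun w => ?_
    by_cases hw : w ∈ S <;> simp [hw]
  rw [integral_eq_lintegral_of_nonneg_ae (ae_of_all _ h0) hf.aestronglyMeasurable,
    integral_eq_lintegral_of_nonneg_ae (ae_of_all _ h0) hf.aestronglyMeasurable, ← h1]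
  have h2 := congrArg ENNReal.toReal h
  simpa only [ENNReal.toReal_mul, ENNReal.toReal_natCast] using h2

theorem triv_PdH2 (E : Submodule ℝ V) (h : finrank ℝ V = 0) (s t : ℝ) :
    (finrank ℝ V : ℝ) * s = finrank ℝ E * t := by
  have h1 := Submodule.finrank_le E
  have h2 : finrank ℝ E = 0 := by omega
  rw [h, h2]
  simp

theorem count_nv {μ ν : Measure V} (hμ : Good μ) (hν : Good ν) (h : Half μ ν)
    {E F : Submodule ℝ V} (hEF : IsCompl E F) (hs : μ ((E : Set V) ∪ (F : Set V))ᶜ = 0) :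
    (finrank ℝ V : ℝ) * ∫ w in (Fᗮ : Set V), Hm μ w ∂ν = finrank ℝ E * ∫ w, Hm μ w ∂ν := by
  have := hμ.mom.prob
  rcases Nat.eq_zero_or_pos (finrank ℝ V) with h0 | h0
  · exact triv_PdH2 E h0 _ _
  let b := Module.finBasis ℝ V
  obtain ⟨a, ha, -, htr⟩ := h.transfer b hμ.mom hν.mom
  have hS : MeasurableSet (Fᗮ : Set V) := (Submodule.closed_of_finiteDimensional _).measurableSet
  have hH : Measurable fun w => ENNReal.ofReal (Hm μ w) :=
    (continuous_Hm hμ.mom).measurable.ennreal_ofReal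
  have hψ : Measurable ((Fᗮ : Set V).indicator (1 : V → ℝ≥0∞)) := measurable_one.indicator hS
  have h1 : ∀ j, ∫⁻ w, (Fᗮ : Set V).indicator 1 w * ENNReal.ofReal (Hm μ w) ∂ν
      = ENNReal.ofReal a * ∫⁻ x, (Fᗮ : Set V).indicator 1 (Nv b j x) *
        ENNReal.ofReal |b.det x| ∂(pw μ _) := fun j => by
    rw [marginal_nv b j hμ.mom hψ]
    refine htr j _ (hψ.mul hH) fun t x => ?_
    rw [Hm_smul, ENNReal.ofReal_mul (abs_nonneg t)]
    by_cases ht : t = 0
    · simp [ht]
    · by_cases hx : x ∈ Fᗮ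
      · have h2 : t • x ∈ Fᗮ := Submodule.smul_mem _ t hx
        simp [hx, h2]
      · have h2 : t • x ∉ Fᗮ := fun h2 => hx ((Submodule.smul_mem_iff _ ht).1 h2)
        simp [hx, h2]
  have h2 : ∫⁻ w, ENNReal.ofReal (Hm μ w) ∂ν
      = ENNReal.ofReal a * ∫⁻ x, ENNReal.ofReal |b.det x| ∂(pw μ _) := by
    have h3 := marginal_nv b ⟨0, h0⟩ hμ.mom (ψ := fun _ => 1) measurable_const
    simp only [one_mul] at h3
    rw [h3]
    refine htr ⟨0, h0⟩ _ hH fun t x => ?_
    rw [Hm_smul, ENNReal.ofReal_mul (abs_nonneg t)]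
  have h3 := lsum_PdH2 b hEF hs (g := fun j x => (Fᗮ : Set V).indicator 1 (Nv b j x))
    (fun j => hψ.comp (continuous_Nv b j).measurable) fun x hx hm j => by
      have h4 := nv_iff_PdH2 b hEF hx hm j
      by_cases h5 : x j ∈ E
      · simp [h5, h4.2 h5]
      · have h6 : Nv b j x ∉ Fᗮ := fun h6 => h5 (h4.1 h6)
        simp [h5, h6]
  refine real_PdH2 (continuous_Hm hμ.mom) (Hm_nonneg μ) hS ?_
  rw [h2, mul_left_comm, ← h3, Finset.mul_sum, ← Finset.sum_congr rfl fun j _ => h1 j]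
  simp

theorem count_pt {ν ρ : Measure V} (hν : Good ν) (hρ : Good ρ) (h : Half ν ρ)
    {E F : Submodule ℝ V} (hEF : IsCompl E F) (hs : ν ((E : Set V) ∪ (F : Set V))ᶜ = 0) :
    (finrank ℝ V : ℝ) * ∫ w in (E : Set V), Hm ρ w ∂ν = finrank ℝ E * ∫ w, Hm ρ w ∂ν := by
  have := hν.mom.prob
  rcases Nat.eq_zero_or_pos (finrank ℝ V) with h0 | h0
  · exact triv_PdH2 E h0 _ _
  let b := Module.finBasis ℝ V
  obtain ⟨a, ha, htr, -⟩ := h.transfer b hν.mom hρ.mom
  have hS : MeasurableSet (E : Set V) := (Submodule.closed_of_finiteDimensional _).measurableSet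
  have hψ : Measurable ((E : Set V).indicator (1 : V → ℝ≥0∞)) := measurable_one.indicator hS
  have h1 : ∀ (ψ : V → ℝ≥0∞), Measurable ψ → ∀ j, ∫⁻ w, ψ w * ENNReal.ofReal (Hm ρ w) ∂ν
      = ENNReal.ofReal a * ∫⁻ x, ψ (x j) * ENNReal.ofReal |b.det x| ∂(pw ν _) := fun ψ hψ j => by
    rw [marginal_pt b j hν.mom hψ, ← lintegral_const_mul _
      (hψ.fun_mul (continuous_Qm b j hν.mom).measurable.ennreal_ofReal)]
    refine lintegral_congr fun w => ?_
    rw [htr j w, ENNReal.ofReal_mul ha.le, mul_left_comm]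
  have h2 := h1 (fun _ => 1) measurable_const ⟨0, h0⟩
  simp only [one_mul] at h2
  have h3 := lsum_PdH2 b hEF hs (g := fun j x => (E : Set V).indicator 1 (x j))
    (fun j => hψ.comp (measurable_pi_apply j)) fun x hx hm j => rfl
  refine real_PdH2 (continuous_Hm hρ.mom) (Hm_nonneg ρ) hS ?_
  rw [h2, mul_left_comm, ← h3, Finset.mul_sum, ← Finset.sum_congr rfl fun j _ => h1 _ hψ j]
  simp

end Pool.Agent.P.MP_181257_gt
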