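import Pool.Agent.P.MP_181257_gt.PdH2

set_option autoImplicit false
set_option linter.unusedSectionVars false
set_option linter.unusedVariables false

open MeasureTheory ProbabilityTheory Module Set Filter Topology Function
open scoped RealInnerProductSpace ENNReal Pointwise LinearAlgebra.Projectivization

noncomputable section

namespace Pool.Agent.P.MP_181257_gt

variable {V : Type} [NormedAddCommGroup V] [InnerProductSpace ℝ V] [FiniteDimensional ℝ V]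
  [MeasurableSpace V] [BorelSpace V] {ι : Type} [Fintype ι] [DecidableEq ι]

theorem lam_PdH3 {μ ν ρ : Measure V} (hμ : Good μ) (hν : Good ν) (h1 : Half μ ν)
    (h2 : Half ν ρ) {E F : Submodule ℝ V} (hEF : IsCompl E F) (hE : E ≠ ⊥)
    (hs : μ ((E : Set V) ∪ (F : Set V))ᶜ = 0) {σ : Measure E} (hσ : Pair (res μ E) σ) :
    ∃ lam : ℝ, ∀ w ∈ Fᗮ, Hm ρ w = lam * Hm μ w := by
  have := hμ.mom.prob
  obtain ⟨τ, c, c', hτ, hc, hc', e1, e2⟩ := exists_part hν hEF hE (Half.split hμ hν h1 hEF hs)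
  obtain ⟨C, hC, e3⟩ := Qd_res hμ hEF hE hs
  obtain ⟨a, ha, e4⟩ := h1
  obtain ⟨a', ha', e5⟩ := h2
  obtain ⟨a1, ha1, e6⟩ := hσ.hl
  obtain ⟨a2, ha2, e7⟩ := hσ.hr
  have hm : 0 < (μ E).toReal :=
    ENNReal.toReal_pos (meas_ne_zero hμ hEF hE hs) (measure_ne_top _ _)
  have e8 : ∀ u : E, Hm τ u = a * C / (c * a1) * Hm σ u := by
    intro u
    have h3 := e1 u
    rw [e4, e3] at h3
    rw [e6]
    field_simp
    linarith
  have e9 := Qd_congr hτ.mom hσ.gr.mom (by positivity) e8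
  refine ⟨a' * c' * (a * C / (c * a1)) ^ (finrank ℝ E - 1) / (a2 * (μ E).toReal),
    fun w hw => ?_⟩
  rw [e5, e2 w hw, e9, Hm_res hμ hEF hE hs hw, e7]
  field_simp

theorem int_pos_PdH3 {μ ν : Measure V} (hμ : Good μ) (hν : Good ν) : 0 < ∫ w, Hm μ w ∂ν := by
  have := hν.mom.prob
  rw [integral_pos_iff_support_of_nonneg (fun w => Hm_nonneg μ w)
    (integrable_Hm_comp hν.mom hμ.mom)]
  have h1 : ν ({0} : Set V)ᶜ = 1 := (prob_compl_eq_one_iff (measurableSet_singleton 0)).2 hν.zero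
  have h2 : ({0} : Set V)ᶜ ⊆ support (Hm μ) := fun w hw => (hμ.pos w hw).ne'
  exact lt_of_lt_of_le (by rw [h1]; exact zero_lt_one) (measure_mono h2)

theorem lam_eq_PdH3 {μ ν ρ : Measure V} (hμ : Good μ) (hν : Good ν) (hρ : Good ρ)
    (h1 : Half μ ν) (h2 : Half ν ρ) {E F : Submodule ℝ V} (hEF : IsCompl E F) (hE : E ≠ ⊥)
    (hs : μ ((E : Set V) ∪ (F : Set V))ᶜ = 0) {σ : Measure E} (hσ : Pair (res μ E) σ) :
    ∀ w ∈ Fᗮ, Hm ρ w = (∫ w, Hm ρ w ∂ν) / (∫ w, Hm μ w ∂ν) * Hm μ w := by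
  obtain ⟨lam, hl⟩ := lam_PdH3 hμ hν h1 h2 hEF hE hs hσ
  have c1 := count_nv hμ hν h1 hEF hs
  have c2 := count_pt hν hρ h2 (isCompl_orth hEF) (Half.split hμ hν h1 hEF hs)
  have hF : MeasurableSet (Fᗮ : Set V) := (Submodule.closed_of_finiteDimensional Fᗮ).measurableSet
  have c3 : ∫ w in (Fᗮ : Set V), Hm ρ w ∂ν = lam * ∫ w in (Fᗮ : Set V), Hm μ w ∂ν := by
    rw [← integral_const_mul]
    exact setIntegral_congr_fun hF fun w hw => hl w hw
  have c4 : finrank ℝ Fᗮ = finrank ℝ E := by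
    have h3 := Submodule.finrank_add_eq_of_isCompl hEF
    have h4 := Submodule.finrank_add_finrank_orthogonal F
    omega
  have c5 : (0 : ℝ) < finrank ℝ E := by
    have : finrank ℝ E ≠ 0 := fun h => hE (Submodule.finrank_eq_zero.1 h)
    positivity
  have c6 := int_pos_PdH3 hμ hν
  have c7 : lam = (∫ w, Hm ρ w ∂ν) / (∫ w, Hm μ w ∂ν) := by
    rw [eq_div_iff c6.ne']
    rw [c3, c4] at c2
    refine mul_left_cancel₀ c5.ne' ?_
    rw [← c2, mul_left_comm, ← c1]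
    ring
  intro w hw
  rw [hl w hw, c7]

theorem inter_PdH3 {r : ℕ} {E : Fin r → Submodule ℝ V} (hi : iSupIndep E) (ht : ⨆ j, E j = ⊤)
    {x : V} (hx : ∀ j, x ∈ (⨆ (i : Fin r) (_ : i ≠ j), E i : Submodule ℝ V)) : x = 0 := by
  have h1 : x ∈ ⨆ i ∈ (Finset.univ : Finset (Fin r)), E i := by
    simp only [Finset.mem_univ, iSup_pos, ht, Submodule.mem_top]
  obtain ⟨y, hy⟩ := (Submodule.mem_iSup_finset_iff_exists_sum E x).1 h1
  have h2 : ∀ j, (y j : V) = 0 := by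
    intro j
    have h3 : ∑ i ∈ Finset.univ.erase j, (y i : V) ∈
        (⨆ (i : Fin r) (_ : i ≠ j), E i : Submodule ℝ V) := by
      refine Submodule.sum_mem _ fun i hi' => ?_
      exact (le_iSup₂_of_le (f := fun (i : Fin r) (_ : i ≠ j) => E i) i
        (Finset.ne_of_mem_erase hi') le_rfl) (y i).2
    have h4 : (y j : V) = x - ∑ i ∈ Finset.univ.erase j, (y i : V) := by
      rw [← hy, ← Finset.add_sum_erase _ _ (Finset.mem_univ j), add_sub_cancel_right]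
    have h5 := Submodule.sub_mem _ (hx j) h3
    rw [← h4] at h5
    exact (Submodule.disjoint_def.1 (isCompl_family hi ht j).disjoint) _ (y j).2 h5
  rw [← hy]
  exact Finset.sum_eq_zero fun j _ => h2 j

theorem pair_of_family {μ : Measure V} (hμ : Good μ) {r : ℕ} {E : Fin r → Submodule ℝ V}
    (hn : 1 ≤ finrank ℝ V) (hi : iSupIndep E) (ht : ⨆ j, E j = ⊤) (hb : ∀ j, E j ≠ ⊥)
    (h : μ (⋃ j, (E j : Set V))ᶜ = 0) (hp : ∀ j, ∃ ρ : Measure (E j), Pair (res μ (E j)) ρ) :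
    ∃ ν : Measure V, Pair μ ν := by
  obtain ⟨ν, hν, h1⟩ := exists_Half hn hμ
  obtain ⟨ρ, hρ, h2⟩ := exists_Half hn hν
  have hc := isCompl_family hi ht
  have hs := null_family h
  have hρj : ∀ j, ρ ((E j : Set V) ∪
      ((⨆ (i : Fin r) (_ : i ≠ j), E i : Submodule ℝ V) : Set V))ᶜ = 0 := by
    intro j
    have h3 := Half.split hν hρ h2 (isCompl_orth (hc j)) (Half.split hμ hν h1 (hc j) (hs j))
    rwa [Submodule.orthogonal_orthogonal, Submodule.orthogonal_orthogonal] at h3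
  have hρu : ρ (⋃ j, (E j : Set V))ᶜ = 0 := by
    have h3 : ρ (({0} : Set V) ∪ ⋃ j, ((E j : Set V) ∪
        ((⨆ (i : Fin r) (_ : i ≠ j), E i : Submodule ℝ V) : Set V))ᶜ) = 0 :=
      measure_union_null hρ.zero (measure_iUnion_null hρj)
    refine measure_mono_null (fun x hx => ?_) h3
    by_contra h4
    simp only [mem_union, mem_singleton_iff, mem_iUnion, mem_compl_iff, not_or, not_exists,
      SetLike.mem_coe, not_and, not_not] at h4 hx
    exact h4.1 (inter_PdH3 hi ht fun j => h4.2 j (hx j))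
  have hl : 0 < (∫ w, Hm ρ w ∂ν) / (∫ w, Hm μ w ∂ν) :=
    div_pos (int_pos_PdH3 hρ hν) (int_pos_PdH3 hμ hν)
  have key : ∀ u, Hm ρ u = (∫ w, Hm ρ w ∂ν) / (∫ w, Hm μ w ∂ν) * Hm μ u := by
    intro u
    rw [Hm_family hρ hi ht hb hρu u, Hm_family hμ hi ht hb h u, Finset.mul_sum]
    refine Finset.sum_congr rfl fun j _ => ?_
    obtain ⟨w, hw, e⟩ := exists_lift (hc j) ((E j).orthogonalProjectionOnto u)
    obtain ⟨σ, hσ⟩ := hp j
    rw [← e, ← Hm_res hρ (hc j) (hb j) (hρj j) hw, ← Hm_res hμ (hc j) (hb j) (hs j) hw]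
    exact lam_eq_PdH3 hμ hν hρ h1 h2 (hc j) (hb j) (hs j) hσ w hw
  obtain ⟨a, ha, e⟩ := h2
  refine ⟨ν, hμ, hν, h1, a / ((∫ w, Hm ρ w ∂ν) / (∫ w, Hm μ w ∂ν)), div_pos ha hl, fun u => ?_⟩
  rw [div_mul_eq_mul_div, ← e, key, mul_div_cancel_left₀ _ hl.ne']

end Pool.Agent.P.MP_181257_gt
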