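import Pool.Agent.P.MP_181257_gt.PdD5

set_option autoImplicit false
set_option linter.unusedSectionVars false
set_option linter.unusedVariables false

open MeasureTheory ProbabilityTheory Module Set Filter Topology Function
open scoped RealInnerProductSpace ENNReal Pointwise LinearAlgebra.Projectivization

noncomputable section

namespace Pool.Agent.P.MP_181257_gt

variable {V : Type} [NormedAddCommGroup V] [InnerProductSpace ℝ V] [FiniteDimensional ℝ V]
  [MeasurableSpace V] [BorelSpace V] {ι : Type} [Fintype ι] [DecidableEq ι]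

/-- gluing of measures on the summands -/
theorem exists_glue {r : ℕ} {E : Fin r → Submodule ℝ V} (hn : 1 ≤ finrank ℝ V)
    (hi : iSupIndep E) (ht : ⨆ j, E j = ⊤)
    (m : ∀ j, Measure (E j)) (hm : ∀ j, Good (m j)) (c : Fin r → ℝ) (hc : ∀ j, 0 < c j) :
    ∃ (μ : Measure V) (t : ℝ), Good μ ∧ 0 < t ∧ μ (⋃ j, (E j : Set V))ᶜ = 0 ∧
      ∀ j, res μ (E j) = m j ∧ t * (μ (E j)).toReal = c j := by
  have hr : Nonempty (Fin r) := by
    by_contra h0
    rw [not_nonempty_iff] at h0
    rw [iSup_of_empty] at ht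
    have h1 : finrank ℝ (⊤ : Submodule ℝ V) = 0 := by rw [← ht, finrank_bot]
    rw [finrank_top] at h1
    omega
  set t : ℝ := ∑ j, c j with htd
  have ht0 : 0 < t := Finset.sum_pos (fun j _ => hc j) Finset.univ_nonempty
  have hE : ∀ j, MeasurableSet (E j : Set V) := fun j =>
    (Submodule.closed_of_finiteDimensional (E j)).measurableSet
  have hemb : ∀ j, MeasurableEmbedding (Subtype.val : E j → V) := fun j =>
    MeasurableEmbedding.subtype_coe (hE j)
  set w : Fin r → ℝ≥0∞ := fun j => ENNReal.ofReal (c j / t) with hw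
  have hw0 : ∀ j, w j ≠ 0 := fun j => (ENNReal.ofReal_pos.2 (div_pos (hc j) ht0)).ne'
  have hwt : ∀ j, w j ≠ ∞ := fun j => ENNReal.ofReal_ne_top
  set μ : Measure V := ∑ j, w j • (m j).map (Subtype.val : E j → V) with hμ
  have app : ∀ s : Set V, μ s = ∑ j, w j * m j (Subtype.val ⁻¹' s) := fun s => by
    rw [hμ, Measure.finsetSum_apply]
    refine Finset.sum_congr rfl fun j _ => ?_
    rw [Measure.smul_apply, (hemb j).map_apply, smul_eq_mul]
  have app' : ∀ j (s : Set V), s ⊆ E j → μ s = w j * m j (Subtype.val ⁻¹' s) := fun j s hs => by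
    rw [app]
    refine Finset.sum_eq_single j (fun i _ hij => ?_) (fun h => absurd (Finset.mem_univ j) h)
    have : m i (Subtype.val ⁻¹' s) = 0 := by
      refine measure_mono_null (fun x hx => ?_) (hm i).zero
      have h1 : (x : V) = 0 :=
        Submodule.disjoint_def.1 (hi.pairwiseDisjoint hij) x x.2 (hs hx)
      exact Subtype.ext h1
    rw [this, mul_zero]
  have hEw : ∀ j, μ (E j) = w j := fun j => by
    have := (hm j).mom.prob
    have e : (Subtype.val ⁻¹' (E j : Set V) : Set (E j)) = univ :=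
      eq_univ_of_forall fun x => x.2
    rw [app' j _ subset_rfl, e, measure_univ, mul_one]
  have hres : ∀ j, res μ (E j) = m j := fun j => by
    ext s hs
    rw [res_apply μ _ hs, hEw, app' j _ (by rintro _ ⟨x, -, rfl⟩; exact x.2),
      preimage_image_eq _ Subtype.val_injective, ← mul_assoc,
      ENNReal.inv_mul_cancel (hw0 j) (hwt j), one_mul]
  have hmom : Mom μ := by
    refine ⟨⟨?_⟩, ?_⟩
    · rw [app]
      have e : ∀ j, w j * m j (Subtype.val ⁻¹' univ) = w j := fun j => by
        have := (hm j).mom.prob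
        rw [preimage_univ, measure_univ, mul_one]
      rw [Finset.sum_congr rfl fun j _ => e j]
      simp only [hw]
      rw [← ENNReal.ofReal_sum_of_nonneg fun j _ => (div_pos (hc j) ht0).le, ← Finset.sum_div,
        ← htd, div_self ht0.ne', ENNReal.ofReal_one]
    · rw [hμ, integrable_finsetSum_measure]
      intro j _
      refine Integrable.smul_measure ?_ (hwt j)
      rw [(hemb j).integrable_map_iff]
      exact (hm j).mom.int
  refine ⟨μ, t, ⟨hmom, ?_, fun u hu => ?_⟩, ht0, ?_, fun j => ⟨hres j, ?_⟩⟩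
  · rw [app]
    refine Finset.sum_eq_zero fun j _ => ?_
    have : m j (Subtype.val ⁻¹' {0}) = 0 :=
      measure_mono_null (fun x hx => (Subtype.ext hx : x = 0)) (hm j).zero
    rw [this, mul_zero]
  · obtain ⟨j, hj⟩ : ∃ j, (E j).orthogonalProjectionOnto u ≠ 0 := by
      by_contra hne
      push Not at hne
      apply hu
      have h1 : ∀ j, E j ≤ (ℝ ∙ u)ᗮ := fun j x hx => by
        rw [Submodule.mem_orthogonal_singleton_iff_inner_right]
        have h2 : u ∈ (E j)ᗮ := Submodule.orthogonalProjectionOnto_eq_zero_iff.1 (hne j)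
        exact Submodule.inner_left_of_mem_orthogonal hx h2
      have h3 : u ∈ (ℝ ∙ u)ᗮ := (ht ▸ iSup_le h1 : (⊤ : Submodule ℝ V) ≤ _) Submodule.mem_top
      rw [Submodule.mem_orthogonal_singleton_iff_inner_right] at h3
      exact inner_self_eq_zero.1 h3
    have h1 := setIntegral_res hmom (E := E j) (by rw [hEw]; exact hw0 j) u
    rw [hres, hEw] at h1
    have h2 : 0 < (w j).toReal * Hm (m j) ((E j).orthogonalProjectionOnto u) :=
      mul_pos (ENNReal.toReal_pos (hw0 j) (hwt j)) ((hm j).pos _ hj)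
    rw [← h1] at h2
    exact h2.trans_le (setIntegral_le_integral (integrable_Hm hmom u)
      (ae_of_all _ fun x => abs_nonneg _))
  · rw [app]
    refine Finset.sum_eq_zero fun j _ => ?_
    have e : (Subtype.val ⁻¹' (⋃ j, (E j : Set V))ᶜ : Set (E j)) = ∅ :=
      eq_empty_of_forall_notMem fun x hx => hx (mem_iUnion.2 ⟨j, x.2⟩)
    rw [e, measure_empty, mul_zero]
  · rw [hEw, hw]
    simp only
    rw [ENNReal.toReal_ofReal (div_pos (hc j) ht0).le, mul_div_cancel₀ _ ht0.ne']

end Pool.Agent.P.MP_181257_gt
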