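import Pool.Agent.P.MP_181257_gt.PdG7
import Pool.Agent.P.MP_181257_gt.PdF5
import Pool.Agent.P.MP_181257_gt.PdD3
import Pool.Agent.P.MP_181257_gt.PdD5
import Pool.Agent.P.MP_181257_gt.PdC1
import Pool.Agent.P.MP_181257_gt.PdC3
import Pool.Agent.P.MP_181257_gt.PdH1b
import Pool.Agent.P.MP_181257_gt.PdH3
import Pool.Agent.P.MP_181257_gt.PdH4

set_option autoImplicit false
set_option linter.unusedSectionVars false
set_option linter.unusedVariables false

open MeasureTheory ProbabilityTheory Module Set Filter Topology Function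
open scoped RealInnerProductSpace ENNReal Pointwise LinearAlgebra.Projectivization

noncomputable section

namespace Pool.Agent.P.MP_181257_gt

variable {V : Type} [NormedAddCommGroup V] [InnerProductSpace ℝ V] [FiniteDimensional ℝ V]
  [MeasurableSpace V] [BorelSpace V] {ι : Type} [Fintype ι] [DecidableEq ι]

theorem center_zero {μ : Measure V} (hμ : Good μ) {c : ℝ} (hc : 0 < c) {x : V}
    (h : -(x +ᵥ Zs fun u => c * Hm μ u) = x +ᵥ Zs fun u => c * Hm μ u) : x = 0 := by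
  obtain ⟨z, hz, hzx⟩ := exists_support_point hμ.mom hc.le x
  have hz' : -z ∈ (Zs fun u => c * Hm μ u) := by
    rw [← (body_Zs hμ hc).2.2.2]
    simpa using hz
  have h1 : -(x + -z) ∈ x +ᵥ Zs fun u => c * Hm μ u := by
    rw [← h, Set.neg_mem_neg]
    exact ⟨-z, hz', rfl⟩
  obtain ⟨w, hw, hwe⟩ := h1
  obtain ⟨z', hz1, hz2⟩ := exists_support_point hμ.mom hc.le (-x)
  have hz3 : -z' ∈ (Zs fun u => c * Hm μ u) := by
    rw [← (body_Zs hμ hc).2.2.2]
    simpa using hz1
  have h2 : -(x + -z') ∈ x +ᵥ Zs fun u => c * Hm μ u := by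
    rw [← h, Set.neg_mem_neg]
    exact ⟨-z', hz3, rfl⟩
  obtain ⟨w', hw', hwe'⟩ := h2
  have h3 := (mem_Zs_iff c w').1 hw' (-x)
  have e : w' = z' - x - x := by
    simp only [vadd_eq_add] at hwe'
    rw [← sub_eq_zero] at hwe' ⊢
    rw [← hwe']
    abel
  rw [e, inner_sub_left, inner_sub_left, hz2, inner_neg_right, real_inner_self_eq_norm_sq] at h3
  have h4 : ‖x‖ ^ 2 ≤ 0 := by linarith
  exact norm_eq_zero.1 (pow_eq_zero_iff two_ne_zero |>.1 (le_antisymm h4 (sq_nonneg _)))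

theorem structure_iff (hn : 1 ≤ finrank ℝ V) {K : Set V} (hK : IsCompact K) (hc : Convex ℝ K)
    (hint : (interior K).Nonempty) :
    SelfProj K ↔ ∃ (r : ℕ) (E : Fin r → Submodule ℝ V) (C : ∀ j, Set (E j)) (x : V),
      iSupIndep E ∧ ⨆ j, E j = ⊤ ∧ K = x +ᵥ ∑ j, (Subtype.val : E j → V) '' C j ∧
      ∀ j, E j ≠ ⊥ ∧ IsCompact (C j) ∧ Convex ℝ (C j) ∧ (interior (C j)).Nonempty ∧
        -C j = C j ∧ (finrank ℝ (E j) ≤ 2 ∨
          (StrictConvex ℝ (C j) ∧ SmoothBody (C j) ∧ SelfProj (C j))) := by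
  constructor
  · intro h
    obtain ⟨μ, ν, c, x, hp, hc0, hKe⟩ := pair_of_selfProj hn hK hc hint h
    obtain ⟨r, E, hi, ht, hb, hnull, hns⟩ := exists_family hn hp.gl
    have := hp.gl.mom.prob
    refine ⟨r, E, fun j => Zs fun u : E j => (c * (μ (E j)).toReal) * Hm (res μ (E j)) u, x, hi, ht,
      by rw [hKe, Zs_family hp.gl hi ht hb hnull hc0], fun j => ?_⟩
    have hco := isCompl_family hi ht j
    have hnj := null_family hnull j
    obtain ⟨ρ, hρ⟩ := hp.res hco (hb j) hnj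
    have hcj : 0 < c * (μ (E j)).toReal :=
      mul_pos hc0 (ENNReal.toReal_pos (meas_ne_zero hp.gl hco (hb j) hnj) (measure_ne_top _ _))
    obtain ⟨b1, b2, b3, b4⟩ := body_Zs hρ.gl hcj
    refine ⟨hb j, b1, b2, b3, b4, ?_⟩
    rcases le_or_gt (finrank ℝ (E j)) 2 with h2 | h2
    · exact Or.inl h2
    · refine Or.inr ⟨?_, smooth_Zs hρ.gl hcj (hρ.csupp_eq (hns j) h2), ?_⟩
      · rcases hρ.dichotomy (hns j) h2 with hg | ha
        · exact strict_Zs hρ.gl hcj hg
        · exact absurd ha (hρ.not_atomic (hns j) h2)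
      · have := selfProj_of_pair (by omega) hρ hcj 0
        rwa [zero_vadd] at this
  · rintro ⟨r, E, C, x, hi, ht, hKe, hC⟩
    have key : ∀ j, ∃ (m : Measure (E j)) (c : ℝ), (∃ ρ, Pair m ρ) ∧ 0 < c ∧
        C j = Zs fun u => c * Hm m u := by
      intro j
      obtain ⟨hb, b1, b2, b3, b4, b5⟩ := hC j
      have h1 : 1 ≤ finrank ℝ (E j) := by
        rw [Nat.one_le_iff_ne_zero]
        exact fun h0 => hb (Submodule.finrank_eq_zero.1 h0)
      rcases b5 with h2 | ⟨-, -, hs⟩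
      · obtain ⟨m, c, hm, hc0, e⟩ := zonoid_low h1 h2 b1 b2 b3 b4
        exact ⟨m, c, pair_low h1 h2 hm, hc0, e⟩
      · obtain ⟨m, ρ, c, y, hp, hc0, e⟩ := pair_of_selfProj h1 b1 b2 b3 hs
        have hy : y = 0 := center_zero hp.gl hc0 (by rw [← e]; exact b4)
        rw [hy, zero_vadd] at e
        exact ⟨m, c, ⟨ρ, hp⟩, hc0, e⟩
    choose m c hm hc0 hCe using key
    have hb : ∀ j, E j ≠ ⊥ := fun j => (hC j).1
    obtain ⟨μ, t, hμ, ht0, hnull, hres⟩ :=
      exists_glue hn hi ht m (fun j => (hm j).choose_spec.gl) c hc0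
    obtain ⟨ν, hp⟩ := pair_of_family hμ hn hi ht hb hnull fun j => by
      rw [(hres j).1]
      exact hm j
    have e : K = x +ᵥ Zs fun u => t * Hm μ u := by
      rw [hKe, Zs_family hμ hi ht hb hnull ht0]
      congr 1
      refine Finset.sum_congr rfl fun j _ => ?_
      rw [hCe j, (hres j).1, (hres j).2]
    rw [e]
    exact selfProj_of_pair hn hp ht0 x

end Pool.Agent.P.MP_181257_gt
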