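import Pool.Agent.P.MP_181257_gt.Shadow
import Pool.Agent.P.MP_181257_gt.Gauss

/-! The volume of a zonoid. -/

set_option autoImplicit false
set_option linter.unusedSectionVars false

open MeasureTheory ProbabilityTheory Module Set Filter Topology
open scoped RealInnerProductSpace ENNReal Pointwise Matrix

noncomputable section

namespace Pool.Agent.P.MP_181257_gt

variable {V : Type} [NormedAddCommGroup V] [InnerProductSpace ℝ V] [FiniteDimensional ℝ V]
  [MeasurableSpace V] [BorelSpace V]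

theorem integrable_det {d : ℕ} {Ω : Type} [MeasurableSpace Ω] (μ : Measure Ω) [IsFiniteMeasure μ]
    {Y : Ω → Fin d → ℝ} (hY : Measurable Y) (hi : Integrable Y μ) :
    Integrable (fun ω : Fin d → Ω => |(Matrix.of fun l j => Y (ω j) l).det|)
      (Measure.pi fun _ => μ) := by
  refine Integrable.abs ?_
  simp only [Matrix.det_apply', Matrix.of_apply]
  refine integrable_finsetSum _ fun σ _ => Integrable.const_mul ?_ _
  exact Integrable.fintype_prod (f := fun j ω => Y ω (σ j)) fun j => hi.eval (σ j)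

theorem zonvol_det {d : ℕ} {A : Matrix (Fin (d + 1)) (Fin (d + 1)) ℝ} {z : Fin (d + 1) → ℝ}
    (hz : A *ᵥ z = Pi.single 0 1) (y : Fin d → Fin (d + 1) → ℝ) :
    (Matrix.of fun l j => Fin.tail (A *ᵥ y j) l).det =
      A.det * (Matrix.of fun l j => (Fin.cons z y : Fin (d + 1) → Fin (d + 1) → ℝ) j l).det := by
  rw [← Matrix.det_mul, Matrix.det_succ_column_zero, Fin.sum_univ_succ]
  have h : ∀ i j, (A * Matrix.of fun l j => (Fin.cons z y : Fin (d + 1) → Fin (d + 1) → ℝ) j l) i j
      = (A *ᵥ (Fin.cons z y : Fin (d + 1) → Fin (d + 1) → ℝ) j) i := fun i j => rfl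
  have h0 : ∀ i, (A * Matrix.of fun l j => (Fin.cons z y : Fin (d + 1) → Fin (d + 1) → ℝ) j l) i 0
      = (Pi.single 0 1 : Fin (d + 1) → ℝ) i := fun i => by rw [h, Fin.cons_zero, hz]
  simp only [h0, Pi.single_eq_same, Pi.single_eq_of_ne (Fin.succ_ne_zero _), mul_zero, zero_mul,
    Finset.sum_const_zero, add_zero, Fin.val_zero, pow_zero, one_mul]
  rfl

theorem zonvol_shad {Ω : Type} [MeasurableSpace Ω] (μ : Measure Ω) [IsFiniteMeasure μ] {d : ℕ}
    {Y : Ω → Fin (d + 1) → ℝ} (hY : Measurable Y) (hi : Integrable Y μ)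
    {Z : Set (Fin (d + 1) → ℝ)} (hZ : IsCompact Z) (hc : Convex ℝ Z)
    (hH : ∀ ℓ : (Fin (d + 1) → ℝ) →L[ℝ] ℝ, IsGreatest (ℓ '' Z) (∫ ω, |ℓ (Y ω)| ∂μ)) :
    ((d + 1 : ℕ) : ℝ) * volume.real Z = ∫ ω, 2 * shad Z (Y ω) ∂μ := by
  have hne : Z.Nonempty := by
    obtain ⟨x, hx, -⟩ := (hH 0).1
    exact ⟨x, hx⟩
  have hint : ∀ η : ℝ, Integrable (Function.uncurry fun (x : Fin (d + 1) → ℝ) (ω : Ω) =>
      |fderiv ℝ (bump η Z) x (Y ω)|) ((volume : Measure (Fin (d + 1) → ℝ)).prod μ) := by
    intro η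
    refine ((integrable_norm_fderiv_bump η hZ hne).mul_prod hi.norm).mono' ?_
      (Eventually.of_forall fun q => ?_)
    · have hm : Measurable fun q : (Fin (d + 1) → ℝ) × Ω => fderiv ℝ (bump η Z) q.1 (Y q.2) :=
        isBoundedBilinearMap_apply.continuous.measurable.comp
          (((measurable_fderiv ℝ (bump η Z)).comp measurable_fst).prodMk (hY.comp measurable_snd))
      exact hm.abs.aestronglyMeasurable
    · rw [Function.uncurry_def, Real.norm_eq_abs, abs_abs]
      exact (fderiv ℝ (bump η Z) q.1).le_opNorm (Y q.2)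
  have h1 := self_variation hZ hc hH
  have h2 : ∀ η : ℝ, (∫ x, ∫ ω, |(-fderiv ℝ (bump η Z) x) (Y ω)| ∂μ) / η =
      ∫ ω, (∫ x, |fderiv ℝ (bump η Z) x (Y ω)|) / η ∂μ := by
    intro η
    simp only [neg_apply, abs_neg]
    rw [integral_integral_swap (hint η), integral_div]
  simp only [h2] at h1
  obtain ⟨B, hB⟩ := shad_bound hZ hc hne
  refine tendsto_nhds_unique h1 (tendsto_integral_filter_of_dominated_convergence
    (fun ω => B * ‖Y ω‖) (Eventually.of_forall fun η => ?_) ?_ (hi.norm.const_mul B)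
    (Eventually.of_forall fun ω => shad_limit hZ hc hne (Y ω)))
  · exact ((hint η).integral_prod_right.div_const η).aestronglyMeasurable
  · filter_upwards [Ioc_mem_nhdsGT (zero_lt_one' ℝ)] with η hη
    refine Eventually.of_forall fun ω => ?_
    rw [Real.norm_of_nonneg (div_nonneg (integral_nonneg fun x => abs_nonneg _) hη.1.le)]
    exact hB η hη (Y ω)

theorem zon_vol {Ω : Type} [MeasurableSpace Ω] (μ : Measure Ω) [IsFiniteMeasure μ] :
    ∀ (d : ℕ) (Y : Ω → Fin d → ℝ), Measurable Y → Integrable Y μ →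
      ∀ Z : Set (Fin d → ℝ), IsCompact Z → Convex ℝ Z →
      (∀ ℓ : (Fin d → ℝ) →L[ℝ] ℝ, IsGreatest (ℓ '' Z) (∫ ω, |ℓ (Y ω)| ∂μ)) →
      volume.real Z * (d.factorial : ℝ)
        = 2 ^ d * ∫ ω : Fin d → Ω, |(Matrix.of fun l j => Y (ω j) l).det|
            ∂(Measure.pi fun _ => μ) := by
  intro d
  induction d with
  | zero =>
    intro Y _ _ Z _ _ hH
    obtain ⟨x, hx, -⟩ := (hH 0).1
    have hZ : Z = univ := eq_univ_of_forall fun y => Subsingleton.elim x y ▸ hx
    simp [hZ, Measure.real, volume_pi]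
  | succ d ih =>
    intro Y hY hi Z hZ hc hH
    have key : ∀ z : Fin (d + 1) → ℝ, shad Z z * (d.factorial : ℝ) = 2 ^ d * ∫ ω : Fin d → Ω,
        |(Matrix.of fun l j =>
          (Fin.cons z (fun j => Y (ω j)) : Fin (d + 1) → Fin (d + 1) → ℝ) j l).det|
          ∂(Measure.pi fun _ => μ) := by
      intro z
      by_cases hz : z = 0
      · subst hz
        have h0 : ∀ ω : Fin d → Ω, (Matrix.of fun l j =>
            (Fin.cons 0 (fun j => Y (ω j)) : Fin (d + 1) → Fin (d + 1) → ℝ) j l).det = 0 :=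
          fun ω => Matrix.det_eq_zero_of_column_eq_zero 0 fun i => rfl
        simp only [h0, shad_zero, abs_zero, integral_zero, zero_mul, mul_zero]
      obtain ⟨A, hA, hAz⟩ := exists_matrix hz
      let T : (Fin (d + 1) → ℝ) →L[ℝ] (Fin d → ℝ) :=
        LinearMap.toContinuousLinearMap ((LinearMap.funLeft ℝ ℝ Fin.succ).comp A.mulVecLin)
      have hT : ∀ x, T x = Fin.tail (A *ᵥ x) := fun x => rfl
      have h1 := ih (fun ω => T (Y ω)) (T.continuous.measurable.comp hY) (T.integrable_comp hi)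
        (T '' Z) (hZ.image T.continuous) (hc.linear_image T.toLinearMap)
        (fun ℓ => by rw [image_image]; exact hH (ℓ.comp T))
      simp only [hT, zonvol_det hAz, abs_mul] at h1
      rw [integral_const_mul] at h1
      have hA' : |A.det| ≠ 0 := abs_ne_zero.2 hA
      rw [shad_eq hc hZ.isBounded (Or.inr hZ) hA zero_le_one hAz, one_mul, div_mul_eq_mul_div, h1]
      field_simp
    have hm := mp_cons (k := d) μ
    have hI := integrable_det μ hY hi
    have e1 : ∫ ω : Fin (d + 1) → Ω, |(Matrix.of fun l j => Y (ω j) l).det|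
        ∂(Measure.pi fun _ => μ) = ∫ a, ∫ ω : Fin d → Ω, |(Matrix.of fun l j =>
          (Fin.cons (Y a) (fun j => Y (ω j)) : Fin (d + 1) → Fin (d + 1) → ℝ) j l).det|
          ∂(Measure.pi fun _ => μ) ∂μ := by
      rw [← hm.map_eq, integral_map hm.measurable.aemeasurable
        (by rw [hm.map_eq]; exact hI.aestronglyMeasurable)]
      refine (integral_prod _ (hm.integrable_comp_of_integrable hI)).trans
        (integral_congr_ae (Eventually.of_forall fun a =>
          integral_congr_ae (Eventually.of_forall fun ω => ?_)))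
      have e : (fun l j => Y ((Fin.cons a ω : Fin (d + 1) → Ω) j) l) = fun l j =>
          (Fin.cons (Y a) (fun j => Y (ω j)) : Fin (d + 1) → Fin (d + 1) → ℝ) j l := by
        funext l j
        refine Fin.cases ?_ (fun j => ?_) j <;> rfl
      simp only [Function.comp_apply, e]
    rw [e1, Nat.factorial_succ, Nat.cast_mul, ← mul_assoc, mul_comm (volume.real Z),
      zonvol_shad μ hY hi hZ hc hH, ← integral_mul_const, ← integral_const_mul]
    refine integral_congr_ae (Eventually.of_forall fun a => ?_)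
    simp only
    rw [mul_assoc, key]
    ring

end Pool.Agent.P.MP_181257_gt
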