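import Pool.Agent.P.MP_181257_gt.Rep
import Pool.Agent.P.MP_181257_gt.ZonVol
import Pool.Agent.P.MP_181257_gt.BP
import Pool.Agent.P.MP_181257_gt.Moment
import Pool.Agent.P.MP_181257_gt.AF

/-! The projection body operator on densities. -/

set_option autoImplicit false
set_option linter.unusedSectionVars false

open MeasureTheory ProbabilityTheory Module Set Filter Topology
open scoped RealInnerProductSpace ENNReal Pointwise Matrix

noncomputable section

namespace Pool.Agent.P.MP_181257_gt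

variable {V : Type} [NormedAddCommGroup V] [InnerProductSpace ℝ V] [FiniteDimensional ℝ V]
  [MeasurableSpace V] [BorelSpace V]

theorem proj_continuous_det {k : ℕ} :
    Continuous fun q : (Fin k → V) × (Fin k → V) =>
      |(Matrix.of fun l j => ⟪q.1 l, q.2 j⟫).det| := by
  refine Continuous.abs (Continuous.matrix_det ?_)
  refine continuous_matrix fun i j => ?_
  simp only [Matrix.of_apply]
  fun_prop

theorem proj_measurable_det {k : ℕ} (v : Fin k → V) :
    Measurable fun g : Fin k → V => |(Matrix.of fun l j => ⟪g l, v j⟫).det| :=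
  (proj_continuous_det.comp (continuous_id.prodMk continuous_const)).measurable

theorem proj_det_step {k : ℕ} (v : Fin (k + 1) → V) {u : V} (hu : ‖u‖ = 1)
    (hau : v 0 = ‖v 0‖ • u) (ha : v 0 ≠ 0) (t : Fin (k + 1) → ℝ) (g : Fin (k + 1) → V)
    (Q : Matrix (Fin (k + 1)) (Fin (k + 1)) ℝ) (r : ℝ) (hQ : Q * Qᵀ = 1) (hr : 0 ≤ r)
    (ht : Q *ᵥ t = Pi.single 0 r) :
    |(Matrix.of fun l j => ⟪pr u (g l) + t l • u, v j⟫).det|
      = r * (‖v 0‖ * |(Matrix.of fun (l j : Fin k) =>
          ⟪∑ i, Q l.succ i • g i, pr (v 0) (v j.succ)⟫).det|) := by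
  have hpos : 0 < ‖v 0‖ := norm_pos_iff.2 ha
  have hpr : ∀ x, pr (v 0) x = pr u x := fun x => by
    rw [hau]; exact pr_smul_left hpos.ne' u x
  set w : Fin (k + 1) → V := Fin.cons (v 0) fun j => pr (v 0) (v j.succ) with hw
  set c : Fin (k + 1) → ℝ := Fin.cons 0 fun j => ⟪v 0, v j.succ⟫ / ‖v 0‖ ^ 2 with hc
  have hv : ∀ i, v i = w i + c i • w 0 := by
    intro i
    refine Fin.cases ?_ (fun j => ?_) i
    · simp [hw, hc]
    · simp [hw, hc, pr]
  set M : Matrix (Fin (k + 1)) (Fin (k + 1)) ℝ :=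
    Matrix.of fun l j => ⟪pr u (g l) + t l • u, w j⟫ with hM
  have h1 : (Matrix.of fun l j => ⟪pr u (g l) + t l • u, v j⟫).det = M.det := by
    rw [← Matrix.det_transpose M, ← Matrix.det_transpose (Matrix.of _)]
    refine Matrix.det_eq_of_forall_row_eq_smul_add_const c 0 (by simp [hc]) fun i j => ?_
    simp only [Matrix.transpose_apply, hM, Matrix.of_apply]
    rw [hv i, inner_add_right, real_inner_smul_right]
  have hd : |Q.det| = 1 := by
    have := congrArg Matrix.det hQ
    rw [Matrix.det_mul, Matrix.det_transpose, Matrix.det_one] at this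
    rcases mul_self_eq_one_iff.1 this with h | h <;> simp [h]
  have h2 : |M.det| = |(Q * M).det| := by rw [Matrix.det_mul, abs_mul, hd, one_mul]
  have hcol : ∀ l, (Q * M) l 0 = ‖v 0‖ * (Pi.single 0 r : Fin (k + 1) → ℝ) l := by
    intro l
    rw [← ht, Matrix.mul_apply, Matrix.mulVec, dotProduct, Finset.mul_sum]
    refine Finset.sum_congr rfl fun i _ => ?_
    have e : M i 0 = ‖v 0‖ * t i := by
      simp only [hM, Matrix.of_apply, hw, Fin.cons_zero]
      conv_lhs => rw [hau]
      rw [real_inner_smul_right, inner_add_left, real_inner_smul_left, real_inner_comm,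
        inner_pr_self, real_inner_self_eq_norm_sq, hu]
      ring
    rw [e]; ring
  have hsub : (Q * M).submatrix (Fin.succAbove 0) Fin.succ = Matrix.of fun (l j : Fin k) =>
      ⟪∑ i, Q l.succ i • g i, pr (v 0) (v j.succ)⟫ := by
    ext l j
    simp only [Matrix.submatrix_apply, Fin.succAbove_zero, Matrix.mul_apply, Matrix.of_apply, hM,
      hw, Fin.cons_succ, sum_inner, real_inner_smul_left]
    refine Finset.sum_congr rfl fun i _ => ?_
    rw [hpr, inner_add_left, real_inner_smul_left, inner_pr_self, inner_pr_comm, pr_pr]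
    ring
  rw [h1, h2, Matrix.det_succ_column_zero, Fin.sum_univ_succ]
  have hz : ∀ i : Fin k, (Q * M) i.succ 0 = 0 := fun i => by
    rw [hcol]; simp
  simp only [hz, mul_zero, zero_mul, Finset.sum_const_zero, add_zero]
  rw [hsub, hcol]
  simp only [Pi.single_eq_same, Fin.val_zero, pow_zero, one_mul, abs_mul, abs_norm, abs_of_nonneg hr]
  ring

theorem proj_gauss_det : ∀ k : ℕ, ∃ c : ℝ≥0∞, c ≠ 0 ∧ c ≠ ∞ ∧ ∀ v : Fin k → V,
    ∫⁻ g, ENNReal.ofReal |(Matrix.of fun l j => ⟪g l, v j⟫).det| ∂(γk V k)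
      = c * ENNReal.ofReal (D v)
  | 0 => ⟨1, one_ne_zero, ENNReal.one_ne_top, fun v => by simp⟩
  | k + 1 => by
    obtain ⟨c, hc0, hct, h⟩ := proj_gauss_det k
    refine ⟨aN (k + 1) * c, mul_ne_zero (aN_ne_zero k) hc0,
      ENNReal.mul_ne_top (aN_ne_top _) hct, fun v => ?_⟩
    by_cases ha : v 0 = 0
    · have : ∀ g : Fin (k + 1) → V, (Matrix.of fun l j => ⟪g l, v j⟫).det = 0 := fun g =>
        Matrix.det_eq_zero_of_column_eq_zero 0 fun i => by simp [ha]
      simp [this, D_succ, ha]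
    · have hpos : 0 < ‖v 0‖ := norm_pos_iff.2 ha
      have hu : ‖‖v 0‖⁻¹ • v 0‖ = 1 := by
        rw [norm_smul, norm_inv, norm_norm, inv_mul_cancel₀ hpos.ne']
      have hau : v 0 = ‖v 0‖ • ‖v 0‖⁻¹ • v 0 := by
        rw [smul_smul, mul_inv_cancel₀ hpos.ne', one_smul]
      have hm := (proj_measurable_det fun j : Fin k => pr (v 0) (v j.succ)).ennreal_ofReal
      rw [core hu (Θ := fun g => ENNReal.ofReal ‖v 0‖ * ENNReal.ofReal
          |(Matrix.of fun (l j : Fin k) => ⟪g l, pr (v 0) (v j.succ)⟫).det|)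
          (proj_measurable_det v).ennreal_ofReal (hm.const_mul _) ?_]
      · rw [lintegral_const_mul _ hm, h, D_succ, ENNReal.ofReal_mul (norm_nonneg _)]
        ring
      · intro t g Q r hQ hr ht
        rw [proj_det_step v hu hau ha t g Q r hQ hr ht, ENNReal.ofReal_mul hr,
          ENNReal.ofReal_mul (norm_nonneg _)]

theorem gauss_det (k : ℕ) : ∃ c : ℝ, 0 < c ∧ ∀ v : Fin k → V,
    Integrable (fun g : Fin k → V => |(Matrix.of fun l j => ⟪g l, v j⟫).det|) (γk V k) ∧
    ∫ g, |(Matrix.of fun l j => ⟪g l, v j⟫).det| ∂(γk V k) = c * D v := by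
  obtain ⟨c, hc0, hct, h⟩ := proj_gauss_det (V := V) k
  refine ⟨c.toReal, ENNReal.toReal_pos hc0 hct, fun v => ⟨?_, ?_⟩⟩
  · refine ⟨(proj_measurable_det v).aestronglyMeasurable, ?_⟩
    rw [hasFiniteIntegral_iff_ofReal (ae_of_all _ fun g => abs_nonneg _), h]
    exact ENNReal.mul_lt_top hct.lt_top ENNReal.ofReal_lt_top
  · rw [integral_eq_lintegral_of_nonneg_ae (ae_of_all _ fun g => abs_nonneg _)
      (proj_measurable_det v).aestronglyMeasurable, h, ENNReal.toReal_mul,
      ENNReal.toReal_ofReal (D_nonneg _)]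

theorem proj_integrable_hz {f : V → ℝ} (hf : Bd f) (u : V) :
    Integrable (fun y => |⟪u, y⟫| * f y) (stdGaussian V) := by
  obtain ⟨C, h⟩ := hf.bdd
  exact (integrable_abs_inner u).mul_bdd hf.meas.aestronglyMeasurable (ae_of_all _ h)

theorem hz_le {f : V → ℝ} (hf : Pos f) : ∃ B : ℝ, ∀ u : V, ‖u‖ = 1 → hz f u ≤ B := by
  obtain ⟨c, C, hc, h⟩ := hf.bdd
  refine ⟨c0 * C, fun u hu => ?_⟩
  calc hz f u ≤ ∫ y, |⟪u, y⟫| * C ∂(stdGaussian V) :=
        integral_mono (proj_integrable_hz hf.bd u) ((integrable_abs_inner u).mul_const C)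
          fun y => mul_le_mul_of_nonneg_left (h y).2 (abs_nonneg _)
    _ = c0 * C := by rw [integral_mul_const, integral_abs_inner, hu, mul_one]

theorem proj_vol {i : ℕ} {f : V → ℝ} (hf : Pos f) (u : V) (g : Fin i → V) :
    (volume (lin g '' (pr u '' Zs (hz f)))).toReal = 2 ^ i / (i.factorial : ℝ) *
      ∫ x : Fin i → V, |(Matrix.of fun l j => ⟪g l, pr u (x j)⟫).det| * ∏ j, f (x j)
        ∂(γk V i) := by
  obtain ⟨B, hB⟩ := hz_le hf
  obtain ⟨C, hC⟩ := hf.bd.bdd
  have hid : Integrable (fun x : V => x) (stdGaussian V) := by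
    have := integrable_norm_pow (V := V) 1
    simp only [pow_one] at this
    exact (integrable_norm_iff measurable_id.aestronglyMeasurable).1 this
  have hY0 : Measurable fun w : V => f w • w := hf.meas.smul measurable_id
  have hi0 : Integrable (fun w : V => f w • w) (stdGaussian V) :=
    hid.bdd_smul C hf.meas.aestronglyMeasurable (ae_of_all _ hC)
  set L : V →L[ℝ] (Fin i → ℝ) := (lin g).comp (prL u) with hL
  have himg : lin g '' (pr u '' Zs (hz f)) = L '' Zs (hz f) := by
    rw [image_image]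
    exact image_congr fun x _ => by simp [hL]
  have hZ : hz f = fun a => ∫ w, |⟪a, f w • w⟫| ∂(stdGaussian V) := by
    funext a
    refine integral_congr_ae (ae_of_all _ fun w => ?_)
    simp only [real_inner_smul_right, abs_mul, abs_of_pos (hf.pos w)]
    ring
  have key := zon_vol (stdGaussian V) i (fun w => L (f w • w)) (L.continuous.measurable.comp hY0)
    (L.integrable_comp hi0) (L '' Zs (hz f)) ((isCompact_Zs hB).image L.continuous)
    ((convex_Zs _).linear_image (L : V →ₗ[ℝ] (Fin i → ℝ))) (fun ℓ => by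
      set w : V := (InnerProductSpace.toDual ℝ V).symm (ℓ.comp L) with hw
      have hw' : ∀ x, ℓ (L x) = ⟪w, x⟫ := fun x => by
        rw [hw, InnerProductSpace.toDual_symm_apply]; rfl
      have := isGreatest_Zs (stdGaussian V) hY0 hi0 w
      rw [← hZ] at this
      rw [image_image]
      simp only [hw']
      simpa only [real_inner_comm w] using this)
  have hdet : ∀ x : Fin i → V, |(Matrix.of fun l j => L (f (x j) • x j) l).det|
      = |(Matrix.of fun l j => ⟪g l, pr u (x j)⟫).det| * ∏ j, f (x j) := by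
    intro x
    have e : (Matrix.of fun l j => L (f (x j) • x j) l)
        = Matrix.of fun l j => f (x j) * (Matrix.of fun l j => ⟪g l, pr u (x j)⟫) l j := by
      ext l j
      simp [hL]
    rw [e, Matrix.det_mul_row, abs_mul,
      abs_of_nonneg (Finset.prod_nonneg fun j _ => (hf.pos _).le), mul_comm]
  simp only [hdet] at key
  have hfac : (i.factorial : ℝ) ≠ 0 := by positivity
  rw [himg, ← measureReal_def, div_mul_eq_mul_div, eq_div_iff hfac, key]

theorem PP_hz_eq (i : ℕ) : ∃ c : ℝ, 0 < c ∧ ∀ f : V → ℝ, Pos f → ∀ u : V,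
    PP i (hz f) u = c * ∫ x, D (fun j => pr u (x j)) * ∏ j, f (x j) ∂(γk V i) := by
  obtain ⟨c, hc, h⟩ := gauss_det (V := V) i
  refine ⟨2 ^ i / (i.factorial : ℝ) * c, by positivity, fun f hf u => ?_⟩
  have hprod : Measurable fun x : Fin i → V => ∏ j, f (x j) :=
    Finset.measurable_prod _ fun j _ => hf.meas.comp (measurable_pi_apply j)
  have hin : ∀ x : Fin i → V,
      ∫ g, |(Matrix.of fun l j => ⟪g l, pr u (x j)⟫).det| * ∏ j, f (x j) ∂(γk V i)
        = c * (D (fun j => pr u (x j)) * ∏ j, f (x j)) := fun x => by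
    rw [integral_mul_const, (h _).2, mul_assoc]
  have hD := integrable_D (k := i) (prL u) (fun x => by rw [prL_apply]; exact norm_pr_le u x)
    (g := fun _ => f) fun _ => hf.bd
  simp only [prL_apply] at hD
  have hmeas : Measurable fun q : (Fin i → V) × (Fin i → V) =>
      |(Matrix.of fun l j => ⟪q.1 l, pr u (q.2 j)⟫).det| * ∏ j, f (q.2 j) := by
    refine Measurable.mul ?_ (hprod.comp measurable_snd)
    refine Continuous.measurable (Continuous.abs (Continuous.matrix_det ?_))
    refine continuous_matrix fun l j => ?_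
    simp only [Matrix.of_apply, ← prL_apply]
    fun_prop
  have hint : Integrable (fun q : (Fin i → V) × (Fin i → V) =>
      |(Matrix.of fun l j => ⟪q.1 l, pr u (q.2 j)⟫).det| * ∏ j, f (q.2 j))
      ((γk V i).prod (γk V i)) := by
    refine (integrable_prod_iff' hmeas.aestronglyMeasurable).2 ⟨ae_of_all _ fun x => ?_, ?_⟩
    · exact (h fun j => pr u (x j)).1.mul_const (∏ j, f (x j))
    refine (hD.const_mul c).congr (ae_of_all _ fun x => ?_)
    simp only
    rw [← hin]
    refine integral_congr_ae (ae_of_all _ fun g => ?_)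
    simp only
    rw [Real.norm_of_nonneg
      (mul_nonneg (abs_nonneg _) (Finset.prod_nonneg fun j _ => (hf.pos _).le))]
  rw [PP, intrinsicVol_eq]
  simp only [proj_vol hf]
  rw [integral_const_mul, integral_integral_swap hint]
  simp only [hin]
  rw [integral_const_mul, mul_assoc]

theorem proj_integrable_sq {k : ℕ} {f : V → ℝ} (hf : Pos f) (b : V) :
    Integrable (fun x : Fin k → V => D (fun j => pr b (x j)) ^ 2 * ∏ j, f (pr b (x j)))
      (γk V k) := by
  obtain ⟨C, hC⟩ := hf.bd.bdd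
  have hprod : Measurable fun x : Fin k → V => ∏ j, f (pr b (x j)) :=
    Finset.measurable_prod _ fun j _ => hf.meas.comp (by fun_prop)
  have h1 : Integrable (fun x : Fin k → V => D (fun j => pr b (x j)) ^ 2) (γk V k) := by
    refine (integrable_prod_norm_pow k 2).mono' (Measurable.aestronglyMeasurable (by fun_prop))
      (ae_of_all _ fun x => ?_)
    rw [Real.norm_of_nonneg (sq_nonneg _), Finset.prod_pow]
    refine pow_le_pow_left₀ (D_nonneg _) ((D_le_prod _).trans ?_) 2
    exact Finset.prod_le_prod (fun _ _ => norm_nonneg _) fun j _ => norm_pr_le _ _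
  refine h1.mul_bdd (c := C ^ k) hprod.aestronglyMeasurable (ae_of_all _ fun x => ?_)
  rw [Real.norm_eq_abs, Finset.abs_prod]
  calc ∏ j, |f (pr b (x j))| ≤ ∏ _j : Fin k, C :=
        Finset.prod_le_prod (fun _ _ => abs_nonneg _) fun j _ => hC _
    _ = C ^ k := by simp

theorem proj_bp (s : ℕ) {m k : ℕ} (hm : finrank ℝ V = m + 1) (hk : k ≤ m) :
    ∃ C : ℝ≥0∞, C ≠ 0 ∧ C ≠ ∞ ∧ ∀ f : V → ℝ, Pos f → ∀ φ : V → ℝ≥0∞, Measurable φ →
      (∀ b, φ b ≠ ∞) → (∀ y (t : ℝ), 0 < t → φ (t • y) = ENNReal.ofReal (t ^ s) * φ y) →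
      ∫⁻ x, ENNReal.ofReal (D x * ∏ j, f (x j)) * ∫⁻ b, φ (Pj k x b) ∂(stdGaussian V) ∂(γk V k)
        = C * ∫⁻ b, φ b * ENNReal.ofReal (sk k f b) ∂(stdGaussian V) := by
  obtain ⟨C, hC0, hCt, h⟩ := bp s k (m + 1) (by omega)
  have hN : (0 : ℝ) < (m.descFactorial k : ℝ) := by
    exact_mod_cast Nat.descFactorial_pos.2 hk
  refine ⟨C * ENNReal.ofReal (m.descFactorial k : ℝ), mul_ne_zero hC0 (by simpa using hN),
    ENNReal.mul_ne_top hCt ENNReal.ofReal_ne_top, fun f hf φ hφ hfin hom => ?_⟩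
  have hprod : Measurable fun x : Fin k → V => ∏ j, f (x j) :=
    Finset.measurable_prod _ fun j _ => hf.meas.comp (measurable_pi_apply j)
  have hA : Measurable fun x : Fin k → V => ENNReal.ofReal (D x * ∏ j, f (x j)) :=
    ((measurable_D measurable_id).mul hprod).ennreal_ofReal
  have key := h V hm (fun q => ENNReal.ofReal (D q.1 * ∏ j, f (q.1 j)) * φ q.2)
    ((hA.comp measurable_fst).mul (hφ.comp measurable_snd))
    (fun x y t ht => by simp only [hom y t ht]; ring)
  simp only at key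
  have e1 : ∀ x : Fin k → V, ∫⁻ b, ENNReal.ofReal (D x * ∏ j, f (x j)) * φ (Pj k x b)
      ∂(stdGaussian V) = ENNReal.ofReal (D x * ∏ j, f (x j)) * ∫⁻ b, φ (Pj k x b)
      ∂(stdGaussian V) := fun x => lintegral_const_mul' _ _ ENNReal.ofReal_ne_top
  simp only [e1] at key
  rw [key, mul_assoc, ← lintegral_const_mul' _ _ ENNReal.ofReal_ne_top]
  congr 1
  refine lintegral_congr_ae ((ae_ne_zero (V := V) (by omega)).mono fun b hb => ?_)
  have e2 : ∀ x : Fin k → V, ENNReal.ofReal (D fun j => pr b (x j)) *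
      (ENNReal.ofReal (D (fun j => pr b (x j)) * ∏ j, f (pr b (x j))) * φ b)
      = φ b * ENNReal.ofReal (D (fun j => pr b (x j)) ^ 2 * ∏ j, f (pr b (x j))) := fun x => by
    rw [← mul_assoc, ← ENNReal.ofReal_mul (D_nonneg _), mul_comm, ← mul_assoc, ← sq]
  simp only [e2]
  rw [lintegral_const_mul' _ _ (hfin b), ← ofReal_integral_eq_lintegral_ofReal
    (proj_integrable_sq hf b) (ae_of_all _ fun x =>
      mul_nonneg (sq_nonneg _) (Finset.prod_nonneg fun j _ => (hf.pos _).le)),
    mul_left_comm, ← ENNReal.ofReal_mul hN.le]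
  congr 2
  simp only [sk, if_neg hb, hm, Nat.add_sub_cancel]
  field_simp

theorem proj_integrable_D {k : ℕ} {f : V → ℝ} (hf : Pos f) :
    Integrable (fun x : Fin k → V => D x * ∏ j, f (x j)) (γk V k) :=
  integrable_D (k := k) (ContinuousLinearMap.id ℝ V) (fun _ => le_rfl) (g := fun _ => f)
    fun _ => hf.bd

theorem bp_mass {m k : ℕ} (hm : finrank ℝ V = m + 1) (h1 : 1 ≤ m) (hk : k ≤ m) {f : V → ℝ}
    (hf : Den f) :
    (∫ y, sk k f y ∂(stdGaussian V)) * ∫ x, D x ∂(γk V k)
      = ∫ x, D x * ∏ j, f (x j) ∂(γk V k) := by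
  obtain ⟨C, hC0, hCt, h⟩ := proj_bp (V := V) 0 hm hk
  have key : ∀ g : V → ℝ, Den g →
      ∫ x, D x * ∏ j, g (x j) ∂(γk V k) = C.toReal * ∫ y, sk k g y ∂(stdGaussian V) := by
    intro g hg
    have hs := den_sk hm h1 hk hg
    have := h g hg.toPos (fun _ => 1) measurable_const (fun _ => ENNReal.one_ne_top)
      (fun _ _ _ => by simp)
    simp only [lintegral_const, measure_univ, mul_one, one_mul] at this
    rw [integral_eq_lintegral_of_nonneg_ae (ae_of_all _ fun x =>
        mul_nonneg (D_nonneg _) (Finset.prod_nonneg fun j _ => (hg.toPos.pos _).le))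
      (proj_integrable_D hg.toPos).aestronglyMeasurable, this, ENNReal.toReal_mul,
      integral_eq_lintegral_of_nonneg_ae (ae_of_all _ fun y => (hs.toPos.pos y).le)
        hs.meas.aestronglyMeasurable]
  have h1' := key _ Den.one
  simp only [Finset.prod_const_one, mul_one, sk_one hm h1 hk, integral_const, probReal_univ,
    smul_eq_mul] at h1'
  rw [key f hf, h1', mul_comm]

theorem bp_supp {m k : ℕ} (hm : finrank ℝ V = m + 1) (h1 : 1 ≤ m) (hk : k ≤ m) :
    ∃ c : ℝ, 0 < c ∧ ∀ f : V → ℝ, Den f → ∀ u : V, ‖u‖ = 1 →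
      ∫ x, D (fun j => pr u (x j)) * ∏ j, f (x j) ∂(γk V k) = c * hz (sk k f) u := by
  obtain ⟨C, hC0, hCt, h⟩ := proj_bp (V := V) 1 hm hk
  have hc := c0_pos
  refine ⟨C.toReal / c0, div_pos (ENNReal.toReal_pos hC0 hCt) hc, fun f hf u hu => ?_⟩
  have hs := den_sk hm h1 hk hf
  have key := h f hf.toPos (fun y => ENNReal.ofReal |⟪u, y⟫|)
    (Measurable.ennreal_ofReal (by fun_prop)) (fun _ => ENNReal.ofReal_ne_top)
    (fun y t ht => by
      rw [real_inner_smul_right, abs_mul, abs_of_pos ht, pow_one, ENNReal.ofReal_mul ht.le])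
  have hpn : ∀ x : Fin k → V, 0 ≤ ∏ j, f (x j) := fun x =>
    Finset.prod_nonneg fun j _ => (hf.toPos.pos _).le
  have e1 : ∀ x : Fin k → V, ENNReal.ofReal (D x * ∏ j, f (x j)) *
      ∫⁻ b, ENNReal.ofReal |⟪u, Pj k x b⟫| ∂(stdGaussian V)
      = ENNReal.ofReal (c0 * (D (fun j => pr u (x j)) * ∏ j, f (x j))) := by
    intro x
    simp only [← inner_Pj_comm]
    rw [← ofReal_integral_eq_lintegral_ofReal (integrable_abs_inner _)
      (ae_of_all _ fun _ => abs_nonneg _), integral_abs_inner,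
      ← ENNReal.ofReal_mul (mul_nonneg (D_nonneg _) (hpn x))]
    congr 1
    have e := D_cons_eq u x
    rw [D_cons, hu, one_mul] at e
    rw [e]
    ring
  have e2 : ∀ b : V, ENNReal.ofReal |⟪u, b⟫| * ENNReal.ofReal (sk k f b)
      = ENNReal.ofReal (|⟪u, b⟫| * sk k f b) := fun b => (ENNReal.ofReal_mul (abs_nonneg _)).symm
  simp only [e1, e2] at key
  have hD := integrable_D (k := k) (prL u) (fun x => by rw [prL_apply]; exact norm_pr_le u x)
    (g := fun _ => f) fun _ => hf.toPos.bd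
  simp only [prL_apply] at hD
  have key2 := congrArg ENNReal.toReal key
  rw [← integral_eq_lintegral_of_nonneg_ae (ae_of_all _ fun x =>
      mul_nonneg hc.le (mul_nonneg (D_nonneg _) (hpn x))) (hD.const_mul c0).aestronglyMeasurable,
    ENNReal.toReal_mul, ← integral_eq_lintegral_of_nonneg_ae (ae_of_all _ fun b =>
      mul_nonneg (abs_nonneg _) (hs.toPos.pos b).le)
      (proj_integrable_hz hs.toPos.bd u).aestronglyMeasurable, integral_const_mul] at key2
  rw [hz, div_mul_eq_mul_div, eq_div_iff hc.ne', ← key2, mul_comm]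

theorem PP_hz {m i : ℕ} (hm : finrank ℝ V = m + 1) (h1 : 1 ≤ m) (hi : i ≤ m) :
    ∃ c : ℝ, 0 < c ∧ ∀ f : V → ℝ, Den f → ∀ u : V, ‖u‖ = 1 →
      PP i (hz f) u = c * hz (sk i f) u := by
  obtain ⟨c, hc, h⟩ := PP_hz_eq (V := V) i
  obtain ⟨c', hc', h'⟩ := bp_supp hm h1 hi
  exact ⟨c * c', mul_pos hc hc', fun f hf u hu => by rw [h f hf.toPos u, h' f hf u hu, mul_assoc]⟩

theorem integral_sk_le {m k : ℕ} (hm : finrank ℝ V = m + 1) (h1 : 1 ≤ m) (hk : k ≤ m)
    {f : V → ℝ} (hf : Den f) :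
    ∫ y, sk k f y ∂(stdGaussian V) ≤ (∫ x, f x ∂(stdGaussian V)) ^ k := by
  have hk' : k ≤ finrank ℝ V := by omega
  have h := af hk' hf
  rw [← bp_mass hm h1 hk hf, mul_comm] at h
  exact le_of_mul_le_mul_left h (integral_D_pos hk')

theorem le_integral_Rd {m : ℕ} (hm : finrank ℝ V = m + 1) (h1 : 1 ≤ m) {f : V → ℝ} (hf : Den f) :
    ∫ x, f x ∂(stdGaussian V) ≤ ∫ y, Rd f y ∂(stdGaussian V) := by
  have hn : 1 ≤ finrank ℝ V := by omega
  have hmp : MeasurePreserving (fun x : Fin 1 → V => x 0) (γk V 1) (stdGaussian V) :=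
    measurePreserving_eval (fun _ : Fin 1 => stdGaussian V) 0
  have hint : ∀ ψ : V → ℝ, Measurable ψ →
      ∫ x, ψ (x 0) ∂(γk V 1) = ∫ y, ψ y ∂(stdGaussian V) := fun ψ hψ => by
    rw [← hmp.map_eq, integral_map hmp.measurable.aemeasurable hψ.aestronglyMeasurable]
  have h := bp_mass hm h1 h1 hf
  have hpos := integral_D_pos (V := V) hn
  simp only [D_one, Fin.prod_univ_one] at h hpos
  have hr := radial_indep hn 1 hf.toPos.bd (fun x => (hf.toPos.pos x).le) hf.hom
  simp only [pow_one] at hr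
  rw [hint (fun y => ‖y‖) measurable_norm] at h hpos
  rw [hint (fun y => ‖y‖ * f y) (measurable_norm.mul hf.meas), hr, mul_comm] at h
  rw [← mul_left_cancel₀ hpos.ne' h]
  refine integral_mono_ae ((den_sk hm h1 h1 hf).toPos.bd.integrable _)
    ((pos_Rd hf.toPos).bd.integrable _) ((ae_ne_zero hn).mono fun y hy => ?_)
  simpa using sk_le hm h1 h1 hf hy

end Pool.Agent.P.MP_181257_gt
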