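import Pool.Agent.P.MP_181257_gt.HiD6

/-! Rank dependent peeling: tools. -/

set_option autoImplicit false
set_option linter.unusedSectionVars false
set_option linter.unusedVariables false

open MeasureTheory ProbabilityTheory Module Set Filter Topology
open scoped RealInnerProductSpace ENNReal Pointwise Matrix

noncomputable section

namespace Pool.Agent.P.MP_181257_gt

variable {V : Type} [NormedAddCommGroup V] [InnerProductSpace ℝ V] [FiniteDimensional ℝ V]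
  [MeasurableSpace V] [BorelSpace V]

theorem peel_exp {μ : Measure V} (hμ : Mom μ) {d K : ℕ} (hd : d + K ≤ finrank ℝ V)
    (hW : 0 < Wr K μ) (γ : ℕ → ℝ)
    (Ψ : ∀ k : ℕ, (Fin k → V) → ℝ≥0∞) (hΨ : ∀ k, Measurable (Ψ k)) (h0 : ∀ x, Ψ 0 x ≤ 1)
    (hstep : ∀ k, k < K → ∀ (x : Fin k → V) (U : Submodule ℝ V), d + 1 ≤ finrank ℝ U →
      ∫⁻ a, ENNReal.ofReal ‖pU U a‖ * Ψ (k + 1) (Fin.cons a x) ∂μ
        ≤ ENNReal.ofReal (Real.exp (γ k)) * Ψ k x * ∫⁻ a, ENNReal.ofReal ‖pU U a‖ ∂μ) :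
    ∫⁻ x, Ψ K x ∂(Fr K μ) ≤ ENNReal.ofReal (Real.exp (∑ k ∈ Finset.range K, γ k)) := by
  have key := peel_Fr hμ hd hW (B := 1)
    (fun k x => ENNReal.ofReal (Real.exp (-(∑ j ∈ Finset.range k, γ j))) * Ψ k x)
    (fun k => (hΨ k).const_mul _) (fun x => by simpa using h0 x) (by
      intro k hk x U hU
      have h1 := hstep k hk x U hU
      simp only [mul_left_comm (ENNReal.ofReal ‖pU U _‖)]
      rw [lintegral_const_mul' _ _ ENNReal.ofReal_ne_top, one_mul]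
      refine (mul_le_mul_right h1 _).trans (le_of_eq ?_)
      rw [← mul_assoc, ← mul_assoc, ← ENNReal.ofReal_mul (Real.exp_pos _).le, ← Real.exp_add,
        Finset.sum_range_succ]
      congr 4
      ring)
  rw [one_pow, lintegral_const_mul' _ _ ENNReal.ofReal_ne_top] at key
  have h2 := mul_le_mul_right key (ENNReal.ofReal (Real.exp (∑ k ∈ Finset.range K, γ k)))
  rwa [← mul_assoc, ← ENNReal.ofReal_mul (Real.exp_pos _).le, ← Real.exp_add, add_neg_cancel,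
    Real.exp_zero, ENNReal.ofReal_one, one_mul, mul_one] at h2

theorem harm_le {a : ℝ} (K : ℕ) (h : (K : ℝ) < a) :
    ∑ k ∈ Finset.range K, 1 / (a - k) ≤ Real.log (a / (a - K)) := by
  induction K with
  | zero =>
    have : a ≠ 0 := by simp at h; exact h.ne'
    simp [this]
  | succ K ih =>
    push_cast at h ⊢
    have h1 : (K : ℝ) < a := by linarith
    have h2 : 0 < a - K := by linarith
    have h3 : 0 < a - (K + 1) := by linarith
    have h0 : 0 < a := by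
      have : (0 : ℝ) ≤ K := Nat.cast_nonneg K
      linarith
    rw [Finset.sum_range_succ]
    have e : a / (a - (K + 1)) = a / (a - K) * ((a - K) / (a - (K + 1))) := by field_simp
    rw [e, Real.log_mul (by positivity) (by positivity)]
    have h4 := Real.one_sub_inv_le_log_of_pos (div_pos h2 h3)
    have e2 : 1 - ((a - K) / (a - (K + 1)))⁻¹ = 1 / (a - K) := by
      field_simp
      ring
    rw [e2] at h4
    linarith [ih h1]

theorem split_sub {A B : Submodule ℝ V} (h : B ≤ A) (w : V) :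
    ‖pU A w‖ ^ 2 ≤ ‖pU B w‖ ^ 2 + ‖pU (Bᗮ ⊓ A) w‖ ^ 2 := by
  have h1 : pU B (pU A w) = pU B w :=
    congrArg (fun T : V →L[ℝ] V => T w) (Submodule.starProjection_comp_starProjection_of_le h)
  set p := pU A w with hp
  set q := pU B w with hq
  have hpA : p ∈ A := Submodule.starProjection_apply_mem A w
  have hqB : q ∈ B := Submodule.starProjection_apply_mem B w
  have hm : p - q ∈ Bᗮ ⊓ A := by
    refine ⟨?_, A.sub_mem hpA (h hqB)⟩
    rw [← h1]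
    exact Submodule.sub_starProjection_mem_orthogonal (K := B) p
  have h2 : ⟪q, p - q⟫ = 0 := (Submodule.mem_orthogonal _ _).1 hm.1 q hqB
  have h3 : ‖p‖ ^ 2 = ‖q‖ ^ 2 + ‖p - q‖ ^ 2 := by
    have e : p = q + (p - q) := by abel
    conv_lhs => rw [e]
    rw [norm_add_sq_real, h2]
    ring
  have h4 : ⟪p - q, w⟫ = ‖p - q‖ ^ 2 := by
    have h5 := Submodule.starProjection_inner_eq_zero (K := A) w (p - q) hm.2
    rw [inner_sub_left, ← hp] at h5
    have h6 : ⟪p, p - q⟫ = ‖p - q‖ ^ 2 := by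
      rw [← real_inner_self_eq_norm_sq, inner_sub_left (𝕜 := ℝ) p q (p - q), h2, sub_zero]
    rw [real_inner_comm]
    linarith
  have h7 : ⟪p - q, w⟫ = ⟪p - q, pU (Bᗮ ⊓ A) w⟫ := by
    have h5 := Submodule.starProjection_inner_eq_zero (K := Bᗮ ⊓ A) w (p - q) hm
    rw [inner_sub_left] at h5
    rw [real_inner_comm, real_inner_comm (pU (Bᗮ ⊓ A) w)]
    linarith
  have h8 := real_inner_le_norm (p - q) (pU (Bᗮ ⊓ A) w)
  rw [← h7, h4] at h8
  nlinarith [sq_nonneg (‖p - q‖ - ‖pU (Bᗮ ⊓ A) w‖)]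

theorem mean_up {i : ℕ} {μ ν : Measure V} (h : FP i μ ν)
    {s : ℝ} (hs : 0 ≤ s) (hiso : ∀ a : V, ‖a‖ = 1 → Sg μ a a ≤ s) {r : ℕ}
    (U : Submodule ℝ V) (hU : finrank ℝ U ≤ r) : ∫ z, ‖pU U z‖ ^ 2 ∂μ ≤ r * s := by
  obtain ⟨e, he, heU, hsum⟩ := exists_onb U
  have hint : ∀ l, Integrable (fun w => ⟪e l, w⟫ ^ 2) μ := fun l => by
    have := integrable_inner_pow_Tn h.mr h.wr (e l) 2
    rwa [← h.el] at this
  simp only [hsum]
  rw [integral_finsetSum _ fun l _ => hint l]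
  calc ∑ l, ∫ w, ⟪e l, w⟫ ^ 2 ∂μ ≤ ∑ _l : Fin (finrank ℝ U), s := by
        refine Finset.sum_le_sum fun l _ => ?_
        have := hiso (e l) (he.1 l)
        simpa only [Sg, sq] using this
    _ = finrank ℝ U * s := by simp
    _ ≤ r * s := mul_le_mul_of_nonneg_right (by exact_mod_cast hU) hs

theorem Dl_cons2 {r k : ℕ} {δ : ℝ} (h0 : 0 ≤ δ) (h1 : δ ≤ 1) (e : Fin r → V) (x : Fin k → V) :
    ∃ U Q : Submodule ℝ V, finrank ℝ V ≤ finrank ℝ U + k + r ∧ finrank ℝ Q ≤ r ∧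
      ∀ a : V, Dl δ e x ^ 2 * (rho δ U a / 2) ≤ Dl δ e (Fin.cons a x : Fin (k + 1) → V) ^ 2 ∧
        ∀ u : ℝ, 0 ≤ u → u ≤ 1 → u * (‖pU U a‖ ^ 2 + ‖pU Q a‖ ^ 2) ≤ ‖pU U a‖ ^ 2 →
          Dl δ e x ^ 2 * u ≤ Dl δ e (Fin.cons a x : Fin (k + 1) → V) ^ 2 := by
  refine ⟨nrm x ⊓ nrm e, (nrm x ⊓ nrm e)ᗮ ⊓ nrm x, ?_, ?_, fun a => ?_⟩
  · have h2 := finrank_inf_nrm (nrm x) e
    have h3 := finrank_nrm_ge x
    omega
  · have h2 := finrank_inf_nrm (nrm x) e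
    have h3 := Submodule.finrank_add_inf_finrank_orthogonal
      (inf_le_left : nrm x ⊓ nrm e ≤ nrm x)
    omega
  have hsplit := split_sub (inf_le_left : nrm x ⊓ nrm e ≤ nrm x) a
  rw [← Pj_eq x] at hsplit
  set U : Submodule ℝ V := nrm x ⊓ nrm e with hU
  set p : V := Pj k x a with hpdef
  set v : Fin r → Db V := fun l => WithLp.toLp 2 (Pj k x (e l), δ • e l) with hv
  set q : Db V := WithLp.toLp 2 (p, (0 : V)) with hq
  have hD : Dl δ e x = D v := rfl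
  have hD' : Dl δ e (Fin.cons a x : Fin (k + 1) → V) = D fun l => pr q (v l) := by
    unfold Dl
    congr 1
    funext l
    rw [Pj_cons, hq, hv, pr_toLp_HiD2]
  by_cases hp0 : p = 0
  · have hq0 : q = 0 := by rw [hq, hp0]; rfl
    rw [hD', hD, hq0]
    simp only [pr_zero_left]
    have := rho_le h0 h1 U a
    exact ⟨mul_le_of_le_one_right (sq_nonneg _) (by linarith),
      fun u _ hu1 _ => mul_le_of_le_one_right (sq_nonneg _) hu1⟩
  have hpp : 0 < ‖p‖ ^ 2 := pow_pos (norm_pos_iff.2 hp0) 2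
  have hqn : ‖q‖ ^ 2 = ‖p‖ ^ 2 := by rw [hq, norm_sq_toLp_HiD2]; simp
  have hkey : ‖p‖ ^ 2 * (D fun l => pr q (v l)) ^ 2 = D v ^ 2 * ‖Pj r v q‖ ^ 2 := by
    rw [← hqn, ← mul_pow, ← mul_pow, ← D_cons, D_cons_eq]
  have hmem : q - Pj r v q ∈ Submodule.span ℝ (range v) := by
    letI : MeasurableSpace (Db V) := borel _
    haveI : BorelSpace (Db V) := ⟨rfl⟩
    rw [Pj_eq v]
    have := Submodule.sub_starProjection_mem_orthogonal (K := nrm v) q
    rwa [nrm, Submodule.orthogonal_orthogonal] at this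
  obtain ⟨u, hu, hu'⟩ := span_HiD2 δ (Pj k x) e hmem
  have hP : Pj r v q = WithLp.toLp 2 (p - Pj k x u, -(δ • u)) := by
    have : Pj r v q = q - WithLp.toLp 2 (Pj k x u, δ • u) := by rw [← hu']; abel
    rw [this, hq, ← WithLp.toLp_sub]
    simp
  have hmemU : pU U a ∈ U := Submodule.starProjection_apply_mem U a
  have hfix : Pj k x (pU U a) = pU U a := by
    rw [Pj_eq]
    exact Submodule.starProjection_eq_self_iff.2 hmemU.1
  have hi1 : ⟪pU U a, p⟫ = ‖pU U a‖ ^ 2 := by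
    rw [hpdef, ← inner_Pj_comm, hfix]
    have h := Submodule.starProjection_inner_eq_zero (K := U) a (pU U a) hmemU
    rw [inner_sub_left, real_inner_self_eq_norm_sq, real_inner_comm] at h
    linarith
  have hi2 : ⟪pU U a, Pj k x u⟫ = 0 := by
    rw [← inner_Pj_comm, hfix, real_inner_comm]
    exact (Submodule.mem_orthogonal _ _).1 hmemU.2 u hu
  have hcore := core_HiD2 h0 h1 hi1 hi2 (norm_Pj_le x u)
  have hPn : ‖Pj r v q‖ ^ 2 = ‖p - Pj k x u‖ ^ 2 + δ ^ 2 * ‖u‖ ^ 2 := by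
    rw [hP, norm_sq_toLp_HiD2, norm_neg, norm_smul, mul_pow, Real.norm_eq_abs, sq_abs]
  have hpa : ‖p‖ ^ 2 / ‖a‖ ^ 2 ≤ 1 :=
    div_le_one_of_le₀ (pow_le_pow_left₀ (norm_nonneg _) (norm_Pj_le x a) 2) (sq_nonneg _)
  have hrho : ‖p‖ ^ 2 * (rho δ U a / 2) ≤ ‖Pj r v q‖ ^ 2 := by
    have h3 : ‖p‖ ^ 2 * (‖pU U a‖ ^ 2 / ‖a‖ ^ 2) ≤ ‖pU U a‖ ^ 2 := by
      have : ‖p‖ ^ 2 * (‖pU U a‖ ^ 2 / ‖a‖ ^ 2) = ‖p‖ ^ 2 / ‖a‖ ^ 2 * ‖pU U a‖ ^ 2 := by ring
      rw [this]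
      exact mul_le_of_le_one_left (sq_nonneg _) hpa
    rw [hPn]
    unfold rho
    nlinarith
  have hfin : ∀ t : ℝ, ‖p‖ ^ 2 * t ≤ ‖Pj r v q‖ ^ 2 →
      D v ^ 2 * t ≤ (D fun l => pr q (v l)) ^ 2 := by
    intro t ht
    refine le_of_mul_le_mul_left ?_ hpp
    rw [hkey]
    calc ‖p‖ ^ 2 * (D v ^ 2 * t) = D v ^ 2 * (‖p‖ ^ 2 * t) := by ring
      _ ≤ D v ^ 2 * ‖Pj r v q‖ ^ 2 := mul_le_mul_of_nonneg_left ht (sq_nonneg _)
  rw [hD', hD]
  refine ⟨hfin _ hrho, fun t ht0 _ ht => hfin t ?_⟩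
  have e1 : ‖p - Pj k x u - pU U a‖ ^ 2 = ‖p - Pj k x u‖ ^ 2 - ‖pU U a‖ ^ 2 := by
    rw [norm_sub_sq_real (p - Pj k x u) (pU U a), real_inner_comm, inner_sub_right, hi1, hi2]
    ring
  have e2 := mul_le_mul_of_nonneg_left hsplit ht0
  have e3 : 0 ≤ δ ^ 2 * ‖u‖ ^ 2 := by positivity
  rw [hPn]
  nlinarith [sq_nonneg ‖p - Pj k x u - pU U a‖]

end Pool.Agent.P.MP_181257_gt
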