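import Pool.Agent.P.MP_181257_gt.PwA

/-! Polynomial bound for the negative moment of the regularised determinant. -/

set_option autoImplicit false
set_option linter.unusedSectionVars false
set_option linter.unusedVariables false

open MeasureTheory ProbabilityTheory Module Set Filter Topology
open scoped RealInnerProductSpace ENNReal Pointwise Matrix

noncomputable section

namespace Pool.Agent.P.MP_181257_gt

variable {V : Type} [NormedAddCommGroup V] [InnerProductSpace ℝ V] [FiniteDimensional ℝ V]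
  [MeasurableSpace V] [BorelSpace V]

theorem cs_PwB {μ : Measure V} {δ N Φ : ℝ} (hN : 0 < N) (hΦ : 0 ≤ Φ) {φ G : V → ℝ}
    (hφ : Measurable φ) (h0 : ∀ a, 0 ≤ φ a) (hG : Integrable G μ) (hle : ∀ a, φ a ^ 2 ≤ G a)
    (h2 : ∫ w, G w ∂μ ≤ Φ) (U' : Submodule ℝ V)
    (hNb : ∫⁻ w, (ENNReal.ofReal (rho δ U' w))⁻¹ ∂μ ≤ ENNReal.ofReal N) :
    ∫⁻ a, ENNReal.ofReal (φ a) * (ENNReal.ofReal √(rho δ U' a / 2))⁻¹ ∂μ
      ≤ ENNReal.ofReal √(2 * Φ * N) := by
  have hm : Measurable fun a => (ENNReal.ofReal (rho δ U' a))⁻¹ :=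
    (measurable_rho δ U').ennreal_ofReal.inv
  have h1 : ∫⁻ a, ENNReal.ofReal (φ a ^ 2) ∂μ ≤ ENNReal.ofReal Φ := by
    refine (lintegral_mono fun a => ENNReal.ofReal_le_ofReal (hle a)).trans ?_
    rw [← ofReal_integral_eq_lintegral_ofReal hG
      (ae_of_all _ fun a => (sq_nonneg _).trans (hle a))]
    exact ENNReal.ofReal_le_ofReal h2
  have h3 : ∫⁻ a, 2 * (ENNReal.ofReal (rho δ U' a))⁻¹ ∂μ ≤ ENNReal.ofReal (2 * N) := by
    rw [lintegral_const_mul _ hm, ENNReal.ofReal_mul (by norm_num), ENNReal.ofReal_ofNat]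
    gcongr
  calc _ ≤ ∫⁻ a, ENNReal.ofReal (φ a ^ 2) ^ (1 / 2 : ℝ)
          * (2 * (ENNReal.ofReal (rho δ U' a))⁻¹) ^ (1 / 2 : ℝ) ∂μ := by
        refine lintegral_mono fun a => mul_le_mul' (le_of_eq ?_) (le_of_eq ?_)
        · rw [ENNReal.ofReal_rpow_of_nonneg (by positivity) (by norm_num), ← Real.sqrt_eq_rpow,
            Real.sqrt_sq (h0 a)]
        · have h4 : 0 ≤ rho δ U' a := rho_nonneg δ U' a
          rw [Real.sqrt_eq_rpow, ← ENNReal.ofReal_rpow_of_nonneg (by positivity) (by norm_num),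
            ← ENNReal.inv_rpow, ENNReal.ofReal_div_of_pos (by norm_num), ENNReal.ofReal_ofNat,
            ENNReal.inv_div (Or.inl (by norm_num)) (Or.inl (by norm_num)), div_eq_mul_inv]
    _ ≤ (∫⁻ a, ENNReal.ofReal (φ a ^ 2) ∂μ) ^ (1 / 2 : ℝ)
          * (∫⁻ a, 2 * (ENNReal.ofReal (rho δ U' a))⁻¹ ∂μ) ^ (1 / 2 : ℝ) :=
        ENNReal.lintegral_mul_norm_pow_le (hφ.pow_const 2).ennreal_ofReal.aemeasurable
          (hm.const_mul 2).aemeasurable (by norm_num) (by norm_num) (by norm_num)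
    _ ≤ ENNReal.ofReal Φ ^ (1 / 2 : ℝ) * ENNReal.ofReal (2 * N) ^ (1 / 2 : ℝ) := by gcongr
    _ = _ := by
        rw [← ENNReal.mul_rpow_of_nonneg _ _ (by norm_num), ← ENNReal.ofReal_mul hΦ,
          ENNReal.ofReal_rpow_of_nonneg (by positivity) (by norm_num), ← Real.sqrt_eq_rpow]
        congr 2
        ring

theorem top_PwB (w : V) : pU (⊤ : Submodule ℝ V) w = w :=
  Submodule.starProjection_eq_self_iff.mpr Submodule.mem_top

theorem sq_mean_PwB {i : ℕ} {μ ν : Measure V} (h : FP i μ ν) :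
    ∫ z, ‖z‖ ^ 2 ∂μ ≤ finrank ℝ V := by
  have := integral_norm_pow_Tn h.mr h.wr (j := 1) le_rfl
  rw [← h.el, Km_one] at this
  simpa using this

theorem exp_PwB {x β : ℝ} (hx : 0 ≤ x) (hβ : 0 ≤ β) : √(1 + x) + β ≤ Real.exp (x / 2 + β) := by
  have h1 : √(1 + x) ≤ Real.exp (x / 2) := by
    refine Real.sqrt_le_iff.2 ⟨(Real.exp_pos _).le, ?_⟩
    rw [← Real.exp_nat_mul]
    have := Real.add_one_le_exp x
    norm_num
    rw [show 2 * (x / 2) = x by ring]
    linarith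
  have h2 : 1 ≤ Real.exp (x / 2) := Real.one_le_exp (by linarith)
  have h3 := Real.add_one_le_exp β
  rw [Real.exp_add]
  nlinarith

theorem dev_PwB {A B M1 M2 rs js : ℝ} (hrs : 0 < rs) (hjs : rs ≤ js) (m1 : js ≤ M1)
    (m2 : M2 ≤ 2 * rs) (ha : ¬(js / 2 ≤ A ∧ B ≤ 3 * rs)) :
    rs ^ 2 / 4 ≤ (A - M1) ^ 2 + (B - M2) ^ 2 := by
  by_cases hb : js / 2 ≤ A
  · have hb2 : 3 * rs < B := not_le.1 fun hh => ha ⟨hb, hh⟩
    have g5 : rs ≤ B - M2 := by linarith
    have g6 := pow_le_pow_left₀ hrs.le g5 2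
    nlinarith [sq_nonneg (A - M1)]
  · have g5 : rs / 2 ≤ M1 - A := by linarith [not_le.1 hb]
    have g6 := pow_le_pow_left₀ (by positivity) g5 2
    nlinarith [sq_nonneg (B - M2)]

theorem lin_PwB {t m : ℝ} (hm : 0 < m) : t ≤ 1 / (2 * m) * t ^ 2 + m / 2 := by
  have g2 : 0 ≤ 1 / (2 * m) * (t - m) ^ 2 := by positivity
  have g3 : 1 / (2 * m) * (t - m) ^ 2 = 1 / (2 * m) * t ^ 2 - t + m / 2 := by
    field_simp
    ring
  linarith

theorem Dl_moment2 {i r : ℕ} {μ ν : Measure V} (h : FP i μ ν) (hi : 1 ≤ i) (hr : 16 ≤ r)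
    (hrq : 2 * r + i ≤ finrank ℝ V + 1) {δ : ℝ} (h0 : 0 ≤ δ) (h1 : δ ≤ 1) {s lam N β : ℝ}
    (hs : 0 < s) (hl : ∀ a : V, ‖a‖ = 1 → s ≤ Sg μ a a)
    (hu : ∀ a : V, ‖a‖ = 1 → Sg μ a a ≤ 2 * s)
    (hlam : 0 < lam) (hN : 0 < N) (hβ : 0 ≤ β)
    (hU : ∀ U : Submodule ℝ V, r ≤ finrank ℝ U → lam ≤ ∫ w, ‖pU U w‖ ∂μ)
    (hNb : ∀ U : Submodule ℝ V, r ≤ finrank ℝ U →
      ∫⁻ w, (ENNReal.ofReal (rho δ U w))⁻¹ ∂μ ≤ ENNReal.ofReal N)
    (hsm : √(2 * (48 * (finrank ℝ V : ℝ) ^ 2 / (r * s) ^ 2 + 4 * √(finrank ℝ V : ℝ)) * N)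
      ≤ β * lam)
    {e : Fin r → V} (he : Orthonormal ℝ e) :
    ∫⁻ x, ENNReal.ofReal (Dl δ e x) ^ (-(8 / (r : ℝ))) ∂(Fr i μ)
      ≤ ENNReal.ofReal (Real.exp (24 * Real.log (((finrank ℝ V : ℝ) - r)
        / ((finrank ℝ V : ℝ) - r - i)) + 8 * β * i / r)) := by
  have hμ := h.ml
  have := hμ.prob
  set n := finrank ℝ V with hn
  have hin : i ≤ n := by omega
  have hn0 : (0 : ℝ) < n := by exact_mod_cast (by omega : 0 < n)
  have hsn : 0 < √(n : ℝ) := Real.sqrt_pos.2 hn0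
  have hr0 : (0 : ℝ) < r := by exact_mod_cast (by omega : 0 < r)
  have hr16 : (16 : ℝ) ≤ r := by exact_mod_cast hr
  have hp0 : (0 : ℝ) ≤ 8 / r := by positivity
  have hp1 : (8 : ℝ) / r ≤ 1 := by rw [div_le_one hr0]; linarith
  have hrq' : 2 * (r : ℝ) + i ≤ n + 1 := by exact_mod_cast hrq
  have key := peel_exp hμ (d := n - i) (K := i) (by omega) h.wl
    (fun k => 24 * (1 / ((n : ℝ) - r - k)) + 8 * β / r)
    (fun k x => ENNReal.ofReal (Dl δ e x) ^ (-(8 / (r : ℝ))))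
    (fun k => (measurable_Dl δ e k).ennreal_ofReal.pow_const _) (fun x => ?_) ?_
  · refine key.trans (ENNReal.ofReal_le_ofReal (Real.exp_le_exp.2 ?_))
    rw [Finset.sum_add_distrib, ← Finset.mul_sum, Finset.sum_const, Finset.card_range,
      nsmul_eq_mul]
    have h3 := harm_le (a := (n : ℝ) - r) i (by linarith)
    have e1 : (i : ℝ) * (8 * β / r) = 8 * β * i / r := by ring
    linarith
  · exact ENNReal.rpow_le_one_of_one_le_of_neg (ENNReal.one_le_ofReal.2 (Dl_zero δ he x))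
      (neg_neg_of_pos (by positivity))
  intro k hk x W hW
  obtain ⟨U, Q, hUd, hQd, hc⟩ := Dl_cons2 h0 h1 e x
  obtain ⟨j, hj⟩ : ∃ j : ℕ, j + k + r = n := ⟨n - k - r, by omega⟩
  have hjr : r ≤ j := by omega
  have hjr' : (r : ℝ) ≤ j := by exact_mod_cast hjr
  have hj0 : (0 : ℝ) < j := by linarith
  have hjn : (n : ℝ) - r - k = j := by
    have : (j : ℝ) + k + r = n := by exact_mod_cast hj
    linarith
  have m1 := mean_HiD5 h hl (r := j) U (by omega)
  have m2 := mean_up h (by positivity) hu Q hQd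
  have m0 := sq_mean_PwB h
  have v1 := conc_sub h hi hin U
  have v2 := conc_sub h hi hin Q
  have v0 := conc_sub h hi hin ⊤
  have i1 := int_var_HiD5 h U (∫ z, ‖pU U z‖ ^ 2 ∂μ)
  have i2 := int_var_HiD5 h Q (∫ z, ‖pU Q z‖ ^ 2 ∂μ)
  have i0 := int_var_HiD5 h ⊤ (∫ z, ‖z‖ ^ 2 ∂μ)
  simp only [top_PwB] at v0 i0
  rw [← hn] at m0 v1 v2 v0
  set M1 := ∫ z, ‖pU U z‖ ^ 2 ∂μ with hM1
  set M2 := ∫ z, ‖pU Q z‖ ^ 2 ∂μ with hM2
  set M0 := ∫ z, ‖z‖ ^ 2 ∂μ with hM0
  set y : ℝ := 6 * r / j with hy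
  have hy0 : 0 ≤ y := by positivity
  set S : Set V := {a | j * s / 2 ≤ ‖pU U a‖ ^ 2 ∧ ‖pU Q a‖ ^ 2 ≤ 3 * (r * s)} with hS
  have hSm : MeasurableSet S :=
    (measurableSet_le measurable_const ((pU U).continuous.measurable.norm.pow_const 2)).inter
      (measurableSet_le ((pU Q).continuous.measurable.norm.pow_const 2) measurable_const)
  classical
  set u : V → ℝ := fun a => if a ∈ S then 1 / (1 + y) else rho δ U a / 2 with hudef
  set φ : V → ℝ := fun a => if a ∈ S then 0 else ‖a‖ with hφ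
  have hum : Measurable u :=
    Measurable.ite hSm measurable_const ((measurable_rho δ U).div_const 2)
  have hφm : Measurable φ := Measurable.ite hSm measurable_const measurable_norm
  have hu0 : ∀ a, 0 ≤ u a := fun a => by
    have := rho_nonneg δ U a
    simp only [hudef]
    split_ifs <;> positivity
  have hcu : ∀ a, Dl δ e x ^ 2 * u a ≤ Dl δ e (Fin.cons a x : Fin (k + 1) → V) ^ 2 := by
    intro a
    simp only [hudef]
    split_ifs with ha
    · refine (hc a).2 _ (by positivity) (by rw [div_le_one (by positivity)]; linarith) ?_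
      rw [one_div, inv_mul_le_iff₀ (by positivity)]
      have h3 : y * (j * s / 2) = 3 * (r * s) := by rw [hy]; field_simp; ring
      have h4 := mul_le_mul_of_nonneg_left ha.1 hy0
      linarith [ha.2]
    · exact (hc a).1
  have hT : 0 < (r * s) ^ 2 := by positivity
  have hcs := cs_PwB (μ := μ) (δ := δ) hN
    (Φ := 48 * (n : ℝ) ^ 2 / (r * s) ^ 2 + 4 * √(n : ℝ)) (by positivity) hφm
    (fun a => by simp only [hφ]; split_ifs <;> positivity)
    (G := fun a => 4 * n / (r * s) ^ 2 * ((‖pU U a‖ ^ 2 - M1) ^ 2 + (‖pU Q a‖ ^ 2 - M2) ^ 2)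
      + (1 / (2 * √(n : ℝ)) * (‖a‖ ^ 2 - M0) ^ 2 + √(n : ℝ) / 2))
    (((i1.add i2).const_mul _).add ((i0.const_mul _).add (integrable_const _))) ?_ ?_ U
    (hNb U (by omega))
  rotate_left
  · intro a
    have g1 := lin_PwB (t := ‖a‖ ^ 2 - M0) hsn
    simp only [hφ]
    split_ifs with ha
    · have : (0 : ℝ) ^ 2 = 0 := by norm_num
      rw [this]
      positivity
    · have g4 : (r * s) ^ 2 / 4 ≤ (‖pU U a‖ ^ 2 - M1) ^ 2 + (‖pU Q a‖ ^ 2 - M2) ^ 2 :=
        dev_PwB (by positivity) (mul_le_mul_of_nonneg_right hjr' hs.le) m1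
          (m2.trans (le_of_eq (by ring))) ha
      have g7 := mul_le_mul_of_nonneg_left g4 (by positivity : 0 ≤ 4 * (n : ℝ) / (r * s) ^ 2)
      have g8 : 4 * (n : ℝ) / (r * s) ^ 2 * ((r * s) ^ 2 / 4) = n := by field_simp
      linarith
  · have j1 : Integrable (fun a => 4 * n / (r * s) ^ 2
        * ((‖pU U a‖ ^ 2 - M1) ^ 2 + (‖pU Q a‖ ^ 2 - M2) ^ 2)) μ := (i1.add i2).const_mul _
    have j2 : Integrable (fun a : V => 1 / (2 * √(n : ℝ)) * (‖a‖ ^ 2 - M0) ^ 2 + √(n : ℝ) / 2) μ :=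
      (i0.const_mul _).add (integrable_const _)
    rw [integral_add j1 j2,
      integral_const_mul, integral_add i1 i2, integral_add (i0.const_mul _) (integrable_const _),
      integral_const_mul]
    simp only [integral_const, probReal_univ, smul_eq_mul, one_mul]
    have g1 := mul_le_mul_of_nonneg_left (add_le_add v1 v2)
      (by positivity : 0 ≤ 4 * (n : ℝ) / (r * s) ^ 2)
    have g2 := mul_le_mul_of_nonneg_left v0 (by positivity : 0 ≤ 1 / (2 * √(n : ℝ)))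
    have g3 : 1 / (2 * √(n : ℝ)) * (6 * n) = 3 * √(n : ℝ) := by
      field_simp
      rw [Real.sq_sqrt hn0.le]
      ring
    have g4 : 4 * (n : ℝ) / (r * s) ^ 2 * (6 * n + 6 * n) = 48 * (n : ℝ) ^ 2 / (r * s) ^ 2 := by
      ring
    linarith
  have hA : Measurable fun a => ENNReal.ofReal ‖pU W a‖ := by fun_prop
  have hY : Measurable fun a => (ENNReal.ofReal √(u a))⁻¹ := hum.sqrt.ennreal_ofReal.inv
  have hint : Integrable (fun a => ‖pU W a‖) μ :=
    Integrable.mono' hμ.int (by fun_prop) (ae_of_all _ fun a => by simpa using norm_pU_le W a)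
  have hlI : ENNReal.ofReal lam ≤ ∫⁻ a, ENNReal.ofReal ‖pU W a‖ ∂μ := by
    rw [← ofReal_integral_eq_lintegral_ofReal hint (ae_of_all _ fun a => norm_nonneg _)]
    exact ENNReal.ofReal_le_ofReal (hU W (by omega))
  have hpt : ∀ a, ENNReal.ofReal ‖pU W a‖ * (ENNReal.ofReal √(u a))⁻¹
      ≤ ENNReal.ofReal √(1 + y) * ENNReal.ofReal ‖pU W a‖
        + ENNReal.ofReal (φ a) * (ENNReal.ofReal √(rho δ U a / 2))⁻¹ := by
    intro a
    simp only [hudef, hφ]
    split_ifs with ha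
    · refine le_trans (le_of_eq ?_) le_self_add
      rw [mul_comm, one_div, Real.sqrt_inv, ENNReal.ofReal_inv_of_pos (by positivity), inv_inv]
    · exact le_trans (mul_le_mul' (ENNReal.ofReal_le_ofReal (norm_pU_le W a)) le_rfl) le_add_self
  have h3 := holder_HiD3 (μ := μ) hA hY hp0 hp1
    (B := ENNReal.ofReal (Real.exp (y / 2 + β))) (by
      refine (lintegral_mono hpt).trans ?_
      rw [lintegral_add_left (hA.const_mul _), lintegral_const_mul _ hA]
      refine le_trans ?_ (mul_le_mul' (ENNReal.ofReal_le_ofReal (exp_PwB hy0 hβ)) le_rfl)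
      rw [ENNReal.ofReal_add (Real.sqrt_nonneg _) hβ, add_mul]
      refine add_le_add_right (hcs.trans ((ENNReal.ofReal_le_ofReal hsm).trans ?_)) _
      rw [ENNReal.ofReal_mul hβ]
      exact mul_le_mul' le_rfl hlI)
  have e5 : ENNReal.ofReal (Real.exp (y / 2 + β)) ^ (8 / (r : ℝ))
      = ENNReal.ofReal (Real.exp (24 * (1 / ((n : ℝ) - r - k)) + 8 * β / r)) := by
    rw [ENNReal.ofReal_rpow_of_nonneg (Real.exp_pos _).le hp0, ← Real.exp_mul, hjn, hy]
    congr 2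
    field_simp
    ring
  rw [e5] at h3
  calc _ ≤ ∫⁻ a, ENNReal.ofReal (Dl δ e x) ^ (-(8 / (r : ℝ))) * (ENNReal.ofReal ‖pU W a‖
        * (ENNReal.ofReal √(u a))⁻¹ ^ (8 / (r : ℝ))) ∂μ := by
        refine lintegral_mono fun a => ?_
        rw [mul_left_comm]
        exact mul_le_mul' le_rfl (step_HiD3 (D_nonneg _) (D_nonneg _) (hu0 a) hp0 (hcu a))
    _ ≤ _ := by
        have hm : Measurable fun a => ENNReal.ofReal ‖pU W a‖
            * (ENNReal.ofReal √(u a))⁻¹ ^ (8 / (r : ℝ)) := hA.mul (hY.pow_const _)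
        rw [lintegral_const_mul _ hm, mul_comm (ENNReal.ofReal (Real.exp _)), mul_assoc]
        exact mul_le_mul' le_rfl h3

end Pool.Agent.P.MP_181257_gt
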