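import Pool.Agent.P.MP_181257_gt.PwB

/-! Negative moments for subspaces with polynomial constants. -/

set_option autoImplicit false
set_option linter.unusedSectionVars false
set_option linter.unusedVariables false

open MeasureTheory ProbabilityTheory Module Set Filter Topology
open scoped RealInnerProductSpace ENNReal Pointwise Matrix

noncomputable section

namespace Pool.Agent.P.MP_181257_gt

variable {V : Type} [NormedAddCommGroup V] [InnerProductSpace ℝ V] [FiniteDimensional ℝ V]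
  [MeasurableSpace V] [BorelSpace V]

/-- two-sided bound for the second moments -/
def Iso (μ : Measure V) (s : ℝ) : Prop := ∀ a : V, ‖a‖ = 1 → s ≤ Sg μ a a ∧ Sg μ a a ≤ 2 * s

theorem ar_PwC {ε m x : ℝ} (hε : 0 < ε) (hε1 : ε ≤ 1) (hm : 2 ^ 26 / ε ^ 6 ≤ m)
    (hx : ε ^ 2 * m ^ 2 / 8 ≤ x) :
    √(2 * (48 * (m ^ 2) ^ 2 / x ^ 2 + 4 * m) * (4 * (64 / ε ^ 2))) ≤ ε / 16 * (ε / 8 * m) := by
  have h6 : 0 < ε ^ 6 := by positivity
  have hm' : 2 ^ 26 ≤ m * ε ^ 6 := (div_le_iff₀ h6).1 hm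
  have hm0 : 0 < m := lt_of_lt_of_le (by positivity) hm
  refine Real.sqrt_le_iff.2 ⟨by positivity, ?_⟩
  have h1 : 48 * (m ^ 2) ^ 2 / x ^ 2 ≤ 3072 / ε ^ 4 := by
    calc _ ≤ 48 * (m ^ 2) ^ 2 / (ε ^ 2 * m ^ 2 / 8) ^ 2 :=
          div_le_div_of_nonneg_left (by positivity) (by positivity)
            (pow_le_pow_left₀ (by positivity) hx 2)
      _ = _ := by field_simp; norm_num
  have h2 : 3072 / ε ^ 4 ≤ m := by
    refine le_trans ?_ hm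
    rw [div_le_div_iff₀ (by positivity) h6]
    have : ε ^ 6 ≤ ε ^ 4 := pow_le_pow_of_le_one hε.le hε1 (by norm_num)
    nlinarith [pow_pos hε 4]
  have h3 : 2 * (48 * (m ^ 2) ^ 2 / x ^ 2 + 4 * m) * (4 * (64 / ε ^ 2))
      ≤ 2 * (5 * m) * (4 * (64 / ε ^ 2)) :=
    mul_le_mul_of_nonneg_right (by linarith) (by positivity)
  refine h3.trans ?_
  have e1 : 2 * (5 * m) * (4 * (64 / ε ^ 2)) = 2560 * m / ε ^ 2 := by ring
  rw [e1, div_le_iff₀ (by positivity)]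
  have e2 : (ε / 16 * (ε / 8 * m)) ^ 2 * ε ^ 2 = m * (m * ε ^ 6) / 16384 := by ring
  rw [e2]
  have := mul_le_mul_of_nonneg_left hm' hm0.le
  linarith

theorem det_PwC {i r : ℕ} {μ ν : Measure V} (h : FP i μ ν) (hi : 1 ≤ i)
    {ε s : ℝ} (hε : 0 < ε) (hε1 : ε ≤ 1) (hr : 16 ≤ r)
    (hrq : 2 * r + i ≤ finrank ℝ V + 1) (hεr : ε * finrank ℝ V ≤ 2 * r) (hs : ε / 4 ≤ s)
    (hI : Iso μ s) (hbig : 2 ^ 26 / ε ^ 6 ≤ √(finrank ℝ V : ℝ)) {δ : ℝ} (h0 : 0 ≤ δ) (h1 : δ ≤ 1)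
    (hN : ∀ U : Submodule ℝ V, r ≤ finrank ℝ U →
      ∫⁻ w, (ENNReal.ofReal (rho δ U w))⁻¹ ∂μ ≤ ENNReal.ofReal (4 * (64 / ε ^ 2)))
    (e : Fin r → V) (he : Orthonormal ℝ e) :
    ∫⁻ x, ENNReal.ofReal (Dl δ e x) ^ (-(8 / (r : ℝ))) ∂(Fr i μ)
      ≤ ENNReal.ofReal (3 * (4 / ε) ^ 24) := by
  have hin : i ≤ finrank ℝ V := by omega
  have hn : (0 : ℝ) < finrank ℝ V := by exact_mod_cast (by omega : 0 < finrank ℝ V)
  have hsn : 0 < √(finrank ℝ V : ℝ) := Real.sqrt_pos.2 hn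
  have hsq : √(finrank ℝ V : ℝ) ^ 2 = finrank ℝ V := Real.sq_sqrt hn.le
  have hr0 : (0 : ℝ) < r := by exact_mod_cast (by omega : 0 < r)
  have hr16 : (16 : ℝ) ≤ r := by exact_mod_cast hr
  have hb2 : 3072 ≤ ε ^ 4 * finrank ℝ V := by
    have h2 : 2 ^ 26 ≤ √(finrank ℝ V : ℝ) * ε ^ 6 := (div_le_iff₀ (by positivity)).1 hbig
    have h3 : ε ^ 6 ≤ ε ^ 2 := pow_le_pow_of_le_one hε.le hε1 (by norm_num)
    have h4 : 2 ^ 26 ≤ √(finrank ℝ V : ℝ) * ε ^ 2 :=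
      h2.trans (mul_le_mul_of_nonneg_left h3 hsn.le)
    have h5 := pow_le_pow_left₀ (by positivity) h4 2
    rw [mul_pow, hsq] at h5
    nlinarith
  have hx : ε ^ 2 * √(finrank ℝ V : ℝ) ^ 2 / 8 ≤ r * s := by
    rw [hsq]
    have := mul_le_mul_of_nonneg_left hs hr0.le
    nlinarith
  have hsm := ar_PwC hε hε1 hbig hx
  rw [hsq] at hsm
  refine (Dl_moment2 h hi hr hrq h0 h1 (lam := ε / 8 * √(finrank ℝ V : ℝ)) (β := ε / 16)
    (by linarith) (fun a ha => (hI a ha).1) (fun a ha => (hI a ha).2) (by positivity)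
    (by positivity) (by positivity)
    (low_HiD6 h hi hin hε hr hεr (fun a ha => hs.trans (hI a ha).1) hb2) hN hsm he).trans
    (ENNReal.ofReal_le_ofReal ?_)
  have hrq' : 2 * (r : ℝ) + i ≤ finrank ℝ V + 1 := by exact_mod_cast hrq
  have hi0 : (0 : ℝ) ≤ i := Nat.cast_nonneg i
  have hin' : (i : ℝ) ≤ finrank ℝ V := by exact_mod_cast hin
  have hd : 0 < (finrank ℝ V : ℝ) - r - i := by linarith
  have hq : ((finrank ℝ V : ℝ) - r) / ((finrank ℝ V : ℝ) - r - i) ≤ 4 / ε := by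
    rw [div_le_div_iff₀ hd hε]
    nlinarith
  have hq0 : 0 < ((finrank ℝ V : ℝ) - r) / ((finrank ℝ V : ℝ) - r - i) := div_pos (by linarith) hd
  have h7 : 8 * (ε / 16) * i / r ≤ 1 := by
    rw [div_le_one hr0]
    nlinarith
  rw [Real.exp_add, mul_comm 3]
  refine mul_le_mul ?_ ((Real.exp_le_exp.2 h7).trans ?_) (Real.exp_pos _).le (by positivity)
  · rw [show (24 : ℝ) = (24 : ℕ) by norm_num, Real.exp_nat_mul, Real.exp_log hq0]
    exact pow_le_pow_left₀ hq0.le hq 24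
  · linarith [Real.exp_one_lt_d9]

theorem step_PwC {i r : ℕ} {μ ν : Measure V} (h : FP i μ ν) (hi : 1 ≤ i)
    {ε s : ℝ} (hε : 0 < ε) (hε1 : ε ≤ 1) (hr : 16 ≤ r)
    (hrq : 2 * r + i ≤ finrank ℝ V + 1) (hεr : ε * finrank ℝ V ≤ 2 * r) (hs : ε / 4 ≤ s)
    (hI : Iso μ s) (hI' : Iso ν s) (hbig : 2 ^ 26 / ε ^ 6 ≤ √(finrank ℝ V : ℝ))
    (hbig2 : (1536 / ε ^ 4 + 6) * (4 * √(3 ^ 17 * Km 4) * (4 / ε) ^ 14) ≤ finrank ℝ V)
    {δ : ℝ} (h0 : 0 ≤ δ) (h1 : δ ≤ 1)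
    (hN : ∀ U : Submodule ℝ V, r ≤ finrank ℝ U →
      ∫⁻ w, (ENNReal.ofReal (rho δ U w))⁻¹ ∂ν ≤ ENNReal.ofReal (4 * (64 / ε ^ 2)))
    (U : Submodule ℝ V) (hU : r ≤ finrank ℝ U) :
    ∫⁻ w, (ENNReal.ofReal (rho δ U w))⁻¹ ∂μ ≤ ENNReal.ofReal (64 / ε ^ 2) := by
  have := h.ml.prob
  have hin : i ≤ finrank ℝ V := by omega
  have hn : (0 : ℝ) < finrank ℝ V := by exact_mod_cast (by omega : 0 < finrank ℝ V)
  have hr0 : (0 : ℝ) < r := by exact_mod_cast (by omega : 0 < r)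
  have hK := Km_nonneg 4
  obtain ⟨A, hAd⟩ : ∃ A : ℝ, A = 4 * √(3 ^ 17 * Km 4) * (4 / ε) ^ 14 := ⟨_, rfl⟩
  rw [← hAd] at hbig2
  have hA : 0 ≤ A := by rw [hAd]; positivity
  have h2 := rho_moment h.mr h.wr hr h0 (by positivity)
    (det_PwC h.symm hi hε hε1 hr hrq hεr hs hI' hbig h0 h1 hN) U hU
  rw [← h.el] at h2
  have h3 : 4 * √((2 * finrank ℝ V) ^ 4 * Km 4) * √(3 ^ 16 / (r : ℝ) ^ 4 * (3 * (4 / ε) ^ 24))
      ≤ A := by
    rw [hAd, mul_assoc, mul_assoc 4, ← Real.sqrt_mul (by positivity)]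
    refine mul_le_mul_of_nonneg_left (Real.sqrt_le_iff.2 ⟨by positivity, ?_⟩) (by norm_num)
    rw [mul_pow (√_), Real.sq_sqrt (by positivity)]
    have h4 : 2 * (finrank ℝ V : ℝ) / r ≤ 4 / ε := by
      rw [div_le_div_iff₀ hr0 hε]; nlinarith
    calc _ = (2 * (finrank ℝ V : ℝ) / r) ^ 4 * (3 ^ 17 * Km 4 * (4 / ε) ^ 24) := by
          rw [div_pow (2 * _)]; ring
      _ ≤ (4 / ε) ^ 4 * (3 ^ 17 * Km 4 * (4 / ε) ^ 24) :=
          mul_le_mul_of_nonneg_right (pow_le_pow_left₀ (by positivity) h4 4) (by positivity)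
      _ = _ := by ring
  have h5 := rho_small h hi hin (s := ε / 4) (by positivity)
    (fun a ha => hs.trans (hI a ha).1) (by omega) δ U hU
  refine (split_level μ (measurable_rho δ U) (by positivity) (by positivity) hA h5
    (h2.trans (ENNReal.ofReal_le_ofReal h3))).trans (ENNReal.ofReal_le_ofReal ?_)
  have h6 : ε ^ 2 * finrank ℝ V / 8 ≤ r * (ε / 4) := by nlinarith
  have h7 : 1 / (r * (ε / 4) / (4 * finrank ℝ V)) ≤ 32 / ε ^ 2 := by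
    rw [one_div_div, div_le_div_iff₀ (by positivity) (by positivity)]; nlinarith
  have h8 : 24 * (finrank ℝ V : ℝ) / (r * (ε / 4)) ^ 2 ≤ 1536 / ε ^ 4 / finrank ℝ V := by
    calc _ ≤ 24 * (finrank ℝ V : ℝ) / (ε ^ 2 * finrank ℝ V / 8) ^ 2 :=
          div_le_div_of_nonneg_left (by positivity) (by positivity)
            (pow_le_pow_left₀ (by positivity) h6 2)
      _ = _ := by field_simp; ring
  have h9 : √(24 * (finrank ℝ V : ℝ) / (r * (ε / 4)) ^ 2 + 6 / finrank ℝ V) * √A ≤ 1 := by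
    rw [← Real.sqrt_mul (by positivity)]
    refine Real.sqrt_le_iff.2 ⟨zero_le_one, ?_⟩
    rw [one_pow]
    calc _ ≤ (1536 / ε ^ 4 / finrank ℝ V + 6 / finrank ℝ V) * A :=
          mul_le_mul_of_nonneg_right (by linarith) hA
      _ = (1536 / ε ^ 4 + 6) * A / finrank ℝ V := by ring
      _ ≤ 1 := (div_le_one hn).2 hbig2
  have h10 := N_ge_HiD6 hε hε1
  rw [show 64 / ε ^ 2 = 32 / ε ^ 2 + 32 / ε ^ 2 by ring]
  linarith

theorem sub_poly {i : ℕ} {μ ν : Measure V} (h : FP i μ ν) (hi : 1 ≤ i)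
    {ε s : ℝ} (hε : 0 < ε) (hε1 : ε ≤ 1) (hin : (i : ℝ) ≤ (1 - ε) * finrank ℝ V) (hs : ε / 4 ≤ s)
    (hI : Iso μ s) (hI' : Iso ν s) (hbig : 2 ^ 26 / ε ^ 6 ≤ √(finrank ℝ V : ℝ))
    (hbig2 : (1536 / ε ^ 4 + 6) * (4 * √(3 ^ 17 * Km 4) * (4 / ε) ^ 14) ≤ finrank ℝ V) :
    Sub i μ (ε ^ 4 / 1000 * √(finrank ℝ V : ℝ)) := by
  have := h.ml.prob
  have := h.mr.prob
  have hsn : 0 < √(finrank ℝ V : ℝ) := lt_of_lt_of_le (by positivity) hbig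
  have hn : (0 : ℝ) < finrank ℝ V := Real.sqrt_pos.1 hsn
  have hsq : √(finrank ℝ V : ℝ) ^ 2 = finrank ℝ V := Real.sq_sqrt hn.le
  have hb2 : 3072 ≤ ε ^ 4 * finrank ℝ V := by
    have h2 : 2 ^ 26 ≤ √(finrank ℝ V : ℝ) * ε ^ 6 := (div_le_iff₀ (by positivity)).1 hbig
    have h3 : ε ^ 6 ≤ ε ^ 2 := pow_le_pow_of_le_one hε.le hε1 (by norm_num)
    have h4 : 2 ^ 26 ≤ √(finrank ℝ V : ℝ) * ε ^ 2 :=
      h2.trans (mul_le_mul_of_nonneg_left h3 hsn.le)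
    have h5 := pow_le_pow_left₀ (by positivity) h4 2
    rw [mul_pow, hsq] at h5
    nlinarith
  have he4 : ε ^ 4 ≤ ε := by
    calc ε ^ 4 ≤ ε ^ 1 := pow_le_pow_of_le_one hε.le hε1 (by norm_num)
      _ = ε := pow_one ε
  have hq : i + 32 ≤ finrank ℝ V := by
    have : (i : ℝ) + 32 ≤ finrank ℝ V := by nlinarith
    exact_mod_cast this
  obtain ⟨r, hr⟩ : ∃ r : ℕ, r = (finrank ℝ V - i + 1) / 2 := ⟨_, rfl⟩
  have hr1 : 16 ≤ r := by omega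
  have hr2 : 2 * r + i ≤ finrank ℝ V + 1 := by omega
  have hr3 : ε * finrank ℝ V ≤ 2 * r := by
    have h3 : finrank ℝ V ≤ 2 * r + i := by omega
    have h4 : (finrank ℝ V : ℝ) ≤ 2 * r + i := by exact_mod_cast h3
    nlinarith
  intro U hU
  have hU' : r ≤ finrank ℝ U := by omega
  refine ⟨?_, ?_⟩
  · refine le_trans (mul_le_mul_of_nonneg_right (by linarith) hsn.le)
      (low_HiD6 h hi (by omega) hε hr1 hr3 (fun a ha => hs.trans (hI a ha).1) hb2 U hU')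
  have h10 := N_ge_HiD6 hε hε1
  have hN : 1 ≤ 64 / ε ^ 2 := by
    rw [show 64 / ε ^ 2 = 32 / ε ^ 2 + 32 / ε ^ 2 by ring]; linarith
  have hd := dyadic (μ := μ) (ν := ν) (r := r) hN fun δ h0 h1 hh W hW =>
    ⟨step_PwC h hi hε hε1 hr1 hr2 hr3 hs hI hI' hbig hbig2 h0.le h1
        (fun X hX => (hh X hX).2) W hW,
      step_PwC h.symm hi hε hε1 hr1 hr2 hr3 hs hI' hI hbig hbig2 h0.le h1
        (fun X hX => (hh X hX).1) W hW⟩
  have h2 := pU_moment h.mr h.wr hr1 (by positivity)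
    (det_PwC h.symm hi hε hε1 hr1 hr2 hr3 hs hI' hbig le_rfl zero_le_one
      fun X hX => (hd X hX).2.trans (ENNReal.ofReal_le_ofReal (by linarith))) U hU'
  rw [← h.el] at h2
  refine h2.trans ?_
  rw [← ENNReal.ofReal_inv_of_pos (by positivity), ← ENNReal.ofReal_pow (by positivity)]
  refine ENNReal.ofReal_le_ofReal ?_
  have hr0 : (0 : ℝ) < r := by exact_mod_cast (by omega : 0 < r)
  have h8 : (finrank ℝ V : ℝ) / r ≤ 2 / ε := by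
    rw [div_le_div_iff₀ hr0 hε]; nlinarith
  have h9 : (ε ^ 4 / 1000 * √(finrank ℝ V : ℝ)) ^ 8
      = (ε ^ 4 / 1000) ^ 8 * (finrank ℝ V : ℝ) ^ 4 := by
    rw [mul_pow, show (8 : ℕ) = 2 * 4 by rfl, pow_mul (√(finrank ℝ V : ℝ)), hsq]
  rw [inv_pow, h9, ← one_div, le_div_iff₀ (by positivity)]
  calc _ = ((finrank ℝ V : ℝ) / r) ^ 4 * (3 ^ 17 * (4 / ε) ^ 24 * (ε ^ 4 / 1000) ^ 8) := by
        rw [div_pow (finrank ℝ V : ℝ)]; ring
    _ ≤ (2 / ε) ^ 4 * (3 ^ 17 * (4 / ε) ^ 24 * (ε ^ 4 / 1000) ^ 8) :=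
        mul_le_mul_of_nonneg_right (pow_le_pow_left₀ (by positivity) h8 4) (by positivity)
    _ = ε ^ 4 * (2 ^ 4 * 3 ^ 17 * 4 ^ 24 / 1000 ^ 8) := by field_simp
    _ ≤ 1 * 1 := mul_le_mul (he4.trans hε1) (by norm_num) (by positivity) zero_le_one
    _ = 1 := one_mul 1

end Pool.Agent.P.MP_181257_gt
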