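import Pool.Agent.P.MP_181257_gt.PwC
import Pool.Agent.P.MP_181257_gt.HiE6

/-! Inverse fourth moments of the normal part with polynomial constants. -/

set_option autoImplicit false
set_option linter.unusedSectionVars false
set_option linter.unusedVariables false

open MeasureTheory ProbabilityTheory Module Set Filter Topology
open scoped RealInnerProductSpace ENNReal Pointwise Matrix

noncomputable section

namespace Pool.Agent.P.MP_181257_gt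

variable {V : Type} [NormedAddCommGroup V] [InnerProductSpace ℝ V] [FiniteDimensional ℝ V]
  [MeasurableSpace V] [BorelSpace V]

theorem pt1_PwD {t z w : ℝ} (ht : 0 ≤ t) (hz : 0 < z) :
    t * w ^ 2 ≤ z * w ^ 2 + (1 / (2 * z ^ 2) * (t ^ 2 - z ^ 2) ^ 2 + 1 / 2 * w ^ 4) ∧
      z - 1 / 2 - 1 / (2 * z ^ 2) * (t ^ 2 - z ^ 2) ^ 2 ≤ t := by
  have h1 : (t - z) ^ 2 / 2 ≤ 1 / (2 * z ^ 2) * (t ^ 2 - z ^ 2) ^ 2 := by
    have e : 1 / (2 * z ^ 2) * (t ^ 2 - z ^ 2) ^ 2 = (t - z) ^ 2 / 2 * ((t + z) ^ 2 / z ^ 2) := by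
      field_simp
      ring
    rw [e]
    refine le_mul_of_one_le_right (by positivity) ?_
    rw [one_le_div (by positivity)]
    nlinarith
  constructor
  · nlinarith [sq_nonneg (t - z - w ^ 2)]
  · nlinarith [sq_nonneg (t - z + 1)]

theorem good_PwD {i : ℕ} {μ ν : Measure V} (h : FP i μ ν) (hi : 1 ≤ i) (hin : i ≤ finrank ℝ V)
    (W : Submodule ℝ V) {m S : ℝ} (hm : 0 < m) (hW : m ≤ ∫ z, ‖pU W z‖ ^ 2 ∂μ) {l : V}
    (hl : ‖l‖ = 1) (hS : Sg μ l l ≤ S) :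
    Integrable (fun a => ‖pU W a‖ * ⟪l, a⟫ ^ 2) μ ∧
      ∫ a, ‖pU W a‖ * ⟪l, a⟫ ^ 2 ∂μ ≤ S * ∫ a, ‖pU W a‖ ∂μ + (6 * finrank ℝ V / m + 2) := by
  have := h.ml.prob
  have v := conc_sub h hi hin W
  have iv := int_var_HiD5 h W (∫ z, ‖pU W z‖ ^ 2 ∂μ)
  set M := ∫ z, ‖pU W z‖ ^ 2 ∂μ with hM
  have hM0 : 0 < M := hm.trans_le hW
  have hz : 0 < √M := Real.sqrt_pos.2 hM0
  have hz2 : √M ^ 2 = M := Real.sq_sqrt hM0.le
  have I2 := integrable_inner_pow_Tn h.mr h.wr l 2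
  have I4 := integrable_inner_pow_Tn h.mr h.wr l 4
  have E2 := integral_inner_pow_Tn h.mr h.wr l 1
  have E4 := integral_inner_pow_Tn h.mr h.wr l 2
  rw [← h.el] at I2 I4 E2 E4
  rw [Km_one, hl] at E2
  rw [Km_two, hl] at E4
  norm_num at E2 E4
  have I1 : Integrable (fun w => ‖pU W w‖) μ := by simpa using int_pU_HiD5 h W 1
  have j2 : Integrable (fun a => 1 / (2 * M) * (‖pU W a‖ ^ 2 - M) ^ 2 + 1 / 2 * ⟪l, a⟫ ^ 4) μ :=
    (iv.const_mul _).add (I4.const_mul _)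
  have j1 : Integrable (fun a => √M * ⟪l, a⟫ ^ 2
      + (1 / (2 * M) * (‖pU W a‖ ^ 2 - M) ^ 2 + 1 / 2 * ⟪l, a⟫ ^ 4)) μ := (I2.const_mul _).add j2
  have p1 : ∀ a, ‖pU W a‖ * ⟪l, a⟫ ^ 2 ≤ √M * ⟪l, a⟫ ^ 2
      + (1 / (2 * M) * (‖pU W a‖ ^ 2 - M) ^ 2 + 1 / 2 * ⟪l, a⟫ ^ 4) := fun a => by
    have := (pt1_PwD (w := ⟪l, a⟫) (norm_nonneg (pU W a)) hz).1
    rwa [hz2] at this
  have p2 : ∀ a, √M - 1 / 2 - 1 / (2 * M) * (‖pU W a‖ ^ 2 - M) ^ 2 ≤ ‖pU W a‖ := fun a => by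
    have := (pt1_PwD (w := 0) (norm_nonneg (pU W a)) hz).2
    rwa [hz2] at this
  have j0 : Integrable (fun a => ‖pU W a‖ * ⟪l, a⟫ ^ 2) μ := by
    refine j1.mono' (by fun_prop) (ae_of_all _ fun a => ?_)
    rw [Real.norm_eq_abs, abs_of_nonneg (by positivity)]
    exact p1 a
  refine ⟨j0, ?_⟩
  have q1 := integral_mono j0 j1 p1
  have q2 : ∫ a, (√M - 1 / 2 - 1 / (2 * M) * (‖pU W a‖ ^ 2 - M) ^ 2) ∂μ ≤ ∫ a, ‖pU W a‖ ∂μ :=
    integral_mono ((integrable_const _).sub (iv.const_mul _)) I1 p2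
  rw [integral_add (I2.const_mul _) j2, integral_add (iv.const_mul _) (I4.const_mul _),
    integral_const_mul, integral_const_mul, integral_const_mul] at q1
  rw [integral_sub (integrable_const _) (iv.const_mul _), integral_const_mul] at q2
  simp only [integral_const, probReal_univ, smul_eq_mul, one_mul] at q2
  have hK : 1 / (2 * M) * ∫ a, (‖pU W a‖ ^ 2 - M) ^ 2 ∂μ ≤ 3 * finrank ℝ V / m := by
    calc _ ≤ 1 / (2 * m) * (6 * finrank ℝ V) :=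
          mul_le_mul (one_div_le_one_div_of_le (by positivity) (by linarith)) v
            (integral_nonneg fun a => sq_nonneg _) (by positivity)
      _ = _ := by field_simp; ring
  have hS' : ∫ a, ⟪l, a⟫ ^ 2 ∂μ ≤ S := by simpa only [Sg, sq] using hS
  have hY : 0 ≤ ∫ a, ⟪l, a⟫ ^ 2 ∂μ := integral_nonneg fun a => sq_nonneg _
  have hI : 0 ≤ ∫ a, ‖pU W a‖ ∂μ := integral_nonneg fun a => norm_nonneg _
  have hk0 : 0 ≤ 3 * (finrank ℝ V : ℝ) / m := by positivity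
  have e6 : 6 * (finrank ℝ V : ℝ) / m = 2 * (3 * finrank ℝ V / m) := by ring
  have q3 : √M ≤ (∫ a, ‖pU W a‖ ∂μ) + (1 / 2 + 3 * finrank ℝ V / m) := by linarith
  have q4 := mul_le_mul_of_nonneg_right q3 hY
  have q5 := mul_le_mul_of_nonneg_left hS' hI
  have q6 := mul_le_mul_of_nonneg_left E2 (by positivity : 0 ≤ 1 / 2 + 3 * (finrank ℝ V : ℝ) / m)
  nlinarith

theorem young_PwD {X Y Z θ : ℝ} (hθ : 0 < θ) :
    X * (Y * Z) ≤ θ / 4 * (X ^ 4 + Y ^ 4) + 1 / (4 * θ ^ 3) + θ / 4 * Z ^ 4 := by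
  have h1 : 4 * ((θ * X) * (θ * Y) * (θ * Z)) ≤ (θ * X) ^ 4 + (θ * Y) ^ 4 + (θ * Z) ^ 4 + 1 := by
    nlinarith [sq_nonneg ((θ * X) ^ 2 - (θ * Y) ^ 2), sq_nonneg ((θ * Z) ^ 2 - 1),
      sq_nonneg ((θ * X) * (θ * Y) - θ * Z)]
  have h3 : 0 < 4 * θ ^ 3 := by positivity
  refine le_of_mul_le_mul_left ?_ h3
  have e : 4 * θ ^ 3 * (θ / 4 * (X ^ 4 + Y ^ 4) + 1 / (4 * θ ^ 3) + θ / 4 * Z ^ 4)
      = (θ * X) ^ 4 + (θ * Y) ^ 4 + (θ * Z) ^ 4 + 1 := by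
    field_simp
    ring
  rw [e]
  nlinarith

open Classical in
theorem bad_PwD {i : ℕ} {μ ν : Measure V} (h : FP i μ ν) (hi : 1 ≤ i) (hin : i ≤ finrank ℝ V)
    {lam θ m : ℝ} (hlam : 0 < lam) (hθ : 0 < θ) (hm : 0 < m) {U : Submodule ℝ V}
    (hU : ∫⁻ w, (ENNReal.ofReal ‖pU U w‖)⁻¹ ^ 8 ∂μ ≤ (ENNReal.ofReal lam)⁻¹ ^ 8)
    (hmU : m ≤ ∫ z, ‖pU U z‖ ^ 2 ∂μ) {l : V} (hl : ‖l‖ = 1) :
    ∫⁻ w, ENNReal.ofReal ‖w‖ * (ENNReal.ofReal (if m / 2 ≤ ‖pU U w‖ ^ 2 then 0 else ⟪l, w⟫ ^ 2)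
        * (ENNReal.ofReal ‖pU U w‖)⁻¹ ^ 2) ∂μ
      ≤ ENNReal.ofReal (√(finrank ℝ V : ℝ) / lam ^ 2
        * (θ / 4 * (4 + Km 4) + 1 / (4 * θ ^ 3) * (24 * finrank ℝ V / m ^ 2))) := by
  have hn' : (0 : ℝ) < finrank ℝ V := by exact_mod_cast (by omega : 0 < finrank ℝ V)
  have hs : 0 < √(finrank ℝ V : ℝ) := Real.sqrt_pos.2 hn'
  have hs2 : √(finrank ℝ V : ℝ) ^ 2 = finrank ℝ V := Real.sq_sqrt hn'.le
  have I1 := integrable_norm_pow_Tn h.mr h.wr 4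
  have I2 := integrable_inner_pow_Tn h.mr h.wr l 8
  have E1 := integral_norm_pow_Tn h.mr h.wr (j := 2) (by norm_num)
  have E2 := integral_inner_pow_Tn h.mr h.wr l 4
  rw [← h.el] at I1 I2 E1 E2
  rw [hl] at E2
  rw [Km_two] at E1
  norm_num at E1 E2
  have v := conc_sub h hi hin U
  have iv := int_var_HiD5 h U (∫ z, ‖pU U z‖ ^ 2 ∂μ)
  set M := ∫ z, ‖pU U z‖ ^ 2 ∂μ with hM
  have j1 : Integrable (fun w : V => θ / 4 * (‖w‖ ^ 4 / (finrank ℝ V : ℝ) ^ 2 + ⟪l, w⟫ ^ 8)) μ :=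
    ((I1.div_const _).add I2).const_mul _
  have j2 : Integrable (fun w : V => 1 / (4 * θ ^ 3) * (4 / m ^ 2 * (‖pU U w‖ ^ 2 - M) ^ 2)) μ :=
    (iv.const_mul _).const_mul _
  refine gen_HiE1 (c := θ / 4) hlam (by positivity) (by positivity) hU
    (f := fun w => if m / 2 ≤ ‖pU U w‖ ^ 2 then 0 else ⟪l, w⟫ ^ 2)
    (g := fun w => θ / 4 * (‖w‖ ^ 4 / (finrank ℝ V : ℝ) ^ 2 + ⟪l, w⟫ ^ 8)
      + 1 / (4 * θ ^ 3) * (4 / m ^ 2 * (‖pU U w‖ ^ 2 - M) ^ 2))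
    (fun w => by split_ifs <;> positivity) (fun w => by positivity) (j1.add j2) ?_ ?_
  · rw [integral_add j1 j2, integral_const_mul, integral_add (I1.div_const _) I2, integral_div,
      integral_const_mul, integral_const_mul]
    have h1 : (∫ w, ‖w‖ ^ 4 ∂μ) / (finrank ℝ V : ℝ) ^ 2 ≤ 3 := by
      rw [div_le_iff₀ (by positivity)]
      linarith
    have h2 := mul_le_mul_of_nonneg_left (add_le_add h1 E2) (by positivity : 0 ≤ θ / 4)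
    have h3 := mul_le_mul_of_nonneg_left (mul_le_mul_of_nonneg_left v
      (by positivity : 0 ≤ 4 / m ^ 2)) (by positivity : 0 ≤ 1 / (4 * θ ^ 3))
    have e : 4 / m ^ 2 * (6 * (finrank ℝ V : ℝ)) = 24 * finrank ℝ V / m ^ 2 := by ring
    rw [e] at h3
    linarith
  · intro w r hr
    split_ifs with hw
    · rw [zero_mul, mul_zero]
      positivity
    · have h1 := young_PwD (X := ‖w‖ / √(finrank ℝ V : ℝ)) (Y := ⟪l, w⟫ ^ 2)
        (Z := (lam * r) ^ 2) hθ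
      have hs4 : √(finrank ℝ V : ℝ) ^ 4 = (finrank ℝ V : ℝ) ^ 2 := by
        rw [show (4 : ℕ) = 2 * 2 from rfl, pow_mul, hs2]
      rw [div_pow, hs4, ← pow_mul, ← pow_mul, mul_pow lam r (2 * 4)] at h1
      have h3 : 1 ≤ 4 / m ^ 2 * (‖pU U w‖ ^ 2 - M) ^ 2 := by
        have g5 : m / 2 ≤ M - ‖pU U w‖ ^ 2 := by linarith [not_le.1 hw]
        have g6 := pow_le_pow_left₀ (by positivity) g5 2
        rw [div_mul_eq_mul_div, le_div_iff₀ (by positivity)]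
        nlinarith
      have h4 := mul_le_mul_of_nonneg_left h3 (by positivity : 0 ≤ 1 / (4 * θ ^ 3))
      calc _ = √(finrank ℝ V : ℝ) / lam ^ 2 *
            (‖w‖ / √(finrank ℝ V : ℝ) * (⟪l, w⟫ ^ 2 * (lam * r) ^ 2)) := by field_simp
        _ ≤ _ := by
          refine mul_le_mul_of_nonneg_left (h1.trans ?_) (by positivity)
          norm_num at h4 ⊢
          linarith

theorem mid_PwD {i : ℕ} {μ ν : Measure V} (h : FP i μ ν) (hi : 1 ≤ i) (hin : i ≤ finrank ℝ V)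
    {lam θ m m' S : ℝ} (hlam : 0 < lam) (hθ : 0 < θ) (hm : 0 < m) (hm' : 0 < m') (hS0 : 0 ≤ S)
    {U W : Submodule ℝ V}
    (hU : ∫⁻ w, (ENNReal.ofReal ‖pU U w‖)⁻¹ ^ 8 ∂μ ≤ (ENNReal.ofReal lam)⁻¹ ^ 8)
    (hmU : m ≤ ∫ z, ‖pU U z‖ ^ 2 ∂μ) (hW : m' ≤ ∫ z, ‖pU W z‖ ^ 2 ∂μ) {l : V} (hl : ‖l‖ = 1)
    (hS : Sg μ l l ≤ S) :
    ∫⁻ w, ENNReal.ofReal ‖pU W w‖ * (ENNReal.ofReal (⟪l, w⟫ ^ 2)
        * (ENNReal.ofReal ‖pU U w‖)⁻¹ ^ 2) ∂μ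
      ≤ ENNReal.ofReal (2 / m * (S * ∫ a, ‖pU W a‖ ∂μ + (6 * finrank ℝ V / m' + 2))
        + √(finrank ℝ V : ℝ) / lam ^ 2
          * (θ / 4 * (4 + Km 4) + 1 / (4 * θ ^ 3) * (24 * finrank ℝ V / m ^ 2))) := by
  classical
  obtain ⟨j0, g⟩ := good_PwD h hi hin W hm' hW hl hS
  have b := bad_PwD h hi hin hlam hθ hm hU hmU hl
  have hK := Km_nonneg 4
  have hI : 0 ≤ ∫ a, ‖pU W a‖ ∂μ := integral_nonneg fun a => norm_nonneg _
  have hpt : ∀ w, ENNReal.ofReal ‖pU W w‖ * (ENNReal.ofReal (⟪l, w⟫ ^ 2)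
        * (ENNReal.ofReal ‖pU U w‖)⁻¹ ^ 2)
      ≤ ENNReal.ofReal (2 / m * (‖pU W w‖ * ⟪l, w⟫ ^ 2))
        + ENNReal.ofReal ‖w‖ * (ENNReal.ofReal (if m / 2 ≤ ‖pU U w‖ ^ 2 then 0 else ⟪l, w⟫ ^ 2)
          * (ENNReal.ofReal ‖pU U w‖)⁻¹ ^ 2) := by
    intro w
    split_ifs with hw
    · refine le_trans ?_ le_self_add
      have h1 : 0 < ‖pU U w‖ ^ 2 := by linarith
      have h2 : 0 < ‖pU U w‖ := lt_of_le_of_ne (norm_nonneg _) fun h0 => by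
        rw [← h0] at h1; simp at h1
      rw [← ENNReal.ofReal_inv_of_pos h2, ← ENNReal.ofReal_pow (by positivity),
        ← ENNReal.ofReal_mul (sq_nonneg _), ← ENNReal.ofReal_mul (norm_nonneg _)]
      refine ENNReal.ofReal_le_ofReal ?_
      have h3 : ‖pU U w‖⁻¹ ^ 2 ≤ 2 / m := by
        rw [inv_pow, ← one_div, div_le_div_iff₀ h1 hm]
        linarith
      calc _ = ‖pU U w‖⁻¹ ^ 2 * (‖pU W w‖ * ⟪l, w⟫ ^ 2) := by ring
        _ ≤ _ := mul_le_mul_of_nonneg_right h3 (by positivity)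
    · exact le_trans (mul_le_mul' (ENNReal.ofReal_le_ofReal (norm_pU_le W w)) le_rfl) le_add_self
  refine (lintegral_mono hpt).trans ?_
  rw [lintegral_add_left (by fun_prop), ENNReal.ofReal_add (by positivity) (by positivity),
    ← ofReal_integral_eq_lintegral_ofReal (j0.const_mul _) (ae_of_all _ fun a => by positivity),
    integral_const_mul]
  exact add_le_add (ENNReal.ofReal_le_ofReal (mul_le_mul_of_nonneg_left g (by positivity))) b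

end Pool.Agent.P.MP_181257_gt
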