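import Pool.Agent.P.MP_181257_gt.PwD

/-! Rank dependent peeling for the inverse fourth moment. -/

set_option autoImplicit false
set_option linter.unusedSectionVars false
set_option linter.unusedVariables false

open MeasureTheory ProbabilityTheory Module Set Filter Topology
open scoped RealInnerProductSpace ENNReal Pointwise Matrix

noncomputable section

namespace Pool.Agent.P.MP_181257_gt

variable {V : Type} [NormedAddCommGroup V] [InnerProductSpace ℝ V] [FiniteDimensional ℝ V]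
  [MeasurableSpace V] [BorelSpace V]

theorem point_PwE {k : ℕ} (x : Fin k → V) (u a : V) (hp : Pj k x u ≠ 0)
    (ha : Pj (k + 1) (Fin.cons u x : Fin (k + 1) → V) a ≠ 0) {t : ℝ} (ht0 : 0 ≤ t)
    (ht : t ≤ ‖a‖) :
    ENNReal.ofReal t * (ENNReal.ofReal ‖Pj (k + 1) (Fin.cons a x : Fin (k + 1) → V) u‖)⁻¹ ^ 4
      ≤ (ENNReal.ofReal ‖Pj k x u‖)⁻¹ ^ 4 * (ENNReal.ofReal t
        + 2 * (ENNReal.ofReal t * (ENNReal.ofReal (⟪‖Pj k x u‖⁻¹ • Pj k x u, a⟫ ^ 2)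
          * (ENNReal.ofReal ‖Pj (k + 1) (Fin.cons u x : Fin (k + 1) → V) a‖)⁻¹ ^ 2))
        + ENNReal.ofReal ‖a‖ * (ENNReal.ofReal (⟪‖Pj k x u‖⁻¹ • Pj k x u, a⟫ ^ 4)
          * (ENNReal.ofReal ‖Pj (k + 1) (Fin.cons u x : Fin (k + 1) → V) a‖)⁻¹ ^ 4)) := by
  have h1 := norm_Pj_swap a u x
  have h2 := norm_sq_Pj_cons u x a
  have hP : 0 < ‖Pj k x u‖ := norm_pos_iff.2 hp
  have hQ : 0 < ‖Pj (k + 1) (Fin.cons u x : Fin (k + 1) → V) a‖ := norm_pos_iff.2 ha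
  rw [real_inner_smul_left]
  have hN0 := norm_nonneg (Pj (k + 1) (Fin.cons a x : Fin (k + 1) → V) u)
  have hA0 := norm_nonneg (Pj k x a)
  have ha0 := norm_nonneg a
  generalize ‖Pj (k + 1) (Fin.cons a x : Fin (k + 1) → V) u‖ = N at *
  generalize ‖Pj (k + 1) (Fin.cons u x : Fin (k + 1) → V) a‖ = Q at *
  generalize ‖Pj k x a‖ = A at *
  generalize ⟪Pj k x u, a⟫ = w at *
  generalize ‖Pj k x u‖ = P at *
  generalize ‖a‖ = s at *
  have hNA : 0 < N * A := h1 ▸ mul_pos hP hQ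
  have hN : 0 < N := lt_of_le_of_ne hN0 (by rintro rfl; simp at hNA)
  have hA : 0 < A := lt_of_le_of_ne hA0 (by rintro rfl; simp at hNA)
  have e1 : N⁻¹ = P⁻¹ * (A * Q⁻¹) := by
    field_simp
    linarith
  have e2 : (A * Q⁻¹) ^ 2 = 1 + (P⁻¹ * w) ^ 2 * Q⁻¹ ^ 2 := by
    have : A ^ 2 = Q ^ 2 + w ^ 2 / P ^ 2 := by linarith
    rw [mul_pow, this]
    field_simp
  have two : (2 : ℝ≥0∞) = ENNReal.ofReal 2 := by simp
  rw [← ENNReal.ofReal_inv_of_pos hN, ← ENNReal.ofReal_inv_of_pos hP,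
    ← ENNReal.ofReal_inv_of_pos hQ, two]
  simp only [← ENNReal.ofReal_pow (inv_nonneg.2 hN.le), ← ENNReal.ofReal_pow (inv_nonneg.2 hP.le),
    ← ENNReal.ofReal_pow (inv_nonneg.2 hQ.le)]
  rw [← ENNReal.ofReal_mul ht0, ← ENNReal.ofReal_mul (sq_nonneg _),
    ← ENNReal.ofReal_mul (p := (P⁻¹ * w) ^ 4) (by positivity), ← ENNReal.ofReal_mul ht0,
    ← ENNReal.ofReal_mul ha0, ← ENNReal.ofReal_mul (by norm_num : (0 : ℝ) ≤ 2),
    ← ENNReal.ofReal_add ht0 (by positivity), ← ENNReal.ofReal_add (by positivity) (by positivity),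
    ← ENNReal.ofReal_mul (by positivity)]
  refine ENNReal.ofReal_le_ofReal ?_
  have e3 : t * N⁻¹ ^ 4 = P⁻¹ ^ 4 * (t * ((A * Q⁻¹) ^ 2) ^ 2) := by rw [e1]; ring
  rw [e3, e2]
  refine mul_le_mul_of_nonneg_left ?_ (by positivity)
  have e4 : (P⁻¹ * w) ^ 4 * Q⁻¹ ^ 4 = ((P⁻¹ * w) ^ 2 * Q⁻¹ ^ 2) ^ 2 := by ring
  rw [e4]
  have hy : 0 ≤ (P⁻¹ * w) ^ 2 * Q⁻¹ ^ 2 := by positivity
  generalize (P⁻¹ * w) ^ 2 * Q⁻¹ ^ 2 = y at *
  nlinarith [mul_le_mul_of_nonneg_right ht (sq_nonneg y)]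

theorem ar_PwE {ε s c θ m j I K4 K8 : ℝ} (hε : 0 < ε) (hε1 : ε ≤ 1) (hs : ε / 4 ≤ s) (hc : 0 < c)
    (hθ : 0 < θ) (hm : 0 < m) (hj : ε * m ^ 2 ≤ j) (hI : c * m ≤ I) (h8 : 0 ≤ K8)
    (hθc : θ * (4 + K4) = c ^ 3) (hA : 26 / ε ^ 2 ≤ ε / 4 * (c * m))
    (hB : 384 / (ε ^ 4 * m ^ 2) ≤ c ^ 3 * θ ^ 3) (hC : 2 + K8 ≤ c ^ 5 * m ^ 2) :
    2 * (2 / (j * s) * (2 * s * I + (6 * m ^ 2 / (ε ^ 2 * m ^ 2 / 4) + 2))
        + m / (c * m) ^ 2 * (θ / 4 * (4 + K4) + 1 / (4 * θ ^ 3) * (24 * m ^ 2 / (j * s) ^ 2)))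
      + m / (c * m) ^ 4 * (2 + K8) ≤ (12 * (1 / j) + 2 / m ^ 2) * I := by
  have hs0 : 0 < s := by linarith
  have hj0 : 0 < j := lt_of_lt_of_le (by positivity) hj
  have hI0 : 0 < I := lt_of_lt_of_le (by positivity) hI
  have a1 : 6 * m ^ 2 / (ε ^ 2 * m ^ 2 / 4) + 2 ≤ s * I := by
    have e : 6 * m ^ 2 / (ε ^ 2 * m ^ 2 / 4) = 24 / ε ^ 2 := by field_simp; norm_num
    have h1 : 2 ≤ 2 / ε ^ 2 := by rw [le_div_iff₀ (by positivity)]; nlinarith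
    have h2 : ε / 4 * (c * m) ≤ s * I := mul_le_mul hs hI (by positivity) hs0.le
    have e2 : 26 / ε ^ 2 = 24 / ε ^ 2 + 2 / ε ^ 2 := by ring
    linarith
  have a2 : 2 / (j * s) * (2 * s * I + (6 * m ^ 2 / (ε ^ 2 * m ^ 2 / 4) + 2)) ≤ 6 * (1 / j) * I := by
    calc _ ≤ 2 / (j * s) * (3 * (s * I)) :=
          mul_le_mul_of_nonneg_left (by linarith) (by positivity)
      _ = _ := by field_simp; norm_num
  have a3 : 24 * m ^ 2 / (j * s) ^ 2 ≤ 384 / (ε ^ 4 * m ^ 2) := by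
    have h1 : ε * m ^ 2 * (ε / 4) ≤ j * s := mul_le_mul hj hs (by positivity) hj0.le
    calc _ ≤ 24 * m ^ 2 / (ε * m ^ 2 * (ε / 4)) ^ 2 :=
          div_le_div_of_nonneg_left (by positivity) (by positivity)
            (pow_le_pow_left₀ (by positivity) h1 2)
      _ = _ := by field_simp; norm_num
  have a4 : θ / 4 * (4 + K4) + 1 / (4 * θ ^ 3) * (24 * m ^ 2 / (j * s) ^ 2) ≤ c ^ 3 / 2 := by
    have h1 := mul_le_mul_of_nonneg_left (a3.trans hB) (by positivity : 0 ≤ 1 / (4 * θ ^ 3))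
    have e : 1 / (4 * θ ^ 3) * (c ^ 3 * θ ^ 3) = c ^ 3 / 4 := by field_simp
    linarith
  have a5 : m / (c * m) ^ 2 * (θ / 4 * (4 + K4) + 1 / (4 * θ ^ 3) * (24 * m ^ 2 / (j * s) ^ 2))
      ≤ 1 / (2 * m ^ 2) * I := by
    calc _ ≤ m / (c * m) ^ 2 * (c ^ 3 / 2) := mul_le_mul_of_nonneg_left a4 (by positivity)
      _ = 1 / (2 * m ^ 2) * (c * m) := by field_simp
      _ ≤ _ := mul_le_mul_of_nonneg_left hI (by positivity)
  have a6 : m / (c * m) ^ 4 * (2 + K8) ≤ 1 / m ^ 2 * I := by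
    calc _ ≤ m / (c * m) ^ 4 * (c ^ 5 * m ^ 2) := mul_le_mul_of_nonneg_left hC (by positivity)
      _ = 1 / m ^ 2 * (c * m) := by field_simp
      _ ≤ _ := mul_le_mul_of_nonneg_left hI (by positivity)
  have e7 : (12 * (1 / j) + 2 / m ^ 2) * I
      = 2 * (6 * (1 / j) * I + 1 / (2 * m ^ 2) * I) + 1 / m ^ 2 * I := by ring
  rw [e7]
  linarith

theorem neg4_poly {i : ℕ} {μ ν : Measure V} (h : FP i μ ν) (hi : 1 ≤ i) {ε s c θ : ℝ}
    (hε : 0 < ε) (hε1 : ε ≤ 1) (hin : (i : ℝ) ≤ (1 - ε) * finrank ℝ V)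
    (hεn : 2 ≤ ε * finrank ℝ V) (hs : ε / 4 ≤ s) (hI : Iso μ s) (hc : 0 < c) (hθ : 0 < θ)
    (hS : Sub i μ (c * √(finrank ℝ V : ℝ))) (hθc : θ * (4 + Km 4) = c ^ 3)
    (hA : 26 / ε ^ 2 ≤ ε / 4 * (c * √(finrank ℝ V : ℝ)))
    (hB : 384 / (ε ^ 4 * finrank ℝ V) ≤ c ^ 3 * θ ^ 3) (hC : 2 + Km 8 ≤ c ^ 5 * finrank ℝ V) :
    Neg4 i μ (8 * (2 / ε) ^ 12) := by
  intro u hu
  set n := finrank ℝ V with hn
  have hi2 : i + 2 ≤ n := by
    have : (i : ℝ) + 2 ≤ n := by linarith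
    exact_mod_cast this
  have hi2' : (i : ℝ) + 2 ≤ n := by exact_mod_cast hi2
  have hn1 : 1 ≤ n := by omega
  have hn0 : (0 : ℝ) < n := by exact_mod_cast hn1
  have hsn : 0 < √(n : ℝ) := Real.sqrt_pos.2 hn0
  have hsq : √(n : ℝ) ^ 2 = n := Real.sq_sqrt hn0.le
  have h4 := Km_nonneg 4
  have h8 := Km_nonneg 8
  have hs0 : 0 < s := by linarith
  have hlam : 0 < c * √(n : ℝ) := mul_pos hc hsn
  have key := peel_exp h.ml (d := n - i) (K := i) (by omega) h.wl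
    (fun k => 12 * (1 / ((n : ℝ) - 1 - k)) + 2 / n)
    (fun k x => (ENNReal.ofReal ‖Pj k x u‖)⁻¹ ^ 4)
    (fun k => ((measurable_Pj k measurable_id measurable_const).norm.ennreal_ofReal.inv).pow_const 4)
    (fun x => by simp [Pj, hu]) ?_
  · refine key.trans (ENNReal.ofReal_le_ofReal ?_)
    rw [Finset.sum_add_distrib, ← Finset.mul_sum, Finset.sum_const, Finset.card_range,
      nsmul_eq_mul]
    have h3 := harm_le (a := (n : ℝ) - 1) i (by linarith)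
    have hd : 0 < (n : ℝ) - 1 - i := by linarith
    have hq0 : 0 < ((n : ℝ) - 1) / ((n : ℝ) - 1 - i) := div_pos (by linarith) hd
    have hq : ((n : ℝ) - 1) / ((n : ℝ) - 1 - i) ≤ 2 / ε := by
      rw [div_le_div_iff₀ hd hε]
      nlinarith
    have h5 : (i : ℝ) * (2 / n) ≤ 2 := by
      rw [← mul_div_assoc, div_le_iff₀ hn0]
      linarith
    rw [Real.exp_add, mul_comm 8]
    refine mul_le_mul ((Real.exp_le_exp.2 (mul_le_mul_of_nonneg_left h3 (by norm_num))).trans ?_)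
      ((Real.exp_le_exp.2 h5).trans ?_) (Real.exp_pos _).le (by positivity)
    · rw [show (12 : ℝ) = (12 : ℕ) by norm_num, Real.exp_nat_mul, Real.exp_log hq0]
      exact pow_le_pow_left₀ hq0.le hq 12
    · rw [show (2 : ℝ) = 1 + 1 by norm_num, Real.exp_add]
      nlinarith [Real.exp_one_lt_d9, Real.exp_pos 1]
  intro k hk x U hU
  have hmU : Measurable fun a : V => ENNReal.ofReal ‖pU U a‖ :=
    (pU U).continuous.measurable.norm.ennreal_ofReal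
  have hIe : ENNReal.ofReal (∫ a, ‖pU U a‖ ∂μ) = ∫⁻ a, ENNReal.ofReal ‖pU U a‖ ∂μ :=
    ofReal_integral_eq_lintegral_ofReal
      (h.ml.int.mono' (pU U).continuous.norm.aestronglyMeasurable
        (ae_of_all _ fun a => by rw [norm_norm]; exact norm_pU_le U a))
      (ae_of_all _ fun a => norm_nonneg _)
  have hIl := (hS U (by omega)).1
  by_cases hp : Pj k x u = 0
  · have h1 : ENNReal.ofReal (Real.exp (12 * (1 / ((n : ℝ) - 1 - k)) + 2 / n)) ≠ 0 :=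
      (ENNReal.ofReal_pos.2 (Real.exp_pos _)).ne'
    have h2 : ∫⁻ a, ENNReal.ofReal ‖pU U a‖ ∂μ ≠ 0 := by
      rw [← hIe]
      exact (ENNReal.ofReal_pos.2 (hlam.trans_le hIl)).ne'
    simp only [hp, norm_zero, ENNReal.ofReal_zero, ENNReal.inv_zero]
    rw [ENNReal.top_pow (by norm_num), ENNReal.mul_top h1, ENNReal.top_mul h2]
    exact le_top
  have hfr := finrank_nrm_ge (Fin.cons u x : Fin (k + 1) → V)
  have hU2 := (hS (nrm (Fin.cons u x : Fin (k + 1) → V)) (by omega)).2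
  have hl : ‖‖Pj k x u‖⁻¹ • Pj k x u‖ = 1 := by
    rw [norm_smul, norm_inv, norm_norm, inv_mul_cancel₀ (norm_ne_zero_iff.2 hp)]
  obtain ⟨j, hj⟩ : ∃ j : ℕ, j + k + 1 = n := ⟨n - k - 1, by omega⟩
  have hjn : (n : ℝ) - 1 - k = j := by
    have : (j : ℝ) + k + 1 = n := by exact_mod_cast hj
    linarith
  have hjε : ε * n ≤ j := by
    have : (k : ℝ) + 1 ≤ i := by exact_mod_cast hk
    linarith
  have hj0 : (0 : ℝ) < j := by linarith
  have m1 := mean_HiD5 h (fun a ha => (hI a ha).1) (r := j)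
    (nrm (Fin.cons u x : Fin (k + 1) → V)) (by omega)
  have m2 : ε ^ 2 * n / 4 ≤ ∫ z, ‖pU U z‖ ^ 2 ∂μ := by
    refine le_trans ?_ (mean_HiD5 h (fun a ha => (hI a ha).1) (r := n - i) U (by omega))
    rw [Nat.cast_sub (by omega)]
    have h1 : ε * n * (ε / 4) ≤ (n - i) * s := mul_le_mul (by linarith) hs (by positivity)
      (by linarith)
    linarith
  have ka := mid_PwD h hi (by omega) hlam hθ (by positivity) (by positivity) (by positivity)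
    hU2 m1 m2 hl (hI _ hl).2
  have kb := mom_b h hn1 hlam hU2 hl.le
  have har := ar_PwE (j := j) hε hε1 hs hc hθ hsn (by rw [hsq]; exact hjε) hIl h8 hθc hA
    (by rw [hsq]; exact hB) (by rw [hsq]; exact hC)
  rw [hsq] at har
  rw [← Pj_eq] at hU2 ka kb
  rw [← hn] at ka kb
  have hm2 : Measurable fun a : V =>
      (ENNReal.ofReal ‖Pj (k + 1) (Fin.cons u x : Fin (k + 1) → V) a‖)⁻¹ :=
    (Pj (k + 1) (Fin.cons u x : Fin (k + 1) → V)).continuous.measurable.norm.ennreal_ofReal.inv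
  have hae : ∀ᵐ a ∂μ, Pj (k + 1) (Fin.cons u x : Fin (k + 1) → V) a ≠ 0 := by
    have := ae_lt_top (hm2.pow_const 8) (ne_top_of_le_ne_top
      (ENNReal.pow_ne_top (ENNReal.inv_ne_top.2 (ENNReal.ofReal_pos.2 hlam).ne')) hU2)
    filter_upwards [this] with a ha h0
    simp [h0] at ha
  have hin : Measurable fun a : V => ⟪‖Pj k x u‖⁻¹ • Pj k x u, a⟫ := by fun_prop
  have hma : Measurable fun a : V => ENNReal.ofReal ‖pU U a‖ + 2 * (ENNReal.ofReal ‖pU U a‖ *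
      (ENNReal.ofReal (⟪‖Pj k x u‖⁻¹ • Pj k x u, a⟫ ^ 2) *
        (ENNReal.ofReal ‖Pj (k + 1) (Fin.cons u x : Fin (k + 1) → V) a‖)⁻¹ ^ 2)) :=
    hmU.add ((hmU.mul ((hin.pow_const 2).ennreal_ofReal.mul (hm2.pow_const 2))).const_mul 2)
  have hfin : (ENNReal.ofReal ‖Pj k x u‖)⁻¹ ^ 4 ≠ ∞ :=
    ENNReal.pow_ne_top (ENNReal.inv_ne_top.2 (ENNReal.ofReal_pos.2 (norm_pos_iff.2 hp)).ne')
  refine (lintegral_mono_ae (hae.mono fun a ha =>
    point_PwE x u a hp ha (norm_nonneg _) (norm_pU_le U a))).trans ?_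
  rw [lintegral_const_mul' _ _ hfin, lintegral_add_left hma,
    lintegral_add_left hmU, lintegral_const_mul' _ _ (by simp),
    mul_comm (ENNReal.ofReal (Real.exp _)), mul_assoc, hjn]
  refine mul_le_mul_right ?_ _
  have hγ : 0 ≤ 12 * (1 / (j : ℝ)) + 2 / n := by positivity
  refine le_trans ?_ (mul_le_mul' (ENNReal.ofReal_le_ofReal (Real.add_one_le_exp _)) le_rfl)
  rw [add_comm _ (1 : ℝ), ENNReal.ofReal_add zero_le_one hγ, ENNReal.ofReal_one, add_mul, one_mul,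
    add_assoc]
  refine add_le_add_right ?_ _
  refine (add_le_add (mul_le_mul_right ka 2) kb).trans ?_
  have two : (2 : ℝ≥0∞) = ENNReal.ofReal 2 := by simp
  have hI0 : 0 ≤ ∫ a, ‖pU U a‖ ∂μ := hlam.le.trans hIl
  rw [← hIe, two, ← ENNReal.ofReal_mul (by norm_num : (0 : ℝ) ≤ 2),
    ← ENNReal.ofReal_add (by positivity) (by positivity), ← ENNReal.ofReal_mul hγ]
  exact ENNReal.ofReal_le_ofReal har

end Pool.Agent.P.MP_181257_gt
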