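import Pool.Agent.P.MP_181257_gt.PwE
import Pool.Agent.P.MP_181257_gt.HiMain

/-! Rigidity for `i ≤ n - n ^ (249 / 250)`. -/

set_option autoImplicit false
set_option linter.unusedSectionVars false
set_option linter.unusedVariables false

open MeasureTheory ProbabilityTheory Module Set Filter Topology
open scoped RealInnerProductSpace ENNReal Pointwise Matrix

noncomputable section

namespace Pool.Agent.P.MP_181257_gt

variable {V : Type} [NormedAddCommGroup V] [InnerProductSpace ℝ V] [FiniteDimensional ℝ V]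
  [MeasurableSpace V] [BorelSpace V]

theorem thr_PwF {ε a B x : ℝ} (hε : 0 < ε) (hε1 : ε ≤ 1) {k K : ℕ} (hk : k ≤ K) (ha : a ≤ B)
    (hB : 0 ≤ B) (hx : B / ε ^ K ≤ x) : a ≤ x * ε ^ k := by
  have h1 : B ≤ x * ε ^ K := (div_le_iff₀ (by positivity)).1 hx
  have h0 : 0 ≤ x := le_trans (by positivity) hx
  exact ha.trans (h1.trans (mul_le_mul_of_nonneg_left (pow_le_pow_of_le_one hε.le hε1 hk) h0))

theorem iso_poly {i : ℕ} {μ ν : Measure V} (h : FP i μ ν) (hi : 1 ≤ i) {ε m e : ℝ} (hε : 0 < ε)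
    (hε1 : ε ≤ 1) (hin : (i : ℝ) ≤ (1 - ε) * finrank ℝ V) (hεn : 2 ≤ ε * finrank ℝ V)
    (hm : 1 ≤ m) (hmn : m ^ 4 = finrank ℝ V) (he : 0 < e) (hb : 10 ^ 26 ≤ m * ε ^ 36 * e)
    {a : V} (ha : ‖a‖ = 1) :
    |Sg μ a a - ((finrank ℝ V : ℝ) - i - 1) / finrank ℝ V| ≤ e := by
  have hi2 : i + 2 ≤ finrank ℝ V := by
    have : (i : ℝ) + 2 ≤ finrank ℝ V := by linarith
    exact_mod_cast this
  have hn0 : (0 : ℝ) < finrank ℝ V := by exact_mod_cast (by omega : 0 < finrank ℝ V)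
  have hm2 : √(finrank ℝ V : ℝ) = m ^ 2 := by
    rw [← hmn, show m ^ 4 = (m ^ 2) ^ 2 by ring, Real.sqrt_sq (by positivity)]
  have hc1 : (ε / 2) ^ 6 / 100 ≤ 1 := by
    have : (ε / 2) ^ 6 ≤ 1 := pow_le_one₀ (by positivity) (by linarith)
    linarith
  have hZ : (ε / 2) ^ 6 / 100 * m ^ 2 ≤ Zq i μ := by
    refine le_trans ?_ (nonthin h hi2)
    rw [hm2]
    have h1 : ε / 2 ≤ ((finrank ℝ V : ℝ) - i - 1) / finrank ℝ V := by
      rw [le_div_iff₀ hn0]; nlinarith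
    have h2 := pow_le_pow_left₀ (by positivity) h1 6
    have h3 := mul_le_mul_of_nonneg_right h2 (sq_nonneg m)
    linarith
  refine (iso_core h hi (by omega) (by positivity) hc1 hm hmn hZ ha).trans ?_
  rw [div_le_iff₀ (by positivity)]
  have e1 : e * (((ε / 2) ^ 6 / 100) ^ 6 * m) = m * ε ^ 36 * e / (2 ^ 36 * 10 ^ 12) := by ring
  rw [e1, le_div_iff₀ (by positivity)]
  refine le_trans ?_ hb
  norm_num

theorem apriori_poly : ∃ B : ℝ, 2 ≤ B ∧ ∀ (n : ℕ) (ε m : ℝ), 0 < ε → ε ≤ 1 → m ^ 4 = n →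
    B / ε ^ 51 ≤ m → ∀ (i : ℕ) (μ ν : Measure (En n)), FP i μ ν → 1 ≤ i →
      (i : ℝ) ≤ (1 - ε) * n →
      ∃ C s : ℝ, 1 ≤ C ∧ 0 < s ∧ Neg4 i μ C ∧ ∀ u v : En n, ‖u‖ = 1 → ‖v‖ = 1 → ⟪u, v⟫ = 0 →
        (1 - ε / 4) * s ≤ MK i μ u v v ∧ MK i μ u v v ≤ (1 + ε / 4) * s := by
  have hK4 := Km_nonneg 4
  have hK8 := Km_nonneg 8
  obtain ⟨a1, ha1⟩ : ∃ a : ℝ, a = 1542 * (4 * √(3 ^ 17 * Km 4) * 4 ^ 14) := ⟨_, rfl⟩
  obtain ⟨a2, ha2⟩ : ∃ a : ℝ, a = 384 * (4 + Km 4) ^ 3 * 1000 ^ 12 := ⟨_, rfl⟩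
  obtain ⟨a3, ha3⟩ : ∃ a : ℝ, a = (2 + Km 8) * 1000 ^ 5 := ⟨_, rfl⟩
  have p1 : 0 ≤ a1 := by rw [ha1]; positivity
  have p2 : 0 ≤ a2 := by rw [ha2]; positivity
  have p3 : 0 ≤ a3 := by rw [ha3]; positivity
  obtain ⟨B, hBd⟩ : ∃ B : ℝ, B = 10 ^ 33 + a1 + a2 + 10 ^ 14 * a3 := ⟨_, rfl⟩
  have hB : (10 : ℝ) ^ 33 ≤ B := by linarith
  have hB0 : 0 ≤ B := le_trans (by positivity) hB
  refine ⟨B, le_trans (by norm_num) hB, fun n ε m hε hε1 hmn hm i μ ν h hi hin => ?_⟩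
  have hfr : finrank ℝ (En n) = n := finrank_euclideanSpace_fin
  have hm1 : 1 ≤ m := by
    have := thr_PwF hε hε1 (Nat.zero_le 51) (a := 1) (le_trans (by norm_num) hB) hB0 hm
    simpa using this
  have hm2 : √(n : ℝ) = m ^ 2 := by
    rw [← hmn, show m ^ 4 = (m ^ 2) ^ 2 by ring, Real.sqrt_sq (by positivity)]
  have hmm : B / ε ^ 51 ≤ √(n : ℝ) := by rw [hm2]; nlinarith
  have hnn : B / ε ^ 102 ≤ n := by
    have h1 := pow_le_pow_left₀ (by positivity) hmm 2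
    rw [Real.sq_sqrt (Nat.cast_nonneg n), div_pow, ← pow_mul] at h1
    refine le_trans (div_le_div_of_nonneg_right ?_ (by positivity)) h1
    have : (1 : ℝ) ≤ B := le_trans (by norm_num) hB
    nlinarith
  have hεn : 2 ≤ ε * n := by
    have := thr_PwF hε hε1 (by norm_num : 1 ≤ 102) (a := 2) (le_trans (by norm_num) hB) hB0 hnn
    linarith
  have a5 : (1 : ℝ) ≤ n := by nlinarith
  have hnpos : (0 : ℝ) < n := by linarith
  obtain ⟨b1, hσε, hσ1⟩ := ar3_HiE6 hε a5 (Nat.cast_nonneg i)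
    (by rw [div_le_iff₀ hε]; linarith) hin
  have hin' : i + 1 ≤ finrank ℝ (En n) := by
    rw [hfr]
    exact_mod_cast b1
  obtain ⟨σ, hσdef⟩ : ∃ σ : ℝ, σ = ((n : ℝ) - i - 1) / n := ⟨_, rfl⟩
  rw [← hσdef] at hσε hσ1
  have hσ : 0 < σ := (half_pos hε).trans_le hσε
  obtain ⟨C, hCdef⟩ : ∃ C : ℝ, C = 8 * (2 / ε) ^ 12 := ⟨_, rfl⟩
  have hC : 1 ≤ C := by
    have : 1 ≤ (2 / ε) ^ 12 := one_le_pow₀ (by rw [le_div_iff₀ hε]; linarith)
    linarith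
  obtain ⟨e, hedef⟩ : ∃ e : ℝ, e = ε / 4 * (ε / 2) ^ 2 / (3 * C) := ⟨_, rfl⟩
  have he15 : e = ε ^ 15 / 1572864 := by rw [hedef, hCdef]; field_simp; norm_num
  have he : 0 < e := by rw [he15]; positivity
  have hiso : ∀ μ' ν' : Measure (En n), FP i μ' ν' → ∀ a : En n, ‖a‖ = 1 →
      |Sg μ' a a - σ| ≤ e / 2 := by
    intro μ' ν' h' a ha
    have := iso_poly h' hi hε hε1 (by rw [hfr]; exact hin) (by rw [hfr]; exact hεn) hm1
      (by rw [hfr]; exact hmn) (half_pos he) ?_ ha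
    · rwa [hfr, ← hσdef] at this
    · have h1 := thr_PwF hε hε1 (le_refl 51) hB hB0 hm
      have e1 : m * ε ^ 36 * (e / 2) = m * ε ^ 51 / 3145728 := by rw [he15]; ring
      rw [e1, le_div_iff₀ (by norm_num)]
      exact le_trans (by norm_num) h1
  have he3 : e / 2 ≤ σ / 3 := by
    have : ε ^ 15 ≤ ε := by
      calc ε ^ 15 ≤ ε ^ 1 := pow_le_pow_of_le_one hε.le hε1 (by norm_num)
        _ = ε := pow_one ε
    rw [he15]
    linarith
  have hI : ∀ μ' ν' : Measure (En n), FP i μ' ν' → Iso μ' (2 * σ / 3) := by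
    intro μ' ν' h' a ha
    have := abs_le.1 (hiso μ' ν' h' a ha)
    constructor <;> linarith [this.1, this.2]
  have hs : ε / 4 ≤ 2 * σ / 3 := by linarith
  have hS : Sub i μ (ε ^ 4 / 1000 * √(finrank ℝ (En n) : ℝ)) := by
    refine sub_poly h hi hε hε1 (by rw [hfr]; exact hin) hs (hI μ ν h) (hI ν μ h.symm) ?_ ?_
    · rw [hfr, div_le_iff₀ (by positivity)]
      exact thr_PwF hε hε1 (by norm_num) (le_trans (by norm_num) hB) hB0 hmm
    · have h1 := thr_PwF hε hε1 (by norm_num : 18 ≤ 102) (a := a1) (by linarith) hB0 hnn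
      have h2 : 6 ≤ 6 / ε ^ 4 := by
        rw [le_div_iff₀ (by positivity)]
        have : ε ^ 4 ≤ 1 := pow_le_one₀ hε.le hε1
        linarith
      rw [hfr]
      calc _ ≤ (1536 / ε ^ 4 + 6 / ε ^ 4) * (4 * √(3 ^ 17 * Km 4) * (4 / ε) ^ 14) :=
            mul_le_mul_of_nonneg_right (by linarith) (by positivity)
        _ = a1 / ε ^ 18 := by
            rw [ha1]
            generalize √(3 ^ 17 * Km 4) = w
            field_simp
            ring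
        _ ≤ n := (div_le_iff₀ (by positivity)).2 h1
  have h30 : a3 ≤ n * ε ^ 20 :=
    thr_PwF hε hε1 (by norm_num : 20 ≤ 102) (by linarith) hB0 hnn
  have hN : Neg4 i μ C := by
    rw [hCdef]
    refine neg4_poly h hi hε hε1 (by rw [hfr]; exact hin) (by rw [hfr]; exact hεn) hs (hI μ ν h)
      (by positivity) (θ := (ε ^ 4 / 1000) ^ 3 / (4 + Km 4)) (by positivity) hS
      (by field_simp) ?_ ?_ ?_
    · have h1 := thr_PwF hε hε1 (by norm_num : 7 ≤ 51) (a := 104000)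
        (le_trans (by norm_num) hB) hB0 hmm
      rw [hfr, div_le_iff₀ (by positivity)]
      have e1 : ε / 4 * (ε ^ 4 / 1000 * √(n : ℝ)) * ε ^ 2 = √(n : ℝ) * ε ^ 7 / 4000 := by ring
      rw [e1]
      linarith
    · have h1 := thr_PwF hε hε1 (by norm_num : 52 ≤ 102) (a := a2) (by linarith) hB0 hnn
      rw [hfr, div_le_iff₀ (by positivity)]
      have e1 : (ε ^ 4 / 1000) ^ 3 * ((ε ^ 4 / 1000) ^ 3 / (4 + Km 4)) ^ 3 * (ε ^ 4 * n)
          = n * ε ^ 52 / ((4 + Km 4) ^ 3 * 1000 ^ 12) := by field_simp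
      rw [e1, le_div_iff₀ (by positivity), ← mul_assoc, ← ha2]
      exact h1
    · have e1 : (ε ^ 4 / 1000) ^ 5 * (n : ℝ) = n * ε ^ 20 / 1000 ^ 5 := by ring
      rw [hfr, e1, le_div_iff₀ (by positivity), ← ha3]
      exact h30
  have hv : ∀ u : En n, ‖u‖ = 1 → ∫ x, (‖Pj i x u‖ ^ 2 - σ) ^ 2 ∂(Fr i μ) ≤ e ^ 2 := by
    intro u hu
    have e1 := shift_HiE6 h.ml h.wl hu (Sg ν u u) σ
    have e2 := var_point h hi hin' (by positivity) hS hu
    rw [hfr] at e2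
    have e3 := hiso ν μ h.symm u hu
    have e4 : (Sg ν u u - σ) ^ 2 ≤ (e / 2) ^ 2 := sq_le_sq' (abs_le.1 e3).1 (abs_le.1 e3).2
    have e5 : (2 + Km 8) / ((ε ^ 4 / 1000) ^ 5 * n) ≤ e ^ 2 / 4 := by
      have h1 := thr_PwF hε hε1 (by norm_num : 50 ≤ 102) (a := 10 ^ 14 * a3) (by linarith) hB0 hnn
      have e7 : e ^ 2 / 4 * ((ε ^ 4 / 1000) ^ 5 * n)
          = n * ε ^ 50 / (4 * 1572864 ^ 2 * 1000 ^ 5) := by rw [he15]; ring
      rw [div_le_iff₀ (by positivity), e7, le_div_iff₀ (by positivity)]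
      refine le_trans ?_ h1
      rw [ha3]
      nlinarith
    have e6 : (e / 2) ^ 2 = e ^ 2 / 4 := by ring
    linarith
  refine ⟨C, √σ, hC, Real.sqrt_pos.2 hσ, hN, fun u v hu hv1 huv => ?_⟩
  have q1 := pinch h.ml h.wl hC hN hσ hσ1 he hv hu hv1 huv
  have q3 := ar1_HiE6 hε (by positivity : 0 < ε / 4) hC hσε hσ1
  rw [← hedef] at q3
  have q4 := abs_le.1 (q1.trans q3)
  constructor <;> linarith [q4.1, q4.2]

theorem const_poly : ∃ B : ℝ, 2 ≤ B ∧ ∀ (n : ℕ) (ε m : ℝ), 0 < ε → ε ≤ 1 → m ^ 4 = n →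
    B / ε ^ 51 ≤ m → ∀ (i : ℕ) (μ ν : Measure (En n)), FP i μ ν → 1 ≤ i →
      (i : ℝ) ≤ (1 - ε) * n → ∀ u u' : En n, ‖u‖ = 1 → ‖u'‖ = 1 → th i ν u = th i ν u' := by
  obtain ⟨B, hB, h₁⟩ := apriori_poly
  refine ⟨B, hB, fun n ε M hε hε1 hM hBM i μ ν h hi hin u u' hu hu' => ?_⟩
  have hεn : 2 < ε * n := by
    have h1 := thr_PwF hε hε1 (by norm_num : 1 ≤ 51) hB (by linarith) hBM
    have h2 : 2 ≤ M := by nlinarith
    have h3 : M * 2 ≤ M ^ 4 := by nlinarith [pow_le_pow_left₀ (by norm_num) h2 3]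
    rw [← hM]
    nlinarith
  have hi2 : i + 2 ≤ n := by
    have : (i : ℝ) + 2 ≤ n := by nlinarith
    exact_mod_cast this
  obtain ⟨C, s, hC, hs, hN, hp⟩ := h₁ n ε M hε hε1 hM hBM i μ ν h hi hin
  obtain ⟨C', s', hC', hs', hN', hp'⟩ := h₁ n ε M hε hε1 hM hBM i ν μ h.symm hi hin
  have hfr : finrank ℝ (En n) = n := by simp
  obtain ⟨hLf, a, c, hc, hth, hM1, hV⟩ := dens_fix h hi (by omega) hC hN hC' hN'
  obtain ⟨hLg, a', c', hc', -, hM', hV'⟩ := dens_fix h.symm hi (by omega) hC' hN' hC hN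
  obtain ⟨k, rfl⟩ : ∃ k, i = k + 1 := ⟨i - 1, by omega⟩
  obtain ⟨m, rfl⟩ : ∃ m, n = m + 1 := ⟨n - 1, by omega⟩
  have hη : 0 < 1 - ε / 4 := by linarith
  have hm0 : (0 : ℝ) < m := by
    have : 0 < m := by omega
    exact_mod_cast this
  rw [hth u, hth u', local_rigid hfr (by omega) hLf hLg (by positivity) (by positivity)
    (by positivity) (by positivity) (pin_of hc hM1 hp') (pin_of hc' hM' hp) (pow_pos hc _)
    (pow_pos hc' _) hV hV' ?_ hu hu']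
  have e : (((k + 1 : ℝ) / m) ^ 2 * (c'⁻¹ * ((1 + ε / 4) * s) * (c⁻¹ * ((1 + ε / 4) * s'))
      / (c'⁻¹ * ((1 - ε / 4) * s)) ^ 2)) * (((k + 1 : ℝ) / m) ^ 2
        * (c⁻¹ * ((1 + ε / 4) * s') * (c'⁻¹ * ((1 + ε / 4) * s))
          / (c⁻¹ * ((1 - ε / 4) * s')) ^ 2))
      = (((k + 1 : ℝ) * (1 + ε / 4)) / (m * (1 - ε / 4))) ^ 4 := by
    field_simp
  rw [e]
  refine pow_lt_one₀ (by positivity) ((div_lt_one (by positivity)).2 ?_) (by norm_num)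
  push_cast at hin hεn
  have h3 : (k + 1 : ℝ) * (1 + ε / 4) ≤ (1 - ε) * (m + 1) * (1 + ε / 4) :=
    mul_le_mul_of_nonneg_right hin (by positivity)
  nlinarith [mul_pos hε hε, mul_pos (mul_pos hε hε) hm0]

theorem power_range : ∃ n₀ : ℕ, ∀ n : ℕ, n₀ ≤ n → ∀ i : ℕ, 1 ≤ i →
    (i : ℝ) ≤ n - (n : ℝ) ^ (249 / 250 : ℝ) →
      ∀ K : Set (En n), IsCompact K → Convex ℝ K → (interior K).Nonempty →
      ((∃ (x : En n) (lam : ℝ), 0 < lam ∧ K = x +ᵥ lam • projBodyS i (projBodyS i K)) ↔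
        ∃ (x : En n) (r : ℝ), K = Metric.closedBall x r) := by
  obtain ⟨B, hB, h₀⟩ := const_poly
  obtain ⟨n₀, hn₀⟩ := exists_nat_ge (B ^ 1000)
  refine ⟨n₀, fun n hn i hi hin K hK hc hint => ?_⟩
  have hB1 : 1 ≤ B := by linarith
  have hnB : B ^ 1000 ≤ n := hn₀.trans (by exact_mod_cast hn)
  have hn1 : (1 : ℝ) ≤ n := (one_le_pow₀ hB1).trans hnB
  have hn0 : (0 : ℝ) < n := by linarith
  obtain ⟨t, ht⟩ : ∃ t : ℝ, t = (n : ℝ) ^ (1 / 1000 : ℝ) := ⟨_, rfl⟩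
  have ht0 : 0 < t := by rw [ht]; positivity
  have hpow : ∀ k : ℕ, t ^ k = (n : ℝ) ^ ((k : ℝ) / 1000) := fun k => by
    rw [ht, ← Real.rpow_natCast, ← Real.rpow_mul hn0.le]
    congr 1
    ring
  have h1000 : t ^ 1000 = n := by rw [hpow]; norm_num
  have h996 : t ^ 996 = (n : ℝ) ^ (249 / 250 : ℝ) := by rw [hpow]; norm_num
  have htB' : B ^ 1000 ≤ t ^ 1000 := by rw [h1000]; exact hnB
  have htB : B ≤ t := le_of_pow_le_pow_left₀ (n := 1000) (by norm_num) ht0.le htB'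
  have ht1 : 1 ≤ t := hB1.trans htB
  have hε : 0 < 1 / t ^ 4 := by positivity
  have hε1 : 1 / t ^ 4 ≤ 1 := by rw [div_le_one (by positivity)]; exact one_le_pow₀ ht1
  have hin' : (i : ℝ) ≤ (1 - 1 / t ^ 4) * n := by
    rw [← h996] at hin
    have e0 : t ^ 1000 = t ^ 4 * t ^ 996 := by rw [← pow_add]
    have : 1 / t ^ 4 * n = t ^ 996 := by
      rw [← h1000, e0, ← mul_assoc, one_div, inv_mul_cancel₀ (by positivity), one_mul]
    linarith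
  have hM : (t ^ 250) ^ 4 = n := by rw [← pow_mul, h1000]
  have hBM : B / (1 / t ^ 4) ^ 51 ≤ t ^ 250 := by
    calc B / (1 / t ^ 4) ^ 51 = B * t ^ 204 := by
          rw [one_div, inv_pow, div_inv_eq_mul, ← pow_mul]
      _ ≤ t * t ^ 204 := mul_le_mul_of_nonneg_right htB (by positivity)
      _ = t ^ 205 := by rw [← pow_succ']
      _ ≤ t ^ 250 := pow_le_pow_right₀ ht1 (by norm_num)
  have hlt : i < n := by
    have : (i : ℝ) < n := by nlinarith [mul_pos hε hn0]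
    exact_mod_cast this
  have hfr : finrank ℝ (En n) = n := by simp
  rw [fixed_iff (by omega) hK hc (hint.mono interior_subset)]
  refine classification_of (m := n - 1) (by omega) hi (by omega) ?_ hK hint
  intro h δ lam hZ hδ hpos hlam hfix u u' hu hu'
  obtain ⟨μ, ν, a, hFP, ha⟩ := reduce (by omega) hZ hδ hpos hlam hfix
  rw [ha u hu, ha u' hu', h₀ n _ _ hε hε1 hM hBM i μ ν hFP hi hin' u u' hu hu']

end Pool.Agent.P.MP_181257_gt
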