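import Pool.Agent.P.MP_181257_gt.Basic

/-! The quantile map of a bounded set of reals. -/

set_option autoImplicit false
set_option linter.unusedSectionVars false

open MeasureTheory ProbabilityTheory Module Set Filter Topology
open scoped RealInnerProductSpace ENNReal Pointwise Matrix

noncomputable section

namespace Pool.Agent.P.MP_181257_gt

variable {V : Type} [NormedAddCommGroup V] [InnerProductSpace ℝ V] [FiniteDimensional ℝ V]
  [MeasurableSpace V] [BorelSpace V]

/-- the centred open interval with the length of `A` -/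
def cen (A : Set ℝ) : Set ℝ := Ioo (-(volume.real A / 2)) (volume.real A / 2)

theorem exists_quantile {A : Set ℝ} (hA : MeasurableSet A) (hb : Bornology.IsBounded A) :
    ∃ τ : ℝ → ℝ, MeasurePreserving τ (volume.restrict (cen A)) (volume.restrict A) ∧
      ∀ s, 0 ≤ s → s < volume.real A / 2 → 2 * s ≤ τ s - τ (-s) := by
  obtain ⟨R, hR, hAR⟩ := hb.subset_ball_lt 0 0
  rw [Real.ball_eq_Ioo, zero_sub, zero_add] at hAR
  have hfin : volume A ≠ ∞ := hb.measure_lt_top.ne
  have hfin' : ∀ B, volume (A ∩ B) ≠ ∞ := fun B =>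
    ne_top_of_le_ne_top hfin (measure_mono inter_subset_left)
  set a := volume.real A / 2 with ha
  let c : ℝ → ℝ := fun t => volume.real (A ∩ Iic t) - a
  have hmono : Monotone c := fun t t' h => sub_le_sub_right
    (measureReal_mono (inter_subset_inter_right _ (Iic_subset_Iic.2 h)) (hfin' _)) a
  have hlip : ∀ t t', t ≤ t' → c t' ≤ c t + (t' - t) := by
    intro t t' h
    have h1 : A ∩ Iic t' ⊆ A ∩ Iic t ∪ Ioc t t' := fun x hx =>
      (le_or_gt x t).imp (fun h2 => ⟨hx.1, h2⟩) fun h2 => ⟨h2, hx.2⟩
    have h2 := (measureReal_mono h1 (measure_union_ne_top (hfin' _) measure_Ioc_lt_top.ne)).trans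
      (measureReal_union_le _ _)
    rw [Real.volume_real_Ioc_of_le h] at h2
    simp only [c]
    linarith
  have hlo : c (-R) = -a := by
    have h1 : A ∩ Iic (-R) = ∅ :=
      eq_empty_of_forall_notMem fun x hx => absurd (hAR hx.1).1 (not_lt.2 hx.2)
    simp [c, h1]
  have hhi : c R = a := by
    have h1 : A ∩ Iic R = A := inter_eq_left.2 fun x hx => (hAR hx).2.le
    simp only [c, h1, ha]
    ring
  have hc1 : ∀ t, -a ≤ c t := fun t => by
    have := measureReal_nonneg (μ := volume) (s := A ∩ Iic t)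
    simp only [c]
    linarith
  have hc2 : ∀ t, c t ≤ a := fun t => by
    have := measureReal_mono (μ := volume) (inter_subset_left : A ∩ Iic t ⊆ A) hfin
    simp only [c]
    linarith
  let S : ℝ → Set ℝ := fun s => {t | -R ≤ t ∧ (s ≤ c t ∨ t = R)}
  have hne : ∀ s, (S s).Nonempty := fun s => ⟨R, by linarith, Or.inr rfl⟩
  have hbd : ∀ s, BddBelow (S s) := fun s => ⟨-R, fun t ht => ht.1⟩
  let τ : ℝ → ℝ := fun s => sInf (S s)
  have hτ : Monotone τ := fun s s' h =>
    csInf_le_csInf (hbd s) (hne s') fun t ht => ⟨ht.1, ht.2.imp_left h.trans⟩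
  have key : ∀ s, -a < s → s < a → ∀ t, τ s ≤ t ↔ s ≤ c t := by
    intro s h1 h2 t
    refine ⟨fun h => le_trans ?_ (hmono h), fun h => csInf_le (hbd s) ⟨?_, Or.inl h⟩⟩
    · have h3 : s - c (τ s) + τ s ≤ τ s := le_csInf (hne s) fun u hu => by
        have h4 : s ≤ c u := hu.2.elim id fun h5 => by rw [h5, hhi]; exact h2.le
        have h5 := hlip (τ s) u (csInf_le (hbd s) hu)
        linarith
      linarith
    · by_contra h3
      have h4 := hmono (not_le.1 h3).le
      linarith
  refine ⟨τ, ⟨hτ.measurable, ?_⟩, fun s h0 h1 => ?_⟩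
  · have : IsFiniteMeasure (volume.restrict (cen A)) :=
      isFiniteMeasure_restrict.2 measure_Ioo_lt_top.ne
    refine Measure.ext_of_Iic _ _ fun t => ?_
    rw [Measure.map_apply hτ.measurable measurableSet_Iic,
      Measure.restrict_apply (hτ.measurable measurableSet_Iic),
      Measure.restrict_apply measurableSet_Iic, inter_comm _ A, ← ofReal_measureReal (hfin' _),
      show volume.real (A ∩ Iic t) = c t - -a by simp only [c]; ring]
    refine le_antisymm ?_ ?_
    · rw [← Real.volume_Ioc]
      exact measure_mono fun s hs => ⟨hs.2.1, (key s hs.2.1 hs.2.2 t).1 hs.1⟩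
    · rw [← Real.volume_Ioo]
      exact measure_mono fun s hs => ⟨(key s hs.1 (hs.2.trans_le (hc2 t)) t).2 hs.2.le, hs.1,
        hs.2.trans_le (hc2 t)⟩
  · have h2 := (key s (by linarith) h1 (τ s)).1 le_rfl
    have h3 := hlip (τ s - 2 * s) (τ s) (by linarith)
    have h4 := (key (-s) (by linarith) (by linarith) (τ s - 2 * s)).2 (by linarith)
    linarith

end Pool.Agent.P.MP_181257_gt
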