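import Pool.Agent.P.MP_181257_gt.Kub

/-! Generating measures and their approximation by bounded densities. -/

set_option autoImplicit false
set_option linter.unusedSectionVars false

open MeasureTheory ProbabilityTheory Module Set Filter Topology
open scoped RealInnerProductSpace ENNReal Pointwise Matrix

noncomputable section

namespace Pool.Agent.P.MP_181257_gt

variable {V : Type} [NormedAddCommGroup V] [InnerProductSpace ℝ V] [FiniteDimensional ℝ V]
  [MeasurableSpace V] [BorelSpace V]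

/-- the function `y ↦ |⟪u, y⟫|` on the unit sphere -/
def rep_fn (u : V) : CompactlySupportedContinuousMap (Metric.sphere (0 : V) 1) ℝ :=
  ⟨⟨fun y => |⟪u, (y : V)⟫|, by fun_prop⟩, HasCompactSupport.of_compactSpace _⟩

theorem rep_fn_apply (u : V) (y : Metric.sphere (0 : V) 1) : rep_fn u y = |⟪u, (y : V)⟫| := rfl

/-- evaluation as a linear map -/
def rep_ev (y : Metric.sphere (0 : V) 1) :
    CompactlySupportedContinuousMap (Metric.sphere (0 : V) 1) ℝ →ₗ[ℝ] ℝ where
  toFun g := g y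
  map_add' _ _ := rfl
  map_smul' _ _ := rfl

theorem rep_one_le {y : V} (hy : ‖y‖ = 1) :
    1 ≤ ∑ k, |⟪stdOrthonormalBasis ℝ V k, y⟫| := by
  have h1 := (stdOrthonormalBasis ℝ V).sum_inner_mul_inner y y
  rw [real_inner_self_eq_norm_sq, hy] at h1
  have h2 : ∀ k, ⟪y, stdOrthonormalBasis ℝ V k⟫ * ⟪stdOrthonormalBasis ℝ V k, y⟫
      ≤ |⟪stdOrthonormalBasis ℝ V k, y⟫| := by
    intro k
    have h3 : |⟪stdOrthonormalBasis ℝ V k, y⟫| ≤ 1 := by
      have := abs_real_inner_le_norm (stdOrthonormalBasis ℝ V k) y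
      rwa [(stdOrthonormalBasis ℝ V).orthonormal.1 k, hy, one_mul] at this
    rw [real_inner_comm (stdOrthonormalBasis ℝ V k) y, ← abs_mul_abs_self]
    exact mul_le_of_le_one_left (abs_nonneg _) h3
  calc (1 : ℝ) = 1 ^ 2 := by norm_num
    _ = _ := h1.symm
    _ ≤ _ := Finset.sum_le_sum fun k _ => h2 k

theorem Zon.exists_measure {h : V → ℝ} (hZ : Zon h) :
    ∃ μ : Measure V, IsFiniteMeasure μ ∧ (∀ᵐ x ∂μ, ‖x‖ = 1) ∧
      ∀ u, ‖u‖ = 1 → h u = ∫ x, |⟪u, x⟫| ∂μ := by
  classical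
  let X := Metric.sphere (0 : V) 1
  let E := CompactlySupportedContinuousMap X ℝ
  have hX : ∀ u : X, ‖(u : V)‖ = 1 := fun u => mem_sphere_zero_iff_norm.1 u.2
  let A : (X →₀ ℝ) →ₗ[ℝ] E := Finsupp.linearCombination ℝ fun u : X => rep_fn (u : V)
  let B : (X →₀ ℝ) →ₗ[ℝ] ℝ := Finsupp.linearCombination ℝ fun u : X => h u
  have hA : ∀ (c : X →₀ ℝ) (y : X), A c y = ∑ j ∈ c.support, c j * |⟪(j : V), (y : V)⟫| := by
    intro c y
    change rep_ev y (A c) = _
    simp only [A, Finsupp.linearCombination_apply, Finsupp.sum, map_sum, map_smul, smul_eq_mul]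
    rfl
  have key : ∀ c : X →₀ ℝ, (∀ y : X, 0 ≤ A c y) → 0 ≤ B c := by
    intro c hc
    have := hZ X c.support c (fun j => (j : V)) hX (fun y => by
      by_cases hy : y = 0
      · simp [hy]
      · have hn : 0 < ‖y‖ := norm_pos_iff.2 hy
        have h1 : ‖(‖y‖⁻¹ • y)‖ = 1 := by
          rw [norm_smul, norm_inv, norm_norm, inv_mul_cancel₀ hn.ne']
        have h2 := hc ⟨‖y‖⁻¹ • y, mem_sphere_zero_iff_norm.2 h1⟩
        rw [hA] at h2
        simp only [real_inner_smul_right, abs_mul, abs_inv, abs_norm] at h2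
        have h3 : ∑ j ∈ c.support, c j * |⟪(j : V), y⟫|
            = ‖y‖ * ∑ j ∈ c.support, c j * (‖y‖⁻¹ * |⟪(j : V), y⟫|) := by
          rw [Finset.mul_sum]
          refine Finset.sum_congr rfl fun j _ => ?_
          field_simp
        rw [h3]
        exact mul_nonneg hn.le h2)
    simpa only [B, Finsupp.linearCombination_apply, Finsupp.sum, smul_eq_mul] using this
  have hker : B ∈ (LinearMap.ker A).dualAnnihilator := by
    rw [Submodule.mem_dualAnnihilator]
    intro c hc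
    rw [LinearMap.mem_ker] at hc
    have h1 := key c fun y => by rw [hc]; exact le_rfl
    have h2 := key (-c) fun y => by rw [map_neg, hc, neg_zero]; exact le_rfl
    rw [map_neg] at h2
    linarith
  rw [← LinearMap.range_dualMap_eq_dualAnnihilator_ker] at hker
  obtain ⟨g0, hg0⟩ := hker
  have hg0' : ∀ c, g0 (A c) = B c := fun c => by
    rw [← hg0]; rfl
  let s : PointedCone ℝ E := PointedCone.ofConeComb {g : E | ∀ y, 0 ≤ g y}
    ⟨0, fun _ => le_rfl⟩ (fun g hg g' hg' a ha b hb y =>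
      add_nonneg (mul_nonneg ha (hg y)) (mul_nonneg hb (hg' y)))
  have hs : ∀ g : E, g ∈ s ↔ ∀ y, 0 ≤ g y := fun g => Iff.rfl
  obtain ⟨g, hg1, hg2⟩ := riesz_extension s (g0.toPMap (LinearMap.range A))
    (by
      rintro ⟨x, c, rfl⟩ hx
      change 0 ≤ g0 (A c)
      rw [hg0']
      exact key c hx)
    (by
      intro φ
      obtain ⟨C, hC⟩ : ∃ C : ℝ, ∀ y, ‖φ y‖ ≤ C :=
        ⟨‖φ.toBoundedContinuousFunction‖, fun y => φ.toBoundedContinuousFunction.norm_coe_le_norm y⟩
      let b := stdOrthonormalBasis ℝ V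
      let e : Fin (finrank ℝ V) → X := fun k => ⟨b k, mem_sphere_zero_iff_norm.2 (b.orthonormal.1 k)⟩
      refine ⟨⟨A (∑ k, Finsupp.single (e k) |C|), LinearMap.mem_range_self _ _⟩, ?_⟩
      rw [hs]
      intro y
      change 0 ≤ rep_ev y (A (∑ k, Finsupp.single (e k) |C|)) + φ y
      simp only [A, map_sum, Finsupp.linearCombination_single, map_smul, smul_eq_mul]
      rw [← Finset.mul_sum]
      have h1 : (1 : ℝ) ≤ ∑ k, rep_ev y (rep_fn (e k : V)) := rep_one_le (hX y)
      have h2 := hC y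
      rw [Real.norm_eq_abs] at h2
      have h3 := neg_abs_le (φ y)
      have h4 := le_abs_self C
      nlinarith [abs_nonneg C])
  let Λ : E →ₚ[ℝ] ℝ := PositiveLinearMap.mk₀ g fun x hx => hg2 x hx
  let ν : Measure X := RealRMK.rieszMeasure Λ
  refine ⟨ν.map Subtype.val, inferInstance, ?_, fun u hu => ?_⟩
  · rw [ae_map_iff (by fun_prop) (isClosed_eq (by fun_prop) (by fun_prop)).measurableSet]
    exact ae_of_all _ hX
  · rw [integral_map (by fun_prop) (by fun_prop)]
    have h1 := RealRMK.integral_rieszMeasure Λ (rep_fn u)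
    have h2 : Λ (rep_fn u) = h u := by
      have e1 : rep_fn u = A (Finsupp.single ⟨u, mem_sphere_zero_iff_norm.2 hu⟩ 1) := by
        simp [A]
      have e2 := hg1 ⟨A (Finsupp.single ⟨u, mem_sphere_zero_iff_norm.2 hu⟩ 1), LinearMap.mem_range_self _ _⟩
      change g (rep_fn u) = _
      rw [e1]
      refine e2.trans ?_
      change g0 (A _) = _
      rw [hg0']
      simp [B]
    rw [← h2, ← h1]
    rfl

/-- pairs `(x, y)` with `x` a unit vector and `y` in the cone of opening `ε` about `x` -/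
def rep_cone (ε : ℝ) : Set (V × V) := {p | ‖p.1‖ = 1 ∧ ‖p.2 - ‖p.2‖ • p.1‖ ≤ ε * ‖p.2‖}

theorem rep_cone_meas (ε : ℝ) : MeasurableSet (rep_cone ε : Set (V × V)) := by
  have h1 : IsClosed {p : V × V | ‖p.1‖ = 1} := isClosed_eq (by fun_prop) (by fun_prop)
  have h2 : IsClosed {p : V × V | ‖p.2 - ‖p.2‖ • p.1‖ ≤ ε * ‖p.2‖} :=
    isClosed_le (by fun_prop) (by fun_prop)
  exact (h1.inter h2).measurableSet

/-- the weighted Gaussian mass of a cone -/
def rep_mass (ε : ℝ) (x : V) : ℝ :=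
  ∫ y, (rep_cone ε).indicator (fun p : V × V => ‖p.2‖) (x, y) ∂(stdGaussian V)

theorem rep_mass_meas (ε : ℝ) : Measurable (rep_mass ε : V → ℝ) :=
  (StronglyMeasurable.integral_prod_right' (ν := stdGaussian V)
    ((Measurable.indicator (by fun_prop) (rep_cone_meas ε)).stronglyMeasurable)).measurable

theorem rep_int_norm : Integrable (fun y : V => ‖y‖) (stdGaussian V) := by
  simpa using integrable_norm_pow (V := V) 1

theorem rep_int_ind (ε : ℝ) (x : V) :
    Integrable (fun y => (rep_cone ε).indicator (fun p : V × V => ‖p.2‖) (x, y))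
      (stdGaussian V) := by
  refine rep_int_norm.mono' ?_ (ae_of_all _ fun y => ?_)
  · exact ((Measurable.indicator (by fun_prop) (rep_cone_meas ε)).comp
      measurable_prodMk_left).aestronglyMeasurable
  · by_cases hp : (x, y) ∈ rep_cone ε <;> simp [hp]

theorem rep_mass_lower : ∃ c : ℝ, 0 < c ∧ ∀ ε ∈ Ioc (0 : ℝ) 1, ∀ x : V, ‖x‖ = 1 →
    c * ε ^ finrank ℝ V ≤ rep_mass ε x := by
  set δ : ℝ := (2 * Real.pi) ^ (-(finrank ℝ V : ℝ) / 2) * Real.exp (-2) with hδ
  have hδ0 : 0 < δ := by positivity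
  set v : ℝ := (volume (Metric.ball (0 : V) 1)).toReal with hv
  have hv0 : 0 < v :=
    ENNReal.toReal_pos (Metric.measure_ball_pos _ _ one_pos).ne' measure_ball_lt_top.ne
  refine ⟨3 / 4 * (δ * ((1 / 4) ^ finrank ℝ V * v)), by positivity, fun ε hε x hx => ?_⟩
  obtain ⟨hε0, hε1⟩ := hε
  have hb : ∀ y ∈ Metric.ball x (ε / 4), 3 / 4 ≤ ‖y‖ ∧ ‖y‖ ≤ 2 ∧ (x, y) ∈ rep_cone ε := by
    intro y hy
    rw [mem_ball_iff_norm] at hy
    have h1 : |‖y‖ - ‖x‖| ≤ ‖y - x‖ := abs_norm_sub_norm_le y x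
    rw [hx] at h1
    obtain ⟨h2, h3⟩ := abs_le.1 h1
    refine ⟨by linarith, by linarith, hx, ?_⟩
    have e : y - ‖y‖ • x = (y - x) + (1 - ‖y‖) • x := by
      rw [sub_smul, one_smul]; abel
    change ‖y - ‖y‖ • x‖ ≤ ε * ‖y‖
    rw [e]
    refine (norm_add_le _ _).trans ?_
    rw [norm_smul, hx, mul_one, Real.norm_eq_abs, abs_sub_comm]
    nlinarith
  have hm : ENNReal.ofReal δ * volume (Metric.ball x (ε / 4))
      ≤ stdGaussian V (Metric.ball x (ε / 4)) := by
    rw [stdGaussian_eq_withDensity, withDensity_apply _ measurableSet_ball, ← setLIntegral_const]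
    refine setLIntegral_mono' measurableSet_ball fun y hy => ENNReal.ofReal_le_ofReal ?_
    refine mul_le_mul_of_nonneg_left (Real.exp_le_exp.2 ?_) (by positivity)
    have := hb y hy
    nlinarith [norm_nonneg y]
  rw [Measure.addHaar_ball_of_pos _ _ (by positivity : 0 < ε / 4)] at hm
  have hm2 := ENNReal.toReal_mono (measure_ne_top _ _) hm
  rw [ENNReal.toReal_mul, ENNReal.toReal_mul, ENNReal.toReal_ofReal hδ0.le,
    ENNReal.toReal_ofReal (by positivity), ← hv] at hm2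
  have hI : ∫ y, (Metric.ball x (ε / 4)).indicator (fun _ => (3 / 4 : ℝ)) y ∂(stdGaussian V)
      ≤ rep_mass ε x := by
    refine integral_mono ((integrable_const _).indicator measurableSet_ball) (rep_int_ind ε x)
      fun y => ?_
    by_cases hy : y ∈ Metric.ball x (ε / 4)
    · have := hb y hy
      simp only [indicator_of_mem hy, indicator_of_mem this.2.2]
      exact this.1
    · simp only [indicator_of_notMem hy]
      exact indicator_nonneg (fun _ _ => norm_nonneg _) _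
  rw [integral_indicator_const _ measurableSet_ball, smul_eq_mul, Measure.real] at hI
  have e : 3 / 4 * (δ * ((1 / 4) ^ finrank ℝ V * v)) * ε ^ finrank ℝ V
      = 3 / 4 * (δ * ((ε / 4) ^ finrank ℝ V * v)) := by
    rw [div_pow ε, div_pow 1, one_pow]; ring
  rw [e]
  linarith

/-- the smoothing kernel -/
def rep_k (ε : ℝ) (p : V × V) : ℝ := (rep_cone ε).indicator (fun p => (rep_mass ε p.1)⁻¹) p

theorem rep_k_meas (ε : ℝ) : Measurable (rep_k ε : V × V → ℝ) :=
  Measurable.indicator ((rep_mass_meas ε).comp measurable_fst).inv (rep_cone_meas ε)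

theorem rep_k_hom (ε : ℝ) {t : ℝ} (ht : 0 < t) (x y : V) :
    rep_k ε (x, t • y) = rep_k ε (x, y) := by
  have e : (x, t • y) ∈ rep_cone ε ↔ (x, y) ∈ rep_cone ε := by
    change (‖x‖ = 1 ∧ ‖t • y - ‖t • y‖ • x‖ ≤ ε * ‖t • y‖) ↔ (‖x‖ = 1 ∧ ‖y - ‖y‖ • x‖ ≤ ε * ‖y‖)
    rw [norm_smul, Real.norm_eq_abs, abs_of_pos ht, mul_smul, ← smul_sub, norm_smul,
      Real.norm_eq_abs, abs_of_pos ht, mul_left_comm, mul_le_mul_iff_right₀ ht]
  unfold rep_k
  by_cases hp : (x, y) ∈ rep_cone ε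
  · rw [indicator_of_mem hp, indicator_of_mem (e.2 hp)]
  · rw [indicator_of_notMem hp, indicator_of_notMem fun h => hp (e.1 h)]

theorem exists_den_approx (hn : 1 ≤ finrank ℝ V) (μ : Measure V) [IsFiniteMeasure μ]
    (h1 : ∀ᵐ x ∂μ, ‖x‖ = 1) :
    ∃ A : ℝ, 1 ≤ A ∧ ∀ ε ∈ Ioc (0 : ℝ) 1, ∃ f : V → ℝ, Den f ∧
      (∀ y, ε ≤ f y ∧ f y ≤ A / ε ^ finrank ℝ V) ∧
      ∀ u, ‖u‖ = 1 → |hz f u - ∫ x, |⟪u, x⟫| ∂μ| ≤ A * ε := by
  obtain ⟨c, hc, hcm⟩ := rep_mass_lower (V := V)
  set M : ℝ := μ.real univ with hM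
  have hM0 : 0 ≤ M := measureReal_nonneg
  have hc0 := c0_pos
  have hMc : 0 ≤ M / c := by positivity
  refine ⟨1 + c0 + M + M / c, by linarith, fun ε hε => ?_⟩
  have hcm := hcm ε hε
  obtain ⟨hε0, hε1⟩ := hε
  have hp : 0 < ε ^ finrank ℝ V := by positivity
  have hp1 : ε ^ finrank ℝ V ≤ 1 := pow_le_one₀ hε0.le hε1
  set K : ℝ := (c * ε ^ finrank ℝ V)⁻¹ with hK
  have hK0 : 0 < K := by positivity
  have hk : ∀ p : V × V, 0 ≤ rep_k ε p ∧ rep_k ε p ≤ K := by
    intro p
    unfold rep_k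
    by_cases hp' : p ∈ rep_cone ε
    · rw [indicator_of_mem hp']
      have := hcm p.1 hp'.1
      have h0 : 0 < c * ε ^ finrank ℝ V := by positivity
      exact ⟨(inv_pos.2 (h0.trans_le this)).le, inv_anti₀ h0 this⟩
    · rw [indicator_of_notMem hp']
      exact ⟨le_rfl, hK0.le⟩
  have hkn : ∀ p : V × V, ‖rep_k ε p‖ ≤ K := fun p => by
    rw [Real.norm_of_nonneg (hk p).1]; exact (hk p).2
  set q : V → ℝ := fun y => ∫ x, rep_k ε (x, y) ∂μ with hq
  have hqm : Measurable q :=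
    (StronglyMeasurable.integral_prod_left' (μ := μ) (rep_k_meas ε).stronglyMeasurable).measurable
  have hq0 : ∀ y, 0 ≤ q y := fun y => integral_nonneg fun x => (hk _).1
  have hq1 : ∀ y, q y ≤ K * M := fun y =>
    (le_abs_self _).trans (norm_integral_le_of_norm_le_const (μ := μ)
      (f := fun x => rep_k ε (x, y)) (ae_of_all _ fun x => hkn _))
  have hbd : ∀ y, ε ≤ ε + q y ∧ ε + q y ≤ (1 + c0 + M + M / c) / ε ^ finrank ℝ V := by
    intro y
    refine ⟨by linarith [hq0 y], ?_⟩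
    rw [le_div_iff₀ hp]
    have e : K * M * ε ^ finrank ℝ V = M / c := by
      rw [hK]; field_simp
    have h2 : q y * ε ^ finrank ℝ V ≤ M / c := e ▸ mul_le_mul_of_nonneg_right (hq1 y) hp.le
    have h3 : ε * ε ^ finrank ℝ V ≤ 1 := mul_le_one₀ hε1 hp.le hp1
    nlinarith
  refine ⟨fun y => ε + q y, ⟨⟨hqm.const_add ε, ε, _, hε0, hbd⟩, fun t ht y => ?_⟩, hbd,
    fun u hu => ?_⟩
  · simp only [hq, rep_k_hom ε ht]
  have hui : ∀ y : V, |⟪u, y⟫| ≤ ‖y‖ := fun y => by
    simpa [hu] using abs_real_inner_le_norm u y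
  have hFm : Measurable fun p : V × V => |⟪u, p.2⟫| * rep_k ε p :=
    Measurable.mul (by fun_prop) (rep_k_meas ε)
  have hF : Integrable (fun p : V × V => |⟪u, p.2⟫| * rep_k ε p) (μ.prod (stdGaussian V)) := by
    refine ((rep_int_norm.comp_snd μ).mul_const K).mono' hFm.aestronglyMeasurable
      (ae_of_all _ fun p => ?_)
    rw [norm_mul, Real.norm_eq_abs, abs_abs]
    exact mul_le_mul (hui _) (hkn _) (norm_nonneg _) (norm_nonneg _)
  have hsplit : hz (fun y => ε + q y) u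
      = ε * c0 + ∫ x, ∫ y, |⟪u, y⟫| * rep_k ε (x, y) ∂(stdGaussian V) ∂μ := by
    rw [integral_integral_swap (f := fun x y => |⟪u, y⟫| * rep_k ε (x, y)) hF]
    have e1 : ∀ y : V, ∫ x, |⟪u, y⟫| * rep_k ε (x, y) ∂μ = |⟪u, y⟫| * q y := fun y =>
      integral_const_mul _ _
    have hi : Integrable (fun y : V => |⟪u, y⟫| * q y) (stdGaussian V) := by
      simpa only [e1] using hF.integral_prod_right
    simp only [e1, hz, mul_add]
    rw [integral_add ((integrable_abs_inner u).mul_const ε) hi, integral_mul_const,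
      integral_abs_inner, hu]
    ring
  have hloc : ∀ x : V, ‖x‖ = 1 →
      |(∫ y, |⟪u, y⟫| * rep_k ε (x, y) ∂(stdGaussian V)) - (|⟪u, x⟫|)| ≤ ε := by
    intro x hx
    have hm0 : 0 < rep_mass ε x := lt_of_lt_of_le (by positivity) (hcm x hx)
    have e1 : ∀ y : V, ‖y‖ * rep_k ε (x, y)
        = (rep_cone ε).indicator (fun p : V × V => ‖p.2‖) (x, y) * (rep_mass ε x)⁻¹ := by
      intro y
      unfold rep_k
      by_cases hp' : (x, y) ∈ rep_cone ε <;> simp [hp']
    have hi1 : Integrable (fun y : V => ‖y‖ * rep_k ε (x, y)) (stdGaussian V) := by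
      simpa only [e1] using (rep_int_ind ε x).mul_const _
    have hone : ∫ y, ‖y‖ * rep_k ε (x, y) ∂(stdGaussian V) = 1 := by
      simp only [e1]
      rw [integral_mul_const]
      exact mul_inv_cancel₀ hm0.ne'
    have hi2 : Integrable (fun y : V => |⟪u, y⟫| * rep_k ε (x, y)) (stdGaussian V) := by
      refine hi1.mono' (hFm.comp measurable_prodMk_left).aestronglyMeasurable
        (ae_of_all _ fun y => ?_)
      rw [norm_mul, Real.norm_eq_abs, abs_abs, Real.norm_of_nonneg (hk _).1]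
      exact mul_le_mul_of_nonneg_right (hui _) (hk _).1
    have e2 : (∫ y, |⟪u, y⟫| * rep_k ε (x, y) ∂(stdGaussian V)) - |⟪u, x⟫|
        = ∫ y, (|⟪u, y⟫| * rep_k ε (x, y) - |⟪u, x⟫| * (‖y‖ * rep_k ε (x, y)))
          ∂(stdGaussian V) := by
      rw [integral_sub hi2 (hi1.const_mul _), integral_const_mul, hone, mul_one]
    rw [e2]
    have h3 := norm_integral_le_of_norm_le (μ := stdGaussian V) (hi1.const_mul ε)
      (f := fun y => |⟪u, y⟫| * rep_k ε (x, y) - |⟪u, x⟫| * (‖y‖ * rep_k ε (x, y)))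
      (ae_of_all _ fun y => by
        by_cases hp' : (x, y) ∈ rep_cone ε
        · have h4 : ‖y - ‖y‖ • x‖ ≤ ε * ‖y‖ := hp'.2
          have h5 : |(|⟪u, y⟫| - |⟪u, x⟫| * ‖y‖)| ≤ ε * ‖y‖ := by
            have h6 := abs_abs_sub_abs_le_abs_sub ⟪u, y⟫ ⟪u, ‖y‖ • x⟫
            rw [← inner_sub_right, real_inner_smul_right, abs_mul, abs_norm, mul_comm] at h6
            exact h6.trans ((hui _).trans h4)
          rw [← mul_assoc, ← sub_mul, norm_mul, Real.norm_of_nonneg (hk _).1, ← mul_assoc]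
          exact mul_le_mul_of_nonneg_right h5 (hk _).1
        · simp [rep_k, hp'])
    rwa [integral_const_mul, hone, mul_one] at h3
  have hi3 : Integrable (fun x : V => |⟪u, x⟫|) μ := by
    refine Integrable.of_bound (by fun_prop) 1 ?_
    filter_upwards [h1] with x hx
    rw [Real.norm_eq_abs, abs_abs, ← hx]
    exact hui x
  have h4 := norm_integral_le_of_norm_le_const (μ := μ) (C := ε)
    (f := fun x => (∫ y, |⟪u, y⟫| * rep_k ε (x, y) ∂(stdGaussian V)) - |⟪u, x⟫|)
    (by filter_upwards [h1] with x hx using hloc x hx)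
  rw [integral_sub hF.integral_prod_left hi3, Real.norm_eq_abs, ← hM] at h4
  rw [hsplit, add_sub_assoc]
  refine (abs_add_le _ _).trans ?_
  rw [abs_of_pos (mul_pos hε0 hc0)]
  nlinarith [mul_nonneg hMc hε0.le]

/-- the support function of a zonoid is attained -/
theorem isGreatest_Zs {Ω : Type} [MeasurableSpace Ω] (μ : Measure Ω) {Y : Ω → V}
    (hY : Measurable Y) (hi : Integrable Y μ) (w : V) :
    IsGreatest ((fun x => ⟪x, w⟫) '' Zs fun u => ∫ ω, |⟪u, Y ω⟫| ∂μ) (∫ ω, |⟪w, Y ω⟫| ∂μ) := by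
  classical
  constructor
  · let s : Ω → ℝ := fun ω => if 0 ≤ ⟪w, Y ω⟫ then 1 else -1
    have hs : Measurable s :=
      Measurable.ite (measurableSet_le measurable_const (by fun_prop)) measurable_const
        measurable_const
    have hs1 : ∀ ω, |s ω| = 1 := fun ω => by
      by_cases h : 0 ≤ ⟪w, Y ω⟫ <;> simp [s, h]
    have hi' : Integrable (fun ω => s ω • Y ω) μ := by
      refine hi.norm.mono' (hs.smul hY).aestronglyMeasurable (ae_of_all _ fun ω => ?_)
      rw [norm_smul, Real.norm_eq_abs, hs1, one_mul]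
    refine ⟨∫ ω, s ω • Y ω ∂μ, fun u hu => ?_, ?_⟩
    · rw [real_inner_comm, ← integral_inner hi']
      refine integral_mono (hi'.const_inner u) (hi.const_inner u).abs fun ω => ?_
      change ⟪u, s ω • Y ω⟫ ≤ |⟪u, Y ω⟫|
      refine (le_abs_self _).trans ?_
      rw [real_inner_smul_right, abs_mul, hs1, one_mul]
    · change ⟪∫ ω, s ω • Y ω ∂μ, w⟫ = _
      rw [real_inner_comm, ← integral_inner hi']
      refine integral_congr_ae (ae_of_all _ fun ω => ?_)
      change ⟪w, s ω • Y ω⟫ = |⟪w, Y ω⟫|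
      rw [real_inner_smul_right]
      by_cases h : 0 ≤ ⟪w, Y ω⟫
      · simp [s, h, abs_of_nonneg h]
      · simp [s, h, abs_of_neg (not_le.1 h)]
  · rintro _ ⟨x, hx, rfl⟩
    by_cases hw : w = 0
    · simp [hw]
    · have hn : 0 < ‖w‖ := norm_pos_iff.2 hw
      have h1 : ‖(‖w‖⁻¹ • w)‖ = 1 := by
        rw [norm_smul, norm_inv, norm_norm, inv_mul_cancel₀ hn.ne']
      have h2 := hx _ h1
      simp only [real_inner_smul_right, real_inner_smul_left, abs_mul, abs_inv, abs_norm,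
        integral_const_mul] at h2
      exact le_of_mul_le_mul_left h2 (inv_pos.2 hn)

end Pool.Agent.P.MP_181257_gt
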