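import Pool.Agent.P.MP_181257_gt.Var

/-! Shadows of convex sets. -/

set_option autoImplicit false
set_option linter.unusedSectionVars false

open MeasureTheory ProbabilityTheory Module Set Filter Topology
open scoped RealInnerProductSpace ENNReal Pointwise Matrix

noncomputable section

namespace Pool.Agent.P.MP_181257_gt

variable {V : Type} [NormedAddCommGroup V] [InnerProductSpace ℝ V] [FiniteDimensional ℝ V]
  [MeasurableSpace V] [BorelSpace V]

/-- `‖z‖` times the volume of the projection of `C` along `z` -/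
def shad {d : ℕ} (C : Set (Fin d → ℝ)) (z : Fin d → ℝ) : ℝ :=
  (volume.real (C + segment ℝ (-z) z) - volume.real C) / 2

theorem shadow_line {S : Set ℝ} (hc : Convex ℝ S) (hb : Bornology.IsBounded S) (hne : S.Nonempty)
    {r : ℝ} (hr : 0 ≤ r) :
    volume (S + Icc (-r) r) = volume S + ENNReal.ofReal (2 * r) := by
  have hbb : BddBelow S := hb.bddBelow
  have hba : BddAbove S := hb.bddAbove
  have hab : sInf S ≤ sSup S := csInf_le_csSup hne hbb hba
  have hoc : S.OrdConnected := hc.ordConnected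
  have h1 : volume S = ENNReal.ofReal (sSup S - sInf S) := by
    apply le_antisymm
    · rw [← Real.volume_Icc]
      exact measure_mono fun x hx => ⟨csInf_le hbb hx, le_csSup hba hx⟩
    · rw [← Real.volume_Ioo]
      refine measure_mono fun x hx => ?_
      obtain ⟨a, ha, hax⟩ := exists_lt_of_csInf_lt hne hx.1
      obtain ⟨b, hb', hxb⟩ := exists_lt_of_lt_csSup hne hx.2
      exact hoc.out ha hb' ⟨hax.le, hxb.le⟩
  have h2 : volume (S + Icc (-r) r) = ENNReal.ofReal ((sSup S + r) - (sInf S - r)) := by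
    apply le_antisymm
    · rw [← Real.volume_Icc]
      refine measure_mono ?_
      rintro _ ⟨x, hx, y, hy, rfl⟩
      have h1 := csInf_le hbb hx
      have h2 := le_csSup hba hx
      exact ⟨by have := hy.1; simp only; linarith, by have := hy.2; simp only; linarith⟩
    · rw [← Real.volume_Ioo]
      refine measure_mono fun t ht => ?_
      obtain ⟨a, ha, hax⟩ := exists_lt_of_csInf_lt hne (show sInf S < t + r by linarith [ht.1])
      obtain ⟨b, hb', hxb⟩ := exists_lt_of_lt_csSup hne (show t - r < sSup S by linarith [ht.2])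
      by_cases h : t - r ≤ a
      · exact ⟨a, ha, t - a, ⟨by linarith, by linarith⟩, by simp⟩
      · push Not at h
        exact ⟨t - r, hoc.out ha hb' ⟨h.le, hxb.le⟩, r, ⟨by linarith, le_rfl⟩, by simp⟩
  rw [h1, h2, ← ENNReal.ofReal_add (by linarith) (by linarith)]
  congr 1
  ring

theorem shadow_slice {d : ℕ} {S : Set (Fin (d + 1) → ℝ)} (hS : MeasurableSet S) :
    volume S = ∫⁻ w : Fin d → ℝ, volume {t : ℝ | (Fin.cons t w : Fin (d + 1) → ℝ) ∈ S} := by
  have h := (volume_preserving_piFinSuccAbove (fun _ : Fin (d + 1) => ℝ) 0).symm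
  rw [← h.measure_preimage hS.nullMeasurableSet, Measure.volume_eq_prod,
    Measure.prod_apply_symm (h.measurable hS)]
  refine lintegral_congr fun w => ?_
  congr 1
  ext t
  simp [MeasurableEquiv.piFinSuccAbove, Fin.insertNthEquiv]

theorem shadow_isCompact_segment {d : ℕ} (a b : Fin d → ℝ) : IsCompact (segment ℝ a b) := by
  rw [segment_eq_image]
  exact isCompact_Icc.image (by fun_prop)

/-- dropping the first coordinate, as a linear map -/
def shadowTail (d : ℕ) : (Fin (d + 1) → ℝ) →ₗ[ℝ] (Fin d → ℝ) where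
  toFun x := Fin.tail x
  map_add' _ _ := rfl
  map_smul' _ _ := rfl

theorem shadow_meas_image {d e : ℕ} (L : (Fin d → ℝ) →ₗ[ℝ] (Fin e → ℝ))
    (hL : Function.Surjective L) {C : Set (Fin d → ℝ)} (hm : IsOpen C ∨ IsCompact C) :
    IsOpen (L '' C) ∨ IsCompact (L '' C) := by
  rcases hm with h | h
  · exact Or.inl (L.isOpenMap_of_finiteDimensional hL C h)
  · exact Or.inr (h.image L.continuous_of_finiteDimensional)

theorem shadow_measurableSet {d : ℕ} {C : Set (Fin d → ℝ)} (hm : IsOpen C ∨ IsCompact C) :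
    MeasurableSet C := by
  rcases hm with h | h
  · exact h.measurableSet
  · exact h.measurableSet

theorem shadow_add_segment {d : ℕ} {C : Set (Fin d → ℝ)} (hm : IsOpen C ∨ IsCompact C)
    (a b : Fin d → ℝ) : IsOpen (C + segment ℝ a b) ∨ IsCompact (C + segment ℝ a b) := by
  rcases hm with h | h
  · exact Or.inl h.add_right
  · exact Or.inr (h.add (shadow_isCompact_segment a b))

theorem shadow_mem_segment {d : ℕ} {r : ℝ} (hr : 0 ≤ r) (y : Fin (d + 1) → ℝ) :
    y ∈ segment ℝ (-(Pi.single 0 r : Fin (d + 1) → ℝ)) (Pi.single 0 r) ↔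
      ∃ s ∈ Icc (-r) r, y = Pi.single 0 s := by
  have h : segment ℝ (-(Pi.single 0 r : Fin (d + 1) → ℝ)) (Pi.single 0 r)
      = (LinearMap.single ℝ (fun _ : Fin (d + 1) => ℝ) 0).toAffineMap '' segment ℝ (-r) r := by
    rw [image_segment]
    simp [Pi.single_neg]
  rw [h, segment_eq_Icc (by linarith)]
  simp [eq_comm]

theorem shadow_vol_one {d : ℕ} {C : Set (Fin (d + 1) → ℝ)} (hc : Convex ℝ C)
    (hb : Bornology.IsBounded C) (hm : IsOpen C ∨ IsCompact C) {r : ℝ} (hr : 0 ≤ r) :
    volume (C + segment ℝ (-(Pi.single 0 r : Fin (d + 1) → ℝ)) (Pi.single 0 r))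
      = volume C + ENNReal.ofReal (2 * r) * volume (shadowTail d '' C) := by
  have hsurj : Function.Surjective (shadowTail d) := fun w => ⟨Fin.cons 0 w, rfl⟩
  have hT : MeasurableSet (shadowTail d '' C) :=
    shadow_measurableSet (shadow_meas_image _ hsurj hm)
  rw [shadow_slice (shadow_measurableSet (shadow_add_segment hm _ _)),
    shadow_slice (shadow_measurableSet hm), ← lintegral_indicator_const hT,
    ← lintegral_add_right _ (measurable_const.indicator hT)]
  refine lintegral_congr fun w => ?_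
  set S : Set ℝ := {t : ℝ | (Fin.cons t w : Fin (d + 1) → ℝ) ∈ C} with hS
  have hcons : ∀ t s : ℝ, (Fin.cons (t + s) w : Fin (d + 1) → ℝ)
      = (Fin.cons t w : Fin (d + 1) → ℝ) + Pi.single 0 s := by
    intro t s
    ext j
    refine Fin.cases ?_ (fun j => ?_) j <;> simp
  have hsum : {t : ℝ | (Fin.cons t w : Fin (d + 1) → ℝ) ∈
      C + segment ℝ (-(Pi.single 0 r : Fin (d + 1) → ℝ)) (Pi.single 0 r)} = S + Icc (-r) r := by
    ext t
    constructor
    · rintro ⟨x, hx, y, hy, hxy⟩
      obtain ⟨s, hs, rfl⟩ := (shadow_mem_segment hr y).1 hy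
      refine ⟨t - s, ?_, s, hs, by simp⟩
      have h1 := hcons (t - s) s
      rw [sub_add_cancel] at h1
      have : x = Fin.cons (t - s) w := by
        have h2 : x + Pi.single 0 s = (Fin.cons t w : Fin (d + 1) → ℝ) := hxy
        rw [h1] at h2
        exact add_right_cancel h2
      show (Fin.cons (t - s) w : Fin (d + 1) → ℝ) ∈ C
      rw [← this]; exact hx
    · rintro ⟨a, ha, s, hs, rfl⟩
      exact ⟨Fin.cons a w, ha, Pi.single 0 s, (shadow_mem_segment hr _).2 ⟨s, hs, rfl⟩,
        (hcons a s).symm⟩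
  rw [hsum]
  by_cases hw : w ∈ shadowTail d '' C
  · rw [indicator_of_mem hw]
    refine shadow_line ?_ ?_ ?_ hr
    · intro a ha b hb' p q hp hq hpq
      have := hc ha hb' hp hq hpq
      show (Fin.cons (p • a + q • b) w : Fin (d + 1) → ℝ) ∈ C
      convert this using 1
      ext j
      refine Fin.cases ?_ (fun j => ?_) j
      · simp
      · simp only [Fin.cons_succ, Pi.add_apply, Pi.smul_apply, smul_eq_mul]
        rw [← add_mul, hpq, one_mul]
    · obtain ⟨R, hR⟩ := hb.exists_norm_le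
      refine (Metric.isBounded_iff_subset_closedBall 0).2 ⟨R, fun t ht => ?_⟩
      have h1 := hR _ ht
      have h2 := norm_le_pi_norm (Fin.cons t w : Fin (d + 1) → ℝ) 0
      simp only [Fin.cons_zero] at h2
      simpa using h2.trans h1
    · obtain ⟨x, hx, rfl⟩ := hw
      refine ⟨x 0, ?_⟩
      show (Fin.cons (x 0) (Fin.tail x) : Fin (d + 1) → ℝ) ∈ C
      rw [Fin.cons_self_tail]; exact hx
  · rw [indicator_of_notMem hw]
    have : S = ∅ := eq_empty_of_forall_notMem fun t ht => hw ⟨_, ht, rfl⟩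
    simp [this]

theorem shadow_vol {d : ℕ} {C : Set (Fin (d + 1) → ℝ)} (hc : Convex ℝ C)
    (hb : Bornology.IsBounded C) (hm : IsOpen C ∨ IsCompact C)
    {A : Matrix (Fin (d + 1)) (Fin (d + 1)) ℝ} (hA : A.det ≠ 0) {z : Fin (d + 1) → ℝ} {r : ℝ}
    (hr : 0 ≤ r) (hz : A *ᵥ z = Pi.single 0 r) :
    volume (C + segment ℝ (-z) z) = volume C + ENNReal.ofReal (2 * r / |A.det|)
      * volume ((fun x => Fin.tail (A *ᵥ x)) '' C) := by
  set f : (Fin (d + 1) → ℝ) →ₗ[ℝ] (Fin (d + 1) → ℝ) := Matrix.toLin' A with hf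
  have hdet : LinearMap.det f = A.det := by rw [hf, LinearMap.det_toLin']
  have hsurj : Function.Surjective f := by
    intro y
    refine ⟨A⁻¹ *ᵥ y, ?_⟩
    rw [hf, Matrix.toLin'_apply, Matrix.mulVec_mulVec, Matrix.mul_nonsing_inv _ (Ne.isUnit hA),
      Matrix.one_mulVec]
  have h1 := shadow_vol_one (hc.linear_image f)
    ((LinearMap.toContinuousLinearMap f).lipschitz.isBounded_image hb)
    (shadow_meas_image f hsurj hm) hr
  have hseg : segment ℝ (-(Pi.single 0 r : Fin (d + 1) → ℝ)) (Pi.single 0 r)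
      = f '' segment ℝ (-z) z := by
    have := image_segment ℝ f.toAffineMap (-z) z
    simp only [LinearMap.coe_toAffineMap, map_neg] at this
    rw [this, hf, Matrix.toLin'_apply, hz]
  rw [hseg, ← image_add, Measure.addHaar_image_linearMap, Measure.addHaar_image_linearMap, hdet,
    image_image] at h1
  have hpos : 0 < |A.det| := abs_pos.2 hA
  have hne : ENNReal.ofReal |A.det| ≠ 0 := by simpa using hA
  refine (ENNReal.mul_right_inj hne ENNReal.ofReal_ne_top).1 ?_
  rw [h1, mul_add, ← mul_assoc, ← ENNReal.ofReal_mul hpos.le]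
  congr 3
  field_simp

theorem shadow_img_ne_top {d : ℕ} {C : Set (Fin (d + 1) → ℝ)} (hb : Bornology.IsBounded C)
    (A : Matrix (Fin (d + 1)) (Fin (d + 1)) ℝ) :
    volume ((fun x => Fin.tail (A *ᵥ x)) '' C) ≠ ⊤ := by
  have h := (LinearMap.toContinuousLinearMap
    ((shadowTail d).comp (Matrix.toLin' A))).lipschitz.isBounded_image hb
  exact h.measure_lt_top.ne

theorem shad_eq {d : ℕ} {C : Set (Fin (d + 1) → ℝ)} (hc : Convex ℝ C)
    (hb : Bornology.IsBounded C) (hm : IsOpen C ∨ IsCompact C)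
    {A : Matrix (Fin (d + 1)) (Fin (d + 1)) ℝ} (hA : A.det ≠ 0) {z : Fin (d + 1) → ℝ} {r : ℝ}
    (hr : 0 ≤ r) (hz : A *ᵥ z = Pi.single 0 r) :
    shad C z = r * volume.real ((fun x => Fin.tail (A *ᵥ x)) '' C) / |A.det| := by
  have hpos : 0 < |A.det| := abs_pos.2 hA
  unfold shad
  simp only [Measure.real]
  rw [shadow_vol hc hb hm hA hr hz, ENNReal.toReal_add hb.measure_lt_top.ne
    (ENNReal.mul_ne_top ENNReal.ofReal_ne_top (shadow_img_ne_top hb A)), ENNReal.toReal_mul,
    ENNReal.toReal_ofReal (by positivity)]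
  ring

theorem exists_matrix {d : ℕ} {z : Fin (d + 1) → ℝ} (hz : z ≠ 0) :
    ∃ A : Matrix (Fin (d + 1)) (Fin (d + 1)) ℝ, A.det ≠ 0 ∧ A *ᵥ z = Pi.single 0 1 := by
  have h1 : (Pi.single 0 1 : Fin (d + 1) → ℝ) ≠ 0 := by
    intro h
    simpa using congrFun h 0
  obtain ⟨e, he⟩ := SeparatingDual.exists_continuousLinearEquiv_apply_eq (R := ℝ) hz h1
  refine ⟨LinearMap.toMatrix' (e.toLinearEquiv : (Fin (d + 1) → ℝ) →ₗ[ℝ] (Fin (d + 1) → ℝ)),
    ?_, ?_⟩
  · rw [LinearMap.det_toMatrix']
    exact e.toLinearEquiv.isUnit_det'.ne_zero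
  · rw [LinearMap.toMatrix'_mulVec]
    exact he

theorem shad_zero {d : ℕ} (C : Set (Fin d → ℝ)) : shad C 0 = 0 := by
  simp [shad]

theorem shadow_mono {d : ℕ} {C C' : Set (Fin (d + 1) → ℝ)} (hc : Convex ℝ C)
    (hm : IsOpen C ∨ IsCompact C) (hc' : Convex ℝ C') (hb' : Bornology.IsBounded C')
    (hm' : IsOpen C' ∨ IsCompact C') (h : C ⊆ C') (z : Fin (d + 1) → ℝ) :
    shad C z ≤ shad C' z := by
  by_cases hz : z = 0
  · simp [hz, shad_zero]
  obtain ⟨A, hA, hAz⟩ := exists_matrix hz
  rw [shad_eq hc (hb'.subset h) hm hA zero_le_one hAz, shad_eq hc' hb' hm' hA zero_le_one hAz]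
  have := measureReal_mono (μ := volume) (image_mono (f := fun x => Fin.tail (A *ᵥ x)) h)
    (shadow_img_ne_top hb' A)
  gcongr

theorem shadow_smul {d : ℕ} {C : Set (Fin (d + 1) → ℝ)} (hc : Convex ℝ C)
    (hb : Bornology.IsBounded C) (hm : IsOpen C ∨ IsCompact C) (z : Fin (d + 1) → ℝ) {t : ℝ}
    (ht : 0 ≤ t) : shad C (t • z) = t * shad C z := by
  by_cases hz : z = 0
  · simp [hz, shad_zero]
  obtain ⟨A, hA, hAz⟩ := exists_matrix hz
  have h2 : A *ᵥ (t • z) = Pi.single 0 t := by
    rw [Matrix.mulVec_smul, hAz, ← Pi.single_smul, smul_eq_mul, mul_one]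
  rw [shad_eq hc hb hm hA zero_le_one hAz, shad_eq hc hb hm hA ht h2]
  ring

theorem shadow_nonneg {d : ℕ} {C : Set (Fin (d + 1) → ℝ)} (hc : Convex ℝ C)
    (hb : Bornology.IsBounded C) (hm : IsOpen C ∨ IsCompact C) (z : Fin (d + 1) → ℝ) :
    0 ≤ shad C z := by
  by_cases hz : z = 0
  · simp [hz, shad_zero]
  obtain ⟨A, hA, hAz⟩ := exists_matrix hz
  rw [shad_eq hc hb hm hA zero_le_one hAz]
  positivity

theorem shadow_vol_eq {d : ℕ} {C : Set (Fin (d + 1) → ℝ)} (hc : Convex ℝ C)
    (hb : Bornology.IsBounded C) (hm : IsOpen C ∨ IsCompact C) (z : Fin (d + 1) → ℝ) :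
    volume (C + segment ℝ (-z) z) = volume C + ENNReal.ofReal (2 * shad C z) := by
  have h0 := shadow_nonneg hc hb hm z
  have hb2 : Bornology.IsBounded (C + segment ℝ (-z) z) :=
    hb.add (shadow_isCompact_segment _ _).isBounded
  rw [← ofReal_measureReal hb2.measure_lt_top.ne, ← ofReal_measureReal hb.measure_lt_top.ne,
    ← ENNReal.ofReal_add measureReal_nonneg (by positivity)]
  congr 1
  unfold shad
  ring

theorem shadow_layer {d : ℕ} (η : ℝ) {C : Set (Fin d → ℝ)} (hC : IsCompact C)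
    (hne : C.Nonempty) :
    ENNReal.ofReal (∫ x, bump η C x)
      = ∫⁻ τ in Ioi (0 : ℝ), volume (Metric.thickening (η - τ) C) := by
  have hi := integrable_bump η hC hne
  have h0 : 0 ≤ᵐ[volume] bump η C := ae_of_all _ fun x => le_max_right _ _
  rw [ofReal_integral_eq_lintegral_ofReal hi h0,
    lintegral_eq_lintegral_meas_lt _ h0 hi.aemeasurable]
  refine setLIntegral_congr_fun measurableSet_Ioi fun τ hτ => ?_
  congr 1
  ext x
  have hτ' : 0 < τ := hτ
  rw [Metric.mem_thickening_iff_infDist_lt hne]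
  simp only [bump, mem_ofPred_eq, lt_max_iff]
  constructor
  · rintro (h | h)
    · linarith
    · linarith
  · intro h
    left; linarith

theorem shadow_diff {d : ℕ} {η : ℝ} (hη : 0 < η) {C : Set (Fin (d + 1) → ℝ)} (hC : IsCompact C)
    (hc : Convex ℝ C) (hne : C.Nonempty) (z : Fin (d + 1) → ℝ) :
    (∫ x, bump η C x) + 2 * shad C z * η ≤ ∫ x, bump η (C + segment ℝ (-z) z) x ∧
      ∫ x, bump η (C + segment ℝ (-z) z) x
        ≤ (∫ x, bump η C x) + 2 * shad (Metric.cthickening η C) z * η := by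
  have hM := shadow_isCompact_segment (-z) z
  have hC2 : IsCompact (C + segment ℝ (-z) z) := hC.add hM
  have hne2 : (C + segment ℝ (-z) z).Nonempty := hne.add ⟨z, right_mem_segment _ _ _⟩
  have hnn : ∀ S : Set (Fin (d + 1) → ℝ), 0 ≤ ∫ x, bump η S x := fun S =>
    integral_nonneg fun x => le_max_right _ _
  have hth : ∀ s : ℝ, volume (Metric.thickening s (C + segment ℝ (-z) z))
      = volume (Metric.thickening s C)
        + ENNReal.ofReal (2 * shad (Metric.thickening s C) z) := by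
    intro s
    rw [← shadow_vol_eq (hc.thickening s) hC.isBounded.thickening
      (Or.inl Metric.isOpen_thickening), ← add_ball_zero, ← add_ball_zero, add_right_comm]
  have hs0 := shadow_nonneg hc hC.isBounded (Or.inr hC) z
  have hs1 := shadow_nonneg (hc.cthickening η) hC.cthickening.isBounded
    (Or.inr hC.cthickening) z
  have hind : ∀ a : ℝ, 0 ≤ a → ∫⁻ τ in Ioi (0 : ℝ), (volume (Metric.thickening (η - τ) C)
      + (Iio η).indicator (fun _ => ENNReal.ofReal a) τ)
      = ENNReal.ofReal ((∫ x, bump η C x) + a * η) := by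
    intro a ha
    rw [lintegral_add_right _ (measurable_const.indicator measurableSet_Iio),
      ← shadow_layer η hC hne, lintegral_indicator_const measurableSet_Iio,
      Measure.restrict_apply measurableSet_Iio, Iio_inter_Ioi, Real.volume_Ioo, sub_zero,
      ← ENNReal.ofReal_mul ha, ← ENNReal.ofReal_add (hnn C) (by positivity)]
  constructor
  · rw [← ENNReal.ofReal_le_ofReal_iff (hnn _), ← hind _ (by positivity),
      shadow_layer η hC2 hne2]
    refine setLIntegral_mono' measurableSet_Ioi fun τ _ => ?_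
    rw [hth]
    refine add_le_add le_rfl ?_
    by_cases h : τ ∈ Iio η
    · rw [indicator_of_mem h]
      refine ENNReal.ofReal_le_ofReal ?_
      have h' : τ < η := h
      have := shadow_mono hc (Or.inr hC) (hc.thickening (η - τ)) hC.isBounded.thickening
        (Or.inl Metric.isOpen_thickening) (Metric.self_subset_thickening (by linarith) C) z
      linarith
    · rw [indicator_of_notMem h]
      exact zero_le
  · rw [← ENNReal.ofReal_le_ofReal_iff (by have := hnn C; positivity),
      ← hind _ (by positivity), shadow_layer η hC2 hne2]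
    refine setLIntegral_mono' measurableSet_Ioi fun τ hτ => ?_
    have hτ' : 0 < τ := hτ
    by_cases h : τ ∈ Iio η
    · rw [hth, indicator_of_mem h]
      refine add_le_add le_rfl (ENNReal.ofReal_le_ofReal ?_)
      have := shadow_mono (hc.thickening (η - τ)) (Or.inl Metric.isOpen_thickening)
        (hc.cthickening η) hC.cthickening.isBounded (Or.inr hC.cthickening)
        (Metric.thickening_subset_cthickening_of_le (by linarith) C) z
      linarith
    · have h' : η - τ ≤ 0 := by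
        have : ¬ τ < η := h
        linarith
      rw [Metric.thickening_of_nonpos h']
      simp

theorem shadow_sandwich {d : ℕ} {η : ℝ} (hη : 0 < η) {C : Set (Fin (d + 1) → ℝ)}
    (hC : IsCompact C) (hc : Convex ℝ C) (hne : C.Nonempty) (z : Fin (d + 1) → ℝ) :
    2 * shad C z ≤ (∫ x, |fderiv ℝ (bump η C) x z|) / η ∧
      (∫ x, |fderiv ℝ (bump η C) x z|) / η ≤ 2 * shad (Metric.cthickening η C) z := by
  have hM := shadow_isCompact_segment (-z) z
  have hH : ∀ ℓ : (Fin (d + 1) → ℝ) →L[ℝ] ℝ, IsGreatest (ℓ '' segment ℝ (-z) z) |ℓ z| := by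
    intro ℓ
    constructor
    · rcases le_total 0 (ℓ z) with h | h
      · exact ⟨z, right_mem_segment _ _ _, (abs_of_nonneg h).symm⟩
      · exact ⟨-z, left_mem_segment _ _ _, by rw [map_neg, abs_of_nonpos h]⟩
    · rintro _ ⟨y, ⟨a, b, ha, hb, hab, rfl⟩, rfl⟩
      simp only [map_add, map_smul, map_neg, smul_eq_mul]
      have h1 := le_abs_self (ℓ z)
      have h2 := neg_abs_le (ℓ z)
      have h3 : a * -ℓ z ≤ a * |ℓ z| := mul_le_mul_of_nonneg_left (by linarith) ha
      have h4 : b * ℓ z ≤ b * |ℓ z| := mul_le_mul_of_nonneg_left h1 hb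
      calc a * -ℓ z + b * ℓ z ≤ (a + b) * |ℓ z| := by linarith
        _ = |ℓ z| := by rw [hab, one_mul]
  have hlim := first_variation η hC hne hM (H := fun ℓ => |ℓ z|) hH
  simp only [neg_apply, abs_neg] at hlim
  have hseg : ∀ t : ℝ, t • segment ℝ (-z) z = segment ℝ (-(t • z)) (t • z) := by
    intro t
    have := image_segment ℝ (t • (LinearMap.id : (Fin (d + 1) → ℝ) →ₗ[ℝ] _)).toAffineMap (-z) z
    simpa using this
  have hev : ∀ᶠ t : ℝ in 𝓝[>] 0,
      2 * shad C z * η ≤ ((∫ x, bump η (C + t • segment ℝ (-z) z) x) - ∫ x, bump η C x) / t ∧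
      ((∫ x, bump η (C + t • segment ℝ (-z) z) x) - ∫ x, bump η C x) / t
        ≤ 2 * shad (Metric.cthickening η C) z * η := by
    filter_upwards [self_mem_nhdsWithin] with t ht
    have ht' : 0 < t := ht
    obtain ⟨h1, h2⟩ := shadow_diff hη hC hc hne (t • z)
    rw [shadow_smul hc hC.isBounded (Or.inr hC) z ht'.le] at h1
    rw [shadow_smul (hc.cthickening η) hC.cthickening.isBounded (Or.inr hC.cthickening) z
      ht'.le] at h2
    rw [hseg, le_div_iff₀ ht', div_le_iff₀ ht']
    constructor <;> linarith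
  constructor
  · rw [le_div_iff₀ hη]
    exact ge_of_tendsto hlim (hev.mono fun t h => h.1)
  · rw [div_le_iff₀ hη]
    exact le_of_tendsto hlim (hev.mono fun t h => h.2)

theorem shad_limit {d : ℕ} {C : Set (Fin (d + 1) → ℝ)} (hC : IsCompact C) (hc : Convex ℝ C)
    (hne : C.Nonempty) (z : Fin (d + 1) → ℝ) :
    Tendsto (fun η : ℝ => (∫ x, |fderiv ℝ (bump η C) x z|) / η) (𝓝[>] 0) (𝓝 (2 * shad C z)) := by
  have hM := shadow_isCompact_segment (-z) z
  have hC2 : IsCompact (C + segment ℝ (-z) z) := hC.add hM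
  have hreal : ∀ {S : Set (Fin (d + 1) → ℝ)}, IsCompact S →
      Tendsto (fun η : ℝ => volume.real (Metric.cthickening η S)) (𝓝[>] 0)
        (𝓝 (volume.real S)) := fun {S} hS =>
    ((ENNReal.tendsto_toReal hS.measure_lt_top.ne).comp
      (tendsto_measure_cthickening_of_isCompact hS)).mono_left nhdsWithin_le_nhds
  have hup : Tendsto (fun η : ℝ => 2 * shad (Metric.cthickening η C) z) (𝓝[>] 0)
      (𝓝 (2 * shad C z)) := by
    refine ((((hreal hC2).sub (hreal hC)).div_const 2).const_mul 2).congr' ?_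
    filter_upwards [self_mem_nhdsWithin] with η hη
    have hη' : 0 < η := hη
    unfold shad
    rw [← hC2.add_closedBall_zero hη'.le, add_right_comm, hC.add_closedBall_zero hη'.le]
  refine tendsto_of_tendsto_of_tendsto_of_le_of_le' tendsto_const_nhds hup ?_ ?_
  · filter_upwards [self_mem_nhdsWithin] with η hη using (shadow_sandwich hη hC hc hne z).1
  · filter_upwards [self_mem_nhdsWithin] with η hη using (shadow_sandwich hη hC hc hne z).2

theorem shad_bound {d : ℕ} {C : Set (Fin (d + 1) → ℝ)} (hC : IsCompact C) (hc : Convex ℝ C)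
    (hne : C.Nonempty) : ∃ B : ℝ, ∀ η ∈ Ioc (0 : ℝ) 1, ∀ z : Fin (d + 1) → ℝ,
      (∫ x, |fderiv ℝ (bump η C) x z|) / η ≤ B * ‖z‖ := by
  set C1 := Metric.cthickening 1 C with hC1
  have hK : IsCompact C1 := hC.cthickening
  have hc1 : Convex ℝ C1 := hc.cthickening 1
  have hK2 : IsCompact (C1 + Metric.closedBall (0 : Fin (d + 1) → ℝ) 1) :=
    hK.add (isCompact_closedBall _ _)
  refine ⟨volume.real (C1 + Metric.closedBall (0 : Fin (d + 1) → ℝ) 1), fun η hη z => ?_⟩
  refine (shadow_sandwich hη.1 hC hc hne z).2.trans ?_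
  have h1 := shadow_mono (hc.cthickening η) (Or.inr hC.cthickening) hc1 hK.isBounded (Or.inr hK)
    (Metric.cthickening_mono hη.2 C) z
  by_cases hz : z = 0
  · simp [hz, shad_zero]
  have hn : 0 < ‖z‖ := norm_pos_iff.2 hz
  set u : Fin (d + 1) → ℝ := ‖z‖⁻¹ • z with hu
  have hu1 : ‖u‖ = 1 := by rw [hu, norm_smul, norm_inv, norm_norm, inv_mul_cancel₀ hn.ne']
  have hzu : z = ‖z‖ • u := by rw [hu, smul_smul, mul_inv_cancel₀ hn.ne', one_smul]
  have h2 : shad C1 z = ‖z‖ * shad C1 u := by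
    rw [← shadow_smul hc1 hK.isBounded (Or.inr hK) u hn.le, ← hzu]
  have h3 : segment ℝ (-u) u ⊆ Metric.closedBall (0 : Fin (d + 1) → ℝ) 1 :=
    (convex_closedBall _ _).segment_subset (by simp [hu1]) (by simp [hu1])
  have h4 : volume.real (C1 + segment ℝ (-u) u)
      ≤ volume.real (C1 + Metric.closedBall (0 : Fin (d + 1) → ℝ) 1) :=
    measureReal_mono (add_subset_add_left h3) hK2.measure_lt_top.ne
  have h5 : 2 * shad C1 u ≤ volume.real (C1 + Metric.closedBall (0 : Fin (d + 1) → ℝ) 1) := by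
    have : 0 ≤ volume.real C1 := measureReal_nonneg
    unfold shad
    linarith
  have h6 := mul_le_mul_of_nonneg_right h5 hn.le
  rw [h2] at h1
  linarith

theorem shad_comb_nonneg {d : ℕ} {C : Set (Fin (d + 1) → ℝ)} (hC : IsCompact C)
    (hc : Convex ℝ C) (hne : C.Nonempty) {ι : Type} (s : Finset ι) (c : ι → ℝ)
    (z : ι → Fin (d + 1) → ℝ)
    (h : ∀ ℓ : (Fin (d + 1) → ℝ) →L[ℝ] ℝ, 0 ≤ ∑ j ∈ s, c j * |ℓ (z j)|) :
    0 ≤ ∑ j ∈ s, c j * shad C (z j) := by
  have hlim : Tendsto (fun η : ℝ => ∑ j ∈ s, c j * ((∫ x, |fderiv ℝ (bump η C) x (z j)|) / η))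
      (𝓝[>] 0) (𝓝 (∑ j ∈ s, c j * (2 * shad C (z j)))) :=
    tendsto_finsetSum _ fun j _ => (shad_limit hC hc hne (z j)).const_mul _
  have hint : ∀ (η : ℝ) (y : Fin (d + 1) → ℝ),
      Integrable fun x => |fderiv ℝ (bump η C) x y| := by
    intro η y
    refine ((integrable_norm_fderiv_bump η hC hne).mul_const ‖y‖).mono'
      (measurable_fderiv_apply_const ℝ _ y).abs.aestronglyMeasurable (ae_of_all _ fun x => ?_)
    rw [Real.norm_eq_abs, abs_abs, ← Real.norm_eq_abs]
    exact ContinuousLinearMap.le_opNorm _ _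
  have h2 : 0 ≤ ∑ j ∈ s, c j * (2 * shad C (z j)) := by
    refine ge_of_tendsto hlim ?_
    filter_upwards [self_mem_nhdsWithin] with η hη
    have hη' : 0 < η := hη
    have : ∑ j ∈ s, c j * ((∫ x, |fderiv ℝ (bump η C) x (z j)|) / η)
        = (∫ x, ∑ j ∈ s, c j * |fderiv ℝ (bump η C) x (z j)|) / η := by
      rw [integral_finsetSum _ fun j _ => (hint η (z j)).const_mul _, Finset.sum_div]
      refine Finset.sum_congr rfl fun j _ => ?_
      rw [integral_const_mul, mul_div_assoc]
    rw [this]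
    exact div_nonneg (integral_nonneg fun x => h _) hη'.le
  have h3 : ∑ j ∈ s, c j * (2 * shad C (z j)) = 2 * ∑ j ∈ s, c j * shad C (z j) := by
    rw [Finset.mul_sum]
    exact Finset.sum_congr rfl fun j _ => by ring
  linarith

end Pool.Agent.P.MP_181257_gt
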