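import Pool.Agent.P.MP_181257_gt.Quant

/-! Steiner symmetrisation: measure, containment, gain. -/

set_option autoImplicit false
set_option linter.unusedSectionVars false

open MeasureTheory ProbabilityTheory Module Set Filter Topology
open scoped RealInnerProductSpace ENNReal Pointwise Matrix

noncomputable section

namespace Pool.Agent.P.MP_181257_gt

variable {V : Type} [NormedAddCommGroup V] [InnerProductSpace ℝ V] [FiniteDimensional ℝ V]
  [MeasurableSpace V] [BorelSpace V]

/-- the section of `S` along the line through `z` with direction `v` -/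
def sec (v : V) (S : Set V) (z : V) : Set ℝ := {t | z + t • v ∈ S}

/-- the Steiner symmetral of `S` in direction `v` -/
def St (v : V) (S : Set V) : Set V := {x | ⟪v, x⟫ ∈ cen (sec v S (pr v x))}

theorem mp_vol_split {v : V} (hv : ‖v‖ = 1) :
    MeasurePreserving (fun q : (ℝ ∙ v)ᗮ × ℝ => (q.1 : V) + q.2 • v)
      ((volume : Measure (ℝ ∙ v)ᗮ).prod (volume : Measure ℝ)) (volume : Measure V) := by
  have h1 := ((ℝ ∙ v).measurePreserving_measurableEquivProd (0 : V)).symm
  rw [InnerProductSpace.euclideanHausdorffMeasure_eq_volume] at h1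
  have h2 := (LinearIsometryEquiv.toSpanUnitSingleton (𝕜 := ℝ) v hv).measurePreserving
  have h3 := (h2.prod (MeasurePreserving.id (volume : Measure (ℝ ∙ v)ᗮ))).comp
    (Measure.measurePreserving_swap (μ := (volume : Measure (ℝ ∙ v)ᗮ))
      (ν := (volume : Measure ℝ)))
  have h4 := h1.comp h3
  have e : (fun q : (ℝ ∙ v)ᗮ × ℝ => (q.1 : V) + q.2 • v)
      = ((ℝ ∙ v).measurableEquivProd (0 : V)).symm ∘
        Prod.map (LinearIsometryEquiv.toSpanUnitSingleton (𝕜 := ℝ) v hv) id ∘ Prod.swap := by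
    funext q
    simp [add_comm]
  rw [e]
  exact h4

theorem measurableSet_sec (v : V) {S : Set V} (hS : MeasurableSet S) (z : V) :
    MeasurableSet (sec v S z) := by
  have h : Measurable fun t : ℝ => z + t • v := by fun_prop
  exact h hS

theorem steinA_norm_sq {v z : V} (hv : ‖v‖ = 1) (hz : ⟪v, z⟫ = 0) (t : ℝ) :
    ‖z + t • v‖ ^ 2 = ‖z‖ ^ 2 + t ^ 2 := by
  rw [norm_add_sq_real, real_inner_smul_right, real_inner_comm, hz, norm_smul, hv]
  simp

theorem steinA_volume {v : V} (hv : ‖v‖ = 1) {T : Set V} (hT : MeasurableSet T) :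
    volume T = ∫⁻ z : (ℝ ∙ v)ᗮ, volume (sec v T z) := by
  have h := mp_vol_split hv
  rw [← h.measure_preimage hT.nullMeasurableSet, Measure.prod_apply (h.measurable hT)]
  rfl

theorem steinA_measurable (v : V) {T : Set V} (hT : MeasurableSet T) :
    Measurable fun z : V => volume (sec v T z) := by
  have h : Measurable fun p : V × ℝ => p.1 + p.2 • v := by fun_prop
  exact measurable_measure_prodMk_left (ν := volume) (h hT)

theorem steinA_volume_cen {A : Set ℝ} (hb : Bornology.IsBounded A) :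
    volume (cen A) = volume A := by
  rw [cen, Real.volume_Ioo, sub_neg_eq_add, add_halves, ofReal_measureReal hb.measure_lt_top.ne]

theorem steinA_line {A : Set ℝ} (hA : MeasurableSet A) (hb : Bornology.IsBounded A) (r c : ℝ) :
    volume (A ∩ Ioo (-r) r) + volume ((Ioo (-r) r \ A) ∩ {t | t + c ∈ A \ Ioo (-r) r})
      ≤ volume (cen A ∩ Ioo (-r) r) := by
  rcases le_total (volume.real A / 2) r with h | h
  · have e : cen A ∩ Ioo (-r) r = cen A :=
      inter_eq_left.2 (Ioo_subset_Ioo (neg_le_neg h) h)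
    rw [e, steinA_volume_cen hb, ← measure_inter_add_sdiff A (measurableSet_Ioo (a := -r) (b := r))]
    refine add_le_add le_rfl ?_
    rw [← measure_preimage_add_right volume c (A \ Ioo (-r) r)]
    exact measure_mono inter_subset_right
  · have e : cen A ∩ Ioo (-r) r = Ioo (-r) r :=
      inter_eq_right.2 (Ioo_subset_Ioo (neg_le_neg h) h)
    rw [e, inter_comm A]
    refine le_trans (add_le_add le_rfl (measure_mono inter_subset_left)) ?_
    exact (measure_inter_add_sdiff _ hA).le

theorem steinA_sec_ball {v z : V} (hv : ‖v‖ = 1) (hz : ⟪v, z⟫ = 0) (ρ : ℝ) :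
    ∃ r : ℝ, sec v (Metric.ball 0 ρ) z = Ioo (-r) r := by
  rcases le_or_gt ρ 0 with h | h
  · refine ⟨0, ?_⟩
    rw [Metric.ball_eq_empty.2 h]
    simp [sec]
  · refine ⟨√(ρ ^ 2 - ‖z‖ ^ 2), ?_⟩
    ext t
    simp only [sec, mem_ofPred_eq, mem_ball_zero_iff, mem_Ioo]
    rw [← abs_lt, Real.lt_sqrt (abs_nonneg t), sq_abs,
      ← sq_lt_sq₀ (norm_nonneg _) h.le, steinA_norm_sq hv hz]
    constructor <;> intro _ <;> linarith

theorem isBounded_sec {v : V} (hv : ‖v‖ = 1) {S : Set V} {R : ℝ}
    (hb : S ⊆ Metric.closedBall 0 R) (z : V) : Bornology.IsBounded (sec v S z) := by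
  refine (Metric.isBounded_closedBall (x := (0 : ℝ)) (r := R + ‖z‖)).subset fun t ht => ?_
  have h1 := hb ht
  rw [mem_closedBall_zero_iff] at h1 ⊢
  have h2 : ‖t • v‖ ≤ ‖z + t • v‖ + ‖z‖ := by
    have := norm_sub_le (z + t • v) z
    rwa [add_sub_cancel_left] at this
  rw [norm_smul, hv, mul_one] at h2
  linarith

theorem sec_St {v : V} (hv : ‖v‖ = 1) (S : Set V) {z : V} (hz : ⟪v, z⟫ = 0) :
    sec v (St v S) z = cen (sec v S z) := by
  ext t
  have h1 : ⟪v, z + t • v⟫ = t := by
    rw [inner_add_right, hz, real_inner_smul_right, real_inner_self_eq_norm_sq, hv]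
    simp
  have h2 : pr v (z + t • v) = z := by
    rw [pr_add, pr_smul, pr_self, pr_of_inner_eq_zero hz]
    simp
  simp only [sec, St, mem_ofPred_eq, h1, h2]

theorem measurableSet_St (v : V) {S : Set V} (hS : MeasurableSet S) :
    MeasurableSet (St v S) := by
  have h1 : Measurable fun x : V => volume.real (sec v S (pr v x)) :=
    ((steinA_measurable v hS).comp
      (measurable_pr measurable_const measurable_id)).ennreal_toReal
  have h2 : Measurable fun x : V => ⟪v, x⟫ := by fun_prop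
  exact (measurableSet_lt (h1.div_const 2).neg h2).inter (measurableSet_lt h2 (h1.div_const 2))

theorem St_subset {v : V} (hv : ‖v‖ = 1) {S : Set V} {R : ℝ} (hb : S ⊆ Metric.closedBall 0 R) :
    St v S ⊆ Metric.closedBall 0 R := by
  intro x hx
  set z := pr v x with hz
  have hz0 : ⟪v, z⟫ = 0 := inner_pr_self v x
  have h1 : |⟪v, x⟫| < volume.real (sec v S z) / 2 := abs_lt.2 hx
  have h2 : sec v S z ⊆ Icc (-√(R ^ 2 - ‖z‖ ^ 2)) √(R ^ 2 - ‖z‖ ^ 2) := by
    intro t ht
    have h3 := hb ht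
    rw [mem_closedBall_zero_iff] at h3
    have h4 := pow_le_pow_left₀ (norm_nonneg _) h3 2
    rw [steinA_norm_sq hv hz0] at h4
    exact abs_le.1 (Real.abs_le_sqrt (by linarith))
  have h5 := measureReal_mono (μ := volume) h2 isCompact_Icc.measure_lt_top.ne
  rw [Real.volume_real_Icc_of_le (by linarith [Real.sqrt_nonneg (R ^ 2 - ‖z‖ ^ 2)])] at h5
  have h6 : |⟪v, x⟫| < √(R ^ 2 - ‖z‖ ^ 2) := by linarith
  rw [Real.lt_sqrt (abs_nonneg _), sq_abs] at h6
  obtain ⟨t, ht⟩ : (sec v S z).Nonempty := by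
    refine nonempty_of_measureReal_ne_zero (μ := volume) ?_
    have := abs_nonneg ⟪v, x⟫
    linarith
  have hR : 0 ≤ R := (norm_nonneg _).trans (mem_closedBall_zero_iff.1 (hb ht))
  have h7 := norm_sq_pr v x
  rw [hv, ← hz] at h7
  rw [mem_closedBall_zero_iff]
  refine (sq_le_sq₀ (norm_nonneg _) hR).1 ?_
  linarith

theorem volume_St {v : V} (hv : ‖v‖ = 1) {S : Set V} (hS : MeasurableSet S) {R : ℝ}
    (hb : S ⊆ Metric.closedBall 0 R) : volume (St v S) = volume S := by
  rw [steinA_volume hv hS, steinA_volume hv (measurableSet_St v hS)]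
  refine lintegral_congr fun z => ?_
  rw [sec_St hv S (Submodule.mem_orthogonal_singleton_iff_inner_right.1 z.2),
    steinA_volume_cen (isBounded_sec hv hb _)]

theorem St_gain {v : V} (hv : ‖v‖ = 1) {S : Set V} (hS : MeasurableSet S) {R : ℝ}
    (hb : S ⊆ Metric.closedBall 0 R) (ρ c : ℝ) :
    volume (S ∩ Metric.ball 0 ρ)
        + volume ((Metric.ball 0 ρ \ S) ∩ {x | x + c • v ∈ S \ Metric.ball 0 ρ})
      ≤ volume (St v S ∩ Metric.ball 0 ρ) := by
  have hB : MeasurableSet (Metric.ball (0 : V) ρ) := measurableSet_ball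
  have h1 : MeasurableSet ((Metric.ball 0 ρ \ S) ∩ {x | x + c • v ∈ S \ Metric.ball 0 ρ}) :=
    (hB.diff hS).inter (measurable_add_const (c • v) (hS.diff hB))
  have h2 : Measurable fun z : (ℝ ∙ v)ᗮ => volume (sec v (S ∩ Metric.ball 0 ρ) z) :=
    (steinA_measurable v (hS.inter hB)).comp measurable_subtype_coe
  rw [steinA_volume hv (hS.inter hB), steinA_volume hv h1,
    steinA_volume hv ((measurableSet_St v hS).inter hB), ← lintegral_add_left h2]
  refine lintegral_mono fun z => ?_
  have hz : ⟪v, (z : V)⟫ = 0 := Submodule.mem_orthogonal_singleton_iff_inner_right.1 z.2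
  obtain ⟨r, hr⟩ := steinA_sec_ball hv hz ρ
  have e1 : sec v (S ∩ Metric.ball 0 ρ) z = sec v S z ∩ Ioo (-r) r := by
    rw [← hr]
    rfl
  have e2 : sec v ((Metric.ball 0 ρ \ S) ∩ {x | x + c • v ∈ S \ Metric.ball 0 ρ}) z
      = (Ioo (-r) r \ sec v S z) ∩ {t | t + c ∈ sec v S z \ Ioo (-r) r} := by
    rw [← hr]
    ext t
    simp only [sec, mem_ofPred_eq, mem_inter_iff, Set.mem_sdiff, add_smul, add_assoc]
  have e3 : sec v (St v S ∩ Metric.ball 0 ρ) z = cen (sec v S z) ∩ Ioo (-r) r := by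
    rw [← hr, ← sec_St hv S hz]
    rfl
  simp only
  rw [e1, e2, e3]
  exact steinA_line (measurableSet_sec v hS _) (isBounded_sec hv hb _) r c

end Pool.Agent.P.MP_181257_gt
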