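import Pool.Agent.P.MP_181257_gt.SteinA
import Pool.Agent.P.MP_181257_gt.Box
import Pool.Agent.P.MP_181257_gt.Proj

/-! Steiner symmetrisation decreases the moments of random parallelepipeds. -/

set_option autoImplicit false
set_option linter.unusedSectionVars false

open MeasureTheory ProbabilityTheory Module Set Filter Topology
open scoped RealInnerProductSpace ENNReal Pointwise Matrix

noncomputable section

namespace Pool.Agent.P.MP_181257_gt

variable {V : Type} [NormedAddCommGroup V] [InnerProductSpace ℝ V] [FiniteDimensional ℝ V]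
  [MeasurableSpace V] [BorelSpace V]

/-- the `j`-th moment of the volume spanned by `k` points of `S` -/
def JJ (k j : ℕ) (S : Set V) : ℝ≥0∞ :=
  ∫⁻ y, ENNReal.ofReal (D y ^ j) ∂(Measure.pi fun _ : Fin k => (volume : Measure V).restrict S)

theorem steinB_det_eq {k : ℕ} (M : Matrix (Fin k) (Fin k) ℝ) (u t : Fin k → ℝ) :
    (Matrix.of fun l j => M l j + u l * t j).det
      = ((Matrix.fromBlocks M (Matrix.of fun l (_ : Unit) => -u l) 0 1).updateRow (Sum.inr ())
          (Sum.elim t fun _ => 1)).det := by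
  have h : (Matrix.fromBlocks M (Matrix.of fun l (_ : Unit) => -u l) 0 1).updateRow (Sum.inr ())
      (Sum.elim t fun _ => 1)
      = Matrix.fromBlocks M (Matrix.of fun l (_ : Unit) => -u l)
          (Matrix.of fun (_ : Unit) j => t j) 1 := by
    ext i j
    rcases i with i | i <;> rcases j with j | j <;> simp [Matrix.updateRow_apply]
  rw [h, Matrix.det_fromBlocks_one₂₂]
  congr 1
  ext i j
  simp [Matrix.mul_apply]

theorem steinB_det_affine {k : ℕ} (M : Matrix (Fin k) (Fin k) ℝ) (u s t : Fin k → ℝ) {a b : ℝ}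
    (hab : a + b = 1) :
    (Matrix.of fun l j => M l j + u l * (a • s + b • t) j).det
      = a * (Matrix.of fun l j => M l j + u l * s j).det
        + b * (Matrix.of fun l j => M l j + u l * t j).det := by
  rw [steinB_det_eq, steinB_det_eq, steinB_det_eq]
  have h : (Sum.elim (a • s + b • t) fun _ : Unit => (1 : ℝ))
      = a • (Sum.elim s fun _ : Unit => (1 : ℝ)) + b • (Sum.elim t fun _ : Unit => (1 : ℝ)) := by
    ext j
    rcases j with j | j <;> simp [hab]
  rw [h, Matrix.det_updateRow_add, Matrix.det_updateRow_smul, Matrix.det_updateRow_smul]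

theorem convexOn_D {k : ℕ} (z : Fin k → V) (v : V) :
    ConvexOn ℝ univ fun t : Fin k → ℝ => D fun l => z l + t l • v := by
  obtain ⟨c, hc, h⟩ := gauss_det (V := V) k
  refine ⟨convex_univ, fun s _ t _ a b ha hb hab => ?_⟩
  refine le_of_mul_le_mul_left ?_ hc
  have e : ∀ (g : Fin k → V) (r : Fin k → ℝ), (Matrix.of fun l j => ⟪g l, z j + r j • v⟫)
      = Matrix.of fun l j => (Matrix.of fun l j => ⟪g l, z j⟫) l j + ⟪g l, v⟫ * r j := by
    intro g r
    ext l j
    simp [inner_add_right, real_inner_smul_right, mul_comm]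
  simp only [smul_eq_mul]
  rw [mul_add, mul_left_comm c a, mul_left_comm c b, ← (h _).2, ← (h _).2, ← (h _).2,
    ← integral_const_mul, ← integral_const_mul,
    ← integral_add ((h _).1.const_mul a) ((h _).1.const_mul b)]
  refine integral_mono (h _).1 (((h _).1.const_mul a).add ((h _).1.const_mul b)) fun g => ?_
  simp only [e]
  rw [steinB_det_affine _ _ _ _ hab]
  refine (abs_add_le _ _).trans ?_
  rw [abs_mul, abs_mul, abs_of_nonneg ha, abs_of_nonneg hb]

theorem D_reflect {k : ℕ} {z : Fin k → V} {v : V} (h : ∀ l, ⟪v, z l⟫ = 0) (t : Fin k → ℝ) :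
    D (fun l => z l + (-t) l • v) = D fun l => z l + t l • v := by
  unfold D
  congr 2
  ext i j
  have h' : ∀ l, ⟪z l, v⟫ = 0 := fun l => by rw [real_inner_comm]; exact h l
  simp [Matrix.gram_apply, inner_add_left, inner_add_right, real_inner_smul_left,
    real_inner_smul_right, h, h']

theorem steinB_JJ (k j : ℕ) {v : V} (hv : ‖v‖ = 1) {T : Set V} (hT : MeasurableSet T) :
    JJ k j T = ∫⁻ z : Fin k → (ℝ ∙ v)ᗮ, ∫⁻ t : Fin k → ℝ,
        ENNReal.ofReal (D (fun l => (z l : V) + t l • v) ^ j)
          ∂(Measure.pi fun l => volume.restrict (sec v T (z l)))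
      ∂(Measure.pi fun _ => (volume : Measure (ℝ ∙ v)ᗮ)) := by
  have h1 := (measurePreserving_arrowProdEquivProdArrow (ℝ ∙ v)ᗮ ℝ (Fin k)
    (fun _ => (volume : Measure (ℝ ∙ v)ᗮ)) (fun _ => (volume : Measure ℝ))).symm
  have h2 := measurePreserving_pi
    (fun _ : Fin k => (volume : Measure (ℝ ∙ v)ᗮ).prod (volume : Measure ℝ))
    (fun _ => (volume : Measure V))
    (f := fun _ => fun q : (ℝ ∙ v)ᗮ × ℝ => (q.1 : V) + q.2 • v) (fun _ => mp_vol_split hv)
  have h3 : MeasurePreserving
      (fun q : (Fin k → (ℝ ∙ v)ᗮ) × (Fin k → ℝ) => fun l => (q.1 l : V) + q.2 l • v)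
      ((Measure.pi fun _ => (volume : Measure (ℝ ∙ v)ᗮ)).prod
        (Measure.pi fun _ => (volume : Measure ℝ)))
      (Measure.pi fun _ => (volume : Measure V)) := h2.comp h1
  have hP : MeasurableSet (univ.pi fun _ : Fin k => T) := MeasurableSet.univ_pi fun _ => hT
  have hF : Measurable fun y : Fin k → V => ENNReal.ofReal (D y ^ j) :=
    ENNReal.measurable_ofReal.comp ((measurable_D measurable_id).pow_const j)
  unfold JJ
  rw [← Measure.restrict_pi_pi, ← lintegral_indicator hP, ← h3.lintegral_comp (hF.indicator hP)]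
  refine (lintegral_prod _ ((hF.indicator hP).comp h3.measurable).aemeasurable).trans ?_
  refine lintegral_congr fun z => ?_
  rw [← Measure.restrict_pi_pi,
    ← lintegral_indicator (MeasurableSet.univ_pi fun l => measurableSet_sec v hT (z l))]
  refine lintegral_congr fun t => ?_
  simp only [Function.comp_apply]
  by_cases ht : t ∈ univ.pi fun l => sec v T (z l)
  · rw [indicator_of_mem ht, indicator_of_mem]
    exact fun l hl => ht l hl
  · rw [indicator_of_notMem ht, indicator_of_notMem]
    exact fun h => ht fun l hl => h l hl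

theorem JJ_St (k j : ℕ) {v : V} (hv : ‖v‖ = 1) {S : Set V} (hS : MeasurableSet S) {R : ℝ}
    (hb : S ⊆ Metric.closedBall 0 R) : JJ k j (St v S) ≤ JJ k j S := by
  rw [steinB_JJ k j hv hS, steinB_JJ k j hv (measurableSet_St v hS)]
  refine lintegral_mono fun z => ?_
  have hz : ∀ l, ⟪v, (z l : V)⟫ = 0 := fun l =>
    Submodule.mem_orthogonal_singleton_iff_inner_right.1 (z l).2
  simp only [sec_St hv S (hz _)]
  refine box_le (Φ := fun t : Fin k → ℝ => D (fun l => (z l : V) + t l • v) ^ j) ?_ ?_ ?_ ?_
    (fun l => measurableSet_sec v hS _) (fun l => isBounded_sec hv hb _)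
  · exact (convexOn_D (fun l => (z l : V)) v).pow (fun _ _ => D_nonneg _) j
  · intro t
    rw [D_reflect (z := fun l => (z l : V)) hz t]
  · exact fun t => pow_nonneg (D_nonneg _) j
  · exact (measurable_D (by fun_prop)).pow_const j

end Pool.Agent.P.MP_181257_gt
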