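import Pool.Agent.P.MP_181257_gt.SteinB

/-! The ball minimises the moments of random parallelepipeds. -/

set_option autoImplicit false
set_option linter.unusedSectionVars false

open MeasureTheory ProbabilityTheory Module Set Filter Topology
open scoped RealInnerProductSpace ENNReal Pointwise Matrix

noncomputable section

namespace Pool.Agent.P.MP_181257_gt

variable {V : Type} [NormedAddCommGroup V] [InnerProductSpace ℝ V] [FiniteDimensional ℝ V]
  [MeasurableSpace V] [BorelSpace V]

theorem steinC_conv {A B : Set V} (hA : MeasurableSet A) (hB : MeasurableSet B) :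
    ∫⁻ w : V, volume (A ∩ {x | x + w ∈ B}) = volume A * volume B := by
  set E : Set (V × V) := {p | p.2 ∈ A ∧ p.2 + p.1 ∈ B} with hE
  have hEm : MeasurableSet E :=
    (measurable_snd hA).inter ((measurable_snd.add measurable_fst) hB)
  have h1 : ((volume : Measure V).prod (volume : Measure V)) E
      = ∫⁻ w : V, volume (A ∩ {x | x + w ∈ B}) := by
    rw [Measure.prod_apply hEm]
    rfl
  have h2 : ((volume : Measure V).prod (volume : Measure V)) E
      = ∫⁻ x : V, A.indicator (fun _ => volume B) x := by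
    rw [Measure.prod_apply_symm hEm]
    refine lintegral_congr fun x => ?_
    by_cases hx : x ∈ A
    · rw [indicator_of_mem hx, ← measure_preimage_add volume x B]
      congr 1
      ext w
      simp [hE, hx]
    · rw [indicator_of_notMem hx]
      have : (fun w : V => (w, x)) ⁻¹' E = ∅ := by
        ext w
        simp [hE, hx]
      rw [this, measure_empty]
  rw [← h1, h2, lintegral_indicator_const hA, mul_comm]

theorem steinC_exists (hn : 1 ≤ finrank ℝ V) {A B : Set V} (hA : MeasurableSet A)
    (hB : MeasurableSet B) {R : ℝ} (hR : 0 < R) (ha : A ⊆ Metric.closedBall 0 R)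
    (hb : B ⊆ Metric.closedBall 0 R) :
    ∃ w : V, w ≠ 0 ∧ volume A * volume B / (2 * volume (Metric.closedBall (0 : V) (2 * R)))
      ≤ volume (A ∩ {x | x + w ∈ B}) := by
  have : Nontrivial V := Module.nontrivial_of_finrank_pos (R := ℝ) hn
  by_contra hcon
  push Not at hcon
  set P := volume A * volume B with hP
  set c := volume (Metric.closedBall (0 : V) (2 * R)) with hc
  have hc0 : c ≠ 0 := (Metric.measure_closedBall_pos volume _ (by positivity)).ne'
  have hct : c ≠ ∞ := measure_closedBall_lt_top.ne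
  have hPt : P ≠ ∞ := ENNReal.mul_ne_top
    ((measure_mono ha).trans_lt measure_closedBall_lt_top).ne
    ((measure_mono hb).trans_lt measure_closedBall_lt_top).ne
  have hP0 : P ≠ 0 := by
    intro h0
    obtain ⟨w, hw⟩ := exists_ne (0 : V)
    have := hcon w hw
    rw [h0] at this
    simp at this
  have hle : P ≤ ∫⁻ w : V, (Metric.closedBall (0 : V) (2 * R)).indicator
      (fun _ => P / (2 * c)) w := by
    rw [hP, ← steinC_conv hA hB]
    refine lintegral_mono_ae ?_
    have hae : ∀ᵐ w : V, w ≠ 0 := by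
      have : (volume : Measure V) {0} = 0 := measure_singleton 0
      exact compl_mem_ae_iff.2 this
    filter_upwards [hae] with w hw
    by_cases hm : w ∈ Metric.closedBall (0 : V) (2 * R)
    · rw [indicator_of_mem hm, steinC_conv hA hB]
      exact (hcon w hw).le
    · have : A ∩ {x | x + w ∈ B} = ∅ := by
        refine eq_empty_of_forall_notMem fun x hx => hm ?_
        have h1 : ‖x‖ ≤ R := by simpa using ha hx.1
        have h2 : ‖x + w‖ ≤ R := by simpa using hb hx.2
        have h3 : ‖w‖ ≤ ‖x + w‖ + ‖x‖ := by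
          simpa using norm_sub_le (x + w) x
        simp only [Metric.mem_closedBall, dist_zero_right]
        linarith
      rw [this, measure_empty]
      exact zero_le
  rw [lintegral_indicator_const measurableSet_closedBall, ← hc] at hle
  have he : P / (2 * c) * c = P / 2 := by
    rw [div_eq_mul_inv, div_eq_mul_inv, ENNReal.mul_inv (by simp) (by simp), mul_assoc P,
      mul_assoc _ c⁻¹, ENNReal.inv_mul_cancel hc0 hct, mul_one]
  rw [he] at hle
  exact absurd (ENNReal.half_lt_self hP0 hPt) (not_lt.2 hle)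

theorem exists_gain (hn : 1 ≤ finrank ℝ V) {S : Set V} (hS : MeasurableSet S) {R ρ : ℝ}
    (hR : 0 < R) (hb : S ⊆ Metric.closedBall 0 R) (hρ : ρ ≤ R) :
    ∃ v : V, ‖v‖ = 1 ∧
      volume (S ∩ Metric.ball 0 ρ)
          + volume (Metric.ball 0 ρ \ S) * volume (S \ Metric.ball 0 ρ)
            / (2 * volume (Metric.closedBall (0 : V) (2 * R)))
        ≤ volume (St v S ∩ Metric.ball 0 ρ) := by
  have hB : Metric.ball (0 : V) ρ ⊆ Metric.closedBall 0 R :=
    Metric.ball_subset_closedBall.trans (Metric.closedBall_subset_closedBall hρ)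
  obtain ⟨w, hw, h⟩ := steinC_exists hn (measurableSet_ball.diff hS) (hS.diff measurableSet_ball)
    hR (sdiff_subset.trans hB) (sdiff_subset.trans hb)
  have hn0 : ‖w‖ ≠ 0 := norm_ne_zero_iff.2 hw
  have hv : ‖(‖w‖⁻¹ • w : V)‖ = 1 := by
    rw [norm_smul, norm_inv, norm_norm, inv_mul_cancel₀ hn0]
  refine ⟨‖w‖⁻¹ • w, hv, ?_⟩
  have hg := St_gain hv hS hb ρ ‖w‖
  rw [smul_smul, mul_inv_cancel₀ hn0, one_smul] at hg
  exact (add_le_add le_rfl h).trans hg

theorem steinC_JJ (k j : ℕ) (S : Set V) :
    JJ k j S = ∫⁻ y in univ.pi fun _ : Fin k => S, ENNReal.ofReal (D y ^ j)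
      ∂(Measure.pi fun _ : Fin k => (volume : Measure V)) := by
  rw [JJ, Measure.restrict_pi_pi]

theorem JJ_le_add (k j : ℕ) {S T : Set V} (hS : MeasurableSet S) (hT : MeasurableSet T) {R : ℝ}
    (hR : 0 < R) (hb : T ⊆ Metric.closedBall 0 R) :
    JJ (k + 1) j T ≤ JJ (k + 1) j S + ENNReal.ofReal (R ^ ((k + 1) * j)) * (k + 1 : ℕ)
      * volume (Metric.closedBall (0 : V) R) ^ k * volume (T \ S) := by
  classical
  set E : Fin (k + 1) → Set (Fin (k + 1) → V) := fun l =>
    univ.pi (Function.update (fun _ => Metric.closedBall (0 : V) R) l (T \ S)) with hE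
  have hsub : ∀ l i, Function.update (fun _ : Fin (k + 1) => Metric.closedBall (0 : V) R) l
      (T \ S) i ⊆ Metric.closedBall 0 R := by
    intro l i
    by_cases h : i = l
    · subst h
      rw [Function.update_self]
      exact sdiff_subset.trans hb
    · rw [Function.update_of_ne h]
  have hEm : ∀ l, MeasurableSet (E l) := by
    intro l
    refine MeasurableSet.univ_pi fun i => ?_
    by_cases h : i = l
    · subst h
      rw [Function.update_self]
      exact hT.diff hS
    · rw [Function.update_of_ne h]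
      exact measurableSet_closedBall
  have hcov : (univ.pi fun _ : Fin (k + 1) => T) ⊆ (univ.pi fun _ : Fin (k + 1) => S) ∪ ⋃ l, E l := by
    intro y hy
    by_cases h : ∀ l, y l ∈ S
    · exact Or.inl fun l _ => h l
    · push Not at h
      obtain ⟨l, hl⟩ := h
      refine Or.inr (mem_iUnion.2 ⟨l, fun i _ => ?_⟩)
      by_cases h : i = l
      · subst h
        rw [Function.update_self]
        exact ⟨hy i trivial, hl⟩
      · rw [Function.update_of_ne h]
        exact hb (hy i trivial)
  have hvol : ∀ l, (Measure.pi fun _ : Fin (k + 1) => (volume : Measure V)) (E l)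
      = volume (Metric.closedBall (0 : V) R) ^ k * volume (T \ S) := by
    intro l
    rw [hE, Measure.pi_pi, Fin.prod_univ_succAbove _ l, Function.update_self, mul_comm]
    congr 1
    rw [Finset.prod_congr rfl fun i _ => by rw [Function.update_of_ne (Fin.succAbove_ne l i)]]
    simp
  have hbd : ∀ y ∈ ⋃ l, E l, ENNReal.ofReal (D y ^ j) ≤ ENNReal.ofReal (R ^ ((k + 1) * j)) := by
    intro y hy
    obtain ⟨l, hl⟩ := mem_iUnion.1 hy
    refine ENNReal.ofReal_le_ofReal ?_
    rw [pow_mul]
    refine pow_le_pow_left₀ (D_nonneg _) ((D_le_prod y).trans ?_) j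
    calc ∏ i, ‖y i‖ ≤ ∏ _i : Fin (k + 1), R :=
          Finset.prod_le_prod (fun _ _ => norm_nonneg _) fun i _ => by
            simpa using hsub l i (hl i trivial)
      _ = R ^ (k + 1) := by simp
  rw [steinC_JJ, steinC_JJ]
  refine (lintegral_mono_set hcov).trans ((lintegral_union_le _ _ _).trans (add_le_add le_rfl ?_))
  refine (setLIntegral_mono' (MeasurableSet.iUnion hEm) hbd).trans ?_
  rw [setLIntegral_const, mul_assoc, mul_assoc]
  refine mul_le_mul_right ((measure_iUnion_fintype_le _ _).trans (le_of_eq ?_)) _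
  simp [hvol]

theorem steinC_approx (hn : 1 ≤ finrank ℝ V) (k j : ℕ) {S : Set V} (hS : MeasurableSet S) {R : ℝ}
    (hR : 0 < R) (hb : S ⊆ Metric.closedBall 0 R) {ρ : ℝ} (hρR : ρ ≤ R)
    (hρ : volume (Metric.ball (0 : V) ρ) = volume S) {δ : ℝ≥0∞} (hδ : δ ≠ 0) :
    ∃ S' : Set V, MeasurableSet S' ∧ JJ k j S' ≤ JJ k j S ∧ volume (Metric.ball 0 ρ \ S') ≤ δ := by
  by_contra hcon
  push Not at hcon
  set B := Metric.ball (0 : V) ρ with hB
  set C : Set (Set V) := {S' | MeasurableSet S' ∧ S' ⊆ Metric.closedBall 0 R ∧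
    volume S' = volume S ∧ JJ k j S' ≤ JJ k j S} with hC
  have : Nonempty C := ⟨⟨S, hS, hb, rfl, le_rfl⟩⟩
  have hBt : volume B ≠ ∞ := measure_ball_lt_top.ne
  set N := ⨆ s : C, volume ((s : Set V) ∩ B) with hN
  have hNt : N ≠ ∞ :=
    ne_top_of_le_ne_top hBt (iSup_le fun s => measure_mono inter_subset_right)
  set η := δ * δ / (2 * volume (Metric.closedBall (0 : V) (2 * R))) with hη
  have hη0 : η ≠ 0 := ENNReal.div_ne_zero.2
    ⟨mul_ne_zero hδ hδ, ENNReal.mul_ne_top (by simp) measure_closedBall_lt_top.ne⟩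
  have hstep : N + η ≤ N := by
    conv_lhs => rw [hN, ENNReal.iSup_add]
    refine iSup_le fun s => ?_
    obtain ⟨s, h1, h2, h3, h4⟩ := s
    obtain ⟨v, hv, hg⟩ := exists_gain hn h1 hR h2 hρR
    have hd : δ ≤ volume (B \ s) := (hcon s h1 h4).le
    have hsym : volume (s \ B) = volume (B \ s) := by
      have e1 := measure_inter_add_sdiff (μ := volume) s (measurableSet_ball : MeasurableSet B)
      have e2 := measure_inter_add_sdiff (μ := volume) B h1
      rw [inter_comm, hρ, ← h3, ← e1] at e2
      have ht : volume (s ∩ B) ≠ ∞ := ne_top_of_le_ne_top hBt (measure_mono inter_subset_right)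
      exact ((ENNReal.add_right_inj ht).1 e2).symm
    have hmem : St v s ∈ C := ⟨measurableSet_St v h1, St_subset hv h2,
      (volume_St hv h1 h2).trans h3, (JJ_St k j hv h1 h2).trans h4⟩
    refine le_trans (add_le_add le_rfl ?_) (hg.trans
      (le_iSup (fun s : C => volume ((s : Set V) ∩ B)) ⟨_, hmem⟩))
    rw [hη]
    exact ENNReal.div_le_div_right (mul_le_mul' hd (hd.trans hsym.ge)) _
  exact absurd (ENNReal.lt_add_right hNt hη0) (not_lt.2 hstep)

theorem JJ_ball_le (hn : 1 ≤ finrank ℝ V) (k j : ℕ) {S : Set V} (hS : MeasurableSet S) {R : ℝ}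
    (hb : S ⊆ Metric.closedBall 0 R) {ρ : ℝ} (hρ : volume (Metric.ball (0 : V) ρ) = volume S) :
    JJ k j (Metric.ball (0 : V) ρ) ≤ JJ k j S := by
  rcases k with _ | k
  · simp only [JJ]
    rw [Measure.pi_of_empty, Measure.pi_of_empty]
  set R' := max (max R ρ) 1 with hR'
  have h0 : 0 < R' := one_pos.trans_le (le_max_right _ _)
  have h1 : R ≤ R' := (le_max_left _ _).trans (le_max_left _ _)
  have h2 : ρ ≤ R' := (le_max_right _ _).trans (le_max_left _ _)
  set M := ENNReal.ofReal (R' ^ ((k + 1) * j)) * (k + 1 : ℕ)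
    * volume (Metric.closedBall (0 : V) R') ^ k with hM
  have hMt : M ≠ ∞ := ENNReal.mul_ne_top (ENNReal.mul_ne_top ENNReal.ofReal_ne_top (by simp))
    (ENNReal.pow_ne_top measure_closedBall_lt_top.ne)
  refine ENNReal.le_of_forall_pos_le_add fun ε hε _ => ?_
  obtain ⟨S', hm, hJ, hd⟩ := steinC_approx hn (k + 1) j hS h0
    (hb.trans (Metric.closedBall_subset_closedBall h1)) h2 hρ
    (δ := (ε : ℝ≥0∞) / M) (ENNReal.div_ne_zero.2 ⟨by simpa using hε.ne', hMt⟩)
  refine (JJ_le_add k j hm measurableSet_ball h0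
    (Metric.ball_subset_closedBall.trans (Metric.closedBall_subset_closedBall h2))).trans
    (add_le_add hJ ?_)
  exact (mul_le_mul_right hd M).trans ENNReal.mul_div_le

end Pool.Agent.P.MP_181257_gt
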