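import Pool.Agent.P.MP_181257_gt.Basic

/-! Maclaurin and AM-GM bounds for elementary symmetric sums. -/

set_option autoImplicit false
set_option linter.unusedSectionVars false

open MeasureTheory ProbabilityTheory Module Set Filter Topology
open scoped RealInnerProductSpace ENNReal Pointwise Matrix

noncomputable section

namespace Pool.Agent.P.MP_181257_gt

variable {V : Type} [NormedAddCommGroup V] [InnerProductSpace ℝ V] [FiniteDimensional ℝ V]
  [MeasurableSpace V] [BorelSpace V]

/-- `k!` times the `k`-th elementary symmetric function -/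
def inj {m : ℕ} (k : ℕ) (r : Fin m → ℝ) : ℝ := by
  classical
  exact ∑ l ∈ Finset.univ.filter (fun l : Fin k → Fin m => Function.Injective l), ∏ j, r (l j)

theorem card_fiber {m k : ℕ} (S : Finset (Fin m)) (hS : S.card = k) :
    ((Finset.univ.filter (fun l : Fin k → Fin m => Function.Injective l)).filter
      (fun l => Finset.univ.image l = S)).card = k.factorial := by
  classical
  have h1 : (Finset.univ : Finset (Fin k ↪ S)).card = k.factorial := by
    rw [Finset.card_univ, Fintype.card_embedding_eq]
    simp [hS, Nat.descFactorial_self]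
  rw [← h1]
  symm
  refine Finset.card_bij (fun e _ => fun j => (e j : Fin m)) ?_ ?_ ?_
  · intro e _
    have hi : Function.Injective (fun j => (e j : Fin m)) :=
      Subtype.val_injective.comp e.injective
    simp only [Finset.mem_filter, Finset.mem_univ, true_and]
    refine ⟨hi, Finset.eq_of_subset_of_card_le ?_ ?_⟩
    · intro a ha
      obtain ⟨j, -, rfl⟩ := Finset.mem_image.1 ha
      exact (e j).2
    · rw [Finset.card_image_of_injective _ hi]; simp [hS]
  · intro e₁ _ e₂ _ h
    ext j
    exact congrArg Fin.val (congrFun h j)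
  · intro l hl
    simp only [Finset.mem_filter, Finset.mem_univ, true_and] at hl
    refine ⟨⟨fun j => ⟨l j, ?_⟩, fun a b h => hl.1 (congrArg Subtype.val h)⟩, Finset.mem_univ _, rfl⟩
    rw [← hl.2]; exact Finset.mem_image_of_mem _ (Finset.mem_univ _)

theorem inj_eq {m : ℕ} (k : ℕ) (r : Fin m → ℝ) :
    inj k r = (k.factorial : ℝ) * ∑ S ∈ Finset.powersetCard k Finset.univ, ∏ a ∈ S, r a := by
  classical
  unfold inj
  rw [Finset.mul_sum, ← Finset.sum_fiberwise_of_maps_to
    (t := Finset.powersetCard k (Finset.univ : Finset (Fin m))) (g := fun l => Finset.univ.image l)]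
  · refine Finset.sum_congr rfl fun S hS => ?_
    have hc : S.card = k := (Finset.mem_powersetCard.1 hS).2
    rw [Finset.sum_congr rfl (g := fun _ => ∏ a ∈ S, r a), Finset.sum_const, nsmul_eq_mul]
    · congr 2
      convert card_fiber S hc
    · intro l hl
      simp only [Finset.mem_filter, Finset.mem_univ, true_and] at hl
      rw [← hl.2, Finset.prod_image fun a _ b _ h => hl.1 h]
  · intro l hl
    simp only [Finset.mem_filter, Finset.mem_univ, true_and] at hl
    refine Finset.mem_powersetCard.2 ⟨Finset.subset_univ _, ?_⟩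
    rw [Finset.card_image_of_injective _ hl]; simp

theorem tangent (k : ℕ) {A y : ℝ} (hA : 0 ≤ A) (hy : 0 ≤ y) :
    A ^ (k + 1) + (k + 1 : ℝ) * A ^ k * (y - A) ≤ y ^ (k + 1) := by
  induction k with
  | zero => simp
  | succ k ih =>
    have h1 : y * (A ^ (k + 1) + (k + 1 : ℝ) * A ^ k * (y - A)) ≤ y * y ^ (k + 1) :=
      mul_le_mul_of_nonneg_left ih hy
    have h2 : 0 ≤ (k + 1 : ℝ) * A ^ k * (y - A) ^ 2 := by positivity
    have h3 : y * (A ^ (k + 1) + (k + 1 : ℝ) * A ^ k * (y - A)) =
        A ^ (k + 1 + 1) + ((k + 1 : ℕ) + 1 : ℝ) * A ^ (k + 1) * (y - A)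
          + (k + 1 : ℝ) * A ^ k * (y - A) ^ 2 := by
      push_cast; ring
    calc _ ≤ y * (A ^ (k + 1) + (k + 1 : ℝ) * A ^ k * (y - A)) := by rw [h3]; linarith
      _ ≤ _ := by rw [pow_succ' y (k + 1)]; exact h1

theorem maclaurin {α : Type} [DecidableEq α] {r : α → ℝ} (hr : ∀ l, 0 ≤ r l) (T : Finset α) :
    ∀ k : ℕ, ∑ S ∈ Finset.powersetCard k T, ∏ a ∈ S, r a ≤
      (T.card.choose k : ℝ) * ((∑ a ∈ T, r a) / T.card) ^ k := by
  induction T using Finset.induction_on with
  | empty =>
    intro k
    cases k with
    | zero => simp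
    | succ k =>
      rw [Finset.powersetCard_eq_empty.2 (by simp)]
      simp
  | insert x T hx ih =>
    intro k
    cases k with
    | zero => simp
    | succ k =>
      have hd : Disjoint (Finset.powersetCard (k + 1) T)
          ((Finset.powersetCard k T).image (insert x)) := by
        refine Finset.disjoint_left.2 fun S h1 h2 => ?_
        obtain ⟨U, -, rfl⟩ := Finset.mem_image.1 h2
        exact hx ((Finset.mem_powersetCard.1 h1).1 (Finset.mem_insert_self _ _))
      have hn : ∀ U ∈ Finset.powersetCard k T, x ∉ U := fun U hU h =>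
        hx ((Finset.mem_powersetCard.1 hU).1 h)
      have e := Finset.powersetCard_succ_insert hx k
      rw [Nat.succ_eq_add_one] at e
      rw [e, Finset.sum_union hd, Finset.sum_image, Finset.card_insert_of_notMem hx,
        Finset.sum_insert hx]
      swap
      · intro U hU U' hU' h
        have := congrArg (fun W => Finset.erase W x) h
        simpa [Finset.erase_insert (hn U hU), Finset.erase_insert (hn U' hU')] using this
      rw [Finset.sum_congr rfl fun U hU => Finset.prod_insert (f := r) (hn U hU), ← Finset.mul_sum]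
      set t := T.card with ht
      set s := ∑ a ∈ T, r a with hs
      set A := s / t with hA
      have hs0 : 0 ≤ s := Finset.sum_nonneg fun a _ => hr a
      have hA0 : 0 ≤ A := by positivity
      have hsA : s = t * A := by
        rcases Nat.eq_zero_or_pos t with h | h
        · have : T = ∅ := Finset.card_eq_zero.1 h
          rw [hs, h, this, Finset.sum_empty, Nat.cast_zero, zero_mul]
        · have : (t : ℝ) ≠ 0 := by positivity
          rw [hA]; field_simp
      have hx0 := hr x
      have ht1 : (0 : ℝ) < t + 1 := Nat.cast_add_one_pos t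
      have h1 := tangent k hA0 (y := (r x + s) / (t + 1)) (div_nonneg (add_nonneg hx0 hs0) ht1.le)
      have c1 : ((t : ℝ) + 1) * t.choose k = (t + 1).choose (k + 1) * (k + 1) := by
        have := congrArg (Nat.cast (R := ℝ)) (Nat.add_one_mul_choose_eq t k)
        rw [Nat.cast_mul, Nat.cast_mul, Nat.cast_add, Nat.cast_add, Nat.cast_one] at this
        exact this
      have c2 : ((t + 1).choose (k + 1) : ℝ) = t.choose k + t.choose (k + 1) := by
        rw [Nat.choose_succ_succ' t k, Nat.cast_add]
      have hy : (r x + s) / (t + 1) - A = (r x - A) / (t + 1) := by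
        clear_value A s
        rw [hsA]; field_simp; ring
      have c3 : ((t + 1).choose (k + 1) : ℝ) * ((k + 1) * A ^ k * ((r x - A) / (t + 1))) =
          t.choose k * (A ^ k * (r x - A)) := by
        clear_value A s
        rw [← mul_assoc, ← mul_assoc, ← c1]; field_simp
      rw [hy] at h1
      have h2 := mul_le_mul_of_nonneg_left h1 (Nat.cast_nonneg (α := ℝ) ((t + 1).choose (k + 1)))
      rw [mul_add, c3] at h2
      have h3 := mul_le_mul_of_nonneg_left (ih k) hx0
      have h4 := ih (k + 1)
      push_cast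
      refine le_trans (add_le_add h4 h3) (le_trans (le_of_eq ?_) h2)
      rw [c2]; ring

theorem inj_le {m k : ℕ} (hk : k ≤ m) {r : Fin m → ℝ} (hr : ∀ l, 0 ≤ r l) :
    inj k r ≤ (m.descFactorial k : ℝ) * ((∑ l, r l) / m) ^ k := by
  have h := maclaurin hr Finset.univ k
  rw [Finset.card_univ, Fintype.card_fin] at h
  rw [inj_eq, Nat.descFactorial_eq_factorial_mul_choose]
  push_cast
  rw [mul_assoc]
  exact mul_le_mul_of_nonneg_left h (Nat.cast_nonneg _)

theorem card_inj (m k : ℕ) :
    (Finset.univ.filter (fun l : Fin k → Fin m => Function.Injective l)).card =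
      m.descFactorial k := by
  have h := inj_eq k (fun _ : Fin m => (1 : ℝ))
  unfold inj at h
  simp only [Finset.prod_const_one, Finset.sum_const, nsmul_eq_mul, mul_one,
    Finset.card_powersetCard, Finset.card_univ, Fintype.card_fin] at h
  rw [Nat.descFactorial_eq_factorial_mul_choose]
  have h' : (((Finset.univ.filter (fun l : Fin k → Fin m => Function.Injective l)).card : ℕ) : ℝ) =
      ((k.factorial * m.choose k : ℕ) : ℝ) := by
    push_cast
    convert h
  exact_mod_cast h'

theorem sum_inj {m k : ℕ} (φ : Fin m → ℝ) (j : Fin k) :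
    (m : ℝ) * ∑ l ∈ Finset.univ.filter (fun l : Fin k → Fin m => Function.Injective l), φ (l j) =
      (m.descFactorial k : ℝ) * ∑ a, φ a := by
  rcases Nat.eq_zero_or_pos m with rfl | hm
  · simp
  haveI : NeZero m := ⟨hm.ne'⟩
  have h1 : ∀ c : Fin m,
      ∑ l ∈ Finset.univ.filter (fun l : Fin k → Fin m => Function.Injective l), φ (l j) =
      ∑ l ∈ Finset.univ.filter (fun l : Fin k → Fin m => Function.Injective l), φ (l j + c) := by
    intro c
    symm
    refine Finset.sum_nbij' (fun l i => l i + c) (fun l i => l i - c) ?_ ?_ ?_ ?_ ?_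
    · intro l hl
      simp only [Finset.mem_filter, Finset.mem_univ, true_and] at hl ⊢
      exact fun a b h => hl (add_right_cancel h)
    · intro l hl
      simp only [Finset.mem_filter, Finset.mem_univ, true_and] at hl ⊢
      exact fun a b h => hl (sub_left_injective h)
    · intro l _; funext i; simp
    · intro l _; funext i; simp
    · intro l _; rfl
  calc _ = ∑ c : Fin m,
        ∑ l ∈ Finset.univ.filter (fun l : Fin k → Fin m => Function.Injective l), φ (l j) := by
        simp
    _ = ∑ l ∈ Finset.univ.filter (fun l : Fin k → Fin m => Function.Injective l),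
        ∑ c : Fin m, φ (l j + c) := by
        rw [Finset.sum_congr rfl fun c _ => h1 c, Finset.sum_comm]
    _ = ∑ l ∈ Finset.univ.filter (fun l : Fin k → Fin m => Function.Injective l), ∑ a, φ a :=
        Finset.sum_congr rfl fun l _ => Equiv.sum_comp (Equiv.addLeft (l j)) φ
    _ = _ := by rw [Finset.sum_const, card_inj, nsmul_eq_mul]

theorem le_inj {m k : ℕ} (hk : k ≤ m) {r : Fin m → ℝ} (hr : ∀ l, 0 < r l) :
    (m.descFactorial k : ℝ) * (∏ l, r l) ^ ((k : ℝ) / m) ≤ inj k r := by
  rcases Nat.eq_zero_or_pos k with rfl | hk0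
  · simp [inj_eq]
  have hm : (0 : ℝ) < m := by exact_mod_cast hk0.trans_le hk
  have hN : (0 : ℝ) < m.descFactorial k := by exact_mod_cast Nat.descFactorial_pos.2 hk
  set F := Finset.univ.filter (fun l : Fin k → Fin m => Function.Injective l) with hF
  set N : ℝ := (m.descFactorial k : ℝ) with hNd
  have hc : (F.card : ℝ) = N := by rw [hF, card_inj]
  have hp : ∀ l : Fin k → Fin m, 0 < ∏ j, r (l j) := fun l => Finset.prod_pos fun j _ => hr _
  have h := Real.geom_mean_le_arith_mean_weighted F (fun _ => N⁻¹) (fun l => ∏ j, r (l j))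
    (fun _ _ => by positivity) (by rw [Finset.sum_const, nsmul_eq_mul, hc]; field_simp)
    (fun l _ => (hp l).le)
  have e1 : ∏ l ∈ F, (∏ j, r (l j)) ^ N⁻¹ = (∏ l, r l) ^ ((k : ℝ) / m) := by
    have hP : 0 < ∏ l, r l := Finset.prod_pos fun l _ => hr l
    apply Real.log_injOn_pos (Finset.prod_pos fun l _ => Real.rpow_pos_of_pos (hp l) _)
      (Real.rpow_pos_of_pos hP _)
    rw [Real.log_prod fun l _ => (Real.rpow_pos_of_pos (hp l) _).ne', Real.log_rpow hP,
      Real.log_prod fun l _ => (hr l).ne']
    rw [Finset.sum_congr rfl fun l _ => Real.log_rpow (hp l) _,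
      Finset.sum_congr rfl fun l _ => congrArg (N⁻¹ * ·)
        (Real.log_prod (s := Finset.univ) (f := fun j => r (l j)) fun j _ => (hr (l j)).ne'),
      ← Finset.mul_sum, Finset.sum_comm]
    have e2 : ∀ j : Fin k, ∑ l ∈ F, Real.log (r (l j)) = N * (∑ a, Real.log (r a)) / m := by
      intro j
      rw [eq_div_iff hm.ne', mul_comm]
      exact sum_inj (fun a => Real.log (r a)) j
    rw [Finset.sum_congr rfl fun j _ => e2 j]
    simp only [Finset.sum_const, Finset.card_univ, Fintype.card_fin, nsmul_eq_mul]
    field_simp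
  rw [e1, ← Finset.mul_sum] at h
  have e3 : inj k r = ∑ l ∈ F, ∏ j, r (l j) := by
    unfold inj
    congr
  rw [e3]
  calc _ ≤ N * (N⁻¹ * ∑ l ∈ F, ∏ j, r (l j)) := mul_le_mul_of_nonneg_left h hN.le
    _ = _ := by field_simp

end Pool.Agent.P.MP_181257_gt
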