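import Pool.Agent.P.MP_181257_gt.Basic

/-! First variation of a smoothed volume under Minkowski addition. -/

set_option autoImplicit false
set_option linter.unusedSectionVars false

open MeasureTheory ProbabilityTheory Module Set Filter Topology
open scoped RealInnerProductSpace ENNReal Pointwise Matrix

noncomputable section

namespace Pool.Agent.P.MP_181257_gt

variable {V : Type} [NormedAddCommGroup V] [InnerProductSpace ℝ V] [FiniteDimensional ℝ V]
  [MeasurableSpace V] [BorelSpace V]

/-- the Lipschitz bump of height `η` over `C` -/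
def bump {d : ℕ} (η : ℝ) (C : Set (Fin d → ℝ)) (x : Fin d → ℝ) : ℝ :=
  max (η - Metric.infDist x C) 0

theorem var_lip {d : ℕ} (η : ℝ) (C : Set (Fin d → ℝ)) : LipschitzWith 1 (bump η C) := by
  refine LipschitzWith.of_le_add fun x y => ?_
  have h : Metric.infDist y C ≤ Metric.infDist x C + dist y x :=
    Metric.infDist_le_infDist_add_dist
  rw [dist_comm] at h
  have h0 : 0 ≤ dist x y := dist_nonneg
  unfold bump
  refine max_le ?_ ?_
  · have := le_max_left (η - Metric.infDist y C) 0
    linarith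
  · have := le_max_right (η - Metric.infDist y C) 0
    linarith

theorem var_bump_nonneg {d : ℕ} (η : ℝ) (C : Set (Fin d → ℝ)) (x : Fin d → ℝ) :
    0 ≤ bump η C x := le_max_right _ _

theorem var_zero_far {d : ℕ} (η : ℝ) {C : Set (Fin d → ℝ)} (hC : IsCompact C)
    (hne : C.Nonempty) {R : ℝ} (hR : ∀ c ∈ C, ‖c‖ ≤ R) {x : Fin d → ℝ}
    (hx : x ∉ Metric.closedBall (0 : Fin d → ℝ) (R + η)) : bump η C x = 0 := by
  obtain ⟨c, hc, he⟩ := hC.exists_infDist_eq_dist hne x
  rw [mem_closedBall_zero_iff, not_le] at hx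
  have h1 : ‖x‖ - ‖c‖ ≤ ‖x - c‖ := norm_sub_norm_le x c
  have h2 := hR c hc
  unfold bump
  rw [he, dist_eq_norm]
  exact max_eq_right (by linarith)

theorem var_compactSupport {d : ℕ} (η : ℝ) {C : Set (Fin d → ℝ)} (hC : IsCompact C)
    (hne : C.Nonempty) : HasCompactSupport (bump η C) := by
  obtain ⟨R, hR⟩ := hC.isBounded.exists_norm_le
  exact HasCompactSupport.intro (isCompact_closedBall (0 : Fin d → ℝ) (R + η))
    fun x hx => var_zero_far η hC hne hR hx

theorem integrable_bump {d : ℕ} (η : ℝ) {C : Set (Fin d → ℝ)} (hC : IsCompact C)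
    (hne : C.Nonempty) : Integrable (bump η C) :=
  (var_lip η C).continuous.integrable_of_hasCompactSupport (var_compactSupport η hC hne)

theorem norm_fderiv_bump_le {d : ℕ} (η : ℝ) (C : Set (Fin d → ℝ)) (x : Fin d → ℝ) :
    ‖fderiv ℝ (bump η C) x‖ ≤ 1 := by
  simpa using norm_fderiv_le_of_lipschitz ℝ (x₀ := x) (var_lip η C)

theorem integrable_norm_fderiv_bump {d : ℕ} (η : ℝ) {C : Set (Fin d → ℝ)} (hC : IsCompact C)
    (hne : C.Nonempty) : Integrable fun x => ‖fderiv ℝ (bump η C) x‖ := by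
  have hs : IsCompact (tsupport (bump η C)) := var_compactSupport η hC hne
  have hsub : Function.support (fun x => ‖fderiv ℝ (bump η C) x‖) ⊆ tsupport (bump η C) := by
    intro x hx
    apply support_fderiv_subset ℝ
    intro h
    apply hx
    simp [h]
  rw [← integrableOn_iff_integrable_of_support_subset hsub]
  refine Measure.integrableOn_of_bounded (M := 1) hs.measure_lt_top.ne ?_ ?_
  · exact (measurable_fderiv ℝ (bump η C)).norm.aestronglyMeasurable
  · refine Eventually.of_forall fun x => ?_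
    rw [norm_norm]
    exact norm_fderiv_bump_le η C x

theorem var_le_add {d : ℕ} (η t : ℝ) {C M : Set (Fin d → ℝ)} (hC : IsCompact C)
    (hne : C.Nonempty) {m : Fin d → ℝ} (hm : m ∈ M) (x : Fin d → ℝ) :
    bump η C (x - t • m) ≤ bump η (C + t • M) x := by
  obtain ⟨c, hc, he⟩ := hC.exists_infDist_eq_dist hne (x - t • m)
  have h1 : Metric.infDist x (C + t • M) ≤ dist x (c + t • m) :=
    Metric.infDist_le_dist_of_mem (Set.add_mem_add hc (Set.smul_mem_smul_set hm))
  have h2 : dist x (c + t • m) = dist (x - t • m) c := by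
    rw [dist_eq_norm, dist_eq_norm]
    congr 1
    abel
  unfold bump
  refine max_le_max ?_ le_rfl
  linarith

theorem var_exists_eq {d : ℕ} (η t : ℝ) {C M : Set (Fin d → ℝ)} (hC : IsCompact C)
    (hne : C.Nonempty) (hM : IsCompact M) (hMne : M.Nonempty) (x : Fin d → ℝ) :
    ∃ m ∈ M, bump η (C + t • M) x = bump η C (x - t • m) := by
  obtain ⟨y, hy, he⟩ := (hC.add (hM.smul t)).exists_infDist_eq_dist (hne.add (hMne.smul_set)) x
  obtain ⟨c, hc, z, ⟨m, hm, rfl⟩, rfl⟩ := hy
  refine ⟨m, hm, le_antisymm ?_ (var_le_add η t hC hne hm x)⟩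
  have h1 : Metric.infDist (x - t • m) C ≤ dist (x - t • m) c := Metric.infDist_le_dist_of_mem hc
  have h2 : dist x (c + t • m) = dist (x - t • m) c := by
    rw [dist_eq_norm, dist_eq_norm]
    congr 1
    abel
  unfold bump
  refine max_le_max ?_ le_rfl
  simp only at he
  linarith

theorem var_pointwise {d : ℕ} (η : ℝ) {C M : Set (Fin d → ℝ)} (hC : IsCompact C)
    (hne : C.Nonempty) (hM : IsCompact M) {H : ((Fin d → ℝ) →L[ℝ] ℝ) → ℝ}
    (hH : ∀ ℓ : (Fin d → ℝ) →L[ℝ] ℝ, IsGreatest (ℓ '' M) (H ℓ)) {x : Fin d → ℝ}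
    (hx : DifferentiableAt ℝ (bump η C) x) :
    Tendsto (fun t : ℝ => (bump η (C + t • M) x - bump η C x) / t) (𝓝[>] 0)
      (𝓝 (H (-fderiv ℝ (bump η C) x))) := by
  obtain ⟨R0, hR0⟩ := hM.isBounded.exists_norm_le
  set R := max R0 1 with hRdef
  have hR : ∀ m ∈ M, ‖m‖ ≤ R := fun m hm => (hR0 m hm).trans (le_max_left _ _)
  have hRpos : 0 < R := lt_of_lt_of_le one_pos (le_max_right _ _)
  set D := fderiv ℝ (bump η C) x with hD
  obtain ⟨⟨m0, hm0, hm0e⟩, hup⟩ := hH (-D)
  have hMne : M.Nonempty := ⟨m0, hm0⟩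
  have hlo := (hasFDerivAt_iff_isLittleO_nhds_zero.1 hx.hasFDerivAt)
  rw [Metric.tendsto_nhdsWithin_nhds]
  intro ε hε
  have hev := hlo.def (c := ε / (2 * R)) (by positivity)
  obtain ⟨δ, hδ, hb⟩ := Metric.eventually_nhds_iff.1 hev
  refine ⟨δ / R, by positivity, fun {t} ht htd => ?_⟩
  have ht0 : 0 < t := ht
  rw [dist_zero_right, Real.norm_eq_abs, abs_of_pos ht0, lt_div_iff₀ hRpos] at htd
  have key : ∀ m ∈ M, |bump η C (x - t • m) - bump η C x - t * (-D) m| ≤ t * (ε / 2) := by
    intro m hm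
    have hn : ‖-(t • m)‖ ≤ t * R := by
      rw [norm_neg, norm_smul, Real.norm_eq_abs, abs_of_pos ht0]
      exact mul_le_mul_of_nonneg_left (hR m hm) ht0.le
    have h1 := hb (y := -(t • m)) (by rw [dist_zero_right]; exact hn.trans_lt htd)
    rw [Real.norm_eq_abs, ← sub_eq_add_neg, ← hD] at h1
    have h2 : D (-(t • m)) = t * (-D) m := by simp
    rw [h2] at h1
    refine h1.trans ?_
    calc ε / (2 * R) * ‖-(t • m)‖ ≤ ε / (2 * R) * (t * R) := by gcongr
      _ = t * (ε / 2) := by field_simp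
  obtain ⟨m1, hm1, he⟩ := var_exists_eq η t hC hne hM hMne x
  have hA := abs_le.1 (key m1 hm1)
  have hB := abs_le.1 (key m0 hm0)
  have hC1 := var_le_add η t hC hne hm0 x
  have hD1 : (-D) m1 ≤ H (-D) := hup ⟨m1, hm1, rfl⟩
  have hD2 : t * (-D) m1 ≤ t * H (-D) := mul_le_mul_of_nonneg_left hD1 ht0.le
  rw [hm0e] at hB
  rw [Real.dist_eq]
  have h3 : (bump η (C + t • M) x - bump η C x) / t - H (-D)
      = (bump η (C + t • M) x - bump η C x - t * H (-D)) / t := by
    field_simp
  rw [h3, abs_div, abs_of_pos ht0, div_lt_iff₀ ht0]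
  have h4 : |bump η (C + t • M) x - bump η C x - t * H (-D)| ≤ t * (ε / 2) := by
    rw [abs_le]
    constructor
    · linarith [hB.1]
    · rw [he]
      linarith [hA.2]
  have h5 : 0 < t * ε := mul_pos ht0 hε
  linarith

theorem first_variation {d : ℕ} (η : ℝ) {C M : Set (Fin d → ℝ)} (hC : IsCompact C)
    (hne : C.Nonempty) (hM : IsCompact M) {H : ((Fin d → ℝ) →L[ℝ] ℝ) → ℝ}
    (hH : ∀ ℓ : (Fin d → ℝ) →L[ℝ] ℝ, IsGreatest (ℓ '' M) (H ℓ)) :
    Tendsto (fun t : ℝ => ((∫ x, bump η (C + t • M) x) - ∫ x, bump η C x) / t) (𝓝[>] 0)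
      (𝓝 (∫ x, H (-fderiv ℝ (bump η C) x))) := by
  obtain ⟨R0, hR0⟩ := hM.isBounded.exists_norm_le
  obtain ⟨S, hS⟩ := hC.isBounded.exists_norm_le
  set R := max R0 0 with hRdef
  have hR : ∀ m ∈ M, ‖m‖ ≤ R := fun m hm => (hR0 m hm).trans (le_max_left _ _)
  have hRn : 0 ≤ R := le_max_right _ _
  obtain ⟨⟨m0, hm0, -⟩, -⟩ := hH 0
  have hMne : M.Nonempty := ⟨m0, hm0⟩
  have hint : ∀ t : ℝ, Integrable (bump η (C + t • M)) := fun t =>
    integrable_bump η (hC.add (hM.smul t)) (hne.add hMne.smul_set)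
  have h1 : (fun t : ℝ => ((∫ x, bump η (C + t • M) x) - ∫ x, bump η C x) / t)
      = fun t : ℝ => ∫ x, (bump η (C + t • M) x - bump η C x) / t := by
    funext t
    rw [integral_div, integral_sub (hint t) (integrable_bump η hC hne)]
  rw [h1]
  refine tendsto_integral_filter_of_dominated_convergence
    ((Metric.closedBall (0 : Fin d → ℝ) (S + R + η)).indicator fun _ => R) ?_ ?_ ?_ ?_
  · refine Eventually.of_forall fun t => ?_
    exact (((var_lip η (C + t • M)).continuous.sub (var_lip η C).continuous).div_const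
      t).aestronglyMeasurable
  · filter_upwards [Ioc_mem_nhdsGT (zero_lt_one' ℝ)] with t ht
    refine Eventually.of_forall fun x => ?_
    by_cases hx : x ∈ Metric.closedBall (0 : Fin d → ℝ) (S + R + η)
    · rw [indicator_of_mem hx]
      obtain ⟨m, hm, he⟩ := var_exists_eq η t hC hne hM hMne x
      have h2 := (var_lip η C).dist_le_mul (x - t • m) x
      rw [Real.dist_eq, dist_eq_norm, NNReal.coe_one, one_mul, sub_sub_cancel_left, norm_neg,
        norm_smul, Real.norm_eq_abs, abs_of_pos ht.1] at h2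
      rw [he, Real.norm_eq_abs, abs_div, abs_of_pos ht.1, div_le_iff₀ ht.1, mul_comm]
      exact h2.trans (mul_le_mul_of_nonneg_left (hR m hm) ht.1.le)
    · rw [indicator_of_notMem hx]
      have h2 : bump η C x = 0 :=
        var_zero_far η hC hne (R := S + R) (fun c hc => by linarith [hS c hc]) hx
      have h3 : bump η (C + t • M) x = 0 := by
        refine var_zero_far η (hC.add (hM.smul t)) (hne.add hMne.smul_set) (R := S + R) ?_ hx
        rintro _ ⟨c, hc, z, ⟨m, hm, rfl⟩, rfl⟩
        refine (norm_add_le _ _).trans (add_le_add (hS c hc) ?_)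
        rw [norm_smul, Real.norm_eq_abs, abs_of_pos ht.1]
        calc t * ‖m‖ ≤ 1 * R := mul_le_mul ht.2 (hR m hm) (norm_nonneg _) zero_le_one
          _ = R := one_mul R
      simp [h2, h3]
  · rw [integrable_indicator_iff Metric.isClosed_closedBall.measurableSet]
    exact integrableOn_const (isCompact_closedBall _ _).measure_lt_top.ne
  · filter_upwards [(var_lip η C).ae_differentiableAt (μ := volume)] with x hx
    exact var_pointwise η hC hne hM hH hx

/-- the shrunken bump -/
def varB {d : ℕ} (η s : ℝ) (Z : Set (Fin d → ℝ)) (x : Fin d → ℝ) : ℝ :=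
  max (η - s * Metric.infDist x Z) 0

theorem var_scale {d : ℕ} (η : ℝ) {s : ℝ} (hs : 0 < s) (Z : Set (Fin d → ℝ)) :
    ∫ x, bump η (s • Z) x = s ^ d * ∫ x, varB η s Z x := by
  have h := Measure.integral_comp_smul (volume : Measure (Fin d → ℝ)) (bump η (s • Z)) s
  have h2 : (fun x => bump η (s • Z) (s • x)) = varB η s Z := by
    funext x
    unfold bump varB
    rw [infDist_smul₀ hs.ne', Real.norm_eq_abs, abs_of_pos hs]
  have hp : 0 < s ^ d := pow_pos hs d
  rw [h2, Module.finrank_fin_fun, abs_of_pos (inv_pos.2 hp), smul_eq_mul] at h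
  rw [h, ← mul_assoc, mul_inv_cancel₀ hp.ne', one_mul]

theorem var_diff_bounds {d : ℕ} {η t : ℝ} (hη : 0 < η) (ht : 0 ≤ t) {Z : Set (Fin d → ℝ)}
    (hne : Z.Nonempty) (x : Fin d → ℝ) :
    0 ≤ bump η Z x - varB η (1 + t) Z x ∧
      bump η Z x - varB η (1 + t) Z x
        ≤ (Metric.cthickening η Z \ Z).indicator (fun _ => t * η) x := by
  have h0 : 0 ≤ Metric.infDist x Z := Metric.infDist_nonneg
  have h1 : 0 ≤ t * Metric.infDist x Z := mul_nonneg ht h0
  constructor
  · unfold bump varB
    have : max (η - (1 + t) * Metric.infDist x Z) 0 ≤ max (η - Metric.infDist x Z) 0 :=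
      max_le_max (by linarith) le_rfl
    linarith
  · by_cases hx : x ∈ Z
    · have : (Metric.cthickening η Z \ Z).indicator (fun _ => t * η) x = 0 :=
        indicator_of_notMem (fun h => h.2 hx) _
      rw [this]
      unfold bump varB
      rw [Metric.infDist_zero_of_mem hx]
      simp
    · by_cases hlt : Metric.infDist x Z < η
      · have hm : x ∈ Metric.cthickening η Z \ Z :=
          ⟨Metric.thickening_subset_cthickening _ _
            ((Metric.mem_thickening_iff_infDist_lt hne).2 hlt), hx⟩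
        rw [indicator_of_mem hm]
        unfold bump varB
        have h2 : t * Metric.infDist x Z ≤ t * η := mul_le_mul_of_nonneg_left hlt.le ht
        rw [max_eq_left (by linarith : 0 ≤ η - Metric.infDist x Z)]
        have := le_max_left (η - (1 + t) * Metric.infDist x Z) 0
        linarith
      · have h2 : bump η Z x = 0 := max_eq_right (by linarith [not_lt.1 hlt])
        have h3 : 0 ≤ varB η (1 + t) Z x := le_max_right _ _
        have h4 : 0 ≤ (Metric.cthickening η Z \ Z).indicator (fun _ => t * η) x :=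
          indicator_nonneg (fun _ _ => mul_nonneg ht hη.le) x
        linarith

theorem var_integrable_varB {d : ℕ} {η t : ℝ} (hη : 0 < η) (ht : 0 ≤ t) {Z : Set (Fin d → ℝ)}
    (hZ : IsCompact Z) (hne : Z.Nonempty) : Integrable (varB η (1 + t) Z) := by
  refine (integrable_bump η hZ hne).mono' ?_ (Eventually.of_forall fun x => ?_)
  · have : Continuous (varB η (1 + t) Z) :=
      (continuous_const.sub (continuous_const.mul (Metric.continuous_infDist_pt Z))).max
        continuous_const
    exact this.aestronglyMeasurable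
  · have h3 : 0 ≤ varB η (1 + t) Z x := le_max_right _ _
    rw [Real.norm_eq_abs, abs_of_nonneg h3]
    linarith [(var_diff_bounds hη ht hne x).1]

theorem var_int_diff {d : ℕ} {η t : ℝ} (hη : 0 < η) (ht : 0 ≤ t) {Z : Set (Fin d → ℝ)}
    (hZ : IsCompact Z) (hne : Z.Nonempty) :
    0 ≤ (∫ x, bump η Z x) - ∫ x, varB η (1 + t) Z x ∧
      (∫ x, bump η Z x) - ∫ x, varB η (1 + t) Z x
        ≤ (volume.real (Metric.cthickening η Z) - volume.real Z) * (t * η) := by
  have hi1 := integrable_bump η hZ hne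
  have hi2 := var_integrable_varB hη ht hZ hne
  have hK : IsCompact (Metric.cthickening η Z) := hZ.cthickening
  have hmeas : MeasurableSet (Metric.cthickening η Z \ Z) :=
    hK.measurableSet.diff hZ.measurableSet
  rw [← integral_sub hi1 hi2]
  refine ⟨integral_nonneg fun x => (var_diff_bounds hη ht hne x).1, ?_⟩
  have hi3 : Integrable ((Metric.cthickening η Z \ Z).indicator fun _ => t * η) := by
    rw [integrable_indicator_iff hmeas]
    exact integrableOn_const ((measure_mono sdiff_subset).trans_lt hK.measure_lt_top).ne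
  refine (integral_mono (hi1.sub hi2) hi3 fun x => (var_diff_bounds hη ht hne x).2).trans ?_
  rw [integral_indicator_const _ hmeas, smul_eq_mul,
    measureReal_sdiff (Metric.self_subset_cthickening Z) hZ.measurableSet hK.measure_lt_top.ne]

theorem var_int_bounds {d : ℕ} {η : ℝ} (hη : 0 < η) {Z : Set (Fin d → ℝ)}
    (hZ : IsCompact Z) (hne : Z.Nonempty) :
    volume.real Z * η ≤ ∫ x, bump η Z x ∧
      ∫ x, bump η Z x ≤ volume.real (Metric.cthickening η Z) * η := by
  have hi1 := integrable_bump η hZ hne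
  have hK : IsCompact (Metric.cthickening η Z) := hZ.cthickening
  constructor
  · have hi3 : Integrable (Z.indicator fun _ => η) := by
      rw [integrable_indicator_iff hZ.measurableSet]
      exact integrableOn_const hZ.measure_lt_top.ne
    have := integral_mono hi3 hi1 fun x => by
      by_cases hx : x ∈ Z
      · rw [indicator_of_mem hx]
        unfold bump
        rw [Metric.infDist_zero_of_mem hx, sub_zero]
        exact le_max_left _ _
      · rw [indicator_of_notMem hx]
        exact var_bump_nonneg η Z x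
    rwa [integral_indicator_const _ hZ.measurableSet, smul_eq_mul] at this
  · have hi3 : Integrable ((Metric.cthickening η Z).indicator fun _ => η) := by
      rw [integrable_indicator_iff hK.measurableSet]
      exact integrableOn_const hK.measure_lt_top.ne
    have := integral_mono hi1 hi3 fun x => by
      have h0 : 0 ≤ Metric.infDist x Z := Metric.infDist_nonneg
      by_cases hx : x ∈ Metric.cthickening η Z
      · rw [indicator_of_mem hx]
        exact max_le (by linarith) hη.le
      · rw [indicator_of_notMem hx]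
        have : ¬ Metric.infDist x Z < η := fun hlt =>
          hx (Metric.thickening_subset_cthickening _ _
            ((Metric.mem_thickening_iff_infDist_lt hne).2 hlt))
        exact max_le (by linarith [not_lt.1 this]) le_rfl
    rwa [integral_indicator_const _ hK.measurableSet, smul_eq_mul] at this

theorem var_limit_bounds {d : ℕ} {η : ℝ} (hη : 0 < η) {Z : Set (Fin d → ℝ)} (hZ : IsCompact Z)
    (hc : Convex ℝ Z) {H : ((Fin d → ℝ) →L[ℝ] ℝ) → ℝ}
    (hH : ∀ ℓ : (Fin d → ℝ) →L[ℝ] ℝ, IsGreatest (ℓ '' Z) (H ℓ)) :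
    d * (∫ x, bump η Z x) - (volume.real (Metric.cthickening η Z) - volume.real Z) * η
        ≤ ∫ x, H (-fderiv ℝ (bump η Z) x) ∧
      ∫ x, H (-fderiv ℝ (bump η Z) x) ≤ d * ∫ x, bump η Z x := by
  obtain ⟨⟨m0, hm0, -⟩, -⟩ := hH 0
  have hne : Z.Nonempty := ⟨m0, hm0⟩
  have hfv := first_variation η hZ hne hZ hH
  set Φ := ∫ x, bump η Z x with hΦ
  set w := volume.real (Metric.cthickening η Z) - volume.real Z with hw
  have hslope : Tendsto (fun t : ℝ => t⁻¹ * ((1 + t) ^ d - 1)) (𝓝[>] 0) (𝓝 (d : ℝ)) := by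
    have := (hasDerivAt_pow d (1 : ℝ)).tendsto_slope_zero_right
    simpa using this
  have hpow : Tendsto (fun t : ℝ => (1 + t) ^ d) (𝓝[>] 0) (𝓝 1) := by
    have : Continuous fun t : ℝ => (1 + t) ^ d := by fun_prop
    have h2 := this.tendsto 0
    simp only [add_zero, one_pow] at h2
    exact h2.mono_left nhdsWithin_le_nhds
  have hq : ∀ t : ℝ, 0 < t → ((∫ x, bump η (Z + t • Z) x) - Φ) / t
      = t⁻¹ * ((1 + t) ^ d - 1) * Φ
        - (1 + t) ^ d * ((Φ - ∫ x, varB η (1 + t) Z x) / t) := by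
    intro t ht
    have h1 : Z + t • Z = (1 + t) • Z := by
      rw [hc.add_smul zero_le_one ht.le, one_smul]
    rw [h1, var_scale η (by linarith)]
    field_simp
    ring
  constructor
  · have hl : Tendsto (fun t : ℝ => t⁻¹ * ((1 + t) ^ d - 1) * Φ - (1 + t) ^ d * (w * η))
        (𝓝[>] 0) (𝓝 (d * Φ - 1 * (w * η))) :=
      (hslope.mul_const Φ).sub (hpow.mul_const _)
    rw [one_mul] at hl
    refine le_of_tendsto_of_tendsto hl hfv ?_
    filter_upwards [self_mem_nhdsWithin] with t ht
    have ht0 : 0 < t := ht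
    rw [hq t ht0]
    have h2 := (var_int_diff hη ht0.le hZ hne).2
    have h3 : (Φ - ∫ x, varB η (1 + t) Z x) / t ≤ w * η := by
      rw [div_le_iff₀ ht0]
      linarith
    have h4 : 0 ≤ (1 + t) ^ d := by positivity
    linarith [mul_le_mul_of_nonneg_left h3 h4]
  · refine le_of_tendsto_of_tendsto hfv (hslope.mul_const Φ) ?_
    filter_upwards [self_mem_nhdsWithin] with t ht
    have ht0 : 0 < t := ht
    rw [hq t ht0]
    have h2 := (var_int_diff hη ht0.le hZ hne).1
    have h3 : 0 ≤ (Φ - ∫ x, varB η (1 + t) Z x) / t := div_nonneg h2 ht0.le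
    have h4 : 0 ≤ (1 + t) ^ d := by positivity
    linarith [mul_nonneg h4 h3]

/-- the first variation in the direction of the body itself -/
theorem self_variation {d : ℕ} {Z : Set (Fin d → ℝ)} (hZ : IsCompact Z) (hc : Convex ℝ Z)
    {H : ((Fin d → ℝ) →L[ℝ] ℝ) → ℝ}
    (hH : ∀ ℓ : (Fin d → ℝ) →L[ℝ] ℝ, IsGreatest (ℓ '' Z) (H ℓ)) :
    Tendsto (fun η : ℝ => (∫ x, H (-fderiv ℝ (bump η Z) x)) / η) (𝓝[>] 0)
      (𝓝 (d * volume.real Z)) := by
  obtain ⟨⟨m0, hm0, -⟩, -⟩ := hH 0
  have hne : Z.Nonempty := ⟨m0, hm0⟩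
  have hv : Tendsto (fun η : ℝ => volume.real (Metric.cthickening η Z)) (𝓝[>] 0)
      (𝓝 (volume.real Z)) :=
    ((ENNReal.tendsto_toReal hZ.measure_lt_top.ne).comp
      (tendsto_measure_cthickening_of_isCompact hZ)).mono_left nhdsWithin_le_nhds
  have hd : (0 : ℝ) ≤ d := Nat.cast_nonneg d
  have hlo : Tendsto (fun η : ℝ => d * volume.real Z
      - (volume.real (Metric.cthickening η Z) - volume.real Z)) (𝓝[>] 0)
      (𝓝 (d * volume.real Z - (volume.real Z - volume.real Z))) :=
    tendsto_const_nhds.sub (hv.sub_const _)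
  rw [sub_self, sub_zero] at hlo
  refine tendsto_of_tendsto_of_tendsto_of_le_of_le' hlo (hv.const_mul (d : ℝ)) ?_ ?_
  · filter_upwards [self_mem_nhdsWithin] with η hη
    have h0 : 0 < η := hη
    rw [le_div_iff₀ h0]
    have h1 := (var_limit_bounds h0 hZ hc hH).1
    have h2 := mul_le_mul_of_nonneg_left (var_int_bounds h0 hZ hne).1 hd
    linarith
  · filter_upwards [self_mem_nhdsWithin] with η hη
    have h0 : 0 < η := hη
    rw [div_le_iff₀ h0]
    have h1 := (var_limit_bounds h0 hZ hc hH).2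
    have h2 := mul_le_mul_of_nonneg_left (var_int_bounds h0 hZ hne).2 hd
    linarith

end Pool.Agent.P.MP_181257_gt
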